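import Mathlib

/-! Homogenisation of quasimorphisms and the quadratic form of a nearly quadratic function. -/

set_option autoImplicit false

namespace Pool.Agent.Lib.MP_62d77c_ag.R

open Filter Topology

/-- a quasimorphism on an abelian group is at bounded distance from a homomorphism -/
theorem a1_hom {G : Type} [AddCommGroup G] (φ : G → ℝ) {C : ℝ}
    (h : ∀ x y, |φ (x + y) - φ x - φ y| ≤ C) : ∃ ψ : G →+ ℝ, ∀ x, |ψ x - φ x| ≤ C := by
  set a : G → ℕ → ℝ := fun x n => φ ((2 ^ n : ℕ) • x) / 2 ^ n with ha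
  have step : ∀ x n, dist (a x n) (a x (n + 1)) ≤ C / 2 / 2 ^ n := fun x n => by
    have e : (2 ^ (n + 1) : ℕ) • x = (2 ^ n : ℕ) • x + (2 ^ n : ℕ) • x := by
      rw [← add_smul, pow_succ, mul_two]
    have p : (0 : ℝ) < 2 ^ n := by positivity
    have := h ((2 ^ n : ℕ) • x) ((2 ^ n : ℕ) • x)
    rw [dist_comm, Real.dist_eq, ha]
    beta_reduce
    rw [e]
    have e2 : φ ((2 ^ n : ℕ) • x + (2 ^ n : ℕ) • x) / 2 ^ (n + 1) - φ ((2 ^ n : ℕ) • x) / 2 ^ n =
        (φ ((2 ^ n : ℕ) • x + (2 ^ n : ℕ) • x) - φ ((2 ^ n : ℕ) • x) - φ ((2 ^ n : ℕ) • x)) / 2 /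
          2 ^ n := by
      field_simp
      ring
    rw [e2, abs_div, abs_div, abs_of_pos p, abs_two]
    gcongr
  have lim : ∀ x, ∃ l, Tendsto (a x) atTop (𝓝 l) := fun x =>
    cauchySeq_tendsto_of_complete (cauchySeq_of_le_geometric_two (step x))
  choose l hl using lim
  refine ⟨AddMonoidHom.mk' l fun x y => ?_, fun x => ?_⟩
  · have t1 : Tendsto (fun n => a (x + y) n - a x n - a y n) atTop (𝓝 (l (x + y) - l x - l y)) :=
      ((hl _).sub (hl _)).sub (hl _)
    have t2 : Tendsto (fun n : ℕ => C / 2 ^ n) atTop (𝓝 0) :=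
      tendsto_const_nhds.div_atTop (tendsto_pow_atTop_atTop_of_one_lt one_lt_two)
    have t3 : Tendsto (fun n => a (x + y) n - a x n - a y n) atTop (𝓝 0) := by
      refine squeeze_zero_norm (fun n => ?_) t2
      have p : (0 : ℝ) < 2 ^ n := by positivity
      rw [Real.norm_eq_abs, ha]
      beta_reduce
      rw [← sub_div, ← sub_div, abs_div, abs_of_pos p, smul_add]
      gcongr
      exact h _ _
    have := tendsto_nhds_unique t1 t3
    linarith
  · have := dist_le_of_le_geometric_two_of_tendsto₀ (step x) (hl x)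
    rw [dist_comm, Real.dist_eq] at this
    simpa [ha] using this

variable {ι : Type} [Fintype ι] [DecidableEq ι]

theorem a1_lip (r : (ι → ℤ) → ℝ) {K : ℝ} (h : ∀ D b, |r D - r (D - Pi.single b 1)| ≤ K)
    (D : ι → ℤ) : |r D - r 0| ≤ K * ∑ a, |(D a : ℝ)| := by
  have one : ∀ (E : ι → ℤ) (b : ι) (n : ℤ), |r (E + Pi.single b n) - r E| ≤ K * |(n : ℝ)| := by
    intro E b n
    induction n using Int.induction_on with
    | zero => simp
    | succ n ih =>
      have := h (E + Pi.single b ((n : ℤ) + 1)) b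
      rw [Pi.single_add, ← add_assoc, add_sub_cancel_right] at this
      rw [Pi.single_add, ← add_assoc]
      have e : |(((n : ℤ) + 1 : ℤ) : ℝ)| = |((n : ℤ) : ℝ)| + 1 := by
        push_cast
        rw [abs_of_nonneg (by positivity), abs_of_nonneg (by positivity)]
      rw [e]
      have := abs_le.1 this
      have := abs_le.1 ih
      rw [abs_le]
      constructor <;> linarith
    | pred n ih =>
      have := h (E + Pi.single b (-(n : ℤ))) b
      rw [Pi.single_sub, ← add_sub_assoc]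
      have e : |((-(n : ℤ) - 1 : ℤ) : ℝ)| = |((-(n : ℤ) : ℤ) : ℝ)| + 1 := by
        push_cast
        have : (0 : ℝ) ≤ n := by positivity
        rw [abs_of_nonpos (by linarith), abs_of_nonpos (by linarith)]
        ring
      rw [e]
      have := abs_le.1 this
      have := abs_le.1 ih
      rw [abs_le]
      constructor <;> linarith
  have key : ∀ s : Finset ι, |r (∑ a ∈ s, Pi.single a (D a)) - r 0| ≤ K * ∑ a ∈ s, |(D a : ℝ)| := by
    intro s
    induction s using Finset.induction_on with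
    | empty => simp
    | insert a s ha ih =>
      rw [Finset.sum_insert ha, Finset.sum_insert ha, add_comm (Pi.single a (D a) : ι → ℤ), mul_add]
      have := abs_le.1 (one (∑ a ∈ s, Pi.single a (D a)) a (D a))
      have := abs_le.1 ih
      rw [abs_le]
      constructor <;> linarith
  have := key Finset.univ
  rwa [Finset.univ_sum_single] at this

theorem a1_zero {u K : ℝ} (h : ∀ n : ℕ, 0 < n → |(n : ℝ) * u| ≤ K) : u = 0 := by
  by_contra hu
  have p : 0 < |u| := abs_pos.2 hu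
  obtain ⟨n, hn⟩ := exists_nat_gt (|K| / |u|)
  have n0 : 0 < n := by
    have : (0 : ℝ) < n := lt_of_le_of_lt (by positivity) hn
    exact_mod_cast this
  have := h n n0
  rw [abs_mul, Nat.abs_cast] at this
  rw [div_lt_iff₀ p] at hn
  linarith [le_abs_self K]

omit [Fintype ι] in
theorem a1_symm (ψ : ι → (ι → ℤ) →+ ℝ) (q : (ι → ℤ) → ℝ) {K : ℝ}
    (h : ∀ D b, |q D - q (D - Pi.single b 1) - ψ b D| ≤ K) (a b : ι) :
    ψ b (Pi.single a 1) = ψ a (Pi.single b 1) := by
  have ns : ∀ (c : ι) (n : ℕ) (v : ι → ℤ), ψ c (n • v) = n * ψ c v := fun c n v => by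
    rw [map_nsmul, nsmul_eq_mul]
  have one : ∀ (E : ι → ℤ) (c : ι) (n : ℕ), |q (E + n • Pi.single c 1) - q E - n * ψ c E -
      n * (n + 1) / 2 * ψ c (Pi.single c 1)| ≤ n * K := by
    intro E c n
    induction n with
    | zero => simp
    | succ n ih =>
      have := h (E + (n + 1) • Pi.single c 1) c
      rw [succ_nsmul, ← add_assoc, add_sub_cancel_right, map_add, map_add, ns] at this
      rw [succ_nsmul, ← add_assoc]
      have := abs_le.1 this
      have := abs_le.1 ih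
      rw [abs_le]
      push_cast
      constructor <;> nlinarith
  rw [← sub_eq_zero]
  refine a1_zero (K := 4 * K) fun n hn => ?_
  have h1 := abs_le.1 (one 0 a n)
  have h2 := abs_le.1 (one (0 + n • Pi.single a 1) b n)
  have h3 := abs_le.1 (one 0 b n)
  have h4 := abs_le.1 (one (0 + n • Pi.single b 1) a n)
  rw [add_right_comm] at h4
  simp only [map_add, map_zero, ns] at h1 h2 h3 h4
  have p : (0 : ℝ) < n := by exact_mod_cast hn
  refine le_of_mul_le_mul_left ?_ p
  rw [← abs_of_pos p, ← abs_mul, abs_of_pos p, abs_le]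
  constructor <;> nlinarith

theorem a1_eval (ψ : (ι → ℤ) →+ ℝ) (D : ι → ℤ) : ψ D = ∑ a, D a * ψ (Pi.single a 1) := by
  conv_lhs => rw [← Finset.univ_sum_single D, map_sum]
  refine Finset.sum_congr rfl fun a _ => ?_
  rw [← zsmul_eq_mul, ← map_zsmul, ← Pi.single_smul, smul_eq_mul, mul_one]

/-- the symmetric form attached to `d` and `q` -/
theorem a1_main (d : ι → (ι → ℤ) → ℝ) (q : (ι → ℤ) → ℝ) (g : ι → ℝ) {C : ℝ}
    (hd : ∀ b D D', |d b (D + D') - d b D - d b D'| ≤ C)
    (hq : ∀ D b, |q D - q (D - Pi.single b 1) - d b D| ≤ C)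
    (hb : ∀ c : ℝ, ∃ C', ∀ D : ι → ℤ, |∑ a, D a * g a| ≤ c → q D ≤ C') :
    ∃ β : ι → ι → ℝ, (∀ a b, β a b = β b a) ∧ (∀ b D, |∑ a, D a * β a b - d b D| ≤ C) ∧
      ∀ x : ι → ℝ, ∑ a, x a * g a = 0 → ∑ a, ∑ b, x a * x b * β a b ≤ 0 := by
  choose ψ hψ using fun b => a1_hom (d b) (hd b)
  have hq' : ∀ D b, |q D - q (D - Pi.single b 1) - ψ b D| ≤ 2 * C := fun D b => by
    have := abs_le.1 (hq D b)
    have := abs_le.1 (hψ b D)
    rw [abs_le]
    constructor <;> linarith
  set β : ι → ι → ℝ := fun a b => ψ b (Pi.single a 1) with hβ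
  have sy : ∀ a b, β a b = β b a := fun a b => a1_symm ψ q hq' a b
  have ev : ∀ b D, ψ b D = ∑ a, D a * β a b := fun b D => a1_eval (ψ b) D
  refine ⟨β, sy, fun b D => ev b D ▸ hψ b D, fun x hx => ?_⟩
  set B : (ι → ℝ) → ℝ := fun y => ∑ a, ∑ b, y a * y b * β a b with hB
  set K : ℝ := 2 * C + ∑ b, |β b b| with hK
  have lip := a1_lip (fun D => q D - B (fun a => D a) / 2) (K := K) fun D b => by
    have e : B (fun a => ((D - Pi.single b 1 : ι → ℤ) a : ℝ)) =
        B (fun a => D a) - 2 * ψ b D + β b b := by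
      have c : ∀ a, ((D - Pi.single b 1 : ι → ℤ) a : ℝ) = D a - if a = b then 1 else 0 := by
        intro a
        by_cases e : a = b
        · subst e; simp
        · simp [e]
      simp only [hB, c, sub_mul, mul_sub, Finset.sum_sub_distrib, ite_mul, mul_ite, one_mul,
        mul_one, zero_mul, mul_zero, Finset.sum_ite_eq', Finset.mem_univ, if_true]
      rw [Finset.sum_comm (f := fun a c => if a = b then (D c : ℝ) * β a c else 0)]
      simp only [Finset.sum_ite_eq', Finset.mem_univ, if_true, ev, sy b]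
      ring
    have h1 := abs_le.1 (hq' D b)
    have h2 : |β b b| ≤ ∑ b, |β b b| :=
      Finset.single_le_sum (f := fun b => |β b b|) (fun _ _ => abs_nonneg _) (Finset.mem_univ b)
    have h3 := abs_le.1 (le_refl |β b b|)
    have h4 := abs_nonneg (β b b)
    rw [e, abs_le]
    constructor <;> linarith
  obtain ⟨C', hC⟩ := hb (∑ a, |g a|)
  set D : ℕ → ι → ℤ := fun n a => ⌊(n : ℝ) * x a⌋ with hD
  have fl : ∀ n a, |(D n a : ℝ) - n * x a| ≤ 1 := fun n a => by
    have h1 := Int.floor_le ((n : ℝ) * x a)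
    have h2 := Int.lt_floor_add_one ((n : ℝ) * x a)
    rw [abs_le]
    constructor <;> linarith
  have bd : ∀ n, q (D n) ≤ C' := fun n => hC _ (by
    have e : ∑ a, (D n a : ℝ) * g a = ∑ a, ((D n a : ℝ) - n * x a) * g a := by
      simp only [sub_mul, Finset.sum_sub_distrib, mul_assoc, ← Finset.mul_sum, hx, mul_zero,
        sub_zero]
    rw [e]
    refine (Finset.abs_sum_le_sum_abs _ _).trans (Finset.sum_le_sum fun a _ => ?_)
    rw [abs_mul]
    exact mul_le_of_le_one_left (abs_nonneg _) (fl n a))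
  have inv : Tendsto (fun n : ℕ => (n : ℝ)⁻¹) atTop (𝓝 0) := tendsto_inv_atTop_nhds_zero_nat
  have ty : ∀ a, Tendsto (fun n : ℕ => (D n a : ℝ) * (n : ℝ)⁻¹) atTop (𝓝 (x a)) := fun a => by
    rw [← tendsto_sub_nhds_zero_iff]
    refine squeeze_zero_norm' ?_ inv
    filter_upwards [eventually_gt_atTop 0] with n hn
    have p : (0 : ℝ) < n := by exact_mod_cast hn
    have e : (D n a : ℝ) * (n : ℝ)⁻¹ - x a = ((D n a : ℝ) - n * x a) * (n : ℝ)⁻¹ := by field_simp
    rw [Real.norm_eq_abs, e, abs_mul, abs_of_pos (inv_pos.2 p)]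
    exact mul_le_of_le_one_left (inv_pos.2 p).le (fl n a)
  have t1 : Tendsto (fun n : ℕ => B fun a => (D n a : ℝ) * (n : ℝ)⁻¹) atTop (𝓝 (B x)) :=
    tendsto_finsetSum _ fun a _ => tendsto_finsetSum _ fun b _ =>
      ((ty a).mul (ty b)).mul_const _
  have t2 : Tendsto (fun n : ℕ => 2 * ((C' - q 0) * (n : ℝ)⁻¹ +
      K * ∑ a, |(D n a : ℝ) * (n : ℝ)⁻¹|) * (n : ℝ)⁻¹) atTop
      (𝓝 (2 * ((C' - q 0) * 0 + K * ∑ a, |x a|) * 0)) :=
    (((inv.const_mul _).add ((tendsto_finsetSum _ fun a _ => (ty a).abs).const_mul _)).const_mul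
      _).mul inv
  rw [mul_zero] at t2
  refine le_of_tendsto_of_tendsto t1 t2 ?_
  filter_upwards [eventually_gt_atTop 0] with n hn
  have p : (0 : ℝ) < n := by exact_mod_cast hn
  have pi := inv_pos.2 p
  have h1 := abs_le.1 (lip (D n))
  have e0 : B (fun a => ((0 : ι → ℤ) a : ℝ)) = 0 := by simp [hB]
  have e1 : (B fun a => (D n a : ℝ) * (n : ℝ)⁻¹) = B (fun a => D n a) * (n : ℝ)⁻¹ * (n : ℝ)⁻¹ := by
    simp only [hB, Finset.sum_mul]
    exact Finset.sum_congr rfl fun a _ => Finset.sum_congr rfl fun b _ => by ring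
  have e2 : ∑ a, |(D n a : ℝ) * (n : ℝ)⁻¹| = (∑ a, |(D n a : ℝ)|) * (n : ℝ)⁻¹ := by
    rw [Finset.sum_mul]
    exact Finset.sum_congr rfl fun a _ => by rw [abs_mul, abs_of_pos pi]
  rw [e0] at h1
  have h2 := bd n
  show (B fun a => (D n a : ℝ) * (n : ℝ)⁻¹) ≤ _
  rw [e1, e2, ← mul_assoc K, ← add_mul, ← mul_assoc 2]
  gcongr
  linarith [h1.1]

omit [DecidableEq ι] in
/-- the value of the form on a class along whose multiples `d` is known -/
theorem a1_val {β : ι → ℝ} {d : (ι → ℤ) → ℝ} {C C' r : ℝ}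
    (h : ∀ D : ι → ℤ, |∑ a, D a * β a - d D| ≤ C) (D : ι → ℤ)
    (hr : ∀ n : ℕ, |d (n • D) - n * r| ≤ C') : ∑ a, D a * β a = r := by
  rw [← sub_eq_zero]
  refine a1_zero (K := C + C') fun n _ => ?_
  have h1 := abs_le.1 (h (n • D))
  have h2 := abs_le.1 (hr n)
  have e : ∑ a, ((n • D : ι → ℤ) a : ℝ) * β a = n * ∑ a, D a * β a := by
    rw [Finset.mul_sum]
    exact Finset.sum_congr rfl fun a _ => by simp [mul_assoc]
  rw [e] at h1
  rw [mul_sub, abs_le]
  constructor <;> linarith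

end Pool.Agent.Lib.MP_62d77c_ag.R
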