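import Mathlib

/-! Quasimorphisms on a lattice and the quadratic form attached to an almost quadratic function. -/

set_option autoImplicit false

namespace Pool.Agent.Lib.MP_62d77c_ag.R

open Filter Finset Topology

/-- a real number with `n * x ≤ C` for all `n` is not positive -/
theorem a1f_nonpos {x C : ℝ} (h : ∀ n : ℕ, 0 < n → n * x ≤ C) : x ≤ 0 := by
  by_contra hx
  push Not at hx
  obtain ⟨n, hn⟩ := exists_nat_gt (C / x)
  have := h (n + 1) n.succ_pos
  rw [div_lt_iff₀ hx] at hn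
  push_cast at this
  nlinarith

/-- homogenisation of a quasimorphism on a commutative group -/
theorem a1f_hyers {G : Type} [AddCommGroup G] (f : G → ℝ) (C : ℝ)
    (h : ∀ x y, |f (x + y) - f x - f y| ≤ C) : ∃ φ : G →+ ℝ, ∀ x, |φ x - f x| ≤ C := by
  have hC : 0 ≤ C := (abs_nonneg _).trans (h 0 0)
  let u : G → ℕ → ℝ := fun x n => f (2 ^ n • x) / 2 ^ n
  have hd : ∀ x n, dist (u x n) (u x (n + 1)) ≤ C / 2 * (1 / 2) ^ n := fun x n => by
    have h1 := h (2 ^ n • x) (2 ^ n • x)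
    have e : u x n - u x (n + 1)
        = -(f (2 ^ n • x + 2 ^ n • x) - f (2 ^ n • x) - f (2 ^ n • x)) / 2 * (1 / 2) ^ n := by
      simp only [u, pow_succ, mul_nsmul', two_nsmul, smul_add, one_div, inv_pow]
      field_simp
      ring
    rw [Real.dist_eq, e, abs_mul, abs_div, abs_neg, abs_of_pos (by positivity : (0 : ℝ) < (1 / 2) ^ n),
      abs_two]
    gcongr
  have hc : ∀ x, ∃ a, Tendsto (u x) atTop (𝓝 a) := fun x =>
    cauchySeq_tendsto_of_complete (cauchySeq_of_le_geometric (1 / 2) (C / 2) (by norm_num) (hd x))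
  choose φ hφ using hc
  have hadd : ∀ x y, φ (x + y) = φ x + φ y := fun x y => by
    have h1 : Tendsto (fun n => u (x + y) n - u x n - u y n) atTop (𝓝 (φ (x + y) - φ x - φ y)) :=
      ((hφ _).sub (hφ _)).sub (hφ _)
    have h2 : Tendsto (fun n => u (x + y) n - u x n - u y n) atTop (𝓝 0) := by
      have h3 : Tendsto (fun n : ℕ => C * (1 / 2 : ℝ) ^ n) atTop (𝓝 0) := by
        simpa using (tendsto_pow_atTop_nhds_zero_of_lt_one (r := (1 / 2 : ℝ)) (by norm_num)
          (by norm_num)).const_mul C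
      refine squeeze_zero_norm (fun n => ?_) h3
      have e : u (x + y) n - u x n - u y n
          = (f (2 ^ n • x + 2 ^ n • y) - f (2 ^ n • x) - f (2 ^ n • y)) * (1 / 2) ^ n := by
        simp only [u, smul_add, one_div, inv_pow]
        field_simp
      rw [e, Real.norm_eq_abs, abs_mul, abs_of_pos (by positivity : (0 : ℝ) < (1 / 2) ^ n)]
      gcongr
      exact h _ _
    linarith [tendsto_nhds_unique h1 h2]
  refine ⟨AddMonoidHom.mk' φ hadd, fun x => ?_⟩
  have := dist_le_of_le_geometric_of_tendsto₀ (1 / 2) (C / 2) (by norm_num) (hd x) (hφ x)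
  rw [Real.dist_eq, abs_sub_comm] at this
  simp only [u, pow_zero, one_smul, div_one] at this
  calc _ ≤ _ := this
    _ = C := by ring

section quad
variable {B : Type} [Fintype B] [DecidableEq B]

/-- a function with bounded steps grows at most linearly -/
theorem a1f_step_bound (r : (B → ℤ) → ℝ) (C : ℝ) (h : ∀ D b, |r D - r (D - Pi.single b 1)| ≤ C)
    (D : B → ℤ) : |r D - r 0| ≤ C * ∑ b, |(D b : ℝ)| := by
  have key : ∀ (n : ℕ) (D : B → ℤ), ∑ b, (D b).natAbs = n → |r D - r 0| ≤ C * n := by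
    intro n
    induction n with
    | zero =>
      intro D hD
      have : D = 0 := funext fun b => Int.natAbs_eq_zero.1 (sum_eq_zero_iff.1 hD b (mem_univ b))
      simp [this]
    | succ n ih =>
      intro D hD
      obtain ⟨b, -, hb⟩ : ∃ b ∈ univ, (D b).natAbs ≠ 0 :=
        exists_ne_zero_of_sum_ne_zero (by omega)
      have hs : ∀ ε : ℤ, (D b + ε).natAbs + 1 = (D b).natAbs →
          ∑ a, ((D + Pi.single b ε : B → ℤ) a).natAbs = n := fun ε hε => by
        rw [← add_sum_erase _ _ (mem_univ b)] at hD ⊢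
        have : ∑ a ∈ univ.erase b, ((D + Pi.single b ε : B → ℤ) a).natAbs
            = ∑ a ∈ univ.erase b, (D a).natAbs :=
          sum_congr rfl fun a ha => by simp [Pi.single_eq_of_ne (ne_of_mem_erase ha)]
        simp only [Pi.add_apply, Pi.single_eq_same] at this ⊢
        omega
      push_cast
      rcases lt_or_gt_of_ne (Int.natAbs_ne_zero.1 hb) with h1 | h1
      · have h2 := ih _ (hs 1 (by omega))
        have h3 := h (D + Pi.single b 1) b
        rw [add_sub_cancel_right] at h3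
        rw [abs_le] at h2 h3 ⊢
        constructor <;> linarith [h2.1, h2.2, h3.1, h3.2]
      · have h2 := ih _ (hs (-1) (by omega))
        have h3 := h D b
        rw [Pi.single_neg, ← sub_eq_add_neg] at h2
        rw [abs_le] at h2 h3 ⊢
        constructor <;> linarith [h2.1, h2.2, h3.1, h3.2]
  have := key _ D rfl
  push_cast at this
  simpa using this

theorem a1f_line_bound {G : Type} [AddCommGroup G] (q : G → ℝ) (φ : G →+ ℝ) (e : G) (C : ℝ)
    (h : ∀ D, |q D - q (D - e) - φ D| ≤ C) (E : G) (n : ℕ) :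
    |q (E + n • e) - q E - (n * φ E + n * (n + 1) / 2 * φ e)| ≤ C * n := by
  induction n with
  | zero => simp
  | succ n ih =>
    have h1 := h (E + (n + 1) • e)
    rw [show E + (n + 1) • e - e = E + n • e by rw [succ_nsmul]; abel, map_add, map_nsmul,
      nsmul_eq_mul] at h1
    push_cast at h1 ⊢
    rw [abs_le] at h1 ih ⊢
    constructor <;> nlinarith [h1.1, h1.2, ih.1, ih.2]

theorem a1f_sym_of_steps {G : Type} [AddCommGroup G] (q : G → ℝ) (φ ψ : G →+ ℝ) (a b : G) (C : ℝ)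
    (h1 : ∀ D, |q D - q (D - a) - φ D| ≤ C) (h2 : ∀ D, |q D - q (D - b) - ψ D| ≤ C) :
    φ b ≤ ψ a := by
  rw [← sub_nonpos]
  refine a1f_nonpos (C := 4 * C) fun n hn => ?_
  have e1 := abs_le.1 (a1f_line_bound q φ a C h1 (n • b) n)
  have e2 := abs_le.1 (a1f_line_bound q ψ b C h2 0 n)
  have e3 := abs_le.1 (a1f_line_bound q ψ b C h2 (n • a) n)
  have e4 := abs_le.1 (a1f_line_bound q φ a C h1 0 n)
  rw [add_comm (n • a)] at e3
  simp only [zero_add, map_zero, map_nsmul, nsmul_eq_mul, mul_zero] at e1 e2 e3 e4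
  have hn' : (0 : ℝ) < n := by exact_mod_cast hn
  refine le_of_mul_le_mul_left ?_ hn'
  nlinarith [e1.1, e2.1, e3.2, e4.2]

theorem a1f_hom_eq_sum (φ : (B → ℤ) →+ ℝ) (D : B → ℤ) :
    φ D = ∑ a, (D a : ℝ) * φ (Pi.single a 1) := by
  conv_lhs => rw [← univ_sum_single D, map_sum]
  refine sum_congr rfl fun a _ => ?_
  rw [← zsmul_eq_mul, ← map_zsmul, ← Pi.single_smul, smul_eq_mul, mul_one]

/-- **A1** -/
theorem a1f_quad_of_steps {J : Type} [Fintype J] (q : (B → ℤ) → ℝ) (d : (B → ℤ) → B → ℝ)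
    (g : J → B → ℝ) (C : ℝ)
    (hd : ∀ b D E, |d (D + E) b - d D b - d E b| ≤ C)
    (hq : ∀ D b, |q D - q (D - Pi.single b 1) - d D b| ≤ C)
    (hS : ∀ c : ℝ, ∃ C' : ℝ, ∀ D : B → ℤ, (∀ j, |∑ b, (D b : ℝ) * g j b| ≤ c) → q D ≤ C') :
    ∃ β : B → B → ℝ, (∀ a b, β a b = β b a) ∧
      (∀ D b, |∑ a, (D a : ℝ) * β a b - d D b| ≤ C) ∧
      ∀ x : B → ℝ, (∀ j, ∑ b, x b * g j b = 0) → ∑ a, ∑ b, x a * β a b * x b ≤ 0 := by
  choose φ hφ using fun b => a1f_hyers (fun D => d D b) C (hd b)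
  have h1 : ∀ b D, |q D - q (D - Pi.single b 1) - φ b D| ≤ 2 * C := fun b D => by
    have e1 := abs_le.1 (hq D b)
    have e2 := abs_le.1 (hφ b D)
    rw [abs_le]
    constructor <;> linarith [e1.1, e1.2, e2.1, e2.2]
  let β : B → B → ℝ := fun a b => φ b (Pi.single a 1)
  have hs : ∀ a b, β a b = β b a := fun a b =>
    le_antisymm (a1f_sym_of_steps q _ _ _ _ _ (h1 b) (h1 a)) (a1f_sym_of_steps q _ _ _ _ _ (h1 a) (h1 b))
  refine ⟨β, hs, fun D b => by rw [← a1f_hom_eq_sum]; exact hφ b D, fun x hx => ?_⟩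
  let Q : (B → ℝ) → (B → ℝ) → ℝ := fun y z => ∑ a, ∑ b, y a * β a b * z b
  have hQ : ∀ y z, Q y z = Q z y := fun y z => by
    simp only [Q]
    rw [sum_comm]
    exact sum_congr rfl fun a _ => sum_congr rfl fun b _ => by rw [hs b a]; ring
  have hexp : ∀ (t : ℝ) (y z : B → ℝ),
      Q (t • y - z) (t • y - z) = t ^ 2 * Q y y - t * (Q y z + Q z y) + Q z z := fun t y z => by
    simp only [Q, mul_sum, ← sum_add_distrib, ← sum_sub_distrib, Pi.sub_apply, Pi.smul_apply,
      smul_eq_mul]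
    exact sum_congr rfl fun a _ => sum_congr rfl fun b _ => by ring
  set M : ℝ := ∑ a, ∑ b, |β a b|
  have hb : ∀ (y z : B → ℝ) (s t : ℝ), 0 ≤ s → (∀ a, |y a| ≤ s) → (∀ a, |z a| ≤ t) →
      |Q y z| ≤ s * M * t := fun y z s t h0 hy hz => by
    simp only [Q, M, mul_sum, sum_mul]
    refine (abs_sum_le_sum_abs _ _).trans (sum_le_sum fun a _ =>
      (abs_sum_le_sum_abs _ _).trans (sum_le_sum fun b _ => ?_))
    rw [abs_mul, abs_mul]
    gcongr
    exacts [hy a, hz b]
  have hM : 0 ≤ M := by positivity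
  let c : (B → ℤ) → B → ℝ := fun D a => D a
  have hr : ∀ D b, |(q D - Q (c D) (c D) / 2)
      - (q (D - Pi.single b 1) - Q (c (D - Pi.single b 1)) (c (D - Pi.single b 1)) / 2)|
      ≤ 2 * C + M := fun D b => by
    have e0 : c (D - Pi.single b 1) = (1 : ℝ) • c D - Pi.single b 1 := by
      funext a
      by_cases h : a = b <;> simp [c, h]
    have e1 : Q (c D) (Pi.single b 1) = φ b D := by
      rw [a1f_hom_eq_sum]
      exact sum_congr rfl fun a _ => by simp [Pi.single_apply, c, β]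
    have e2 := abs_le.1 (hb (Pi.single b 1) (Pi.single b 1) 1 1 zero_le_one
      (fun a => by by_cases h : a = b <;> simp [h]) (fun a => by by_cases h : a = b <;> simp [h]))
    have e3 := abs_le.1 (h1 b D)
    rw [e0, hexp, hQ (Pi.single b 1) (c D), e1, abs_le]
    constructor <;> linarith [e2.1, e2.2, e3.1, e3.2]
  obtain ⟨C', hC'⟩ := hS (∑ j, ∑ b, |g j b|)
  set s : ℝ := ∑ a, |x a|
  have hs0 : 0 ≤ s := by positivity
  have hxs : ∀ a, |x a| ≤ s := fun a => single_le_sum (f := fun a => |x a|)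
    (fun _ _ => abs_nonneg _) (mem_univ a)
  rcases isEmpty_or_nonempty B with hB | ⟨⟨b₀⟩⟩
  · simp
  have hC : 0 ≤ 2 * C + M := (abs_nonneg _).trans (hr 0 b₀)
  refine a1f_nonpos (C := 2 * (|C'| + |q 0| + (2 * C + M) * (s + Fintype.card B)) + 2 * s * M + M)
    fun n hn => ?_
  have hn' : (1 : ℝ) ≤ n := by exact_mod_cast hn
  let D : B → ℤ := fun a => ⌊n * x a⌋
  let z : B → ℝ := fun a => Int.fract (n * x a)
  have hz : ∀ a, |z a| ≤ 1 := fun a => by
    rw [abs_of_nonneg (Int.fract_nonneg _)]; exact (Int.fract_lt_one _).le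
  have e0 : c D = (n : ℝ) • x - z := by
    funext a; simp [c, D, z]
  have e1 : q D ≤ C' := hC' D fun j => by
    have : ∑ b, (D b : ℝ) * g j b = n * ∑ b, x b * g j b - ∑ b, z b * g j b := by
      rw [mul_sum, ← sum_sub_distrib]
      exact sum_congr rfl fun b _ => by
        rw [show (D b : ℝ) = _ from congrFun e0 b]; simp; ring
    rw [this, hx, mul_zero, zero_sub, abs_neg]
    refine (abs_sum_le_sum_abs _ _).trans ((sum_le_sum fun b _ => ?_).trans
      (single_le_sum (f := fun j => ∑ b, |g j b|) (fun _ _ => by positivity) (mem_univ j)))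
    rw [abs_mul]
    exact mul_le_of_le_one_left (abs_nonneg _) (hz b)
  have e2 := abs_le.1 (a1f_step_bound (fun D => q D - Q (c D) (c D) / 2) _ hr D)
  have e3 : ∑ b, |(D b : ℝ)| ≤ n * s + Fintype.card B := by
    rw [mul_sum, show (Fintype.card B : ℝ) = ∑ _b : B, (1 : ℝ) by simp, ← sum_add_distrib]
    refine sum_le_sum fun b _ => ?_
    rw [show (D b : ℝ) = _ from congrFun e0 b]
    refine (abs_sub _ _).trans (add_le_add ?_ (hz b))
    simp [abs_mul]
  have e4 : Q (c 0) (c 0) = 0 := by simp [Q, c]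
  have e5 := abs_le.1 (hb x z s 1 hs0 hxs hz)
  have e6 := abs_le.1 (hb z z 1 1 zero_le_one hz hz)
  simp only [e4] at e2
  rw [e0, hexp, hQ z x] at e2
  have e7 := mul_le_mul_of_nonneg_left e3 hC
  refine le_of_mul_le_mul_left (a := (n : ℝ)) ?_ (by linarith)
  have e8 : (0 : ℝ) ≤ Fintype.card B := Nat.cast_nonneg _
  have e9 : (2 * C + M) * Fintype.card B ≤ n * ((2 * C + M) * Fintype.card B) :=
    le_mul_of_one_le_left (mul_nonneg hC e8) hn'
  have f1 : |C'| ≤ n * |C'| := le_mul_of_one_le_left (abs_nonneg _) hn'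
  have f2 : |q 0| ≤ n * |q 0| := le_mul_of_one_le_left (abs_nonneg _) hn'
  have f3 : M ≤ n * M := le_mul_of_one_le_left hM hn'
  have f4 : n * Q x z ≤ n * (s * M * 1) := mul_le_mul_of_nonneg_left e5.2 (by linarith)
  change n * (n * Q x x) ≤ _
  nlinarith [e2.1, le_abs_self C', neg_abs_le (q 0), e6.1]

end quad

end Pool.Agent.Lib.MP_62d77c_ag.R
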