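import Mathlib

/-! A real vector orthogonal to the kernel of the push-forward. -/

set_option autoImplicit false

namespace Pool.Agent.Lib.MP_62d77c_ag.R

open Finset

section abs
variable {V : Type} [AddCommGroup V] [Module ℝ V]

theorem a2_solve [FiniteDimensional ℝ V] (β : V →ₗ[ℝ] V →ₗ[ℝ] ℝ) (hs : ∀ x y, β x y = β y x)
    (E : Submodule ℝ V) (u : V) (h : ∀ b ∈ E, (∀ x ∈ E, β b x = 0) → β u b = 0) :
    ∃ b ∈ E, ∀ x ∈ E, β (u + b) x = 0 := by
  let f : E →ₗ[ℝ] Module.Dual ℝ E := (β.domRestrict₁₂ E E)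
  have hm : (β u).domRestrict E ∈ LinearMap.range f := by
    by_contra hn
    obtain ⟨Ψ, h1, h2⟩ := Submodule.exists_dual_map_eq_bot_of_notMem hn inferInstance
    obtain ⟨x, rfl⟩ := (Module.evalEquiv ℝ E).surjective Ψ
    refine h1 (h x x.2 fun y hy => ?_)
    have : Module.evalEquiv ℝ E x (f ⟨y, hy⟩) ∈ (⊥ : Submodule ℝ ℝ) :=
      h2 ▸ Submodule.mem_map_of_mem (LinearMap.mem_range_self f _)
    rw [hs]
    exact this
  obtain ⟨b, hb⟩ := hm
  refine ⟨-b, neg_mem b.2, fun x hx => ?_⟩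
  have : β b x = β u x := LinearMap.congr_fun hb ⟨x, hx⟩
  simp [this]

theorem a2_semi (β : V →ₗ[ℝ] V →ₗ[ℝ] ℝ) (hs : ∀ x y, β x y = β y x) (N : Submodule ℝ V)
    (hN : ∀ x ∈ N, β x x ≤ 0) {b : V} (hb : b ∈ N) (h0 : β b b = 0) {x : V} (hx : x ∈ N) :
    β b x = 0 := by
  have key : ∀ t : ℝ, 2 * t * β b x + β x x ≤ 0 := fun t => by
    have := hN (t • b + x) (add_mem (N.smul_mem t hb) hx)
    simp only [map_add, map_smul, LinearMap.add_apply, LinearMap.smul_apply, smul_eq_mul, h0,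
      hs x b] at this
    linarith
  by_contra hne
  have := key ((1 - β x x) / (2 * β b x))
  have e : 2 * ((1 - β x x) / (2 * β b x)) * β b x = 1 - β x x := by field_simp
  linarith

theorem a2_span {J : Type} [Fintype J] (Z : J → J → ℝ) (z : J → ℝ)
    (h : ∀ c : J → ℝ, (∀ k, ∑ j, c j * Z j k = 0) → ∑ j, c j * z j = 0) :
    ∃ a : J → ℝ, ∀ j, z j = ∑ k, a k * Z j k := by
  classical
  have hm : z ∈ Submodule.span ℝ (Set.range fun k j => Z j k) := by
    by_contra hn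
    obtain ⟨Ψ, h1, h2⟩ := Submodule.exists_dual_map_eq_bot_of_notMem hn inferInstance
    have e : ∀ y : J → ℝ, Ψ y = ∑ j, Ψ (fun i => if j = i then 1 else 0) * y j := fun y => by
      rw [LinearMap.pi_apply_eq_sum_univ]
      exact sum_congr rfl fun j _ => mul_comm _ _
    refine h1 ((e z).trans (h _ fun k => (e _).symm.trans ?_))
    have : Ψ (fun j => Z j k) ∈ (⊥ : Submodule ℝ ℝ) :=
      h2 ▸ Submodule.mem_map_of_mem (Submodule.subset_span ⟨k, rfl⟩)
    exact this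
  obtain ⟨a, ha⟩ := (Submodule.mem_span_range_iff_exists_fun ℝ).1 hm
  exact ⟨a, fun j => by rw [← ha]; simp⟩

theorem a2_lap {J : Type} [Fintype J] (Z : J → J → ℝ) (hs : ∀ j k, Z j k = Z k j)
    (hp : ∀ j k, j ≠ k → 0 ≤ Z j k) (h0 : ∀ j, ∑ k, Z j k = 0) (c : J → ℝ)
    (hc : ∀ k, ∑ j, c j * Z j k = 0) {j k : J} (hne : Z j k ≠ 0) : c j = c k := by
  have e : ∑ j, ∑ k, Z j k * (c j - c k) ^ 2 = 0 := by
    have e1 : ∑ j, ∑ k, Z j k * c j ^ 2 = 0 :=
      sum_eq_zero fun j _ => by rw [← sum_mul, h0, zero_mul]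
    have e2 : ∑ j, ∑ k, Z j k * c k ^ 2 = 0 := by
      rw [sum_comm]
      exact sum_eq_zero fun k _ => by simp only [hs _ k]; rw [← sum_mul, h0, zero_mul]
    have e3 : ∑ j, ∑ k, c j * Z j k * c k = 0 := by
      rw [sum_comm]
      exact sum_eq_zero fun k _ => by rw [← sum_mul, hc, zero_mul]
    calc _ = ∑ j, ∑ k, Z j k * c j ^ 2 + ∑ j, ∑ k, Z j k * c k ^ 2
        - 2 * ∑ j, ∑ k, c j * Z j k * c k := by
          simp only [mul_sum, ← sum_add_distrib, ← sum_sub_distrib]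
          exact sum_congr rfl fun j _ => sum_congr rfl fun k _ => by ring
      _ = 0 := by rw [e1, e2, e3]; ring
  have hn : ∀ j k, 0 ≤ Z j k * (c j - c k) ^ 2 := fun j k => by
    by_cases h : j = k
    · simp [h]
    · exact mul_nonneg (hp j k h) (sq_nonneg _)
  have e1 := (sum_eq_zero_iff_of_nonneg fun j _ => sum_nonneg fun k _ => hn j k).1 e j (mem_univ j)
  have e2 := (sum_eq_zero_iff_of_nonneg fun k _ => hn j k).1 e1 k (mem_univ k)
  exact sub_eq_zero.1 (pow_eq_zero_iff two_ne_zero |>.1 ((mul_eq_zero.1 e2).resolve_left hne))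

theorem a2_abs [FiniteDimensional ℝ V] {J : Type} [Fintype J] (β : V →ₗ[ℝ] V →ₗ[ℝ] ℝ)
    (hs : ∀ x y, β x y = β y x) (g : J → V →ₗ[ℝ] ℝ)
    (hneg : ∀ x, (∀ j, g j x = 0) → β x x ≤ 0) (h : J → V)
    (hh : ∀ j x, (∀ i, g i x = 0) → β (h j) x = 0) (hg : ∀ i j, i ≠ j → g i (h j) = 0)
    (hg' : ∀ j, g j (h j) ≠ 0) (E : Submodule ℝ V) (y : J → V) (hy : ∀ k, y k ∈ E) (u : V)
    (hyE : ∀ k, ∀ x ∈ E, β (y k) x = 0) (hyu : ∀ k, β (y k) u = 0)
    (hZ : ∀ c : J → ℝ, (∀ k, ∑ j, c j * g j (y k) = 0) → ∀ b ∈ E, ∑ j, c j * g j b = 0) :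
    ∃ b ∈ E, ∀ x ∈ E, β (u + b) x = 0 := by
  refine a2_solve β hs E u fun b hb hr => ?_
  obtain ⟨a, ha⟩ := a2_span (fun j k => g j (y k)) (fun j => g j b) fun c hc => hZ c hc b hb
  let N : Submodule ℝ V := ⨅ j, LinearMap.ker (g j)
  have hN : ∀ x, x ∈ N ↔ ∀ j, g j x = 0 := fun x => by simp [N]
  set b' := b - ∑ k, a k • y k with hb'
  have h1 : b' ∈ N := (hN _).2 fun j => by simp [hb', ha j]
  have h2 : b' ∈ E := sub_mem hb (sum_mem fun k _ => E.smul_mem _ (hy k))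
  have h3 : β b' b' = 0 := by
    conv_lhs => enter [1]; rw [hb']
    simp [hr b' h2, fun k => hyE k b' h2]
  have h4 : u - ∑ j, (g j u / g j (h j)) • h j ∈ N := (hN _).2 fun i => by
    rw [map_sub, map_sum, sum_eq_single i]
    · simp [hg' i]
    · intro j _ hj; simp [hg i j hj.symm]
    · simp
  have h5 := a2_semi β hs N (fun x hx => hneg x ((hN x).1 hx)) h1 h3 h4
  have h6 : ∀ j, β b' (h j) = 0 := fun j => (hs _ _).trans (hh j b' ((hN _).1 h1))
  simp only [map_sub, map_sum, map_smul, h6, smul_zero, sum_const_zero, sub_zero] at h5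
  rw [hb'] at h5
  simpa [hyu, hs u b] using h5

end abs

/-- **A2**.  `B` primes of the normalised components, `j b` the component, `w b` the surface below,
`ρ b` the multiplicity of the push-forward, `deg` the degree of a surface. -/
theorem a2_main {B J W : Type} [Fintype B] [Fintype J] [DecidableEq J] [DecidableEq W]
    (j : B → J) (w : B → W) (ρ : B → ℝ) (hρ : ∀ b, ρ b ≠ 0) (deg : W → ℝ) (g : J → B → ℝ)
    (hgd : ∀ i b, g i b = if j b = i then ρ b * deg (w b) else 0)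
    (β : B → B → ℝ) (hs : ∀ a b, β a b = β b a)
    (hneg : ∀ x : B → ℝ, (∀ i, ∑ b, x b * g i b = 0) → ∑ a, ∑ b, x a * β a b * x b ≤ 0)
    (h : J → B → ℝ) (e : J → ℝ) (hh : ∀ i b, ∑ a, h i a * β a b = e i * g i b)
    (hsupp : ∀ i b, j b ≠ i → h i b = 0) (hdeg : ∀ i, ∑ b, h i b * g i b ≠ 0)
    (y : J → B → ℝ) (hy : ∀ k V, ∑ b with w b = V, ρ b * y k b = 0)
    (γ : J → W → ℝ) (hγ : ∀ k b, ∑ a, y k a * β a b = ρ b * γ k (w b))
    (hZs : ∀ i k, ∑ b, y k b * g i b = ∑ b, y i b * g k b)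
    (hZp : ∀ i k, i ≠ k → 0 ≤ ∑ b, y k b * g i b) (hZ0 : ∀ b, ∑ k, y k b = 0)
    (hZn : ∀ a b, w a = w b → j a ≠ j b → ∑ c, y (j b) c * g (j a) c ≠ 0)
    (u : B → ℝ) (hu : ∀ k, ∑ b, u b * (ρ b * γ k (w b)) = 0) :
    ∃ v : B → ℝ, (∀ V, ∑ b with w b = V, ρ b * v b = ∑ b with w b = V, ρ b * u b) ∧
      ∀ b b', w b = w b' → (∑ a, v a * β a b) / ρ b = (∑ a, v a * β a b') / ρ b' := by
  classical
  let Φ : (B → ℝ) →ₗ[ℝ] (B → ℝ) →ₗ[ℝ] ℝ := Matrix.toBilin' (Matrix.of β)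
  have hΦ : ∀ x z, Φ x z = ∑ a, ∑ b, x a * β a b * z b := fun x z => by
    simp [Φ, Matrix.toBilin'_apply]
  have hΦ' : ∀ x z, Φ x z = ∑ b, z b * ∑ a, x a * β a b := fun x z => by
    rw [hΦ, sum_comm]
    exact sum_congr rfl fun b _ => by rw [← sum_mul, mul_comm]
  let lin : (B → ℝ) → (B → ℝ) →ₗ[ℝ] ℝ := fun c =>
    { toFun := fun x => ∑ b, x b * c b
      map_add' := fun x z => by simp [add_mul, sum_add_distrib]
      map_smul' := fun t x => by simp [mul_sum, mul_assoc] }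
  have hl : ∀ c x, lin c x = ∑ b, x b * c b := fun _ _ => rfl
  let E : Submodule ℝ (B → ℝ) := ⨅ V, LinearMap.ker (lin fun b => if w b = V then ρ b else 0)
  have hE : ∀ x, x ∈ E ↔ ∀ V, ∑ b with w b = V, ρ b * x b = 0 := fun x => by
    simp only [E, Submodule.mem_iInf, LinearMap.mem_ker, hl, sum_filter, mul_ite, mul_zero,
      ite_mul, zero_mul, mul_comm (x _)]
  have hpush : ∀ x ∈ E, ∀ c : W → ℝ, ∑ b, x b * (ρ b * c (w b)) = 0 := fun x hx c => by
    rw [← sum_fiberwise_of_maps_to (t := univ.image w) (g := w) fun b hb => mem_image_of_mem w hb]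
    refine sum_eq_zero fun V _ => ?_
    rw [← mul_zero (c V), ← (hE x).1 hx V, mul_sum]
    exact sum_congr rfl fun b hb => by rw [(mem_filter.1 hb).2]; ring
  obtain ⟨b, hb, hv⟩ := a2_abs Φ (fun x z => by
      rw [hΦ, hΦ, sum_comm]
      exact sum_congr rfl fun a _ => sum_congr rfl fun b _ => by rw [hs b a]; ring)
    (fun i => lin (g i)) (fun x hx => (hΦ x x).trans_le (hneg x hx)) h
    (fun i x hx => by
      rw [hΦ', ← mul_zero (e i), ← hx i, hl, mul_sum]
      exact sum_congr rfl fun b _ => by rw [hh]; ring)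
    (fun i k hik => sum_eq_zero fun b _ => by
      by_cases hb : j b = k
      · rw [hgd, if_neg (hb ▸ hik.symm), mul_zero]
      · rw [hsupp k b hb, zero_mul])
    hdeg E y (fun k => (hE _).2 (hy k)) u
    (fun k x hx => by rw [hΦ']; simp only [hγ]; exact hpush x hx _)
    (fun k => by rw [hΦ']; simp only [hγ]; exact hu k)
    (fun c hc x hx => by
      have hcc : ∀ a b, w a = w b → c (j a) = c (j b) := fun a b hab => by
        by_cases hj : j a = j b
        · rw [hj]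
        · refine a2_lap (fun i k => ∑ b, y k b * g i b) hZs hZp (fun i => ?_) c hc (hZn a b hab hj)
          rw [sum_comm]
          exact sum_eq_zero fun b _ => by rw [← sum_mul, hZ0, zero_mul]
      let c' : W → ℝ := fun V => if h : ∃ a, w a = V then c (j h.choose) * deg V else 0
      rw [← hpush x hx c']
      simp only [hl, mul_sum]
      rw [sum_comm]
      refine sum_congr rfl fun b _ => ?_
      have hex : ∃ a, w a = w b := ⟨b, rfl⟩
      rw [sum_eq_single (j b)]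
      · simp only [c', dif_pos hex, hcc _ b hex.choose_spec, hgd, if_pos]
        ring
      · intro i _ hi; rw [hgd, if_neg hi.symm]; simp
      · simp)
  refine ⟨u + b, fun V => ?_, fun a a' haa => ?_⟩
  · simp only [Pi.add_apply, mul_add, sum_add_distrib, (hE b).1 hb V, add_zero]
  · have hx : (Pi.single a (ρ a)⁻¹ - Pi.single a' (ρ a')⁻¹ : B → ℝ) ∈ E := (hE _).2 fun V => by
      simp only [Pi.sub_apply, mul_sub, sum_sub_distrib, Pi.single_apply, mul_ite, mul_zero,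
        sum_ite_eq', mem_filter, mem_univ, true_and, haa, mul_inv_cancel₀ (hρ _), sub_self]
    have := hv _ hx
    rw [map_sub, hΦ', hΦ', sub_eq_zero] at this
    simpa [Pi.single_apply, div_eq_inv_mul] using this

end Pool.Agent.Lib.MP_62d77c_ag.R
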