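import Pool.Agent.Lib.MP_a460e0_co.GK.Pit

/-! The dimension formula for domains of finite type over a field. -/

set_option autoImplicit false

namespace Pool.Agent.Lib.MP_62d77c_ag.R

open Pool.Agent.Lib.MP_a460e0_co.GK.Pit

variable {K A : Type} [Field K] [CommRing A] [Algebra K A]

theorem n1h_up {W S : Ideal A} [W.IsPrime] (h : W < S) {r : ℕ} (hS : DimA K S r) :
    DimA K W (r + 1) := by
  obtain ⟨φ, hφS, hφW⟩ := SetLike.exists_of_lt h
  obtain ⟨f, hf⟩ := dimGE_iff_aeval.1 hS
  have ev : ∀ g : MvPolynomial (Fin r) K,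
      MvPolynomial.aeval (fun i => Ideal.Quotient.mk W (f i)) g =
        Ideal.Quotient.mk W (MvPolynomial.aeval f g) := fun g => by
    simpa using (MvPolynomial.comp_aeval_apply (f := f) (Ideal.Quotient.mkₐ K W) g).symm
  have h1 : AlgebraicIndependent K (fun i => Ideal.Quotient.mk W (f i)) :=
    algebraicIndependent_iff.2 fun g hg =>
      hf g (h.le (Ideal.Quotient.eq_zero_iff_mem.1 (ev g ▸ hg)))
  have h0 : Ideal.Quotient.mk W φ ≠ 0 := fun e => hφW (Ideal.Quotient.eq_zero_iff_mem.1 e)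
  have h2 : Transcendental (Algebra.adjoin K (Set.range fun i => Ideal.Quotient.mk W (f i)))
      (Ideal.Quotient.mk W φ) := fun ha => by
    obtain ⟨⟨c, hc⟩, hc0, d, hd⟩ := ha.exists_nonzero_dvd (mem_nonZeroDivisors_of_ne_zero h0)
    obtain ⟨g, rfl⟩ : ∃ g : MvPolynomial (Fin r) K,
        MvPolynomial.aeval (fun i => Ideal.Quotient.mk W (f i)) g = c := by
      rw [Algebra.adjoin_range_eq_range_aeval] at hc
      exact hc
    obtain ⟨d, rfl⟩ := Ideal.Quotient.mk_surjective d
    have e : MvPolynomial.aeval f g - φ * d ∈ W := by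
      rw [← Ideal.Quotient.eq, ← ev, map_mul]; exact hd
    have : g = 0 := hf g (by simpa using add_mem (h.le e) (S.mul_mem_right d hφS))
    exact hc0 (Subtype.ext (by simp [this]))
  have h3 := (h1.option_iff_transcendental _).2 h2
  refine dimGE_of_le_trdeg ?_
  simpa using h3.cardinalMk_le_trdeg

theorem n1h_fin [Algebra.FiniteType K A] (q : Ideal A) [q.IsPrime] :
    ∃ s : ℕ, Algebra.trdeg K (A ⧸ q) = s :=
  Cardinal.lt_aleph0.1 trdeg_lt_aleph0_of_finiteType

/-- height plus dimension of the quotient is the dimension -/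
theorem n1h_dim [IsDomain A] [Algebra.FiniteType K A] {r : ℕ} (hr : Algebra.trdeg K A = r)
    (q : Ideal A) [q.IsPrime] {s : ℕ} (hs : Algebra.trdeg K (A ⧸ q) = s) :
    q.height + s = r := by
  have : IsNoetherianRing A := Algebra.FiniteType.isNoetherianRing K A
  obtain ⟨h, hh⟩ := ENat.ne_top_iff_exists.1 (q.height_ne_top Ideal.IsPrime.ne_top')
  rw [← hh]
  induction h generalizing q s with
  | zero =>
    obtain rfl : q = ⊥ := Ideal.height_eq_zero_iff_eq_bot.1 hh.symm
    rw [(AlgEquiv.quotientBot K A).trdeg_eq, hr] at hs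
    simpa using hs.symm
  | succ h ih =>
    have e := PrimeSpectrum.height_eq_orderHeight (⟨q, ‹_›⟩ : PrimeSpectrum A)
    rw [← hh, Nat.cast_succ, eq_comm, Order.height_eq_coe_add_one_iff] at e
    obtain ⟨-, ⟨W, hW, hWh⟩, hle⟩ := e
    rw [← PrimeSpectrum.height_eq_orderHeight] at hWh
    obtain ⟨t, ht⟩ := n1h_fin (K := K) W.asIdeal
    have h1 := ih W.asIdeal ht hWh.symm
    have hlt : W.asIdeal < q := hW
    have h2 : s + 1 ≤ t := by
      have := (n1h_up hlt (dimGE_of_le_trdeg (K := K) hs.ge)).le_trdeg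
      rw [ht] at this
      exact_mod_cast this
    obtain ⟨t, rfl⟩ : ∃ u, t = u + 1 := ⟨t - 1, by omega⟩
    obtain ⟨φ, hφS, hφW⟩ := SetLike.exists_of_lt hlt
    obtain ⟨S, hS, h3, h4, h5, h6⟩ := exists_cut (K := K) hlt.le hφS
    have h7 : S = q := by
      by_contra hc
      have a1 := hle ⟨S, hS⟩ (lt_of_le_of_ne h5 hc : S < q)
      rw [← PrimeSpectrum.height_eq_orderHeight] at a1
      have a2 := Ideal.height_strict_mono_of_isPrime (I := W.asIdeal) (J := S)
        (lt_of_le_of_ne h3 fun e => hφW (e ▸ h4))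
      rw [hWh] at a2
      exact absurd a1 a2.not_ge
    have h8 := (h6 t (dimGE_of_le_trdeg ht.ge)).le_trdeg
    rw [h7, hs] at h8
    have h9 : t ≤ s := by exact_mod_cast h8
    have h10 : h + (t + 1) = r := by exact_mod_cast h1
    exact_mod_cast (by omega : h + 1 + s = r)

end Pool.Agent.Lib.MP_62d77c_ag.R
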