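import Pool.Agent.Lib.MP_62d77c_ag.R.Df
import Pool.Agent.Lib.MP_62d77c_ag.R.N1h
import Pool.Agent.Lib.MP_62d77c_ag.End.Fib0

/-! The local rings of the model and their dimensions. -/

set_option autoImplicit false
set_option linter.unusedSectionVars false
set_option linter.style.haveILetI false

namespace Pool.Agent.Lib.MP_62d77c_ag.R

open Filter Polynomial Submodule

noncomputable section

variable {A : Type} [CommRing A] [IsDomain A] {𝒜 : ℕ → AddSubgroup A} [GradedRing 𝒜]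
  [hG : Fact (Gen 𝒜)] {p : ℕ} [Fact p.Prime]

theorem lo_reg (h : Hyp 𝒜) (y : Pt 𝒜) : IsRegularLocalRing (Lo y) := h.reg y

theorem lo_ufd (h : Hyp 𝒜) (y : Pt 𝒜) : UniqueFactorizationMonoid (Lo y) :=
  snc_ufd (MX 𝒜) (on_MX y) fun y' _ => h.reg y'

/-- the prime of the local ring at `y` given by the point `z` -/
def loP (y z : Pt 𝒜) : Ideal (Lo y) := sncE y (pr z)

theorem loP_prime {y z : Pt 𝒜} (h : pr z ≤ pr y) : (loP y z).IsPrime := sncE_prime h

theorem mem_loP {y z : Pt 𝒜} (h : pr z ≤ pr y) {n : ℕ} {a : A} (ha : a ∈ 𝒜 n) :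
    algebraMap A (Lo y) a ∈ loP y z ↔ a ∈ pr z :=
  mem_sncE_pr h ha (md_pow_mem (ell_spec y).1 n) (md_pow_not_mem (ell_spec y).2 n) (deh_val y ha)

theorem loP_surj {y : Pt 𝒜} (P : Ideal (Lo y)) (hP : P.IsPrime) :
    ∃ z : Pt 𝒜, pr z ≤ pr y ∧ loP y z = P := sncE_surj P hP

theorem loP_le {y z z' : Pt 𝒜} (h' : pr z' ≤ pr y) : loP y z ≤ loP y z' ↔ pr z ≤ pr z' :=
  ⟨le_of_sncE_le h' (pr_hom z), sncE_mono y⟩

theorem loP_lt {y z z' : Pt 𝒜} (h : pr z ≤ pr y) (h' : pr z' ≤ pr y) :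
    loP y z < loP y z' ↔ pr z < pr z' := by
  rw [lt_iff_le_not_ge, lt_iff_le_not_ge, loP_le h, loP_le h']

theorem loP_p {y z : Pt 𝒜} (h : pr z ≤ pr y) : (p : Lo y) ∈ loP y z ↔ (p : A) ∈ pr z :=
  snc_p_mem h

theorem loP_self (y : Pt 𝒜) : loP y y = IsLocalRing.maximalIdeal (Lo y) := by
  obtain ⟨z, h, e⟩ := loP_surj (IsLocalRing.maximalIdeal (Lo y)) inferInstance
  exact le_antisymm (IsLocalRing.le_maximalIdeal (loP_prime le_rfl).ne_top)
    (e ▸ (loP_le le_rfl).2 h)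

/-- primes of the local ring are points -/
theorem lo_prime (y : Pt 𝒜) (P : Ideal (Lo y)) [P.IsPrime] : ∃ y' : Pt 𝒜, pr y' ≤ pr y ∧
    ∀ n, ∀ a ∈ 𝒜 n, algebraMap A (Lo y) a ∈ P ↔ a ∈ pr y' := by
  obtain ⟨z, h, rfl⟩ := loP_surj P ‹_›
  exact ⟨z, h, fun _ _ ha => mem_loP h ha⟩

theorem eq_loP {y z : Pt 𝒜} (h : pr z ≤ pr y) {P : Ideal (Lo y)} (hP : P.IsPrime)
    (e : ∀ n, ∀ a ∈ 𝒜 n, algebraMap A (Lo y) a ∈ P ↔ a ∈ pr z) : P = loP y z := by
  obtain ⟨z', h', rfl⟩ := loP_surj P hP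
  exact le_antisymm
    ((loP_le h).2 (md_le_of_hom (pr_hom z') fun n a ha k => (e n a ha).1 ((mem_loP h' ha).2 k)))
    ((loP_le h').2 (md_le_of_hom (pr_hom z) fun n a ha k => (mem_loP h' ha).1 ((e n a ha).2 k)))

/-- dimension of the cone over a subvariety -/
theorem Dm_trdeg {B : Type} [CommRing B] [Algebra (ZMod p) B] (φ : A →+* B)
    (hs : Function.Surjective φ) (x : Vp 𝒜 p) (hk : ∀ a, φ a = 0 ↔ a ∈ pr x.1) :
    Algebra.trdeg (ZMod p) B = (dm x + 1 : ℕ) := by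
  obtain ⟨θ, hθ, hker⟩ := dimc_cone x.1
  let ψ : B →+* (kap x.1)[X] :=
    φ.liftOfSurjective hs ⟨θ, fun a ha => (hker a).2 ((hk a).1 ha)⟩
  have hψ : ∀ a, ψ (φ a) = θ a := fun a => φ.liftOfRightInverse_comp_apply _ _ _ a
  have hi : Function.Injective ψ := (injective_iff_map_eq_zero _).2 fun b hb => by
    obtain ⟨a, rfl⟩ := hs b
    exact (hk a).2 ((hker a).1 ((hψ a).symm.trans hb))
  letI : Algebra B (kap x.1)[X] := ψ.toAlgebra
  haveI : IsDomain B := hi.isDomain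
  haveI : FaithfulSMul B (kap x.1)[X] := (faithfulSMul_iff_algebraMap_injective _ _).2 hi
  haveI : IsScalarTower (ZMod p) B (kap x.1)[X] := .of_algebraMap_eq' (Subsingleton.elim _ _)
  have ha : ∀ a : A, IsAlgebraic B (θ a) := fun a => hψ a ▸ isAlgebraic_algebraMap (φ a)
  haveI : Algebra.IsAlgebraic B (kap x.1)[X] := ⟨fun z => by
    induction z using Polynomial.induction_on' with
    | add z w h2 h3 => exact h2.add h3
    | monomial n c =>
      obtain ⟨m, a, ha1, b, hb1, hb, rfl⟩ := th_gen x.1 c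
      have hb0 : th x.1 b ≠ 0 := fun e0 => hb ((th_eq_zero _ hb1).1 e0)
      refine IsAlgebraic.of_mul (mem_nonZeroDivisors_of_ne_zero fun e0 =>
        hb ((hker _).1 e0)) (ha b) ?_
      have h4 := ha (a * ell x.1 ^ n)
      rw [hθ _ _ (SetLike.mul_mem_graded ha1 (md_pow_mem (ell_spec _).1 n)), map_mul, map_pow,
        th_ell, one_pow, mul_one] at h4
      rw [hθ _ _ hb1, monomial_mul_monomial, mul_div_cancel₀ _ hb0]
      exact h4⟩
  rw [← dimc_trdeg x, ← trdeg_add_eq (ZMod p) B (A := (kap x.1)[X]), trdeg_eq_zero (R := B),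
    add_zero]

variable (𝒜) in
include hG in
theorem Dm_ft {B : Type} [CommRing B] [Algebra (ZMod p) B] (φ : A →+* B)
    (hs : Function.Surjective φ) : Algebra.FiniteType (ZMod p) B := by
  obtain ⟨s, -, hc⟩ := hG.out
  have : Algebra.FiniteType ℤ A := ⟨⟨s, by rw [Algebra.adjoin_int, hc]; rfl⟩⟩
  have : Algebra.FiniteType ℤ B := .of_surjective φ.toIntAlgHom hs
  exact .of_restrictScalars_finiteType ℤ (ZMod p) B

/-- the dimension formula above a subvariety -/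
theorem Dm_height (x : Vp 𝒜 p) {S : Ideal A} (hS : S.IsPrime) (h : pr x.1 ≤ S) :
    ∃ (B : Type) (_ : CommRing B) (_ : Algebra (ZMod p) B) (φ : A →+* B) (s : ℕ),
      Function.Surjective φ ∧ (∀ a, φ a = 0 ↔ a ∈ S) ∧ Algebra.trdeg (ZMod p) B = s ∧
      (S.map (Ideal.Quotient.mk (pr x.1))).height + s = (dm x + 1 : ℕ) := by
  haveI := x.1.isPrime
  haveI : CharP (A ⧸ pr x.1) p := (CharP.charP_iff_prime_eq_zero Fact.out).2 (by
    rw [← map_natCast (Ideal.Quotient.mk (pr x.1))]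
    exact Ideal.Quotient.eq_zero_iff_mem.2 x.2)
  letI : Algebra (ZMod p) (A ⧸ pr x.1) := ZMod.algebra _ p
  haveI := Dm_ft 𝒜 (p := p) _ (Ideal.Quotient.mk_surjective (I := pr x.1))
  have hk : RingHom.ker (Ideal.Quotient.mk (pr x.1)) ≤ S := (pr x.1).mk_ker.trans_le h
  haveI : (S.map (Ideal.Quotient.mk (pr x.1))).IsPrime :=
    Ideal.map_isPrime_of_surjective Ideal.Quotient.mk_surjective hk
  obtain ⟨s, hs⟩ := n1h_fin (K := ZMod p) (S.map (Ideal.Quotient.mk (pr x.1)))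
  refine ⟨_, _, _, (Ideal.Quotient.mk _).comp (Ideal.Quotient.mk (pr x.1)), s,
    Ideal.Quotient.mk_surjective.comp Ideal.Quotient.mk_surjective, fun a => ?_, hs,
    n1h_dim (Dm_trdeg _ Ideal.Quotient.mk_surjective x fun a => Ideal.Quotient.eq_zero_iff_mem)
      _ hs⟩
  rw [RingHom.comp_apply, Ideal.Quotient.eq_zero_iff_mem, Ideal.mem_quotient_iff_mem h]

omit [IsDomain A] hG in
theorem Dm_min_hom {I S : Ideal A} (hI : I.IsHomogeneous 𝒜) (hS : S ∈ I.minimalPrimes) :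
    S.IsHomogeneous 𝒜 := by
  rw [Ideal.IsHomogeneous.iff_eq]
  refine le_antisymm (Ideal.toIdeal_homogeneousCore_le 𝒜 S)
    (hS.2 ⟨hS.isPrime.homogeneousCore, ?_⟩ (Ideal.toIdeal_homogeneousCore_le 𝒜 S))
  rw [← hI.toIdeal_homogeneousCore_eq_self]
  exact Ideal.homogeneousCore_mono 𝒜 hS.le

theorem Dm_min (x : Vp 𝒜 p) {a : A} {S : Ideal A}
    (hS : S ∈ (pr x.1 ⊔ Ideal.span {a}).minimalPrimes) :
    ∃ (B : Type) (_ : CommRing B) (_ : Algebra (ZMod p) B) (φ : A →+* B) (s : ℕ),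
      Function.Surjective φ ∧ (∀ a, φ a = 0 ↔ a ∈ S) ∧ Algebra.trdeg (ZMod p) B = s ∧
      dm x ≤ s := by
  haveI := noeth_of_gen 𝒜
  obtain ⟨B, _, _, φ, s, h1, h2, h3, h4⟩ := Dm_height x hS.isPrime (le_sup_left.trans hS.le)
  refine ⟨B, _, _, φ, s, h1, h2, h3, ?_⟩
  have h5 := add_le_add_left (Ideal.map_height_le_one_of_mem_minimalPrimes hS) (s : ℕ∞)
  rw [h4] at h5
  have h6 : dm x + 1 ≤ 1 + s := by exact_mod_cast h5
  omega

/-- Krull: a form cuts the dimension by at most one -/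
theorem dm_cut (x y : Vp 𝒜 p) (hxy : pr x.1 ≤ pr y.1) {e : ℕ} {a : A} (ha : a ∈ 𝒜 e)
    (hy : a ∈ pr y.1) : ∃ z : Vp 𝒜 p, pr x.1 ≤ pr z.1 ∧ pr z.1 ≤ pr y.1 ∧ a ∈ pr z.1 ∧
      dm x ≤ dm z + 1 := by
  haveI := y.1.isPrime
  obtain ⟨S, hS, hSy⟩ := Ideal.exists_minimalPrimes_le (show pr x.1 ⊔ Ideal.span {a} ≤ pr y.1 from
    sup_le hxy ((Ideal.span_singleton_le_iff_mem _).2 hy))
  obtain h | ⟨z, rfl⟩ := exists_pt hS.isPrime (Dm_min_hom ((pr_hom _).sup (md_span_hom ha)) hS)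
  · exact absurd (hSy (h _ (ell_spec y.1).1)) (ell_spec y.1).2
  have hxz : pr x.1 ≤ pr z := le_sup_left.trans hS.le
  obtain ⟨B, _, _, φ, s, h1, h2, h3, h4⟩ := Dm_min x hS
  refine ⟨⟨z, hxz x.2⟩, hxz, hSy,
    (Ideal.span_singleton_le_iff_mem _).1 (le_sup_right.trans hS.le), ?_⟩
  rw [Dm_trdeg φ h1 ⟨z, hxz x.2⟩ h2] at h3
  exact h4.trans (by exact_mod_cast h3.ge)

/-- a form of positive degree vanishes somewhere on a subvariety of positive dimension -/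
theorem dm_cut_pos (x : Vp 𝒜 p) (hx : 0 < dm x) {e : ℕ} (he : 0 < e) {a : A} (ha : a ∈ 𝒜 e) :
    ∃ z : Vp 𝒜 p, pr x.1 ≤ pr z.1 ∧ a ∈ pr z.1 ∧ dm x ≤ dm z + 1 := by
  have hne : pr x.1 ⊔ Ideal.span {a} ≠ ⊤ := fun h => by
    obtain ⟨u, hu, v, hv, e1⟩ := Submodule.mem_sup.1 ((Ideal.eq_top_iff_one _).1 h)
    obtain ⟨c, rfl⟩ := Ideal.mem_span_singleton'.1 hv
    have e2 := congrArg (GradedRing.proj 𝒜 0) e1
    rw [map_add, md_proj_mul_lt ha (by omega), add_zero,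
      md_proj_same (SetLike.one_mem_graded 𝒜)] at e2
    exact md_one_not_mem x.1 (e2 ▸ md_proj_ideal (pr_hom _) 0 hu)
  obtain ⟨S, hS⟩ := Ideal.nonempty_minimalPrimes hne
  obtain h | ⟨z, rfl⟩ := exists_pt hS.isPrime (Dm_min_hom ((pr_hom _).sup (md_span_hom ha)) hS)
  · obtain ⟨B, _, _, φ, s, h1, h2, h3, h4⟩ := Dm_min x hS
    obtain ⟨t, ht, hc⟩ := hG.out
    haveI : Algebra.IsAlgebraic (ZMod p) B := ⟨fun b => by
      obtain ⟨a, rfl⟩ := h1 b
      have : Subring.closure (t : Set A) ≤ (algebraMap (ZMod p) B).range.comap φ :=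
        Subring.closure_le.2 fun u hu => ⟨0, by rw [map_zero, (h2 u).2 (h u (ht u hu))]⟩
      obtain ⟨c, hc⟩ := this (hc.symm ▸ Subring.mem_top a)
      exact hc ▸ isAlgebraic_algebraMap c⟩
    rw [trdeg_eq_zero] at h3
    have : 0 = s := by exact_mod_cast h3
    omega
  have hxz : pr x.1 ≤ pr z := le_sup_left.trans hS.le
  have haz : a ∈ pr z := (Ideal.span_singleton_le_iff_mem _).1 (le_sup_right.trans hS.le)
  obtain ⟨w, h1, -, h2, h3⟩ := dm_cut x ⟨z, hxz x.2⟩ hxz ha haz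
  exact ⟨w, h1, h2, h3⟩

theorem exists_closed (y : Vp 𝒜 p) : ∃ z : Vp 𝒜 p, pr y.1 ≤ pr z.1 ∧ dm z = 0 := by
  induction hn : dm y using Nat.strong_induction_on generalizing y with
  | _ n ih =>
    rcases Nat.eq_zero_or_pos (dm y) with h | h
    · exact ⟨y, le_rfl, h⟩
    obtain ⟨z, h1, h2, -⟩ := dm_cut_pos y h one_pos (ell_spec y.1).1
    obtain ⟨w, h3, h4⟩ := ih _ (hn ▸ dm_lt (lt_of_le_of_ne h1 fun e =>
      (ell_spec y.1).2 (e ▸ h2))) z rfl
    exact ⟨w, h1.trans h3, h4⟩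

theorem finite_res (y : Vp 𝒜 p) (hy : dm y = 0) : Finite (kap y.1) := by
  haveI : Algebra.IsAlgebraic (ZMod p) (kap y.1) :=
    trdeg_eq_zero_iff.1 (by rw [trdeg_eq_dm, hy, Nat.cast_zero])
  haveI : Module.Finite (ZMod p) (kap y.1) := Algebra.finite_of_essFiniteType_of_isAlgebraic
  exact Module.finite_of_finite (ZMod p)

theorem dm_anti {x y : Vp 𝒜 p} (h : pr x.1 ≤ pr y.1) : dm y ≤ dm x := by
  rcases h.lt_or_eq with h | h
  · exact (dm_lt h).le
  · rw [Subtype.ext (pr_inj h)]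

theorem eq_of_dm {x y : Vp 𝒜 p} (h : pr x.1 ≤ pr y.1) (e : dm x ≤ dm y) : x = y :=
  Subtype.ext (pr_inj (h.lt_or_eq.resolve_left fun k => (dm_lt k).not_ge e))

theorem dm_Comp (h : Hyp 𝒜) (j : Comp 𝒜 p) : dm j.1 = 3 :=
  haveI := h.cz
  dm_comp h.dim j

theorem dm_le_three (h : Hyp 𝒜) (y : Vp 𝒜 p) : dm y ≤ 3 := by
  obtain ⟨j, hj⟩ := exists_comp y
  exact dm_Comp h j ▸ dm_anti hj

theorem comp_iff (h : Hyp 𝒜) (y : Vp 𝒜 p) :
    dm y = 3 ↔ ∀ y' : Vp 𝒜 p, pr y'.1 ≤ pr y.1 → y' = y :=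
  ⟨fun e y' k => eq_of_dm k (e ▸ dm_le_three h y'), fun k => dm_Comp h ⟨y, k⟩⟩

/-- saturated chains -/
theorem exists_step {x y : Vp 𝒜 p} (h : pr x.1 ≤ pr y.1) (hd : dm y < dm x) :
    ∃ z : Vp 𝒜 p, pr x.1 < pr z.1 ∧ pr z.1 ≤ pr y.1 ∧ dm z + 1 = dm x := by
  obtain ⟨e, a, ha, h1, h2⟩ := md_exists_not_mem (pr_hom y.1) fun k => hd.not_ge (dm_anti k)
  obtain ⟨z, h3, h4, h5, h6⟩ := dm_cut x y h ha h1
  have h7 : pr x.1 < pr z.1 := lt_of_le_of_ne h3 fun e => h2 (e ▸ h5)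
  exact ⟨z, h7, h4, le_antisymm (dm_lt h7) h6⟩

theorem Dm_chain {y : Pt 𝒜} {z : Vp 𝒜 p} (hz : pr z.1 ≤ pr y) (n : ℕ) : ∀ x : Vp 𝒜 p,
    pr x.1 ≤ pr z.1 → dm x = dm z + n → (loP y x.1).height + n ≤ (loP y z.1).height := by
  induction n with
  | zero => exact fun x h _ => by simpa using Ideal.height_mono ((loP_le hz).2 h)
  | succ n ih =>
    intro x h e
    obtain ⟨w, h1, h2, h3⟩ := exists_step h (by omega)
    haveI := loP_prime (h.trans hz)
    haveI := loP_prime (h2.trans hz)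
    refine le_trans ?_ (ih w h2 (by omega))
    rw [Nat.cast_succ, add_comm (n : ℕ∞), ← add_assoc]
    exact add_le_add_left (Ideal.height_add_one_le_of_lt_of_isPrime
      ((loP_lt (h.trans hz) (h2.trans hz)).2 h1)) _

theorem lo_p_ne (h : Hyp 𝒜) (y : Pt 𝒜) : (p : Lo y) ≠ 0 := fun k => by
  haveI := h.cz
  have k' : ((p : loc y) : FractionRing A) = 0 := congrArg Subtype.val k
  rw [snc_p_val, map_one, div_one, FaithfulSMul.algebraMap_eq_zero_iff] at k'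
  exact (Fact.out : p.Prime).ne_zero (Nat.cast_eq_zero.1 k')

/-- the height of a fibral prime of the local ring -/
theorem loP_height (h : Hyp 𝒜) {y : Pt 𝒜} {z : Vp 𝒜 p} (hz : pr z.1 ≤ pr y) :
    (loP y z.1).height = ((4 - dm z : ℕ) : ℕ∞) := by
  have h3 := dm_le_three h z
  haveI := loP_prime hz
  refine le_antisymm ?_ ?_
  · let π := Ideal.Quotient.mk (Ideal.span {(p : Lo y)})
    have key : ∀ Q : PrimeSpectrum (Lo y ⧸ Ideal.span {(p : Lo y)}), ∃ w : Vp 𝒜 p,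
        pr w.1 ≤ pr y ∧ loP y w.1 = Q.asIdeal.comap π := fun Q => by
      obtain ⟨w, h1, h2⟩ := loP_surj (Q.asIdeal.comap π) inferInstance
      refine ⟨⟨w, (loP_p h1).1 ?_⟩, h1, h2⟩
      rw [h2, Ideal.mem_comap,
        Ideal.Quotient.eq_zero_iff_mem.2 (Ideal.mem_span_singleton_self (p : Lo y))]
      exact zero_mem _
    choose w h1 h2 using key
    have hf : StrictMono fun Q => 3 - dm (w Q) := fun Q Q' hQ => by
      have h4 : dm (w Q') < dm (w Q) := dm_lt ((loP_lt (h1 Q) (h1 Q')).1 (by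
        rw [h2, h2]
        exact (Ideal.comap_mono hQ.le).lt_of_ne fun e => hQ.ne (PrimeSpectrum.ext
          (Ideal.comap_injective_of_surjective π Ideal.Quotient.mk_surjective e))))
      have := dm_le_three h (w Q)
      change 3 - dm (w Q) < 3 - dm (w Q')
      omega
    have hp : (p : Lo y) ∈ loP y z.1 := (loP_p hz).2 z.2
    have hk : RingHom.ker π ≤ loP y z.1 :=
      Ideal.mk_ker.trans_le ((Ideal.span_singleton_le_iff_mem _).2 hp)
    let Q : PrimeSpectrum (Lo y ⧸ Ideal.span {(p : Lo y)}) :=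
      ⟨(loP y z.1).map π, Ideal.map_isPrime_of_surjective Ideal.Quotient.mk_surjective hk⟩
    have h5 : w Q = z := by
      have e : loP y (w Q).1 = loP y z.1 := by
        rw [h2, Ideal.comap_map_of_surjective π Ideal.Quotient.mk_surjective]
        exact sup_eq_left.2 hk
      exact Subtype.ext (pr_inj (le_antisymm ((loP_le hz).1 e.le) ((loP_le (h1 Q)).1 e.ge)))
    have h6 := Order.height_le_height_apply_of_strictMono _ hf Q
    rw [← PrimeSpectrum.height_eq_orderHeight, h5, Order.height_nat] at h6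
    refine (Ideal.height_le_height_add_one_of_mem hp).trans ((add_le_add_left h6 1).trans ?_)
    exact_mod_cast (by omega : 3 - dm z + 1 ≤ 4 - dm z)
  · obtain ⟨j, hj⟩ := exists_comp z
    have h4 := Dm_chain hz (3 - dm z) j.1 hj (by rw [dm_Comp h]; omega)
    haveI := loP_prime (hj.trans hz)
    have h5 := Ideal.height_add_one_le_of_lt_of_isPrime (I := ⊥) (J := loP y j.1.1)
      (bot_lt_iff_ne_bot.2 fun e => lo_p_ne (p := p) h y
        (Ideal.mem_bot.1 (e ▸ (loP_p (hj.trans hz)).2 j.1.2)))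
    refine le_trans ?_ ((add_le_add_left (le_add_self.trans h5) _).trans h4)
    exact_mod_cast (by omega : 4 - dm z ≤ 1 + (3 - dm z))

theorem dim_lo (h : Hyp 𝒜) (y : Vp 𝒜 p) :
    dm y ≤ 3 ∧ ringKrullDim (Lo y.1) = ((4 - dm y : ℕ) : WithBot ℕ∞) := by
  refine ⟨dm_le_three h y, ?_⟩
  rw [← IsLocalRing.maximalIdeal_height_eq_ringKrullDim, ← loP_self, loP_height h le_rfl]
  rfl

/-- a prime over a horizontal subvariety whose generic fibre is a curve has height at least two -/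
theorem loP_horiz (h : Hyp 𝒜) {W : Pt 𝒜} (hW : CharZero (kap W)) (h1 : tr W = 1) (y : Vp 𝒜 p)
    (hy : pr W ≤ pr y.1) : 2 ≤ (loP y.1 W).height := by
  by_contra hc
  haveI := lo_ufd h y.1
  haveI := loP_prime hy
  obtain ⟨f, hf⟩ : (loP y.1 W).IsPrincipal := by
    rcases Order.le_one_iff.1 (Order.le_of_lt_add_one (x := (loP y.1 W).height) (y := 1)
      (not_le.1 hc)) with h0 | h0
    · rw [Ideal.height_eq_zero_iff_eq_bot.1 h0]; exact bot_isPrincipal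
    · exact UniqueFactorizationMonoid.isPrincipal_of_height_eq_one h0
  haveI := loP_prime (le_refl (pr y.1))
  have e : Ideal.span ({f, (p : Lo y.1)} : Set (Lo y.1)) = loP y.1 W ⊔ Ideal.span {(p : Lo y.1)} := by
    rw [Ideal.span_insert, hf]
  obtain ⟨S, hS, -⟩ := Ideal.exists_minimalPrimes_le
    (show Ideal.span ({f, (p : Lo y.1)} : Set (Lo y.1)) ≤ loP y.1 y.1 from
      e ▸ sup_le ((loP_le le_rfl).2 hy)
        ((Ideal.span_singleton_le_iff_mem _).2 ((loP_p le_rfl).2 y.2)))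
  have h2 := Ideal.height_le_card_of_mem_minimalPrimes_span (Set.toFinite _) hS
  obtain ⟨z, h3, rfl⟩ := loP_surj S hS.isPrime
  have h4 := e ▸ hS.le
  have h5 : (p : A) ∈ pr z :=
    (loP_p h3).1 ((Ideal.span_singleton_le_iff_mem _).1 (le_sup_right.trans h4))
  have h6 := dm_le_of_horiz hW (r := 1) (by exact_mod_cast h1) ⟨z, h5⟩
    ((loP_le h3).1 (le_sup_left.trans h4))
  rw [loP_height h (z := ⟨z, h5⟩) h3] at h2
  have h7 := Nat.cast_le.1 h2
  have h8 : ({f, (p : Lo y.1)} : Set (Lo y.1)).ncard ≤ 2 :=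
    (Set.ncard_insert_le _ _).trans (by rw [Set.ncard_singleton])
  omega

end

end Pool.Agent.Lib.MP_62d77c_ag.R
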