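import Pool.Agent.Lib.MP_62d77c_ag.R.Mo

/-! Cycles, intersection numbers, tuples of divisors. -/

set_option autoImplicit false
set_option linter.unusedSectionVars false

namespace Pool.Agent.Lib.MP_62d77c_ag.R

open Filter Polynomial Submodule
open scoped TensorProduct Matrix

noncomputable section

variable {A : Type} [CommRing A] [IsDomain A] {𝒜 : ℕ → AddSubgroup A} [GradedRing 𝒜]
  [hG : Fact (Gen 𝒜)] {p : ℕ} [Fact p.Prime]

open Classical in
/-- the cycle of dimension `s` of a module -/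
def GM.cyc (p : ℕ) [Fact p.Prime] (N : GM 𝒜) (s : ℕ) : Vp 𝒜 p →₀ ℤ :=
  if h : (Function.support fun x : Vp 𝒜 p => if dm x = s then (N.len x.1 : ℤ) else 0).Finite then
    Finsupp.ofSupportFinite _ h else 0

/-- leading coefficient of the Hilbert polynomial of a subvariety -/
def dg (x : Vp 𝒜 p) : ℚ := ((cy 𝒜 (pr x.1)).hp p).coeff (dm x)

/-- the support has codimension at least `c` along the fibre -/
def GM.Cod (p : ℕ) [Fact p.Prime] (N : GM 𝒜) (c : ℕ) : Prop :=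
  ∀ (y : Vp 𝒜 p) (P : Ideal (Lo y.1)), P.IsPrime →
    Module.annihilator (Lo y.1) (N.St y.1) ≤ P → (c : ℕ∞) ≤ P.height

/-- intersection number -/
def Bn (p : ℕ) (W V : Pt 𝒜) : ℚ := (T p (cy 𝒜 (pr W)) (cy 𝒜 (pr V))).coeff 0

/-- the pairing of a surface with a fibral cycle -/
def lam (W : Pt 𝒜) (Z : Vp 𝒜 p →₀ ℤ) : ℚ := Z.sum fun V b => (b : ℚ) * Bn p W V.1

/-- the pairing of fibral cycles -/
def bil (Z Z' : Vp 𝒜 p →₀ ℤ) : ℚ := Z.sum fun W a => (a : ℚ) * lam W.1 Z'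

/-- supported on surfaces -/
def Surf (Z : Vp 𝒜 p →₀ ℤ) : Prop := ∀ W ∈ Z.support, dm W = 2

/-- a cycle of surfaces in the kernel of the pairing -/
def Kr (Z : Vp 𝒜 p →₀ ℤ) : Prop := Surf Z ∧ ∀ W : Vp 𝒜 p, dm W = 2 → lam W.1 Z = 0

/-- the functional `τ` is the pairing with a class of dimension at most two and cycle `Z` -/
def Cyc (τ : GM 𝒜 → ℚ[X]) (Z : Vp 𝒜 p →₀ ℤ) : Prop :=
  ∃ l : List (ℤ × Vp 𝒜 p × ℤ), (∀ t ∈ l, dm t.2.1 ≤ 2) ∧
    (∀ N : GM 𝒜, N.Fb p →
      τ N = (l.map fun t => t.1 • T p ((cy 𝒜 (pr t.2.1.1)).sh t.2.2) N).sum) ∧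
    Z = (l.map fun t => if dm t.2.1 = 2 then Finsupp.single t.2.1 t.1 else 0).sum

/-- multiplicity of a component -/
def mu (j : Comp 𝒜 p) : ℕ := (cy 𝒜 (Ideal.span {(p : A)})).len j.1.1

/-- the matrix is split at `y` -/
def SplitAt (y : Pt 𝒜) {β γ : Type} [Fintype β] [Fintype γ] (D : Matrix β γ A) : Prop :=
  ∃ τ : Matrix γ β (Lo y), D.map (algebraMap A (Lo y)) * τ * D.map (algebraMap A (Lo y)) =
    D.map (algebraMap A (Lo y))

open Classical in
/-- degree of the residue field of `O` over the function field of its centre -/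
def Mo.fdeg (X : Mo 𝒜 p) (O : ValuationSubring X.L) : ℕ :=
  if h : ∃ (Y : Mo 𝒜 p) (S : Sp X Y), S.O = O ∧ Function.Surjective S.ρ then h.choose.f else 0

open Classical in
/-- push forward of a divisor -/
def Mo.psh (X : Mo 𝒜 p) (D : Dvs X.L) : Vp 𝒜 p →₀ ℤ :=
  D.sum fun O n => if O ∈ X.PD then Finsupp.single (X.cen O) (n * X.fdeg O) else 0

variable (𝒜 p) in
/-- tuples of divisors on the components -/
abbrev DT : Type := ∀ j : Comp 𝒜 p, Dvs (Xc j).L

/-- push forward of a tuple, with multiplicities -/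
def push (D : DT 𝒜 p) : Vp 𝒜 p →₀ ℤ := ∑ j, mu j • (Xc j).psh (D j)

variable (𝒜 p) in
/-- the divisorial families are finitely generated -/
def FFD : Prop := ∀ (j : Comp 𝒜 p) (D : Dvs (Xc j).L), (Xc j).FF ((Xc j).MD D)

/-- the module of `O(D)` -/
abbrev GD (ff : FFD 𝒜 p) (j : Comp 𝒜 p) (D : Dvs (Xc j).L) : GM 𝒜 := (Xc j).gm _ (ff j D)

/-- Euler characteristic of Ext -/
def Res.EE {N : GM 𝒜} (R : Res N) (N' : GM 𝒜) (p : ℕ) : ℚ[X] :=
  (R.Ext N' 0).hp p - (R.Ext N' 1).hp p + (R.Ext N' 2).hp p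

/-- leading coefficient of the Hilbert polynomial of a family on a surface -/
def a2 {k E : Type} [Field k] [AddCommGroup E] [Module k E] (N : ℕ → Submodule k E) : ℚ :=
  (hp N).coeff 2

/-- slope of a family on a surface -/
def slp {k E : Type} [Field k] [AddCommGroup E] [Module k E] (N : ℕ → Submodule k E) : ℚ :=
  a1 N / a2 N

/-- `D` is divided by the hyperplane class: the divisor of the form `a` of degree `e` -/
def Mo.IsDiv (X : Mo 𝒜 p) (z : X.L) (e : ℕ) (D : Dvs X.L) : Prop :=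
  (∀ O ∈ D.support, O ∈ X.PD) ∧ ∀ O ∈ X.PD, D O = ord O (z / X.θ (ell (X.cen O).1) ^ e)

end

end Pool.Agent.Lib.MP_62d77c_ag.R
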