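import Pool.Agent.Lib.MP_62d77c_ag.R.St1
import Pool.Agent.Lib.MP_62d77c_ag.R.Df

/-! Stalks of the modules of families. -/

set_option autoImplicit false
set_option linter.unusedSectionVars false
set_option linter.unusedVariables false
set_option linter.style.haveILetI false

namespace Pool.Agent.Lib.MP_62d77c_ag.R

open Filter Polynomial Submodule
open scoped TensorProduct Matrix

noncomputable section

variable {A : Type} [CommRing A] [IsDomain A] {𝒜 : ℕ → AddSubgroup A} [GradedRing 𝒜]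
  [hG : Fact (Gen 𝒜)] {p : ℕ} [Fact p.Prime] {N N' N₁ N₂ N₃ : GM 𝒜}

theorem st_on (X : Mo 𝒜 p) {y : Pt 𝒜} (hy : pr X.x.1 ≤ pr y) : X.M.On y :=
  fun n a ha h => hy ((X.ker n a ha).1 h)

theorem st_ne (X : Mo 𝒜 p) {y : Pt 𝒜} (hy : pr X.x.1 ≤ pr y) {n : ℕ} {s : A} (hs : s ∈ 𝒜 n)
    (h : s ∉ pr y) : X.θ s ≠ 0 := fun e => h (hy ((X.ker n s hs).1 e))

theorem st_ell_ne (X : Mo 𝒜 p) {y : Pt 𝒜} (hy : pr X.x.1 ≤ pr y) : X.θ (ell y) ≠ 0 :=
  st_ne X hy (ell_spec y).1 (ell_spec y).2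

theorem st_off (X : Mo 𝒜 p) {y : Pt 𝒜} (hy : ¬pr X.x.1 ≤ pr y) :
    ∃ k, ∃ t ∈ 𝒜 k, t ∉ pr y ∧ X.θ t = 0 := by
  obtain ⟨k, t, ht, h1, h2⟩ := md_exists_not_mem X.x.1.asHomogeneousIdeal.isHomogeneous hy
  exact ⟨k, t, ht, h2, (X.ker k t ht).2 h1⟩

/-- evaluation on the chart of `y` -/
def stE (X : Mo 𝒜 p) (y : Pt 𝒜) : X.Cn →+* X.L := evalRingHom (X.θ (ell y))⁻¹

theorem stE_mon (X : Mo 𝒜 p) (y : Pt 𝒜) (n : ℕ) (z : X.L) :
    stE X y (X.mon n z) = z / X.θ (ell y) ^ n := by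
  change eval _ (monomial n z) = _
  rw [eval_monomial, inv_pow, div_eq_mul_inv]

theorem stE_alg (X : Mo 𝒜 p) (y : Pt 𝒜) {n : ℕ} {a : A} (ha : a ∈ 𝒜 n) :
    stE X y (algebraMap A X.Cn a) = X.θ a / X.θ (ell y) ^ n := by
  rw [← stE_mon]
  exact congrArg (stE X y) (X.cone_hom ha)

theorem exists_lo (X : Mo 𝒜 p) {y : Pt 𝒜} (hy : pr X.x.1 ≤ pr y) : ∃ φ : Lo y →+* X.L,
    φ.range = X.M.orng y ∧ ∀ n, ∀ a ∈ 𝒜 n, φ (algebraMap A (Lo y) a) = X.θ a / X.θ (ell y) ^ n := by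
  choose k a ha s hs h e using lo_surj y
  have key : ∀ (r : Lo y) {n : ℕ} {b t : A}, b ∈ 𝒜 n → t ∈ 𝒜 n → t ∉ pr y →
      algebraMap A (Lo y) t * r = algebraMap A (Lo y) b →
      X.θ (a r) / X.θ (s r) = X.θ b / X.θ t := fun r n b t hb ht h1 e1 => by
    have h2 : a r * t - b * s r ∈ 𝒜 (k r + n) := sub_mem (SetLike.mul_mem_graded (ha r) ht)
      (by rw [add_comm]; exact SetLike.mul_mem_graded hb (hs r))
    have h3 := (lo_inj y h2).1 (by rw [map_sub, map_mul, map_mul, ← e r, ← e1]; ring)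
    rw [div_eq_div_iff (st_ne X hy (hs r) (h r)) (st_ne X hy ht h1), ← map_mul, ← map_mul,
      sub_eq_zero.1 h3]
  have one : (1 : A) ∈ 𝒜 0 := SetLike.one_mem_graded 𝒜
  let φ : Lo y →+* X.L :=
    { toFun := fun r => X.θ (a r) / X.θ (s r)
      map_one' := by rw [key 1 one one (md_one_not_mem y) (mul_one _)]; simp
      map_zero' := by rw [key 0 (zero_mem _) one (md_one_not_mem y) (by simp)]; simp
      map_mul' := fun r r' => by
        rw [key (r * r') (SetLike.mul_mem_graded (ha r) (ha r'))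
          (SetLike.mul_mem_graded (hs r) (hs r')) (md_mul_not_mem (h r) (h r'))
          (by rw [map_mul, map_mul, ← e r, ← e r']; ring), map_mul, map_mul, div_mul_div_comm]
      map_add' := fun r r' => by
        rw [key (r + r') (add_mem (SetLike.mul_mem_graded (ha r) (hs r'))
          (SetLike.mul_mem_graded (hs r) (ha r'))) (SetLike.mul_mem_graded (hs r) (hs r'))
          (md_mul_not_mem (h r) (h r'))
          (by rw [map_add, map_mul, map_mul, map_mul, ← e r, ← e r']; ring),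
          div_add_div _ _ (st_ne X hy (hs r) (h r)) (st_ne X hy (hs r') (h r')), map_add, map_mul,
          map_mul, map_mul] }
  refine ⟨φ, ?_, fun n b hb => ?_⟩
  · ext z
    rw [X.M.mem_orng (st_on X hy)]
    refine ⟨?_, ?_⟩
    · rintro ⟨r, rfl⟩
      exact ⟨k r, a r, ha r, s r, hs r, h r, rfl⟩
    · rintro ⟨n, b, hb, t, ht, h1, rfl⟩
      obtain ⟨u, hu⟩ := ((lo_unit y ht).2 h1).exists_right_inv
      exact ⟨u * algebraMap A (Lo y) b, key _ hb ht h1 (by rw [← mul_assoc, hu, one_mul])⟩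
  · rw [← map_pow]
    exact key _ hb (md_pow_mem (ell_spec y).1 n) (md_pow_not_mem (ell_spec y).2 n)
      (by rw [map_pow, lo_ell, one_pow, one_mul])

/-- the local ring acts on the field -/
def Mo.lo (X : Mo 𝒜 p) {y : Pt 𝒜} (hy : pr X.x.1 ≤ pr y) : Lo y →+* X.L := (exists_lo X hy).choose

theorem Mo.lo_range (X : Mo 𝒜 p) {y : Pt 𝒜} (hy : pr X.x.1 ≤ pr y) :
    (X.lo hy).range = X.M.orng y := (exists_lo X hy).choose_spec.1

theorem Mo.lo_alg (X : Mo 𝒜 p) {y : Pt 𝒜} (hy : pr X.x.1 ≤ pr y) {n : ℕ} {a : A} (ha : a ∈ 𝒜 n) :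
    X.lo hy (algebraMap A (Lo y) a) = X.θ a / X.θ (ell y) ^ n :=
  (exists_lo X hy).choose_spec.2 n a ha

theorem st_mem_gm (X : Mo 𝒜 p) {F : X.Fa} (h : X.FF F) {n : ℕ} {m : (X.gm F h).M}
    (hm : m ∈ (X.gm F h).g n) : ∃ z, ∃ hz : z ∈ F n, m = ⟨X.mon n z, X.mon_mem hz⟩ := by
  refine ⟨X.co n m.1, m.2 n, Subtype.ext (Polynomial.ext fun k => ?_)⟩
  change X.co k m.1 = X.co k (X.mon n (X.co n m.1))
  rw [X.co_mon]
  split_ifs with e
  · rw [e]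
  · exact hm k (by omega)

theorem st_mem_gm' (X : Mo 𝒜 p) {F : X.Fa} (h : X.FF F) {n : ℤ} {m : (X.gm F h).M}
    (hm : m ∈ (X.gm F h).g n) : m = 0 ∨ ∃ k : ℕ, n = k ∧ ∃ z, ∃ hz : z ∈ F k,
      m = ⟨X.mon k z, X.mon_mem hz⟩ := by
  rcases lt_or_ge n 0 with h0 | h0
  · exact Or.inl (Subtype.ext (Polynomial.ext fun k => hm k (by omega)))
  · obtain ⟨k, rfl⟩ := Int.eq_ofNat_of_zero_le h0
    exact Or.inr ⟨k, rfl, st_mem_gm X h hm⟩

theorem st_mon_g (X : Mo 𝒜 p) {F : X.Fa} (h : X.FF F) {n : ℕ} {z : X.L} (hz : z ∈ F n) :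
    (show (X.gm F h).M from ⟨X.mon n z, X.mon_mem hz⟩) ∈ (X.gm F h).g n := fun k hk =>
  (X.co_mon _ _ _).trans (if_neg (by omega))

theorem st_mul_mem (X : Mo 𝒜 p) {F : X.Fa} (h : X.FF F) {n i : ℕ} {z : X.L} (hz : z ∈ F n)
    {a : A} (ha : a ∈ 𝒜 i) : X.θ a * z ∈ F (n + i) :=
  X.st_pow h.st i n (mul_mem_mul (X.M.th_mem_pow ha) hz)

theorem st_gm (X : Mo 𝒜 p) {F : X.Fa} (h : X.FF F) {y : Pt 𝒜} (hy : pr X.x.1 ≤ pr y) :
    ∃ κ : (X.gm F h).St y →+ X.L, Function.Injective κ ∧ Set.range κ = X.stk F y ∧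
      (∀ r ξ, κ (r • ξ) = X.lo hy r * κ ξ) ∧
      ∀ (n : ℕ) (z : X.L) (hz : z ∈ F n), κ ((1 : Lo y) ⊗ₜ[A]
        (show (X.gm F h).M from ⟨X.mon n z, X.mon_mem hz⟩)) = z / X.θ (ell y) ^ n := by
  have hl : ∀ a : A, X.lo hy (algebraMap A (Lo y) a) = stE X y (algebraMap A X.Cn a) := fun a => by
    induction a using hom_ind (𝒜 := 𝒜) with
    | h0 => simp
    | hadd a b h1 h2 => simp only [map_add, h1, h2]
    | h n a ha => rw [X.lo_alg hy ha, stE_alg X y ha]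
  let ev : (X.gm F h).M →+ X.L := (stE X y).toAddMonoidHom.comp (X.gmS F h.st).subtype.toAddMonoidHom
  have hev : ∀ (a : A) (m : (X.gm F h).M), ev (a • m) = stE X y (algebraMap A X.Cn a) * ev m :=
    fun a m => by
      change stE X y (a • m.1) = _ * stE X y m.1
      rw [Algebra.smul_def, map_mul]
  let κ : (X.gm F h).St y →+ X.L := TensorProduct.liftAddHom
    { toFun := fun r => (AddMonoidHom.mulLeft (X.lo hy r)).comp ev
      map_zero' := AddMonoidHom.ext fun m => by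
        change X.lo hy 0 * ev m = 0
        rw [map_zero, zero_mul]
      map_add' := fun r r' => AddMonoidHom.ext fun m => by
        change X.lo hy (r + r') * ev m = X.lo hy r * ev m + X.lo hy r' * ev m
        rw [map_add, add_mul] } fun a r m => by
      change X.lo hy (a • r) * ev m = X.lo hy r * ev (a • m)
      rw [hev, Algebra.smul_def, map_mul, hl]; ring
  have h1 : ∀ r m, κ (r ⊗ₜ[A] m) = X.lo hy r * ev m := fun _ _ => rfl
  have h2 : ∀ r ξ, κ (r • ξ) = X.lo hy r * κ ξ := fun r ξ => by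
    induction ξ using TensorProduct.induction_on with
    | zero => simp
    | add a b h3 h4 => rw [smul_add, map_add, map_add, h3, h4, mul_add]
    | tmul r' m => rw [TensorProduct.smul_tmul', h1, h1, smul_eq_mul, map_mul, mul_assoc]
  have h3 : ∀ (n : ℕ) (z : X.L) (hz : z ∈ F n), κ ((1 : Lo y) ⊗ₜ[A]
      (show (X.gm F h).M from ⟨X.mon n z, X.mon_mem hz⟩)) = z / X.θ (ell y) ^ n :=
    fun n z hz => by rw [h1, map_one, one_mul]; exact stE_mon X y n z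
  have h4 : ∀ ξ, ∃ k : ℕ, ∃ s ∈ 𝒜 k, s ∉ pr y ∧ ∃ hz : X.θ s * κ ξ ∈ F k,
      algebraMap A (Lo y) s • ξ = (1 : Lo y) ⊗ₜ[A]
        (show (X.gm F h).M from ⟨X.mon k (X.θ s * κ ξ), X.mon_mem hz⟩) := fun ξ => by
    obtain ⟨k, s, hs, h5, m, hm, e⟩ := st_surj y ξ
    obtain ⟨z, hz, rfl⟩ := st_mem_gm X h hm
    have h6 := congrArg κ e
    rw [h2, h3 k z hz, X.lo_alg hy hs, div_mul_eq_mul_div,
      div_left_inj' (pow_ne_zero _ (st_ell_ne X hy))] at h6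
    subst h6
    exact ⟨k, s, hs, h5, hz, e⟩
  refine ⟨κ, (injective_iff_map_eq_zero _).2 fun ξ h0 => ?_, ?_, h2, h3⟩
  · obtain ⟨k, s, hs, h5, hz, e⟩ := h4 ξ
    refine (((lo_unit y hs).2 h5).smul_eq_zero).1 (e.trans ?_)
    refine (congrArg _ (Subtype.ext ?_)).trans (TensorProduct.tmul_zero _ _)
    change X.mon k _ = 0
    rw [h0, mul_zero, X.mon_zero]
  · ext z
    constructor
    · rintro ⟨ξ, rfl⟩
      obtain ⟨k, s, hs, h5, hz, -⟩ := h4 ξ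
      exact ⟨k, s, hs, h5, hz⟩
    · rintro ⟨k, s, hs, h5, hz⟩
      obtain ⟨u, hu⟩ := ((lo_unit y hs).2 h5).exists_left_inv
      refine ⟨u • _, (h2 _ _).trans ((congrArg _ (h3 k _ hz)).trans ?_)⟩
      rw [← div_mul_eq_mul_div, ← X.lo_alg hy hs, ← mul_assoc, ← map_mul, hu, map_one, one_mul]

theorem st_kill (X : Mo 𝒜 p) {k : ℕ} {t : A} (ht : t ∈ 𝒜 k) (h0 : X.θ t = 0) (G : X.Cn) :
    t • G = 0 := by
  change X.cone t * (show X.L[X] from G) = 0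
  rw [X.cone_hom ht, h0, map_zero, zero_mul]

theorem zeroAt_gm (X : Mo 𝒜 p) {F : X.Fa} (h : X.FF F) {y : Pt 𝒜} (hy : ¬pr X.x.1 ≤ pr y) :
    (X.gm F h).ZeroAt y := fun m => by
  obtain ⟨k, t, ht, h1, h2⟩ := st_off X hy
  exact ⟨k, t, ht, h1, Subtype.ext (st_kill X ht h2 m.1)⟩

theorem stk_off (X : Mo 𝒜 p) (F : X.Fa) {y : Pt 𝒜} (hy : ¬pr X.x.1 ≤ pr y) :
    X.stk F y = Set.univ := by
  obtain ⟨k, t, ht, h1, h2⟩ := st_off X hy
  exact Set.eq_univ_of_forall fun z => ⟨k, t, ht, h1, by rw [h2, zero_mul]; exact zero_mem _⟩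

theorem div_mem_stk (X : Mo 𝒜 p) {F : X.Fa} {y : Pt 𝒜} {n : ℕ} {z : X.L} (hz : z ∈ F n) :
    z / X.θ (ell y) ^ n ∈ X.stk F y := by
  by_cases hy : pr X.x.1 ≤ pr y
  · refine ⟨n, ell y ^ n, md_pow_mem (ell_spec y).1 n, md_pow_not_mem (ell_spec y).2 n, ?_⟩
    rwa [map_pow, mul_div_cancel₀ _ (pow_ne_zero _ (st_ell_ne X hy))]
  · rw [stk_off X F hy]; trivial

theorem of_div_mem_stk (X : Mo 𝒜 p) {F : X.Fa} (h : X.FF F) {y : Pt 𝒜} {n : ℕ} {z : X.L}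
    (hz : z / X.θ (ell y) ^ n ∈ X.stk F y) : ∃ k, ∃ s ∈ 𝒜 k, s ∉ pr y ∧ X.θ s * z ∈ F (n + k) := by
  by_cases hy : pr X.x.1 ≤ pr y
  · obtain ⟨k, s, hs, h1, h2⟩ := hz
    refine ⟨k, s, hs, h1, ?_⟩
    have := st_mul_mem X h h2 (md_pow_mem (ell_spec y).1 n)
    rwa [map_pow, ← mul_div_assoc, mul_div_cancel₀ _ (pow_ne_zero _ (st_ell_ne X hy)),
      add_comm] at this
  · obtain ⟨k, t, ht, h1, h2⟩ := st_off X hy
    exact ⟨k, t, ht, h1, by rw [h2, zero_mul]; exact zero_mem _⟩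

theorem le_of_stk (X : Mo 𝒜 p) {F F' : X.Fa} (h : X.FF F) (h' : X.FF F')
    (hle : ∀ y : Pt 𝒜, X.stk F y ⊆ X.stk F' y) : F ≤ᶠ[atTop] F' :=
  X.M.local_global h.fg (Eventually.of_forall h'.st) (Eventually.of_forall fun n w hw y _ =>
    of_div_mem_stk X h' (hle y (div_mem_stk X hw)))

/-- quotient of two families -/
theorem ses_gm (X : Mo 𝒜 p) {F F' : X.Fa} (h : X.FF F) (h' : X.FF F') (hle : F ≤ F') :
    ∃ Q : GM 𝒜, SES (X.gm F h) (X.gm F' h') Q ∧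
      ∀ y : Pt 𝒜, Q.ZeroAt y ↔ X.stk F' y ⊆ X.stk F y := by
  have hS : X.gmS F h.st ≤ X.gmS F' h'.st := fun G hG n => hle n (hG n)
  let f : (X.gm F h).M →ₗ[A] (X.gm F' h').M := Submodule.inclusion hS
  have hf : IsHom (X.gm F h) (X.gm F' h') 0 f := fun n m hm => by rw [add_zero]; exact hm
  have hc := (X.gm F' h').core_eq (st_hg_range hf)
  let π : (X.gm F' h').M →ₗ[A] ((X.gm F' h').quot (LinearMap.range f)).M :=
    ((X.gm F' h').core (LinearMap.range f)).mkQ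
  have h0 : ∀ m, π m = 0 ↔ m.1 ∈ X.gmS F h.st := fun m => by
    refine (Submodule.Quotient.mk_eq_zero _).trans ?_
    rw [hc]
    exact ⟨fun ⟨a, ha⟩ => ha ▸ a.2, fun hm => ⟨⟨m.1, hm⟩, rfl⟩⟩
  refine ⟨(X.gm F' h').quot (LinearMap.range f), ⟨f, π, hf,
    fun n m hm => by rw [add_zero]; exact ⟨m, hm, rfl⟩, Submodule.inclusion_injective hS,
    fun m => (h0 m).trans ⟨fun hm => ⟨⟨m.1, hm⟩, rfl⟩, fun ⟨a, ha⟩ => ha ▸ a.2⟩,
    Submodule.mkQ_surjective _⟩, fun y => ⟨fun hz z ⟨n, s, hs, h1, h2⟩ => ?_, fun hz => ?_⟩⟩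
  · obtain ⟨k, t, ht, h3, h4⟩ := hz (π ⟨X.mon n _, X.mon_mem h2⟩)
    rw [← map_smul, h0] at h4
    have h5 := h4 (n + k)
    change X.co (n + k) (t • X.mon n _) ∈ _ at h5
    rw [X.smul_mon ht, X.co_mon, if_pos rfl, ← mul_assoc, ← map_mul, add_comm] at h5
    exact ⟨k + n, t * s, SetLike.mul_mem_graded ht hs, md_mul_not_mem h3 h1, h5⟩
  · refine st_zeroAt ?_
    rintro n _ ⟨m, hm, rfl⟩
    rcases st_mem_gm' X h' hm with rfl | ⟨k, rfl, z, h1, rfl⟩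
    · exact ⟨0, 1, SetLike.one_mem_graded 𝒜, md_one_not_mem y,
        (one_smul _ _).trans (map_zero π)⟩
    · obtain ⟨l, s, hs, h2, h3⟩ := of_div_mem_stk X h (hz (div_mem_stk X h1))
      refine ⟨l, s, hs, h2, (map_smul π s _).symm.trans ((h0 _).2 ?_)⟩
      change s • X.mon k z ∈ _
      rw [X.smul_mon hs]
      exact X.mon_mem h3

end

end Pool.Agent.Lib.MP_62d77c_ag.R
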