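import Pool.Agent.Lib.MP_62d77c_ag.R.GmB
import Pool.Agent.Lib.MP_62d77c_ag.R.St

/-! Exact sequences with named maps, images of graded modules in a field. -/

set_option autoImplicit false
set_option linter.unusedSectionVars false

namespace Pool.Agent.Lib.MP_62d77c_ag.R

open Filter Polynomial Submodule Function

noncomputable section

variable {A : Type} [CommRing A] [IsDomain A] {𝒜 : ℕ → AddSubgroup A} [GradedRing 𝒜]
  [hG : Fact (Gen 𝒜)] {p : ℕ} [Fact p.Prime] {N N' N₁ N₂ N₃ Q Q₁ Q₂ : GM 𝒜}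

/-- a short exact sequence with named maps -/
structure SM (N₁ N₂ N₃ : GM 𝒜) (f : N₁.M →ₗ[A] N₂.M) (g : N₂.M →ₗ[A] N₃.M) : Prop where
  hf : IsHom N₁ N₂ 0 f
  hg : IsHom N₂ N₃ 0 g
  inj : Injective f
  ex : Exact f g
  sur : Surjective g

theorem SM.ses {f : N₁.M →ₗ[A] N₂.M} {g : N₂.M →ₗ[A] N₃.M} (h : SM N₁ N₂ N₃ f g) : SES N₁ N₂ N₃ :=
  ⟨f, g, h.hf, h.hg, h.inj, h.ex, h.sur⟩

theorem sm_quot {f : N₁.M →ₗ[A] N₂.M} (hf : IsHom N₁ N₂ 0 f) (hi : Injective f) :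
    SM N₁ N₂ (N₂.quot (LinearMap.range f)) f (N₂.core (LinearMap.range f)).mkQ :=
  ⟨hf, isHom_mkQ _ _, hi, fun m => (Quotient.mk_eq_zero _).trans (by
    rw [N₂.core_eq hf.hg_range]; rfl), mkQ_surjective _⟩

theorem sm_ker {g : N₂.M →ₗ[A] N₃.M} (hg : IsHom N₂ N₃ 0 g) (hs : Surjective g) :
    SM (N₂.sub (LinearMap.ker g)) N₂ N₃ (N₂.core (LinearMap.ker g)).subtype g :=
  ⟨isHom_subtype _ _, hg, injective_subtype _, fun m =>
    ⟨fun h => ⟨⟨m, (N₂.core_eq hg.hg_ker).symm ▸ h⟩, rfl⟩, fun ⟨a, e⟩ => e ▸ N₂.core_le _ a.2⟩, hs⟩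

theorem sm_of_hom {f : N₁.M →ₗ[A] N₂.M} {g : N₂.M →ₗ[A] N₃.M} (hf : IsHom N₁ N₂ 0 f)
    (hg : IsHom N₂ N₃ 0 g) (hi : Injective f) (hs : Surjective g)
    (h1 : ∀ k, ∀ m ∈ N₁.g k, g (f m) = 0)
    (h2 : ∀ k, ∀ m ∈ N₂.g k, g m = 0 → m ∈ LinearMap.range f) : SM N₁ N₂ N₃ f g := by
  refine ⟨hf, hg, hi, fun m => ⟨fun h => ?_, ?_⟩, hs⟩
  · obtain ⟨s, e⟩ := N₂.sum_pj m
    rw [← e]
    exact sum_mem (S := LinearMap.range f) fun n _ => h2 n _ (N₂.pj_mem n m) (hg.hg_ker n m h)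
  · rintro ⟨a, rfl⟩
    exact N₁.ind (P := fun a => g (f a) = 0) (by simp) (fun a b e e' => by simp [e, e']) h1 a

theorem k5_fac {M M' P : Type} [AddCommGroup M] [Module A M] [AddCommGroup M'] [Module A M']
    [AddCommGroup P] [Module A P] {g : M →ₗ[A] M'} (hs : Surjective g) (φ : M →ₗ[A] P)
    (h : ∀ m, g m = 0 → φ m = 0) : ∃ u : M' →ₗ[A] P, ∀ m, u (g m) = φ m :=
  ⟨(LinearMap.ker g).liftQ φ h ∘ₗ (g.quotKerEquivOfSurjective hs).symm.toLinearMap, fun m => by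
    simp⟩

theorem IsHom.of_surj {g : N₁.M →ₗ[A] N₂.M} (hg : IsHom N₁ N₂ 0 g) (hs : Surjective g)
    {u : N₂.M →ₗ[A] N₃.M} {φ : N₁.M →ₗ[A] N₃.M} {d : ℤ} (hφ : IsHom N₁ N₃ d φ)
    (e : ∀ m, u (g m) = φ m) : IsHom N₂ N₃ d u := fun n m hm => by
  obtain ⟨a, ha, rfl⟩ := hg.lift (n := n) ((add_zero n).symm ▸ hm) (hs m)
  exact e a ▸ hφ n a ha

theorem sm_third {f : N₁.M →ₗ[A] N₂.M} {g : N₂.M →ₗ[A] Q₁.M} {f' : N₂.M →ₗ[A] N₃.M}
    {g' : N₃.M →ₗ[A] Q₂.M} {f'' : N₁.M →ₗ[A] N₃.M} {g'' : N₃.M →ₗ[A] Q.M} (h : SM N₁ N₂ Q₁ f g)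
    (h' : SM N₂ N₃ Q₂ f' g') (h'' : SM N₁ N₃ Q f'' g'') (e : ∀ m, f'' m = f' (f m)) :
    SES Q₁ Q Q₂ := by
  obtain ⟨u, hu⟩ := k5_fac h.sur (g'' ∘ₗ f') fun m hm => by
    obtain ⟨a, rfl⟩ := (h.ex m).1 hm
    exact (h''.ex _).2 ⟨a, e a⟩
  obtain ⟨v, hv⟩ := k5_fac h''.sur g' fun m hm => by
    obtain ⟨a, rfl⟩ := (h''.ex m).1 hm
    exact (h'.ex _).2 ⟨f a, (e a).symm⟩
  refine ⟨u, v, h.hg.of_surj h.sur (h''.hg.comp h'.hf) hu, h''.hg.of_surj h''.sur h'.hg hv,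
    (injective_iff_map_eq_zero _).2 fun m hm => ?_, fun m => ?_, fun m => ?_⟩
  · obtain ⟨m, rfl⟩ := h.sur m
    obtain ⟨a, ha⟩ := (h''.ex _).1 ((hu m).symm.trans hm)
    exact (h.ex m).2 ⟨a, h'.inj ((e a).symm.trans ha)⟩
  · obtain ⟨m, rfl⟩ := h''.sur m
    rw [hv, h'.ex m]
    refine ⟨fun ⟨a, ha⟩ => ⟨g a, by rw [hu, ← ha]; rfl⟩, fun ⟨a, ha⟩ => ?_⟩
    obtain ⟨a, rfl⟩ := h.sur a
    rw [hu, LinearMap.comp_apply, ← sub_eq_zero, ← map_sub, h''.ex] at ha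
    obtain ⟨b, hb⟩ := ha
    exact ⟨a - f b, by rw [map_sub, ← e, hb, sub_sub_cancel]⟩
  · obtain ⟨m, rfl⟩ := h'.sur m
    exact ⟨g'' m, hv m⟩

/-- a linear map given degree by degree -/
theorem k5_lin (N : GM 𝒜) {M' : Type} [AddCommGroup M'] [Module A M'] (φ : ℤ → N.M →+ M')
    (h : ∀ (i : ℕ), ∀ a ∈ 𝒜 i, ∀ k, ∀ m ∈ N.g k, φ (k + i) (a • m) = a • φ k m) :
    ∃ f : N.M →ₗ[A] M', ∀ k, ∀ m ∈ N.g k, f m = φ k m := by
  have fin : ∀ m, (support fun n => φ n (N.pj n m)).Finite := fun m =>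
    (st_fin N m).subset fun n hn e => hn (by simp only [e, map_zero])
  let f : N.M →+ M' := AddMonoidHom.mk' (fun m => ∑ᶠ n, φ n (N.pj n m)) fun a b => by
    simp only [map_add]
    exact finsum_add_distrib (fin a) (fin b)
  have hf : ∀ k, ∀ m ∈ N.g k, f m = φ k m := fun k m hm => by
    change ∑ᶠ n, φ n (N.pj n m) = _
    rw [finsum_eq_single _ k fun n hn => by rw [N.pj_ne hm hn.symm, map_zero], N.pj_same hm]
  refine ⟨⟨⟨f, f.map_add⟩, fun a m => ?_⟩, hf⟩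
  change f (a • m) = a • f m
  induction a using hom_ind (𝒜 := 𝒜) with
  | h0 => simp
  | hadd x y h1 h2 => rw [add_smul, map_add, h1, h2, add_smul]
  | h i a ha =>
    induction m using N.ind with
    | h0 => simp
    | hadd x y h1 h2 => rw [smul_add, map_add, h1, h2, map_add, smul_add]
    | h k m hm => rw [hf _ _ (N.smul (by rwa [Az_nat]) hm), hf k m hm, h i a ha k m hm]

theorem k5_mon_eq (X : Mo 𝒜 p) {n : ℕ} {z : X.L} : X.mon n z = 0 ↔ z = 0 :=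
  ⟨fun h => by simpa [X.co_mon] using congrArg (X.co n) h, fun h => h ▸ X.mon_zero n⟩

/-- the surjection onto the image family -/
theorem k5_img (N : GM 𝒜) (X : Mo 𝒜 p) (w : ℤ → N.M →+ X.L)
    (hw : ∀ (i : ℕ), ∀ a ∈ 𝒜 i, ∀ k, ∀ m ∈ N.g k, w (k + i) (a • m) = X.θ a * w k m)
    (h0 : ∀ k < 0, ∀ m ∈ N.g k, w k m = 0) {F : X.Fa} (hF : X.FF F)
    (e : ∀ (n : ℕ) z, z ∈ F n ↔ ∃ m ∈ N.g n, w n m = z) :
    ∃ g : N.M →ₗ[A] (X.gm F hF).M, IsHom N (X.gm F hF) 0 g ∧ Surjective g ∧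
      ∀ k, ∀ m ∈ N.g k, g m = 0 ↔ w k m = 0 := by
  obtain ⟨f, hf⟩ := k5_lin N (M' := X.Cn) (fun k => (AddMonoidHom.mk' (X.mon k.toNat)
    (X.mon_add _)).comp (w k)) fun i a ha k m hm => by
      change X.mon _ (w _ _) = a • X.mon _ (w k m)
      rw [X.smul_mon ha, hw i a ha k m hm]
      rcases lt_or_ge k 0 with c | c
      · rw [h0 k c m hm, mul_zero, X.mon_zero, X.mon_zero]
      · congr 1; omega
  replace hf : ∀ k, ∀ m ∈ N.g k, f m = X.mon k.toNat (w k m) := hf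
  have hm : ∀ m, f m ∈ X.gmS F hF.st := N.ind (by simp)
    (fun a b h1 h2 => by rw [map_add]; exact add_mem h1 h2) fun k m hm => by
      rw [hf k m hm]
      rcases lt_or_ge k 0 with c | c
      · rw [h0 k c m hm, X.mon_zero]; exact zero_mem _
      · obtain ⟨n, rfl⟩ := Int.eq_ofNat_of_zero_le c
        exact X.mon_mem ((e _ _).2 ⟨m, hm, rfl⟩)
  refine ⟨f.codRestrict _ hm, fun k m hk j hj => ?_, fun G => ?_, fun k m hk => ?_⟩
  · change X.co j (f m) = 0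
    rw [hf k m hk, X.co_mon]
    split_ifs with c
    · exact h0 k (by omega) m hk
    · rfl
  · refine (X.gm F hF).ind (P := fun G => G ∈ LinearMap.range (f.codRestrict _ hm)) (zero_mem _)
      (fun a b => add_mem) (fun n G hG => ?_) G
    rcases st_mem_gm' X hF hG with rfl | ⟨k, rfl, z, h1, rfl⟩
    · exact zero_mem _
    · obtain ⟨m, h2, rfl⟩ := (e _ _).1 h1
      exact ⟨m, Subtype.ext (hf _ m h2)⟩
  · refine Subtype.ext_iff.trans ?_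
    change f m = 0 ↔ _
    rw [hf k m hk, k5_mon_eq]

/-- the image of a graded module under a semilinear map -/
def Mo.imF (X : Mo 𝒜 p) (N : GM 𝒜) (w : N.M →+ X.L) : X.Fa := fun n => span (ZMod p) (w '' N.g n)

theorem Mo.mem_imF (X : Mo 𝒜 p) {w : N.M →+ X.L} {n : ℕ} {z : X.L} :
    z ∈ X.imF N w n ↔ ∃ m ∈ N.g n, w m = z := by
  refine ⟨fun h => ?_, fun h => subset_span h⟩
  induction h using span_induction with
  | mem z hz => exact hz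
  | zero => exact ⟨0, zero_mem _, map_zero _⟩
  | add a b _ _ h1 h2 =>
    obtain ⟨a, ha, rfl⟩ := h1
    obtain ⟨b, hb, rfl⟩ := h2
    exact ⟨a + b, add_mem ha hb, map_add _ _ _⟩
  | smul c a _ h1 =>
    obtain ⟨a, ha, rfl⟩ := h1
    obtain ⟨k, rfl⟩ := ZMod.intCast_surjective c
    exact ⟨k • a, zsmul_mem ha k, by rw [map_zsmul, Int.cast_smul_eq_zsmul]⟩

theorem Mo.ff_imF (X : Mo 𝒜 p) (hN : N.Fb p) {w : N.M →+ X.L}
    (hw : ∀ (a : A) m, w (a • m) = X.θ a * w m) : X.FF (X.imF N w) := by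
  have h1 : ∀ (i n : ℕ) (k : ℤ), k + i = n → ∀ m ∈ N.g k, ∀ v ∈ X.V ^ i, v * w m ∈ X.imF N w n := by
    intro i n k e m hm v hv
    obtain ⟨a, ha, rfl⟩ := X.M.mem_pow.1 hv
    exact X.mem_imF.2 ⟨a • m, e ▸ N.smul (by rwa [Az_nat]) hm, hw a m⟩
  have st : ∀ n, X.V * X.imF N w n ≤ X.imF N w (n + 1) := fun n => mul_le.2 fun v hv z hz => by
    obtain ⟨m, hm, rfl⟩ := X.mem_imF.1 hz
    exact h1 1 _ n (by simp) m hm v (by rwa [pow_one])
  have fd : ∀ n, (X.imF N w n).FG := fun n =>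
    fg_span (Set.Finite.image _ (Set.finite_coe_iff.1 (finite_g hN n)))
  refine ⟨st, fd, ?_⟩
  obtain ⟨β, _, m, d, h2, h3⟩ := gb_gens N
  filter_upwards [eventually_all.2 fun i => eventually_ge_atTop (d i).toNat] with n hn
  refine ⟨fd n, le_antisymm (fun z hz => ?_) (st n)⟩
  obtain ⟨x, hx, rfl⟩ := X.mem_imF.1 hz
  obtain ⟨c, hc, rfl⟩ := h3 _ x hx
  rw [map_sum]
  refine sum_mem fun i _ => ?_
  obtain ⟨k, hk⟩ : ∃ k : ℕ, d i + k = n := ⟨(n - d i).toNat, by have := hn i; omega⟩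
  have h4 := hc i
  rw [show ((n + 1 : ℕ) : ℤ) - d i = (k + 1 : ℕ) by push_cast; omega, Az_nat] at h4
  have h5 := X.M.th_mem_pow h4
  rw [pow_succ'] at h5
  rw [hw]
  refine Submodule.mul_induction_on h5 (fun u hu v hv => ?_) fun u v h6 h7 => ?_
  · rw [mul_assoc]; exact mul_mem_mul hu (h1 k n _ hk _ (h2 i) v hv)
  · rw [add_mul]; exact add_mem h6 h7

/-- the part of degree at least zero -/
theorem k5_trunc (N : GM 𝒜) : ∃ N₀ Q : GM 𝒜, ∃ f g, SM N₀ N Q f g ∧ (∀ y, Q.ZeroAt y) ∧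
    (∀ k < 0, ∀ m ∈ N₀.g k, m = 0) ∧ ∀ k, 0 ≤ k → ∀ m ∈ N.g k, m ∈ LinearMap.range f := by
  let Z : Submodule A N.M :=
    { carrier := {m | ∀ k < 0, N.pj k m = 0}
      zero_mem' := fun k _ => map_zero _
      add_mem' := fun {a b} h1 h2 k hk => by rw [map_add, h1 k hk, h2 k hk, add_zero]
      smul_mem' := fun a m hm => by
        change ∀ k < 0, N.pj k (a • m) = 0
        induction a using hom_ind (𝒜 := 𝒜) with
        | h0 => simp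
        | hadd x y h1 h2 => intro k hk; rw [add_smul, map_add, h1 k hk, h2 k hk, add_zero]
        | h i a ha =>
          intro k hk
          have := N.pj_smul (i := i) (a := a) (by rwa [Az_nat]) (k - i) m
          rw [sub_add_cancel] at this
          rw [this, hm _ (by omega), smul_zero] }
  have h1 : ∀ k, 0 ≤ k → ∀ m ∈ N.g k, m ∈ N.core Z := fun k hk m hm =>
    (N.mem_core_of_mem_g hm).2 fun j hj => N.pj_ne hm (by omega)
  refine ⟨N.sub Z, N.quot Z, _, _, ⟨isHom_subtype N Z, isHom_mkQ N Z, injective_subtype _,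
    LinearMap.exact_subtype_mkQ _, mkQ_surjective _⟩, fun y => zeroAt_of_ev
      (Eventually.of_forall fun n => eq_bot_iff.2 ?_) y, fun k hk m hm => Subtype.ext ?_,
    fun k hk m hm => ⟨⟨m, h1 k hk m hm⟩, rfl⟩⟩
  · rintro _ ⟨m, hm, rfl⟩
    exact (Quotient.mk_eq_zero _).2 (h1 n (by omega) m hm)
  · exact (N.pj_same hm).symm.trans (N.core_le Z m.2 k hk)

/-- the inclusion of families -/
def Mo.inc (X : Mo 𝒜 p) {F F' : X.Fa} (h : X.FF F) (h' : X.FF F') (hle : F ≤ F') :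
    (X.gm F h).M →ₗ[A] (X.gm F' h').M :=
  Submodule.inclusion (show X.gmS F h.st ≤ X.gmS F' h'.st from fun _ hG n => hle n (hG n))

theorem Mo.inc_hom (X : Mo 𝒜 p) {F F' : X.Fa} (h : X.FF F) (h' : X.FF F') (hle : F ≤ F') :
    IsHom (X.gm F h) (X.gm F' h') 0 (X.inc h h' hle) := fun n m hm => by rw [add_zero]; exact hm

theorem Mo.inc_inj (X : Mo 𝒜 p) {F F' : X.Fa} (h : X.FF F) (h' : X.FF F') (hle : F ≤ F') :
    Injective (X.inc h h' hle) := Submodule.inclusion_injective _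

end

end Pool.Agent.Lib.MP_62d77c_ag.R
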