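import Pool.Agent.Lib.MP_62d77c_ag.R.N
import Pool.Agent.Lib.MP_62d77c_ag.R.Dm
import Pool.Agent.Lib.MP_62d77c_ag.R.K5a

/-! The divisor cut out by a component. -/

set_option autoImplicit false
set_option linter.unusedSectionVars false

namespace Pool.Agent.Lib.MP_62d77c_ag.R

open Filter Polynomial Submodule Function
open scoped TensorProduct

noncomputable section

variable {A : Type} [CommRing A] [IsDomain A] {𝒜 : ℕ → AddSubgroup A} [GradedRing 𝒜]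
  [hG : Fact (Gen 𝒜)] {p : ℕ} [Fact p.Prime] {N N' N₁ N₂ : GM 𝒜}

/-- the form `g` of degree `e` generates the ideal of `k` at `y` -/
structure GnAt (k y : Pt 𝒜) (e : ℕ) (g : A) : Prop where
  deg : g ∈ 𝒜 e
  mem : g ∈ pr k
  gen : ∀ n, ∀ a ∈ 𝒜 n, a ∈ pr k →
    ∃ m, ∃ s ∈ 𝒜 (m + e), s ∉ pr y ∧ ∃ c ∈ 𝒜 (m + n), s * a = c * g

theorem GnAt.mono {k y y' : Pt 𝒜} {e : ℕ} {g : A} (h : GnAt k y e g) (hy : pr y' ≤ pr y) :
    GnAt k y' e g := ⟨h.deg, h.mem, fun n a ha hk => by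
  obtain ⟨m, s, h1, h2, h3⟩ := h.gen n a ha hk
  exact ⟨m, s, h1, fun e => h2 (hy e), h3⟩⟩

theorem gnAt_of_not_mem {k y : Pt 𝒜} {e : ℕ} {g : A} (h1 : g ∈ 𝒜 e) (h2 : g ∈ pr k)
    (h3 : g ∉ pr y) : GnAt k y e g := ⟨h1, h2, fun n a ha _ =>
  ⟨0, g, by rwa [zero_add], h3, a, by rwa [zero_add], mul_comm _ _⟩⟩

theorem a3_form {k y : Pt 𝒜} (h : ¬pr k ≤ pr y) : ∃ e, ∃ g ∈ 𝒜 e, g ∈ pr k ∧ g ∉ pr y := by
  classical
  by_contra! c
  refine h fun a ha => ?_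
  rw [← DirectSum.sum_support_decompose 𝒜 a]
  exact sum_mem fun n _ => c n _ (DirectSum.decompose 𝒜 a n).2 (pr_hom k n ha)

theorem exists_gnAt (h : Hyp 𝒜) (k : Comp 𝒜 p) (y : Pt 𝒜) : ∃ e g, GnAt k.1.1 y e g := by
  by_cases hy : pr k.1.1 ≤ pr y
  swap
  · obtain ⟨e, g, h1, h2, h3⟩ := a3_form hy
    exact ⟨e, g, gnAt_of_not_mem h1 h2 h3⟩
  have := lo_ufd h y
  have := loP_prime hy
  obtain ⟨π, hπ⟩ := UniqueFactorizationMonoid.isPrincipal_of_height_eq_one (p := loP y k.1.1)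
    (by rw [loP_height h hy, dm_Comp h k]; rfl)
  obtain ⟨e, g, h1, s, h2, h3, h4⟩ := lo_surj y π
  refine ⟨e, g, h1, (mem_loP hy h1).1 (by
    rw [← h4, hπ]; exact Ideal.mul_mem_left _ _ (mem_span_singleton_self π)), fun n a ha hk => ?_⟩
  have h5 := (mem_loP hy ha).2 hk
  rw [hπ] at h5
  obtain ⟨r, hr⟩ := mem_span_singleton.1 h5
  obtain ⟨m, c, h6, t, h7, h8, h9⟩ := lo_surj y r
  have hl := fun n => md_pow_mem (ell_spec y).1 n
  have d1 : t * s ∈ 𝒜 (m + e) := SetLike.mul_mem_graded h7 h2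
  have d2 : c * ell y ^ n ∈ 𝒜 (m + n) := SetLike.mul_mem_graded h6 (hl n)
  refine ⟨m, _, d1, md_mul_not_mem h8 h3, _, d2, sub_eq_zero.1 ((lo_inj y (k := m + e + n)
    (sub_mem (SetLike.mul_mem_graded d1 ha) ?_)).1 ?_)⟩
  · rw [add_right_comm]; exact SetLike.mul_mem_graded d2 h1
  · simp only [map_sub, map_mul, map_pow, lo_ell, ← hr, ← h4, ← h9, smul_eq_mul]
    ring

theorem GnAt.az {k y : Pt 𝒜} {e : ℕ} {g : A} (h : GnAt k y e g) {n : ℤ} {a : A}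
    (ha : a ∈ Az 𝒜 n) (hk : a ∈ pr k) : ∃ s ∈ stS y, ∃ c, s * a = c * g := by
  rcases Az_cases ha with rfl | ⟨n, rfl, h1⟩
  · exact ⟨1, one_mem _, 0, by simp⟩
  · obtain ⟨m, s, h2, h3, c, -, h4⟩ := h.gen n a h1 hk
    exact ⟨s, ⟨_, h2, h3⟩, c, h4⟩

theorem GnAt.not_mem {k y x : Pt 𝒜} {e : ℕ} {g : A} (h : GnAt k y e g) (hx : pr x ≤ pr y)
    (hk : ¬pr k ≤ pr x) : g ∉ pr x := fun c => by
  obtain ⟨n, a, h1, h2, h3⟩ := a3_form hk
  obtain ⟨m, s, -, h4, b, -, h5⟩ := h.gen n a h1 h2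
  exact md_mul_not_mem (fun e => h4 (hx e)) h3 (h5 ▸ Ideal.mul_mem_left _ _ c)

/-- `E` is the divisor of the ideal of `k` -/
structure Mo.Cut (X : Mo 𝒜 p) (k : Pt 𝒜) (E : Dvs X.L) : Prop where
  off : ¬pr k ≤ pr X.x.1
  supp : ∀ O ∈ E.support, O ∈ X.PD
  val : ∀ O ∈ X.PD, ∀ e g, GnAt k (X.cen O).1 e g →
    E O = ord O (X.θ g / X.θ (ell (X.cen O).1) ^ e)

theorem a3_ord {X : Mo 𝒜 p} {O : ValuationSubring X.L} (hO : O ∈ X.PD) {k : Pt 𝒜} {e : ℕ} {g : A}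
    (h : GnAt k (X.cen O).1 e g) {n : ℕ} {a : A} (ha : a ∈ 𝒜 n) (hk : a ∈ pr k) :
    O.valuation (X.θ a / X.θ (ell (X.cen O).1) ^ n) ≤
      O.valuation (X.θ g / X.θ (ell (X.cen O).1) ^ e) := by
  obtain ⟨m, s, h1, h2, c, h3, h4⟩ := h.gen n a ha hk
  have hc := (pd_cen X hO).1
  have h0 := X.ell_ne hc.1
  have e1 : X.θ s / X.θ (ell (X.cen O).1) ^ (m + e) * (X.θ a / X.θ (ell (X.cen O).1) ^ n) =
      X.θ c / X.θ (ell (X.cen O).1) ^ (m + n) * (X.θ g / X.θ (ell (X.cen O).1) ^ e) := by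
    rw [div_mul_div_comm, div_mul_div_comm, ← map_mul, ← map_mul, h4, ← pow_add, ← pow_add,
      add_right_comm]
  have e2 := congrArg O.valuation e1
  rw [map_mul, map_mul, hc.val_one h1 h2, one_mul] at e2
  rw [e2]
  exact mul_le_of_le_one_left' ((O.valuation_le_one_iff _).2 (hc.2 _ c h3).1)

theorem a3_ne {X : Mo 𝒜 p} {y k : Pt 𝒜} (hy : pr X.x.1 ≤ pr y) (hk : ¬pr k ≤ pr X.x.1) {e : ℕ}
    {g : A} (h : GnAt k y e g) : X.θ g / X.θ (ell y) ^ e ≠ 0 :=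
  div_ne_zero (X.th_ne h.deg (h.not_mem hy hk)) (pow_ne_zero _ (X.ell_ne hy))

theorem exists_isCut (h : Hyp 𝒜) (X : Mo 𝒜 p) (k : Comp 𝒜 p) (hk : ¬pr k.1.1 ≤ pr X.x.1) :
    ∃ E, X.Cut k.1.1 E := by
  classical
  choose e g hg using exists_gnAt h k
  have un : ∀ O ∈ X.PD, ∀ e' g', GnAt k.1.1 (X.cen O).1 e' g' →
      ord O (X.θ (g (X.cen O).1) / X.θ (ell (X.cen O).1) ^ e (X.cen O).1) =
        ord O (X.θ g' / X.θ (ell (X.cen O).1) ^ e') := fun O hO e' g' h' =>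
    (pd_disc X hO).ord_congr (a3_ne (pd_cen X hO).1.1 hk h') (le_antisymm
      (a3_ord hO h' (hg _).deg (hg _).mem) (a3_ord hO (hg _) h'.deg h'.mem))
  obtain ⟨n, a, h1, h2, h3⟩ := a3_form hk
  refine ⟨Finsupp.ofSupportFinite (fun O => if O ∈ X.PD then
    ord O (X.θ (g (X.cen O).1) / X.θ (ell (X.cen O).1) ^ e (X.cen O).1) else 0)
    ((pd_fin X h1 (X.th_ne h1 h3)).subset fun O hO => ?_), hk, fun O hO => ?_,
    fun O hO e' g' h' => (if_pos hO).trans (un O hO e' g' h')⟩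
  · by_cases c : O ∈ X.PD
    · refine ⟨c, by_contra fun c' => hO ((if_pos c).trans ?_)⟩
      have h4 := gnAt_of_not_mem h1 h2 c'
      rw [un O c n a h4, ← (pd_disc X c).eq_one_iff (a3_ne (pd_cen X c).1.1 hk h4)]
      exact (pd_cen X c).1.val_one h1 c'
    · exact absurd (if_neg c) hO
  · by_contra c
    exact Finsupp.mem_support_iff.1 hO (if_neg c)

namespace Mo.Cut

variable {X : Mo 𝒜 p} {k : Comp 𝒜 p} {E : Dvs X.L}

theorem nonneg (hE : X.Cut k.1.1 E) (h : Hyp 𝒜) : 0 ≤ E := fun O => by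
  by_cases c : O ∈ X.PD
  · obtain ⟨e, g, hg⟩ := exists_gnAt h k (X.cen O).1
    rw [hE.val O c e g hg]
    exact ((pd_disc X c).mem_iff (a3_ne (pd_cen X c).1.1 hE.off hg)).1
      ((pd_cen X c).1.2 e g hg.deg).1
  · exact (Finsupp.notMem_support_iff.1 fun e => c (hE.supp O e)).ge

theorem pos (hE : X.Cut k.1.1 E) (h : Hyp 𝒜) {O : ValuationSubring X.L} (c : O ∈ X.PD)
    (hk : pr k.1.1 ≤ pr (X.cen O).1) : 0 < E O := by
  obtain ⟨e, g, hg⟩ := exists_gnAt h k (X.cen O).1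
  rw [hE.val O c e g hg]
  exact ((pd_disc X c).lt_one_iff (a3_ne (pd_cen X c).1.1 hE.off hg)).1
    (((pd_cen X c).1.2 e g hg.deg).2.2 (hk hg.mem))

theorem th_mem (hE : X.Cut k.1.1 E) (h : Hyp 𝒜) {n : ℕ} {a : A} (ha : a ∈ 𝒜 n)
    (hk : a ∈ pr k.1.1) : X.θ a ∈ X.MD (-E) n := by
  by_cases h0 : X.θ a = 0
  · rw [h0]; exact zero_mem _
  refine (X.mem_MD_ord h0).2 fun O c => ?_
  obtain ⟨e, g, hg⟩ := exists_gnAt h k (X.cen O).1
  rw [Finsupp.neg_apply, neg_neg, hE.val O c e g hg]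
  exact ((pd_disc X c).v_le_iff (div_ne_zero h0 (pow_ne_zero _ (X.ell_ne (pd_cen X c).1.1)))
    (a3_ne (pd_cen X c).1.1 hE.off hg)).1 (a3_ord c hg ha hk)

theorem smul_mem (hE : X.Cut k.1.1 E) (h : Hyp 𝒜) {D : Dvs X.L} {i : ℤ} {a : A} (ha : a ∈ Az 𝒜 i)
    (hk : a ∈ pr k.1.1) (F : (X.gm _ (X.ff_MD D)).M) :
    a • F.1 ∈ X.gmS _ (X.ff_MD (D - E)).st := by
  rcases Az_cases ha with rfl | ⟨i, rfl, h1⟩
  · rw [zero_smul]; exact zero_mem _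
  rw [← X.sum_mon F.1, Finset.smul_sum]
  refine sum_mem fun n _ => ?_
  rw [X.smul_mon h1]
  have := X.mul_mem_MD (hE.th_mem h h1 hk) (F.2 n)
  rw [neg_add_eq_sub, add_comm] at this
  exact X.mon_mem this

/-- at `y` the sections of `O(D - E)` are multiples of a local generator -/
theorem div (hE : X.Cut k.1.1 E) {y : Pt 𝒜} (hy : pr X.x.1 ≤ pr y) {e : ℕ} {g : A}
    (hg : GnAt k.1.1 y e g) {D : Dvs X.L} {n : ℤ} {F : (X.gm _ (X.ff_MD (D - E))).M}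
    (hF : F ∈ (X.gm _ (X.ff_MD (D - E))).g n) :
    ∃ s ∈ stS y, ∃ G : (X.gm _ (X.ff_MD D)).M, s • F.1 = g • G.1 := by
  rcases st_mem_gm' X _ hF with rfl | ⟨n, rfl, w, hw, rfl⟩
  · exact ⟨1, one_mem _, 0, (smul_zero _).trans (smul_zero _).symm⟩
  have g0 := X.th_ne hg.deg (hg.not_mem hy hE.off)
  have hl := md_pow_mem (ell_spec y).1 e
  obtain ⟨m, s, h1, h2, h3⟩ := X.clear (D := D) (n := n) (z := X.θ (ell y ^ e) * w / X.θ g) (stS y)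
    fun O hO => by
      by_cases c : pr (X.cen O).1 ≤ pr y
      · refine Or.inl ((O.valuation_le_one_iff _).1 ?_)
        have hc := (pd_cen X hO).1
        have hd := pd_disc X hO
        have u0 := a3_ne hc.1 hE.off (hg.mono c)
        have e1 : X.nm O D n (X.θ (ell y ^ e) * w / X.θ g) * (X.θ g / X.θ (ell (X.cen O).1) ^ e) =
            X.θ (ell y ^ e) / X.θ (ell (X.cen O).1) ^ e * X.nm O (D - E) n w * unif O ^ E O := by
          have := hd.unif_ne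
          have := X.ell_ne hc.1
          rw [nm, nm, Finsupp.sub_apply, zpow_sub₀ hd.unif_ne]
          field_simp
        have e2 := congrArg O.valuation e1
        rw [map_mul, map_mul, map_mul, hc.val_one hl fun e => md_pow_not_mem (ell_spec y).2 _ (c e),
          one_mul, map_zpow₀, hE.val O hO e g (hg.mono c), ← hd.ord_spec u0] at e2
        rw [mul_right_cancel₀ ((_root_.map_ne_zero _).2 u0) e2]
        exact (O.valuation_le_one_iff _).2 (hw O hO)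
      · obtain ⟨i, t, h1, h2, h3⟩ := a3_form c
        exact Or.inr ⟨i, t, h1, ⟨i, h1, h3⟩, h2⟩
  refine ⟨s * ell y ^ e, mul_mem h2 ⟨e, hl, md_pow_not_mem (ell_spec y).2 _⟩,
    ⟨_, X.mon_mem h3⟩, ?_⟩
  change _ • X.mon n w = g • X.mon _ _
  rw [X.smul_mon (SetLike.mul_mem_graded h1 hl), X.smul_mon hg.deg]
  congr 1
  · omega
  · rw [map_mul]; field_simp

end Mo.Cut

/-! ### comparison lemmas -/

theorem a3_free {k y : Pt 𝒜} {e : ℕ} {g : A} (hg : GnAt k y e g) (g0 : g ≠ 0) :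
    Module.Free (Lo y) (((one 𝒜).sub (pr k)).St y) := by
  have hc : (one 𝒜).core (pr k) = pr k := (one 𝒜).core_eq (hg_one (pr_hom _))
  let G : ((one 𝒜).sub (pr k)).M := ⟨g, hc.symm ▸ hg.mem⟩
  let f : (one 𝒜).M →ₗ[A] ((one 𝒜).sub (pr k)).M := LinearMap.toSpanSingleton A _ G
  have hf : IsHom (one 𝒜) ((one 𝒜).sub (pr k)) e f := fun n m hm =>
    Az_mul (A := A) (𝒜 := 𝒜) (i := n) (j := e) (b := g) hm (by rw [Az_nat]; exact hg.deg)
  have hi : Injective f := fun a b hab =>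
    mul_right_cancel₀ (M₀ := A) g0 (congrArg Subtype.val hab)
  have hs : Surjective (f.baseChange (Lo y)) := fun ξ => by
    obtain ⟨n, s, h1, h2, m, h3, h4⟩ := st_surj y ξ
    obtain ⟨t, ⟨i, h5, h6⟩, c, h7⟩ := hg.az (n := n) (a := m.1) h3 (hc.le m.2)
    refine st_div y h1 h2 (Z := LinearMap.range (f.baseChange (Lo y))) (st_div y h5 h6 ?_)
    rw [h4, ← st_tmul_smul]
    exact ⟨1 ⊗ₜ c, congrArg (fun x => ((1 : Lo y) ⊗ₜ[A] x : ((one 𝒜).sub (pr k)).St y))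
      (Subtype.ext h7.symm : f c = t • m)⟩
  have : Module.Free A (one 𝒜).M := inferInstanceAs (Module.Free A A)
  exact .of_equiv (LinearEquiv.ofBijective _ ⟨st_inj y hf hi, hs⟩)

theorem a3_hp_eq {f : N.M →ₗ[A] N'.M} (hf : IsHom N N' 0 f) (hF : N.Fb p) (hF' : N'.Fb p)
    (h1 : ∀ y, ∀ m, f m = 0 → N.ZeroEl y m)
    (h2 : ∀ (y : Pt 𝒜) n, ∀ m ∈ N'.g n, ∃ s ∈ stS y, s • m ∈ LinearMap.range f) : N.hp p = N'.hp p := by
  have hc : N'.core (LinearMap.range f) = LinearMap.range f := N'.core_eq hf.hg_range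
  let g : N.M →ₗ[A] (N'.sub (LinearMap.range f)).M :=
    f.codRestrict (N'.core (LinearMap.range f)) fun m => hc.ge ⟨m, rfl⟩
  have hg : IsHom N (N'.sub (LinearMap.range f)) 0 g := fun n m hm => hf n m hm
  have hs : Surjective g := fun m => by
    obtain ⟨a, ha⟩ := N'.core_le _ m.2
    exact ⟨a, Subtype.ext ha⟩
  have z1 : ∀ y, (N.sub (LinearMap.ker g)).ZeroAt y := fun y m => by
    obtain ⟨k, t, h3, h4, h5⟩ := h1 y m.1 (congrArg Subtype.val (N.core_le _ m.2))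
    exact ⟨k, t, h3, h4, Subtype.ext h5⟩
  have z2 : ∀ y, (N'.quot (LinearMap.range f)).ZeroAt y := fun y => st_zeroAt (by
    rintro n _ ⟨m, hm, rfl⟩
    obtain ⟨s, ⟨k, h3, h4⟩, h5⟩ := h2 y n m hm
    exact ⟨k, s, h3, h4, (Quotient.mk_eq_zero _).2 (hc.ge h5)⟩)
  rw [hp_ses (sm_ker hg hs).ses hF, hp_ses (ses_sub_quot N' (LinearMap.range f)) hF',
    hp_zero (ev_bot z1), hp_zero (ev_bot z2), zero_add, add_zero]

theorem a3_ses {f : N₁.M →ₗ[A] N₂.M} (hf : IsHom N₁ N₂ 0 f) {Z Z₂ : Submodule A N₂.M}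
    (hZ : N₂.Hg Z) {Z₁ : Submodule A N₁.M} (e₁ : Z₁ = Z.comap f) (e₂ : Z₂ = Z ⊔ LinearMap.range f) :
    SES (N₁.quot Z₁) (N₂.quot Z) (N₂.quot Z₂) := by
  have c := N₂.core_eq hZ
  have c₁ : N₁.core Z₁ = Z₁ := N₁.core_eq (e₁ ▸ hf.hg_comap hZ)
  have c₂ : N₂.core Z₂ = Z₂ := N₂.core_eq (e₂ ▸ fun n m hm => by
    obtain ⟨a, ha, b, hb, rfl⟩ := mem_sup.1 hm
    rw [map_add]
    exact add_mem_sup (hZ n a ha) (hf.hg_range n b hb))
  have k : ∀ m, (N₂.core Z).mkQ m = 0 ↔ m ∈ Z := fun m => by rw [c]; exact Quotient.mk_eq_zero _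
  have k₁ : ∀ m, (N₁.core Z₁).mkQ m = 0 ↔ f m ∈ Z := fun m => by
    rw [c₁, e₁]; exact Quotient.mk_eq_zero _
  have k₂ : ∀ m, (N₂.core Z₂).mkQ m = 0 ↔ m ∈ Z ⊔ LinearMap.range f := fun m => by
    rw [c₂, e₂]; exact Quotient.mk_eq_zero _
  obtain ⟨u, hu⟩ := k5_fac (mkQ_surjective (N₁.core Z₁)) ((N₂.core Z).mkQ ∘ₗ f)
    fun m hm => (k _).2 ((k₁ m).1 hm)
  obtain ⟨v, hv⟩ := k5_fac (mkQ_surjective (N₂.core Z)) (N₂.core Z₂).mkQ
    fun m hm => (k₂ _).2 (mem_sup_left ((k m).1 hm))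
  refine ⟨u, v, (isHom_mkQ N₁ Z₁).of_surj (mkQ_surjective _) ((isHom_mkQ N₂ Z).comp hf) hu,
    (isHom_mkQ N₂ Z).of_surj (mkQ_surjective _) (isHom_mkQ N₂ Z₂) hv,
    (injective_iff_map_eq_zero _).2 fun m hm => ?_, fun m => ?_, fun m => ?_⟩
  · obtain ⟨m, rfl⟩ := mkQ_surjective (N₁.core Z₁) m
    exact (k₁ m).2 ((k _).1 ((hu m).symm.trans hm))
  · obtain ⟨m, rfl⟩ := mkQ_surjective (N₂.core Z) m
    refine ((congrArg (· = 0) (hv m)).to_iff.trans (k₂ m)).trans ⟨fun h => ?_, fun ⟨a, ha⟩ => ?_⟩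
    · obtain ⟨a, ha, _, ⟨b, rfl⟩, rfl⟩ := mem_sup.1 h
      exact ⟨(N₁.core Z₁).mkQ b, (hu b).trans (by
        rw [map_add, (k a).2 ha, zero_add]; rfl)⟩
    · obtain ⟨a, rfl⟩ := mkQ_surjective (N₁.core Z₁) a
      have h1 : (N₂.core Z).mkQ (m - f a) = 0 := by
        rw [map_sub, sub_eq_zero]; exact ((hu a).symm.trans ha).symm
      exact mem_sup.2 ⟨_, (k _).1 h1, _, ⟨a, rfl⟩, sub_add_cancel _ _⟩
  · obtain ⟨m, rfl⟩ := mkQ_surjective (N₂.core Z₂) m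
    exact ⟨_, hv m⟩

theorem a3_len_sh (N : GM 𝒜) (a : ℤ) {Z : Submodule A N.M} (hZ : N.Hg Z) (y : Pt 𝒜) :
    ((N.sh a).quot Z).len y = (N.quot Z).len y :=
  congrArg (fun W : Submodule A N.M => (Module.length (Lo y) (Lo y ⊗[A] (N.M ⧸ W))).toNat)
    (((N.sh a).core_eq fun _ m hm => hZ _ m hm).trans (N.core_eq hZ).symm)

theorem a3_reg (X : Mo 𝒜 p) {e : ℕ} {g : A} (hg : g ∈ 𝒜 e) (h0 : X.θ g ≠ 0) {F : X.Cn}
    (h : g • F = 0) : F = 0 := by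
  have h1 : X.cone g * (show X.L[X] from F) = 0 := h
  rw [X.cone_hom hg] at h1
  exact (mul_eq_zero.1 h1).resolve_left fun c => h0 ((monomial_eq_zero_iff _ _).1 c)

end

end Pool.Agent.Lib.MP_62d77c_ag.R
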