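import Pool.Agent.Lib.MP_62d77c_ag.R.DevA

/-! Submodules of a module of dimension one have bounded Euler characteristic. -/

set_option autoImplicit false
set_option linter.unusedSectionVars false

namespace Pool.Agent.Lib.MP_62d77c_ag.R

open Filter Polynomial Submodule
open scoped TensorProduct Matrix

noncomputable section

variable {A : Type} [CommRing A] [IsDomain A] {𝒜 : ℕ → AddSubgroup A} [GradedRing 𝒜]
  [hG : Fact (Gen 𝒜)] {p : ℕ} [Fact p.Prime] {N N' N₁ N₂ N₃ : GM 𝒜}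

theorem dv_ses_inj {f : N.M →ₗ[A] N'.M} (hf : IsHom N N' 0 f) (h : Function.Injective f) :
    SES N N' (N'.quot (LinearMap.range f)) :=
  ⟨f, (N'.core _).mkQ, hf, fun n m hm => ⟨m, by rwa [add_zero], rfl⟩, h, fun m => by
    refine (Submodule.Quotient.mk_eq_zero _).trans ?_
    rw [N'.core_eq hf.hg_range]; rfl, (N'.core _).mkQ_surjective⟩

theorem dv_ses_surj {g : N.M →ₗ[A] N'.M} (hg : IsHom N N' 0 g) (h : Function.Surjective g) :
    SES (N.sub (LinearMap.ker g)) N N' :=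
  ⟨(N.core _).subtype, g, fun n m hm => by rw [add_zero]; exact hm, hg, Subtype.val_injective,
    fun m => ⟨fun e => ⟨⟨m, (N.core_eq hg.hg_ker).ge e⟩, rfl⟩, by
      rintro ⟨m, rfl⟩; exact N.core_le _ m.2⟩, h⟩

theorem dv_hp_zero (h : ∀ y : Pt 𝒜, N.ZeroAt y) : N.hp p = 0 := hp_zero (ev_bot h)

/-- submodules have bounded Euler characteristic -/
theorem s0_sub (F : GM 𝒜) (h : F.Fb p) (hs : F.DimLt p 2) : ∃ c : ℚ, ∀ (N : GM 𝒜)
    (f : N.M →ₗ[A] F.M), IsHom N F 0 f → Function.Injective f → (N.hp p).eval 0 ≤ c := by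
  refine dv_ind (P := fun F => ∃ c : ℚ, ∀ (N : GM 𝒜) (f : N.M →ₗ[A] F.M), IsHom N F 0 f →
    Function.Injective f → (N.hp p).eval 0 ≤ c) (fun F _ h0 => ⟨0, fun N f hf hi => ?_⟩)
    (fun x a hx => ⟨max 0 ((((cy 𝒜 (pr x.1)).sh a).hp p).eval 0), fun N f hf hi => ?_⟩)
    (fun F₁ F₂ F₃ hS h2 _ ⟨c₁, h1⟩ ⟨c₃, h3⟩ => ⟨c₁ + c₃, fun N f hf hi => ?_⟩) h hs
  · rw [dv_hp_zero fun y => (((dv_ses_inj hf hi).zeroAt y).1 (h0 y)).1, eval_zero]
  · have hS := dv_ses_inj hf hi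
    have fb := dv_fb_cy x a
    have d := (dv_dimLt_sh x a).2 (Nat.lt_succ_self _)
    obtain ⟨f1, f3⟩ := hS.fb fb
    obtain ⟨d1, d3⟩ := (hS.dimLt _).1 d
    by_cases hz : N.ZeroAt x.1
    · have : ∀ m : N.M, m = 0 := fun m => by
        obtain ⟨k, t, -, h1, h2⟩ := hz m
        obtain ⟨b, hb⟩ := ((one 𝒜).core (pr x.1)).mkQ_surjective (f m)
        have h3 : ((one 𝒜).core (pr x.1)).mkQ (t • b) = 0 :=
          (map_smul _ _ _).trans ((congrArg (t • ·) hb).trans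
            ((map_smul f t m).symm.trans ((congrArg f h2).trans (map_zero f))))
        have h4 : t * (show A from b) ∈ pr x.1 :=
          (one 𝒜).core_le _ ((Submodule.Quotient.mk_eq_zero _).1 h3)
        have h5 : b ∈ (one 𝒜).core (pr x.1) := ((one 𝒜).core_eq (hg_one (pr_hom x.1))).ge
          ((x.1.isPrime.mem_or_mem h4).resolve_left h1)
        exact hi (hb.symm.trans (((Submodule.Quotient.mk_eq_zero _).2 h5).trans (map_zero f).symm))
      rw [dv_hp_zero fun y m => ⟨0, 1, SetLike.one_mem_graded 𝒜, md_one_not_mem y, this _⟩,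
        eval_zero]
      exact le_max_left _ _
    · have e := len_ses hS fb x d
      rw [len_sh, len_cy_self] at e
      have e1 := (len_eq_zero f1 x d1).not.2 hz
      have e3 := (len_eq_zero f3 x d3).1 (by omega)
      have d4 : (((cy 𝒜 (pr x.1)).sh a).quot (LinearMap.range f)).DimLt p 1 := fun y hy => by
        by_cases hle : pr x.1 ≤ pr y.1
        · rw [← dv_eq_of_dm hle (by omega)]; exact e3
        · exact ((hS.zeroAt _).1 ((dv_zeroAt_cy _ _ a).2 hle)).2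
      have e4 := hp_nonneg f3 d4
      refine le_trans ?_ (le_max_right _ _)
      rw [hp_ses hS fb, eval_add]
      linarith
  · obtain ⟨u, g, hu, hg, i1, ex, -⟩ := hS
    have hgf : IsHom N F₃ 0 (g ∘ₗ f) := fun n m hm => by
      have := hg _ _ (hf n m hm)
      rwa [add_zero] at this
    have fN := ((dv_ses_inj hf hi).fb h2).1
    have hK := N.core_eq hgf.hg_ker
    have mem : ∀ m : N.core (LinearMap.ker (g ∘ₗ f)), f m.1 ∈ LinearMap.range u := fun m =>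
      (ex _).1 (N.core_le _ m.2)
    let e := LinearEquiv.ofInjective u i1
    let f₁ : (N.sub (LinearMap.ker (g ∘ₗ f))).M →ₗ[A] F₁.M := e.symm.toLinearMap ∘ₗ
      (f ∘ₗ (N.core (LinearMap.ker (g ∘ₗ f))).subtype).codRestrict _ mem
    have uf : ∀ m, u (f₁ m) = f m.1 := fun m => congrArg Subtype.val (e.apply_symm_apply _)
    let f₃ : (N.quot (LinearMap.ker (g ∘ₗ f))).M →ₗ[A] F₃.M :=
      (N.core (LinearMap.ker (g ∘ₗ f))).liftQ (g ∘ₗ f) (N.core_le _)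
    rw [hp_ses (ses_sub_quot N (LinearMap.ker (g ∘ₗ f))) fN, eval_add]
    refine add_le_add (h1 _ f₁ (fun n m hm => ?_) fun m m' e => ?_) (h3 _ f₃ ?_ ?_)
    · obtain ⟨w, hw, e⟩ := hu.lift (hf n m.1 hm) (mem m)
      rw [add_zero, ← i1 (e.trans (uf m).symm)]; exact hw
    · exact Subtype.ext (hi ((uf m).symm.trans ((congrArg u e).trans (uf m'))))
    · rintro n _ ⟨m, hm, rfl⟩
      exact hgf n m hm
    · exact LinearMap.ker_eq_bot.1 (Submodule.ker_liftQ_eq_bot _ _ _ hK.ge)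

/-- S0 -/
theorem s0_quot (F : GM 𝒜) (h : F.Fb p) (hs : F.DimLt p 2) : ∃ c : ℚ, ∀ N₁ N₃ : GM 𝒜,
    SES N₁ F N₃ → -c ≤ (N₃.hp p).eval 0 ∧ (N₁.hp p).eval 0 ≤ c := by
  obtain ⟨c, hc⟩ := s0_sub F h hs
  refine ⟨max c (c - (F.hp p).eval 0), fun N₁ N₃ hS => ?_⟩
  have e := hp_ses hS h
  obtain ⟨f, -, hf, -, hi, -⟩ := hS
  have h1 := hc N₁ f hf hi
  have h2 := congrArg (eval 0) e
  rw [eval_add] at h2
  have h3 := le_max_left c (c - (F.hp p).eval 0)
  have h4 := le_max_right c (c - (F.hp p).eval 0)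
  constructor <;> linarith

/-- the map between two quotients -/
def GM.dvQ (N : GM 𝒜) {Z Z' : Submodule A N.M} (h : Z ≤ Z') : (N.quot Z).M →ₗ[A] (N.quot Z').M :=
  Submodule.factor (show N.core Z ≤ N.core Z' from fun _ hm n => h (hm n))

theorem GM.dvQ_ses (N : GM 𝒜) {Z Z' : Submodule A N.M} (h : Z ≤ Z') :
    SES ((N.quot Z).sub (LinearMap.ker (N.dvQ h))) (N.quot Z) (N.quot Z') :=
  dv_ses_surj (by rintro n _ ⟨m, hm, rfl⟩; exact ⟨m, by rwa [add_zero], rfl⟩)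
    (Submodule.factor_surjective (show N.core Z ≤ N.core Z' from fun _ hm n => h (hm n)))

/-- the inclusion of the modules of two families -/
def Mo.dvI (X : Mo 𝒜 p) {F F' : X.Fa} (h : X.FF F) (h' : X.FF F') (hle : F ≤ F') :
    (X.gm F h).M →ₗ[A] (X.gm F' h').M :=
  Submodule.inclusion (show X.gmS F h.st ≤ X.gmS F' h'.st from fun _ hm n => hle n (hm n))

theorem Mo.dvI_hom (X : Mo 𝒜 p) {F F' : X.Fa} (h : X.FF F) (h' : X.FF F') (hle : F ≤ F') :
    IsHom _ _ 0 (X.dvI h h' hle) := fun n m hm => by rw [add_zero]; exact hm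

theorem Mo.dvI_inj (X : Mo 𝒜 p) {F F' : X.Fa} (h : X.FF F) (h' : X.FF F') (hle : F ≤ F') :
    Function.Injective (X.dvI h h' hle) := Submodule.inclusion_injective _

theorem Mo.mem_dvI (X : Mo 𝒜 p) {F F' : X.Fa} (h : X.FF F) (h' : X.FF F') (hle : F ≤ F')
    {m : (X.gm F' h').M} : m ∈ LinearMap.range (X.dvI h h' hle) ↔ m.1 ∈ X.gmS F h.st :=
  ⟨by rintro ⟨w, rfl⟩; exact w.2, fun e => ⟨⟨m.1, e⟩, rfl⟩⟩

theorem Mo.dv_smul_stk (X : Mo 𝒜 p) {F F' : X.Fa} (h : X.FF F) (h' : X.FF F') {y : Pt 𝒜}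
    (hle : X.stk F y ⊆ X.stk F' y) {G : X.Cn} (hm : G ∈ X.gmS F h.st) :
    ∃ k, ∃ t ∈ 𝒜 k, t ∉ pr y ∧ t • G ∈ X.gmS F' h'.st := by
  rw [← X.sum_mon G]
  refine Finset.sum_induction _ (fun G => ∃ k, ∃ t ∈ 𝒜 k, t ∉ pr y ∧ t • G ∈ X.gmS F' h'.st)
    ?_ ⟨0, 1, SetLike.one_mem_graded 𝒜, md_one_not_mem y, smul_mem _ _ (zero_mem _)⟩ fun n _ => ?_
  · rintro u v ⟨k, t, h1, h2, h3⟩ ⟨k', t', h1', h2', h3'⟩
    refine ⟨k + k', t * t', SetLike.mul_mem_graded h1 h1', md_mul_not_mem h2 h2', ?_⟩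
    rw [smul_add]
    refine add_mem ?_ ?_
    · rw [mul_comm, mul_smul]; exact smul_mem _ _ h3
    · rw [mul_smul]; exact smul_mem _ _ h3'
  · by_cases e : X.θ (ell y) = 0
    · refine ⟨1, ell y, (ell_spec y).1, (ell_spec y).2, ?_⟩
      rw [X.smul_mon (ell_spec y).1, e, zero_mul, X.mon_zero]
      exact zero_mem _
    · have hl := md_pow_mem (ell_spec y).1 n
      have e1 : X.θ (ell y ^ n) * (X.co n G / X.θ (ell y ^ n)) = X.co n G :=
        mul_div_cancel₀ _ (by rw [map_pow]; exact pow_ne_zero _ e)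
      obtain ⟨k, t, h1, h2, h3⟩ := hle (show X.co n G / X.θ (ell y ^ n) ∈ X.stk F y from
        ⟨n, _, hl, md_pow_not_mem (ell_spec y).2 n, by rw [e1]; exact hm n⟩)
      refine ⟨k, t, h1, h2, ?_⟩
      rw [X.smul_mon h1]
      have := X.st_pow h'.st n k (mul_mem_mul (X.M.th_mem_pow hl) h3)
      rw [add_comm] at this
      refine X.mon_mem ?_
      rw [← e1, mul_left_comm]
      exact this

theorem s0_fam (X : Mo 𝒜 p) {J F : X.Fa} (hJ : X.FF J) (hF : X.FF F) (hle : J ≤ F)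
    (h2 : ∀ y : Vp 𝒜 p, 2 ≤ dm y → X.stk F y.1 ⊆ X.stk J y.1) : ∃ c : ℚ, ∀ F' : X.Fa, X.FF F' →
      F' ≤ F → (∀ y : Vp 𝒜 p, 1 ≤ dm y → X.stk J y.1 ⊆ X.stk F' y.1) → (hp F').eval 0 ≤ c := by
  have fN := fb_gm X hF
  let B := LinearMap.range (X.dvI hJ hF hle)
  have sB := dv_ses_inj (X.dvI_hom hJ hF hle) (X.dvI_inj hJ hF hle)
  obtain ⟨c, hc⟩ := s0_quot (p := p) ((X.gm F hF).quot B) (sB.fb fN).2 fun y hy m => by
    obtain ⟨m, rfl⟩ := ((X.gm F hF).core B).mkQ_surjective m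
    obtain ⟨k, t, h1, h3, h4⟩ := X.dv_smul_stk hF hJ (h2 y hy) m.2
    exact ⟨k, t, h1, h3, (map_smul _ _ _).symm.trans ((Submodule.Quotient.mk_eq_zero _).2
      (((X.gm F hF).core_eq (X.dvI_hom hJ hF hle).hg_range).ge ((X.mem_dvI hJ hF hle).2 h4)))⟩
  refine ⟨((X.gm F hF).hp p).eval 0 + c, fun F' hF' hle' h1 => ?_⟩
  let W := LinearMap.range (X.dvI hF' hF hle')
  have sW := dv_ses_inj (X.dvI_hom hF' hF hle') (X.dvI_inj hF' hF hle')
  have s1 := (X.gm F hF).dvQ_ses (le_sup_left : W ≤ W ⊔ B)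
  have e1 := (hc _ _ ((X.gm F hF).dvQ_ses (le_sup_right : B ≤ W ⊔ B))).1
  have fW := (sW.fb fN).2
  have e2 := congrArg (eval 0) (hp_ses sW fN)
  have e3 := congrArg (eval 0) (hp_ses s1 fW)
  have e4 := hp_nonneg (s1.fb fW).1 fun y hy m => by
    obtain ⟨m, hm⟩ := m
    obtain ⟨m, rfl⟩ := ((X.gm F hF).core W).mkQ_surjective m
    obtain ⟨w, hw, b, hb, rfl⟩ := Submodule.mem_sup.1 ((X.gm F hF).core_le (W ⊔ B)
      ((Submodule.Quotient.mk_eq_zero _).1 (((X.gm F hF).quot W).core_le _ hm)))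
    obtain ⟨k, t, h3, h4, h5⟩ := X.dv_smul_stk hJ hF' (h1 y hy) ((X.mem_dvI hJ hF hle).1 hb)
    refine ⟨k, t, h3, h4, Subtype.ext ((map_smul _ _ _).symm.trans
      ((Submodule.Quotient.mk_eq_zero _).2
        (((X.gm F hF).core_eq (X.dvI_hom hF' hF hle').hg_range).ge ?_)))⟩
    rw [smul_add]
    exact add_mem (smul_mem _ _ hw) ((X.mem_dvI hF' hF hle').2 h5)
  rw [eval_add, hp_gm X hF'] at e2
  rw [eval_add] at e3
  linarith

end

end Pool.Agent.Lib.MP_62d77c_ag.R
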