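import Pool.Agent.Lib.MP_62d77c_ag.R.N1b

/-! Divisorial modules: approximation, localisation, regular pairs, principal divisors. -/

set_option autoImplicit false
set_option linter.unusedSectionVars false
set_option linter.style.haveILetI false

namespace Pool.Agent.Lib.MP_62d77c_ag.R

open Submodule

noncomputable section

variable {L : Type} [Field L] {O O' : ValuationSubring L} {R R₁ : Subring L} {z w : L}
  {D E : Dvs L}

namespace Nrm

theorem mul_mem_Dv (h : Nrm R) (hz : z ∈ Dv R D) (hw : w ∈ Dv R E) : z * w ∈ Dv R (D + E) :=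
  fun O hO => by
    rw [Finsupp.add_apply, zpow_add₀ (h.disc hO).unif_ne, mul_mul_mul_comm]
    exact mul_mem (hz O hO) (hw O hO)

theorem mul_mem_of_neg (h : Nrm R) (hz : z ∈ Dv R D) (hw : w ∈ Dv R (-D)) : z * w ∈ R :=
  h.mem_Dv_zero.1 (add_neg_cancel D ▸ h.mul_mem_Dv hz hw)

theorem Dv_mono (h : Nrm R) (hle : ∀ O ∈ Ht1 R, D O ≤ E O) : Dv R D ≤ Dv R E := fun z hz => by
  by_cases h0 : z = 0
  · exact h0 ▸ zero_mem _
  exact (h.mem_Dv_iff h0).2 fun O hO =>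
    (neg_le_neg (hle O hO)).trans ((h.mem_Dv_iff h0).1 hz O hO)

theorem Dv_congr (h : Nrm R) (e : ∀ O ∈ Ht1 R, D O = E O) : Dv R D = Dv R E :=
  le_antisymm (h.Dv_mono fun O hO => (e O hO).le) (h.Dv_mono fun O hO => (e O hO).ge)

theorem exists_sep (h : Nrm R) (hO : O ∈ Ht1 R) (hO' : O' ∈ Ht1 R) (hne : O' ≠ O) :
    ∃ c ∈ R, O.valuation c = 1 ∧ O'.valuation c < 1 := by
  haveI := h.noeth
  obtain ⟨𝔮, h1, h2, h3⟩ := hO
  obtain ⟨𝔮', k1, k2, k3⟩ := hO'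
  have : ¬𝔮' ≤ 𝔮 := fun hle => by
    rcases hle.eq_or_lt with rfl | hlt
    · exact hne (h.ctr_unique h1 h2 k3 h3)
    · have := Ideal.height_strict_mono_of_isPrime_of_isPrime hlt
      rw [h2, k2] at this
      exact lt_irrefl _ this
  obtain ⟨c, hc, hc'⟩ := SetLike.not_le_iff_exists.1 this
  exact ⟨c, c.2, h3.eq_one hc', (k3 c).2.1 hc⟩

theorem finite_bad (h : Nrm R) (D : Dvs L) (z : L) :
    {O ∈ Ht1 R | z * unif O ^ D O ∉ O}.Finite := by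
  by_cases h0 : z = 0
  · simp [h0, zero_mem]
  refine ((h.finite_ord h0).union D.support.finite_toSet).subset fun O ⟨hO, e⟩ => ?_
  rw [(h.disc hO).mul_mem_iff h0] at e
  by_contra hc
  simp only [Set.mem_union, Set.mem_setOf_eq, hO, true_and, Finset.mem_coe, Finsupp.mem_support_iff,
    not_or, not_not] at hc
  omega

/-- clearing the poles by a multiplicative system that meets every bad centre -/
theorem exists_clear (h : Nrm R) (T : Submonoid L) (hT : ∀ t ∈ T, t ∈ R ∧ t ≠ 0)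
    (hz : ∀ O ∈ Ht1 R, z * unif O ^ D O ∈ O ∨ ∃ t ∈ T, O.valuation t < 1) :
    ∃ s ∈ T, s * z ∈ Dv R D := by
  classical
  have key : ∀ O : {O ∈ Ht1 R | z * unif O ^ D O ∉ O}, ∃ t ∈ T, t * (z * unif O.1 ^ D O.1) ∈ O.1 := by
    rintro ⟨O, hO, e⟩
    obtain ⟨t, ht, hv⟩ := (hz O hO).resolve_left e
    have hd := h.disc hO
    have h0 : z * unif O ^ D O ≠ 0 := fun e' => e (e' ▸ zero_mem _)
    have t0 := (hT t ht).2
    refine ⟨t ^ (-ord O (z * unif O ^ D O)).toNat, pow_mem ht _, ?_⟩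
    have := (hd.lt_one_iff t0).1 hv
    rw [hd.mem_iff (mul_ne_zero (pow_ne_zero _ t0) h0), hd.ord_mul (pow_ne_zero _ t0) h0,
      hd.ord_pow t0]
    nlinarith [Int.self_le_toNat (-ord O (z * unif O ^ D O)),
      Int.natCast_nonneg (-ord O (z * unif O ^ D O)).toNat]
  choose t ht ht' using key
  haveI := (h.finite_bad D z).fintype
  refine ⟨∏ O, t O, prod_mem fun O _ => ht O, fun O hO => ?_⟩
  by_cases e : z * unif O ^ D O ∈ O
  · rw [mul_assoc]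
    exact mul_mem (prod_mem fun O' _ => Ht1.le hO (hT _ (ht O')).1) e
  · rw [← Finset.prod_erase_mul _ _ (Finset.mem_univ ⟨O, hO, e⟩), mul_assoc, mul_assoc]
    exact mul_mem (prod_mem fun O' _ => Ht1.le hO (hT _ (ht O')).1) (ht' ⟨O, hO, e⟩)

/-- the localisation of `Dv R D` at a prime `P` -/
theorem exists_clear_prime (h : Nrm R) {P : Ideal R} (hP : P.IsPrime)
    (hz : ∀ O 𝔮, 𝔮.IsPrime → 𝔮.height = 1 → Ctr R O 𝔮 → 𝔮 ≤ P → z * unif O ^ D O ∈ O) :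
    ∃ s : R, s ∉ P ∧ (s : L) * z ∈ Dv R D := by
  obtain ⟨_, ⟨s, hs, rfl⟩, h1⟩ := h.exists_clear (z := z) (D := D) (P.primeCompl.map R.subtype)
    (by
      rintro _ ⟨s, hs, rfl⟩
      exact ⟨s.2, fun e => hs ((Subtype.ext e : s = 0) ▸ zero_mem P)⟩)
    (by
      rintro O ⟨𝔮, h1, h2, h3⟩
      by_cases e : 𝔮 ≤ P
      · exact Or.inl (hz O 𝔮 h1 h2 h3 e)
      · obtain ⟨c, hc, hc'⟩ := SetLike.not_le_iff_exists.1 e
        exact Or.inr ⟨c, ⟨c, hc', rfl⟩, (h3 c).2.1 hc⟩)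
  exact ⟨s, hs, h1⟩

theorem loc_Dv (h : Nrm R) (hO : O ∈ Ht1 R) :
    z * unif O ^ D O ∈ O ↔ ∃ s ∈ R, O.valuation s = 1 ∧ s * z ∈ Dv R D := by
  constructor
  · intro hz
    haveI := h.noeth
    obtain ⟨𝔮, h1, h2, h3⟩ := hO
    obtain ⟨s, hs, e⟩ := h.exists_clear_prime (z := z) (D := D) h1 fun O' 𝔮' k1 k2 k3 hle => by
      rcases hle.eq_or_lt with rfl | hlt
      · rwa [h.ctr_unique h1 h2 k3 h3]
      · have := Ideal.height_strict_mono_of_isPrime_of_isPrime hlt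
        rw [h2, k2] at this
        exact absurd this (lt_irrefl _)
    exact ⟨s, s.2, h3.eq_one hs, e⟩
  · rintro ⟨s, -, e, hs⟩
    have := (O.valuation_le_one_iff _).2 (hs O hO)
    rwa [mul_assoc, map_mul, e, one_mul, O.valuation_le_one_iff] at this

theorem exists_gen (h : Nrm R) (D : Dvs L) (hO : O ∈ Ht1 R) :
    ∃ z ∈ Dv R D, z ≠ 0 ∧ ord O z = -D O := by
  have hd := h.disc hO
  have h0 := zpow_ne_zero (-D O) hd.unif_ne
  obtain ⟨s, -, e, hs⟩ := (h.loc_Dv (z := unif O ^ (-D O)) (D := D) hO).1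
    (by rw [← zpow_add₀ hd.unif_ne, neg_add_cancel, zpow_zero]; exact one_mem _)
  have s0 : s ≠ 0 := by rintro rfl; simp at e
  exact ⟨_, hs, mul_ne_zero s0 h0, by
    rw [hd.ord_mul s0 h0, (hd.eq_one_iff s0).1 e, hd.ord_unif_zpow, zero_add]⟩

/-- approximation -/
theorem exists_gen_finite (h : Nrm R) (D : Dvs L) {S : Set (ValuationSubring L)} (hS : S.Finite)
    (hle : S ⊆ Ht1 R) : ∃ z ∈ Dv R D, z ≠ 0 ∧ ∀ O ∈ S, ord O z = -D O := by
  classical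
  rcases S.eq_empty_or_nonempty with rfl | ⟨O₀, h₀⟩
  · obtain ⟨c, -, c0, hc⟩ := h.Dv_ne D
    exact ⟨c, hc, c0, by simp⟩
  haveI := hS.fintype
  have key : ∀ O : S, ∃ z ∈ Dv R D, O.1.valuation (z * unif O.1 ^ D O.1) = 1 ∧
      ∀ O' : S, O' ≠ O → O'.1.valuation (z * unif O'.1 ^ D O'.1) < 1 := fun O => by
    obtain ⟨z, hz, z0, e⟩ := h.exists_gen D (hle O.2)
    have hd := h.disc (hle O.2)
    choose c hc h1 h2 using fun O' : {O' : S // O' ≠ O} =>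
      h.exists_sep (hle O.2) (hle O'.1.2) fun e => O'.2 (Subtype.ext e)
    refine ⟨(∏ O', c O') * z, (Dv R D).smul_mem ⟨_, prod_mem fun O' _ => hc O'⟩ hz, ?_,
      fun O' hne => ?_⟩
    · have u0 := zpow_ne_zero (D O.1) hd.unif_ne
      rw [mul_assoc, map_mul, map_prod, Finset.prod_eq_one fun O' _ => h1 O', one_mul,
        hd.eq_one_iff (mul_ne_zero z0 u0), hd.ord_mul z0 u0, e, hd.ord_unif_zpow, neg_add_cancel]
    · rw [← Finset.mul_prod_erase _ _ (Finset.mem_univ ⟨O', hne⟩), mul_assoc, mul_assoc, map_mul]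
      exact mul_lt_one_of_lt_of_le (h2 ⟨O', hne⟩) ((O'.1.valuation_le_one_iff _).2 (mul_mem
        (prod_mem fun O'' _ => Ht1.le (hle O'.2) (hc O'')) (hz _ (hle O'.2))))
  choose z hz h1 h2 using key
  have hv : ∀ O : S, O.1.valuation ((∑ O', z O') * unif O.1 ^ D O.1) = 1 := fun O => by
    rw [Finset.sum_mul, ← Finset.add_sum_erase _ _ (Finset.mem_univ O),
      Valuation.map_add_eq_of_lt_left, h1]
    rw [h1]
    exact Valuation.map_sum_lt _ one_ne_zero fun O' hO' =>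
      h2 O' O (Finset.ne_of_mem_erase hO').symm
  have z0 : ∑ O', z O' ≠ 0 := fun e => by simpa [e] using hv ⟨O₀, h₀⟩
  refine ⟨_, sum_mem fun O _ => hz O, z0, fun O hO => ?_⟩
  have hd := h.disc (hle hO)
  have u0 := zpow_ne_zero (D O) hd.unif_ne
  have := (hd.eq_one_iff (mul_ne_zero z0 u0)).1 (hv ⟨O, hO⟩)
  rw [hd.ord_mul z0 u0, hd.ord_unif_zpow] at this
  omega

theorem mem_Dv_of_gen (h : Nrm R) {g : L} (g0 : g ≠ 0) (hg : ∀ O ∈ Ht1 R, ord O g = -D O) :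
    z ∈ Dv R D ↔ z / g ∈ R := by
  by_cases h0 : z = 0
  · simp [h0]
  rw [h.mem_Dv_iff h0, ← h.mem_Dv_zero, h.mem_Dv_iff (div_ne_zero h0 g0)]
  refine forall₂_congr fun O hO => ?_
  rw [(h.disc hO).ord_div h0 g0, hg O hO, Finsupp.zero_apply]; omega

theorem Dv_eq_span (h : Nrm R) {g : L} (g0 : g ≠ 0) (hg : ∀ O ∈ Ht1 R, ord O g = -D O) :
    Dv R D = span R {g} := by
  ext z
  rw [h.mem_Dv_of_gen g0 hg, mem_span_singleton]
  exact ⟨fun e => ⟨⟨_, e⟩, div_mul_cancel₀ z g0⟩, fun ⟨r, e⟩ => by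
    rw [← e, Subring.smul_def, smul_eq_mul, mul_div_cancel_right₀ _ g0]; exact r.2⟩

theorem ord_of_span (h : Nrm R) {g : L} (e : Dv R D = span R {g}) :
    g ≠ 0 ∧ ∀ O ∈ Ht1 R, ord O g = -D O := by
  have g0 : g ≠ 0 := by
    rintro rfl
    obtain ⟨c, -, c0, hc⟩ := h.Dv_ne D
    exact c0 (by simpa [e] using hc)
  refine ⟨g0, fun O hO => le_antisymm ?_
    ((h.mem_Dv_iff g0).1 (e ▸ mem_span_singleton_self g) O hO)⟩
  obtain ⟨z, hz, z0, e'⟩ := h.exists_gen D hO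
  obtain ⟨r, rfl⟩ := mem_span_singleton.1 (e ▸ hz)
  have r0 : (r : L) ≠ 0 := left_ne_zero_of_mul z0
  have := ((h.disc hO).mem_iff r0).1 (Ht1.le hO r.2)
  rw [Subring.smul_def, smul_eq_mul, (h.disc hO).ord_mul r0 g0] at e'
  omega

/-- finitely many primes of height one: every divisor is principal -/
theorem exists_span (h : Nrm R) (hf : (Ht1 R).Finite) (D : Dvs L) :
    ∃ g, g ≠ 0 ∧ (∀ O ∈ Ht1 R, ord O g = -D O) ∧ Dv R D = span R {g} := by
  obtain ⟨g, -, g0, hg⟩ := h.exists_gen_finite D hf le_rfl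
  exact ⟨g, g0, hg, h.Dv_eq_span g0 hg⟩

/-- a pair without common zero in codimension one is regular -/
theorem mem_of_pair (h : Nrm R) {x y : L}
    (hxy : ∀ O ∈ Ht1 R, O.valuation x = 1 ∨ O.valuation y = 1) (h1 : x * w ∈ Dv R D)
    (h2 : y * w ∈ Dv R D) : w ∈ Dv R D := fun O hO => by
  rcases hxy O hO with e | e
  · exact (h.loc_Dv hO).2 (by
      have := (O.valuation_le_one_iff _).2 (h1 O hO)
      rw [mul_assoc, map_mul, e, one_mul, O.valuation_le_one_iff] at this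
      exact (h.loc_Dv hO).1 this)
  · have := (O.valuation_le_one_iff _).2 (h2 O hO)
    rwa [mul_assoc, map_mul, e, one_mul, O.valuation_le_one_iff] at this

/-- a product with unit valuation forces generators -/
theorem ord_of_mul (h : Nrm R) (hz : z ∈ Dv R D) (hw : w ∈ Dv R (-D)) (hO : O ∈ Ht1 R)
    (e : O.valuation (z * w) = 1) : ord O z = -D O ∧ ord O w = D O := by
  have h0 : z * w ≠ 0 := fun e' => by simp [e'] at e
  have z0 := left_ne_zero_of_mul h0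
  have w0 := right_ne_zero_of_mul h0
  have h1 := (h.mem_Dv_iff z0).1 hz O hO
  have h2 := (h.mem_Dv_iff w0).1 hw O hO
  rw [(h.disc hO).eq_one_iff h0, (h.disc hO).ord_mul z0 w0] at e
  rw [Finsupp.neg_apply] at h2
  omega

/-- reflexivity -/
theorem mem_Dv_of_mul (h : Nrm R) (hz : ∀ w ∈ Dv R D, z * w ∈ Dv R (D + E)) : z ∈ Dv R E := by
  by_cases h0 : z = 0
  · exact h0 ▸ zero_mem _
  refine (h.mem_Dv_iff h0).2 fun O hO => ?_
  obtain ⟨w, hw, w0, e⟩ := h.exists_gen D hO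
  have := (h.mem_Dv_iff (mul_ne_zero h0 w0)).1 (hz w hw) O hO
  rw [(h.disc hO).ord_mul h0 w0, e, Finsupp.add_apply] at this
  omega

end Nrm

/-- `R₁` is a localisation of `R` -/
def IsLoc (R R₁ : Subring L) : Prop :=
  R ≤ R₁ ∧ ∀ z ∈ R₁, ∃ s ∈ R, s ≠ 0 ∧ s⁻¹ ∈ R₁ ∧ s * z ∈ R

/-- the elements that become invertible -/
def invs (R R₁ : Subring L) : Submonoid R where
  carrier := {s | (s : L) ≠ 0 ∧ (s : L)⁻¹ ∈ R₁}
  one_mem' := by simp
  mul_mem' := fun {a b} ha hb => ⟨mul_ne_zero ha.1 hb.1, by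
    rw [Subring.coe_mul, mul_inv]; exact mul_mem ha.2 hb.2⟩

namespace IsLoc

theorem isLocalization (h : IsLoc R R₁) :
    letI := (Subring.inclusion h.1).toAlgebra; IsLocalization (invs R R₁) R₁ := by
  letI := (Subring.inclusion h.1).toAlgebra
  refine (isLocalization_iff _ _).2 ⟨fun s => ?_, fun z => ?_, fun {a b} e => ⟨1, ?_⟩⟩
  · exact IsUnit.of_mul_eq_one ⟨_, s.2.2⟩ (Subtype.ext (mul_inv_cancel₀ s.2.1))
  · obtain ⟨s, hs, s0, h1, h2⟩ := h.2 z z.2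
    exact ⟨(⟨_, h2⟩, ⟨⟨s, hs⟩, s0, h1⟩), Subtype.ext (mul_comm _ _)⟩
  · rw [Subring.inclusion_injective h.1 e]

theorem le_iff (h : IsLoc R R₁) (hO : R ≤ O.toSubring) :
    R₁ ≤ O.toSubring ↔ ∀ s ∈ R, s ≠ 0 → s⁻¹ ∈ R₁ → O.valuation s = 1 := by
  constructor
  · intro hle s hs s0 h1
    refine le_antisymm ((O.valuation_le_one_iff _).2 (hO hs)) ?_
    have := (O.valuation_le_one_iff _).2 (hle h1)
    rwa [map_inv₀, inv_le_one₀ (zero_lt_iff.2 ((Valuation.ne_zero_iff _).2 s0))] at this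
  · intro H z hz
    obtain ⟨s, hs, s0, h1, h2⟩ := h.2 z hz
    have := (O.valuation_le_one_iff _).2 (hO h2)
    rwa [map_mul, H s hs s0 h1, one_mul, O.valuation_le_one_iff] at this

theorem height_comap (h : IsLoc R R₁) (P : Ideal R₁) :
    (P.comap (Subring.inclusion h.1)).height = P.height := by
  letI := (Subring.inclusion h.1).toAlgebra
  haveI := h.isLocalization
  exact IsLocalization.height_under (invs R R₁) P

theorem ht1_iff (h : IsLoc R R₁) : O ∈ Ht1 R₁ ↔ O ∈ Ht1 R ∧ R₁ ≤ O.toSubring := by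
  constructor
  · rintro ⟨P, h1, h2, h3⟩
    exact ⟨⟨P.comap (Subring.inclusion h.1), h1.comap _, (h.height_comap P).trans h2,
      fun r => h3 (Subring.inclusion h.1 r)⟩, fun z hz => h3.mem hz⟩
  · rintro ⟨⟨𝔮, h1, h2, h3⟩, hle⟩
    let P : Ideal R₁ := (IsLocalRing.maximalIdeal O).comap (Subring.inclusion hle)
    have hP : Ctr R₁ O P := fun r => ⟨hle r.2, O.valuation_lt_one_iff _⟩
    refine ⟨P, Ideal.IsPrime.comap _, ?_, hP⟩
    rw [← h.height_comap, ← h2]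
    exact congrArg _ (Ctr.unique (fun r => hP (Subring.inclusion h.1 r)) h3)

theorem mem_Dv (h : IsLoc R R₁) (hR : Nrm R) :
    z ∈ Dv R₁ D ↔ ∃ s ∈ R, s ≠ 0 ∧ s⁻¹ ∈ R₁ ∧ s * z ∈ Dv R D := by
  constructor
  · intro hz
    obtain ⟨_, ⟨s, hs, rfl⟩, h1⟩ := hR.exists_clear (z := z) (D := D) ((invs R R₁).map R.subtype)
      (by rintro _ ⟨s, hs, rfl⟩; exact ⟨s.2, hs.1⟩) fun O hO => by
        by_cases e : R₁ ≤ O.toSubring
        · exact Or.inl (hz O (h.ht1_iff.2 ⟨hO, e⟩))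
        · rw [h.le_iff fun z hz => Ht1.le hO hz] at e
          push Not at e
          obtain ⟨s, hs, s0, h1, h2⟩ := e
          exact Or.inr ⟨s, ⟨⟨s, hs⟩, ⟨s0, h1⟩, rfl⟩,
            lt_of_le_of_ne ((O.valuation_le_one_iff _).2 (Ht1.le hO hs)) h2⟩
    exact ⟨s, s.2, hs.1, hs.2, h1⟩
  · rintro ⟨s, -, s0, h1, h2⟩ O hO
    have := mul_mem (Ht1.le hO h1) (h2 O (h.ht1_iff.1 hO).1)
    rwa [mul_assoc, inv_mul_cancel_left₀ s0] at this

theorem Dv_le (h : IsLoc R R₁) (hz : z ∈ Dv R D) : z ∈ Dv R₁ D :=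
  fun O hO => hz O (h.ht1_iff.1 hO).1

theorem nrm (h : IsLoc R R₁) (hR : Nrm R) : Nrm R₁ := by
  refine ⟨?_, fun z => ?_, fun z hz => ?_⟩
  · letI := (Subring.inclusion h.1).toAlgebra
    haveI := h.isLocalization
    exact IsLocalization.isNoetherianRing (invs R R₁) R₁ hR.noeth
  · obtain ⟨a, ha, b, hb, e⟩ := hR.frac z
    exact ⟨a, h.1 ha, b, h.1 hb, e⟩
  · obtain ⟨s, -, s0, h1, h2⟩ := (h.mem_Dv (z := z) (D := 0) hR).1 fun O hO => by
      have hle : R₁ ≤ O.toSubring := fun z hz => Ht1.le hO hz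
      letI := (Subring.inclusion hle).toAlgebra
      haveI : IsScalarTower R₁ O.toSubring L := .of_algebraMap_eq fun _ => rfl
      obtain ⟨y, rfl⟩ := (IsIntegrallyClosed.isIntegral_iff (R := O) (K := L)).1
        (hz.tower_top (A := O.toSubring))
      simpa using y.2
    have := mul_mem h1 (h.1 (hR.mem_Dv_zero.1 h2))
    rwa [inv_mul_cancel_left₀ s0] at this

theorem trans {R₂ : Subring L} (h : IsLoc R R₁) (h' : IsLoc R₁ R₂) : IsLoc R R₂ :=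
  ⟨h.1.trans h'.1, fun z hz => by
    obtain ⟨s, hs, s0, h1, h2⟩ := h'.2 z hz
    obtain ⟨t, ht, t0, h3, h4⟩ := h.2 s hs
    obtain ⟨u, hu, u0, h5, h6⟩ := h.2 _ h2
    refine ⟨t * s * u, mul_mem h4 hu, mul_ne_zero (mul_ne_zero t0 s0) u0, ?_, ?_⟩
    · rw [mul_inv, mul_inv]; exact mul_mem (mul_mem (h'.1 h3) h1) (h'.1 h5)
    · rw [show t * s * u * z = t * (u * (s * z)) by ring]; exact mul_mem ht h6⟩

/-- a ring between `R` and a localisation -/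
theorem of_le {R₂ : Subring L} (h : IsLoc R R₂) (h1 : R ≤ R₁) (h2 : R₁ ≤ R₂) : IsLoc R₁ R₂ :=
  ⟨h2, fun z hz => by
    obtain ⟨s, hs, s0, h3, h4⟩ := h.2 z hz
    exact ⟨s, h1 hs, s0, h3, h1 h4⟩⟩

end IsLoc

/-- the localisation at a prime -/
def atP (R : Subring L) (P : Ideal R) [hP : P.IsPrime] : Subring L where
  carrier := {z | ∃ s : R, s ∉ P ∧ (s : L) * z ∈ R}
  one_mem' := ⟨1, (Ideal.ne_top_iff_one _).1 hP.ne_top, by simp⟩
  zero_mem' := ⟨1, (Ideal.ne_top_iff_one _).1 hP.ne_top, by simp⟩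
  mul_mem' := fun {a b} ⟨s, hs, h1⟩ ⟨t, ht, h2⟩ => ⟨s * t, fun e => (hP.mem_or_mem e).elim hs ht, by
    rw [Subring.coe_mul, mul_mul_mul_comm]; exact mul_mem h1 h2⟩
  add_mem' := fun {a b} ⟨s, hs, h1⟩ ⟨t, ht, h2⟩ => ⟨s * t, fun e => (hP.mem_or_mem e).elim hs ht, by
    rw [Subring.coe_mul, show (s : L) * t * (a + b) = t * (s * a) + s * (t * b) by ring]
    exact add_mem (mul_mem t.2 h1) (mul_mem s.2 h2)⟩
  neg_mem' := fun {a} ⟨s, hs, h1⟩ => ⟨s, hs, by rw [mul_neg]; exact neg_mem h1⟩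

theorem mem_atP {P : Ideal R} [P.IsPrime] : z ∈ atP R P ↔ ∃ s : R, s ∉ P ∧ (s : L) * z ∈ R := Iff.rfl

theorem inv_mem_atP {P : Ideal R} [hP : P.IsPrime] {s : R} (s0 : (s : L) ≠ 0) :
    (s : L)⁻¹ ∈ atP R P ↔ s ∉ P :=
  ⟨fun ⟨t, ht, e⟩ hs => ht ((Subtype.ext (by simp [s0]) : (⟨_, e⟩ : R) * s = t) ▸ P.mul_mem_left _ hs),
    fun hs => ⟨s, hs, by rw [mul_inv_cancel₀ s0]; exact one_mem _⟩⟩

theorem isLoc_atP (P : Ideal R) [hP : P.IsPrime] : IsLoc R (atP R P) :=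
  ⟨fun z hz => ⟨1, (Ideal.ne_top_iff_one _).1 hP.ne_top, by simpa using hz⟩, fun z ⟨s, hs, e⟩ =>
    have s0 : (s : L) ≠ 0 := fun e => hs ((Subtype.ext e : s = 0) ▸ zero_mem P)
    ⟨s, s.2, s0, (inv_mem_atP s0).2 hs, e⟩⟩

theorem Nrm.mem_Dv_atP (h : Nrm R) {P : Ideal R} [hP : P.IsPrime] :
    z ∈ Dv (atP R P) D ↔ ∃ s : R, s ∉ P ∧ (s : L) * z ∈ Dv R D := by
  rw [(isLoc_atP P).mem_Dv h]
  exact ⟨fun ⟨s, hs, s0, h1, h2⟩ => ⟨⟨s, hs⟩, (inv_mem_atP (s := ⟨s, hs⟩) s0).1 h1, h2⟩,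
    fun ⟨s, hs, e⟩ =>
      have s0 : (s : L) ≠ 0 := fun e => hs ((Subtype.ext e : s = 0) ▸ zero_mem P)
      ⟨s, s.2, s0, (inv_mem_atP s0).2 hs, e⟩⟩

end

end Pool.Agent.Lib.MP_62d77c_ag.R
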