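import Pool.Agent.Lib.MP_62d77c_ag.R.N1d
import Pool.Agent.Lib.MP_62d77c_ag.R.N1e

/-! Semilocal rings of the normalisation, restriction to prime divisors. -/

set_option autoImplicit false
set_option linter.unusedSectionVars false
set_option linter.style.haveILetI false

namespace Pool.Agent.Lib.MP_62d77c_ag.R

open Filter Polynomial Submodule

noncomputable section

variable {A : Type} [CommRing A] [IsDomain A] {𝒜 : ℕ → AddSubgroup A} [GradedRing 𝒜]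
  [hG : Fact (Gen 𝒜)] {p : ℕ} [Fact p.Prime]

namespace Mo

variable (X : Mo 𝒜 p) {O : ValuationSubring X.L} {D E : Dvs X.L} {l : A} {y : Pt 𝒜} {n m : ℕ}
  {z w : X.L}

/-- one section generates at finitely many prime divisors of one chart -/
theorem md_exact_finite (D : Dvs X.L) (hl : l ∈ 𝒜 1) (h0 : l ∉ pr X.x.1)
    {S : Set (ValuationSubring X.L)} (hS : S.Finite)
    (h : ∀ O ∈ S, O ∈ X.PD ∧ l ∉ pr (X.cen O).1) :
    ∃ n, ∃ z ∈ X.MD D n, z ≠ 0 ∧ ∀ O ∈ S, O.valuation (X.nm O D n z) = 1 := by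
  obtain ⟨z, hz, z0, h1⟩ := (X.nrm_ch hl h0).exists_gen_finite D hS
    fun O hO => (mem_ht1 hl h0).2 (h O hO)
  obtain ⟨n, hn⟩ := (X.mem_Dv_ch hl h0).1 hz
  have l0 := pow_ne_zero n (X.th_ne hl h0)
  refine ⟨n, _, hn, mul_ne_zero l0 z0, fun O hO => ?_⟩
  have hd := pd_disc X (h O hO).1
  have u0 := zpow_ne_zero (D O) hd.unif_ne
  rw [X.val_nm (h O hO).1 hl (h O hO).2, mul_div_cancel_left₀ _ l0,
    hd.eq_one_iff (mul_ne_zero z0 u0), hd.ord_mul z0 u0, h1 O hO, hd.ord_unif_zpow, neg_add_cancel]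

/-- one section generates at all prime divisors with centre `y` -/
theorem md_exact_over (D : Dvs X.L) {y : Vp 𝒜 p} (hy : pr X.x.1 ≤ pr y.1) :
    ∃ n, ∃ z ∈ X.MD D n, z ≠ 0 ∧ ∀ O ∈ X.PD, X.cen O = y → O.valuation (X.nm O D n z) = 1 := by
  obtain ⟨n, z, h1, h2, h3⟩ := X.md_exact_finite D (ell_spec y.1).1
    (fun e => (ell_spec y.1).2 (hy e)) (X.finite_over y)
    fun O hO => ⟨hO.1, hO.2.symm ▸ (ell_spec y.1).2⟩
  exact ⟨n, z, h1, h2, fun O a b => h3 O ⟨a, b⟩⟩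

theorem isLoc_nl (hy : pr X.x.1 ≤ pr y) (hl : l ∈ 𝒜 1) (h1 : l ∉ pr y) :
    IsLoc (X.ch l) (X.nl y) := ⟨ch_le_nl h1, fun z hz => by
  obtain ⟨n, s, hs, h2, h3⟩ := (X.mem_nl_iff hy).1 hz
  have h0 : l ∉ pr X.x.1 := fun e => h1 (hy e)
  refine ⟨_, X.B_le_ch (X.div_mem_B hl hs),
    div_ne_zero (X.th_ne' hy hs h2) (pow_ne_zero n (X.th_ne hl h0)), ?_, ?_⟩
  · rw [inv_div, ← map_pow]
    exact X.orng_le_nl y (X.M.div_mem_fr (T := (pr y).primeCompl) (md_pow_mem hl n) hs h2)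
  · rw [div_mul_eq_mul_div]
    exact X.div_mem_ch hl h0 h3⟩

theorem nrm_nl (hy : pr X.x.1 ≤ pr y) : Nrm (X.nl y) :=
  (X.isLoc_nl hy (ell_spec y).1 (ell_spec y).2).nrm
    (X.nrm_ch (ell_spec y).1 fun e => (ell_spec y).2 (hy e))

variable {X} in
theorem Cen.le_of_orng {y' : Pt 𝒜} (h : X.Cen O y') (hy : pr X.x.1 ≤ pr y)
    (hle : X.M.orng y ≤ O.toSubring) : pr y' ≤ pr y := by
  have key : ∀ n, ∀ a ∈ 𝒜 n, a ∉ pr y → ∀ b ∈ 𝒜 n, X.θ b / X.θ a ∈ O := fun n a ha h1 b hb =>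
    hle (X.M.div_mem_fr (T := (pr y).primeCompl) hb ha h1)
  refine md_le_of_hom (pr_hom y') fun n a ha h1 => by_contra fun h2 => ?_
  have a1 := (h.2 n a ha).2.2 h1
  have a2 := (O.valuation_le_one_iff _).2 (key n a ha h2 _ (md_pow_mem (ell_spec y').1 n))
  have a3 := mul_lt_one_of_lt_of_le a1 a2
  rw [← map_mul, map_pow, div_mul_div_cancel₀ (pow_ne_zero n (X.ell_ne h.1)),
    div_self (X.th_ne' hy ha h2), map_one] at a3
  exact lt_irrefl _ a3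

theorem ht1_nl (hy : pr X.x.1 ≤ pr y) :
    O ∈ Ht1 (X.nl y) ↔ O ∈ X.PD ∧ pr (X.cen O).1 ≤ pr y := by
  obtain ⟨hl, h1⟩ := ell_spec y
  rw [(X.isLoc_nl hy hl h1).ht1_iff, mem_ht1 hl fun e => h1 (hy e)]
  exact ⟨fun ⟨⟨a, _⟩, b⟩ => ⟨a, (pd_cen X a).1.le_of_orng hy ((X.orng_le_nl y).trans b)⟩,
    fun ⟨a, b⟩ => ⟨⟨a, fun e => h1 (b e)⟩, fun _ hz =>
      n1c_int ((X.M.orng_anti b).trans (pd_cen X a).1.orng_le) hz⟩⟩

/-- the stalk of `O(D)` -/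
theorem stk_MD (hy : pr X.x.1 ≤ pr y) (D : Dvs X.L) : X.stk (X.MD D) y = Dv (X.nl y) D :=
  Set.ext fun z => (mem_stk_md X D hy z).trans
    ⟨fun h O hO => h O ((X.ht1_nl hy).1 hO).1 ((X.ht1_nl hy).1 hO).2,
      fun h O a b => h O ((X.ht1_nl hy).2 ⟨a, b⟩)⟩

theorem nl_span (hy : pr X.x.1 ≤ pr y) : ∃ t : Finset X.L, (∀ z ∈ t, z ∈ X.nl y) ∧
    ∀ z ∈ X.nl y, z ∈ span (X.M.orng y) (t : Set X.L) := by
  obtain ⟨hl, h1⟩ := ell_spec y
  have h0 : ell y ∉ pr X.x.1 := fun e => h1 (hy e)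
  obtain ⟨t, h2, h3⟩ := X.ch_span hl h0
  refine ⟨t, fun z hz => ch_le_nl h1 (h2 z hz), fun z hz => ?_⟩
  obtain ⟨n, s, hs, h4, h5⟩ := (X.mem_nl_iff hy).1 hz
  have key : ∀ u ∈ span (X.B (ell y)) (t : Set X.L), u ∈ span (X.M.orng y) (t : Set X.L) :=
    fun u hu => by
      induction hu using span_induction with
      | mem x hx => exact subset_span hx
      | zero => exact zero_mem _
      | add a b _ _ ha hb => exact add_mem ha hb
      | smul c a _ ha => exact smul_mem _ (⟨c, B_le_orng h1 c.2⟩ : X.M.orng y) ha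
  have := smul_mem _ (⟨_, X.M.div_mem_fr (T := (pr y).primeCompl) (md_pow_mem hl n) hs h4⟩ :
    X.M.orng y) (key _ (h3 _ (X.div_mem_ch hl h0 h5)))
  convert this using 1
  have a := X.th_ne' hy hs h4
  have b := X.ell_ne hy
  change z = X.θ _ / X.θ s * _
  rw [map_pow]
  field_simp

theorem nl_finite (hy : pr X.x.1 ≤ pr y) :
    Module.Finite (X.M.orng y) (integralClosure (X.M.orng y) X.L) := by
  obtain ⟨t, h1, h2⟩ := X.nl_span hy
  exact Module.Finite.iff_fg (N := Subalgebra.toSubmodule (integralClosure (X.M.orng y) X.L)).2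
    ⟨t, le_antisymm (span_le.2 h1) h2⟩

/-- over a point of codimension one there are finitely many prime divisors -/
theorem finite_ht1_nl {y : Vp 𝒜 p} (hy : pr X.x.1 ≤ pr y.1) (h : dm X.x ≤ dm y + 1) :
    (Ht1 (X.nl y.1)).Finite :=
  (X.finite_over y).subset fun _ hO => ⟨((X.ht1_nl hy).1 hO).1,
    X.cen_eq_of_le ((X.ht1_nl hy).1 hO).1 h ((X.ht1_nl hy).1 hO).2⟩

theorem exists_isDiv (hz : z ≠ 0) (e : ℕ) : ∃ D, X.IsDiv z e D := by
  classical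
  refine ⟨Finsupp.ofSupportFinite
    (fun O => if O ∈ X.PD then ord O (z / X.θ (ell (X.cen O).1) ^ e) else 0)
    ((pd_finite X hz e).subset fun O hO => ?_), fun O hO => ?_, fun O hO => if_pos hO⟩
  · by_cases h : O ∈ X.PD
    · refine ⟨h, fun c => hO ((if_pos h).trans ?_)⟩
      exact ((pd_disc X h).eq_one_iff (div_ne_zero hz
        (pow_ne_zero _ (X.ell_ne (pd_cen X h).1.1)))).1 c
    · exact absurd (if_neg h) hO
  · exact by_contra fun h => Finsupp.mem_support_iff.1 hO (if_neg h)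

variable {X} in
/-- multiplication by a section of `O(e)` with divisor `H` -/
theorem IsDiv.mul_mem {e : ℕ} {H : Dvs X.L} (h : X.IsDiv z e H) (hz : z ≠ 0) :
    z * w ∈ X.MD (D - H) (e + n) ↔ w ∈ X.MD D n := by
  by_cases w0 : w = 0
  · simp [w0]
  rw [X.mem_MD_ord (mul_ne_zero hz w0), X.mem_MD_ord w0]
  refine forall₂_congr fun O hO => ?_
  have l0 := X.ell_ne (pd_cen X hO).1.1
  rw [pow_add, ← div_mul_div_comm, (pd_disc X hO).ord_mul (div_ne_zero hz (pow_ne_zero _ l0))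
    (div_ne_zero w0 (pow_ne_zero _ l0)), Finsupp.sub_apply, h.2 O hO]
  omega

/-- the residue field of a prime divisor -/
theorem exists_sp (h : O ∈ X.PD) :
    ∃ (Y : Mo 𝒜 p) (S : Sp X Y), S.O = O ∧ Function.Surjective S.ρ := by
  obtain ⟨hl, h1⟩ := ell_spec (X.cen O).1
  have hc := (pd_cen X h).1
  have h0 : ell (X.cen O).1 ∉ pr X.x.1 := fun e => h1 (hc.1 e)
  have hle := hc.ch_le h1
  obtain ⟨𝔮, -, h2⟩ := ctr_of_le hle
  haveI : CharP (IsLocalRing.ResidueField O) p := (CharP.charP_iff_prime_eq_zero Fact.out).2 (by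
    rw [← map_natCast (IsLocalRing.residue O), show (p : O) = 0 from
      Subtype.ext (by simp), map_zero])
  letI : Algebra (ZMod p) (IsLocalRing.ResidueField O) := ZMod.algebra _ p
  have hk : ∀ z : O, IsLocalRing.residue O z = 0 ↔ O.valuation z < 1 := fun z => by
    rw [IsLocalRing.residue_eq_zero_iff, O.valuation_lt_one_iff]
  obtain ⟨θ, k1, k2, k3, k4⟩ := exists_res hl h1 hc h2
    ((IsLocalRing.residue O).comp (Subring.inclusion hle)) (fun r => (hk _).trans (h2 r).2.symm)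
    fun z => by
      obtain ⟨z, rfl⟩ := IsLocalRing.residue_surjective z
      obtain ⟨s, hs, e, h3⟩ := ((X.nrm_ch hl h0).mem_O (PD_ht1 h)).1 z.2
      refine ⟨⟨_, h3⟩, ⟨s, hs⟩, ?_⟩
      have s0 : IsLocalRing.residue O ⟨s, hle hs⟩ ≠ 0 := fun c => ((hk _).1 c).ne e
      refine (eq_div_iff s0).2 ((map_mul _ _ _).symm.trans (congrArg _ (Subtype.ext ?_)))
      exact mul_comm _ _
  refine ⟨⟨_, θ, X.cen O, k1, k2, k3⟩, ⟨O, h, rfl, IsLocalRing.residue O, hk, fun n a ha _ => ?_⟩,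
    rfl, IsLocalRing.residue_surjective⟩
  have := k4 n a ha
  rw [k2, one_pow, div_one] at this
  exact this

end Mo

theorem md_exact (X : Mo 𝒜 p) (D : Dvs X.L) {O : ValuationSubring X.L} (h : O ∈ X.PD) :
    ∃ n, ∃ z ∈ X.MD D n, O.valuation (X.nm O D n z) = 1 := by
  obtain ⟨n, z, h1, -, h2⟩ := X.md_exact_over D (pd_cen X h).1.1
  exact ⟨n, z, h1, h2 O h rfl⟩

namespace Sp

variable {X Y : Mo 𝒜 p} (S : Sp X Y) {D E : Dvs X.L} {n m : ℕ} {z w : X.L}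

include S in
theorem dm_eq : dm Y.x + 1 = dm X.x := S.cen ▸ (pd_cen X S.mem).2

include S in
theorem le : pr X.x.1 ≤ pr Y.x.1 := S.cen ▸ (pd_cen X S.mem).1.1

theorem ev_eq (h : X.nm S.O D n z ∈ S.O) : S.ev D n z = S.ρ ⟨_, h⟩ := dif_pos h

theorem ev_zero (D : Dvs X.L) (n : ℕ) : S.ev D n 0 = 0 := by
  have e : X.nm S.O D n 0 = 0 := by simp [Mo.nm]
  rw [S.ev_eq (by rw [e]; exact zero_mem _), ← map_zero S.ρ]
  exact congrArg _ (Subtype.ext e)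

theorem ev_add (hz : X.nm S.O D n z ∈ S.O) (hw : X.nm S.O D n w ∈ S.O) :
    S.ev D n (z + w) = S.ev D n z + S.ev D n w := by
  rw [S.ev_eq hz, S.ev_eq hw, S.ev_eq (X.nm_add S.O D n z w ▸ add_mem hz hw), ← map_add]
  exact congrArg _ (Subtype.ext (X.nm_add S.O D n z w))

theorem ev_mul (hz : X.nm S.O D n z ∈ S.O) (hw : X.nm S.O E m w ∈ S.O) :
    S.ev (D + E) (n + m) (z * w) = S.ev D n z * S.ev E m w := by
  rw [S.ev_eq hz, S.ev_eq hw, S.ev_eq (X.nm_mul S.mem D E n m z w ▸ mul_mem hz hw), ← map_mul]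
  exact congrArg _ (Subtype.ext (X.nm_mul S.mem D E n m z w))

theorem ev_th {a : A} (ha : a ∈ 𝒜 n) : S.ev 0 n (X.θ a) = Y.θ a := by
  have h := X.th_mem_MD ha S.O S.mem
  have e : X.nm S.O 0 n (X.θ a) = X.θ a / X.θ (ell Y.x.1) ^ n := by rw [X.nm_zero, S.cen]
  rw [S.ev_eq h, ← S.th n a ha (e ▸ h)]
  exact congrArg _ (Subtype.ext e)

theorem ev_th_mul {a : A} (ha : a ∈ 𝒜 n) (hw : X.nm S.O D m w ∈ S.O) :
    S.ev D (n + m) (X.θ a * w) = Y.θ a * S.ev D m w := by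
  rw [← S.ev_th ha, ← S.ev_mul (X.th_mem_MD ha S.O S.mem) hw, zero_add]

theorem ev_smul (c : ZMod p) (hw : X.nm S.O D m w ∈ S.O) : S.ev D m (c • w) = c • S.ev D m w := by
  obtain ⟨k, rfl⟩ := ZMod.intCast_surjective c
  have := S.ev_th_mul (md_intCast_mem (𝒜 := 𝒜) k) hw
  rw [zero_add, map_intCast, map_intCast] at this
  rw [Int.cast_smul_eq_zsmul, Int.cast_smul_eq_zsmul, zsmul_eq_mul, zsmul_eq_mul, this]

theorem ev_eq_zero (hz : X.nm S.O D n z ∈ S.O) :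
    S.ev D n z = 0 ↔ S.O.valuation (X.nm S.O D n z) < 1 := by rw [S.ev_eq hz, S.ker]

/-- evaluation as a linear map -/
def evl (D : Dvs X.L) (n : ℕ) : X.MD D n →ₗ[ZMod p] Y.L where
  toFun z := S.ev D n z
  map_add' z w := S.ev_add (z.2 _ S.mem) (w.2 _ S.mem)
  map_smul' c z := S.ev_smul c (z.2 _ S.mem)

theorem bar_eq (D : Dvs X.L) (n : ℕ) : S.bar D n = LinearMap.range (S.evl D n) :=
  le_antisymm (span_le.2 (by rintro _ ⟨z, hz, rfl⟩; exact ⟨⟨z, hz⟩, rfl⟩))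
    (by rintro _ ⟨z, rfl⟩; exact subset_span ⟨z, z.2, rfl⟩)

theorem mem_bar {u : Y.L} : u ∈ S.bar D n ↔ ∃ z ∈ X.MD D n, S.ev D n z = u := by
  rw [bar_eq]
  exact ⟨fun ⟨z, e⟩ => ⟨z, z.2, e⟩, fun ⟨z, hz, e⟩ => ⟨⟨z, hz⟩, e⟩⟩

theorem ev_mem (hz : z ∈ X.MD D n) : S.ev D n z ∈ S.bar D n := S.mem_bar.2 ⟨z, hz, rfl⟩

theorem th_mem_bar {a : A} (ha : a ∈ 𝒜 n) : Y.θ a ∈ S.bar 0 n :=
  S.mem_bar.2 ⟨_, X.th_mem_MD ha, S.ev_th ha⟩

theorem pow_le_bar (n : ℕ) : Y.V ^ n ≤ S.bar 0 n := fun u hu => by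
  obtain ⟨a, ha, rfl⟩ := Y.M.mem_pow.1 hu
  exact S.th_mem_bar ha

theorem bar_mul (D E : Dvs X.L) (n m : ℕ) : S.bar D n * S.bar E m ≤ S.bar (D + E) (n + m) :=
  mul_le.2 fun u hu v hv => by
    obtain ⟨z, hz, rfl⟩ := S.mem_bar.1 hu
    obtain ⟨w, hw, rfl⟩ := S.mem_bar.1 hv
    exact S.mem_bar.2 ⟨_, X.mul_mem_MD hz hw, S.ev_mul (hz _ S.mem) (hw _ S.mem)⟩

/-- the kernel of the evaluation -/
theorem ev_eq_zero_iff (hz : z ∈ X.MD D n) :
    S.ev D n z = 0 ↔ z ∈ X.MD (D - Finsupp.single S.O 1) n := by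
  classical
  by_cases z0 : z = 0
  · simp [z0, S.ev_zero]
  have hd := pd_disc X S.mem
  have l0 := div_ne_zero z0 (pow_ne_zero n (X.ell_ne (pd_cen X S.mem).1.1))
  have u0 := zpow_ne_zero (D S.O) hd.unif_ne
  rw [S.ev_eq_zero (hz _ S.mem), X.nm_eq, hd.lt_one_iff (mul_ne_zero l0 u0), hd.ord_mul l0 u0,
    hd.ord_unif_zpow, X.mem_MD_ord z0]
  rw [X.mem_MD_ord z0] at hz
  constructor
  · intro h O hO
    rw [Finsupp.sub_apply, Finsupp.single_apply]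
    split_ifs with e
    · subst e; omega
    · simpa using hz O hO
  · intro h
    have := h _ S.mem
    rw [Finsupp.sub_apply, Finsupp.single_eq_same] at this
    omega

theorem ff_bar (D : Dvs X.L) : Y.FF (S.bar D) := by
  have hf := X.ff_MD D
  have st : ∀ n, Y.V * S.bar D n ≤ S.bar D (n + 1) := fun n => by
    have := S.bar_mul 0 D 1 n
    rw [zero_add, add_comm] at this
    exact (mul_le_mul_left ((pow_one Y.V).ge.trans (S.pow_le_bar 1)) _).trans this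
  have fd : ∀ n, (S.bar D n).FG := fun n => by
    haveI := Module.Finite.iff_fg.2 (hf.fd n)
    rw [bar_eq, LinearMap.range_eq_map]
    exact Module.Finite.fg_top.map _
  refine ⟨st, fd, hf.fg.mono fun n hn => ⟨fd n, le_antisymm (fun u hu => ?_) (st n)⟩⟩
  obtain ⟨z, hz, rfl⟩ := S.mem_bar.1 hu
  have key : ∀ z ∈ X.V • X.MD D n, z ∈ X.MD D (n + 1) ∧ S.ev D (n + 1) z ∈ Y.V * S.bar D n :=
    fun z hz => Submodule.smul_induction_on hz (fun v hv w hw => ⟨X.st_MD D n (mul_mem_mul hv hw), by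
      obtain ⟨a, -, ha, rfl⟩ := X.M.mem_fam.1 hv
      rw [add_comm]
      exact (S.ev_th_mul ha (hw _ S.mem)).symm ▸
        mul_mem_mul (Y.M.mem_fam.2 ⟨a, trivial, ha, rfl⟩) (S.ev_mem hw)⟩)
      fun a b ha hb => ⟨add_mem ha.1 hb.1, by
        rw [S.ev_add (ha.1 _ S.mem) (hb.1 _ S.mem)]; exact add_mem ha.2 hb.2⟩
  exact (key z (hn.2 ▸ hz)).2

theorem exists_ne_bar (D : Dvs X.L) : ∃ n, ∃ u ∈ S.bar D n, u ≠ 0 := by
  obtain ⟨n, z, hz, e⟩ := md_exact X D S.mem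
  exact ⟨n, _, S.ev_mem hz, fun c => ((S.ev_eq_zero (hz _ S.mem)).1 c).ne e⟩

theorem bar_ne (D : Dvs X.L) : ∀ᶠ n in atTop, S.bar D n ≠ ⊥ := by
  obtain ⟨n, u, hu, u0⟩ := S.exists_ne_bar D
  filter_upwards [eventually_ge_atTop n] with k hk e
  obtain ⟨j, rfl⟩ := Nat.exists_eq_add_of_le hk
  have := Y.st_pow (S.ff_bar D).st j n
    (mul_mem_mul (Y.M.th_mem_pow (md_pow_mem (ell_spec Y.x.1).1 j)) hu)
  rw [e, Submodule.mem_bot] at this
  exact mul_ne_zero (Y.th_ne (md_pow_mem (ell_spec Y.x.1).1 j)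
    (md_pow_not_mem (ell_spec Y.x.1).2 j)) u0 this

/-- every value of `ρ` is a quotient of sections -/
theorem rho_frac (u : S.O) : ∃ n, ∃ a ∈ S.bar 0 n, ∃ b ∈ S.bar 0 n, b ≠ 0 ∧ S.ρ u * b = a := by
  obtain ⟨hl, h1⟩ := ell_spec (X.cen S.O).1
  have h0 : ell (X.cen S.O).1 ∉ pr X.x.1 := fun e => h1 ((pd_cen X S.mem).1.1 e)
  have l0 := X.th_ne hl h0
  obtain ⟨s, hs, e, h3⟩ := ((X.nrm_ch hl h0).mem_O (Mo.PD_ht1 S.mem)).1 u.2
  obtain ⟨i, hi⟩ := (X.mem_ch_iff hl h0).1 hs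
  obtain ⟨j, hj⟩ := (X.mem_ch_iff hl h0).1 h3
  have hi' := X.th_mul_mem (md_pow_mem hl j) hi
  have hj' := X.th_mul_mem (md_pow_mem hl i) hj
  rw [add_comm] at hj'
  have e1 : X.nm S.O 0 (j + i) (X.θ (ell (X.cen S.O).1 ^ j) * (X.θ (ell (X.cen S.O).1) ^ i * s)) =
      s := by rw [X.nm_zero, map_pow, pow_add]; field_simp
  have e2 : X.nm S.O 0 (j + i) (X.θ (ell (X.cen S.O).1 ^ i) *
      (X.θ (ell (X.cen S.O).1) ^ j * (s * u))) = s * u := by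
    rw [X.nm_zero, map_pow, pow_add]; field_simp
  refine ⟨j + i, _, S.ev_mem hj', _, S.ev_mem hi', fun c => ?_, ?_⟩
  · rw [S.ev_eq_zero (hi' _ S.mem), e1, e] at c
    exact lt_irrefl _ c
  · rw [S.ev_eq (hi' _ S.mem), S.ev_eq (hj' _ S.mem), ← map_mul]
    refine congrArg _ (Subtype.ext ?_)
    exact (congrArg (u.1 * ·) e1).trans ((mul_comm _ _).trans e2.symm)

end Sp

end

end Pool.Agent.Lib.MP_62d77c_ag.R
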