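import Pool.Agent.Lib.MP_62d77c_ag.R.N1p

/-! Commensurable families, products of families, slopes. -/

set_option autoImplicit false
set_option linter.unusedSectionVars false

namespace Pool.Agent.Lib.MP_62d77c_ag.R

open Filter Polynomial Submodule

noncomputable section

section field
variable {k K : Type} [Field k] [Field K] [Algebra k K] {V : Submodule k K}
  {N N' M P R R₁ R₂ R₃ N₁ N₂ : ℕ → Submodule k K}

/-- a multiple of `R` lies in a twist of `N` -/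
def Sub (R N : ℕ → Submodule k K) : Prop :=
  ∃ (a : ℕ) (s : K), s ≠ 0 ∧ ∀ᶠ n in atTop, span k {s} * R n ≤ N (n + a)

/-- commensurable families -/
def Com (R N : ℕ → Submodule k K) : Prop := Sub R N ∧ Sub N R

theorem Sub.of_le (h : R ≤ᶠ[atTop] N) : Sub R N :=
  ⟨0, 1, one_ne_zero, h.mono fun n hn => by rwa [← one_eq_span, one_mul]⟩

theorem Sub.trans (h : Sub R N) (h' : Sub N M) : Sub R M := by
  obtain ⟨a, s, s0, h⟩ := h
  obtain ⟨b, t, t0, h'⟩ := h'
  refine ⟨a + b, t * s, mul_ne_zero t0 s0, ?_⟩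
  filter_upwards [h, (tendsto_add_atTop_nat a).eventually h'] with n a1 a2
  rw [n1p_span, mul_assoc, ← add_assoc]
  exact (mul_le_mul_right a1 _).trans a2

theorem Com.refl (R : ℕ → Submodule k K) : Com R R := ⟨.of_le .rfl, .of_le .rfl⟩

theorem Com.symm (h : Com R N) : Com N R := ⟨h.2, h.1⟩

theorem Com.trans (h : Com R N) (h' : Com N M) : Com R M := ⟨h.1.trans h'.1, h'.2.trans h.2⟩

/-- a nonzero module contains a multiple of the ring -/
theorem Sub.of_rm (hV : Mdl V) (hR : Fg V R) (hN : Fg V N) (hm : RM R N)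
    (hne : ∃ᶠ n in atTop, N n ≠ ⊥) : Sub R N := by
  obtain ⟨a, h1, h2⟩ := (hne.and_eventually (Gam_ev hV hN)).exists
  obtain ⟨s, hs, s0⟩ := Submodule.exists_mem_ne_zero_of_ne_bot h1
  exact ⟨a, s, s0, (hm.add a).sec (V := V) hR (s := s) (by rw [← h2] at hs; exact hs)⟩

/-- a family whose elements have denominators -/
theorem Sub.of_den (hV : Mdl V) (hmul : ∀ m n, R m * R n ≤ R (m + n)) (hpow : ∀ n, V ^ n ≤ R n)
    (hN : Fg V N)
    (gen : ∀ᶠ a in atTop, ∀ z ∈ N a, ∃ n, ∃ b ∈ R n, b ≠ 0 ∧ b * z ∈ R n) : Sub N R := by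
  obtain ⟨a, h1, h3, h4⟩ := (gen.and (hN.and hN.pow_smul)).exists
  have den : ∀ W : Submodule k K, W.FG → W ≤ N a →
      ∃ e, ∃ b ∈ R e, b ≠ 0 ∧ ∀ w ∈ W, b * w ∈ R e := by
    intro W hW
    refine Submodule.fg_induction
      (motive := fun W _ => W ≤ N a → ∃ e, ∃ b ∈ R e, b ≠ 0 ∧ ∀ w ∈ W, b * w ∈ R e)
      (fun z hz => ?_) (fun W₁ W₂ _ _ a1 a2 le => ?_) W hW
    · obtain ⟨e, b, hb, b0, hz⟩ := h1 z (hz (mem_span_singleton_self z))
      refine ⟨e, b, hb, b0, fun w hw => ?_⟩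
      obtain ⟨c, rfl⟩ := mem_span_singleton.1 hw
      rw [mul_smul_comm]
      exact smul_mem _ _ hz
    · obtain ⟨e, b, hb, b0, hz⟩ := a1 (le_sup_left.trans le)
      obtain ⟨e', b', hb', b0', hz'⟩ := a2 (le_sup_right.trans le)
      refine ⟨e + e', b * b', hmul _ _ (mul_mem_mul hb hb'), mul_ne_zero b0 b0', fun w hw => ?_⟩
      obtain ⟨x, hx, y, hy, rfl⟩ := mem_sup.1 hw
      rw [mul_add, mul_right_comm, mul_assoc b b' y]
      exact add_mem (hmul _ _ (mul_mem_mul (hz x hx) hb')) (hmul _ _ (mul_mem_mul hb (hz' y hy)))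
  obtain ⟨e, b, -, b0, hb⟩ := den _ h3.1 le_rfl
  obtain ⟨v, hv, v0⟩ : ∃ v ∈ R a, v ≠ 0 := by
    obtain ⟨v, hv, v0⟩ := Submodule.exists_mem_ne_zero_of_ne_bot hV.2
    exact ⟨v ^ a, hpow a (pow_mem_pow V hv a), pow_ne_zero a v0⟩
  refine ⟨e, v * b, mul_ne_zero v0 b0, ?_⟩
  filter_upwards [eventually_ge_atTop a] with n hn
  obtain ⟨j, rfl⟩ := Nat.exists_eq_add_of_le hn
  rw [h4 j, smul_eq_mul, n1p_span, mul_mul_mul_comm]
  refine le_trans (mul_le_mul' ?_ ?_) (hmul (a + j) e)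
  · exact (mul_le_mul' ((span_singleton_le_iff_mem _ _).2 hv) (hpow j)).trans (hmul a j)
  · refine Submodule.mul_le.2 fun y hy z hz => ?_
    obtain ⟨c, rfl⟩ := mem_span_singleton.1 hy
    rw [smul_mul_assoc]
    exact smul_mem _ _ (hb z hz)

theorem n1q_nonneg (hV : Mdl V) (hR : Fg V R) (hN : Fg V N) {a : ℕ} {s : K} (s0 : s ≠ 0)
    (h : ∀ᶠ n in atTop, span k {s} * R n ≤ N (n + a)) :
    ∀ᶠ n : ℕ in atTop, 0 ≤ ((hp N).comp (X + C (a : ℚ)) - hp R).eval (n : ℚ) := by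
  filter_upwards [n1p_rank hV hR hN s0 (a := 0) h] with n hn
  rw [eval_sub, eval_comp, sub_nonneg]
  simpa using hn

theorem n1q_back {P : ℚ[X]} (a : ℚ) : (P.comp (X + C a)).comp (X + C (-a)) = P := by
  rw [comp_assoc]
  simp

theorem Sub.mem (hV : Mdl V) (hR : Fg V R) (hN : Fg V N) (h : Sub R N) {d : ℕ}
    (hd : hp N ∈ degreeLT ℚ d) : hp R ∈ degreeLT ℚ d := by
  obtain ⟨a, s, s0, h⟩ := h
  refine hilb_squeeze ?_ (n1q_nonneg hV hR hN s0 h) ?_
  · filter_upwards [hp_spec hV.1 hR] with n hn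
    rw [hn]
    exact Nat.cast_nonneg _
  · rw [add_sub_cancel]
    exact comp_mem_degreeLT hd _

theorem Sub.coeff_le (hV : Mdl V) (hR : Fg V R) (hN : Fg V N) (h : Sub R N) {d : ℕ}
    (hd : hp N ∈ degreeLT ℚ (d + 1)) : (hp R).coeff d ≤ (hp N).coeff d := by
  have m := h.mem hV hR hN hd
  obtain ⟨a, s, s0, h⟩ := h
  have := coeff_nonneg_of_eventually (sub_mem (comp_mem_degreeLT hd _) m)
    (n1q_nonneg hV hR hN s0 h)
  rwa [coeff_sub, coeff_comp_top hd, sub_nonneg] at this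

/-- commensurable families have the same leading term -/
theorem Com.hp_sub (hV : Mdl V) (hR : Fg V R) (hN : Fg V N) (h : Com R N) {d : ℕ}
    (hd : hp R ∈ degreeLT ℚ (d + 1)) : hp N - hp R ∈ degreeLT ℚ d := by
  have m := h.2.mem hV hN hR hd
  refine levl_mem.2 fun n hn => ?_
  rcases hn.eq_or_lt with rfl | lt
  · rw [coeff_sub, sub_eq_zero]
    exact le_antisymm (h.2.coeff_le hV hN hR hd) (h.1.coeff_le hV hR hN m)
  · exact levl_mem.1 (sub_mem m hd) n lt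

theorem n1q_rank_mul (W : Submodule k K) (hW : W.FG) : ∃ r : ℕ, ∀ U : Submodule k K, U.FG →
    Module.finrank k ↥(W * U) ≤ r * Module.finrank k U := by
  refine Submodule.fg_induction (motive := fun (W : Submodule k K) _ => ∃ r : ℕ,
    ∀ U : Submodule k K, U.FG →
    Module.finrank k ↥(W * U) ≤ r * Module.finrank k U) (fun z => ⟨1, fun U hU => ?_⟩)
    (fun W₁ W₂ h₁ h₂ a1 a2 => ?_) W hW
  · have := Module.Finite.iff_fg.2 hU
    rw [← sec_map_eq, one_mul]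
    exact Submodule.finrank_map_le _ _
  · obtain ⟨r, hr⟩ := a1
    obtain ⟨r', hr'⟩ := a2
    refine ⟨r + r', fun U hU => ?_⟩
    have := Module.Finite.iff_fg.2 (h₁.mul hU)
    have := Module.Finite.iff_fg.2 (h₂.mul hU)
    rw [Submodule.sup_mul, add_mul]
    exact (Submodule.finrank_add_le_finrank_add_finrank _ _).trans
      (add_le_add (hr U hU) (hr' U hU))

theorem hp_mem_dim (hV : Mdl V) (hN : Fg V N) : hp N ∈ degreeLT ℚ (dimV V + 1) := by
  obtain ⟨a, h1, h2⟩ := (hN.and hN.pow_smul).exists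
  obtain ⟨r, hr⟩ := n1q_rank_mul _ h1.1
  rw [← n1q_back (P := hp N) (a : ℚ)]
  refine comp_mem_degreeLT (hilb_squeeze (B := C (r : ℚ) * hp (pw V) - (hp N).comp (X + C (a : ℚ)))
    ?_ ?_ ?_) _
  · filter_upwards [hp_shift hV hN a] with n hn
    rw [hn]
    exact Nat.cast_nonneg _
  · filter_upwards [hp_shift hV hN a, hp_spec hV.1 (fg_pw' hV.1)] with n a1 a2
    rw [eval_sub, a1, eval_C_mul, a2, sub_nonneg, add_comm n a, h2 n, smul_eq_mul, mul_comm]
    exact_mod_cast hr _ (hV.1.pow n)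
  · rw [add_sub_cancel, C_mul']
    exact smul_mem _ _ (hilb_mem_nat _)

theorem rm_pw (hN : Fg V N) : RM (pw V) N := fun m => hN.fam.pow_smul.mono fun _ h => h m

/-- a nonzero family has the dimension of the model -/
theorem natDegree_hp (hV : Mdl V) (hN : Fg V N) (hne : ∃ᶠ n in atTop, N n ≠ ⊥) :
    (hp N).natDegree = dimV V ∧ 0 < (hp N).coeff (dimV V) := by
  have m := hp_mem_dim hV hN
  have a := (Sub.of_rm hV (fg_pw' hV.1) hN (rm_pw hN) hne).coeff_le hV (fg_pw' hV.1) hN m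
  have b := (PP_lead hV 1).2.1
  rw [PP, hq_one hV (fg_pw' hV.1)] at b
  have c := b.trans_le a
  exact ⟨natDegree_eq_of_le_of_coeff_ne_zero
    (natDegree_le_iff_coeff_eq_zero.2 fun j l => levl_mem.1 m j l) c.ne', c⟩

theorem Sub.ne (h : Sub R N) (hne : ∃ᶠ n in atTop, R n ≠ ⊥) : ∃ᶠ n in atTop, N n ≠ ⊥ := by
  obtain ⟨a, s, s0, h⟩ := h
  refine (tendsto_add_atTop_nat a).frequently ((hne.and_eventually h).mono fun n hn q => ?_)
  obtain ⟨x, hx, x0⟩ := Submodule.exists_mem_ne_zero_of_ne_bot hn.1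
  have := hn.2 (mul_mem_mul (mem_span_singleton_self s) hx)
  rw [q, Submodule.mem_bot] at this
  exact mul_ne_zero s0 x0 this

theorem Sub.prod (u : PU R₁ R₂ R₃) (l : PL N₁ N₂ P) (h : Sub R₁ N₁) (h' : Sub R₂ N₂) :
    Sub R₃ P := by
  obtain ⟨a, s, s0, h⟩ := h
  obtain ⟨a', s', s0', h'⟩ := h'
  exact ⟨a + a', s * s', mul_ne_zero s0 s0', n1p_comb (b := 0) (b' := 0) u l h h'⟩

/-- slopes are monotone -/
theorem slp_mono (hV : Mdl V) (hd : dimV V = 2) (hN : Fg V N) (hM : Fg V M)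
    (hle : N ≤ᶠ[atTop] M) (h : Sub M N) : a1 N ≤ a1 M ∧ a2 N = a2 M ∧ slp N ≤ slp M := by
  have m := hp_mem_dim hV hN
  rw [hd] at m
  have d := Com.hp_sub hV hN hM ⟨.of_le hle, h⟩ m
  have e1 := coeff_nonneg_of_eventually (s := 1) d (s1_nonneg hV hM hN hle)
  have e2 := levl_mem.1 d 2 le_rfl
  rw [coeff_sub, sub_nonneg] at e1
  rw [coeff_sub, sub_eq_zero] at e2
  refine ⟨e1, e2.symm, ?_⟩
  unfold slp a1 a2
  rw [e2]
  refine div_le_div_of_nonneg_right e1 (coeff_nonneg_of_eventually m ?_)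
  filter_upwards [hp_spec hV.1 hN] with n hn
  rw [hn]
  exact Nat.cast_nonneg _

/-- slope of a twist -/
theorem slp_shift (hV : Mdl V) (hd : dimV V = 2) (hN : Fg V N) (hne : ∃ᶠ n in atTop, N n ≠ ⊥)
    {s : K} (s0 : s ≠ 0) {a b : ℕ} (h : ∀ᶠ n in atTop, M (n + b) = span k {s} * N (n + a)) :
    a2 M = a2 N ∧ a1 M = a1 N + 2 * a2 N * (a - b) ∧ slp M = slp N + 2 * (a - b) := by
  have m := hp_mem_dim hV hN
  have pos := (natDegree_hp hV hN hne).2
  rw [hd] at m pos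
  have e : hp M = C (a2 N) * X ^ 2 + C (a1 N + 2 * a2 N * (a - b)) * X +
      C ((hp N).eval ((a : ℚ) - b)) := by
    refine hp_unique ?_
    obtain ⟨n₀, hn⟩ := eventually_atTop.1 (h.and (hp_spec hV.1 (hN.add a)))
    filter_upwards [eventually_ge_atTop (n₀ + b)] with n hn'
    obtain ⟨i, rfl⟩ : ∃ i, n = i + b := ⟨n - b, by omega⟩
    obtain ⟨c1, c2⟩ := hn i (by omega)
    have c3 := sec_finrank_mul (Units.mk0 s s0) (N (i + a))
    rw [Units.val_mk0] at c3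
    rw [c1, c3, ← c2, hp_add hV hN, s1_eval3 m, s1_eval3 m]
    simp only [eval_add, eval_mul, eval_C, eval_pow, eval_X, a1, a2, Nat.cast_add]
    ring
  have e2 : a2 M = a2 N := by
    rw [a2, e]
    generalize a1 N + 2 * a2 N * (a - b) = x
    simp [coeff_X, coeff_C]
  have e1 : a1 M = a1 N + 2 * a2 N * (a - b) := by
    rw [a1, e]
    generalize a1 N + 2 * a2 N * (a - b) = x
    simp [coeff_C]
  refine ⟨e2, e1, ?_⟩
  have : a2 N ≠ 0 := pos.ne'
  rw [slp, slp, e1, e2]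
  field_simp

end field

variable {A : Type} [CommRing A] [IsDomain A] {𝒜 : ℕ → AddSubgroup A} [GradedRing 𝒜]
  [hG : Fact (Gen 𝒜)] {p : ℕ} [Fact p.Prime] {X : Mo 𝒜 p} {N N' M : X.Fa}

namespace Mo

theorem n1q_mdl (X : Mo 𝒜 p) : Mdl X.V :=
  X.M.mdl (y := X.x.1) fun n a ha e => (X.ker n a ha).1 e

theorem mul_le_fmul (N N' : X.Fa) (i j : ℕ) : N i * N' j ≤ fmul N N' (i + j) :=
  Submodule.mul_le.2 fun u hu v hv => subset_span ⟨i, j, rfl, u, hu, v, hv, rfl⟩

theorem fmul_le {n : ℕ} {W : Submodule (ZMod p) X.L} :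
    fmul N N' n ≤ W ↔ ∀ i j, i + j = n → N i * N' j ≤ W := by
  refine ⟨fun h i j e => (mul_le_fmul N N' i j).trans (e ▸ h), fun h => span_le.2 ?_⟩
  rintro _ ⟨i, j, e, u, hu, v, hv, rfl⟩
  exact h i j e (mul_mem_mul hu hv)

theorem fmul_comm (N N' : X.Fa) : fmul N N' = fmul N' N := by
  have : ∀ N N' : X.Fa, fmul N N' ≤ fmul N' N := fun N N' n =>
    fmul_le.2 fun i j e => by rw [mul_comm, ← e, add_comm]; exact mul_le_fmul N' N j i
  exact le_antisymm (this _ _) (this _ _)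

theorem fmul_mono {P P' : X.Fa} (h : N ≤ P) (h' : N' ≤ P') : fmul N N' ≤ fmul P P' := fun _ =>
  fmul_le.2 fun i j e => (mul_le_mul' (h i) (h' j)).trans (e ▸ mul_le_fmul P P' i j)

theorem fmul_eq (N N' : X.Fa) (n : ℕ) :
    fmul N N' n = (Finset.HasAntidiagonal.antidiagonal n).sup fun ij => N ij.1 * N' ij.2 := by
  refine le_antisymm (fmul_le.2 fun i j e => ?_) (Finset.sup_le fun ij h => ?_)
  · exact Finset.le_sup (f := fun ij : ℕ × ℕ => N ij.1 * N' ij.2) (b := (i, j))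
      (Finset.HasAntidiagonal.mem_antidiagonal.2 e)
  · exact Finset.HasAntidiagonal.mem_antidiagonal.1 h ▸ mul_le_fmul N N' _ _

theorem fmul_assoc (N N' M : X.Fa) : fmul (fmul N N') M = fmul N (fmul N' M) := by
  have : ∀ N N' M : X.Fa, fmul (fmul N N') M ≤ fmul N (fmul N' M) := fun N N' M n =>
    fmul_le.2 fun i j e => by
      rw [fmul_eq N N', Finset.sup_eq_iSup]
      simp only [Submodule.iSup_mul]
      refine iSup₂_le fun ab h => ?_
      rw [mul_assoc, ← e, ← Finset.HasAntidiagonal.mem_antidiagonal.1 h, add_assoc]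
      exact (mul_le_mul_right (mul_le_fmul N' M _ _) _).trans (mul_le_fmul N _ _ _)
  refine le_antisymm (this _ _ _) ?_
  rw [fmul_comm N, fmul_comm N', fmul_comm _ M, fmul_comm N]
  exact this _ _ _

theorem fmul_pl (N N' : X.Fa) : PL N N' (fmul N N') :=
  Eventually.of_forall fun a => Eventually.of_forall fun n => add_comm a n ▸ mul_le_fmul N N' a n

theorem fmul_pu (h : X.FF N) (h' : X.FF N') : PU N N' (fmul N N') := by
  obtain ⟨n₀, hn⟩ := eventually_atTop.1 h'.fg.pow_smul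
  filter_upwards [h.fg.pow_smul] with a ha
  filter_upwards [eventually_ge_atTop n₀] with n hn'
  refine fmul_le.2 fun i j e => ?_
  rcases le_total i a with l | l
  · obtain ⟨c, rfl⟩ := Nat.exists_eq_add_of_le l
    obtain rfl : j = n + c := by omega
    rw [hn n hn' c, smul_eq_mul, ← mul_assoc, mul_comm (N i)]
    exact mul_le_mul_left (X.st_pow h.st c i) _
  · obtain ⟨c, rfl⟩ := Nat.exists_eq_add_of_le l
    obtain rfl : n = j + c := by omega
    rw [ha c, smul_eq_mul, mul_comm (X.V ^ c), mul_assoc]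
    exact mul_le_mul_right (X.st_pow h'.st c j) _

theorem FF.fmul (h : X.FF N) (h' : X.FF N') : X.FF (fmul N N') where
  st n := by
    rw [fmul_eq N N' n, Finset.sup_eq_iSup]
    simp only [Submodule.mul_iSup]
    refine iSup₂_le fun ab e => ?_
    rw [← Finset.HasAntidiagonal.mem_antidiagonal.1 e, mul_left_comm, add_assoc]
    exact (mul_le_mul_right (h'.st _) _).trans (mul_le_fmul N N' _ _)
  fd n := by
    rw [fmul_eq]
    exact Submodule.fg_finset_sup _ _ fun ij _ => (h.fd _).mul (h'.fd _)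
  fg := by
    obtain ⟨a, ha⟩ := (fmul_pu h h').exists
    refine ((h'.fg.sub a).smul (h.fd a)).congr ?_
    filter_upwards [(tendsto_sub_atTop_nat a).eventually ha, eventually_ge_atTop a] with n h1 h2
    rw [Nat.sub_add_cancel h2] at h1
    refine le_antisymm ?_ h1
    have := mul_le_fmul N N' a (n - a)
    rwa [Nat.add_sub_cancel' h2] at this

theorem rm_of_fmul {R : X.Fa} (h : fmul R N ≤ᶠ[atTop] N) : RM R N := fun m => by
  filter_upwards [(tendsto_add_atTop_nat m).eventually h] with n hn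
  exact (add_comm m n ▸ mul_le_fmul R N m n).trans hn

theorem com_fmul {R R' : X.Fa} (hR : X.FF R) (hR' : X.FF R') (h : X.FF N) (h' : X.FF N')
    (c : Com R N) (c' : Com R' N') : Com (fmul R R') (fmul N N') :=
  ⟨.prod (fmul_pu hR hR') (fmul_pl N N') c.1 c'.1, .prod (fmul_pu h h') (fmul_pl R R') c.2 c'.2⟩

theorem fmul_ne (h : X.FF N) (h' : X.FF N') (hne : ∃ᶠ n in atTop, N n ≠ ⊥)
    (hne' : ∃ᶠ n in atTop, N' n ≠ ⊥) : ∃ᶠ n in atTop, fmul N N' n ≠ ⊥ := by
  obtain ⟨a, ha⟩ := hne.exists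
  obtain ⟨s, hs, s0⟩ := Submodule.exists_mem_ne_zero_of_ne_bot ha
  refine Sub.ne ⟨a, s, s0, Eventually.of_forall fun n => ?_⟩ hne'
  exact (mul_le_mul_left ((span_singleton_le_iff_mem _ _).2 hs) _).trans
    (add_comm a n ▸ mul_le_fmul N N' a n)

/-- additivity of slopes -/
theorem slp_fmul (hd : dimV X.V = 2) {R R' : X.Fa} (hR : X.FF R) (hR' : X.FF R') (r : RM R R)
    (r' : RM R' R') (hne : ∃ᶠ n in atTop, R n ≠ ⊥) (hne' : ∃ᶠ n in atTop, R' n ≠ ⊥) :
    ∃ B : ℚ, ∀ N N' : X.Fa, X.FF N → X.FF N' → RM R N → RM R' N' → Com R N → Com R' N' →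
      |slp (fmul N N') - slp N - slp N'| ≤ B := by
  have hV := X.n1q_mdl
  have d := (natDegree_hp hV hR.fg hne).1.trans hd
  have d' := (natDegree_hp hV hR'.fg hne').1.trans hd
  have d'' := (natDegree_hp hV (hR.fmul hR').fg (fmul_ne hR hR' hne hne')).1.trans hd
  obtain ⟨B, hB⟩ := slp_prod hV hR.fg hR'.fg (hR.fmul hR').fg r r' d d' d''
  refine ⟨B, fun N N' h h' m m' c c' => ?_⟩
  have mm : ∀ {F : X.Fa}, X.FF F → hp F ∈ degreeLT ℚ (2 + 1) := fun f => hd ▸ hp_mem_dim hV f.fg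
  obtain ⟨b1, b2⟩ := hB N N' _ h.fg h'.fg (h.fmul h').fg m m' (c.hp_sub hV hR.fg h.fg (mm hR))
    (c'.hp_sub hV hR'.fg h'.fg (mm hR'))
    ((com_fmul hR hR' h h' c c').hp_sub hV (hR.fmul hR').fg (h.fmul h').fg (mm (hR.fmul hR')))
  have e1 := b1 (fmul_pu hR hR') (fmul_pl N N')
  have e2 := b2 (fmul_pl R R') (fmul_pu h h')
  exact abs_le.2 ⟨by linarith, by linarith⟩

end Mo

end

end Pool.Agent.Lib.MP_62d77c_ag.R
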