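import Pool.Agent.Lib.MP_62d77c_ag.R.Df2
import Pool.Agent.Lib.MP_62d77c_ag.R.N1f
import Pool.Agent.Lib.MP_62d77c_ag.R.N1q

/-! The dictionary for normalisations. -/

set_option autoImplicit false
set_option linter.unusedSectionVars false

namespace Pool.Agent.Lib.MP_62d77c_ag.R

open Filter Polynomial Submodule

noncomputable section

variable {A : Type} [CommRing A] [IsDomain A] {𝒜 : ℕ → AddSubgroup A} [GradedRing 𝒜]
  [hG : Fact (Gen 𝒜)] {p : ℕ} [Fact p.Prime]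

theorem stk_md_zero (X : Mo 𝒜 p) {y : Pt 𝒜} (hy : pr X.x.1 ≤ pr y) :
    X.stk (X.MD 0) y = X.nl y := Set.ext fun _ => (X.mem_nl_iff hy).symm

theorem ff_md (X : Mo 𝒜 p) (D : Dvs X.L) : X.FF (X.MD D) := X.ff_MD D

theorem ff_bar {X Y : Mo 𝒜 p} (S : Sp X Y) (D : Dvs X.L) : Y.FF (S.bar D) := S.ff_bar D

theorem ff_fmul {X : Mo 𝒜 p} {N N' : X.Fa} (h : X.FF N) (h' : X.FF N') : X.FF (Mo.fmul N N') :=
  h.fmul h'

theorem md_mul (X : Mo 𝒜 p) (D D' : Dvs X.L) (n m : ℕ) :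
    X.MD D n * X.MD D' m ≤ X.MD (D + D') (n + m) :=
  mul_le.2 fun _ hz _ hw => X.mul_mem_MD hz hw

theorem md_mono (X : Mo 𝒜 p) {D D' : Dvs X.L} (h : ∀ O ∈ X.PD, D O ≤ D' O) : X.MD D ≤ X.MD D' :=
  X.MD_mono h

theorem bar_mul {X Y : Mo 𝒜 p} (S : Sp X Y) (D D' : Dvs X.L) (n m : ℕ) :
    S.bar D n * S.bar D' m ≤ S.bar (D + D') (n + m) := S.bar_mul D D' n m

theorem exists_resid (X : Mo 𝒜 p) {O : ValuationSubring X.L} (h : O ∈ X.PD) :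
    ∃ (Y : Mo 𝒜 p) (S : Sp X Y), S.O = O ∧ Function.Surjective S.ρ := X.exists_sp h

theorem f_pos (X : Mo 𝒜 p) : 0 < X.f :=
  haveI := X.fin
  Module.finrank_pos

theorem f_eq_of_equiv {Y Y' : Mo 𝒜 p} (σ : Y.L ≃+* Y'.L) (h : ∀ a, σ (Y.θ a) = Y'.θ a) :
    Y.f = Y'.f := by
  have h1 : Subfield.closure (Set.range Y.θ) ≤
      (Subfield.closure (Set.range Y'.θ)).comap (σ : Y.L →+* Y'.L) :=
    Subfield.closure_le.2 (by
      rintro _ ⟨a, rfl⟩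
      exact Subfield.subset_closure ⟨a, (h a).symm⟩)
  have h2 : Subfield.closure (Set.range Y'.θ) ≤
      (Subfield.closure (Set.range Y.θ)).comap (σ.symm : Y'.L →+* Y.L) :=
    Subfield.closure_le.2 (by
      rintro _ ⟨a, rfl⟩
      exact Subfield.subset_closure ⟨a, σ.eq_symm_apply.2 (h a)⟩)
  refine Algebra.finrank_eq_of_equiv_equiv (RingEquiv.ofBijective
    (((σ : Y.L →+* Y'.L).comp (Subfield.subtype _)).codRestrict _ fun z => h1 z.2)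
    ⟨RingHom.injective _, fun z => ⟨⟨_, h2 z.2⟩, Subtype.ext (σ.apply_symm_apply _)⟩⟩) σ rfl

/-- two residue fields of one prime divisor are isomorphic -/
theorem exists_sp_equiv {X Y Y' : Mo 𝒜 p} (S : Sp X Y) (S' : Sp X Y') (e : S.O = S'.O)
    (h : Function.Surjective S.ρ) : ∃ σ : Y.L →+* Y'.L, (∀ a, σ (Y.θ a) = Y'.θ a) ∧
      (∀ z h1 h2, σ (S.ρ ⟨z, h1⟩) = S'.ρ ⟨z, h2⟩) ∧ ∀ D n z, σ (S.ev D n z) = S'.ev D n z := by
  obtain ⟨O, m, c, ρ, k, t⟩ := S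
  obtain ⟨O', m', c', ρ', k', t'⟩ := S'
  obtain rfl : O = O' := e
  have key : ∀ z, ρ.liftOfSurjective h ⟨ρ', fun z hz => (k' z).2 ((k z).1 hz)⟩ (ρ z) = ρ' z :=
    fun z => RingHom.liftOfRightInverse_comp_apply _ _ _ _ _
  refine ⟨ρ.liftOfSurjective h ⟨ρ', fun z hz => (k' z).2 ((k z).1 hz)⟩, fun a => ?_,
    fun z _ _ => key _, fun D n z => ?_⟩
  · induction a using hom_ind (𝒜 := 𝒜) with
    | h0 => simp only [map_zero]
    | hadd x y h1 h2 => simp only [map_add, h1, h2]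
    | h n a ha =>
      have h1 := ((pd_cen X m).1.2 n a ha).1
      rw [← t n a ha (c ▸ h1), key, ← t' n a ha (c' ▸ h1)]
      exact congrArg _ (Subtype.ext (by simp only [← c, ← c']))
  · unfold Sp.ev
    split_ifs
    · exact key _
    · exact map_zero _

theorem fdeg_eq {X Y : Mo 𝒜 p} (S : Sp X Y) (h : Function.Surjective S.ρ) : X.fdeg S.O = Y.f := by
  have e : ∃ (Y : Mo 𝒜 p) (S' : Sp X Y), S'.O = S.O ∧ Function.Surjective S'.ρ := ⟨Y, S, rfl, h⟩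
  rw [Mo.fdeg, dif_pos e]
  obtain ⟨S', h1, h2⟩ := e.choose_spec
  obtain ⟨σ, h3, h4, -⟩ := exists_sp_equiv S' S h1 h2
  refine f_eq_of_equiv (RingEquiv.ofBijective σ ⟨σ.injective, fun u => ?_⟩) h3
  obtain ⟨⟨z, hz⟩, rfl⟩ := h u
  exact ⟨_, h4 z (by rw [h1]; exact hz) hz⟩

theorem fdeg_pos (X : Mo 𝒜 p) {O : ValuationSubring X.L} (h : O ∈ X.PD) : 0 < X.fdeg O := by
  obtain ⟨Y, S, rfl, h1⟩ := X.exists_sp h
  rw [fdeg_eq S h1]
  exact f_pos Y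

theorem exists_pd (X : Mo 𝒜 p) {y : Vp 𝒜 p} (hy : pr X.x.1 ≤ pr y.1) (hd : dm y + 1 = dm X.x) :
    ∃ O ∈ X.PD, X.cen O = y := X.exists_PD hy hd

theorem exists_isDiv (X : Mo 𝒜 p) {z : X.L} (hz : z ≠ 0) (e : ℕ) : ∃ E, X.IsDiv z e E :=
  X.exists_isDiv hz e

theorem md_div (X : Mo 𝒜 p) {z : X.L} (hz : z ≠ 0) {e : ℕ} {E : Dvs X.L} (h : X.IsDiv z e E)
    (D : Dvs X.L) (n : ℕ) (w : X.L) : w ∈ X.MD (D + E) n ↔ w * z ∈ X.MD D (n + e) := by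
  rw [← h.mul_mem hz, add_sub_cancel_right, mul_comm, add_comm]

end

end Pool.Agent.Lib.MP_62d77c_ag.R
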