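import Pool.Agent.Lib.MP_62d77c_ag.R.K5a
import Pool.Agent.Lib.MP_62d77c_ag.R.N
import Pool.Agent.Lib.MP_62d77c_ag.R.Dev
import Pool.Agent.Lib.MP_62d77c_ag.R.Dm

/-! The cycle of `O(D) / O(D')`. -/

set_option autoImplicit false
set_option linter.unusedSectionVars false
set_option linter.style.haveILetI false

namespace Pool.Agent.Lib.MP_62d77c_ag.R

open Filter Polynomial Submodule Function

noncomputable section

variable {A : Type} [CommRing A] [IsDomain A] {𝒜 : ℕ → AddSubgroup A} [GradedRing 𝒜]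
  [hG : Fact (Gen 𝒜)] {p : ℕ} [Fact p.Prime] {N N' N₁ N₂ N₃ : GM 𝒜}

theorem k5_stk_zero (X : Mo 𝒜 p) (F : X.Fa) (y : Pt 𝒜) : (0 : X.L) ∈ X.stk F y :=
  ⟨0, 1, SetLike.one_mem_graded 𝒜, md_one_not_mem y, by simp⟩

theorem k5_stk_add (X : Mo 𝒜 p) {F : X.Fa} (h : X.FF F) {y : Pt 𝒜} {z w : X.L}
    (hz : z ∈ X.stk F y) (hw : w ∈ X.stk F y) : z + w ∈ X.stk F y := by
  obtain ⟨n, s, hs, h1, h2⟩ := hz
  obtain ⟨m, t, ht, h3, h4⟩ := hw
  refine ⟨n + m, s * t, SetLike.mul_mem_graded hs ht, md_mul_not_mem h1 h3, ?_⟩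
  have := add_mem (st_mul_mem X h h2 ht) (add_comm m n ▸ st_mul_mem X h h4 hs)
  convert this using 1
  rw [map_mul]; ring

theorem k5_stk_div (X : Mo 𝒜 p) {F : X.Fa} (h : X.FF F) {y : Pt 𝒜} (hy : pr X.x.1 ≤ pr y)
    {z : X.L} (hz : z ∈ X.stk F y) {k : ℕ} {a b : A} (ha : a ∈ 𝒜 k) (hb : b ∈ 𝒜 k) (h0 : b ∉ pr y) :
    X.θ a / X.θ b * z ∈ X.stk F y := by
  obtain ⟨n, s, hs, h1, h2⟩ := hz
  refine ⟨n + k, s * b, SetLike.mul_mem_graded hs hb, md_mul_not_mem h1 h0, ?_⟩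
  convert st_mul_mem X h h2 ha using 1
  have := X.th_ne' hy hb h0
  rw [map_mul]; field_simp

theorem stk_bar_self {X Y : Mo 𝒜 p} (S : Sp X Y) (hS : Surjective S.ρ) (D : Dvs X.L) :
    Y.stk (S.bar D) Y.x.1 = Set.univ := by
  haveI := Y.fin
  let U : Submodule (Subfield.closure (Set.range Y.θ)) Y.L :=
    { carrier := Y.stk (S.bar D) Y.x.1
      zero_mem' := k5_stk_zero _ _ _
      add_mem' := k5_stk_add Y (S.ff_bar D)
      smul_mem' := fun c z hz => by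
        obtain ⟨n, a, ha, b, hb, h0, e⟩ := Y.mem_K0.1 c.2
        change c.1 * z ∈ Y.stk _ _
        rw [e]; exact k5_stk_div Y (S.ff_bar D) le_rfl hz ha hb h0 }
  have hm : ∀ n, ∀ b ∈ S.bar 0 n, ∀ z ∈ U, b * z ∈ U := by
    rintro n b hb z ⟨m, s, hs, h1, h2⟩
    refine ⟨n + m, ell Y.x.1 ^ n * s, SetLike.mul_mem_graded (md_pow_mem (ell_spec _).1 n) hs,
      md_mul_not_mem (md_pow_not_mem (ell_spec _).2 n) h1, ?_⟩
    have := S.bar_mul 0 D n m (mul_mem_mul hb h2)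
    rw [zero_add] at this
    convert this using 1
    rw [map_mul, map_pow, Y.one]; ring
  obtain ⟨n, u, hu, u0⟩ := S.exists_ne_bar D
  have h1 : u ∈ U :=
    show u ∈ Y.stk _ _ by simpa [Y.one] using div_mem_stk Y (y := Y.x.1) hu
  refine Set.eq_univ_of_forall fun t => ?_
  obtain ⟨o, ho⟩ := hS (t / u)
  obtain ⟨k, a, ha, b, hb, b0, e⟩ := S.rho_frac o
  have h2 : Injective ((LinearMap.mulLeft _ b).restrict (hm k b hb)) := fun x y c =>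
    Subtype.ext (mul_left_cancel₀ b0 (congrArg Subtype.val c))
  obtain ⟨v, hv⟩ := LinearMap.surjective_of_injective h2 ⟨u, h1⟩
  have h3 : b * v.1 = u := congrArg Subtype.val hv
  have : t = a * v.1 := by rw [← e, ho, mul_assoc, h3, div_mul_cancel₀ _ u0]
  exact this ▸ hm k a ha _ v.2

theorem k5_co (X : Mo 𝒜 p) {F : X.Fa} (h : X.FF F) {Y : Mo 𝒜 p} (φ : ℕ → X.L → Y.L)
    (h1 : ∀ n, ∀ z ∈ F n, ∀ w ∈ F n, φ n (z + w) = φ n z + φ n w)
    (h2 : ∀ i, ∀ a ∈ 𝒜 i, ∀ n, ∀ z ∈ F n, φ (n + i) (X.θ a * z) = Y.θ a * φ n z) {F' : Y.Fa}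
    (h' : Y.FF F') (e : ∀ n u, u ∈ F' n ↔ ∃ z ∈ F n, φ n z = u) :
    ∃ g : (X.gm F h).M →ₗ[A] (Y.gm F' h').M, IsHom _ _ 0 g ∧ Surjective g ∧
      ∀ n z (hz : z ∈ F n), g ⟨X.mon n z, X.mon_mem hz⟩ = 0 ↔ φ n z = 0 := by
  have c : ∀ n z, X.co n (X.mon n z) = z := fun n z => (X.co_mon _ _ _).trans (if_pos rfl)
  obtain ⟨g, g1, g2, g3⟩ := k5_img (X.gm F h) Y (fun k => AddMonoidHom.mk'
    (fun m => φ k.toNat (X.co k.toNat m.1)) fun a b =>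
      (congrArg _ (map_add (X.co _) a.1 b.1)).trans (h1 _ _ (a.2 _) _ (b.2 _)))
    (fun i a ha k m hm => by
      rcases st_mem_gm' X h hm with rfl | ⟨k, rfl, z, hz, rfl⟩
      · rw [smul_zero, map_zero, map_zero, mul_zero]
      · change φ _ (X.co _ (a • X.mon k z)) = Y.θ a * φ _ (X.co _ (X.mon k z))
        rw [X.smul_mon ha, ← Nat.cast_add, Int.toNat_natCast, Int.toNat_natCast, c, c,
          h2 i a ha k z hz])
    (fun k hk m hm => by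
      rcases st_mem_gm' X h hm with rfl | ⟨k, rfl, -⟩
      · exact map_zero _
      · omega) h' fun n u => (e n u).trans ⟨fun ⟨z, hz, e⟩ => ⟨_, st_mon_g X h hz,
        (congrArg (φ n) (c n z)).trans e⟩, fun ⟨m, _, e⟩ => ⟨_, m.2 n, e⟩⟩
  refine ⟨g, g1, g2, fun n z hz => (g3 n _ (st_mon_g X h hz)).trans ?_⟩
  change φ n (X.co n (X.mon n z)) = 0 ↔ _
  rw [c]

theorem sm_bar {X Y : Mo 𝒜 p} (S : Sp X Y) {D D' : Dvs X.L} (e : D' = D - Finsupp.single S.O 1)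
    (h : X.FF (X.MD D)) (h' : X.FF (X.MD D')) (hle : X.MD D' ≤ X.MD D) :
    ∃ g, SM (X.gm _ h') (X.gm _ h) (Y.gm _ (S.ff_bar D)) (X.inc h' h hle) g := by
  subst e
  obtain ⟨g, g1, g2, g3⟩ := k5_co X h (S.ev D)
    (fun n z hz w hw => S.ev_add (hz _ S.mem) (hw _ S.mem))
    (fun i a ha n z hz => add_comm i n ▸ S.ev_th_mul ha (hz _ S.mem)) (S.ff_bar D) fun n u => S.mem_bar
  refine ⟨g, sm_of_hom (X.inc_hom _ _ _) g1 (X.inc_inj _ _ _) g2 (fun k m hm => ?_) fun k m hm c => ?_⟩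
  · rcases st_mem_gm' X h' hm with rfl | ⟨k, rfl, z, hz, rfl⟩
    · simp
    · exact (g3 k z (hle k hz)).2 ((S.ev_eq_zero_iff (hle k hz)).2 hz)
  · rcases st_mem_gm' X h hm with rfl | ⟨k, rfl, z, hz, rfl⟩
    · exact zero_mem _
    · exact ⟨⟨_, X.mon_mem ((S.ev_eq_zero_iff hz).1 ((g3 k z hz).1 c))⟩, rfl⟩

theorem k5_dimLt_gm (X : Mo 𝒜 p) {F : X.Fa} (h : X.FF F) : (X.gm F h).DimLt p (dm X.x + 1) :=
  fun _ hy => zeroAt_gm X h fun c => by have := dm_anti c; omega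

theorem k5_cyc_gm (X : Mo 𝒜 p) {F : X.Fa} (h : X.FF F) (hF : X.stk F X.x.1 = Set.univ) :
    (X.gm F h).cyc p (dm X.x) = Finsupp.single X.x (X.f : ℤ) := by
  classical
  ext y
  rw [cyc_apply (fb_gm X h) (k5_dimLt_gm X h), Finsupp.single_apply]
  by_cases e : X.x = y
  · subst e; rw [if_pos rfl, if_pos rfl, len_gm X h hF]
  · rw [if_neg e]
    split_ifs with c
    · rw [(len_eq_zero (fb_gm X h) y (c ▸ k5_dimLt_gm X h)).2
        (zeroAt_gm X h fun k => e (eq_of_dm k c.ge))]; rfl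
    · rfl

theorem k5_cyc_ses (h : SES N₁ N₂ N₃) (h2 : N₂.Fb p) {s : ℕ} (hs : N₂.DimLt p (s + 1)) :
    N₂.cyc p s = N₁.cyc p s + N₃.cyc p s := by
  ext y
  rw [Finsupp.add_apply, cyc_apply h2 hs, cyc_apply (h.fb h2).1 ((h.dimLt _).1 hs).1,
    cyc_apply (h.fb h2).2 ((h.dimLt _).1 hs).2]
  split_ifs with c
  · rw [len_ses h h2 y (c ▸ hs)]; push_cast; rfl
  · rfl

theorem k5_dimLt_mono {s t : ℕ} (h : N.DimLt p s) (hst : s ≤ t) : N.DimLt p t :=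
  fun y hy => h y (hst.trans hy)

theorem k5_cyc_zero (h : N.Fb p) {s : ℕ} (hs : N.DimLt p s) : N.cyc p s = 0 := by
  ext y
  rw [cyc_apply h (k5_dimLt_mono hs (Nat.le_succ s))]
  split_ifs with c
  · rw [(len_eq_zero h y (c ▸ k5_dimLt_mono hs (Nat.le_succ s))).2 (hs y c.ge)]; rfl
  · rfl

theorem psh_add (X : Mo 𝒜 p) (D D' : Dvs X.L) : X.psh (D + D') = X.psh D + X.psh D' :=
  Finsupp.sum_add_index' (fun O => by simp) fun O a b => by
    split_ifs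
    · rw [add_mul, Finsupp.single_add]
    · simp

theorem psh_zero (X : Mo 𝒜 p) : X.psh 0 = 0 := Finsupp.sum_zero_index

/-- push forward as a homomorphism -/
def Mo.k5psh (X : Mo 𝒜 p) : Dvs X.L →+ (Vp 𝒜 p →₀ ℤ) := AddMonoidHom.mk' X.psh (psh_add X)

theorem psh_sub (X : Mo 𝒜 p) (D D' : Dvs X.L) : X.psh (D - D') = X.psh D - X.psh D' :=
  map_sub X.k5psh D D'

theorem psh_single (X : Mo 𝒜 p) {O : ValuationSubring X.L} (h : O ∈ X.PD) (n : ℤ) :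
    X.psh (Finsupp.single O n) = Finsupp.single (X.cen O) (n * X.fdeg O) :=
  (Finsupp.sum_single_index (by simp)).trans (if_pos h)

theorem psh_single_ne (X : Mo 𝒜 p) {O : ValuationSubring X.L} (h : O ∉ X.PD) (n : ℤ) :
    X.psh (Finsupp.single O n) = 0 :=
  (Finsupp.sum_single_index (by simp)).trans (if_neg h)

theorem k5_surf (X : Mo 𝒜 p) (h3 : dm X.x = 3) (D : Dvs X.L) : Surf (X.psh D) := fun W hW => by
  classical
  obtain ⟨O, -, h⟩ := Finset.mem_biUnion.1 (Finsupp.support_finsetSum hW)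
  beta_reduce at h
  split_ifs at h with c
  · rw [Finset.mem_singleton.1 (Finsupp.support_single_subset h)]
    have := (pd_cen X c).2
    omega
  · simp at h

theorem k5_inc_inc (X : Mo 𝒜 p) {F F' F'' : X.Fa} (h : X.FF F) (h' : X.FF F') (h'' : X.FF F'')
    (l : F ≤ F') (l' : F' ≤ F'') (l'' : F ≤ F'') (m : (X.gm F h).M) :
    X.inc h h'' l'' m = X.inc h' h'' l' (X.inc h h' l m) := Subtype.ext rfl

theorem k5_inc_eq (X : Mo 𝒜 p) {F F' : X.Fa} (h : X.FF F) (h' : X.FF F') (l : F ≤ F')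
    {f : (X.gm F h).M →ₗ[A] (X.gm F' h').M} (hf : ∀ m, (f m).1 = m.1) (m : (X.gm F h).M) :
    f m = X.inc h h' l m := Subtype.ext (hf m)

/-- the quotient `O(D' + E) / O(D')` has cycle `E` -/
def K5R (X : Mo 𝒜 p) (s : ℕ) (E : Dvs X.L) : Prop := ∀ D' D, D = D' + E →
  ∃ (hle : X.MD D' ≤ X.MD D) (Q : GM 𝒜) (g : _), SM _ _ Q (X.inc (X.ff_MD D') (X.ff_MD D) hle) g ∧
    Q.DimLt p (s + 1) ∧ Q.cyc p s = X.psh E

theorem K5R.add {X : Mo 𝒜 p} {s : ℕ} {E E' : Dvs X.L} (h : K5R X s E) (h' : K5R X s E') :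
    K5R X s (E + E') := fun D' D e => by
  obtain ⟨l1, Q₁, g₁, a1, a2, a3⟩ := h D' _ rfl
  obtain ⟨l2, Q₂, g₂, b1, b2, b3⟩ := h' _ D (e.trans (add_assoc _ _ _).symm)
  have c := sm_quot (X.inc_hom (X.ff_MD D') (X.ff_MD D) (l1.trans l2)) (X.inc_inj _ _ _)
  have d := sm_third a1 b1 c (k5_inc_inc X _ _ _ _ _ _)
  have d2 := (d.dimLt (p := p) _).2 ⟨a2, b2⟩
  exact ⟨_, _, _, c, d2, by rw [k5_cyc_ses d (c.ses.fb (fb_gm X _)).2 d2, a3, b3, psh_add]⟩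

theorem k5R_triv {X : Mo 𝒜 p} {s : ℕ} {E : Dvs X.L} (h : ∀ O ∈ X.PD, E O = 0) (h' : X.psh E = 0) :
    K5R X s E := fun D' D e => by
  have e1 : X.MD D' = X.MD D := X.MD_congr fun O hO => by rw [e, Finsupp.add_apply, h O hO, add_zero]
  have c := sm_quot (X.inc_hom (X.ff_MD D') (X.ff_MD D) e1.le) (X.inc_inj _ _ _)
  have d : GM.DimLt _ p s := fun y _ m => ⟨0, 1, SetLike.one_mem_graded 𝒜, md_one_not_mem _, by
    obtain ⟨m, rfl⟩ := c.sur m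
    exact (one_smul _ _).trans ((c.ex m).2 ⟨⟨m.1, fun n => e1.ge n (m.2 n)⟩, rfl⟩)⟩
  exact ⟨_, _, _, c, k5_dimLt_mono d (Nat.le_succ s),
    (k5_cyc_zero (c.ses.fb (fb_gm X _)).2 d).trans h'.symm⟩

theorem k5R_one {X : Mo 𝒜 p} {s : ℕ} (hs : dm X.x = s + 1) (O : ValuationSubring X.L) :
    K5R X s (Finsupp.single O 1) := by
  by_cases h : O ∈ X.PD
  swap
  · exact k5R_triv (fun O' h' => Finsupp.single_eq_of_ne fun e => h (e ▸ h')) (psh_single_ne X h 1)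
  intro D' D e
  obtain ⟨Y, S, rfl, hS⟩ := X.exists_sp h
  have hle : X.MD D' ≤ X.MD D := X.MD_mono fun O' _ => by
    rw [e]; exact le_add_of_nonneg_right (Finsupp.single_nonneg.2 zero_le_one O')
  obtain ⟨g, hg⟩ := sm_bar S (eq_sub_of_add_eq e.symm) (X.ff_MD D) (X.ff_MD D') hle
  obtain rfl : dm Y.x = s := by have := S.dm_eq; omega
  refine ⟨hle, _, g, hg, k5_dimLt_gm Y _, ?_⟩
  rw [k5_cyc_gm Y _ (stk_bar_self S hS D), psh_single X h, S.cen, fdeg_eq S hS, one_mul]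

theorem k5R_all {X : Mo 𝒜 p} {s : ℕ} (hs : dm X.x = s + 1) (E : Dvs X.L) : 0 ≤ E → K5R X s E := by
  have h0 : K5R X s 0 := k5R_triv (fun _ _ => rfl) (psh_zero X)
  induction E using Finsupp.induction with
  | zero => exact fun _ => h0
  | single_add O b f h1 hb ih =>
    intro h
    have h2 : f O = 0 := Finsupp.notMem_support_iff.1 h1
    have h3 : 0 ≤ b := by simpa [h2] using h O
    refine K5R.add ?_ (ih fun O' => ?_)
    · obtain ⟨n, rfl⟩ := Int.eq_ofNat_of_zero_le h3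
      clear h h3 ih hb
      induction n with
      | zero => simpa using h0
      | succ n ih => rw [Nat.cast_succ, Finsupp.single_add]; exact K5R.add ih (k5R_one hs O)
    · by_cases e : O' = O
      · rw [e, h2]; rfl
      · simpa [Finsupp.single_eq_of_ne e] using h O'

theorem k5_ses (X : Mo 𝒜 p) {s : ℕ} (hs : dm X.x = s + 1) {D D' : Dvs X.L} (hle : D' ≤ D) :
    ∃ Q : GM 𝒜, SES (X.gm _ (X.ff_MD D')) (X.gm _ (X.ff_MD D)) Q ∧ Q.DimLt p (s + 1) ∧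
      Q.cyc p s = X.psh (D - D') := by
  obtain ⟨_, Q, g, h⟩ := k5R_all hs (D - D') (sub_nonneg.2 hle) D' D (add_sub_cancel _ _).symm
  exact ⟨Q, h.1.ses, h.2⟩

theorem k5_coker {Q Q₁ : GM 𝒜} {f f' : N₁.M →ₗ[A] N₂.M} {g₁ : N₂.M →ₗ[A] Q₁.M}
    {g : N₂.M →ₗ[A] Q.M} (a : SM N₁ N₂ Q₁ f g₁) (e : ∀ m, f' m = f m) (hg : IsHom _ Q 0 g)
    (he : Exact f' g) (hs' : Surjective g) (hF : N₂.Fb p) {s : ℕ} (hs : Q₁.DimLt p (s + 1)) :
    Q.DimLt p (s + 1) ∧ Q.cyc p s = Q₁.cyc p s := by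
  obtain rfl : f' = f := LinearMap.ext e
  have c : SM _ _ Q _ g := ⟨a.hf, hg, a.inj, he, hs'⟩
  have b := sm_quot (N₁ := N₂) (f := LinearMap.id) (fun n m hm => (add_zero n).symm ▸ hm)
    injective_id
  have d := sm_third a b c fun _ => rfl
  have d1 : GM.DimLt _ p s := fun y _ m => ⟨0, 1, SetLike.one_mem_graded 𝒜, md_one_not_mem _, by
    obtain ⟨m, rfl⟩ := b.sur m
    exact (one_smul _ _).trans ((b.ex m).2 ⟨m, rfl⟩)⟩
  have d2 := (d.dimLt (p := p) _).2 ⟨hs, k5_dimLt_mono d1 (Nat.le_succ s)⟩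
  exact ⟨d2, by
    rw [k5_cyc_ses d (c.ses.fb hF).2 d2, k5_cyc_zero (b.ses.fb hF).2 d1, add_zero]⟩

/-- the same for any cokernel of the inclusion -/
theorem k5_cyc (X : Mo 𝒜 p) {s : ℕ} (hs : dm X.x = s + 1) {D D' : Dvs X.L} (hle : D' ≤ D)
    {Q : GM 𝒜} {f : (X.gm _ (X.ff_MD D')).M →ₗ[A] (X.gm _ (X.ff_MD D)).M}
    {g : (X.gm _ (X.ff_MD D)).M →ₗ[A] Q.M} (hf : ∀ F, (f F).1 = F.1) (hg : IsHom _ Q 0 g)
    (he : Exact f g) (hs' : Surjective g) : Q.DimLt p (s + 1) ∧ Q.cyc p s = X.psh (D - D') := by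
  obtain ⟨l, Q₁, g₁, a1, a2, a3⟩ :=
    k5R_all hs (D - D') (sub_nonneg.2 hle) D' D (add_sub_cancel _ _).symm
  have := k5_coker a1 (k5_inc_eq X _ _ l hf) hg he hs' (fb_gm X _) a2
  exact ⟨this.1, this.2.trans a3⟩

theorem f_ofPt (x : Vp 𝒜 p) : (ofPt x).f = 1 :=
  (finrank_eq_one_iff_of_nonzero' (1 : (ofPt x).L) one_ne_zero).2 fun z => ⟨⟨z, by
    obtain ⟨n, a, -, b, -, -, rfl⟩ := th_gen x.1 z
    exact div_mem (Subfield.subset_closure ⟨a, rfl⟩) (Subfield.subset_closure ⟨b, rfl⟩)⟩, mul_one z⟩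

end

end Pool.Agent.Lib.MP_62d77c_ag.R
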