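import Pool.Agent.Lib.MP_62d77c_ag.R.A3g
import Pool.Agent.Lib.MP_62d77c_ag.R.A3c
import Pool.Agent.Lib.MP_62d77c_ag.R.K5b

/-! The components as divisors. -/

set_option autoImplicit false
set_option linter.unusedSectionVars false
set_option linter.unusedVariables false

namespace Pool.Agent.Lib.MP_62d77c_ag.R

open Filter Polynomial Submodule Function

noncomputable section

variable {A : Type} [CommRing A] [IsDomain A] {𝒜 : ℕ → AddSubgroup A} [GradedRing 𝒜]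
  [hG : Fact (Gen 𝒜)] {p : ℕ} [Fact p.Prime] {N : GM 𝒜}

/-- syzygies of an ideal that is locally principal -/
theorem a3_syz {M : Type} [AddCommGroup M] [Module A M] {β γ : Type} [Fintype β] [Fintype γ]
    {g : β → A} {D : Matrix β γ A} (ex : ∀ c : β → A, ∑ i, c i * g i = 0 → ∃ w, mact A D w = c)
    {g₀ s : A} {u c : β → A} (hu : ∑ i, u i * g i = g₀) (hc : ∀ i, s * g i = c i * g₀)
    (reg : ∀ m : M, g₀ • m = 0 → m = 0) {v : β → M} (hv : ∑ i, g i • v i = 0) :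
    s • v ∈ LinearMap.range (mact M D) := by
  classical
  have h1 : ∑ i, c i • v i = 0 := reg _ (by
    simp only [Finset.smul_sum, smul_smul, mul_comm g₀, ← hc]
    simp only [← smul_smul, ← Finset.smul_sum, hv, smul_zero])
  choose w hw using fun i => ex (fun l => (if l = i then s else 0) - c i * u l) (by
    simp only [sub_mul, Finset.sum_sub_distrib, ite_mul, zero_mul, Finset.sum_ite_eq',
      Finset.mem_univ, if_true, mul_assoc, ← Finset.mul_sum, hu, hc, sub_self])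
  refine ⟨fun j => ∑ i, w i j • v i, funext fun l => ?_⟩
  have h2 : ∀ i, ∑ j, D l j • w i j • v i = (if l = i then s • v i else 0) - u l • c i • v i :=
    fun i => by
      have := congrFun (hw i) l
      simp only [mact_apply, smul_eq_mul] at this
      simp only [smul_smul, ← Finset.sum_smul, this, sub_smul, ite_smul, zero_smul, mul_comm (u l)]
  simp only [mact_apply, Finset.smul_sum]
  rw [Finset.sum_comm]
  simp only [h2, Finset.sum_sub_distrib, ← Finset.smul_sum, h1, Finset.sum_ite_eq, Finset.mem_univ,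
    if_true, smul_zero, sub_zero, Pi.smul_apply]

theorem GnAt.ne {k : Vp 𝒜 p} {y : Pt 𝒜} {e : ℕ} {g : A} (hg : GnAt k.1 y e g) (h : Hyp 𝒜) :
    g ≠ 0 := fun g0 => by
  have := h.cz
  obtain ⟨m, s, -, h1, c, -, h2⟩ := hg.gen 0 p (by simpa using md_intCast_mem (𝒜 := 𝒜) p) k.2
  rw [g0, mul_zero] at h2
  exact h1 (((mul_eq_zero.1 h2).resolve_right (Nat.cast_ne_zero.2 (Fact.out : p.Prime).ne_zero)) ▸
    zero_mem _)

/-- the map `v ↦ ∑ g i • v i` -/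
def a3_lc (M : Type) [AddCommGroup M] [Module A M] {β : Type} [Fintype β] (g : β → A) :
    (β → M) →ₗ[A] M := ∑ i, g i • LinearMap.proj i

theorem a3_lc_apply {M : Type} [AddCommGroup M] [Module A M] {β : Type} [Fintype β] (g : β → A)
    (v : β → M) : a3_lc M g v = ∑ i, g i • v i := LinearMap.sum_apply _ _ _

theorem a3_lc_mact {M : Type} [AddCommGroup M] [Module A M] {β γ : Type} [Fintype β] [Fintype γ]
    {g : β → A} {D : Matrix β γ A} (ex : ∀ w, ∑ i, mact A D w i * g i = 0) (w : γ → M) :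
    a3_lc M g (mact M D w) = 0 := by
  classical
  rw [a3_lc_apply]
  simp only [mact_apply, Finset.smul_sum, smul_smul]
  rw [Finset.sum_comm]
  refine Finset.sum_eq_zero fun j _ => ?_
  have e := ex (Pi.single j 1)
  simp only [mact_apply, smul_eq_mul, Pi.single_apply, mul_ite, mul_one, mul_zero,
    Finset.sum_ite_eq', Finset.mem_univ, if_true] at e
  rw [← Finset.sum_smul, Finset.sum_congr rfl fun i _ => mul_comm (g i) _, e, zero_smul]

theorem a3_tor (h : Hyp 𝒜) {k : Comp 𝒜 p} {M M' : GM 𝒜} (hM : M.Fb p) (hM' : M'.Fb p)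
    {β γ : Type} [Fintype β] [Fintype γ] {a : β → ℤ} {a' : γ → ℤ} {g : β → A} {Δ : Matrix β γ A}
    (g1 : ∀ i, g i ∈ pr k.1.1) (g2 : ∀ i, g i ∈ Az 𝒜 (a i)) (hΔ : ∀ i j, Δ i j ∈ Az 𝒜 (a' j - a i))
    (ex : ∀ c : β → A, ∑ i, c i * g i = 0 ↔ ∃ w, mact A Δ w = c)
    (su : ∀ b ∈ pr k.1.1, ∃ u : β → A, ∑ i, u i * g i = b) {ι : M'.M →ₗ[A] M.M}
    (hι : IsHom M' M 0 ι) (inj : Injective ι) (rg : ∀ v, a3_lc M.M g v ∈ LinearMap.range ι)
    (loc : ∀ y : Pt 𝒜, M.ZeroAt y ∨ ∀ e g₀, GnAt k.1.1 y e g₀ → (∀ m : M.M, g₀ • m = 0 → m = 0) ∧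
      ∀ n, ∀ m ∈ M'.g n, ∃ s ∈ stS y, ∃ G, s • ι m = g₀ • G) :
    ((M.pw a).quot (LinearMap.range (mact M.M Δ))).hp p = M'.hp p := by
  classical
  let φ : (β → M.M) →ₗ[A] M'.M := (LinearEquiv.ofInjective ι inj).symm.toLinearMap ∘ₗ
    (a3_lc M.M g).codRestrict _ rg
  have hφ : ∀ v, ι (φ v) = a3_lc M.M g v := fun v =>
    congrArg Subtype.val ((LinearEquiv.ofInjective ι inj).apply_symm_apply ⟨_, rg v⟩)
  have h1 : IsHom (M.pw a) M' 0 φ := fun n v hv => by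
    have e : a3_lc M.M g v ∈ M.g (n + 0) := by
      rw [a3_lc_apply, add_zero]
      exact sum_mem fun i _ => by simpa using M.smul (g2 i) (M.mem_pw.1 hv i)
    obtain ⟨m, hm, e'⟩ := hι.lift e (rg v)
    exact (congrArg₂ (fun i x => x ∈ M'.g i) (add_zero n) (inj ((hφ v).trans e'.symm))).mpr hm
  have hB := (M.pw a).core_eq (isHom_mact M (d := 0) (D := Δ) (a := a) (a' := a')
    fun i j => by simpa using hΔ i j).hg_range
  have hP : (M.pw a).Fb p := fun m => funext fun i => hM (m i)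
  obtain ⟨u, hu⟩ := k5_fac (mkQ_surjective ((M.pw a).core (LinearMap.range (mact M.M Δ)))) φ
    fun v hv => by
      obtain ⟨w, rfl⟩ := hB.le ((Quotient.mk_eq_zero _).1 hv)
      exact inj ((hφ _).trans ((a3_lc_mact (fun w => (ex _).2 ⟨w, rfl⟩) w).trans ι.map_zero.symm))
  refine a3_hp_eq ((isHom_mkQ _ _).of_surj (mkQ_surjective _) h1 hu) (k3_fb_quot hP _) hM'
    (fun y m hm => ?_) fun y n m hm => ?_
  · rcases loc y with h0 | h0
    · refine (((ses_sub_quot _ _).zeroAt y).1 (fun v => ?_)).2 m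
      choose d t h2 h3 h4 using fun i => h0 (v i)
      obtain ⟨d', h5, h6⟩ := prod_mem (S := stS y) (f := t)
        fun i (_ : i ∈ Finset.univ) => (⟨d i, h2 i, h3 i⟩ : ∃ k, t i ∈ 𝒜 k ∧ t i ∉ pr y)
      refine ⟨d', _, h5, h6, funext fun i => ?_⟩
      change (∏ i, t i) • v i = 0
      rw [← Finset.prod_erase_mul _ _ (Finset.mem_univ i), mul_smul, h4, smul_zero]
    obtain ⟨v, rfl⟩ := mkQ_surjective _ m
    obtain ⟨e, g₀, hg⟩ := exists_gnAt h k y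
    choose s hs c hsc using fun i => hg.az (g2 i) (g1 i)
    obtain ⟨b, hb⟩ := su g₀ hg.mem
    obtain ⟨d, h2, h3⟩ := prod_mem (S := stS y) fun i (_ : i ∈ Finset.univ) => hs i
    have e1 := a3_syz (c := fun i => (∏ l ∈ Finset.univ.erase i, s l) * c i) (s := ∏ i, s i)
      (fun c => (ex c).1) hb (fun i => by
        rw [← Finset.prod_erase_mul _ _ (Finset.mem_univ i), mul_assoc, hsc, mul_assoc])
      (h0 e g₀ hg).1 (v := v) ((a3_lc_apply g v).symm.trans ((hφ v).symm.trans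
        ((congrArg ι ((hu v).symm.trans hm)).trans ι.map_zero)))
    exact ⟨d, _, h2, h3, (Quotient.mk_eq_zero _).2 (hB.ge e1)⟩
  · rcases loc y with h0 | h0
    · obtain ⟨d, t, h2, h3, h4⟩ := h0 (ι m)
      refine ⟨t, ⟨d, h2, h3⟩, 0, u.map_zero.trans (inj ?_)⟩
      rw [map_zero, map_smul, h4]
    obtain ⟨e, g₀, hg⟩ := exists_gnAt h k y
    obtain ⟨s, hs, G, hG⟩ := (h0 e g₀ hg).2 n m hm
    obtain ⟨b, hb⟩ := su g₀ hg.mem
    refine ⟨s, hs, _, (hu fun i => b i • G).trans (inj ((hφ _).trans ?_))⟩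
    rw [a3_lc_apply, map_smul, hG, ← hb, Finset.sum_smul]
    exact Finset.sum_congr rfl fun i _ => by rw [smul_smul, mul_comm]

theorem T_ideal (h : Hyp 𝒜) (k : Comp 𝒜 p) {M : GM 𝒜} (hM : M.Fb p) :
    ∃ (β γ : Type) (_ : Fintype β) (_ : Fintype γ) (a : β → ℤ) (a' : γ → ℤ) (g : β → A)
      (Δ : Matrix β γ A), (∀ i, g i ∈ pr k.1.1) ∧ (∀ i, g i ∈ Az 𝒜 (a i)) ∧
      (∀ i j, Δ i j ∈ Az 𝒜 (a' j - a i)) ∧
      (∀ c : β → A, ∑ i, c i * g i = 0 ↔ ∃ w, mact A Δ w = c) ∧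
      (∀ b ∈ pr k.1.1, ∃ u : β → A, ∑ i, u i * g i = b) ∧ T p (cy 𝒜 (pr k.1.1)) M =
        M.hp p - ((M.pw a).quot (LinearMap.range (mact M.M Δ))).hp p := by
  let R := rsl ((one 𝒜).sub (pr k.1.1))
  have hc : (one 𝒜).core (pr k.1.1) = pr k.1.1 := (one 𝒜).core_eq (hg_one (pr_hom _))
  let g : Fin (R.b 0) → A := fun i => (R.gen i).1
  have lc : ∀ c : Fin (R.b 0) → A, (Fintype.linearCombination A R.gen c).1 = ∑ i, c i * g i :=
    fun c => map_sum ((one 𝒜).core (pr k.1.1)).subtype _ _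
  have e1 := k3_T_left h (show SES _ _ (cy 𝒜 (pr k.1.1)) from ses_sub_quot (one 𝒜) (pr k.1.1)) hM
  have e2 : R.Tor M 0 = (M.pw (R.a 0)).quot (LinearMap.range (mact M.M (R.D 0))) := rfl
  rw [T_one h hM, T_free h R hM fun y => (exists_gnAt h k y.1).elim fun e h1 => h1.elim fun g h2 =>
    a3_free h2 (h2.ne h), e2] at e1
  refine ⟨_, _, _, _, R.a 0, R.a 1, g, R.D 0, fun i => hc.le (R.gen i).2, R.hgen, R.hD 0,
    fun c => Iff.trans ⟨fun e => Subtype.ext ((lc c).trans e), fun e =>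
      (lc c).symm.trans (congrArg Subtype.val e)⟩ (R.ex0 c), fun b hb => ?_,
    eq_sub_of_add_eq' e1.symm⟩
  obtain ⟨u, hu⟩ := R.surj ⟨b, hc.ge hb⟩
  exact ⟨u, (lc u).symm.trans (congrArg Subtype.val hu)⟩

theorem Mo.Cut.le {X : Mo 𝒜 p} {k : Comp 𝒜 p} {E : Dvs X.L} (hE : X.Cut k.1.1 E) (h : Hyp 𝒜)
    (D : Dvs X.L) : X.MD (D - E) ≤ X.MD D :=
  md_mono X fun O _ => sub_le_self (D O) (hE.nonneg h O)

theorem a3_inc (X : Mo 𝒜 p) {F F' : X.Fa} (h : X.FF F) (h' : X.FF F') (hle : F ≤ F')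
    (m : (X.gm F h).M) : (X.inc h h' hle m).1 = m.1 := rfl

/-- the intersection polynomial of a component with `O(D)` -/
theorem T_comp (h : Hyp 𝒜) {X : Mo 𝒜 p} {k : Comp 𝒜 p} {E : Dvs X.L} (hE : X.Cut k.1.1 E)
    (D : Dvs X.L) : T p (cy 𝒜 (pr k.1.1)) (X.gm _ (X.ff_MD D)) =
      hp (X.MD D) - hp (X.MD (D - E)) := by
  obtain ⟨β, γ, _, _, a, a', g, Δ, g1, g2, h1, h2, h3, h4⟩ := T_ideal h k (fb_gm X (X.ff_MD D))
  rw [h4, a3_tor h (fb_gm X _) (fb_gm X (X.ff_MD (D - E))) g1 g2 h1 h2 h3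
    (X.inc_hom _ _ (hE.le h D)) (X.inc_inj _ _ _) (fun v => ?_) fun y => ?_, hp_gm, hp_gm]
  · rw [a3_lc_apply]
    exact sum_mem fun i _ => ⟨⟨_, hE.smul_mem h (g2 i) (g1 i) (v i)⟩, rfl⟩
  · by_cases hy : pr X.x.1 ≤ pr y
    · refine Or.inr fun e g₀ hg => ⟨fun m hm => Subtype.ext (a3_reg X hg.deg
        (X.th_ne hg.deg (hg.not_mem hy hE.off)) (congrArg Subtype.val hm)), fun n m hm => ?_⟩
      obtain ⟨s, hs, G, hG⟩ := hE.div hy hg hm
      exact ⟨s, hs, G, Subtype.ext ((congrArg (s • ·) (a3_inc X _ _ _ m)).trans hG)⟩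
    · exact Or.inl (zeroAt_gm X _ hy)

/-! ### the cycle of the intersection of two components -/

theorem a3_hom_le {I J : Ideal A} (hI : I.IsHomogeneous 𝒜)
    (h : ∀ n, ∀ a ∈ 𝒜 n, a ∈ I → a ∈ J) : I ≤ J := fun a ha => by
  classical
  rw [← DirectSum.sum_support_decompose 𝒜 a]
  exact sum_mem fun n _ => h n _ (DirectSum.decompose 𝒜 a n).2 (hI n ha)

theorem a3_len_le {Z Z' : Submodule A N.M} (hZ : N.Hg Z) (hZ' : N.Hg Z') (le : Z ≤ Z')
    (hF : (N.quot Z).Fb p) (W : Vp 𝒜 p) (hd : (N.quot Z).DimLt p (dm W + 1))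
    (h : ∀ n, ∀ m ∈ N.g n, m ∈ Z' → ∃ s ∈ stS W.1, s • m ∈ Z) :
    (N.quot Z').len W.1 = (N.quot Z).len W.1 := by
  have s := a3_ses (isHom_subtype N Z') (Z₂ := Z') hZ rfl ((sup_eq_right.2 le).symm.trans
    (congrArg (Z ⊔ ·) ((range_subtype _).trans (N.core_eq hZ')).symm))
  rw [len_ses s hF W hd, (len_eq_zero (s.fb hF).1 W ((s.dimLt _).1 hd).1).2 (st_zeroAt ?_), zero_add]
  rintro n _ ⟨m, hm, rfl⟩
  obtain ⟨t, ⟨d, h1, h2⟩, h3⟩ := h n m.1 hm (N.core_le _ m.2)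
  exact ⟨d, t, h1, h2, (Quotient.mk_eq_zero _).2 ((mem_core_sub hZ _).2 h3)⟩

/-- `M / g M` and `O / g O` have the same length -/
theorem a3_herb (hF : N.Fb p) {m₀ : N.M} (h0 : m₀ ∈ N.g 0) {P : Ideal A}
    (hP : ∀ a, a • m₀ = 0 ↔ a ∈ P) {e : ℕ} {g : A} (hg : g ∈ 𝒜 e)
    (reg : ∀ m : N.M, g • m = 0 → m = 0) (W : Vp 𝒜 p)
    (hd : (N.quot (span A {g • m₀})).DimLt p (dm W + 1)) :
    (N.quot (LinearMap.range (g • LinearMap.id))).DimLt p (dm W + 1) ∧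
      (cy 𝒜 (P ⊔ Ideal.span {g})).DimLt p (dm W + 1) ∧
      (N.quot (LinearMap.range (g • LinearMap.id))).len W.1 =
        (cy 𝒜 (P ⊔ Ideal.span {g})).len W.1 := by
  have hg' : g ∈ Az 𝒜 e := by rwa [Az_nat]
  have hZ : N.Hg (span A {g • m₀}) := hg_span fun m hm => ⟨_, hm ▸ N.smul hg' h0⟩
  have hZ₁ : N.Hg (span A {m₀}) := hg_span fun m hm => ⟨_, hm ▸ h0⟩
  have c₁ : P ⊔ Ideal.span {g} =
      (span A {g • m₀}).comap (LinearMap.toSpanSingleton A N.M m₀) := Submodule.ext fun a => by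
    rw [Submodule.mem_comap, LinearMap.toSpanSingleton_apply, mem_span_singleton, Submodule.mem_sup]
    refine ⟨fun ⟨x, hx, y, hy, e⟩ => ?_, fun ⟨c, hc⟩ => ⟨a - c * g, (hP _).1 (by
      rw [sub_smul, mul_smul, hc, sub_self]), c * g, Ideal.mul_mem_left _ _
        (Ideal.mem_span_singleton_self g), sub_add_cancel _ _⟩⟩
    obtain ⟨c, rfl⟩ := Ideal.mem_span_singleton'.1 hy
    exact ⟨c, by rw [← e, add_smul, (hP x).2 hx, zero_add, mul_smul]⟩
  have c₂ : span A {m₀} = span A {g • m₀} ⊔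
      LinearMap.range (LinearMap.toSpanSingleton A N.M m₀) := by
    rw [← LinearMap.span_singleton_eq_range, sup_eq_right.2 ((span_singleton_le_iff_mem _ _).2
      (smul_mem _ g (mem_span_singleton_self m₀)))]
  have c₃ : span A {m₀} = (span A {g • m₀}).comap (g • LinearMap.id : N.M →ₗ[A] N.M) :=
    Submodule.ext fun m => by
      change _ ↔ g • m ∈ span A {g • m₀}
      rw [mem_span_singleton, mem_span_singleton]
      exact exists_congr fun c => ⟨fun h => by rw [← h, smul_comm], fun h =>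
        sub_eq_zero.1 (reg _ (by rw [smul_sub, smul_comm, h, sub_self]))⟩
  have c₄ : LinearMap.range (g • LinearMap.id : N.M →ₗ[A] N.M) =
      span A {g • m₀} ⊔ LinearMap.range (g • LinearMap.id : N.M →ₗ[A] N.M) := by
    rw [sup_eq_right.2]
    rw [span_singleton_le_iff_mem]
    exact ⟨m₀, rfl⟩
  have s₁ : SES (cy 𝒜 (P ⊔ Ideal.span {g})) _ (N.quot (span A {m₀})) :=
    a3_ses (N₁ := one 𝒜) (f := LinearMap.toSpanSingleton A N.M m₀)
      (fun n a ha => (congrArg (fun i => _ ∈ N.g i) (add_comm 0 n)).mp (N.smul (a := a) ha h0))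
      hZ c₁ c₂
  have s₂ : SES ((N.sh (-e)).quot (span A {m₀} : Submodule A N.M)) _
      (N.quot (LinearMap.range (g • LinearMap.id))) :=
    a3_ses (N₁ := N.sh (-e)) (f := (g • LinearMap.id : N.M →ₗ[A] N.M))
      (fun n m hm => (congrArg (fun i => _ ∈ N.g i) (show n + -e + e = n + 0 by ring)).mp
        (N.smul hg' hm)) hZ c₃ c₄
  have e₁ := len_ses s₁ (k3_fb_quot hF _) W hd
  have e₂ := len_ses s₂ (k3_fb_quot hF _) W hd
  exact ⟨((s₂.dimLt _).1 hd).2, ((s₁.dimLt _).1 hd).1, add_left_cancel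
    (((congrArg (· + _) (a3_len_sh N _ hZ₁ W.1)).symm.trans e₂.symm).trans
      (e₁.trans (add_comm _ _)))⟩

theorem a3_smul_mon (X : Mo 𝒜 p) {F : X.Fa} (h : X.FF F) {i n : ℕ} {a : A} (ha : a ∈ 𝒜 i)
    {z : X.L} (hz : z ∈ F n) : (a • (show (X.gm F h).M from ⟨X.mon n z, X.mon_mem hz⟩)).1 =
      X.mon (n + i) (X.θ a * z) := X.smul_mon ha n z

theorem a3_gen (j : Vp 𝒜 p) {F : (ofPt j).Fa} (h : (ofPt j).FF F) (h1 : (1 : (ofPt j).L) ∈ F 0)
    {e : ℕ} {g : A} (hg : g ∈ 𝒜 e) (g0 : g ∉ pr j.1) :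
    (((ofPt j).gm F h).quot (span A {g • ⟨(ofPt j).mon 0 1, (ofPt j).mon_mem h1⟩})).DimLt p
      (dm j) := fun y hy => by
  by_cases c : pr j.1 ≤ pr y.1
  swap
  · exact (((ses_sub_quot _ _).zeroAt y.1).1 (zeroAt_gm (ofPt j) h c)).2
  obtain rfl := eq_of_dm c hy
  refine st_zeroAt ?_
  rintro n _ ⟨m, hm, rfl⟩
  rcases st_mem_gm' _ h hm with rfl | ⟨n, rfl, z, hz, rfl⟩
  · exact ⟨0, 1, SetLike.one_mem_graded 𝒜, md_one_not_mem _, (one_smul _ _).trans (map_zero _)⟩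
  obtain ⟨r, a, ha, b, hb, b0, rfl⟩ := th_gen j.1 z
  have d1 := SetLike.mul_mem_graded hb hg
  have d2 := SetLike.mul_mem_graded (SetLike.mul_mem_graded (md_pow_mem (ell_spec j.1).1 n) ha) hg
  refine ⟨r + e, b * g, d1, md_mul_not_mem b0 g0, (Quotient.mk_eq_zero _).2 ?_⟩
  rw [GM.core_eq _ (hg_span fun m hm => ⟨_, hm ▸ GM.smul _ (i := e) (by rwa [Az_nat])
    (st_mon_g _ h h1)⟩)]
  refine mem_span_singleton.2 ⟨ell j.1 ^ n * a, (smul_smul _ _ _).trans (Subtype.ext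
    ((a3_smul_mon _ h d2 h1).trans (Eq.trans ?_ (a3_smul_mon _ h d1 hz).symm)))⟩
  have b1 : th j.1 b ≠ 0 := (ofPt j).th_ne hb b0
  congr 1
  · omega
  · change th j.1 _ * 1 = th j.1 _ * _
    simp only [map_mul, map_pow, th_ell, one_pow, one_mul]
    field_simp

theorem a3_psh (h : Hyp 𝒜) {j k : Comp 𝒜 p} {E : Dvs (Xc j).L} (hE : (Xc j).Cut k.1.1 E) :
    (Xc j).psh E = (cy 𝒜 (pr j.1.1 ⊔ pr k.1.1)).cyc p 2 := by
  have h3 : dm j.1 = 2 + 1 := dm_Comp h j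
  have sm := sm_quot ((Xc j).inc_hom _ _ (hE.le h 0)) ((Xc j).inc_inj ((Xc j).ff_MD (0 - E))
    ((Xc j).ff_MD 0) (hE.le h 0))
  obtain ⟨q1, q2⟩ := k5_cyc (Xc j) h3 (sub_le_self 0 (hE.nonneg h)) (a3_inc _ _ _ _) sm.hg sm.ex
    sm.sur
  have hI := (pr_hom j.1.1).sup (pr_hom k.1.1)
  have hF : (cy 𝒜 (pr j.1.1 ⊔ pr k.1.1)).Fb p := fb_cy (mem_sup_left j.1.2)
  have hM := fb_gm (Xc j) ((Xc j).ff_MD 0)
  have hd : (cy 𝒜 (pr j.1.1 ⊔ pr k.1.1)).DimLt p (2 + 1) := fun y hy =>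
    (zeroAt_cy hI y.1).2 fun c => hE.off (by
      obtain rfl := eq_of_dm (le_sup_left.trans c) (h3.le.trans hy)
      exact le_sup_right.trans c)
  rw [← sub_sub_cancel 0 E, ← q2]
  ext W
  rw [cyc_apply (k3_fb_quot hM _) q1, cyc_apply hF hd]
  split_ifs with hW
  swap
  · rfl
  congr 1
  by_cases c : pr j.1.1 ≤ pr W.1
  swap
  · rw [(len_eq_zero (k3_fb_quot hM _) W (hW ▸ q1)).2
      ((sm.ses.zeroAt W.1).1 (zeroAt_gm (Xc j) _ c)).2, (len_eq_zero hF W (hW ▸ hd)).2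
      ((zeroAt_cy hI W.1).2 fun c' => c (le_sup_left.trans c'))]
  obtain ⟨e, g, hg⟩ := exists_gnAt h k W.1
  have g0 := hg.not_mem c hE.off
  have h1 : (1 : (Xc j).L) ∈ (Xc j).MD 0 0 :=
    map_one (Xc j).θ ▸ (Xc j).th_mem_MD (SetLike.one_mem_graded 𝒜)
  have m0 := st_mon_g (Xc j) ((Xc j).ff_MD 0) h1
  have k0 : ∀ n, ∀ a ∈ 𝒜 n, a • (show ((Xc j).gm _ ((Xc j).ff_MD 0)).M from
      ⟨(Xc j).mon 0 1, (Xc j).mon_mem h1⟩) = 0 ↔ a ∈ pr j.1.1 := fun n a ha =>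
    Subtype.ext_iff.trans ((congrArg (· = 0) (a3_smul_mon _ _ ha h1)).to_iff.trans
      ((k5_mon_eq _).trans (by rw [mul_one]; exact (Xc j).ker n a ha)))
  obtain ⟨r1, r2, r3⟩ := a3_herb hM m0 (P := pr j.1.1) (fun a => ⟨fun ha => a3_hom_le (gb_ann m0)
    (fun n a ha h' => (k0 n a ha).1 h') ha, fun ha => a3_hom_le (J := LinearMap.ker
      (LinearMap.toSpanSingleton A _ _)) (pr_hom _) (fun n a ha h' => (k0 n a ha).2 h') ha⟩) hg.deg
    (fun m hm => Subtype.ext (a3_reg _ hg.deg ((Xc j).th_ne hg.deg g0) (congrArg Subtype.val hm))) W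
    (by rw [hW, ← h3]; exact a3_gen j.1 _ h1 hg.deg g0)
  have hg' : g ∈ Az 𝒜 e := by rw [Az_nat]; exact hg.deg
  have hJ : (pr j.1.1 ⊔ Ideal.span {g}).IsHomogeneous 𝒜 := (pr_hom _).sup
    (Ideal.homogeneous_span _ _ fun x hx => ⟨e, hx ▸ hg.deg⟩)
  refine ((a3_len_le (IsHom.hg_range (d := e) fun n m hm => GM.smul _ hg' hm) sm.hf.hg_range ?_
    (k3_fb_quot hM _) W r1 fun n m hm hm' => ?_).trans r3).trans (a3_len_le (N := one 𝒜) (hg_one hJ)
    (hg_one hI) (sup_le_sup_left ((Ideal.span_singleton_le_iff_mem _).2 hg.mem) _)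
    (fb_cy (mem_sup_left j.1.2)) W r2 fun n a ha ha' => ?_).symm
  · rintro _ ⟨m, rfl⟩
    exact ⟨⟨_, hE.smul_mem h hg' hg.mem m⟩, Subtype.ext (a3_inc _ _ _ _ _)⟩
  · obtain ⟨m, h2, rfl⟩ := sm.hf.lift (n := n) ((add_zero n).symm ▸ hm) hm'
    obtain ⟨s, hs, G, hG⟩ := hE.div c hg h2
    exact ⟨s, hs, G, Subtype.ext ((congrArg (s • ·) (a3_inc _ _ _ _ m)).trans hG).symm⟩
  · obtain ⟨x, hx, y, hy, e⟩ := (mem_sup (R := A) (M := A)).1 ha'
    have e' := ((one 𝒜).pj n).map_add x y |>.symm.trans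
      ((congrArg ((one 𝒜).pj n) e).trans ((one 𝒜).pj_same ha))
    obtain ⟨s, hs, b, hb⟩ := hg.az ((one 𝒜).pj_mem n y) (hg_one (pr_hom k.1.1) n y hy)
    exact ⟨s, hs, (mem_sup (R := A) (M := A)).2 ⟨_, Ideal.mul_mem_left _ s
      (hg_one (pr_hom j.1.1) n x hx), _, Ideal.mem_span_singleton'.2 ⟨b, hb.symm⟩,
      (mul_add _ _ _).symm.trans (congrArg (fun t : A => s * t) e')⟩⟩

/-- the divisor cut out on `j` by the component `k` -/
theorem exists_cut (h : Hyp 𝒜) : ∃ E : ∀ j k : Comp 𝒜 p, Dvs (Xc j).L,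
    (∀ j k, ∀ O ∈ (E j k).support, O ∈ (Xc j).PD) ∧ (∀ j k, 0 ≤ E j k) ∧
    (∀ j k, j ≠ k → ∀ O ∈ (Xc j).PD, pr k.1.1 ≤ pr ((Xc j).cen O).1 → 0 < E j k O) ∧
    (∀ j k, j ≠ k → (Xc j).psh (E j k) = (Xc k).psh (E k j)) ∧
    ∀ j k, j ≠ k → ∀ O ∈ (Xc j).PD, ∀ D,
      (Xc j).sl O (D + E j k) = (Xc j).sl O D + gam k ((Xc j).cen O) := by
  have ex : ∀ j k : Comp 𝒜 p, ∃ E : Dvs (Xc j).L, (j = k → E = 0) ∧
      (j ≠ k → (Xc j).Cut k.1.1 E) := fun j k => by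
    by_cases e : j = k
    · exact ⟨0, fun _ => rfl, fun c => absurd e c⟩
    · obtain ⟨E, hE⟩ := exists_isCut h (Xc j) k fun c => e (Subtype.ext (j.2 k.1 c).symm)
      exact ⟨E, fun c => absurd c e, fun _ => hE⟩
  choose E h0 h1 using ex
  refine ⟨E, fun j k O hO => ?_, fun j k => ?_, fun j k e O hO => (h1 j k e).pos h hO,
    fun j k e => ?_, fun j k e O hO D => ?_⟩
  · by_cases e : j = k
    · simp [h0 j k e] at hO
    · exact (h1 j k e).supp O hO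
  · by_cases e : j = k
    · exact (h0 j k e).ge
    · exact (h1 j k e).nonneg h
  · rw [a3_psh h (h1 j k e), a3_psh h (h1 k j e.symm), sup_comm]
  · obtain ⟨Q, s, q1, q2⟩ := k5_ses (Xc j) (s := 2) (dm_Comp h j)
      (sub_le_self (D + E j k)
        (Finsupp.single_nonneg.2 zero_le_one : 0 ≤ Finsupp.single O (1 : ℤ)))
    have e1 := T_ses (N := cy 𝒜 (pr k.1.1)) h s (Or.inl (fb_cy k.1.2))
    have e2 := T_gam h k (s.fb (fb_gm _ _)).2 q1
    rw [q2, sub_sub_cancel, psh_single _ hO, Finsupp.sum_single_index (by simp)] at e2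
    rw [T_comp h (h1 j k e), T_comp h (h1 j k e), add_sub_cancel_right, sub_right_comm,
      add_sub_cancel_right] at e1
    have e3 := congrArg (fun P : ℚ[X] => P.coeff 1) e1
    have f0 : ((Xc j).fdeg O : ℚ) ≠ 0 := Nat.cast_ne_zero.2 (fdeg_pos _ hO).ne'
    simp only [coeff_add, coeff_sub, e2] at e3
    simp only [Mo.sl, Mo.hb, coeff_sub]
    field_simp
    push_cast at e3
    linarith

end

end Pool.Agent.Lib.MP_62d77c_ag.R
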