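import Mathlib

/-! From a real vector to an integral vector lying in all the saturated subgroups. -/

set_option autoImplicit false

namespace Pool.Agent.Lib.MP_62d77c_ag.R

open Finset

variable {B : Type} [Fintype B]

theorem q5_dirichlet (v : B → ℝ) (M : ℕ) (hM : 0 < M) :
    ∃ (n : ℕ) (D : B → ℤ), 0 < n ∧ ∀ b, |(D b : ℝ) - n * v b| ≤ 1 / M := by
  have hM' : (0 : ℝ) < M := by exact_mod_cast hM
  have hf : (Set.pi Set.univ fun _ : B => Set.Icc (0 : ℤ) M).Finite :=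
    Set.Finite.pi fun _ => Set.finite_Icc _ _
  obtain ⟨a, c, hac, h⟩ := hf.exists_lt_map_eq_of_forall_mem
    (f := fun (n : ℕ) (b : B) => ⌊Int.fract (n * v b) * M⌋) fun n => by
      intro b _
      refine ⟨Int.floor_nonneg.2 (mul_nonneg (Int.fract_nonneg _) hM'.le), ?_⟩
      refine Int.floor_le_iff.2 ?_
      push_cast
      nlinarith [Int.fract_lt_one ((n : ℝ) * v b)]
  refine ⟨c - a, fun b => ⌊c * v b⌋ - ⌊a * v b⌋, by omega, fun b => ?_⟩
  have h1 := Int.abs_sub_lt_one_of_floor_eq_floor (congrFun h b)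
  rw [← sub_mul, abs_mul, abs_of_pos hM', ← lt_div_iff₀ hM'] at h1
  refine le_of_eq_of_le (congrArg _ ?_) h1.le
  rw [Nat.cast_sub hac.le]
  simp only [Int.fract]
  push_cast
  ring

theorem q5_span (v : B → ℝ) (Λ : AddSubgroup (B → ℤ)) (N : ℕ)
    (h : ∀ D : B → ℤ, (∀ k : ℕ, 1 ≤ k → k ≤ N → ∃ t : ℝ, ∀ b, |(k : ℝ) * D b - t * v b| ≤ 1) →
      D ∈ Λ) :
    v ∈ Submodule.span ℝ ((fun (D : B → ℤ) b => (D b : ℝ)) '' Λ) := by
  set S := Submodule.span ℝ ((fun (D : B → ℤ) b => (D b : ℝ)) '' Λ)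
  change v ∈ (S : Set (B → ℝ))
  rw [← S.closed_of_finiteDimensional.closure_eq, Metric.mem_closure_iff]
  intro ε hε
  obtain ⟨M, hM⟩ := exists_nat_gt (max (N : ℝ) (1 / ε))
  have h1 : (N : ℝ) < M := (le_max_left _ _).trans_lt hM
  have h2 : 1 / ε < M := (le_max_right _ _).trans_lt hM
  have h3 : (0 : ℝ) < M := (by positivity : (0 : ℝ) < 1 / ε).trans h2
  obtain ⟨n, D, hn, hD⟩ := q5_dirichlet v M (by exact_mod_cast h3)
  have hn' : (1 : ℝ) ≤ n := by exact_mod_cast hn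
  have hΛ : D ∈ Λ := h D fun k _ hk => ⟨k * n, fun b => by
    have hk' : (k : ℝ) ≤ M := (Nat.cast_le.2 hk).trans h1.le
    rw [mul_assoc, ← mul_sub, abs_mul, Nat.abs_cast]
    calc _ ≤ (M : ℝ) * (1 / M) := by gcongr; exact hD b
      _ = 1 := by field_simp⟩
  refine ⟨(n : ℝ)⁻¹ • fun b => (D b : ℝ), S.smul_mem _ (Submodule.subset_span ⟨D, hΛ, rfl⟩), ?_⟩
  rw [dist_pi_lt_iff hε]
  intro b
  have e : v b - (n : ℝ)⁻¹ * D b = -(n : ℝ)⁻¹ * (D b - n * v b) := by field_simp; ring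
  rw [Real.dist_eq, Pi.smul_apply, smul_eq_mul, e, abs_mul, abs_neg, abs_inv, Nat.abs_cast]
  calc _ ≤ 1 * (1 / M : ℝ) := by
        gcongr
        exacts [inv_le_one_of_one_le₀ hn', hD b]
    _ < ε := by rw [one_mul]; exact (one_div_lt h3 hε).2 h2

omit [Fintype B] in
theorem q5_rat (Λ : AddSubgroup (B → ℤ)) {v : B → ℝ}
    (hv : v ∈ Submodule.span ℝ ((fun (D : B → ℤ) b => (D b : ℝ)) '' Λ)) (π : ℝ →ₗ[ℚ] ℚ) :
    ∃ (M : ℕ) (D : B → ℤ), 0 < M ∧ D ∈ Λ ∧ ∀ b, (D b : ℚ) = M * π (v b) := by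
  induction hv using Submodule.span_induction generalizing π with
  | mem x hx =>
    obtain ⟨D, hD, rfl⟩ := hx
    refine ⟨(π 1).den, (π 1).num • D, (π 1).den_pos, Λ.zsmul_mem hD _, fun b => ?_⟩
    have : π (D b : ℝ) = D b * π 1 := by
      rw [← zsmul_eq_mul, ← map_zsmul, zsmul_eq_mul, mul_one]
    simp only [this, Pi.smul_apply, smul_eq_mul]
    push_cast
    rw [← Rat.mul_den_eq_num]
    ring
  | zero => exact ⟨1, 0, one_pos, zero_mem _, fun b => by simp⟩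
  | add x y _ _ hx hy =>
    obtain ⟨M, D, hM, hD, e⟩ := hx π
    obtain ⟨M', D', hM', hD', e'⟩ := hy π
    refine ⟨M * M', M' • D + M • D', mul_pos hM hM',
      add_mem (Λ.nsmul_mem hD _) (Λ.nsmul_mem hD' _), fun b => ?_⟩
    rw [Pi.add_apply, Pi.smul_apply, Pi.smul_apply, Pi.add_apply, map_add, nsmul_eq_mul,
      nsmul_eq_mul]
    push_cast
    rw [e, e']
    ring
  | smul a x _ hx => exact hx (π ∘ₗ LinearMap.mulLeft ℚ a)

/-- **Q5** -/
theorem q5_main (v : B → ℝ) {I : Type} (Λ : I → AddSubgroup (B → ℤ))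
    (hsat : ∀ i (n : ℕ) (D : B → ℤ), 0 < n → n • D ∈ Λ i → D ∈ Λ i)
    (hG : ∀ i, ∃ N : ℕ, ∀ D : B → ℤ,
      (∀ k : ℕ, 1 ≤ k → k ≤ N → ∃ t : ℝ, ∀ b, |(k : ℝ) * D b - t * v b| ≤ 1) → D ∈ Λ i)
    {S : Type} (l : S → B → ℝ) (c : S → ℚ)
    (hrat : ∀ s (D : B → ℤ), (∀ i, D ∈ Λ i) → ∃ r : ℚ, ∑ b, (D b : ℝ) * l s b = r)
    (hv : ∀ s, ∑ b, v b * l s b = c s) :
    ∃ (N : ℕ) (D : B → ℤ), 0 < N ∧ (∀ i, D ∈ Λ i) ∧ ∀ s, ∑ b, (D b : ℝ) * l s b = N * c s := by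
  classical
  have h1 : ∀ π : ℝ →ₗ[ℚ] ℚ, ∃ (N : ℕ) (D : B → ℤ), 0 < N ∧ (∀ i, D ∈ Λ i) ∧
      ∀ b, (D b : ℚ) = N * π (v b) := fun π => by
    obtain ⟨N, D, hN, -, e⟩ := q5_rat ⊤ (q5_span v ⊤ 0 fun _ _ => trivial) π
    refine ⟨N, D, hN, fun i => ?_, e⟩
    obtain ⟨K, hK⟩ := hG i
    obtain ⟨M, D', hM, hD', e'⟩ := q5_rat (Λ i) (q5_span v _ K hK) π
    refine hsat i M D hM ?_
    have : M • D = N • D' := funext fun b => by
      have : ((M * D b : ℤ) : ℚ) = (N * D' b : ℤ) := by push_cast; rw [e, e']; ring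
      simpa using Int.cast_injective this
    exact this ▸ (Λ i).nsmul_mem hD' _
  have h2 : ∀ (π : ℝ →ₗ[ℚ] ℚ) s, ∃ r : ℚ, ∑ b, (π (v b) : ℝ) * l s b = r := fun π s => by
    obtain ⟨N, D, hN, hD, e⟩ := h1 π
    obtain ⟨r, hr⟩ := hrat s D hD
    have hN' : (N : ℝ) ≠ 0 := by positivity
    refine ⟨r / N, ?_⟩
    push_cast
    rw [eq_div_iff hN', ← hr, sum_mul]
    refine sum_congr rfl fun b _ => ?_
    rw [show (D b : ℝ) = N * π (v b) by exact_mod_cast e b]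
    ring
  choose r hr using h2
  obtain ⟨π, hπ⟩ := Module.Projective.exists_dual_eq_one ℚ (one_ne_zero : (1 : ℝ) ≠ 0)
  obtain ⟨N, D, hN, hD, e⟩ := h1 π
  refine ⟨N, D, hN, hD, fun s => ?_⟩
  let E := Module.Basis.ofVectorSpace ℚ ℝ
  let T := univ.biUnion fun b => (E.repr (v b)).support
  have h3 : ∀ b, v b = ∑ t ∈ T, E.coord t (v b) • E t := fun b => by
    conv_lhs => rw [← E.linearCombination_repr (v b), Finsupp.linearCombination_apply]
    exact Finsupp.sum_of_support_subset _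
      (subset_biUnion_of_mem (fun b => (E.repr (v b)).support) (mem_univ b)) _ fun _ _ => by simp
  have h4 : (c s : ℝ) = ∑ t ∈ T, r (E.coord t) s • E t := by
    rw [← hv s]
    simp only [Rat.smul_def, ← hr, sum_mul]
    rw [sum_comm]
    refine sum_congr rfl fun b _ => ?_
    conv_lhs => rw [h3 b, sum_mul]
    exact sum_congr rfl fun t _ => by rw [Rat.smul_def]; ring
  have h5 : c s = ∑ t ∈ T, r (E.coord t) s * π (E t) := by
    have := congrArg π h4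
    rwa [show ((c s : ℚ) : ℝ) = c s • (1 : ℝ) by simp, map_smul, hπ, smul_eq_mul, mul_one, map_sum,
      sum_congr rfl fun t _ => (map_smul π _ _).trans (smul_eq_mul _ _)] at this
  have h6 : ∀ b, π (v b) = ∑ t ∈ T, E.coord t (v b) * π (E t) := fun b => by
    conv_lhs => rw [h3 b, map_sum]
    exact sum_congr rfl fun t _ => (map_smul π _ _).trans (smul_eq_mul _ _)
  rw [h5]
  push_cast
  simp only [← hr, sum_mul, mul_sum]
  rw [sum_comm]
  refine sum_congr rfl fun b _ => ?_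
  rw [show (D b : ℝ) = N * π (v b) by exact_mod_cast e b, h6]
  push_cast
  simp only [sum_mul, mul_sum]
  exact sum_congr rfl fun t _ => by ring

end Pool.Agent.Lib.MP_62d77c_ag.R
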