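import Pool.Agent.Lib.MP_62d77c_ag.R.A1f
import Pool.Agent.Lib.MP_62d77c_ag.R.A2
import Pool.Agent.Lib.MP_62d77c_ag.R.Q5

/-! Block A and step Q5 in one abstract statement. -/

set_option autoImplicit false

namespace Pool.Agent.Lib.MP_62d77c_ag.R

open Finset

theorem a3a_val {B : Type} [Fintype B] {β : B → ℝ} {d : (B → ℤ) → ℝ} {C C' r : ℝ}
    (h : ∀ D : B → ℤ, |∑ a, (D a : ℝ) * β a - d D| ≤ C) (D : B → ℤ)
    (hr : ∀ n : ℕ, |d (n • D) - n * r| ≤ C') : ∑ a, (D a : ℝ) * β a = r := by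
  have e : ∀ n : ℕ, ∑ a, ((n • D : B → ℤ) a : ℝ) * β a = n * ∑ a, (D a : ℝ) * β a := fun n => by
    rw [mul_sum]
    exact sum_congr rfl fun a _ => by rw [Pi.smul_apply, nsmul_eq_mul]; push_cast; ring
  refine le_antisymm (sub_nonpos.1 (a1f_nonpos (C := C + C') fun n _ => ?_))
    (sub_nonpos.1 (a1f_nonpos (C := C + C') fun n _ => ?_))
  all_goals
    have h1 := abs_le.1 (h (n • D))
    have h2 := abs_le.1 (hr n)
    rw [e] at h1
    rw [mul_sub]
    linarith [h1.1, h1.2, h2.1, h2.2]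

/-- `B` primes of the normalised components, `j b` the component, `w b` the surface below, `ρ b`
the multiplicity of the push-forward, `d D b` the degree of `O(D)` on `b` -/
theorem a3a_main {B J W I : Type} [Fintype B] [DecidableEq B] [Fintype J] [DecidableEq J]
    [DecidableEq W] (j : B → J) (w : B → W) (ρ : B → ℕ) (hρ : ∀ b, 0 < ρ b) (deg : W → ℝ)
    (g : J → B → ℝ) (hgd : ∀ i b, g i b = if j b = i then ρ b * deg (w b) else 0)
    (q : (B → ℤ) → ℝ) (d : (B → ℤ) → B → ℝ) (C : ℝ)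
    (hd : ∀ b D E, |d (D + E) b - d D b - d E b| ≤ C)
    (hq : ∀ D b, |q D - q (D - Pi.single b 1) - d D b| ≤ C)
    (hS : ∀ c : ℝ, ∃ C' : ℝ, ∀ D : B → ℤ, (∀ i, |∑ b, (D b : ℝ) * g i b| ≤ c) → q D ≤ C')
    (h : J → B → ℤ) (e : J → ℝ)
    (hh : ∀ i b, ∃ c : ℝ, ∀ n : ℕ, |d (n • h i) b - n * (e i * g i b)| ≤ c)
    (hsupp : ∀ i b, j b ≠ i → h i b = 0) (hdeg : ∀ i, ∑ b, (h i b : ℝ) * g i b ≠ 0)
    (y : J → B → ℤ) (hy : ∀ k V, ∑ b with w b = V, (ρ b : ℤ) * y k b = 0) (γ : J → W → ℝ)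
    (hγ : ∀ k b, ∃ c : ℝ, ∀ n : ℕ, |d (n • y k) b - n * (ρ b * γ k (w b))| ≤ c)
    (hZs : ∀ i k, ∑ b, (y k b : ℝ) * g i b = ∑ b, (y i b : ℝ) * g k b)
    (hZp : ∀ i k, i ≠ k → 0 ≤ ∑ b, (y k b : ℝ) * g i b) (hZ0 : ∀ b, ∑ k, y k b = 0)
    (hZn : ∀ a b, w a = w b → j a ≠ j b → ∑ c, (y (j b) c : ℝ) * g (j a) c ≠ 0)
    (u : B → ℤ) (hu : ∀ k, ∑ b, (u b : ℝ) * (ρ b * γ k (w b)) = 0)
    (Λ : I → AddSubgroup (B → ℤ))
    (hsat : ∀ i (n : ℕ) (D : B → ℤ), 0 < n → n • D ∈ Λ i → D ∈ Λ i)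
    (hG : ∀ (c : ℝ) (i : I), ∃ N : ℕ, ∀ D : B → ℤ, (∀ k : ℕ, 1 ≤ k → k ≤ N →
      (∃ t : ℤ, ∀ V, ((|∑ b with w b = V, (ρ b : ℤ) * (k * D b - t * u b)| : ℤ) : ℝ) ≤ c) ∧
        ∀ b b', w b = w b' → |d (k • D) b / ρ b - d (k • D) b' / ρ b'| ≤ c) → D ∈ Λ i)
    (hrat : ∀ D : B → ℤ, (∀ i, D ∈ Λ i) → ∀ b, ∃ (N : ℕ) (r : ℚ) (c : ℝ), 0 < N ∧
      ∀ n : ℕ, |d (n • N • D) b - n * r| ≤ c) :
    ∃ (N : ℕ) (D : B → ℤ), 0 < N ∧ (∀ i, D ∈ Λ i) ∧
      (∀ V, ∑ b with w b = V, (ρ b : ℤ) * D b = N * ∑ b with w b = V, (ρ b : ℤ) * u b) ∧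
      ∀ (n : ℕ) b b', w b = w b' → |d (n • D) b / ρ b - d (n • D) b' / ρ b'| ≤ 2 * C := by
  obtain ⟨β, hs, hβ, hneg⟩ := a1f_quad_of_steps q d g C hd hq hS
  have hρ1 : ∀ b, (1 : ℝ) ≤ ρ b := fun b => by exact_mod_cast hρ b
  have hρ0 : ∀ b, (0 : ℝ) < ρ b := fun b => one_pos.trans_le (hρ1 b)
  obtain ⟨v, hv1, hv2⟩ := a2_main j w (fun b => (ρ b : ℝ)) (fun b => (hρ0 b).ne') deg g hgd β hs
    hneg (fun i b => h i b) e
    (fun i b => (hh i b).elim fun c hc => a3a_val (fun D => hβ D b) (h i) hc)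
    (fun i b hb => by simp [hsupp i b hb]) hdeg (fun k b => y k b)
    (fun k V => by exact_mod_cast hy k V) γ
    (fun k b => (hγ k b).elim fun c hc => a3a_val (fun D => hβ D b) (y k) hc) hZs hZp
    (fun b => by exact_mod_cast hZ0 b) hZn (fun b => u b) hu
  have hdiv : ∀ (x c : ℝ) b, |x| ≤ c → |x / ρ b| ≤ c := fun x c b hx => by
    rw [abs_div, abs_of_pos (hρ0 b)]
    exact (div_le_self (abs_nonneg _) (hρ1 b)).trans hx
  set M : ℝ := ∑ a, ∑ b, |β a b|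
  have hM : ∀ (z : B → ℝ) b, (∀ a, |z a| ≤ 1) → |∑ a, z a * β a b| ≤ M := fun z b hz =>
    (abs_sum_le_sum_abs _ _).trans (sum_le_sum fun a _ => by
      rw [abs_mul]
      exact (mul_le_of_le_one_left (abs_nonneg _) (hz a)).trans
        (single_le_sum (f := fun b => |β a b|) (fun _ _ => abs_nonneg _) (mem_univ b)))
  set K : ℝ := ∑ b, (ρ b : ℝ) * (1 + |(u b : ℝ)|)
  let l : W ⊕ {x : B × B // w x.1 = w x.2} → B → ℝ := Sum.elim
    (fun V b => if w b = V then ρ b else 0) fun x a => β a x.1.1 / ρ x.1.1 - β a x.1.2 / ρ x.1.2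
  have hl1 : ∀ V (x : B → ℝ), ∑ b, x b * l (.inl V) b = ∑ b with w b = V, ρ b * x b :=
    fun V x => by
      rw [sum_filter]
      exact sum_congr rfl fun b _ => by simp [l, mul_comm]
  have hl2 : ∀ s (x : B → ℝ), ∑ b, x b * l (.inr s) b
      = (∑ a, x a * β a s.1.1) / ρ s.1.1 - (∑ a, x a * β a s.1.2) / ρ s.1.2 := fun s x => by
    simp only [l, Sum.elim_inr, sum_div, ← sum_sub_distrib]
    exact sum_congr rfl fun b _ => by ring
  have hq' : ∀ D : B → ℤ, (∀ i, D ∈ Λ i) → ∀ b, ∃ r : ℚ, ∑ a, (D a : ℝ) * β a b = r :=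
    fun D hD b => by
      obtain ⟨N, r, c, hN, hc⟩ := hrat D hD b
      have h1 := a3a_val (fun D => hβ D b) (N • D) hc
      have hN' : (N : ℝ) ≠ 0 := by positivity
      refine ⟨r / N, ?_⟩
      push_cast
      rw [eq_div_iff hN', ← h1, sum_mul]
      exact sum_congr rfl fun a _ => by rw [Pi.smul_apply, nsmul_eq_mul]; push_cast; ring
  obtain ⟨N, D, hN, hD, hc⟩ := q5_main v Λ hsat
    (fun i => (hG (max K (2 * (C + M))) i).imp fun N hN D hk => hN D fun k h1 h2 => by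
      obtain ⟨t, ht⟩ := hk k h1 h2
      refine ⟨⟨⌊t⌋, fun V => le_max_of_le_left ?_⟩, fun b b' hb => le_max_of_le_right ?_⟩
      · push_cast
        have e1 : ∑ b with w b = V, (ρ b : ℝ) * (k * D b - ⌊t⌋ * u b)
            = ∑ b with w b = V, (ρ b : ℝ) * ((k * D b - t * v b) + Int.fract t * u b)
              + t * (∑ b with w b = V, ρ b * v b - ∑ b with w b = V, (ρ b : ℝ) * u b) := by
          simp only [mul_sub t, mul_sum, ← sum_sub_distrib, ← sum_add_distrib, Int.fract]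
          exact sum_congr rfl fun b _ => by ring
        rw [e1, hv1 V, sub_self, mul_zero, add_zero]
        refine (abs_sum_le_sum_abs _ _).trans ((sum_le_sum fun b _ => ?_).trans
          (sum_le_sum_of_subset_of_nonneg (filter_subset _ _) fun b _ _ => by positivity))
        rw [abs_mul, abs_of_pos (hρ0 b)]
        refine mul_le_mul_of_nonneg_left ((abs_add_le _ _).trans (add_le_add (ht b) ?_)) (hρ0 b).le
        rw [abs_mul, abs_of_nonneg (Int.fract_nonneg t)]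
        exact mul_le_of_le_one_left (abs_nonneg _) (Int.fract_lt_one t).le
      · have e1 : ∀ b, |d (k • D) b / ρ b - t * ((∑ a, v a * β a b) / ρ b)| ≤ C + M := fun b => by
          rw [← mul_div_assoc, ← sub_div]
          refine hdiv _ _ b ?_
          have h3 := abs_le.1 (hβ (k • D) b)
          have h4 := abs_le.1 (hM (fun a => k * D a - t * v a) b ht)
          have e2 : ∑ a, (k * D a - t * v a) * β a b
              = ∑ a, ((k • D : B → ℤ) a : ℝ) * β a b - t * ∑ a, v a * β a b := by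
            rw [mul_sum, ← sum_sub_distrib]
            exact sum_congr rfl fun a _ => by rw [Pi.smul_apply, nsmul_eq_mul]; push_cast; ring
          rw [e2] at h4
          rw [abs_le]
          constructor <;> linarith [h3.1, h3.2, h4.1, h4.2]
        have h3 := abs_le.1 (e1 b)
        have h4 := abs_le.1 (e1 b')
        rw [hv2 b b' hb] at h3
        rw [abs_le]
        constructor <;> linarith [h3.1, h3.2, h4.1, h4.2])
    l (Sum.elim (fun V => ((∑ b with w b = V, (ρ b : ℤ) * u b : ℤ) : ℚ)) 0)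
    (by
      rintro (V | s) D hD
      · exact ⟨((∑ b with w b = V, (ρ b : ℤ) * D b : ℤ) : ℚ), by rw [hl1]; push_cast; rfl⟩
      · obtain ⟨r, hr⟩ := hq' D hD s.1.1
        obtain ⟨r', hr'⟩ := hq' D hD s.1.2
        exact ⟨r / ρ s.1.1 - r' / ρ s.1.2, by rw [hl2, hr, hr']; push_cast; rfl⟩)
    (by
      rintro (V | s)
      · rw [hl1, hv1]; simp
      · rw [hl2, hv2 _ _ s.2]; simp)
  refine ⟨N, D, hN, hD, fun V => ?_, fun n b b' hb => ?_⟩
  · have := hc (.inl V)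
    rw [hl1] at this
    simp only [Sum.elim_inl] at this
    exact_mod_cast this
  · have h1 := hc (.inr ⟨(b, b'), hb⟩)
    rw [hl2] at h1
    simp only [Sum.elim_inr, Pi.zero_apply, Rat.cast_zero, mul_zero, sub_eq_zero] at h1
    have e1 : ∀ b, |d (n • D) b / ρ b - n * ((∑ a, (D a : ℝ) * β a b) / ρ b)| ≤ C := fun b => by
      rw [← mul_div_assoc, ← sub_div]
      refine hdiv _ _ b ?_
      rw [abs_sub_comm, mul_sum]
      convert hβ (n • D) b using 4 with a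
      rw [Pi.smul_apply, nsmul_eq_mul]; push_cast; ring
    have h3 := abs_le.1 (e1 b)
    have h4 := abs_le.1 (e1 b')
    rw [h1] at h3
    rw [abs_le]
    constructor <;> linarith [h3.1, h3.2, h4.1, h4.2]

end Pool.Agent.Lib.MP_62d77c_ag.R
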