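import Pool.Agent.Lib.MP_62d77c_ag.R.Df

/-! Slopes, finite sets of prime divisors. -/

set_option autoImplicit false
set_option linter.unusedSectionVars false

namespace Pool.Agent.Lib.MP_62d77c_ag.R

open Filter Polynomial Submodule

noncomputable section

variable {A : Type} [CommRing A] [IsDomain A] {𝒜 : ℕ → AddSubgroup A} [GradedRing 𝒜]
  [hG : Fact (Gen 𝒜)] {p : ℕ} [Fact p.Prime]

/-- Hilbert polynomial of `O(D) / O(D - O)` -/
def Mo.hb (X : Mo 𝒜 p) (O : ValuationSubring X.L) (D : Dvs X.L) : ℚ[X] :=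
  hp (X.MD D) - hp (X.MD (D - Finsupp.single O 1))

/-- normalised degree of `O(D)` on the prime divisor `O` -/
def Mo.sl (X : Mo 𝒜 p) (O : ValuationSubring X.L) (D : Dvs X.L) : ℚ :=
  (X.hb O D).coeff 1 / X.fdeg O

/-- first difference of the Hilbert polynomial of `O(D)` -/
def Mo.qq (X : Mo 𝒜 p) (D : Dvs X.L) : ℚ := (hp (X.MD D)).eval 0 - (hp (X.MD D)).eval (-1)

/-- degree of a component on a surface -/
def gam (k : Comp 𝒜 p) (W : Vp 𝒜 p) : ℚ := (T p (cy 𝒜 (pr k.1.1)) (cy 𝒜 (pr W.1))).coeff 1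

variable (𝒜 p) in
/-- finite sets of valuation rings on the components -/
abbrev FS : Type := ∀ j : Comp 𝒜 p, Finset (ValuationSubring (Xc j).L)

/-- the sets consist of prime divisors -/
def FS.PD (s : FS 𝒜 p) : Prop := ∀ j, ∀ O ∈ s j, O ∈ (Xc j).PD

/-- the index set -/
abbrev BI (s : FS 𝒜 p) : Type := Σ j : Comp 𝒜 p, s j

/-- the tuple of divisors with given coefficients -/
def emb (s : FS 𝒜 p) : (BI s → ℤ) →+ DT 𝒜 p where
  toFun D j := ∑ O : s j, Finsupp.single O.1 (D ⟨j, O⟩)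
  map_zero' := by funext j; simp
  map_add' D D' := by funext j; simp [Finset.sum_add_distrib]

/-- centre -/
def BI.cen {s : FS 𝒜 p} (b : BI s) : Vp 𝒜 p := (Xc b.1).cen b.2.1

/-- weight -/
def BI.wt {s : FS 𝒜 p} (b : BI s) : ℕ := mu b.1 * (Xc b.1).fdeg b.2.1

/-- `D` pushes forward to a multiple of `V` up to a bounded cycle on `F` and has almost equal
degrees on the members of `s` over a common surface -/
def Near (s : FS 𝒜 p) (F : Finset (Vp 𝒜 p)) (V : Vp 𝒜 p →₀ ℤ) (c : ℚ) (D : DT 𝒜 p) : Prop :=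
  (∃ t : ℤ, (push D - t • V).support ⊆ F ∧ ∀ W, |(((push D - t • V) W : ℤ) : ℚ)| ≤ c) ∧
    ∀ j k, ∀ O ∈ s j, ∀ O' ∈ s k, (Xc j).cen O = (Xc k).cen O' →
      |(Xc j).sl O (D j) - (Xc k).sl O' (D k)| ≤ c

/-- a system of rank one families on a pair, functorial in two divisors -/
structure QSys {X X' : Mo 𝒜 p} (P : Pair X X') (Q : Dvs X.L → Dvs X'.L → P.Y.Fa) : Prop where
  ff : ∀ D D', P.Y.FF (Q D D')
  ne : ∀ D D', ∀ᶠ n in atTop, Q D D' n ≠ ⊥
  mul : ∀ D D' E E' n m m', Q D D' n * P.S.bar E m * P.S'.bar E' m' ≤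
    Q (D - E) (D' + E') (n + m + m')

end

end Pool.Agent.Lib.MP_62d77c_ag.R
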