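import Pool.Agent.Lib.MP_62d77c_ag.R.K3
import Pool.Agent.Lib.MP_62d77c_ag.R.Df2

/-! Degrees of the components on surfaces. -/

set_option autoImplicit false
set_option linter.unusedSectionVars false

namespace Pool.Agent.Lib.MP_62d77c_ag.R

open Filter Polynomial Submodule

noncomputable section

variable {A : Type} [CommRing A] [IsDomain A] {𝒜 : ℕ → AddSubgroup A} [GradedRing 𝒜]
  [hG : Fact (Gen 𝒜)] {p : ℕ} [Fact p.Prime] {N N' : GM 𝒜}

theorem a3_lin {P : ℚ[X]} {c : ℚ} (h : P = P.comp (X + C ((-1 : ℤ) : ℚ)) + C c) :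
    P = C c * X + C (P.coeff 0) := by
  have e := k3_const (P := P - C c * X) (by
    rw [sub_comp, mul_comp, C_comp, X_comp, eq_sub_of_add_eq h.symm]
    simp only [Int.cast_neg, Int.cast_one, map_neg, map_one]
    ring)
  rw [coeff_sub, mul_coeff_zero, coeff_X_zero, mul_zero, sub_zero] at e
  rw [← e]; ring

theorem a3_sh0 (h : Hyp 𝒜) (hF : N.Fb p ∨ N'.Fb p) : T p N (N'.sh 0) = T p N N' := by
  rw [T_sh h hF]; simp

theorem a3_sec (h : Hyp 𝒜) (V : Vp 𝒜 p) : ∃ Q : GM 𝒜, Q.Fb p ∧ Q.DimLt p (dm V) ∧ ∀ N : GM 𝒜,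
    T p N (cy 𝒜 (pr V.1)) = (T p N (cy 𝒜 (pr V.1))).comp (X + C ((-1 : ℤ) : ℚ)) + T p N Q := by
  obtain ⟨Q, hs, hF, hQ⟩ := k3_section V 0
  refine ⟨Q, hF, hQ, fun N => ?_⟩
  have e := T_ses (N := N) h hs (Or.inr (k3_fb V 0))
  rwa [a3_sh0 h (Or.inr (fb_cy V.2)), T_sh h (Or.inr (fb_cy V.2)), zero_sub] at e

theorem a3_supp (hF : N.Fb p) {s : ℕ} (hs : N.DimLt p (s + 1)) {x : Vp 𝒜 p}
    (hx : x ∈ (N.cyc p s).support) : dm x = s := by
  by_contra e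
  exact Finsupp.mem_support_iff.1 hx (by rw [cyc_apply hF hs, if_neg e])

/-- a divisor meets a curve in a constant -/
theorem a3_curve (h : Hyp 𝒜) (hN : N.Cod p 1) (hF : N'.Fb p) (hs : N'.DimLt p 2) :
    T p N N' = C ((T p N N').coeff 0) := by
  have key : ∀ x : Vp 𝒜 p, dm x = 1 →
      T p N (cy 𝒜 (pr x.1)) = C ((T p N (cy 𝒜 (pr x.1))).coeff 0) := fun x hx => by
    obtain ⟨Q, h1, h2, e⟩ := a3_sec h x
    have e' := e N
    rw [T_point h hN h1 (hx ▸ h2), add_zero] at e'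
    exact k3_const e'.symm
  have e := dev (fun M => T p N M - C ((T p N M).coeff 0)) 1
    (fun _ _ _ s h2 _ => by rw [T_ses h s (Or.inr h2), coeff_add, map_add]; ring)
    (fun _ h1 h2 => by rw [T_point h hN h1 h2]; simp)
    (fun x hx a => by rw [T_sh h (Or.inr (fb_cy x.2)), key x hx, C_comp]) hF hs
  rw [← sub_eq_zero, e]
  exact Finset.sum_eq_zero fun x hx => by
    beta_reduce
    rw [← key x (a3_supp hF hs hx), sub_self, smul_zero]

theorem a3_cod (h : Hyp 𝒜) (k : Comp 𝒜 p) : (cy 𝒜 (pr k.1.1)).Cod p 1 :=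
  cod_fb h (fb_cy k.1.2) (s := 4) fun y hy => absurd (dm_le_three h y) (by omega)

theorem a3_cod2 (h : Hyp 𝒜) {W : Vp 𝒜 p} (hW : dm W ≤ 2) (a : ℤ) :
    ((cy 𝒜 (pr W.1)).sh a).Cod p 2 := cod_fb h (k3_fb W a) (k3_dimLt W a (s := 3) (by omega))

theorem T_gam (h : Hyp 𝒜) (k : Comp 𝒜 p) {N : GM 𝒜} (hF : N.Fb p) (hs : N.DimLt p 3) :
    (T p (cy 𝒜 (pr k.1.1)) N).coeff 1 = (N.cyc p 2).sum fun W n => (n : ℚ) * gam k W := by
  rw [dev (fun M => (T p (cy 𝒜 (pr k.1.1)) M).coeff 1) 2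
    (fun _ _ _ s h2 _ => by rw [T_ses h s (Or.inr h2), coeff_add])
    (fun _ h1 h2 => by rw [a3_curve h (a3_cod h k) h1 h2, coeff_C_succ])
    (fun x hx a => ?_) hF hs]
  · exact Finset.sum_congr rfl fun W _ => zsmul_eq_mul _ _
  · obtain ⟨Q, h1, h2, e⟩ := a3_sec h x
    have e' := e (cy 𝒜 (pr k.1.1))
    rw [a3_curve h (a3_cod h k) h1 (hx ▸ h2)] at e'
    rw [T_sh h (Or.inr (fb_cy x.2)), a3_lin e', add_comp, mul_comp, C_comp, C_comp, X_comp, mul_add,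
      ← C_mul]
    simp only [coeff_add, coeff_C_succ, add_zero]

theorem gam_kr (h : Hyp 𝒜) (k : Comp 𝒜 p) {V : Vp 𝒜 p →₀ ℤ} (hV : Kr V) :
    (V.sum fun W n => (n : ℚ) * gam k W) = 0 := by
  obtain ⟨Q, h1, h2, e⟩ := a3_sec h k.1
  rw [dm_Comp h k] at h2
  have e1 : ∀ W ∈ V.support, gam k W = lam W.1 (Q.cyc p 2) := fun W hW => by
    have e' := e (cy 𝒜 (pr W.1))
    rw [T_surf h (a3_cod2 h (hV.1 W hW).le 0) h1 h2] at e'
    rw [gam, T_symm h (Or.inl (fb_cy k.1.2)), a3_lin e']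
    simp
  have e2 : (V.sum fun W n => (n : ℚ) * gam k W) = bil V (Q.cyc p 2) :=
    Finset.sum_congr rfl fun W hW => congrArg _ (e1 W hW)
  rw [e2, bil_symm h]
  exact Finset.sum_eq_zero fun W hW => mul_eq_zero_of_right _ (hV.2 W (a3_supp h1 h2 hW))

theorem gam_sum (h : Hyp 𝒜) (W : Vp 𝒜 p) (hW : dm W = 2) :
    ∑ k : Comp 𝒜 p, (mu k : ℚ) * gam k W = 0 := by
  obtain ⟨Z, l, h1, h2, -⟩ := cyc_gen h (fb_cy (𝒜 := 𝒜) (Ideal.mem_span_singleton_self (p : A)))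
  have hF : (cy 𝒜 (pr W.1)).Fb p := fb_cy W.2
  have e := congrArg (fun P : ℚ[X] => P.coeff 1) (h2 _ hF)
  have e1 : ∀ l : List (ℤ × Vp 𝒜 p × ℤ), (∀ t ∈ l, dm t.2.1 ≤ 2) → ((l.map fun t =>
      t.1 • T p ((cy 𝒜 (pr t.2.1.1)).sh t.2.2) (cy 𝒜 (pr W.1))).sum).coeff 1 = 0 := fun l hl => by
    induction l with
    | nil => simp
    | cons t l ih =>
      rw [List.map_cons, List.sum_cons, coeff_add, ih fun s hs => hl s (List.mem_cons_of_mem _ hs),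
        ← a3_sh0 h (Or.inr hF), k3_T_pt h (a3_cod2 h (hl t List.mem_cons_self) _) W hW,
        coeff_smul, coeff_C_succ, smul_zero, add_zero]
  simp only [e1 l h1, T_symm h (Or.inr hF) (N := cy 𝒜 (Ideal.span {(p : A)})), T_fibre h hF,
    zero_sub, coeff_neg, neg_eq_zero, finsetSum_coeff, coeff_smul] at e
  rw [← e]
  exact Finset.sum_congr rfl fun k _ => by
    rw [T_symm h (Or.inr hF), a3_sh0 h (Or.inl hF), T_symm h (Or.inl hF), nsmul_eq_mul]; rfl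

end

end Pool.Agent.Lib.MP_62d77c_ag.R
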