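import Pool.Agent.Lib.MP_62d77c_ag.R.A4a
import Pool.Agent.Lib.MP_62d77c_ag.R.A3

/-! Making the degrees equal. -/

set_option autoImplicit false
set_option linter.unusedSectionVars false

namespace Pool.Agent.Lib.MP_62d77c_ag.R

open Filter Polynomial Submodule Finset

noncomputable section

variable {A : Type} [CommRing A] [IsDomain A] {𝒜 : ℕ → AddSubgroup A} [GradedRing 𝒜]
  [hG : Fact (Gen 𝒜)] {p : ℕ} [Fact p.Prime]

theorem a4_nsmul (X : Mo 𝒜 p) {D : Dvs X.L} {y : Pt 𝒜} (h : X.CartAt D y) (n : ℕ) :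
    X.CartAt (n • D) y := by
  induction n with
  | zero => rw [zero_smul]; exact cartAt_zero X y
  | succ n ih => rw [succ_nsmul]; exact cartAt_add X ih h

/-- divisors with a multiple that is principal at `y` -/
def qcAt (X : Mo 𝒜 p) (y : Pt 𝒜) : AddSubgroup (Dvs X.L) where
  carrier := {D | ∃ n : ℕ, 0 < n ∧ X.CartAt (n • D) y}
  zero_mem' := ⟨1, one_pos, by rw [smul_zero]; exact cartAt_zero X y⟩
  add_mem' := by
    rintro D E ⟨n, hn, h⟩ ⟨m, hm, h'⟩
    refine ⟨m * n, mul_pos hm hn, ?_⟩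
    rw [smul_add, mul_smul, mul_comm, mul_smul]
    exact cartAt_add X (a4_nsmul X h m) (a4_nsmul X h' n)
  neg_mem' := by
    rintro D ⟨n, hn, h⟩
    exact ⟨n, hn, by rw [smul_neg]; exact cartAt_neg X h⟩

variable {s : FS 𝒜 p}

/-- coefficients of a tuple of divisors -/
def cf (s : FS 𝒜 p) (D : DT 𝒜 p) (b : BI s) : ℤ := D b.1 b.2.1

theorem emb_cf {D : DT 𝒜 p} (h : ∀ j, (D j).support ⊆ s j) : emb s (cf s D) = D :=
  funext fun j => emb_eq (h j) fun _ => rfl

theorem a4_dw {D : BI s → ℤ} {b : BI s} {r : ℚ} (h : (Xc b.1).Sh b.2.1 (emb s D b.1) r) :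
    ∃ c : ℝ, ∀ n : ℕ, |dw s (n • D) b - n * (b.wt * (r : ℝ))| ≤ c := by
  refine ⟨|b.wt * (((Xc b.1).sl b.2.1 0 : ℚ) : ℝ)|, fun n => le_of_eq (congrArg _ ?_)⟩
  have := h.nsmul n 0
  rw [zero_add] at this
  rw [dw, map_nsmul, Pi.smul_apply, this]
  push_cast; ring

theorem a4_sum [DecidableEq (Vp 𝒜 p)] (hs : s.PD) (D : BI s → ℤ) (c : Vp 𝒜 p → ℝ) :
    ∑ b, (D b : ℝ) * (b.wt * c b.cen) = (push (emb s D)).sum fun W n => (n : ℝ) * c W := by
  rw [Finsupp.sum_of_support_subset _ (s := univ.image BI.cen) _ _ (by simp),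
    ← sum_fiberwise_of_maps_to (t := univ.image BI.cen) (g := BI.cen)
      fun b hb => mem_image_of_mem _ hb]
  · refine sum_congr rfl fun W _ => ?_
    rw [push_emb hs]
    push_cast
    rw [sum_mul]
    exact sum_congr rfl fun b hb => by rw [(mem_filter.1 hb).2]; ring
  · intro W hW
    rw [Finsupp.mem_support_iff, push_emb hs] at hW
    obtain ⟨b, hb, -⟩ := exists_ne_zero_of_sum_ne_zero hW
    exact (mem_filter.1 hb).2 ▸ mem_image_of_mem _ (mem_univ b)

theorem a4_lift (h : Hyp 𝒜) (hs : s.PD) {V : Vp 𝒜 p →₀ ℤ}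
    (hV : ∀ W ∈ V.support, ∃ b : BI s, b.cen = W) :
    ∃ (M : ℕ) (u : BI s → ℤ), 0 < M ∧ push (emb s u) = M • V := by
  classical
  choose b hb using fun W : V.support => hV W.1 W.2
  have hd : ∀ W, (b W).wt ∣ ∏ a : BI s, a.wt := fun W => dvd_prod_of_mem _ (mem_univ _)
  choose m hm using hd
  refine ⟨∏ a : BI s, a.wt, ∑ W : V.support, Pi.single (b W) (m W * V W.1),
    prod_pos fun a _ => wt_pos h hs a, Finsupp.ext fun W => ?_⟩
  rw [push_emb hs]
  simp only [Finset.sum_apply, mul_sum, Pi.single_apply, mul_ite, mul_zero]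
  rw [sum_comm]
  simp only [sum_ite_eq', mem_filter, mem_univ, true_and, hb]
  by_cases hW : W ∈ V.support
  · rw [sum_eq_single ⟨W, hW⟩, if_pos rfl, ← mul_assoc, ← Nat.cast_mul, ← hm, Finsupp.smul_apply,
      nsmul_eq_mul]
    · intro W' _ h'
      exact if_neg fun e => h' (Subtype.ext e)
    · simp
  · rw [Finsupp.smul_apply, Finsupp.notMem_support_iff.1 hW, smul_zero]
    exact sum_eq_zero fun W' _ => if_neg fun e : W'.1 = W => hW (e ▸ W'.2)

theorem Near.mono {s' : FS 𝒜 p} (hle : ∀ j, s j ⊆ s' j) {F : Finset (Vp 𝒜 p)} {V : Vp 𝒜 p →₀ ℤ}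
    {c : ℚ} {D : DT 𝒜 p} (h : Near s' F V c D) : Near s F V c D :=
  ⟨h.1, fun j k O hO O' hO' => h.2 j k O (hle j hO) O' (hle k hO')⟩

theorem a4_push_nsmul (n : ℕ) (D : DT 𝒜 p) : push (n • D) = n • push D := by
  rw [push, push, smul_sum]
  exact sum_congr rfl fun j _ => by
    rw [smul_comm n]; exact congrArg _ (map_nsmul (Xc j).pshH n (D j))

theorem a4_sl (h : Hyp 𝒜) (hs : s.PD) (D : BI s → ℤ) (b : BI s) :
    dw s D b / b.wt = ((Xc b.1).sl b.2.1 (emb s D b.1) : ℚ) :=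
  mul_div_cancel_left₀ _ (by exact_mod_cast (wt_pos h hs b).ne')

theorem a4_core (h : Hyp 𝒜) (hs : s.PD) {V : Vp 𝒜 p →₀ ℤ} (hV : Kr V)
    (hsV : ∀ W ∈ V.support, ∃ b : BI s, b.cen = W) {e : ℕ} (he : 0 < e) {l : A}
    (hl : ∀ j : Comp 𝒜 p, (Xc j).θ l ≠ 0) {H : DT 𝒜 p} (hH : ∀ j, (Xc j).IsDiv ((Xc j).θ l) e (H j))
    (hsH : ∀ j, (H j).support ⊆ s j) {E : ∀ j _ : Comp 𝒜 p, Dvs (Xc j).L}
    (hsE : ∀ j k, (E j k).support ⊆ s j) (h0 : ∀ j k, 0 ≤ E j k)
    (h1 : ∀ j k, j ≠ k → ∀ O ∈ (Xc j).PD, pr k.1.1 ≤ pr ((Xc j).cen O).1 → 0 < E j k O)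
    (h2 : ∀ j k, j ≠ k → (Xc j).psh (E j k) = (Xc k).psh (E k j))
    (h3 : ∀ j k, j ≠ k → ∀ O ∈ (Xc j).PD, (Xc j).Sh O (E j k) (gam k ((Xc j).cen O)))
    (hG : ∀ (F : Finset (Vp 𝒜 p)) (c : ℚ) (j : Comp 𝒜 p) (y : Vp 𝒜 p), dm y = 0 → ∃ N : ℕ,
      ∀ D : DT 𝒜 p, (∀ k : ℕ, 1 ≤ k → k ≤ N → Near s F V c (k • D)) →
        ∃ n : ℕ, 0 < n ∧ (Xc j).CartAt (n • D j) y.1) :
    ∃ N : ℕ, 0 < N ∧ ∃ (D : DT 𝒜 p) (F : Finset (Vp 𝒜 p)) (c : ℚ), push D = N • V ∧
      (∀ j, (Xc j).Cart (D j)) ∧ ∀ n : ℕ, Near s F V c (n • D) := by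
  classical
  obtain ⟨C, hd, hq, hS⟩ := a4_hyp h hs
  obtain ⟨M, u, hM, hu⟩ := a4_lift h hs hsV
  let Hs : Comp 𝒜 p → DT 𝒜 p := fun i => Pi.single i (H i)
  have eH : ∀ i, emb s (cf s (Hs i)) = Hs i := fun i => emb_cf fun j => by
    by_cases hj : j = i
    · subst hj; simpa [Hs] using hsH j
    · simp [Hs, hj]
  let Y : Comp 𝒜 p → DT 𝒜 p := fun k j =>
    if j = k then -∑ i ∈ univ.erase j, mu i • E j i else mu k • E j k
  have eY : ∀ k, emb s (cf s (Y k)) = Y k := fun k => emb_cf fun j O hO => by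
    by_contra hn
    have : ∀ i, E j i O = 0 := fun i => Finsupp.notMem_support_iff.1 fun h' => hn (hsE j i h')
    refine Finsupp.mem_support_iff.1 hO ?_
    simp only [Y]
    split_ifs <;> simp [Finsupp.finsetSum_apply, this]
  have pY : ∀ k j, j ≠ k → (Xc j).psh (Y k j) = mu k • (Xc j).psh (E j k) := fun k j hj => by
    simp only [Y, if_neg hj]
    exact map_nsmul (Xc j).pshH _ _
  have pY0 : ∀ k, push (Y k) = 0 := fun k => by
    have e1 : (Xc k).psh (Y k k) = -∑ i ∈ univ.erase k, mu i • (Xc k).psh (E k i) := by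
      simp only [Y, if_true]
      change (Xc k).pshH _ = _
      rw [map_neg, map_sum]
      simp only [map_nsmul]
      rfl
    rw [push, ← add_sum_erase _ _ (mem_univ k), e1, smul_neg, smul_sum, neg_add_eq_zero]
    exact sum_congr rfl fun j hj => by
      rw [pY k j (ne_of_mem_erase hj), h2 j k (ne_of_mem_erase hj), smul_comm]
  have tY : ∀ i k, i ≠ k → ∀ b : BI s, 0 ≤ (cf s (Y k) b : ℝ) * gw s i b := fun i k hik b => by
    unfold gw
    split_ifs with hb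
    · have e1 : 0 ≤ cf s (Y k) b := by
        simp only [cf, Y, if_neg (hb ▸ hik : b.1 ≠ k), Finsupp.smul_apply]
        exact nsmul_nonneg (h0 _ _ _) _
      have := (dg_pos b.cen).le
      positivity
    · simp
  let Λ : Comp 𝒜 p × {y : Vp 𝒜 p // dm y = 0} → AddSubgroup (BI s → ℤ) := fun i =>
    (qcAt (Xc i.1) i.2.1.1).comap ((Pi.evalAddMonoidHom _ i.1).comp (emb s))
  have hΛ : ∀ D, (∀ i, D ∈ Λ i) → ∀ j, ∃ n : ℕ, 0 < n ∧ (Xc j).Cart (n • emb s D j) :=
    fun D hD j => cart_of_closed _ _ fun y hy => hD (j, ⟨y, hy⟩)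
  obtain ⟨N, D, hN, hD, hp1, hp2⟩ := a3a_main (fun b : BI s => b.1) BI.cen BI.wt (wt_pos h hs)
    (fun W => (dg W : ℚ)) (gw s) (fun i b => by unfold gw; congr) (qw s) (dw s) C hd hq hS
    (fun i => cf s (Hs i)) (fun _ => 2 * e)
    (fun i b => by
      by_cases hb : b.1 = i
      · subst hb
        have := a4_sh_div _ (dm_xc h b.1) (hs _ _ b.2.2) (hl _) (hH b.1)
        refine (a4_dw (D := cf s (Hs b.1)) (b := b) (r := 2 * e * dg b.cen)
          (by simpa [eH, Hs, BI.cen] using this)).imp fun c hc n => ?_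
        convert hc n using 3
        simp only [gw, if_true]
        push_cast; ring
      · refine (a4_dw (D := cf s (Hs i)) (b := b) (r := 0)
          (by simpa [eH, Hs, hb] using Mo.Sh.zero)).imp fun c hc n => ?_
        simpa [gw, hb] using hc n)
    (fun i b hb => by simp [cf, Hs, hb])
    (fun i => by
      have e1 := hp_md_deg (Xc i) 0
      rw [dm_xc h] at e1
      have e2 := hp_md_div _ (hl i) (hH i) 0
      rw [zero_add] at e2
      have e3 : (hp ((Xc i).MD 0)).coeff 3 ≠ 0 := by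
        rw [← e1]
        exact leadingCoeff_ne_zero.2 fun e0 => by simp [e0] at e1
      rw [sum_gw_coeff h hs, eH, ← mul_sub, ← Rat.cast_sub]
      simp only [Hs, Pi.single_eq_same]
      rw [e2, (a4_comp _ _ (mem_degreeLT.2 ((degree_le_of_natDegree_le e1.le).trans_lt
        (by norm_num)))).1, add_sub_cancel_left]
      exact mul_ne_zero (by exact_mod_cast (mu_pos h i).ne')
        (Rat.cast_ne_zero.2 (mul_ne_zero (mul_ne_zero three_ne_zero (Nat.cast_ne_zero.2 he.ne')) e3)))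
    (fun k => cf s (Y k)) (fun k W => by rw [← push_emb hs, eY, pY0]; rfl)
    (fun k W => ((mu k * gam k W : ℚ) : ℝ))
    (fun k b => a4_dw (by
      rw [eY]
      simp only [Y]
      split_ifs with hb
      · have e1 := gam_sum h b.cen (dm_cen h hs b)
        rw [← add_sum_erase _ _ (mem_univ b.1), add_eq_zero_iff_eq_neg] at e1
        rw [← hb, e1]
        exact (Mo.Sh.sum _ fun i hi =>
          (h3 _ i (ne_of_mem_erase hi).symm _ (hs _ _ b.2.2)).nsmul _).neg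
      · exact (h3 _ k hb _ (hs _ _ b.2.2)).nsmul _))
    (fun i k => by
      by_cases hik : i = k
      · rw [hik]
      · rw [sum_gw_psh hs, sum_gw_psh hs, eY, eY, pY k i hik, pY i k (Ne.symm hik), h2 i k hik,
          Finsupp.sum_smul_index' (by simp), Finsupp.sum_smul_index' (by simp), Finsupp.mul_sum,
          Finsupp.mul_sum]
        exact Finsupp.sum_congr fun W _ => by simp only [nsmul_eq_mul]; push_cast; ring)
    (fun i k hik => sum_nonneg fun b _ => tY i k hik b)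
    (fun b => by
      rw [← add_sum_erase _ _ (mem_univ b.1)]
      simp only [cf, Y, if_true, Finsupp.neg_apply, Finsupp.finsetSum_apply, neg_add_eq_zero]
      exact sum_congr rfl fun i hi => by rw [if_neg (ne_of_mem_erase hi).symm])
    (fun a b hab hne => (sum_pos' (fun c _ => tY _ _ hne c) ⟨a, mem_univ a, by
      have e1 : 0 < cf s (Y b.1) a := by
        simp only [cf, Y, if_neg hne, Finsupp.smul_apply]
        refine nsmul_pos (h1 _ _ hne _ (hs _ _ a.2.2) ?_) (mu_pos h _).ne'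
        exact (pd_cen _ (hs _ _ b.2.2)).1.1.trans_eq (congrArg (fun W => pr W.1) hab.symm)
      have := dg_pos a.cen
      have := wt_pos h hs a
      simp only [gw, if_true]
      positivity⟩).ne')
    u (fun k => by
      have e1 := congrArg (fun x : ℚ => (M * mu k * x : ℝ)) (gam_kr h k hV)
      rw [a4_sum hs u fun W => ((mu k * gam k W : ℚ) : ℝ), hu, Finsupp.sum_smul_index' (by simp)]
      simp only [Finsupp.sum, Rat.cast_zero, mul_zero, nsmul_eq_mul] at e1 ⊢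
      rw [← e1]
      push_cast
      rw [mul_sum]
      exact sum_congr rfl fun W _ => by ring)
    Λ (fun i n D hn ⟨m, hm, h'⟩ => ⟨m * n, mul_pos hm hn, by
      rwa [map_nsmul, smul_smul] at h'⟩)
    (fun c i => by
      obtain ⟨c', hc'⟩ := exists_rat_gt c
      obtain ⟨N, hN⟩ := hG (univ.image (BI.cen (s := s))) c' i.1 i.2.1 i.2.2
      refine ⟨N, fun D hD => hN (emb s D) fun k k1 k2 => ?_⟩
      obtain ⟨⟨t, ht⟩, ht'⟩ := hD k k1 k2
      have e1 : ∀ W, (push (k • emb s D) - (t * M : ℤ) • V) W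
          = ∑ b with b.cen = W, (b.wt : ℤ) * (k * D b - t * u b) := fun W => by
        rw [mul_smul, natCast_zsmul, ← hu, ← map_nsmul, Finsupp.sub_apply, Finsupp.smul_apply,
          push_emb hs, push_emb hs, smul_eq_mul, mul_sum, ← sum_sub_distrib]
        exact sum_congr rfl fun b _ => by rw [Pi.smul_apply, nsmul_eq_mul]; ring
      refine ⟨⟨t * M, fun W hW => ?_, fun W => ?_⟩, fun j j' O hO O' hO' e2 => ?_⟩
      · rw [Finsupp.mem_support_iff, e1] at hW
        obtain ⟨b, hb, -⟩ := exists_ne_zero_of_sum_ne_zero hW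
        exact (mem_filter.1 hb).2 ▸ mem_image_of_mem _ (mem_univ b)
      · rw [e1]
        exact_mod_cast (ht W).trans hc'.le
      · have := (ht' ⟨j, O, hO⟩ ⟨j', O', hO'⟩ e2).trans hc'.le
        rw [a4_sl h hs, a4_sl h hs, map_nsmul] at this
        exact_mod_cast this)
    fun D hD b => by
      obtain ⟨n, hn, hc⟩ := hΛ D hD b.1
      obtain ⟨r, c, hr⟩ := sl_cart _ (dm_xc h b.1) (hs _ _ b.2.2) hc
      refine ⟨n, b.wt * r, b.wt * c, hn, fun m => ?_⟩
      rw [dw, map_nsmul, map_nsmul]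
      push_cast
      rw [mul_left_comm, ← mul_sub, abs_mul, Nat.abs_cast]
      exact mul_le_mul_of_nonneg_left (by exact_mod_cast hr m) (Nat.cast_nonneg _)
  choose n hn hc using hΛ D hD
  have hpush : push (emb s D) = (N * M) • V := Finsupp.ext fun W => by
    rw [push_emb hs, hp1, ← push_emb hs, hu, mul_smul, Finsupp.smul_apply N, nsmul_eq_mul]
  obtain ⟨c', hc'⟩ := exists_rat_gt (max (2 * C) 0)
  refine ⟨(∏ j, n j) * (N * M), mul_pos (prod_pos fun j _ => hn j) (mul_pos hN hM),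
    (∏ j, n j) • emb s D, ∅, c', by rw [a4_push_nsmul, hpush, smul_smul], fun j y => ?_,
    fun m => ⟨⟨(m * ((∏ j, n j) * (N * M)) : ℕ), ?_⟩, fun j j' O hO O' hO' e2 => ?_⟩⟩
  · rw [← prod_erase_mul _ _ (mem_univ j), Pi.smul_apply, mul_smul]
    exact a4_nsmul _ (hc j y) _
  · rw [a4_push_nsmul, a4_push_nsmul, hpush, smul_smul, smul_smul, natCast_zsmul, mul_assoc,
      sub_self]
    exact ⟨by simp, fun W => by simpa using ((le_max_right _ _).trans hc'.le : (0 : ℝ) ≤ c')⟩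
  · have := (hp2 (m * ∏ j, n j) ⟨j, O, hO⟩ ⟨j', O', hO'⟩ e2).trans
      ((le_max_left _ _).trans hc'.le)
    rw [a4_sl h hs, a4_sl h hs, map_nsmul, mul_smul] at this
    exact_mod_cast this

theorem a_main (h : Hyp 𝒜) (s : FS 𝒜 p) (hs : s.PD) {V : Vp 𝒜 p →₀ ℤ} (hV : Kr V)
    (hG : ∀ (F : Finset (Vp 𝒜 p)) (c : ℚ) (j : Comp 𝒜 p) (y : Vp 𝒜 p), dm y = 0 → ∃ N : ℕ,
      ∀ D : DT 𝒜 p, (∀ k : ℕ, 1 ≤ k → k ≤ N → Near s F V c (k • D)) →
        ∃ n : ℕ, 0 < n ∧ (Xc j).CartAt (n • D j) y.1) :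
    ∃ N : ℕ, 0 < N ∧ ∃ (D : DT 𝒜 p) (F : Finset (Vp 𝒜 p)) (c : ℚ), push D = N • V ∧
      (∀ j, (Xc j).Cart (D j)) ∧ ∀ n : ℕ, Near s F V c (n • D) := by
  classical
  obtain ⟨E, h0, h1, h2, h3, h4⟩ := exists_cut (p := p) h
  obtain ⟨e, ⟨l, -, hl, hl'⟩, he⟩ := ((avoid (J := ⊤) (Ideal.IsHomogeneous.top 𝒜)
    (univ.image fun j : Comp 𝒜 p => j.1.1) fun y _ hy =>
      y.isPrime.ne_top (top_le_iff.1 hy)).and (eventually_gt_atTop 0)).exists
  have hl0 : ∀ j : Comp 𝒜 p, (Xc j).θ l ≠ 0 := fun j =>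
    (Xc j).th_ne hl (hl' _ (mem_image_of_mem _ (mem_univ j)))
  choose H hH using fun j : Comp 𝒜 p => exists_isDiv (Xc j) (hl0 j) e
  let s' : FS 𝒜 p := fun j => s j ∪ (H j).support ∪ (univ.biUnion fun k => (E j k).support) ∪
    V.support.biUnion fun W => ((Xc j).finite_over W).toFinset
  have hle : ∀ j, s j ⊆ s' j := fun j O hO => by simp [s', hO]
  obtain ⟨N, hN, D, F, c, e1, e2, e3⟩ := a4_core (s := s') h
    (fun j O hO => by
      simp only [s', mem_union, mem_biUnion, Set.Finite.mem_toFinset] at hO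
      rcases hO with ((h5 | h5) | ⟨k, -, h5⟩) | ⟨W, -, h5⟩
      exacts [hs j O h5, (hH j).1 O h5, h0 j k O h5, h5.1])
    hV (fun W hW => by
      obtain ⟨j, hj⟩ := exists_comp W
      obtain ⟨O, hO, e1⟩ := (Xc j).exists_PD hj (by rw [hV.1 W hW, dm_xc h])
      exact ⟨⟨j, O, mem_union_right _ (mem_biUnion.2 ⟨W, hW,
        (Set.Finite.mem_toFinset _).2 ⟨hO, e1⟩⟩)⟩, e1⟩)
    he hl0 hH (fun j O hO => mem_union_left _ (mem_union_left _ (mem_union_right _ hO)))
    (fun j k O hO => mem_union_left _ (mem_union_right _ (mem_biUnion.2 ⟨k, mem_univ k, hO⟩)))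
    h1 h2 h3 h4 fun F c j y hy => (hG F c j y hy).imp fun N hN D hD =>
      hN D fun k k1 k2 => (hD k k1 k2).mono hle
  exact ⟨N, hN, D, F, c, e1, e2, fun n => (e3 n).mono hle⟩

end

end Pool.Agent.Lib.MP_62d77c_ag.R
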