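import Pool.Agent.Lib.MP_62d77c_ag.R.N2
import Pool.Agent.Lib.MP_62d77c_ag.UFD
import Pool.Agent.Lib.MP_62d77c_ag.DerB

/-! The uniform trace ideal of rank one reflexive modules. -/

set_option autoImplicit false

namespace Pool.Agent.Lib.MP_62d77c_ag.R

open IsLocalRing MvPolynomial Pool.Agent.Lib.MP_a966df_ag RingTheory.Sequence

section fac
variable {S N : Type} [CommRing S] [AddCommGroup N] [Module S N]

theorem n3_fac_of_proj [Module.FinitePresentation S N] (T : Submonoid S)
    [Module.Projective (Localization T) (LocalizedModule T N)] : ∃ s ∈ T, Ann.Fac s N := by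
  obtain ⟨k, π, hπ⟩ := Module.Finite.exists_fin' S N
  obtain ⟨σ, hσ⟩ := Module.projective_lifting_property (LocalizedModule.map T π) LinearMap.id
    (LocalizedModule.map_surjective T π hπ)
  obtain ⟨α, s, hα⟩ := Module.FinitePresentation.exists_lift_of_isLocalizedModule T
    (LocalizedModule.mkLinearMap T (Fin k → S))
    (σ.restrictScalars S ∘ₗ LocalizedModule.mkLinearMap T N)
  obtain ⟨s', hs'⟩ := Module.Finite.exists_smul_of_comp_eq_of_isLocalizedModule T
    (LocalizedModule.mkLinearMap T N) (π ∘ₗ α) ((s : S) • LinearMap.id) (by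
      ext n
      have h1 := congrArg (LocalizedModule.map T π) (LinearMap.congr_fun hα n)
      have h2 := LinearMap.congr_fun hσ (LocalizedModule.mkLinearMap T N n)
      simp only [LinearMap.comp_apply, LinearMap.smul_apply, LinearMap.id_apply,
        LinearMap.restrictScalars_apply, Submonoid.smul_def, LinearMap.map_smul_of_tower,
        LocalizedModule.mkLinearMap_apply, LocalizedModule.map_mk] at h1 h2 ⊢
      rw [h1, h2])
  refine ⟨s' * s, mul_mem s'.2 s.2, Fin k → S, inferInstance, inferInstance, inferInstance,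
    (s' : S) • α, π, fun n => ?_⟩
  have := LinearMap.congr_fun hs' n
  simpa [Submonoid.smul_def, mul_smul] using this

/-- a module of maximal depth at a regular prime is free near it -/
theorem n3_fac_of_reg [IsNoetherianRing S] [Module.Finite S N] (n : Ideal S) [n.IsPrime]
    [IsRegularLocalRing (Localization.AtPrime n)] (rs : List S) (hm : ∀ r ∈ rs, r ∈ n)
    (hd : n.height = rs.length) (h : IsWeaklyRegular N rs) : ∃ s ∉ n, Ann.Fac s N := by
  have := Module.finitePresentation_of_finite S N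
  have h1 := h.of_isLocalizedModule (Localization.AtPrime n) n.primeCompl
    (LocalizedModule.mkLinearMap n.primeCompl N)
  have h2 : ringKrullDim (Localization.AtPrime n) = (rs.length : ℕ) := by
    rw [IsLocalization.AtPrime.ringKrullDim_eq_height n, hd]; rfl
  have h3 := Dp.of_reg (fun r hr => by
    obtain ⟨x, hx, rfl⟩ := List.mem_map.1 hr
    exact (IsLocalization.AtPrime.to_map_mem_maximal_iff _ n x).2 (hm x hx)) h1
  rw [List.length_map] at h3
  have := (ufd_ffr_of_reg _ h2 0 _ rfl _ h3).2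
  exact n3_fac_of_proj n.primeCompl

end fac

section frac
variable {R L : Type} [CommRing R] [Field L] [Algebra R L]

/-- the trace ideal of a fractional ideal -/
theorem n3_mem_mul {M : Submodule R L} (hM : M ≠ ⊥) (hf : ∀ z : L, ∃ a b : R,
    algebraMap R L b ≠ 0 ∧ z * algebraMap R L b = algebraMap R L a) {c : R} (h : Ann.Fac c M) :
    algebraMap R L c ∈ M * (1 / M) := by
  classical
  obtain ⟨P, _, _, hP, α, β, h⟩ := h
  obtain ⟨s, hs⟩ := Module.projective_def'.1 hP
  obtain ⟨m, hm, hm0⟩ := Submodule.exists_mem_ne_zero_of_ne_bot hM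
  let φ : P → M →ₗ[R] R := fun x => Finsupp.lapply x ∘ₗ s ∘ₗ α
  have h1 : ∀ x, algebraMap R L (φ x ⟨m, hm⟩) / m ∈ 1 / M := by
    intro x
    rw [Submodule.mem_div_iff_forall_mul_mem]
    intro z hz
    refine Submodule.mem_one.2 ⟨φ x ⟨z, hz⟩, ?_⟩
    obtain ⟨a, b, hb, e⟩ := hf (z / m)
    have h2 : b • (⟨z, hz⟩ : M) = a • ⟨m, hm⟩ := Subtype.ext (by
      simp only [Submodule.coe_smul, Algebra.smul_def]
      rw [← e]; field_simp)
    have h3 := congrArg (fun w => algebraMap R L (φ x w)) h2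
    simp only [map_smul, smul_eq_mul, map_mul] at h3
    rw [← e] at h3
    refine mul_left_cancel₀ hb (h3.trans ?_)
    field_simp
  have h4 := congrArg Subtype.val (h ⟨m, hm⟩)
  rw [← LinearMap.id_apply (R := R) (α ⟨m, hm⟩), ← hs, LinearMap.comp_apply,
    Finsupp.linearCombination_apply, Finsupp.sum, map_sum, AddSubmonoidClass.coe_finsetSum] at h4
  have h5 : algebraMap R L c =
      ∑ x ∈ (s (α ⟨m, hm⟩)).support, (β x : L) * (algebraMap R L (φ x ⟨m, hm⟩) / m) := by
    refine mul_right_cancel₀ hm0 ?_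
    rw [← Algebra.smul_def, Finset.sum_mul]
    refine h4.symm.trans (Finset.sum_congr rfl fun x _ => ?_)
    simp only [map_smul, id, Submodule.coe_smul, Algebra.smul_def, φ, LinearMap.comp_apply,
      Finsupp.lapply_apply]
    field_simp
  rw [h5]
  exact sum_mem fun x _ => Submodule.mul_mem_mul (β x).2 (h1 x)

/-- sections extend over subsets of codimension two -/
def S2 (M : Submodule R L) : Prop :=
  ∀ u v : R, (∀ 𝔮 : Ideal R, 𝔮.IsPrime → 𝔮.height = 1 → u ∈ 𝔮 → v ∉ 𝔮) →
    ∀ z : L, u • z ∈ M → v • z ∈ M → z ∈ M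

theorem S2.rp {S : Type} [CommRing S] [Algebra S R] [Algebra S L] [IsScalarTower S R L]
    {M : Submodule R L} (h : S2 M) {u v : S} (hu : algebraMap S L u ≠ 0)
    (huv : ∀ 𝔮 : Ideal R, 𝔮.IsPrime → 𝔮.height = 1 → algebraMap S R u ∈ 𝔮 →
      algebraMap S R v ∉ 𝔮) : Ann.RP M u v := by
  refine ⟨fun m e => Subtype.ext ?_, fun m m' e => ?_⟩
  · have := congrArg Subtype.val e
    simp only [Submodule.coe_smul_of_tower, Algebra.smul_def, Submodule.coe_zero] at this
    exact (mul_eq_zero.1 this).resolve_left hu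
  · have := congrArg Subtype.val e
    simp only [Submodule.coe_smul_of_tower, Algebra.smul_def] at this
    have h1 : algebraMap S L u * ((m : L) / algebraMap S L u) = m := by field_simp
    refine ⟨⟨m / algebraMap S L u, h _ _ huv _ ?_ ?_⟩, Subtype.ext ?_⟩
    · rw [algebraMap_smul, Algebra.smul_def, h1]; exact m.2
    · rw [algebraMap_smul, Algebra.smul_def, mul_div_assoc', this, mul_div_cancel_left₀ _ hu]
      exact m'.2
    · simp only [Submodule.coe_smul_of_tower, Algebra.smul_def, h1]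

/-- a pair in a prime of height two that lies in no prime of height at most one -/
theorem n3_pair {S : Type} [CommRing S] [IsDomain S] [IsNoetherianRing S] (n : Ideal S)
    [n.IsPrime] (h : 2 ≤ n.height) {u : S} (hu : u ≠ 0) :
    ∃ v ∈ n, ∀ 𝔭 : Ideal S, 𝔭.IsPrime → 𝔭.height ≤ 1 → u ∈ 𝔭 → v ∉ 𝔭 := by
  classical
  have hfin := Ideal.finite_minimalPrimes_of_isNoetherianRing S (Ideal.span {u})
  have h1 : ¬(n : Set S) ⊆ ⋃ 𝔭 ∈ (↑hfin.toFinset : Set (Ideal S)), (𝔭 : Set S) := by
    rw [Ideal.subset_union_prime (f := fun 𝔭 : Ideal S => 𝔭) ⊥ ⊥ fun 𝔭 h𝔭 _ _ =>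
      (hfin.mem_toFinset.1 h𝔭).1.1]
    rintro ⟨𝔭, h𝔭, hle⟩
    have h2 := hfin.mem_toFinset.1 h𝔭
    have h3 := (Ideal.height_mono hle).trans
      (Ideal.height_le_one_of_isPrincipal_of_mem_minimalPrimes _ _ h2)
    exact absurd (h.trans h3) (by decide)
  obtain ⟨v, hv, hv'⟩ := Set.not_subset.1 h1
  refine ⟨v, hv, fun 𝔭 h𝔭 hh hu' hv2 => hv' ?_⟩
  obtain ⟨𝔭', h2, hle⟩ := Ideal.exists_minimalPrimes_le
    ((Ideal.span_singleton_le_iff_mem 𝔭).2 hu')
  have := h2.1.1
  have h3 : 𝔭' = 𝔭 := by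
    by_contra hne
    have h4 := Ideal.height_strict_mono_of_isPrime (lt_of_le_of_ne hle hne)
    have h5 : 𝔭'.height = 0 := Order.lt_one_iff.1 (h4.trans_le hh)
    rw [Ideal.height_eq_zero_iff_eq_bot] at h5
    exact hu (by simpa [h5] using h2.1.2 (Ideal.subset_span rfl))
  exact Set.mem_biUnion (x := 𝔭) (by simpa [← h3] using h2) hv2

/-- a reflexive module is free over a Noether normalisation in codimension two -/
theorem n3_fac_S2 {S : Type} [CommRing S] [IsDomain S] [IsRegularRing S] [IsIntegrallyClosed S]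
    [Algebra S R] [Module.Finite S R] [FaithfulSMul S R] [FaithfulSMul R L] [Algebra S L]
    [IsScalarTower S R L] {M : Submodule R L} (hM : M.FG) (h : S2 M) (n : Ideal S) [n.IsPrime]
    (hn : n.height ≤ 2) : ∃ s ∉ n, Ann.Fac s M := by
  have : IsDomain R := (FaithfulSMul.algebraMap_injective R L).isDomain
  have : IsNoetherianRing R := IsNoetherianRing.of_finite S R
  have : Module.Finite R M := Module.Finite.iff_fg.2 hM
  have : Module.Finite S M := Module.Finite.trans R M
  have hi : ∀ u : S, u ≠ 0 → algebraMap S L u ≠ 0 := fun u hu e => hu (by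
    rw [IsScalarTower.algebraMap_apply S R L] at e
    simpa using e)
  by_cases h0 : n = ⊥
  · exact n3_fac_of_reg n [] (by simp) (by simp [h0]) (IsWeaklyRegular.nil _ _)
  obtain ⟨u, hu, hu0⟩ := Submodule.exists_mem_ne_zero_of_ne_bot h0
  by_cases h2 : 2 ≤ n.height
  · obtain ⟨v, hv, huv⟩ := n3_pair n h2 hu0
    refine n3_fac_of_reg n [u, v] (by simp [hu, hv]) (le_antisymm hn h2)
      (h.rp (hi u hu0) fun 𝔮 h𝔮 hh h3 => huv (𝔮.under S) inferInstance ?_ h3).reg
    rw [← hh, Ideal.height_eq_height_add_of_liesOver_of_hasGoingDown (𝔮.under S) 𝔮]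
    exact le_self_add
  · have h1 : n.height = 1 := by
      have h3 : n.height ≠ 0 := fun e => h0 (Ideal.height_eq_zero_iff_eq_bot.1 e)
      exact le_antisymm (Order.le_of_lt_add_one (not_le.1 h2)) (Order.one_le_iff_ne_zero.2 h3)
    refine n3_fac_of_reg n [u] (by simp [hu]) h1 ?_
    rw [isWeaklyRegular_singleton_iff]
    exact .of_right_eq_zero_of_smul
      (h.rp (v := 1) (hi u hu0) fun 𝔮 h𝔮 _ _ e => h𝔮.ne_top ((Ideal.eq_top_iff_one _).2
        (by simpa using e))).1

end frac

section der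
variable {B : Type} [CommRing B]

theorem n3_mk {K : Type} [Field K] {r : ℕ} {y : Fin r → K} {δ : Fin r → K → K}
    (h : ∀ (D : Derivation ℤ K K) (a : K), D a = ∑ i, D (y i) * δ i a) (d : K →+ K)
    (hd : ∀ a b, d (a * b) = a * d b + b * d a) (h0 : ∀ i, d (y i) = 0) (a : K) : d a = 0 := by
  refine (h (Derivation.mk' d.toIntLinearMap hd) a).trans (Finset.sum_eq_zero fun i _ => ?_)
  exact (congrArg (· * δ i a) (h0 i)).trans (zero_mul _)

theorem n3_dual {K : Type} [Field K] [Algebra B K] (δ : B →+ K)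
    (hδ : ∀ a b, δ (a * b) = algebraMap B K a * δ b + algebraMap B K b * δ a) :
    ∃ f : B →+* TrivSqZeroExt K K, (∀ x, (f x).fst = algebraMap B K x) ∧ ∀ x, (f x).snd = δ x := by
  have h1 : δ 1 = 0 := by simpa using hδ 1 1
  exact ⟨
    { toFun := fun x => (algebraMap B K x, δ x)
      map_one' := TrivSqZeroExt.ext (map_one _) h1
      map_zero' := TrivSqZeroExt.ext (map_zero _) (map_zero δ)
      map_add' := fun x y => TrivSqZeroExt.ext (map_add _ x y) (map_add δ x y)
      map_mul' := fun x y => TrivSqZeroExt.ext (map_mul _ x y) (by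
        simp [hδ, mul_comm]) }, fun _ => rfl, fun _ => rfl⟩

theorem n3_snd {K : Type} [Field K] (g : K →+* TrivSqZeroExt K K) (h1 : ∀ z, (g z).fst = z) :
    ∃ δ : K →+ K, (∀ a b, δ (a * b) = a * δ b + b * δ a) ∧ ∀ z, δ z = (g z).snd :=
  ⟨{  toFun := fun z => (g z).snd
      map_zero' := by simp
      map_add' := fun x y => by simp }, fun x y => by simp [h1, mul_comm], fun _ => rfl⟩

theorem n3_fst {K : Type} [Field K] :
    ∃ π : TrivSqZeroExt K K →+* K, (∀ z, π z = z.fst) ∧ ∀ z, π z ≠ 0 → IsUnit z :=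
  ⟨(TrivSqZeroExt.fstHom K K K).toRingHom, fun _ => rfl, fun _ h =>
    TrivSqZeroExt.isUnit_iff_isUnit_fst.2 (isUnit_iff_ne_zero.2 h)⟩

/-- a derivation into the residue field that kills the prime comes from the residue field -/
theorem n3_descend (P : Ideal B) [P.IsPrime] (δ : Derivation ℤ B P.ResidueField)
    (h : ∀ x ∈ P, δ x = 0) : ∃ δ' : P.ResidueField →+ P.ResidueField,
      (∀ a b, δ' (a * b) = a * δ' b + b * δ' a) ∧
      ∀ x, δ' (algebraMap B P.ResidueField x) = δ x := by
  obtain ⟨f, f1, f2⟩ := n3_dual (K := P.ResidueField) ⟨⟨δ, map_zero δ⟩, map_add δ⟩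
    fun a b => by simp [Algebra.smul_def]
  obtain ⟨π, hπ, hu⟩ := n3_fst (K := P.ResidueField)
  obtain ⟨g, hg⟩ : ∃ g : P.ResidueField →+* TrivSqZeroExt P.ResidueField P.ResidueField,
      ∀ x, g (algebraMap B P.ResidueField x) = f x :=
    ⟨_, Ideal.ResidueField.lift_algebraMap P f
      (fun x hx => TrivSqZeroExt.ext ((f1 x).trans (Ideal.algebraMap_residueField_eq_zero.2 hx))
        ((f2 x).trans (h x hx)))
      fun x hx => hu _ fun e => hx (Ideal.algebraMap_residueField_eq_zero.1
        ((f1 x).symm.trans ((hπ _).symm.trans e)))⟩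
  have h1 : π.comp g = RingHom.id _ := Ideal.ResidueField.ringHom_ext (RingHom.ext fun x => by
    simp only [RingHom.comp_apply, hg, hπ, f1, RingHom.id_apply])
  obtain ⟨δ', h2, h3⟩ := n3_snd g fun z => (hπ _).symm.trans (DFunLike.congr_fun h1 z)
  exact ⟨δ', h2, fun x => by rw [h3, hg, f2]; rfl⟩

/-- local parameters and lifts of a separating transcendence basis -/
theorem n3_der (p : ℕ) [Fact p.Prime] [Algebra (ZMod p) B] [Algebra.FiniteType (ZMod p) B]
    (P : Ideal B) [P.IsPrime] {e d : ℕ} (π : Fin e → B)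
    (hπ : ∀ i, π i ∈ P) (hP : ∀ x ∈ P, ∃ s ∉ P, s * x ∈ Ideal.span (Set.range π))
    (hd : Algebra.trdeg (ZMod p) P.ResidueField ≤ d) :
    ∃ a : Fin (e + d) → B, ∀ δ : Derivation ℤ B P.ResidueField, (∀ i, δ (a i) = 0) → δ = 0 := by
  have : Algebra.EssFiniteType (ZMod p) P.ResidueField := .comp _ B _
  obtain ⟨r, y, δ₀, hr, -, hD, -⟩ := der_dual p P.ResidueField
  have hrd : r ≤ d := by exact_mod_cast hr.trans_le hd
  have : CharP P.ResidueField p :=
    charP_of_injective_algebraMap (algebraMap (ZMod p) P.ResidueField).injective p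
  have h1 : ∀ z : P.ResidueField, ∃ b c : B, algebraMap B P.ResidueField c ≠ 0 ∧
      algebraMap B P.ResidueField b = z * algebraMap B P.ResidueField c ^ p := by
    intro z
    obtain ⟨b, c, hc, rfl⟩ := IsFractionRing.div_surjective (B ⧸ P) z
    obtain ⟨b, rfl⟩ := Ideal.Quotient.mk_surjective b
    obtain ⟨c, rfl⟩ := Ideal.Quotient.mk_surjective c
    have hc' := IsFractionRing.to_map_ne_zero_of_mem_nonZeroDivisors (K := P.ResidueField) hc
    obtain ⟨k, hk⟩ := Nat.exists_eq_succ_of_ne_zero (Fact.out : p.Prime).ne_zero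
    refine ⟨b * c ^ k, c, hc', ?_⟩
    simp only [Ideal.algebraMap_quotient_residueField_mk] at hc' ⊢
    rw [map_mul, map_pow]
    conv_rhs => rw [hk, pow_succ]
    field_simp
  choose b c hc hb using h1
  refine ⟨Fin.append π fun i => if h : i.1 < r then b (y ⟨i, h⟩) else 0, fun δ hδ => ?_⟩
  have h2 : ∀ x ∈ Ideal.span (Set.range π), δ x = 0 := by
    intro x hx
    obtain ⟨w, rfl⟩ := Ideal.mem_span_range_iff_exists_fun.1 hx
    rw [map_sum]
    refine Finset.sum_eq_zero fun i _ => ?_
    have := hδ (Fin.castAdd d i)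
    rw [Fin.append_left] at this
    rw [δ.leibniz, this, smul_zero, zero_add, Algebra.smul_def,
      Ideal.algebraMap_residueField_eq_zero.2 (hπ i), zero_mul]
  obtain ⟨δ', hL, hδ'⟩ := n3_descend P δ fun x hx => by
    obtain ⟨s, hs, h3⟩ := hP x hx
    have h4 := h2 _ h3
    rw [δ.leibniz, Algebra.smul_def, Algebra.smul_def,
      Ideal.algebraMap_residueField_eq_zero.2 hx, zero_mul, add_zero] at h4
    exact (mul_eq_zero.1 h4).resolve_left fun e => hs (Ideal.algebraMap_residueField_eq_zero.1 e)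
  have h5 : ∀ i, δ' (y i) = 0 := by
    intro i
    have := hδ (Fin.natAdd e ⟨i, i.2.trans_le hrd⟩)
    rw [Fin.append_right, dif_pos i.2, ← hδ', hb, hL, ← map_pow, hδ', δ.leibniz_pow,
      ← Nat.cast_smul_eq_nsmul P.ResidueField, CharP.cast_eq_zero, zero_smul, mul_zero, zero_add,
      map_pow] at this
    exact (mul_eq_zero.1 this).resolve_left (pow_ne_zero _ (hc _))
  ext x
  rw [← hδ']
  exact n3_mk hD δ' hL h5 _

/-- the residue field of a nonzero prime has smaller transcendence degree -/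
theorem n3_trdeg {F : Type} [Field F] [Algebra F B] {r : ℕ} {φ : MvPolynomial (Fin r) F →ₐ[F] B}
    (h : φ.toRingHom.Finite) (P : Ideal B) [P.IsPrime] :
    Algebra.trdeg F P.ResidueField ≤ r ∧
      (P.comap φ.toRingHom ≠ ⊥ → Algebra.trdeg F P.ResidueField < r) := by
  let π := IsScalarTower.toAlgHom F B P.ResidueField
  let x : Fin r → P.ResidueField := fun i => π (φ (X i))
  have h2 : aeval x = π.comp φ := by ext i; simp [x]
  have h3 : Algebra.IsAlgebraic (Algebra.adjoin F (Set.range x)) P.ResidueField := by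
    have h4 : ∀ b : B, IsAlgebraic (Algebra.adjoin F (Set.range x)) (π b) := by
      intro b
      obtain ⟨f, hf, e⟩ := h.to_isIntegral b
      let g : MvPolynomial (Fin r) F →+* Algebra.adjoin F (Set.range x) :=
        (π.comp φ).toRingHom.codRestrict _ fun y => by
          rw [Algebra.adjoin_range_eq_range_aeval, h2]
          exact ⟨y, rfl⟩
      refine IsIntegral.isAlgebraic ⟨f.map g, hf.map g, ?_⟩
      rw [Polynomial.eval₂_map]
      have := congrArg π.toRingHom e
      rw [Polynomial.hom_eval₂, map_zero] at this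
      exact this
    refine ⟨fun z => ?_⟩
    obtain ⟨b, c, hc, rfl⟩ := IsFractionRing.div_surjective (B ⧸ P) z
    obtain ⟨b, rfl⟩ := Ideal.Quotient.mk_surjective b
    obtain ⟨c, rfl⟩ := Ideal.Quotient.mk_surjective c
    rw [div_eq_mul_inv]
    exact (h4 b).mul (h4 c).inv
  refine ⟨(Algebra.IsAlgebraic.trdeg_le_cardinalMk F (Set.range x)).trans
    (Cardinal.mk_range_le.trans (by simp)), fun h0 => lt_of_not_ge fun hle => h0 ?_⟩
  have h5 := (Algebra.IsAlgebraic.isTranscendenceBasis_of_le_trdeg_of_finite F x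
    (by simpa using hle)).1
  rw [algebraicIndependent_iff_injective_aeval, h2, injective_iff_map_eq_zero] at h5
  exact eq_bot_iff.2 fun y hy => h5 y (Ideal.algebraMap_residueField_eq_zero.2 hy)

/-- a normal domain is smooth in codimension one -/
theorem n3_smooth (p : ℕ) [Fact p.Prime] [IsDomain B] [IsIntegrallyClosed B] [Algebra (ZMod p) B]
    {r : ℕ} {φ : MvPolynomial (Fin r) (ZMod p) →ₐ[ZMod p] B} (h : φ.toRingHom.Finite)
    (P : Ideal B) [P.IsPrime] (hP : P.height ≤ 1) :
    ∃ a : Fin r → B, ∀ δ : Derivation ℤ B P.ResidueField, (∀ i, δ (a i) = 0) → δ = 0 := by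
  let _ := φ.toRingHom.toAlgebra
  have : Module.Finite (MvPolynomial (Fin r) (ZMod p)) B := h
  have : IsScalarTower (ZMod p) (MvPolynomial (Fin r) (ZMod p)) B :=
    .of_algebraMap_eq fun c => (φ.commutes c).symm
  have : Algebra.FiniteType (ZMod p) B := .trans (S := MvPolynomial (Fin r) (ZMod p))
    inferInstance inferInstance
  have : IsNoetherianRing B := Algebra.FiniteType.isNoetherianRing (ZMod p) B
  by_cases h0 : P = ⊥
  · have := n3_der p P (e := 0) (d := r) Fin.elim0 (fun i => i.elim0)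
      (fun x hx => ⟨1, (Ideal.ne_top_iff_one P).1 Ideal.IsPrime.ne_top', by
        rw [h0] at hx; simp [show x = 0 from hx]⟩) (n3_trdeg h P).1
    rwa [zero_add] at this
  have h1 := (n3_trdeg h P).2 (Ideal.comap_ne_bot_of_integral_mem
    (Submodule.exists_mem_ne_zero_of_ne_bot h0).choose_spec.2
    (Submodule.exists_mem_ne_zero_of_ne_bot h0).choose_spec.1 (Algebra.IsIntegral.isIntegral _))
  obtain ⟨d, rfl⟩ : ∃ d, r = 1 + d := ⟨r - 1, by
    have : (0 : Cardinal) < r := lt_of_le_of_lt zero_le h1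
    have : 0 < r := by exact_mod_cast this
    omega⟩
  let O := Localization.AtPrime P
  have : IsIntegrallyClosed O :=
    isIntegrallyClosed_of_isLocalization O P.primeCompl P.primeCompl_le_nonZeroDivisors
  have : Ring.KrullDimLE 1 O := Ring.krullDimLE_iff.2 (by
    rw [IsLocalization.AtPrime.ringKrullDim_eq_height P]
    exact WithBot.coe_le_coe.2 hP)
  have h3 : IsIntegrallyClosed O ∧ ∀ Q : Ideal O, Q ≠ ⊥ → Q.IsPrime → Q = maximalIdeal O :=
    ⟨inferInstance, fun Q h4 h5 =>
      eq_maximalIdeal (Ring.krullDimLE_one_iff_of_noZeroDivisors.1 this Q h4 h5)⟩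
  obtain ⟨g, hg⟩ : (maximalIdeal O).IsPrincipal :=
    ((tfae_of_isNoetherianRing_of_isLocalRing_of_isDomain O).out 3 4).1 h3
  obtain ⟨⟨t, s⟩, ht⟩ := IsLocalization.surj P.primeCompl g
  refine n3_der p P (fun _ : Fin 1 => t) (fun _ => ?_) (fun x hx => ?_) ?_
  · rw [← IsLocalization.AtPrime.to_map_mem_maximal_iff O P, ← ht, hg]
    exact Ideal.mul_mem_right _ _ (Ideal.subset_span rfl)
  · have h6 : algebraMap B O x ∈ (Ideal.span (Set.range fun _ : Fin 1 => t)).map (algebraMap B O) := by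
      rw [← IsLocalization.AtPrime.to_map_mem_maximal_iff O P, hg] at hx
      obtain ⟨w, hw⟩ := Ideal.mem_span_singleton'.1 hx
      obtain ⟨u, hu⟩ := IsLocalization.map_units O s
      have : algebraMap B O x = w * ↑u⁻¹ * algebraMap B O t := by
        rw [← hw, ← ht, ← hu, mul_assoc, mul_left_comm (↑u⁻¹ : O), Units.inv_mul, mul_one]
      rw [this]
      exact Ideal.mul_mem_left _ _ (Ideal.mem_map_of_mem _ (Ideal.subset_span ⟨0, rfl⟩))
    obtain ⟨m, hm, e⟩ := (IsLocalization.algebraMap_mem_map_algebraMap_iff P.primeCompl O _ x).1 h6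
    exact ⟨m, hm, e⟩
  · rw [add_comm, Nat.cast_succ] at h1
    exact Order.le_of_lt_succ (h1.trans_le (Cardinal.add_one_le_of_lt (Order.lt_succ _)))

end der

/-- N3: one element outside `P` lies in the trace ideals of all reflexive modules away from the
closed points -/
theorem n3_main (p : ℕ) [Fact p.Prime] {R L : Type} [CommRing R] [Field L] [Algebra R L]
    [IsFractionRing R L] [IsIntegrallyClosed R] [Algebra (ZMod p) R]
    {φ : MvPolynomial (Fin 3) (ZMod p) →ₐ[ZMod p] R} (h : φ.toRingHom.Finite)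
    (hi : Function.Injective φ) (P : Ideal R) [P.IsPrime] (hP : P.height ≤ 1) :
    ∃ c ∉ P, ∀ M : Submodule R L, M.FG → M ≠ ⊥ → S2 M → ∀ y : Ideal R, y.IsPrime → ¬y.IsMaximal →
      ∃ s ∉ y, algebraMap R L (s * c) ∈ M * (1 / M) := by
  have : IsDomain R := (FaithfulSMul.algebraMap_injective R L).isDomain
  obtain ⟨a, ha⟩ := n3_smooth p h P hP
  have hp : (p : R) = 0 := by rw [← map_natCast (algebraMap (ZMod p) R), ZMod.natCast_self, map_zero]
  obtain ⟨ψ, hψ, e, he, heP⟩ := n2_main p hp h P a fun δ _ => ha δ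
  let S := MvPolynomial (Fin 3) (ZMod p)
  let _ := ψ.toRingHom.toAlgebra
  have : Module.Finite S R := hψ
  have : FaithfulSMul S R := (faithfulSMul_iff_algebraMap_injective S R).2 (n2_inj h hi hψ)
  let _ : Algebra S L := ((algebraMap R L).comp (algebraMap S R)).toAlgebra
  have : IsScalarTower S R L := .of_algebraMap_eq fun _ => rfl
  refine ⟨_, heP, fun M hM hM0 hS y hy hy' => ?_⟩
  have h1 : (y.under S).height ≤ 2 := by
    have h2 : ¬(y.under S).IsMaximal := fun hm =>
      hy' (Ideal.isMaximal_of_isIntegral_of_isMaximal_comap y hm)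
    obtain ⟨m, hm, hle⟩ := Ideal.exists_le_maximal (y.under S) Ideal.IsPrime.ne_top'
    have h3 := Ideal.height_strict_mono_of_isPrime (lt_of_le_of_ne hle fun e => h2 (e ▸ hm))
    have h4 : (m.height : WithBot ℕ∞) ≤ ((3 : ℕ∞) : WithBot ℕ∞) := by
      refine (Ideal.height_le_ringKrullDim_of_ne_top hm.ne_top).trans (le_of_eq ?_)
      rw [MvPolynomial.ringKrullDim_of_isNoetherianRing, ringKrullDim_eq_zero_of_field]
      simp
    exact Order.le_of_lt_add_one (h3.trans_le (WithBot.coe_le_coe.1 h4))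
  obtain ⟨s, hs, hf⟩ := n3_fac_S2 (S := S) hM hS (y.under S) h1
  refine ⟨algebraMap S R s, hs, n3_mem_mul hM0 (fun z => ?_) (n2_avg he M s hf)⟩
  obtain ⟨b, c, hc, rfl⟩ := IsFractionRing.div_surjective R z
  have hc' := IsFractionRing.to_map_ne_zero_of_mem_nonZeroDivisors (K := L) hc
  exact ⟨b, c, hc', div_mul_cancel₀ _ hc'⟩

end Pool.Agent.Lib.MP_62d77c_ag.R
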