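import Pool.Agent.Lib.MP_62d77c_ag.R.N1d
import Pool.Agent.Lib.MP_62d77c_ag.R.N1e
import Pool.Agent.Lib.MP_62d77c_ag.R.N3
import Pool.Agent.Lib.MP_62d77c_ag.R.St

/-! The uniform trace ideal of a threefold has height at least two. -/

set_option autoImplicit false
set_option linter.unusedSectionVars false
set_option linter.unusedVariables false
set_option linter.style.haveILetI false

namespace Pool.Agent.Lib.MP_62d77c_ag.R

open Filter Polynomial Submodule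

noncomputable section

section aff
variable {p : ℕ} [Fact p.Prime] {L : Type} [Field L] [Algebra (ZMod p) L] {R : Subring L}

theorem n3g_noether (K B : Type) [Field K] [CommRing B] [IsDomain B] [Algebra K B]
    [Algebra.FiniteType K B] {n : ℕ} (h : Algebra.trdeg K B = n) :
    ∃ g : MvPolynomial (Fin n) K →ₐ[K] B, Function.Injective g ∧ g.toRingHom.Finite := by
  obtain ⟨s, g, hg, hf⟩ := exists_finite_inj_algHom_of_fg K B
  let P := MvPolynomial (Fin s) K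
  let _ : Algebra P B := g.toRingHom.toAlgebra
  have : IsScalarTower K P B := .of_algebraMap_eq fun c => (g.commutes c).symm
  have : Module.Finite P B := hf
  have : FaithfulSMul P B := (faithfulSMul_iff_algebraMap_injective P B).mpr hg
  have hs : s = n := by
    have h1 := trdeg_add_eq K P (A := B)
    rw [trdeg_eq_zero (R := P) (A := B), add_zero, h, MvPolynomial.trdeg_of_isDomain] at h1
    simpa using h1
  subst hs
  exact ⟨g, hg, hf⟩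

theorem Nrm.isFrac (h : Nrm R) : IsFractionRing R L := IsFractionRing.of_field _ _ fun z => by
  obtain ⟨a, ha, b, hb, -, e⟩ := h.frac z
  exact ⟨⟨a, ha⟩, ⟨b, hb⟩, e⟩

theorem Nrm.isClosed (h : Nrm R) : IsIntegrallyClosed R := by
  haveI := h.isFrac
  exact (isIntegrallyClosed_iff L).2 fun {z} hz => ⟨⟨z, h.cl z hz⟩, rfl⟩

theorem Nrm.s2 (h : Nrm R) (D : Dvs L) : S2 (Dv R D) := fun u v huv z h1 h2 =>
  h.mem_of_pair (x := u) (y := v) (fun O ⟨𝔮, k1, k2, k3⟩ => by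
    by_cases e : u ∈ 𝔮
    · exact Or.inr (k3.eq_one (huv 𝔮 k1 k2 e))
    · exact Or.inl (k3.eq_one e)) h1 h2

theorem Nrm.one_div_le (h : Nrm R) (D : Dvs L) : 1 / Dv R D ≤ Dv R (-D) := fun z hz =>
  h.mem_Dv_of_mul (D := D) fun w hw => by
    rw [add_neg_cancel, h.mem_Dv_zero]
    obtain ⟨r, hr⟩ := Submodule.mem_one.1 (Submodule.mem_div_iff_forall_mul_mem.1 hz w hw)
    exact hr ▸ r.2

/-- the uniform trace ideal of a chart -/
def TrA (R : Subring L) : Ideal R where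
  carrier := {c | ∀ (D : Dvs L) (𝔮 : Ideal R), 𝔮.IsPrime → ¬𝔮.IsMaximal →
    ∃ s ∉ 𝔮, ((s * c : R) : L) ∈ Dv R D * Dv R (-D)}
  zero_mem' := fun D 𝔮 h _ => ⟨1, fun e => h.ne_top ((Ideal.eq_top_iff_one _).2 e), by simp⟩
  add_mem' := fun {a b} ha hb D 𝔮 h h' => by
    obtain ⟨s, hs, e⟩ := ha D 𝔮 h h'
    obtain ⟨t, ht, e'⟩ := hb D 𝔮 h h'
    refine ⟨s * t, fun k => (h.mem_or_mem k).elim hs ht, ?_⟩
    have := add_mem (smul_mem _ t e) (smul_mem _ s e')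
    convert this using 1
    simp only [Subring.smul_def, smul_eq_mul]
    push_cast
    ring
  smul_mem' := fun r c hc D 𝔮 h h' => by
    obtain ⟨s, hs, e⟩ := hc D 𝔮 h h'
    refine ⟨s, hs, ?_⟩
    have := smul_mem _ r e
    convert this using 1
    simp only [Subring.smul_def, smul_eq_mul]
    push_cast
    ring

theorem NAff.charP (p : ℕ) [Fact p.Prime] (L : Type) [Field L] [Algebra (ZMod p) L] : CharP L p :=
  (CharP.charP_iff_prime_eq_zero Fact.out).2 (by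
    rw [← map_natCast (algebraMap (ZMod p) L), ZMod.natCast_self, map_zero])

/-- N3 for divisorial modules -/
theorem n3_Dv (h : NAff p R 3) (P : Ideal R) [P.IsPrime] (hP : P.height ≤ 1) : ¬TrA R ≤ P := by
  haveI := NAff.charP p L
  letI : Algebra (ZMod p) R := ZMod.algebra _ p
  haveI := n1c_ft (ZMod p) _ h.ft
  haveI := h.nrm.isFrac
  haveI := h.nrm.isClosed
  obtain ⟨φ, h1, h2⟩ := n3g_noether (ZMod p) R
    ((n1c_tr _ _ L (Subsingleton.elim _ _)).trans h.dim)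
  obtain ⟨c, hc, H⟩ := n3_main p (L := L) h2 h1 P hP
  refine fun hle => hc (hle fun D 𝔮 k1 k2 => ?_)
  obtain ⟨s, hs, e⟩ := H (Dv R D) (h.nrm.Dv_fg D) (fun e => by
    obtain ⟨c, -, c0, k⟩ := h.nrm.Dv_ne D
    exact c0 (by rwa [e] at k)) (h.nrm.s2 D) 𝔮 k1 k2
  exact ⟨s, hs, mul_le_mul_right (h.nrm.one_div_le D) _ e⟩

theorem NAff.height_max {r : ℕ} (h : NAff p R r) (𝔪 : Ideal R) [𝔪.IsMaximal] : 𝔪.height = r := by
  haveI := NAff.charP p L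
  letI : Algebra (ZMod p) R := ZMod.algebra _ p
  haveI := n1c_ft (ZMod p) _ h.ft
  haveI := h.nrm.isFrac
  letI := Ideal.Quotient.field 𝔪
  haveI := finite_of_finite_type_of_isJacobsonRing (ZMod p) (R ⧸ 𝔪)
  have := n1h_dim (K := ZMod p) ((n1c_tr _ _ L (Subsingleton.elim _ _)).trans h.dim) 𝔪 (s := 0)
    (by rw [Nat.cast_zero]; exact trdeg_eq_zero)
  simpa using this

end aff

variable {A : Type} [CommRing A] [IsDomain A] {𝒜 : ℕ → AddSubgroup A} [GradedRing 𝒜]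
  [hG : Fact (Gen 𝒜)] {p : ℕ} [Fact p.Prime]

namespace Mo

variable (X : Mo 𝒜 p) {l : A} {D : Dvs X.L}

/-- an ideal of the chart that lies in no prime over `y` contains a function that is a unit at
`y` -/
theorem exists_over (hl : l ∈ 𝒜 1) {y : Pt 𝒜} (hy : pr X.x.1 ≤ pr y) (h0 : l ∉ pr y)
    (I : Ideal (X.ch l)) (h : ∀ (𝔮 : Ideal (X.ch l)) (O : ValuationSubring X.L), 𝔮.IsPrime →
      X.Cen O y → Ctr (X.ch l) O 𝔮 → ¬I ≤ 𝔮) :
    ∃ n, ∃ b, ∃ hb : b ∈ 𝒜 n, b ∉ pr y ∧ (⟨_, X.B_le_ch (X.div_mem_B hl hb)⟩ : X.ch l) ∈ I := by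
  by_contra hc
  push Not at hc
  have hon := X.on_iff.2 hy
  have l0 : l ∉ pr X.x.1 := fun e => h0 (hy e)
  haveI := X.M.orng_local hon
  letI := (Subring.inclusion (X.B_le_ch (l := l))).toAlgebra
  haveI : Module.Finite (X.B l) (X.ch l) := X.ch_finite hl l0
  let P : Ideal (X.B l) :=
    (IsLocalRing.maximalIdeal (X.M.orng y)).comap (Subring.inclusion (B_le_orng h0))
  have hP : ∀ n a (ha : a ∈ 𝒜 n), (⟨_, X.div_mem_B hl ha⟩ : X.B l) ∈ P ↔ a ∈ pr y :=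
    fun n a ha => by
      have := X.M.isUnit_orng hon ha (md_pow_mem hl n) (md_pow_not_mem h0 n)
      rw [Ideal.mem_comap, IsLocalRing.mem_maximalIdeal, mem_nonunits_iff, ← not_not (a := a ∈ _),
        ← this]
      refine not_congr (iff_of_eq (congrArg IsUnit (Subtype.ext ?_)))
      change X.θ a / X.θ l ^ n = X.θ a / X.θ (l ^ n)
      rw [map_pow]
  obtain ⟨𝔮, h1, h2, h3⟩ := Ideal.exists_ideal_over_prime_of_isIntegral P I (by
    rintro ⟨z, hz⟩ k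
    obtain ⟨n, a, ha, rfl⟩ := (X.mem_B hl l0).1 hz
    by_contra k'
    exact hc n a ha (fun e => k' ((hP n a ha).2 e)) k)
  obtain ⟨O, hO⟩ := exists_ctr 𝔮 h2
  refine h 𝔮 O h2 (cen_of hy hl h0 fun n a ha => ?_) hO h1
  have := hO ⟨_, X.B_le_ch (X.div_mem_B hl ha)⟩
  refine ⟨this.1, this.2.symm.trans ?_⟩
  rw [← hP n a ha, ← h3]
  rfl

theorem fmul_th {F F' : X.Fa} (hF : ∀ n i, ∀ a ∈ 𝒜 i, ∀ z ∈ F n, X.θ a * z ∈ F (n + i))
    {n i : ℕ} {a : A} (ha : a ∈ 𝒜 i) {z : X.L} (hz : z ∈ fmul F F' n) :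
    X.θ a * z ∈ fmul F F' (n + i) := by
  induction hz using span_induction with
  | mem z hz =>
    obtain ⟨j, k, rfl, u, hu, v, hv, rfl⟩ := hz
    exact subset_span ⟨j + i, k, by omega, _, hF j i a ha u hu, v, hv, (mul_assoc _ _ _).symm⟩
  | zero => simp
  | add z w _ _ h1 h2 => rw [mul_add]; exact add_mem h1 h2
  | smul c z _ h1 => rw [mul_smul_comm]; exact smul_mem _ c h1

theorem tr_th (D E : Dvs X.L) {n i : ℕ} {a : A} (ha : a ∈ 𝒜 i) {z : X.L}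
    (hz : z ∈ fmul (X.MD D) (X.MD E) n) : X.θ a * z ∈ fmul (X.MD D) (X.MD E) (n + i) :=
  X.fmul_th (fun n i a ha z hz => by rw [add_comm]; exact X.th_mul_mem ha hz) ha hz

theorem mul_Dv_ch (hl : l ∈ 𝒜 1) (h0 : l ∉ pr X.x.1) (D E : Dvs X.L) {z : X.L}
    (hz : z ∈ Dv (X.ch l) D * Dv (X.ch l) E) :
    ∃ n, X.θ l ^ n * z ∈ fmul (X.MD D) (X.MD E) n := by
  refine Submodule.mul_induction_on hz (fun u hu v hv => ?_) fun u v h1 h2 => ?_
  · obtain ⟨i, hi⟩ := (X.mem_Dv_ch hl h0).1 hu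
    obtain ⟨j, hj⟩ := (X.mem_Dv_ch hl h0).1 hv
    exact ⟨i + j, subset_span ⟨i, j, rfl, _, hi, _, hj, by ring⟩⟩
  · obtain ⟨i, hi⟩ := h1
    obtain ⟨j, hj⟩ := h2
    have a1 := X.tr_th D E (md_pow_mem hl j) hi
    have a2 := X.tr_th D E (md_pow_mem hl i) hj
    rw [add_comm] at a2
    refine ⟨i + j, ?_⟩
    convert add_mem a1 a2 using 1
    simp only [map_pow]
    ring

/-- membership of `a / ell ^ e` in the stalk of the trace ideal -/
def TrAt (D : Dvs X.L) (y : Pt 𝒜) (a : A) (e : ℕ) : Prop :=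
  X.θ a / X.θ (ell y) ^ e ∈ X.stk (fmul (X.MD D) (X.MD (-D))) y

theorem trAt_iff {y : Pt 𝒜} {a : A} {e : ℕ} : X.TrAt D y a e ↔
    ∃ k, ∃ s ∈ 𝒜 k, s ∉ pr y ∧ X.θ s * X.θ a ∈ fmul (X.MD D) (X.MD (-D)) (e + k) := by
  by_cases hy : pr X.x.1 ≤ pr y
  · have l0 := pow_ne_zero e (X.ell_ne hy)
    constructor
    · rintro ⟨k, s, hs, h1, h2⟩
      have := X.tr_th _ _ (md_pow_mem (ell_spec y).1 e) h2
      rw [map_pow, ← mul_div_assoc, mul_div_cancel₀ _ l0, add_comm] at this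
      exact ⟨k, s, hs, h1, this⟩
    · rintro ⟨k, s, hs, h1, h2⟩
      refine ⟨e + k, ell y ^ e * s, SetLike.mul_mem_graded (md_pow_mem (ell_spec y).1 e) hs,
        md_mul_not_mem (md_pow_not_mem (ell_spec y).2 e) h1, ?_⟩
      convert h2 using 1
      rw [map_mul, map_pow]
      field_simp
  · obtain ⟨k, t, ht, h1, h2⟩ := st_off X hy
    refine iff_of_true ?_ ⟨k, t, ht, h1, by rw [h2, zero_mul]; exact zero_mem _⟩
    rw [TrAt, stk_off X _ hy]; trivial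

variable {X}

theorem TrAt.mul {y : Pt 𝒜} {a b : A} {e f : ℕ} (h : X.TrAt D y a e) (hb : b ∈ 𝒜 f) :
    X.TrAt D y (a * b) (e + f) := by
  obtain ⟨k, s, hs, h1, h2⟩ := X.trAt_iff.1 h
  refine X.trAt_iff.2 ⟨k, s, hs, h1, ?_⟩
  have := X.tr_th _ _ hb h2
  rw [add_right_comm] at this
  convert this using 1
  rw [map_mul]; ring

theorem TrAt.add {y : Pt 𝒜} {a b : A} {e : ℕ} (h : X.TrAt D y a e) (h' : X.TrAt D y b e) :
    X.TrAt D y (a + b) e := by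
  obtain ⟨k, s, hs, h1, h2⟩ := X.trAt_iff.1 h
  obtain ⟨k', s', hs', h1', h2'⟩ := X.trAt_iff.1 h'
  refine X.trAt_iff.2 ⟨k + k', s * s', SetLike.mul_mem_graded hs hs', md_mul_not_mem h1 h1', ?_⟩
  have a1 := X.tr_th _ _ hs' h2
  have a2 := X.tr_th _ _ hs h2'
  rw [add_assoc] at a1
  rw [add_assoc, add_comm k' k] at a2
  convert add_mem a1 a2 using 1
  rw [map_mul, map_add]; ring

theorem TrAt.of_zero {y : Pt 𝒜} {a : A} (e : ℕ) (h : X.θ a = 0) : X.TrAt D y a e :=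
  X.trAt_iff.2 ⟨0, 1, SetLike.one_mem_graded 𝒜, md_one_not_mem y, by
    rw [h, mul_zero]; exact zero_mem _⟩

theorem Tr.mul {a b : A} {e f : ℕ} (h : X.Tr a e) (hb : b ∈ 𝒜 f) : X.Tr (a * b) (e + f) :=
  ⟨SetLike.mul_mem_graded h.1 hb, fun D y hy => TrAt.mul (h.2 D y hy) hb⟩

theorem Tr.add {a b : A} {e : ℕ} (h : X.Tr a e) (h' : X.Tr b e) : X.Tr (a + b) e :=
  ⟨add_mem h.1 h'.1, fun D y hy => TrAt.add (h.2 D y hy) (h'.2 D y hy)⟩

theorem Tr.of_mem {a : A} {e : ℕ} (ha : a ∈ 𝒜 e) (h : a ∈ pr X.x.1) : X.Tr a e :=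
  ⟨ha, fun D y _ => TrAt.of_zero e ((X.ker e a ha).2 h)⟩

variable (X)

theorem trAt_of_trA (hl : l ∈ 𝒜 1) {a : A} {e : ℕ} (ha : a ∈ 𝒜 e)
    (h : (⟨_, X.B_le_ch (X.div_mem_B hl ha)⟩ : X.ch l) ∈ TrA (X.ch l)) (D : Dvs X.L)
    (y : Vp 𝒜 p) (hy : 1 ≤ dm y) (h0 : l ∉ pr y.1) : X.TrAt D y.1 a e := by
  by_cases hx : pr X.x.1 ≤ pr y.1
  swap
  · rw [TrAt, stk_off X _ hx]; trivial
  have l0 : l ∉ pr X.x.1 := fun e => h0 (hx e)
  let c : X.ch l := ⟨_, X.B_le_ch (X.div_mem_B hl ha)⟩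
  let I : Ideal (X.ch l) := (Dv (X.ch l) D * Dv (X.ch l) (-D)).comap
    (LinearMap.toSpanSingleton (X.ch l) X.L (c : X.L))
  obtain ⟨n, b, hb, h1, h2⟩ := X.exists_over hl hx h0 I fun 𝔮 O k1 k2 k3 hle => by
    obtain ⟨s, hs, e⟩ := h D 𝔮 k1 fun hm => by
      have e1 := height_ctr hl h0 k2 k3
      rw [(X.naff_ch hl l0).height_max 𝔮] at e1
      norm_cast at e1
      omega
    exact hs (hle e)
  obtain ⟨m, hm⟩ := X.mul_Dv_ch hl l0 D (-D) h2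
  have a1 := X.tr_th _ _ (md_pow_mem hl (n + e)) hm
  refine X.trAt_iff.2 ⟨n + m, b * l ^ m, SetLike.mul_mem_graded hb (md_pow_mem hl m),
    md_mul_not_mem h1 (md_pow_not_mem h0 m), ?_⟩
  rw [show m + (n + e) = e + (n + m) by ring] at a1
  convert a1 using 1
  have := X.th_ne hl l0
  change _ = _ * (_ * (X.θ b / X.θ l ^ n * (X.θ a / X.θ l ^ e)))
  rw [map_mul, map_pow, map_pow]
  field_simp
  ring

theorem exists_trA (hx : dm X.x = 3) (hl : l ∈ 𝒜 1) (W : Vp 𝒜 p) (hW : 2 ≤ dm W)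
    (hle : pr X.x.1 ≤ pr W.1) (h0 : l ∉ pr W.1) : ∃ e, ∃ a ∈ 𝒜 e, a ∉ pr W.1 ∧
      ∀ (D : Dvs X.L) (y : Vp 𝒜 p), 1 ≤ dm y → l ∉ pr y.1 → X.TrAt D y.1 a e := by
  have l0 : l ∉ pr X.x.1 := fun e => h0 (hle e)
  obtain ⟨e, a, ha, h1, h2⟩ := X.exists_over hl hle h0 (TrA (X.ch l)) fun 𝔮 O k1 k2 k3 => by
    refine n3_Dv (hx ▸ X.naff_ch hl l0) 𝔮 ?_
    have e1 := height_ctr hl h0 k2 k3
    obtain ⟨t, ht⟩ := ENat.ne_top_iff_exists.1 (show 𝔮.height ≠ ⊤ from fun e => by simp [e] at e1)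
    rw [← ht] at e1 ⊢
    norm_cast at e1 ⊢
    omega
  exact ⟨e, a, ha, h1, X.trAt_of_trA hl ha h2⟩

end Mo

/-- N3: the trace ideal lies in no prime of dimension at least two -/
theorem exists_tr_one (X : Mo 𝒜 p) (hx : dm X.x = 3) (W : Vp 𝒜 p) (hW : 2 ≤ dm W) :
    ∃ a e, X.Tr a e ∧ a ∉ pr W.1 := by
  classical
  by_cases hle : pr X.x.1 ≤ pr W.1
  swap
  · obtain ⟨k, t, ht, h1, h2⟩ := md_exists_not_mem (pr_hom X.x.1) hle
    exact ⟨t, k, Mo.Tr.of_mem ht h1, h2⟩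
  obtain ⟨s, hs, hc⟩ := n1d_gens 𝒜
  have key : ∀ t : Finset A, (∀ l ∈ t, l ∈ 𝒜 1 ∧ l ∉ pr W.1) → ∃ e, ∃ a ∈ 𝒜 e, a ∉ pr W.1 ∧
      ∀ l ∈ t, ∀ (D : Dvs X.L) (y : Vp 𝒜 p), 1 ≤ dm y → l ∉ pr y.1 → X.TrAt D y.1 a e := by
    intro t ht
    induction t using Finset.induction_on with
    | empty => exact ⟨0, 1, SetLike.one_mem_graded 𝒜, md_one_not_mem _, by simp⟩
    | insert l t _ ih =>
      obtain ⟨e, a, ha, h1, h2⟩ := ih fun k hk => ht k (Finset.mem_insert_of_mem hk)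
      obtain ⟨k1, k2⟩ := ht l (Finset.mem_insert_self _ _)
      obtain ⟨f, b, hb, h3, h4⟩ := X.exists_trA hx k1 W hW hle k2
      refine ⟨e + f, a * b, SetLike.mul_mem_graded ha hb, md_mul_not_mem h1 h3,
        fun k hk D y hy h5 => ?_⟩
      rcases Finset.mem_insert.1 hk with rfl | hk
      · rw [mul_comm, add_comm]; exact (h4 D y hy h5).mul ha
      · exact (h2 k hk D y hy h5).mul hb
  obtain ⟨e, a, ha, h1, h2⟩ := key (insert (ell W.1)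
    (s.image fun l => if l ∈ pr W.1 then l + ell W.1 else l)) fun l hl => by
      rcases Finset.mem_insert.1 hl with rfl | hl
      · exact ell_spec _
      · obtain ⟨k, hk, rfl⟩ := Finset.mem_image.1 hl
        split_ifs with e
        · exact ⟨add_mem (hs k hk) (ell_spec _).1, fun c => (ell_spec W.1).2 (by
            simpa using sub_mem c e)⟩
        · exact ⟨hs k hk, e⟩
  refine ⟨a, e, ⟨ha, fun D y hy => ?_⟩, h1⟩
  by_cases e1 : ell W.1 ∈ pr y.1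
  · obtain ⟨l, hl, h3⟩ := hc y.1
    refine h2 _ (Finset.mem_insert_of_mem (Finset.mem_image_of_mem _ hl)) D y hy ?_
    split_ifs with e
    · exact fun c => h3 (by simpa using sub_mem c e1)
    · exact h3
  · exact h2 _ (Finset.mem_insert_self _ _) D y hy e1

/-- the uniform trace ideal -/
def Mo.TrI (X : Mo 𝒜 p) : Ideal A := Ideal.span {a | ∃ e, X.Tr a e}

theorem Mo.trI_hom (X : Mo 𝒜 p) : X.TrI.IsHomogeneous 𝒜 :=
  Ideal.homogeneous_span 𝒜 _ fun a ⟨e, h⟩ => ⟨e, h.1⟩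

theorem Mo.mem_trI (X : Mo 𝒜 p) {a : A} {e : ℕ} (ha : a ∈ 𝒜 e) : a ∈ X.TrI ↔ X.Tr a e := by
  refine ⟨fun h => ?_, fun h => Ideal.subset_span ⟨e, h⟩⟩
  have z0 : ∀ m, X.Tr 0 m := fun m => Mo.Tr.of_mem (zero_mem _) (zero_mem _)
  have key : ∀ a ∈ X.TrI, ∀ (c : A) (m : ℕ), X.Tr (GradedRing.proj 𝒜 m (c * a)) m := by
    intro a ha
    induction ha using Submodule.span_induction with
    | mem z hz =>
      obtain ⟨i, hi⟩ := hz
      intro c m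
      by_cases him : i ≤ m
      · obtain ⟨j, rfl⟩ := Nat.exists_eq_add_of_le' him
        rw [md_proj_mul hi.1, mul_comm, add_comm]
        exact hi.mul (md_proj_mem j c)
      · rw [md_proj_mul_lt hi.1 him]; exact z0 m
    | zero => intro c m; simpa using z0 m
    | add z u _ _ h1 h2 => intro c m; rw [mul_add, map_add]; exact (h1 c m).add (h2 c m)
    | smul d z _ h1 => intro c m; rw [smul_eq_mul, ← mul_assoc]; exact h1 _ m
  have := key a h 1 e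
  rwa [one_mul, md_proj_same ha] at this

theorem Mo.le_trI (X : Mo 𝒜 p) : pr X.x.1 ≤ X.TrI :=
  md_le_of_hom (pr_hom _) fun n a ha h => (X.mem_trI ha).2 (Mo.Tr.of_mem ha h)

theorem trI_not_le (X : Mo 𝒜 p) (hx : dm X.x = 3) (W : Vp 𝒜 p) (hW : 2 ≤ dm W) :
    ¬X.TrI ≤ pr W.1 := fun h => by
  obtain ⟨a, e, h1, h2⟩ := exists_tr_one X hx W hW
  exact h2 (h ((X.mem_trI h1.1).2 h1))

theorem exists_tr_finite (X : Mo 𝒜 p) (hx : dm X.x = 3) (Z : Finset (Vp 𝒜 p))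
    (hZ : ∀ W ∈ Z, 2 ≤ dm W) : ∀ᶠ e in atTop, ∃ a, X.Tr a e ∧ ∀ W ∈ Z, a ∉ pr W.1 := by
  classical
  filter_upwards [avoid X.trI_hom (Z.image Subtype.val) fun y hy => by
    obtain ⟨W, hW, rfl⟩ := Finset.mem_image.1 hy
    exact trI_not_le X hx W (hZ W hW)] with e ⟨a, h1, h2, h3⟩
  exact ⟨a, (X.mem_trI h2).1 h1, fun W hW => h3 _ (Finset.mem_image_of_mem _ hW)⟩

theorem exists_tr (X : Mo 𝒜 p) (h3 : dm X.x = 3) (s : Finset (Vp 𝒜 p)) (hs : ∀ y ∈ s, 2 ≤ dm y) :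
    ∃ (e : ℕ) (a : A), X.Tr a e ∧ ∀ y ∈ s, a ∉ pr y.1 := (exists_tr_finite X h3 s hs).exists

/-- the surfaces on `X` inside a hypersurface -/
theorem finite_surf (X : Mo 𝒜 p) (hx : dm X.x = 3) {e : ℕ} {a : A} (ha : a ∈ 𝒜 e)
    (h0 : a ∉ pr X.x.1) : {W : Vp 𝒜 p | 2 ≤ dm W ∧ pr X.x.1 ≤ pr W.1 ∧ a ∈ pr W.1}.Finite := by
  refine ((pd_fin X ha (X.th_ne ha h0)).image X.cen).subset fun W ⟨h1, h2, h3⟩ => ?_
  have := dm_lt (lt_of_le_of_ne h2 fun e => h0 (e ▸ h3))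
  obtain ⟨O, hO, rfl⟩ := X.exists_PD h2 (by omega)
  exact ⟨O, ⟨hO, h3⟩, rfl⟩

/-- two forms of the trace ideal that meet in dimension at most one -/
theorem exists_tr_pair (X : Mo 𝒜 p) (hx : dm X.x = 3) : ∀ᶠ e in atTop, ∃ a₁ a₂, X.Tr a₁ e ∧
    X.Tr a₂ e ∧ a₁ ∉ pr X.x.1 ∧ a₂ ∉ pr X.x.1 ∧
    ∀ W : Vp 𝒜 p, 2 ≤ dm W → pr X.x.1 ≤ pr W.1 → a₁ ∈ pr W.1 → a₂ ∉ pr W.1 := by
  classical
  obtain ⟨b, f, hb, h0⟩ := exists_tr_one X hx X.x (by omega)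
  have hl := ell_spec X.x.1
  have h1 := md_mul_not_mem h0 hl.2
  have hf := finite_surf X hx (SetLike.mul_mem_graded hb.1 hl.1) h1
  filter_upwards [exists_tr_finite X hx (insert X.x hf.toFinset) (fun W hW => by
    rcases Finset.mem_insert.1 hW with rfl | hW
    · omega
    · exact (hf.mem_toFinset.1 hW).1), eventually_ge_atTop f] with e ⟨a, h2, h3⟩ he
  obtain ⟨k, rfl⟩ := Nat.exists_eq_add_of_le he
  refine ⟨b * ell X.x.1 ^ k, a, hb.mul (md_pow_mem hl.1 k), h2,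
    md_mul_not_mem h0 (md_pow_not_mem hl.2 k), h3 _ (Finset.mem_insert_self _ _),
    fun W k1 k2 k3 => h3 W (Finset.mem_insert_of_mem (hf.mem_toFinset.2 ⟨k1, k2, ?_⟩))⟩
  rcases W.1.isPrime.mem_or_mem k3 with c | c
  · exact Ideal.mul_mem_right _ _ c
  · exact Ideal.mul_mem_left _ _ (W.1.isPrime.mem_of_pow_mem k c)

end

end Pool.Agent.Lib.MP_62d77c_ag.R
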