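import Pool.Agent.Lib.MP_62d77c_ag.R.HBa
import Pool.Agent.Lib.MP_62d77c_ag.R.N
import Pool.Agent.Lib.MP_62d77c_ag.R.TR

/-! Slopes of divisors on surfaces are quasi-additive; bounds for systems on a pair. -/

set_option autoImplicit false
set_option linter.unusedSectionVars false

namespace Pool.Agent.Lib.MP_62d77c_ag.R

open Filter Polynomial Submodule

noncomputable section

variable {A : Type} [CommRing A] [IsDomain A] {𝒜 : ℕ → AddSubgroup A} [GradedRing 𝒜]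
  [hG : Fact (Gen 𝒜)] {p : ℕ} [Fact p.Prime]

namespace Sp

variable {X Y : Mo 𝒜 p} (S : Sp X Y)

include S in
theorem dm_two (h3 : dm X.x = 3) : dm Y.x = 2 := by
  have := S.dm_eq
  omega

include S in
theorem dimV_two (h3 : dm X.x = 3) : dimV Y.V = 2 := (br_dimV Y).trans (S.dm_two h3)

theorem hp_bar_mem (h3 : dm X.x = 3) (D : Dvs X.L) : hp (S.bar D) ∈ degreeLT ℚ 3 := by
  have := hp_mem_dim Y.n1q_mdl (S.ff_bar D).fg
  rwa [S.dimV_two h3] at this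

end Sp

theorem hb_top (X : Mo 𝒜 p) (h3 : dm X.x = 3) {O : ValuationSubring X.L} (h : O ∈ X.PD)
    (D : Dvs X.L) : X.hb O D ∈ degreeLT ℚ 3 ∧ (X.hb O D).coeff 2 = X.fdeg O * dg (X.cen O) := by
  obtain ⟨Y, S, rfl, hs⟩ := X.exists_sp h
  rw [← hp_bar, fdeg_eq S hs, S.cen, ← S.top_bar hs D, S.dm_two h3]
  exact ⟨S.hp_bar_mem h3 D, rfl⟩

namespace Sp

variable {X Y : Mo 𝒜 p} (S : Sp X Y)

theorem a2_bar (h3 : dm X.x = 3) (D : Dvs X.L) : a2 (S.bar D) = X.fdeg S.O * dg Y.x := by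
  rw [a2, hp_bar, (hb_top X h3 S.mem D).2, S.cen]

theorem a1_bar (D : Dvs X.L) : a1 (S.bar D) = X.fdeg S.O * X.sl S.O D := by
  rw [a1, hp_bar, Mo.sl, mul_div_cancel₀ _ (Nat.cast_pos.2 (fdeg_pos X S.mem)).ne']

theorem sl_eq (h3 : dm X.x = 3) (D : Dvs X.L) : X.sl S.O D = slp (S.bar D) * dg Y.x := by
  rw [slp, S.a1_bar, S.a2_bar h3, mul_div_mul_left _ _ (Nat.cast_pos.2 (fdeg_pos X S.mem)).ne',
    div_mul_cancel₀ _ (hb_dg_pos Y.x).ne']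

theorem hp_bar_sub (h3 : dm X.x = 3) (D : Dvs X.L) :
    hp (S.bar D) - hp (S.bar 0) ∈ degreeLT ℚ 2 :=
  (S.com_bar D).hp_sub Y.n1q_mdl (S.ff_bar 0).fg (S.ff_bar D).fg (S.hp_bar_mem h3 0)

/-- superadditivity up to a constant -/
theorem slp_add (h3 : dm X.x = 3) : ∃ B : ℚ, ∀ D D',
    slp (S.bar D) + slp (S.bar D') ≤ slp (S.bar (D + D')) + B := by
  have hV := Y.n1q_mdl
  have f := (S.ff_bar 0).fg
  have r := hb_rm (S.zero_mul_bar 0)
  have d := (natDegree_hp hV f (S.bar_ne 0).frequently).1.trans (S.dimV_two h3)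
  obtain ⟨B, hB⟩ := slp_prod hV f f f r r d d d
  exact ⟨B, fun D D' => (hB _ _ _ (S.ff_bar D).fg (S.ff_bar D').fg (S.ff_bar (D + D')).fg
    (hb_rm (S.zero_mul_bar D)) (hb_rm (S.zero_mul_bar D')) (S.hp_bar_sub h3 D)
    (S.hp_bar_sub h3 D') (S.hp_bar_sub h3 _)).1 (hb_pu f S.pow_le_bar)
    (Eventually.of_forall fun a => Eventually.of_forall fun n => add_comm a n ▸ S.bar_mul D D' a n)⟩

theorem fmul_le_bar (D D' : Dvs X.L) (n : ℕ) :
    Mo.fmul (S.bar D) (S.bar D') n ≤ S.bar (D + D') n :=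
  Mo.fmul_le.2 fun i j e => e ▸ S.bar_mul D D' i j

theorem zero_mul_fmul (D : Dvs X.L) (N : Y.Fa) (m n : ℕ) :
    S.bar 0 m * Mo.fmul (S.bar D) N n ≤ Mo.fmul (S.bar D) N (m + n) := by
  rw [mul_comm]
  refine Mo.fmul_mul_le.2 fun i j e => ?_
  rw [mul_comm, ← mul_assoc, ← e, ← add_assoc]
  exact (mul_le_mul' (S.zero_mul_bar D m i) le_rfl).trans (Mo.mul_le_fmul _ _ _ _)

/-- the trace element bounds the defect of `O(D) O(-D)` -/
theorem slp_trace (h3 : dm X.x = 3) : ∃ B : ℚ, ∀ D,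
    -B ≤ slp (Mo.fmul (S.bar D) (S.bar (-D))) := by
  have hV := Y.n1q_mdl
  have h2 := S.dimV_two h3
  obtain ⟨a, e, ht, ha⟩ := exists_tr_one X h3 Y.x (S.dm_two h3).ge
  have a0 := Y.th_ne ht.1 ha
  have f0 := S.ff_bar 0
  refine ⟨2 * e - slp (S.bar 0), fun D => ?_⟩
  set F := Mo.fmul (S.bar D) (S.bar (-D)) with hF
  have fF : Y.FF F := (S.ff_bar D).fmul (S.ff_bar (-D))
  have le0 : ∀ n, F n ≤ S.bar 0 n := fun n => by
    have := S.fmul_le_bar D (-D) n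
    rwa [add_neg_cancel] at this
  have fE : Y.FF fun n => F (n + e) :=
    ⟨fun n => by rw [add_right_comm]; exact fF.st _, fun n => fF.fd _, fF.fg.add e⟩
  have fG : Y.FF fun n => span (ZMod p) {Y.θ a} * S.bar 0 n :=
    ⟨fun n => by rw [mul_left_comm]; exact mul_le_mul' le_rfl (f0.st n),
      fun n => (fg_span_singleton _).mul (f0.fd n), sa_fg_span f0.fg _⟩
  have fH : Y.FF fun n => F (n + e) ⊔ span (ZMod p) {Y.θ a} * S.bar 0 n :=
    ⟨fun n => by rw [Submodule.mul_sup]; exact sup_le_sup (fE.st n) (fG.st n),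
      fun n => (fE.fd n).sup (fG.fd n), fE.fg.sup fG.fg⟩
  have sp : ∀ {n : ℕ} {v : Y.L}, v ∈ span (ZMod p) {Y.θ a} * S.bar 0 n →
      ∃ w ∈ S.bar 0 n, v = Y.θ a * w := fun {n v} hv => by
    rw [Submodule.span_singleton_mul] at hv
    obtain ⟨w, hw, rfl⟩ := hv
    exact ⟨w, hw, rfl⟩
  have d := Mo.hp_sub_of_stk fE fH (fun n => le_sup_left) (s := 1) fun y hy => by
    rintro z ⟨n, t, ht1, ht2, hz⟩
    obtain ⟨k, s, hs1, hs2, h1⟩ := X.trAt_iff.1 (ht.2 D y hy)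
    rw [← map_mul] at h1
    have h4 := (S.br_fmul h1).2
    rw [add_neg_cancel, S.br_ev_th (add_comm k e ▸ SetLike.mul_mem_graded hs1 ht.1)] at h4
    obtain ⟨u, hu, v, hv, e1⟩ := mem_sup.1 hz
    obtain ⟨w, hw, rfl⟩ := sp hv
    refine ⟨n + k, t * s, SetLike.mul_mem_graded ht1 hs1, md_mul_not_mem ht2 hs2, ?_⟩
    rw [map_mul, mul_right_comm, ← e1, add_mul, mul_comm u, mul_comm (Y.θ a), mul_assoc,
      mul_comm (Y.θ a), ← map_mul]
    change _ ∈ F (n + k + e)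
    rw [add_right_comm]
    exact add_mem (st_mul_mem Y fF hu hs1)
      (add_assoc n e k ▸ S.zero_mul_fmul D _ _ _ (mul_mem_mul hw h4))
  have m := (slp_mono hV h2 fG.fg fH.fg (Eventually.of_forall fun n => le_sup_right)
    (.of_mul (a := e) a0 fun n z hz => mul_mem_mul (mem_span_singleton_self _) (by
      obtain ⟨u, hu, v, hv, rfl⟩ := mem_sup.1 hz
      obtain ⟨w, hw, rfl⟩ := sp hv
      exact add_mem (le0 _ hu) (st_mul_mem Y f0 hw ht.1)))).2.2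
  have e1 := hilb_mem.1 d 1 le_rfl
  have e2 := hilb_mem.1 d 2 one_le_two
  rw [coeff_sub, sub_eq_zero] at e1 e2
  have s1 := (slp_shift hV h2 fF.fg (Mo.fmul_ne (S.ff_bar D) (S.ff_bar (-D))
    (S.bar_ne _).frequently (S.bar_ne _).frequently) (M := fun n => F (n + e)) one_ne_zero
    (a := e) (b := 0) (Eventually.of_forall fun n => by rw [← one_eq_span, one_mul]; rfl)).2.2
  unfold slp a1 a2 at m s1 ⊢
  rw [sa_hp_span a0, e1, e2, s1] at m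
  push_cast at m
  linarith

theorem slp_neg (h3 : dm X.x = 3) : ∃ B : ℚ, ∀ D, -B ≤ slp (S.bar D) + slp (S.bar (-D)) := by
  obtain ⟨B, hB⟩ := S.slp_trace h3
  have r := hb_rm (S.zero_mul_bar 0)
  obtain ⟨C, hC⟩ := Mo.slp_fmul (S.dimV_two h3) (S.ff_bar 0) (S.ff_bar 0) r r
    (S.bar_ne 0).frequently (S.bar_ne 0).frequently
  refine ⟨B + C, fun D => ?_⟩
  have := (abs_le.1 (hC _ _ (S.ff_bar D) (S.ff_bar (-D)) (hb_rm (S.zero_mul_bar _))
    (hb_rm (S.zero_mul_bar _)) (S.com_bar _) (S.com_bar _))).2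
  linarith [hB D]

theorem slp_quasi (h3 : dm X.x = 3) : ∃ c : ℚ, ∀ D D',
    |slp (S.bar (D + D')) - slp (S.bar D) - slp (S.bar D')| ≤ c := by
  obtain ⟨B, hB⟩ := S.slp_add h3
  obtain ⟨C, hC⟩ := S.slp_neg h3
  refine ⟨|B| + |C|, fun D D' => ?_⟩
  have h1 := hB (D + D') (-D')
  rw [add_neg_cancel_right] at h1
  exact abs_le.2 ⟨by linarith [hB D D', le_abs_self B, abs_nonneg C],
    by linarith [hC D', le_abs_self B, le_abs_self C]⟩

end Sp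

theorem sl_quasi (X : Mo 𝒜 p) (h3 : dm X.x = 3) {O : ValuationSubring X.L} (h : O ∈ X.PD) :
    ∃ c : ℚ, ∀ D D', |X.sl O (D + D') - X.sl O D - X.sl O D'| ≤ c := by
  obtain ⟨Y, S, rfl, -⟩ := X.exists_sp h
  obtain ⟨c, hc⟩ := S.slp_quasi h3
  refine ⟨c * dg Y.x, fun D D' => ?_⟩
  rw [S.sl_eq h3, S.sl_eq h3, S.sl_eq h3, ← sub_mul, ← sub_mul, abs_mul,
    abs_of_pos (hb_dg_pos Y.x)]
  exact mul_le_mul_of_nonneg_right (hc D D') (hb_dg_pos Y.x).le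

namespace Pair

variable {X X' : Mo 𝒜 p} (P : Pair X X')

theorem OT_mul_fmul (D : Dvs X.L) (D' : Dvs X'.L) (m n : ℕ) :
    P.OT m * Mo.fmul (P.S.bar D) (P.S'.bar D') n ≤ Mo.fmul (P.S.bar D) (P.S'.bar D') (m + n) :=
  Mo.fmul_mul_fmul (P.S.zero_mul_bar D) (P.S'.zero_mul_bar D') m n

theorem OT_deg (h3 : dm X.x = 3) : (hp P.OT).natDegree = 2 := P.br_OT_deg.trans (P.br_dm h3)

theorem hp_sub_OT (h3 : dm X.x = 3) {N : P.Y.Fa} (h : P.Y.FF N) (r : RM P.OT N)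
    (hne : ∃ᶠ n in atTop, N n ≠ ⊥) : hp N - hp P.OT ∈ degreeLT ℚ 2 :=
  P.OT_deg h3 ▸ rank_one P.Y.n1q_mdl P.br_OT_ff.fg P.br_OT_mul P.br_OT_pow P.br_OT_gen h.fg r hne

end Pair

namespace QSys

variable {X X' : Mo 𝒜 p} {P : Pair X X'} {Q : Dvs X.L → Dvs X'.L → P.Y.Fa} (hQ : QSys P Q)
include hQ

theorem mul_fmul (D E : Dvs X.L) (D' E' : Dvs X'.L) (n m : ℕ) :
    Q D D' n * Mo.fmul (P.S.bar E) (P.S'.bar E') m ≤ Q (D - E) (D' + E') (m + n) := by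
  rw [mul_comm]
  refine Mo.fmul_mul_le.2 fun i j e => ?_
  rw [mul_comm, ← mul_assoc, show m + n = n + i + j by omega]
  exact hQ.mul D D' E E' n i j

theorem rm (D : Dvs X.L) (D' : Dvs X'.L) : RM P.OT (Q D D') := hb_rm fun m n => by
  have := hQ.mul_fmul D 0 D' 0 n m
  rwa [sub_zero, add_zero, mul_comm] at this

theorem hp_sub (h3 : dm X.x = 3) (D : Dvs X.L) (D' : Dvs X'.L) :
    hp (Q D D') - hp P.OT ∈ degreeLT ℚ 2 :=
  P.hp_sub_OT h3 (hQ.ff D D') (hQ.rm D D') (hQ.ne D D').frequently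

/-- the slope of the system is superadditive up to a constant -/
theorem slp_add (h3 : dm X.x = 3) : ∃ B : ℚ, ∀ D D' E E',
    slp (Q D D') + slp (P.S.bar E) + slp (P.S'.bar E') ≤ slp (Q (D - E) (D' + E')) + B := by
  have hV := P.Y.n1q_mdl
  have f := P.br_OT_ff.fg
  have r := hb_rm P.br_OT_mul
  have d := P.OT_deg h3
  obtain ⟨B, hB⟩ := slp_prod hV f f f r r d d d
  obtain ⟨C, hC⟩ := Mo.slp_fmul (P.S.dimV_two h3) (P.S.ff_bar 0) (P.S'.ff_bar 0)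
    (hb_rm (P.S.zero_mul_bar 0)) (hb_rm (P.S'.zero_mul_bar 0))
    (P.S.bar_ne 0).frequently (P.S'.bar_ne 0).frequently
  refine ⟨B + C, fun D D' E E' => ?_⟩
  have fN := (P.S.ff_bar E).fmul (P.S'.ff_bar E')
  have rN := hb_rm (P.OT_mul_fmul E E')
  have h1 := (hB _ _ _ (hQ.ff D D').fg fN.fg (hQ.ff (D - E) (D' + E')).fg (hQ.rm D D') rN
    (hQ.hp_sub h3 D D') (P.hp_sub_OT h3 fN rN (Mo.fmul_ne (P.S.ff_bar E) (P.S'.ff_bar E')
      (P.S.bar_ne E).frequently (P.S'.bar_ne E').frequently)) (hQ.hp_sub h3 _ _)).1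
    (hb_pu f P.br_OT_pow)
    (Eventually.of_forall fun a => Eventually.of_forall fun n => hQ.mul_fmul D E D' E' a n)
  have h2 := (abs_le.1 (hC _ _ (P.S.ff_bar E) (P.S'.ff_bar E') (hb_rm (P.S.zero_mul_bar _))
    (hb_rm (P.S'.zero_mul_bar _)) (P.S.com_bar _) (P.S'.com_bar _))).1
  linarith

/-- the slope of the system -/
theorem slp_eq (h3 : dm X.x = 3) (h3' : dm X'.x = 3) : ∃ B : ℚ, ∀ D D',
    |slp (Q D D') + slp (P.S.bar D) - slp (P.S'.bar D')| ≤ B := by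
  obtain ⟨B, hB⟩ := hQ.slp_add h3
  obtain ⟨C, hC⟩ := P.S.slp_neg h3
  obtain ⟨C', hC'⟩ := P.S'.slp_neg h3'
  refine ⟨|slp (Q 0 0)| + |B| + |C| + |C'|, fun D D' => ?_⟩
  have h1 := hB D D' D (-D')
  have h2 := hB 0 0 (-D) D'
  rw [sub_self, add_neg_cancel] at h1
  rw [zero_sub, neg_neg, zero_add] at h2
  refine abs_le.2 ⟨?_, ?_⟩
  · linarith [hC D, neg_abs_le (slp (Q 0 0)), le_abs_self B, le_abs_self C, abs_nonneg C']
  · linarith [hC' D', le_abs_self (slp (Q 0 0)), le_abs_self B, le_abs_self C', abs_nonneg C]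

theorem a2_eq (h3 : dm X.x = 3) (D : Dvs X.L) (D' : Dvs X'.L) : a2 (Q D D') = a2 P.OT := by
  have := hilb_mem.1 (hQ.hp_sub h3 D D') 2 le_rfl
  rwa [coeff_sub, sub_eq_zero] at this

end QSys

theorem q_bound {X X' : Mo 𝒜 p} (h3 : dm X.x = 3) (h3' : dm X'.x = 3) (P : Pair X X')
    {Q : Dvs X.L → Dvs X'.L → P.Y.Fa} (hQ : QSys P Q) (c : ℚ) : ∃ B : ℚ, ∀ D D',
      |X.sl P.S.O D - X'.sl P.S'.O D'| ≤ c →
        |a1 (Q D D')| ≤ B ∧ (hp (Q D D')).eval 0 ≤ B := by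
  have hV := P.Y.n1q_mdl
  have g := hb_dg_pos P.Y.x
  have pos : 0 < a2 P.OT := s1_pos hV P.br_OT_ff.fg (d := 1) (P.OT_deg h3)
  obtain ⟨B, hB⟩ := hQ.slp_eq h3 h3'
  obtain ⟨C, hC⟩ := S1 hV P.br_OT_ff.fg (P.OT_deg h3) ((B + c / dg P.Y.x) * a2 P.OT)
  refine ⟨max ((B + c / dg P.Y.x) * a2 P.OT) C, fun D D' h => ?_⟩
  rw [P.S.sl_eq h3, P.S'.sl_eq h3', ← sub_mul, abs_mul, abs_of_pos g, ← le_div_iff₀ g] at h
  have h1 : |slp (Q D D')| ≤ B + c / dg P.Y.x := by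
    have h2 := abs_le.1 h
    have h4 := abs_le.1 (hB D D')
    exact abs_le.2 ⟨by linarith [h2.2, h4.1], by linarith [h2.1, h4.2]⟩
  rw [slp, hQ.a2_eq h3, abs_div, abs_of_pos pos, div_le_iff₀ pos] at h1
  refine ⟨h1.trans (le_max_left _ _), le_trans ?_ (le_max_right _ _)⟩
  rw [← coeff_zero_eq_eval_zero]
  exact hC _ (hQ.ff D D').fg (hQ.rm D D') (hQ.hp_sub h3 D D') h1

end

end Pool.Agent.Lib.MP_62d77c_ag.R
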