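import Pool.Agent.Lib.MP_62d77c_ag.R.GmA

/-! Sizes of graded pieces, prime filtrations, Hilbert polynomials. -/

set_option autoImplicit false
set_option linter.unusedSectionVars false
set_option linter.unusedVariables false
set_option linter.style.haveILetI false

namespace Pool.Agent.Lib.MP_62d77c_ag.R

open Filter Polynomial Submodule
open scoped TensorProduct Matrix

noncomputable section

variable {A : Type} [CommRing A] [IsDomain A] {𝒜 : ℕ → AddSubgroup A} [GradedRing 𝒜]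
  [hG : Fact (Gen 𝒜)] {p : ℕ} [Fact p.Prime] {N N' N₁ N₂ N₃ : GM 𝒜}

theorem gb_pj {d : ℤ} {m : N.M} (hm : m ∈ N.g d) (n : ℤ) (a : A) :
    N.pj n (a • m) = (show A from (one 𝒜).pj (n - d) a) • m := by
  induction a using (one 𝒜).ind with
  | h0 =>
    exact ((congrArg (N.pj n) (zero_smul A m)).trans (map_zero _)).trans
      ((congrArg (fun c : A => c • m) (map_zero _)).trans (zero_smul A m)).symm
  | hadd x y h1 h2 =>
    have e : (show A from (one 𝒜).pj (n - d) (x + y)) = (show A from (one 𝒜).pj (n - d) x) +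
      (show A from (one 𝒜).pj (n - d) y) := map_add _ _ _
    exact (congrArg (N.pj n) (add_smul (R := A) x y m)).trans (by
      rw [map_add, h1, h2, e, add_smul])
  | h k a ha =>
    by_cases e : k = n - d
    · subst e
      rw [(one 𝒜).pj_same ha, N.pj_same (by simpa using N.smul ha hm)]
    · rw [(one 𝒜).pj_ne ha e, N.pj_ne (N.smul ha hm) (by omega)]
      exact (zero_smul A m).symm

theorem gb_gens (N : GM 𝒜) : ∃ (β : Type) (_ : Fintype β) (m : β → N.M) (d : β → ℤ),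
    (∀ i, m i ∈ N.g (d i)) ∧ ∀ n, ∀ x ∈ N.g n, ∃ c : β → A, (∀ i, c i ∈ Az 𝒜 (n - d i)) ∧
      ∑ i, c i • m i = x := by
  obtain ⟨r, v, hv⟩ := Module.Finite.exists_fin (R := A) (M := N.M)
  choose s hs using fun i => N.sum_pj (v i)
  refine ⟨Σ i, s i, inferInstance, fun j => N.pj j.2 (v j.1), fun j => j.2,
    fun j => N.pj_mem _ _, fun n x hx => ?_⟩
  obtain ⟨c, hc⟩ := (mem_span_range_iff_exists_fun A).1 (hv ▸ mem_top (x := x))
  refine ⟨fun j => (one 𝒜).pj (n - j.2) (c j.1), fun j => (one 𝒜).pj_mem _ _, ?_⟩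
  rw [← N.pj_same hx, ← hc, map_sum, Fintype.sum_sigma]
  refine Finset.sum_congr rfl fun i _ => ?_
  conv_rhs => rw [← hs i, Finset.smul_sum, map_sum, ← Finset.sum_coe_sort]
  exact Finset.sum_congr rfl fun k _ => (gb_pj (N.pj_mem _ _) n _).symm

theorem gb_nsmul (h : N.Fb p) (n : ℤ) (x : N.g n) : p • x = 0 :=
  Subtype.ext ((Nat.cast_smul_eq_nsmul A p x.1).symm.trans (h x.1))

theorem finite_g (h : N.Fb p) (n : ℤ) : Finite (N.g n) := by
  obtain ⟨β, _, m, d, h1, h2⟩ := gb_gens N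
  haveI : ∀ k, Module.Finite ℤ (Az 𝒜 k) := fun k => by
    refine Module.Finite.iff_addGroup_fg.2 ((AddGroup.fg_iff_addSubgroup_fg _).2 ?_)
    unfold Az
    split_ifs
    · exact piece_fg _
    · exact ⟨∅, by simp⟩
  let φ : (∀ i, Az 𝒜 (n - d i)) →+ N.g n :=
    { toFun := fun c => ⟨∑ i, (c i : A) • m i,
        sum_mem fun i _ => by simpa using N.smul (c i).2 (h1 i)⟩
      map_zero' := Subtype.ext (by simp)
      map_add' := fun a b => Subtype.ext (by simp [add_smul, Finset.sum_add_distrib]) }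
  haveI : Module.Finite ℤ (N.g n) := Module.Finite.of_surjective φ.toIntLinearMap fun x => by
    obtain ⟨c, h3, h4⟩ := h2 n x.1 x.2
    exact ⟨fun i => ⟨c i, h3 i⟩, Subtype.ext h4⟩
  exact Module.finite_of_fg_torsion _ fun x => ⟨⟨(p : ℤ), mem_nonZeroDivisors_of_ne_zero
    (Nat.cast_ne_zero.2 (Fact.out : p.Prime).ne_zero)⟩, by
      simpa [Submonoid.smul_def] using gb_nsmul h n x⟩

theorem gb_sz {n : ℤ} {k : ℕ} (h : Nat.card (N.g n) = p ^ k) : N.sz p n = k := by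
  rw [GM.sz, h, padicValNat.prime_pow]

theorem gb_pow {G : Type} [AddCommGroup G] [Finite G] (h : ∀ x : G, p • x = 0) :
    ∃ k, Nat.card G = p ^ k := by
  letI : Module (ZMod p) G := AddCommGroup.zmodModule h
  exact ⟨_, (@Module.natCard_eq_pow_finrank (ZMod p) G _ _ _ Module.Finite.of_finite).trans
    (by rw [Nat.card_zmod])⟩

theorem card_g (h : N.Fb p) (n : ℤ) : Nat.card (N.g n) = p ^ N.sz p n := by
  haveI := finite_g h n
  obtain ⟨k, e⟩ := gb_pow (gb_nsmul h n)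
  rw [gb_sz e, e]

theorem gb_card_ses (h : SES N₁ N₂ N₃) (n : ℤ) :
    Nat.card (N₂.g n) = Nat.card (N₁.g n) * Nat.card (N₃.g n) := by
  obtain ⟨f, g, hf, hg, h1, h2, h3⟩ := h
  let g' : N₂.g n →+ N₃.g n := (g.toAddMonoidHom.comp (N₂.g n).subtype).codRestrict _
    fun x => by simpa using hg n x.1 x.2
  have e1 : g'.range = ⊤ := AddMonoidHom.range_eq_top.2 fun y => by
    obtain ⟨x, hx, e⟩ := hg.lift (n := n) (m' := y.1) (by simp) (h3 y.1)
    exact ⟨⟨x, hx⟩, Subtype.ext e⟩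
  have e2 : Nat.card (N₁.g n) = Nat.card g'.ker := Nat.card_eq_of_bijective
    (fun x => ⟨⟨f x.1, by simpa using hf n x.1 x.2⟩, Subtype.ext (h2.apply_apply_eq_zero _)⟩)
    ⟨fun x y e => Subtype.ext (h1 (congrArg (fun z => z.1.1) e)), fun y => by
      obtain ⟨x, hx, e⟩ := hf.lift (n := n) (m' := y.1.1) (by simp)
        ((h2 _).1 (congrArg Subtype.val y.2))
      exact ⟨⟨x, hx⟩, Subtype.ext (Subtype.ext e)⟩⟩
  rw [← g'.ker.index_mul_card, AddSubgroup.index_ker, e1, e2, AddSubgroup.card_top, mul_comm]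

theorem sz_ses (h : SES N₁ N₂ N₃) (h2 : N₂.Fb p) (n : ℤ) :
    N₂.sz p n = N₁.sz p n + N₃.sz p n :=
  gb_sz (by rw [gb_card_ses h, card_g (h.fb h2).1, card_g (h.fb h2).2, pow_add])

theorem gb_ann {d : ℤ} {m : N.M} (hm : m ∈ N.g d) :
    Ideal.IsHomogeneous 𝒜 (LinearMap.ker (LinearMap.toSpanSingleton A N.M m)) := fun i a ha => by
  have h1 : a • m = 0 := ha
  have := gb_pj hm (i + d) a
  rw [h1, map_zero, add_sub_cancel_right] at this
  have h2 := this.symm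
  simp only [one, Nat.cast_nonneg, if_true, Int.toNat_natCast] at h2
  exact h2

theorem gb_prime (N : GM 𝒜) [Nontrivial N.M] : ∃ d, ∃ m ∈ N.g d, m ≠ 0 ∧
    Ideal.IsPrime (LinearMap.ker (LinearMap.toSpanSingleton A N.M m)) := by
  haveI := noeth_of_gen 𝒜
  let S : Set (Ideal A) :=
    {I | ∃ d, ∃ m ∈ N.g d, m ≠ 0 ∧ I = LinearMap.ker (LinearMap.toSpanSingleton A N.M m)}
  have hS : S.Nonempty := by
    by_contra h
    obtain ⟨x, hx⟩ := exists_ne (0 : N.M)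
    refine hx (N.ind (P := fun x => x = 0) rfl (fun a b h1 h2 => by rw [h1, h2, add_zero])
      (fun n m hm => by_contra fun h0 => h ⟨_, n, m, hm, h0, rfl⟩) x)
  obtain ⟨I, ⟨d, m, hm, h0, rfl⟩, hmax⟩ :=
    (set_has_maximal_iff_noetherian.2 (inferInstance : IsNoetherian A A)) S hS
  refine ⟨d, m, hm, h0, (gb_ann hm).isPrime_of_homogeneous_mem_or_mem (fun e => h0 ?_) ?_⟩
  · simpa using (Ideal.eq_top_iff_one _).1 e
  · rintro x y - ⟨j, hy⟩ hxy
    refine or_iff_not_imp_right.2 fun h1 => ?_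
    have hle : LinearMap.ker (LinearMap.toSpanSingleton A N.M m) ≤
        LinearMap.ker (LinearMap.toSpanSingleton A N.M (y • m)) := fun z hz => by
      have : z • m = 0 := hz
      change z • y • m = 0
      rw [smul_comm, this, smul_zero]
    rw [hle.eq_of_not_lt (hmax _ ⟨_, _, N.smul (i := j) (by rwa [Az_nat]) hm, h1, rfl⟩)]
    change x • y • m = 0
    rw [← mul_smul]
    exact hxy

theorem gb_ses {d : ℤ} {m : N.M} (hm : m ∈ N.g d) :
    SES ((cy 𝒜 (LinearMap.ker (LinearMap.toSpanSingleton A N.M m))).sh (-d)) N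
      (N.quot (span A {m})) := by
  have e1 := (one 𝒜).core_eq (hg_one (gb_ann hm))
  have e2 := N.core_eq (hg_span (s := {m}) (by rintro _ rfl; exact ⟨d, hm⟩))
  refine ⟨Submodule.liftQ _ (LinearMap.toSpanSingleton A N.M m) e1.le, (N.core _).mkQ, ?_,
    fun n x hx => ⟨x, by simpa using hx, rfl⟩,
    LinearMap.ker_eq_bot.1 (Submodule.ker_liftQ_eq_bot _ _ _ e1.ge),
    fun x => ?_, mkQ_surjective _⟩
  · rintro n _ ⟨c, hc, rfl⟩
    have : (show A from c) • m ∈ N.g (n + 0) := by simpa using N.smul hc hm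
    exact this
  · refine (Submodule.Quotient.mk_eq_zero _).trans (e2.symm ▸ mem_span_singleton.trans ⟨?_, ?_⟩)
    · rintro ⟨c, rfl⟩
      exact ⟨Submodule.Quotient.mk c, rfl⟩
    · rintro ⟨c, rfl⟩
      obtain ⟨c, rfl⟩ := Submodule.Quotient.mk_surjective _ c
      exact ⟨c, rfl⟩

/-- prime filtration -/
theorem ind_prime {P : GM 𝒜 → Prop} (h0 : ∀ N : GM 𝒜, Subsingleton N.M → P N)
    (h1 : ∀ (N₁ N₂ : GM 𝒜) (𝔮 : Ideal A) (a : ℤ), 𝔮.IsPrime → 𝔮.IsHomogeneous 𝒜 →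
      SES ((cy 𝒜 𝔮).sh a) N₁ N₂ → P N₂ → P N₁) (N : GM 𝒜) : P N := by
  haveI := noeth_of_gen 𝒜
  suffices h : ∀ (Z : Submodule A N.M) (N' : GM 𝒜) (π : N.M →ₗ[A] N'.M), Function.Surjective π →
    LinearMap.ker π = Z → P N' from h _ N LinearMap.id Function.surjective_id rfl
  intro Z
  induction Z using IsNoetherian.induction with
  | _ Z ih =>
    rintro N' π hπ rfl
    rcases subsingleton_or_nontrivial N'.M with h | h
    · exact h0 N' h
    obtain ⟨d, m, hm, h2, h3⟩ := gb_prime N'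
    refine h1 _ _ _ _ h3 (gb_ann hm) (gb_ses hm) (ih _ ?_ _ ((N'.core _).mkQ ∘ₗ π)
      ((mkQ_surjective _).comp hπ) rfl)
    obtain ⟨x, rfl⟩ := hπ m
    refine lt_of_le_of_ne (LinearMap.ker_le_ker_comp _ _) fun e => h2 ?_
    refine LinearMap.mem_ker.1 (e.ge (LinearMap.mem_ker.2 ?_))
    exact (Submodule.Quotient.mk_eq_zero _).2
      ((N'.mem_core_of_mem_g hm).2 (mem_span_singleton_self _))

theorem gb_shift {P : ℤ → Prop} (h : ∀ᶠ n : ℕ in atTop, P n) (a : ℤ) :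
    ∀ᶠ n : ℕ in atTop, P (n + a) := by
  obtain ⟨b, hb⟩ := eventually_atTop.1 h
  filter_upwards [eventually_ge_atTop (b + a.natAbs)] with n hn
  have := hb (n + a).toNat (by omega)
  rwa [Int.toNat_of_nonneg (by omega)] at this

theorem ev_bot (h : ∀ y : Pt 𝒜, N.ZeroAt y) : ∀ᶠ n : ℕ in atTop, N.g n = ⊥ := by
  obtain ⟨β, _, m, d, h1, h2⟩ := gb_gens N
  have h3 := eventually_all.2 fun i => gb_shift (P := fun n => ∀ a ∈ Az 𝒜 n, a • m i = 0)
    ((irrelevant_of_no_pt (gb_ann (h1 i)) fun y hy => by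
      obtain ⟨k, t, -, h4, h5⟩ := h y (m i)
      exact h4 (hy h5)).mono fun n hn a ha => hn a (by rwa [Az_nat] at ha)) (-d i)
  filter_upwards [h3] with n hn
  refine (AddSubgroup.eq_bot_iff_forall _).2 fun x hx => ?_
  obtain ⟨c, h4, rfl⟩ := h2 n x hx
  exact Finset.sum_eq_zero fun i _ => hn i _ (sub_eq_add_neg (n : ℤ) (d i) ▸ h4 i)

theorem zeroAt_of_ev (h : ∀ᶠ n : ℕ in atTop, N.g n = ⊥) (y : Pt 𝒜) : N.ZeroAt y := fun m => by
  obtain ⟨k, hk⟩ := (N.ind (P := fun m => ∀ᶠ k : ℕ in atTop, ell y ^ k • m = 0) (by simp)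
    (fun a b h1 h2 => by
      filter_upwards [h1, h2] with k e1 e2
      rw [smul_add, e1, e2, add_zero])
    (fun n m hm => (gb_shift (P := fun n => N.g n = ⊥) h n).mono fun k hk => by
      have := N.smul (i := k) (a := ell y ^ k) (by rw [Az_nat]; exact md_pow_mem (ell_spec y).1 k) hm
      rwa [add_comm, hk] at this) m).exists
  exact ⟨k, _, md_pow_mem (ell_spec y).1 k, md_pow_not_mem (ell_spec y).2 k, hk⟩

theorem zeroAt_of_dimLt (h : N.Fb p) (h0 : N.DimLt p 0) (y : Pt 𝒜) : N.ZeroAt y := by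
  by_cases hy : (p : A) ∈ pr y
  · exact h0 ⟨y, hy⟩ (Nat.zero_le _)
  · exact fun m => ⟨0, p, md_natCast_mem p, hy, h m⟩

theorem gb_unique {P : ℚ[X]} (h : ∀ᶠ n : ℕ in atTop, P.eval (n : ℚ) = (N.sz p n : ℚ)) :
    N.hp p = P := by
  have := Classical.epsilon_spec (p := fun P : ℚ[X] => ∀ᶠ n : ℕ in atTop,
    P.eval (n : ℚ) = (N.sz p n : ℚ)) ⟨P, h⟩
  refine hilb_ext ?_
  filter_upwards [this, h] with n h1 h2
  exact h1.trans h2.symm

theorem gb_bot {n : ℤ} (h : N.g n = ⊥) : N.sz p n = 0 := gb_sz (by simp [h])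

theorem gb_sh {P : ℚ[X]} (h : ∀ᶠ n : ℕ in atTop, P.eval (n : ℚ) = (N.sz p n : ℚ)) (a : ℤ) :
    ∀ᶠ n : ℕ in atTop, (P.comp (X + C (a : ℚ))).eval (n : ℚ) = (N.sz p (n + a) : ℚ) :=
  (gb_shift (P := fun n => P.eval (n : ℚ) = (N.sz p n : ℚ)) (by simpa using h) a).mono
    fun n hn => by simpa using hn

theorem gb_rank {E : Type} [AddCommGroup E] [Module (ZMod p) E] {S : Submodule (ZMod p) E}
    (hS : S.FG) : Nat.card S = p ^ Module.finrank (ZMod p) S := by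
  haveI := Module.Finite.iff_fg.2 hS
  rw [Module.natCard_eq_pow_finrank (K := ZMod p), Nat.card_zmod]

theorem gb_cy (x : Vp 𝒜 p) (n : ℕ) :
    (cy 𝒜 (pr x.1)).sz p n = Module.finrank (ZMod p) ↥((Mp x).V ^ n) := by
  refine gb_sz (Eq.trans ?_ (gb_rank ((Mp x).fam_top n ▸ (Mp x).fam_top_fg n)))
  let f1 : Az 𝒜 n →+ (cy 𝒜 (pr x.1)).M :=
    ((one 𝒜).core (pr x.1)).mkQ.toAddMonoidHom.comp (Az 𝒜 n).subtype
  let f2 : Az 𝒜 n →+ kap x.1 := (th x.1).toAddMonoidHom.comp (Az 𝒜 n).subtype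
  have e1 : (cy 𝒜 (pr x.1)).g n = f1.range := by
    ext z
    exact ⟨fun ⟨a, ha, e⟩ => ⟨⟨a, ha⟩, e⟩, fun ⟨a, e⟩ => ⟨a.1, a.2, e⟩⟩
  have e2 : ((Mp x).V ^ n).toAddSubgroup = f2.range := by
    ext z
    refine (Mp x).mem_pow.trans ⟨?_, ?_⟩
    · rintro ⟨a, ha, rfl⟩
      exact ⟨⟨a, by rwa [Az_nat]⟩, rfl⟩
    · rintro ⟨a, rfl⟩
      exact ⟨a.1, Az_nat (𝒜 := 𝒜) n ▸ a.2, rfl⟩
  have e3 : f1.ker = f2.ker := by
    ext a
    exact ((Submodule.Quotient.mk_eq_zero _).trans ((one 𝒜).mem_core_of_mem_g a.2)).trans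
      (th_eq_zero x.1 (n := n) (by rw [← Az_nat (𝒜 := 𝒜)]; exact a.2)).symm
  rw [e1, ← AddSubgroup.index_ker, e3, AddSubgroup.index_ker, ← e2]
  rfl

theorem gb_cy' (x : Vp 𝒜 p) : ∀ᶠ n : ℕ in atTop,
    (hp (pw (Mp x).V)).eval (n : ℚ) = ((cy 𝒜 (pr x.1)).sz p n : ℚ) :=
  (hp_spec (Mp x).V_fg (fg_pw' (Mp x).V_fg)).mono fun n hn => by rw [hn, gb_cy]

theorem gb_main (N : GM 𝒜) : N.Fb p → ∃ P : ℚ[X],
    (∀ᶠ n : ℕ in atTop, P.eval (n : ℚ) = (N.sz p n : ℚ)) ∧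
      ∀ s, N.DimLt p s → P ∈ degreeLT ℚ s := by
  induction N using ind_prime with
  | h0 N h =>
    exact fun _ => ⟨0, Eventually.of_forall fun n => by
      rw [gb_bot ((AddSubgroup.eq_bot_iff_forall _).2 fun x _ => Subsingleton.elim _ _)]; simp,
      fun s _ => zero_mem _⟩
  | h1 N₁ N₂ 𝔮 a hq hh h ih =>
    intro hF
    obtain ⟨P, h1, h2⟩ := ih (h.fb hF).2
    obtain ⟨Q, h3, h4⟩ : ∃ Q : ℚ[X],
        (∀ᶠ n : ℕ in atTop, Q.eval (n : ℚ) = (((cy 𝒜 𝔮).sh a).sz p n : ℚ)) ∧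
          ∀ s, ((cy 𝒜 𝔮).sh a).DimLt p s → Q ∈ degreeLT ℚ s := by
      by_cases hy : ∃ y : Pt 𝒜, pr y = 𝔮
      · obtain ⟨y, rfl⟩ := hy
        have hp : (p : A) ∈ pr y := by
          have : ((one 𝒜).core (pr y)).mkQ ((p : A) • (1 : A)) = 0 :=
            (h.fb hF).1 (((one 𝒜).core (pr y)).mkQ (1 : A))
          have h6 : (p : A) * 1 ∈ pr y :=
            (one 𝒜).core_le _ ((Submodule.Quotient.mk_eq_zero _).1 this)
          rwa [mul_one] at h6
        refine ⟨_, gb_sh (gb_cy' ⟨y, hp⟩) a, fun s hs => ?_⟩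
        have h5 : dm (⟨y, hp⟩ : Vp 𝒜 p) < s := lt_of_not_ge fun h6 =>
          (zeroAt_cy hh y).1 (hs ⟨y, hp⟩ h6) le_rfl
        refine hilb_mem.2 fun m hm => coeff_eq_zero_of_natDegree_lt ?_
        rw [natDegree_comp, natDegree_X_add_C, mul_one]
        exact h5.trans_le hm
      · refine ⟨0, (gb_shift (P := fun n => (cy 𝒜 𝔮).g n = ⊥) (ev_bot fun y =>
          (zeroAt_cy hh y).2 fun hle => ?_) a).mono fun n hn => by
            rw [gb_bot (N := (cy 𝒜 𝔮).sh a) hn]; simp, fun s _ => zero_mem _⟩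
        exact (ell_spec y).2 (hle ((exists_pt hq hh).resolve_right hy _ (ell_spec y).1))
    refine ⟨Q + P, ?_, fun s hs => add_mem (h4 s ((h.dimLt s).1 hs).1) (h2 s ((h.dimLt s).1 hs).2)⟩
    filter_upwards [h1, h3] with n e1 e2
    rw [eval_add, e1, e2, sz_ses h hF, Nat.cast_add]

theorem hp_spec' (h : N.Fb p) :
    ∀ᶠ n : ℕ in atTop, (N.hp p).eval (n : ℚ) = (N.sz p n : ℚ) := by
  obtain ⟨P, h1, -⟩ := gb_main N h
  rwa [gb_unique h1]

theorem hp_eq_of_sz (h : ∀ᶠ n : ℕ in atTop, N.sz p n = N'.sz p n) : N.hp p = N'.hp p := by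
  unfold GM.hp
  congr 1
  ext P
  exact eventually_congr (h.mono fun n e => by rw [e])

theorem hp_ses (h : SES N₁ N₂ N₃) (h2 : N₂.Fb p) : N₂.hp p = N₁.hp p + N₃.hp p := by
  refine gb_unique ?_
  filter_upwards [hp_spec' (h.fb h2).1, hp_spec' (h.fb h2).2] with n e1 e2
  rw [eval_add, e1, e2, sz_ses h h2, Nat.cast_add]

theorem hp_sh (h : N.Fb p) (a : ℤ) : (N.sh a).hp p = (N.hp p).comp (X + C (a : ℚ)) :=
  gb_unique (gb_sh (hp_spec' h) a)

theorem hp_pw (h : N.Fb p) {β : Type} [Fintype β] (a : β → ℤ) :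
    (N.pw a).hp p = ∑ i, (N.hp p).comp (X - C (a i : ℚ)) := by
  refine gb_unique ?_
  filter_upwards [eventually_all.2 fun i => gb_sh (hp_spec' h) (-a i)] with n hn
  have e : Nat.card ((N.pw a).g n) = Nat.card (∀ i, N.g (n - a i)) := Nat.card_congr
    ⟨fun c i => ⟨c.1 i, c.2 i trivial⟩, fun c => ⟨fun i => c i, fun i _ => (c i).2⟩,
      fun _ => rfl, fun _ => rfl⟩
  rw [gb_sz (k := ∑ i, N.sz p (n - a i)) (by
    simp only [e, Nat.card_pi, card_g h, Finset.prod_pow_eq_pow_sum]), eval_finsetSum, Nat.cast_sum]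
  exact Finset.sum_congr rfl fun i _ => by simpa [sub_eq_add_neg] using hn i

theorem hp_trunc (n₀ : ℤ) : (N.trunc n₀).hp p = N.hp p := by
  refine hp_eq_of_sz ((eventually_ge_atTop n₀.toNat).mono fun n hn => ?_)
  refine congrArg (padicValNat p) (Nat.card_congr ⟨fun c => ⟨c.1.1, c.2⟩, fun c => ⟨⟨c.1,
    (N.mem_core_of_mem_g c.2).2 (subset_span ⟨n, by omega, c.2⟩)⟩, c.2⟩, fun _ => rfl,
    fun _ => rfl⟩)

theorem hp_zero (h : ∀ᶠ n : ℕ in atTop, N.g n = ⊥) : N.hp p = 0 :=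
  gb_unique (h.mono fun n hn => by rw [gb_bot hn]; simp)

theorem sz_gm (X : Mo 𝒜 p) {F : X.Fa} (h : X.FF F) (n : ℕ) :
    (X.gm F h).sz p n = Module.finrank (ZMod p) (F n) := by
  refine gb_sz (Eq.trans (Nat.card_congr ⟨fun c => ⟨X.co n c.1.1, c.1.2 n⟩,
    fun z => ⟨⟨X.mon n z.1, X.mon_mem z.2⟩, fun k hk => ?_⟩, fun c => ?_, fun z => ?_⟩)
    (gb_rank (h.fd n)))
  · exact (X.co_mon _ _ _).trans (if_neg (by omega))
  · refine Subtype.ext (Subtype.ext (Polynomial.ext fun k => (X.co_mon _ _ _).trans ?_))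
    split_ifs with e
    · subst e; rfl
    · exact (c.2 k (by omega)).symm
  · exact Subtype.ext ((X.co_mon _ _ _).trans (if_pos rfl))

theorem hp_gm (X : Mo 𝒜 p) {F : X.Fa} (h : X.FF F) : (X.gm F h).hp p = hp F :=
  gb_unique ((hp_spec X.M.V_fg h.fg).mono fun n hn => by rw [hn, sz_gm])

theorem hp_cy (x : Vp 𝒜 p) : (cy 𝒜 (pr x.1)).hp p = PP (Mp x).V 1 :=
  (gb_unique (gb_cy' x)).trans
    (hq_one ((Mp x).mdl (on_Mp.2 le_rfl)) (fg_pw' (Mp x).V_fg)).symm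

theorem hp_mem (h : N.Fb p) {s : ℕ} (hs : N.DimLt p s) : N.hp p ∈ degreeLT ℚ s := by
  obtain ⟨P, h1, h2⟩ := gb_main N h
  exact gb_unique h1 ▸ h2 s hs

end

end Pool.Agent.Lib.MP_62d77c_ag.R
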