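import Pool.Agent.Lib.MP_62d77c_ag.R.St
import Pool.Agent.Lib.MP_62d77c_ag.R.GmB

/-! Lengths of stalks, devissage, bounds for Euler characteristics. -/

set_option autoImplicit false
set_option linter.unusedSectionVars false
set_option linter.style.haveILetI false

namespace Pool.Agent.Lib.MP_62d77c_ag.R

open Filter Polynomial Submodule
open scoped TensorProduct Matrix

noncomputable section

variable {A : Type} [CommRing A] [IsDomain A] {𝒜 : ℕ → AddSubgroup A} [GradedRing 𝒜]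
  [hG : Fact (Gen 𝒜)] {p : ℕ} [Fact p.Prime] {N N' N₁ N₂ N₃ : GM 𝒜}

theorem dv_dm_anti {x y : Vp 𝒜 p} (h : pr x.1 ≤ pr y.1) : dm y ≤ dm x := by
  rcases h.lt_or_eq with h | h
  · exact (dm_lt h).le
  · rw [show x = y from Subtype.ext (pr_inj h)]

theorem dv_eq_of_dm {x y : Vp 𝒜 p} (h : pr x.1 ≤ pr y.1) (h' : dm x ≤ dm y) : x = y := by
  rcases h.lt_or_eq with h | h
  · exact absurd (dm_lt h) (by omega)
  · exact Subtype.ext (pr_inj h)

theorem dv_zeroAt_cy (x y : Pt 𝒜) (a : ℤ) : ((cy 𝒜 (pr x)).sh a).ZeroAt y ↔ ¬pr x ≤ pr y :=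
  zeroAt_cy (pr_hom x) y

theorem dv_fb_cy (x : Vp 𝒜 p) (a : ℤ) : ((cy 𝒜 (pr x.1)).sh a).Fb p := fb_cy x.2

theorem dv_dimLt_sh (x : Vp 𝒜 p) (a : ℤ) {s : ℕ} :
    ((cy 𝒜 (pr x.1)).sh a).DimLt p s ↔ dm x < s := by
  refine ⟨fun h => ?_, fun h y hy => (dv_zeroAt_cy _ _ a).2 fun e => ?_⟩
  · by_contra hc
    exact (dv_zeroAt_cy _ _ a).1 (h x (by omega)) le_rfl
  · have := dv_dm_anti e
    omega

theorem dv_dimLt_cy (x : Vp 𝒜 p) {s : ℕ} : (cy 𝒜 (pr x.1)).DimLt p s ↔ dm x < s := dv_dimLt_sh x 0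

theorem dv_mono {s t : ℕ} (h : N.DimLt p s) (e : s ≤ t) : N.DimLt p t :=
  fun y hy => h y (e.trans hy)

/-- devissage for modules on the fibre -/
theorem dv_ind {P : GM 𝒜 → Prop} {s : ℕ}
    (h0 : ∀ N : GM 𝒜, N.Fb p → (∀ y, N.ZeroAt y) → P N)
    (h1 : ∀ (x : Vp 𝒜 p) (a : ℤ), dm x < s → P ((cy 𝒜 (pr x.1)).sh a))
    (h2 : ∀ N₁ N₂ N₃, SES N₁ N₂ N₃ → N₂.Fb p → N₂.DimLt p s → P N₁ → P N₃ → P N₂)
    (h : N.Fb p) (hs : N.DimLt p s) : P N := by
  revert h hs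
  induction N using ind_prime with
  | h0 N hN =>
    exact fun h _ => h0 N h fun y m =>
      ⟨0, 1, SetLike.one_mem_graded 𝒜, md_one_not_mem y, Subsingleton.elim _ _⟩
  | h1 N₁ N₂ 𝔮 a hp hh hS ih =>
    intro h hs
    obtain ⟨f1, f2⟩ := hS.fb h
    obtain ⟨d1, d2⟩ := (hS.dimLt s).1 hs
    refine h2 _ _ _ hS h hs ?_ (ih f2 d2)
    rcases exists_pt hp hh with e | ⟨x, rfl⟩
    · exact h0 _ f1 fun y => (zeroAt_cy hh y).2 fun hle => (ell_spec y).2 (hle (e _ (ell_spec y).1))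
    · have hx : (p : A) ∈ pr x := by
        have h3 : ((one 𝒜).core (pr x)).mkQ ((p : A) • (1 : A)) = 0 :=
          (map_smul _ _ _).trans (f1 _)
        have h4 := (one 𝒜).core_le _ ((Submodule.Quotient.mk_eq_zero _).1 h3)
        rwa [smul_eq_mul, mul_one] at h4
      exact h1 ⟨x, hx⟩ a ((dv_dimLt_sh ⟨x, hx⟩ a).1 d1)

theorem dv_length_ses (h : SES N₁ N₂ N₃) (y : Pt 𝒜) : Module.length (Lo y) (N₂.St y) =
    Module.length (Lo y) (N₁.St y) + Module.length (Lo y) (N₃.St y) := by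
  obtain ⟨f, g, hf, hg, h1, h2, h3⟩ := h
  exact Module.length_eq_add_of_exact (f.baseChange (Lo y)) (g.baseChange (Lo y))
    (st_inj y hf h1) (LinearMap.lTensor_surjective (Lo y) h3) (st_exact y hf hg h2)

theorem dv_length_zero (y : Pt 𝒜) : Module.length (Lo y) (N.St y) = 0 ↔ N.ZeroAt y :=
  Module.length_eq_zero_iff.trans (st_subsingleton y)

theorem dv_length_cy (x : Pt 𝒜) : Module.length (Lo x) ((cy 𝒜 (pr x)).St x) = 1 := by
  let e : (cy 𝒜 (pr x)).M := ((one 𝒜).core (pr x)).mkQ (1 : A)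
  have he : ∀ a : A, a • e = 0 ↔ a ∈ pr x := fun a => by
    have h1 : a • e = ((one 𝒜).core (pr x)).mkQ (a • (1 : A)) := (map_smul _ _ _).symm
    rw [h1, smul_eq_mul, mul_one]
    refine (Submodule.Quotient.mk_eq_zero _).trans ?_
    rw [(one 𝒜).core_eq (hg_one (pr_hom x))]
    rfl
  let φ := LinearMap.toSpanSingleton (Lo x) ((cy 𝒜 (pr x)).St x) ((1 : Lo x) ⊗ₜ[A] e)
  have hφ : ∀ a : A, φ (algebraMap A (Lo x) a) = (1 : Lo x) ⊗ₜ[A] (a • e) := fun a => by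
    rw [TensorProduct.tmul_smul]
    exact algebraMap_smul (Lo x) a _
  have h1 : Function.Surjective φ := fun ξ => by
    induction ξ using TensorProduct.induction_on with
    | zero => exact ⟨0, map_zero _⟩
    | add u v hu hv =>
      obtain ⟨r, rfl⟩ := hu
      obtain ⟨s, rfl⟩ := hv
      exact ⟨r + s, map_add _ _ _⟩
    | tmul r m =>
      obtain ⟨a, rfl⟩ := ((one 𝒜).core (pr x)).mkQ_surjective m
      have h2 : ((one 𝒜).core (pr x)).mkQ a = (show A from a) • e :=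
        (congrArg _ (mul_one (show A from a)).symm).trans (map_smul _ (show A from a) (1 : A))
      refine ⟨r • algebraMap A (Lo x) a, ?_⟩
      rw [map_smul, hφ, TensorProduct.smul_tmul', smul_eq_mul, mul_one]
      exact congrArg _ h2.symm
  have h2 : LinearMap.ker φ ≠ ⊤ := fun h => by
    have h3 : φ 1 = 0 := (h ▸ Submodule.mem_top : (1 : Lo x) ∈ LinearMap.ker φ)
    have h4 : e ∈ (cy 𝒜 (pr x)).g 0 := ⟨(1 : A), by
      change (1 : A) ∈ Az 𝒜 ((0 : ℕ) : ℤ)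
      rw [Az_nat]; exact SetLike.one_mem_graded 𝒜, rfl⟩
    obtain ⟨k, t, -, h5, h6⟩ := (st_zero x h4).1 ((one_smul _ _).symm.trans h3)
    exact h5 ((he t).1 h6)
  have h3 : IsLocalRing.maximalIdeal (Lo x) ≤ LinearMap.ker φ := fun r hr => by
    obtain ⟨k, a, ha, s, hs, hs', e1⟩ := lo_surj x r
    have h4 : a ∈ pr x := by
      by_contra hc
      exact hr (isUnit_of_mul_isUnit_right (e1 ▸ (lo_unit x ha).2 hc))
    have h5 : algebraMap A (Lo x) s • φ r = 0 := by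
      rw [← map_smul, smul_eq_mul, e1, hφ, (he a).2 h4, TensorProduct.tmul_zero]
    exact ((lo_unit x hs).2 hs').smul_eq_zero.1 h5
  refine Module.length_eq_one_iff.2 (isSimpleModule_iff_quot_maximal.2 ⟨LinearMap.ker φ, ?_,
    ⟨(φ.quotKerEquivOfSurjective h1).symm⟩⟩)
  rw [← (IsLocalRing.maximalIdeal.isMaximal (Lo x)).eq_of_le h2 h3]
  exact IsLocalRing.maximalIdeal.isMaximal _

theorem len_ne_top (h : N.Fb p) (y : Vp 𝒜 p) (hs : N.DimLt p (dm y + 1)) :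
    Module.length (Lo y.1) (N.St y.1) ≠ ⊤ := by
  refine dv_ind (P := fun N => Module.length (Lo y.1) (N.St y.1) ≠ ⊤) (fun N _ h0 => ?_)
    (fun x a hx => ?_) (fun N₁ N₂ N₃ hS _ _ h1 h3 => ?_) h hs
  · rw [(dv_length_zero y.1).2 (h0 _)]; exact ENat.zero_ne_top
  · by_cases e : pr x.1 ≤ pr y.1
    · obtain rfl := dv_eq_of_dm e (by omega)
      exact (dv_length_cy x.1).trans_ne ENat.one_ne_top
    · rw [(dv_length_zero y.1).2 ((dv_zeroAt_cy _ _ a).2 e)]; exact ENat.zero_ne_top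
  · rw [dv_length_ses hS]; exact WithTop.add_ne_top.2 ⟨h1, h3⟩

theorem len_ses (h : SES N₁ N₂ N₃) (h2 : N₂.Fb p) (y : Vp 𝒜 p) (hs : N₂.DimLt p (dm y + 1)) :
    N₂.len y.1 = N₁.len y.1 + N₃.len y.1 := by
  obtain ⟨f1, f3⟩ := h.fb h2
  obtain ⟨d1, d3⟩ := (h.dimLt _).1 hs
  rw [GM.len, dv_length_ses h, ENat.toNat_add (len_ne_top f1 y d1) (len_ne_top f3 y d3)]
  rfl

theorem len_sh (a : ℤ) (y : Pt 𝒜) : (N.sh a).len y = N.len y := rfl

theorem len_cy_self (x : Pt 𝒜) : (cy 𝒜 (pr x)).len x = 1 := by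
  rw [GM.len, dv_length_cy]; rfl

theorem dv_len_zero {y : Pt 𝒜} (h : N.ZeroAt y) : N.len y = 0 := by
  rw [GM.len, (dv_length_zero y).2 h]; rfl

theorem len_eq_zero (h : N.Fb p) (y : Vp 𝒜 p) (hs : N.DimLt p (dm y + 1)) :
    N.len y.1 = 0 ↔ N.ZeroAt y.1 :=
  ⟨fun e => (dv_length_zero y.1).1 ((ENat.toNat_eq_zero.1 e).resolve_right (len_ne_top h y hs)),
    dv_len_zero⟩

theorem len_gm (X : Mo 𝒜 p) {F : X.Fa} (h : X.FF F) (hF : X.stk F X.x.1 = Set.univ) :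
    (X.gm F h).len X.x.1 = X.f := by
  obtain ⟨κ, h1, h2, h3, -⟩ := st_gm X h (y := X.x.1) le_rfl
  have hr : (X.lo (y := X.x.1) le_rfl).range = X.M.orng X.x.1 :=
    (exists_lo X (y := X.x.1) le_rfl).choose_spec.1
  have on : X.M.On X.x.1 := fun n a ha e => (X.ker n a ha).1 e
  have mo : ∀ {z : X.L}, z ∈ X.M.orng X.x.1 ↔ ∃ n, ∃ a ∈ 𝒜 n, ∃ b ∈ 𝒜 n, b ∉ pr X.x.1 ∧
      z = X.θ a / X.θ b := X.M.mem_orng on
  let k := Subfield.closure (Set.range X.θ)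
  have hk : ∀ z : X.L, z ∈ k ↔ z ∈ X.M.orng X.x.1 := fun z => by
    refine ⟨fun hz => ?_, fun hz => ?_⟩
    · induction hz using Subfield.closure_induction with
      | mem w hw =>
        obtain ⟨a, rfl⟩ := hw
        induction a using hom_ind (𝒜 := 𝒜) with
        | h0 => rw [map_zero]; exact zero_mem _
        | hadd a b ha hb => rw [map_add]; exact add_mem ha hb
        | h n a ha =>
          exact mo.2 ⟨n, a, ha, _, md_pow_mem (ell_spec X.x.1).1 n,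
            md_pow_not_mem (ell_spec X.x.1).2 n, by rw [map_pow, X.one, one_pow, div_one]⟩
      | one => exact one_mem _
      | add a b _ _ ha hb => exact add_mem ha hb
      | neg a _ ha => exact neg_mem ha
      | mul a b _ _ ha hb => exact mul_mem ha hb
      | inv w _ hw =>
        obtain ⟨n, a, ha, b, hb, -, rfl⟩ := mo.1 hw
        by_cases e : a ∈ pr X.x.1
        · rw [(X.ker n a ha).2 e, zero_div, inv_zero]; exact zero_mem _
        · exact mo.2 ⟨n, b, hb, a, ha, e, inv_div _ _⟩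
    · obtain ⟨n, a, -, b, -, -, rfl⟩ := mo.1 hz
      exact div_mem (Subfield.subset_closure ⟨a, rfl⟩) (Subfield.subset_closure ⟨b, rfl⟩)
  let ψ : Lo X.x.1 →+* k := (X.lo le_rfl).codRestrict k fun r => (hk _).2 (hr ▸ ⟨r, rfl⟩)
  have hψ : Function.Surjective ψ := fun z => by
    obtain ⟨r, e⟩ : z.1 ∈ (X.lo (y := X.x.1) le_rfl).range := hr ▸ (hk _).1 z.2
    exact ⟨r, Subtype.ext e⟩
  letI : Algebra (Lo X.x.1) k := ψ.toAlgebra
  letI : Algebra (Lo X.x.1) X.L := (X.lo le_rfl).toAlgebra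
  haveI : IsScalarTower (Lo X.x.1) k X.L := IsScalarTower.of_algebraMap_eq fun _ => rfl
  haveI := X.fin
  let κ' : (X.gm F h).St X.x.1 →ₗ[Lo X.x.1] X.L := ⟨κ, h3⟩
  have e := (LinearEquiv.ofBijective κ' ⟨h1, Set.range_eq_univ.1 (h2.trans hF)⟩).length_eq
  rw [GM.len, e, Module.length_eq_of_surjective (R := k) hψ, Module.length_eq_finrank]
  rfl

theorem dv_cyc_finite (h : N.Fb p) {s : ℕ} (hs : N.DimLt p (s + 1)) :
    (Function.support fun x : Vp 𝒜 p => if dm x = s then (N.len x.1 : ℤ) else 0).Finite := by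
  have key : {x : Vp 𝒜 p | dm x = s ∧ ¬N.ZeroAt x.1}.Finite := by
    refine dv_ind (P := fun N => {x : Vp 𝒜 p | dm x = s ∧ ¬N.ZeroAt x.1}.Finite)
      (fun N _ h0 => Set.finite_empty.subset fun x hx => hx.2 (h0 _))
      (fun x a hx => (Set.finite_singleton x).subset fun y hy => ?_)
      (fun N₁ N₂ N₃ hS _ _ h1 h3 => (h1.union h3).subset fun y hy => ?_) h hs
    · exact (dv_eq_of_dm (not_not.1 fun e => hy.2 ((dv_zeroAt_cy _ _ a).2 e))
        (by have := hy.1; omega)).symm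
    · by_contra hc
      rw [Set.mem_union, not_or] at hc
      exact hy.2 ((hS.zeroAt _).2 ⟨not_not.1 fun e => hc.1 ⟨hy.1, e⟩,
        not_not.1 fun e => hc.2 ⟨hy.1, e⟩⟩)
  refine key.subset fun x hx => ⟨?_, fun e => hx ?_⟩
  · by_contra hc
    exact hx (if_neg hc)
  · simp [dv_len_zero e]

theorem cyc_apply (h : N.Fb p) {s : ℕ} (hs : N.DimLt p (s + 1)) (x : Vp 𝒜 p) :
    N.cyc p s x = if dm x = s then (N.len x.1 : ℤ) else 0 := by
  rw [GM.cyc, dif_pos (by convert dv_cyc_finite h hs), Finsupp.ofSupportFinite_coe]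

theorem dv_cyc_ses (h : SES N₁ N₂ N₃) (h2 : N₂.Fb p) {s : ℕ} (hs : N₂.DimLt p (s + 1)) :
    N₂.cyc p s = N₁.cyc p s + N₃.cyc p s := by
  obtain ⟨f1, f3⟩ := h.fb h2
  obtain ⟨d1, d3⟩ := (h.dimLt _).1 hs
  ext x
  rw [Finsupp.add_apply, cyc_apply h2 hs, cyc_apply f1 d1, cyc_apply f3 d3]
  split_ifs with e
  · rw [len_ses h h2 x (e ▸ hs), Nat.cast_add]
  · rfl

theorem dv_cyc_zero (h : N.Fb p) {s : ℕ} (hs : N.DimLt p s) : N.cyc p s = 0 := by
  ext x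
  rw [cyc_apply h (dv_mono hs s.le_succ)]
  split_ifs with e
  · rw [dv_len_zero (hs x e.ge)]; rfl
  · rfl

theorem dv_cyc_cy (x : Vp 𝒜 p) (a : ℤ) :
    ((cy 𝒜 (pr x.1)).sh a).cyc p (dm x) = Finsupp.single x 1 := by
  classical
  ext y
  rw [cyc_apply (dv_fb_cy x a) ((dv_dimLt_sh x a).2 (Nat.lt_succ_self _)), Finsupp.single_apply]
  by_cases e : x = y
  · subst e
    rw [if_pos rfl, if_pos rfl, len_sh, len_cy_self]; rfl
  · rw [if_neg e]
    split_ifs with e'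
    · rw [dv_len_zero ((dv_zeroAt_cy _ _ a).2 fun hle => e (dv_eq_of_dm hle e'.ge))]; rfl
    · rfl

theorem dv_cyc_dm (h : N.Fb p) {s : ℕ} (hs : N.DimLt p (s + 1)) {x : Vp 𝒜 p}
    (hx : x ∈ (N.cyc p s).support) : dm x = s := by
  by_contra hc
  exact Finsupp.mem_support_iff.1 hx ((cyc_apply h hs x).trans (if_neg hc))

theorem dev {G : Type} [AddCommGroup G] (φ : GM 𝒜 → G) (s : ℕ)
    (hadd : ∀ N₁ N₂ N₃, SES N₁ N₂ N₃ → N₂.Fb p → N₂.DimLt p (s + 1) → φ N₂ = φ N₁ + φ N₃)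
    (h0 : ∀ N : GM 𝒜, N.Fb p → N.DimLt p s → φ N = 0)
    (hsh : ∀ x : Vp 𝒜 p, dm x = s → ∀ a, φ ((cy 𝒜 (pr x.1)).sh a) = φ (cy 𝒜 (pr x.1)))
    (h : N.Fb p) (hs : N.DimLt p (s + 1)) :
    φ N = (N.cyc p s).sum fun x n => n • φ (cy 𝒜 (pr x.1)) := by
  have z : ∀ N : GM 𝒜, N.Fb p → N.DimLt p s →
      φ N = (N.cyc p s).sum fun x n => n • φ (cy 𝒜 (pr x.1)) := fun N h hs => by
    rw [h0 N h hs, dv_cyc_zero h hs, Finsupp.sum_zero_index]
  refine dv_ind (P := fun N => φ N = (N.cyc p s).sum fun x n => n • φ (cy 𝒜 (pr x.1)))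
    (fun N h h0 => z N h fun y _ => h0 _) (fun x a hx => ?_)
    (fun N₁ N₂ N₃ hS h2 hs h1 h3 => ?_) h hs
  · by_cases e : dm x = s
    · rw [hsh x e a, ← e, dv_cyc_cy, Finsupp.sum_single_index (by simp), one_smul]
    · exact z _ (dv_fb_cy x a) ((dv_dimLt_sh x a).2 (by omega))
  · rw [hadd _ _ _ hS h2 hs, dv_cyc_ses hS h2 hs, Finsupp.sum_add_index' (by simp)
      (by simp [add_smul]), h1, h3]

theorem dg_pos (x : Vp 𝒜 p) : 0 < dg x := by
  rw [dg, hp_cy]; exact (PP_lead (mdl_Mp x) 1).2.1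

theorem hp_top (h : N.Fb p) {s : ℕ} (hs : N.DimLt p (s + 1)) :
    (N.hp p).coeff s = (N.cyc p s).sum fun x n => (n : ℚ) * dg x := by
  refine (dev (fun N => (N.hp p).coeff s) s (fun N₁ N₂ N₃ hS h2 _ => ?_) (fun N h hs => ?_)
    (fun x e a => ?_) h hs).trans (Finsupp.sum_congr fun x hx => ?_)
  · rw [hp_ses hS h2, coeff_add]
  · exact coeff_eq_zero_of_degree_lt (mem_degreeLT.1 (hp_mem h hs))
  · have e1 : ((cy 𝒜 (pr x.1)).hp p).natDegree = s := by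
      rw [hp_cy, ← e]; exact (PP_lead (mdl_Mp x) 1).1
    rw [hp_sh (fb_cy x.2), ← taylor_apply, ← e1, coeff_taylor_natDegree, leadingCoeff]
  · rw [zsmul_eq_mul, dg, dv_cyc_dm h hs hx]

theorem dv_hp_nat (h : N.Fb p) (hs : N.DimLt p 1) : ∃ k : ℕ, (N.hp p).eval 0 = k := by
  obtain ⟨n, hn⟩ := (hp_spec' h).exists
  have e := eq_C_of_degree_le_zero
    (Nat.WithBot.lt_one_iff_le_zero.1 (mem_degreeLT.1 (hp_mem h hs)))
  exact ⟨N.sz p n, by rw [← hn, e, eval_C, eval_C]⟩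

theorem hp_nonneg (h : N.Fb p) (hs : N.DimLt p 1) : 0 ≤ (N.hp p).eval 0 := by
  obtain ⟨k, e⟩ := dv_hp_nat h hs
  rw [e]; exact Nat.cast_nonneg k

theorem len_le_hp (h : N.Fb p) (hs : N.DimLt p 1) (y : Vp 𝒜 p) (hy : dm y = 0) :
    (N.len y.1 : ℚ) ≤ (N.hp p).eval 0 := by
  refine dv_ind (P := fun N => (N.len y.1 : ℚ) ≤ (N.hp p).eval 0) (fun N h h0 => ?_)
    (fun x a hx => ?_) (fun N₁ N₂ N₃ hS h2 hs h1 h3 => ?_) h hs
  · rw [dv_len_zero (h0 _), Nat.cast_zero]; exact hp_nonneg h fun y _ => h0 _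
  · have d := (dv_dimLt_sh x a).2 hx
    by_cases e : pr x.1 ≤ pr y.1
    · obtain rfl := dv_eq_of_dm e (by omega)
      obtain ⟨k, hk⟩ := dv_hp_nat (dv_fb_cy x a) d
      have h1 := hp_top (dv_fb_cy x a) (s := 0) d
      have h2 := dv_cyc_cy x a
      rw [hy] at h2
      rw [h2, Finsupp.sum_single_index (by simp), coeff_zero_eq_eval_zero, hk] at h1
      have h3 : (0 : ℚ) < k := by rw [h1]; simpa using dg_pos x
      rw [len_sh, len_cy_self, hk]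
      exact Nat.cast_le.2 (Nat.cast_pos.1 h3)
    · rw [dv_len_zero ((dv_zeroAt_cy _ _ a).2 e), Nat.cast_zero]
      exact hp_nonneg (dv_fb_cy x a) d
  · rw [len_ses hS h2 y (by rw [hy]; exact hs), hp_ses hS h2, eval_add, Nat.cast_add]
    exact add_le_add h1 h3

end

end Pool.Agent.Lib.MP_62d77c_ag.R
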