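import Pool.Agent.Lib.MP_62d77c_ag.R.K1

/-! Duality: the Euler characteristic of Ext in terms of the intersection polynomial. -/

set_option autoImplicit false
set_option linter.unusedSectionVars false
set_option linter.style.haveILetI false

namespace Pool.Agent.Lib.MP_62d77c_ag.R

open Filter Polynomial Submodule
open scoped TensorProduct Matrix

noncomputable section

theorem k4_ex {R M α β γ : Type} [CommRing R] [AddCommGroup M] [Module R M] [Fintype α] [Fintype β]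
    [Fintype γ] {D : Matrix α β R} {E : Matrix β γ R} (h : Function.Exact (mact R E) (mact R D))
    {τ : Matrix β α R} (hτ : D * τ * D = D) (v : β → M) (hv : mact M D v = 0) :
    v ∈ LinearMap.range (mact M E) := by
  classical
  obtain ⟨K, hK⟩ := k1_lift' h (1 - τ * D) (by
    rw [Matrix.mul_sub, Matrix.mul_one, ← Matrix.mul_assoc, hτ, sub_self])
  have := k1_hom1 (D := E) (H := K) (H' := τ) (D' := D) (s := 1)
    (by rw [hK, sub_add_cancel, one_smul]) v hv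
  rwa [one_smul] at this

variable {A : Type} [CommRing A] [IsDomain A] {𝒜 : ℕ → AddSubgroup A} [GradedRing 𝒜]
  [hG : Fact (Gen 𝒜)] {p : ℕ} [Fact p.Prime] {N N' N₁ N₂ N₃ : GM 𝒜}

theorem k4_ses_ker {f : N.M →ₗ[A] N'.M} (hf : IsHom N N' 0 f) :
    SES (N.sub (LinearMap.ker f)) N (N'.sub (LinearMap.range f)) := by
  have h1 := N.core_eq hf.hg_ker
  have h2 := N'.core_eq hf.hg_range
  refine ⟨_, f.codRestrict (N'.core _) fun m => h2.ge ⟨m, rfl⟩, isHom_subtype N _,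
    fun n m hm => hf n m hm, (N.core _).injective_subtype, fun m => ⟨fun h => ?_, ?_⟩, fun m => ?_⟩
  · exact ⟨⟨m, h1.ge (congrArg Subtype.val h)⟩, rfl⟩
  · rintro ⟨z, rfl⟩
    exact Subtype.ext (h1.le z.2)
  · obtain ⟨z, hz⟩ := h2.le m.2
    exact ⟨z, Subtype.ext hz⟩

theorem k4_ses_sq (N : GM 𝒜) {B Z : Submodule A N.M} (hB : N.Hg B) (h : B ≤ Z) :
    SES (N.sub B) (N.sub Z) (N.sq Z B) := by
  have le : N.core B ≤ N.core Z := fun m hm n => h (hm n)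
  refine ⟨inclusion le, _, fun n m hm => (add_zero n).symm ▸ hm, isHom_mkQ (N.sub Z) _,
    inclusion_injective le, fun m => ?_, Submodule.mkQ_surjective _⟩
  refine ((Submodule.Quotient.mk_eq_zero _).trans (mem_core_sub hB m)).trans
    ⟨fun k => ⟨⟨m.1, (N.core_eq hB).ge k⟩, rfl⟩, ?_⟩
  rintro ⟨z, rfl⟩
  exact N.core_le B z.2

theorem k4_euler {G : Type} [AddCommGroup G] (φ : GM 𝒜 → G) (Q : GM 𝒜 → Prop)
    (hQ : ∀ {M₁ M₂ M₃}, SES M₁ M₂ M₃ → Q M₂ → Q M₁)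
    (hφ : ∀ {M₁ M₂ M₃}, SES M₁ M₂ M₃ → Q M₂ → φ M₂ = φ M₁ + φ M₃)
    {f : N.M →ₗ[A] N₁.M} {g : N₁.M →ₗ[A] N₂.M} {k : N₂.M →ₗ[A] N₃.M} (hf : IsHom N N₁ 0 f)
    (hg : IsHom N₁ N₂ 0 g) (_hk : IsHom N₂ N₃ 0 k) (e : ∀ m, g (f m) = 0) (e' : ∀ m, k (g m) = 0) (q0 : Q N) (q1 : Q N₁)
    (q2 : Q N₂) : φ (N.sub (LinearMap.ker f)) - φ (N₁.sq (LinearMap.ker g) (LinearMap.range f)) +
      φ (N₂.sq (LinearMap.ker k) (LinearMap.range g)) =
      φ N - φ N₁ + φ (N₂.sub (LinearMap.ker k)) := by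
  rw [hφ (k4_ses_ker hf) q0, hφ (k4_ses_ker hg) q1,
    hφ (k4_ses_sq N₁ (Z := LinearMap.ker g) hf.hg_range (by rintro _ ⟨m, rfl⟩; exact e m))
      (hQ (ses_sub_quot N₁ _) q1),
    hφ (k4_ses_sq N₂ (Z := LinearMap.ker k) hg.hg_range (by rintro _ ⟨m, rfl⟩; exact e' m))
      (hQ (ses_sub_quot N₂ _) q2)]
  abel

theorem k4_fb_pw (h : N.Fb p) {β : Type} [Fintype β] (a : β → ℤ) : (N.pw a).Fb p :=
  fun _ => funext fun _ => h _

theorem k4_hp_zero (hF : N.Fb p) (h : ∀ y : Vp 𝒜 p, N.ZeroAt y.1) : N.hp p = 0 :=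
  hp_zero (ev_bot fun y => by
    by_cases hy : (p : A) ∈ pr y
    · exact h ⟨y, hy⟩
    · exact fun m => ⟨0, p, md_natCast_mem p, hy, hF m⟩)

theorem k4_triv (h : ∀ m : N.M, m = 0) (y : Pt 𝒜) : N.ZeroAt y := fun m =>
  ⟨0, 1, SetLike.one_mem_graded 𝒜, md_one_not_mem y, by rw [h m, smul_zero]⟩

section
variable {α β γ : Type} [Fintype α] [Fintype β] [Fintype γ] {a : α → ℤ} {b : β → ℤ} {c : γ → ℤ}
  {D : Matrix α β A} {E : Matrix β γ A}

theorem k4_lo_exact (y : Pt 𝒜) (hD : ∀ i j, D i j ∈ Az 𝒜 (b j - a i + 0))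
    (h : Function.Exact (mact A E) (mact A D)) :
    Function.Exact (mact (Lo y) (E.map (algebraMap A (Lo y))))
      (mact (Lo y) (D.map (algebraMap A (Lo y)))) := fun v => by
  refine ⟨fun h0 => ?_, ?_⟩
  · obtain ⟨k, s, hs, h1, c, hc, e⟩ := lo_vec y b v
    have h2 := lo_mact y D c
    rw [← e, map_smul, h0, smul_zero] at h2
    have h3 := isHom_mact (one 𝒜) hD k c ((one 𝒜).mem_pw.2 hc)
    obtain ⟨c', hc'⟩ := (h c).1 (funext fun i =>
      lo_inj' y ((one 𝒜).mem_pw.1 h3 i) (congrFun h2 i).symm)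
    refine st_div y hs h1 (Z := LinearMap.range _) ⟨_, (lo_mact y _ c').trans ?_⟩
    rw [hc', e]
  · rintro ⟨w, rfl⟩
    exact mact_comp_map _ (k1_mul_zero h) w

/-- homology vanishes where the complex of stalks is exact -/
theorem k4_zeroAt (y : Pt 𝒜) (N : GM 𝒜) (hD : ∀ i j, D i j ∈ Az 𝒜 (b j - a i + 0))
    (hE : ∀ i j, E i j ∈ Az 𝒜 (c j - b i + 0)) (hDE : D * E = 0)
    (h : ∀ v : β → N.St y, mact (N.St y) (D.map (algebraMap A (Lo y))) v = 0 →
      v ∈ LinearMap.range (mact (N.St y) (E.map (algebraMap A (Lo y))))) :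
    ((N.pw b).sq (LinearMap.ker (mact N.M D)) (LinearMap.range (mact N.M E))).ZeroAt y := by
  obtain ⟨e0, h0⟩ := st_pw y N c
  obtain ⟨e1, h1⟩ := st_pw y N b
  obtain ⟨e2, h2⟩ := st_pw y N a
  obtain ⟨φ, s1, s2⟩ := st_sq y (isHom_mact N hE) (isHom_mact N hD) fun v =>
    mact_comp_map (RingHom.id A) hDE v
  refine (st_subsingleton y).1 (subsingleton_of_forall_eq 0 fun ξ => ?_)
  obtain ⟨v, rfl⟩ := s1 ξ
  obtain ⟨w, hw⟩ := h (e1 v.1) (by rw [← st_mact y N D h2 h1, LinearMap.mem_ker.1 v.2, map_zero])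
  exact (s2 v).2 ⟨e0.symm w, e1.injective (by rw [st_mact y N E h1 h0, e0.apply_symm_apply, hw])⟩

theorem k4_split (y : Pt 𝒜) (hD : ∀ i j, D i j ∈ Az 𝒜 (b j - a i + 0))
    (h : Function.Exact (mact A E) (mact A D)) (hs : SplitAt y D) : SplitAt y E :=
  let ⟨_, hτ⟩ := hs
  k1_split_succ (k4_lo_exact y hD h) hτ

theorem k4_hp_sq (hF : N.Fb p) (hD : ∀ i j, D i j ∈ Az 𝒜 (b j - a i + 0))
    (hE : ∀ i j, E i j ∈ Az 𝒜 (c j - b i + 0)) (h : Function.Exact (mact A E) (mact A D))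
    (hs : ∀ y : Vp 𝒜 p, SplitAt y.1 D) :
    ((N.pw b).sq (LinearMap.ker (mact N.M D)) (LinearMap.range (mact N.M E))).hp p = 0 :=
  k4_hp_zero ((ses_sub_quot _ _).fb ((ses_sub_quot _ _).fb (k4_fb_pw hF b)).1).2 fun y =>
    let ⟨_, hτ⟩ := hs y
    k4_zeroAt y.1 N hD hE (k1_mul_zero h) (k4_ex (k4_lo_exact y.1 hD h) hτ)

theorem k4_sub_hp (hF : N.Fb p) (hD : ∀ i j, D i j ∈ Az 𝒜 (b j - a i + 0))
    (hE : ∀ i j, E i j ∈ Az 𝒜 (c j - b i + 0)) (h : Function.Exact (mact A E) (mact A D))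
    (hs : ∀ y : Vp 𝒜 p, SplitAt y.1 D) : ((N.pw b).sub (LinearMap.ker (mact N.M D))).hp p =
      ((N.pw b).sub (LinearMap.range (mact N.M E))).hp p := by
  rw [hp_ses (k4_ses_sq (N.pw b) (Z := LinearMap.ker (mact N.M D)) (isHom_mact N hE).hg_range (by
    rintro _ ⟨v, rfl⟩
    exact mact_comp_map (RingHom.id A) (k1_mul_zero h) v))
    ((ses_sub_quot _ _).fb (k4_fb_pw hF b)).1]
  exact (congrArg _ (k4_hp_sq hF hD hE h hs)).trans (add_zero _)

/-- the kernel of a matrix that is split along the fibre is locally free -/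
theorem k4_T_ker (h : Hyp 𝒜) (hF : N.Fb p) (hD : ∀ i j, D i j ∈ Az 𝒜 (b j - a i + 0))
    (hs : ∀ y : Vp 𝒜 p, SplitAt y.1 D) :
    T p (((one 𝒜).pw b).sub (LinearMap.ker (mact A D))) N =
      ((N.pw b).sub (LinearMap.ker (mact N.M D))).hp p := by
  obtain ⟨R⟩ := res_nonempty (((one 𝒜).pw b).sub (LinearMap.ker (mact A D)))
  have hc := ((one 𝒜).pw b).core_eq (isHom_mact (one 𝒜) hD).hg_ker
  let g : Fin (R.b 0) → β → A := fun j => (R.gen j).1
  let G : Matrix β (Fin (R.b 0)) A := Matrix.of fun i j => g j i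
  have hG : ∀ i j, G i j ∈ Az 𝒜 (R.a 0 j - b i + 0) := fun i j => by
    rw [add_zero]; exact (one 𝒜).mem_pw.1 (R.hgen j) i
  have hD' : ∀ q i j, R.D q i j ∈ Az 𝒜 (R.a (q + 1) j - R.a q i + 0) := fun q i j => by
    rw [add_zero]; exact R.hD q i j
  have lc : ∀ v, mact A G v = (Fintype.linearCombination A R.gen v).1 := fun v => by
    rw [k1_mact_of, Fintype.linearCombination_apply, Fintype.linearCombination_apply]
    exact (map_sum (Submodule.subtype _) (fun j => v j • R.gen j) Finset.univ).symm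
  have e1 : Function.Exact (mact A G) (mact A D) := fun v => ⟨fun hv => by
    obtain ⟨w, hw⟩ := R.surj ⟨v, hc.ge hv⟩
    exact ⟨w, (lc w).trans (congrArg Subtype.val hw)⟩, by
    rintro ⟨w, rfl⟩
    rw [lc]
    exact hc.le (Fintype.linearCombination A R.gen w).2⟩
  have e2 : Function.Exact (mact A (R.D 0)) (mact A G) := fun v =>
    Iff.trans ⟨fun k => Subtype.ext ((lc v).symm.trans k),
      fun k => (lc v).trans (congrArg Subtype.val k)⟩ (R.ex0 v)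
  have s1 : ∀ y : Vp 𝒜 p, SplitAt y.1 G := fun y => k4_split y.1 hD e1 (hs y)
  have s2 : ∀ q, ∀ y : Vp 𝒜 p, SplitAt y.1 (R.D q) := fun q y => by
    induction q with
    | zero => exact k4_split y.1 hG e2 (s1 y)
    | succ q ih => exact k4_split y.1 (hD' q) (R.ex q) ih
  have t : ∀ q, (R.Tor N (q + 1)).hp p = 0 := fun q =>
    k4_hp_sq hF (hD' q) (hD' (q + 1)) (R.ex q) (s2 q)
  have u1 := hp_ses (ses_sub_quot (N.pw (R.a 0)) (LinearMap.range (mact N.M (R.D 0))))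
    (k4_fb_pw hF _)
  have u2 := hp_ses (k4_ses_ker (isHom_mact N hG)) (k4_fb_pw hF _)
  rw [T_eq h R (Or.inr hF), Res.TT, Finset.sum_range_succ', k4_sub_hp hF hD hG e1 hs]
  simp only [t, mul_zero, Finset.sum_const_zero, zero_add, pow_zero, one_mul]
  exact add_left_cancel (u1.symm.trans (u2.trans
    (congrArg (· + _) (k4_sub_hp hF hG (hD' 0) e2 s1))))

theorem k4_T_ses (h : Hyp 𝒜) (hs : SES N₁ N₂ N₃) (hF : N.Fb p) :
    T p N₂ N = T p N₁ N + T p N₃ N := by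
  rw [T_symm h (Or.inr hF), T_ses h hs (Or.inl hF), T_symm h (Or.inl hF),
    T_symm h (N' := N₃) (Or.inl hF)]

theorem k4_T_pw (h : Hyp 𝒜) (hF : N.Fb p) (b : β → ℤ) : T p ((one 𝒜).pw b) N = (N.pw b).hp p := by
  have hD : ∀ i j, (0 : Matrix (Fin 0) β A) i j ∈ Az 𝒜 (b j - (0 : Fin 0 → ℤ) i + 0) :=
    fun i => i.elim0
  have z : ∀ (M : GM 𝒜) (Z) (y : Pt 𝒜), ((M.pw (0 : Fin 0 → ℤ)).sub Z).ZeroAt y := fun M Z =>
    k4_triv fun m => Subtype.ext (funext fun i => i.elim0)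
  have s := k4_ses_ker (isHom_mact N hD)
  rw [k4_T_ses h (k4_ses_ker (isHom_mact (one 𝒜) hD)) hF,
    T_disj h (Or.inr hF) fun y => Or.inl (z _ _ y.1), hp_ses s (k4_fb_pw hF b),
    k4_hp_zero (s.fb (k4_fb_pw hF b)).2 fun y => z _ _ y.1]
  exact congrArg (· + 0) (k4_T_ker h hF hD fun y => ⟨0, Subsingleton.elim _ _⟩)

theorem SplitAt.k4_tr {y : Pt 𝒜} (h : SplitAt y D) : SplitAt y Dᵀ := by
  obtain ⟨τ, hτ⟩ := h
  refine ⟨τᵀ, ?_⟩
  rw [Matrix.transpose_map, ← Matrix.transpose_mul, ← Matrix.transpose_mul, ← Matrix.mul_assoc, hτ]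

end

theorem k4_hD (R : Res N) (q : ℕ) (i : Fin (R.b (q + 1))) (j : Fin (R.b q)) :
    (R.D q)ᵀ i j ∈ Az 𝒜 ((-R.a q) j - (-R.a (q + 1)) i + 0) := by
  have := R.hD q j i
  rwa [show R.a (q + 1) i - R.a q j = (-R.a q) j - (-R.a (q + 1)) i + 0 by
    simp only [Pi.neg_apply]; ring] at this

theorem k4_DD (R : Res N) (q : ℕ) : (R.D (q + 1))ᵀ * (R.D q)ᵀ = 0 := by
  rw [← Matrix.transpose_mul, st_DD, Matrix.transpose_zero]

theorem k4_ext_kill (R : Res N) {s : A} (h : (∀ m : N.M, s • m = 0) ∨ ∀ m : N'.M, s • m = 0) (q : ℕ)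
    (t : (R.Ext N' q).M) : s • t = 0 := by
  rcases h with h | h
  · obtain ⟨H, h0, h1⟩ := R.homot h
    cases q with
    | zero =>
      have e := congrArg Matrix.transpose h0
      rw [Matrix.transpose_mul, Matrix.transpose_smul, Matrix.transpose_one] at e
      have e' : ∀ v : Fin (R.b 0) → N'.M, mact N'.M (R.D 0)ᵀ v = 0 → s • v = 0 := fun v hv => by
        rw [← k1_mact_one (R := A) v, ← k1_mact_smul, ← e, k1_mact_mul, hv, map_zero]
      exact Subtype.ext (e' t.1 (GM.core_le _ _ t.2))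
    | succ q =>
      have e := congrArg Matrix.transpose (h1 q)
      rw [Matrix.transpose_add, Matrix.transpose_mul, Matrix.transpose_mul, Matrix.transpose_smul,
        Matrix.transpose_one] at e
      exact k1_sq_kill (st_hom_tr R N' q).hg_range
        (fun v hv => k1_hom1 ((add_comm _ _).trans e) v hv) t
  · have h2 : ∀ (k : ℕ) (v : Fin k → N'.M), s • v = 0 := fun k v => funext fun i => h _
    cases q with
    | zero => exact Subtype.ext (h2 _ t.1)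
    | succ q =>
      refine k1_sq_kill (st_hom_tr R N' q).hg_range (fun v _ => ?_) t
      exact (h2 _ v).symm ▸ zero_mem _

theorem ext_fb (R : Res N) (hF : N.Fb p ∨ N'.Fb p) (q : ℕ) : (R.Ext N' q).Fb p :=
  k4_ext_kill R hF q

theorem ext_zeroAt (R : Res N) (N' : GM 𝒜) (q : ℕ) {y : Pt 𝒜} (hs : SplitAt y (R.D q)) :
    (R.Ext N' (q + 1)).ZeroAt y := by
  classical
  obtain ⟨τ, hτ⟩ := hs
  obtain ⟨K, hK⟩ := k1_lift' ((st_res y R).2.2 q) (1 - τ * (R.D q).map (algebraMap A (Lo y))) (by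
    rw [Matrix.mul_sub, Matrix.mul_one, ← Matrix.mul_assoc, hτ, sub_self])
  refine k4_zeroAt y N' (k4_hD R (q + 1)) (k4_hD R q) (k4_DD R q) fun v hv => ?_
  rw [Matrix.transpose_map] at hv ⊢
  have := k1_hom1 (D := ((R.D q).map (algebraMap A (Lo y)))ᵀ) (H := τᵀ) (H' := Kᵀ) (s := 1) (by
    rw [← Matrix.transpose_mul, ← Matrix.transpose_mul, hK, ← Matrix.transpose_add, add_sub_cancel,
      Matrix.transpose_one, one_smul]) v hv
  rwa [one_smul] at this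

theorem ext_dual (h : Hyp 𝒜) (R : Res N) (hF : N.Fb p) (hF' : N'.Fb p)
    (hs : ∀ y : Vp 𝒜 p, SplitAt y.1 (R.D 2)) :
    (R.Ext N' 0).hp p - (R.Ext N' 1).hp p + (R.Ext N' 2).hp p =
      T p (R.Ext (one 𝒜) 2) N' - T p (R.Ext (one 𝒜) 1) N' := by
  have dd : ∀ (M : GM 𝒜) q v, mact M.M (R.D (q + 1))ᵀ (mact M.M (R.D q)ᵀ v) = 0 := fun M q v =>
    mact_comp_map (RingHom.id A) (k4_DD R q) v
  have e1 := k4_euler (fun M => M.hp p) (fun M => M.Fb p) (fun s q => (s.fb q).1) hp_ses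
    (st_hom_tr R N' 0) (st_hom_tr R N' 1) (st_hom_tr R N' 2)
    (dd N' 0) (dd N' 1) (k4_fb_pw hF' _) (k4_fb_pw hF' _) (k4_fb_pw hF' _)
  have e2 := k4_euler (fun M => T p M N') (fun _ => True) (fun _ q => q)
    (fun s _ => k4_T_ses h s hF') (st_hom_tr R (one 𝒜) 0) (st_hom_tr R (one 𝒜) 1)
    (st_hom_tr R (one 𝒜) 2) (dd _ 0) (dd _ 1) trivial trivial trivial
  have e3 : T p (R.Ext (one 𝒜) 0) N' = 0 :=
    T_disj h (Or.inr hF') fun y => Or.inl (k4_triv (fun m => Subtype.ext (_root_.funext fun i => by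
      haveI := h.cz
      have k : (p : A) * (show Fin (R.b 0) → A from m.1) i = 0 :=
        congrFun (congrArg Subtype.val (ext_fb R (Or.inl hF) 0 m)) i
      exact (mul_eq_zero.1 k).resolve_left (Nat.cast_ne_zero.2 (Fact.out : p.Prime).ne_zero))) y.1)
  have e4 := k4_T_ker h hF' (k4_hD R 2) fun y => (hs y).k4_tr
  refine e1.trans ?_
  rw [← k4_T_pw h hF', ← k4_T_pw h hF']
  refine (congrArg (_ + ·) e4.symm).trans (e2.symm.trans ?_)
  change T p (R.Ext (one 𝒜) 0) N' - T p (R.Ext (one 𝒜) 1) N' + T p (R.Ext (one 𝒜) 2) N' = _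
  rw [e3]
  abel

end

end Pool.Agent.Lib.MP_62d77c_ag.R
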