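import Pool.Agent.Lib.MP_62d77c_ag.R.K5t
import Pool.Agent.Lib.MP_62d77c_ag.R.K4
import Pool.Agent.Lib.MP_62d77c_ag.R.DevA

/-! Multiplicities are positive; the second Ext group lives on points. -/

set_option autoImplicit false
set_option linter.unusedSectionVars false
set_option linter.unusedVariables false

namespace Pool.Agent.Lib.MP_62d77c_ag.R

open Filter Polynomial Submodule

noncomputable section

variable {A : Type} [CommRing A] [IsDomain A] {𝒜 : ℕ → AddSubgroup A} [GradedRing 𝒜]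
  [hG : Fact (Gen 𝒜)] {p : ℕ} [Fact p.Prime]

theorem k5s_dimLt (h : Hyp 𝒜) (N : GM 𝒜) : N.DimLt p 4 := fun y hy => by
  have := (dim_lo h y).1
  omega

theorem mu_pos (h : Hyp 𝒜) (j : Comp 𝒜 p) : 0 < mu j := by
  refine Nat.pos_of_ne_zero fun e => ?_
  have h3 : dm j.1 = 3 := dm_xc h j
  have := (len_eq_zero (fb_cy (Ideal.mem_span_singleton_self _)) j.1
    (by rw [h3]; exact k5s_dimLt h _)).1 e
  exact (zeroAt_cy (md_span_hom (md_natCast_mem p)) _).1 this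
    ((Ideal.span_singleton_le_iff_mem _).2 j.1.2)

theorem ext_two_nonneg (h : Hyp 𝒜) (ff : FFD 𝒜 p) (j : Comp 𝒜 p) (D : Dvs (Xc j).L)
    (R : Res (GD ff j D)) (N' : GM 𝒜) :
    (R.Ext N' 2).Fb p ∧ (R.Ext N' 2).DimLt p 1 ∧ 0 ≤ ((R.Ext N' 2).hp p).eval 0 := by
  have h1 : (R.Ext N' 2).Fb p := ext_fb R (Or.inl (fb_gm _ _)) 2
  have h2 : (R.Ext N' 2).DimLt p 1 := fun y hy => ext_zeroAt R N' 1 (split_one h ff j D R y hy)
  exact ⟨h1, h2, hp_nonneg h1 h2⟩

end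

end Pool.Agent.Lib.MP_62d77c_ag.R
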