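import Pool.Agent.Lib.MP_62d77c_ag.R.G1
import Pool.Agent.Lib.MP_62d77c_ag.R.N1f

/-! The degree of the multiples of a Cartier divisor on a prime divisor is affine linear. -/

set_option autoImplicit false
set_option linter.unusedSectionVars false

namespace Pool.Agent.Lib.MP_62d77c_ag.R

open Filter Polynomial Submodule

noncomputable section

section field
variable {k K : Type} [Field k] [Field K] [Algebra k K] {V : Submodule k K}
  {R : ℕ → Submodule k K} {B : ℤ → ℕ → Submodule k K}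

theorem rc_lin (hR : G1R V R) (hB : G1B V R B) (hz : ∀ s, R s ≤ B 0 s)
    (h2 : (hp R).natDegree = 2) :
    ∃ r : ℚ, ∀ n : ℕ, (hp (B n)).coeff 1 - n * r = (hp (B 0)).coeff 1 := by
  have hV := hR.mdl
  obtain ⟨e, c1, ⟨c3, c4⟩, c5⟩ := ((hB.cube hR).and
    ((hR.add.and hR.fg).and (eventually_gt_atTop 0))).exists
  have hW : Mdl (R e) := ⟨c4.1, fun q => car_pow_ne hV e (le_bot_iff.1 (q ▸ hR.pow e))⟩
  have te : Tendsto (fun t : ℕ => t * e) atTop atTop := tendsto_id.atTop_mul_const' c5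
  have e0 : (e : ℚ) ≠ 0 := by exact_mod_cast c5.ne'
  have pw1 : ∀ᶠ t in atTop, R e ^ t = R (t * e) := by
    filter_upwards [eventually_gt_atTop 0] with t ht
    obtain ⟨t, rfl⟩ := Nat.exists_eq_add_one_of_ne_zero ht.ne'
    exact g1_ver c3 t
  have hpW : hp (pw (R e)) = (hp R).comp (C (e : ℚ) * X) := hp_unique (by
    filter_upwards [pw1, te.eventually (hp_spec hV.1 hR.fg)] with t a1 a2
    rw [eval_comp, show pw (R e) t = R (t * e) from a1, ← a2]
    simp [mul_comm])
  have hd : dimV (R e) = 2 := by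
    rw [dimV, hpW, natDegree_comp, h2, natDegree_C_mul_X _ e0]
  have hU : R e * B 1 e * (R e * B (-1) e) = R e ^ 4 := by
    rw [pow_succ' _ 3, ← c1]; ring
  obtain ⟨D, r⟩ := exists_car hU 2
  have fp : Fg (R e) (pw (R e)) := fg_pw' hW.1
  have gm : ∀ (n : ℕ) t, g1m (B n) R t = B n t := fun n t => by
    refine le_antisymm (g1m_le fun i j q => ?_) fun x hx => ?_
    · have := (mul_le_mul_right (hz j) _).trans (hB.mul n 0 i j)
      rwa [add_zero, q] at this
    · simpa using g1m_ge (B n) R t 0 (mul_mem_mul hx (hB.zero 0 hB.one))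
  have key : ∀ n : ℕ, PP (R e) (cl D ^ n) = (hp (B n)).comp (C (e : ℚ) * X) := fun n => by
    refine hilb_ext ?_
    have tn := tendsto_sub_atTop_nat n
    filter_upwards [hq_spec hW fp (D ^ n), tw_rep fp (r.pow n), eventually_ge_atTop (n * 2),
      (te.comp tn).eventually (hB.fam hR c1 n), tn.eventually pw1,
      te.eventually (hp_spec hV.1 (hB.fg n))] with t a1 a2 a3 a4 a5 a6
    obtain ⟨s, rfl⟩ := Nat.exists_eq_add_of_le a3
    have e1 : n * 2 + s - n = n + s := by omega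
    simp only [Function.comp, e1] at a4 a5
    have e2 : tw (D ^ n) (pw (R e)) (n * 2 + s) = B n ((n * 2 + s) * e) := by
      rw [a2, show (n * 2 + s) * e = (n + s) * e + n * e by ring, ← gm, a4, ← a5,
        Nat.add_sub_cancel_left, smul_eq_mul, mul_pow, pow_add]
      exact mul_right_comm _ _ _
    rw [e2, map_pow, ← a6] at a1
    rw [eval_comp]
    refine a1.trans ?_
    simp [mul_comm]
  refine ⟨i1 (R e) 2 (cl D) / e, fun n => ?_⟩
  have l := snap_i1_pow hW (cl D) n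
  rw [hd] at l
  have l' : (PP (R e) (1 * cl D ^ n) - PP (R e) 1).coeff 1 = _ := l
  have k0 := key 0
  rw [pow_zero, Nat.cast_zero] at k0
  rw [one_mul, key, k0, coeff_sub, comp_C_mul_X_coeff, comp_C_mul_X_coeff, pow_one] at l'
  field_simp
  linarith

end field

variable {A : Type} [CommRing A] [IsDomain A] {𝒜 : ℕ → AddSubgroup A} [GradedRing 𝒜]
  [hG : Fact (Gen 𝒜)] {p : ℕ} [Fact p.Prime]

theorem rc_hp_bar {X Y : Mo 𝒜 p} (S : Sp X Y) (D : Dvs X.L) : hp (S.bar D) = X.hb S.O D := by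
  refine hp_unique ?_
  filter_upwards [hp_spec X.n1q_mdl.1 (X.ff_MD D).fg,
    hp_spec X.n1q_mdl.1 (X.ff_MD (D - Finsupp.single S.O 1)).fg] with n a1 a2
  have := Module.Finite.iff_fg.2 ((X.ff_MD D).fd n)
  have h1 := LinearMap.finrank_range_add_finrank_ker (S.evl D n)
  have le : X.MD (D - Finsupp.single S.O 1) n ≤ X.MD D n := X.MD_mono (fun O _ => by
    classical
    rw [Finsupp.sub_apply, Finsupp.single_apply]
    split_ifs <;> omega) n
  have h3 : LinearMap.ker (S.evl D n) =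
      (X.MD (D - Finsupp.single S.O 1) n).comap (X.MD D n).subtype :=
    Submodule.ext fun z => S.ev_eq_zero_iff z.2
  rw [h3, (comapSubtypeEquivOfLe le).finrank_eq, ← S.bar_eq] at h1
  rw [Mo.hb, eval_sub, a1, a2, ← h1]
  push_cast
  ring

theorem sl_cart (X : Mo 𝒜 p) (h3 : dm X.x = 3) {O : ValuationSubring X.L} (h : O ∈ X.PD)
    {D : Dvs X.L} (hD : X.Cart D) : ∃ r c : ℚ, ∀ n : ℕ, |X.sl O (n • D) - n * r| ≤ c := by
  obtain ⟨Y, S, rfl, -⟩ := X.exists_sp h
  have h2 : (hp (S.bar 0)).natDegree = 2 := by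
    have := S.dm_eq
    rw [(natDegree_hp Y.n1q_mdl (S.ff_bar 0).fg (S.bar_ne 0).frequently).1, br_dimV]
    omega
  obtain ⟨r, hr⟩ := rc_lin (V := Y.V) (R := S.bar 0)
    ⟨Y.n1q_mdl, (S.ff_bar 0).fg, fun m n => by simpa using S.bar_mul 0 0 m n, S.pow_le_bar⟩
    (g1_B S (fun _ => le_rfl) hD) (fun s => by rw [zero_smul]) h2
  refine ⟨r / X.fdeg S.O, |(hp (S.bar ((0 : ℤ) • D))).coeff 1 / X.fdeg S.O|, fun n => ?_⟩
  have := hr n
  rw [natCast_zsmul, rc_hp_bar] at this
  rw [← this, Mo.sl, sub_div, mul_div_assoc]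

end

end Pool.Agent.Lib.MP_62d77c_ag.R
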