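import Pool.Agent.Lib.MP_62d77c_ag.R.NC
import Pool.Agent.Lib.MP_62d77c_ag.R.K5s
import Pool.Agent.Lib.MP_62d77c_ag.R.RC
import Pool.Agent.Lib.MP_62d77c_ag.R.HB
import Pool.Agent.Lib.MP_62d77c_ag.R.A3a

/-! Finite sets of prime divisors: push-forward, degrees, the form `β`. -/

set_option autoImplicit false
set_option linter.unusedSectionVars false

namespace Pool.Agent.Lib.MP_62d77c_ag.R

open Filter Polynomial Submodule Finset

noncomputable section

variable {A : Type} [CommRing A] [IsDomain A] {𝒜 : ℕ → AddSubgroup A} [GradedRing 𝒜]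
  [hG : Fact (Gen 𝒜)] {p : ℕ} [Fact p.Prime]

theorem a4_comp (P : ℚ[X]) (a : ℚ) (hP : P ∈ degreeLT ℚ 4) :
    (P.comp (X + C a)).coeff 2 = P.coeff 2 + 3 * a * P.coeff 3 ∧
      (P.comp (X + C a)).coeff 1 = P.coeff 1 + 2 * a * P.coeff 2 + 3 * a ^ 2 * P.coeff 3 := by
  have e : P.comp (X + C a) = C (P.coeff 3) * X ^ 3 + C (P.coeff 2 + 3 * a * P.coeff 3) * X ^ 2
      + C (P.coeff 1 + 2 * a * P.coeff 2 + 3 * a ^ 2 * P.coeff 3) * X ^ 1 + C (P.eval a) :=
    Polynomial.funext fun t => by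
      simp only [eval_comp, eval_add, eval_mul, eval_pow, eval_X, eval_C, s1_eval4 hP]
      ring
  rw [e]
  simp only [coeff_add, coeff_C_mul, coeff_X_pow, coeff_C]
  simp

/-- adding `E` changes the slope by `r` -/
def Mo.Sh (X : Mo 𝒜 p) (O : ValuationSubring X.L) (E : Dvs X.L) (r : ℚ) : Prop :=
  ∀ D, X.sl O (D + E) = X.sl O D + r

namespace Mo.Sh
variable {X : Mo 𝒜 p} {O : ValuationSubring X.L} {E E' : Dvs X.L} {r r' : ℚ}

theorem zero : X.Sh O 0 0 := fun D => by simp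

theorem add (h : X.Sh O E r) (h' : X.Sh O E' r') : X.Sh O (E + E') (r + r') := fun D => by
  rw [← add_assoc, h', h, add_assoc]

theorem neg (h : X.Sh O E r) : X.Sh O (-E) (-r) := fun D => by
  have := h (D + -E)
  rw [neg_add_cancel_right] at this
  rw [this, add_neg_cancel_right]

theorem nsmul (h : X.Sh O E r) (n : ℕ) : X.Sh O (n • E) (n * r) := by
  induction n with
  | zero => simpa using zero
  | succ n ih => simpa [succ_nsmul, add_mul] using ih.add h

theorem sum {ι : Type} (s : Finset ι) {E : ι → Dvs X.L} {r : ι → ℚ}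
    (h : ∀ i ∈ s, X.Sh O (E i) (r i)) : X.Sh O (∑ i ∈ s, E i) (∑ i ∈ s, r i) := by
  classical
  induction s using Finset.induction_on with
  | empty => simpa using zero
  | insert a s ha ih =>
    rw [sum_insert ha, sum_insert ha]
    exact (h a (mem_insert_self _ _)).add (ih fun i hi => h i (mem_insert_of_mem hi))

end Mo.Sh

theorem a4_sh_div (X : Mo 𝒜 p) (h3 : dm X.x = 3) {O : ValuationSubring X.L} (h : O ∈ X.PD)
    {z : X.L} (hz : z ≠ 0) {e : ℕ} {E : Dvs X.L} (hE : X.IsDiv z e E) :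
    X.Sh O E (2 * e * dg (X.cen O)) := fun D => by
  have e1 : X.hb O (D + E) = (X.hb O D).comp (Polynomial.X + C (e : ℚ)) := by
    rw [Mo.hb, Mo.hb, add_sub_right_comm, hp_md_div X hz hE, hp_md_div X hz hE, sub_comp]
  obtain ⟨h1, h2⟩ := hb_top X h3 h D
  have h0 : (X.fdeg O : ℚ) ≠ 0 := by exact_mod_cast (fdeg_pos X h).ne'
  rw [Mo.sl, Mo.sl, e1, (a4_comp _ _ (degreeLT_mono (by norm_num) h1)).2, h2,
    (mem_degreeLT.1 h1 |> coeff_eq_zero_of_degree_lt : (X.hb O D).coeff 3 = 0)]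
  field_simp
  ring

/-- the push-forward as a homomorphism -/
def Mo.pshH (X : Mo 𝒜 p) : Dvs X.L →+ (Vp 𝒜 p →₀ ℤ) := AddMonoidHom.mk' X.psh fun D E =>
  Finsupp.sum_add_index' (fun O => by simp) fun O a b => by
    split_ifs <;> simp [add_mul]

variable {s : FS 𝒜 p}

theorem emb_apply (D : BI s → ℤ) (b : BI s) : emb s D b.1 b.2.1 = D b := by
  classical
  change (∑ O : s b.1, Finsupp.single O.1 (D ⟨b.1, O⟩)) b.2.1 = _
  rw [Finsupp.finsetSum_apply, sum_eq_single b.2]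
  · simp
  · intro O _ hO
    exact Finsupp.single_eq_of_ne fun e => hO (Subtype.ext e.symm)
  · simp

theorem emb_off (D : BI s → ℤ) (j : Comp 𝒜 p) {O : ValuationSubring (Xc j).L} (h : O ∉ s j) :
    emb s D j O = 0 := by
  change (∑ O : s j, Finsupp.single O.1 (D ⟨j, O⟩)) O = _
  rw [Finsupp.finsetSum_apply]
  exact sum_eq_zero fun O' _ => Finsupp.single_eq_of_ne fun e => h (e ▸ O'.2)

theorem emb_eq {D : BI s → ℤ} {j : Comp 𝒜 p} {E : Dvs (Xc j).L} (h : E.support ⊆ s j)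
    (e : ∀ O : s j, D ⟨j, O⟩ = E O.1) : emb s D j = E := Finsupp.ext fun O => by
  by_cases hO : O ∈ s j
  · exact (emb_apply D ⟨j, O, hO⟩).trans (e _)
  · rw [emb_off D j hO, Finsupp.notMem_support_iff.1 fun h' => hO (h h')]

theorem emb_single [DecidableEq (BI s)] (b : BI s) (n : ℤ) :
    emb s (Pi.single b n) b.1 = Finsupp.single b.2.1 n := by
  refine emb_eq (Finsupp.support_single_subset.trans (by simp)) fun O => ?_
  by_cases h : O = b.2
  · subst h; simp
  · have hne : (⟨b.1, O⟩ : BI s) ≠ b := fun e => h (eq_of_heq (Sigma.ext_iff.1 e).2)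
    rw [Pi.single_eq_of_ne hne, Finsupp.single_eq_of_ne fun e => h (Subtype.ext e)]

theorem emb_single_ne [DecidableEq (BI s)] (b : BI s) (n : ℤ) {j : Comp 𝒜 p} (h : j ≠ b.1) :
    emb s (Pi.single b n) j = 0 :=
  emb_eq (by simp) fun O => Pi.single_eq_of_ne (fun e => h (congrArg Sigma.fst e)) _

theorem psh_emb (hs : s.PD) (D : BI s → ℤ) (j : Comp 𝒜 p) : (Xc j).psh (emb s D j) =
    ∑ O : s j, Finsupp.single ((Xc j).cen O.1) (D ⟨j, O⟩ * (Xc j).fdeg O.1) := by
  change (Xc j).pshH (∑ O : s j, Finsupp.single O.1 (D ⟨j, O⟩)) = _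
  rw [map_sum]
  refine sum_congr rfl fun O _ => ?_
  change (Xc j).psh _ = _
  rw [Mo.psh, Finsupp.sum_single_index (by simp), if_pos (hs j _ O.2)]

theorem push_emb [DecidableEq (Vp 𝒜 p)] (hs : s.PD) (D : BI s → ℤ) (W : Vp 𝒜 p) :
    push (emb s D) W = ∑ b with b.cen = W, (b.wt : ℤ) * D b := by
  rw [push, Finsupp.finsetSum_apply, sum_filter, Fintype.sum_sigma]
  refine sum_congr rfl fun j _ => ?_
  rw [psh_emb hs, Finsupp.smul_apply, Finsupp.finsetSum_apply, smul_sum]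
  refine sum_congr rfl fun O _ => ?_
  rw [Finsupp.single_apply]
  simp only [BI.cen, BI.wt]
  split_ifs
  · push_cast; ring
  · simp

theorem wt_pos (h : Hyp 𝒜) (hs : s.PD) (b : BI s) : 0 < b.wt :=
  mul_pos (mu_pos h _) (fdeg_pos _ (hs _ _ b.2.2))

theorem dm_cen (h : Hyp 𝒜) (hs : s.PD) (b : BI s) : dm b.cen = 2 := by
  have := (pd_cen _ (hs _ _ b.2.2)).2
  rw [dm_xc h] at this
  exact Nat.succ_injective this

open Classical in
/-- the degree functionals -/
def gw (s : FS 𝒜 p) (j : Comp 𝒜 p) (b : BI s) : ℝ := if b.1 = j then b.wt * (dg b.cen : ℚ) else 0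

theorem sum_gw (j : Comp 𝒜 p) (x : BI s → ℝ) : ∑ b, x b * gw s j b =
    mu j * ∑ O : s j, x ⟨j, O⟩ * ((Xc j).fdeg O.1 * (dg ((Xc j).cen O.1) : ℚ)) := by
  rw [Fintype.sum_sigma, sum_eq_single j, mul_sum]
  · refine sum_congr rfl fun O _ => ?_
    simp only [gw, if_true, BI.wt, BI.cen]
    push_cast; ring
  · intro k _ hk
    exact sum_eq_zero fun O _ => by simp [gw, hk]
  · simp

theorem sum_gw_psh (hs : s.PD) (j : Comp 𝒜 p) (D : BI s → ℤ) : ∑ b, (D b : ℝ) * gw s j b =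
    mu j * ((Xc j).psh (emb s D j)).sum fun W n => (n : ℝ) * (dg W : ℚ) := by
  rw [sum_gw, psh_emb hs, ← Finsupp.sum_finsetSum_index (by simp) (by simp [add_mul])]
  congr 1
  refine sum_congr rfl fun O _ => ?_
  rw [Finsupp.sum_single_index (by simp)]
  push_cast; ring

theorem sum_gw_coeff (h : Hyp 𝒜) (hs : s.PD) (j : Comp 𝒜 p) (D : BI s → ℤ) :
    ∑ b, (D b : ℝ) * gw s j b = mu j * ((hp ((Xc j).MD (emb s D j))).coeff 2 : ℚ)
      - mu j * ((hp ((Xc j).MD 0)).coeff 2 : ℚ) := by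
  classical
  have := a1f_step_bound (fun D => mu j * (((hp ((Xc j).MD (emb s D j))).coeff 2 : ℚ) : ℝ)
    - ∑ b, (D b : ℝ) * gw s j b) 0 (fun D b => by
      have e : ∑ a, ((D - Pi.single b 1 : BI s → ℤ) a : ℝ) * gw s j a
          = ∑ a, (D a : ℝ) * gw s j a - gw s j b := by
        simp [sub_mul, sum_sub_distrib, Pi.single_apply]
      rw [e, map_sub, Pi.sub_apply, abs_nonpos_iff]
      by_cases hj : j = b.1
      · subst hj
        have h1 := (hb_top _ (dm_xc h b.1) (hs _ _ b.2.2) (emb s D b.1)).2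
        rw [Mo.hb, coeff_sub, sub_eq_iff_eq_add] at h1
        rw [emb_single, h1]
        simp only [gw, if_true, BI.wt, BI.cen]
        push_cast; ring
      · rw [emb_single_ne b 1 hj, sub_zero]
        simp [gw, Ne.symm hj]) D
  simp only [zero_mul, abs_nonpos_iff, map_zero, Pi.zero_apply, Int.cast_zero, sum_const_zero,
    sub_zero] at this
  linarith

/-- the degree function -/
def dw (s : FS 𝒜 p) (D : BI s → ℤ) (b : BI s) : ℝ :=
  b.wt * (((Xc b.1).sl b.2.1 (emb s D b.1) : ℚ) : ℝ)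

/-- the almost quadratic function -/
def qw (s : FS 𝒜 p) (D : BI s → ℤ) : ℝ := ∑ j, (mu j : ℝ) * ((Xc j).qq (emb s D j) : ℚ)

theorem a4_hyp [DecidableEq (BI s)] (h : Hyp 𝒜) (hs : s.PD) : ∃ C : ℝ,
    (∀ b D E, |dw s (D + E) b - dw s D b - dw s E b| ≤ C) ∧
    (∀ D b, |qw s D - qw s (D - Pi.single b 1) - dw s D b| ≤ C) ∧
    ∀ c : ℝ, ∃ C' : ℝ, ∀ D : BI s → ℤ, (∀ i, |∑ b, (D b : ℝ) * gw s i b| ≤ c) → qw s D ≤ C' := by
  choose c hc using fun b : BI s => sl_quasi _ (dm_xc h b.1) (hs _ _ b.2.2)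
  let k : BI s → ℝ := fun b => b.wt * (|(c b : ℝ)| + |((dg b.cen : ℚ) : ℝ)|)
  have hk : ∀ b, k b ≤ ∑ b, k b := fun b =>
    single_le_sum (f := k) (fun _ _ => by positivity) (mem_univ b)
  unfold dw qw
  exact ⟨∑ b, k b,
    (fun b D E => by
      refine le_trans ?_ (hk b)
      rw [← mul_sub, ← mul_sub, abs_mul, Nat.abs_cast, map_add, Pi.add_apply]
      refine mul_le_mul_of_nonneg_left (le_trans ?_ (le_add_of_nonneg_right (abs_nonneg _)))
        (Nat.cast_nonneg _)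
      exact le_trans (by exact_mod_cast hc b _ _) (le_abs_self _)),
    (fun D b => by
      refine le_trans ?_ (hk b)
      rw [← sum_sub_distrib, sum_eq_single b.1, map_sub, Pi.sub_apply, emb_single]
      · obtain ⟨e1, e2⟩ := hb_top _ (dm_xc h b.1) (hs _ _ b.2.2) (emb s D b.1)
        have h0 : ((Xc b.1).fdeg b.2.1 : ℚ) ≠ 0 := by exact_mod_cast (fdeg_pos _ (hs _ _ b.2.2)).ne'
        have e3 : (Xc b.1).qq (emb s D b.1) - (Xc b.1).qq (emb s D b.1 - Finsupp.single b.2.1 1)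
            = (Xc b.1).fdeg b.2.1 * ((Xc b.1).sl b.2.1 (emb s D b.1) - dg b.cen) := by
          have e4 := s1_eval3 e1 0
          have e5 := s1_eval3 e1 (-1)
          rw [Mo.sl, mul_sub, mul_div_cancel₀ _ h0, BI.cen, ← e2]
          simp only [Mo.hb, eval_sub] at e4 e5 ⊢
          simp only [Mo.qq]
          linarith
        rw [← mul_sub, ← Rat.cast_sub, e3]
        have e6 : ∀ a b c d : ℝ, a * (b * (c - d)) - a * b * c = -(a * b * d) := fun _ _ _ _ => by
          ring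
        simp only [k, BI.wt]
        push_cast
        rw [e6, abs_neg, abs_mul, abs_of_nonneg (by positivity)]
        exact mul_le_mul_of_nonneg_left (le_add_of_nonneg_left (abs_nonneg _)) (by positivity)
      · intro j _ hj
        rw [map_sub, Pi.sub_apply, emb_single_ne b 1 hj, sub_zero, sub_self]
      · simp),
    fun c' => by
      obtain ⟨c'', hc''⟩ := exists_rat_gt c'
      choose B hB using fun j : Comp 𝒜 p =>
        qq_le _ (dm_xc h j) (|(hp ((Xc j).MD 0)).coeff 2| + c'')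
      refine ⟨∑ j, (mu j : ℝ) * B j, fun D hD => sum_le_sum fun j _ => ?_⟩
      refine mul_le_mul_of_nonneg_left (Rat.cast_le.2 (hB j _ ?_)) (Nat.cast_nonneg _)
      have e1 := (hD j).trans hc''.le
      rw [sum_gw_coeff h hs, ← mul_sub, abs_mul, Nat.abs_cast] at e1
      have e2 := (le_mul_of_one_le_left (abs_nonneg _)
        (by exact_mod_cast mu_pos h j : (1 : ℝ) ≤ mu j)).trans e1
      have e3 : |(hp ((Xc j).MD (emb s D j))).coeff 2 - (hp ((Xc j).MD 0)).coeff 2| ≤ c'' := by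
        exact_mod_cast e2
      linarith [abs_sub_abs_le_abs_sub ((hp ((Xc j).MD (emb s D j))).coeff 2)
        ((hp ((Xc j).MD 0)).coeff 2)]⟩

end

end Pool.Agent.Lib.MP_62d77c_ag.R
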