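import Mathlib

/-! Regular pairs, annihilation of socle classes, embedding of torsion classes, and modules
determined by a finite quotient. -/

set_option autoImplicit false

namespace Pool.Agent.Lib.MP_62d77c_ag.R.Ann

open Function

variable {R : Type} [CommRing R]

/-- `y₁, y₂` is a regular pair on `M` modulo the submodule `Y` -/
def RPm {M : Type} [AddCommGroup M] [Module R M] (Y : Submodule R M) (y₁ y₂ : R) : Prop :=
  (∀ m : M, y₁ • m ∈ Y → m ∈ Y) ∧ ∀ m m' : M, y₂ • m - y₁ • m' ∈ Y → ∃ u, m - y₁ • u ∈ Y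

/-- `y₁, y₂` is a regular pair on `M` -/
def RP (M : Type) [AddCommGroup M] [Module R M] (y₁ y₂ : R) : Prop :=
  (∀ m : M, y₁ • m = 0 → m = 0) ∧ ∀ m m' : M, y₂ • m = y₁ • m' → ∃ u, m = y₁ • u

/-- the submodule `y₁ M + y₂ M` -/
def two (M : Type) [AddCommGroup M] [Module R M] (y₁ y₂ : R) : Submodule R M where
  carrier := {m | ∃ a b : M, m = y₁ • a + y₂ • b}
  zero_mem' := ⟨0, 0, by simp⟩
  add_mem' := by
    rintro _ _ ⟨a, b, rfl⟩ ⟨a', b', rfl⟩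
    exact ⟨a + a', b + b', by module⟩
  smul_mem' := by
    rintro c _ ⟨a, b, rfl⟩
    exact ⟨c • a, c • b, by module⟩

section mods
variable {M N F₀ F₁ F₂ : Type} [AddCommGroup M] [Module R M] [AddCommGroup N] [Module R N]
  [AddCommGroup F₀] [Module R F₀] [AddCommGroup F₁] [Module R F₁] [AddCommGroup F₂] [Module R F₂]
  {y₁ y₂ w₁ w₂ : R}

theorem mem_two {m : M} : m ∈ two M y₁ y₂ ↔ ∃ a b : M, m = y₁ • a + y₂ • b := Iff.rfl

theorem two_map (φ : M →ₗ[R] N) {m : M} (h : m ∈ two M y₁ y₂) : φ m ∈ two N y₁ y₂ := by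
  obtain ⟨a, b, rfl⟩ := h
  exact ⟨φ a, φ b, by simp⟩

theorem two_eq : two M y₁ y₂ = Ideal.span {y₁, y₂} • ⊤ := by
  refine le_antisymm ?_ (Submodule.smul_le.2 fun r hr m _ => ?_)
  · rintro _ ⟨a, b, rfl⟩
    exact add_mem (Submodule.smul_mem_smul (Ideal.subset_span (by simp)) trivial)
      (Submodule.smul_mem_smul (Ideal.subset_span (by simp)) trivial)
  · obtain ⟨u, v, rfl⟩ := Ideal.mem_span_pair.1 hr
    exact ⟨u • m, v • m, by module⟩

theorem RP.syz (h : RP M y₁ y₂) {a b : M} (e : y₂ • a = y₁ • b) :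
    ∃ u, a = y₁ • u ∧ b = y₂ • u := by
  obtain ⟨u, rfl⟩ := h.2 a b e
  refine ⟨u, rfl, sub_eq_zero.1 (h.1 _ ?_)⟩
  rw [smul_sub, ← e, smul_comm, sub_self]

theorem RP.pi {ι : Type} (h : RP M y₁ y₂) : RP (ι → M) y₁ y₂ := by
  refine ⟨fun m e => funext fun i => h.1 _ (congrFun e i), fun m m' e => ?_⟩
  choose u hu using fun i => h.2 (m i) (m' i) (congrFun e i)
  exact ⟨u, funext hu⟩

theorem mem_two_pi {ι : Type} {m : ι → M} :
    m ∈ two (ι → M) y₁ y₂ ↔ ∀ i, m i ∈ two M y₁ y₂ := by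
  refine ⟨fun h i => two_map (LinearMap.proj i : (ι → M) →ₗ[R] M) h, fun h => ?_⟩
  choose a b hab using h
  exact ⟨a, b, funext hab⟩

theorem RPm.pi {ι : Type} (h : RPm (two M y₁ y₂) w₁ w₂) : RPm (two (ι → M) y₁ y₂) w₁ w₂ := by
  refine ⟨fun m e => mem_two_pi.2 fun i => h.1 _ (mem_two_pi.1 e i), fun m m' e => ?_⟩
  choose u hu using fun i => h.2 (m i) (m' i) (mem_two_pi.1 e i)
  exact ⟨u, mem_two_pi.2 hu⟩

/-- the pair stays regular on linear maps from a free module -/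
theorem RP.hom [Module.Free R F₀] (h : RP M y₁ y₂) : RP (F₀ →ₗ[R] M) y₁ y₂ := by
  refine ⟨fun φ e => LinearMap.ext fun v => h.1 _ (LinearMap.congr_fun e v), fun φ φ' e => ?_⟩
  let b := Module.Free.chooseBasis R F₀
  choose u hu using fun i => h.2 (φ (b i)) (φ' (b i)) (LinearMap.congr_fun e (b i))
  exact ⟨b.constr R u, b.ext fun i => by simp [hu i]⟩

theorem RP.pow_left (h : RP M y₁ y₂) (n : ℕ) : RP M (y₁ ^ n) y₂ := by
  induction n with
  | zero => exact ⟨fun m e => by simpa using e, fun m _ _ => ⟨m, by simp⟩⟩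
  | succ n ih =>
    refine ⟨fun m e => h.1 _ (ih.1 _ (by rwa [pow_succ, mul_smul] at e)), fun m m' e => ?_⟩
    obtain ⟨u, rfl⟩ := ih.2 m (y₁ • m') (by rw [e, pow_succ, mul_smul])
    obtain ⟨v, rfl⟩ := h.2 u m' (sub_eq_zero.1 (ih.1 _ (by
      rw [smul_sub, smul_comm, e, pow_succ, mul_smul, sub_self])))
    exact ⟨v, by rw [pow_succ, mul_smul]⟩

theorem RP.pow_right (h : RP M y₁ y₂) (n : ℕ) : RP M y₁ (y₂ ^ n) := by
  refine ⟨h.1, ?_⟩
  induction n with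
  | zero => exact fun m m' e => ⟨m', by simpa using e⟩
  | succ n ih =>
    intro m m' e
    obtain ⟨u, hu⟩ := ih (y₂ • m) m' (by rw [← e, pow_succ, mul_smul])
    exact h.2 m u hu

/-- a regular sequence of length two -/
theorem RP.of_reg (h : RingTheory.Sequence.IsWeaklyRegular M [y₁, y₂]) : RP M y₁ y₂ := by
  rw [RingTheory.Sequence.isWeaklyRegular_cons_iff,
    RingTheory.Sequence.isWeaklyRegular_singleton_iff] at h
  refine ⟨fun m e => h.1.right_eq_zero_of_smul e, fun m m' e => ?_⟩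
  have := h.2.right_eq_zero_of_smul (x := Submodule.Quotient.mk m) (by
    rw [← Submodule.Quotient.mk_smul, Submodule.Quotient.mk_eq_zero, e]
    exact Submodule.smul_mem_pointwise_smul _ _ _ trivial)
  obtain ⟨u, -, hu⟩ := (Submodule.mem_smul_pointwise_iff_exists _ _ _).1
    ((Submodule.Quotient.mk_eq_zero _).1 this)
  exact ⟨u, hu.symm⟩

theorem RP.reg (h : RP M y₁ y₂) : RingTheory.Sequence.IsWeaklyRegular M [y₁, y₂] := by
  rw [RingTheory.Sequence.isWeaklyRegular_cons_iff,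
    RingTheory.Sequence.isWeaklyRegular_singleton_iff]
  refine ⟨.of_right_eq_zero_of_smul h.1, .of_right_eq_zero_of_smul fun x e => ?_⟩
  obtain ⟨m, rfl⟩ := Submodule.Quotient.mk_surjective _ x
  rw [← Submodule.Quotient.mk_smul, Submodule.Quotient.mk_eq_zero] at e
  obtain ⟨m', -, hm⟩ := (Submodule.mem_smul_pointwise_iff_exists _ _ _).1 e
  obtain ⟨u, rfl⟩ := h.2 m m' hm.symm
  exact (Submodule.Quotient.mk_eq_zero _).2 (Submodule.smul_mem_pointwise_smul _ _ _ trivial)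

theorem RPm.of_quot {Y : Submodule R M} (h : RP (M ⧸ Y) w₁ w₂) : RPm Y w₁ w₂ := by
  refine ⟨fun m e => (Submodule.Quotient.mk_eq_zero _).1 (h.1 _ ?_), fun m m' e => ?_⟩
  · rw [← Submodule.Quotient.mk_smul]; exact (Submodule.Quotient.mk_eq_zero _).2 e
  · obtain ⟨u, hu⟩ := h.2 (Submodule.Quotient.mk m) (Submodule.Quotient.mk m') (by
      rw [← Submodule.Quotient.mk_smul, ← Submodule.Quotient.mk_smul]
      exact (Submodule.Quotient.eq _).2 e)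
    obtain ⟨u, rfl⟩ := Submodule.Quotient.mk_surjective _ u
    rw [← Submodule.Quotient.mk_smul] at hu
    exact ⟨u, (Submodule.Quotient.eq _).1 hu⟩

/-- a regular sequence of length four -/
theorem RPm.of_reg (h : RingTheory.Sequence.IsWeaklyRegular M [y₁, y₂, w₁, w₂]) :
    RP M y₁ y₂ ∧ RPm (two M y₁ y₂) w₁ w₂ := by
  have := (RingTheory.Sequence.isWeaklyRegular_append_iff M [y₁, y₂] [w₁, w₂]).1 h
  refine ⟨RP.of_reg this.1, ?_⟩
  have e : Ideal.ofList [y₁, y₂] = Ideal.span {y₁, y₂} := by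
    rw [Ideal.ofList]; congr 1; ext; simp
  rw [two_eq, ← e]
  exact RPm.of_quot (RP.of_reg this.2)

/-- an element killing the cokernel of the dual map -/
theorem exists_tau {ι : Type} [Fintype ι] {d₂ : (ι → R) →ₗ[R] F₁} {c : R}
    (h : ∀ i, ∃ μ : F₁ →ₗ[R] R, ∀ u, μ (d₂ u) = c * u i) :
    ∃ τ : F₁ →ₗ[R] (ι → R), ∀ u, τ (d₂ u) = c • u := by
  choose μ hμ using h
  exact ⟨LinearMap.pi μ, fun u => funext fun i => hμ i u⟩

/-- a presentation stays exact modulo a pair that is regular on the module -/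
theorem tor_one {d₂ : F₂ →ₗ[R] F₁} {d₁ : F₁ →ₗ[R] F₀} {π : F₀ →ₗ[R] M} (e₁ : Exact d₂ d₁)
    (e₀ : Exact d₁ π) (hπ : Surjective π) (hM : RP M y₁ y₂) {g : F₁}
    (hg : d₁ g ∈ two F₀ y₁ y₂) : ∃ u, g - d₂ u ∈ two F₁ y₁ y₂ := by
  obtain ⟨a, b, hab⟩ := hg
  have h0 : π (d₁ g) = 0 := e₀.apply_apply_eq_zero g
  rw [hab, map_add, map_smul, map_smul] at h0
  obtain ⟨m, h1, h2⟩ := hM.syz (a := π b) (b := -π a) (by
    rw [smul_neg]; exact eq_neg_of_add_eq_zero_right h0)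
  obtain ⟨e, rfl⟩ := hπ m
  obtain ⟨b', hb'⟩ := (e₀ (b - y₁ • e)).1 (by rw [map_sub, map_smul, h1, sub_self])
  obtain ⟨a', ha'⟩ := (e₀ (a + y₂ • e)).1 (by rw [map_add, map_smul, ← h2, add_neg_cancel])
  obtain ⟨u, hu⟩ := (e₁ (g - y₁ • a' - y₂ • b')).1 (by
    rw [map_sub, map_sub, map_smul, map_smul, ha', hb', hab]; module)
  exact ⟨u, a', b', by rw [hu]; module⟩

/-- ANN: a class modulo `y₁, y₂` killed by a further regular pair is killed by the annihilator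
of the top extension module -/
theorem ann {d₂ : F₂ →ₗ[R] F₁} {d₁ : F₁ →ₗ[R] F₀} {π : F₀ →ₗ[R] M} (e₁ : Exact d₂ d₁)
    (e₀ : Exact d₁ π) (hπ : Surjective π) (hM : RP M y₁ y₂) {c : R} {τ : F₁ →ₗ[R] F₂}
    (hτ : ∀ u, d₂ (τ (d₂ u)) = c • d₂ u) (h₁ : RPm (two F₁ y₁ y₂) w₁ w₂)
    (h₀ : ∀ f : F₀, w₁ • f ∈ two F₀ y₁ y₂ → f ∈ two F₀ y₁ y₂) {h : M}
    (hw₁ : w₁ • h ∈ two M y₁ y₂) (hw₂ : w₂ • h ∈ two M y₁ y₂) : c • h ∈ two M y₁ y₂ := by
  obtain ⟨f, rfl⟩ := hπ h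
  have key : ∀ w : R, w • π f ∈ two M y₁ y₂ → ∃ g, w • f - d₁ g ∈ two F₀ y₁ y₂ := by
    rintro w ⟨a, b, hab⟩
    obtain ⟨a, rfl⟩ := hπ a
    obtain ⟨b, rfl⟩ := hπ b
    obtain ⟨g, hg⟩ := (e₀ (w • f - y₁ • a - y₂ • b)).1 (by
      rw [map_sub, map_sub, map_smul, map_smul, map_smul, hab]; module)
    exact ⟨g, a, b, by rw [hg]; module⟩
  obtain ⟨g₁, hg₁⟩ := key _ hw₁
  obtain ⟨g₂, hg₂⟩ := key _ hw₂
  obtain ⟨u, hu⟩ := tor_one e₁ e₀ hπ hM (g := w₂ • g₁ - w₁ • g₂) (by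
    have := sub_mem (Submodule.smul_mem _ w₁ hg₂) (Submodule.smul_mem _ w₂ hg₁)
    convert this using 1
    rw [map_sub, map_smul, map_smul]; module)
  let σ : F₁ →ₗ[R] F₁ := c • LinearMap.id - d₂ ∘ₗ τ
  have hσ : ∀ g, σ g = c • g - d₂ (τ g) := fun g => rfl
  have h2 := two_map σ hu
  rw [map_sub, hσ (d₂ u), hτ, sub_self, sub_zero, map_sub, map_smul, map_smul] at h2
  obtain ⟨g, hg⟩ := h₁.2 _ _ h2
  have h3 := two_map d₁ hg
  rw [map_sub, hσ, map_sub, e₁.apply_apply_eq_zero, sub_zero, map_smul, map_smul] at h3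
  have h4 := h₀ (c • f - d₁ g) (by
    have := add_mem h3 (Submodule.smul_mem _ c hg₁)
    convert this using 1
    module)
  have h5 := two_map π h4
  rwa [map_sub, e₀.apply_apply_eq_zero, sub_zero, map_smul] at h5

/-! ### EMB -/

/-- `h` is the image of the torsion class `e` -/
def Emb (d : F₀ →ₗ[R] F₁) (x₁ x₂ : R) (e : F₁) (h : F₀) : Prop :=
  ∃ a₁ a₂, x₁ • e = d a₁ ∧ x₂ • e = d a₂ ∧ h = x₂ • a₁ - x₁ • a₂

variable {d : F₀ →ₗ[R] F₁} {x₁ x₂ : R} {e e' : F₁} {h h' : F₀}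

theorem Emb.ker (H : Emb d x₁ x₂ e h) : d h = 0 := by
  obtain ⟨a₁, a₂, h1, h2, rfl⟩ := H
  rw [map_sub, map_smul, map_smul, ← h1, ← h2, smul_comm, sub_self]

theorem Emb.add (H : Emb d x₁ x₂ e h) (H' : Emb d x₁ x₂ e' h') :
    Emb d x₁ x₂ (e + e') (h + h') := by
  obtain ⟨a₁, a₂, h1, h2, rfl⟩ := H
  obtain ⟨b₁, b₂, k1, k2, rfl⟩ := H'
  exact ⟨a₁ + b₁, a₂ + b₂, by rw [smul_add, h1, k1, map_add], by rw [smul_add, h2, k2, map_add],
    by module⟩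

theorem Emb.smul (H : Emb d x₁ x₂ e h) (c : R) : Emb d x₁ x₂ (c • e) (c • h) := by
  obtain ⟨a₁, a₂, h1, h2, rfl⟩ := H
  exact ⟨c • a₁, c • a₂, by rw [smul_comm, h1, map_smul], by rw [smul_comm, h2, map_smul],
    by module⟩

theorem Emb.sub (H : Emb d x₁ x₂ e h) (H' : Emb d x₁ x₂ e' h') :
    Emb d x₁ x₂ (e - e') (h - h') := by
  have := H.add (H'.smul (-1))
  rwa [neg_one_smul, neg_one_smul, ← sub_eq_add_neg, ← sub_eq_add_neg] at this

/-- boundaries go to zero -/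
theorem Emb.of_range (H : Emb d x₁ x₂ e h) (he : e ∈ LinearMap.range d) :
    ∃ u v, d u = 0 ∧ d v = 0 ∧ h = x₁ • u + x₂ • v := by
  obtain ⟨a₁, a₂, h1, h2, rfl⟩ := H
  obtain ⟨b, rfl⟩ := he
  exact ⟨x₂ • b - a₂, a₁ - x₁ • b, by rw [map_sub, map_smul, h2, sub_self],
    by rw [map_sub, map_smul, h1, sub_self], by module⟩

/-- only boundaries go to zero -/
theorem Emb.range (H : Emb d x₁ x₂ e h) (h₀ : RP F₀ x₁ x₂) (h₁ : ∀ f : F₁, x₁ • f = 0 → f = 0)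
    {u v : F₀} (hv : d v = 0) (e0 : h = x₁ • u + x₂ • v) : e ∈ LinearMap.range d := by
  obtain ⟨a₁, a₂, h1, h2, rfl⟩ := H
  obtain ⟨b, hb⟩ := h₀.2 (a₁ - v) (a₂ + u) (by linear_combination (norm := module) e0)
  refine ⟨b, (sub_eq_zero.1 (h₁ _ ?_)).symm⟩
  rw [smul_sub, h1, ← map_smul, ← hb, map_sub, hv, sub_zero, sub_self]

/-! ### modules determined by a quotient -/

/-- multiplication by `a` factors through a projective module -/
def Fac (a : R) (N : Type) [AddCommGroup N] [Module R N] : Prop :=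
  ∃ (P : Type) (_ : AddCommGroup P) (_ : Module R P) (_ : Module.Projective R P)
    (α : N →ₗ[R] P) (β : P →ₗ[R] N), ∀ n, β (α n) = a • n

theorem Fac.zero : Fac (0 : R) N :=
  ⟨PUnit, inferInstance, inferInstance, inferInstance, 0, 0, fun n => by simp⟩

theorem Fac.add {a b : R} (H : Fac a N) (H' : Fac b N) : Fac (a + b) N := by
  obtain ⟨P, _, _, _, α, β, h⟩ := H
  obtain ⟨P', _, _, _, α', β', h'⟩ := H'
  exact ⟨P × P', inferInstance, inferInstance, inferInstance, α.prod α', β.coprod β', fun n => by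
    simp [h, h', add_smul]⟩

theorem Fac.mul {a : R} (H : Fac a N) (c : R) : Fac (c * a) N := by
  obtain ⟨P, _, _, _, α, β, h⟩ := H
  exact ⟨P, inferInstance, inferInstance, inferInstance, α, c • β, fun n => by
    simp [h, mul_smul]⟩

theorem Fac.lift {a : R} (H : Fac a N) {p : F₀ →ₗ[R] F₁} (hp : Surjective p)
    (hk : ∀ l, p l = 0 → ∃ l', l = a ^ 2 • l') (ha : ∀ l : F₀, a • l = 0 → l = 0)
    (φ : N →ₗ[R] F₁) : ∃ ψ : N →ₗ[R] F₀, ∀ n, ∃ q, p (ψ n) - φ n = a • q := by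
  obtain ⟨P, _, _, _, α, β, hf⟩ := H
  obtain ⟨γ, hγ⟩ := Module.projective_lifting_property p (φ ∘ₗ β) hp
  have key : ∀ n, ∃ l, a • l = γ (α n) ∧ ∃ q, p l - φ n = a • q := fun n => by
    obtain ⟨l₀, hl₀⟩ := hp (φ n)
    obtain ⟨l', hl'⟩ := hk (γ (α n) - a • l₀) (by
      have := LinearMap.congr_fun hγ (α n)
      simp only [LinearMap.comp_apply, hf, map_smul] at this
      rw [map_sub, this, map_smul, hl₀, sub_self])
    refine ⟨l₀ + a • l', ?_, p l', by rw [map_add, hl₀, map_smul]; module⟩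
    linear_combination (norm := module) -hl'
  choose ψ h1 h2 using key
  refine ⟨⟨⟨ψ, fun n n' => sub_eq_zero.1 (ha _ ?_)⟩, fun c n => sub_eq_zero.1 (ha _ ?_)⟩, h2⟩
  · rw [smul_sub, smul_add, h1, h1, h1, map_add, map_add, sub_self]
  · rw [smul_sub, RingHom.id_apply, smul_comm a c, h1, h1, map_smul, map_smul, sub_self]

theorem Fac.lift_two {a₁ a₂ : R} (H₁ : Fac a₁ N) (H₂ : Fac a₂ N) (hM : RP M a₁ a₂)
    (φ : N →ₗ[R] M ⧸ two M (a₁ ^ 2) (a₂ ^ 2)) :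
    ∃ ψ : N →ₗ[R] M, ∀ n m, φ n = Submodule.Quotient.mk m → ψ n - m ∈ two M a₁ a₂ := by
  have hle : two M (a₁ ^ 2) 0 ≤ two M (a₁ ^ 2) (a₂ ^ 2) := by
    rintro _ ⟨a, b, rfl⟩
    exact ⟨a, 0, by simp⟩
  obtain ⟨ψ₁, h₁⟩ := H₂.lift (p := Submodule.factor hle) (Submodule.factor_surjective hle)
    (fun l hl => by
      obtain ⟨l, rfl⟩ := Submodule.mkQ_surjective _ l
      obtain ⟨a, b, rfl⟩ := (Submodule.Quotient.mk_eq_zero _).1 hl
      refine ⟨Submodule.mkQ _ b, ?_⟩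
      rw [← map_smul]
      exact (Submodule.Quotient.eq _).2 ⟨a, 0, by simp⟩)
    (fun l hl => by
      obtain ⟨l, rfl⟩ := Submodule.mkQ_surjective _ l
      rw [← map_smul] at hl
      obtain ⟨a, b, hab⟩ := (Submodule.Quotient.mk_eq_zero _).1 hl
      obtain ⟨u, rfl⟩ := (hM.pow_left 2).2 l a (by simpa using hab)
      exact (Submodule.Quotient.mk_eq_zero _).2 ⟨u, 0, by simp⟩) φ
  obtain ⟨ψ, h⟩ := H₁.lift (p := (two M (a₁ ^ 2) 0).mkQ) (Submodule.mkQ_surjective _)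
    (fun l hl => by
      obtain ⟨a, b, rfl⟩ := (Submodule.Quotient.mk_eq_zero _).1 hl
      exact ⟨a, by simp⟩) hM.1 ψ₁
  refine ⟨ψ, fun n m e => ?_⟩
  obtain ⟨q, hq⟩ := h n
  obtain ⟨q', hq'⟩ := h₁ n
  obtain ⟨q, rfl⟩ := Submodule.mkQ_surjective _ q
  obtain ⟨q', rfl⟩ := Submodule.mkQ_surjective _ q'
  have e1 : (two M (a₁ ^ 2) (a₂ ^ 2)).mkQ (ψ n - m - a₁ • q - a₂ • q') = 0 := by
    have := congrArg (Submodule.factor hle) hq
    rw [map_sub, map_smul, Submodule.factor_mk, Submodule.factor_mk] at this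
    rw [map_sub, map_sub, map_sub, map_smul, map_smul, ← this, ← hq', e, Submodule.mkQ_apply _ m]
    abel
  obtain ⟨a, b, hab⟩ := (Submodule.Quotient.mk_eq_zero _).1 e1
  exact ⟨q + a₁ • a, q' + a₂ • b, by linear_combination (norm := module) hab⟩

theorem Fac.exists_surj {a₁ a₂ : R} (hj₁ : a₁ ∈ (⊥ : Ideal R).jacobson)
    (hj₂ : a₂ ∈ (⊥ : Ideal R).jacobson) [Module.Finite R M] (H₁ : Fac a₁ N) (H₂ : Fac a₂ N)
    (hM : RP M a₁ a₂) {π : F₀ →ₗ[R] N} {π' : F₀ →ₗ[R] M} (hπ : Surjective π)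
    (hπ' : Surjective π') (hk : LinearMap.ker π ≤ LinearMap.ker π' ⊔ two F₀ (a₁ ^ 2) (a₂ ^ 2)) :
    ∃ ψ : N →ₗ[R] M, Surjective ψ := by
  let φ₀ : (F₀ ⧸ LinearMap.ker π) →ₗ[R] M ⧸ two M (a₁ ^ 2) (a₂ ^ 2) :=
    (LinearMap.ker π).liftQ ((two M (a₁ ^ 2) (a₂ ^ 2)).mkQ ∘ₗ π') fun f hf => by
      obtain ⟨u, hu, v, hv, rfl⟩ := Submodule.mem_sup.1 (hk hf)
      rw [LinearMap.mem_ker, LinearMap.comp_apply, map_add, LinearMap.mem_ker.1 hu, zero_add]
      exact (Submodule.Quotient.mk_eq_zero _).2 (two_map π' hv)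
  obtain ⟨ψ, hψ⟩ := H₁.lift_two H₂ hM (φ₀ ∘ₗ (π.quotKerEquivOfSurjective hπ).symm.toLinearMap)
  refine ⟨ψ, LinearMap.range_eq_top.1 (top_unique ?_)⟩
  refine Submodule.le_of_le_smul_of_le_jacobson_bot (I := Ideal.span {a₁, a₂}) Module.Finite.fg_top
    (Ideal.span_le.2 (by rintro _ (rfl | rfl) <;> assumption)) fun m _ => ?_
  obtain ⟨f, rfl⟩ := hπ' m
  have := hψ (π f) (π' f) (by
    have e : (π.quotKerEquivOfSurjective hπ).symm (π f) = Submodule.Quotient.mk f := by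
      rw [LinearEquiv.symm_apply_eq]; rfl
    simp [e, φ₀])
  rw [← two_eq]
  exact Submodule.mem_sup.2 ⟨ψ (π f), ⟨_, rfl⟩, _, neg_mem this, by abel⟩

end mods

/-- among boundedly generated modules on which `a₁, a₂` is a regular pair factoring through
projective modules there are only finitely many isomorphism classes -/
theorem finite_classes {a₁ a₂ : R} (hj₁ : a₁ ∈ (⊥ : Ideal R).jacobson)
    (hj₂ : a₂ ∈ (⊥ : Ideal R).jacobson) (hfin : Finite (R ⧸ Ideal.span {a₁ ^ 2, a₂ ^ 2}))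
    (ρ : ℕ) : ∃ P : ℕ, ∀ (N : ℕ → Type) [∀ i, AddCommGroup (N i)] [∀ i, Module R (N i)]
      (π : ∀ i, (Fin ρ → R) →ₗ[R] N i), (∀ i, Surjective (π i)) → (∀ i, Fac a₁ (N i)) →
      (∀ i, Fac a₂ (N i)) → (∀ i, RP (N i) a₁ a₂) →
      ∃ i j, i < j ∧ j ≤ P ∧ Nonempty (N i ≃ₗ[R] N j) := by
  classical
  let Y := two (Fin ρ → R) (a₁ ^ 2) (a₂ ^ 2)
  have hY : Finite ((Fin ρ → R) ⧸ Y) := by
    let I : Ideal R := Ideal.span {a₁ ^ 2, a₂ ^ 2}
    let φ : (Fin ρ → R) →ₗ[R] (Fin ρ → R ⧸ I) := LinearMap.compLeft I.mkQ (Fin ρ)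
    have hk : LinearMap.ker φ = Y := by
      ext v
      rw [LinearMap.mem_ker, mem_two_pi, funext_iff]
      refine forall_congr' fun i => ?_
      rw [two_eq, smul_eq_mul, Ideal.mul_top]
      exact Submodule.Quotient.mk_eq_zero _
    rw [← hk]
    exact Finite.of_injective _ (φ.quotKerEquivRange.injective)
  have : Finite (Submodule R ((Fin ρ → R) ⧸ Y)) :=
    Finite.of_injective (fun U : Submodule R ((Fin ρ → R) ⧸ Y) => (U : Set ((Fin ρ → R) ⧸ Y)))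
      SetLike.coe_injective
  have := Fintype.ofFinite (Submodule R ((Fin ρ → R) ⧸ Y))
  refine ⟨Fintype.card (Submodule R ((Fin ρ → R) ⧸ Y)), fun N _ _ π hπ h1 h2 hr => ?_⟩
  have : ∀ i, Module.Finite R (N i) := fun i => .of_surjective _ (hπ i)
  obtain ⟨i, j, hij, e⟩ := Fintype.exists_ne_map_eq_of_card_lt
    (fun i : Fin (Fintype.card (Submodule R ((Fin ρ → R) ⧸ Y)) + 1) =>
      (LinearMap.ker (π i)).map Y.mkQ) (by simp)
  have key : ∀ i j : ℕ, (LinearMap.ker (π i)).map Y.mkQ = (LinearMap.ker (π j)).map Y.mkQ →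
      ∃ ψ : N i →ₗ[R] N j, Surjective ψ := fun i j e =>
    (h1 i).exists_surj hj₁ hj₂ (h2 i) (hr j) (hπ i) (hπ j) (by
      have := congrArg (Submodule.comap Y.mkQ) e
      rw [Submodule.comap_map_mkQ, Submodule.comap_map_mkQ] at this
      rw [sup_comm, ← this]
      exact le_sup_right)
  have iso : ∀ i j : ℕ, (LinearMap.ker (π i)).map Y.mkQ = (LinearMap.ker (π j)).map Y.mkQ →
      Nonempty (N i ≃ₗ[R] N j) := fun i j e => by
    obtain ⟨ψ, hψ⟩ := key i j e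
    obtain ⟨ψ', hψ'⟩ := key j i e.symm
    have := OrzechProperty.injective_of_surjective_endomorphism (ψ' ∘ₗ ψ) (hψ'.comp hψ)
    exact ⟨LinearEquiv.ofBijective ψ ⟨Injective.of_comp (f := ψ') this, hψ⟩⟩
  rcases lt_or_gt_of_ne hij with h | h
  · exact ⟨i, j, h, Nat.lt_succ_iff.1 j.2, iso _ _ e⟩
  · exact ⟨j, i, h, Nat.lt_succ_iff.1 i.2, iso _ _ e.symm⟩

end Pool.Agent.Lib.MP_62d77c_ag.R.Ann
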