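import Pool.Agent.Lib.MP_62d77c_ag.R.Mo

/-! Normal Noetherian subrings of a field: discrete valuations, Hartogs, divisorial modules. -/

set_option autoImplicit false
set_option linter.unusedSectionVars false
set_option linter.style.haveILetI false

namespace Pool.Agent.Lib.MP_62d77c_ag.R

open Submodule

noncomputable section

variable {L : Type} [Field L] {O O' : ValuationSubring L} {R : Subring L} {z w : L}

namespace Disc

theorem unif_spec (h : Disc O) : unif O ≠ 0 ∧ O.valuation (unif O) < 1 ∧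
    ∀ z : L, z ≠ 0 → ∃ n : ℤ, O.valuation z = O.valuation (unif O) ^ n :=
  Classical.epsilon_spec h

theorem unif_ne (h : Disc O) : unif O ≠ 0 := h.unif_spec.1

theorem v_pos (h : Disc O) : 0 < O.valuation (unif O) :=
  zero_lt_iff.2 ((Valuation.ne_zero_iff _).2 h.unif_ne)

theorem anti (h : Disc O) : StrictAnti fun n : ℤ => O.valuation (unif O) ^ n :=
  zpow_right_strictAnti₀ h.v_pos h.unif_spec.2.1

theorem ord_spec (h : Disc O) (hz : z ≠ 0) : O.valuation z = O.valuation (unif O) ^ ord O z :=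
  Classical.epsilon_spec (h.unif_spec.2.2 z hz)

theorem ord_eq (h : Disc O) {n : ℤ} (e : O.valuation z = O.valuation (unif O) ^ n) :
    ord O z = n := by
  have hz : z ≠ 0 := by
    rintro rfl
    rw [map_zero] at e
    exact (zpow_pos h.v_pos n).ne e
  exact h.anti.injective ((h.ord_spec hz).symm.trans e)

theorem ord_mul (h : Disc O) (hz : z ≠ 0) (hw : w ≠ 0) : ord O (z * w) = ord O z + ord O w :=
  h.ord_eq (by rw [map_mul, h.ord_spec hz, h.ord_spec hw, zpow_add₀ h.v_pos.ne'])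

theorem ord_one (h : Disc O) : ord O 1 = 0 := h.ord_eq (by simp)

theorem ord_zpow (h : Disc O) (hz : z ≠ 0) (n : ℤ) : ord O (z ^ n) = n * ord O z :=
  h.ord_eq (by rw [map_zpow₀, h.ord_spec hz, ← zpow_mul, mul_comm])

theorem ord_pow (h : Disc O) (hz : z ≠ 0) (n : ℕ) : ord O (z ^ n) = n * ord O z := by
  rw [← zpow_natCast, h.ord_zpow hz]

theorem ord_inv (h : Disc O) (hz : z ≠ 0) : ord O z⁻¹ = -ord O z := by
  rw [← zpow_neg_one, h.ord_zpow hz, neg_one_mul]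

theorem ord_div (h : Disc O) (hz : z ≠ 0) (hw : w ≠ 0) : ord O (z / w) = ord O z - ord O w := by
  rw [div_eq_mul_inv, h.ord_mul hz (inv_ne_zero hw), h.ord_inv hw, sub_eq_add_neg]

theorem ord_unif (h : Disc O) : ord O (unif O) = 1 := h.ord_eq (by simp)

theorem ord_unif_zpow (h : Disc O) (n : ℤ) : ord O (unif O ^ n) = n := by
  rw [h.ord_zpow h.unif_ne, h.ord_unif, mul_one]

theorem v_le_iff (h : Disc O) (hz : z ≠ 0) (hw : w ≠ 0) :
    O.valuation z ≤ O.valuation w ↔ ord O w ≤ ord O z := by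
  rw [h.ord_spec hz, h.ord_spec hw]; exact h.anti.le_iff_ge

theorem v_lt_iff (h : Disc O) (hz : z ≠ 0) (hw : w ≠ 0) :
    O.valuation z < O.valuation w ↔ ord O w < ord O z := by
  rw [h.ord_spec hz, h.ord_spec hw]; exact h.anti.lt_iff_gt

theorem mem_iff (h : Disc O) (hz : z ≠ 0) : z ∈ O ↔ 0 ≤ ord O z := by
  rw [← O.valuation_le_one_iff, ← map_one O.valuation, h.v_le_iff hz one_ne_zero, h.ord_one]

theorem lt_one_iff (h : Disc O) (hz : z ≠ 0) : O.valuation z < 1 ↔ 0 < ord O z := by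
  rw [← map_one O.valuation, h.v_lt_iff hz one_ne_zero, h.ord_one]

theorem eq_one_iff (h : Disc O) (hz : z ≠ 0) : O.valuation z = 1 ↔ ord O z = 0 :=
  ⟨fun e => h.ord_eq (by simpa using e), fun e => by rw [h.ord_spec hz, e, zpow_zero]⟩

theorem ord_congr (h : Disc O) (hz : z ≠ 0) (e : O.valuation w = O.valuation z) :
    ord O w = ord O z := h.ord_eq (e.trans (h.ord_spec hz))

theorem mul_mem_iff (h : Disc O) (hz : z ≠ 0) (d : ℤ) : z * unif O ^ d ∈ O ↔ -d ≤ ord O z := by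
  have := zpow_ne_zero d h.unif_ne
  rw [h.mem_iff (mul_ne_zero hz this), h.ord_mul hz this, h.ord_unif_zpow]; omega

end Disc

theorem mem_Dv {D : Dvs L} : z ∈ Dv R D ↔ ∀ O ∈ Ht1 R, z * unif O ^ D O ∈ O := Iff.rfl

/-- a normal Noetherian subring with field of fractions `L` -/
structure Nrm (R : Subring L) : Prop where
  noeth : IsNoetherianRing R
  frac : ∀ z : L, ∃ a ∈ R, ∃ b ∈ R, b ≠ 0 ∧ z = a / b
  cl : ∀ z : L, IsIntegral R z → z ∈ R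

theorem NAff.nrm {p : ℕ} [Fact p.Prime] [Algebra (ZMod p) L] {r : ℕ} (h : NAff p R r) : Nrm R :=
  ⟨haveI := h.ft; Algebra.FiniteType.isNoetherianRing ℤ R, h.frac, h.cl⟩

/-- the ideal of denominators -/
def den (R : Subring L) (z : L) : Ideal R where
  carrier := {r | (r : L) * z ∈ R}
  zero_mem' := by simp
  add_mem' := fun {a b} ha hb => by
    change ((a : L) + b) * z ∈ R
    rw [add_mul]; exact add_mem ha hb
  smul_mem' := fun c a ha => by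
    change ((c : L) * a) * z ∈ R
    rw [mul_assoc]; exact mul_mem c.2 ha

theorem mem_den {r : R} : r ∈ den R z ↔ (r : L) * z ∈ R := Iff.rfl

/-- `π` generates `𝔮` locally -/
def Gn (𝔮 : Ideal R) (π : R) : Prop :=
  π ∈ 𝔮 ∧ π ≠ 0 ∧ ∃ u, u ∉ 𝔮 ∧ ∀ q ∈ 𝔮, ∃ r, q * u = r * π

theorem Ctr.mem {𝔮 : Ideal R} (h : Ctr R O 𝔮) (hz : z ∈ R) : z ∈ O := (h ⟨z, hz⟩).1

theorem Ctr.eq_one {𝔮 : Ideal R} (h : Ctr R O 𝔮) {b : R} (hb : b ∉ 𝔮) : O.valuation b = 1 :=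
  le_antisymm ((O.valuation_le_one_iff _).2 (h b).1) (not_lt.1 fun e => hb ((h b).2.2 e))

theorem Ctr.unique {𝔮 𝔮' : Ideal R} (h : Ctr R O 𝔮) (h' : Ctr R O 𝔮') : 𝔮 = 𝔮' :=
  Ideal.ext fun r => (h r).2.trans (h' r).2.symm

theorem Ht1.le (h : O ∈ Ht1 R) (hz : z ∈ R) : z ∈ O := by
  obtain ⟨_, -, -, h⟩ := h; exact h.mem hz

namespace Nrm

theorem exists_prime (h : Nrm R) {𝔮 : Ideal R} (hq : 𝔮.IsPrime) (hz : den R z ≤ 𝔮) :
    ∃ s : R, (den R (s * z)).IsPrime ∧ den R (s * z) ≤ 𝔮 := by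
  haveI := h.noeth
  obtain ⟨_, ⟨⟨s, rfl⟩, h1⟩, h2⟩ := set_has_maximal_iff_noetherian.2 (inferInstance : IsNoetherian R R)
    {I : Ideal R | (∃ s : R, I = den R (s * z)) ∧ I ≤ 𝔮} ⟨den R z, ⟨1, by simp⟩, hz⟩
  have key : ∀ t : R, den R ((t * s : R) * z) ≤ 𝔮 → ∀ x : R, x * t ∈ den R (s * z) →
      x ∈ den R (s * z) := fun t ht x hx => by
    have hle : den R (s * z) ≤ den R ((t * s : R) * z) := fun r hr => by
      have := mul_mem t.2 (mem_den.1 hr)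
      rw [mem_den]; push_cast; convert this using 1; ring
    rw [eq_of_le_of_not_lt hle (h2 _ ⟨⟨_, rfl⟩, ht⟩), mem_den]
    have := mem_den.1 hx
    push_cast at this ⊢; convert this using 1; ring
  refine ⟨s, ⟨fun e => hq.ne_top (top_le_iff.1 (e ▸ h1)), fun {x y} hxy => ?_⟩, h1⟩
  by_cases e : den R ((y * s : R) * z) ≤ 𝔮
  · exact Or.inl (key y e x hxy)
  · obtain ⟨t, ht, ht'⟩ := SetLike.not_le_iff_exists.1 e
    refine Or.inr (key t (fun r hr => (hq.mem_or_mem (h1 (?_ : r * t ∈ _))).resolve_right ht') y ?_)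
    · have := mem_den.1 hr
      rw [mem_den]; push_cast at this ⊢; convert this using 1; ring
    · have := mem_den.1 ht
      rw [mem_den]; push_cast at this ⊢; convert this using 1; ring

theorem den_ne (h : Nrm R) (z : L) : ∃ b ∈ den R z, b ≠ 0 := by
  obtain ⟨a, ha, b, hb, h0, rfl⟩ := h.frac z
  exact ⟨⟨b, hb⟩, by rw [mem_den]; rwa [mul_div_cancel₀ _ h0], fun e => h0 (congrArg Subtype.val e)⟩

theorem gn_den (h : Nrm R) (hq : den R z ≠ ⊤) :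
    ∃ π u : R, Gn (den R z) π ∧ u ∉ den R z ∧ (π : L) * z = u := by
  haveI := h.noeth
  have : ∃ π ∈ den R z, ∃ u : R, u ∉ den R z ∧ (π : L) * z = u := by
    by_contra hc
    push Not at hc
    obtain ⟨b, hb, h0⟩ := h.den_ne z
    refine hq ((Ideal.eq_top_iff_one _).2 ?_)
    rw [mem_den, OneMemClass.coe_one, one_mul]
    refine h.cl z (isIntegral_of_smul_mem_submodule
      (Submodule.map (Algebra.linearMap R L) (den R z)) (fun e => h0 ?_)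
      ((IsNoetherian.noetherian _).map _) z ?_)
    · exact Subtype.ext ((Submodule.eq_bot_iff _).1 e _ ⟨b, hb, rfl⟩)
    · rintro _ ⟨r, hr, rfl⟩
      refine ⟨⟨_, mem_den.1 hr⟩, ?_, mul_comm _ _⟩
      by_contra e
      exact hc r hr _ e rfl
  obtain ⟨π, h1, u, h2, h3⟩ := this
  refine ⟨π, u, ⟨h1, ?_, u, h2, fun q hq => ⟨⟨_, mem_den.1 hq⟩, Subtype.ext ?_⟩⟩, h2, h3⟩
  · rintro rfl
    exact h2 ((Subtype.ext (by simpa using h3.symm) : u = 0) ▸ zero_mem _)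
  · push_cast; rw [← h3]; ring

theorem gn_height (h : Nrm R) {𝔮 : Ideal R} (hq : 𝔮.IsPrime) {π : R} (hπ : Gn 𝔮 π) :
    𝔮.height = 1 := by
  haveI := h.noeth
  obtain ⟨h1, h0, u, hu, h2⟩ := hπ
  refine le_antisymm (Ideal.height_le_one_of_isPrincipal_of_mem_minimalPrimes (Ideal.span {π}) 𝔮
    ⟨⟨hq, (Ideal.span_singleton_le_iff_mem _).2 h1⟩, fun P hP hle q hq' => ?_⟩) ?_
  · obtain ⟨r, hr⟩ := h2 q hq'
    refine (hP.1.mem_or_mem (?_ : q * u ∈ P)).resolve_right fun e => hu (hle e)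
    exact hr ▸ P.mul_mem_left r ((Ideal.span_singleton_le_iff_mem _).1 hP.2)
  · rw [Order.one_le_iff_ne_zero, Ne, Ideal.height_eq_zero_iff_eq_bot]
    exact fun e => h0 (by simpa [e] using h1)

theorem exists_gn (h : Nrm R) {𝔮 : Ideal R} (hq : 𝔮.IsPrime) (h1 : 𝔮.height = 1) :
    ∃ π, Gn 𝔮 π := by
  haveI := h.noeth
  obtain ⟨b, hb, h0⟩ := (Submodule.ne_bot_iff _).1 (Ideal.ne_bot_of_height_eq_one h1)
  have h0' : (b : L) ≠ 0 := fun e => h0 (Subtype.ext e)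
  obtain ⟨s, h2, h3⟩ := h.exists_prime hq (z := (b : L)⁻¹) fun r hr => by
    have : r = ⟨_, mem_den.1 hr⟩ * b := Subtype.ext (by simp [h0'])
    exact this ▸ 𝔮.mul_mem_left _ hb
  obtain ⟨π, u, h4, -, -⟩ := h.gn_den h2.ne_top
  refine ⟨π, ?_⟩
  rwa [eq_of_le_of_not_lt h3 fun hlt => ?_] at h4
  have := Ideal.height_strict_mono_of_isPrime_of_isPrime hlt
  rw [h1, h.gn_height h2 h4] at this
  exact lt_irrefl _ this

theorem gn_pow (h : Nrm R) {𝔮 : Ideal R} (hq : 𝔮.IsPrime) {π : R} (hπ : Gn 𝔮 π) {r : R}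
    (hr : r ≠ 0) : ∃ (n : ℕ) (a b : R), a ∉ 𝔮 ∧ b ∉ 𝔮 ∧ r * b = π ^ n * a := by
  haveI := h.noeth
  obtain ⟨h1, h0, u, hu, h2⟩ := hπ
  by_contra hc
  push Not at hc
  have hall : ∀ n : ℕ, ∃ a b : R, b ∉ 𝔮 ∧ r * b = π ^ n * a := fun n => by
    induction n with
    | zero => exact ⟨r, 1, (Ideal.ne_top_iff_one _).1 hq.ne_top, by simp⟩
    | succ n ih =>
      obtain ⟨a, b, hb, e⟩ := ih
      obtain ⟨c, hc'⟩ := h2 a (by by_contra ha; exact hc n a b ha hb e)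
      exact ⟨c, b * u, fun e' => (hq.mem_or_mem e').elim hb hu, by
        rw [← mul_assoc, e, mul_assoc, hc']; ring⟩
  let J : ℕ →o Ideal R := ⟨fun n => (Ideal.span {r}).colon {π ^ n}, monotone_nat_of_le_succ fun n x hx => by
    rw [Submodule.mem_colon_singleton, smul_eq_mul] at hx ⊢
    rw [pow_succ, ← mul_assoc]; exact Ideal.mul_mem_right _ _ hx⟩
  obtain ⟨n, hn⟩ := monotone_stabilizes_iff_noetherian.2 (inferInstance : IsNoetherian R R) J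
  obtain ⟨a, b, hb, e⟩ := hall (n + 1)
  have : a ∈ J n := by
    rw [hn (n + 1) n.le_succ]
    change a ∈ (Ideal.span {r}).colon {π ^ (n + 1)}
    rw [Submodule.mem_colon_singleton, smul_eq_mul, mul_comm, ← e]
    exact Ideal.mul_mem_right _ _ (Ideal.mem_span_singleton_self r)
  obtain ⟨c, hc'⟩ := Ideal.mem_span_singleton'.1 (Submodule.mem_colon_singleton.1 this)
  refine hb ((mul_left_cancel₀ hr (?_ : r * b = r * (c * π))) ▸ 𝔮.mul_mem_left c h1)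
  rw [smul_eq_mul] at hc'
  rw [e, pow_succ, mul_right_comm, mul_comm _ a, ← hc']; ring

theorem gn_zpow (h : Nrm R) {𝔮 : Ideal R} (hq : 𝔮.IsPrime) {π : R} (hπ : Gn 𝔮 π) (hz : z ≠ 0) :
    ∃ (n : ℤ) (a b : R), a ∉ 𝔮 ∧ b ∉ 𝔮 ∧ z * b = (π : L) ^ n * a := by
  obtain ⟨x, hx, y, hy, h0, rfl⟩ := h.frac z
  obtain ⟨n, a, b, ha, hb, e⟩ := h.gn_pow hq hπ (r := ⟨x, hx⟩)
    fun e => hz (by rw [show x = 0 from congrArg Subtype.val e, zero_div])
  obtain ⟨m, c, d, hc, hd, e'⟩ := h.gn_pow hq hπ (r := ⟨y, hy⟩) fun e => h0 (congrArg Subtype.val e)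
  refine ⟨n - m, a * d, b * c, fun e => (hq.mem_or_mem e).elim ha hd,
    fun e => (hq.mem_or_mem e).elim hb hc, ?_⟩
  have e1 := congrArg Subtype.val e
  have e2 := congrArg Subtype.val e'
  have hp : (π : L) ≠ 0 := fun e => hπ.2.1 (Subtype.ext e)
  push_cast at e1 e2 ⊢
  rw [zpow_sub₀ hp, zpow_natCast, zpow_natCast]
  field_simp
  linear_combination (c * π ^ m : L) * e1 - (π ^ n * a : L) * e2

theorem ctr_zpow (h : Nrm R) {𝔮 : Ideal R} (hq : 𝔮.IsPrime) {π : R} (hπ : Gn 𝔮 π) (hO : Ctr R O 𝔮)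
    (hz : z ≠ 0) : ∃ (n : ℤ) (a b : R), a ∉ 𝔮 ∧ b ∉ 𝔮 ∧ z * b = (π : L) ^ n * a ∧
      O.valuation z = O.valuation π ^ n := by
  obtain ⟨n, a, b, ha, hb, e⟩ := h.gn_zpow hq hπ hz
  refine ⟨n, a, b, ha, hb, e, ?_⟩
  have := congrArg O.valuation e
  rwa [map_mul, map_mul, hO.eq_one ha, hO.eq_one hb, mul_one, mul_one, map_zpow₀] at this

theorem disc (h : Nrm R) (hO : O ∈ Ht1 R) : Disc O := by
  obtain ⟨𝔮, hq, h1, hO⟩ := hO
  obtain ⟨π, hπ⟩ := h.exists_gn hq h1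
  refine ⟨π, fun e => hπ.2.1 (Subtype.ext e), (hO π).2.1 hπ.1, fun z hz => ?_⟩
  obtain ⟨n, -, -, -, -, -, e⟩ := h.ctr_zpow hq hπ hO hz
  exact ⟨n, e⟩

/-- the valuation ring is the localisation -/
theorem mem_iff (h : Nrm R) {𝔮 : Ideal R} (hq : 𝔮.IsPrime) (h1 : 𝔮.height = 1) (hO : Ctr R O 𝔮) :
    z ∈ O ↔ ∃ b : R, b ∉ 𝔮 ∧ (b : L) * z ∈ R := by
  constructor
  · intro hz
    by_cases h0 : z = 0
    · exact ⟨1, (Ideal.ne_top_iff_one _).1 hq.ne_top, by simp [h0]⟩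
    obtain ⟨π, hπ⟩ := h.exists_gn hq h1
    obtain ⟨n, a, b, -, hb, e, e'⟩ := h.ctr_zpow hq hπ hO h0
    have hn : 0 ≤ n := by
      by_contra hn
      have h2 := (O.valuation_le_one_iff z).2 hz
      rw [e'] at h2
      exact absurd h2 (not_le.2 (one_lt_zpow_of_neg₀ (zero_lt_iff.2 ((Valuation.ne_zero_iff _).2
        fun e => hπ.2.1 (Subtype.ext e))) ((hO π).2.1 hπ.1) (not_le.1 hn)))
    obtain ⟨n, rfl⟩ := Int.eq_ofNat_of_zero_le hn
    exact ⟨b, hb, by rw [mul_comm, e, zpow_natCast]; exact mul_mem (pow_mem π.2 n) a.2⟩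
  · rintro ⟨b, hb, e⟩
    have := (O.valuation_le_one_iff _).2 (hO.mem e)
    rwa [map_mul, hO.eq_one hb, one_mul, O.valuation_le_one_iff] at this

theorem ctr_unique (h : Nrm R) {𝔮 : Ideal R} (hq : 𝔮.IsPrime) (h1 : 𝔮.height = 1) (hO : Ctr R O 𝔮)
    (hO' : Ctr R O' 𝔮) : O = O' :=
  ValuationSubring.ext _ _ fun _ => (h.mem_iff hq h1 hO).trans (h.mem_iff hq h1 hO').symm

end Nrm

theorem exists_ctr (𝔮 : Ideal R) (hq : 𝔮.IsPrime) : ∃ O, Ctr R O 𝔮 := by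
  obtain ⟨O, h1, h2⟩ := AM.chart_val R 𝔮
  exact ⟨O, fun r => ⟨(O.valuation_le_one_iff _).1 (h1 r r.2), h2 r⟩⟩

namespace Nrm

/-- Hartogs, inside a given prime -/
theorem exists_not_mem (h : Nrm R) {P : Ideal R} (hP : P.IsPrime) (hz : den R z ≤ P) :
    ∃ O 𝔮, 𝔮.IsPrime ∧ 𝔮.height = 1 ∧ Ctr R O 𝔮 ∧ 𝔮 ≤ P ∧ z ∉ O := by
  obtain ⟨s, h1, h2⟩ := h.exists_prime hP hz
  obtain ⟨π, u, h3, h4, h5⟩ := h.gn_den h1.ne_top
  obtain ⟨O, hO⟩ := exists_ctr _ h1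
  refine ⟨O, _, h1, h.gn_height h1 h3, hO, h2, fun e => ?_⟩
  have := hO.eq_one h4
  rw [← h5, map_mul] at this
  exact (mul_lt_one_of_lt_of_le ((hO π).2.1 h3.1)
    ((O.valuation_le_one_iff _).2 (mul_mem (hO s).1 e))).ne this

theorem hartogs (h : Nrm R) (hz : ∀ O ∈ Ht1 R, z ∈ O) : z ∈ R := by
  by_contra e
  obtain ⟨P, hP, hle⟩ := Ideal.exists_le_maximal (den R z) fun e' =>
    e (by simpa [mem_den] using (Ideal.eq_top_iff_one _).1 e')
  obtain ⟨O, 𝔮, h1, h2, h3, -, h4⟩ := h.exists_not_mem hP.isPrime hle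
  exact h4 (hz O ⟨𝔮, h1, h2, h3⟩)

theorem mem_Dv_zero (h : Nrm R) : z ∈ Dv R 0 ↔ z ∈ R :=
  ⟨fun hz => h.hartogs fun O hO => by simpa using hz O hO,
    fun hz O hO => by simpa using Ht1.le hO hz⟩

theorem mem_Dv_iff (h : Nrm R) {D : Dvs L} (hz : z ≠ 0) :
    z ∈ Dv R D ↔ ∀ O ∈ Ht1 R, -D O ≤ ord O z :=
  forall₂_congr fun O hO => (h.disc hO).mul_mem_iff hz (D O)

theorem finite_lt (h : Nrm R) (hz : z ∈ R) (h0 : z ≠ 0) :
    {O ∈ Ht1 R | O.valuation z < 1}.Finite := by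
  haveI := h.noeth
  have hf := Ideal.finite_minimalPrimes_of_isNoetherianRing R (Ideal.span {(⟨z, hz⟩ : R)})
  refine (hf.biUnion (t := fun 𝔮 => {O | 𝔮.IsPrime ∧ 𝔮.height = 1 ∧ Ctr R O 𝔮}) fun 𝔮 _ =>
    Set.Subsingleton.finite fun O h1 O' h2 => h.ctr_unique h1.1 h1.2.1 h1.2.2 h2.2.2).subset ?_
  rintro O ⟨⟨𝔮, h1, h2, h3⟩, h4⟩
  refine Set.mem_biUnion (x := 𝔮) ?_ ⟨h1, h2, h3⟩
  refine Ideal.mem_minimalPrimes_of_height_le
    ((Ideal.span_singleton_le_iff_mem _).2 ((h3 _).2.2 h4)) (h2 ▸ ?_)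
  exact Ideal.one_le_height_span_singleton_of_mem_nonZeroDivisors
    (mem_nonZeroDivisors_of_ne_zero fun e => h0 (congrArg Subtype.val e))

theorem finite_ord (h : Nrm R) (h0 : z ≠ 0) : {O ∈ Ht1 R | ord O z ≠ 0}.Finite := by
  obtain ⟨a, ha, b, hb, hb0, rfl⟩ := h.frac z
  have ha0 : a ≠ 0 := fun e => h0 (by simp [e])
  refine ((h.finite_lt ha ha0).union (h.finite_lt hb hb0)).subset fun O ⟨hO, e⟩ => ?_
  have hd := h.disc hO
  have h1 := (hd.mem_iff ha0).1 (Ht1.le hO ha)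
  have h2 := (hd.mem_iff hb0).1 (Ht1.le hO hb)
  rw [hd.ord_div ha0 hb0] at e
  simp only [Set.mem_union, Set.mem_setOf_eq, hO, true_and, hd.lt_one_iff ha0, hd.lt_one_iff hb0]
  omega

/-- an element of `R` with zeros of prescribed minimal order -/
theorem exists_ge (h : Nrm R) (D : Dvs L) :
    ∃ c ∈ R, c ≠ 0 ∧ ∀ O ∈ Ht1 R, D O ≤ ord O c := by
  induction D using Finsupp.induction_linear with
  | zero => exact ⟨1, one_mem _, one_ne_zero, fun O hO => by simp [(h.disc hO).ord_one]⟩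
  | add D E h1 h2 =>
    obtain ⟨c, hc, c0, h1⟩ := h1
    obtain ⟨d, hd, d0, h2⟩ := h2
    exact ⟨c * d, mul_mem hc hd, mul_ne_zero c0 d0, fun O hO => by
      rw [(h.disc hO).ord_mul c0 d0]; exact add_le_add (h1 O hO) (h2 O hO)⟩
  | single O₀ n =>
    by_cases h0 : O₀ ∈ Ht1 R
    · obtain ⟨𝔮, h1, h2, h3⟩ := id h0
      obtain ⟨π, hπ⟩ := h.exists_gn h1 h2
      have hp : (π : L) ≠ 0 := fun e => hπ.2.1 (Subtype.ext e)
      refine ⟨π ^ n.toNat, pow_mem π.2 _, pow_ne_zero _ hp, fun O hO => ?_⟩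
      by_cases e : O₀ = O
      · subst e
        have := ((h.disc hO).lt_one_iff hp).1 ((h3 π).2.1 hπ.1)
        rw [(h.disc hO).ord_pow hp, Finsupp.single_eq_same]
        nlinarith [Int.self_le_toNat n, Int.natCast_nonneg n.toNat]
      · rw [Finsupp.single_eq_of_ne' e]
        exact ((h.disc hO).mem_iff (pow_ne_zero _ hp)).1 (Ht1.le hO (pow_mem π.2 _))
    · exact ⟨1, one_mem _, one_ne_zero, fun O hO => by
        rw [Finsupp.single_eq_of_ne' (by rintro rfl; exact h0 hO), (h.disc hO).ord_one]⟩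

theorem Dv_ne (h : Nrm R) (D : Dvs L) : ∃ c ∈ R, c ≠ 0 ∧ c ∈ Dv R D := by
  obtain ⟨c, hc, c0, h1⟩ := h.exists_ge (-D)
  exact ⟨c, hc, c0, (h.mem_Dv_iff c0).2 h1⟩

theorem Dv_den (h : Nrm R) (D : Dvs L) : ∃ c ∈ R, c ≠ 0 ∧ ∀ z ∈ Dv R D, c * z ∈ R := by
  obtain ⟨c, hc, c0, h1⟩ := h.exists_ge D
  refine ⟨c, hc, c0, fun z hz => h.hartogs fun O hO => ?_⟩
  by_cases h0 : z = 0
  · simp [h0, zero_mem]
  have h2 := (h.mem_Dv_iff h0).1 hz O hO
  have h3 := h1 O hO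
  rw [(h.disc hO).mem_iff (mul_ne_zero c0 h0), (h.disc hO).ord_mul c0 h0]; omega

theorem Dv_fg (h : Nrm R) (D : Dvs L) : (Dv R D).FG := by
  haveI := h.noeth
  obtain ⟨c, hc, c0, h1⟩ := h.Dv_den D
  refine (Submodule.fg_span_singleton (R := R) c⁻¹).of_le fun z hz => ?_
  exact mem_span_singleton.2 ⟨⟨_, h1 z hz⟩, by
    rw [Subring.smul_def, smul_eq_mul]; field_simp⟩

theorem mem_O (h : Nrm R) (hO : O ∈ Ht1 R) :
    z ∈ O ↔ ∃ s ∈ R, O.valuation s = 1 ∧ s * z ∈ R := by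
  obtain ⟨𝔮, h1, h2, h3⟩ := hO
  rw [h.mem_iff h1 h2 h3]
  exact ⟨fun ⟨b, hb, e⟩ => ⟨b, b.2, h3.eq_one hb, e⟩,
    fun ⟨s, hs, e, e'⟩ => ⟨⟨s, hs⟩, fun e'' => ((h3 _).2.1 e'').ne e, e'⟩⟩

theorem fin_supp (h : Nrm R) (h0 : z ≠ 0) : {O ∈ Ht1 R | O.valuation z ≠ 1}.Finite :=
  (h.finite_ord h0).subset fun _ hO => ⟨hO.1, fun e => hO.2 (((h.disc hO.1).eq_one_iff h0).2 e)⟩

end Nrm

namespace NAff

variable {p : ℕ} [Fact p.Prime] [Algebra (ZMod p) L] {r : ℕ}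

theorem disc (h : NAff p R r) (hO : O ∈ Ht1 R) : Disc O := h.nrm.disc hO

theorem mem_O (h : NAff p R r) (hO : O ∈ Ht1 R) :
    z ∈ O ↔ ∃ s ∈ R, O.valuation s = 1 ∧ s * z ∈ R := h.nrm.mem_O hO

theorem hartogs (h : NAff p R r) (hz : ∀ O ∈ Ht1 R, z ∈ O) : z ∈ R := h.nrm.hartogs hz

theorem fin_supp (h : NAff p R r) (h0 : z ≠ 0) : {O ∈ Ht1 R | O.valuation z ≠ 1}.Finite :=
  h.nrm.fin_supp h0

theorem exists_O (_h : NAff p R r) (𝔮 : Ideal R) (hq : 𝔮.IsPrime) (_h1 : 𝔮.height = 1) :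
    ∃ O, Ctr R O 𝔮 := exists_ctr 𝔮 hq

end NAff

end

end Pool.Agent.Lib.MP_62d77c_ag.R
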