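import Mathlib

/-! The normalisation of a finitely generated domain over a prime field is finite. -/

set_option autoImplicit false

namespace Pool.Agent.Lib.MP_62d77c_ag.R

open Polynomial

theorem n1a_frob (p : ℕ) [Fact p.Prime] (S : Type) [CommRing S] [CharP S p]
    [Algebra (ZMod p) S] [h : Algebra.FiniteType (ZMod p) S] (e : ℕ) :
    (iterateFrobenius S p e).Finite := by
  refine RingHom.IsIntegral.to_finite (fun y => ⟨X ^ p ^ e - C y, ?_, ?_⟩) ?_
  · exact monic_X_pow_sub_C y (pow_ne_zero _ (Fact.out : p.Prime).ne_zero)
  · simp [iterateFrobenius_def]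
  · refine RingHom.FiniteType.of_comp_finiteType (f := algebraMap (ZMod p) S) ?_
    rw [Subsingleton.elim ((iterateFrobenius S p e).comp (algebraMap (ZMod p) S))
      (algebraMap (ZMod p) S)]
    exact RingHom.finiteType_algebraMap.2 h

theorem n1a_aux (p : ℕ) [Fact p.Prime] (S F L : Type) [CommRing S] [IsDomain S]
    [IsNoetherianRing S] [IsIntegrallyClosed S] [CharP S p] [Field F] [Algebra S F]
    [IsFractionRing S F] [Field L] [Algebra F L] [Algebra S L] [IsScalarTower S F L]
    [FiniteDimensional F L] (hF : ∀ e, (iterateFrobenius S p e).Finite) :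
    Module.Finite S (integralClosure S L) := by
  have : CharP F p := charP_of_injective_algebraMap (IsFractionRing.injective S F) p
  have : CharP L p := charP_of_injective_algebraMap (algebraMap F L).injective p
  set E := separableClosure F L
  have : CharP E p := charP_of_injective_algebraMap (algebraMap F E).injective p
  have : ExpChar E p := .prime Fact.out
  have hfin : Module.Finite S (integralClosure S E) := IsIntegralClosure.finite S F E _
  set e := IsPurelyInseparable.exponent E L
  have hx : ∀ a : L, a ^ p ^ e ∈ E := fun a => by
    obtain ⟨y, hy⟩ := IsPurelyInseparable.exponent_def' E p a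
    rw [← hy]; exact y.2
  have hi : ∀ a : integralClosure S L, IsIntegral S (⟨_, hx a⟩ : E) := fun a =>
    (isIntegral_algHom_iff (E.val.restrictScalars S) Subtype.val_injective).1 (a.2.pow _)
  let φ : integralClosure S L →+* integralClosure S E :=
    { toFun := fun a => ⟨⟨_, hx a⟩, hi a⟩
      map_one' := by ext; simp
      map_mul' := fun a b => by ext; simp [mul_pow]
      map_zero' := by ext; simp [(Fact.out : p.Prime).ne_zero]
      map_add' := fun a b => by ext; simp [add_pow_char_pow] }
  have hφ : Function.Injective φ := fun a b h => by
    have h1 : (a : L) ^ p ^ e = (b : L) ^ p ^ e := congrArg (fun z => ((z.1 : E) : L)) h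
    exact Subtype.ext (iterateFrobenius_inj L p e h1)
  have hc : φ.comp (algebraMap S _) = (algebraMap S _).comp (iterateFrobenius S p e) := by
    ext a
    have : ((algebraMap S E a : E) : L) = algebraMap S L a := by
      rw [IsScalarTower.algebraMap_apply S F E, IsScalarTower.algebraMap_apply S F L]; rfl
    simp [φ, iterateFrobenius_def, this]
  have h2 : (φ.comp (algebraMap S (integralClosure S L))).Finite := by
    rw [hc]; exact (RingHom.finite_algebraMap.2 hfin).comp (hF e)
  clear hc hfin
  let ψ := φ.comp (algebraMap S (integralClosure S L))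
  let T := integralClosure S E
  let inst : Algebra S T := ψ.toAlgebra
  have h3 : @Module.Finite S T _ _ inst.toModule := h2
  have h4 : @IsNoetherian S T _ _ inst.toModule :=
    @isNoetherian_of_isNoetherianRing_of_finite S T _ _ inst.toModule _ h3
  exact @Module.Finite.of_injective S S _ T _ _ _ _ _ inst.toModule h4 (RingHom.id S) _ _ _
    (@LinearMap.mk S S _ _ (RingHom.id S) _ T _ _ _ inst.toModule ⟨φ, map_add φ⟩ fun c a => by
      rw [Algebra.smul_def]; exact map_mul φ _ _) hφ

/-- **N1**: the integral closure in a finite extension of the fraction field is finite -/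
theorem n1a_finite (p : ℕ) [Fact p.Prime] (B K L : Type) [CommRing B] [IsDomain B]
    [Algebra (ZMod p) B] [Algebra.FiniteType (ZMod p) B] [Field K] [Algebra B K]
    [IsFractionRing B K] [Field L] [Algebra K L] [Algebra B L] [IsScalarTower B K L]
    [FiniteDimensional K L] : Module.Finite B (integralClosure B L) := by
  obtain ⟨s, g, hg, hf⟩ := exists_finite_inj_algHom_of_fg (ZMod p) B
  set S := MvPolynomial (Fin s) (ZMod p)
  let _ : Algebra S B := g.toRingHom.toAlgebra
  have : Module.Finite S B := hf
  have : FaithfulSMul S B := (faithfulSMul_iff_algebraMap_injective S B).2 hg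
  let _ : Algebra S K := ((algebraMap B K).comp (algebraMap S B)).toAlgebra
  have : IsScalarTower S B K := .of_algebraMap_eq fun _ => rfl
  let _ : Algebra S L := ((algebraMap B L).comp (algebraMap S B)).toAlgebra
  have : IsScalarTower S B L := .of_algebraMap_eq fun _ => rfl
  have : IsScalarTower S K L := .of_algebraMap_eq fun x =>
    IsScalarTower.algebraMap_apply B K L (algebraMap S B x)
  have : FaithfulSMul S K := (faithfulSMul_iff_algebraMap_injective S K).2
    ((IsFractionRing.injective B K).comp hg)
  let F := FractionRing S
  let _ : Algebra F K := FractionRing.liftAlgebra S K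
  let _ : Algebra F L := ((algebraMap K L).comp (algebraMap F K)).toAlgebra
  have : IsScalarTower F K L := .of_algebraMap_eq fun _ => rfl
  have : IsScalarTower S F L := .of_algebraMap_eq fun x => by
    rw [IsScalarTower.algebraMap_apply F K L, ← IsScalarTower.algebraMap_apply S F K,
      ← IsScalarTower.algebraMap_apply S K L]
  have : FiniteDimensional F K := Module.Finite.of_isLocalization S B (nonZeroDivisors S)
  have : FiniteDimensional F L := Module.Finite.trans K L
  have h := n1a_aux p S F L (n1a_frob p S)
  let f : integralClosure B L →ₗ[S] integralClosure S L :=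
    { toFun := fun a => ⟨a.1, isIntegral_trans (A := B) _ a.2⟩
      map_add' := fun _ _ => rfl
      map_smul' := fun _ _ => rfl }
  have : Module.Finite S (integralClosure B L) :=
    Module.Finite.of_injective f fun a b h => Subtype.ext (congrArg (fun z => z.1) h)
  exact Module.Finite.of_restrictScalars_finite S B _

end Pool.Agent.Lib.MP_62d77c_ag.R
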