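import Pool.Agent.Lib.MP_62d77c_ag.R.Mo
import Pool.Agent.Lib.MP_62d77c_ag.R.N1a
import Pool.Agent.Lib.MP_62d77c_ag.R.N1h

/-! Charts of the normalisation, centres of valuations, heights. -/

set_option autoImplicit false
set_option linter.unusedSectionVars false
set_option linter.style.haveILetI false

namespace Pool.Agent.Lib.MP_62d77c_ag.R

open Filter Polynomial Submodule

noncomputable section

theorem n1c_fin {B R F : Type} [CommRing B] [CommRing R] [Field F] [Algebra B R]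
    [Module.Finite B R] (K₀ : Subfield F) (π : R →+* F) (hB : ∀ b, π (algebraMap B R b) ∈ K₀)
    (hF : ∀ z, ∃ r s, z = π r / π s) : Module.Finite K₀ F := by
  obtain ⟨t, ht⟩ := Module.Finite.fg_top (R := B) (M := R)
  have hi : ∀ r, IsIntegral K₀ (π r) := fun r =>
    (Algebra.IsIntegral.isIntegral (R := B) r).map_of_comp_eq
      ((π.comp (algebraMap B R)).codRestrict K₀ hB) π rfl
  have hm : ∀ r, π r ∈ Algebra.adjoin K₀ (π '' t) := fun r => by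
    have hr : r ∈ span B (t : Set R) := ht ▸ mem_top
    induction hr using span_induction with
    | mem x hx => exact Algebra.subset_adjoin ⟨x, hx, rfl⟩
    | zero => simp
    | add x y _ _ a b => rw [map_add]; exact add_mem a b
    | smul c x _ a =>
      rw [Algebra.smul_def, map_mul]
      exact mul_mem (Subalgebra.algebraMap_mem _ (⟨_, hB c⟩ : K₀)) a
  have hf := fg_adjoin_of_finite (R := K₀) (t.finite_toSet.image π)
    (by rintro _ ⟨r, -, rfl⟩; exact hi r)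
  suffices e : Subalgebra.toSubmodule (Algebra.adjoin K₀ (π '' t)) = ⊤ from ⟨e ▸ hf⟩
  refine eq_top_iff.2 fun z _ => ?_
  obtain ⟨r, s, rfl⟩ := hF z
  rw [div_eq_mul_inv, Subalgebra.mem_toSubmodule]
  exact mul_mem (hm r) (Subalgebra.inv_mem_of_algebraic _ (x := ⟨_, hm s⟩) (hi s).isAlgebraic)

theorem n1c_ft (k S : Type) [CommRing k] [CommRing S] [Algebra k S]
    (h : Algebra.FiniteType ℤ S) : Algebra.FiniteType k S :=
  .of_restrictScalars_finiteType ℤ _ _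

theorem n1c_ft' (B S : Type) [CommRing B] [CommRing S] [Algebra B S]
    (h : Algebra.FiniteType ℤ B) (h' : Module.Finite B S) : Algebra.FiniteType ℤ S :=
  h.trans inferInstance

theorem n1c_tr (k S F : Type) [Field k] [CommRing S] [IsDomain S] [Field F] [Algebra k S]
    [Algebra k F] [Algebra S F] [IsFractionRing S F]
    (h : algebraMap k F = (algebraMap S F).comp (algebraMap k S)) :
    Algebra.trdeg k S = Algebra.trdeg k F := by
  haveI : IsScalarTower k S F := .of_algebraMap_eq' h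
  haveI : Algebra.IsAlgebraic S F := IsLocalization.isAlgebraic F (nonZeroDivisors S)
  rw [← trdeg_add_eq k S (A := F), trdeg_eq_zero (R := S) (A := F), add_zero]

variable {A : Type} [CommRing A] [IsDomain A] {𝒜 : ℕ → AddSubgroup A} [GradedRing 𝒜]
  [hG : Fact (Gen 𝒜)] {p : ℕ} [Fact p.Prime]

variable (𝒜) in
/-- rescaling of a homomorphism -/
def rsc {F : Type} [CommRing F] (ψ : A →+* F) (u : F) : A →+* F :=
  (DirectSum.toSemiring (fun n => (AddMonoidHom.mulRight (u ^ n)).comp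
      (ψ.toAddMonoidHom.comp (𝒜 n).subtype))
    (by simp) (by intro i j a b; simp [pow_add, mul_mul_mul_comm])).comp
    (DirectSum.decomposeRingEquiv 𝒜).toRingHom

theorem rsc_hom {F : Type} [CommRing F] (ψ : A →+* F) (u : F) {n : ℕ} {a : A} (ha : a ∈ 𝒜 n) :
    rsc 𝒜 ψ u a = ψ a * u ^ n := by
  have : DirectSum.decomposeRingEquiv 𝒜 a = DirectSum.of (fun n => 𝒜 n) n ⟨a, ha⟩ :=
    DirectSum.decompose_of_mem 𝒜 ha
  simp [rsc, this]

namespace Mo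

variable (X : Mo 𝒜 p)

theorem on_iff {y : Pt 𝒜} : X.M.On y ↔ pr X.x.1 ≤ pr y :=
  ⟨fun h => md_le_of_hom (pr_hom _) fun n a ha hx => h n a ha ((X.ker n a ha).2 hx),
    fun h n a ha e => h ((X.ker n a ha).1 e)⟩

theorem th_ne {n : ℕ} {a : A} (ha : a ∈ 𝒜 n) (h : a ∉ pr X.x.1) : X.θ a ≠ 0 :=
  fun e => h ((X.ker n a ha).1 e)

theorem th_ne' {y : Pt 𝒜} (hy : pr X.x.1 ≤ pr y) {n : ℕ} {a : A} (ha : a ∈ 𝒜 n) (h : a ∉ pr y) :
    X.θ a ≠ 0 := X.th_ne ha fun e => h (hy e)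

theorem ell_ne {y : Pt 𝒜} (hy : pr X.x.1 ≤ pr y) : X.θ (ell y) ≠ 0 :=
  X.th_ne' hy (ell_spec y).1 (ell_spec y).2

theorem exists_emb : ∃ ι : kap X.x.1 →+* X.L, ∀ a, ι (th X.x.1 a) = X.θ a := by
  have hy := X.on_iff.2 le_rfl
  obtain ⟨φ, -, hφ⟩ := X.M.exists_loc_hom hy
  haveI : IsLocalHom ((X.M.orng X.x.1).subtype.comp φ) := ⟨fun z hz => by
    obtain ⟨z, h⟩ := z
    obtain ⟨n, a, ha, b, hb, hb', rfl⟩ := mem_loc.1 h
    refine ((MX 𝒜).isUnit_orng (on_MX X.x.1) ha hb hb').2 fun h1 => hz.ne_zero ?_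
    refine (hφ n a b ha hb hb').trans ?_
    change X.θ a / X.θ b = 0
    rw [(X.ker n a ha).2 h1, zero_div]⟩
  refine ⟨IsLocalRing.ResidueField.lift ((X.M.orng X.x.1).subtype.comp φ), fun a => ?_⟩
  induction a using hom_ind (𝒜 := 𝒜) with
  | h0 => simp
  | hadd x y h1 h2 => simp only [map_add, h1, h2]
  | h n a ha =>
    rw [md_th _ ha, md_res_of_mem _ (md_div_ell_mem _ ha),
      IsLocalRing.ResidueField.lift_residue_apply]
    have := hφ n a _ ha (md_pow_mem (ell_spec X.x.1).1 n) (md_pow_not_mem (ell_spec _).2 n)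
    refine Eq.trans (congrArg _ (Subtype.ext ?_)) (this.trans ?_)
    · exact congrArg (algebraMap A (FractionRing A) a / ·) (map_pow _ _ _).symm
    · change X.θ a / X.θ _ = _
      rw [map_pow, X.one, one_pow, div_one]

/-- the embedding of the function field of the image -/
def emb : kap X.x.1 →+* X.L := X.exists_emb.choose

theorem emb_th (a : A) : X.emb (th X.x.1 a) = X.θ a := X.exists_emb.choose_spec a

theorem range_emb : X.emb.fieldRange = Subfield.closure (Set.range X.θ) := by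
  refine le_antisymm ?_ (Subfield.closure_le.2 ?_)
  · rintro _ ⟨z, rfl⟩
    obtain ⟨n, a, -, b, -, -, rfl⟩ := th_gen X.x.1 z
    rw [map_div₀, emb_th, emb_th]
    exact div_mem (Subfield.subset_closure ⟨a, rfl⟩) (Subfield.subset_closure ⟨b, rfl⟩)
  · rintro _ ⟨a, rfl⟩
    exact ⟨_, X.emb_th a⟩

theorem mem_K0 {z : X.L} : z ∈ Subfield.closure (Set.range X.θ) ↔
    ∃ n, ∃ a ∈ 𝒜 n, ∃ b ∈ 𝒜 n, b ∉ pr X.x.1 ∧ z = X.θ a / X.θ b := by
  refine ⟨fun h => ?_, ?_⟩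
  · rw [← range_emb] at h
    obtain ⟨w, rfl⟩ := h
    obtain ⟨n, a, ha, b, hb, h, rfl⟩ := th_gen X.x.1 w
    exact ⟨n, a, ha, b, hb, h, by rw [map_div₀, emb_th, emb_th]⟩
  · rintro ⟨n, a, -, b, -, -, rfl⟩
    exact div_mem (Subfield.subset_closure ⟨a, rfl⟩) (Subfield.subset_closure ⟨b, rfl⟩)

theorem trdeg_L : Algebra.trdeg (ZMod p) X.L = dm X.x := by
  letI := X.emb.toAlgebra
  haveI : IsScalarTower (ZMod p) (kap X.x.1) X.L := .of_algebraMap_eq' (Subsingleton.elim _ _)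
  haveI := X.fin
  haveI : Algebra.IsAlgebraic (kap X.x.1) X.L :=
    Algebra.IsAlgebraic.of_ringHom_of_comp_eq
      (X.emb.codRestrict (Subfield.closure (Set.range X.θ)) fun z => X.range_emb ▸ ⟨z, rfl⟩)
      (RingHom.id X.L) (fun z => by
        obtain ⟨w, hw⟩ : z.1 ∈ X.emb.fieldRange := X.range_emb.ge z.2
        exact ⟨w, Subtype.ext hw⟩) Function.injective_id rfl
  rw [← trdeg_add_eq (ZMod p) (kap X.x.1) (A := X.L), trdeg_eq_dm,
    trdeg_eq_zero (R := kap X.x.1) (A := X.L), add_zero]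

theorem p_zero : (p : X.L) = 0 := by
  rw [← map_natCast (algebraMap (ZMod p) X.L), ZMod.natCast_self, map_zero]

instance charP_L : CharP X.L p := (CharP.charP_iff_prime_eq_zero Fact.out).2 X.p_zero

/-- the coordinate ring of the chart `l ≠ 0` of the image -/
abbrev B (l : A) : Subring X.L := X.M.fr (Submonoid.powers l)

variable {l : A}

theorem pow_ne (hl : l ∈ 𝒜 1) (h0 : l ∉ pr X.x.1) :
    ∀ n, ∀ b ∈ 𝒜 n, b ∈ Submonoid.powers l → X.M.θ b ≠ 0 := by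
  rintro n b - ⟨m, rfl⟩
  rw [map_pow]; exact pow_ne_zero m (X.th_ne hl h0)

theorem div_mem_B (hl : l ∈ 𝒜 1) {n : ℕ} {a : A} (ha : a ∈ 𝒜 n) : X.θ a / X.θ l ^ n ∈ X.B l := by
  rw [← map_pow]
  exact X.M.div_mem_fr ha (md_pow_mem hl n) ⟨n, rfl⟩

theorem mem_B (hl : l ∈ 𝒜 1) (h0 : l ∉ pr X.x.1) {z : X.L} :
    z ∈ X.B l ↔ ∃ n, ∃ a ∈ 𝒜 n, z = X.θ a / X.θ l ^ n := by
  refine ⟨fun h => ?_, ?_⟩
  · obtain ⟨n, a, ha, b, hb, h', rfl⟩ := (X.M.mem_fr (X.pow_ne hl h0)).1 h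
    have b0 : b ≠ 0 := fun x => X.pow_ne hl h0 n b hb h' (by rw [x, map_zero])
    obtain ⟨m, rfl⟩ := h'
    obtain rfl : n = m := DirectSum.degree_eq_of_mem_mem 𝒜 hb (md_pow_mem hl m) b0
    exact ⟨n, a, ha, congrArg _ (map_pow _ _ _)⟩
  · rintro ⟨n, a, ha, rfl⟩
    exact X.div_mem_B hl ha

theorem B_le_K0 (hl : l ∈ 𝒜 1) (h0 : l ∉ pr X.x.1) {z : X.L} (h : z ∈ X.B l) :
    z ∈ Subfield.closure (Set.range X.θ) := by
  obtain ⟨n, a, ha, rfl⟩ := (X.mem_B hl h0).1 h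
  exact div_mem (Subfield.subset_closure ⟨a, rfl⟩)
    (pow_mem (Subfield.subset_closure (Set.mem_range_self l)) n)

theorem K0_frac (hl : l ∈ 𝒜 1) (h0 : l ∉ pr X.x.1) {z : X.L}
    (h : z ∈ Subfield.closure (Set.range X.θ)) : ∃ a ∈ X.B l, ∃ b ∈ X.B l, b ≠ 0 ∧ z = a / b := by
  obtain ⟨n, a, ha, b, hb, h', rfl⟩ := X.mem_K0.1 h
  have := pow_ne_zero n (X.th_ne hl h0)
  exact ⟨_, X.div_mem_B hl ha, _, X.div_mem_B hl hb, div_ne_zero (X.th_ne hb h') this,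
    (div_div_div_cancel_right₀ this _ _).symm⟩

theorem mem_ch {z : X.L} : z ∈ X.ch l ↔ IsIntegral (X.B l) z := Iff.rfl

theorem mem_nl {y : Pt 𝒜} {z : X.L} : z ∈ X.nl y ↔ IsIntegral (X.M.orng y) z := Iff.rfl

theorem B_le_ch : X.B l ≤ X.ch l := fun z hz => isIntegral_algebraMap (x := (⟨z, hz⟩ : X.B l))

theorem orng_le_nl (y : Pt 𝒜) : X.M.orng y ≤ X.nl y := fun z hz =>
  isIntegral_algebraMap (x := (⟨z, hz⟩ : X.M.orng y))

theorem alg_B (hl : l ∈ 𝒜 1) (h0 : l ∉ pr X.x.1) :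
    Algebra.IsAlgebraic (X.B l) X.L ∧ Module.Finite (X.B l) (integralClosure (X.B l) X.L) := by
  letI : Algebra (X.B l) (Subfield.closure (Set.range X.θ)) :=
    ((X.B l).subtype.codRestrict _ fun z => X.B_le_K0 hl h0 z.2).toAlgebra
  haveI : IsScalarTower (X.B l) (Subfield.closure (Set.range X.θ)) X.L := .of_algebraMap_eq' rfl
  haveI : FaithfulSMul (X.B l) (Subfield.closure (Set.range X.θ)) :=
    (faithfulSMul_iff_algebraMap_injective _ _).2 fun a b e =>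
      Subtype.ext (congrArg (fun z : Subfield.closure (Set.range X.θ) => z.1) e)
  haveI : IsFractionRing (X.B l) (Subfield.closure (Set.range X.θ)) :=
    IsFractionRing.of_field _ _ fun z => by
      obtain ⟨a, ha, b, hb, -, e⟩ := X.K0_frac hl h0 z.2
      exact ⟨⟨a, ha⟩, ⟨b, hb⟩, Subtype.ext e⟩
  haveI := X.fin
  letI : Algebra (ZMod p) (X.B l) := ZMod.algebra _ p
  haveI := n1c_ft (ZMod p) _ (X.M.fr_finiteType hl (X.th_ne hl h0))
  haveI := IsLocalization.isAlgebraic (Subfield.closure (Set.range X.θ)) (nonZeroDivisors (X.B l))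
  exact ⟨Algebra.IsAlgebraic.trans _ (Subfield.closure (Set.range X.θ)) _,
    n1a_finite p _ (Subfield.closure (Set.range X.θ)) _⟩

/-- the normalised chart is finite over the chart of the image -/
theorem ch_finite (hl : l ∈ 𝒜 1) (h0 : l ∉ pr X.x.1) :
    (Subring.inclusion (X.B_le_ch (l := l))).Finite := (X.alg_B hl h0).2

theorem ch_span (hl : l ∈ 𝒜 1) (h0 : l ∉ pr X.x.1) :
    ∃ t : Finset X.L, (∀ z ∈ t, z ∈ X.ch l) ∧ ∀ z ∈ X.ch l, z ∈ span (X.B l) (t : Set X.L) := by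
  obtain ⟨t, ht⟩ : (Subalgebra.toSubmodule (integralClosure (X.B l) X.L)).FG :=
    Module.Finite.iff_fg.1 (X.alg_B hl h0).2
  refine ⟨t, fun z hz => ?_, fun z hz => ht ▸ hz⟩
  have : z ∈ Subalgebra.toSubmodule (integralClosure (X.B l) X.L) := ht ▸ subset_span hz
  exact this

theorem exists_mul_ch (hl : l ∈ 𝒜 1) (h0 : l ∉ pr X.x.1) (z : X.L) :
    ∃ b ∈ X.B l, b ≠ 0 ∧ b * z ∈ X.ch l := by
  obtain ⟨b, hb, h⟩ := ((X.alg_B hl h0).1.isAlgebraic z).exists_integral_multiple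
  exact ⟨b, b.2, fun e => hb (Subtype.ext e), h⟩

theorem naff_ch (hl : l ∈ 𝒜 1) (h0 : l ∉ pr X.x.1) : NAff p (X.ch l) (dm X.x) where
  ft := by
    letI := (Subring.inclusion (X.B_le_ch (l := l))).toAlgebra
    exact n1c_ft' (X.B l) _ (X.M.fr_finiteType hl (X.th_ne hl h0)) (X.ch_finite hl h0)
  frac z := by
    obtain ⟨b, hb, h1, h⟩ := X.exists_mul_ch hl h0 z
    exact ⟨_, h, b, X.B_le_ch hb, h1, (mul_div_cancel_left₀ z h1).symm⟩
  cl z hz := isIntegral_trans (R := X.B l) (A := integralClosure (X.B l) X.L) z hz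
  dim := X.trdeg_L

/-! ### centres -/

variable {X} {O : ValuationSubring X.L} {y : Pt 𝒜}

theorem Cen.val_one (h : X.Cen O y) {n : ℕ} {b : A} (hb : b ∈ 𝒜 n) (hb' : b ∉ pr y) :
    O.valuation (X.θ b / X.θ (ell y) ^ n) = 1 :=
  le_antisymm ((O.valuation_le_one_iff _).2 (h.2 n b hb).1)
    (not_lt.1 fun e => hb' ((h.2 n b hb).2.1 e))

theorem Cen.val_div (h : X.Cen O y) {n : ℕ} {b : A} (hb : b ∈ 𝒜 n) (hb' : b ∉ pr y) (z : X.L) :
    O.valuation (z / X.θ b) = O.valuation (z / X.θ (ell y) ^ n) := by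
  rw [← div_div_div_cancel_right₀ (pow_ne_zero n (X.ell_ne h.1)), map_div₀, h.val_one hb hb',
    div_one]

theorem Cen.div (h : X.Cen O y) {n : ℕ} {a b : A} (ha : a ∈ 𝒜 n) (hb : b ∈ 𝒜 n) (hb' : b ∉ pr y) :
    X.θ a / X.θ b ∈ O ∧ (O.valuation (X.θ a / X.θ b) < 1 ↔ a ∈ pr y) := by
  rw [← O.valuation_le_one_iff, h.val_div hb hb', O.valuation_le_one_iff]
  exact h.2 n a ha

theorem Cen.orng_le (h : X.Cen O y) : X.M.orng y ≤ O.toSubring := fun z hz => by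
  obtain ⟨n, a, ha, b, hb, hb', rfl⟩ := (X.M.mem_orng (X.on_iff.2 h.1)).1 hz
  exact (h.div ha hb hb').1

theorem n1c_int {L : Type} [Field L] {R : Subring L} {O : ValuationSubring L}
    (h : R ≤ O.toSubring) {z : L} (hz : IsIntegral R z) : z ∈ O := by
  obtain ⟨w, rfl⟩ := (IsIntegrallyClosed.isIntegral_iff (R := O) (K := L)).1
    (hz.map_of_comp_eq (T := O) (Subring.inclusion h) (RingHom.id L) rfl)
  exact w.2

theorem Cen.nl_le (h : X.Cen O y) : X.nl y ≤ O.toSubring := fun _ hz => n1c_int h.orng_le hz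

theorem B_le_orng (hy : l ∉ pr y) : X.B l ≤ X.M.orng y := X.M.fr_le_orng (by
  rintro n b - ⟨m, rfl⟩
  exact md_pow_not_mem hy m)

theorem ch_le_nl (hy : l ∉ pr y) : X.ch l ≤ X.nl y := fun _ hz =>
  IsIntegral.map_of_comp_eq (T := X.M.orng y) (Subring.inclusion (B_le_orng hy)) (RingHom.id _)
    rfl hz

theorem Cen.ch_le (h : X.Cen O y) (hy : l ∉ pr y) : X.ch l ≤ O.toSubring :=
  (ch_le_nl hy).trans h.nl_le

theorem Cen.unique (h : X.Cen O y) {y' : Pt 𝒜} (h' : X.Cen O y') : y = y' := by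
  have key : ∀ {y y' : Pt 𝒜}, X.Cen O y → X.Cen O y' → pr y ≤ pr y' := fun {y y'} h h' => by
    have e : ell y' ∉ pr y := fun e => by
      have a := (h.2 1 _ (ell_spec y').1).2.2 e
      have b := (O.valuation_le_one_iff _).2 (h'.2 1 _ (ell_spec y).1).1
      have c := mul_lt_one_of_lt_of_le a b
      rw [← map_mul, pow_one, pow_one, div_mul_div_cancel₀ (X.ell_ne h.1),
        div_self (X.ell_ne h'.1), map_one] at c
      exact lt_irrefl _ c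
    refine md_le_of_hom (pr_hom y) fun n a ha h1 => (h'.2 n a ha).2.1 ?_
    rw [← map_pow]
    exact (h.div ha (md_pow_mem (ell_spec y').1 n) (md_pow_not_mem e n)).2.2 h1
  exact pr_inj (le_antisymm (key h h') (key h' h))

theorem cen_eq {y : Vp 𝒜 p} (h : X.Cen O y.1) : X.cen O = y := by
  have e : ∃ y : Vp 𝒜 p, X.Cen O y.1 := ⟨y, h⟩
  rw [cen, dif_pos e]
  exact Subtype.ext (e.choose_spec.unique h)

theorem mem_PD : O ∈ X.PD ↔ X.Cen O (X.cen O).1 ∧ dm (X.cen O) + 1 = dm X.x :=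
  ⟨fun ⟨_, h1, h2⟩ => (cen_eq h1).symm ▸ ⟨h1, h2⟩, fun h => ⟨_, h⟩⟩

theorem cen_of (hy : pr X.x.1 ≤ pr y) (hl : l ∈ 𝒜 1) (h0 : l ∉ pr y)
    (h : ∀ n, ∀ a ∈ 𝒜 n, X.θ a / X.θ l ^ n ∈ O ∧
      (O.valuation (X.θ a / X.θ l ^ n) < 1 ↔ a ∈ pr y)) : X.Cen O y := by
  refine ⟨hy, fun n a ha => ?_⟩
  have e := h n _ (md_pow_mem (ell_spec y).1 n)
  have e1 : O.valuation (X.θ (ell y ^ n) / X.θ l ^ n) = 1 :=
    le_antisymm ((O.valuation_le_one_iff _).2 e.1)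
      (not_lt.1 fun c => md_pow_not_mem (ell_spec y).2 n (e.2.1 c))
  rw [← O.valuation_le_one_iff, ← div_div_div_cancel_right₀ (pow_ne_zero n (X.th_ne' hy hl h0)),
    map_div₀, ← map_pow X.θ (ell y), e1, div_one, O.valuation_le_one_iff]
  exact h n a ha

theorem exists_cen (hl : l ∈ 𝒜 1) (h0 : l ∉ pr X.x.1) (h : X.B l ≤ O.toSubring) :
    ∃ y : Vp 𝒜 p, X.Cen O y.1 ∧ l ∉ pr y.1 := by
  obtain ⟨y, h1, h2, h3⟩ := X.M.exists_pt_of_prime (X.pow_ne hl h0) one_pos hl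
    (Submonoid.mem_powers l) ((IsLocalRing.maximalIdeal O).comap (Subring.inclusion h))
    (Ideal.comap_isPrime _ _)
  have hy := X.on_iff.1 h1
  have hl' := h2 1 l hl (Submonoid.mem_powers l)
  refine ⟨⟨y, hy X.x.2⟩, cen_of hy hl hl' fun n a ha => ⟨h (X.div_mem_B hl ha), ?_⟩, hl'⟩
  rw [← h3 n a _ ha (md_pow_mem hl n) ⟨n, rfl⟩, Ideal.mem_comap, O.valuation_lt_one_iff,
    ← map_pow X.θ]
  rfl

theorem ctr_of_le {L : Type} [Field L] {R : Subring L} {O : ValuationSubring L}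
    (h : R ≤ O.toSubring) : ∃ 𝔮 : Ideal R, 𝔮.IsPrime ∧ Ctr R O 𝔮 :=
  ⟨(IsLocalRing.maximalIdeal O).comap (Subring.inclusion h), Ideal.comap_isPrime _ _,
    fun r => ⟨h r.2, by rw [Ideal.mem_comap, O.valuation_lt_one_iff]; rfl⟩⟩

/-- the residue field of a prime of a chart is a finite cover of the centre -/
theorem exists_res (hl : l ∈ 𝒜 1) {y : Vp 𝒜 p} (hy : l ∉ pr y.1) (hc : X.Cen O y.1)
    {𝔮 : Ideal (X.ch l)} (h : Ctr (X.ch l) O 𝔮) {F : Type} [Field F] [Algebra (ZMod p) F]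
    (π : X.ch l →+* F) (hk : ∀ r, π r = 0 ↔ r ∈ 𝔮) (hF : ∀ z, ∃ r s, z = π r / π s) :
    ∃ θ : A →+* F, (∀ n, ∀ a ∈ 𝒜 n, θ a = 0 ↔ a ∈ pr y.1) ∧ θ (ell y.1) = 1 ∧
      Module.Finite (Subfield.closure (Set.range θ)) F ∧
      ∀ n a (ha : a ∈ 𝒜 n), π ⟨_, X.B_le_ch (X.div_mem_B hl ha)⟩ = θ a / θ l ^ n := by
  have h0 : l ∉ pr X.x.1 := fun e => hy (hc.1 e)
  have e0 : ∀ {n a}, a ∈ 𝒜 n → rsc 𝒜 X.θ (X.θ l)⁻¹ a = X.θ a / X.θ l ^ n := fun ha => by
    rw [rsc_hom _ _ ha, inv_pow, div_eq_mul_inv]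
  have m0 : ∀ a, rsc 𝒜 X.θ (X.θ l)⁻¹ a ∈ X.ch l := fun a => by
    induction a using hom_ind (𝒜 := 𝒜) with
    | h0 => rw [map_zero]; exact zero_mem _
    | hadd x y h1 h2 => rw [map_add]; exact add_mem h1 h2
    | h n a ha => rw [e0 ha]; exact X.B_le_ch (X.div_mem_B hl ha)
  let ψ := π.comp ((rsc 𝒜 X.θ (X.θ l)⁻¹).codRestrict _ m0)
  have e1 : ∀ {n a} (ha : a ∈ 𝒜 n), ψ a = π ⟨_, X.B_le_ch (X.div_mem_B hl ha)⟩ := fun ha =>
    congrArg π (Subtype.ext (e0 ha))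
  have e2 : ∀ {n a}, a ∈ 𝒜 n → (ψ a = 0 ↔ a ∈ pr y.1) := fun {n a} ha => by
    rw [e1 ha, hk, (h _).2]
    change O.valuation (X.θ a / X.θ l ^ n) < 1 ↔ _
    rw [← map_pow]
    exact (hc.div ha (md_pow_mem hl n) (md_pow_not_mem hy n)).2
  have e3 : ψ (ell y.1) ≠ 0 := fun e => (ell_spec y.1).2 ((e2 (ell_spec y.1).1).1 e)
  have e4 : ψ l = 1 := by
    rw [e1 hl, ← map_one π]
    exact congrArg π (Subtype.ext (by simp [X.th_ne hl h0]))
  have e5 : ∀ n a (ha : a ∈ 𝒜 n), π ⟨_, X.B_le_ch (X.div_mem_B hl ha)⟩ =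
      rsc 𝒜 ψ (ψ (ell y.1))⁻¹ a / rsc 𝒜 ψ (ψ (ell y.1))⁻¹ l ^ n := fun n a ha => by
    rw [rsc_hom _ _ ha, rsc_hom _ _ hl, e4, pow_one, one_mul, ← e1 ha,
      mul_div_cancel_right₀ _ (pow_ne_zero _ (inv_ne_zero e3))]
  refine ⟨rsc 𝒜 ψ (ψ (ell y.1))⁻¹, fun n a ha => ?_, ?_, ?_, e5⟩
  · rw [rsc_hom _ _ ha, mul_eq_zero, e2 ha, or_iff_left (pow_ne_zero _ (inv_ne_zero e3))]
  · rw [rsc_hom _ _ (ell_spec y.1).1, pow_one, mul_inv_cancel₀ e3]
  · letI := (Subring.inclusion (X.B_le_ch (l := l))).toAlgebra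
    haveI : Module.Finite (X.B l) (X.ch l) := X.ch_finite hl h0
    refine n1c_fin (B := X.B l) _ π (fun b => ?_) hF
    obtain ⟨b, hb⟩ := b
    obtain ⟨n, a, ha, rfl⟩ := (X.mem_B hl h0).1 hb
    refine (e5 n a ha).symm ▸ ?_
    exact div_mem (Subfield.subset_closure ⟨a, rfl⟩)
      (pow_mem (Subfield.subset_closure (Set.mem_range_self l)) n)

/-- the height of a prime of a chart is the codimension of its centre -/
theorem height_ctr (hl : l ∈ 𝒜 1) {y : Vp 𝒜 p} (hy : l ∉ pr y.1) (hc : X.Cen O y.1)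
    {𝔮 : Ideal (X.ch l)} [𝔮.IsPrime] (h : Ctr (X.ch l) O 𝔮) :
    𝔮.height + (dm y : ℕ) = (dm X.x : ℕ) := by
  have h0 : l ∉ pr X.x.1 := fun e => hy (hc.1 e)
  have hN := X.naff_ch hl h0
  letI : Algebra (ZMod p) (X.ch l) := ZMod.algebra _ p
  haveI := n1c_ft (ZMod p) _ hN.ft
  haveI : IsFractionRing (X.ch l) X.L := IsFractionRing.of_field _ _ fun z => by
    obtain ⟨a, ha, b, hb, -, e⟩ := hN.frac z
    exact ⟨⟨a, ha⟩, ⟨b, hb⟩, e⟩
  refine n1h_dim (K := ZMod p) ((n1c_tr _ _ X.L (Subsingleton.elim _ _)).trans X.trdeg_L) 𝔮 ?_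
  obtain ⟨θ, h1, h2, h3, -⟩ := exists_res hl hy hc h (F := FractionRing (X.ch l ⧸ 𝔮))
    ((algebraMap (X.ch l ⧸ 𝔮) _).comp (Ideal.Quotient.mk 𝔮))
    (fun r => by
      rw [RingHom.comp_apply, FaithfulSMul.algebraMap_eq_zero_iff, Ideal.Quotient.eq_zero_iff_mem])
    (fun z => by
      obtain ⟨a, b, -, rfl⟩ := IsFractionRing.div_surjective (A := X.ch l ⧸ 𝔮) z
      obtain ⟨a, rfl⟩ := Ideal.Quotient.mk_surjective a
      obtain ⟨b, rfl⟩ := Ideal.Quotient.mk_surjective b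
      exact ⟨a, b, rfl⟩)
  exact (n1c_tr _ _ _ (Subsingleton.elim _ _)).trans (trdeg_L ⟨_, θ, y, h1, h2, h3⟩)

/-- prime divisors that meet a chart -/
theorem mem_ht1 (hl : l ∈ 𝒜 1) (h0 : l ∉ pr X.x.1) :
    O ∈ Ht1 (X.ch l) ↔ O ∈ X.PD ∧ l ∉ pr (X.cen O).1 := by
  constructor
  · rintro ⟨𝔮, h1, h2, h3⟩
    obtain ⟨y, h4, h5⟩ := exists_cen hl h0 (O := O) fun z hz => (h3 ⟨z, X.B_le_ch hz⟩).1
    have := height_ctr hl h5 h4 h3
    rw [h2, add_comm] at this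
    exact ⟨⟨y, h4, by exact_mod_cast this⟩, (cen_eq h4).symm ▸ h5⟩
  · rintro ⟨h1, h2⟩
    obtain ⟨h3, h4⟩ := mem_PD.1 h1
    obtain ⟨𝔮, h5, h6⟩ := ctr_of_le (h3.ch_le h2)
    have := height_ctr hl h2 h3 h6
    rw [← h4, add_comm, Nat.cast_add, Nat.cast_one] at this
    exact ⟨𝔮, h5, ENat.add_right_injective_of_ne_top (ENat.natCast_ne_top _) this, h6⟩

theorem PD_ht1 (h : O ∈ X.PD) : O ∈ Ht1 (X.ch (ell (X.cen O).1)) :=
  (mem_ht1 (ell_spec _).1 fun e => (ell_spec _).2 ((mem_PD.1 h).1.1 e)).2 ⟨h, (ell_spec _).2⟩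

end Mo

end

end Pool.Agent.Lib.MP_62d77c_ag.R
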