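import Pool.Agent.Lib.MP_62d77c_ag.R.Df
import Pool.Agent.Lib.MP_62d77c_ag.R.N1b
import Pool.Agent.Lib.MP_62d77c_ag.R.N1c

/-! The families `O(D)`: stalks, charts, finite generation. -/

set_option autoImplicit false
set_option linter.unusedSectionVars false
set_option linter.style.haveILetI false

namespace Pool.Agent.Lib.MP_62d77c_ag.R

open Filter Polynomial Submodule

noncomputable section

variable {A : Type} [CommRing A] [IsDomain A] {𝒜 : ℕ → AddSubgroup A} [GradedRing 𝒜]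
  [hG : Fact (Gen 𝒜)] {p : ℕ} [Fact p.Prime]

variable (𝒜) in
theorem n1d_gens : ∃ s : Finset A, (∀ a ∈ s, a ∈ 𝒜 1) ∧ ∀ y : Pt 𝒜, ∃ l ∈ s, l ∉ pr y := by
  obtain ⟨s, hs⟩ := piece_fg (𝒜 := 𝒜) 1
  refine ⟨s, fun a ha => hs ▸ AddSubgroup.subset_closure ha, fun y => ?_⟩
  by_contra hc
  push Not at hc
  have : 𝒜 1 ≤ (pr y).toAddSubgroup := hs ▸ (AddSubgroup.closure_le _).2 hc
  exact (ell_spec y).2 (this (ell_spec y).1)

theorem Disc.exists_pow {L : Type} [Field L] {O : ValuationSubring L} (h : Disc O) {c : L}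
    (hc : O.valuation c < 1) (w : L) : ∃ N : ℕ, c ^ N * w ∈ O := by
  by_cases c0 : c = 0
  · exact ⟨1, by simp [c0, zero_mem]⟩
  by_cases w0 : w = 0
  · exact ⟨1, by simp [w0, zero_mem]⟩
  refine ⟨(ord O w).natAbs, ?_⟩
  have := (h.lt_one_iff c0).1 hc
  rw [h.mem_iff (mul_ne_zero (pow_ne_zero _ c0) w0), h.ord_mul (pow_ne_zero _ c0) w0, h.ord_pow c0]
  have h1 : -ord O w ≤ (ord O w).natAbs := by omega
  have h2 : (0 : ℤ) ≤ (ord O w).natAbs := Int.natCast_nonneg _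
  nlinarith

theorem pd_cen (X : Mo 𝒜 p) {O : ValuationSubring X.L} (h : O ∈ X.PD) :
    X.Cen O (X.cen O).1 ∧ dm (X.cen O) + 1 = dm X.x := Mo.mem_PD.1 h

theorem Mo.nrm_ch (X : Mo 𝒜 p) {l : A} (hl : l ∈ 𝒜 1) (h0 : l ∉ pr X.x.1) : Nrm (X.ch l) :=
  (X.naff_ch hl h0).nrm

theorem pd_disc (X : Mo 𝒜 p) {O : ValuationSubring X.L} (h : O ∈ X.PD) : Disc O :=
  (X.nrm_ch (ell_spec _).1 fun e => (ell_spec _).2 ((pd_cen X h).1.1 e)).disc (Mo.PD_ht1 h)

theorem pd_finite (X : Mo 𝒜 p) {z : X.L} (hz : z ≠ 0) (n : ℕ) :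
    {O | O ∈ X.PD ∧ O.valuation (z / X.θ (ell (X.cen O).1) ^ n) ≠ 1}.Finite := by
  obtain ⟨s, h1, h2⟩ := n1d_gens 𝒜
  refine (s.finite_toSet.biUnion (t := fun l => {O | l ∉ pr X.x.1 ∧ O ∈ Ht1 (X.ch l) ∧
    O.valuation (z / X.θ l ^ n) ≠ 1}) fun l hl => ?_).subset fun O ⟨hO, e⟩ => ?_
  · by_cases h0 : l ∈ pr X.x.1
    · exact Set.finite_empty.subset fun O h => h.1 h0
    · exact ((X.nrm_ch (h1 l hl) h0).fin_supp (div_ne_zero hz (pow_ne_zero n
        (X.th_ne (h1 l hl) h0)))).subset fun O h => h.2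
  · obtain ⟨l, hl, h3⟩ := h2 (X.cen O).1
    have hc := (pd_cen X hO).1
    have h0 : l ∉ pr X.x.1 := fun e => h3 (hc.1 e)
    refine Set.mem_biUnion hl ⟨h0, (Mo.mem_ht1 (h1 l hl) h0).2 ⟨hO, h3⟩, ?_⟩
    rwa [← map_pow, hc.val_div (md_pow_mem (h1 l hl) n) (md_pow_not_mem h3 n)]

theorem pd_fin (X : Mo 𝒜 p) {e : ℕ} {a : A} (ha : a ∈ 𝒜 e) (h0 : X.θ a ≠ 0) :
    {O | O ∈ X.PD ∧ a ∈ pr (X.cen O).1}.Finite :=
  (pd_finite X h0 e).subset fun _ h => ⟨h.1, (((pd_cen X h.1).1.2 e a ha).2.2 h.2).ne⟩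

namespace Mo

variable (X : Mo 𝒜 p) {O : ValuationSubring X.L} {D E : Dvs X.L} {l : A} {y : Pt 𝒜} {n m : ℕ}
  {z w : X.L}

theorem exists_cen_at (hy : pr X.x.1 ≤ pr y) : ∃ O, X.Cen O y := by
  have h := X.on_iff.2 hy
  haveI := X.M.orng_local h
  obtain ⟨O, hO⟩ := exists_ctr (IsLocalRing.maximalIdeal (X.M.orng y)) inferInstance
  refine ⟨O, hy, fun n a ha => ?_⟩
  have h1 := md_pow_mem (ell_spec y).1 n
  have h2 := md_pow_not_mem (ell_spec y).2 n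
  have := hO ⟨_, X.M.div_mem_fr (T := (pr y).primeCompl) ha h1 h2⟩
  rw [IsLocalRing.mem_maximalIdeal, mem_nonunits_iff, X.M.isUnit_orng h ha h1 h2, not_not] at this
  rw [← map_pow]
  exact ⟨this.1, this.2.symm⟩

theorem exists_PD {y : Vp 𝒜 p} (hy : pr X.x.1 ≤ pr y.1) (h : dm y + 1 = dm X.x) :
    ∃ O ∈ X.PD, X.cen O = y := by
  obtain ⟨O, hO⟩ := X.exists_cen_at hy
  exact ⟨O, ⟨y, hO, h⟩, cen_eq hO⟩

theorem exists_form (h : O ∈ X.PD) : ∃ e, ∃ a ∈ 𝒜 e, a ∈ pr (X.cen O).1 ∧ X.θ a ≠ 0 := by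
  obtain ⟨h1, h2⟩ := pd_cen X h
  obtain ⟨e, a, ha, h3, h4⟩ := md_exists_not_mem (pr_hom (X.cen O).1) (J := pr X.x.1) fun e => by
    have : X.cen O = X.x := Subtype.ext (pr_inj (le_antisymm e h1.1))
    rw [this] at h2
    omega
  exact ⟨e, a, ha, h3, X.th_ne ha h4⟩

theorem finite_over (y : Vp 𝒜 p) : {O | O ∈ X.PD ∧ X.cen O = y}.Finite := by
  rcases {O | O ∈ X.PD ∧ X.cen O = y}.eq_empty_or_nonempty with e | ⟨O, hO, rfl⟩
  · rw [e]; exact Set.finite_empty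
  · obtain ⟨e, a, ha, h1, h2⟩ := X.exists_form hO
    exact (pd_fin X ha h2).subset fun O' h => ⟨h.1, h.2 ▸ h1⟩

/-- a prime divisor whose centre lies in the closure of a point of codimension one -/
theorem cen_eq_of_le (h : O ∈ X.PD) {y : Vp 𝒜 p} (hy : dm X.x ≤ dm y + 1)
    (hle : pr (X.cen O).1 ≤ pr y.1) : X.cen O = y := by
  by_contra e
  have := dm_lt (lt_of_le_of_ne hle fun c => e (Subtype.ext (pr_inj c)))
  have := (pd_cen X h).2
  omega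

theorem mem_MD : z ∈ X.MD D n ↔ ∀ O ∈ X.PD, X.nm O D n z ∈ O := Iff.rfl

theorem nm_eq (O : ValuationSubring X.L) (D : Dvs X.L) (n : ℕ) (z : X.L) :
    X.nm O D n z = z / X.θ (ell (X.cen O).1) ^ n * unif O ^ D O := by
  rw [nm, mul_div_right_comm]

theorem mem_MD_ord (hz : z ≠ 0) :
    z ∈ X.MD D n ↔ ∀ O ∈ X.PD, -D O ≤ ord O (z / X.θ (ell (X.cen O).1) ^ n) :=
  forall₂_congr fun O hO => by
    rw [nm_eq]
    exact (pd_disc X hO).mul_mem_iff (div_ne_zero hz (pow_ne_zero _ (X.ell_ne (pd_cen X hO).1.1))) _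

theorem nm_zero (O : ValuationSubring X.L) (n : ℕ) (z : X.L) :
    X.nm O 0 n z = z / X.θ (ell (X.cen O).1) ^ n := by simp [nm]

theorem nm_deg_zero (O : ValuationSubring X.L) (D : Dvs X.L) (z : X.L) :
    X.nm O D 0 z = z * unif O ^ D O := by simp [nm]

theorem nm_mul (h : O ∈ X.PD) (D E : Dvs X.L) (n m : ℕ) (z w : X.L) :
    X.nm O (D + E) (n + m) (z * w) = X.nm O D n z * X.nm O E m w := by
  rw [nm, nm, nm, Finsupp.add_apply, zpow_add₀ (pd_disc X h).unif_ne, pow_add, div_mul_div_comm,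
    mul_mul_mul_comm]

theorem nm_th_mul (O : ValuationSubring X.L) (D : Dvs X.L) (n m : ℕ) (z w : X.L) :
    X.nm O D (n + m) (z * w) = z / X.θ (ell (X.cen O).1) ^ n * X.nm O D m w := by
  rw [nm, nm, pow_add, div_mul_div_comm, mul_assoc]

theorem nm_add (O : ValuationSubring X.L) (D : Dvs X.L) (n : ℕ) (z w : X.L) :
    X.nm O D n (z + w) = X.nm O D n z + X.nm O D n w := by rw [nm, nm, nm, add_mul, add_div]

theorem mul_mem_MD (hz : z ∈ X.MD D n) (hw : w ∈ X.MD E m) : z * w ∈ X.MD (D + E) (n + m) :=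
  fun O hO => by rw [X.nm_mul hO]; exact mul_mem (hz O hO) (hw O hO)

theorem th_mem_MD {a : A} (ha : a ∈ 𝒜 n) : X.θ a ∈ X.MD 0 n := fun O hO => by
  rw [nm_zero]; exact ((pd_cen X hO).1.2 n a ha).1

theorem th_mul_mem {a : A} (ha : a ∈ 𝒜 n) (hw : w ∈ X.MD D m) : X.θ a * w ∈ X.MD D (n + m) := by
  simpa using X.mul_mem_MD (X.th_mem_MD ha) hw

theorem MD_mono (h : ∀ O ∈ X.PD, D O ≤ E O) (n : ℕ) : X.MD D n ≤ X.MD E n := fun z hz => by
  by_cases h0 : z = 0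
  · exact h0 ▸ zero_mem _
  · rw [X.mem_MD_ord h0] at hz ⊢
    exact fun O hO => (neg_le_neg (h O hO)).trans (hz O hO)

theorem MD_congr (h : ∀ O ∈ X.PD, D O = E O) : X.MD D = X.MD E := funext fun n =>
  le_antisymm (X.MD_mono (fun O hO => (h O hO).le) n) (X.MD_mono (fun O hO => (h O hO).ge) n)

theorem st_MD (D : Dvs X.L) (n : ℕ) : X.V * X.MD D n ≤ X.MD D (n + 1) :=
  mul_le.2 fun v hv w hw => by
    obtain ⟨a, -, ha, rfl⟩ := X.M.mem_fam.1 hv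
    rw [add_comm]; exact X.th_mul_mem ha hw

/-- division by a form that does not vanish at the centre -/
theorem nm_th_iff (h : O ∈ X.PD) {s : A} (hs : s ∈ 𝒜 n) (h1 : s ∉ pr (X.cen O).1) :
    O.valuation (X.nm O D (n + m) (X.θ s * w)) = O.valuation (X.nm O D m w) := by
  rw [nm_th_mul, map_mul, (pd_cen X h).1.val_one hs h1, one_mul]

theorem clear (T : Submonoid A) (h : ∀ O ∈ X.PD, X.nm O D n z ∈ O ∨
    ∃ k, ∃ s ∈ 𝒜 k, s ∈ T ∧ s ∈ pr (X.cen O).1) :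
    ∃ m, ∃ s ∈ 𝒜 m, s ∈ T ∧ X.θ s * z ∈ X.MD D (m + n) := by
  by_cases hz : z = 0
  · exact ⟨0, 1, SetLike.one_mem_graded 𝒜, one_mem _, by simp [hz]⟩
  have up : ∀ O ∈ X.PD, ∀ k m w, ∀ s ∈ 𝒜 k, X.nm O D m w ∈ O →
      X.nm O D (k + m) (X.θ s * w) ∈ O := fun O hO k m w s hs hw => by
    rw [nm_th_mul]; exact mul_mem ((pd_cen X hO).1.2 k s hs).1 hw
  have key : ∀ S : Set (ValuationSubring X.L), S.Finite → ∃ m, ∃ s ∈ 𝒜 m, s ∈ T ∧
      ∀ O ∈ S, O ∈ X.PD → X.nm O D (m + n) (X.θ s * z) ∈ O := fun S hS => by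
    induction S, hS using Set.Finite.induction_on with
    | empty => exact ⟨0, 1, SetLike.one_mem_graded 𝒜, one_mem _, by simp⟩
    | @insert O S _ _ ih =>
      obtain ⟨m, s, hs, hT, h1⟩ := ih
      by_cases hO : O ∈ X.PD
      swap
      · exact ⟨m, s, hs, hT, Set.forall_mem_insert.2 ⟨fun c => absurd c hO, h1⟩⟩
      rcases h O hO with h2 | ⟨k, t, ht, hT', h2⟩
      · exact ⟨m, s, hs, hT, Set.forall_mem_insert.2 ⟨fun _ => up O hO m n z s hs h2, h1⟩⟩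
      obtain ⟨N, hN⟩ := (pd_disc X hO).exists_pow (((pd_cen X hO).1.2 k t ht).2.2 h2)
        (X.nm O D (m + n) (X.θ s * z))
      have hp : t ^ N ∈ 𝒜 (k * N) := by simpa [mul_comm] using SetLike.pow_mem_graded N ht
      refine ⟨k * N + m, t ^ N * s, SetLike.mul_mem_graded hp hs, mul_mem (pow_mem hT' N) hT, ?_⟩
      rw [map_mul, mul_assoc, add_assoc]
      refine Set.forall_mem_insert.2 ⟨fun _ => ?_, fun O' h3 h4 => up O' h4 _ _ _ _ hp (h1 O' h3 h4)⟩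
      rwa [nm_th_mul, map_pow, pow_mul, ← div_pow]
  obtain ⟨m, s, hs, hT, h1⟩ := key _ ((pd_finite X hz n).union D.support.finite_toSet)
  refine ⟨m, s, hs, hT, fun O hO => ?_⟩
  by_cases e : O ∈ {O | O ∈ X.PD ∧ O.valuation (z / X.θ (ell (X.cen O).1) ^ n) ≠ 1} ∪ D.support
  · exact h1 O e hO
  · simp only [Set.mem_union, Set.mem_ofPred_eq, Finset.mem_coe, Finsupp.mem_support_iff, not_or,
      not_and, not_not] at e
    refine up O hO m n z s hs ?_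
    rw [nm_eq, e.2, zpow_zero, mul_one, ← O.valuation_le_one_iff, e.1 hO]

end Mo

theorem mem_stk_md (X : Mo 𝒜 p) (D : Dvs X.L) {y : Pt 𝒜} (_hy : pr X.x.1 ≤ pr y) (z : X.L) :
    z ∈ X.stk (X.MD D) y ↔ ∀ O ∈ X.PD, pr (X.cen O).1 ≤ pr y → z * unif O ^ D O ∈ O := by
  constructor
  · rintro ⟨n, s, hs, h1, h2⟩ O hO hle
    rw [← X.nm_deg_zero, ← O.valuation_le_one_iff, ← X.nm_th_iff hO hs fun e => h1 (hle e),
      O.valuation_le_one_iff]
    exact h2 O hO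
  · intro h
    refine X.clear (n := 0) (pr y).primeCompl fun O hO => ?_
    by_cases hle : pr (X.cen O).1 ≤ pr y
    · exact Or.inl (X.nm_deg_zero O D z ▸ h O hO hle)
    · obtain ⟨k, s, hs, h1, h2⟩ := md_exists_not_mem (pr_hom _) hle
      exact Or.inr ⟨k, s, hs, h2, h1⟩

namespace Mo

variable (X : Mo 𝒜 p) {O : ValuationSubring X.L} {D E : Dvs X.L} {l : A} {y : Pt 𝒜} {n m : ℕ}
  {z w : X.L}

theorem val_nm (h : O ∈ X.PD) (hl : l ∈ 𝒜 1) (h1 : l ∉ pr (X.cen O).1) (D : Dvs X.L) (n : ℕ)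
    (z : X.L) : O.valuation (X.nm O D n z) = O.valuation (z / X.θ l ^ n * unif O ^ D O) := by
  rw [nm_eq, map_mul, map_mul, ← map_pow X.θ l,
    (pd_cen X h).1.val_div (md_pow_mem hl n) (md_pow_not_mem h1 n)]

theorem div_mem_Dv (hl : l ∈ 𝒜 1) (h0 : l ∉ pr X.x.1) (hz : z ∈ X.MD D n) :
    z / X.θ l ^ n ∈ Dv (X.ch l) D := fun O hO => by
  obtain ⟨h1, h2⟩ := (mem_ht1 hl h0).1 hO
  rw [← O.valuation_le_one_iff, ← X.val_nm h1 hl h2, O.valuation_le_one_iff]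
  exact hz O h1

theorem mem_MD_charts :
    z ∈ X.MD D n ↔ ∀ l ∈ 𝒜 1, l ∉ pr X.x.1 → z / X.θ l ^ n ∈ Dv (X.ch l) D :=
  ⟨fun h _ hl h0 => X.div_mem_Dv hl h0 h, fun h O hO => by
    rw [nm_eq]
    exact h _ (ell_spec _).1 (fun e => (ell_spec _).2 ((pd_cen X hO).1.1 e)) O (PD_ht1 hO)⟩

/-- sections over a chart -/
theorem mem_Dv_ch (hl : l ∈ 𝒜 1) (h0 : l ∉ pr X.x.1) :
    z ∈ Dv (X.ch l) D ↔ ∃ n, X.θ l ^ n * z ∈ X.MD D n := by
  have l0 := X.th_ne hl h0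
  constructor
  · intro h
    obtain ⟨m, s, hs, ⟨k, rfl⟩, h2⟩ := X.clear (D := D) (n := 0) (z := z) (Submonoid.powers l)
      fun O hO => by
        by_cases e : l ∈ pr (X.cen O).1
        · exact Or.inr ⟨1, l, hl, Submonoid.mem_powers l, e⟩
        · exact Or.inl (X.nm_deg_zero O D z ▸ h O ((mem_ht1 hl h0).2 ⟨hO, e⟩))
    obtain rfl : m = k := DirectSum.degree_eq_of_mem_mem 𝒜 hs (md_pow_mem hl k)
      (pow_ne_zero k fun e => l0 (by rw [e, map_zero]))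
    exact ⟨m, by simpa using h2⟩
  · rintro ⟨n, h⟩
    have := X.div_mem_Dv hl h0 h
    rwa [mul_div_cancel_left₀ _ (pow_ne_zero n l0)] at this

theorem mem_ch_iff (hl : l ∈ 𝒜 1) (h0 : l ∉ pr X.x.1) :
    z ∈ X.ch l ↔ ∃ n, X.θ l ^ n * z ∈ X.MD 0 n := by
  rw [← X.mem_Dv_ch hl h0, (X.nrm_ch hl h0).mem_Dv_zero]

theorem div_mem_ch (hl : l ∈ 𝒜 1) (h0 : l ∉ pr X.x.1) (hz : z ∈ X.MD 0 n) :
    z / X.θ l ^ n ∈ X.ch l := (X.nrm_ch hl h0).mem_Dv_zero.1 (X.div_mem_Dv hl h0 hz)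

theorem fg_pow_mul {W : Submodule (ZMod p) X.L} (hW : W.FG) : Fg X.V fun n => X.V ^ n * W :=
  Eventually.of_forall fun n => ⟨(X.M.V_fg.pow n).mul hW,
    show X.V ^ (n + 1) * W = X.V * (X.V ^ n * W) by rw [pow_succ', mul_assoc]⟩

/-- a family that is finite on every chart is finitely generated -/
theorem ff_of_charts {N : X.Fa} (st : ∀ n, X.V * N n ≤ N (n + 1))
    (h : ∀ l ∈ 𝒜 1, l ∉ pr X.x.1 → ∃ t : Finset X.L, ∀ n, ∀ z ∈ N n,
      z / X.θ l ^ n ∈ span (X.B l) (t : Set X.L)) : X.FF N := by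
  classical
  obtain ⟨s, h1, h2⟩ := n1d_gens 𝒜
  choose! t ht using h
  set W := span (ZMod p) (↑(s.biUnion t) : Set X.L)
  have hW : W.FG := fg_span (Finset.finite_toSet _)
  have hV := X.M.mdl (X.on_iff.2 le_rfl)
  have hF := X.fg_pow_mul hW
  have up : ∀ l ∈ 𝒜 1, ∀ k j u, u ∈ X.V ^ k * W → X.θ l ^ j * u ∈ X.V ^ (j + k) * W :=
    fun l hl k j u hu => by
      rw [pow_add, mul_assoc, ← map_pow]
      exact mul_mem_mul (X.M.th_mem_pow (md_pow_mem hl j)) hu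
  have loc : ∀ l ∈ s, l ∉ pr X.x.1 → ∀ u ∈ span (X.B l) (t l : Set X.L),
      ∃ k, X.θ l ^ k * u ∈ X.V ^ k * W := fun l hl h0 u hu => by
    induction hu using span_induction with
    | mem x hx => exact ⟨0, by
        rw [pow_zero, pow_zero, one_mul, one_mul]
        exact subset_span (Finset.mem_coe.2 (Finset.mem_biUnion.2 ⟨l, hl, hx⟩))⟩
    | zero => exact ⟨0, by simp⟩
    | add a b _ _ ha hb =>
      obtain ⟨i, ha⟩ := ha
      obtain ⟨j, hb⟩ := hb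
      refine ⟨j + i, ?_⟩
      rw [mul_add]
      refine add_mem ?_ ?_
      · rw [pow_add (X.θ l), mul_assoc]; exact up l (h1 l hl) _ _ _ ha
      · rw [add_comm, pow_add (X.θ l), mul_assoc]; exact up l (h1 l hl) _ _ _ hb
    | smul c a _ ha =>
      obtain ⟨i, ha⟩ := ha
      obtain ⟨j, b, hb, e⟩ := (X.mem_B (h1 l hl) h0).1 c.2
      refine ⟨j + i, ?_⟩
      have : X.θ l ^ (j + i) * c • a = X.θ b * (X.θ l ^ i * a) := by
        have := X.th_ne (h1 l hl) h0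
        rw [Subring.smul_def, smul_eq_mul, e, pow_add]
        field_simp
      rw [this, pow_add X.V, mul_assoc]
      exact mul_mem_mul (X.M.th_mem_pow hb) ha
  have key : ∀ n, N n ≤ H0 X.V fun m => X.V ^ (m + n) * W := fun n z hz => by
    have := X.M.local_global (N := fun m => X.V ^ m * span (ZMod p) {z})
      (N' := fun m => X.V ^ (m + n) * W)
      (X.fg_pow_mul (fg_span_singleton z)) (hF.add n).fam
      (Eventually.of_forall fun m u hu y hy => by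
        obtain ⟨l, hl, h3⟩ := h2 y
        have h0 : l ∉ pr X.x.1 := fun e => h3 (X.on_iff.1 hy e)
        obtain ⟨k, hk⟩ := loc l hl h0 _ (ht l (h1 l hl) h0 n z hz)
        obtain ⟨v, hv, rfl⟩ := mem_mul_span_singleton.1 hu
        refine ⟨k, l ^ k, md_pow_mem (h1 l hl) k, md_pow_not_mem h3 k, ?_⟩
        have e : X.M.θ (l ^ k) • (v * z) = v * (X.θ l ^ n * (X.θ l ^ k * (z / X.θ l ^ n))) := by
          have := X.th_ne (h1 l hl) h0
          change X.θ (l ^ k) * _ = _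
          rw [map_pow]
          field_simp
        rw [e, add_assoc, pow_add X.V, mul_assoc, add_comm k n]
        exact mul_mem_mul hv (up l (h1 l hl) _ _ _ hk))
    exact sec_mem_iff.2 this
  refine ⟨st, fun n => (H0_fg hV (hF.add n)).of_le (key n),
    Fg.of_le hV.1 hF (Eventually.of_forall st) ?_⟩
  filter_upwards [H0_shift hV hF] with n hn
  exact hn ▸ key n

theorem span_Dv (hl : l ∈ 𝒜 1) (h0 : l ∉ pr X.x.1) {M : Submodule (X.ch l) X.L} (hM : M.FG) :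
    ∃ t : Finset X.L, (∀ z ∈ t, z ∈ M) ∧ ∀ z ∈ M, z ∈ span (X.B l) (t : Set X.L) := by
  classical
  obtain ⟨t, h1, h2⟩ := X.ch_span hl h0
  obtain ⟨u, rfl⟩ := hM
  refine ⟨Finset.image₂ (· * ·) t u, fun z hz => ?_, fun z hz => ?_⟩
  · obtain ⟨a, ha, b, hb, rfl⟩ := Finset.mem_image₂.1 hz
    exact smul_mem _ (⟨a, h1 a ha⟩ : X.ch l) (subset_span hb)
  · rw [Finset.coe_image₂, Set.image2_mul, ← span_mul_span]
    have key : ∀ c ∈ X.ch l, c * z ∈ span (X.B l) (t : Set X.L) * span (X.B l) (u : Set X.L) := by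
      induction hz using span_induction with
      | mem x hx => exact fun c hc => mul_mem_mul (h2 c hc) (subset_span hx)
      | zero => simp
      | add a b _ _ ha hb => exact fun c hc => mul_add c a b ▸ add_mem (ha c hc) (hb c hc)
      | smul d a _ ha =>
        intro c hc
        rw [Subring.smul_def, smul_eq_mul, ← mul_assoc]
        exact ha _ (mul_mem hc d.2)
    simpa using key 1 (one_mem _)

/-- `O(D)` is finitely generated -/
theorem ff_MD (D : Dvs X.L) : X.FF (X.MD D) := X.ff_of_charts (X.st_MD D) fun l hl h0 => by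
  obtain ⟨t, -, ht⟩ := X.span_Dv hl h0 ((X.nrm_ch hl h0).Dv_fg D)
  exact ⟨t, fun n z hz => ht _ (X.div_mem_Dv hl h0 hz)⟩

theorem exists_ne_MD (D : Dvs X.L) : ∃ n, ∃ z ∈ X.MD D n, z ≠ 0 := by
  obtain ⟨hl, h0⟩ := ell_spec X.x.1
  obtain ⟨c, -, c0, hc⟩ := (X.nrm_ch hl h0).Dv_ne D
  obtain ⟨n, hn⟩ := (X.mem_Dv_ch hl h0).1 hc
  exact ⟨n, _, hn, mul_ne_zero (pow_ne_zero _ (X.th_ne hl h0)) c0⟩

theorem stk_MD_self (D : Dvs X.L) : X.stk (X.MD D) X.x.1 = Set.univ :=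
  Set.eq_univ_of_forall fun z => (mem_stk_md X D le_rfl z).2 fun O hO hle => by
    have e : X.cen O = X.x := X.cen_eq_of_le hO (Nat.le_succ _) hle
    have := (pd_cen X hO).2
    rw [e] at this
    omega

theorem mem_nl_iff (hy : pr X.x.1 ≤ pr y) : z ∈ X.nl y ↔ z ∈ X.stk (X.MD 0) y := by
  constructor
  · intro h
    refine (mem_stk_md X 0 hy z).2 fun O hO hle => ?_
    simpa using n1c_int ((X.M.orng_anti hle).trans (pd_cen X hO).1.orng_le) h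
  · rintro ⟨n, s, hs, h1, h2⟩
    obtain ⟨hl, h3⟩ := ell_spec y
    have := mul_mem (X.orng_le_nl y (X.M.div_mem_fr (T := (pr y).primeCompl) (md_pow_mem hl n) hs h1))
      (ch_le_nl h3 (X.div_mem_ch hl (fun e => h3 (hy e)) h2))
    convert this using 1
    have a := X.th_ne' hy hs h1
    have b := X.ell_ne hy
    change z = X.θ _ / X.θ s * _
    rw [map_pow]
    field_simp

end Mo

theorem ffd : FFD 𝒜 p := fun j D => (Xc j).ff_MD D

end

end Pool.Agent.Lib.MP_62d77c_ag.R
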