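import Pool.Agent.Lib.MP_62d77c_ag.R.N1q
import Pool.Agent.Lib.MP_62d77c_ag.R.N1d
import Pool.Agent.Lib.MP_62d77c_ag.R.N1e

/-! Restriction of divisorial families to covers of prime divisors. -/

set_option autoImplicit false
set_option linter.unusedSectionVars false

namespace Pool.Agent.Lib.MP_62d77c_ag.R

open Filter Polynomial Submodule

noncomputable section

variable {A : Type} [CommRing A] [IsDomain A] {𝒜 : ℕ → AddSubgroup A} [GradedRing 𝒜]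
  [hG : Fact (Gen 𝒜)] {p : ℕ} [Fact p.Prime] {X X' Y : Mo 𝒜 p}

theorem br_dimV (X : Mo 𝒜 p) : dimV X.V = dm X.x := by
  unfold dm dimV
  congr 1
  refine hilb_congr (Eventually.of_forall fun n => ?_)
  let f : kap X.x.1 →ₗ[ZMod p] X.L := X.emb.toAddMonoidHom.toZModLinearMap p
  have e : pw X.V n = (pw (Mp X.x).V n).map f := by
    ext z
    rw [Submodule.mem_map, X.M.mem_pow]
    constructor
    · rintro ⟨a, ha, rfl⟩
      exact ⟨th X.x.1 a, (Mp X.x).th_mem_pow ha, X.emb_th a⟩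
    · rintro ⟨w, hw, rfl⟩
      obtain ⟨a, ha, rfl⟩ := (Mp X.x).mem_pow.1 hw
      exact ⟨a, ha, (X.emb_th a).symm⟩
  rw [e]
  exact (equivMapOfInjective f X.emb.injective _).finrank_eq.symm

namespace Sp

variable (S : Sp X Y) {D E : Dvs X.L} {n m : ℕ} {z w : X.L}

theorem br_ev (h : X.nm S.O D n z ∈ S.O) : S.ev D n z = S.ρ ⟨_, h⟩ := dif_pos h

theorem br_ev_mul (hz : z ∈ X.MD D n) (hw : w ∈ X.MD E m) :
    S.ev (D + E) (n + m) (z * w) = S.ev D n z * S.ev E m w := by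
  rw [S.br_ev (hz _ S.mem), S.br_ev (hw _ S.mem), S.br_ev (X.mul_mem_MD hz hw _ S.mem), ← map_mul]
  congr 1
  exact Subtype.ext (X.nm_mul S.mem D E n m z w)

theorem br_ev_add (hz : z ∈ X.MD D n) (hw : w ∈ X.MD D n) :
    S.ev D n (z + w) = S.ev D n z + S.ev D n w := by
  rw [S.br_ev (hz _ S.mem), S.br_ev (hw _ S.mem), S.br_ev (add_mem hz hw _ S.mem), ← map_add]
  congr 1
  refine Subtype.ext ?_
  show X.nm _ _ _ _ = X.nm _ _ _ _ + X.nm _ _ _ _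
  unfold Mo.nm
  ring

theorem br_ev_smul (c : ZMod p) (hz : z ∈ X.MD D n) : S.ev D n (c • z) = c • S.ev D n z := by
  obtain ⟨k, rfl⟩ := ZMod.intCast_surjective c
  rw [S.br_ev (hz _ S.mem), S.br_ev (smul_mem _ _ hz _ S.mem),
    Int.cast_smul_eq_zsmul (ZMod p) k (S.ρ _), ← map_zsmul]
  congr 1
  refine Subtype.ext ?_
  show X.nm _ _ _ _ = k • X.nm _ _ _ _
  unfold Mo.nm
  rw [Int.cast_smul_eq_zsmul, zsmul_eq_mul, zsmul_eq_mul]
  ring

theorem br_ev_zero : S.ev D n 0 = 0 := by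
  have := S.br_ev_smul (D := D) (n := n) 0 (zero_mem _)
  rwa [zero_smul, zero_smul] at this

theorem br_ev_th {a : A} (ha : a ∈ 𝒜 n) : S.ev 0 n (X.θ a) = Y.θ a := by
  have h := X.th_mem_MD ha _ S.mem
  have e : X.nm S.O 0 n (X.θ a) = X.θ a / X.θ (ell Y.x.1) ^ n := by rw [Mo.nm_zero, S.cen]
  rw [S.br_ev h, ← S.th n a ha (e ▸ h)]
  congr 1
  exact Subtype.ext e

theorem br_ev_mem (hz : z ∈ X.MD D n) : S.ev D n z ∈ S.bar D n := subset_span ⟨z, hz, rfl⟩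

theorem br_mem {u : Y.L} : u ∈ S.bar D n ↔ ∃ z ∈ X.MD D n, S.ev D n z = u := by
  refine ⟨fun h => ?_, fun ⟨z, hz, e⟩ => e ▸ S.br_ev_mem hz⟩
  induction h using span_induction with
  | mem u hu => exact hu
  | zero => exact ⟨0, zero_mem _, S.br_ev_zero⟩
  | add a b _ _ h1 h2 =>
    obtain ⟨z, hz, rfl⟩ := h1
    obtain ⟨w, hw, rfl⟩ := h2
    exact ⟨z + w, add_mem hz hw, S.br_ev_add hz hw⟩
  | smul c a _ h1 =>
    obtain ⟨z, hz, rfl⟩ := h1
    exact ⟨c • z, smul_mem _ _ hz, S.br_ev_smul c hz⟩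

theorem br_mul (D E : Dvs X.L) (n m : ℕ) : S.bar D n * S.bar E m ≤ S.bar (D + E) (n + m) :=
  mul_le.2 fun u hu v hv => by
    obtain ⟨z, hz, rfl⟩ := S.br_mem.1 hu
    obtain ⟨w, hw, rfl⟩ := S.br_mem.1 hv
    rw [← S.br_ev_mul hz hw]
    exact S.br_ev_mem (X.mul_mem_MD hz hw)

theorem br_pow (n : ℕ) : Y.V ^ n ≤ S.bar 0 n := fun u hu => by
  obtain ⟨a, ha, rfl⟩ := Y.M.mem_pow.1 hu
  exact S.br_ev_th ha ▸ S.br_ev_mem (X.th_mem_MD ha)

theorem br_one : (1 : Y.L) ∈ S.bar 0 0 := S.br_pow 0 (by simp [Submodule.one_le.1 le_rfl])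

/-- the restriction is linear on sections -/
def brL (D : Dvs X.L) (n : ℕ) : X.MD D n →ₗ[ZMod p] Y.L where
  toFun z := S.ev D n z
  map_add' z w := S.br_ev_add z.2 w.2
  map_smul' c z := S.br_ev_smul c z.2

theorem br_ff (D : Dvs X.L) : Y.FF (S.bar D) := by
  have h := X.ff_MD D
  have st : ∀ n, Y.V * S.bar D n ≤ S.bar D (n + 1) := fun n => by
    have := (mul_le_mul_left (S.br_pow 1) _).trans (S.br_mul 0 D 1 n)
    rwa [pow_one, zero_add, add_comm] at this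
  have fd : ∀ n, (S.bar D n).FG := fun n => by
    have := Module.Finite.iff_fg.2 (h.fd n)
    have e : S.bar D n = LinearMap.range (S.brL D n) := by
      ext u
      rw [S.br_mem]
      exact ⟨fun ⟨z, hz, e⟩ => ⟨⟨z, hz⟩, e⟩, fun ⟨z, e⟩ => ⟨z.1, z.2, e⟩⟩
    rw [e, LinearMap.range_eq_map]
    exact Module.Finite.fg_top.map _
  refine ⟨st, fd, h.fg.mono fun n hn => ⟨fd n, le_antisymm (fun u hu => ?_) (st n)⟩⟩
  obtain ⟨z, hz, rfl⟩ := S.br_mem.1 hu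
  clear hu
  rw [hn.2, smul_eq_mul] at hz
  induction hz using Submodule.mul_induction_on' with
  | mem_mul_mem v hv w hw =>
    obtain ⟨a, -, ha, rfl⟩ := X.M.mem_fam.1 hv
    have := S.br_ev_mul (X.th_mem_MD ha) hw
    rw [zero_add, add_comm, S.br_ev_th ha] at this
    refine this ▸ mul_mem_mul ?_ (S.br_ev_mem hw)
    exact pow_one Y.V ▸ Y.M.th_mem_pow ha
  | add x hx y hy h1 h2 =>
    rw [S.br_ev_add (h.st n hx) (h.st n hy)]
    exact add_mem h1 h2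

theorem br_fmul {t : ℕ} (hz : z ∈ Mo.fmul (X.MD D) (X.MD E) t) :
    z ∈ X.MD (D + E) t ∧ S.ev (D + E) t z ∈ Mo.fmul (S.bar D) (S.bar E) t := by
  induction hz using span_induction with
  | mem z hz =>
    obtain ⟨i, j, rfl, u, hu, v, hv, rfl⟩ := hz
    refine ⟨X.mul_mem_MD hu hv, ?_⟩
    rw [S.br_ev_mul hu hv]
    exact Mo.mul_le_fmul _ _ i j (mul_mem_mul (S.br_ev_mem hu) (S.br_ev_mem hv))
  | zero => exact ⟨zero_mem _, by rw [S.br_ev_zero]; exact zero_mem _⟩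
  | add a b _ _ h1 h2 =>
    exact ⟨add_mem h1.1 h2.1, by rw [S.br_ev_add h1.1 h2.1]; exact add_mem h1.2 h2.2⟩
  | smul c a _ h1 =>
    exact ⟨smul_mem _ _ h1.1, by rw [S.br_ev_smul c h1.1]; exact smul_mem _ _ h1.2⟩

/-- values at the prime divisor are quotients of restricted sections -/
theorem br_gen (z : S.O) : ∃ n, ∃ b ∈ S.bar 0 n, b ≠ 0 ∧ b * S.ρ z ∈ S.bar 0 n := by
  have hl := ell_spec (X.cen S.O).1
  have h0 : ell (X.cen S.O).1 ∉ pr X.x.1 := fun e => hl.2 ((pd_cen X S.mem).1.1 e)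
  have hN := X.nrm_ch hl.1 h0
  obtain ⟨s, hs, v1, hz⟩ := (hN.loc_Dv (D := 0) (z := z.1) (Mo.PD_ht1 S.mem)).1 (by simp)
  obtain ⟨n, hn⟩ := (X.mem_ch_iff hl.1 h0).1 hs
  obtain ⟨m, hm⟩ := (X.mem_Dv_ch hl.1 h0).1 hz
  have t0 := X.th_ne hl.1 h0
  have a1 := X.th_mul_mem (md_pow_mem hl.1 m) hn
  have a2 := X.th_mul_mem (md_pow_mem hl.1 n) hm
  rw [add_comm] at a2
  have e1 : X.nm S.O 0 (m + n) (X.θ (ell (X.cen S.O).1 ^ m) * (X.θ (ell (X.cen S.O).1) ^ n * s)) =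
      s := by rw [Mo.nm_zero, map_pow, pow_add]; field_simp
  have e2 : X.nm S.O 0 (m + n)
      (X.θ (ell (X.cen S.O).1 ^ n) * (X.θ (ell (X.cen S.O).1) ^ m * (s * z))) = s * z := by
    rw [Mo.nm_zero, map_pow, pow_add]; field_simp
  refine ⟨m + n, _, S.br_ev_mem a1, fun q => ?_, ?_⟩
  · rw [S.br_ev (a1 _ S.mem), S.ker] at q
    exact q.ne ((congrArg S.O.valuation e1).trans v1)
  · convert S.br_ev_mem a2 using 1
    rw [S.br_ev (a1 _ S.mem), S.br_ev (a2 _ S.mem), ← map_mul]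
    congr 1
    exact Subtype.ext ((congrArg (· * z.1) e1).trans e2.symm)

end Sp

theorem br_cart {D : Dvs X.L} (h : X.Cart D) :
    ∀ᶠ t in atTop, X.V ^ t ≤ Mo.fmul (X.MD D) (X.MD (-D)) t := by
  have st : ∀ n, X.V * Mo.fmul (X.MD D) (X.MD (-D)) n ≤ Mo.fmul (X.MD D) (X.MD (-D)) (n + 1) :=
    fun n => mul_le.2 fun v hv z hz => by
      induction hz using span_induction with
      | mem z hz =>
        obtain ⟨i, j, rfl, u, hu, w, hw, rfl⟩ := hz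
        rw [← mul_assoc, add_right_comm]
        exact Mo.mul_le_fmul _ _ _ _ (mul_mem_mul (X.st_MD D i (mul_mem_mul hv hu)) hw)
      | zero => simp
      | add a b _ _ h1 h2 => rw [mul_add]; exact add_mem h1 h2
      | smul c a _ h1 => rw [mul_smul_comm]; exact smul_mem _ _ h1
  refine X.M.local_global (N := pw X.V) (fg_pw' X.M.V_fg) (Eventually.of_forall st)
    (Eventually.of_forall fun n w hw y _ => ?_)
  obtain ⟨m, s, hs, h1, h2⟩ := h y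
  refine ⟨m, s, hs, h1, ?_⟩
  have := X.st_pow st n m (mul_mem_mul hw h2)
  rwa [mul_one, mul_comm, add_comm] at this

theorem Sp.br_cart (S : Sp X Y) {D : Dvs X.L} (h : X.Cart D) :
    ∀ᶠ t in atTop, Y.V ^ t ≤ Mo.fmul (S.bar D) (S.bar (-D)) t := by
  filter_upwards [R.br_cart h] with t ht u hu
  obtain ⟨a, ha, rfl⟩ := Y.M.mem_pow.1 hu
  have := (S.br_fmul (ht (X.M.th_mem_pow ha))).2
  rw [add_neg_cancel] at this
  exact S.br_ev_th ha ▸ this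

namespace Pair

variable (P : Pair X X')

theorem br_le_OT (n : ℕ) : P.S.bar 0 n ≤ P.OT n := fun u hu => by
  simpa [OT] using Mo.mul_le_fmul _ _ n 0 (mul_mem_mul hu P.S'.br_one)

theorem br_le_OT' (n : ℕ) : P.S'.bar 0 n ≤ P.OT n := fun u hu => by
  simpa [OT] using Mo.mul_le_fmul _ _ 0 n (mul_mem_mul P.S.br_one hu)

theorem br_OT_pow (n : ℕ) : P.Y.V ^ n ≤ P.OT n := (P.S.br_pow n).trans (P.br_le_OT n)

theorem br_OT_mul (m n : ℕ) : P.OT m * P.OT n ≤ P.OT (m + n) := by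
  unfold OT
  rw [Mo.fmul_eq _ _ m, Mo.fmul_eq _ _ n]
  simp only [Finset.sup_eq_iSup, Submodule.iSup_mul, Submodule.mul_iSup, iSup_le_iff]
  rintro ⟨i, j⟩ h1 ⟨i', j'⟩ h2
  rw [Finset.HasAntidiagonal.mem_antidiagonal] at h1 h2
  have a := P.S.br_mul 0 0 i' i
  have b := P.S'.br_mul 0 0 j' j
  rw [add_zero] at a b
  rw [mul_mul_mul_comm, show m + n = i' + i + (j' + j) by simp only at h1 h2; omega]
  exact (mul_le_mul' a b).trans (Mo.mul_le_fmul _ _ _ _)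

theorem br_OT_ff : P.Y.FF P.OT := (P.S.br_ff 0).fmul (P.S'.br_ff 0)

theorem br_OT_gen (z : P.Y.L) : ∃ n, ∃ b ∈ P.OT n, b ≠ 0 ∧ b * z ∈ P.OT n := by
  have hz : z ∈ Subfield.closure (Set.range P.S.ρ ∪ Set.range P.S'.ρ) := P.gen ▸ trivial
  have one : (1 : P.Y.L) ∈ P.OT 0 := P.br_le_OT 0 P.S.br_one
  have mm : ∀ {m n : ℕ} {u v : P.Y.L}, u ∈ P.OT m → v ∈ P.OT n → u * v ∈ P.OT (m + n) :=
    fun hu hv => P.br_OT_mul _ _ (mul_mem_mul hu hv)
  induction hz using Subfield.closure_induction with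
  | mem z hz =>
    rcases hz with ⟨w, rfl⟩ | ⟨w, rfl⟩
    · obtain ⟨n, b, h1, h2, h3⟩ := P.S.br_gen w
      exact ⟨n, b, P.br_le_OT n h1, h2, P.br_le_OT n h3⟩
    · obtain ⟨n, b, h1, h2, h3⟩ := P.S'.br_gen w
      exact ⟨n, b, P.br_le_OT' n h1, h2, P.br_le_OT' n h3⟩
  | one => exact ⟨0, 1, one, one_ne_zero, by rwa [mul_one]⟩
  | add x y _ _ hx hy =>
    obtain ⟨n, b, h1, h2, h3⟩ := hx
    obtain ⟨m, c, h4, h5, h6⟩ := hy
    refine ⟨n + m, b * c, mm h1 h4, mul_ne_zero h2 h5, ?_⟩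
    rw [mul_add, mul_right_comm, mul_assoc b c y]
    exact add_mem (mm h3 h4) (mm h1 h6)
  | neg x _ hx =>
    obtain ⟨n, b, h1, h2, h3⟩ := hx
    exact ⟨n, b, h1, h2, by rw [mul_neg]; exact neg_mem h3⟩
  | inv x _ hx =>
    obtain ⟨n, b, h1, h2, h3⟩ := hx
    by_cases x0 : x = 0
    · exact ⟨0, 1, one, one_ne_zero, by simp [x0]⟩
    · exact ⟨n, b * x, h3, mul_ne_zero h2 x0, by rwa [mul_inv_cancel_right₀ x0]⟩
  | mul x y _ _ hx hy =>
    obtain ⟨n, b, h1, h2, h3⟩ := hx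
    obtain ⟨m, c, h4, h5, h6⟩ := hy
    refine ⟨n + m, b * c, mm h1 h4, mul_ne_zero h2 h5, ?_⟩
    rw [mul_mul_mul_comm]
    exact mm h3 h6

theorem br_dm (h3 : dm X.x = 3) : dm P.Y.x = 2 := by
  have := (pd_cen X P.S.mem).2
  rw [P.S.cen] at this
  omega

theorem br_OT_deg : (hp P.OT).natDegree = dm P.Y.x := by
  rw [← br_dimV]
  refine (natDegree_hp (Mo.n1q_mdl _) P.br_OT_ff.fg (Eventually.of_forall fun n q => ?_).frequently).1
  exact car_pow_ne (Mo.n1q_mdl _) n (le_bot_iff.1 (q ▸ P.br_OT_pow n))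

end Pair

end

end Pool.Agent.Lib.MP_62d77c_ag.R
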