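import Pool.Agent.Lib.MP_62d77c_ag.Main

/-! Finitely generated graded modules, resolutions, Tor, Ext, stalks. -/

set_option autoImplicit false
set_option linter.unusedSectionVars false
set_option linter.style.haveILetI false

namespace Pool.Agent.Lib.MP_62d77c_ag.R

open Filter Polynomial Submodule
open scoped TensorProduct Matrix

noncomputable section

variable {A : Type} [CommRing A] {𝒜 : ℕ → AddSubgroup A} [GradedRing 𝒜]

variable (𝒜) in
/-- the graded pieces, indexed by the integers -/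
def Az (n : ℤ) : AddSubgroup A := if 0 ≤ n then 𝒜 n.toNat else ⊥

theorem Az_nat (n : ℕ) : Az 𝒜 (n : ℤ) = 𝒜 n := by simp [Az]

theorem Az_neg {n : ℤ} (h : n < 0) : Az 𝒜 n = ⊥ := if_neg (by omega)

theorem Az_cases {n : ℤ} {a : A} (h : a ∈ Az 𝒜 n) : a = 0 ∨ ∃ k : ℕ, n = k ∧ a ∈ 𝒜 k := by
  rcases lt_or_ge n 0 with h0 | h0
  · rw [Az_neg h0] at h; exact Or.inl h
  · obtain ⟨k, rfl⟩ := Int.eq_ofNat_of_zero_le h0
    exact Or.inr ⟨k, rfl, by rwa [Az_nat] at h⟩

theorem Az_mul {i j : ℤ} {a b : A} (ha : a ∈ Az 𝒜 i) (hb : b ∈ Az 𝒜 j) : a * b ∈ Az 𝒜 (i + j) := by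
  rcases Az_cases ha with rfl | ⟨k, rfl, h1⟩
  · simp
  rcases Az_cases hb with rfl | ⟨l, rfl, h2⟩
  · simp
  rw [← Nat.cast_add, Az_nat]; exact SetLike.mul_mem_graded h1 h2

theorem hom_ind {P : A → Prop} (h0 : P 0) (hadd : ∀ a b, P a → P b → P (a + b))
    (h : ∀ n, ∀ a ∈ 𝒜 n, P a) (a : A) : P a := by
  classical
  rw [← DirectSum.sum_support_decompose 𝒜 a]
  exact Finset.sum_induction _ P hadd h0 fun n _ => h n _ (DirectSum.decompose 𝒜 a n).2

variable (𝒜) in
/-- a finitely generated graded module -/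
structure GM : Type 1 where
  M : Type
  [ab : AddCommGroup M]
  [md : Module A M]
  g : ℤ → AddSubgroup M
  pj : ℤ → M →+ M
  pj_mem : ∀ n m, pj n m ∈ g n
  pj_same : ∀ {n m}, m ∈ g n → pj n m = m
  pj_ne : ∀ {k n m}, m ∈ g k → k ≠ n → pj n m = 0
  sum_pj : ∀ m, ∃ s : Finset ℤ, ∑ n ∈ s, pj n m = m
  smul : ∀ {i n : ℤ} {a : A} {m : M}, a ∈ Az 𝒜 i → m ∈ g n → a • m ∈ g (n + i)
  fin : Module.Finite A M

attribute [instance] GM.ab GM.md GM.fin

namespace GM

variable (N : GM 𝒜)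

theorem ind {P : N.M → Prop} (h0 : P 0) (hadd : ∀ a b, P a → P b → P (a + b))
    (h : ∀ n, ∀ m ∈ N.g n, P m) (m : N.M) : P m := by
  obtain ⟨s, hs⟩ := N.sum_pj m
  rw [← hs]
  exact Finset.sum_induction _ P hadd h0 fun n _ => h n _ (N.pj_mem n m)

theorem pj_smul {i : ℤ} {a : A} (ha : a ∈ Az 𝒜 i) (n : ℤ) (m : N.M) :
    N.pj (n + i) (a • m) = a • N.pj n m := by
  induction m using N.ind with
  | h0 => simp
  | hadd x y h1 h2 => simp only [smul_add, map_add, h1, h2]
  | h k m hm =>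
    by_cases e : k = n
    · subst e; rw [N.pj_same hm, N.pj_same (N.smul ha hm)]
    · rw [N.pj_ne hm e, N.pj_ne (N.smul ha hm) (by omega), smul_zero]

/-- the largest homogeneous submodule inside `Z` -/
def core (Z : Submodule A N.M) : Submodule A N.M where
  carrier := {m | ∀ n, N.pj n m ∈ Z}
  zero_mem' := fun n => by simp
  add_mem' := fun {x y} hx hy n => by rw [map_add]; exact add_mem (hx n) (hy n)
  smul_mem' := fun a m hm => by
    change ∀ n, N.pj n (a • m) ∈ Z
    induction a using hom_ind (𝒜 := 𝒜) with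
    | h0 => intro n; simp
    | hadd x y h1 h2 => intro n; rw [add_smul, map_add]; exact add_mem (h1 n) (h2 n)
    | h i a ha =>
      intro n
      have := N.pj_smul (i := i) (a := a) (by rwa [Az_nat]) (n - i) m
      rw [sub_add_cancel] at this
      rw [this]; exact Z.smul_mem a (hm _)

theorem mem_core {Z : Submodule A N.M} {m : N.M} : m ∈ N.core Z ↔ ∀ n, N.pj n m ∈ Z := Iff.rfl

theorem pj_core {Z : Submodule A N.M} {m : N.M} (h : m ∈ N.core Z) (n : ℤ) :
    N.pj n m ∈ N.core Z := fun k => by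
  by_cases e : n = k
  · subst e; rw [N.pj_same (N.pj_mem n m)]; exact h n
  · rw [N.pj_ne (N.pj_mem n m) e]; exact zero_mem _

theorem core_le (Z : Submodule A N.M) : N.core Z ≤ Z := fun m hm => by
  obtain ⟨s, hs⟩ := N.sum_pj m
  rw [← hs]; exact sum_mem fun n _ => hm n

/-- `Z` is a homogeneous submodule -/
def Hg (Z : Submodule A N.M) : Prop := ∀ n, ∀ m ∈ Z, N.pj n m ∈ Z

theorem core_eq {Z : Submodule A N.M} (h : N.Hg Z) : N.core Z = Z :=
  le_antisymm (N.core_le Z) fun m hm n => h n m hm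

theorem mem_core_of_mem_g {Z : Submodule A N.M} {n : ℤ} {m : N.M} (hm : m ∈ N.g n) :
    m ∈ N.core Z ↔ m ∈ Z := ⟨fun h => N.core_le Z h, fun h k => by
  by_cases e : n = k
  · subst e; rwa [N.pj_same hm]
  · rw [N.pj_ne hm e]; exact zero_mem _⟩

/-- the quotient by (the homogeneous part of) `Z` -/
def quot (Z : Submodule A N.M) : GM 𝒜 where
  M := N.M ⧸ N.core Z
  g n := (N.g n).map (N.core Z).mkQ.toAddMonoidHom
  pj n := QuotientAddGroup.lift (N.core Z).toAddSubgroup
    ((N.core Z).mkQ.toAddMonoidHom.comp (N.pj n))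
    fun m hm => (Submodule.Quotient.mk_eq_zero _).2 (N.pj_core hm n)
  pj_mem n m := by
    obtain ⟨m, rfl⟩ := (N.core Z).mkQ_surjective m
    exact ⟨N.pj n m, N.pj_mem n m, rfl⟩
  pj_same := by
    rintro n _ ⟨m, hm, rfl⟩
    exact congrArg (N.core Z).mkQ (N.pj_same hm)
  pj_ne := by
    rintro k n _ ⟨m, hm, rfl⟩ e
    exact (congrArg (N.core Z).mkQ (N.pj_ne hm e)).trans (map_zero _)
  sum_pj m := by
    obtain ⟨m, rfl⟩ := (N.core Z).mkQ_surjective m
    obtain ⟨s, hs⟩ := N.sum_pj m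
    exact ⟨s, (map_sum (N.core Z).mkQ _ s).symm.trans (congrArg _ hs)⟩
  smul := by
    rintro i n a _ ha ⟨m, hm, rfl⟩
    exact ⟨a • m, N.smul ha hm, map_smul (N.core Z).mkQ a m⟩
  fin := inferInstance

/-- the twist `N(a)` -/
def sh (a : ℤ) : GM 𝒜 where
  M := N.M
  g n := N.g (n + a)
  pj n := N.pj (n + a)
  pj_mem n m := N.pj_mem _ m
  pj_same h := N.pj_same h
  pj_ne h e := N.pj_ne h (by omega)
  sum_pj m := by
    obtain ⟨s, hs⟩ := N.sum_pj m
    refine ⟨s.map (Equiv.subRight a).toEmbedding, ?_⟩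
    rw [Finset.sum_map]; simpa using hs
  smul := fun {i n b m} ha hm => by
    have := N.smul ha hm
    rwa [show n + a + i = n + i + a by ring] at this
  fin := N.fin

/-- the sum of the twists `N(-a i)` -/
def pw {β : Type} [Fintype β] (a : β → ℤ) : GM 𝒜 where
  M := β → N.M
  g n := AddSubgroup.pi Set.univ fun i => N.g (n - a i)
  pj n := AddMonoidHom.pi fun i => (N.pj (n - a i)).comp (Pi.evalAddMonoidHom (fun _ => N.M) i)
  pj_mem n m i _ := N.pj_mem _ _
  pj_same h := funext fun i => N.pj_same (h i trivial)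
  pj_ne h e := funext fun i => N.pj_ne (h i trivial) (by omega)
  sum_pj m := by
    classical
    choose s hs using fun i => N.sum_pj (m i)
    refine ⟨Finset.univ.biUnion fun i => (s i).image (· + a i), funext fun i => ?_⟩
    rw [Finset.sum_apply]
    change ∑ n ∈ _, N.pj (n - a i) (m i) = m i
    rw [← Finset.sum_subset (s₁ := (s i).image (· + a i))
      (Finset.subset_biUnion_of_mem (fun i => (s i).image (· + a i)) (Finset.mem_univ i)),
      Finset.sum_image (by
        intro x _ y _ h; simpa using h)]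
    · simpa using hs i
    · intro n _ hn
      rw [← hs i, map_sum]
      refine Finset.sum_eq_zero fun k hk => N.pj_ne (N.pj_mem k _) fun e => hn ?_
      exact Finset.mem_image.2 ⟨k, hk, by omega⟩
  smul := fun {j n b m} ha hm i _ => by
    have := N.smul ha (hm i trivial)
    rwa [show n - a i + j = n + j - a i by ring] at this
  fin := inferInstance

theorem mem_pw {β : Type} [Fintype β] {a : β → ℤ} {n : ℤ} {c : β → N.M} :
    c ∈ (N.pw a).g n ↔ ∀ i, c i ∈ N.g (n - a i) := ⟨fun h i => h i trivial, fun h i _ => h i⟩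

end GM

variable (𝒜) in
/-- the ring as a graded module -/
def one : GM 𝒜 where
  M := A
  g := Az 𝒜
  pj n := if 0 ≤ n then GradedRing.proj 𝒜 n.toNat else 0
  pj_mem n m := by
    unfold Az; split_ifs
    · exact (DirectSum.decompose 𝒜 m n.toNat).2
    · exact zero_mem _
  pj_same := fun {n m} h => by
    rcases Az_cases h with rfl | ⟨k, rfl, h1⟩
    · exact map_zero _
    · simpa using DirectSum.decompose_of_mem_same 𝒜 h1
  pj_ne := fun {k n m} h e => by
    rcases Az_cases h with rfl | ⟨l, rfl, h1⟩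
    · exact map_zero _
    · split_ifs with h0
      · exact DirectSum.decompose_of_mem_ne 𝒜 h1 (by omega)
      · rfl
  sum_pj m := by
    classical
    refine ⟨(DirectSum.decompose 𝒜 m).support.image (fun n : ℕ => (n : ℤ)), ?_⟩
    rw [Finset.sum_image (fun x _ y _ h => Nat.cast_injective (R := ℤ) h)]
    simpa using DirectSum.sum_support_decompose 𝒜 m
  smul := fun {i n a m} ha hm => by rw [add_comm]; exact Az_mul ha hm
  fin := inferInstance

variable (𝒜) in
/-- the cyclic module `A / I` -/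
def cy (I : Ideal A) : GM 𝒜 := (one 𝒜).quot I

/-- `f` is homogeneous of degree `d` -/
def IsHom (N N' : GM 𝒜) (d : ℤ) (f : N.M →ₗ[A] N'.M) : Prop :=
  ∀ n, ∀ m ∈ N.g n, f m ∈ N'.g (n + d)

/-- a short exact sequence of graded modules -/
def SES (N₁ N₂ N₃ : GM 𝒜) : Prop :=
  ∃ (f : N₁.M →ₗ[A] N₂.M) (g : N₂.M →ₗ[A] N₃.M), IsHom N₁ N₂ 0 f ∧ IsHom N₂ N₃ 0 g ∧
    Function.Injective f ∧ Function.Exact f g ∧ Function.Surjective g

/-- action of a matrix on vectors with entries in a module -/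
def mact {R : Type} [CommRing R] (M : Type) [AddCommGroup M] [Module R M] {β γ : Type} [Fintype γ]
    (D : Matrix β γ R) : (γ → M) →ₗ[R] (β → M) where
  toFun v i := ∑ j, D i j • v j
  map_add' v w := funext fun i => by simp [Finset.sum_add_distrib]
  map_smul' c v := funext fun i => by
    simp only [Pi.smul_apply, RingHom.id_apply, Finset.smul_sum]
    exact Finset.sum_congr rfl fun j _ => smul_comm _ _ _

theorem mact_apply {R : Type} [CommRing R] {M : Type} [AddCommGroup M] [Module R M] {β γ : Type}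
    [Fintype γ] (D : Matrix β γ R) (v : γ → M) (i : β) : mact M D v i = ∑ j, D i j • v j := rfl

/-- a graded free resolution -/
structure Res (N : GM 𝒜) where
  b : ℕ → ℕ
  a : ∀ q, Fin (b q) → ℤ
  gen : Fin (b 0) → N.M
  D : ∀ q, Matrix (Fin (b q)) (Fin (b (q + 1))) A
  hgen : ∀ i, gen i ∈ N.g (a 0 i)
  hD : ∀ q i j, D q i j ∈ Az 𝒜 (a (q + 1) j - a q i)
  surj : Function.Surjective (Fintype.linearCombination A gen)
  ex0 : Function.Exact (mact A (D 0)) (Fintype.linearCombination A gen)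
  ex : ∀ q, Function.Exact (mact A (D (q + 1))) (mact A (D q))

variable [IsDomain A] [hG : Fact (Gen 𝒜)]

namespace GM

variable (N : GM 𝒜)

/-- (the homogeneous part of) `Z` as a graded module -/
def sub (Z : Submodule A N.M) : GM 𝒜 where
  M := N.core Z
  g n := (N.g n).comap (N.core Z).subtype.toAddMonoidHom
  pj n := ((N.pj n).comp (N.core Z).subtype.toAddMonoidHom).codRestrict (N.core Z)
    fun m => N.pj_core m.2 n
  pj_mem n m := N.pj_mem n m.1
  pj_same h := Subtype.ext (N.pj_same h)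
  pj_ne h e := Subtype.ext (N.pj_ne h e)
  sum_pj m := by
    obtain ⟨s, hs⟩ := N.sum_pj m.1
    exact ⟨s, Subtype.ext ((map_sum (N.core Z).subtype _ s).trans hs)⟩
  smul ha hm := N.smul ha hm
  fin := by haveI := noeth_of_gen 𝒜; infer_instance

/-- the subquotient `Z / B` -/
def sq (Z B : Submodule A N.M) : GM 𝒜 := (N.sub Z).quot (B.comap (N.core Z).subtype)

/-- the part of degree at least `n₀` -/
def trunc (n₀ : ℤ) : GM 𝒜 := N.sub (span A {m | ∃ n, n₀ ≤ n ∧ m ∈ N.g n})

/-- `p`-adic size of a graded piece -/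
def sz (p : ℕ) (n : ℤ) : ℕ := padicValNat p (Nat.card (N.g n))

/-- Hilbert polynomial -/
def hp (p : ℕ) : ℚ[X] :=
  Classical.epsilon fun P => ∀ᶠ n : ℕ in atTop, P.eval (n : ℚ) = (N.sz p n : ℚ)

/-- killed by `p` -/
def Fb (p : ℕ) : Prop := ∀ m : N.M, (p : A) • m = 0

/-- the element `m` vanishes at the point `y` -/
def ZeroEl (y : Pt 𝒜) (m : N.M) : Prop := ∃ k, ∃ t ∈ 𝒜 k, t ∉ pr y ∧ t • m = 0

/-- the sheaf of `N` vanishes at `y` -/
def ZeroAt (y : Pt 𝒜) : Prop := ∀ m, N.ZeroEl y m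

/-- in the fibre over `p` the support has dimension `< s` -/
def DimLt (p : ℕ) [Fact p.Prime] (s : ℕ) : Prop := ∀ y : Vp 𝒜 p, s ≤ dm y → N.ZeroAt y.1

end GM

namespace Res

variable {N : GM 𝒜} (R : Res N) (N' : GM 𝒜)

/-- `Tor_q(N, N')` -/
def Tor : ℕ → GM 𝒜
  | 0 => (N'.pw (R.a 0)).quot (LinearMap.range (mact N'.M (R.D 0)))
  | q + 1 => (N'.pw (R.a (q + 1))).sq (LinearMap.ker (mact N'.M (R.D q)))
      (LinearMap.range (mact N'.M (R.D (q + 1))))

/-- `Ext^q(N, N')` -/
def Ext : ℕ → GM 𝒜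
  | 0 => (N'.pw (-R.a 0)).sub (LinearMap.ker (mact N'.M (R.D 0)ᵀ))
  | q + 1 => (N'.pw (-R.a (q + 1))).sq (LinearMap.ker (mact N'.M (R.D (q + 1))ᵀ))
      (LinearMap.range (mact N'.M (R.D q)ᵀ))

/-- Euler characteristic of Tor -/
def TT (p : ℕ) : ℚ[X] := ∑ q ∈ Finset.range 5, (-1) ^ q * (R.Tor N' q).hp p

end Res

open Classical in
/-- the intersection polynomial -/
def T (p : ℕ) (N N' : GM 𝒜) : ℚ[X] := if h : Nonempty (Res N) then h.some.TT N' p else 0

/-! ### stalks -/

/-- dehomogenisation at `y` -/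
def deh (y : Pt 𝒜) : A →+* loc y := (snc_deh y).choose

theorem deh_val (y : Pt 𝒜) {n : ℕ} {a : A} (ha : a ∈ 𝒜 n) : (deh y a).1 =
    algebraMap A (FractionRing A) a / algebraMap A (FractionRing A) (ell y ^ n) := by
  rw [deh, (snc_deh y).choose_spec n a ha, sncD_val]

/-- the local ring at `y` as an `A`-algebra -/
def Lo (y : Pt 𝒜) : Type := loc y

instance (y : Pt 𝒜) : CommRing (Lo y) := inferInstanceAs (CommRing (loc y))
instance (y : Pt 𝒜) : IsDomain (Lo y) := inferInstanceAs (IsDomain (loc y))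
instance (y : Pt 𝒜) : IsLocalRing (Lo y) := inferInstanceAs (IsLocalRing (loc y))
instance (y : Pt 𝒜) : IsNoetherianRing (Lo y) := (MX 𝒜).orng_noeth (on_MX y)
instance (y : Pt 𝒜) : Algebra A (Lo y) := RingHom.toAlgebra (show A →+* Lo y from deh y)

/-- the stalk at `y` -/
abbrev GM.St (N : GM 𝒜) (y : Pt 𝒜) : Type := Lo y ⊗[A] N.M

/-- length of the stalk -/
def GM.len (N : GM 𝒜) (y : Pt 𝒜) : ℕ := (Module.length (Lo y) (N.St y)).toNat

variable (𝒜) in
/-- regular model of dimension four -/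
structure Hyp : Prop where
  cz : CharZero A
  dim : Algebra.trdeg ℤ A = (3 : ℕ) + 1
  reg : ∀ x : Pt 𝒜, IsRegularLocalRing (loc x)

end

end Pool.Agent.Lib.MP_62d77c_ag.R
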