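import Mathlib

/-! The index form of the long exact homology sequence. -/

set_option autoImplicit false

namespace Pool.Agent.Lib.MP_62d77c_ag.R

open AddSubgroup

variable {X₂ X₁ X₀ : Type} [AddCommGroup X₂] [AddCommGroup X₁] [AddCommGroup X₀]

/-- order of the homology of `U₂ → U₁ → X₀` -/
noncomputable def kaH (d : X₂ →+ X₁) (e : X₁ →+ X₀) (U₂ : AddSubgroup X₂) (U₁ : AddSubgroup X₁) :
    ℕ := (U₂.map d).relIndex (U₁ ⊓ e.ker)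

/-- order of the image of the connecting map -/
noncomputable def kaK (d : X₂ →+ X₁) (U₂ W₂ : AddSubgroup X₂) (W₁ : AddSubgroup X₁) : ℕ :=
  (W₂.map d).relIndex (U₂.map d ⊓ W₁)

theorem ka_index (d : X₂ →+ X₁) (e : X₁ →+ X₀) (h : ∀ x, e (d x) = 0) {U₂ W₂ : AddSubgroup X₂}
    {U₁ W₁ : AddSubgroup X₁} {W₀ : AddSubgroup X₀} (h2 : W₂ ≤ U₂) (h1 : W₁ ≤ U₁)
    (dU : U₂.map d ≤ U₁) (dW : W₂.map d ≤ W₁) (eW : W₁.map e ≤ W₀) :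
    kaH d e W₂ W₁ * (U₂.map d ⊔ W₁).relIndex (U₁ ⊓ W₀.comap e) =
      kaH d e U₂ U₁ * kaK d U₂ W₂ W₁ * kaK e U₁ W₁ W₀ := by
  have hk : U₂.map d ≤ e.ker := by rintro _ ⟨x, -, rfl⟩; exact h x
  set B := U₂.map d with hB
  have a1 : kaK d U₂ W₂ W₁ * B.relIndex (W₁ ⊓ e.ker) = kaH d e W₂ W₁ := by
    have : B.relIndex (W₁ ⊓ e.ker) = (B ⊓ W₁).relIndex (W₁ ⊓ e.ker) := by
      rw [← inf_relIndex_right B, ← inf_relIndex_right (B ⊓ W₁), inf_assoc, ← inf_assoc W₁, inf_idem]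
    rw [this]
    exact relIndex_mul_relIndex _ _ _ (le_inf (map_mono h2) dW)
      (le_inf inf_le_right (inf_le_left.trans hk))
  have a2 : B.relIndex (W₁ ⊓ e.ker) * ((W₁ ⊓ e.ker) ⊔ B).relIndex (U₁ ⊓ e.ker) =
      kaH d e U₂ U₁ := by
    rw [← relIndex_sup_right (W₁ ⊓ e.ker) B]
    exact relIndex_mul_relIndex _ _ _ le_sup_right
      (sup_le (inf_le_inf_right _ h1) (le_inf dU hk))
  have a3 : ((W₁ ⊓ e.ker) ⊔ B).relIndex (U₁ ⊓ e.ker) =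
      (B ⊔ W₁).relIndex ((U₁ ⊓ e.ker) ⊔ (B ⊔ W₁)) := by
    rw [relIndex_sup_right, ← inf_relIndex_right (B ⊔ W₁)]
    congr 1
    refine le_antisymm (sup_le (le_inf (inf_le_left.trans le_sup_right) (inf_le_inf_right _ h1))
      (le_inf le_sup_left (le_inf dU hk))) ?_
    rintro x ⟨hx, -, h3⟩
    obtain ⟨b, hb, w, hw, rfl⟩ := AddSubgroup.mem_sup.1 hx
    refine add_mem (mem_sup_right hb) (mem_sup_left ⟨hw, ?_⟩)
    have h4 : e b = 0 := hk hb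
    have h5 : e (b + w) = 0 := h3
    rwa [map_add, h4, zero_add] at h5
  have a4 : ((U₁ ⊓ e.ker) ⊔ (B ⊔ W₁)).relIndex (U₁ ⊓ W₀.comap e) = kaK e U₁ W₁ W₀ := by
    have e1 : (U₁ ⊓ W₀.comap e).map e = U₁.map e ⊓ W₀ := by
      ext z
      constructor
      · rintro ⟨x, ⟨h3, h4⟩, rfl⟩; exact ⟨⟨x, h3, rfl⟩, h4⟩
      · rintro ⟨⟨x, h3, rfl⟩, h4⟩; exact ⟨x, ⟨h3, h4⟩, rfl⟩
    rw [kaK, ← e1, ← relIndex_comap, ← inf_relIndex_right, ← inf_relIndex_right (comap e _)]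
    congr 1
    ext x
    constructor
    · rintro ⟨hx, h3⟩
      refine ⟨?_, h3⟩
      obtain ⟨u, hu, y, hy, rfl⟩ := AddSubgroup.mem_sup.1 hx
      obtain ⟨b, hb, w, hw, rfl⟩ := AddSubgroup.mem_sup.1 hy
      refine ⟨w, hw, ?_⟩
      have h4 : e b = 0 := hk hb
      have h5 : e u = 0 := hu.2
      simp [h4, h5]
    · rintro ⟨⟨w, hw, h4⟩, h3⟩
      refine ⟨?_, h3⟩
      have : x = (x - w) + w := by abel
      rw [this]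
      refine add_mem (mem_sup_left ⟨U₁.sub_mem h3.1 (h1 hw), ?_⟩) (mem_sup_right (mem_sup_right hw))
      change e (x - w) = 0
      rw [map_sub, h4, sub_self]
  have a5 := relIndex_mul_relIndex (B ⊔ W₁) ((U₁ ⊓ e.ker) ⊔ (B ⊔ W₁)) (U₁ ⊓ W₀.comap e)
    le_sup_right (sup_le (inf_le_inf_left _ fun x (hx : e x = 0) => by
      change e x ∈ W₀; rw [hx]; exact zero_mem _)
      (sup_le (le_inf dU fun x hx => by
        change e x ∈ W₀; rw [show e x = 0 from hk hx]; exact zero_mem _)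
      (le_inf h1 fun x hx => eW ⟨x, hx, rfl⟩)))
  rw [← a5, ← a3, a4, ← a1, ← a2]
  ring

theorem kaK_zero (U₂ W₂ : AddSubgroup X₂) (W₁ : AddSubgroup X₁) : kaK 0 U₂ W₂ W₁ = 1 := by
  rw [kaK, relIndex_eq_one]
  rintro _ ⟨⟨x, -, rfl⟩, -⟩
  exact zero_mem _

variable {Y₂ Y₁ Y₀ : Type} [AddCommGroup Y₂] [AddCommGroup Y₁] [AddCommGroup Y₀]

theorem kaH_inj {d : X₂ →+ X₁} {e : X₁ →+ X₀} {d' : Y₂ →+ Y₁} {e' : Y₁ →+ Y₀} {f₂ : Y₂ →+ X₂}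
    {f₁ : Y₁ →+ X₁} {f₀ : Y₀ →+ X₀} (c1 : ∀ y, d (f₂ y) = f₁ (d' y)) (c0 : ∀ y, e (f₁ y) = f₀ (e' y))
    (i1 : Function.Injective f₁) (i0 : Function.Injective f₀) (P₂ : AddSubgroup Y₂)
    (P₁ : AddSubgroup Y₁) : kaH d e (P₂.map f₂) (P₁.map f₁) = kaH d' e' P₂ P₁ := by
  rw [kaH, kaH, ← relIndex_map_map_of_injective _ _ i1]
  congr 1
  · rw [map_map, map_map]; congr 1; exact AddMonoidHom.ext c1
  · ext x
    constructor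
    · rintro ⟨⟨y, hy, rfl⟩, h⟩
      refine ⟨y, ⟨hy, i0 ?_⟩, rfl⟩
      rw [← c0, map_zero]; exact h
    · rintro ⟨y, ⟨hy, h⟩, rfl⟩
      refine ⟨⟨y, hy, rfl⟩, ?_⟩
      change e (f₁ y) = 0
      rw [c0, show e' y = 0 from h, map_zero]

theorem kaH_surj {d : X₂ →+ X₁} {e : X₁ →+ X₀} {d' : Y₂ →+ Y₁} {e' : Y₁ →+ Y₀} {g₂ : X₂ →+ Y₂}
    {g₁ : X₁ →+ Y₁} {g₀ : X₀ →+ Y₀} (c1 : ∀ x, g₁ (d x) = d' (g₂ x)) (c0 : ∀ x, g₀ (e x) = e' (g₁ x))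
    {U₂ : AddSubgroup X₂} {U₁ : AddSubgroup X₁} {U₀ : AddSubgroup X₀} (dU : U₂.map d ≤ U₁)
    (eU : U₁.map e ≤ U₀) :
    (U₂.map d ⊔ U₁ ⊓ g₁.ker).relIndex (U₁ ⊓ (U₀ ⊓ g₀.ker).comap e) =
      kaH d' e' (U₂.map g₂) (U₁.map g₁) := by
  have e1 : (U₁ ⊓ (U₀ ⊓ g₀.ker).comap e).map g₁ = U₁.map g₁ ⊓ e'.ker := by
    ext z
    constructor
    · rintro ⟨x, ⟨h3, -, h4⟩, rfl⟩
      exact ⟨⟨x, h3, rfl⟩, (c0 x).symm.trans h4⟩
    · rintro ⟨⟨x, h3, rfl⟩, h4⟩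
      exact ⟨x, ⟨h3, eU ⟨x, h3, rfl⟩, (c0 x).trans h4⟩, rfl⟩
  rw [kaH, ← e1, ← relIndex_comap, ← inf_relIndex_right, ← inf_relIndex_right (comap g₁ _)]
  congr 1
  ext x
  constructor
  · rintro ⟨hx, h3⟩
    refine ⟨?_, h3⟩
    obtain ⟨_, ⟨u, hu, rfl⟩, w, hw, rfl⟩ := AddSubgroup.mem_sup.1 hx
    refine ⟨g₂ u, ⟨u, hu, rfl⟩, ?_⟩
    rw [map_add, c1, show g₁ w = 0 from hw.2, add_zero]
  · rintro ⟨⟨_, ⟨u, hu, rfl⟩, h4⟩, h3⟩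
    refine ⟨?_, h3⟩
    have : x = d u + (x - d u) := by abel
    rw [this]
    refine add_mem (mem_sup_left ⟨u, hu, rfl⟩) (mem_sup_right ⟨U₁.sub_mem h3.1 (dU ⟨u, hu, rfl⟩), ?_⟩)
    change g₁ (x - d u) = 0
    rw [map_sub, c1, h4, sub_self]

/-- the telescope: a finite term is the product of its two images and its homology -/
theorem ka_card (d : X₂ →+ X₁) (e : X₁ →+ X₀) (h : ∀ x, e (d x) = 0) {U₂ : AddSubgroup X₂}
    {U₁ : AddSubgroup X₁} (dU : U₂.map d ≤ U₁) :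
    Nat.card U₁ = Nat.card (U₂.map d) * kaH d e U₂ U₁ * Nat.card (U₁.map e) := by
  have hk : U₂.map d ≤ e.ker := by rintro _ ⟨x, -, rfl⟩; exact h x
  rw [← relIndex_bot_left, ← relIndex_bot_left, kaH, ← relIndex_ker,
    relIndex_mul_relIndex _ _ _ bot_le (le_inf dU hk), ← inf_relIndex_right e.ker, inf_comm e.ker,
    relIndex_mul_relIndex _ _ _ bot_le inf_le_left]

end Pool.Agent.Lib.MP_62d77c_ag.R
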