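import Pool.Agent.Lib.MP_62d77c_ag.R.K1b
import Pool.Agent.Lib.MP_62d77c_ag.R.KA

/-! Resolutions exist; homotopies; orders of the graded pieces of Tor. -/

set_option autoImplicit false
set_option linter.unusedSectionVars false
set_option linter.style.haveILetI false

namespace Pool.Agent.Lib.MP_62d77c_ag.R

open Filter Polynomial Submodule
open scoped TensorProduct Matrix

noncomputable section

section mat
variable {R : Type} [CommRing R] {M M' : Type} [AddCommGroup M] [Module R M] [AddCommGroup M']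
  [Module R M'] {α β γ : Type}

theorem k1_mact_mul [Fintype β] [Fintype γ] (D : Matrix α β R) (E : Matrix β γ R) (v : γ → M) :
    mact M (D * E) v = mact M D (mact M E v) := by
  funext i
  simp only [mact_apply, Matrix.mul_apply, Finset.sum_smul, Finset.smul_sum, mul_smul]
  exact Finset.sum_comm

theorem k1_mact_add [Fintype γ] (D E : Matrix β γ R) (v : γ → M) :
    mact M (D + E) v = mact M D v + mact M E v := by
  funext i
  simp [mact_apply, add_smul, Finset.sum_add_distrib]

theorem k1_mact_sub [Fintype γ] (D E : Matrix β γ R) (v : γ → M) :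
    mact M (D - E) v = mact M D v - mact M E v := by
  funext i
  simp [mact_apply, sub_smul, Finset.sum_sub_distrib]

theorem k1_mact_zero [Fintype γ] (v : γ → M) : mact M (0 : Matrix β γ R) v = 0 := by
  funext i
  simp [mact_apply]

theorem k1_mact_smul [Fintype γ] (a : R) (D : Matrix β γ R) (v : γ → M) :
    mact M (a • D) v = a • mact M D v := by
  funext i
  simp [mact_apply, Finset.smul_sum, mul_smul]

theorem k1_mact_one [Fintype β] [DecidableEq β] (v : β → M) : mact M (1 : Matrix β β R) v = v := by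
  funext i
  simp [mact_apply, Matrix.one_apply, ite_smul]

theorem k1_mact_nat [Fintype γ] (D : Matrix β γ R) (f : M →ₗ[R] M') (v : γ → M) :
    mact M' D (fun j => f (v j)) = fun i => f (mact M D v i) := by
  funext i
  simp [mact_apply]

theorem k1_mact_col [Fintype β] (D : Matrix α β R) (E : Matrix β γ R) (j : γ) :
    mact R D (fun i => E i j) = fun i => (D * E) i j := by
  funext i
  simp [mact_apply, Matrix.mul_apply]

theorem k1_mul_zero [Fintype β] [Fintype γ] {D : Matrix α β R} {E : Matrix β γ R}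
    (h : Function.Exact (mact R E) (mact R D)) : D * E = 0 := by
  classical
  ext i j
  have h1 := h.apply_apply_eq_zero (fun l => (1 : Matrix γ γ R) l j)
  rw [k1_mact_col, k1_mact_col, Matrix.mul_one] at h1
  exact congrFun h1 i

theorem k1_lift [Fintype γ] {δ : Type} (D : Matrix β γ R) (P : Matrix β δ R)
    (h : ∀ j, (fun i => P i j) ∈ Set.range (mact R D)) : ∃ H : Matrix γ δ R, D * H = P := by
  choose w hw using h
  refine ⟨Matrix.of fun l j => w j l, ?_⟩
  ext i j
  exact congrFun (hw j) i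

theorem k1_lift' [Fintype β] [Fintype γ] {δ : Type} {D : Matrix α β R} {E : Matrix β γ R}
    (h : Function.Exact (mact R E) (mact R D)) (P : Matrix β δ R) (hP : D * P = 0) :
    ∃ H : Matrix γ δ R, E * H = P :=
  k1_lift E P fun j => (h _).1 (by rw [k1_mact_col, hP]; rfl)

theorem k1_split_succ [Fintype α] [Fintype β] [Fintype γ] {D : Matrix α β R} {E : Matrix β γ R}
    (h : Function.Exact (mact R E) (mact R D)) {τ : Matrix β α R} (hτ : D * τ * D = D) :
    ∃ τ' : Matrix γ β R, E * τ' * E = E := by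
  classical
  obtain ⟨K, hK⟩ := k1_lift' h (1 - τ * D) (by
    rw [Matrix.mul_sub, Matrix.mul_one, ← Matrix.mul_assoc, hτ, sub_self])
  exact ⟨K, by rw [hK, Matrix.sub_mul, Matrix.one_mul, Matrix.mul_assoc, k1_mul_zero h,
    Matrix.mul_zero, sub_zero]⟩

theorem k1_split_zero [Fintype β] [Fintype γ] {E : Matrix β γ R} {g : β → M}
    [Module.Projective R M] (hs : Function.Surjective (Fintype.linearCombination R g))
    (h : Function.Exact (mact R E) (Fintype.linearCombination R g)) :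
    ∃ τ' : Matrix γ β R, E * τ' * E = E := by
  classical
  obtain ⟨σ, hσ⟩ := Module.projective_lifting_property _ LinearMap.id hs
  have h1 : ∀ m, Fintype.linearCombination R g (σ m) = m := fun m => LinearMap.congr_fun hσ m
  obtain ⟨K, hK⟩ := k1_lift E (1 - Matrix.of fun i j => σ (g j) i) fun j => (h _).1 (by
    have : (fun i => (1 - Matrix.of fun i j => σ (g j) i : Matrix β β R) i j) =
        Pi.single j 1 - σ (g j) := by
      funext i; simp [Matrix.one_apply, Pi.single_apply]
    rw [this, map_sub, h1, Fintype.linearCombination_apply_single, one_smul, sub_self])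
  refine ⟨K, ?_⟩
  rw [hK, Matrix.sub_mul, Matrix.one_mul, sub_eq_self]
  ext i j
  have h2 := h.apply_apply_eq_zero (fun l => (1 : Matrix γ γ R) l j)
  rw [k1_mact_col, Matrix.mul_one] at h2
  have h3 := congrFun (congrArg σ h2) i
  rw [Fintype.linearCombination_apply, map_sum, map_zero] at h3
  simpa [Matrix.mul_apply, mul_comm] using h3

theorem k1_exact_pi [Fintype β] [Fintype γ] {D : Matrix α β R} {E : Matrix β γ R}
    (h : Function.Exact (mact R E) (mact R D)) (δ : Type) :
    Function.Exact (mact (δ → R) E) (mact (δ → R) D) := by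
  intro v
  constructor
  · intro hv
    obtain ⟨H, hH⟩ := k1_lift' h (Matrix.of v) (by
      ext i j
      simpa [mact_apply, Matrix.mul_apply] using congrFun (congrFun hv i) j)
    refine ⟨fun l j => H l j, ?_⟩
    funext i j
    simpa [mact_apply, Matrix.mul_apply] using congrFun (congrFun hH i) j
  · rintro ⟨w, rfl⟩
    rw [← k1_mact_mul, k1_mul_zero h, k1_mact_zero]

theorem k1_hom0 [Fintype β] [Fintype γ] [DecidableEq β] {D : Matrix β γ R} {H : Matrix γ β R}
    {s : R} (h : D * H = s • 1) (v : β → M) : s • v ∈ LinearMap.range (mact M D) :=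
  ⟨mact M H v, by rw [← k1_mact_mul, h, k1_mact_smul, k1_mact_one]⟩

theorem k1_hom1 [Fintype α] [Fintype β] [Fintype γ] [DecidableEq β] {D : Matrix β γ R}
    {H : Matrix γ β R} {H' : Matrix β α R} {D' : Matrix α β R} {s : R}
    (h : D * H + H' * D' = s • 1) (v : β → M) (hv : mact M D' v = 0) :
    s • v ∈ LinearMap.range (mact M D) := by
  refine ⟨mact M H v, ?_⟩
  have h2 := congrArg (fun E => mact M E v) h
  simp only [k1_mact_add, k1_mact_mul, k1_mact_smul, k1_mact_one] at h2
  rwa [hv, map_zero, add_zero] at h2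

theorem k1_mact_of [Fintype γ] (g : γ → β → R) :
    mact R (Matrix.of fun i j => g j i) = Fintype.linearCombination R g := by
  refine LinearMap.ext fun v => funext fun i => ?_
  rw [mact_apply, Fintype.linearCombination_apply, Finset.sum_apply]
  exact Finset.sum_congr rfl fun j _ => mul_comm _ _

end mat

variable {A : Type} [CommRing A] [IsDomain A] {𝒜 : ℕ → AddSubgroup A} [GradedRing 𝒜]
  [hG : Fact (Gen 𝒜)] {p : ℕ} [Fact p.Prime] {N N' N₁ N₂ N₃ : GM 𝒜}

theorem k1_isHom_lc {β : Type} [Fintype β] {a : β → ℤ} {g : β → N.M} (hg : ∀ i, g i ∈ N.g (a i)) :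
    IsHom ((one 𝒜).pw a) N 0 (Fintype.linearCombination A g) := by
  intro n (c : β → A) hc
  change ∑ i, c i • g i ∈ _
  rw [add_zero]
  refine sum_mem fun i _ => ?_
  have := N.smul (GM.mem_pw (one 𝒜) |>.1 hc i) (hg i)
  rwa [add_sub_cancel] at this

theorem k1_gens (N : GM 𝒜) {Z : Submodule A N.M} (hZ : N.Hg Z) :
    ∃ (b : ℕ) (a : Fin b → ℤ) (g : Fin b → N.M), (∀ i, g i ∈ N.g (a i)) ∧
      LinearMap.range (Fintype.linearCombination A g) = Z := by
  haveI := noeth_of_gen 𝒜
  have h1 : span A {c | c ∈ Z ∧ ∃ n, c ∈ N.g n} = Z := by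
    refine le_antisymm (span_le.2 fun c hc => hc.1) fun c hc => ?_
    obtain ⟨s, hs⟩ := N.sum_pj c
    rw [← hs]
    exact Submodule.sum_mem _ fun n _ => subset_span ⟨hZ n c hc, n, N.pj_mem n c⟩
  have h2 : (span A {c | c ∈ Z ∧ ∃ n, c ∈ N.g n}).FG := IsNoetherian.noetherian _
  obtain ⟨s, hs, e⟩ := (Submodule.fg_span_iff_fg_span_finset_subset _).1 h2
  let g : Fin s.card → N.M := fun i => (s.equivFin.symm i).1
  have hg : ∀ i, ∃ n, g i ∈ N.g n := fun i => (hs (s.equivFin.symm i).2).2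
  choose a ha using hg
  refine ⟨s.card, a, g, ha, ?_⟩
  rw [Fintype.range_linearCombination, ← h1, e]
  congr 1
  ext c
  constructor
  · rintro ⟨i, rfl⟩; exact (s.equivFin.symm i).2
  · intro hc; exact ⟨s.equivFin ⟨c, hc⟩, by simp [g]⟩

variable (𝒜) in
/-- a stage of a resolution -/
structure K1S where
  b : ℕ
  a : Fin b → ℤ
  Z : Submodule A (Fin b → A)
  h : ((one 𝒜).pw a).Hg Z

theorem k1_next (s : K1S 𝒜) : ∃ (t : K1S 𝒜) (D : Matrix (Fin s.b) (Fin t.b) A),
    (∀ i j, D i j ∈ Az 𝒜 (t.a j - s.a i)) ∧ LinearMap.range (mact A D) = s.Z ∧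
      t.Z = LinearMap.ker (mact A D) := by
  obtain ⟨b, a, g, h1, h2⟩ := k1_gens _ s.h
  have e := k1_mact_of (R := A) g
  exact ⟨⟨b, a, LinearMap.ker (Fintype.linearCombination A g), (k1_isHom_lc h1).hg_ker⟩,
    Matrix.of fun i j => g j i, fun i j => (GM.mem_pw (one 𝒜)).1 (h1 j) i,
    (congrArg LinearMap.range e).trans h2, (congrArg LinearMap.ker e).symm⟩

theorem res_nonempty (N : GM 𝒜) : Nonempty (Res N) := by
  obtain ⟨b, a, g, h1, h2⟩ := k1_gens N (Z := ⊤) fun _ _ _ => trivial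
  choose nx d hd using k1_next (𝒜 := 𝒜)
  let s0 : K1S 𝒜 := ⟨b, a, LinearMap.ker (Fintype.linearCombination A g), (k1_isHom_lc h1).hg_ker⟩
  let st : ℕ → K1S 𝒜 := fun q => Nat.rec s0 (fun _ s => nx s) q
  exact ⟨{ b := fun q => (st q).b
           a := fun q => (st q).a
           gen := g
           D := fun q => d (st q)
           hgen := h1
           hD := fun q => (hd (st q)).1
           surj := LinearMap.range_eq_top.1 h2
           ex0 := LinearMap.exact_iff.2 (hd s0).2.1.symm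
           ex := fun q =>
             LinearMap.exact_iff.2 ((hd (st q)).2.2.symm.trans (hd (st (q + 1))).2.1.symm) }⟩

/-- a chosen resolution -/
def rsl (N : GM 𝒜) : Res N := (res_nonempty N).some

theorem T_def (N N' : GM 𝒜) : T p N N' = (rsl N).TT N' p := dif_pos (res_nonempty N)

namespace Res

variable (R : Res N)

theorem mul_zero (q : ℕ) : R.D q * R.D (q + 1) = 0 := k1_mul_zero (R.ex q)

theorem isHom (N' : GM 𝒜) (q : ℕ) :
    IsHom (N'.pw (R.a (q + 1))) (N'.pw (R.a q)) 0 (mact N'.M (R.D q)) :=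
  isHom_mact N' fun i j => by rw [add_zero]; exact R.hD q i j

/-- an element that kills the module is null homotopic on the resolution -/
theorem homot {s : A} (hs : ∀ m : N.M, s • m = 0) :
    ∃ H : ∀ q, Matrix (Fin (R.b (q + 1))) (Fin (R.b q)) A, R.D 0 * H 0 = s • 1 ∧
      ∀ q, R.D (q + 1) * H (q + 1) + H q * R.D q = s • 1 := by
  obtain ⟨H0, h0⟩ := k1_lift (R.D 0) (s • 1) fun j => (R.ex0 _).1 (by
    have : (fun i => (s • (1 : Matrix (Fin (R.b 0)) (Fin (R.b 0)) A)) i j) =
        s • (fun i => (1 : Matrix (Fin (R.b 0)) (Fin (R.b 0)) A) i j) := rfl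
    rw [this, map_smul, hs])
  have step : ∀ q (H : Matrix (Fin (R.b (q + 1))) (Fin (R.b q)) A),
      R.D q * H * R.D q = s • R.D q → ∃ H' : Matrix (Fin (R.b (q + 2))) (Fin (R.b (q + 1))) A,
        R.D (q + 1) * H' + H * R.D q = s • 1 ∧
          R.D (q + 1) * H' * R.D (q + 1) = s • R.D (q + 1) := by
    intro q H h
    obtain ⟨K, hK⟩ := k1_lift' (R.ex q) (s • 1 - H * R.D q) (by
      rw [Matrix.mul_sub, ← Matrix.mul_assoc, h, Matrix.mul_smul, Matrix.mul_one, sub_self])
    refine ⟨K, by rw [hK, sub_add_cancel], ?_⟩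
    rw [hK, Matrix.sub_mul, Matrix.mul_assoc, R.mul_zero, Matrix.mul_zero, sub_zero,
      Matrix.smul_mul, Matrix.one_mul]
  choose nx hnx using step
  let F : ∀ q, {H : Matrix (Fin (R.b (q + 1))) (Fin (R.b q)) A //
      R.D q * H * R.D q = s • R.D q} := fun q => Nat.rec
    ⟨H0, by rw [h0, Matrix.smul_mul, Matrix.one_mul]⟩
    (fun q H => ⟨nx q H.1 H.2, (hnx q H.1 H.2).2⟩) q
  exact ⟨fun q => (F q).1, h0, fun q => (hnx q (F q).1 (F q).2).1⟩

end Res

theorem k1_quot_kill {B : Submodule A N.M} (hB : N.Hg B) {s : A} (h : ∀ v, s • v ∈ B)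
    (t : (N.quot B).M) : s • t = 0 := by
  obtain ⟨v, rfl⟩ := (N.core B).mkQ_surjective t
  refine (Submodule.Quotient.mk_eq_zero _).2 ?_
  rw [N.core_eq hB]; exact h v

theorem k1_sq_kill {Z B : Submodule A N.M} (hB : N.Hg B) {s : A} (h : ∀ v ∈ Z, s • v ∈ B)
    (t : (N.sq Z B).M) : s • t = 0 := by
  obtain ⟨v, rfl⟩ := ((N.sub Z).core (B.comap (N.core Z).subtype)).mkQ_surjective t
  exact (Submodule.Quotient.mk_eq_zero _).2 fun n => hB n _ (h v.1 (N.core_le Z v.2))

theorem tor_kill (R : Res N) {s : A} (h : (∀ m : N.M, s • m = 0) ∨ ∀ m : N'.M, s • m = 0) (q : ℕ)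
    (t : (R.Tor N' q).M) : s • t = 0 := by
  rcases h with h | h
  · obtain ⟨H, h0, h1⟩ := R.homot h
    cases q with
    | zero => exact k1_quot_kill (R.isHom N' 0).hg_range (k1_hom0 h0) t
    | succ q => exact k1_sq_kill (R.isHom N' (q + 1)).hg_range (fun v hv => k1_hom1 (h1 q) v hv) t
  · have h2 : ∀ (k : ℕ) (v : Fin k → N'.M), s • v = 0 := fun k v => funext fun i => h _
    cases q with
    | zero =>
      refine k1_quot_kill (R.isHom N' 0).hg_range (fun v => ?_) t
      exact (h2 _ v).symm ▸ zero_mem _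
    | succ q =>
      refine k1_sq_kill (R.isHom N' (q + 1)).hg_range (fun v _ => ?_) t
      exact (h2 _ v).symm ▸ zero_mem _

theorem tor_fb (R : Res N) (h : N.Fb p ∨ N'.Fb p) (q : ℕ) : (R.Tor N' q).Fb p := tor_kill R h q

/-! ### orders -/

theorem k1_card_map {d : ℤ} {f : N.M →ₗ[A] N'.M} (hf : IsHom N N' d f)
    (hs : Function.Surjective f) (n : ℤ) : (N.g n).map f.toAddMonoidHom = N'.g (n + d) := by
  ext m'
  constructor
  · rintro ⟨m, hm, rfl⟩; exact hf n m hm
  · intro h; exact hf.lift h (hs m')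

theorem k1_card_eq {f : N.M →ₗ[A] N₁.M} {g : N.M →ₗ[A] N₂.M} (hf : IsHom N N₁ 0 f)
    (hg : IsHom N N₂ 0 g) (h1 : Function.Surjective f) (h2 : Function.Surjective g)
    (h : ∀ m, f m = 0 ↔ g m = 0) (n : ℤ) : Nat.card (N₁.g n) = Nat.card (N₂.g n) := by
  have e1 := k1_card_map hf h1 n
  have e2 := k1_card_map hg h2 n
  rw [add_zero] at e1 e2
  rw [← e1, ← e2, ← AddSubgroup.relIndex_ker, ← AddSubgroup.relIndex_ker]
  congr 1
  exact AddSubgroup.ext h

theorem k1_card_quot (B : Submodule A N.M) (n : ℤ) :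
    Nat.card ((N.quot B).g n) = B.toAddSubgroup.relIndex (N.g n) := by
  refine (AddSubgroup.relIndex_ker (N.g n) (N.core B).mkQ.toAddMonoidHom).symm.trans ?_
  rw [← AddSubgroup.inf_relIndex_right, ← AddSubgroup.inf_relIndex_right B.toAddSubgroup]
  congr 1
  ext m
  refine and_congr_left fun hm => ?_
  exact (Submodule.Quotient.mk_eq_zero _).trans (N.mem_core_of_mem_g hm)

theorem k1_card_sq (Z B : Submodule A N.M) (n : ℤ) :
    Nat.card ((N.sq Z B).g n) = B.toAddSubgroup.relIndex (N.g n ⊓ Z.toAddSubgroup) := by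
  refine (k1_card_quot _ n).trans ?_
  refine (AddSubgroup.relIndex_comap B.toAddSubgroup (N.core Z).subtype.toAddMonoidHom _).trans ?_
  congr 1
  ext m
  constructor
  · rintro ⟨v, hv, rfl⟩; exact ⟨hv, N.core_le Z v.2⟩
  · rintro ⟨h1, h2⟩; exact ⟨⟨m, (N.mem_core_of_mem_g h1).2 h2⟩, h1, rfl⟩

theorem k1_rel {f : N.M →ₗ[A] N'.M} (hf : IsHom N N' 0 f) (n : ℤ) {U : AddSubgroup N'.M}
    (hU : U ≤ N'.g n) : (LinearMap.range f).toAddSubgroup.relIndex U =
      ((N.g n).map f.toAddMonoidHom).relIndex U := by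
  rw [← AddSubgroup.inf_relIndex_right, ← AddSubgroup.inf_relIndex_right (AddSubgroup.map _ _)]
  congr 1
  ext m
  refine and_congr_left fun hm => ⟨fun h => ?_, ?_⟩
  · exact hf.lift (by rw [add_zero]; exact hU hm) h
  · rintro ⟨v, -, rfl⟩; exact ⟨v, rfl⟩

theorem k1_card_cok {f : N.M →ₗ[A] N'.M} (hf : IsHom N N' 0 f) (n : ℤ) :
    Nat.card ((N'.quot (LinearMap.range f)).g n) =
      kaH f.toAddMonoidHom (0 : N'.M →+ N'.M) (N.g n) (N'.g n) := by
  rw [k1_card_quot, k1_rel hf n le_rfl, kaH, AddMonoidHom.ker_zero, inf_top_eq]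

theorem k1_card_hom {f : N₁.M →ₗ[A] N₂.M} (hf : IsHom N₁ N₂ 0 f) (g : N₂.M →ₗ[A] N₃.M) (n : ℤ) :
    Nat.card ((N₂.sq (LinearMap.ker g) (LinearMap.range f)).g n) =
      kaH f.toAddMonoidHom g.toAddMonoidHom (N₁.g n) (N₂.g n) := by
  rw [k1_card_sq, k1_rel hf n inf_le_left]; rfl

end

end Pool.Agent.Lib.MP_62d77c_ag.R
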