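import Pool.Agent.Lib.MP_62d77c_ag.R.SA

/-! Upper bounds for the Euler characteristic of rank one modules on surfaces and threefolds,
and of submodules of a module of dimension at most one. -/

set_option autoImplicit false

namespace Pool.Agent.Lib.MP_62d77c_ag.R

open Filter Polynomial Submodule

noncomputable section

theorem s1_eval2 {P : ℚ[X]} (h : P ∈ degreeLT ℚ 2) (t : ℚ) :
    P.eval t = P.coeff 1 * t + P.coeff 0 := by
  have : P = C (P.coeff 1) * X + C (P.coeff 0) := by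
    ext n
    rcases n with _ | _ | n
    · simp
    · simp
    · simp [levl_mem.1 h (n + 2) (by omega)]
  conv_lhs => rw [this]
  simp

theorem s1_eval3 {P : ℚ[X]} (h : P ∈ degreeLT ℚ 3) (t : ℚ) :
    P.eval t = P.coeff 2 * t ^ 2 + P.coeff 1 * t + P.coeff 0 := by
  have : P = C (P.coeff 2) * X ^ 2 + C (P.coeff 1) * X + C (P.coeff 0) := by
    ext n
    rcases n with _ | _ | _ | n
    · simp
    · simp
    · simp
    · simp [levl_mem.1 h (n + 3) (by omega)]
  conv_lhs => rw [this]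
  simp

theorem s1_eval4 {P : ℚ[X]} (h : P ∈ degreeLT ℚ 4) (t : ℚ) :
    P.eval t = P.coeff 3 * t ^ 3 + P.coeff 2 * t ^ 2 + P.coeff 1 * t + P.coeff 0 := by
  have : P = C (P.coeff 3) * X ^ 3 + C (P.coeff 2) * X ^ 2 + C (P.coeff 1) * X +
      C (P.coeff 0) := by
    ext n
    rcases n with _ | _ | _ | _ | n
    · simp
    · simp
    · simp
    · simp
    · simp [levl_mem.1 h (n + 4) (by omega)]
  conv_lhs => rw [this]
  simp

theorem s1_lin {a b : ℚ} (h : ∀ᶠ n : ℕ in atTop, 0 ≤ a * n + b) : 0 ≤ a := by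
  have := coeff_nonneg_of_eventually (P := C a * X + C b) (s := 1)
    (levl_mem.2 fun n hn => by
      obtain ⟨n, rfl⟩ : ∃ j, n = j + 2 := ⟨n - 2, by omega⟩
      simp) (by simpa using h)
  simpa using this

variable {k K : Type} [Field k] [Field K] [Algebra k K] {V : Submodule k K}
  {N N' M R : ℕ → Submodule k K}

/-- on a curve the Euler characteristic is at most the number of sections -/
theorem chi_le_hh (hV : Mdl V) (hN : Fg V N) {ρ x : ℚ} (e : ∀ t, (hp N).eval t = ρ * t + x)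
    (i : ℕ) : ρ * i + x ≤ hh V N i := by
  have step : ∀ j : ℕ, (hh V N (j + 1) : ℚ) - hh V N j ≤ ρ := fun j => by
    have := sa_seq (u := fun i => (hh V N i : ℚ) - hh V N (i + 1)) (P := fun _ => -ρ) (i₀ := j)
      (fun j _ => by
        have a : ((hh V N (j + 1) + hh V N (j + 1) : ℕ) : ℚ) ≤ (hh V N (j + 2) + hh V N j : ℕ) := by
          exact_mod_cast hh_convex hV hN j
        push_cast at a
        show (hh V N (j + 1) : ℚ) - hh V N (j + 2) - _ ≤ _
        linarith)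
      (by
        filter_upwards [hh_ev hV hN, (tendsto_add_atTop_nat 1).eventually (hh_ev hV hN)]
          with n a b
        rw [a, b, e, e]
        push_cast
        ring)
    linarith
  refine sa_seq (u := fun i => (hh V N i : ℚ)) (P := fun i => ρ * i + x) (fun j _ => ?_) ?_
  · have := step j
    push_cast
    linarith
  · filter_upwards [hh_ev hV hN] with n a
    rw [a, e]

/-- uniform vanishing on a curve -/
theorem curve_hh (hV : Mdl V) (hR : Fg V R) {ρ χ : ℚ} (e : ∀ t, (hp R).eval t = ρ * t + χ) :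
    ∃ c : ℚ, ∀ N, Fg V N → RM R N → ∀ x : ℚ, (∀ t, (hp N).eval t = ρ * t + x) →
      ∀ i : ℕ, c ≤ ρ * i + x → 0 < ρ → (hh V N i : ℚ) ≤ ρ * i + x := by
  obtain ⟨i₀, hi⟩ := (hh_ev hV hR).exists
  refine ⟨ρ * i₀ + 1, fun N hN hm x eN i hc hρ => ?_⟩
  have f1 : Fg V fun n => N (n + i) := hN.add i
  have f0 := f1.sub i₀
  have e1 : ∀ t, (hp fun n => N (n + i)).eval t = ρ * t + (ρ * i + x) := fun t => by
    have := hp_sub hV f1 i (t + i)
    rw [add_sub_cancel_right] at this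
    rw [← this, hp_congr (N' := N), eN]
    · ring
    · filter_upwards [eventually_ge_atTop i] with n hn
      rw [Nat.sub_add_cancel hn]
  have e0 : ∀ t, (hp fun n => N (n - i₀ + i)).eval t = ρ * t + (ρ * i + x - ρ * i₀) := fun t => by
    rw [hp_sub hV f1 i₀ t, e1]
    ring
  have m0 : RM R fun n => N (n - i₀ + i) := by
    refine RM.sub (N := fun n => N (n + i)) (fun m => ?_) i₀
    filter_upwards [(tendsto_add_atTop_nat i).eventually (hm m)] with n hn
    rwa [add_right_comm] at hn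
  have pos := chi_le_hh hV f0 e0 0
  have ne : Gam V (fun n => N (n - i₀ + i)) 0 ≠ ⊥ := fun q => by
    rw [hh, q, finrank_bot] at pos
    push_cast at pos
    linarith
  obtain ⟨s, hs, s0⟩ := Submodule.exists_mem_ne_zero_of_ne_bot ne
  have := hh_diff_le hV f0 (sa_fg_span hR s) (m0.sec hR hs) (δ := ρ * i + x - ρ * i₀ - χ)
    (fun t => by rw [sa_hp_span s0, e, e0]; ring) i₀
  rw [sa_hh_span s0, hi, e] at this
  have e2 := hh_sub (V := V) (N := fun n => N (n + i)) i₀ 0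
  rw [zero_add] at e2
  have e3 : hh V (fun n => N (n + i)) 0 = hh V N i := rfl
  rw [e2, e3] at this
  linarith

theorem s1_alt (hV : Mdl V) (hN : Fg V N) (c : ∀ i, hh V N (i + 1) = hh V N i) :
    hp N = C (hh V N 0 : ℚ) := by
  have : ∀ i, hh V N i = hh V N 0 := fun i => by
    induction i with
    | zero => rfl
    | succ i ih => rw [c, ih]
  refine hilb_ext ?_
  filter_upwards [hh_ev hV hN] with n a
  rw [← a, this, eval_C]

theorem s1_pos (hV : Mdl V) (hR : Fg V R) {d : ℕ} (h : (hp R).natDegree = d + 1) :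
    0 < (hp R).coeff (d + 1) := by
  refine lt_of_le_of_ne (coeff_nonneg_of_eventually (h ▸ hilb_mem_nat _) ?_) fun e => ?_
  · filter_upwards [hp_spec hV.1 hR] with n a
    rw [a]
    exact Nat.cast_nonneg _
  · rw [← h] at e
    rw [leadingCoeff_eq_zero.1 e.symm] at h
    simp at h

theorem s1_core (hV : Mdl V) (hR : Fg V R) {α β γ : ℚ} (hα : 0 < α)
    (e : ∀ t, (hp R).eval t = α * t ^ 2 + β * t + γ) (c : ℚ) :
    ∃ B : ℚ, ∀ N, Fg V N → RM R N → ∀ a b : ℚ, (∀ t, (hp N).eval t = α * t ^ 2 + a * t + b) →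
      |a| ≤ c → b ≤ B := by
  rcases exists_mem hV with h | ⟨k', K', _, _, _, S, h⟩
  · have a := s1_alt hV hR (h R hR)
    have a0 := e 0
    have a1 := e 1
    have a2 := e (-1)
    rw [a, eval_C] at a0 a1 a2
    exfalso
    linarith
  obtain ⟨c₁, hc⟩ := curve_hh (h.mdl hV) (h.fg hR) (ρ := 2 * α) (χ := β - α)
    fun t => by rw [h.hp_eval hV hR, e, e]; ring
  obtain ⟨J, hJ⟩ := exists_nat_gt (max (c - β) (c₁ + c + α) / (2 * α))
  rw [div_lt_iff₀ (by linarith), max_lt_iff] at hJ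
  refine ⟨2 * J * (2 * α * J + c) + c * J, fun N hN hm a b eN ha => ?_⟩
  rw [abs_le] at ha
  have f0 := hN.sub J
  have m0 := hm.sub J
  have e0 : ∀ t, (hp fun n => N (n - J)).eval t = α * (t - J) ^ 2 + a * (t - J) + b := fun t => by
    rw [hp_sub hV hN, eN]
  generalize (fun n => N (n - J)) = M at f0 m0 e0
  have z : hh V M 0 = 0 := by
    by_contra q
    have ne : Gam V M 0 ≠ ⊥ := fun q' => q (by rw [hh, q', finrank_bot])
    obtain ⟨s, hs, s0⟩ := Submodule.exists_mem_ne_zero_of_ne_bot ne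
    have : 0 ≤ a - 2 * α * J - β := by
      refine s1_lin (b := α * J ^ 2 - a * J + b - γ) ?_
      filter_upwards [hh_ev hV f0, hh_ev hV hR] with n a1 a2
      have a3 : (hh V R n : ℚ) ≤ hh V M n := by
        rw [← sa_hh_span s0]
        exact_mod_cast hh_mono hV f0 (m0.sec hR hs) n
      rw [a1, a2, e, e0] at a3
      linarith
    linarith [hJ.1]
  have e1 : ∀ t, (hp (im S M)).eval t = 2 * α * t + (a - α - 2 * α * J) := fun t => by
    rw [h.hp_eval hV f0, e0, e0]
    ring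
  have cv : ∀ i : ℕ, 2 * J ≤ i →
      (hh (S.img V 1) (im S M) i : ℚ) ≤ 2 * α * i + (a - α - 2 * α * J) := fun i hi => by
    refine hc _ (h.fg f0) (h.rm m0) _ e1 i ?_ (by linarith)
    have : (2 * J : ℚ) ≤ i := by exact_mod_cast hi
    nlinarith [hJ.2]
  have st : ∀ i, (hh V M (i + 1) : ℚ) ≤ hh V M i + hh (S.img V 1) (im S M) (i + 1) := fun i => by
    exact_mod_cast h.step hV f0 i
  have up : ∀ i : ℕ, i ≤ 2 * J → (hh V M i : ℚ) ≤ i * (2 * α * J + c) := by
    intro i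
    induction i with
    | zero => intro _; simp [z]
    | succ i ih =>
      intro hi
      have a1 := ih (by omega)
      have a2 : (hh (S.img V 1) (im S M) (i + 1) : ℚ) ≤ hh (S.img V 1) (im S M) (2 * J) := by
        exact_mod_cast hh_le (h.mdl hV) (h.fg f0) hi
      have a3 := cv (2 * J) le_rfl
      have a4 := st i
      push_cast at a3 ⊢
      linarith
  have lo := sa_seq (u := fun i => (hh V M i : ℚ)) (P := fun i => (hp M).eval (i : ℚ))
    (i₀ := 2 * J) (fun i hi => by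
      have a1 := cv (i + 1) (by omega)
      have a2 := st i
      rw [e0, e0]
      push_cast at a1 ⊢
      linarith) (hh_ev hV f0)
  have a1 := up (2 * J) le_rfl
  rw [e0] at lo
  push_cast at lo a1
  have J0 : (0 : ℚ) ≤ J := Nat.cast_nonneg J
  nlinarith [mul_nonneg hα.le (sq_nonneg (J : ℚ)), mul_nonneg J0 (sub_nonneg.2 ha.1)]

theorem s1_mem {P Q : ℚ[X]} {d : ℕ} (h : Q.natDegree = d) (hd : P - Q ∈ degreeLT ℚ d) :
    P ∈ degreeLT ℚ (d + 1) ∧ P.coeff d = Q.coeff d := by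
  refine ⟨?_, ?_⟩
  · have := add_mem (degreeLT_le (Nat.le_succ d) hd) (h ▸ hilb_mem_nat Q)
    rwa [sub_add_cancel] at this
  · have := levl_mem.1 hd d le_rfl
    rwa [coeff_sub, sub_eq_zero] at this

/-- surfaces: bounded degree gives Euler characteristic bounded above -/
theorem S1 (hV : Mdl V) (hR : Fg V R) (h2 : (hp R).natDegree = 2) (c : ℚ) :
    ∃ B : ℚ, ∀ N, Fg V N → RM R N → hp N - hp R ∈ degreeLT ℚ 2 → |(hp N).coeff 1| ≤ c →
      (hp N).coeff 0 ≤ B := by
  have m3 := hilb_mem_nat (hp R)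
  rw [h2] at m3
  obtain ⟨B, hB⟩ := s1_core hV hR (s1_pos hV hR h2) (s1_eval3 m3) c
  refine ⟨B, fun N hN hm hd ha => hB N hN hm _ _ (fun t => ?_) ha⟩
  obtain ⟨a, b⟩ := s1_mem h2 hd
  rw [s1_eval3 a, b]

/-- threefolds -/
theorem s1_S2 (hV : Mdl V) (hR : Fg V R) (h3 : (hp R).natDegree = 3) (c : ℚ) :
    ∃ B : ℚ, ∀ N, Fg V N → RM R N → hp N - hp R ∈ degreeLT ℚ 3 → |(hp N).coeff 2| ≤ c →
      (hp N).eval 0 - (hp N).eval (-1) ≤ B ∧ (hp N).coeff 1 ≤ B := by
  have hα := s1_pos hV hR h3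
  have e := s1_eval4 (h3 ▸ hilb_mem_nat (hp R))
  change 0 < (hp R).coeff 3 at hα
  generalize hA : (hp R).coeff 3 = α at hα e
  rcases exists_mem hV with h | ⟨k', K', _, _, _, S, h⟩
  · rw [s1_alt hV hR (h R hR), natDegree_C] at h3
    exact absurd h3 (by norm_num)
  obtain ⟨B, hB⟩ := s1_core (h.mdl hV) (h.fg hR) (α := 3 * α) (β := 2 * (hp R).coeff 2 - 3 * α)
    (γ := α - (hp R).coeff 2 + (hp R).coeff 1) (by linarith)
    (fun t => by rw [h.hp_eval hV hR, e, e]; ring) (2 * c + 3 * α)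
  refine ⟨B + |c|, fun N hN hm hd ha => ?_⟩
  obtain ⟨a, b⟩ := s1_mem h3 hd
  have eN := s1_eval4 a
  rw [b, hA] at eN
  rw [abs_le] at ha
  have := hB _ (h.fg hN) (h.rm hm) (2 * (hp N).coeff 2 - 3 * α)
    (α - (hp N).coeff 2 + (hp N).coeff 1) (fun t => by rw [h.hp_eval hV hN, eN, eN]; ring)
    (abs_le.2 ⟨by linarith [ha.1], by linarith [ha.2]⟩)
  have c0 := le_abs_self c
  have c1 := abs_nonneg c
  refine ⟨?_, by linarith [ha.2]⟩
  rw [eN, eN]
  linarith

theorem hp_shift (hV : Mdl V) (hN : Fg V N) (a : ℕ) :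
    ∀ᶠ n : ℕ in atTop, ((hp N).comp (X + C (a : ℚ))).eval (n : ℚ) =
      (Module.finrank k (N (n + a)) : ℚ) := by
  filter_upwards [(tendsto_add_atTop_nat a).eventually (hp_spec hV.1 hN)] with n h
  rw [← h, eval_comp]
  simp

/-- a nonzero module inside the field of fractions of `R` has rank one -/
theorem rank_one (hV : Mdl V) (hR : Fg V R) (hmul : ∀ m n, R m * R n ≤ R (m + n))
    (hpow : ∀ n, V ^ n ≤ R n) (gen : ∀ z : K, ∃ n, ∃ b ∈ R n, b ≠ 0 ∧ b * z ∈ R n)
    (hN : Fg V N) (hm : RM R N) (hne : ∃ᶠ n in atTop, N n ≠ ⊥) :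
    hp N - hp R ∈ degreeLT ℚ (hp R).natDegree := by
  obtain ⟨a, h1, h2, h3, h4⟩ := (hne.and_eventually ((Gam_ev hV hN).and (hN.and hN.pow_smul))).exists
  obtain ⟨s, hs, s0⟩ := Submodule.exists_mem_ne_zero_of_ne_bot h1
  have ma : RM R fun n => N (n + a) := fun m => by
    filter_upwards [(tendsto_add_atTop_nat a).eventually (hm m)] with n hn
    rwa [add_right_comm] at hn
  have lo := ma.sec (V := V) hR (s := s) (by rw [← h2] at hs; exact hs)
  have den : ∀ W : Submodule k K, W.FG → ∃ e, ∃ b ∈ R e, b ≠ 0 ∧ ∀ w ∈ W, b * w ∈ R e := by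
    intro W hW
    refine Submodule.fg_induction
      (motive := fun W _ => ∃ e, ∃ b ∈ R e, b ≠ 0 ∧ ∀ w ∈ W, b * w ∈ R e) (fun z => ?_)
      (fun W₁ W₂ _ _ a1 a2 => ?_) W hW
    · obtain ⟨e, b, hb, b0, hz⟩ := gen z
      refine ⟨e, b, hb, b0, fun w hw => ?_⟩
      obtain ⟨c, rfl⟩ := mem_span_singleton.1 hw
      rw [mul_smul_comm]
      exact smul_mem _ _ hz
    · obtain ⟨e, b, hb, b0, hz⟩ := a1
      obtain ⟨e', b', hb', b0', hz'⟩ := a2
      refine ⟨e + e', b * b', hmul _ _ (mul_mem_mul hb hb'), mul_ne_zero b0 b0', fun w hw => ?_⟩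
      obtain ⟨x, hx, y, hy, rfl⟩ := mem_sup.1 hw
      rw [mul_add, mul_right_comm, mul_assoc b b' y]
      exact add_mem (hmul _ _ (mul_mem_mul (hz x hx) hb')) (hmul _ _ (mul_mem_mul hb (hz' y hy)))
  obtain ⟨e, b, -, b0, hb⟩ := den _ h3.1
  have m0 := hilb_mem_nat (hp R)
  have d1 := comp_sub_mem_degreeLT m0 (e : ℚ)
  have d2 := hilb_squeeze (A := (hp N).comp (X + C (a : ℚ)) - hp R)
    (B := (hp R).comp (X + C (e : ℚ)) - (hp N).comp (X + C (a : ℚ))) (r := (hp R).natDegree)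
    (by
      filter_upwards [hp_shift hV hN a, hp_spec hV.1 hR, lo, hN.add a] with n a1 a2 a3 a4
      rw [eval_sub, a1, a2, sub_nonneg, Nat.cast_le]
      exact hilb_le a4.1 s0 fun x hx => a3 (mul_mem_mul (mem_span_singleton_self s) hx))
    (by
      filter_upwards [hp_shift hV hN a, hp_shift hV hR e, hR.add e] with n a1 a2 a4
      rw [eval_sub, a1, a2, sub_nonneg, Nat.cast_le]
      refine hilb_le a4.1 b0 fun x hx => ?_
      rw [add_comm n a, h4 n, smul_eq_mul] at hx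
      induction hx using Submodule.mul_induction_on' with
      | mem_mul_mem y hy w hw =>
        rw [mul_left_comm]
        exact hmul _ _ (mul_mem_mul (hpow n hy) (hb w hw))
      | add x _ y _ hx hy => rw [mul_add]; exact add_mem hx hy)
    (by convert d1 using 1; ring)
  have d3 : (hp N).comp (X + C (a : ℚ)) ∈ degreeLT ℚ ((hp R).natDegree + 1) := (s1_mem rfl d2).1
  have d4 := comp_sub_mem_degreeLT d3 (-(a : ℚ))
  have e4 : ((hp N).comp (X + C (a : ℚ))).comp (X + C (-(a : ℚ))) = hp N := by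
    rw [comp_assoc]
    simp
  rw [e4] at d4
  convert add_mem d4 d2 using 1
  ring

theorem s1_nonneg (hV : Mdl V) (hN : Fg V N) (hN' : Fg V N') (h : N' ≤ᶠ[atTop] N) :
    ∀ᶠ n : ℕ in atTop, 0 ≤ (hp N - hp N').eval (n : ℚ) := by
  filter_upwards [hh_ev hV hN, hh_ev hV hN'] with n a b
  rw [eval_sub, ← a, ← b, sub_nonneg, Nat.cast_le]
  exact hh_mono hV hN h n

/-- submodules and quotients of a fixed module `N / N'` of dimension at most one -/
theorem S0 (hV : Mdl V) (hN : Fg V N) (hN' : Fg V N') (hd : hp N - hp N' ∈ degreeLT ℚ 2) :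
    ∃ B : ℚ, ∀ M, Fam V M → N' ≤ᶠ[atTop] M → M ≤ᶠ[atTop] N →
      hp M - hp N' ∈ degreeLT ℚ 2 ∧ (hp M - hp N').coeff 0 ≤ B ∧ -B ≤ (hp N - hp M).coeff 0 := by
  suffices h : ∃ B : ℚ, ∀ M, Fg V M → N' ≤ᶠ[atTop] M → M ≤ᶠ[atTop] N →
      hp M - hp N' ∈ degreeLT ℚ 2 → (hp M - hp N').coeff 0 ≤ B by
    obtain ⟨B, hB⟩ := h
    refine ⟨B + |(hp N - hp N').coeff 0|, fun M hM h1 h2 => ?_⟩
    have f := hN.of_le hV.1 hM h2
    have d := hilb_squeeze (s1_nonneg hV f hN' h1) (s1_nonneg hV hN f h2) (r := 2)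
      (by convert hd using 1; ring)
    have a := hB M f h1 h2 d
    have b := neg_abs_le ((hp N - hp N').coeff 0)
    have c := abs_nonneg ((hp N - hp N').coeff 0)
    refine ⟨d, by linarith, ?_⟩
    simp only [coeff_sub] at a b c ⊢
    linarith
  rcases exists_mem hV with h | ⟨k', K', _, _, _, S, h⟩
  · refine ⟨hh V N 0, fun M f _ h2 _ => ?_⟩
    have a : (hh V M 0 : ℚ) ≤ hh V N 0 := by exact_mod_cast hh_mono hV hN h2 0
    have b : (0 : ℚ) ≤ hh V N' 0 := Nat.cast_nonneg _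
    rw [s1_alt hV f (h M f), s1_alt hV hN' (h N' hN'), coeff_sub, coeff_C_zero, coeff_C_zero]
    linarith
  obtain ⟨i₀, hi⟩ := eventually_atTop.1 ((Gam_ev hV hN').and (Gam_ev (h.mdl hV) (h.fg hN')))
  refine ⟨hh V N i₀, fun M f h1 h2 d => ?_⟩
  have e := s1_eval2 d
  have pos := coeff_nonneg_of_eventually (s := 1) d (s1_nonneg hV f hN' h1)
  generalize (hp M - hp N').coeff 1 = ρ at e pos
  generalize (hp M - hp N').coeff 0 = x at e
  simp only [eval_sub] at e
  have df := hh_diff_le (h.mdl hV) (h.fg f) (h.fg hN') (im_mono h1) (δ := ρ) fun t => by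
    rw [h.hp_eval hV f, h.hp_eval hV hN']
    linarith [e t, e (t - 1)]
  have := sa_seq (u := fun i => (hh V M i : ℚ) - hh V N' i) (P := fun i => ρ * i + x) (i₀ := i₀)
    (fun i hi' => by
      have a1 : (hh V M (i + 1) : ℚ) ≤ hh V M i + hh (S.img V 1) (im S M) (i + 1) := by
        exact_mod_cast h.step hV f i
      have a2 := h.2 N' hN' i
      obtain ⟨b1, b2⟩ := hi (i + 1) (by omega)
      have a3 : (hh V N' i : ℚ) + hh (S.img V 1) (im S N') (i + 1) = hh V N' (i + 1) := by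
        rw [← a2, b1, hh, hh, b2]
        push_cast
        rfl
      have a4 := df (i + 1)
      push_cast
      linarith)
    (by
      filter_upwards [hh_ev hV f, hh_ev hV hN'] with n a b
      rw [a, b, e])
  have a : (hh V M i₀ : ℚ) ≤ hh V N i₀ := by exact_mod_cast hh_mono hV hN h2 i₀
  have b : (0 : ℚ) ≤ hh V N' i₀ := Nat.cast_nonneg _
  have c : (0 : ℚ) ≤ ρ * i₀ := mul_nonneg pos (Nat.cast_nonneg _)
  linarith

end

end Pool.Agent.Lib.MP_62d77c_ag.R
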