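import Pool.Agent.Lib.MP_62d77c_ag.R.ET6
import Pool.Agent.Lib.MP_62d77c_ag.R.GmB
import Pool.Agent.Lib.MP_62d77c_ag.R.Df
import Pool.Agent.Lib.MP_62d77c_ag.R.K1a
import Pool.Agent.Lib.MP_62d77c_ag.R.S1
import Pool.Agent.Lib.MP_62d77c_ag.End.Fib0

/-! The torsion free quotient of `Ext¹(O(D), O(D))` has bounded Euler characteristic. -/

set_option autoImplicit false
set_option linter.unusedSectionVars false

namespace Pool.Agent.Lib.MP_62d77c_ag.R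

open Matrix Filter Submodule

noncomputable section

variable {A : Type} [CommRing A] [IsDomain A] {𝒜 : ℕ → AddSubgroup A} [GradedRing 𝒜]
  [hG : Fact (Gen 𝒜)] {p : ℕ} [Fact p.Prime]

theorem et_s0 (X : Mo 𝒜 p) {J F : X.Fa} (hJ : X.FF J) (hF : X.FF F) (hle : J ≤ F)
    (h2 : ∀ y : Vp 𝒜 p, 2 ≤ dm y → X.stk F y.1 ⊆ X.stk J y.1) : ∃ c : ℚ, ∀ F' : X.Fa, X.FF F' →
      F' ≤ F → (∀ y : Vp 𝒜 p, 1 ≤ dm y → X.stk J y.1 ⊆ X.stk F' y.1) → (hp F').eval 0 ≤ c := by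
  have key : ∀ {N N' : X.Fa}, X.FF N → X.FF N' → N ≤ N' → ∀ s, (∀ y : Vp 𝒜 p, s ≤ dm y →
      X.stk N' y.1 ⊆ X.stk N y.1) → hp N' - hp N ∈ Polynomial.degreeLT ℚ s ∧
        ∀ᶠ n : ℕ in atTop, 0 ≤ (hp N' - hp N).eval (n : ℚ) := by
    intro N N' h h' le s hs
    obtain ⟨Q, q1, q2⟩ := ses_gm X h h' le
    have fb := (q1.fb (fb_gm X h')).2
    have e := hp_ses q1 (fb_gm X h')
    rw [hp_gm, hp_gm, ← sub_eq_iff_eq_add'] at e
    rw [e]
    exact ⟨hp_mem fb fun y hy => (q2 y.1).2 (hs y hy),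
      (hp_spec' fb).mono fun n hn => hn ▸ Nat.cast_nonneg _⟩
  obtain ⟨B, hB⟩ := S0 (X.M.mdl (X.on_iff.2 le_rfl)) hF.fg hJ.fg (key hJ hF hle 2 h2).1
  refine ⟨B + (hp F).coeff 0, fun F' hF' le h1 => ?_⟩
  have hM : X.FF fun n => F' n ⊔ J n :=
    ⟨fun n => by rw [Submodule.mul_sup]; exact sup_le_sup (hF'.st n) (hJ.st n),
      fun n => (hF'.fd n).sup (hJ.fd n), hF'.fg.sup hJ.fg⟩
  have a1 := (hB _ hM.fg.fam (Eventually.of_forall fun n => le_sup_right)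
    (Eventually.of_forall fun n => sup_le (le n) (hle n))).2.2
  obtain ⟨a2, a3⟩ := key hF' hM (fun n => le_sup_left) 1 (by
    rintro y hy z ⟨n, s, b1, b2, b3⟩
    obtain ⟨u, hu, w, hw, e⟩ := mem_sup.1 b3
    obtain ⟨k, t, c1, c2, c3⟩ := of_div_mem_stk X hF' (h1 y hy (div_mem_stk X hw))
    refine ⟨n + k, s * t, SetLike.mul_mem_graded b1 c1, md_mul_not_mem b2 c2, ?_⟩
    rw [map_mul, mul_comm (X.θ s), mul_assoc, ← e, mul_add]
    exact add_mem (st_mul_mem X hF' hu c1) c3)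
  obtain ⟨n, hn⟩ := a3.exists
  rw [Polynomial.eq_C_of_degree_le_zero (p := hp _ - hp F') (by
    have := Polynomial.mem_degreeLT.1 a2
    exact Order.lt_succ_iff.1 this), Polynomial.eval_C] at hn
  rw [Polynomial.coeff_sub] at a1 hn
  rw [← Polynomial.coeff_zero_eq_eval_zero]
  linarith

theorem Rl.card {L : Type} [Field L] {N : GM 𝒜} {θ : A →+* L} {S : ℤ → AddSubgroup L}
    {v : N.M →+ L} (h : Rl N θ S v) (n : ℤ) : Nat.card (N.g n) = Nat.card (S n) :=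
  Nat.card_congr (Equiv.ofBijective (fun m => ⟨v m.1, h.mem n _ m.2⟩)
    ⟨fun a b e => Subtype.ext (sub_eq_zero.1 (h.inj n _ (sub_mem a.2 b.2) (by
      rw [map_sub]; exact sub_eq_zero.2 (congrArg Subtype.val e)))), fun z => by
      obtain ⟨m, hm, e⟩ := h.surj n z.1 z.2
      exact ⟨⟨m, hm⟩, Subtype.ext e⟩⟩)

/-- elements that vanish at the points of `Y` -/
def GM.zs (N : GM 𝒜) (Y : Set (Pt 𝒜)) : Submodule A N.M where
  carrier := {m | ∀ y ∈ Y, N.ZeroEl y m}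
  zero_mem' := fun y _ => ⟨0, 1, SetLike.one_mem_graded 𝒜, md_one_not_mem y, smul_zero _⟩
  add_mem' := fun h1 h2 y hy => st_el_add (h1 y hy) (h2 y hy)
  smul_mem' := fun a m h y hy => by
    obtain ⟨k, t, h1, h2, h3⟩ := h y hy
    exact ⟨k, t, h1, h2, by rw [smul_comm, h3, smul_zero]⟩

theorem et_ev (N : GM 𝒜) : ∀ᶠ n : ℕ in atTop, ∀ m ∈ N.g n, m ∈ N.zs Set.univ → m = 0 := by
  filter_upwards [ev_bot (N := N.sub (N.zs Set.univ)) fun y m => by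
    obtain ⟨k, t, h1, h2, h3⟩ := N.core_le _ m.2 y trivial
    exact ⟨k, t, h1, h2, Subtype.ext h3⟩] with n hn m hm hz
  have : (⟨m, (N.mem_core_of_mem_g hm).2 hz⟩ : (N.sub (N.zs Set.univ)).M) ∈
      (N.sub (N.zs Set.univ)).g n := hm
  rw [hn] at this
  exact congrArg Subtype.val (AddSubgroup.mem_bot.1 this)

namespace Mo

variable (X : Mo 𝒜 p)

theorem ff_of_mul {N H : X.Fa} (hN : X.FF N) {g : X.L} (g0 : g ≠ 0) {d : ℕ}
    (st : ∀ n, ∀ a ∈ 𝒜 1, ∀ z ∈ H n, X.θ a * z ∈ H (n + 1))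
    (h : ∀ n, ∀ z ∈ H n, g * z ∈ N (n + d)) : X.FF H := by
  have st' : ∀ n, X.V * H n ≤ H (n + 1) := fun n => Submodule.mul_le.2 fun v hv z hz => by
    obtain ⟨a, -, ha, rfl⟩ := X.M.mem_fam.1 hv
    exact st n a ha z hz
  have le : ∀ n, H n ≤ span (ZMod p) {g⁻¹} • N (n + d) := fun n z hz => by
    have := smul_mem_smul (mem_span_singleton_self (R := ZMod p) g⁻¹) (h n z hz)
    rwa [smul_eq_mul g⁻¹, inv_mul_cancel_left₀ g0] at this
  exact ⟨st', fun n => (Noeth_fg_smul (fg_span_singleton _) (hN.fd _)).of_le (le n),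
    Fg.of_le X.M.V_fg ((hN.fg.add d).smul (fg_span_singleton _)) (Eventually.of_forall st')
      (Eventually.of_forall le)⟩

variable {D : Dvs X.L} {π : A} {e : ℕ}

/-- the family of generic values -/
def If (P : Pres 𝒜 X.θ (X.SZ D)) (σ : Matrix (Fin P.b1) (Fin P.b0) A) : X.Fa :=
  fun n => AddSubgroup.toZModSubmodule p (P.Iv σ (X.SZ D) n)

variable {P : Pres 𝒜 X.θ (X.SZ D)} {σ : Matrix (Fin P.b1) (Fin P.b0) A}

theorem mem_If {n : ℕ} {z : X.L} : z ∈ X.If P σ n ↔ z ∈ P.Iv σ (X.SZ D) n := Iff.rfl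

theorem If_th {n k : ℕ} {a : A} (ha : a ∈ 𝒜 k) {z : X.L} (hz : z ∈ X.If P σ n) :
    X.θ a * z ∈ X.If P σ (n + k) := by
  rw [mem_If, Nat.cast_add]
  exact Pres.Iv_smul hz ((X.esys.stb D).mul (by rwa [Az_nat]))

theorem exists_g (P : Pres 𝒜 X.θ (X.SZ D)) : ∃ i, P.g i ≠ 0 := by
  obtain ⟨n, z, hz, z0⟩ := X.exists_ne_MD D
  obtain ⟨c, -, h⟩ := P.p0 n z (X.mem_FZ.2 hz)
  by_contra hc
  push Not at hc
  exact z0 (by rw [← h, show P.g = 0 from funext hc, zero_dotProduct])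

theorem If_g (h : Pres.Sg P π e σ) : ∃ g : X.L, g ≠ 0 ∧ ∃ d : ℕ, ∀ n, ∀ z ∈ X.If P σ n,
    g * z ∈ X.MD D (n + d) := by
  obtain ⟨i, hi⟩ := X.exists_g P
  obtain ⟨k, hk, -⟩ := (X.FZ_cases (P.hg i)).resolve_left hi
  refine ⟨P.g i, hi, e + k, fun n z hz => X.mem_FZ.1 ?_⟩
  have := h.Iv_g (X.esys.stb D) hz i
  rw [hk, mul_comm, add_assoc] at this
  exact_mod_cast this

theorem ff_If (h : Pres.Sg P π e σ) : X.FF (X.If P σ) := by
  obtain ⟨g, g0, d, hg⟩ := X.If_g h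
  exact X.ff_of_mul (X.ff_MD D) g0 (fun n a ha z hz => X.If_th ha hz) hg

theorem top_bound (h3 : dm X.x = 3) {P₀ : Pres 𝒜 X.θ (X.SZ 0)}
    {σ₀ : Matrix (Fin P₀.b1) (Fin P₀.b0) A} (h₀ : Pres.Sg P₀ π e σ₀) :
    ∃ c : ℚ, ∀ (D : Dvs X.L) (P : Pres 𝒜 X.θ (X.SZ D)) σ, Pres.Sg P π e σ →
      (hp (X.If P σ)).eval 0 ≤ c := by
  obtain ⟨g, g0, d, hg⟩ := X.If_g h₀
  let H : X.Fa := fun n =>
    { carrier := {z | ∀ y : Vp 𝒜 p, 2 ≤ dm y → ∃ k, ∃ s ∈ 𝒜 k, s ∉ pr y.1 ∧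
        X.θ s * z ∈ X.If P₀ σ₀ (n + k)}
      zero_mem' := fun y _ => ⟨0, 1, SetLike.one_mem_graded 𝒜, md_one_not_mem _, by simp⟩
      add_mem' := fun {z w} h1 h2 y hy => by
        obtain ⟨k, s, a1, a2, a3⟩ := h1 y hy
        obtain ⟨k', s', b1, b2, b3⟩ := h2 y hy
        refine ⟨k + k', s * s', SetLike.mul_mem_graded a1 b1, md_mul_not_mem a2 b2, ?_⟩
        have c1 := X.If_th b1 a3
        have c2 := X.If_th a1 b3
        rw [add_assoc] at c1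
        rw [add_assoc, add_comm k'] at c2
        convert add_mem c1 c2 using 1
        rw [map_mul]; ring
      smul_mem' := fun c z h y hy => by
        obtain ⟨k, s, a1, a2, a3⟩ := h y hy
        exact ⟨k, s, a1, a2, by rw [mul_smul_comm]; exact smul_mem _ c a3⟩ }
  let J : X.Fa := fun n => span (ZMod p)
    {z | ∃ a f m, X.Tr a f ∧ m + f = n ∧ ∃ x ∈ X.If P₀ σ₀ m, z = X.θ a * x}
  have JI : ∀ n, J n ≤ X.If P₀ σ₀ n := fun n => span_le.2 (by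
    rintro _ ⟨a, f, m, ha, rfl, x, hx, rfl⟩
    exact X.If_th ha.1 hx)
  have hH : X.FF H := X.ff_of_mul (X.ff_MD 0) g0 (d := d) (fun n a ha z hz y hy => by
      obtain ⟨k, s, a1, a2, a3⟩ := hz y hy
      refine ⟨k, s, a1, a2, ?_⟩
      have := X.If_th ha a3
      rwa [add_right_comm, mul_left_comm] at this) fun n z hz O hO => by
    obtain ⟨k, s, a1, a2, a3⟩ := hz (X.cen O) (by have := (pd_cen X hO).2; omega)
    have := hg _ _ a3 O hO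
    rwa [show n + k + d = k + (n + d) by ring, mul_left_comm, ← O.valuation_le_one_iff,
      X.nm_th_iff hO a1 a2, O.valuation_le_one_iff] at this
  have hJ : X.FF J := X.ff_of_mul (X.ff_MD 0) g0 (d := d) (fun n a ha z hz => by
      induction hz using span_induction with
      | mem z hz =>
        obtain ⟨b, f, m, hb, rfl, x, hx, rfl⟩ := hz
        exact subset_span ⟨b, f, m + 1, hb, by ring, _, X.If_th ha hx, by ring⟩
      | zero => simp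
      | add z w _ _ h1 h2 => rw [mul_add]; exact add_mem h1 h2
      | smul c z _ h1 => rw [mul_smul_comm]; exact smul_mem _ c h1)
    fun n z hz => hg n z (JI n hz)
  obtain ⟨c, hc⟩ := et_s0 X hJ hH (fun n z hz y _ =>
    ⟨0, 1, SetLike.one_mem_graded 𝒜, md_one_not_mem _, by simpa using JI n hz⟩) (by
    rintro y hy z ⟨n, s, a1, a2, a3⟩
    obtain ⟨k, s', b1, b2, b3⟩ := a3 y hy
    obtain ⟨a, f, ha, a0⟩ := exists_tr_one X h3 y hy
    refine ⟨n + k + f, s * s' * a, SetLike.mul_mem_graded (SetLike.mul_mem_graded a1 b1) ha.1,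
      md_mul_not_mem (md_mul_not_mem a2 b2) a0, subset_span ⟨a, f, n + k, ha, rfl, _, b3, ?_⟩⟩
    simp only [map_mul]; ring)
  refine ⟨c, fun D P σ h => hc _ (X.ff_If h) (fun n z hz y hy => ?_) ?_⟩
  · obtain ⟨a, f, ha, a0⟩ := exists_tr_one X h3 y hy
    obtain ⟨k, s, a1, a2, a3⟩ := X.tr_wt ha D y (by omega)
    refine ⟨f + k, s * a, by rw [add_comm]; exact SetLike.mul_mem_graded a1 ha.1,
      md_mul_not_mem a2 a0, ?_⟩
    rw [mem_If]; push_cast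
    exact h.Iv_to h₀ X.esys hz a3
  · rintro y hy z ⟨n, s, a1, a2, a3⟩
    have key : ∀ w ∈ J n, ∃ k, ∃ t ∈ 𝒜 k, t ∉ pr y.1 ∧ X.θ t * w ∈ X.If P σ (n + k) := by
      intro w hw
      induction hw using span_induction with
      | mem w hw =>
        obtain ⟨a, f, m, ha, rfl, x, hx, rfl⟩ := hw
        obtain ⟨k, t, b1, b2, b3⟩ := X.tr_wt ha D y hy
        refine ⟨k, t, b1, b2, ?_⟩
        rw [mem_If, ← mul_assoc, ← map_mul]; push_cast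
        rw [add_assoc]
        exact h.Iv_from h₀ X.esys hx b3
      | zero => exact ⟨0, 1, SetLike.one_mem_graded 𝒜, md_one_not_mem _, by simp⟩
      | add z w _ _ h1 h2 =>
        obtain ⟨k, s, a1, a2, a3⟩ := h1
        obtain ⟨k', s', b1, b2, b3⟩ := h2
        refine ⟨k + k', s * s', SetLike.mul_mem_graded a1 b1, md_mul_not_mem a2 b2, ?_⟩
        have c1 := X.If_th b1 a3
        have c2 := X.If_th a1 b3
        rw [add_assoc] at c1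
        rw [add_assoc, add_comm k'] at c2
        convert add_mem c1 c2 using 1
        rw [map_mul]; ring
      | smul c z _ h1 =>
        obtain ⟨k, s, a1, a2, a3⟩ := h1
        exact ⟨k, s, a1, a2, by rw [mul_smul_comm]; exact smul_mem _ c a3⟩
    obtain ⟨k, t, b1, b2, b3⟩ := key _ a3
    exact ⟨n + k, s * t, SetLike.mul_mem_graded a1 b1, md_mul_not_mem a2 b2, by
      rw [map_mul, mul_comm (X.θ s), mul_assoc]; exact b3⟩

theorem et_core (hb : Bir 𝒜 X.θ) (h3 : dm X.x = 3) (hπ : GenK 𝒜 X.θ π e) :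
    ∃ (m : ℕ) (x : A) (B : ℚ), x ∈ 𝒜 m ∧ X.θ x ≠ 0 ∧ ∀ (e' : ℕ) (x' : A), x' ∈ 𝒜 e' → X.θ x' ≠ 0 →
      ∀ (D : Dvs X.L) (hD : X.FF (X.MD D)) (R : Res (X.gm _ hD)),
        ((R.Ext (X.gm _ hD) 1).hp p).eval 0 ≤ B + (((R.Ext (X.gm _ hD) 1).sub
          (torsionBy A _ (x * x'))).hp p).eval 0 := by
  obtain ⟨v₀, hv₀⟩ := X.exists_rl (X.ff_MD 0)
  obtain ⟨R₀⟩ := res_nonempty (X.gm _ (X.ff_MD 0))
  obtain ⟨σ₀, h₀⟩ := (hv₀.pres R₀).exists_sg hπ.mem hπ.zero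
  obtain ⟨B, hB⟩ := X.top_bound h3 h₀
  obtain ⟨m, x, hx, x0, hk⟩ := X.kill_all hb h3 hπ (hv₀.pres R₀)
  refine ⟨m, x, B, hx, x0, fun e' x' hx' x0' D hD R => ?_⟩
  obtain ⟨v, hv⟩ := X.exists_rl hD
  have hF := et5_fb R (fb_gm X hD)
  obtain ⟨P, C, mk, w, c0, c1, c2, c3, c4⟩ : ∃ (P : Pres 𝒜 X.θ (X.SZ D)) (C : GM 𝒜)
      (mk : C.M →ₗ[A] (R.Ext (X.gm _ hD) 1).M) (w : C.M →+ (Fin P.b1 → X.L)),
      (∀ n e, e ∈ (R.Ext (X.gm _ hD) 1).g n ↔ ∃ c ∈ C.g n, mk c = e) ∧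
      (∀ n, ∀ c ∈ C.g n, w c ∈ P.Zc X.θ (X.SZ D) n) ∧
      (∀ n, ∀ φ ∈ P.Zc X.θ (X.SZ D) n, ∃ c ∈ C.g n, w c = φ) ∧
      (∀ n, ∀ c ∈ C.g n, mk c = 0 ↔ w c ∈ P.Bc X.θ (X.SZ D) n) ∧
      ∀ (a : A) c, w (a • c) = X.θ a • w c := ⟨hv.pres R, ext_real hv hv R⟩
  obtain ⟨σ, hσ⟩ := P.exists_sg hπ.mem hπ.zero
  generalize R.Ext (X.gm _ hD) 1 = E at mk c0 c3 hF ⊢
  have nx : ∀ {k a}, a ∈ 𝒜 k → X.θ a ≠ 0 → a ∉ pr X.x.1 := fun ha h0 h => h0 ((X.ker _ _ ha).2 h)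
  have loc : ∀ n, ∀ c ∈ C.g n, w c ᵥ* σ.map X.θ = 0 → ∀ y : Pt 𝒜, ∃ k : ℕ, ∃ t ∈ 𝒜 k,
      t ∉ pr y ∧ (t * x) • mk c = 0 := fun n c hc h0 y => by
    obtain ⟨k, t, a1, a2, a3⟩ := hk D _ σ hσ n _ (c1 n c hc) h0 y
    refine ⟨k, t, a1, a2, ?_⟩
    rw [← map_smul, c3 (n + (k + m : ℕ)) _ (C.smul (by
      rw [Az_nat]; exact SetLike.mul_mem_graded a1 hx) hc), c4]
    rwa [show n + ((k + m : ℕ) : ℤ) = n + m + k by push_cast; ring]
  have hK : ∀ n, ∀ c ∈ C.g n, mk c ∈ E.zs {X.x.1} ↔ w c ᵥ* σ.map X.θ = 0 := fun n c hc => by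
    constructor
    · intro h
      obtain ⟨k, t, a1, a2, a3⟩ := h _ rfl
      rw [← map_smul, c3 (n + k) _ (C.smul (by rwa [Az_nat]) hc), c4] at a3
      obtain ⟨ψ, -, a4⟩ := a3
      have := hσ.cob (θ' := X.θ) ψ
      rw [a4, hπ.zero, zero_smul, smul_vecMul] at this
      exact (smul_eq_zero.1 this).resolve_left (X.th_ne a1 a2)
    · rintro h _ rfl
      obtain ⟨k, t, a1, a2, a3⟩ := loc n c hc h X.x.1
      exact ⟨k + m, t * x, SetLike.mul_mem_graded a1 hx, md_mul_not_mem a2 (nx hx x0), a3⟩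
  have e1 : (E.sub (E.zs {X.x.1})).hp p = (E.sub (torsionBy A _ (x * x'))).hp p := by
    refine hp_eq_of_sz ?_
    filter_upwards [(tendsto_add_atTop_nat m).eventually (et_ev E)] with n hn
    rw [GM.sz, GM.sz, et5_card_sub, et5_card_sub]
    refine congrArg _ (Nat.card_congr (Equiv.subtypeEquivRight fun a => and_congr_right fun ha =>
      ⟨fun h => ?_, fun h => ?_⟩))
    · obtain ⟨c, hc, rfl⟩ := (c0 n a).1 ha
      have : x • mk c = 0 := hn _ (by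
        push_cast; exact E.smul (by rwa [Az_nat]) ha) fun y _ => by
        obtain ⟨k, t, a1, a2, a3⟩ := loc n c hc ((hK n c hc).1 h) y
        exact ⟨k, t, a1, a2, by rwa [mul_smul] at a3⟩
      rw [mem_torsionBy_iff, mul_comm, mul_smul, this, smul_zero]
    · rintro _ rfl
      exact ⟨m + e', x * x', SetLike.mul_mem_graded hx hx', md_mul_not_mem (nx hx x0) (nx hx' x0'),
        (mem_torsionBy_iff _ _).1 h⟩
  have e2 : (E.quot (E.zs {X.x.1})).hp p = hp (X.If P σ) := by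
    rw [← hp_gm X (X.ff_If hσ)]
    refine hp_eq_of_sz (Eventually.of_forall fun n => ?_)
    rw [GM.sz, GM.sz, (X.exists_rl (X.ff_If hσ)).choose_spec.card, FZ_nat]
    congr 1
    obtain ⟨i, hi⟩ := X.exists_g P
    let f₁ : C.g n →+ (E.quot (E.zs {X.x.1})).M :=
      ((E.core (E.zs {X.x.1})).mkQ.toAddMonoidHom.comp mk.toAddMonoidHom).comp (C.g n).subtype
    let f₂ : C.g n →+ X.L :=
      { toFun := fun c => (w c.1 ᵥ* σ.map X.θ) i / P.g i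
        map_zero' := by simp
        map_add' := fun a b => by simp [add_vecMul, add_div] }
    have val : ∀ (c : C.g n) (z : X.L), w c.1 ᵥ* σ.map X.θ = z • P.g → f₂ c = z :=
      fun c z h => by
        change (w c.1 ᵥ* σ.map X.θ) i / P.g i = z
        rw [h]; exact mul_div_cancel_right₀ _ hi
    have r1 : f₁.range = (E.quot (E.zs {X.x.1})).g n := by
      refine le_antisymm ?_ ?_
      · rintro _ ⟨c, rfl⟩
        exact ⟨mk c.1, (c0 n _).2 ⟨c.1, c.2, rfl⟩, rfl⟩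
      · rintro _ ⟨a, ha, rfl⟩
        obtain ⟨c, hc, rfl⟩ := (c0 n a).1 ha
        exact ⟨⟨c, hc⟩, rfl⟩
    have r2 : f₂.range = (X.If P σ n).toAddSubgroup := by
      refine le_antisymm ?_ ?_
      · rintro _ ⟨c, rfl⟩
        obtain ⟨z, hz⟩ := hσ.exists_val hb hπ (c1 n _ c.2).2
        rw [val c z hz]
        exact ⟨_, c1 n _ c.2, hz⟩
      · rintro z ⟨φ, h1, h2⟩
        obtain ⟨c, hc, rfl⟩ := c2 n φ h1
        exact ⟨⟨c, hc⟩, val _ z h2⟩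
    have k12 : f₁.ker = f₂.ker := by
      ext c
      refine ((Submodule.Quotient.mk_eq_zero _).trans (E.mem_core_of_mem_g
        ((c0 n _).2 ⟨c.1, c.2, rfl⟩))).trans ((hK n _ c.2).trans ⟨fun h => val c 0 ?_, fun h => ?_⟩)
      · rw [h, zero_smul]
      · obtain ⟨z, hz⟩ := hσ.exists_val hb hπ (c1 n _ c.2).2
        rw [hz, ← val c z hz, show f₂ c = 0 from h, zero_smul]
    rw [← r1, ← r2, ← AddSubgroup.index_ker, ← AddSubgroup.index_ker, k12]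
  rw [hp_ses (ses_sub_quot E (E.zs {X.x.1})) hF, e1, e2, Polynomial.eval_add,
    add_comm]
  exact add_le_add_left (hB D _ σ hσ) _

end Mo

theorem et_bir (j : Comp 𝒜 p) : Bir 𝒜 (Xc j).θ :=
  ⟨⟨_, (ell_spec _).1, (Xc j).one⟩, fun z => by
    obtain ⟨n, a, ha, b, hb, h, e⟩ := th_gen j.1.1 z
    exact ⟨n, a, ha, b, hb, (Xc j).th_ne hb h, e⟩⟩

theorem et_genK (h : Hyp 𝒜) (j : Comp 𝒜 p) : ∃ (π : A) (e : ℕ), GenK 𝒜 (Xc j).θ π e := by
  haveI := h.cz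
  obtain ⟨e, π, h1, h2, -, h4⟩ := fib0_lp h.reg j j.1.1 (on_MX _)
  refine ⟨π, e, by rwa [Az_nat], ((Xc j).ker e π h2).2 h1, fun n a ha h0 => ?_⟩
  rcases Az_cases ha with rfl | ⟨k, rfl, ha⟩
  · exact ⟨0, 1, by simpa [Az] using SetLike.one_mem_graded 𝒜, by simp, 0, zero_mem _, by simp⟩
  obtain ⟨m, l, b, hb, c, hc, b0, e1, e2⟩ := h4 k a (((Xc j).ker k a ha).1 h0) ha
  refine ⟨m, b, by rwa [Az_nat], (Xc j).th_ne hb b0, c, ?_, ?_⟩
  · rwa [show (m : ℤ) + k - e = l by omega, Az_nat]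
  · rw [mul_comm π]; exact FaithfulSMul.algebraMap_injective A (FractionRing A) e2

theorem et_main (h : Hyp 𝒜) (ff : FFD 𝒜 p) (j : Comp 𝒜 p) : ∃ (e : ℕ) (x : A) (B : ℚ),
    x ∈ 𝒜 e ∧ (Xc j).θ x ≠ 0 ∧
    ∀ (e' : ℕ) (x' : A), x' ∈ 𝒜 e' → (Xc j).θ x' ≠ 0 → ∀ (D : Dvs (Xc j).L) (R : Res (GD ff j D)),
      ((R.Ext (GD ff j D) 1).hp p).eval 0 ≤ B + (((R.Ext (GD ff j D) 1).sub
        (torsionBy A _ (x * x'))).hp p).eval 0 := by
  haveI := h.cz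
  obtain ⟨π, e, hπ⟩ := et_genK h j
  obtain ⟨m, x, B, h1, h2, h3⟩ := (Xc j).et_core (et_bir j) (dm_comp h.dim j) hπ
  exact ⟨m, x, B, h1, h2, fun e' x' a b D R => h3 e' x' a b D (ff j D) R⟩

end

end Pool.Agent.Lib.MP_62d77c_ag.R
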