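import Pool.Agent.Lib.MP_62d77c_ag.R.EM
import Pool.Agent.Lib.MP_62d77c_ag.R.ET

/-! The bound for `Ext¹` of two divisorial modules. -/

set_option autoImplicit false
set_option linter.unusedSectionVars false
set_option linter.style.haveILetI false

namespace Pool.Agent.Lib.MP_62d77c_ag.R

open Filter Polynomial Submodule
open scoped Matrix

noncomputable section

variable {A : Type} [CommRing A] [IsDomain A] {𝒜 : ℕ → AddSubgroup A} [GradedRing 𝒜]
  [hG : Fact (Gen 𝒜)] {p : ℕ} [Fact p.Prime]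

/-- the annihilator of the source kills `Ext¹` -/
theorem ea_kill {N : GM 𝒜} (R : Res N) (N' : GM 𝒜) {x : A} (hx : ∀ m : N.M, x • m = 0)
    (w : Fin (R.b (0 + 1)) → N'.M) (hw : mact N'.M (R.D (0 + 1))ᵀ w = 0) :
    ∃ v, mact N'.M (R.D 0)ᵀ v = x • w := by
  classical
  choose σ hσ using fun i => (R.ex0 (Pi.single i x)).1 (by simp [hx])
  let ψ := Fintype.linearCombination A w
  have k : ∀ c, mact A (R.D 0) c = 0 → ψ c = 0 := fun c hc => by
    obtain ⟨c', rfl⟩ := (R.ex 0 c).1 hc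
    have h1 : ∀ j, ∑ i, R.D (0 + 1) i j • w i = 0 := fun j => congrFun hw j
    simp only [ψ, Fintype.linearCombination_apply, mact_apply, Finset.sum_smul, smul_eq_mul]
    rw [Finset.sum_comm]
    refine Finset.sum_eq_zero fun j _ => ?_
    simp only [mul_comm _ (c' j), mul_smul]
    rw [← Finset.smul_sum, h1, smul_zero]
  refine ⟨fun i => ψ (σ i), funext fun j => ?_⟩
  have := k (∑ i, R.D 0 i j • σ i - Pi.single j x) (by
    rw [map_sub, map_sum]
    refine funext fun l => ?_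
    simp [hσ, mact_apply, Pi.single_apply, Finset.sum_apply, mul_comm])
  rw [map_sub, map_sum, sub_eq_zero] at this
  simp only [map_smul] at this
  exact this.trans (Fintype.linearCombination_apply_single _ _ _ _)

theorem e_main (h : Hyp 𝒜) (ff : FFD 𝒜 p) (j k : Comp 𝒜 p) : ∃ (ι : Type) (_ : Fintype ι)
    (P : ι → Pair (Xc j) (Xc k)) (Q : ∀ i, Dvs (Xc j).L → Dvs (Xc k).L → (P i).Y.Fa) (B : ℚ),
    (∀ i D D', (P i).Y.FF (Q i D D') ∧ ∀ᶠ n in atTop, Q i D D' n ≠ ⊥) ∧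
    (∀ i D D' E E' n m m', Q i D D' n * (P i).S.bar E m * (P i).S'.bar E' m' ≤
      Q i (D - E) (D' + E') (n + m + m')) ∧
    (∀ P' : Pair (Xc j) (Xc k), Off P' → ∃ i, P'.Iso (P i)) ∧
    ∀ (D : DT 𝒜 p) (R : Res (GD ff j (D j))),
      ((R.Ext (GD ff k (D k)) 1).hp p).eval 0 ≤ B + ∑ i, (hp (Q i (D j) (D k))).eval 0 := by
  haveI := h.cz
  by_cases hjk : j = k
  · subst hjk
    obtain ⟨e, x, B, hx, h0, hB⟩ := et_main h ff j
    obtain ⟨e', x', hx', h0', hc⟩ := em_cond (xc_gen j) (ff j 0)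
    have h1 := SetLike.mul_mem_graded hx hx'
    have h2 : (Xc j).θ (x * x') ≠ 0 := by rw [map_mul]; exact mul_ne_zero h0 h0'
    obtain ⟨ι, _, P, Q, q1, q2, q3, q4⟩ := em_gen (X := Xc j) (X' := Xc j) rfl h1 h2
    refine ⟨ι, inferInstance, P, Q, B - (hp ((Xc j).MD 0)).eval ((e + e' : ℕ) : ℚ) +
      (hp ((Xc j).MD 0)).eval 0, q1, q2, fun P' hP => q3 P' (Ideal.mul_mem_left _ _
        (hP.cond_mem hx' fun n z hz => ?_)), fun D R => ?_⟩
    · obtain ⟨a, ha, e1⟩ := hc n z hz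
      exact ⟨0, 1, SetLike.one_mem_graded 𝒜, (Ideal.ne_top_iff_one _).1 P'.Y.x.1.isPrime.ne_top,
        a, by rwa [zero_add], by rwa [one_mul]⟩
    · have a1 := hB e' x' hx' h0' (D j) R
      have a2 := ea_main R (GD ff j (D j)) (fb_gm _ _) h1 fun m => (Xc j).smul_reg _ h1 h2
      have a3 : ((R.Ext ((GD ff j (D j)).qx (x * x')) 0).hp p).eval ((e + e' : ℕ) : ℚ) = _ :=
        q4 (D j) (D j) R
      rw [hom_self, a3] at a2
      linarith
  · obtain ⟨e, x, hx, h1, h2⟩ := exists_form_ne hjk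
    obtain ⟨ι, _, P, Q, q1, q2, q3, q4⟩ := em_gen (X := Xc j) (X' := Xc k)
      ((dm_comp h.dim j).trans (dm_comp h.dim k).symm) hx h2
    refine ⟨ι, inferInstance, P, Q, 0, q1, q2,
      fun P' _ => q3 P' (P'.S.le (((Xc j).ker e x hx).1 h1)), fun D R => ?_⟩
    have a2 := ea_main R (GD ff k (D k)) (fb_gm _ _) hx fun m => (Xc k).smul_reg _ hx h2
    have a3 : ((R.Ext ((GD ff k (D k)).qx x) 0).hp p).eval (e : ℚ) = _ := q4 (D j) (D k) R
    have a4 : torsionBy A (R.Ext (GD ff k (D k)) 1).M x = ⊤ := top_unique fun t _ => by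
      obtain ⟨w, rfl⟩ := R.cl1_surj _ t
      rw [mem_torsionBy_iff, ← map_smul, R.cl1_zero]
      exact ea_kill R _ (fun m => (Xc j).smul_kill _ hx h1 m) w.1 (GM.core_le _ _ w.2)
    rw [hom_ne ff hjk, a3, a4, em_hp_top] at a2
    simp only [eval_zero] at a2
    linarith

end

end Pool.Agent.Lib.MP_62d77c_ag.R
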