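import Pool.Agent.Lib.MP_62d77c_ag.R.ET1

/-! The generic value of a cocycle; the torsion classes. -/

set_option autoImplicit false
set_option linter.unusedSectionVars false

namespace Pool.Agent.Lib.MP_62d77c_ag.R

open Matrix

noncomputable section

variable {A : Type} [CommRing A] {𝒜 : ℕ → AddSubgroup A} [GradedRing 𝒜]
  {L : Type} [Field L] {β γ : Type} {θ : A →+* L}

variable (𝒜) in
/-- `L` is the field of fractions of degree zero -/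
structure Bir (θ : A →+* L) : Prop where
  one : ∃ l ∈ 𝒜 1, θ l = 1
  gen : ∀ z : L, ∃ n, ∃ a ∈ 𝒜 n, ∃ b ∈ 𝒜 n, θ b ≠ 0 ∧ z = θ a / θ b

variable (𝒜) in
/-- the form `π` generates the kernel at the generic point -/
structure GenK (θ : A →+* L) (π : A) (e : ℤ) : Prop where
  mem : π ∈ Az 𝒜 e
  zero : θ π = 0
  gen : ∀ n, ∀ a ∈ Az 𝒜 n, θ a = 0 → ∃ m, ∃ t ∈ Az 𝒜 m, θ t ≠ 0 ∧ ∃ u ∈ Az 𝒜 (m + n - e),
    t * a = π * u

theorem Bir.raise (h : Bir 𝒜 θ) {n N : ℤ} {a : A} (ha : a ∈ Az 𝒜 n) (hn : n ≤ N) :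
    ∃ a' ∈ Az 𝒜 N, θ a' = θ a := by
  obtain ⟨l, hl, h1⟩ := h.one
  obtain ⟨k, rfl⟩ := Int.le.dest hn
  refine ⟨a * l ^ k, Az_mul ha ?_, by simp [h1]⟩
  rw [Az_nat]
  simpa using SetLike.pow_mem_graded k hl

theorem Bir.clear (h : Bir 𝒜 θ) [Fintype β] (v : β → L) (a : β → ℤ) :
    ∃ m, ∃ u ∈ Az 𝒜 m, θ u ≠ 0 ∧ ∃ w : β → A, (∀ i, w i ∈ Az 𝒜 (a i + m)) ∧
      ∀ i, θ (w i) = θ u * v i := by
  classical
  have key : ∀ s : Finset β, ∃ m, ∃ u ∈ Az 𝒜 m, θ u ≠ 0 ∧ ∀ i ∈ s, ∃ w ∈ Az 𝒜 (a i + m),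
      θ w = θ u * v i := by
    intro s
    induction s using Finset.induction_on with
    | empty => exact ⟨0, 1, by simpa [Az] using SetLike.one_mem_graded 𝒜, by simp, by simp⟩
    | insert j s _ ih =>
      obtain ⟨m, u, hu, u0, hw⟩ := ih
      obtain ⟨n, x, hx, y, hy, y0, e⟩ := h.gen (v j)
      rw [← Az_nat (𝒜 := 𝒜)] at hx hy
      obtain ⟨y', hy', e1⟩ := h.raise hy (N := n + |a j|) (by have := abs_nonneg (a j); omega)
      refine ⟨m + (n + |a j|), u * y', Az_mul hu hy', by simp [u0, e1, y0], fun i hi => ?_⟩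
      rcases Finset.mem_insert.1 hi with rfl | hi
      · obtain ⟨w, h1, h2⟩ := h.raise (Az_mul hu hx) (N := a i + (m + (n + |a i|)))
          (by have := neg_abs_le (a i); omega)
        exact ⟨w, h1, by rw [h2, map_mul, map_mul, e1, e]; field_simp⟩
      · obtain ⟨w, h1, h2⟩ := hw i hi
        exact ⟨w * y', by have := Az_mul h1 hy'; rwa [add_assoc] at this,
          by rw [map_mul, map_mul, h2]; ring⟩
  obtain ⟨m, u, hu, u0, hw⟩ := key Finset.univ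
  choose w h1 h2 using fun i => hw i (Finset.mem_univ i)
  exact ⟨m, u, hu, u0, w, h1, h2⟩

theorem HM.mulVec [Fintype γ] {a : β → ℤ} {b : γ → ℤ} {d n : ℤ} {U : Matrix β γ A} {c : γ → A}
    (hU : HM 𝒜 a b d U) (hc : HV 𝒜 b n c) : HV 𝒜 a (n + d) (U *ᵥ c) := by
  intro i
  change ∑ j, U i j * c j ∈ _
  refine sum_mem fun j _ => ?_
  have := Az_mul (hU i j) (hc j)
  rwa [show b j - a i + d + (n - b j) = n + d - a i by ring] at this

theorem et_quasi [Fintype β] [Fintype γ] (D : Matrix β γ L) :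
    ∃ τ : Matrix γ β L, D * τ * D = D := by
  classical
  obtain ⟨s, hs⟩ := (toLin' D).rangeRestrict.exists_rightInverse_of_surjective
    (LinearMap.range_rangeRestrict _)
  obtain ⟨g, hg⟩ := s.exists_extend
  refine ⟨LinearMap.toMatrix' g, toLin'.injective ?_⟩
  rw [toLin'_mul, toLin'_mul, toLin'_toMatrix']
  refine LinearMap.ext fun v => ?_
  have h1 := LinearMap.congr_fun hg ⟨toLin' D v, v, rfl⟩
  have h2 := congrArg Subtype.val (LinearMap.congr_fun hs ⟨toLin' D v, v, rfl⟩)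
  simp only [LinearMap.comp_apply, Submodule.subtype_apply] at h1 h2 ⊢
  rw [h1]; exact h2

namespace Pres

variable {S S₀ T T' : ℤ → AddSubgroup L} {P : Pres 𝒜 θ S}

theorem rel {ψ : Fin P.b0 → L} (h : ψ ᵥ* P.D0.map θ = 0) {n : ℤ} {c : Fin P.b0 → A}
    (hc : HV 𝒜 P.a0 n c) (h0 : P.g ⬝ᵥ (θ ∘ c) = 0) : ψ ⬝ᵥ (θ ∘ c) = 0 := by
  obtain ⟨w, -, rfl⟩ := P.p1 n c hc h0
  have : θ ∘ (P.D0 *ᵥ w) = P.D0.map θ *ᵥ (θ ∘ w) := funext fun i => RingHom.map_mulVec θ _ _ i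
  rw [this, dotProduct_mulVec, h, zero_dotProduct]

theorem rank_one (hb : Bir 𝒜 θ) {ψ : Fin P.b0 → L} (h : ψ ᵥ* P.D0.map θ = 0) :
    ∃ x : L, ψ = x • P.g := by
  classical
  have key : ∀ v : Fin P.b0 → L, P.g ⬝ᵥ v = 0 → ψ ⬝ᵥ v = 0 := by
    intro v hv
    obtain ⟨m, u, -, u0, w, h1, h2⟩ := hb.clear v fun i => -P.a0 i
    have e : θ ∘ w = θ u • v := funext h2
    have := rel h (n := m) (c := w) (fun i => by have := h1 i; rwa [neg_add_eq_sub] at this)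
      (by rw [e, dotProduct_smul, hv, smul_zero])
    rw [e, dotProduct_smul] at this
    exact (mul_eq_zero.1 this).resolve_left u0
  by_cases h0 : P.g = 0
  · refine ⟨0, funext fun i => ?_⟩
    simpa using key (Pi.single i 1) (by rw [h0, zero_dotProduct])
  · obtain ⟨i₀, hi⟩ := Function.ne_iff.1 h0
    replace hi : P.g i₀ ≠ 0 := hi
    refine ⟨ψ i₀ / P.g i₀, funext fun i => ?_⟩
    have := key (Pi.single i (P.g i₀) - Pi.single i₀ (P.g i)) (by simp [mul_comm])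
    simp only [dotProduct_sub, dotProduct_single] at this
    simp only [Pi.smul_apply, smul_eq_mul]
    field_simp
    linear_combination this

variable {π : A} {e : ℤ} {σ : Matrix (Fin P.b1) (Fin P.b0) A}

/-- exactness at the generic point -/
theorem Sg.generic (h : Sg P π e σ) (hb : Bir 𝒜 θ) (hπ : GenK 𝒜 θ π e) {φ : Fin P.b1 → L}
    (h1 : φ ᵥ* P.D1.map θ = 0) (h2 : φ ᵥ* σ.map θ = 0) {v : Fin P.b1 → L}
    (hv : P.D0.map θ *ᵥ v = 0) : φ ⬝ᵥ v = 0 := by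
  classical
  obtain ⟨N, u, -, u0, w, hw, hw'⟩ := hb.clear v fun i => -P.a1 i
  have ew : θ ∘ w = θ u • v := funext hw'
  have hc : ∀ i, (P.D0 *ᵥ w) i ∈ Az 𝒜 (N - P.a0 i) := fun i => by
    have := P.hD0.mulVec (n := N) (c := w) (fun j => by
      have := hw j; rwa [neg_add_eq_sub] at this) i
    rwa [add_zero] at this
  have hc0 : ∀ i, θ ((P.D0 *ᵥ w) i) = 0 := fun i => by
    rw [RingHom.map_mulVec, ew, mulVec_smul, hv]; simp
  have key : ∀ s : Finset (Fin P.b0), ∃ m, ∃ t ∈ Az 𝒜 m, θ t ≠ 0 ∧ ∀ i ∈ s,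
      ∃ y ∈ Az 𝒜 (m + N - e - P.a0 i), t * (P.D0 *ᵥ w) i = π * y := by
    intro s
    induction s using Finset.induction_on with
    | empty => exact ⟨0, 1, by simpa [Az] using SetLike.one_mem_graded 𝒜, by simp, by simp⟩
    | insert j s _ ih =>
      obtain ⟨m, t, ht, t0, hy⟩ := ih
      obtain ⟨m', t', ht', t0', y', hy', e'⟩ := hπ.gen _ _ (hc j) (hc0 j)
      refine ⟨m + m', t * t', Az_mul ht ht', by simp [t0, t0'], fun i hi => ?_⟩
      rcases Finset.mem_insert.1 hi with rfl | hi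
      · refine ⟨t * y', ?_, by rw [mul_assoc, e']; ring⟩
        have := Az_mul ht hy'
        rwa [show m + (m' + (N - P.a0 i) - e) = m + m' + N - e - P.a0 i by ring] at this
      · obtain ⟨y, h3, h4⟩ := hy i hi
        refine ⟨y * t', ?_, by rw [mul_right_comm, h4]; ring⟩
        have := Az_mul h3 ht'
        rwa [show m + N - e - P.a0 i + m' = m + m' + N - e - P.a0 i by ring] at this
  obtain ⟨m, t, ht, t0, hy⟩ := key Finset.univ
  choose y hy1 hy2 using fun i => hy i (Finset.mem_univ i)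
  obtain ⟨r, -, hr⟩ := P.p2 (m + N) (t • w - σ *ᵥ y) (fun j => sub_mem (by
      have := Az_mul ht (hw j)
      rwa [show m + (-P.a1 j + N) = m + N - P.a1 j by ring] at this) (by
      have := h.h.mulVec (n := m + N - e) (c := y) hy1 j
      rwa [sub_add_cancel] at this)) (by
    rw [mulVec_sub, mulVec_smul, mulVec_mulVec, h.eq, smul_mulVec, one_mulVec]
    exact funext fun i => sub_eq_zero.2 (hy2 i))
  have e1 : θ ∘ (P.D1 *ᵥ r) = P.D1.map θ *ᵥ (θ ∘ r) := funext fun i => RingHom.map_mulVec θ _ _ i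
  have e2 : θ ∘ (t • w - σ *ᵥ y) = (θ t * θ u) • v - σ.map θ *ᵥ (θ ∘ y) := funext fun i => by
    have := RingHom.map_mulVec θ σ y i
    simp only [Function.comp_apply, Pi.sub_apply, Pi.smul_apply, smul_eq_mul, map_sub, map_mul,
      hw' i, this, mul_assoc]
  have := congrArg (fun x => φ ⬝ᵥ (θ ∘ x)) hr
  simp only [e1, e2, dotProduct_mulVec, h1, h2, zero_dotProduct, dotProduct_sub, dotProduct_smul,
    sub_zero, smul_eq_mul] at this
  exact (mul_eq_zero.1 this.symm).resolve_left (mul_ne_zero t0 u0)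

/-- one form kills all classes with generic value zero -/
theorem Sg.tors (h : Sg P π e σ) (hb : Bir 𝒜 θ) (hπ : GenK 𝒜 θ π e) :
    ∃ m, ∃ u ∈ Az 𝒜 m, θ u ≠ 0 ∧ ∀ T : ℤ → AddSubgroup L, Stb 𝒜 θ T → ∀ n, ∀ φ ∈ P.Zc θ T n,
      φ ᵥ* σ.map θ = 0 → θ u • φ ∈ P.Bc θ T (n + m) := by
  classical
  obtain ⟨τ, hτ⟩ := et_quasi (P.D0.map θ)
  obtain ⟨m, u, hu, u0, w, h1, h2⟩ := hb.clear (fun x : Fin P.b1 × Fin P.b0 => τ x.1 x.2)
    fun x => P.a0 x.2 - P.a1 x.1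
  refine ⟨m, u, hu, u0, fun T hT n φ hφ h0 => ⟨φ ᵥ* (Matrix.of fun j i => w (j, i)).map θ,
    hφ.1.vecMul hT fun j i => h1 (j, i), ?_⟩⟩
  have e1 : (Matrix.of fun j i => w (j, i)).map θ = θ u • τ := by
    ext j i; exact h2 (j, i)
  rw [e1, vecMul_smul, smul_vecMul, vecMul_vecMul]
  congr 1
  funext j
  have := h.generic hb hπ hφ.2 h0 (v := (τ * P.D0.map θ - 1) *ᵥ Pi.single j 1) (by
    rw [mulVec_mulVec, Matrix.mul_sub, ← Matrix.mul_assoc, hτ, Matrix.mul_one, sub_self,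
      zero_mulVec])
  rw [dotProduct_mulVec, vecMul_sub, vecMul_one] at this
  simpa [sub_eq_zero] using this

/-- the generic values of the cocycles of degree `n` -/
def Iv (P : Pres 𝒜 θ S) (σ : Matrix (Fin P.b1) (Fin P.b0) A) (T : ℤ → AddSubgroup L) (n : ℤ) :
    AddSubgroup L where
  carrier := {x | ∃ φ ∈ P.Zc θ T n, φ ᵥ* σ.map θ = x • P.g}
  zero_mem' := ⟨0, zero_mem _, by simp⟩
  add_mem' := by
    rintro x y ⟨φ, h1, h2⟩ ⟨ψ, h3, h4⟩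
    exact ⟨φ + ψ, add_mem h1 h3, by rw [add_vecMul, h2, h4, add_smul]⟩
  neg_mem' := by
    rintro x ⟨φ, h1, h2⟩
    exact ⟨-φ, neg_mem h1, by rw [neg_vecMul, h2, neg_smul]⟩

theorem Sg.exists_val (h : Sg P π e σ) (hb : Bir 𝒜 θ) (hπ : GenK 𝒜 θ π e) {φ : Fin P.b1 → L}
    (h1 : φ ᵥ* P.D1.map θ = 0) : ∃ x : L, φ ᵥ* σ.map θ = x • P.g :=
  rank_one hb (by rw [h.D0 hπ.mem h1, hπ.zero, zero_smul])

theorem Sg.Iv_mul (h : Sg P π e σ) {P₀ : Pres 𝒜 θ S₀} {σ₀ : Matrix (Fin P₀.b1) (Fin P₀.b0) A}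
    (h₀ : Sg P₀ π e σ₀) (hT : Stb 𝒜 θ T) {n k k' : ℤ} {x z t : L} (hx : x ∈ P.Iv σ T n)
    (hz : Mul z k S₀ S) (ht : Mul t k' T T') : t * z * x ∈ P₀.Iv σ₀ T' (n + k + k') := by
  obtain ⟨φ, h1, h2⟩ := hx
  obtain ⟨U₀, U₁, hU⟩ := exists_lift P P₀ hz
  refine ⟨t • φ ᵥ* U₁.map θ, Zc_smul (hU.Zc hT h1) ht, ?_⟩
  rw [smul_vecMul, h.lift h₀ hU h1.2, h2, smul_vecMul, hU.g, smul_smul, smul_smul]
  congr 1; ring

theorem Iv_smul {n k : ℤ} {x t : L} (hx : x ∈ P.Iv σ T n) (ht : Mul t k T T') :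
    t * x ∈ P.Iv σ T' (n + k) := by
  obtain ⟨φ, h1, h2⟩ := hx
  exact ⟨t • φ, Zc_smul h1 ht, by rw [smul_vecMul, h2, smul_smul]⟩

theorem Sg.Iv_g (h : Sg P π e σ) (hT : Stb 𝒜 θ T) {n : ℤ} {x : L} (hx : x ∈ P.Iv σ T n)
    (i : Fin P.b0) : x * P.g i ∈ T (n + e + P.a0 i) := by
  obtain ⟨φ, h1, h2⟩ := hx
  have := h1.1.vecMul hT h.h i
  rwa [h2] at this

/-- three elements that kill a class -/
theorem emb_three (hb : Bir 𝒜 θ) {n : ℤ} {x₁ x₂ x₃ b : L} (x0 : x₁ ≠ 0)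
    (m₁ : Mul x₁ 0 T T) (m₂ : Mul x₂ 0 T T) (m₃ : Mul x₃ 0 T T) (mb : Mul b 0 T T)
    (pair : ∀ k y, x₁ * y ∈ T k → x₂ * y ∈ T k → y ∈ T k)
    (hβ : ∀ y y₁ y₂ : L, CV P.a0 T n (y • P.g) → CV P.a0 T n (y₁ • P.g) → CV P.a0 T n (y₂ • P.g) →
      x₃ * y = x₂ * y₁ - x₁ * y₂ → ∃ w₁ w₂ : L, CV P.a0 T n (w₁ • P.g) ∧ CV P.a0 T n (w₂ • P.g) ∧
        b * y = x₂ * w₁ - x₁ * w₂)
    {ζ : Fin P.b1 → L} (h₁ : x₁ • ζ ∈ P.Bc θ T n) (h₂ : x₂ • ζ ∈ P.Bc θ T n)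
    (h₃ : x₃ • ζ ∈ P.Bc θ T n) : b • ζ ∈ P.Bc θ T n := by
  obtain ⟨ψ₁, c₁, e₁⟩ := h₁
  obtain ⟨ψ₂, c₂, e₂⟩ := h₂
  obtain ⟨ψ₃, c₃, e₃⟩ := h₃
  have two : ∀ {x x' : L} {ψ ψ' : Fin P.b0 → L}, Mul x 0 T T → Mul x' 0 T T → CV P.a0 T n ψ →
      CV P.a0 T n ψ' → ψ ᵥ* P.D0.map θ = x • ζ → ψ' ᵥ* P.D0.map θ = x' • ζ →
      ∃ y : L, CV P.a0 T n (y • P.g) ∧ x' • ψ - x • ψ' = y • P.g := by
    intro x x' ψ ψ' m m' c c' e e'
    obtain ⟨y, hy⟩ := rank_one hb (ψ := x' • ψ - x • ψ') (by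
      rw [sub_vecMul, smul_vecMul, smul_vecMul, e, e', smul_comm, sub_self])
    refine ⟨y, fun i => ?_, hy⟩
    rw [← hy]
    have h1 := c.smul m' i
    have h2 := c'.smul m i
    rw [add_zero] at h1 h2
    exact sub_mem h1 h2
  by_cases g0 : P.g = 0
  · obtain ⟨y, -, hy⟩ := two m₁ m₂ c₁ c₂ e₁ e₂
    rw [g0, smul_zero, sub_eq_zero] at hy
    refine ⟨(b / x₁) • ψ₁, fun i => pair _ _ ?_ ?_, ?_⟩
    · have := c₁.smul mb i
      rw [add_zero] at this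
      convert this using 1
      simp only [Pi.smul_apply, smul_eq_mul]; field_simp
    · have := c₂.smul mb i
      rw [add_zero] at this
      convert this using 1
      have := congrFun hy i
      simp only [Pi.smul_apply, smul_eq_mul] at this ⊢
      field_simp
      linear_combination b * this
    · rw [smul_vecMul, e₁, smul_smul, div_mul_cancel₀ _ x0]
  obtain ⟨i₀, hi⟩ := Function.ne_iff.1 g0
  replace hi : P.g i₀ ≠ 0 := hi
  obtain ⟨y, cy, hy⟩ := two m₁ m₂ c₁ c₂ e₁ e₂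
  obtain ⟨y₁, cy₁, hy₁⟩ := two m₁ m₃ c₁ c₃ e₁ e₃
  obtain ⟨y₂, cy₂, hy₂⟩ := two m₂ m₃ c₂ c₃ e₂ e₃
  obtain ⟨w₁, w₂, cw₁, cw₂, hw⟩ := hβ y y₁ y₂ cy cy₁ cy₂ (by
    have h1 := congrFun hy i₀
    have h2 := congrFun hy₁ i₀
    have h3 := congrFun hy₂ i₀
    simp only [Pi.sub_apply, Pi.smul_apply, smul_eq_mul] at h1 h2 h3
    refine mul_right_cancel₀ hi ?_
    linear_combination -x₃ * h1 + x₂ * h2 - x₁ * h3)
  refine ⟨x₁⁻¹ • (b • ψ₁ - w₁ • P.g), fun i => pair _ _ ?_ ?_, ?_⟩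
  · have h1 := c₁.smul mb i
    rw [add_zero] at h1
    convert sub_mem h1 (cw₁ i) using 1
    simp only [Pi.sub_apply, Pi.smul_apply, smul_eq_mul]; field_simp
  · have h1 := c₂.smul mb i
    rw [add_zero] at h1
    convert sub_mem h1 (cw₂ i) using 1
    have h2 := congrFun hy i
    simp only [Pi.sub_apply, Pi.smul_apply, smul_eq_mul] at h2 ⊢
    field_simp
    linear_combination b * h2 + P.g i * hw
  · rw [smul_vecMul, sub_vecMul, smul_vecMul, smul_vecMul, e₁, P.gD, smul_zero, sub_zero, smul_smul,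
      smul_smul]
    congr 1; field_simp

end Pres

end

end Pool.Agent.Lib.MP_62d77c_ag.R
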