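import Pool.Agent.Lib.MP_62d77c_ag.R.Mo

/-! Graded modules: homogeneous maps, short exact sequences, vanishing at a point. -/

set_option autoImplicit false
set_option linter.unusedSectionVars false
set_option linter.unusedVariables false

namespace Pool.Agent.Lib.MP_62d77c_ag.R

open Filter Polynomial Submodule
open scoped TensorProduct Matrix

noncomputable section

variable {A : Type} [CommRing A] [IsDomain A] {𝒜 : ℕ → AddSubgroup A} [GradedRing 𝒜]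
  [hG : Fact (Gen 𝒜)] {p : ℕ} [Fact p.Prime] {N N' N₁ N₂ N₃ : GM 𝒜}

theorem IsHom.pj {d : ℤ} {f : N.M →ₗ[A] N'.M} (hf : IsHom N N' d f) (n : ℤ) (m : N.M) :
    N'.pj (n + d) (f m) = f (N.pj n m) := by
  induction m using N.ind with
  | h0 => simp
  | hadd x y h1 h2 => simp only [map_add, h1, h2]
  | h k m hm =>
    by_cases e : k = n
    · subst e; rw [N.pj_same hm, N'.pj_same (hf _ _ hm)]
    · rw [N.pj_ne hm e, N'.pj_ne (hf _ _ hm) (by omega), map_zero]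

theorem IsHom.hg_comap {d : ℤ} {f : N.M →ₗ[A] N'.M} (hf : IsHom N N' d f) {Z : Submodule A N'.M}
    (hZ : N'.Hg Z) : N.Hg (Z.comap f) := fun n m hm => by
  rw [Submodule.mem_comap, ← hf.pj]; exact hZ _ _ hm

theorem IsHom.hg_map {d : ℤ} {f : N.M →ₗ[A] N'.M} (hf : IsHom N N' d f) {Z : Submodule A N.M}
    (hZ : N.Hg Z) : N'.Hg (Z.map f) := by
  rintro n _ ⟨m, hm, rfl⟩
  exact ⟨N.pj (n - d) m, hZ _ _ hm, by rw [← hf.pj, sub_add_cancel]⟩

theorem hg_bot (N : GM 𝒜) : N.Hg ⊥ := fun n m hm => by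
  rw [(mem_bot A).1 hm, map_zero]; exact zero_mem _

theorem hg_top (N : GM 𝒜) : N.Hg ⊤ := fun _ _ _ => mem_top

theorem hg_core (N : GM 𝒜) (Z : Submodule A N.M) : N.Hg (N.core Z) := fun n _ hm => N.pj_core hm n

theorem IsHom.hg_ker {d : ℤ} {f : N.M →ₗ[A] N'.M} (hf : IsHom N N' d f) :
    N.Hg (LinearMap.ker f) := hf.hg_comap (hg_bot N')

theorem IsHom.hg_range {d : ℤ} {f : N.M →ₗ[A] N'.M} (hf : IsHom N N' d f) :
    N'.Hg (LinearMap.range f) := LinearMap.range_eq_map f ▸ hf.hg_map (hg_top N)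

theorem IsHom.lift {d : ℤ} {f : N.M →ₗ[A] N'.M} (hf : IsHom N N' d f) {n : ℤ} {m' : N'.M}
    (h : m' ∈ N'.g (n + d)) (h' : m' ∈ LinearMap.range f) : ∃ m ∈ N.g n, f m = m' := by
  obtain ⟨m, rfl⟩ := h'
  exact ⟨N.pj n m, N.pj_mem n m, by rw [← hf.pj, N'.pj_same h]⟩

theorem IsHom.comp {d d' : ℤ} {f : N₁.M →ₗ[A] N₂.M} {g : N₂.M →ₗ[A] N₃.M} (hg : IsHom N₂ N₃ d' g)
    (hf : IsHom N₁ N₂ d f) : IsHom N₁ N₃ (d + d') (g ∘ₗ f) := fun n m hm =>
  add_assoc n d d' ▸ hg _ _ (hf n m hm)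

theorem isHom_mact (N : GM 𝒜) {β γ : Type} [Fintype β] [Fintype γ] {a : β → ℤ} {a' : γ → ℤ} {d : ℤ}
    {D : Matrix β γ A} (hD : ∀ i j, D i j ∈ Az 𝒜 (a' j - a i + d)) :
    IsHom (N.pw a') (N.pw a) d (mact N.M D) := fun n m hm => N.mem_pw.2 fun i =>
  sum_mem fun j _ => by
    have := N.smul (hD i j) (N.mem_pw.1 hm j)
    rwa [show n - a' j + (a' j - a i + d) = n + d - a i by ring] at this

theorem hg_one {I : Ideal A} (h : I.IsHomogeneous 𝒜) : (one 𝒜).Hg I := fun n m hm => by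
  change (if 0 ≤ n then GradedRing.proj 𝒜 n.toNat else 0) m ∈ I
  split_ifs
  · exact h _ hm
  · exact zero_mem _

theorem hg_span {s : Set N.M} (h : ∀ m ∈ s, ∃ n, m ∈ N.g n) : N.Hg (span A s) := fun n _ hm =>
  (show span A s ≤ N.core (span A s) from span_le.2 fun m hm =>
    let ⟨_, hk⟩ := h m hm
    (N.mem_core_of_mem_g hk).2 (subset_span hm)) hm n

theorem isHom_subtype (N : GM 𝒜) (Z : Submodule A N.M) : IsHom (N.sub Z) N 0 (N.core Z).subtype :=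
  fun n _ hm => (add_zero n).symm ▸ hm

theorem isHom_mkQ (N : GM 𝒜) (Z : Submodule A N.M) : IsHom N (N.quot Z) 0 (N.core Z).mkQ :=
  fun n m hm => (add_zero n).symm ▸ ⟨m, hm, rfl⟩

theorem ses_sub_quot (N : GM 𝒜) (Z : Submodule A N.M) : SES (N.sub Z) N (N.quot Z) :=
  ⟨_, _, isHom_subtype N Z, isHom_mkQ N Z, (N.core Z).injective_subtype,
    LinearMap.exact_subtype_mkQ _, (N.core Z).mkQ_surjective⟩

theorem mem_core_sub {B Z : Submodule A N.M} (hB : N.Hg B) (m : (N.sub Z).M) :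
    m ∈ (N.sub Z).core (B.comap (N.core Z).subtype) ↔ (N.core Z).subtype m ∈ B := by
  rw [(N.sub Z).core_eq ((isHom_subtype N Z).hg_comap hB)]; rfl

theorem ses_sq (N : GM 𝒜) {B W Z : Submodule A N.M} (hB : N.Hg B) (hW : N.Hg W) (hZ : N.Hg Z)
    (h1 : B ≤ W) (h2 : W ≤ Z) : SES (N.sq W B) (N.sq Z B) (N.sq Z W) := by
  have le : N.core W ≤ N.core Z := fun m hm n => h2 (hm n)
  let i : (N.sub W).M →ₗ[A] (N.sub Z).M := inclusion le
  refine ⟨mapQ _ _ i fun m hm => (mem_core_sub hB _).2 ((mem_core_sub hB m).1 hm),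
    mapQ _ _ LinearMap.id fun m hm => (mem_core_sub hW _).2 (h1 ((mem_core_sub hB m).1 hm)),
    ?_, ?_, ?_, fun x => ?_, fun x => ?_⟩
  · rintro n _ ⟨m, hm, rfl⟩
    exact (add_zero n).symm ▸ ⟨i m, hm, rfl⟩
  · rintro n _ ⟨m, hm, rfl⟩
    exact (add_zero n).symm ▸ ⟨m, hm, rfl⟩
  · refine (injective_iff_map_eq_zero _).2 fun x hx => ?_
    obtain ⟨m, rfl⟩ := mkQ_surjective _ x
    exact (Quotient.mk_eq_zero _).2 ((mem_core_sub hB m).2
      ((mem_core_sub hB (i m)).1 ((Quotient.mk_eq_zero _).1 hx)))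
  · obtain ⟨m, rfl⟩ := mkQ_surjective _ x
    constructor
    · intro hx
      have := (mem_core_sub hW m).1 ((Quotient.mk_eq_zero _).1 hx)
      exact ⟨mkQ _ (show (N.sub W).M from ⟨m.1, (N.core_eq hW).ge this⟩), rfl⟩
    · rintro ⟨y, hy⟩
      obtain ⟨w, rfl⟩ := mkQ_surjective _ y
      rw [← hy]
      exact (Quotient.mk_eq_zero _).2 ((mem_core_sub hW (i w)).2 (N.core_le W w.2))
  · obtain ⟨m, rfl⟩ := mkQ_surjective _ x
    exact ⟨mkQ _ m, rfl⟩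

theorem IsHom.sh {d : ℤ} {f : N.M →ₗ[A] N'.M} (hf : IsHom N N' d f) (a : ℤ) :
    IsHom (N.sh a) (N'.sh a) d f := fun n m hm => by
  have := hf _ m hm
  rwa [add_right_comm] at this

theorem SES.sh (h : SES N₁ N₂ N₃) (a : ℤ) : SES (N₁.sh a) (N₂.sh a) (N₃.sh a) :=
  let ⟨f, g, h1, h2, h3⟩ := h
  ⟨f, g, h1.sh a, h2.sh a, h3⟩

theorem SES.fb (h : SES N₁ N₂ N₃) (h2 : N₂.Fb p) : N₁.Fb p ∧ N₃.Fb p := by
  obtain ⟨f, g, -, -, i, -, s⟩ := h
  refine ⟨fun m => i (by rw [map_smul, h2, map_zero]), fun m => ?_⟩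
  obtain ⟨m, rfl⟩ := s m
  rw [← map_smul, h2, map_zero]

theorem SES.zeroAt (h : SES N₁ N₂ N₃) (y : Pt 𝒜) : N₂.ZeroAt y ↔ N₁.ZeroAt y ∧ N₃.ZeroAt y := by
  obtain ⟨f, g, -, -, i, e, s⟩ := h
  refine ⟨fun h => ⟨fun m => ?_, fun m => ?_⟩, fun h m => ?_⟩
  · obtain ⟨k, t, t1, t2, t3⟩ := h (f m)
    exact ⟨k, t, t1, t2, i (by rw [map_smul, t3, map_zero])⟩
  · obtain ⟨m, rfl⟩ := s m
    obtain ⟨k, t, t1, t2, t3⟩ := h m
    exact ⟨k, t, t1, t2, by rw [← map_smul, t3, map_zero]⟩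
  · obtain ⟨k, t, t1, t2, t3⟩ := h.2 (g m)
    obtain ⟨w, hw⟩ := (e (t • m)).1 (by rw [map_smul, t3])
    obtain ⟨l, u, u1, u2, u3⟩ := h.1 w
    exact ⟨l + k, u * t, SetLike.mul_mem_graded u1 t1,
      fun h => (y.isPrime.mem_or_mem h).elim u2 t2, by rw [mul_smul, ← hw, ← map_smul, u3, map_zero]⟩

theorem SES.dimLt (h : SES N₁ N₂ N₃) (s : ℕ) : N₂.DimLt p s ↔ N₁.DimLt p s ∧ N₃.DimLt p s :=
  ⟨fun k => ⟨fun y hy => ((h.zeroAt y.1).1 (k y hy)).1, fun y hy => ((h.zeroAt y.1).1 (k y hy)).2⟩,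
    fun k y hy => (h.zeroAt y.1).2 ⟨k.1 y hy, k.2 y hy⟩⟩

theorem fb_cy {I : Ideal A} (h : (p : A) ∈ I) : (cy 𝒜 I).Fb p := fun m => by
  obtain ⟨a, rfl⟩ := ((one 𝒜).core I).mkQ_surjective m
  refine (map_smul ((one 𝒜).core I).mkQ _ _).symm.trans ((Quotient.mk_eq_zero _).2 ?_)
  have : (show (one 𝒜).M from (p : A)) ∈ (one 𝒜).core I :=
    ((one 𝒜).mem_core_of_mem_g (n := (0 : ℕ)) (by
      change (p : A) ∈ Az 𝒜 (0 : ℕ)
      rw [Az_nat]; exact SetLike.natCast_mem_graded _ p)).2 h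
  exact Ideal.mul_mem_right (show A from a) (show Ideal A from (one 𝒜).core I) this

theorem fb_gm (X : Mo 𝒜 p) {F : X.Fa} (h : X.FF F) : (X.gm F h).Fb p := fun m => by
  refine Subtype.ext (show X.cone (p : A) * (show X.L[X] from m.1) = 0 from ?_)
  rw [map_natCast, ← C_eq_natCast, ← map_natCast (algebraMap (ZMod p) X.L), ZMod.natCast_self,
    map_zero, map_zero, zero_mul]

theorem zeroAt_cy {I : Ideal A} (h : I.IsHomogeneous 𝒜) (y : Pt 𝒜) :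
    (cy 𝒜 I).ZeroAt y ↔ ¬I ≤ pr y := by
  have c : ∀ a : A, ((one 𝒜).core I).mkQ a = 0 ↔ a ∈ I := fun a =>
    (Quotient.mk_eq_zero _).trans (by rw [(one 𝒜).core_eq (hg_one h)]; rfl)
  refine ⟨fun k le => ?_, fun k m => ?_⟩
  · obtain ⟨_, t, -, t2, t3⟩ := k (((one 𝒜).core I).mkQ (1 : A))
    have := (c _).1 ((map_smul ((one 𝒜).core I).mkQ t (1 : A)).trans t3)
    exact t2 (le (by simpa using this))
  · obtain ⟨a, rfl⟩ := ((one 𝒜).core I).mkQ_surjective m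
    obtain ⟨n, t, t1, t2, t3⟩ : ∃ n, ∃ t ∈ 𝒜 n, t ∉ pr y ∧ t ∈ I := by
      by_contra hh
      refine k fun a ha => ?_
      classical
      rw [← DirectSum.sum_support_decompose 𝒜 a]
      exact sum_mem fun n _ => by_contra fun e =>
        hh ⟨n, _, (DirectSum.decompose 𝒜 a n).2, e, h n ha⟩
    exact ⟨n, t, t1, t2, (map_smul ((one 𝒜).core I).mkQ t a).symm.trans
      ((c _).2 (I.mul_mem_right (show A from a) t3))⟩

end

end Pool.Agent.Lib.MP_62d77c_ag.R
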