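import Pool.Agent.Lib.MP_62d77c_ag.R.ET1
import Pool.Agent.Lib.MP_62d77c_ag.R.GmA
import Pool.Agent.Lib.MP_62d77c_ag.R.St

/-! Graded modules realised in a field; `Ext¹` through cocycles with values in a field. -/

set_option autoImplicit false
set_option linter.unusedSectionVars false

namespace Pool.Agent.Lib.MP_62d77c_ag.R

open Matrix Polynomial

noncomputable section

variable {A : Type} [CommRing A] [IsDomain A] {𝒜 : ℕ → AddSubgroup A} [GradedRing 𝒜]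
  [hG : Fact (Gen 𝒜)] {p : ℕ} [Fact p.Prime] {L L' : Type} [Field L] [Field L']

/-- `v` identifies the graded pieces of `N` with the family `S` -/
structure Rl (N : GM 𝒜) (θ : A →+* L) (S : ℤ → AddSubgroup L) (v : N.M →+ L) : Prop where
  smul : ∀ (a : A) m, v (a • m) = θ a * v m
  mem : ∀ n, ∀ m ∈ N.g n, v m ∈ S n
  inj : ∀ n, ∀ m ∈ N.g n, v m = 0 → m = 0
  surj : ∀ n, ∀ z ∈ S n, ∃ m ∈ N.g n, v m = z

variable {N N' : GM 𝒜} {θ : A →+* L} {θ' : A →+* L'} {S : ℤ → AddSubgroup L}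
  {T : ℤ → AddSubgroup L'} {v : N.M →+ L} {v' : N'.M →+ L'}

theorem Rl.stb (h : Rl N θ S v) : Stb 𝒜 θ S := fun i n a z ha hz => by
  obtain ⟨m, hm, rfl⟩ := h.surj n z hz
  exact h.smul a m ▸ h.mem _ _ (N.smul ha hm)

theorem Rl.mact (h : Rl N θ S v) {β γ : Type} [Fintype β] (D : Matrix β γ A) (c : β → N.M) :
    v ∘ mact N.M Dᵀ c = (v ∘ c) ᵥ* D.map θ := funext fun j => by
  simp [mact_apply, map_sum, h.smul, vecMul, dotProduct, mul_comm]

theorem Rl.lc (h : Rl N θ S v) {β : Type} [Fintype β] (g : β → N.M) (c : β → A) :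
    v (Fintype.linearCombination A g c) = (v ∘ g) ⬝ᵥ (θ ∘ c) := by
  simp [Fintype.linearCombination_apply, map_sum, h.smul, dotProduct, mul_comm]

theorem et5_lc (R : Res N) :
    IsHom ((one 𝒜).pw (R.a 0)) N 0 (Fintype.linearCombination A R.gen) := fun n c hc => by
  change Fintype.linearCombination A R.gen (show Fin (R.b 0) → A from c) ∈ _
  rw [Fintype.linearCombination_apply]
  refine sum_mem fun i _ => ?_
  have := N.smul (((one 𝒜).mem_pw.1 hc) i) (R.hgen i)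
  rwa [show R.a 0 i + (n - R.a 0 i) = n + 0 by ring] at this

theorem et5_D (R : Res N) (q : ℕ) :
    IsHom ((one 𝒜).pw (R.a (q + 1))) ((one 𝒜).pw (R.a q)) 0 (mact A (R.D q)) :=
  isHom_mact (one 𝒜) fun i j => by simpa using R.hD q i j

/-- the presentation given by a resolution -/
def Rl.pres (h : Rl N θ S v) (R : Res N) : Pres 𝒜 θ S where
  b0 := R.b 0
  b1 := R.b 1
  b2 := R.b 2
  a0 := R.a 0
  a1 := R.a 1
  a2 := R.a 2
  g := v ∘ R.gen
  D0 := R.D 0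
  D1 := R.D 1
  hg i := h.mem _ _ (R.hgen i)
  hD0 i j := by simpa using R.hD 0 i j
  hD1 i j := by simpa using R.hD 1 i j
  gD := funext fun j => by
    have := congrArg v (R.ex0.apply_apply_eq_zero (Pi.single j 1))
    rw [h.lc, map_zero] at this
    refine Eq.trans ?_ this
    simp [vecMul, dotProduct, mact_apply, Pi.single_apply]
  DD := st_DD R 0
  p0 n z hz := by
    obtain ⟨m, hm, rfl⟩ := h.surj n z hz
    obtain ⟨c, hc, rfl⟩ := (et5_lc R).lift (n := n) (by rwa [add_zero]) (R.surj m)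
    exact ⟨c, (one 𝒜).mem_pw.1 hc, (h.lc _ _).symm⟩
  p1 n c hc h0 := by
    have h1 := (one 𝒜).mem_pw.2 hc
    have h2 := h.inj _ _ (et5_lc R n c h1) ((h.lc _ _).trans h0)
    obtain ⟨w, hw, e⟩ := (et5_D R 0).lift (n := n) (by rwa [add_zero]) ((R.ex0 c).1 h2)
    exact ⟨w, (one 𝒜).mem_pw.1 hw, e⟩
  p2 n c hc h0 := by
    have h1 := (one 𝒜).mem_pw.2 hc
    obtain ⟨w, hw, e⟩ := (et5_D R 1).lift (n := n) (by rwa [add_zero]) ((R.ex 0 c).1 h0)
    exact ⟨w, (one 𝒜).mem_pw.1 hw, e⟩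

theorem Rl.mem_pw (h : Rl N' θ' T v') {β : Type} [Fintype β] {a : β → ℤ} {n : ℤ} {c : β → N'.M}
    (hc : c ∈ (N'.pw (-a)).g n) : CV a T n (v' ∘ c) := fun i =>
  h.mem _ _ (by simpa using N'.mem_pw.1 hc i)

theorem Rl.surj_pw (h : Rl N' θ' T v') {β : Type} [Fintype β] {a : β → ℤ} {n : ℤ} {φ : β → L'}
    (hφ : CV a T n φ) : ∃ c : β → N'.M, c ∈ (N'.pw (-a)).g n ∧ v' ∘ c = φ := by
  choose c h1 h2 using fun i => h.surj _ _ (hφ i)
  exact ⟨c, N'.mem_pw.2 fun i => by simpa using h1 i, funext h2⟩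

theorem Rl.inj_pw (h : Rl N' θ' T v') {β : Type} [Fintype β] {a : β → ℤ} {n : ℤ} {c : β → N'.M}
    (hc : c ∈ (N'.pw a).g n) (h0 : v' ∘ c = 0) : c = 0 :=
  funext fun i => h.inj _ _ (N'.mem_pw.1 hc i) (congrFun h0 i)

theorem ext_real (h : Rl N θ S v) (h' : Rl N' θ' T v') (R : Res N) :
    ∃ (C : GM 𝒜) (mk : C.M →ₗ[A] (R.Ext N' 1).M) (w : C.M →+ (Fin (R.b 1) → L')),
      (∀ n e, e ∈ (R.Ext N' 1).g n ↔ ∃ c ∈ C.g n, mk c = e) ∧
      (∀ n, ∀ c ∈ C.g n, w c ∈ (h.pres R).Zc θ' T n) ∧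
      (∀ n, ∀ φ ∈ (h.pres R).Zc θ' T n, ∃ c ∈ C.g n, w c = φ) ∧
      (∀ n, ∀ c ∈ C.g n, mk c = 0 ↔ w c ∈ (h.pres R).Bc θ' T n) ∧
      ∀ (a : A) c, w (a • c) = θ' a • w c := by
  have h0 := st_hom_tr R N' 0
  have h1 := st_hom_tr R N' 1
  let Z : Submodule A (N'.pw (-R.a 1)).M := LinearMap.ker (mact N'.M (R.D 1)ᵀ)
  let w : ((N'.pw (-R.a 1)).sub Z).M →+ (Fin (R.b 1) → L') :=
    { toFun := fun c => v' ∘ (show Fin (R.b 1) → N'.M from c.1)
      map_zero' := funext fun _ => map_zero v'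
      map_add' := fun a b => funext fun _ => map_add v' _ _ }
  refine ⟨(N'.pw (-R.a 1)).sub Z, Submodule.mkQ _, w, fun n e => Iff.rfl, fun n c hc => ⟨h'.mem_pw hc, ?_⟩,
    fun n φ hφ => ?_, fun n c hc => ?_, fun a c => funext fun j => h'.smul a _⟩
  · have : mact N'.M (R.D 1)ᵀ c.1 = 0 := GM.core_le _ Z c.2
    refine (h'.mact (R.D 1) c.1).symm.trans ?_
    rw [this]; exact funext fun _ => map_zero v'
  · obtain ⟨c, hc, rfl⟩ := h'.surj_pw hφ.1
    refine ⟨⟨c, ((N'.pw (-R.a 1)).mem_core_of_mem_g hc).2 ?_⟩, hc, rfl⟩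
    exact h'.inj_pw (h1 n c hc) ((h'.mact (R.D 1) c).trans hφ.2)
  · refine (Submodule.Quotient.mk_eq_zero _).trans ((mem_core_sub h0.hg_range c).trans ⟨fun hb => ?_, ?_⟩)
    · obtain ⟨d, hd, e⟩ := h0.lift (n := n) (m' := c.1) (by rw [add_zero]; exact hc) hb
      exact ⟨v' ∘ d, h'.mem_pw hd, (h'.mact (R.D 0) d).symm.trans (congrArg (v' ∘ ·) e)⟩
    · rintro ⟨ψ, h2, h3⟩
      obtain ⟨d, hd, rfl⟩ := h'.surj_pw h2
      refine ⟨d, sub_eq_zero.1 (h'.inj_pw (a := -R.a 1) (n := n) (sub_mem (by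
        have := h0 n d hd; rwa [add_zero] at this) hc) (funext fun j => ?_))⟩
      have := congrFun ((h'.mact (R.D 0) d).trans h3) j
      exact (map_sub v' _ _).trans (sub_eq_zero.2 this)

theorem et5_fb (R : Res N) (h : N'.Fb p) : (R.Ext N' 1).Fb p :=
  ((ses_sub_quot _ _).fb ((ses_sub_quot (N'.pw (-R.a 1)) _).fb
    fun m => funext fun i => h (m i)).1).2

theorem et5_card_sub (N : GM 𝒜) (Z : Submodule A N.M) (n : ℤ) :
    Nat.card ((N.sub Z).g n) = Nat.card {m // m ∈ N.g n ∧ m ∈ Z} :=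
  Nat.card_congr
    { toFun := fun m => ⟨m.1.1, m.2, N.core_le Z m.1.2⟩
      invFun := fun m => ⟨⟨m.1, (N.mem_core_of_mem_g m.2.1).2 m.2.2⟩, m.2.1⟩
      left_inv := fun _ => rfl
      right_inv := fun _ => rfl }

namespace Mo

variable (X : Mo 𝒜 p)

/-- a family indexed by the integers -/
def FZ (F : X.Fa) (n : ℤ) : AddSubgroup X.L := if 0 ≤ n then (F n.toNat).toAddSubgroup else ⊥

theorem FZ_nat (F : X.Fa) (n : ℕ) : X.FZ F n = (F n).toAddSubgroup := by simp [FZ]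

theorem FZ_cases {F : X.Fa} {n : ℤ} {z : X.L} (h : z ∈ X.FZ F n) :
    z = 0 ∨ ∃ k : ℕ, n = k ∧ z ∈ F k := by
  rcases lt_or_ge n 0 with h0 | h0
  · rw [FZ, if_neg (by omega)] at h; exact Or.inl h
  · obtain ⟨k, rfl⟩ := Int.eq_ofNat_of_zero_le h0
    exact Or.inr ⟨k, rfl, by rwa [FZ_nat] at h⟩

theorem mem_FZ {F : X.Fa} {n : ℕ} {z : X.L} : z ∈ X.FZ F n ↔ z ∈ F n := by rw [FZ_nat]; rfl

theorem exists_rl {F : X.Fa} (h : X.FF F) : ∃ v, Rl (X.gm F h) X.θ (X.FZ F) v := by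
  let ev : X.Cn →+* X.L := evalRingHom 1
  have e1 : ∀ n z, ev (X.mon n z) = z := fun n z => by
    change eval 1 (monomial n z) = z
    simp
  have e2 : ∀ a : A, ev (algebraMap A X.Cn a) = X.θ a := fun a => by
    induction a using hom_ind (𝒜 := 𝒜) with
    | h0 => simp
    | hadd x y h1 h2 => rw [map_add, map_add, map_add, h1, h2]
    | h i a ha => exact (congrArg ev (X.cone_hom ha)).trans (e1 i _)
  refine ⟨ev.toAddMonoidHom.comp (X.gmS F h.st).subtype.toAddMonoidHom, fun a m => ?_,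
    fun n m hm => ?_, fun n m hm h0 => ?_, fun n z hz => ?_⟩
  · change ev (a • m.1) = _ * ev m.1
    rw [Algebra.smul_def, map_mul, e2]
  · rcases st_mem_gm' X h hm with rfl | ⟨k, rfl, z, hz, rfl⟩
    · rw [map_zero]; exact zero_mem _
    · exact X.mem_FZ.2 ((e1 k z).symm ▸ hz :)
  · rcases st_mem_gm' X h hm with rfl | ⟨k, rfl, z, hz, rfl⟩
    · rfl
    · obtain rfl : z = 0 := (e1 k z).symm.trans h0
      exact Subtype.ext (X.mon_zero k)
  · rcases X.FZ_cases hz with rfl | ⟨k, rfl, hz⟩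
    · exact ⟨0, zero_mem _, map_zero _⟩
    · exact ⟨_, st_mon_g X h hz, e1 k z⟩

end Mo

end

end Pool.Agent.Lib.MP_62d77c_ag.R
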