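import Pool.Agent.Lib.MP_62d77c_ag.R.K1c

/-! The intersection polynomial: symmetry, additivity, twists, vanishing. -/

set_option autoImplicit false
set_option linter.unusedSectionVars false
set_option linter.style.haveILetI false
set_option linter.unusedVariables false

namespace Pool.Agent.Lib.MP_62d77c_ag.R

open Filter Polynomial Submodule
open scoped TensorProduct Matrix

noncomputable section

section swap
variable {R : Type} [CommRing R] {M : Type} [AddCommGroup M] [Module R M] {β γ : Type} [Fintype β]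

/-- contraction with generators -/
def k1Phi (g : β → M) (δ : Type) : (β → δ → R) →ₗ[R] (δ → M) where
  toFun v j := ∑ i, v i j • g i
  map_add' v w := funext fun j => by simp [add_smul, Finset.sum_add_distrib]
  map_smul' c v := funext fun j => by simp [Finset.smul_sum, mul_smul]

theorem k1Phi_surj {g : β → M} (hs : Function.Surjective (Fintype.linearCombination R g))
    (δ : Type) : Function.Surjective (k1Phi (R := R) g δ) := fun m => by
  choose w hw using fun j => hs (m j)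
  exact ⟨fun i j => w j i, funext hw⟩

theorem k1Phi_zero [Fintype γ] {g : β → M} {D : Matrix β γ R}
    (h : Function.Exact (mact R D) (Fintype.linearCombination R g)) {δ : Type} (v : β → δ → R) :
    k1Phi g δ v = 0 ↔ v ∈ LinearMap.range (mact (δ → R) D) := by
  constructor
  · intro hv
    choose w hw using fun j => (h fun i => v i j).1 (congrFun hv j)
    refine ⟨fun l j => w j l, funext fun i => funext fun j => ?_⟩
    simpa [mact_apply] using congrFun (hw j) i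
  · rintro ⟨w, rfl⟩
    funext j
    refine Eq.trans ?_ (h.apply_apply_eq_zero fun l => w l j)
    simp [k1Phi, mact_apply, Fintype.linearCombination_apply]

theorem k1Phi_mact (g : β → M) {δ ε : Type} [Fintype ε] (D : Matrix δ ε R) (u : β → ε → R) :
    k1Phi g δ (fun i => mact R D (u i)) = mact M D (k1Phi g ε u) := by
  funext j
  simp only [k1Phi, mact_apply, LinearMap.coe_mk, AddHom.coe_mk, smul_eq_mul, Finset.sum_smul,
    Finset.smul_sum, mul_smul]
  exact Finset.sum_comm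

theorem k1_swap [Fintype γ] {g : β → M} {D : Matrix β γ R}
    (hs : Function.Surjective (Fintype.linearCombination R g))
    (h : Function.Exact (mact R D) (Fintype.linearCombination R g)) {δ ε : Type} [Fintype ε]
    (E : Matrix δ ε R) {G : Type} [AddCommGroup G] [Module R G] {π : (δ → R) →ₗ[R] G}
    (hπ : Function.Surjective π) (hE : Function.Exact (mact R E) π) (v : β → δ → R) :
    (fun i => π (v i)) ∈ LinearMap.range (mact G D) ↔
      k1Phi g δ v ∈ LinearMap.range (mact M E) := by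
  constructor
  · rintro ⟨t, ht⟩
    choose w hw using fun l => hπ (t l)
    have h1 : ∀ i, π (v i - mact (δ → R) D w i) = 0 := fun i => by
      rw [map_sub, ← congrFun (k1_mact_nat D π w) i, ← congrFun ht i, funext hw, sub_self]
    choose u hu using fun i => (hE _).1 (h1 i)
    refine ⟨k1Phi g ε u, ?_⟩
    rw [← k1Phi_mact, funext hu]
    have : (fun i => v i - mact (δ → R) D w i) = v - mact (δ → R) D w := rfl
    rw [this, map_sub, (k1Phi_zero h _).2 ⟨w, rfl⟩, sub_zero]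
  · rintro ⟨t, ht⟩
    obtain ⟨u, rfl⟩ := k1Phi_surj hs ε t
    rw [← k1Phi_mact, eq_comm, ← sub_eq_zero, ← map_sub, k1Phi_zero h] at ht
    obtain ⟨w, hw⟩ := ht
    refine ⟨fun l => π (w l), ?_⟩
    rw [k1_mact_nat, hw]
    funext i
    rw [Pi.sub_apply, map_sub, hE.apply_apply_eq_zero, sub_zero]

end swap

variable {A : Type} [CommRing A] [IsDomain A] {𝒜 : ℕ → AddSubgroup A} [GradedRing 𝒜]
  [hG : Fact (Gen 𝒜)] {p : ℕ} [Fact p.Prime] {N N' N₁ N₂ N₃ : GM 𝒜}

theorem k1Phi_isHom {β δ : Type} [Fintype β] [Fintype δ] {a : β → ℤ} {g : β → N.M}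
    (hg : ∀ i, g i ∈ N.g (a i)) (c : δ → ℤ) :
    IsHom (((one 𝒜).pw c).pw a) (N.pw c) 0 (k1Phi (R := A) g δ) := by
  intro n (v : β → δ → A) hv j _
  change ∑ i, v i j • g i ∈ N.g (n + 0 - c j)
  refine sum_mem fun i _ => ?_
  have := N.smul (hv i trivial j trivial) (hg i)
  rwa [show a i + (n - a i - c j) = n + 0 - c j by ring] at this

theorem k1_isHom_mk (N : GM 𝒜) (Z : Submodule A N.M) : IsHom N (N.quot Z) 0 (N.core Z).mkQ :=
  fun n m hm => ⟨m, by rwa [add_zero], rfl⟩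

theorem k1_isHom_comp {f : N₁.M →ₗ[A] N₂.M} {g : N₂.M →ₗ[A] N₃.M} (hf : IsHom N₁ N₂ 0 f)
    (hg : IsHom N₂ N₃ 0 g) : IsHom N₁ N₃ 0 (g ∘ₗ f) :=
  fun n m hm => hg n _ (add_zero n ▸ hf n m hm)

theorem k1_mk_zero {Z : Submodule A N.M} (hZ : N.Hg Z) (m : N.M) :
    (N.core Z).mkQ m = 0 ↔ m ∈ Z :=
  (Submodule.Quotient.mk_eq_zero _).trans (by rw [N.core_eq hZ])

theorem k1_ses_cok {F₂ F₁ F₀ : GM 𝒜} {d : F₂.M →ₗ[A] F₁.M} {e : F₁.M →ₗ[A] F₀.M}
    {g : F₀.M →ₗ[A] N.M} (hd : IsHom F₂ F₁ 0 d) (he : IsHom F₁ F₀ 0 e) (hg : IsHom F₀ N 0 g)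
    (h1 : Function.Exact d e) (h0 : Function.Exact e g) (hs : Function.Surjective g) :
    SES (F₁.quot (LinearMap.range d)) F₀ N := by
  have hc : F₁.core (LinearMap.range d) = LinearMap.ker e :=
    (F₁.core_eq hd.hg_range).trans (LinearMap.exact_iff.1 h1).symm
  refine ⟨(F₁.core _).liftQ e hc.le, g, ?_, hg, ?_, ?_, hs⟩
  · rintro n _ ⟨m, hm, rfl⟩; exact he n m hm
  · exact LinearMap.ker_eq_bot.1 (Submodule.ker_liftQ_eq_bot _ _ _ hc.ge)
  · refine fun m => (h0 m).trans ⟨fun ⟨v, hv⟩ => ⟨(F₁.core _).mkQ v, hv⟩, fun ⟨t, ht⟩ => ?_⟩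
    obtain ⟨v, rfl⟩ := (F₁.core _).mkQ_surjective t
    exact ⟨v, ht⟩

theorem k1_hp_zero (h : ∀ m : N.M, (1 : A) • m = 0) : N.hp p = 0 :=
  hp_zero (Eventually.of_forall fun n => eq_bot_iff.2 fun m _ => (one_smul A m).symm.trans (h m))

theorem k1_hp_eq (h : ∀ n, Nat.card (N.g n) = Nat.card (N'.g n)) : N.hp p = N'.hp p :=
  hp_eq_of_sz (Eventually.of_forall fun n => congrArg (padicValNat p) (h n))

theorem TT_of_zero (R : Res N) (h : ∀ q, (R.Tor N' (q + 1)).hp p = 0) :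
    R.TT N' p = (R.Tor N' 0).hp p := by
  simp [Res.TT, Finset.sum_range_succ, h]

theorem TT_one (R : Res N) : R.TT (one 𝒜) p = N.hp p := by
  rw [TT_of_zero R fun q => k1_hp_zero (k1_sq_kill (R.isHom (one 𝒜) (q + 1)).hg_range
    fun v hv => (one_smul A v).symm ▸ (R.ex q v).1 hv)]
  exact k1_hp_eq (k1_card_eq (k1_isHom_mk _ _) (k1_isHom_lc R.hgen) (mkQ_surjective _) R.surj
    fun m => (k1_mk_zero (R.isHom (one 𝒜) 0).hg_range m).trans (R.ex0 m).symm)

theorem TT_pw (R : Res N) {δ : Type} [Fintype δ] (c : δ → ℤ) :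
    R.TT ((one 𝒜).pw c) p = (N.pw c).hp p := by
  rw [TT_of_zero R fun q => k1_hp_zero (k1_sq_kill (R.isHom ((one 𝒜).pw c) (q + 1)).hg_range
    fun v hv => (one_smul A v).symm ▸ (k1_exact_pi (R.ex q) δ v).1 hv)]
  exact k1_hp_eq (k1_card_eq (k1_isHom_mk _ _) (k1Phi_isHom R.hgen c) (mkQ_surjective _)
    (k1Phi_surj R.surj δ) fun m => (k1_mk_zero (R.isHom ((one 𝒜).pw c) 0).hg_range m).trans
      (k1Phi_zero R.ex0 m).symm)

/-- a locally free cokernel in the second variable -/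
theorem TT_cok (R : Res N) (hF : N.Fb p) {δ ε : Type} [Fintype δ] [Fintype ε] {c : δ → ℤ}
    {c' : ε → ℤ} {E : Matrix δ ε A} (hE : ∀ i j, E i j ∈ Az 𝒜 (c' j - c i))
    (hs : ∀ y : Vp 𝒜 p, SplitAt y.1 E) :
    R.TT (((one 𝒜).pw c).quot (LinearMap.range (mact A E))) p =
      ((N.pw c).quot (LinearMap.range (mact N.M E))).hp p := by
  classical
  have hE' : ∀ N : GM 𝒜, IsHom (N.pw c') (N.pw c) 0 (mact N.M E) := fun N =>
    isHom_mact N fun i j => by rw [add_zero]; exact hE i j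
  set G := ((one 𝒜).pw c).quot (LinearMap.range (mact A E)) with hG'
  let π : (δ → A) →ₗ[A] G.M := (((one 𝒜).pw c).core (LinearMap.range (mact A E))).mkQ
  have hπ : Function.Surjective π := (((one 𝒜).pw c).core _).mkQ_surjective
  have hπE : Function.Exact (mact A E) π := fun v =>
    k1_mk_zero (N := (one 𝒜).pw c) (hE' (one 𝒜)).hg_range v
  rw [TT_of_zero R fun q => hp_zero (k1_ev_bot (tor_fb R (Or.inl hF) _) fun y => ?_)]
  · refine k1_hp_eq (k1_card_eq
      (k1_isHom_comp (k1V_isHom (k1_isHom_mk _ _) (R.a 0)) (k1_isHom_mk _ _))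
      (k1_isHom_comp (k1Phi_isHom R.hgen c) (k1_isHom_mk _ _))
      ((mkQ_surjective _).comp (k1V_surj hπ _)) ((mkQ_surjective _).comp (k1Phi_surj R.surj δ))
      fun v => ?_)
    exact (k1_mk_zero (R.isHom G 0).hg_range _).trans
      ((k1_swap R.surj R.ex0 E hπ hπE v).trans (k1_mk_zero (hE' N).hg_range _).symm)
  · obtain ⟨k, s, hs, hy, H, -, e⟩ := split_glob hE (hs y)
    let σ : G.M →ₗ[A] (δ → A) := (((one 𝒜).pw c).core (LinearMap.range (mact A E))).liftQ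
      (mact A (s • 1 - E * H)) fun v hv => by
        obtain ⟨w, rfl⟩ := ((one 𝒜).pw c).core_le _ hv
        refine (k1_mact_mul _ E w).symm.trans ?_
        rw [Matrix.sub_mul, e, Matrix.smul_mul, Matrix.one_mul, sub_self, k1_mact_zero]
    have hσ : ∀ t, π (σ t) = s • t := fun t => by
      obtain ⟨v, rfl⟩ := hπ t
      have : σ (π v) = mact A (s • 1 - E * H) v := rfl
      rw [this, k1_mact_sub, k1_mact_smul, k1_mact_one, k1_mact_mul, map_sub,
        hπE.apply_apply_eq_zero, sub_zero, map_smul]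
    refine k1_zeroAt hs hy (k1_sq_kill (R.isHom G (q + 1)).hg_range fun v hv => ?_)
    obtain ⟨w, hw⟩ := (k1_exact_pi (R.ex q) δ (k1V σ _ v)).1 ((k1V_mact σ _ v).trans
      ((congrArg (k1V σ _) hv).trans (map_zero _)))
    exact ⟨k1V π _ w, (k1V_mact π _ w).trans ((congrArg (k1V π _) hw).trans
      (funext fun i => hσ _))⟩

theorem k1_fb_pw (hF : N.Fb p) {β : Type} [Fintype β] (a : β → ℤ) : (N.pw a).Fb p :=
  fun _ => funext fun _ => hF _

theorem k1_tel (hF : N.Fb p) {α β γ : Type} [Fintype α] [Fintype β] [Fintype γ] {a₁ : β → ℤ}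
    {a₂ : γ → ℤ} {E : Matrix α β A} {D : Matrix β γ A} (hD : ∀ i j, D i j ∈ Az 𝒜 (a₂ j - a₁ i))
    (hED : E * D = 0) (n : ℤ) {H : GM 𝒜} (hH : H.Fb p) (e : Nat.card (H.g n) =
      kaH (mact N.M D).toAddMonoidHom (mact N.M E).toAddMonoidHom ((N.pw a₂).g n) ((N.pw a₁).g n)) :
    ((N.pw a₁).sz p n : ℚ) = H.sz p n +
      padicValNat p (Nat.card (((N.pw a₂).g n).map (mact N.M D).toAddMonoidHom)) +
      padicValNat p (Nat.card (((N.pw a₁).g n).map (mact N.M E).toAddMonoidHom)) := by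
  have h1 := ka_card (mact N.M D).toAddMonoidHom (mact N.M E).toAddMonoidHom
    (fun v => (k1_mact_mul E D v).symm.trans (by rw [hED, k1_mact_zero]))
    (k1_map_le (isHom_mact N (a := a₁) (a' := a₂) fun i j => by rw [add_zero]; exact hD i j) n)
  rw [← e, card_g hH, mul_comm _ (p ^ _)] at h1
  have h2 := k1_val (b := 0) (((mul_one _).trans (card_g (k1_fb_pw hF a₁) n).symm).trans h1)
  rw [add_zero] at h2
  exact_mod_cast h2

theorem k1_card_zero (N : GM 𝒜) {β : Type} [Fintype β] (U : AddSubgroup (β → N.M)) :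
    padicValNat p (Nat.card (U.map (mact N.M (0 : Matrix (Fin 0) β A)).toAddMonoidHom)) = 0 := by
  rw [Subsingleton.elim (U.map _) ⊥, AddSubgroup.card_bot, padicValNat_one_right]

theorem TT_tel (R : Res N') (hF : N.Fb p) : R.TT N p = (N.pw (R.a 0)).hp p - (N.pw (R.a 1)).hp p +
    (N.pw (R.a 2)).hp p - (N.pw (R.a 3)).hp p +
    ((N.pw (R.a 4)).quot (LinearMap.range (mact N.M (R.D 4)))).hp p := by
  have hQ : ((N.pw (R.a 4)).quot (LinearMap.range (mact N.M (R.D 4)))).Fb p :=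
    k1_quot_kill (R.isHom N 4).hg_range fun v => (k1_fb_pw hF _ v).symm ▸ zero_mem _
  refine hilb_ext ?_
  filter_upwards [k1_TT_eval R (Or.inr hF), hp_spec' (k1_fb_pw hF (R.a 0)),
    hp_spec' (k1_fb_pw hF (R.a 1)), hp_spec' (k1_fb_pw hF (R.a 2)), hp_spec' (k1_fb_pw hF (R.a 3)),
    hp_spec' hQ] with n e h0 h1 h2 h3 h4
  have t0 := k1_tel hF (R.hD 0) (Matrix.zero_mul _) n (tor_fb R (Or.inr hF) 0)
    (k1_card_cok' N (R.hD 0) n)
  have t5 := k1_tel hF (R.hD 4) (Matrix.zero_mul _) n hQ (k1_card_cok' N (R.hD 4) n)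
  have t := fun q => k1_tel hF (R.hD (q + 1)) (R.mul_zero q) n (tor_fb R (Or.inr hF) (q + 1))
    (k1_card_tor R N q n)
  have z0 := k1_card_zero (p := p) N ((N.pw (R.a 0)).g n)
  have z4 := k1_card_zero (p := p) N ((N.pw (R.a 4)).g n)
  have t0' := t0.trans (congrArg (fun z : ℕ => _ + (z : ℚ)) z0)
  have t5' := t5.trans (congrArg (fun z : ℕ => _ + (z : ℚ)) z4)
  have t1 := t 0
  have t2 := t 1
  have t3 := t 2
  have t4 := t 3
  simp only [eval_add, eval_sub, e, h0, h1, h2, h3, h4]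
  simp only [zero_add, Nat.reduceAdd, Nat.cast_zero, add_zero] at t0' t1 t2 t3 t4 t5'
  linarith

/-- the syzygy modules of a resolution -/
def k1Syz (R : Res N) (q : ℕ) : GM 𝒜 :=
  ((one 𝒜).pw (R.a q)).quot (LinearMap.range (mact (one 𝒜).M (R.D q)))

theorem k1_ses_zero (R : Res N) : SES (k1Syz R 1) ((one 𝒜).pw (R.a 0)) N := by
  have := k1_ses_cok (R.isHom (one 𝒜) 1) (R.isHom (one 𝒜) 0) (k1_isHom_lc R.hgen) (R.ex 0) R.ex0
    R.surj
  exact this

theorem k1_ses_succ (R : Res N) (q : ℕ) :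
    SES (k1Syz R (q + 1)) ((one 𝒜).pw (R.a q)) (k1Syz R q) := by
  have := k1_ses_cok (R.isHom (one 𝒜) (q + 1)) (R.isHom (one 𝒜) q) (k1_isHom_mk _ _) (R.ex q)
    (fun v => k1_mk_zero (R.isHom (one 𝒜) q).hg_range v) (mkQ_surjective _)
  exact this

theorem TT_symm (h : Hyp 𝒜) (R : Res N) (R' : Res N') (hF : N.Fb p) : R.TT N' p = R'.TT N p := by
  obtain ⟨G, hG⟩ : ∃ G : ℕ → ℚ[X], ∀ q, G q = R.TT (k1Syz R' q) p := ⟨_, fun _ => rfl⟩
  have s0 : (N.pw (R'.a 0)).hp p = G 1 + R.TT N' p := by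
    rw [hG, ← TT_ses h R (k1_ses_zero R') (Or.inl hF), TT_pw]
  have s : ∀ q, (N.pw (R'.a q)).hp p = G (q + 1) + G q := fun q => by
    rw [hG, hG, ← TT_ses h R (k1_ses_succ R' q) (Or.inl hF), TT_pw]
  have s1 : _ = G 2 + G 1 := s 1
  have s2 : _ = G 3 + G 2 := s 2
  have s3 : _ = G 4 + G 3 := s 3
  have s4 : G 4 = _ := (hG 4).trans (TT_cok R hF (R'.hD 4) fun y => res_split4 h R' y le_rfl)
  rw [TT_tel R' hF, ← s4, s3, s2, s1, s0]
  ring

theorem TT_indep (h : Hyp 𝒜) (R R' : Res N) (hF : N.Fb p ∨ N'.Fb p) : R.TT N' p = R'.TT N' p := by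
  rcases hF with hF | hF
  · rw [TT_symm h R (rsl N') hF, TT_symm h R' (rsl N') hF]
  · rw [← TT_symm h (rsl N') R hF, ← TT_symm h (rsl N') R' hF]

theorem T_eq (h : Hyp 𝒜) (R : Res N) (hF : N.Fb p ∨ N'.Fb p) : T p N N' = R.TT N' p :=
  (T_def N N').trans (TT_indep h _ R hF)

theorem T_symm (h : Hyp 𝒜) (hF : N.Fb p ∨ N'.Fb p) : T p N N' = T p N' N := by
  rw [T_def, T_def]
  rcases hF with hF | hF
  · exact TT_symm h _ _ hF
  · exact (TT_symm h _ _ hF).symm

theorem T_ses (h : Hyp 𝒜) (hs : SES N₁ N₂ N₃) (hF : N.Fb p ∨ N₂.Fb p) :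
    T p N N₂ = T p N N₁ + T p N N₃ := by
  rw [T_def, T_def, T_def, TT_ses h _ hs hF]

/-- additivity in the first variable -/
theorem T_ses' (h : Hyp 𝒜) (hs : SES N₁ N₂ N₃) (hF : N₂.Fb p ∨ N.Fb p) :
    T p N₂ N = T p N₁ N + T p N₃ N := by
  rw [T_symm h hF, T_symm h (hF.imp_left fun h2 => (hs.fb h2).1),
    T_symm h (hF.imp_left fun h2 => (hs.fb h2).2), T_ses h hs hF.symm]

theorem k1_pw_sh (N : GM 𝒜) {β : Type} [Fintype β] (c : β → ℤ) (a n : ℤ) :
    ((N.sh a).pw c).g n = (N.pw c).g (n + a) :=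
  AddSubgroup.ext fun v => forall_congr' fun i => by
    change (_ → v i ∈ N.g (n - c i + a)) ↔ (_ → v i ∈ N.g (n + a - c i))
    rw [show n - c i + a = n + a - c i by ring]

theorem T_sh (h : Hyp 𝒜) (hF : N.Fb p ∨ N'.Fb p) (a : ℤ) :
    T p N (N'.sh a) = (T p N N').comp (X + C (a : ℚ)) := by
  have e : ∀ q, ((rsl N).Tor (N'.sh a) q).hp p =
      (((rsl N).Tor N' q).hp p).comp (X + C (a : ℚ)) := fun q => by
    rw [← hp_sh (tor_fb _ hF q)]
    refine k1_hp_eq fun n => ?_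
    cases q with
    | zero =>
      exact (k1_card_cok' (N'.sh a) ((rsl N).hD 0) n).trans
        ((congrArg₂ (kaH _ _) (k1_pw_sh N' _ a n) (k1_pw_sh N' _ a n)).trans
          (k1_card_cok' N' ((rsl N).hD 0) (n + a)).symm)
    | succ q =>
      exact (k1_card_tor _ (N'.sh a) q n).trans
        ((congrArg₂ (kaH _ _) (k1_pw_sh N' _ a n) (k1_pw_sh N' _ a n)).trans
          (k1_card_tor _ N' q (n + a)).symm)
  simp [T_def, Res.TT, Finset.sum_range_succ, e]

theorem T_one (h : Hyp 𝒜) (hF : N'.Fb p) : T p (one 𝒜) N' = N'.hp p := by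
  rw [T_symm h (Or.inr hF), T_def, TT_one]

theorem T_pw (h : Hyp 𝒜) (hF : N'.Fb p) {δ : Type} [Fintype δ] (c : δ → ℤ) :
    T p ((one 𝒜).pw c) N' = (N'.pw c).hp p := by
  rw [T_symm h (Or.inr hF), T_def, TT_pw]

theorem T_cok (h : Hyp 𝒜) (hF : N'.Fb p) {δ ε : Type} [Fintype δ] [Fintype ε] {c : δ → ℤ}
    {c' : ε → ℤ} {E : Matrix δ ε A} (hE : ∀ i j, E i j ∈ Az 𝒜 (c' j - c i))
    (hs : ∀ y : Vp 𝒜 p, SplitAt y.1 E) :
    T p (((one 𝒜).pw c).quot (LinearMap.range (mact A E))) N' =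
      ((N'.pw c).quot (LinearMap.range (mact N'.M E))).hp p := by
  rw [T_symm h (Or.inr hF), T_def, TT_cok _ hF hE hs]

theorem T_disj (h : Hyp 𝒜) (hF : N.Fb p ∨ N'.Fb p)
    (hd : ∀ y : Vp 𝒜 p, N.ZeroAt y.1 ∨ N'.ZeroAt y.1) : T p N N' = 0 := by
  have e : ∀ q, ((rsl N).Tor N' q).hp p = 0 := fun q =>
    hp_zero (k1_ev_bot (tor_fb _ hF q) fun y => by
      rcases hd y with h1 | h1
      · obtain ⟨k, s, hs, hy, e⟩ := k1_kill h1
        exact k1_zeroAt hs hy (tor_kill _ (Or.inl e) q)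
      · obtain ⟨k, s, hs, hy, e⟩ := k1_kill h1
        exact k1_zeroAt hs hy (tor_kill _ (Or.inr e) q))
  simp [T_def, Res.TT, e]

theorem T_fibre (h : Hyp 𝒜) (hF : N.Fb p) : T p N (cy 𝒜 (Ideal.span {(p : A)})) = 0 := by
  haveI := h.cz
  have hp : (p : A) ≠ 0 := Nat.cast_ne_zero.2 (Fact.out : p.Prime).ne_zero
  have hs : SES (one 𝒜) (one 𝒜) (cy 𝒜 (Ideal.span {(p : A)})) := by
    refine ⟨LinearMap.toSpanSingleton A A p, _, fun n (m : A) hm => ?_, k1_isHom_mk _ _,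
      fun (a b : A) e => mul_right_cancel₀ (M₀ := A) hp e, fun (m : A) => ?_, mkQ_surjective _⟩
    · have h1 : (p : A) ∈ Az 𝒜 0 := (Az_nat (𝒜 := 𝒜) 0).ge (md_natCast_mem p)
      exact Az_mul (A := A) (𝒜 := 𝒜) hm h1
    · exact (k1_mk_zero (hg_one (md_span_hom (md_natCast_mem p))) m).trans
        (Ideal.mem_span_singleton' (α := A))
  exact left_eq_add.1 (T_ses h hs (Or.inl hF))

theorem res_split_free (R : Res N) {y : Pt 𝒜} (hs : Module.Free (Lo y) (N.St y)) (q : ℕ) :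
    SplitAt y (R.D q) := by
  obtain ⟨h1, h2, h3⟩ := st_res y R
  induction q with
  | zero => exact k1_split_zero h1 h2
  | succ q ih => exact k1_split_succ (h3 q) ih.choose_spec

/-- a module that is locally free along the fibre: only `Tor_0` -/
theorem T_free (h : Hyp 𝒜) (R : Res N) (hF : N'.Fb p)
    (hs : ∀ y : Vp 𝒜 p, Module.Free (Lo y.1) (N.St y.1)) : T p N N' = (R.Tor N' 0).hp p := by
  rw [T_eq h R (Or.inr hF), TT_of_zero R fun q => hp_zero (k1_ev_bot (tor_fb R (Or.inr hF) _)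
    fun y => tor_zeroAt R N' q (res_split_free R (hs y) q))]

theorem isInt_T (h : Hyp 𝒜) (x : Pt 𝒜) (z : Vp 𝒜 p) {v : ℚ}
    (e : T p (cy 𝒜 (pr x)) (cy 𝒜 (pr z.1)) = C v) : IsInt 3 x z.1 ((v : ℝ) * Real.log p) :=
  isInt_of_TT x z fun R => (T_eq h R (Or.inr (fb_cy z.2))).symm.trans e

end

end Pool.Agent.Lib.MP_62d77c_ag.R
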