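import Pool.Agent.Lib.MP_62d77c_ag.R.K5a
import Pool.Agent.Lib.MP_62d77c_ag.R.K1
import Pool.Agent.Lib.MP_62d77c_ag.R.ET2
import Pool.Agent.Lib.MP_62d77c_ag.R.ET5
import Pool.Agent.Lib.MP_62d77c_ag.R.N1d
import Pool.Agent.Lib.MP_62d77c_ag.End.Fib0

/-! `Ext¹(O(D), A)` as a fractional family. -/

set_option autoImplicit false
set_option linter.unusedSectionVars false
set_option linter.style.haveILetI false

namespace Pool.Agent.Lib.MP_62d77c_ag.R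

open Filter Matrix Function

noncomputable section

variable {A : Type} [CommRing A] [IsDomain A] {𝒜 : ℕ → AddSubgroup A} [GradedRing 𝒜]
  [hG : Fact (Gen 𝒜)] {p : ℕ} [Fact p.Prime]

theorem e0_T (h : Hyp 𝒜) {N : GM 𝒜} (hN : N.Fb p) (X : Mo 𝒜 p) {w : N.M →+ X.L}
    (hw : ∀ (a : A) m, w (a • m) = X.θ a * w m)
    (hk : ∀ y : Vp 𝒜 p, ∀ n, ∀ m ∈ N.g n, w m = 0 → N.ZeroEl y.1 m) {N' : GM 𝒜} (hN' : N'.Fb p) :
    T p N N' = T p (X.gm _ (X.ff_imF hN hw)) N' := by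
  obtain ⟨N₀, Q, f, g, a, a1, a2, a3⟩ := k5_trunc N
  obtain ⟨u, u1, u2, u3⟩ := k5_img N₀ X (fun _ => w.comp f.toAddMonoidHom)
    (fun i a _ k m _ => (congrArg w (map_smul f a m)).trans (hw a _))
    (fun k hk m hm => by rw [a2 k hk m hm, map_zero]) (X.ff_imF hN hw) fun n z =>
      X.mem_imF.trans ⟨fun ⟨m, hm, e⟩ => by
        obtain ⟨m', h1, rfl⟩ := a.hf.lift (n := n) ((add_zero (n : ℤ)).symm ▸ hm)
          (a3 n (by omega) m hm)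
        exact ⟨m', h1, e⟩, fun ⟨m, hm, e⟩ => ⟨f m, add_zero (n : ℤ) ▸ a.hf n m hm, e⟩⟩
  have b := sm_ker u1 u2
  have c : ∀ y : Vp 𝒜 p, (N₀.sub (LinearMap.ker u)).ZeroAt y.1 := fun y =>
    st_zeroAt fun n m hm => by
      obtain ⟨k, t, ht, h1, h2⟩ := hk y _ _ (a.hf n _ hm) ((u3 n _ hm).1 (N₀.core_le _ m.2))
      exact ⟨k, t, ht, h1, Subtype.ext (a.inj ((map_smul f t _).trans (h2.trans (map_zero f).symm)))⟩
  rw [T_symm h (Or.inr hN'), T_ses h a.ses (Or.inl hN'), T_ses h b.ses (Or.inl hN'),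
    T_disj h (Or.inl hN') fun y => Or.inr (a1 y.1), T_disj h (Or.inl hN') fun y => Or.inr (c y),
    add_zero, zero_add, T_symm h (Or.inl hN')]

theorem e0_den (y : Pt 𝒜) {ι : Type} [Fintype ι] (d : ι → ℤ) (Q : ι → A → A → Prop)
    (hQ : ∀ i s c t, Q i s c → Q i (t * s) (t * c))
    (h : ∀ i, ∃ k : ℕ, ∃ s ∈ 𝒜 k, s ∉ pr y ∧ ∃ c ∈ Az 𝒜 (k + d i), Q i s c) :
    ∃ k : ℕ, ∃ s ∈ 𝒜 k, s ∉ pr y ∧ ∃ c : ι → A, ∀ i, c i ∈ Az 𝒜 (k + d i) ∧ Q i s (c i) := by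
  classical
  have key : ∀ I : Finset ι, ∃ k : ℕ, ∃ s ∈ 𝒜 k, s ∉ pr y ∧ ∀ i ∈ I, ∃ c ∈ Az 𝒜 (k + d i),
      Q i s c := fun I => by
    induction I using Finset.induction_on with
    | empty => exact ⟨0, 1, SetLike.one_mem_graded 𝒜, md_one_not_mem y, by simp⟩
    | insert i I _ ih =>
      obtain ⟨k, s, hs, h1, h2⟩ := ih
      obtain ⟨l, t, ht, h3, c, hc, h4⟩ := h i
      refine ⟨k + l, s * t, SetLike.mul_mem_graded hs ht, md_mul_not_mem h1 h3, fun j hj => ?_⟩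
      rcases Finset.mem_insert.1 hj with rfl | hj
      · refine ⟨s * c, ?_, hQ _ _ _ _ h4⟩
        have := Az_mul (show s ∈ Az 𝒜 k by rwa [Az_nat]) hc
        rwa [← add_assoc, ← Nat.cast_add] at this
      · obtain ⟨c', h5, h6⟩ := h2 j hj
        refine ⟨t * c', ?_, mul_comm t s ▸ hQ _ _ _ _ h6⟩
        have := Az_mul (show t ∈ Az 𝒜 l by rwa [Az_nat]) h5
        rwa [← add_assoc, ← Nat.cast_add, add_comm l k] at this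
  obtain ⟨k, s, hs, h1, h2⟩ := key Finset.univ
  choose c h3 h4 using fun i => h2 i (Finset.mem_univ i)
  exact ⟨k, s, hs, h1, c, fun i => ⟨h3 i, h4 i⟩⟩

section alg

variable {L : Type} [Field L] {θ : A →+* L} {S : ℤ → AddSubgroup L}

/-- the form `f` generates the kernel at `y` -/
structure E0G (θ : A →+* L) (y : Pt 𝒜) (f : A) (e : ℕ) : Prop where
  mem : f ∈ Az 𝒜 e
  zero : θ f = 0
  ne : f ≠ 0
  gen : ∀ n : ℤ, ∀ a ∈ Az 𝒜 n, θ a = 0 → ∃ k : ℕ, ∃ s ∈ 𝒜 k, s ∉ pr y ∧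
    ∃ c ∈ Az 𝒜 (k + (n - e)), s * a = f * c

theorem E0G.div {y : Pt 𝒜} {f : A} {e : ℕ} (h : E0G θ y f e) {ι : Type} [Fintype ι] {d : ι → ℤ}
    {χ : ι → A} (h1 : ∀ i, χ i ∈ Az 𝒜 (d i)) (h0 : ∀ i, θ (χ i) = 0) :
    ∃ k : ℕ, ∃ s ∈ 𝒜 k, s ∉ pr y ∧ ∃ c : ι → A, (∀ i, c i ∈ Az 𝒜 (k + (d i - e))) ∧
      s • χ = f • c := by
  obtain ⟨k, s, hs, h2, c, h3⟩ := e0_den y (fun i => d i - e) (fun i s c => s * χ i = f * c)
    (fun i s c t e => by rw [mul_assoc, e, mul_left_comm]) fun i => h.gen _ _ (h1 i) (h0 i)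
  exact ⟨k, s, hs, h2, c, fun i => (h3 i).1, funext fun i => (h3 i).2⟩

theorem e0_deg {β γ : Type} [Fintype β] {a : β → ℤ} {b : γ → ℤ} {n d : ℤ} {φ : β → A}
    {U : Matrix β γ A} (hφ : ∀ i, φ i ∈ Az 𝒜 (n + a i)) (hU : HM 𝒜 a b d U) (j : γ) :
    (φ ᵥ* U) j ∈ Az 𝒜 (n + d + b j) := by
  change ∑ i, φ i * U i j ∈ _
  refine sum_mem fun i _ => ?_
  have := Az_mul (hφ i) (hU i j)
  rwa [show n + a i + (b j - a i + d) = n + d + b j by ring] at this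

theorem e0_map {β γ : Type} [Fintype β] (φ : β → A) (U : Matrix β γ A) :
    θ ∘ (φ ᵥ* U) = (θ ∘ φ) ᵥ* U.map θ := funext fun j => RingHom.map_vecMul θ U φ j

theorem e0_cancel {β : Type} {f : A} (hf : f ≠ 0) {u v : β → A} (h : f • u = f • v) : u = v :=
  funext fun i => mul_left_cancel₀ hf (congrFun h i)

variable {P : Pres 𝒜 θ S} {π f : A} {e e' : ℤ} {σ σ' : Matrix (Fin P.b1) (Fin P.b0) A}
  {φ : Fin P.b1 → A}

theorem e0_D0 (h : P.Sg π e σ) (hπ : π ∈ Az 𝒜 e) (hφ : φ ᵥ* P.D1 = 0) :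
    (φ ᵥ* σ) ᵥ* P.D0 = π • φ := by
  obtain ⟨W, -, hW⟩ := P.m2 (((h.h.mul P.hD0).cast (add_zero e)).sub (HM.scalar P.a1 hπ)) (by
    rw [Matrix.mul_sub, ← Matrix.mul_assoc, h.eq]; simp)
  have := congrArg (φ ᵥ* ·) hW
  simp only [← vecMul_vecMul, hφ, zero_vecMul, vecMul_sub, vecMul_smul, vecMul_one] at this
  exact (sub_eq_zero.1 this.symm)

theorem e0_cob (h : P.Sg π e σ) (ψ : Fin P.b0 → A) : (ψ ᵥ* P.D0) ᵥ* σ = π • ψ := by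
  rw [vecMul_vecMul, h.eq, vecMul_smul, vecMul_one]

theorem e0_inj (h : P.Sg π e σ) (h0 : π ≠ 0) {ψ χ : Fin P.b0 → A}
    (e : ψ ᵥ* P.D0 = χ ᵥ* P.D0) : ψ = χ :=
  e0_cancel h0 (by rw [← e0_cob h, ← e0_cob h, e])

theorem e0_cmp (h : P.Sg π e σ) (hπ : π ∈ Az 𝒜 e) (h' : P.Sg f e' σ') (hf : f ∈ Az 𝒜 e')
    (h0 : f ≠ 0) {b c : A} (hb : b * π = f * c) (hφ : φ ᵥ* P.D1 = 0) :
    b • (φ ᵥ* σ) = c • (φ ᵥ* σ') :=
  e0_inj h' h0 (by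
    rw [smul_vecMul, smul_vecMul, e0_D0 h hπ hφ, e0_D0 h' hf hφ, smul_smul, smul_smul, hb, mul_comm])

theorem e0_ker {y : Pt 𝒜} {e' : ℕ} (g : E0G θ y f e') (h' : P.Sg f e' σ') {n : ℤ}
    (h1 : ∀ i, φ i ∈ Az 𝒜 (n + P.a1 i)) (hφ : φ ᵥ* P.D1 = 0) (h0 : ∀ i, θ ((φ ᵥ* σ') i) = 0) :
    ∃ k : ℕ, ∃ s ∈ 𝒜 k, s ∉ pr y ∧ ∃ χ, χ ᵥ* P.D0 = s • φ := by
  obtain ⟨k, s, hs, h2, χ, -, h3⟩ := g.div (e0_deg h1 h'.h) h0
  refine ⟨k, s, hs, h2, χ, e0_cancel g.ne ?_⟩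
  rw [← smul_vecMul, ← h3, smul_vecMul, e0_D0 h' g.mem hφ, smul_comm]

theorem e0_onto {y : Pt 𝒜} {e' : ℕ} (g : E0G θ y f e') (h' : P.Sg f e' σ') {n : ℤ}
    {χ : Fin P.b0 → A} (h1 : ∀ i, χ i ∈ Az 𝒜 (n + e' + P.a0 i))
    (h0 : (θ ∘ χ) ᵥ* P.D0.map θ = 0) : ∃ k : ℕ, ∃ s ∈ 𝒜 k, s ∉ pr y ∧ ∃ φ : Fin P.b1 → A,
      (∀ i, φ i ∈ Az 𝒜 (k + n + P.a1 i)) ∧ φ ᵥ* P.D1 = 0 ∧ φ ᵥ* σ' = s • χ := by
  obtain ⟨k, s, hs, h2, φ, h3, h4⟩ := g.div (e0_deg h1 P.hD0)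
    fun i => congrFun ((e0_map χ P.D0).trans h0) i
  have h5 : φ ᵥ* P.D1 = 0 := e0_cancel g.ne (by
    rw [← smul_vecMul, ← h4, smul_vecMul, vecMul_vecMul, P.DD, vecMul_zero, smul_zero, smul_zero])
  refine ⟨k, s, hs, h2, φ, fun i => ?_, h5, e0_inj h' g.ne ?_⟩
  · have := h3 i
    rwa [show k + (n + e' + 0 + P.a1 i - e') = k + n + P.a1 i by ring] at this
  · rw [e0_D0 h' g.mem h5, smul_vecMul, h4]

/-- the generic value of a cocycle -/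
def e0W (θ : A →+* L) {β γ : Type} [Fintype β] (σ : Matrix β γ A) (i : γ) (g : L) :
    (β → A) →+ L :=
  AddMonoidHom.mk' (fun φ => θ ((φ ᵥ* σ) i) / g) fun a b => by
    rw [add_vecMul, Pi.add_apply, map_add, add_div]

theorem e0W_smul {β γ : Type} [Fintype β] (σ : Matrix β γ A) (i : γ) (g : L) (a : A) (φ : β → A) :
    e0W θ σ i g (a • φ) = θ a * e0W θ σ i g φ := by
  change θ (((a • φ) ᵥ* σ) i) / g = θ a * (θ _ / g)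
  rw [smul_vecMul, Pi.smul_apply, smul_eq_mul, map_mul, mul_div_assoc]

theorem e0W_val (hb : Bir 𝒜 θ) (h : P.Sg π e σ) (hπ : π ∈ Az 𝒜 e) (h0 : θ π = 0) {i : Fin P.b0}
    (hi : P.g i ≠ 0) (hφ : φ ᵥ* P.D1 = 0) (j : Fin P.b0) :
    θ ((φ ᵥ* σ) j) = e0W θ σ i (P.g i) φ * P.g j := by
  obtain ⟨x, hx⟩ := Pres.rank_one (P := P) hb (ψ := θ ∘ (φ ᵥ* σ)) (by
    rw [← e0_map, e0_D0 h hπ hφ]; funext k; simp [h0])
  have h1 : ∀ j, θ ((φ ᵥ* σ) j) = x * P.g j := congrFun hx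
  change _ = θ _ / _ * _
  rw [h1, h1, mul_div_cancel_right₀ _ hi]

end alg

theorem e0_gen (h : Hyp 𝒜) (j : Comp 𝒜 p) (y : Pt 𝒜) : ∃ f e, (pr j.1.1 ≤ pr y →
    E0G (Xc j).θ y f e) := by
  haveI := h.cz
  obtain ⟨e, f, h1, h2, h3, h4⟩ := fib0_lp h.reg j y (on_MX _)
  refine ⟨f, e, fun _ => ⟨by rwa [Az_nat], ((Xc j).ker e f h2).2 h1,
    fun c => h3 (by rw [c, map_zero]), fun n a ha h0 => ?_⟩⟩
  rcases Az_cases ha with rfl | ⟨k, rfl, ha⟩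
  · exact ⟨0, 1, SetLike.one_mem_graded 𝒜, md_one_not_mem y, 0, zero_mem _, by simp⟩
  obtain ⟨m, l, b, hb, c, hc, b0, e1, e2⟩ := h4 k a (((Xc j).ker k a ha).1 h0) ha
  refine ⟨m, b, hb, b0, c, ?_, ?_⟩
  · rwa [show (m : ℤ) + (k - e) = l by omega, Az_nat]
  · rw [mul_comm f]; exact FaithfulSMul.algebraMap_injective A (FractionRing A) e2

theorem e0_mact {β γ : Type} [Fintype β] (D : Matrix β γ A) (c : β → A) :
    mact A Dᵀ c = c ᵥ* D := funext fun j => by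
  simp [mact_apply, vecMul, dotProduct, mul_comm]

/-- `Ext¹(N, A)` through cocycles -/
theorem e0_ext {N : GM 𝒜} (R : Res N) {L : Type} [AddCommGroup L] (W : (Fin (R.b 1) → A) →+ L)
    (hW : ∀ ψ, W (ψ ᵥ* R.D 0) = 0) : ∃ (w : (R.Ext (one 𝒜) 1).M →+ L)
      (mk : ∀ φ : Fin (R.b 1) → A, φ ᵥ* R.D 1 = 0 → (R.Ext (one 𝒜) 1).M),
      (∀ φ h, w (mk φ h) = W φ) ∧ (∀ (a : A) φ h h', a • mk φ h = mk (a • φ) h') ∧
      (∀ m, ∃ φ h, mk φ h = m) ∧ (∀ φ h χ, χ ᵥ* R.D 0 = φ → mk φ h = 0) ∧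
      ∀ n m, m ∈ (R.Ext (one 𝒜) 1).g n ↔ ∃ φ h, mk φ h = m ∧ ∀ i, φ i ∈ Az 𝒜 (n + R.a 1 i) := by
  have h0 := st_hom_tr R (one 𝒜) 0
  have h1 := st_hom_tr R (one 𝒜) 1
  let Z : Submodule A ((one 𝒜).pw (-R.a 1)).M := LinearMap.ker (mact A (R.D 1)ᵀ)
  have hZ : ∀ φ : Fin (R.b 1) → A, φ ᵥ* R.D 1 = 0 ↔ φ ∈ ((one 𝒜).pw (-R.a 1)).core Z := fun φ =>
    ⟨fun h => (GM.core_eq _ h1.hg_ker).ge ((e0_mact _ φ).trans h),
      fun h => (e0_mact _ φ).symm.trans (GM.core_le _ Z h)⟩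
  have hg : ∀ n (φ : Fin (R.b 1) → A), φ ∈ ((one 𝒜).pw (-R.a 1)).g n ↔
      ∀ i, φ i ∈ Az 𝒜 (n + R.a 1 i) := fun n φ => (one 𝒜).mem_pw.trans (forall_congr' fun i => by
    rw [Pi.neg_apply, sub_neg_eq_add]; rfl)
  refine ⟨QuotientAddGroup.lift (Submodule.toAddSubgroup _)
    (W.comp (((one 𝒜).pw (-R.a 1)).core Z).subtype.toAddMonoidHom) fun c hc => ?_,
    fun φ h => Submodule.Quotient.mk ⟨φ, (hZ φ).1 h⟩, fun φ h => rfl, fun a φ h h' => rfl,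
    fun m => ?_, fun φ h χ e => ?_, fun n m => ⟨?_, ?_⟩⟩
  · obtain ⟨ψ, e⟩ := (mem_core_sub h0.hg_range c).1 hc
    exact (congrArg W ((e0_mact (A := A) (R.D 0) ψ).symm.trans e)).symm.trans (hW ψ)
  · obtain ⟨c, rfl⟩ := Submodule.Quotient.mk_surjective _ m
    exact ⟨c.1, (hZ _).2 c.2, rfl⟩
  · exact (Submodule.Quotient.mk_eq_zero _).2 ((mem_core_sub h0.hg_range _).2
      ⟨χ, (e0_mact _ χ).trans e⟩)
  · rintro ⟨c, hc, rfl⟩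
    exact ⟨c.1, (hZ _).2 c.2, rfl, (hg n _).1 hc⟩
  · rintro ⟨φ, h, rfl, h2⟩
    exact ⟨_, (hg n _).2 h2, rfl⟩

theorem e0a_colon (X : Mo 𝒜 p) (hb : Bir 𝒜 X.θ) {F₀ : X.Fa} {P : Pres 𝒜 X.θ (X.FZ F₀)} {π f : A}
    {e e' : ℕ} {σ : Matrix (Fin P.b1) (Fin P.b0) A} (h : P.Sg π e σ) (hπ : π ∈ Az 𝒜 e)
    (h0 : X.θ π = 0) {i : Fin P.b0} (hi : P.g i ≠ 0) {y : Pt 𝒜} (hy : pr X.x.1 ≤ pr y)
    (g : E0G X.θ y f e') {b c : A} (hbc : b * π = f * c) (b0 : X.θ b ≠ 0) (c0 : X.θ c ≠ 0)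
    {F : X.Fa} (hF : ∀ (n : ℕ) z, z ∈ F n ↔ ∃ φ : Fin P.b1 → A, φ ᵥ* P.D1 = 0 ∧
      (∀ i, φ i ∈ Az 𝒜 (n + P.a1 i)) ∧ e0W X.θ σ i (P.g i) φ = z) (z : X.L) :
    z ∈ X.stk F y ↔ ∀ t ∈ X.stk F₀ y,
      z * t / (X.θ c * X.θ (ell y) ^ e' / X.θ b) ∈ X.M.orng y := by
  obtain ⟨σ', h'⟩ := P.exists_sg g.mem g.zero
  have l0 := X.ell_ne hy
  have hon := X.on_iff.2 hy
  have key : ∀ φ : Fin P.b1 → A, φ ᵥ* P.D1 = 0 → ∀ j, X.θ b * (e0W X.θ σ i (P.g i) φ * P.g j) =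
      X.θ c * X.θ ((φ ᵥ* σ') j) := fun φ hφ j => by
    rw [← e0W_val hb h hπ h0 hi hφ, ← map_mul, ← map_mul]
    exact congrArg _ (congrFun (e0_cmp h hπ h' g.mem g.ne hbc hφ) j)
  constructor
  · rintro ⟨n, s, hs, h1, h2⟩ t ⟨n', s', hs', h3, h4⟩
    obtain ⟨φ, h5, h6, h7⟩ := (hF _ _).1 h2
    obtain ⟨v, h8, h9⟩ := P.p0 n' _ (X.mem_FZ.2 h4)
    have r1 : (φ ᵥ* σ') ⬝ᵥ v ∈ 𝒜 (n + n' + e') := by
      rw [← Az_nat (𝒜 := 𝒜)]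
      refine sum_mem fun j _ => ?_
      have := Az_mul (e0_deg h6 h'.h j) (h8 j)
      rwa [show (n : ℤ) + e' + P.a0 j + (n' - P.a0 j) = (n + n' + e' : ℕ) by push_cast; ring] at this
    have r2 : X.θ b * (X.θ s * z * (X.θ s' * t)) = X.θ c * X.θ ((φ ᵥ* σ') ⬝ᵥ v) := by
      rw [← h7, ← h9, dotProduct, dotProduct, map_sum, Finset.mul_sum, Finset.mul_sum,
        Finset.mul_sum]
      refine Finset.sum_congr rfl fun j _ => ?_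
      rw [map_mul, ← mul_assoc (X.θ c), ← key φ h5 j, Function.comp_apply]; ring
    refine (X.M.mem_orng hon).2 ⟨_, _, r1, s * s' * ell y ^ e', SetLike.mul_mem_graded
      (SetLike.mul_mem_graded hs hs') (md_pow_mem (ell_spec y).1 e'),
      md_mul_not_mem (md_mul_not_mem h1 h3) (md_pow_not_mem (ell_spec y).2 e'), ?_⟩
    have s0 := X.th_ne' hy hs h1
    have s1 := X.th_ne' hy hs' h3
    change _ = X.θ _ / X.θ _
    rw [map_mul, map_mul, map_pow]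
    field_simp
    linear_combination r2
  · intro hz
    obtain ⟨k, s, hs, h1, χ, h2⟩ := e0_den y (fun j => e' + P.a0 j)
      (fun j s r => X.θ c * X.θ r = X.θ b * X.θ s * z * P.g j)
      (fun j s r t e => by rw [map_mul, map_mul]; linear_combination X.θ t * e) fun j => by
        rcases X.FZ_cases (P.hg j) with c1 | ⟨a, c1, c2⟩
        · exact ⟨0, 1, SetLike.one_mem_graded 𝒜, md_one_not_mem y, 0, zero_mem _, by simp [c1]⟩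
        obtain ⟨k, r, hr, s, hs, h1, h2⟩ := (X.M.mem_orng hon).1 (hz _ (div_mem_stk X c2))
        refine ⟨k, s, hs, h1, r * ell y ^ (e' + a), ?_, ?_⟩
        · rw [c1, ← Nat.cast_add, ← Nat.cast_add, Az_nat]
          exact SetLike.mul_mem_graded hr (md_pow_mem (ell_spec y).1 _)
        · have s0 := X.th_ne' hy hs h1
          change _ = X.θ _ / X.θ _ at h2
          rw [map_mul, map_pow, pow_add]
          field_simp at h2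
          linear_combination -h2
    obtain ⟨k', s', hs', h3, φ, h4, h5, h6⟩ := e0_onto g h' (n := k) (χ := χ)
      (fun j => add_assoc (k : ℤ) _ _ ▸ (h2 j).1) (by
        have : X.θ ∘ χ = (X.θ b * X.θ s * z / X.θ c) • P.g := funext fun j => by
          have := (h2 j).2
          simp only [Function.comp_apply, Pi.smul_apply, smul_eq_mul]
          field_simp
          linear_combination this
        rw [this, smul_vecMul, P.gD, smul_zero])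
    refine ⟨k' + k, s' * s, SetLike.mul_mem_graded hs' hs, md_mul_not_mem h3 h1,
      (hF _ _).2 ⟨φ, h5, fun j => by rw [Nat.cast_add]; exact h4 j, ?_⟩⟩
    have r := key φ h5 i
    rw [h6, Pi.smul_apply, smul_eq_mul, map_mul] at r
    refine mul_left_cancel₀ b0 (mul_right_cancel₀ hi ?_)
    rw [map_mul]
    linear_combination r + X.θ s' * (h2 i).2

theorem e0_core (h : Hyp 𝒜) (ff : FFD 𝒜 p) (j : Comp 𝒜 p) : ∃ κ : Pt 𝒜 → (Xc j).L,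
    (∀ y, κ y ≠ 0) ∧ ∀ D (R : Res (GD ff j D)), ∃ (F : (Xc j).Fa) (hF : (Xc j).FF F),
      (∀ N : GM 𝒜, N.Fb p → T p (R.Ext (one 𝒜) 1) N = T p ((Xc j).gm F hF) N) ∧
      ∀ y : Pt 𝒜, pr (Xc j).x.1 ≤ pr y → ∀ z, z ∈ (Xc j).stk F y ↔
        ∀ t ∈ (Xc j).stk ((Xc j).MD D) y, z * t / κ y ∈ (Xc j).M.orng y := by
  have hb : Bir 𝒜 (Xc j).θ := ⟨⟨_, (ell_spec _).1, (Xc j).one⟩, fun z => by
    obtain ⟨n, a, ha, b, hb, h, e⟩ := th_gen j.1.1 z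
    exact ⟨n, a, ha, b, hb, (Xc j).th_ne hb h, e⟩⟩
  obtain ⟨π, e, gπ⟩ := e0_gen h j j.1.1
  replace gπ := gπ le_rfl
  have loc : ∀ y : Pt 𝒜, ∃ (f : A) (e' : ℕ) (b c : A) (κ : (Xc j).L), κ ≠ 0 ∧ (pr j.1.1 ≤ pr y →
      E0G (Xc j).θ y f e' ∧ b * π = f * c ∧ (Xc j).θ b ≠ 0 ∧ (Xc j).θ c ≠ 0 ∧
        κ = (Xc j).θ c * (Xc j).θ (ell y) ^ e' / (Xc j).θ b) := fun y => by
    by_cases hy : pr j.1.1 ≤ pr y
    swap
    · exact ⟨0, 0, 0, 0, 1, one_ne_zero, fun c => absurd c hy⟩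
    obtain ⟨f, e', g⟩ := e0_gen h j y
    replace g := g hy
    obtain ⟨k, b, h1, h2, c, -, h3⟩ := g.gen _ _ gπ.mem gπ.zero
    obtain ⟨l, s, h4, h5, c', -, h6⟩ := gπ.gen _ _ g.mem g.zero
    have b0 := (Xc j).th_ne' hy h1 h2
    have c0 : (Xc j).θ c ≠ 0 := fun z => mul_ne_zero b0 ((Xc j).th_ne h4 h5) (by
      have : b * s = c * c' := mul_left_cancel₀ g.ne (by linear_combination b * h6 + c' * h3)
      rw [← map_mul, this, map_mul, z, zero_mul])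
    exact ⟨f, e', b, c, _, div_ne_zero (mul_ne_zero c0 (pow_ne_zero _ ((Xc j).ell_ne hy))) b0,
      fun _ => ⟨g, h3, b0, c0, rfl⟩⟩
  choose f e' b c κ h1 h2 using loc
  refine ⟨κ, h1, fun D R => ?_⟩
  obtain ⟨v, hv⟩ := (Xc j).exists_rl (ff j D)
  obtain ⟨σ, hσ⟩ := (hv.pres R).exists_sg gπ.mem gπ.zero
  obtain ⟨i, hi⟩ : ∃ i, (hv.pres R).g i ≠ 0 := by
    obtain ⟨n, z, hz, z0⟩ := (Xc j).exists_ne_MD D
    obtain ⟨u, -, hu⟩ := (hv.pres R).p0 n z ((Xc j).mem_FZ.2 hz)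
    by_contra hc
    push Not at hc
    exact z0 (by rw [← hu, show (hv.pres R).g = 0 from funext hc, zero_dotProduct])
  obtain ⟨w, mk, w1, w2, w3, w4, w5⟩ := e0_ext R (e0W (Xc j).θ σ i ((hv.pres R).g i)) fun ψ => by
    refine (congrArg (fun u => (Xc j).θ (u i) / (hv.pres R).g i) (e0_cob hσ ψ)).trans ?_
    change (Xc j).θ (π * _) / _ = 0
    rw [map_mul, gπ.zero, zero_mul, zero_div]
  have cs : ∀ (a : A) (φ : Fin (R.b 1) → A), φ ᵥ* R.D 1 = 0 → (a • φ) ᵥ* R.D 1 = 0 :=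
    fun a φ hφ => by rw [smul_vecMul, hφ, smul_zero]
  have kill : ∀ k : ℕ, ∀ t ∈ 𝒜 k, (Xc j).θ t = 0 → ∀ φ hφ, t • mk φ hφ = 0 := fun k t ht t0 φ hφ => by
    have ht' : t ∈ Az 𝒜 k := by rwa [Az_nat]
    obtain ⟨τ, hτ⟩ := (hv.pres R).exists_sg ht' t0
    exact (w2 t φ hφ (cs t φ hφ)).trans (w4 _ _ _ (e0_D0 hτ ht' hφ))
  have hN : (R.Ext (one 𝒜) 1).Fb p := fun m => by
    obtain ⟨φ, hφ, rfl⟩ := w3 m
    exact kill 0 _ (by exact_mod_cast md_intCast_mem (𝒜 := 𝒜) (p : ℤ))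
      (by rw [map_natCast, (Xc j).p_zero]) φ hφ
  have hw : ∀ (a : A) m, w (a • m) = (Xc j).θ a * w m := fun a m => by
    obtain ⟨φ, hφ, rfl⟩ := w3 m
    rw [w2 a φ hφ (cs a φ hφ), w1, w1, e0W_smul]
  refine ⟨_, (Xc j).ff_imF hN hw, fun N hN' => e0_T h hN (Xc j) hw (fun y n m hm m0 => ?_) hN',
    fun y hy z => ?_⟩
  · obtain ⟨φ, hφ, rfl, h3⟩ := (w5 n m).1 hm
    by_cases hy : pr j.1.1 ≤ pr y.1
    swap
    · obtain ⟨k, t, ht, h4, h5⟩ := st_off (Xc j) hy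
      exact ⟨k, t, ht, h4, kill k t ht h5 φ hφ⟩
    obtain ⟨g, h4, -, c0, -⟩ := h2 y.1 hy
    obtain ⟨σ', h'⟩ := (hv.pres R).exists_sg g.mem g.zero
    obtain ⟨k, s, hs, h5, χ, h6⟩ := e0_ker g h' h3 hφ fun l => by
      have := congrArg (Xc j).θ (congrFun (e0_cmp hσ gπ.mem h' g.mem g.ne h4 hφ) l)
      simp only [Pi.smul_apply, smul_eq_mul, map_mul] at this
      have r := (e0W_val hb hσ gπ.mem gπ.zero hi hφ l).trans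
        ((congrArg (· * _) ((w1 φ hφ).symm.trans m0)).trans (zero_mul _))
      exact (mul_eq_zero.1 (this.symm.trans ((congrArg _ r).trans (mul_zero _)))).resolve_left c0
    exact ⟨k, s, hs, h5, (w2 s φ hφ (cs s φ hφ)).trans (w4 _ _ _ h6)⟩
  · obtain ⟨g, h4, b0, c0, h5⟩ := h2 y hy
    rw [h5]
    refine e0a_colon (Xc j) hb hσ gπ.mem gπ.zero hi hy g h4 b0 c0 (fun n u =>
      (Xc j).mem_imF.trans ⟨fun ⟨m, hm, e⟩ => ?_, fun ⟨φ, hφ, h6, e⟩ =>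
        ⟨mk φ hφ, (w5 _ _).2 ⟨φ, hφ, rfl, h6⟩, (w1 φ hφ).trans e⟩⟩) z
    obtain ⟨φ, hφ, rfl, h6⟩ := (w5 n m).1 hm
    exact ⟨φ, hφ, h6, (w1 φ hφ).symm.trans e⟩

end

end Pool.Agent.Lib.MP_62d77c_ag.R
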