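import Pool.Agent.Lib.MP_62d77c_ag.R.E0d
import Pool.Agent.Lib.MP_62d77c_ag.R.E0a

/-! The Euler characteristic of Ext of a tuple of divisors. -/

set_option autoImplicit false
set_option linter.unusedSectionVars false

namespace Pool.Agent.Lib.MP_62d77c_ag.R

open Filter Polynomial Submodule

noncomputable section

variable {A : Type} [CommRing A] [IsDomain A] {𝒜 : ℕ → AddSubgroup A} [GradedRing 𝒜]
  [hG : Fact (Gen 𝒜)] {p : ℕ} [Fact p.Prime]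

theorem cyc_dual (h : Hyp 𝒜) (ff : FFD 𝒜 p) : ∃ V₁ : Vp 𝒜 p →₀ ℤ,
    ∀ (D : DT 𝒜 p) (R : ∀ j, Res (GD ff j (D j))),
      Cyc (fun N => ∑ j, mu j • T p ((R j).Ext (one 𝒜) 1) N) (V₁ - push D) := by
  have H : ∀ j : Comp 𝒜 p, ∃ K, ∀ D (R : Res (GD ff j D)),
      Cyc (fun N => T p (R.Ext (one 𝒜) 1) N - T p (GD ff j (K - D)) N) (0 : Vp 𝒜 p →₀ ℤ) := by
    intro j
    obtain ⟨κ, k0, hκ⟩ := e0_core h ff j
    obtain ⟨F₀, h0, -, c0⟩ := hκ 0 (res_nonempty _).some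
    obtain ⟨n, s, hs, h1, h2⟩ := (c0 _ le_rfl 1).2 fun t _ => e0_orng_self j.1 _
    obtain ⟨K, hK⟩ := e0_colon h (Xc j) (dm_xc h j) (fun y => {u | u / κ y.1 ∈ (Xc j).M.orng y.1})
      h0 ⟨n, _, h2, mul_ne_zero (fun e => h1 (((Xc j).ker n s hs).1 e)) one_ne_zero⟩
      fun O hO => c0 _ (pd_cen _ hO).1.1
    refine ⟨K, fun D R => ?_⟩
    obtain ⟨F, hF, e, c⟩ := hκ D R
    exact (hK D F hF (ff j _) fun O hO => c _ (pd_cen _ hO).1.1).congr fun N hN => by rw [e N hN]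
  choose K hK using H
  exact cyc_dual_of h ff K (fun _ => 0) hK

theorem e0_ee (h : Hyp 𝒜) (ff : FFD 𝒜 p) (j : Comp 𝒜 p) (D : Dvs (Xc j).L) (R : Res (GD ff j D))
    {N' : GM 𝒜} (hF : N'.Fb p) : R.EE N' p = -T p (R.Ext (one 𝒜) 1) N' := by
  obtain ⟨h1, h2, -⟩ := ext_two_nonneg h ff j D R (one 𝒜)
  have h3 : N'.Cod p 1 := cod_fb h hF (s := 4) fun y hy => by
    have := dm_le_three h y
    omega
  rw [Res.EE, ext_dual h R (fb_gm _ _) hF (split_two h ff j D R), T_symm h (Or.inl h1),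
    T_point h h3 h1 h2, zero_sub]

theorem e0_push_zero : push (0 : DT 𝒜 p) = 0 := by
  simp [push, psh_zero]

theorem e_zero (h : Hyp 𝒜) (ff : FFD 𝒜 p) : ∃ V₀ V₁ : Vp 𝒜 p →₀ ℤ, Surf V₀ ∧ Surf V₁ ∧
    ∀ (D : DT 𝒜 p) (R : ∀ j, Res (GD ff j (D j))),
      ∑ j, ∑ k, (mu j * mu k) • (R j).EE (GD ff k (D k)) p =
        C (bil (push D - V₁) (push D + V₀)) := by
  obtain ⟨V₀, h0⟩ := cyc_push h ff
  obtain ⟨V₁, h1⟩ := cyc_dual h ff
  refine ⟨V₀, V₁, ?_, ?_, fun D R => ?_⟩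
  · simpa [e0_push_zero] using (h0 0).surf
  · simpa [e0_push_zero] using (h1 0 fun j => (res_nonempty _).some).surf
  have h2 := cyc_pair h (fun j => (R j).Ext (one 𝒜) 1) (fun k => GD ff k (D k))
    (fun j => ext_fb (R j) (Or.inl (fb_gm _ _)) 1) (fun k => fb_gm _ _) (fun j => (mu j : ℤ))
    (fun j => (mu j : ℤ)) (Z := V₁ - push D) (Z' := push D + V₀)
    (by simpa only [natCast_zsmul] using h1 D R) (by simpa only [natCast_zsmul] using h0 D)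
  rw [show push D - V₁ = (-1 : ℤ) • (V₁ - push D) by simp, bil_smul_left, map_mul, ← h2,
    Finset.mul_sum]
  refine Finset.sum_congr rfl fun j _ => ?_
  rw [Finset.mul_sum]
  refine Finset.sum_congr rfl fun k _ => ?_
  rw [e0_ee h ff j (D j) (R j) (fb_gm _ _), ← Nat.cast_mul, natCast_zsmul]
  simp

end

end Pool.Agent.Lib.MP_62d77c_ag.R
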