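import Pool.Agent.Lib.MP_62d77c_ag.R.G1b
import Pool.Agent.Lib.MP_62d77c_ag.R.Bar
import Pool.Agent.Lib.MP_62d77c_ag.R.Df2

/-! Bounded Euler characteristics give torsion on a pair. -/

set_option autoImplicit false
set_option linter.unusedSectionVars false
set_option linter.unusedVariables false

namespace Pool.Agent.Lib.MP_62d77c_ag.R

open Filter Polynomial Submodule

noncomputable section

variable {A : Type} [CommRing A] [IsDomain A] {𝒜 : ℕ → AddSubgroup A} [GradedRing 𝒜]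
  [hG : Fact (Gen 𝒜)] {p : ℕ} [Fact p.Prime]

theorem g1_B {X Y : Mo 𝒜 p} (S : Sp X Y) {R : Y.Fa} (hR : ∀ n, S.bar 0 n ≤ R n) {D : Dvs X.L}
    (hD : X.Cart D) : G1B Y.V R fun a => S.bar (a • D) where
  mul a b s t := by rw [add_smul]; exact S.br_mul _ _ s t
  zero s := by rw [zero_smul]; exact hR s
  one := by rw [zero_smul]; exact S.br_one
  st a := (S.br_ff _).st
  fg a := (S.br_ff _).fg
  inv := by rw [one_smul, neg_smul, one_smul]; exact S.br_cart hD

theorem g_one {X X' : Mo 𝒜 p} (h3 : dm X.x = 3) (h3' : dm X'.x = 3) (P : Pair X X')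
    {Q : Dvs X.L → Dvs X'.L → P.Y.Fa} (hQ : QSys P Q) {D : Dvs X.L} {D' : Dvs X'.L}
    (hD : X.Cart D) (hD' : X'.Cart D') (c : ℚ)
    (hb : ∀ n : ℕ, |a1 (Q (n • D) (n • D'))| ≤ c ∧ -c ≤ (hp (Q (n • D) (n • D'))).eval 0) :
    P.Tors D D' := by
  obtain ⟨n, hn, f, f0, h⟩ := g1_main (V := P.Y.V) (R := P.OT)
    ⟨Mo.n1q_mdl _, P.br_OT_ff.fg, P.br_OT_mul, P.br_OT_pow⟩ P.br_OT_gen
    (P.br_OT_deg.trans (P.br_dm h3)) (g1_B P.S P.br_le_OT hD) (g1_B P.S' P.br_le_OT' hD')
    (fun n => Q (n • D) (n • D')) (fun n => (hQ.ff _ _).fg)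
    (fun n m => Eventually.of_forall fun t => g1m_mul fun i j e => by
      have := hQ.mul (n • D) (n • D') 0 0 t i j
      rw [sub_zero, add_zero, add_assoc, e] at this
      exact (le_of_eq (by ring)).trans this)
    (fun n => (hQ.ne _ _).frequently)
    (fun n j l => Eventually.of_forall fun i => by
      have := hQ.mul (n • D) (n • D') ((n : ℤ) • D) (-(n : ℤ) • D') i j l
      simpa using this)
    (fun n j l => Eventually.of_forall fun i => by
      have := hQ.mul 0 0 (-(n : ℤ) • D) ((n : ℤ) • D') i j l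
      simpa using this)
    (c := c) (fun n => (hb n).1) fun n => by rw [coeff_zero_eq_eval_zero]; exact (hb n).2
  rw [natCast_zsmul, natCast_zsmul] at h
  exact ⟨n, hn, f, f0, h⟩

theorem Pair.Iso.tors {X X' : Mo 𝒜 p} {P P' : Pair X X'} (h : P.Iso P') {D : Dvs X.L}
    {D' : Dvs X'.L} (ht : P'.Tors D D') : P.Tors D D' := by
  obtain ⟨-, -, σ, h1, h2⟩ := h
  obtain ⟨n, hn, f, f0, e⟩ := ht
  let τ : P'.Y.L →ₐ[ZMod p] P.Y.L :=
    { σ.symm.toRingHom with
      commutes' := fun c => RingHom.congr_fun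
        (Subsingleton.elim (σ.symm.toRingHom.comp (algebraMap (ZMod p) _)) (algebraMap _ _)) c }
  have hτ : ∀ z, τ (σ z) = z := σ.symm_apply_apply
  have b1 : ∀ E m, (P'.S.bar E m).map τ.toLinearMap = P.S.bar E m := fun E m => by
    unfold Sp.bar
    rw [map_span, ← Set.image_comp]
    congr 2
    funext z
    exact (congrArg τ (h1 E m z)).symm.trans (hτ _)
  have b2 : ∀ E m, (P'.S'.bar E m).map τ.toLinearMap = P.S'.bar E m := fun E m => by
    unfold Sp.bar
    rw [map_span, ← Set.image_comp]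
    congr 2
    funext z
    exact (congrArg τ (h2 E m z)).symm.trans (hτ _)
  have fm : ∀ (F G : P'.Y.Fa) (F' G' : P.Y.Fa), (∀ m, (F m).map τ.toLinearMap = F' m) →
      (∀ m, (G m).map τ.toLinearMap = G' m) → ∀ m,
      (Mo.fmul F G m).map τ.toLinearMap = Mo.fmul F' G' m := fun F G F' G' a b m => by
    rw [Mo.fmul_eq, Mo.fmul_eq]
    simp only [Finset.sup_eq_iSup, Submodule.map_iSup, Submodule.map_mul, a, b]
  have ot := fm _ _ _ _ (b1 0) (b2 0)
  refine ⟨n, hn, τ f, (map_ne_zero τ).2 f0, e.mono fun t ht => ?_⟩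
  have := congrArg (Submodule.map τ.toLinearMap) ht
  rwa [Submodule.map_mul, map_span, Set.image_singleton, fm _ P'.OT _ P.OT (b1 _) ot,
    fm _ P'.OT _ P.OT (b2 _) ot] at this

end

end Pool.Agent.Lib.MP_62d77c_ag.R
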