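import Pool.Agent.Lib.MP_62d77c_ag.R.K2
import Pool.Agent.Lib.MP_62d77c_ag.R.Dev

/-! Intersection numbers of surfaces and the cycle classes of modules on the fibre. -/

set_option autoImplicit false
set_option linter.unusedSectionVars false

namespace Pool.Agent.Lib.MP_62d77c_ag.R

open Filter Polynomial Submodule
open scoped TensorProduct Matrix

noncomputable section

variable {A : Type} [CommRing A] [IsDomain A] {𝒜 : ℕ → AddSubgroup A} [GradedRing 𝒜]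
  [hG : Fact (Gen 𝒜)] {p : ℕ} [Fact p.Prime] {N N' N₁ N₂ N₃ : GM 𝒜}

/-! ### the pairings are additive -/

theorem lam_nil (W : Pt 𝒜) : lam W (0 : Vp 𝒜 p →₀ ℤ) = 0 := Finsupp.sum_zero_index

theorem lam_add (W : Pt 𝒜) (Z Z' : Vp 𝒜 p →₀ ℤ) : lam W (Z + Z') = lam W Z + lam W Z' :=
  Finsupp.sum_add_index' (fun _ => by simp) fun _ _ _ => by push_cast; ring

theorem lam_single (W : Pt 𝒜) (V : Vp 𝒜 p) (b : ℤ) :
    lam W (Finsupp.single V b) = b * Bn p W V.1 := Finsupp.sum_single_index (by simp)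

/-- the pairing with a surface as a homomorphism -/
def lamH (p : ℕ) [Fact p.Prime] (W : Pt 𝒜) : (Vp 𝒜 p →₀ ℤ) →+ ℚ where
  toFun := lam W
  map_zero' := lam_nil W
  map_add' := lam_add W

theorem lam_smul (W : Pt 𝒜) (c : ℤ) (Z : Vp 𝒜 p →₀ ℤ) : lam W (c • Z) = c * lam W Z :=
  (map_zsmul (lamH p W) c Z).trans (zsmul_eq_mul _ _)

theorem bil_zero_left (Z' : Vp 𝒜 p →₀ ℤ) : bil 0 Z' = 0 := Finsupp.sum_zero_index

theorem bil_add_left (Z₁ Z₂ Z' : Vp 𝒜 p →₀ ℤ) : bil (Z₁ + Z₂) Z' = bil Z₁ Z' + bil Z₂ Z' :=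
  Finsupp.sum_add_index' (fun _ => by simp) fun _ _ _ => by push_cast; ring

theorem bil_single_left (W : Vp 𝒜 p) (a : ℤ) (Z' : Vp 𝒜 p →₀ ℤ) :
    bil (Finsupp.single W a) Z' = a * lam W.1 Z' := Finsupp.sum_single_index (by simp)

theorem bil_zero_right (Z : Vp 𝒜 p →₀ ℤ) : bil Z 0 = 0 := by simp [bil, lam_nil]

theorem bil_add_right (Z Z₁ Z₂ : Vp 𝒜 p →₀ ℤ) : bil Z (Z₁ + Z₂) = bil Z Z₁ + bil Z Z₂ := by
  simp only [bil, lam_add, mul_add, Finsupp.sum_add]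

/-- the pairing of cycles as a homomorphism in both variables -/
def bilH (𝒜 : ℕ → AddSubgroup A) [GradedRing 𝒜] [Fact (Gen 𝒜)] (p : ℕ) [Fact p.Prime] :
    (Vp 𝒜 p →₀ ℤ) →+ (Vp 𝒜 p →₀ ℤ) →+ ℚ where
  toFun Z := ⟨⟨bil Z, bil_zero_right Z⟩, bil_add_right Z⟩
  map_zero' := AddMonoidHom.ext bil_zero_left
  map_add' Z₁ Z₂ := AddMonoidHom.ext (bil_add_left Z₁ Z₂)

theorem bil_smul_left (c : ℤ) (Z Z' : Vp 𝒜 p →₀ ℤ) : bil (c • Z) Z' = c * bil Z Z' :=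
  (map_zsmul ((bilH 𝒜 p).flip Z') c Z).trans (zsmul_eq_mul _ _)

theorem bil_smul_right (c : ℤ) (Z Z' : Vp 𝒜 p →₀ ℤ) : bil Z (c • Z') = c * bil Z Z' :=
  (map_zsmul (bilH 𝒜 p Z) c Z').trans (zsmul_eq_mul _ _)

/-! ### subvarieties and hyperplane sections -/

theorem k3_fb (V : Vp 𝒜 p) (a : ℤ) : ((cy 𝒜 (pr V.1)).sh a).Fb p := fb_cy V.2

theorem k3_zeroAt {V y : Vp 𝒜 p} (h : dm V ≤ dm y) (hne : y ≠ V) (a : ℤ) :
    ((cy 𝒜 (pr V.1)).sh a).ZeroAt y.1 :=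
  (zeroAt_cy (pr_hom _) y.1).2 fun hle => absurd (dm_lt (lt_of_le_of_ne hle fun e =>
    hne (Subtype.ext (pr_inj e)).symm)) (not_lt.2 h)

theorem k3_dimLt (V : Vp 𝒜 p) (a : ℤ) {s : ℕ} (h : dm V < s) :
    ((cy 𝒜 (pr V.1)).sh a).DimLt p s := fun y hy =>
  k3_zeroAt (h.le.trans hy) (fun e => by subst e; omega) a

theorem k3_ses {f : N₁.M →ₗ[A] N₂.M} (hf : IsHom N₁ N₂ 0 f) (hi : Function.Injective f) :
    SES N₁ N₂ (N₂.quot (LinearMap.range f)) := by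
  refine ⟨f, (N₂.core (LinearMap.range f)).mkQ, hf, fun n m hm => ⟨m, by simpa using hm, rfl⟩, hi,
    fun m => ?_, Submodule.mkQ_surjective _⟩
  refine (Submodule.Quotient.mk_eq_zero _).trans ?_
  rw [N₂.core_eq hf.hg_range]
  rfl

/-- the hyperplane section of a subvariety -/
theorem k3_section (V : Vp 𝒜 p) (a : ℤ) : ∃ Q : GM 𝒜,
    SES ((cy 𝒜 (pr V.1)).sh (a - 1)) ((cy 𝒜 (pr V.1)).sh a) Q ∧ Q.Fb p ∧ Q.DimLt p (dm V) := by
  let F := (cy 𝒜 (pr V.1)).sh a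
  let f : ((cy 𝒜 (pr V.1)).sh (a - 1)).M →ₗ[A] F.M := ell V.1 • LinearMap.id
  have hf : IsHom ((cy 𝒜 (pr V.1)).sh (a - 1)) F 0 f := fun n m hm => by
    have := (cy 𝒜 (pr V.1)).smul (i := (1 : ℕ)) (by rw [Az_nat]; exact (ell_spec V.1).1) hm
    rwa [show n + (a - 1) + (1 : ℕ) = n + 0 + a by push_cast; ring] at this
  have hc : (one 𝒜).core (pr V.1) = pr V.1 := (one 𝒜).core_eq (hg_one (pr_hom _))
  have hi : Function.Injective f := by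
    refine (injective_iff_map_eq_zero f).2 fun m hm => ?_
    obtain ⟨m, rfl⟩ := ((one 𝒜).core (pr V.1)).mkQ_surjective m
    have h1 : ell V.1 • m ∈ (one 𝒜).core (pr V.1) := (Submodule.Quotient.mk_eq_zero _).1 hm
    refine (Submodule.Quotient.mk_eq_zero _).2 ?_
    rw [hc] at h1 ⊢
    exact (V.1.isPrime.mem_or_mem h1).resolve_left (ell_spec V.1).2
  have hs := k3_ses hf hi
  refine ⟨_, hs, (hs.fb (k3_fb V a)).2, fun y hy => ?_⟩
  by_cases e : y = V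
  · subst e
    intro m
    obtain ⟨m, rfl⟩ := (F.core (LinearMap.range f)).mkQ_surjective m
    refine ⟨1, ell y.1, (ell_spec _).1, (ell_spec _).2, (Submodule.Quotient.mk_eq_zero _).2 ?_⟩
    rw [F.core_eq hf.hg_range]
    exact ⟨m, rfl⟩
  · exact ((hs.zeroAt y.1).1 (k3_zeroAt hy e a)).2

theorem k3_const {P : ℚ[X]} (h : P.comp (X + C ((-1 : ℤ) : ℚ)) = P) : P = C (P.coeff 0) := by
  have e : ∀ n : ℕ, P.eval (n : ℚ) = P.eval 0 := fun n => by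
    induction n with
    | zero => simp
    | succ n ih =>
      rw [← ih, ← h]
      conv_rhs => rw [h]
      simp
  rw [coeff_zero_eq_eval_zero]
  refine eq_of_infinite_eval_eq _ _ ((Set.infinite_range_of_injective
    (Nat.cast_injective (R := ℚ))).mono ?_)
  rintro _ ⟨n, rfl⟩
  simp [e]

theorem k3_T_pt (h : Hyp 𝒜) (hN : N.Cod p 2) (V : Vp 𝒜 p) (hV : dm V = 2) (a : ℤ) :
    T p N ((cy 𝒜 (pr V.1)).sh a) = C ((T p N (cy 𝒜 (pr V.1))).coeff 0) := by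
  obtain ⟨Q, hs, hF, hQ⟩ := k3_section V 0
  have e := T_ses (N := N) h hs (Or.inr (k3_fb V 0))
  rw [T_curve h hN hF (hV ▸ hQ), add_zero, T_sh h (Or.inr (fb_cy V.2)),
    T_sh h (Or.inr (fb_cy V.2)), zero_sub] at e
  simp only [Int.cast_zero, map_zero, add_zero, comp_X] at e
  rw [T_sh h (Or.inr (fb_cy V.2)), k3_const e.symm, C_comp, coeff_C_zero]

theorem T_pt (h : Hyp 𝒜) {W : Pt 𝒜} (hW : (cy 𝒜 (pr W)).Cod p 2) (V : Vp 𝒜 p) (hV : dm V = 2) :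
    T p (cy 𝒜 (pr W)) (cy 𝒜 (pr V.1)) = C (Bn p W V.1) := by
  have e := k3_T_pt h hW V hV 0
  rw [T_sh h (Or.inr (fb_cy V.2))] at e
  simpa [Bn] using e

theorem T_surf (h : Hyp 𝒜) {W : Pt 𝒜} (hW : (cy 𝒜 (pr W)).Cod p 2) (hF : N'.Fb p)
    (hs : N'.DimLt p 3) : T p (cy 𝒜 (pr W)) N' = C (lam W (N'.cyc p 2)) := by
  rw [dev (fun N => T p (cy 𝒜 (pr W)) N) 2 (fun _ _ _ s h2 _ => T_ses h s (Or.inr h2))
    (fun _ h1 h2 => T_curve h hW h1 h2)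
    (fun x hx a => (k3_T_pt h hW x hx a).trans (T_pt h hW x hx).symm) hF hs, lam, map_finsuppSum]
  refine Finsupp.sum_congr fun x hx => ?_
  have hx2 : dm x = 2 := by
    by_contra e
    rw [Finsupp.mem_support_iff, cyc_apply hF hs, if_neg e] at hx
    exact hx rfl
  rw [T_pt h hW x hx2, ← zsmul_eq_mul, map_zsmul]

theorem k3_fb_quot (h : N.Fb p) (Z : Submodule A N.M) : (N.quot Z).Fb p :=
  ((ses_sub_quot N Z).fb h).2

theorem k3_fb_tor (R : Res N) (h : N'.Fb p) (q : ℕ) : (R.Tor N' q).Fb p := by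
  have e : ∀ q, (N'.pw (R.a q)).Fb p := fun q m => funext fun i => h (m i)
  cases q with
  | zero => exact k3_fb_quot (e 0) _
  | succ q => exact k3_fb_quot ((ses_sub_quot _ _).fb (e (q + 1))).1 _

/-- the intersection polynomial takes integral values in large degrees -/
theorem T_int (hF : N'.Fb p) : ∀ᶠ n : ℕ in atTop, ∃ z : ℤ, (T p N N').eval (n : ℚ) = z := by
  unfold T
  split_ifs with h
  · filter_upwards [(eventually_all_finset (Finset.range 5)).2 fun q _ =>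
      hp_spec' (k3_fb_tor h.some hF q)] with n hn
    refine ⟨∑ q ∈ Finset.range 5, (-1) ^ q * ((h.some.Tor N' q).sz p n : ℤ), ?_⟩
    rw [Res.TT, eval_finsetSum]
    push_cast
    exact Finset.sum_congr rfl fun q hq => by rw [eval_mul, hn q hq]; simp
  · exact Eventually.of_forall fun _ => ⟨0, by simp⟩

theorem Bn_int (h : Hyp 𝒜) {W : Pt 𝒜} (hW : (cy 𝒜 (pr W)).Cod p 2) (V : Vp 𝒜 p)
    (hV : dm V = 2) : ∃ z : ℤ, Bn p W V.1 = z := by
  obtain ⟨n, z, hz⟩ := (T_int (N := cy 𝒜 (pr W)) (fb_cy (p := p) V.2)).exists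
  rw [T_pt h hW V hV, eval_C] at hz
  exact ⟨z, hz⟩

theorem Bn_symm (h : Hyp 𝒜) (W V : Vp 𝒜 p) : Bn p W.1 V.1 = Bn p V.1 W.1 := by
  rw [Bn, Bn, T_symm h (Or.inl (fb_cy W.2))]

theorem bil_symm (h : Hyp 𝒜) (Z Z' : Vp 𝒜 p →₀ ℤ) : bil Z Z' = bil Z' Z := by
  simp only [bil, lam, Finsupp.sum, Finset.mul_sum]
  rw [Finset.sum_comm]
  exact Finset.sum_congr rfl fun V _ => Finset.sum_congr rfl fun W _ => by
    rw [Bn_symm h W V]; ring

/-! ### classes of dimension at most two -/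

theorem Surf.zero : Surf (0 : Vp 𝒜 p →₀ ℤ) := fun _ h => by simp at h

theorem Surf.add {Z Z' : Vp 𝒜 p →₀ ℤ} (h : Surf Z) (h' : Surf Z') : Surf (Z + Z') := by
  classical
  exact fun W hW => (Finset.mem_union.1 (Finsupp.support_add hW)).elim (h W) (h' W)

theorem Cyc.surf {τ : GM 𝒜 → ℚ[X]} {Z : Vp 𝒜 p →₀ ℤ} (h : Cyc τ Z) : Surf Z := by
  obtain ⟨l, -, -, rfl⟩ := h
  induction l with
  | nil => exact Surf.zero
  | cons t l ih =>
    rw [List.map_cons, List.sum_cons]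
    refine Surf.add ?_ ih
    split_ifs with e
    · intro W hW
      rwa [Finset.mem_singleton.1 (Finsupp.support_single_subset hW)]
    · exact Surf.zero

theorem Cyc.add {τ τ' : GM 𝒜 → ℚ[X]} {Z Z' : Vp 𝒜 p →₀ ℤ} (h : Cyc τ Z) (h' : Cyc τ' Z') :
    Cyc (fun N => τ N + τ' N) (Z + Z') := by
  obtain ⟨l, h1, h2, rfl⟩ := h
  obtain ⟨l', h1', h2', rfl⟩ := h'
  refine ⟨l ++ l', fun t ht => (List.mem_append.1 ht).elim (h1 t) (h1' t), fun N hN => ?_, ?_⟩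
  · rw [List.map_append, List.sum_append, ← h2 N hN, ← h2' N hN]
  · rw [List.map_append, List.sum_append]

theorem Cyc.smul {τ : GM 𝒜 → ℚ[X]} {Z : Vp 𝒜 p →₀ ℤ} (h : Cyc τ Z) (c : ℤ) :
    Cyc (fun N => c • τ N) (c • Z) := by
  obtain ⟨l, h1, h2, rfl⟩ := h
  refine ⟨l.map fun t => (c * t.1, t.2), fun t ht => ?_, fun N hN => ?_, ?_⟩
  · obtain ⟨s, hs, rfl⟩ := List.mem_map.1 ht
    exact h1 s hs
  · simp only [h2 N hN, List.smul_sum, List.map_map, Function.comp_def, mul_smul]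
  · simp only [List.smul_sum, List.map_map, Function.comp_def, smul_ite, smul_zero,
      Finsupp.smul_single, smul_eq_mul]

theorem Cyc.congr {τ τ' : GM 𝒜 → ℚ[X]} {Z : Vp 𝒜 p →₀ ℤ} (h : Cyc τ Z)
    (e : ∀ N : GM 𝒜, N.Fb p → τ' N = τ N) : Cyc τ' Z := by
  obtain ⟨l, h1, h2, h3⟩ := h
  exact ⟨l, h1, fun N hN => (e N hN).trans (h2 N hN), h3⟩

theorem Cyc.zero : Cyc (fun _ : GM 𝒜 => 0) (0 : Vp 𝒜 p →₀ ℤ) :=
  ⟨[], fun _ h => by simp at h, fun _ _ => rfl, rfl⟩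

theorem Cyc.sum {ι : Type} (s : Finset ι) {τ : ι → GM 𝒜 → ℚ[X]} {Z : ι → Vp 𝒜 p →₀ ℤ}
    (h : ∀ i ∈ s, Cyc (τ i) (Z i)) : Cyc (fun N => ∑ i ∈ s, τ i N) (∑ i ∈ s, Z i) := by
  classical
  induction s using Finset.induction_on with
  | empty => simpa using Cyc.zero
  | insert i s hi ih =>
    simp only [Finset.sum_insert hi]
    exact (h i (Finset.mem_insert_self _ _)).add (ih fun j hj => h j (Finset.mem_insert_of_mem hj))

theorem Cyc.single (V : Vp 𝒜 p) (hV : dm V ≤ 2) (a : ℤ) :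
    Cyc (T p ((cy 𝒜 (pr V.1)).sh a)) (if dm V = 2 then Finsupp.single V 1 else 0) :=
  ⟨[(1, V, a)], fun t ht => by rw [List.mem_singleton.1 ht]; exact hV, fun _ _ => by simp, by simp⟩

theorem k3_T_left (h : Hyp 𝒜) (hs : SES N₁ N₂ N₃) (hF : N.Fb p) :
    T p N₂ N = T p N₁ N + T p N₃ N := by
  rw [T_symm h (Or.inr hF), T_ses h hs (Or.inl hF), T_symm h (Or.inl hF),
    T_symm (N' := N₃) h (Or.inl hF)]

theorem k3_cyc_ses (hs : SES N₁ N₂ N₃) (hF : N₂.Fb p) {s : ℕ} (hd : N₂.DimLt p (s + 1)) :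
    N₂.cyc p s = N₁.cyc p s + N₃.cyc p s := by
  ext x
  rw [Finsupp.add_apply, cyc_apply hF hd, cyc_apply (hs.fb hF).1 ((hs.dimLt _).1 hd).1,
    cyc_apply (hs.fb hF).2 ((hs.dimLt _).1 hd).2]
  split_ifs with e
  · rw [len_ses hs hF x (e ▸ hd), Nat.cast_add]
  · rfl

theorem k3_cyc_zero (hF : N.Fb p) {s : ℕ} (hd : N.DimLt p s) : N.cyc p s = 0 := by
  have h1 : N.DimLt p (s + 1) := fun y hy => hd y (by omega)
  ext x
  rw [cyc_apply hF h1]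
  split_ifs with e
  · rw [(len_eq_zero hF x (e ▸ h1)).2 (hd x e.ge)]; rfl
  · rfl

theorem k3_cyc_cy (V : Vp 𝒜 p) (a : ℤ) :
    ((cy 𝒜 (pr V.1)).sh a).cyc p (dm V) = Finsupp.single V 1 := by
  have h1 := k3_dimLt V a (Nat.lt_succ_self _)
  ext x
  rw [cyc_apply (k3_fb V a) h1]
  by_cases e : x = V
  · subst e
    rw [if_pos rfl, len_sh, len_cy_self, Finsupp.single_eq_same, Nat.cast_one]
  · rw [Finsupp.single_eq_of_ne e]
    split_ifs with e'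
    · rw [(len_eq_zero (k3_fb V a) x (e' ▸ h1)).2 (k3_zeroAt e'.ge e a)]; rfl
    · rfl

/-- the factors of a prime filtration of a module on the fibre -/
theorem k3_factor {𝔮 : Ideal A} (h1 : 𝔮.IsPrime) (h2 : 𝔮.IsHomogeneous 𝒜) {a : ℤ}
    (hF : ((cy 𝒜 𝔮).sh a).Fb p) :
    (∀ y : Pt 𝒜, ((cy 𝒜 𝔮).sh a).ZeroAt y) ∨ ∃ V : Vp 𝒜 p, pr V.1 = 𝔮 := by
  rcases exists_pt h1 h2 with h | ⟨y, rfl⟩
  · exact Or.inl fun y => (zeroAt_cy h2 y).2 fun hle => (ell_spec y).2 (hle (h _ (ell_spec y).1))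
  · refine Or.inr ⟨⟨y, ?_⟩, rfl⟩
    have e : (p : A) • (show (one 𝒜).M from (1 : A)) ∈ (one 𝒜).core (pr y) :=
      (Submodule.Quotient.mk_eq_zero _).1 (hF (Submodule.Quotient.mk (1 : A)))
    have e' : (p : A) * 1 ∈ pr y := (one 𝒜).core_le _ e
    rwa [mul_one] at e'

theorem k3_cyc_null (h : Hyp 𝒜) (h0 : ∀ y : Pt 𝒜, N.ZeroAt y) :
    Cyc (T p N) (0 : Vp 𝒜 p →₀ ℤ) :=
  Cyc.zero.congr fun _ hN => T_disj h (Or.inr hN) fun y => Or.inl (h0 y.1)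

theorem k3_zeroAt_sub (h : Subsingleton N.M) (y : Pt 𝒜) : N.ZeroAt y := fun _ =>
  ⟨1, ell y, (ell_spec y).1, (ell_spec y).2, Subsingleton.elim _ _⟩

theorem cyc_of_dimLt (h : Hyp 𝒜) (hF : N.Fb p) (hs : N.DimLt p 3) :
    Cyc (T p N) (N.cyc p 2) := by
  revert hF hs
  refine ind_prime (P := fun N => N.Fb p → N.DimLt p 3 → Cyc (T p N) (N.cyc p 2))
    (fun N h0 hF _ => ?_) (fun N₁ N₂ 𝔮 a h1 h2 hs ih hF hd => ?_) N
  · rw [k3_cyc_zero hF fun y _ => k3_zeroAt_sub h0 y.1]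
    exact k3_cyc_null h (k3_zeroAt_sub h0)
  · have hd' := (hs.dimLt _).1 hd
    rw [k3_cyc_ses hs hF hd]
    refine (Cyc.add ?_ (ih (hs.fb hF).2 hd'.2)).congr fun N hN => k3_T_left h hs hN
    rcases k3_factor h1 h2 (hs.fb hF).1 with h0 | ⟨V, rfl⟩
    · rw [k3_cyc_zero (hs.fb hF).1 fun y _ => h0 y.1]
      exact k3_cyc_null h h0
    · have hV : dm V ≤ 2 := by
        by_contra hc
        exact (zeroAt_cy (pr_hom _) V.1).1 (hd'.1 V (by omega)) le_rfl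
      have := Cyc.single V hV a
      split_ifs at this with e
      · rwa [← e, k3_cyc_cy]
      · rwa [k3_cyc_zero (k3_fb V a) (k3_dimLt V a (by omega))]

/-- twisting a subvariety changes its class by a class of smaller dimension -/
theorem k3_twist (h : Hyp 𝒜) (V : Vp 𝒜 p) (a : ℤ) : ∃ Z : Vp 𝒜 p →₀ ℤ,
    Cyc (fun N => T p ((cy 𝒜 (pr V.1)).sh a) N - T p ((cy 𝒜 (pr V.1)).sh 0) N) Z := by
  have step : ∀ a : ℤ, ∃ Z : Vp 𝒜 p →₀ ℤ,
      Cyc (fun N => T p ((cy 𝒜 (pr V.1)).sh a) N - T p ((cy 𝒜 (pr V.1)).sh (a - 1)) N) Z :=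
    fun a => by
      obtain ⟨Q, hs, hF, hQ⟩ := k3_section V a
      exact ⟨_, (cyc_of_dimLt h hF fun y hy => hQ y ((dim_lo h V).1.trans hy)).congr fun N hN => by
        rw [k3_T_left h hs hN, add_sub_cancel_left]⟩
  induction a using Int.induction_on with
  | zero => exact ⟨0, Cyc.zero.congr fun _ _ => sub_self _⟩
  | succ a ih =>
    obtain ⟨Z, hZ⟩ := ih
    obtain ⟨Z', hZ'⟩ := step (a + 1)
    rw [add_sub_cancel_right] at hZ'
    exact ⟨_, (hZ.add hZ').congr fun _ _ => by abel⟩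
  | pred a ih =>
    obtain ⟨Z, hZ⟩ := ih
    obtain ⟨Z', hZ'⟩ := step (-a)
    exact ⟨_, (hZ.add (hZ'.smul (-1))).congr fun _ _ => by simp⟩

/-- every module on the fibre is a combination of the components, up to a class of dimension at
most two -/
theorem cyc_gen (h : Hyp 𝒜) (hF : N.Fb p) : ∃ Z : Vp 𝒜 p →₀ ℤ,
    Cyc (fun N' => T p N N' - ∑ j : Comp 𝒜 p, N.len j.1.1 • T p ((cy 𝒜 (cI j)).sh 0) N') Z := by
  have d4 : ∀ (N : GM 𝒜) (j : Comp 𝒜 p), N.DimLt p (dm j.1 + 1) := fun N j y hy => by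
    have := (dim_lo h y).1
    have := (comp_iff h j.1).2 j.2
    omega
  have null : ∀ {N : GM 𝒜} {Z : Vp 𝒜 p →₀ ℤ}, N.Fb p → (∀ j : Comp 𝒜 p, N.ZeroAt j.1.1) →
      Cyc (T p N) Z → Cyc (fun N' => T p N N' -
        ∑ j : Comp 𝒜 p, N.len j.1.1 • T p ((cy 𝒜 (cI j)).sh 0) N') Z := fun hF h0 hZ =>
    hZ.congr fun _ _ => by
      rw [Finset.sum_eq_zero fun j _ => by
        rw [(len_eq_zero hF j.1 (d4 _ j)).2 (h0 j), zero_smul], sub_zero]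
  revert hF
  refine ind_prime (P := fun N => N.Fb p → ∃ Z : Vp 𝒜 p →₀ ℤ, Cyc (fun N' => T p N N' -
      ∑ j : Comp 𝒜 p, N.len j.1.1 • T p ((cy 𝒜 (cI j)).sh 0) N') Z)
    (fun N h0 hF => ⟨_, null hF (fun _ => k3_zeroAt_sub h0 _) (k3_cyc_null h (k3_zeroAt_sub h0))⟩)
    (fun N₁ N₂ 𝔮 a h1 h2 hs ih hF => ?_) N
  obtain ⟨Z₂, hZ₂⟩ := ih (hs.fb hF).2
  obtain ⟨Z₁, hZ₁⟩ : ∃ Z : Vp 𝒜 p →₀ ℤ, Cyc (fun N' => T p ((cy 𝒜 𝔮).sh a) N' -
      ∑ j : Comp 𝒜 p, ((cy 𝒜 𝔮).sh a).len j.1.1 • T p ((cy 𝒜 (cI j)).sh 0) N') Z := by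
    rcases k3_factor h1 h2 (hs.fb hF).1 with h0 | ⟨V, rfl⟩
    · exact ⟨_, null (hs.fb hF).1 (fun _ => h0 _) (k3_cyc_null h h0)⟩
    by_cases hV : dm V = 3
    · obtain ⟨Z, hZ⟩ := k3_twist h V a
      refine ⟨Z, hZ.congr fun _ _ => ?_⟩
      rw [Finset.sum_eq_single (⟨V, (comp_iff h V).1 hV⟩ : Comp 𝒜 p) (fun j _ hj => by
        rw [(len_eq_zero (k3_fb V a) j.1 (d4 _ j)).2 (k3_zeroAt (hV.trans ((comp_iff h j.1).2
          j.2).symm).le (fun e => hj (Subtype.ext e)) a), zero_smul])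
        (fun e => (e (Finset.mem_univ _)).elim), len_sh, len_cy_self, one_smul]
    · have h3 := k3_dimLt V a (lt_of_le_of_ne (dim_lo h V).1 hV)
      exact ⟨_, null (k3_fb V a) (fun j => h3 j.1 ((comp_iff h j.1).2 j.2).ge)
        (cyc_of_dimLt h (k3_fb V a) h3)⟩
  refine ⟨_, (hZ₁.add hZ₂).congr fun N' hN' => ?_⟩
  simp only [k3_T_left h hs hN', fun j : Comp 𝒜 p => len_ses hs hF j.1 (d4 _ j), add_smul,
    Finset.sum_add_distrib]
  abel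

theorem cyc_red (h : Hyp 𝒜) (M : Comp 𝒜 p → GM 𝒜) (hF : ∀ j, (M j).Fb p)
    (h1 : ∀ j, (M j).len j.1.1 = 1) (h0 : ∀ j k : Comp 𝒜 p, j ≠ k → (M j).ZeroAt k.1.1) :
    ∃ Z : Vp 𝒜 p →₀ ℤ, Cyc (fun N => ∑ j, mu j • T p (M j) N) Z := by
  choose Z hZ using fun j => cyc_gen h (hF j)
  obtain ⟨Z₀, hZ₀⟩ := cyc_gen h (fb_cy (𝒜 := 𝒜) (Ideal.mem_span_singleton_self (p : A)))
  refine ⟨_, ((Cyc.sum Finset.univ fun j _ => (hZ j).smul (mu j)).add (hZ₀.smul (-1))).congr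
    fun N hN => ?_⟩
  have e : ∀ j, ∑ k : Comp 𝒜 p, (M j).len k.1.1 • T p ((cy 𝒜 (cI k)).sh 0) N =
      T p ((cy 𝒜 (cI j)).sh 0) N := fun j => by
    rw [Finset.sum_eq_single j (fun k _ hk => by
      rw [(len_eq_zero (hF j) k.1 fun y hy => by
        have := (dim_lo h y).1
        have := (comp_iff h k.1).2 k.2
        omega).2 (h0 j k hk.symm), zero_smul]) (fun e => (e (Finset.mem_univ _)).elim), h1, one_smul]
  simp only [e, T_symm h (Or.inr hN) (N := cy 𝒜 (Ideal.span {(p : A)})), T_fibre h hN, smul_sub,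
    Finset.sum_sub_distrib, natCast_zsmul, mu]
  simp

theorem k3_pair (h : Hyp 𝒜) {V W : Vp 𝒜 p} (hV : dm V ≤ 2) (hW : dm W ≤ 2) (a b c d : ℤ) :
    c • d • T p ((cy 𝒜 (pr W.1)).sh b) ((cy 𝒜 (pr V.1)).sh a) =
      C (bil (if dm V = 2 then Finsupp.single V c else 0)
        (if dm W = 2 then Finsupp.single W d else 0)) := by
  have cod : ∀ {V : Vp 𝒜 p}, dm V ≤ 2 → ∀ a, ((cy 𝒜 (pr V.1)).sh a).Cod p 2 := fun hV a =>
    cod_fb h (k3_fb _ a) (k3_dimLt _ a (Nat.lt_succ_of_le hV))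
  split_ifs with e e'
  · rw [bil_single_left, lam_single, T_sh h (Or.inl (k3_fb W b)), T_symm h (Or.inl (k3_fb W b)),
      k3_T_pt (N := cy 𝒜 (pr V.1)) h (cod hV 0) W e' b, C_comp, ← zsmul_eq_mul, ← zsmul_eq_mul, map_zsmul, map_zsmul]
    rfl
  · rw [T_symm h (Or.inl (k3_fb W b)), T_curve h (cod hV a) (k3_fb W b) (k3_dimLt W b (by omega)),
      bil_zero_right, smul_zero, smul_zero, map_zero]
  all_goals rw [T_curve h (cod hW b) (k3_fb V a) (k3_dimLt V a (by omega)), bil_zero_left,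
    smul_zero, smul_zero, map_zero]

theorem k3_pair_list (h : Hyp 𝒜) {V : Vp 𝒜 p} (hV : dm V ≤ 2) (a c : ℤ)
    (l : List (ℤ × Vp 𝒜 p × ℤ)) (hl : ∀ t ∈ l, dm t.2.1 ≤ 2) :
    c • (l.map fun s => s.1 • T p ((cy 𝒜 (pr s.2.1.1)).sh s.2.2) ((cy 𝒜 (pr V.1)).sh a)).sum =
      C (bil (if dm V = 2 then Finsupp.single V c else 0)
        (l.map fun t => if dm t.2.1 = 2 then Finsupp.single t.2.1 t.1 else 0).sum) := by
  induction l with
  | nil => simp [bil_zero_right]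
  | cons s l ih =>
    rw [List.map_cons, List.sum_cons, List.map_cons, List.sum_cons, smul_add, bil_add_right,
      map_add, ih fun t ht => hl t (List.mem_cons_of_mem _ ht),
      k3_pair h hV (hl s List.mem_cons_self)]

theorem cyc_pair (h : Hyp 𝒜) {ι κ : Type} [Fintype ι] [Fintype κ] (M : ι → GM 𝒜) (M' : κ → GM 𝒜)
    (hF : ∀ i, (M i).Fb p) (hF' : ∀ i, (M' i).Fb p) (c : ι → ℤ) (c' : κ → ℤ)
    {Z Z' : Vp 𝒜 p →₀ ℤ} (hZ : Cyc (fun N => ∑ i, c i • T p (M i) N) Z)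
    (hZ' : Cyc (fun N => ∑ i, c' i • T p (M' i) N) Z') :
    ∑ i, ∑ k, (c i * c' k) • T p (M i) (M' k) = C (bil Z Z') := by
  have _ := hF
  obtain ⟨l, h1, h2, rfl⟩ := hZ
  obtain ⟨l', h1', h2', rfl⟩ := hZ'
  have e : ∑ i, ∑ k, (c i * c' k) • T p (M i) (M' k) =
      ∑ k, c' k • (l.map fun t => t.1 • T p ((cy 𝒜 (pr t.2.1.1)).sh t.2.2) (M' k)).sum := by
    rw [Finset.sum_comm]
    refine Finset.sum_congr rfl fun k _ => ?_
    rw [← h2 _ (hF' k), Finset.smul_sum]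
    exact Finset.sum_congr rfl fun i _ => by rw [mul_comm, mul_smul]
  rw [e]
  clear e h2
  induction l with
  | nil => simp [bil_zero_left]
  | cons t l ih =>
    simp only [List.map_cons, List.sum_cons, smul_add, Finset.sum_add_distrib, bil_add_left, map_add]
    rw [ih fun s hs => h1 s (List.mem_cons_of_mem _ hs)]
    congr 1
    have e : ∑ k, c' k • t.1 • T p ((cy 𝒜 (pr t.2.1.1)).sh t.2.2) (M' k) = t.1 • (l'.map fun s =>
        s.1 • T p ((cy 𝒜 (pr s.2.1.1)).sh s.2.2) ((cy 𝒜 (pr t.2.1.1)).sh t.2.2)).sum := by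
      rw [← h2' _ (k3_fb _ _), Finset.smul_sum]
      exact Finset.sum_congr rfl fun k _ => by rw [smul_comm, T_symm h (Or.inr (hF' k))]
    rw [e, k3_pair_list h (h1 t List.mem_cons_self) _ _ l' h1']

end

end Pool.Agent.Lib.MP_62d77c_ag.R
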