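import Pool.Agent.Lib.MP_62d77c_ag.R.K5b
import Pool.Agent.Lib.MP_62d77c_ag.R.K5s
import Pool.Agent.Lib.MP_62d77c_ag.R.K3

/-! The cycles of the modules `O(D)`. -/

set_option autoImplicit false
set_option linter.unusedSectionVars false

namespace Pool.Agent.Lib.MP_62d77c_ag.R

open Filter Polynomial Submodule Function

noncomputable section

variable {A : Type} [CommRing A] [IsDomain A] {𝒜 : ℕ → AddSubgroup A} [GradedRing 𝒜]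
  [hG : Fact (Gen 𝒜)] {p : ℕ} [Fact p.Prime] {N N₁ N₂ N₃ Q Q' : GM 𝒜}

theorem surf_psh (h : Hyp 𝒜) (j : Comp 𝒜 p) (D : Dvs (Xc j).L) : Surf ((Xc j).psh D) :=
  k5_surf _ (dm_xc h j) D

theorem ses_gd (h : Hyp 𝒜) (ff : FFD 𝒜 p) (j : Comp 𝒜 p) {D D' : Dvs (Xc j).L} (hle : D' ≤ D) :
    ∃ Q : GM 𝒜, SES (GD ff j D') (GD ff j D) Q ∧ Q.DimLt p 3 ∧
      Q.cyc p 2 = (Xc j).psh (D - D') := k5_ses (Xc j) (dm_xc h j) hle

theorem cyc_gd (h : Hyp 𝒜) (ff : FFD 𝒜 p) (j : Comp 𝒜 p) {D D' : Dvs (Xc j).L} (hle : D' ≤ D)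
    (Q : GM 𝒜) (f : (GD ff j D').M →ₗ[A] (GD ff j D).M) (g : (GD ff j D).M →ₗ[A] Q.M)
    (hf : ∀ F, (f F).1 = F.1) (hg : IsHom _ Q 0 g) (he : Exact f g) (hs : Surjective g) :
    Q.cyc p 2 = (Xc j).psh (D - D') := (k5_cyc (Xc j) (dm_xc h j) hle hf hg he hs).2

/-- two divisors are compared through their infimum -/
theorem k5_two (h : Hyp 𝒜) (ff : FFD 𝒜 p) (j : Comp 𝒜 p) (D D' : Dvs (Xc j).L) :
    ∃ M Q Q' : GM 𝒜, M.Fb p ∧ Q.Fb p ∧ Q'.Fb p ∧ SES M (GD ff j D) Q ∧ SES M (GD ff j D') Q' ∧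
      Q.DimLt p 3 ∧ Q'.DimLt p 3 ∧ Q.cyc p 2 - Q'.cyc p 2 = (Xc j).psh D - (Xc j).psh D' := by
  obtain ⟨Q, a1, a2, a3⟩ := ses_gd h ff j (inf_le_left : D ⊓ D' ≤ D)
  obtain ⟨Q', b1, b2, b3⟩ := ses_gd h ff j (inf_le_right : D ⊓ D' ≤ D')
  refine ⟨_, Q, Q', fb_gm _ _, (a1.fb (fb_gm _ _)).2, (b1.fb (fb_gm _ _)).2, a1, b1, a2, b2, ?_⟩
  rw [a3, b3, psh_sub, psh_sub, sub_sub_sub_cancel_right]

theorem T_push (h : Hyp 𝒜) (ff : FFD 𝒜 p) {W : Pt 𝒜} (hW : (cy 𝒜 (pr W)).Cod p 2) (j : Comp 𝒜 p)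
    (D : Dvs (Xc j).L) : T p (cy 𝒜 (pr W)) (GD ff j D) =
      T p (cy 𝒜 (pr W)) (GD ff j 0) + C (lam W ((Xc j).psh D)) := by
  obtain ⟨M, Q, Q', -, f1, f2, s1, s2, d1, d2, e⟩ := k5_two h ff j D 0
  rw [psh_zero, sub_zero] at e
  rw [T_ses h s1 (Or.inr (fb_gm _ _)), T_ses h s2 (Or.inr (fb_gm _ _)), T_surf h hW f1 d1,
    T_surf h hW f2 d2, add_assoc, ← C_add, ← lam_add, ← e, add_sub_cancel]

/-- multiplication by `z` -/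
theorem k5_mul (X : Mo 𝒜 p) {F F' : X.Fa} (h : X.FF F) (h' : X.FF F') {z : X.L} (hz : z ≠ 0)
    (e : ∀ n w, w ∈ F n ↔ w * z ∈ F' n) :
    ∃ Z : GM 𝒜, SES Z (X.gm F h) (X.gm F' h') ∧ ∀ y, Z.ZeroAt y := by
  obtain ⟨g, h1, h2, h3⟩ := k5_co X h (fun _ w => w * z) (fun _ _ _ _ _ => add_mul _ _ _)
    (fun _ _ _ _ _ _ => mul_assoc _ _ _) h' fun n u =>
    ⟨fun hu => ⟨u / z, (e n _).2 (by rwa [div_mul_cancel₀ _ hz]), div_mul_cancel₀ _ hz⟩,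
      fun ⟨v, hv, c⟩ => c ▸ (e n v).1 hv⟩
  refine ⟨_, (sm_ker h1 h2).ses, fun y => st_zeroAt fun k m hm =>
    ⟨1, ell y, (ell_spec y).1, (ell_spec y).2, ?_⟩⟩
  have c : g m.1 = 0 := GM.core_le _ _ m.2
  rw [show m = 0 from Subtype.ext ?_, smul_zero]
  rcases st_mem_gm' X h (m := m.1) hm with c0 | ⟨n, rfl, u, hu, c0⟩
  · exact c0
  · rw [c0, h3 n u hu, mul_eq_zero, or_iff_left hz] at c
    exact c0.trans (Subtype.ext (c ▸ X.mon_zero n))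

theorem kr_div (h : Hyp 𝒜) (j : Comp 𝒜 p) {z : (Xc j).L} (hz : z ≠ 0) {E : Dvs (Xc j).L}
    (hE : (Xc j).IsDiv z 0 E) : Kr ((Xc j).psh E) := by
  refine ⟨surf_psh h j E, fun W hW => ?_⟩
  have hc : (cy 𝒜 (pr W.1)).Cod p 2 := cod_fb (s := 3) h (fb_cy W.2) (k3_dimLt W 0 (by omega))
  obtain ⟨Z, s, z0⟩ := k5_mul (Xc j) (ffd j E) (ffd j 0) hz fun n w => by
    simpa using md_div (Xc j) hz hE 0 n w
  have a := T_push h ffd hc j E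
  rw [T_ses h s (Or.inl (fb_cy W.2)), T_disj h (Or.inl (fb_cy W.2)) fun y => Or.inr (z0 y.1),
    zero_add] at a
  exact C_eq_zero.1 (left_eq_add.1 a)

theorem len_gd (ff : FFD 𝒜 p) (j : Comp 𝒜 p) (D : Dvs (Xc j).L) : (GD ff j D).len j.1.1 = 1 :=
  (len_gm (Xc j) _ ((Xc j).stk_MD_self D)).trans (f_ofPt _)

theorem zeroAt_gd (ff : FFD 𝒜 p) {j k : Comp 𝒜 p} (e : j ≠ k) (D : Dvs (Xc j).L) :
    (GD ff j D).ZeroAt k.1.1 := zeroAt_gm (Xc j) _ fun c => e (cI_le_iff.1 c)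

theorem cyc_md (h : Hyp 𝒜) (ff : FFD 𝒜 p) (j : Comp 𝒜 p) (D : Dvs (Xc j).L) :
    Cyc (fun N => T p (GD ff j D) N - T p (GD ff j 0) N) ((Xc j).psh D) := by
  obtain ⟨M, Q, Q', -, f1, f2, s1, s2, d1, d2, e⟩ := k5_two h ff j D 0
  rw [psh_zero, sub_zero, sub_eq_add_neg, ← neg_one_zsmul] at e
  rw [← e]
  refine ((cyc_of_dimLt h f1 d1).add ((cyc_of_dimLt h f2 d2).smul (-1))).congr fun N hN => ?_
  rw [k3_T_left h s1 hN, k3_T_left h s2 hN, neg_one_zsmul]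
  ring

theorem cyc_push (h : Hyp 𝒜) (ff : FFD 𝒜 p) : ∃ V₀ : Vp 𝒜 p →₀ ℤ, ∀ D : DT 𝒜 p,
    Cyc (fun N => ∑ j, mu j • T p (GD ff j (D j)) N) (push D + V₀) := by
  obtain ⟨V, hV⟩ := cyc_red h (fun j => GD ff j 0) (fun _ => fb_gm _ _) (fun j => len_gd ff j 0)
    fun j k e => zeroAt_gd ff e 0
  refine ⟨V, fun D => ?_⟩
  have := (Cyc.sum Finset.univ fun j _ => (cyc_md h ff j (D j)).smul (mu j)).add hV
  simp only [natCast_zsmul] at this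
  exact this.congr fun N _ => by simp only [smul_sub, Finset.sum_sub_distrib, sub_add_cancel]

end

end Pool.Agent.Lib.MP_62d77c_ag.R
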