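import Pool.Agent.Lib.MP_62d77c_ag.R.Q4a

/-! A divisorial module that is principal along a slice and has bounded Ext is principal. -/

set_option autoImplicit false
set_option linter.unusedSectionVars false
set_option linter.style.haveILetI false

namespace Pool.Agent.Lib.MP_62d77c_ag.R

open Function Matrix Ann IsLocalRing
open scoped TensorProduct

section val

variable {L : Type} [Field L] {B : Subring L} {O : ValuationSubring L}

theorem q4_unit {a z : L} (h : O.valuation a = 1) : a * z ∈ O ↔ z ∈ O := by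
  rw [← O.valuation_le_one_iff, ← O.valuation_le_one_iff, map_mul, h, one_mul]

theorem q4_val (hO : O ∈ Ht1 B) {x : L} (hx : x ∈ B) (h : ¬O.valuation x < 1) :
    O.valuation x = 1 := le_antisymm ((O.valuation_le_one_iff _).2 (Ht1.le hO hx)) (not_lt.1 h)

theorem q4_pow (z : L) (D : Dvs L) (q : ℕ) :
    z ^ q * unif O ^ (q • D) O = (z * unif O ^ D O) ^ q := by
  rw [mul_pow, Finsupp.smul_apply, nsmul_eq_mul, mul_comm (q : ℤ), _root_.zpow_mul, zpow_natCast]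

/-- sections of `O(E)` at the components of `x = 0` -/
def MT (B : Subring L) (x : L) (E : Dvs L) : Submodule B L where
  carrier := {z | ∀ O ∈ Ht1 B, O.valuation x < 1 → z * unif O ^ E O ∈ O}
  zero_mem' := fun O _ _ => by simp [zero_mem]
  add_mem' := fun {a b} ha hb O hO h => by rw [add_mul]; exact add_mem (ha O hO h) (hb O hO h)
  smul_mem' := fun r z hz O hO h => by
    rw [Subring.smul_def, smul_eq_mul, mul_assoc]
    exact mul_mem (Ht1.le hO r.2) (hz O hO h)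

/-- elements that lift modulo `ξ` -/
def Lf (B : Subring L) (x ξ : L) (E : Dvs L) : Submodule B L where
  carrier := {z | ∃ m ∈ Dv B E, ∃ t ∈ MT B x E, z = m + ξ * t}
  zero_mem' := ⟨0, zero_mem _, 0, zero_mem _, by simp⟩
  add_mem' := by
    rintro _ _ ⟨m, hm, t, ht, rfl⟩ ⟨m', hm', t', ht', rfl⟩
    exact ⟨_, add_mem hm hm', _, add_mem ht ht', by ring⟩
  smul_mem' := by
    rintro r _ ⟨m, hm, t, ht, rfl⟩
    exact ⟨_, Submodule.smul_mem _ r hm, _, Submodule.smul_mem _ r ht, by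
      simp only [Subring.smul_def, smul_eq_mul]; ring⟩

theorem q4_div {x t : L} (hx : x ∈ B) {E : Dvs L} (ht : t ∈ MT B x E) {n : ℕ}
    (h : x ^ n * t ∈ Dv B E) : t ∈ Dv B E := fun O hO => by
  by_cases e : O.valuation x < 1
  · exact ht O hO e
  · refine (q4_unit (a := x ^ n) (by rw [map_pow, q4_val hO hx e, one_pow])).1 ?_
    rw [← mul_assoc]; exact h O hO

theorem q4_clear (hB : Nrm B) {P : Ideal B} (hP : P.IsPrime) {x z : L} {E : Dvs L}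
    (hz : ∀ O 𝔮, 𝔮.IsPrime → 𝔮.height = 1 → Ctr B O 𝔮 → 𝔮 ≤ P → O.valuation x < 1 →
      z * unif O ^ E O ∈ O) : ∃ w : B, w ∉ P ∧ (w : L) * z ∈ MT B x E := by
  classical
  by_cases h0 : z = 0
  · exact ⟨1, (Ideal.ne_top_iff_one _).1 hP.ne_top, by simp [h0]⟩
  let E' : Dvs L := Finsupp.ofSupportFinite
    (fun O => if O.valuation x < 1 then E O else if O ∈ Ht1 B then -ord O z else 0)
    (((hB.finite_ord h0).union E.support.finite_toSet).subset fun O hO => by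
      rw [Function.mem_support] at hO
      split_ifs at hO with h1 h2
      · exact Or.inr (Finsupp.mem_support_iff.2 hO)
      · exact Or.inl ⟨h2, neg_ne_zero.1 hO⟩
      · exact absurd rfl hO)
  have e : ∀ O, E' O = if O.valuation x < 1 then E O else if O ∈ Ht1 B then -ord O z else 0 :=
    fun O => rfl
  obtain ⟨w, hw, h1⟩ := hB.exists_clear_prime (z := z) (D := E') hP fun O 𝔮 k1 k2 k3 k4 => by
    have hO : O ∈ Ht1 B := ⟨𝔮, k1, k2, k3⟩
    rw [e]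
    split_ifs with h1
    · exact hz O 𝔮 k1 k2 k3 k4 h1
    · rw [(hB.disc hO).mul_mem_iff h0, neg_neg]
  exact ⟨w, hw, fun O hO h => by have := h1 O hO; rwa [e, if_pos h] at this⟩

variable {𝔪 : Ideal B} {x : B} {D : Dvs L} {s : L}

/-- the Frobenius power of the slice generator lifts away from the closed point -/
theorem q4_frob (p : ℕ) [Fact p.Prime] [CharP L p] (hB : Nrm B) (hm : 𝔪.IsPrime) (x0 : x ≠ 0)
    (h : Sl B 𝔪 x D s) (n : ℕ) : ∃ (u : B) (k : ℕ), u ∉ 𝔪 ∧ ∀ a ∈ 𝔪 ^ k,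
      (a : L) * (u * s ^ p ^ n) ∈ Lf B x (x ^ p ^ n) (p ^ n • D) := by
  haveI := hB.noeth
  have x0' : (x : L) ≠ 0 := fun e => x0 (Subtype.ext e)
  let J : Ideal B := (Lf B x (x ^ p ^ n) (p ^ n • D)).comap
    (LinearMap.toSpanSingleton B L (s ^ p ^ n))
  have hJ : ∀ w : B, w ∈ J ↔ (w : L) * s ^ p ^ n ∈ Lf B x (x ^ p ^ n) (p ^ n • D) :=
    fun w => Iff.rfl
  obtain ⟨u, hu, h1⟩ := q4_isol (I := J) hm fun P hP h1 h2 => by
    by_contra hne
    have hx : x ∈ P := hP.mem_of_pow_mem (p ^ n) (h1 ((hJ _).2 ⟨0, zero_mem _, s ^ p ^ n,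
      fun O hO e => by rw [q4_pow]; exact pow_mem (h.1 O hO e) _, by simp⟩))
    obtain ⟨γ, h3, h4⟩ := h.2 P hP (lt_of_le_of_ne h2 hne) hx
    obtain ⟨w, hw, h5⟩ := hB.exists_clear_prime (z := γ ^ p ^ n) (D := p ^ n • D) hP
      fun O 𝔮 k1 k2 k3 k4 => by
        rw [q4_pow]
        exact pow_mem ((O.valuation_le_one_iff _).1 (h3 O 𝔮 k1 k2 k3 k4).le) _
    obtain ⟨w', hw', h6⟩ := q4_clear hB hP (x := x) (z := ((s - γ) / x) ^ p ^ n) (E := p ^ n • D)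
      fun O 𝔮 k1 k2 k3 k4 k5 => by
        rw [q4_pow]
        exact pow_mem (h4 O 𝔮 k1 k2 k3 k4 ((k3 x).2.2 k5)) _
    refine (hP.mem_or_mem (h1 ((hJ (w * w')).2 ⟨_, Submodule.smul_mem _ w' h5, _,
      Submodule.smul_mem _ w h6, ?_⟩))).elim hw hw'
    have e : s ^ p ^ n = γ ^ p ^ n + x ^ p ^ n * ((s - γ) / x) ^ p ^ n := by
      rw [← mul_pow, ← add_pow_char_pow, mul_div_cancel₀ _ x0', add_sub_cancel]
    simp only [Subring.smul_def, smul_eq_mul, Subring.coe_mul]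
    rw [e]; ring
  obtain ⟨k, hk⟩ := J.exists_radical_pow_le_of_fg (IsNoetherian.noetherian _)
  refine ⟨u ^ k, k, fun e => hu (hm.mem_of_pow_mem k e), fun a ha => ?_⟩
  have h2 : Ideal.span {u} * 𝔪 ≤ J.radical := Ideal.span_singleton_mul_le_iff.2 fun z hz => h1 z hz
  have h3 := hk (Ideal.pow_right_mono h2 k (mul_pow (Ideal.span {u}) 𝔪 k ▸ Ideal.mul_mem_mul
    (Ideal.pow_mem_pow (Ideal.mem_span_singleton_self u) k) ha))
  rw [hJ, Subring.coe_mul] at h3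
  rwa [← mul_assoc, mul_comm (a : L)]

/-- a section that is congruent to a unit multiple of the slice generator is a generator -/
theorem q4_gen (p : ℕ) [Fact p.Prime] [CharP L p] (hB : Nrm B) (x0 : x ≠ 0)
    (hK : ∀ 𝔮 : Ideal B, 𝔮.IsPrime → 𝔮.height = 1 → 𝔮 ≤ 𝔪 →
      ∃ P : Ideal B, P.IsPrime ∧ P < 𝔪 ∧ 𝔮 ≤ P ∧ x ∈ P)
    (h : Sl B 𝔪 x D s) (n : ℕ) {u : B} (hu : u ∉ 𝔪) {t : L} (ht : t ∈ MT B x (p ^ n • D))
    (hm : u * s ^ p ^ n - x * t ∈ Dv B (p ^ n • D)) :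
    GenAt B 𝔪 (p ^ n • D) (u * s ^ p ^ n - x * t) := by
  intro O 𝔮 h1 h2 h3 h4
  have x0' : (x : L) ≠ 0 := fun e => x0 (Subtype.ext e)
  obtain ⟨P, hP, h5, h6, hx⟩ := hK 𝔮 h1 h2 h4
  obtain ⟨γ, h7, h8⟩ := h.2 P hP h5 hx
  obtain ⟨j, hj⟩ : ∃ j, p ^ n = j + 1 :=
    Nat.exists_eq_succ_of_ne_zero (pow_ne_zero n (Fact.out : p.Prime).ne_zero)
  have e : s ^ p ^ n = γ ^ p ^ n + x ^ p ^ n * ((s - γ) / x) ^ p ^ n := by
    rw [← mul_pow, ← add_pow_char_pow, mul_div_cancel₀ _ x0', add_sub_cancel]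
  have g0 : γ ≠ 0 := by
    rintro rfl
    simpa using h7 O 𝔮 h1 h2 h3 h6
  have g1 := pow_ne_zero (p ^ n) g0
  set m := u * s ^ p ^ n - x * t with hmd
  have key : ∀ O' 𝔮', 𝔮'.IsPrime → 𝔮'.height = 1 → Ctr B O' 𝔮' → 𝔮' ≤ P → ∀ z : L,
      O'.valuation (z / γ ^ p ^ n) = O'.valuation (z * unif O' ^ (p ^ n • D) O') :=
    fun O' 𝔮' k1 k2 k3 k4 z => by
      have : O'.valuation (γ ^ p ^ n * unif O' ^ (p ^ n • D) O') = 1 := by
        rw [q4_pow, map_pow, h7 O' 𝔮' k1 k2 k3 k4, one_pow]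
      rw [← mul_one (O'.valuation (z / _)), ← this, ← map_mul, ← mul_assoc, div_mul_cancel₀ _ g1]
  obtain ⟨w, hw, h9⟩ := hB.exists_clear_prime (z := (m / γ ^ p ^ n - u) / x) (D := 0) hP
    fun O' 𝔮' k1 k2 k3 k4 => by
      have hO : O' ∈ Ht1 B := ⟨𝔮', k1, k2, k3⟩
      have k5 : ∀ z : L, z * unif O' ^ (p ^ n • D) O' ∈ O' → z / γ ^ p ^ n ∈ O' := fun z hz => by
        rwa [← O'.valuation_le_one_iff, key O' 𝔮' k1 k2 k3 k4, O'.valuation_le_one_iff]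
      rw [Finsupp.zero_apply, zpow_zero, mul_one]
      by_cases k6 : O'.valuation x < 1
      · have k7 : (m / γ ^ p ^ n - u) / x =
            u * x ^ j * (((s - γ) / x) ^ p ^ n / γ ^ p ^ n) - t / γ ^ p ^ n := by
          rw [hmd, e]
          generalize ((s - γ) / x) ^ p ^ n = τ
          generalize γ ^ p ^ n = g at g1
          rw [hj]; field_simp; ring
        rw [k7]
        refine sub_mem (mul_mem (mul_mem (k3.mem u.2) (pow_mem (k3.mem x.2) _)) (k5 _ ?_))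
          (k5 _ (ht O' hO k6))
        rw [q4_pow]
        exact pow_mem (h8 O' 𝔮' k1 k2 k3 k4 ((k3 x).2.2 k6)) _
      · refine (q4_unit (q4_val hO x.2 k6)).1 ?_
        rw [mul_div_cancel₀ _ x0']
        exact sub_mem (k5 _ (hm O' hO)) (k3.mem u.2)
  rw [hB.mem_Dv_zero] at h9
  have k1 : w * u + x * ⟨_, h9⟩ ∉ 𝔮 := fun k => (hP.mem_or_mem
    ((P.add_mem_iff_left (P.mul_mem_right _ hx)).1 (h6 k))).elim hw fun k' => hu (h5.le k')
  have k2 := h3.eq_one k1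
  have k3 : ((w * u + x * ⟨_, h9⟩ : B) : L) = w * (m / γ ^ p ^ n) := by
    simp only [Subring.coe_add, Subring.coe_mul]
    field_simp; ring
  rwa [k3, map_mul, h3.eq_one fun k => hw (h6 k), one_mul, key O 𝔮 h1 h2 h3 h6] at k2

end val

/-- `N` has a split resolution of length two whose second Ext has length at most `C` -/
def Bd (R N : Type) [CommRing R] [AddCommGroup N] [Module R N] (C : ℕ) : Prop :=
  ∃ (n₀ n₁ n₂ n₃ : ℕ) (g : Fin n₀ → N) (D₀ : Matrix (Fin n₀) (Fin n₁) R)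
    (D₁ : Matrix (Fin n₁) (Fin n₂) R) (D₂ : Matrix (Fin n₂) (Fin n₃) R)
    (τ : Matrix (Fin n₃) (Fin n₂) R), Surjective (Fintype.linearCombination R g) ∧
      Exact (mact R D₀) (Fintype.linearCombination R g) ∧ Exact (mact R D₁) (mact R D₀) ∧
      D₁ * D₂ = 0 ∧ D₂ * τ * D₂ = D₂ ∧ Module.length R (Cok D₁ D₂ τ ⊗[R] N) ≤ C

variable {R L : Type} [CommRing R] [IsDomain R] [IsLocalRing R] [IsNoetherianRing R] [Field L]
  {B : Subring L} [Algebra R B] [Algebra R L] [IsScalarTower R B L] [Algebra.IsIntegral R B]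

theorem q4_max {P : Ideal B} (hP : P.IsPrime) (h : maximalIdeal R ≤ P.comap (algebraMap R B)) :
    P.IsMaximal := Ideal.isMaximal_of_isIntegral_of_isMaximal_comap (R := R) P
  ((maximalIdeal.isMaximal R).eq_of_le (hP.comap _).ne_top h ▸ maximalIdeal.isMaximal R)

theorem q4_avoid (hB : Nrm B) (h0 : ¬(⊥ : Ideal B).IsMaximal)
    (h1 : ∀ 𝔮 : Ideal B, 𝔮.IsPrime → 𝔮.height = 1 → ¬𝔮.IsMaximal) {z : L} (hz : z ∈ B)
    (z0 : z ≠ 0) {F : Set (Ideal R)} (hF : F.Finite)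
    (hp : ∀ Q ∈ F, Q.IsPrime ∧ ¬maximalIdeal R ≤ Q) (k : ℕ) :
    ∃ a ∈ maximalIdeal R ^ k, algebraMap R L a ≠ 0 ∧ (∀ Q ∈ F, a ∉ Q) ∧
      ∀ O ∈ Ht1 B, O.valuation z < 1 → O.valuation (algebraMap R L a) = 1 := by
  have hf : {𝔮 : Ideal B | 𝔮.IsPrime ∧ 𝔮.height = 1 ∧ ∃ O, Ctr B O 𝔮 ∧ O.valuation z < 1}.Finite :=
    ((hB.finite_lt hz z0).biUnion (t := fun O => {𝔮 | Ctr B O 𝔮}) fun O _ =>
      Set.Subsingleton.finite fun _ h _ h' => Ctr.unique h h').subset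
      fun 𝔮 ⟨k1, k2, O, k3, k4⟩ => Set.mem_biUnion (x := O) ⟨⟨𝔮, k1, k2, k3⟩, k4⟩ k3
  have hs := ((hf.insert ⊥).image (Ideal.comap (algebraMap R B))).union hF
  have hp' : ∀ Q ∈ Ideal.comap (algebraMap R B) '' insert ⊥ {𝔮 : Ideal B | 𝔮.IsPrime ∧
      𝔮.height = 1 ∧ ∃ O, Ctr B O 𝔮 ∧ O.valuation z < 1} ∪ F,
      Q.IsPrime ∧ ¬maximalIdeal R ≤ Q := by
    rintro _ (⟨𝔮, rfl | k, rfl⟩ | k)
    · exact ⟨Ideal.isPrime_bot.comap _, fun e => h0 (q4_max Ideal.isPrime_bot e)⟩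
    · exact ⟨k.1.comap _, fun e => h1 𝔮 k.1 k.2.1 (q4_max k.1 e)⟩
    · exact hp _ k
  by_contra hc
  obtain ⟨Q, hQ, hle⟩ := (Ideal.subset_union_prime_finite hs (f := id) (I := maximalIdeal R ^ k)
    ⊥ ⊥ fun P hP _ _ => (hp' P hP).1).1 fun a ha => by
      by_contra hn
      simp only [Set.mem_iUnion, not_exists, id, SetLike.mem_coe] at hn
      refine hc ⟨a, ha, fun e => hn _ (Or.inl ⟨⊥, Or.inl rfl, rfl⟩) ?_,
        fun Q hQ => hn Q (Or.inr hQ), fun O ⟨𝔮, k1, k2, k3⟩ k4 => ?_⟩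
      · exact Subtype.ext ((IsScalarTower.algebraMap_apply R B L a).symm.trans e)
      · rw [IsScalarTower.algebraMap_apply R B L a]
        exact k3.eq_one (hn _ (Or.inl ⟨𝔮, Or.inr ⟨k1, k2, O, k3, k4⟩, rfl⟩))
  exact (hp' Q hQ).2 ((hp' Q hQ).1.le_of_pow_le hle)

/-- **Q4** -/
theorem q4_main (p : ℕ) [Fact p.Prime] [CharP L p] (hB : Nrm B) (hR : 2 ≤ (maximalIdeal R).height)
    (hreg : ∀ y₁ ∈ maximalIdeal R, ∀ y₂ ∈ maximalIdeal R,
      (∀ P : Ideal R, P.IsPrime → y₁ ∈ P → y₂ ∈ P → 2 ≤ P.height) → ∀ k : ℕ,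
        ∃ w₁ ∈ maximalIdeal R ^ k, ∃ w₂ ∈ maximalIdeal R ^ k,
          RingTheory.Sequence.IsWeaklyRegular R [y₁, y₂, w₁, w₂])
    {𝔪 : Ideal B} (hm : 𝔪.IsMaximal) {x : B} (hx : x ∈ 𝔪) (x0 : x ≠ 0)
    (h1 : ∀ 𝔮 : Ideal B, 𝔮.IsPrime → 𝔮.height = 1 → ¬𝔮.IsMaximal)
    (hK : ∀ 𝔮 : Ideal B, 𝔮.IsPrime → 𝔮.height = 1 → 𝔮 ≤ 𝔪 →
      ∃ P : Ideal B, P.IsPrime ∧ P < 𝔪 ∧ 𝔮 ≤ P ∧ x ∈ P) (C : ℕ) :
    ∃ q : ℕ, 0 < q ∧ ∀ (D : Dvs L) (s : L), Sl B 𝔪 x D s →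
      ∀ (N : Type) [AddCommGroup N] [Module R N] (κ : N →ₗ[R] L), Injective κ →
        (∀ z, z ∈ LinearMap.range κ ↔ z ∈ Dv B (q • D)) → Bd R N C →
          ∃ γ, GenAt B 𝔪 (q • D) γ := by
  haveI := hB.noeth
  have x0' : (x : L) ≠ 0 := fun e => x0 (Subtype.ext e)
  have hm0 : maximalIdeal R ≤ 𝔪.comap (algebraMap R B) :=
    (eq_maximalIdeal (Ideal.isMaximal_comap_of_isIntegral_of_isMaximal 𝔪)).ge
  have h0 : ¬(⊥ : Ideal B).IsMaximal := fun e =>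
    x0 (by rwa [← e.eq_of_le hm.ne_top bot_le] at hx)
  obtain ⟨u₁, hu₁, h2⟩ := q4_isol (I := (maximalIdeal R).map (algebraMap R B)) hm.isPrime
    fun P hP k1 k2 => (q4_max hP (Ideal.map_le_iff_le_comap.1 k1)).eq_of_le hm.ne_top k2
  obtain ⟨n, hn⟩ := q3_main (K := L) (h2 x hx) C
  have hq : n < p ^ n := Nat.lt_pow_self (Fact.out : p.Prime).one_lt
  refine ⟨p ^ n, by omega, fun D s hs N _ _ κ hκ hr hb => ?_⟩
  obtain ⟨n₀, n₁, n₂, n₃, g, D₀, D₁, D₂, τ, hπ, e₀, e₁, h12, hτ, hl⟩ := hb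
  obtain ⟨u₂, k, hu₂, h3⟩ := q4_frob p hB hm.isPrime x0 hs n
  have hk : maximalIdeal R ^ (k + 1) ≤ maximalIdeal R := Ideal.pow_le_self k.succ_ne_zero
  have am : ∀ a : R, ((algebraMap R B a : B) : L) = algebraMap R L a := fun a =>
    (IsScalarTower.algebraMap_apply R B L a).symm
  obtain ⟨y₁, hy₁, y0, -, v1⟩ := q4_avoid (R := R) hB h0 h1 x.2 x0' Set.finite_empty
    (by simp) (k + 1)
  have y0' : y₁ ≠ 0 := fun e => y0 (by rw [e, map_zero])
  obtain ⟨y₂, hy₂, -, a2, v2⟩ := q4_avoid (R := R) hB h0 h1 (am y₁ ▸ (algebraMap R B y₁).2) y0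
    (Ideal.finite_minimalPrimes_of_isNoetherianRing R (Ideal.span {y₁}))
    (fun Q hQ => ⟨hQ.1.1, fun e => by
      haveI := hQ.1.1
      have := (hR.trans (Ideal.height_mono e)).trans
        (Ideal.height_le_one_of_isPrincipal_of_mem_minimalPrimes _ Q hQ)
      exact absurd this (by decide)⟩) (k + 1)
  obtain ⟨w₁, hw₁, w₂, hw₂, hw⟩ := hreg y₁ (hk hy₁) y₂ (hk hy₂) (fun P hP k1 k2 => by
    obtain ⟨Q, hQ, hle⟩ := Ideal.exists_minimalPrimes_le ((Ideal.span_singleton_le_iff_mem P).2 k1)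
    haveI := hQ.1.1
    have l1 : (⊥ : Ideal R) < Q := bot_lt_iff_ne_bot.2 fun e =>
      y0' (by simpa [e] using hQ.1.2 (Ideal.mem_span_singleton_self y₁))
    have l2 : Q < P := lt_of_le_of_ne hle fun e => a2 Q hQ (e ▸ k2)
    have l3 := Ideal.height_add_one_le_of_lt_of_isPrime l1
    have l4 := Ideal.height_add_one_le_of_lt_of_isPrime l2
    rw [Ideal.height_bot, zero_add] at l3
    exact (add_le_add_left l3 1).trans l4) (k + 1)
  have hc : (Module.annihilator R (Cok D₁ D₂ τ)).map (algebraMap R B) ≤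
      (Lf B x (x ^ p ^ n) (p ^ n • D)).comap
        (LinearMap.toSpanSingleton B L (u₂ * s ^ p ^ n)) := by
    refine Ideal.map_le_iff_le_comap.2 fun c hc => ?_
    obtain ⟨α, hα⟩ := q4_split h12 hτ hc
    obtain ⟨m, t, ht, e⟩ := q4_core κ hκ ((MT B x (p ^ n • D)).restrictScalars R)
      (fun m O hO _ => (hr _).1 ⟨m, rfl⟩ O hO) (ξ := x ^ p ^ n) (σ := u₂ * s ^ p ^ n)
      (fun t ht h => (hr _).2 (q4_div x.2 ht ((hr _).1 h)))
      (fun m => (hr _).2 (Submodule.smul_mem _ (x ^ p ^ n) ((hr _).1 ⟨m, rfl⟩)))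
      (y₁ := y₁) (y₂ := y₂) (w₁ := w₁) (w₂ := w₂) (c := c)
      (fun t ht => ⟨t / algebraMap R L y₁, fun O hO e => (q4_unit (v1 O hO e)).1 (by
        rw [← mul_assoc, mul_div_cancel₀ _ y0]; exact ht O hO e), by
        rw [Algebra.smul_def, mul_div_cancel₀ _ y0]⟩)
      (fun z k1 k2 => (hr _).2 (hB.mem_of_pair (x := algebraMap R L y₁) (y := algebraMap R L y₂)
        (fun O hO => (em (O.valuation (algebraMap R L y₁) < 1)).elim (fun e => Or.inr (v2 O hO e))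
          fun e => Or.inl (q4_val hO (am y₁ ▸ (algebraMap R B y₁).2) e))
        (Algebra.smul_def y₁ z ▸ (hr _).1 k1) (Algebra.smul_def y₂ z ▸ (hr _).1 k2))) y0
      (fun a ha => by
        have k1 : a ∈ maximalIdeal R ^ (k + 1) := by
          rcases ha with rfl | rfl | rfl | rfl <;> assumption
        have k2 : algebraMap R B a ∈ 𝔪 ^ k := by
          have := Ideal.mem_map_of_mem (algebraMap R B) (Ideal.pow_le_pow_right k.le_succ k1)
          rw [Ideal.map_pow] at this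
          exact Ideal.pow_right_mono (Ideal.map_le_iff_le_comap.2 hm0) k this
        obtain ⟨m, hm, t, ht, e⟩ := h3 _ k2
        obtain ⟨m, rfl⟩ := (hr _).2 hm
        exact ⟨m, t, ht, by rw [Algebra.smul_def, ← am, e]⟩)
      e₁ e₀ hπ (τ := mact R α)
      (fun v => by rw [← q4_mact_smul, ← hα, q4_mact_mul, q4_mact_mul])
      (RPm.of_reg hw).2.pi (RPm.of_reg hw).2.pi
    exact ⟨κ m, (hr _).1 ⟨m, rfl⟩, t, ht, by rw [← e, Algebra.smul_def, ← am]; rfl⟩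
  haveI : Module.Finite R N := Module.Finite.of_surjective _ hπ
  obtain ⟨m, hm1, t, ht, e⟩ := hc (hn (Cok D₁ D₂ τ) (LinearMap.range κ) (Submodule.fg_range κ)
    (fun e => by
      obtain ⟨c, -, c0, hc⟩ := hB.Dv_ne (p ^ n • D)
      exact c0 (by simpa [e] using (hr c).2 hc))
    (by rwa [← (TensorProduct.congr (LinearEquiv.refl R _) (LinearEquiv.ofInjective κ hκ)).length_eq]))
  obtain ⟨j, hj⟩ : ∃ j, p ^ n = n + (j + 1) := ⟨p ^ n - n - 1, by omega⟩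
  have ht' := Submodule.smul_mem _ (x ^ j) ht
  refine ⟨_, q4_gen p hB x0 hK hs n (u := u₁ ^ n * u₂) (fun e => (hm.isPrime.mem_or_mem e).elim
    (fun e => hu₁ (hm.isPrime.mem_of_pow_mem n e)) hu₂) ht' (q4_div x.2 (n := n) (sub_mem
      (Submodule.smul_mem _ (u₁ ^ n * u₂) fun O hO e => ?_) (Submodule.smul_mem _ x ht')) ?_)⟩
  · rw [q4_pow]; exact pow_mem (hs.1 O hO e) _
  · convert hm1 using 1
    simp only [LinearMap.toSpanSingleton_apply, Subring.smul_def, smul_eq_mul, Subring.coe_mul,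
      Subring.coe_pow] at e ⊢
    generalize s ^ p ^ n = σ at e ⊢
    rw [hj] at e
    linear_combination e

end Pool.Agent.Lib.MP_62d77c_ag.R
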