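import Pool.Agent.Lib.MP_62d77c_ag.R.Q2
import Pool.Agent.Lib.MP_62d77c_ag.R.TR
import Pool.Agent.Lib.MP_62d77c_ag.R.N1f

/-! From the slices at the points over a closed point to a Cartier multiple. -/

set_option autoImplicit false
set_option linter.unusedSectionVars false

namespace Pool.Agent.Lib.MP_62d77c_ag.R

open Submodule

section field
variable {L : Type} [Field L] {R R₁ : Subring L} {D : Dvs L}

theorem Sl.qt_loc (h : IsLoc R R₁) {m : Ideal R₁} {x : R} {s : L}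
    (hs : Sl R (m.comap (Subring.inclusion h.1)) x D s) :
    Sl R₁ m (Subring.inclusion h.1 x) D s := by
  refine ⟨fun O hO => hs.1 O (h.ht1_iff.1 hO).1, fun P hP hlt hx => ?_⟩
  obtain ⟨γ, h1, h2⟩ := hs.2 (P.comap (Subring.inclusion h.1)) (hP.comap _)
    (lt_of_le_of_ne (Ideal.comap_mono hlt.le) fun e => hlt.not_ge fun z hz => by
      obtain ⟨t, ht, t0, h1, h2⟩ := h.2 z z.2
      have h3 : (⟨_, h2⟩ : R) ∈ m.comap (Subring.inclusion h.1) :=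
        m.mul_mem_left ⟨t, h.1 ht⟩ hz
      rw [← e] at h3
      have h4 := P.mul_mem_left ⟨_, h1⟩ h3
      convert h4 using 1
      exact Subtype.ext (inv_mul_cancel_left₀ t0 _).symm) hx
  exact ⟨γ, fun O 𝔮 k1 k2 k3 k4 => h1 O _ (k1.comap _) ((h.height_comap 𝔮).trans k2)
      (fun r => k3 (Subring.inclusion h.1 r)) (Ideal.comap_mono k4),
    fun O 𝔮 k1 k2 k3 k4 k5 => h2 O _ (k1.comap _) ((h.height_comap 𝔮).trans k2)
      (fun r => k3 (Subring.inclusion h.1 r)) (Ideal.comap_mono k4) k5⟩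

theorem Ctr.qt_comap {O : ValuationSubring L} {𝔮 : Ideal R₁} (h : Ctr R₁ O 𝔮) (hle : R ≤ R₁) :
    Ctr R O (𝔮.comap (Subring.inclusion hle)) := fun r => h (Subring.inclusion hle r)

theorem GenAt.qt_pow {P : Ideal R} {g : L} (h : GenAt R P D g) (k : ℕ) :
    GenAt R P (k • D) (g ^ k) := fun O 𝔮 k1 k2 k3 k4 => by
  rw [Finsupp.smul_apply, nsmul_eq_mul, mul_comm (k : ℤ), zpow_mul, zpow_natCast, ← mul_pow,
    map_pow, h O 𝔮 k1 k2 k3 k4, one_pow]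

theorem GenAt.qt_mem (hR : Nrm R) {P : Ideal R} (hP : P.IsPrime) {g : L} (h : GenAt R P D g) :
    ∃ e : R, e ∉ P ∧ (e : L) ∈ Dv R D * Dv R (-D) := by
  obtain ⟨g, g0, h⟩ : ∃ g, g ≠ 0 ∧ GenAt R P D g := by
    by_cases g0 : g = 0
    · exact ⟨1, one_ne_zero, fun O 𝔮 k1 k2 k3 k4 => by simpa [g0] using h O 𝔮 k1 k2 k3 k4⟩
    · exact ⟨g, g0, h⟩
  obtain ⟨s, hs, h1⟩ := hR.exists_clear_prime (z := g) (D := D) hP fun O 𝔮 k1 k2 k3 k4 =>
    (O.valuation_le_one_iff _).1 (h O 𝔮 k1 k2 k3 k4).le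
  obtain ⟨t, ht, h2⟩ := hR.exists_clear_prime (z := g⁻¹) (D := -D) hP fun O 𝔮 k1 k2 k3 k4 => by
    rw [Finsupp.neg_apply, zpow_neg, ← mul_inv, ← O.valuation_le_one_iff, map_inv₀,
      h O 𝔮 k1 k2 k3 k4, inv_one]
  refine ⟨s * t, fun e => (hP.mem_or_mem e).elim hs ht, ?_⟩
  convert mul_mem_mul h1 h2 using 1
  rw [Subring.coe_mul]; field_simp

theorem qt_one (hR : Nrm R) (h : ∀ m : Ideal R, m.IsMaximal → ∃ g, GenAt R m D g) :
    (1 : L) ∈ Dv R D * Dv R (-D) := by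
  let I : Ideal R := (Dv R D * Dv R (-D)).comap (Algebra.linearMap R L)
  have : I = ⊤ := by
    by_contra hc
    obtain ⟨m, hm, hle⟩ := Ideal.exists_le_maximal I hc
    obtain ⟨g, hg⟩ := h m hm
    obtain ⟨e, he, h1⟩ := hg.qt_mem hR hm.isPrime
    exact he (hle h1)
  exact (Ideal.eq_top_iff_one I).1 this

variable {p : ℕ} [Fact p.Prime] [Algebra (ZMod p) L]

theorem qt_krull (hN : NAff p R 3) {m 𝔮 : Ideal R} [m.IsMaximal] [𝔮.IsPrime] (h1 : 𝔮.height = 1)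
    (hle : 𝔮 ≤ m) {x : R} (hx : x ∈ m) : ∃ P : Ideal R, P.IsPrime ∧ P < m ∧ 𝔮 ≤ P ∧ x ∈ P := by
  have := NAff.charP p L
  let _ : Algebra (ZMod p) R := ZMod.algebra _ p
  have := n1c_ft (ZMod p) _ hN.ft
  have := hN.nrm.isFrac
  have hr : Algebra.trdeg (ZMod p) R = (3 : ℕ) :=
    (n1c_tr _ _ L (Subsingleton.elim _ _)).trans hN.dim
  obtain ⟨P, hP, h3, h4, h5, h6⟩ := MP_a460e0_co.GK.Pit.exists_cut (K := ZMod p) hle hx
  refine ⟨P, hP, h5.lt_of_ne fun e => ?_, h3, h4⟩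
  obtain ⟨s, hs⟩ := n1h_fin (K := ZMod p) 𝔮
  obtain ⟨t, ht⟩ := n1h_fin (K := ZMod p) m
  have a1 := n1h_dim hr 𝔮 hs
  have a2 := n1h_dim hr m ht
  rw [h1] at a1
  rw [hN.height_max m] at a2
  have b1 : 1 + s = 3 := by exact_mod_cast a1
  have b2 : 3 + t = 3 := by exact_mod_cast a2
  obtain rfl : s = 1 + 1 := by omega
  have h8 := (h6 1 (MP_a460e0_co.GK.Pit.dimGE_of_le_trdeg hs.ge)).le_trdeg
  rw [e, ht] at h8
  have b3 : 1 ≤ t := by exact_mod_cast h8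
  omega

theorem qt_end (hN : NAff p R 3) (h : IsLoc R R₁) (m : Ideal R₁) (hm : m.IsPrime)
    (h3 : m.height = (3 : ℕ)) : ∃ x ∈ m, x ≠ 0 ∧
      (∀ 𝔮 : Ideal R₁, 𝔮.IsPrime → 𝔮.height = 1 → 𝔮 ≤ m →
        ∃ P : Ideal R₁, P.IsPrime ∧ P < m ∧ 𝔮 ≤ P ∧ x ∈ P) ∧
      ∃ P0 : ℕ, ∀ D : Dvs L, ∃ n, 1 ≤ n ∧ n ≤ P0 ∧ ∃ s, Sl R₁ m x (n • D) s := by
  have hP : (m.comap (Subring.inclusion h.1)).IsPrime := hm.comap _
  have hm' : (m.comap (Subring.inclusion h.1)).IsMaximal := by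
    obtain ⟨M, hM, hle⟩ := (m.comap (Subring.inclusion h.1)).exists_le_maximal hP.ne_top
    rcases hle.eq_or_lt with e' | e'
    · exact e' ▸ hM
    · have a := Ideal.height_add_one_le_of_lt_of_isPrime e'
      rw [h.height_comap, h3, hN.height_max M] at a
      have b : 3 + 1 ≤ 3 := by exact_mod_cast a
      omega
  obtain ⟨x, hx, x0, P0, h4⟩ := q2_end hN _ hm'
  refine ⟨Subring.inclusion h.1 x, hx, fun e => x0 (Subring.inclusion_injective _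
    (e.trans (map_zero _).symm)), fun 𝔮 k1 k2 k3 => ?_, P0, fun D => ?_⟩
  · have := k1.comap (Subring.inclusion h.1)
    obtain ⟨P, l1, l2, l3, l4⟩ := qt_krull hN ((h.height_comap 𝔮).trans k2)
      (Ideal.comap_mono k3) hx
    let _ := (Subring.inclusion h.1).toAlgebra
    have := h.isLocalization
    have hd : Disjoint (invs R R₁ : Set R) P := Set.disjoint_left.2 fun s hs e =>
      hm.ne_top (Ideal.eq_top_of_isUnit_mem _ (l2.le e)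
        (IsLocalization.map_units R₁ (⟨s, hs⟩ : invs R R₁)))
    refine ⟨P.map (algebraMap R R₁), IsLocalization.isPrime_of_isPrime_disjoint _ _ P l1 hd,
      lt_of_le_of_ne (Ideal.map_le_iff_le_comap.2 l2.le) fun e => l2.ne ?_,
      (IsLocalization.map_under (invs R R₁) R₁ 𝔮).ge.trans (Ideal.map_mono l3),
      Ideal.mem_map_of_mem _ l4⟩
    rw [← e]
    exact (IsLocalization.under_map_of_isPrime_disjoint _ R₁ l1 hd).symm
  · obtain ⟨n, n1, n2, s, hs⟩ := h4 D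
    exact ⟨n, n1, n2, s, hs.qt_loc h⟩

end field

variable {A : Type} [CommRing A] [IsDomain A] {𝒜 : ℕ → AddSubgroup A} [GradedRing 𝒜]
  [hG : Fact (Gen 𝒜)] {p : ℕ} [Fact p.Prime] (X : Mo 𝒜 p)

theorem qt_stk {y : Pt 𝒜} (hy : pr X.x.1 ≤ pr y) {D E : Dvs X.L} {z : X.L}
    (hz : z ∈ Dv (X.nl y) D * Dv (X.nl y) E) : z ∈ X.stk (Mo.fmul (X.MD D) (X.MD E)) y := by
  refine Submodule.mul_induction_on hz (fun u hu v hv => ?_) fun u v h1 h2 => ?_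
  · obtain ⟨n, s, hs, h1, h2⟩ : u ∈ X.stk (X.MD D) y := X.stk_MD hy D ▸ hu
    obtain ⟨m, t, ht, h3, h4⟩ : v ∈ X.stk (X.MD E) y := X.stk_MD hy E ▸ hv
    exact ⟨n + m, s * t, SetLike.mul_mem_graded hs ht, md_mul_not_mem h1 h3,
      subset_span ⟨n, m, rfl, _, h2, _, h4, by rw [map_mul]; ring⟩⟩
  · obtain ⟨n, s, hs, h1, h3⟩ := h1
    obtain ⟨m, t, ht, h2, h4⟩ := h2
    refine ⟨n + m, s * t, SetLike.mul_mem_graded hs ht, md_mul_not_mem h1 h2, ?_⟩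
    have a1 := X.tr_th _ _ ht h3
    have a2 := X.tr_th _ _ hs h4
    rw [add_comm] at a2
    convert add_mem a1 a2 using 1
    rw [map_mul]; ring

theorem qt_int (y : Pt 𝒜) : letI := (Subring.inclusion (X.orng_le_nl y)).toAlgebra
    Algebra.IsIntegral (X.M.orng y) (X.nl y) :=
  letI := (Subring.inclusion (X.orng_le_nl y)).toAlgebra
  ⟨fun z => (isIntegral_algHom_iff
    (⟨(X.nl y).subtype, fun _ => rfl⟩ : X.nl y →ₐ[X.M.orng y] X.L) Subtype.val_injective).1 z.2⟩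

/-- the maximal ideals of the normalised local ring lie over the point -/
theorem qt_cen {y : Pt 𝒜} (hy : pr X.x.1 ≤ pr y) {m : Ideal (X.nl y)} (hm : m.IsMaximal)
    {O : ValuationSubring X.L} (hO : Ctr (X.nl y) O m) : X.Cen O y := by
  have hon := X.on_iff.2 hy
  have := X.M.orng_local hon
  let _ := (Subring.inclusion (X.orng_le_nl y)).toAlgebra
  have := qt_int X y
  have h0 := IsLocalRing.eq_maximalIdeal
    (Ideal.isMaximal_comap_of_isIntegral_of_isMaximal (R := X.M.orng y) m)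
  refine ⟨hy, fun n a ha => ?_⟩
  have h1 := md_pow_mem (ell_spec y).1 n
  have h2 := md_pow_not_mem (ell_spec y).2 n
  let r : X.M.orng y := ⟨_, X.M.div_mem_fr (T := (pr y).primeCompl) ha h1 h2⟩
  have h3 := hO (algebraMap _ _ r)
  rw [← Ideal.mem_comap, h0, IsLocalRing.mem_maximalIdeal, mem_nonunits_iff,
    X.M.isUnit_orng hon ha h1 h2, not_not] at h3
  rw [← map_pow]
  exact ⟨h3.1, h3.2.symm⟩

theorem qt_fin {y : Pt 𝒜} (hy : pr X.x.1 ≤ pr y) :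
    {m : Ideal (X.nl y) | m.IsMaximal}.Finite := by
  have := X.M.orng_local (X.on_iff.2 hy)
  let _ := (Subring.inclusion (X.orng_le_nl y)).toAlgebra
  have := qt_int X y
  have := (X.nrm_nl hy).noeth
  refine (Ideal.finite_minimalPrimes_of_isNoetherianRing _
    ((IsLocalRing.maximalIdeal (X.M.orng y)).map (algebraMap _ (X.nl y)))).subset fun m hm => ?_
  have hm : m.IsMaximal := hm
  refine ⟨⟨hm.isPrime, Ideal.map_le_iff_le_comap.2 (IsLocalRing.eq_maximalIdeal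
    (Ideal.isMaximal_comap_of_isIntegral_of_isMaximal (R := X.M.orng y) m)).ge⟩,
    fun P hP hle => ?_⟩
  have := hP.1
  have h1 := (IsLocalRing.maximalIdeal.isMaximal _).eq_of_le (Ideal.comap_ne_top _ hP.1.ne_top)
    (Ideal.map_le_iff_le_comap.1 hP.2)
  exact ((Ideal.isMaximal_of_isIntegral_of_isMaximal_comap (R := X.M.orng y) P
    (h1 ▸ IsLocalRing.maximalIdeal.isMaximal _)).eq_of_le hm.ne_top hle).ge

theorem qt_height {y : Vp 𝒜 p} (hy : pr X.x.1 ≤ pr y.1) (m : Ideal (X.nl y.1))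
    (hm : m.IsMaximal) : m.height + (dm y : ℕ) = (dm X.x : ℕ) := by
  obtain ⟨hl, h1⟩ := ell_spec y.1
  have h := X.isLoc_nl hy hl h1
  have := hm.isPrime.comap (Subring.inclusion h.1)
  obtain ⟨O, hO⟩ := exists_ctr m hm.isPrime
  rw [← h.height_comap]
  exact Mo.height_ctr hl h1 (qt_cen X hy hm hO) (hO.qt_comap h.1)

/-- Q2 at a point over the closed point `y` -/
theorem qt_sl (h3 : dm X.x = 3) {y : Vp 𝒜 p} (hy : dm y = 0) (hxy : pr X.x.1 ≤ pr y.1)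
    (𝔪 : Ideal (X.nl y.1)) (hm : 𝔪.IsMaximal) : ∃ x ∈ 𝔪, x ≠ 0 ∧
      (∀ 𝔮 : Ideal (X.nl y.1), 𝔮.IsPrime → 𝔮.height = 1 → 𝔮 ≤ 𝔪 →
        ∃ P : Ideal (X.nl y.1), P.IsPrime ∧ P < 𝔪 ∧ 𝔮 ≤ P ∧ x ∈ P) ∧
      ∃ P0 : ℕ, ∀ D : Dvs X.L, ∃ n, 1 ≤ n ∧ n ≤ P0 ∧ ∃ s, Sl (X.nl y.1) 𝔪 x (n • D) s := by
  obtain ⟨hl, h1⟩ := ell_spec y.1
  have hN := X.naff_ch hl fun e => h1 (hxy e)
  have h4 := qt_height X hxy 𝔪 hm
  rw [h3] at hN h4
  rw [hy, Nat.cast_zero, add_zero] at h4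
  exact qt_end hN (X.isLoc_nl hxy hl h1) 𝔪 hm.isPrime h4

theorem qt_ht (h3 : dm X.x = 3) {y : Vp 𝒜 p} (hy : dm y = 0) (hxy : pr X.x.1 ≤ pr y.1)
    (𝔮 : Ideal (X.nl y.1)) (_h1 : 𝔮.IsPrime) (h2 : 𝔮.height = 1) : ¬𝔮.IsMaximal := fun hm => by
  have h4 := qt_height X hxy 𝔮 hm
  rw [h2, h3, hy] at h4
  have : 1 + 0 = 3 := by exact_mod_cast h4
  omega

theorem qt_cart {y : Pt 𝒜} (hy : pr X.x.1 ≤ pr y) {D : Dvs X.L}
    (h : ∀ m : Ideal (X.nl y), m.IsMaximal → ∃ n : ℕ, 0 < n ∧ ∃ g, GenAt (X.nl y) m (n • D) g) :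
    ∃ n : ℕ, 0 < n ∧ X.CartAt (n • D) y := by
  classical
  choose! n n0 g hg using h
  let t := (qt_fin X hy).toFinset
  refine ⟨∏ m ∈ t, n m, Finset.prod_pos fun m hm => n0 m ((Set.Finite.mem_toFinset _).1 hm),
    qt_stk X hy (qt_one (X.nrm_nl hy) fun m hm => ?_)⟩
  obtain ⟨k, hk⟩ := Finset.dvd_prod_of_mem n ((Set.Finite.mem_toFinset (qt_fin X hy)).2 hm)
  exact ⟨_, by rw [hk, mul_comm, mul_smul]; exact (hg m hm).qt_pow k⟩

/-- the global form of Q from the local statement Q4, for any boundedness condition `Bd` -/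
theorem qt_main (h3 : dm X.x = 3) (y : Vp 𝒜 p) (h0 : dm y = 0) (Bd : Dvs X.L → Prop)
    (h4 : pr X.x.1 ≤ pr y.1 → ∀ m : Ideal (X.nl y.1), m.IsMaximal → ∀ x ∈ m, x ≠ 0 →
      ∃ q : ℕ, 0 < q ∧ ∀ (D : Dvs X.L) (s : X.L), Sl (X.nl y.1) m x D s → Bd (q • D) →
        ∃ g, GenAt (X.nl y.1) m (q • D) g) :
    ∃ N : ℕ, ∀ D : Dvs X.L, (∀ i : ℕ, 1 ≤ i → i ≤ N → Bd (i • D)) →
      ∃ n : ℕ, 0 < n ∧ X.CartAt (n • D) y.1 := by
  classical
  by_cases hy : pr X.x.1 ≤ pr y.1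
  swap
  · exact ⟨0, fun D _ => ⟨1, one_pos, by rw [Mo.CartAt, stk_off X _ hy]; trivial⟩⟩
  have key : ∀ m : Ideal (X.nl y.1), m.IsMaximal → ∃ N : ℕ, ∀ D : Dvs X.L,
      (∀ i : ℕ, 1 ≤ i → i ≤ N → Bd (i • D)) →
        ∃ n : ℕ, 0 < n ∧ ∃ g, GenAt (X.nl y.1) m (n • D) g := fun m hm => by
    obtain ⟨x, hx, x0, -, P0, h5⟩ := qt_sl X h3 h0 hy m hm
    obtain ⟨q, q0, h6⟩ := h4 hy m hm x hx x0
    refine ⟨q * P0, fun D hD => ?_⟩
    obtain ⟨n, n1, n2, s, hs⟩ := h5 D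
    have := h6 _ s hs (mul_smul q n D ▸ hD (q * n) (Nat.mul_pos q0 n1) (Nat.mul_le_mul_left q n2))
    exact ⟨q * n, Nat.mul_pos q0 n1, mul_smul q n D ▸ this⟩
  choose! N hN using key
  refine ⟨(qt_fin X hy).toFinset.sup N, fun D hD => qt_cart X hy fun m hm =>
    hN m hm D fun i h1 h2 => hD i h1 (h2.trans (Finset.le_sup ?_))⟩
  exact (Set.Finite.mem_toFinset _).2 hm

end Pool.Agent.Lib.MP_62d77c_ag.R
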