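import Pool.Agent.Lib.MP_62d77c_ag.R.K5s
import Pool.Agent.Lib.MP_62d77c_ag.R.Q4
import Pool.Agent.Lib.MP_62d77c_ag.R.QT
import Pool.Agent.Lib.MP_62d77c_ag.R.N

/-! A divisor whose multiples have bounded second Ext is Cartier up to a multiple. -/

set_option autoImplicit false
set_option linter.unusedSectionVars false
set_option linter.style.haveILetI false

namespace Pool.Agent.Lib.MP_62d77c_ag.R

open Filter Polynomial Submodule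
open scoped TensorProduct Matrix

noncomputable section

variable {A : Type} [CommRing A] [IsDomain A] {𝒜 : ℕ → AddSubgroup A} [GradedRing 𝒜]
  [hG : Fact (Gen 𝒜)] {p : ℕ} [Fact p.Prime]

theorem qg_bd (h : Hyp 𝒜) (ff : FFD 𝒜 p) (j : Comp 𝒜 p) (D : Dvs (Xc j).L) (R : Res (GD ff j D))
    (y : Vp 𝒜 p) (hy : dm y = 0) {c : ℚ} (hc : ((R.Ext (GD ff j D) 2).hp p).eval 0 ≤ c) :
    Bd (Lo y.1) ((GD ff j D).St y.1) ⌈c⌉₊ := by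
  obtain ⟨τ, hτ⟩ := split_two h ff j D R y
  obtain ⟨h1, h2, h3⟩ := st_res y.1 R
  obtain ⟨φ, h4, h5⟩ := st_ext y.1 R (GD ff j D) 1
  obtain ⟨h6, h7, -⟩ := ext_two_nonneg h ff j D R (GD ff j D)
  refine ⟨_, _, _, _, _, _, _, _, τ, h1, h2, h3 0, ?_, hτ,
    (q4_len hτ φ h4 fun v hv => (h5 v).1 hv).trans ?_⟩
  · rw [← Matrix.map_mul, st_DD R 1, Matrix.map_zero _ (map_zero _)]
  · rw [← ENat.natCast_toNat (len_ne_top h6 y (by rwa [hy])), Nat.cast_le]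
    exact_mod_cast ((len_le_hp h6 h7 y hy).trans hc).trans (Nat.le_ceil c)

theorem qg_loc (h : Hyp 𝒜) (ff : FFD 𝒜 p) (j : Comp 𝒜 p) (y : Vp 𝒜 p) (hy : dm y = 0)
    (hxy : pr (Xc j).x.1 ≤ pr y.1) (C : ℕ) (𝔪 : Ideal ((Xc j).nl y.1)) (hm : 𝔪.IsMaximal) :
    ∃ N : ℕ, ∀ D : Dvs (Xc j).L,
      (∀ i : ℕ, 1 ≤ i → i ≤ N → Bd (Lo y.1) ((GD ff j (i • D)).St y.1) C) →
      ∃ n : ℕ, 0 < n ∧ ∃ g, GenAt ((Xc j).nl y.1) 𝔪 (n • D) g := by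
  have h3 : dm (Xc j).x = 3 := dm_Comp h j
  have hr : ∀ r, (Xc j).lo hxy r ∈ (Xc j).M.orng y.1 := fun r => (Xc j).lo_range hxy ▸ ⟨r, rfl⟩
  letI : Algebra (Lo y.1) (Xc j).L := ((Xc j).lo hxy).toAlgebra
  letI : Algebra (Lo y.1) ((Xc j).nl y.1) :=
    (((Xc j).lo hxy).codRestrict _ fun r => (Xc j).orng_le_nl y.1 (hr r)).toAlgebra
  letI : Algebra (Lo y.1) ((Xc j).M.orng y.1) := (((Xc j).lo hxy).codRestrict _ hr).toAlgebra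
  haveI : IsScalarTower (Lo y.1) ((Xc j).nl y.1) (Xc j).L := .of_algebraMap_eq fun _ => rfl
  haveI : IsScalarTower (Lo y.1) ((Xc j).M.orng y.1) (Xc j).L := .of_algebraMap_eq fun _ => rfl
  haveI : Algebra.IsIntegral (Lo y.1) ((Xc j).M.orng y.1) :=
    Algebra.isIntegral_of_surjective fun z => by
      obtain ⟨r, e⟩ := ((Xc j).lo_range hxy).ge z.2
      exact ⟨r, Subtype.ext e⟩
  haveI : Algebra.IsIntegral (Lo y.1) ((Xc j).nl y.1) := ⟨fun z =>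
    (isIntegral_algHom_iff (IsScalarTower.toAlgHom (Lo y.1) ((Xc j).nl y.1) (Xc j).L)
      Subtype.val_injective).1 (isIntegral_trans (A := (Xc j).M.orng y.1) _ z.2)⟩
  haveI := lo_reg h y.1
  have hd : ringKrullDim (Lo y.1) = 4 := by rw [(dim_lo h y).2, hy]; rfl
  obtain ⟨x, hx, x0, hK, P0, hP⟩ := qt_sl (Xc j) h3 hy hxy 𝔪 hm
  obtain ⟨q, q0, hq⟩ := q4_main (R := Lo y.1) p ((Xc j).nrm_nl hxy)
    (by rw [← loP_self, loP_height h le_rfl, hy]; decide)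
    (fun y₁ h1 y₂ h2 h4 k => reg_four hd h1 h2 h4 k) hm hx x0 (qt_ht (Xc j) h3 hy hxy) hK C
  refine ⟨q * P0, fun D hD => ?_⟩
  obtain ⟨n, n1, n2, s, hs⟩ := hP D
  have i0 : 0 < q * n := Nat.mul_pos q0 n1
  obtain ⟨κ, k1, k2, k3, -⟩ := st_gm (Xc j) (ff j ((q * n) • D)) hxy
  refine ⟨q * n, i0, ?_⟩
  have := hq (n • D) s hs _ ⟨κ, k3⟩ k1 (fun z => by
    rw [smul_smul]
    exact Set.ext_iff.1 (k2.trans ((Xc j).stk_MD hxy _)) z)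
    (hD _ i0 (Nat.mul_le_mul_left q n2))
  rwa [smul_smul] at this

/-- **Q**: bounded Ext gives a Cartier multiple -/
theorem qcart (h : Hyp 𝒜) (ff : FFD 𝒜 p) (j : Comp 𝒜 p) (y : Vp 𝒜 p) (hy : dm y = 0) (c : ℚ) :
    ∃ N : ℕ, ∀ D : Dvs (Xc j).L, (∀ i : ℕ, 1 ≤ i → i ≤ N → ∃ R : Res (GD ff j (i • D)),
      ((R.Ext (GD ff j (i • D)) 2).hp p).eval 0 ≤ c) →
      ∃ n : ℕ, 0 < n ∧ (Xc j).CartAt (n • D) y.1 := by
  by_cases hxy : pr (Xc j).x.1 ≤ pr y.1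
  swap
  · exact ⟨0, fun D _ => ⟨1, one_pos, by rw [Mo.CartAt, stk_off _ _ hxy]; trivial⟩⟩
  choose! N hN using qg_loc h ff j y hy hxy ⌈c⌉₊
  obtain ⟨M, hM⟩ := ((qt_fin (Xc j) hxy).image N).bddAbove
  refine ⟨M, fun D hD => qt_cart (Xc j) hxy fun 𝔪 hm => hN 𝔪 hm D fun i h1 h2 => ?_⟩
  obtain ⟨R, hR⟩ := hD i h1 (h2.trans (hM ⟨𝔪, hm, rfl⟩))
  exact qg_bd h ff j _ R y hy hR

end

end Pool.Agent.Lib.MP_62d77c_ag.R
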