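import Pool.Agent.Lib.MP_62d77c_ag.R.A4
import Pool.Agent.Lib.MP_62d77c_ag.R.E
import Pool.Agent.Lib.MP_62d77c_ag.R.E0
import Pool.Agent.Lib.MP_62d77c_ag.R.QG
import Pool.Agent.Lib.MP_62d77c_ag.R.G1
import Pool.Agent.Lib.MP_62d77c_ag.R.HB
import Pool.Agent.Lib.MP_62d77c_ag.R.K5
import Pool.Agent.Lib.MP_62d77c_ag.R.N

/-! A cycle in the kernel of the pairing is, up to a multiple, the push forward of a Cartier
divisor with torsion differences on the off diagonal pairs. -/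

set_option autoImplicit false
set_option linter.unusedSectionVars false

namespace Pool.Agent.Lib.MP_62d77c_ag.R

open Filter Polynomial Submodule

noncomputable section

variable {A : Type} [CommRing A] [IsDomain A] {𝒜 : ℕ → AddSubgroup A} [GradedRing 𝒜]
  [hG : Fact (Gen 𝒜)] {p : ℕ} [Fact p.Prime]

theorem ca_num {K : Type} [Fintype K] {ι : K → Type} [∀ k, Fintype (ι k)] (w : K → ℕ)
    (hw : ∀ k, 0 < w k) (e0 B : K → ℚ) (B' B'' : ℚ) : ∃ c : ℚ, ∀ (e1 e2 : K → ℚ)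
    (χ : ∀ k, ι k → ℚ), (∀ k, 0 ≤ e2 k) → (∀ k, e1 k ≤ B k + ∑ i, χ k i) → (∀ k i, χ k i ≤ B') →
      ∑ k, (w k : ℚ) * (e0 k - e1 k + e2 k) ≤ B'' → (∀ k, e2 k ≤ c) ∧ ∀ k i, -c ≤ χ k i := by
  set S : ℚ := B'' + ∑ k, (w k : ℚ) * (B k + ∑ _i : ι k, B' - e0 k) with hS
  refine ⟨|S| + |B'|, fun e1 e2 χ h2 h1 h3 h4 => ?_⟩
  have hg : ∀ k, 0 ≤ ∑ i, (B' - χ k i) := fun k =>
    Finset.sum_nonneg fun i _ => sub_nonneg.2 (h3 k i)
  have hw1 : ∀ k, (1 : ℚ) ≤ w k := fun k => by exact_mod_cast hw k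
  have key : ∑ k, (e2 k + ∑ i, (B' - χ k i)) ≤ S := by
    have : ∑ k, (e2 k + ∑ i, (B' - χ k i)) ≤ ∑ k, ((w k : ℚ) * (e0 k - e1 k + e2 k) +
        (w k : ℚ) * (B k + ∑ _i : ι k, B' - e0 k)) := Finset.sum_le_sum fun k _ => by
      have e := h1 k
      have e' : e2 k + ∑ i, (B' - χ k i) ≤
          e0 k - e1 k + e2 k + (B k + ∑ _i : ι k, B' - e0 k) := by
        rw [Finset.sum_sub_distrib]; linarith
      rw [← mul_add]
      exact e'.trans (le_mul_of_one_le_left ((add_nonneg (h2 k) (hg k)).trans e') (hw1 k))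
    rw [Finset.sum_add_distrib (f := fun k => (w k : ℚ) * (e0 k - e1 k + e2 k))] at this
    linarith
  have one : ∀ k, e2 k + ∑ i, (B' - χ k i) ≤ S := fun k =>
    (Finset.single_le_sum (f := fun k => e2 k + ∑ i, (B' - χ k i))
      (fun k _ => add_nonneg (h2 k) (hg k)) (Finset.mem_univ k)).trans key
  refine ⟨fun k => ?_, fun k i => ?_⟩
  · linarith [one k, hg k, le_abs_self S, abs_nonneg B']
  · have := Finset.single_le_sum (f := fun i => B' - χ k i)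
      (fun i _ => sub_nonneg.2 (h3 k i)) (Finset.mem_univ i)
    linarith [one k, h2 k, le_abs_self S, neg_abs_le B']

theorem ca_fin {α : Type} (F : Finset α) (c : ℚ) :
    {r : α →₀ ℤ | r.support ⊆ F ∧ ∀ W, |((r W : ℤ) : ℚ)| ≤ c}.Finite := by
  refine Set.Finite.of_finite_image (f := fun r (W : F) => r W.1)
    ((Set.Finite.pi' (t := fun _ : F => Set.Icc (-⌈c⌉) ⌈c⌉) fun _ => Set.finite_Icc _ _).subset ?_)
    fun r hr r' hr' e => ?_
  · rintro _ ⟨r, hr, rfl⟩ W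
    have : |r W.1| ≤ ⌈c⌉ := by
      have := (hr.2 W.1).trans (Int.le_ceil c)
      exact_mod_cast this
    exact abs_le.1 this
  · ext W
    by_cases h : W ∈ F
    · exact congrFun e ⟨W, h⟩
    · rw [Finsupp.notMem_support_iff.1 fun h1 => h (hr.1 h1),
        Finsupp.notMem_support_iff.1 fun h1 => h (hr'.1 h1)]

theorem ca_surf_smul {Z : Vp 𝒜 p →₀ ℤ} (h : Surf Z) (c : ℤ) : Surf (c • Z) :=
  fun W hW => h W (Finsupp.support_smul hW)

theorem ca_surf_sub {Z Z' : Vp 𝒜 p →₀ ℤ} (h : Surf Z) (h' : Surf Z') : Surf (Z - Z') := by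
  have := h.add (ca_surf_smul h' (-1))
  rwa [neg_one_smul, ← sub_eq_add_neg] at this

theorem ca_surf_push (h : Hyp 𝒜) (D : DT 𝒜 p) : Surf (push D) :=
  Finset.sum_induction _ Surf (fun _ _ => Surf.add) Surf.zero fun j _ => by
    have := ca_surf_smul (surf_psh h j (D j)) (mu j)
    rwa [natCast_zsmul] at this

theorem ca_bil_kr {Z V : Vp 𝒜 p →₀ ℤ} (hZ : Surf Z) (hV : Kr V) : bil Z V = 0 :=
  Finset.sum_eq_zero fun W hW => by
    beta_reduce
    rw [hV.2 W (hZ W hW), mul_zero]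

theorem ca_bil (h : Hyp 𝒜) {V V₀ V₁ : Vp 𝒜 p →₀ ℤ} (hV : Kr V) (h0 : Surf V₀) (h1 : Surf V₁)
    (F : Finset (Vp 𝒜 p)) (c : ℚ) : ∃ B : ℚ, ∀ (Z : Vp 𝒜 p →₀ ℤ) (t : ℤ), Surf Z →
      (Z - t • V).support ⊆ F → (∀ W, |(((Z - t • V) W : ℤ) : ℚ)| ≤ c) →
        bil (Z - V₁) (Z + V₀) ≤ B := by
  obtain ⟨B, hB⟩ := ((ca_fin F c).image fun r => bil (r - V₁) (r + V₀)).bddAbove
  refine ⟨B, fun Z t hZ h2 h3 => le_trans (le_of_eq ?_) (hB ⟨Z - t • V, ⟨h2, h3⟩, rfl⟩)⟩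
  have hr := ca_surf_sub hZ (ca_surf_smul hV.1 t)
  have e1 : Z + V₀ = t • V + (Z - t • V + V₀) := by abel
  have e2 : Z - V₁ = t • V + (Z - t • V - V₁) := by abel
  rw [e1, bil_add_right, bil_smul_right, ca_bil_kr (ca_surf_sub hZ h1) hV, mul_zero, zero_add]
  conv_lhs => rw [e2, bil_add_left, bil_smul_left, bil_symm h V, ca_bil_kr (hr.add h0) hV,
    mul_zero, zero_add]

theorem cart (h : Hyp 𝒜) {V : Vp 𝒜 p →₀ ℤ} (hV : Kr V) : ∃ N : ℕ, 0 < N ∧ ∃ D : DT 𝒜 p,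
    push D = N • V ∧ (∀ j, (Xc j).Cart (D j)) ∧
      ∀ j k (P : Pair (Xc j) (Xc k)), Off P → P.Tors (D j) (D k) := by
  classical
  have ff : FFD 𝒜 p := ffd
  choose ι hι P Q B hQ1 hQ2 hoff hE using e_main h ff
  have hQ : ∀ j k i, QSys (P j k i) (Q j k i) := fun j k i =>
    ⟨fun D D' => (hQ1 j k i D D').1, fun D D' => (hQ1 j k i D D').2, hQ2 j k i⟩
  let s : FS 𝒜 p := fun j =>
    (Finset.univ.biUnion fun k => Finset.univ.image fun i => (P j k i).S.O) ∪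
      Finset.univ.biUnion fun k => Finset.univ.image fun i => (P k j i).S'.O
  have hs : s.PD := fun j O hO => by
    simp only [s, Finset.mem_union, Finset.mem_biUnion, Finset.mem_image, Finset.mem_univ,
      true_and] at hO
    rcases hO with ⟨k, i, rfl⟩ | ⟨k, i, rfl⟩
    · exact (P j k i).S.mem
    · exact (P k j i).S'.mem
  have hs1 : ∀ j k i, (P j k i).S.O ∈ s j := fun j k i => Finset.mem_union_left _
    (Finset.mem_biUnion.2 ⟨k, Finset.mem_univ _, Finset.mem_image_of_mem _ (Finset.mem_univ i)⟩)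
  have hs2 : ∀ j k i, (P j k i).S'.O ∈ s k := fun j k i => Finset.mem_union_right _
    (Finset.mem_biUnion.2 ⟨j, Finset.mem_univ _, Finset.mem_image_of_mem _ (Finset.mem_univ i)⟩)
  obtain ⟨V₀, V₁, h0, h1, hz⟩ := e_zero h ff
  have key : ∀ (F : Finset (Vp 𝒜 p)) (c : ℚ), ∃ C : ℚ, ∀ D : DT 𝒜 p, Near s F V c D →
      (∀ j, ∃ R : Res (GD ff j (D j)), ((R.Ext (GD ff j (D j)) 2).hp p).eval 0 ≤ C) ∧
      ∀ j k i, |a1 (Q j k i (D j) (D k))| ≤ C ∧ -C ≤ (hp (Q j k i (D j) (D k))).eval 0 := by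
    intro F c
    choose b hb using fun t : Σ x : Comp 𝒜 p × Comp 𝒜 p, ι x.1 x.2 =>
      q_bound (dm_xc h t.1.1) (dm_xc h t.1.2) _ (hQ t.1.1 t.1.2 t.2) c
    obtain ⟨B', hB'⟩ := (Set.finite_range b).bddAbove
    obtain ⟨B'', hB''⟩ := ca_bil h hV h0 h1 F c
    obtain ⟨C, hC⟩ := ca_num (K := Comp 𝒜 p × Comp 𝒜 p) (ι := fun x => ι x.1 x.2)
      (fun x => mu x.1 * mu x.2) (fun x => Nat.mul_pos (mu_pos h _) (mu_pos h _))
      (fun x => if x.1 = x.2 then (hp ((Xc x.1).MD 0)).eval 0 else 0) (fun x => B x.1 x.2) B' B''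
    refine ⟨max C B', fun D ⟨⟨t, ht1, ht2⟩, hsl⟩ => ?_⟩
    have hq := fun j k i => hb ⟨(j, k), i⟩ (D j) (D k)
      (hsl j k _ (hs1 j k i) _ (hs2 j k i) ((P j k i).S.cen.trans (P j k i).S'.cen.symm))
    let R : ∀ j, Res (GD ff j (D j)) := fun j => (res_nonempty _).some
    obtain ⟨c1, c2⟩ := hC (fun x => (((R x.1).Ext (GD ff x.2 (D x.2)) 1).hp p).eval 0)
      (fun x => (((R x.1).Ext (GD ff x.2 (D x.2)) 2).hp p).eval 0)
      (fun x i => (hp (Q x.1 x.2 i (D x.1) (D x.2))).eval 0)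
      (fun x => (ext_two_nonneg h ff _ _ _ _).2.2) (fun x => hE x.1 x.2 D (R x.1))
      (fun x i => (hq x.1 x.2 i).2.trans (hB' ⟨_, rfl⟩)) (by
        refine le_trans (le_of_eq ?_) (hB'' (push D) t (ca_surf_push h D) ht1 ht2)
        have e := congrArg (eval 0) (hz D R)
        rw [eval_C] at e
        rw [← e, Fintype.sum_prod_type, eval_finsetSum]
        refine Finset.sum_congr rfl fun j _ => ?_
        rw [eval_finsetSum]
        refine Finset.sum_congr rfl fun k _ => ?_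
        rw [eval_smul, nsmul_eq_mul, Res.EE, eval_add, eval_sub]
        congr 3
        by_cases e : j = k
        · subst e; rw [hom_self, if_pos rfl]
        · rw [hom_ne ff e, eval_zero, if_neg e])
    exact ⟨fun j => ⟨R j, (c1 (j, j)).trans (le_max_left _ _)⟩, fun j k i =>
      ⟨(hq j k i).1.trans ((hB' ⟨_, rfl⟩).trans (le_max_right _ _)),
        (neg_le_neg (le_max_left _ _)).trans (c2 (j, k) i)⟩⟩
  obtain ⟨N, hN, D, F, c, hp1, hc, hn⟩ := a_main h s hs hV fun F c j y hy => by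
    obtain ⟨C, hC⟩ := key F c
    obtain ⟨N, hN⟩ := qcart h ff j y hy C
    exact ⟨N, fun D hD => hN (D j) fun i h1 h2 => (hC _ (hD i h1 h2)).1 j⟩
  obtain ⟨C, hC⟩ := key F c
  refine ⟨N, hN, D, hp1, hc, fun j k P' hP' => ?_⟩
  obtain ⟨i, hi⟩ := hoff j k P' hP'
  exact hi.tors (g_one (dm_xc h j) (dm_xc h k) _ (hQ j k i) (hc j) (hc k) C
    fun n => (hC _ (hn n)).2 j k i)

end

end Pool.Agent.Lib.MP_62d77c_ag.R
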