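import Pool.Agent.Lib.MP_62d77c_ag.R.St1

/-! Depth in regular local rings: split resolutions and systems of parameters. -/

set_option autoImplicit false

namespace Pool.Agent.Lib.MP_62d77c_ag.R

open Submodule Function CategoryTheory Abelian IsLocalRing RingTheory.Sequence Pointwise
open Pool.Agent.Lib.MP_a966df_ag

section loc

variable {Q : Type} [CommRing Q] [IsLocalRing Q] [IsNoetherianRing Q] {M : Type} [AddCommGroup M]
  [Module Q M] [Module.Finite Q M]

omit [IsNoetherianRing Q] in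
theorem dm_rad_cons {I : Ideal Q} {r : Q} {rs : List Q}
    (h : maximalIdeal Q ≤ (I ⊔ Ideal.ofList (r :: rs)).radical) :
    maximalIdeal Q ≤ ((I ⊔ Ideal.span {r}) ⊔ Ideal.ofList rs).radical := by
  rwa [Ideal.ofList_cons, ← sup_assoc] at h

omit [IsLocalRing Q] [IsNoetherianRing Q] in
theorem dm_kill_sup {T : Type} [AddCommGroup T] [Module Q T] {I : Ideal Q} {r : Q}
    (h : ∀ a ∈ I, ∀ t : T, a • t = 0) (hr : ∀ t : T, r • t = 0) :
    ∀ a ∈ I ⊔ Ideal.span {r}, ∀ t : T, a • t = 0 := fun a ha t => by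
  obtain ⟨b, hb, c, hc, rfl⟩ := mem_sup.1 ha
  obtain ⟨c, rfl⟩ := Ideal.mem_span_singleton'.1 hc
  rw [add_smul, h b hb, mul_smul, hr, smul_zero, add_zero]

/-- the lemma of Ischebeck -/
theorem ischebeck {n : ℕ} (h : Dp Q n M) (rs : List Q) (hm : ∀ r ∈ rs, r ∈ maximalIdeal Q)
    (T : Type) [AddCommGroup T] [Module Q T] [Module.Finite Q T] (I : Ideal Q)
    (h1 : ∀ a ∈ I, ∀ t : T, a • t = 0) (h2 : maximalIdeal Q ≤ (I ⊔ Ideal.ofList rs).radical)
    (i : ℕ) (hi : i + rs.length < n) (x : Ext (ModuleCat.of Q T) (ModuleCat.of Q M) i) :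
    x = 0 := by
  induction rs generalizing T I i with
  | nil =>
    refine h (ModuleCat.of Q T) inferInstance (fun a ha => ?_) i hi x
    obtain ⟨k, hk⟩ := h2 ha
    exact ⟨k, h1 _ (by simpa using hk)⟩
  | cons r rs ih =>
    have hm' : ∀ a ∈ rs, a ∈ maximalIdeal Q := fun a ha => hm a (List.mem_cons_of_mem _ ha)
    rw [List.length_cons] at hi
    let g : T →ₗ[Q] T := LinearMap.lsmul Q T r
    have S1 := ses (LinearMap.ker g.rangeRestrict).injective_subtype
      g.rangeRestrict.exact_subtype_ker_map g.surjective_rangeRestrict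
    have S2 := ses (LinearMap.range g).injective_subtype (LinearMap.exact_subtype_mkQ _)
      (mkQ_surjective _)
    have : (⊤ : Submodule Q (Ext (ModuleCat.of Q T) (ModuleCat.of Q M) i)) = ⊥ := by
      refine eq_bot_of_le_smul_of_le_jacobson_bot (maximalIdeal Q) _ Module.Finite.fg_top
        (fun y _ => ?_) (maximalIdeal_le_jacobson _)
      obtain ⟨z, rfl⟩ := Ext.contravariant_sequence_exact₂ S1 _ y
        (ih hm' _ _ (dm_kill_sup (fun a ha t => Subtype.ext (h1 a ha t.1)) fun t =>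
          Subtype.ext (show g t.1 = 0 from congrArg Subtype.val (LinearMap.mem_ker.1 t.2)))
          (dm_rad_cons h2) _ (by omega) _)
      obtain ⟨z, rfl⟩ := Ext.contravariant_sequence_exact₁ S2 _ z rfl
        (ih hm' _ _ (dm_kill_sup (fun a ha t => by
          obtain ⟨t, rfl⟩ := mkQ_surjective _ t
          rw [← map_smul, h1 a ha, map_zero]) fun t => by
          obtain ⟨t, rfl⟩ := mkQ_surjective _ t
          exact (Quotient.mk_eq_zero _).2 ⟨t, rfl⟩) (dm_rad_cons h2) _ (by omega) _)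
      have e : ∀ z : Ext (ModuleCat.of Q T) (ModuleCat.of Q M) i,
          (Ext.mk₀ (r • 𝟙 _)).comp z (zero_add _) = r • z := fun z => by
        rw [Ext.mk₀_smul, Ext.smul_comp, Ext.mk₀_id_comp]
      rw [Ext.mk₀_comp_mk₀_assoc]
      exact (e z).symm ▸ smul_mem_smul (hm r List.mem_cons_self) trivial
    exact (mem_bot Q).mp (this ▸ mem_top)

/-- a system of parameters of a Cohen-Macaulay module is a regular sequence -/
theorem reg_of_sop (rs : List Q) (hm : ∀ r ∈ rs, r ∈ maximalIdeal Q) (h : Dp Q rs.length M)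
    (I : Ideal Q) (h1 : ∀ a ∈ I, ∀ t : M, a • t = 0)
    (h2 : maximalIdeal Q ≤ (I ⊔ Ideal.ofList rs).radical) : IsWeaklyRegular M rs := by
  induction rs generalizing M I with
  | nil => exact IsWeaklyRegular.nil Q M
  | cons r rs ih =>
    have hm' : ∀ a ∈ rs, a ∈ maximalIdeal Q := fun a ha => hm a (List.mem_cons_of_mem _ ha)
    rw [isWeaklyRegular_cons_iff]
    have hr : IsSMulRegular M r := by
      refine IsSMulRegular.of_right_eq_zero_of_smul fun v hv => ?_
      have := Dp.hom (Y := ModuleCat.of Q M) (ischebeck h rs hm'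
        (LinearMap.ker (LinearMap.lsmul Q M r)) _ (dm_kill_sup
          (fun a ha t => Subtype.ext (h1 a ha t.1)) fun t => Subtype.ext t.2) (dm_rad_cons h2) 0
        (by simp)) (Submodule.subtype _)
      exact LinearMap.congr_fun this ⟨v, hv⟩
    refine ⟨hr, ih hm' (Dp.quot (i := LinearMap.lsmul Q M r) hr
      (LinearMap.exact_lsmul_mkQ_smul_top M r) (mkQ_surjective _) h (h.mono (by simp))) _
      (dm_kill_sup (fun a ha t => ?_) fun t => ?_) (dm_rad_cons h2)⟩
    · obtain ⟨t, rfl⟩ := mkQ_surjective _ t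
      rw [← map_smul, h1 a ha, map_zero]
    · obtain ⟨t, rfl⟩ := mkQ_surjective _ t
      exact (Quotient.mk_eq_zero _).2 (smul_mem_pointwise_smul _ _ _ trivial)

/-- one more parameter -/
theorem dm_exists_param (I : Ideal Q) {c : ℕ∞} (hc : c + 1 ≤ (maximalIdeal Q).height)
    (h : ∀ P : Ideal Q, P.IsPrime → I ≤ P → c ≤ P.height) (k : ℕ) :
    ∃ w ∈ maximalIdeal Q ^ (k + 1), ∀ P : Ideal Q, P.IsPrime → I ≤ P → w ∈ P →
      c + 1 ≤ P.height := by
  have hf : (I.minimalPrimes \ {maximalIdeal Q}).Finite :=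
    (Ideal.finite_minimalPrimes_of_isNoetherianRing Q I).subset Set.sdiff_subset
  have := (Ideal.subset_union_prime_finite hf (f := id) ⊥ ⊥ (fun P hP _ _ => hP.1.1.1)
    (I := maximalIdeal Q)).not.2 (by
      rintro ⟨P, hP, hle⟩
      exact hP.2 (le_antisymm (le_maximalIdeal hP.1.1.1.ne_top) hle))
  obtain ⟨w, hw, h0⟩ := Set.not_subset.1 this
  refine ⟨w ^ (k + 1), Ideal.pow_mem_pow hw _, fun P hP hI hwP => ?_⟩
  obtain ⟨P₀, h1, h2⟩ := Ideal.exists_minimalPrimes_le hI
  have := h1.1.1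
  by_cases e : P₀ = maximalIdeal Q
  · rwa [le_antisymm (le_maximalIdeal hP.ne_top) (e ▸ h2)]
  · have h3 : P₀ < P := lt_of_le_of_ne h2 fun e' =>
      h0 (Set.mem_biUnion ⟨h1, e⟩ (show w ∈ P₀ from e' ▸ hP.mem_of_pow_mem _ hwP))
    exact Order.add_one_le_of_lt ((h P₀ this h1.1.2).trans_lt
      (Ideal.height_strict_mono_of_isPrime_of_isPrime h3))

end loc

theorem dp_self (R : Type) [CommRing R] [IsRegularLocalRing R] {d : ℕ} (hd : ringKrullDim R = d) :
    Dp R d R := by
  obtain ⟨xs, h1, h2, h3⟩ := reg_seq R hd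
  exact h1 ▸ Dp.of_reg (fun r hr => h2 ▸ Ideal.subset_span hr) h3

/-- in a regular local ring of dimension four: a pair in no height one prime is regular and
the quotient has depth two -/
theorem reg_four {R : Type} [CommRing R] [IsRegularLocalRing R] (hd : ringKrullDim R = 4)
    {y₁ y₂ : R} (h1 : y₁ ∈ IsLocalRing.maximalIdeal R) (h2 : y₂ ∈ IsLocalRing.maximalIdeal R)
    (h : ∀ P : Ideal R, P.IsPrime → y₁ ∈ P → y₂ ∈ P → 2 ≤ P.height) (k : ℕ) :
    ∃ w₁ ∈ IsLocalRing.maximalIdeal R ^ k, ∃ w₂ ∈ IsLocalRing.maximalIdeal R ^ k,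
      RingTheory.Sequence.IsWeaklyRegular R [y₁, y₂, w₁, w₂] := by
  have hm : (maximalIdeal R).height = 4 := by
    exact WithBot.coe_injective ((maximalIdeal_height_eq_ringKrullDim (R := R)).trans hd)
  obtain ⟨w₁, a1, b1⟩ := dm_exists_param (Ideal.span {y₁, y₂}) (c := 2) (by rw [hm]; norm_num)
    (fun P hP e => h P hP (e (Ideal.subset_span (by simp))) (e (Ideal.subset_span (by simp)))) k
  obtain ⟨w₂, a2, b2⟩ := dm_exists_param (Ideal.span {y₁, y₂} ⊔ Ideal.span {w₁}) (c := 2 + 1)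
    (by rw [hm]; norm_num) (fun P hP e => b1 P hP (le_sup_left.trans e)
      (e (Ideal.mem_sup_right (Ideal.mem_span_singleton_self _)))) k
  have p1 := Ideal.pow_le_pow_right (I := maximalIdeal R) k.le_succ
  have p2 := Ideal.pow_le_self (I := maximalIdeal R) k.succ_ne_zero
  refine ⟨w₁, p1 a1, w₂, p1 a2, reg_of_sop _ (by simp [h1, h2, p2 a1, p2 a2, -mem_maximalIdeal])
    (dp_self R hd) ⊥ (by simp) ?_⟩
  rw [Ideal.radical_eq_sInf]
  refine le_sInf fun P ⟨hP, hp⟩ => ?_
  have hl : ∀ a ∈ [y₁, y₂, w₁, w₂], a ∈ P := fun a ha =>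
    hP (Ideal.mem_sup_right (Ideal.subset_span ha))
  have h4 := b2 P hp (sup_le (Ideal.span_le.2 (by rintro _ (rfl | rfl) <;> exact hl _ (by simp)))
    ((Ideal.span_singleton_le_iff_mem _).2 (hl _ (by simp)))) (hl _ (by simp))
  by_contra hn
  have := Ideal.height_strict_mono_of_isPrime_of_isPrime
    (lt_of_le_of_ne (le_maximalIdeal hp.ne_top) fun e => hn e.ge)
  rw [hm] at this
  exact absurd (h4.trans_lt this) (by norm_num)

theorem dm_mact_eq {R : Type} [CommRing R] {β γ : Type} [Fintype γ] [DecidableEq γ]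
    (D : Matrix β γ R) : mact R D = Matrix.toLin' D := rfl

/-- a matrix with projective cokernel is split -/
theorem split_of_proj {R : Type} [CommRing R] {β γ : Type} [Fintype β] [Fintype γ]
    (D : Matrix β γ R) [Module.Projective R ((β → R) ⧸ LinearMap.range (mact R D))] :
    ∃ τ : Matrix γ β R, D * τ * D = D := by
  classical
  obtain ⟨s, hs⟩ := Module.projective_lifting_property (LinearMap.range (mact R D)).mkQ
    LinearMap.id (mkQ_surjective _)
  obtain ⟨τ, hτ⟩ := Module.projective_lifting_property (mact R D).rangeRestrict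
    ((LinearMap.id - s ∘ₗ (LinearMap.range (mact R D)).mkQ).codRestrict _ fun v =>
      (Submodule.Quotient.eq _).1 (LinearMap.congr_fun hs (Submodule.Quotient.mk v)).symm)
    (mact R D).surjective_rangeRestrict
  refine ⟨LinearMap.toMatrix' τ, Matrix.toLin'.injective (LinearMap.ext fun v => ?_)⟩
  have := congrArg Subtype.val (LinearMap.congr_fun hτ (mact R D v))
  have e : (LinearMap.range (mact R D)).mkQ (mact R D v) = 0 :=
    (Submodule.Quotient.mk_eq_zero _).2 ⟨v, rfl⟩
  rw [Matrix.toLin'_mul, Matrix.toLin'_mul, Matrix.toLin'_toMatrix', ← dm_mact_eq]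
  refine this.trans ?_
  change mact R D v - s ((LinearMap.range (mact R D)).mkQ (mact R D v)) = _
  rw [e, map_zero, sub_zero]

/-- syzygies gain depth -/
theorem dp_coker {R : Type} [CommRing R] [IsRegularLocalRing R] {d : ℕ} (hd : ringKrullDim R = d)
    {M : Type} [AddCommGroup M] [Module R M] {b : ℕ → ℕ}
    (D : ∀ q, Matrix (Fin (b q)) (Fin (b (q + 1))) R) {π : (Fin (b 0) → R) →ₗ[R] M}
    (hπ : Surjective π) (e0 : Exact (mact R (D 0)) π)
    (e : ∀ q, Exact (mact R (D (q + 1))) (mact R (D q))) {j : ℕ} (hM : Dp R j M) (q : ℕ) :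
    ∀ n ≤ d, n ≤ j + q → Dp R n ((Fin (b q) → R) ⧸ LinearMap.range (mact R (D q))) := by
  induction q with
  | zero =>
    exact fun n _ hn => (hM.mono hn).equiv ((quotEquivOfEq _ _ e0.linearMap_ker_eq.symm).trans
      (π.quotKerEquivOfSurjective hπ))
  | succ q ih =>
    rintro (_ | n) h1 h2
    · exact Dp.zero
    refine Dp.sub (i := liftQ _ (mact R (D q)) (e q).linearMap_ker_eq.ge)
      (p := (LinearMap.range (mact R (D q))).mkQ) ?_ ?_ (mkQ_surjective _)
      (((dp_self R hd).mono h1).pi _) (ih n (by omega) (by omega))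
    · exact LinearMap.ker_eq_bot.1 (ker_liftQ_eq_bot _ _ _ (e q).linearMap_ker_eq.le)
    · rw [LinearMap.exact_iff, ker_mkQ, range_liftQ]

theorem split_of_reg {R : Type} [CommRing R] [IsRegularLocalRing R] {d : ℕ}
    (hd : ringKrullDim R = d) {M : Type} [AddCommGroup M] [Module R M] {b : ℕ → ℕ}
    (D : ∀ q, Matrix (Fin (b q)) (Fin (b (q + 1))) R) {π : (Fin (b 0) → R) →ₗ[R] M}
    (hπ : Surjective π) (e0 : Exact (mact R (D 0)) π)
    (e : ∀ q, Exact (mact R (D (q + 1))) (mact R (D q))) {l : List R}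
    (hl : ∀ r ∈ l, r ∈ maximalIdeal R) (hr : IsWeaklyRegular M l) {q : ℕ}
    (hq : d ≤ l.length + q) : ∃ τ : Matrix (Fin (b (q + 1))) (Fin (b q)) R, D q * τ * D q = D q :=
  have := (ufd_ffr_of_reg R hd 0 d rfl _
    (dp_coker hd D hπ e0 e (Dp.of_reg hl hr) q d le_rfl hq)).2
  split_of_proj (D q)

variable {A : Type} [CommRing A] [IsDomain A] {𝒜 : ℕ → AddSubgroup A} [GradedRing 𝒜]
  [hG : Fact (Gen 𝒜)] {N : GM 𝒜}

/-- depth `j` at a point whose local ring has dimension `d` gives a split resolution from step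
`d - j` on -/
theorem res_split_of_dim (h : Hyp 𝒜) (R : Res N) (y : Pt 𝒜) {d : ℕ}
    (hd : ringKrullDim (Lo y) = d) (l : List (Lo y)) (hl : ∀ r ∈ l, r ∈ maximalIdeal (Lo y))
    (hr : IsWeaklyRegular (N.St y) l) (q : ℕ) (hq : d ≤ l.length + q) :
    ∃ τ : Matrix (Fin (R.b (q + 1))) (Fin (R.b q)) (Lo y),
      (R.D q).map (algebraMap A (Lo y)) * τ * (R.D q).map (algebraMap A (Lo y)) =
        (R.D q).map (algebraMap A (Lo y)) :=
  have : IsRegularLocalRing (Lo y) := h.reg y
  split_of_reg hd (fun q => (R.D q).map (algebraMap A (Lo y))) (st_res y R).1 (st_res y R).2.1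
    (st_res y R).2.2 hl hr hq

end Pool.Agent.Lib.MP_62d77c_ag.R
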