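import Pool.Agent.Lib.MP_62d77c_ag.R.Dm
import Pool.Agent.Lib.MP_62d77c_ag.R.Dm2a

/-! Depth gives split resolutions. -/

set_option autoImplicit false

namespace Pool.Agent.Lib.MP_62d77c_ag.R

variable {A : Type} [CommRing A] [IsDomain A] {𝒜 : ℕ → AddSubgroup A} [GradedRing 𝒜]
  [hG : Fact (Gen 𝒜)] {p : ℕ} [Fact p.Prime] {N : GM 𝒜}

/-- depth `j` at `y` (a regular sequence of length `j` in the maximal ideal) gives a split
resolution from step `dim - j` on -/
theorem res_split (h : Hyp 𝒜) (R : Res N) (y : Vp 𝒜 p) (l : List (Lo y.1))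
    (hl : ∀ r ∈ l, r ∈ IsLocalRing.maximalIdeal (Lo y.1))
    (hr : RingTheory.Sequence.IsWeaklyRegular (N.St y.1) l) (q : ℕ)
    (hq : 4 ≤ dm y + l.length + q) :
    ∃ τ : Matrix (Fin (R.b (q + 1))) (Fin (R.b q)) (Lo y.1),
      (R.D q).map (algebraMap A (Lo y.1)) * τ * (R.D q).map (algebraMap A (Lo y.1)) =
        (R.D q).map (algebraMap A (Lo y.1)) :=
  res_split_of_dim h R y.1 (dim_lo h y).2 l hl hr q (by omega)

end Pool.Agent.Lib.MP_62d77c_ag.R
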