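import Pool.Agent.Lib.MP_62d77c_ag.R.NC

/-! The divisorial hull of a family in codimension one. -/

set_option autoImplicit false
set_option linter.unusedSectionVars false
set_option linter.style.haveILetI false

namespace Pool.Agent.Lib.MP_62d77c_ag.R

open Filter Polynomial Submodule

noncomputable section

variable {A : Type} [CommRing A] [IsDomain A] {𝒜 : ℕ → AddSubgroup A} [GradedRing 𝒜]
  [hG : Fact (Gen 𝒜)] {p : ℕ} [Fact p.Prime]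

theorem e0h_mem (X : Mo 𝒜 p) (z : X.L) (n : ℕ) : ∃ E, z ∈ X.MD E n := by
  by_cases hz : z = 0
  · exact ⟨0, hz ▸ zero_mem _⟩
  obtain ⟨D, -, hD⟩ := X.exists_isDiv hz n
  exact ⟨-D, (X.mem_MD_ord hz).2 fun O hO => by rw [Finsupp.neg_apply, neg_neg, hD O hO]⟩

theorem e0h_sup (X : Mo 𝒜 p) (D E : Dvs X.L) (n : ℕ) :
    X.MD D n ≤ X.MD (D ⊔ E) n ∧ X.MD E n ≤ X.MD (D ⊔ E) n :=
  ⟨X.MD_mono (fun O _ => (le_sup_left : D ≤ D ⊔ E) O) n,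
    X.MD_mono (fun O _ => (le_sup_right : E ≤ D ⊔ E) O) n⟩

theorem e0h_fg (X : Mo 𝒜 p) {W : Submodule (ZMod p) X.L} (hW : W.FG) (n : ℕ) :
    ∃ E, W ≤ X.MD E n := by
  refine Submodule.fg_induction (motive := fun W _ => ∃ E, W ≤ X.MD E n) (fun z => ?_) ?_ W hW
  · obtain ⟨E, hE⟩ := e0h_mem X z n
    exact ⟨E, (span_singleton_le_iff_mem _ _).2 hE⟩
  · rintro W W' - - ⟨D, hD⟩ ⟨E, hE⟩
    exact ⟨D ⊔ E, sup_le (hD.trans (e0h_sup X D E n).1) (hE.trans (e0h_sup X D E n).2)⟩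

/-- a finitely generated family lies in some `O(E)` -/
theorem e0h_le (X : Mo 𝒜 p) {F : X.Fa} (h : X.FF F) : ∃ E, ∀ n, F n ≤ X.MD E n := by
  obtain ⟨n₀, h0⟩ := eventually_atTop.1 h.fg
  have h1 : ∀ m, ∃ E, ∀ n ≤ m, F n ≤ X.MD E n := fun m => by
    induction m with
    | zero =>
      obtain ⟨E, hE⟩ := e0h_fg X (h.fd 0) 0
      exact ⟨E, fun n hn => by rwa [Nat.le_zero.1 hn]⟩
    | succ m ih =>
      obtain ⟨D, hD⟩ := ih
      obtain ⟨E, hE⟩ := e0h_fg X (h.fd (m + 1)) (m + 1)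
      refine ⟨D ⊔ E, fun n hn => ?_⟩
      rcases Nat.of_le_succ hn with e | rfl
      · exact (hD n e).trans (e0h_sup X D E n).1
      · exact hE.trans (e0h_sup X D E _).2
  obtain ⟨E, hE⟩ := h1 n₀
  refine ⟨E, fun n => ?_⟩
  induction n with
  | zero => exact hE 0 n₀.zero_le
  | succ n ih =>
    rcases le_or_gt (n + 1) n₀ with e | e
    · exact hE _ e
    · rw [(h0 n (by omega)).2]
      exact (mul_le_mul_right ih _).trans (X.st_MD E n)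

/-- the smallest `O(E)` containing a family -/
theorem e0h_exact (X : Mo 𝒜 p) {F : X.Fa} (hF : ∃ E, ∀ n, F n ≤ X.MD E n)
    (hne : ∃ n, ∃ z ∈ F n, z ≠ 0) : ∃ E : Dvs X.L, (∀ n, F n ≤ X.MD E n) ∧ ∀ O ∈ X.PD,
      ∃ n, ∃ z ∈ F n, z ≠ 0 ∧ ord O (z / X.θ (ell (X.cen O).1) ^ n) = -E O := by
  classical
  obtain ⟨E₀, h0⟩ := hF
  obtain ⟨n₀, z₀, hz₀, z0⟩ := hne
  obtain ⟨D₀, -, hD₀⟩ := X.exists_isDiv z0 n₀
  have key : ∀ O : ValuationSubring X.L, ∃ e : ℤ, (O ∉ X.PD → e = 0) ∧ (O ∈ X.PD →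
      (∃ n, ∃ z ∈ F n, z ≠ 0 ∧ ord O (z / X.θ (ell (X.cen O).1) ^ n) = e) ∧
      ∀ n, ∀ z ∈ F n, z ≠ 0 → e ≤ ord O (z / X.θ (ell (X.cen O).1) ^ n)) := fun O => by
    by_cases hO : O ∈ X.PD
    · obtain ⟨e, h1, h2⟩ := Int.exists_least_of_bdd (P := fun e => ∃ n, ∃ z ∈ F n, z ≠ 0 ∧
        ord O (z / X.θ (ell (X.cen O).1) ^ n) = e)
        ⟨-E₀ O, fun _ ⟨n, z, hz, h1, e⟩ => e ▸ (X.mem_MD_ord h1).1 (h0 n hz) O hO⟩
        ⟨_, n₀, z₀, hz₀, z0, rfl⟩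
      exact ⟨e, fun h => absurd hO h, fun _ => ⟨h1, fun n z hz h3 => h2 _ ⟨n, z, hz, h3, rfl⟩⟩⟩
    · exact ⟨0, fun _ => rfl, fun h => absurd h hO⟩
  choose e h1 h2 using key
  refine ⟨Finsupp.onFinset (E₀.support ∪ D₀.support) (fun O => -e O) fun O hO => ?_,
    fun n z hz => ?_, fun O hO => by simpa using (h2 O hO).1⟩
  · have h3 : O ∈ X.PD := by
      by_contra h3
      exact hO (by rw [h1 O h3, neg_zero])
    obtain ⟨⟨n, z, hz, h4, h5⟩, h6⟩ := h2 O h3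
    have h7 := (X.mem_MD_ord h4).1 (h0 n hz) O h3
    have h8 := h6 n₀ z₀ hz₀ z0
    rw [← hD₀ O h3] at h8
    simp only [Finset.mem_union, Finsupp.mem_support_iff]
    omega
  · by_cases h3 : z = 0
    · rw [h3]; exact zero_mem _
    exact (X.mem_MD_ord h3).2 fun O hO => by simpa using (h2 O hO).2 n z hz h3

/-- maximal ideals of the normalised local ring are centres -/
theorem e0h_cen (X : Mo 𝒜 p) {y : Pt 𝒜} (hy : pr X.x.1 ≤ pr y) {m : Ideal (X.nl y)}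
    (hm : m.IsMaximal) {O : ValuationSubring X.L} (hO : Ctr (X.nl y) O m) : X.Cen O y := by
  have h := X.on_iff.2 hy
  haveI := X.M.orng_local h
  refine ⟨hy, fun n a ha => ?_⟩
  have h1 := md_pow_mem (ell_spec y).1 n
  have h2 := md_pow_not_mem (ell_spec y).2 n
  have h3 := X.M.div_mem_fr (T := (pr y).primeCompl) ha h1 h2
  have h4 := IsLocalRing.eq_maximalIdeal (Ideal.isMaximal_comap_of_isIntegral_of_isMaximal
    (R := X.M.orng y) (S := integralClosure (X.M.orng y) X.L) m (hI := hm))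
  have h5 := hO ⟨_, X.orng_le_nl y h3⟩
  have h6 : (⟨_, X.orng_le_nl y h3⟩ : X.nl y) ∈ m ↔ a ∈ pr y := by
    have := SetLike.ext_iff.1 h4 ⟨_, h3⟩
    rw [IsLocalRing.mem_maximalIdeal, mem_nonunits_iff, X.M.isUnit_orng h ha h1 h2, not_not] at this
    exact this
  rw [← map_pow]
  exact ⟨h5.1, h5.2.symm.trans h6⟩

theorem e0h_add (X : Mo 𝒜 p) {F : X.Fa} (h : X.FF F) {y : Pt 𝒜} {z w : X.L} (hz : z ∈ X.stk F y)
    (hw : w ∈ X.stk F y) : z + w ∈ X.stk F y := by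
  obtain ⟨n, s, hs, h1, h2⟩ := hz
  obtain ⟨m, t, ht, h3, h4⟩ := hw
  refine ⟨n + m, s * t, SetLike.mul_mem_graded hs ht, md_mul_not_mem h1 h3, ?_⟩
  rw [map_mul, show X.θ s * X.θ t * (z + w) = X.θ t * (X.θ s * z) + X.θ s * (X.θ t * w) by ring]
  exact add_mem (st_mul_mem X h h2 ht) (add_comm n m ▸ st_mul_mem X h h4 hs)

theorem e0h_stk_mono (X : Mo 𝒜 p) {F F' : X.Fa} (h : ∀ n, F n ≤ F' n) (y : Pt 𝒜) :
    X.stk F y ⊆ X.stk F' y := fun _ ⟨n, s, hs, h1, h2⟩ => ⟨n, s, hs, h1, h n h2⟩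

/-- the hull, with the global inclusion -/
theorem e0_hull' (X : Mo 𝒜 p) {F : X.Fa} (h : X.FF F) (hne : ∃ n, ∃ z ∈ F n, z ≠ 0)
    (hm : ∀ O ∈ X.PD, ∀ b ∈ X.nl (X.cen O).1, ∀ z ∈ X.stk F (X.cen O).1,
      b * z ∈ X.stk F (X.cen O).1) : ∃ E, (∀ n, F n ≤ X.MD E n) ∧
      ∀ O ∈ X.PD, X.stk F (X.cen O).1 = X.stk (X.MD E) (X.cen O).1 := by
  obtain ⟨E, h1, h2⟩ := e0h_exact X (e0h_le X h) hne
  refine ⟨E, h1, fun O hO => (e0h_stk_mono X h1 _).antisymm fun z hz => ?_⟩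
  by_cases z0 : z = 0
  · exact ⟨0, 1, SetLike.one_mem_graded 𝒜, md_one_not_mem _, by simp [z0]⟩
  obtain ⟨hc, hd⟩ := pd_cen X hO
  let J : Ideal (X.nl (X.cen O).1) :=
    { carrier := {b | (b : X.L) * z ∈ X.stk F (X.cen O).1}
      zero_mem' := ⟨0, 1, SetLike.one_mem_graded 𝒜, md_one_not_mem _, by simp⟩
      add_mem' := fun {a b} ha hb => by
        change ((a : X.L) + b) * z ∈ X.stk F (X.cen O).1
        rw [add_mul]; exact e0h_add X h ha hb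
      smul_mem' := fun c a ha => by
        change ((c : X.L) * a) * z ∈ X.stk F (X.cen O).1
        rw [mul_assoc]; exact hm O hO c c.2 _ ha }
  have hJ : J = ⊤ := by
    by_contra hne
    obtain ⟨m, hmax, hle⟩ := Ideal.exists_le_maximal J hne
    obtain ⟨O', hO'⟩ := exists_ctr m hmax.isPrime
    have k1 := e0h_cen X hc.1 hmax hO'
    have k2 : O' ∈ X.PD := ⟨_, k1, hd⟩
    have k3 : X.cen O' = X.cen O := Mo.cen_eq k1
    obtain ⟨n, u, hu, u0, e⟩ := h2 O' k2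
    rw [k3] at e
    have g0 : u / X.θ (ell (X.cen O).1) ^ n ≠ 0 :=
      div_ne_zero u0 (pow_ne_zero _ (X.ell_ne hc.1))
    have k4 := ((pd_disc X k2).mul_mem_iff z0 _).1 ((mem_stk_md X E hc.1 z).1 hz O' k2 (k3 ▸ le_rfl))
    obtain ⟨s, hs, k5, k6⟩ := ((X.nrm_nl hc.1).mem_O (z := z / (u / X.θ (ell (X.cen O).1) ^ n))
      ((X.ht1_nl hc.1).2 ⟨k2, k3 ▸ le_rfl⟩)).1 (by
        rw [(pd_disc X k2).mem_iff (div_ne_zero z0 g0), (pd_disc X k2).ord_div z0 g0, e]; omega)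
    have k7 := hm O hO _ k6 _ (div_mem_stk X hu)
    rw [mul_assoc, div_mul_cancel₀ _ g0] at k7
    exact ((hO' ⟨s, hs⟩).2.1 (hle k7)).ne k5
  have : ((1 : X.nl (X.cen O).1) : X.L) * z ∈ X.stk F (X.cen O).1 := (Ideal.eq_top_iff_one J).1 hJ
  simpa using this

theorem e0_hull (X : Mo 𝒜 p) {F : X.Fa} (h : X.FF F) (hne : ∃ n, ∃ z ∈ F n, z ≠ 0)
    (hm : ∀ O ∈ X.PD, ∀ b ∈ X.nl (X.cen O).1, ∀ z ∈ X.stk F (X.cen O).1,
      b * z ∈ X.stk F (X.cen O).1) :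
    ∃ E, ∀ O ∈ X.PD, X.stk F (X.cen O).1 = X.stk (X.MD E) (X.cen O).1 :=
  (e0_hull' X h hne hm).imp fun _ h => h.2

end

end Pool.Agent.Lib.MP_62d77c_ag.R
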