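import Pool.Agent.Lib.MP_62d77c_ag.R.K5
import Pool.Agent.Lib.MP_62d77c_ag.R.E0h
import Pool.Agent.Lib.MP_62d77c_ag.R.N

/-! The cycle of the dual of a tuple of divisors. -/

set_option autoImplicit false
set_option linter.unusedSectionVars false

namespace Pool.Agent.Lib.MP_62d77c_ag.R

open Filter Polynomial Submodule

noncomputable section

variable {A : Type} [CommRing A] [IsDomain A] {𝒜 : ℕ → AddSubgroup A} [GradedRing 𝒜]
  [hG : Fact (Gen 𝒜)] {p : ℕ} [Fact p.Prime]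

theorem e0_cyc_sum {ι : Type} (s : Finset ι) {τ : ι → GM 𝒜 → ℚ[X]} {Z : ι → Vp 𝒜 p →₀ ℤ}
    (h : ∀ i, Cyc (τ i) (Z i)) : Cyc (fun N => ∑ i ∈ s, τ i N) (∑ i ∈ s, Z i) := by
  classical
  induction s using Finset.induction with
  | empty => exact ⟨[], by simp, by simp, by simp⟩
  | insert i s hi ih => simpa only [Finset.sum_insert hi] using (h i).add ih

/-- a family that agrees with `O(E)` in codimension one has the same class up to curves -/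
theorem e0_cyc_hull (h : Hyp 𝒜) (X : Mo 𝒜 p) (h3 : dm X.x = 3) {F : X.Fa} (hF : X.FF F)
    {E : Dvs X.L} (hE : X.FF (X.MD E)) (hle : ∀ n, F n ≤ X.MD E n)
    (hs : ∀ O ∈ X.PD, X.stk F (X.cen O).1 = X.stk (X.MD E) (X.cen O).1) :
    Cyc (fun N => T p (X.gm F hF) N - T p (X.gm _ hE) N) (0 : Vp 𝒜 p →₀ ℤ) := by
  obtain ⟨Q, hQ, h1⟩ := ses_gm X hF hE hle
  have fb : Q.Fb p := (hQ.fb (p := p) (fb_gm X hE)).2
  have h2 : ∀ y : Vp 𝒜 p, pr X.x.1 ≤ pr y.1 → dm y = 2 → Q.ZeroAt y.1 := fun y hy e => by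
    obtain ⟨O, hO, rfl⟩ := exists_pd X hy (by omega)
    exact (h1 _).2 (hs O hO).ge
  have h4 : Q.DimLt p 2 := fun y hy => by
    by_cases hx : pr X.x.1 ≤ pr y.1
    · rcases hy.eq_or_lt with e | e
      · exact h2 y hx e.symm
      obtain ⟨z, hz, z0⟩ := exists_closed y
      obtain ⟨w, k1, -, k2⟩ := exists_step hz (by omega)
      have := dm_le_three h y
      intro m
      obtain ⟨n, s, k3, k4, k5⟩ := h2 w (hx.trans k1.le) (by omega) m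
      exact ⟨n, s, k3, fun k => k4 (k1.le k), k5⟩
    · exact (h1 _).2 (by rw [stk_off X F hx]; exact Set.subset_univ _)
  have h5 := (cyc_of_dimLt h fb fun y hy => h4 y (by omega)).smul (-1)
  rw [k5_cyc_zero fb h4, smul_zero] at h5
  refine h5.congr fun N hN => ?_
  rw [T_symm h (Or.inr hN), T_symm h (N := X.gm _ hE) (Or.inr hN), T_ses h hQ (Or.inl hN),
    T_symm h (N := Q) (Or.inr hN)]
  simp

theorem e0_stk_ord (X : Mo 𝒜 p) (D : Dvs X.L) {y : Pt 𝒜} (hy : pr X.x.1 ≤ pr y) {z : X.L}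
    (hz : z ≠ 0) : z ∈ X.stk (X.MD D) y ↔ ∀ O ∈ X.PD, pr (X.cen O).1 ≤ pr y → -D O ≤ ord O z := by
  rw [mem_stk_md X D hy]
  exact forall₂_congr fun O hO => by rw [(pd_disc X hO).mul_mem_iff hz]

/-- multiplication by a local generator of `O(D)` -/
theorem e0_stk_mul (X : Mo 𝒜 p) {D : Dvs X.L} (E : Dvs X.L) {y : Pt 𝒜} (hy : pr X.x.1 ≤ pr y)
    {g : X.L} (g0 : g ≠ 0) (hg : ∀ O ∈ X.PD, pr (X.cen O).1 ≤ pr y → ord O g = -D O) (z : X.L) :
    z * g ∈ X.stk (X.MD (E + D)) y ↔ z ∈ X.stk (X.MD E) y := by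
  by_cases hz : z = 0
  · subst hz
    rw [zero_mul]
    exact iff_of_true ⟨0, 1, SetLike.one_mem_graded 𝒜, md_one_not_mem _, by simp⟩
      ⟨0, 1, SetLike.one_mem_graded 𝒜, md_one_not_mem _, by simp⟩
  rw [e0_stk_ord X _ hy (mul_ne_zero hz g0), e0_stk_ord X _ hy hz]
  refine forall₃_congr fun O hO h => ?_
  rw [(pd_disc X hO).ord_mul hz g0, hg O hO h, Finsupp.add_apply]
  omega

/-- in codimension one `F` is the colon `(W : O(D))` -/
def Mo.Colon (X : Mo 𝒜 p) (W : Vp 𝒜 p → Set X.L) (D : Dvs X.L) (F : X.Fa) : Prop :=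
  ∀ O ∈ X.PD, ∀ z, z ∈ X.stk F (X.cen O).1 ↔
    ∀ w ∈ X.stk (X.MD D) (X.cen O).1, z * w ∈ W (X.cen O)

theorem e0_colon (h : Hyp 𝒜) (X : Mo 𝒜 p) (h3 : dm X.x = 3) (W : Vp 𝒜 p → Set X.L) {F₀ : X.Fa}
    (h0 : X.FF F₀) (hne : ∃ n, ∃ z ∈ F₀ n, z ≠ 0) (c0 : X.Colon W 0 F₀) :
    ∃ K : Dvs X.L, ∀ D F (hF : X.FF F) (hE : X.FF (X.MD (K - D))), X.Colon W D F →
      Cyc (fun N => T p (X.gm F hF) N - T p (X.gm _ hE) N) (0 : Vp 𝒜 p →₀ ℤ) := by
  obtain ⟨K, hK⟩ := e0_hull X h0 hne fun O hO b hb z hz => by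
    have hy := (pd_cen X hO).1.1
    refine (c0 O hO _).2 fun w hw => ?_
    rw [mul_comm b z, mul_assoc]
    refine (c0 O hO z).1 hz _ ?_
    rw [stk_md_zero X hy] at hw ⊢
    exact (X.nl _).mul_mem hb hw
  refine ⟨K, fun D F hF hE c => ?_⟩
  have hs : ∀ O ∈ X.PD, X.stk F (X.cen O).1 = X.stk (X.MD (K - D)) (X.cen O).1 := fun O hO => by
    obtain ⟨hc, hd⟩ := pd_cen X hO
    obtain ⟨g, g0, hg⟩ := (cartAt_iff X D hc.1).1 (cartAt_big X D (X.cen O) hd.ge)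
    ext z
    rw [c O hO, ← e0_stk_mul X (K - D) hc.1 g0 hg, sub_add_cancel, ← hK O hO, c0 O hO]
    refine ⟨fun k w hw => ?_, fun k w hw => ?_⟩
    · rw [mul_assoc, mul_comm g w]
      exact k _ (by simpa using (e0_stk_mul X 0 hc.1 g0 hg w).2 hw)
    · have := k (w / g) ((e0_stk_mul X 0 hc.1 g0 hg _).1 (by simpa [g0] using hw))
      rwa [mul_assoc, mul_div_cancel₀ _ g0] at this
  refine e0_cyc_hull h X h3 hF hE (fun n z hz => ?_) hs
  by_cases z0 : z = 0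
  · rw [z0]; exact zero_mem _
  refine (X.mem_MD_ord z0).2 fun O hO => ?_
  have hy := (pd_cen X hO).1.1
  exact (e0_stk_ord X _ hy (div_ne_zero z0 (pow_ne_zero _ (X.ell_ne hy)))).1
    (hs O hO ▸ div_mem_stk X hz) O hO le_rfl

/-- the dual cycle from the comparison with `O(K - D)` on each component, up to a fixed cycle -/
theorem cyc_dual_of (h : Hyp 𝒜) (ff : FFD 𝒜 p) (K : DT 𝒜 p) (Z : Comp 𝒜 p → Vp 𝒜 p →₀ ℤ)
    (H : ∀ j D (R : Res (GD ff j D)),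
      Cyc (fun N => T p (R.Ext (one 𝒜) 1) N - T p (GD ff j (K j - D)) N) (Z j)) :
    ∃ V₁ : Vp 𝒜 p →₀ ℤ, ∀ (D : DT 𝒜 p) (R : ∀ j, Res (GD ff j (D j))),
      Cyc (fun N => ∑ j, mu j • T p ((R j).Ext (one 𝒜) 1) N) (V₁ - push D) := by
  obtain ⟨V₀, h0⟩ := cyc_push h ff
  refine ⟨∑ j, (mu j : ℤ) • Z j + (push K + V₀), fun D R => ?_⟩
  have h1 := (e0_cyc_sum Finset.univ fun j => (H j (D j) (R j)).smul (mu j)).add (h0 (K - D))
  have h2 : push (K - D) = push K - push D := by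
    simp [push, psh_sub, smul_sub]
  rw [h2] at h1
  rw [show ∑ j, (mu j : ℤ) • Z j + (push K + V₀) - push D =
    ∑ j, (mu j : ℤ) • Z j + (push K - push D + V₀) by abel]
  refine h1.congr fun N _ => ?_
  simp [smul_sub]

theorem e0_orng_self (x : Vp 𝒜 p) (z : (ofPt x).L) : z ∈ (ofPt x).M.orng x.1 := by
  obtain ⟨n, a, ha, b, hb, h, rfl⟩ := th_gen x.1 z
  exact ((ofPt x).M.mem_orng ((ofPt x).on_iff.2 le_rfl)).2 ⟨n, a, ha, b, hb, h, rfl⟩

end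

end Pool.Agent.Lib.MP_62d77c_ag.R
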