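import Pool.Agent.Lib.MP_62d77c_ag.R.EH

/-! The torsion of `Ext¹` and homomorphisms to a quotient. -/

set_option autoImplicit false
set_option linter.unusedSectionVars false
set_option linter.style.haveILetI false

namespace Pool.Agent.Lib.MP_62d77c_ag.R

open Filter Polynomial Submodule
open scoped TensorProduct Matrix

noncomputable section

variable {A : Type} [CommRing A] [IsDomain A] {𝒜 : ℕ → AddSubgroup A} [GradedRing 𝒜]
  [hG : Fact (Gen 𝒜)] {p : ℕ} [Fact p.Prime] {N N' : GM 𝒜}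

theorem ea_fb_sub (h : N.Fb p) (Z : Submodule A N.M) : (N.sub Z).Fb p := ((ses_sub_quot N Z).fb h).1

theorem ea_fb_quot (h : N.Fb p) (Z : Submodule A N.M) : (N.quot Z).Fb p :=
  ((ses_sub_quot N Z).fb h).2

theorem ea_fb_pw (h : N.Fb p) {β : Type} [Fintype β] (a : β → ℤ) : (N.pw a).Fb p :=
  fun m => funext fun i => h (m i)

/-- kernel and image -/
theorem ea_ses {d : ℤ} {f : N.M →ₗ[A] N'.M} (hf : IsHom N N' d f) :
    SES (N.sub (LinearMap.ker f)) N ((N'.sub (LinearMap.range f)).sh d) := by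
  have h1 := N.core_eq hf.hg_ker
  have h2 := N'.core_eq hf.hg_range
  refine ⟨(N.core _).subtype, f.codRestrict (N'.core (LinearMap.range f))
    (fun m => h2.ge ⟨m, rfl⟩), fun n m hm => by rw [add_zero]; exact hm,
    fun n m hm => by rw [add_zero]; exact hf n m hm, Subtype.val_injective, fun m => ?_, fun m => ?_⟩
  · refine ⟨fun e => ⟨⟨m, h1.ge (congrArg Subtype.val e)⟩, rfl⟩, ?_⟩
    rintro ⟨m', rfl⟩
    exact Subtype.ext (h1.le m'.2)
  · obtain ⟨m', e⟩ := h2.le m.2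
    exact ⟨m', Subtype.ext e⟩

theorem ea_hp {d : ℤ} {f : N.M →ₗ[A] N'.M} (hf : IsHom N N' d f) (h : N.Fb p) :
    N.hp p = (N.sub (LinearMap.ker f)).hp p + ((N'.sub (LinearMap.range f)).sh d).hp p :=
  hp_ses (ea_ses hf) h

theorem ea_hp_bot (N : GM 𝒜) : (N.sub ⊥).hp p = 0 :=
  hp_zero (Eventually.of_forall fun _ => (AddSubgroup.eq_bot_iff_forall _).2 fun v _ =>
    Subtype.ext (N.core_le ⊥ v.2))

theorem ea_sh_zero (N : GM 𝒜) : (N.sh 0).hp p = N.hp p :=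
  hp_eq_of_sz (Eventually.of_forall fun n => by
    change padicValNat p (Nat.card (N.g (n + 0))) = _
    rw [add_zero]; rfl)

/-- multiplication by a form -/
theorem ea_lsmul (N : GM 𝒜) {e : ℕ} {x : A} (hx : x ∈ 𝒜 e) :
    IsHom N N e (LinearMap.lsmul A N.M x) := fun _ _ hm => N.smul (by rwa [Az_nat]) hm

/-- the quotient by a form -/
def GM.qx (N : GM 𝒜) (x : A) : GM 𝒜 := N.quot (LinearMap.range (LinearMap.lsmul A N.M x))

/-- the projection -/
def GM.mdQ (N : GM 𝒜) (x : A) : N.M →ₗ[A] (N.qx x).M := (N.core _).mkQ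

theorem GM.mdQ_surj (N : GM 𝒜) (x : A) : Function.Surjective (N.mdQ x) := mkQ_surjective _

theorem GM.mdQ_hom (N : GM 𝒜) (x : A) : IsHom N (N.qx x) 0 (N.mdQ x) := fun n m hm => by
  rw [add_zero]; exact ⟨m, hm, rfl⟩

theorem GM.mdQ_zero (N : GM 𝒜) {e : ℕ} {x : A} (hx : x ∈ 𝒜 e) {m : N.M} :
    N.mdQ x m = 0 ↔ ∃ u, x • u = m :=
  (Submodule.Quotient.mk_eq_zero _).trans (by rw [N.core_eq (ea_lsmul N hx).hg_range]; rfl)

theorem ea_mact {P P' : Type} [AddCommGroup P] [Module A P] [AddCommGroup P'] [Module A P']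
    {β γ : Type} [Fintype γ] (D : Matrix β γ A) (f : P →ₗ[A] P') (v : γ → P) (i : β) :
    mact P' D (fun j => f (v j)) i = f (mact P D v i) := by
  simp [mact_apply]

theorem Res.hom_d (R : Res N) (N' : GM 𝒜) (q : ℕ) :
    IsHom (N'.pw (-R.a q)) (N'.pw (-R.a (q + 1))) 0 (mact N'.M (R.D q)ᵀ) :=
  isHom_mact N' fun i j => by simpa [add_comm, sub_eq_add_neg] using R.hD q j i

theorem Res.ea_dd (R : Res N) {P : Type} [AddCommGroup P] [Module A P] (q : ℕ)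
    (v : Fin (R.b q) → P) : mact P (R.D (q + 1))ᵀ (mact P (R.D q)ᵀ v) = 0 := by
  refine funext fun k => ?_
  have h : ∀ i, ∑ j, R.D q i j * R.D (q + 1) j k = 0 := fun i => by
    have := congrFun ((R.ex q).apply_apply_eq_zero (Pi.single k 1)) i
    simpa [mact_apply, Pi.single_apply] using this
  simp only [mact_apply, Matrix.transpose_apply, Finset.smul_sum, smul_smul, Pi.zero_apply]
  rw [Finset.sum_comm]
  refine Finset.sum_eq_zero fun i _ => ?_
  rw [← Finset.sum_smul]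
  simp only [mul_comm (R.D (q + 1) _ k), h, zero_smul]

/-- the class of a cocycle -/
def Res.cl1 (R : Res N) (N' : GM 𝒜) :
    ((N'.pw (-R.a 1)).sub (LinearMap.ker (mact N'.M (R.D 1)ᵀ))).M →ₗ[A] (R.Ext N' 1).M :=
  Submodule.mkQ _

theorem Res.cl1_surj (R : Res N) (N' : GM 𝒜) : Function.Surjective (R.cl1 N') := mkQ_surjective _

theorem Res.cl1_hom (R : Res N) (N' : GM 𝒜) : IsHom _ (R.Ext N' 1) 0 (R.cl1 N') := fun n m hm => by
  rw [add_zero]; exact ⟨m, hm, rfl⟩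

theorem Res.cl1_zero (R : Res N) (N' : GM 𝒜)
    {w : ((N'.pw (-R.a 1)).sub (LinearMap.ker (mact N'.M (R.D 1)ᵀ))).M} :
    R.cl1 N' w = 0 ↔ ∃ v, mact N'.M (R.D 0)ᵀ v = w.1 := by
  refine (Submodule.Quotient.mk_eq_zero _).trans ?_
  rw [GM.core_eq]
  · rfl
  · exact IsHom.hg_comap (N' := N'.pw (-R.a 1)) (d := 0) (fun n m hm => by rw [add_zero]; exact hm)
      (R.hom_d N' 0).hg_range

/-- the connecting homomorphism -/
theorem ea_delta (R : Res N) (N' : GM 𝒜) {e : ℕ} {x : A} (hx : x ∈ 𝒜 e)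
    (hr : ∀ m : N'.M, x • m = 0 → m = 0) :
    ∃ (ι : (R.Ext N' 0).M →ₗ[A] (R.Ext (N'.qx x) 0).M)
      (δ : (R.Ext (N'.qx x) 0).M →ₗ[A] (R.Ext N' 1).M), IsHom _ _ 0 ι ∧ IsHom _ _ (-(e : ℤ)) δ ∧
      LinearMap.ker ι = LinearMap.range (LinearMap.lsmul A _ x) ∧
      LinearMap.range ι = LinearMap.ker δ ∧ LinearMap.range δ = torsionBy A _ x := by
  have c0 := (N'.pw (-R.a 0)).core_eq (R.hg_ker N' 0)
  have c0' := ((N'.qx x).pw (-R.a 0)).core_eq (R.hg_ker (N'.qx x) 0)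
  have c1 := (N'.pw (-R.a 1)).core_eq (R.hg_ker N' 1)
  have hr' : ∀ {β : Type} (v : β → N'.M), x • v = 0 → v = 0 := fun v h =>
    funext fun i => hr _ (congrFun h i)
  let ι : (R.Ext N' 0).M →ₗ[A] (R.Ext (N'.qx x) 0).M :=
    { toFun := fun v => ⟨fun i => N'.mdQ x (v.1 i), c0'.ge (funext fun j =>
        (ea_mact _ _ _ j).trans ((congrArg _ (congrFun (c0.le v.2) j)).trans (map_zero _)))⟩
      map_add' := fun _ _ => Subtype.ext (funext fun _ => map_add _ _ _)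
      map_smul' := fun _ _ => Subtype.ext (funext fun _ => map_smul _ _ _) }
  let Γ : Submodule A ((R.Ext (N'.qx x) 0).M × (R.Ext N' 1).M) :=
    { carrier := {t | ∃ (v : Fin (R.b 0) → N'.M) (w : _), (∀ i, t.1.1 i = N'.mdQ x (v i)) ∧
        mact N'.M (R.D 0)ᵀ v = x • (show Fin (R.b 1) → N'.M from w.1) ∧ t.2 = R.cl1 N' w}
      zero_mem' := ⟨0, 0, fun i => (map_zero _).symm, (map_zero _).trans (smul_zero _).symm,
        (map_zero _).symm⟩
      add_mem' := by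
        rintro s t ⟨v, w, h1, h2, h3⟩ ⟨v', w', k1, k2, k3⟩
        refine ⟨v + v', w + w', fun i => ?_, ?_, ?_⟩
        · exact (congrArg₂ (· + ·) (h1 i) (k1 i)).trans (map_add _ _ _).symm
        · rw [map_add, h2, k2]; exact (smul_add _ _ _).symm
        · exact (congrArg₂ (· + ·) h3 k3).trans (map_add _ _ _).symm
      smul_mem' := by
        rintro c t ⟨v, w, h1, h2, h3⟩
        refine ⟨c • v, c • w, fun i => ?_, ?_, ?_⟩
        · exact (congrArg (c • ·) (h1 i)).trans (map_smul _ _ _).symm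
        · rw [map_smul, h2]; exact smul_comm _ _ _
        · exact (congrArg (c • ·) h3).trans (map_smul _ _ _).symm }
  have tot : ∀ (h : (R.Ext (N'.qx x) 0).M) (v : Fin (R.b 0) → N'.M),
      (∀ i, h.1 i = N'.mdQ x (v i)) → ∃ w, mact N'.M (R.D 0)ᵀ v =
        x • (show Fin (R.b 1) → N'.M from w.1) ∧ (h, R.cl1 N' w) ∈ Γ := fun h v hv => by
    have : ∀ j, ∃ u, x • u = mact N'.M (R.D 0)ᵀ v j := fun j => (N'.mdQ_zero hx).1 (by
      rw [← ea_mact, ← funext hv]; exact congrFun (c0'.le h.2) j)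
    choose u hu using this
    have hu' : mact N'.M (R.D 0)ᵀ v = x • u := (funext hu).symm
    have : mact N'.M (R.D 1)ᵀ u = 0 := hr' _ (by rw [← map_smul, ← hu']; exact R.ea_dd 0 v)
    exact ⟨⟨u, c1.ge this⟩, hu', v, ⟨u, c1.ge this⟩, hv, hu', rfl⟩
  have fn : ∀ t, ((0 : (R.Ext (N'.qx x) 0).M), t) ∈ Γ → t = 0 := by
    rintro t ⟨v, w, h1, h2, h3⟩
    choose u hu using fun i => (N'.mdQ_zero hx).1 (h1 i).symm
    refine h3.trans ((R.cl1_zero N').2 ⟨u, sub_eq_zero.1 (hr' _ ?_)⟩)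
    refine (smul_sub x (mact N'.M (R.D 0)ᵀ u) (show Fin (R.b 1) → N'.M from w.1)).trans ?_
    rw [← map_smul, show x • u = v from funext hu, h2]; exact sub_self _
  obtain ⟨δ, hδ⟩ := Γ.exists_eq_graph (by
    refine ⟨fun s t h => Subtype.ext (Prod.ext h (sub_eq_zero.1 (fn _ ?_))), fun h => ?_⟩
    · have := sub_mem s.2 t.2
      rwa [show (s.1 - t.1) = (0, s.1.2 - t.1.2) from Prod.ext (sub_eq_zero.2 h) rfl] at this
    · choose v hv using fun i => N'.mdQ_surj x (h.1 i)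
      obtain ⟨w, -, hw⟩ := tot h v fun i => (hv i).symm
      exact ⟨⟨_, hw⟩, rfl⟩)
  have gr : ∀ h t, (h, t) ∈ Γ ↔ t = δ h := fun h t => by rw [hδ]; exact LinearMap.mem_graph_iff _ _
  refine ⟨ι, δ, fun n v hv => ?_, fun n h hh => ?_, ?_, ?_, ?_⟩
  · rw [add_zero]
    exact ((N'.qx x).mem_pw (a := -R.a 0)).2 fun i => ⟨_, (N'.mem_pw (a := -R.a 0)).1 hv i, rfl⟩
  · choose v hv e1 using ((N'.qx x).mem_pw (a := -R.a 0) (c := h.1)).1 hh
    obtain ⟨w, h1, h2⟩ := tot h v fun i => (e1 i).symm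
    rw [← (gr _ _).1 h2]
    have h3 := R.hom_d N' 0 n v ((N'.mem_pw (a := -R.a 0)).2 hv)
    obtain ⟨w', h4, h5⟩ := (ea_lsmul (N'.pw (-R.a 1)) hx).lift (n := n + -(e : ℤ))
      (m' := mact N'.M (R.D 0)ᵀ v) (by rw [neg_add_cancel_right]; rwa [add_zero] at h3) ⟨w.1, h1.symm⟩
    have h6 : w' = w.1 := sub_eq_zero.1 (hr' _ ((smul_sub _ _ _).trans (sub_eq_zero.2 (h5.trans h1))))
    have := R.cl1_hom N' (n + -(e : ℤ)) w (h6 ▸ h4 : w.1 ∈ (N'.pw (-R.a 1)).g _)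
    rwa [add_zero] at this
  · refine le_antisymm (fun v hv => ?_) ?_
    · choose u hu using fun i => (N'.mdQ_zero hx).1 (congrFun (congrArg Subtype.val hv) i)
      have : mact N'.M (R.D 0)ᵀ u = 0 := hr' _ (by
        rw [← map_smul, show x • u = v.1 from funext hu]; exact c0.le v.2)
      exact ⟨⟨u, c0.ge this⟩, Subtype.ext (funext hu)⟩
    · rintro _ ⟨u, rfl⟩
      exact Subtype.ext (funext fun i => (N'.mdQ_zero hx).2 ⟨u.1 i, rfl⟩)
  · refine le_antisymm ?_ fun h hh => ?_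
    · rintro _ ⟨v, rfl⟩
      exact ((gr _ _).1 ⟨v.1, 0, fun i => rfl, (c0.le v.2).trans (smul_zero _).symm,
        (map_zero _).symm⟩).symm
    · obtain ⟨v, w, h1, h2, h3⟩ := (gr h 0).2 (Eq.symm hh)
      obtain ⟨u, hu⟩ := (R.cl1_zero N').1 h3.symm
      have : mact N'.M (R.D 0)ᵀ (v - x • u) = 0 := by
        rw [map_sub, map_smul, h2, hu]; exact sub_self _
      refine ⟨⟨v - x • u, c0.ge this⟩, Subtype.ext (funext fun i => ?_)⟩
      change N'.mdQ x (v i - x • u i) = _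
      rw [map_sub, (N'.mdQ_zero hx).2 ⟨u i, rfl⟩, sub_zero]; exact (h1 i).symm
  · refine le_antisymm ?_ fun t ht => ?_
    · rintro _ ⟨h, rfl⟩
      obtain ⟨v, w, h1, h2, h3⟩ := (gr h _).2 rfl
      rw [mem_torsionBy_iff, show δ h = R.cl1 N' w from h3, ← map_smul]
      exact (R.cl1_zero N').2 ⟨v, h2⟩
    · obtain ⟨w, rfl⟩ := R.cl1_surj N' t
      rw [mem_torsionBy_iff, ← map_smul] at ht
      obtain ⟨v, hv⟩ := (R.cl1_zero N').1 ht
      refine ⟨⟨fun i => N'.mdQ x (v i), c0'.ge (funext fun j => (ea_mact _ _ _ j).trans ?_)⟩,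
        ((gr _ _).1 ⟨v, w, fun i => rfl, hv, rfl⟩).symm⟩
      exact (N'.mdQ_zero hx).2 ⟨w.1 j, (congrFun hv j).symm⟩

theorem ea_fb_ext0 (R : Res N) (h : N'.Fb p) : (R.Ext N' 0).Fb p := ea_fb_sub (ea_fb_pw h _) _

theorem ea_fb_ext1 (R : Res N) (h : N'.Fb p) : (R.Ext N' 1).Fb p :=
  ea_fb_quot (ea_fb_sub (ea_fb_pw h _) _) _

/-- Euler characteristic of the torsion of `Ext¹` -/
theorem ea_main (R : Res N) (N' : GM 𝒜) (hF : N'.Fb p) {e : ℕ} {x : A} (hx : x ∈ 𝒜 e)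
    (hr : ∀ m : N'.M, x • m = 0 → m = 0) :
    (((R.Ext N' 1).sub (torsionBy A _ x)).hp p).eval 0 = ((R.Ext (N'.qx x) 0).hp p).eval (e : ℚ) -
      ((R.Ext N' 0).hp p).eval (e : ℚ) + ((R.Ext N' 0).hp p).eval 0 := by
  obtain ⟨ι, δ, h1, h2, h3, h4, h5⟩ := ea_delta R N' hx hr
  have f0 := ea_fb_ext0 R hF
  have e1 := ea_hp h1 f0
  have e2 := ea_hp h2 (ea_fb_ext0 R (ea_fb_quot hF _))
  have e3 := ea_hp (ea_lsmul (R.Ext N' 0) hx) f0
  have k : LinearMap.ker (LinearMap.lsmul A (R.Ext N' 0).M x) = ⊥ :=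
    LinearMap.ker_eq_bot'.2 fun v hv =>
      Subtype.ext (funext fun i => hr _ (congrFun (congrArg Subtype.val hv) i))
  rw [k, ea_hp_bot, zero_add, hp_sh (ea_fb_sub f0 _)] at e3
  rw [h3, h4, ea_sh_zero] at e1
  rw [h5, hp_sh (ea_fb_sub (ea_fb_ext1 R hF) _)] at e2
  have a1 := congrArg (eval (e : ℚ)) e1
  have a2 := congrArg (eval (e : ℚ)) e2
  have a3 := congrArg (eval (0 : ℚ)) e3
  simp only [eval_add, eval_comp, eval_X, eval_C, zero_add, Int.cast_natCast, Int.cast_neg,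
    add_neg_cancel] at a1 a2 a3
  linear_combination a1 - a2 - a3

end

end Pool.Agent.Lib.MP_62d77c_ag.R
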