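import Mathlib

/-! Composition series of a module of homomorphisms over a tensor product. -/

set_option autoImplicit false
set_option linter.style.haveILetI false

namespace Pool.Agent.Lib.MP_62d77c_ag.R

open Submodule IsLocalRing
open scoped TensorProduct

noncomputable section

/-- prime filtration with coordinates -/
theorem ec_filt (C Φ : Type) [CommRing C] [IsNoetherianRing C] [AddCommGroup Φ] [Module C Φ]
    [Module.Finite C Φ] : ∃ (r : ℕ) (U : ℕ → Submodule C Φ) (𝔭 : Fin r → PrimeSpectrum C)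
      (l : ∀ i : Fin r, U (i + 1) →ₗ[C] C ⧸ (𝔭 i).1), U 0 = ⊥ ∧ U r = ⊤ ∧
      (∀ i : Fin r, U i ≤ U (i + 1) ∧ Function.Surjective (l i) ∧ ∀ φ, l i φ = 0 ↔ φ.1 ∈ U i) ∧
      ∀ P : Ideal C, P.IsPrime → Module.annihilator C Φ ≤ P → ∃ i, (𝔭 i).1 ≤ P := by
  obtain ⟨s, h0, h1⟩ := IsNoetherianRing.exists_relSeries_isQuotientEquivQuotientPrime C Φ
  let U : ℕ → Submodule C Φ := fun n => if h : n < s.length + 1 then s ⟨n, h⟩ else ⊤
  have st : ∀ i : Fin s.length, (U i).IsQuotientEquivQuotientPrime (U (i + 1)) := fun i => by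
    have := s.step i
    simp only [U, dif_pos (show (i : ℕ) < s.length + 1 by omega),
      dif_pos (show (i : ℕ) + 1 < s.length + 1 by omega)]
    exact this
  choose 𝔭 e using fun i => (st i).2
  let l : ∀ i : Fin s.length, U (i + 1) →ₗ[C] C ⧸ (𝔭 i).1 := fun i =>
    (e i).some.toLinearMap ∘ₗ mkQ _
  have hl : ∀ i φ, l i φ = 0 ↔ φ.1 ∈ U i := fun i φ =>
    (map_eq_zero_iff (e i).some (e i).some.injective).trans (Submodule.Quotient.mk_eq_zero _)
  have u0 : U 0 = ⊥ := by simp only [U, dif_pos (Nat.succ_pos _)]; exact h0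
  have u1 : U s.length = ⊤ := by simp only [U, dif_pos (Nat.lt_succ_self _)]; exact h1
  refine ⟨s.length, U, 𝔭, l, u0, u1, fun i => ⟨(st i).1,
    (e i).some.surjective.comp (mkQ_surjective _), hl i⟩, fun P hP hA => ?_⟩
  by_contra hc
  push Not at hc
  have key : ∀ n, n ≤ s.length → ∃ c, c ∉ P ∧ ∀ φ ∈ U n, c • φ = 0 := fun n => by
    induction n with
    | zero => exact fun _ => ⟨1, (Ideal.ne_top_iff_one P).1 hP.ne_top, fun φ h => by
        rw [u0] at h; rw [one_smul]; exact h⟩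
    | succ n ih =>
      intro hn
      obtain ⟨c, hc1, hc2⟩ := ih (by omega)
      obtain ⟨d, hd1, hd2⟩ := SetLike.not_le_iff_exists.1 (hc ⟨n, hn⟩)
      refine ⟨c * d, fun h => (hP.mem_or_mem h).elim hc1 hd2, fun φ h => ?_⟩
      rw [mul_smul]
      refine hc2 _ ((hl ⟨n, hn⟩ (d • ⟨φ, h⟩)).1 ?_)
      rw [map_smul]
      obtain ⟨y, hy⟩ := Ideal.Quotient.mk_surjective (l ⟨n, hn⟩ ⟨φ, h⟩)
      rw [← hy]
      exact Ideal.Quotient.eq_zero_iff_mem.2 (Ideal.mul_mem_right _ _ hd1)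
  obtain ⟨c, h2, h3⟩ := key _ le_rfl
  exact h2 (hA (Module.mem_annihilator.2 fun φ => h3 φ (u1 ▸ trivial)))

variable {R B B' : Type} [CommRing R] [IsLocalRing R] [CommRing B] [CommRing B'] [Algebra R B]
  [Algebra R B'] {I : Ideal B'}

/-- the two actions -/
def ecAct (b : B) (b' : B') (φ : B →ₗ[R] B' ⧸ I) : B →ₗ[R] B' ⧸ I :=
  b' • φ ∘ₗ LinearMap.mulLeft R b

omit [IsLocalRing R] in
theorem ecAct_apply (b : B) (b' : B') (φ : B →ₗ[R] B' ⧸ I) (c : B) :
    ecAct b b' φ c = b' • φ (b * c) := rfl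

variable (R B) in
/-- a simple factor -/
structure Stp (I : Ideal B') : Type 1 where
  L : Type
  [fld : Field L]
  ρ : B →+* L
  ρ' : B' →+* L
  U : Submodule R (B →ₗ[R] B' ⧸ I)
  U' : Submodule R (B →ₗ[R] B' ⧸ I)
  lam : (B →ₗ[R] B' ⧸ I) → L
  comm : ∀ r, ρ (algebraMap R B r) = ρ' (algebraMap R B' r)
  fin : (ρ.comp (algebraMap R B)).Finite
  ker : ∀ r, ρ (algebraMap R B r) = 0 ↔ r ∈ maximalIdeal R
  gen : Subring.closure (Set.range ρ ∪ Set.range ρ') = ⊤
  le : U' ≤ U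
  act : ∀ b b', ∀ φ ∈ U, ecAct b b' φ ∈ U ∧ lam (ecAct b b' φ) = ρ b * ρ' b' * lam φ
  add : ∀ φ ∈ U, ∀ ψ ∈ U, lam (φ + ψ) = lam φ + lam ψ
  zero : ∀ φ ∈ U, lam φ = 0 ↔ φ ∈ U'
  one : ∃ φ ∈ U, lam φ = 1

attribute [instance] Stp.fld

theorem Stp.smul (S : Stp R B I) (r : R) {φ : B →ₗ[R] B' ⧸ I} (h : φ ∈ S.U) :
    S.lam (r • φ) = S.ρ (algebraMap R B r) * S.lam φ := by
  have : r • φ = ecAct (algebraMap R B r) 1 φ := LinearMap.ext fun c => by
    rw [ecAct_apply, one_smul, ← Algebra.smul_def, map_smul, LinearMap.smul_apply]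
  rw [this, (S.act _ _ φ h).2, map_one, mul_one]

variable (R B) in
/-- the action of the tensor product -/
def ecEnd (I : Ideal B') : B ⊗[R] B' →ₐ[R] Module.End R (B →ₗ[R] B' ⧸ I) :=
  Algebra.TensorProduct.lift
    { toFun := fun b => LinearMap.lcomp R _ (LinearMap.mulLeft R b)
      map_one' := by ext; simp
      map_mul' := fun a b => by ext; simp [mul_left_comm]
      map_zero' := by ext; simp
      map_add' := fun a b => by ext; simp [add_mul]
      commutes' := fun r => by ext; simp [← Algebra.smul_def] }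
    (Algebra.lsmul R R _) fun b b' => by ext; rfl

omit [IsLocalRing R] in
theorem ecEnd_tmul (b : B) (b' : B') (φ : B →ₗ[R] B' ⧸ I) :
    ecEnd R B I (b ⊗ₜ b') φ = ecAct b b' φ :=
  LinearMap.congr_fun (Algebra.TensorProduct.lift_tmul _ _ _ b b') φ

/-- the annihilator lies in every prime of a compositum -/
theorem ec_ann {K : Type} [Field K] [Algebra R K] (σ : B →ₐ[R] K) (σ' : B' →ₐ[R] K)
    (h0 : ∀ r ∈ maximalIdeal R, algebraMap R K r = 0) {t : B'} (ht : ∀ b', b' * t ∈ I ↔ σ' b' = 0)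
    {c : B ⊗[R] B'} (hc : ∀ φ, ecEnd R B I c φ = 0) :
    Algebra.TensorProduct.productMap σ σ' c = 0 := by
  classical
  letI : Algebra (ResidueField R) K := (Ideal.Quotient.lift _ (algebraMap R K) h0).toAlgebra
  haveI : IsScalarTower R (ResidueField R) K := IsScalarTower.of_algebraMap_eq fun r => rfl
  let e := Module.Basis.ofVectorSpace (ResidueField R) K
  let j : ResidueField R →ₗ[R] B' ⧸ I := (maximalIdeal R).liftQ
    (LinearMap.toSpanSingleton R _ (Ideal.Quotient.mk I t)) fun r hr => by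
      change Ideal.Quotient.mk I (r • t) = 0
      rw [Ideal.Quotient.eq_zero_iff_mem, Algebra.smul_def, ht, AlgHom.commutes]
      exact h0 r hr
  obtain ⟨q, hq, q0⟩ : ∃ q : ResidueField R → R, (∀ x, residue R (q x) = x) ∧ q 0 = 0 := by
    choose q hq using residue_surjective (R := R)
    exact ⟨fun x => if x = 0 then 0 else q x, fun x => by by_cases h : x = 0 <;> simp [*], by simp⟩
  let φ := fun s => j ∘ₗ ((e.coord s).restrictScalars R) ∘ₗ σ.toLinearMap
  have key : ∀ c : B ⊗[R] B', ∃ f : _ →₀ B',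
      (∀ s, ecEnd R B I c (φ s) 1 = Ideal.Quotient.mk I (f s * t)) ∧
      Algebra.TensorProduct.productMap σ σ' c = f.sum fun s b' => e s * σ' b' := fun c => by
    induction c with
    | zero => exact ⟨0, fun s => by simp, by simp⟩
    | add x y h1 h2 =>
      obtain ⟨f, f1, f2⟩ := h1
      obtain ⟨g, g1, g2⟩ := h2
      refine ⟨f + g, fun s => by simp [f1, g1, add_mul], ?_⟩
      rw [map_add, f2, g2, Finsupp.sum_add_index' (by simp) (by simp [mul_add])]
    | tmul b b' =>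
      refine ⟨(e.repr (σ b)).mapRange (fun x => q x • b') (by simp [q0]), fun s => ?_, ?_⟩
      · rw [ecEnd_tmul, ecAct_apply, mul_one, Finsupp.mapRange_apply]
        change b' • j (e.repr (σ b) s) = _
        conv_lhs => rw [← hq (e.repr (σ b) s)]
        change Ideal.Quotient.mk I (b' * (q _ • t)) = _
        rw [mul_smul_comm, smul_mul_assoc]
      · rw [Finsupp.sum_mapRange_index (by simp), Algebra.TensorProduct.productMap_apply_tmul]
        conv_lhs => rw [← e.linearCombination_repr (σ b)]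
        rw [Finsupp.linearCombination_apply, Finsupp.sum_mul]
        refine Finsupp.sum_congr fun s _ => ?_
        conv_lhs => rw [← hq (e.repr (σ b) s)]
        rw [map_smul, ← ResidueField.algebraMap_eq, algebraMap_smul, smul_mul_assoc, mul_smul_comm]
  obtain ⟨f, f1, f2⟩ := key c
  rw [f2]
  refine Finset.sum_eq_zero fun s _ => ?_
  have := f1 s
  rw [hc, LinearMap.zero_apply, eq_comm, Ideal.Quotient.eq_zero_iff_mem, ht] at this
  exact (congrArg _ this).trans (mul_zero _)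

theorem ec_iso (T : Stp R B I) {K : Type} [Field K] {σ : B →+* K} {σ' : B' →+* K}
    (hg : Subfield.closure (Set.range σ ∪ Set.range σ') = ⊤) (f : T.L →+* K)
    (f1 : ∀ b, f (T.ρ b) = σ b) (f2 : ∀ b, f (T.ρ' b) = σ' b) :
    ∃ e : K ≃+* T.L, (∀ b, e (σ b) = T.ρ b) ∧ ∀ b', e (σ' b') = T.ρ' b' := by
  have fs : Function.Surjective f := by
    rw [← RingHom.fieldRange_eq_top_iff, ← top_le_iff, ← hg, Subfield.closure_le]
    rintro _ (⟨b, rfl⟩ | ⟨b, rfl⟩)
    · exact ⟨_, f1 b⟩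
    · exact ⟨_, f2 b⟩
  let e := RingEquiv.ofBijective f ⟨f.injective, fs⟩
  exact ⟨e.symm, fun b => e.symm_apply_eq.2 (f1 b).symm, fun b => e.symm_apply_eq.2 (f2 b).symm⟩

theorem ec_main [IsNoetherianRing R] [Module.Finite R B] [Module.Finite R B']
    (hI : ∀ r ∈ maximalIdeal R, ∃ N : ℕ, algebraMap R B' r ^ N ∈ I) :
    ∃ (r : ℕ) (S : Fin r → Stp R B I) (U : ℕ → Submodule R (B →ₗ[R] B' ⧸ I)), U 0 = ⊥ ∧ U r = ⊤ ∧
      (∀ i : Fin r, (S i).U = U (i + 1) ∧ (S i).U' = U i) ∧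
      ∀ (K : Type) [Field K] (σ : B →+* K) (σ' : B' →+* K),
        (∀ r, σ (algebraMap R B r) = σ' (algebraMap R B' r)) →
        (∀ r ∈ maximalIdeal R, σ (algebraMap R B r) = 0) → (∃ t, ∀ b', b' * t ∈ I ↔ σ' b' = 0) →
        Subfield.closure (Set.range σ ∪ Set.range σ') = ⊤ →
        ∃ i, ∃ e : K ≃+* (S i).L, (∀ b, e (σ b) = (S i).ρ b) ∧ ∀ b', e (σ' b') = (S i).ρ' b' := by
  classical
  letI : Module (B ⊗[R] B') (B →ₗ[R] B' ⧸ I) := Module.compHom _ (ecEnd R B I).toRingHom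
  have sm : ∀ (c : B ⊗[R] B') (φ : B →ₗ[R] B' ⧸ I), c • φ = ecEnd R B I c φ := fun _ _ => rfl
  haveI : IsScalarTower R (B ⊗[R] B') (B →ₗ[R] B' ⧸ I) :=
    ⟨fun r c φ => by rw [sm, sm, map_smul]; rfl⟩
  haveI : Module.Finite (B ⊗[R] B') (B →ₗ[R] B' ⧸ I) :=
    Module.Finite.of_restrictScalars_finite R _ _
  haveI : IsNoetherianRing (B ⊗[R] B') := IsNoetherianRing.of_finite R _
  obtain ⟨r, U, 𝔭, l, h0, h1, h2, h3⟩ := ec_filt (B ⊗[R] B') (B →ₗ[R] B' ⧸ I)
  have hm : ∀ i, (𝔭 i).1.comap (algebraMap R _) = maximalIdeal R := fun i => by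
    refine ((maximalIdeal.isMaximal R).eq_of_le (Ideal.IsPrime.ne_top inferInstance)
      fun x hx => ?_).symm
    obtain ⟨N, hN⟩ := hI x hx
    obtain ⟨φ, hφ⟩ := (h2 i).2.1 1
    have e1 : algebraMap R (B ⊗[R] B') (x ^ N) • φ = 0 := by
      rw [algebraMap_smul]
      refine Subtype.ext (LinearMap.ext fun c => ?_)
      obtain ⟨y, hy⟩ := Ideal.Quotient.mk_surjective (φ.1 c)
      change x ^ N • φ.1 c = 0
      rw [← hy]
      change Ideal.Quotient.mk I (x ^ N • y) = 0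
      rw [Ideal.Quotient.eq_zero_iff_mem, Algebra.smul_def, map_pow]
      exact I.mul_mem_right _ hN
    have e2 := congrArg (l i) e1
    rw [map_smul, hφ, map_zero] at e2
    have e3 : algebraMap R (B ⊗[R] B') (x ^ N) * 1 ∈ (𝔭 i).1 := Ideal.Quotient.eq_zero_iff_mem.1 e2
    rw [mul_one, map_pow] at e3
    exact (𝔭 i).2.mem_of_pow_mem N e3
  have mx : ∀ i, (𝔭 i).1.IsMaximal := fun i =>
    Ideal.isMaximal_of_isIntegral_of_isMaximal_comap (R := R) _ (hm i ▸ inferInstance)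
  let S : Fin r → Stp R B I := fun i =>
    { L := B ⊗[R] B' ⧸ (𝔭 i).1
      fld := haveI := mx i; Ideal.Quotient.field _
      ρ := (Ideal.Quotient.mk _).comp Algebra.TensorProduct.includeLeftRingHom
      ρ' := (Ideal.Quotient.mk _).comp
        (Algebra.TensorProduct.includeRight : B' →ₐ[R] B ⊗[R] B').toRingHom
      U := (U (i + 1)).restrictScalars R
      U' := (U i).restrictScalars R
      lam := fun φ => if h : φ ∈ U (i + 1) then l i ⟨φ, h⟩ else 0
      comm := fun x => congrArg (Ideal.Quotient.mk _)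
        ((Algebra.TensorProduct.includeRight : B' →ₐ[R] B ⊗[R] B').commutes x).symm
      fin := (RingHom.finite_algebraMap (A := R) (B := B ⊗[R] B' ⧸ (𝔭 i).1)).2 inferInstance
      ker := fun x => Ideal.Quotient.eq_zero_iff_mem.trans (by rw [← hm i]; rfl)
      gen := by
        refine top_unique fun y _ => ?_
        obtain ⟨c, rfl⟩ := Ideal.Quotient.mk_surjective y
        induction c with
        | zero => exact zero_mem _
        | add x y h1 h2 => rw [map_add]; exact add_mem (h1 trivial) (h2 trivial)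
        | tmul b b' =>
          rw [show b ⊗ₜ[R] b' = (b ⊗ₜ[R] 1) * (1 ⊗ₜ[R] b') by simp, map_mul]
          exact mul_mem (Subring.subset_closure (Or.inl ⟨b, rfl⟩))
            (Subring.subset_closure (Or.inr ⟨b', rfl⟩))
      le := (h2 i).1
      act := fun b b' φ h => by
        have h : φ ∈ U (i + 1) := h
        have e : ecAct b b' φ = (b ⊗ₜ[R] b') • φ := (ecEnd_tmul b b' φ).symm
        have h' : ecAct b b' φ ∈ U (i + 1) := e ▸ smul_mem _ _ h
        refine ⟨h', ?_⟩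
        rw [dif_pos h, dif_pos h', show (⟨_, h'⟩ : U (i + 1)) = (b ⊗ₜ[R] b') • ⟨φ, h⟩ from
          Subtype.ext e, map_smul, show b ⊗ₜ[R] b' = (b ⊗ₜ[R] 1) * (1 ⊗ₜ[R] b') by simp]
        obtain ⟨y, hy⟩ := Ideal.Quotient.mk_surjective (l i ⟨φ, h⟩)
        rw [← hy]; rfl
      add := fun φ h ψ h' => by
        have h : φ ∈ U (i + 1) := h
        have h' : ψ ∈ U (i + 1) := h'
        rw [dif_pos h, dif_pos h', dif_pos (add_mem h h'), ← map_add]; rfl
      zero := fun φ h => by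
        have h : φ ∈ U (i + 1) := h
        rw [dif_pos h]; exact (h2 i).2.2 _
      one := by
        obtain ⟨φ, hφ⟩ := (h2 i).2.1 1
        exact ⟨φ.1, φ.2, by rw [dif_pos φ.2]; exact hφ⟩ }
  refine ⟨r, S, fun n => (U n).restrictScalars R, by simp [h0], by simp [h1],
    fun i => ⟨rfl, rfl⟩, fun K _ σ σ' e1 e2 ⟨t, ht⟩ hg => ?_⟩
  letI : Algebra R K := (σ.comp (algebraMap R B)).toAlgebra
  let a : B →ₐ[R] K := ⟨σ, fun _ => rfl⟩
  let a' : B' →ₐ[R] K := ⟨σ', fun x => (e1 x).symm⟩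
  let τ := (Algebra.TensorProduct.productMap a a').toRingHom
  obtain ⟨i, hi⟩ := h3 (RingHom.ker τ) (RingHom.ker_isPrime τ) fun c hc =>
    ec_ann a a' e2 ht (Module.mem_annihilator.1 hc)
  exact ⟨i, ec_iso (S i) hg (Ideal.Quotient.lift (𝔭 i).1 τ hi)
    (fun b => (Algebra.TensorProduct.productMap_apply_tmul a a' b 1).trans (by simp [a]))
    fun b => (Algebra.TensorProduct.productMap_apply_tmul a a' 1 b).trans (by simp [a'])⟩

end

end Pool.Agent.Lib.MP_62d77c_ag.R
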