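import Pool.Agent.Lib.MP_62d77c_ag.R.GmB
import Pool.Agent.Lib.MP_62d77c_ag.R.St
import Pool.Agent.Lib.MP_62d77c_ag.R.N1f

/-! Homomorphisms of graded modules and of divisorial modules. -/

set_option autoImplicit false
set_option linter.unusedSectionVars false
set_option linter.style.haveILetI false

namespace Pool.Agent.Lib.MP_62d77c_ag.R

open Filter Polynomial Submodule
open scoped TensorProduct Matrix

noncomputable section

variable {A : Type} [CommRing A] [IsDomain A] {𝒜 : ℕ → AddSubgroup A} [GradedRing 𝒜]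
  [hG : Fact (Gen 𝒜)] {p : ℕ} [Fact p.Prime] {N N' : GM 𝒜}

namespace Mo

variable (X : Mo 𝒜 p) {F F' : X.Fa}

/-- a homogeneous element of the module of a family -/
def el (h : X.FF F) (n : ℕ) (z : X.L) (hz : z ∈ F n) : (X.gm F h).M := ⟨X.mon n z, X.mon_mem hz⟩

theorem el_mem (h : X.FF F) {n : ℕ} {z : X.L} (hz : z ∈ F n) :
    X.el h n z hz ∈ (X.gm F h).g n := fun k hk => (X.co_mon _ _ _).trans (if_neg (by omega))

theorem eq_el (h : X.FF F) {n : ℕ} {m : (X.gm F h).M} (hm : m ∈ (X.gm F h).g n) :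
    ∃ z hz, m = X.el h n z hz := by
  refine ⟨X.co n m.1, m.2 n, ?_⟩
  conv_lhs => rw [← (X.gm F h).pj_same hm]
  exact Subtype.ext (by simp only [gm, el, Nat.cast_nonneg, if_true]; rfl)

theorem g_neg (h : X.FF F) {n : ℤ} (hn : n < 0) {m : (X.gm F h).M} (hm : m ∈ (X.gm F h).g n) :
    m = 0 := Subtype.ext (Polynomial.ext fun k => hm k (by omega))

theorem gm_ind (h : X.FF F) {P : (X.gm F h).M → Prop} (h0 : P 0)
    (hadd : ∀ a b, P a → P b → P (a + b)) (h1 : ∀ n z hz, P (X.el h n z hz)) (m : (X.gm F h).M) :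
    P m := by
  refine (X.gm F h).ind h0 hadd (fun n m hm => ?_) m
  rcases lt_or_ge n 0 with hn | hn
  · rw [X.g_neg h hn hm]; exact h0
  · obtain ⟨k, rfl⟩ := Int.eq_ofNat_of_zero_le hn
    obtain ⟨z, hz, rfl⟩ := X.eq_el h hm
    exact h1 k z hz

theorem mon_inj {n : ℕ} {z w : X.L} (e : X.mon n z = X.mon n w) : z = w := by
  have := congrArg (X.co n) e
  simpa [X.co_mon] using this

theorem el_inj (h : X.FF F) {n : ℕ} {z w : X.L} {hz : z ∈ F n} {hw : w ∈ F n}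
    (e : X.el h n z hz = X.el h n w hw) : z = w := X.mon_inj (congrArg Subtype.val e)

theorem el_congr (h : X.FF F) {n n' : ℕ} {z w : X.L} {hz : z ∈ F n} {hw : w ∈ F n'}
    (e : n = n') (e' : z = w) : X.el h n z hz = X.el h n' w hw := by
  subst e; subst e'; rfl

theorem el_zero (h : X.FF F) (n : ℕ) : X.el h n 0 (zero_mem _) = 0 := Subtype.ext (X.mon_zero n)

theorem th_mul (h : X.FF F) {i n : ℕ} {a : A} (ha : a ∈ 𝒜 i) {z : X.L} (hz : z ∈ F n) :
    X.θ a * z ∈ F (n + i) := X.st_pow h.st i n (mul_mem_mul (X.M.th_mem_pow ha) hz)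

theorem smul_el (h : X.FF F) {i n : ℕ} {a : A} (ha : a ∈ 𝒜 i) {z : X.L} (hz : z ∈ F n) :
    a • X.el h n z hz = X.el h (n + i) (X.θ a * z) (X.th_mul h ha hz) :=
  Subtype.ext (X.smul_mon ha n z)

theorem eh_mon_mul (m n : ℕ) (γ z : X.L) : X.mon m γ * X.mon n z = X.mon (n + m) (γ * z) := by
  change (monomial m γ * monomial n z : X.L[X]) = monomial (n + m) _
  rw [monomial_mul_monomial, add_comm]

/-- multiplication by a homogeneous element -/
def mulM (h : X.FF F) (h' : X.FF F') (m : ℕ) (γ : X.L) (hγ : ∀ n, ∀ z ∈ F n, γ * z ∈ F' (n + m)) :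
    (X.gm F h).M →ₗ[A] (X.gm F' h').M :=
  ((LinearMap.mulLeft A (X.mon m γ)).comp (X.gmS F h.st).subtype).codRestrict (X.gmS F' h'.st)
    fun G => by
      induction G using X.gm_ind h with
      | h0 =>
        change X.mon m γ * 0 ∈ _
        rw [mul_zero]; exact zero_mem _
      | hadd a b h1 h2 =>
        change X.mon m γ * (a.1 + b.1) ∈ _
        rw [mul_add]; exact add_mem h1 h2
      | h1 n z hz =>
        change X.mon m γ * X.mon n z ∈ _
        rw [X.eh_mon_mul]; exact X.mon_mem (hγ n z hz)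

theorem mulM_el (h : X.FF F) (h' : X.FF F') (m : ℕ) (γ : X.L)
    (hγ : ∀ n, ∀ z ∈ F n, γ * z ∈ F' (n + m)) (n : ℕ) (z : X.L) (hz : z ∈ F n) :
    X.mulM h h' m γ hγ (X.el h n z hz) = X.el h' (n + m) (γ * z) (hγ n z hz) :=
  Subtype.ext (X.eh_mon_mul m n γ z)

theorem isHom_of_el {X : Mo 𝒜 p} {F : X.Fa} (h : X.FF F) {d : ℤ} {f : (X.gm F h).M →ₗ[A] N'.M}
    (hf : ∀ (n : ℕ) z hz, f (X.el h n z hz) ∈ N'.g (n + d)) : IsHom (X.gm F h) N' d f := by
  intro n m hm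
  rcases lt_or_ge n 0 with hn | hn
  · rw [X.g_neg h hn hm, map_zero]; exact zero_mem _
  · obtain ⟨k, rfl⟩ := Int.eq_ofNat_of_zero_le hn
    obtain ⟨z, hz, rfl⟩ := X.eq_el h hm
    exact hf k z hz

theorem isHom_mulM (h : X.FF F) (h' : X.FF F') (m : ℕ) (γ : X.L)
    (hγ : ∀ n, ∀ z ∈ F n, γ * z ∈ F' (n + m)) :
    IsHom (X.gm F h) (X.gm F' h') m (X.mulM h h' m γ hγ) :=
  isHom_of_el h fun n z hz => by
    rw [X.mulM_el, ← Nat.cast_add]; exact X.el_mem h' _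

theorem hom_ext (h : X.FF F) {P : Type} [AddCommGroup P] [Module A P]
    {f g : (X.gm F h).M →ₗ[A] P} (e : ∀ n z hz, f (X.el h n z hz) = g (X.el h n z hz)) : f = g :=
  LinearMap.ext fun m => by
    induction m using X.gm_ind h with
    | h0 => simp
    | hadd a b h1 h2 => rw [map_add, map_add, h1, h2]
    | h1 n z hz => exact e n z hz

/-- a form that does not vanish on the model is regular on the module of a family -/
theorem smul_reg (h : X.FF F) {i : ℕ} {a : A} (ha : a ∈ 𝒜 i) (h0 : X.θ a ≠ 0)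
    {m : (X.gm F h).M} (e : a • m = 0) : m = 0 := by
  have e1 : X.cone a * (show X.L[X] from m.1) = 0 := congrArg Subtype.val e
  rw [X.cone_hom ha] at e1
  rcases mul_eq_zero.1 e1 with e2 | e2
  · exact absurd ((monomial_eq_zero_iff _ _).1 e2) h0
  · exact Subtype.ext e2

theorem smul_kill (h : X.FF F) {i : ℕ} {a : A} (ha : a ∈ 𝒜 i) (h0 : X.θ a = 0)
    (m : (X.gm F h).M) : a • m = 0 := by
  refine Subtype.ext ?_
  change X.cone a * (show X.L[X] from m.1) = 0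
  rw [X.cone_hom ha, h0, map_zero, zero_mul]

/-- an element that multiplies `O(D)` into `O(D + E)` is a section of `O(E)` -/
theorem md_of_mul {D E : Dvs X.L} {m : ℕ} {γ : X.L}
    (h : ∀ n, ∀ z ∈ X.MD D n, γ * z ∈ X.MD (D + E) (n + m)) : γ ∈ X.MD E m := fun O hO => by
  obtain ⟨n, z, hz, e⟩ := md_exact X D hO
  have := h n z hz O hO
  rw [mul_comm γ, X.nm_mul hO, ← O.valuation_le_one_iff, map_mul, e, one_mul] at this
  exact (O.valuation_le_one_iff _).1 this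

end Mo

/-- a homogeneous map of families on a subvariety is a multiplication -/
theorem hom_fam (X : Mo 𝒜 p) (hX : ∀ z, ∃ n, ∃ a ∈ 𝒜 n, ∃ b ∈ 𝒜 n, X.θ b ≠ 0 ∧ z = X.θ a / X.θ b)
    {F F' : X.Fa} (h : X.FF F) (h' : X.FF F') (m : ℕ)
    {φ : (X.gm F h).M →ₗ[A] (X.gm F' h').M} (hφ : IsHom _ _ m φ) :
    ∃ γ hγ, φ = X.mulM h h' m γ hγ := by
  have key : ∀ n z hz, ∃ w hw, φ (X.el h n z hz) = X.el h' (n + m) w hw := fun n z hz =>
    X.eq_el h' (by rw [Nat.cast_add]; exact hφ _ _ (X.el_mem h hz))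
  choose w hw e using key
  suffices H : ∃ γ, ∀ n z hz, w n z hz = γ * z by
    obtain ⟨γ, hγ⟩ := H
    refine ⟨γ, fun n z hz => hγ n z hz ▸ hw n z hz, X.hom_ext h fun n z hz => ?_⟩
    rw [e, X.mulM_el]; exact X.el_congr h' rfl (hγ n z hz)
  by_cases h0 : ∃ n, ∃ z ∈ F n, z ≠ 0
  · obtain ⟨n₀, z₀, hz₀, h0⟩ := h0
    refine ⟨w n₀ z₀ hz₀ / z₀, fun n z hz => ?_⟩
    obtain ⟨k, a, ha, b, hb, hb1, e1⟩ := hX (z / z₀)
    have l := md_pow_mem (𝒜 := 𝒜) (ell_spec X.x.1).1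
    have l1 : ∀ i, X.θ (ell X.x.1 ^ i) = 1 := fun i => by rw [map_pow, X.one, one_pow]
    have hb' := SetLike.mul_mem_graded hb (l n₀)
    have ha' := SetLike.mul_mem_graded ha (l n)
    have e2 : (b * ell X.x.1 ^ n₀) • X.el h n z hz = (a * ell X.x.1 ^ n) • X.el h n₀ z₀ hz₀ := by
      rw [X.smul_el h hb', X.smul_el h ha']
      refine X.el_congr h (by omega) ?_
      rw [map_mul, map_mul, l1, l1]
      field_simp at e1 ⊢
      linear_combination e1
    have e3 := congrArg φ e2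
    rw [map_smul, map_smul, e, e, X.smul_el h' hb', X.smul_el h' ha'] at e3
    have e4 := X.el_inj h' (e3.trans (X.el_congr h' (n' := n + m + (k + n₀)) (by omega) rfl
      (hw := by
        have := X.th_mul h' ha' (hw n₀ z₀ hz₀)
        rwa [show n₀ + m + (k + n) = n + m + (k + n₀) by omega] at this)))
    rw [map_mul, map_mul, l1, l1] at e4
    field_simp at e1 ⊢
    apply mul_left_cancel₀ hb1
    linear_combination z₀ * e4 - w n₀ z₀ hz₀ * e1
  · push Not at h0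
    refine ⟨0, fun n z hz => ?_⟩
    have := h0 n z hz
    subst this
    have e1 := e n 0 hz
    rw [X.el_zero, map_zero, ← X.el_zero h' (n + m)] at e1
    rw [← X.el_inj h' e1, zero_mul]

theorem xc_gen (j : Comp 𝒜 p) (z : (Xc j).L) :
    ∃ n, ∃ a ∈ 𝒜 n, ∃ b ∈ 𝒜 n, (Xc j).θ b ≠ 0 ∧ z = (Xc j).θ a / (Xc j).θ b := by
  obtain ⟨n, a, ha, b, hb, h0, e⟩ := th_gen j.1.1 z
  exact ⟨n, a, ha, b, hb, fun e => h0 (((Xc j).ker n b hb).1 e), e⟩

/-- homogeneous maps of divisorial modules -/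
theorem end_md (ff : FFD 𝒜 p) (j : Comp 𝒜 p) (D E : Dvs (Xc j).L) (m : ℕ)
    {φ : (GD ff j D).M →ₗ[A] (GD ff j (D + E)).M} (hφ : IsHom _ _ m φ) :
    ∃ γ ∈ (Xc j).MD E m, ∃ hγ, φ = (Xc j).mulM (ff j D) (ff j (D + E)) m γ hγ := by
  obtain ⟨γ, hγ, e⟩ := hom_fam (Xc j) (xc_gen j) (ff j D) (ff j (D + E)) m hφ
  exact ⟨γ, (Xc j).md_of_mul hγ, hγ, e⟩

theorem end_md' (ff : FFD 𝒜 p) (j : Comp 𝒜 p) (D : Dvs (Xc j).L) (m : ℕ)
    {φ : (GD ff j D).M →ₗ[A] (GD ff j D).M} (hφ : IsHom _ _ m φ) :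
    ∃ γ ∈ (Xc j).MD 0 m, ∃ hγ, φ = (Xc j).mulM (ff j D) (ff j D) m γ hγ := by
  obtain ⟨γ, hγ, e⟩ := hom_fam (Xc j) (xc_gen j) (ff j D) (ff j D) m hφ
  exact ⟨γ, (Xc j).md_of_mul (D := D) (by rwa [add_zero]), hγ, e⟩

namespace Res

variable (R : Res N)

theorem hom_ext {P : Type} [AddCommGroup P] [Module A P] {f g : N.M →ₗ[A] P}
    (e : ∀ i, f (R.gen i) = g (R.gen i)) : f = g :=
  LinearMap.ext fun m => by
    obtain ⟨c, rfl⟩ := R.surj m
    simp [Fintype.linearCombination_apply, e]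

theorem rel (j : Fin (R.b 1)) : ∑ i, R.D 0 i j • R.gen i = 0 := by
  have := R.ex0.apply_apply_eq_zero (Pi.single j 1)
  rw [Fintype.linearCombination_apply] at this
  rw [← this]
  refine Finset.sum_congr rfl fun i _ => ?_
  simp [mact_apply, Pi.single_apply]

theorem exists_hom {P : Type} [AddCommGroup P] [Module A P] (v : Fin (R.b 0) → P)
    (hv : mact P (R.D 0)ᵀ v = 0) : ∃ φ : N.M →ₗ[A] P, ∀ i, φ (R.gen i) = v i := by
  have hk : LinearMap.ker (Fintype.linearCombination A R.gen) ≤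
      LinearMap.ker (Fintype.linearCombination A v) := fun c hc => by
    obtain ⟨c', rfl⟩ := (R.ex0 c).1 hc
    have h1 : ∀ j, ∑ i, R.D 0 i j • v i = 0 := fun j => congrFun hv j
    rw [LinearMap.mem_ker, Fintype.linearCombination_apply]
    simp only [mact_apply, Finset.sum_smul, smul_eq_mul]
    rw [Finset.sum_comm]
    refine Finset.sum_eq_zero fun j _ => ?_
    simp only [mul_comm _ (c' j), mul_smul]
    rw [← Finset.smul_sum, h1, smul_zero]
  refine ⟨((LinearMap.ker _).liftQ _ hk).comp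
    ((Fintype.linearCombination A R.gen).quotKerEquivOfSurjective R.surj).symm.toLinearMap,
    fun i => ?_⟩
  have : ((Fintype.linearCombination A R.gen).quotKerEquivOfSurjective R.surj).symm (R.gen i) =
      Submodule.Quotient.mk (Pi.single i 1) := by
    rw [LinearEquiv.symm_apply_eq]; simp
  rw [LinearMap.comp_apply, LinearEquiv.coe_coe, this, liftQ_apply]
  simp

theorem isHom_iff {d : ℤ} {φ : N.M →ₗ[A] N'.M} :
    IsHom N N' d φ ↔ ∀ i, φ (R.gen i) ∈ N'.g (R.a 0 i + d) := by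
  refine ⟨fun h i => h _ _ (R.hgen i), fun h n m hm => ?_⟩
  have h1 : ∀ (N₁ : GM 𝒜) (v : Fin (R.b 0) → N₁.M) (d : ℤ), (∀ i, v i ∈ N₁.g (R.a 0 i + d)) →
      IsHom ((one 𝒜).pw (R.a 0)) N₁ d (Fintype.linearCombination A v) := fun N₁ v d hv n c hc => by
    change ∑ i, (show Fin (R.b 0) → A from c) i • v i ∈ _
    refine sum_mem fun i _ => ?_
    have := N₁.smul (((one 𝒜).mem_pw.1 hc) i) (hv i)
    rwa [show R.a 0 i + d + (n - R.a 0 i) = n + d by ring] at this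
  obtain ⟨c, hc, rfl⟩ := (h1 N R.gen 0 (by simpa using R.hgen)).lift (n := n) (by simpa using hm)
    (R.surj m)
  have := h1 N' (fun i => φ (R.gen i)) d h n c hc
  convert this using 1
  change φ (∑ i, (show Fin (R.b 0) → A from c) i • R.gen i) =
    ∑ i, (show Fin (R.b 0) → A from c) i • φ (R.gen i)
  rw [map_sum]
  exact Finset.sum_congr rfl fun i _ => map_smul φ _ _

theorem hg_ker (N' : GM 𝒜) (q : ℕ) :
    (N'.pw (-R.a q)).Hg (LinearMap.ker (mact N'.M (R.D q)ᵀ)) :=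
  (isHom_mact N' (a := -R.a (q + 1)) (a' := -R.a q) (d := 0) fun i j => by
    simpa [add_comm, sub_eq_add_neg] using R.hD q j i).hg_ker

/-- `Ext⁰` is the module of homomorphisms -/
theorem exists_T (N' : GM 𝒜) : ∃ T : (R.Ext N' 0).M ≃ₗ[A] (N.M →ₗ[A] N'.M),
    (∀ v i, T v (R.gen i) = v.1 i) ∧ ∀ n v, v ∈ (R.Ext N' 0).g n ↔ IsHom N N' n (T v) := by
  have hc := (N'.pw (-R.a 0)).core_eq (R.hg_ker N' 0)
  let S : (N.M →ₗ[A] N'.M) →ₗ[A] (R.Ext N' 0).M :=
    { toFun := fun φ => ⟨fun i => φ (R.gen i), by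
        rw [hc]
        refine funext fun j => ?_
        have := congrArg φ (R.rel j)
        rw [map_sum, map_zero] at this
        exact (Finset.sum_congr rfl fun i _ => (map_smul φ _ _).symm).trans this⟩
      map_add' := fun _ _ => rfl
      map_smul' := fun _ _ => rfl }
  have hb : Function.Bijective S := by
    refine ⟨fun φ ψ e => R.hom_ext fun i => congrFun (congrArg Subtype.val e) i, fun v => ?_⟩
    obtain ⟨φ, hφ⟩ := R.exists_hom (P := N'.M) v.1 (hc.le v.2)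
    exact ⟨φ, Subtype.ext (funext hφ)⟩
  have h1 : ∀ v i, (LinearEquiv.ofBijective S hb).symm v (R.gen i) = v.1 i := fun v i => by
    obtain ⟨φ, rfl⟩ := hb.2 v
    exact congrArg (fun ψ : N.M →ₗ[A] N'.M => ψ (R.gen i))
      ((LinearEquiv.ofBijective S hb).symm_apply_apply φ)
  refine ⟨(LinearEquiv.ofBijective S hb).symm, h1, fun n v => ?_⟩
  rw [R.isHom_iff]
  refine (N'.mem_pw (a := -R.a 0) (c := v.1)).trans (forall_congr' fun i => ?_)
  rw [h1, Pi.neg_apply, sub_neg_eq_add, add_comm]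

end Res

theorem hp_eq_of_bij
    (h : ∀ᶠ n : ℕ in atTop, ∃ f : N.g n → N'.g n, Function.Bijective f) : N.hp p = N'.hp p :=
  hp_eq_of_sz (h.mono fun n ⟨f, hf⟩ => by
    unfold GM.sz; rw [Nat.card_congr (Equiv.ofBijective f hf)])

theorem hom_self (ff : FFD 𝒜 p) (j : Comp 𝒜 p) (D : Dvs (Xc j).L) (R : Res (GD ff j D)) :
    (R.Ext (GD ff j D) 0).hp p = hp ((Xc j).MD 0) := by
  rw [← hp_gm (Xc j) (ff j 0)]
  obtain ⟨T, -, hT⟩ := R.exists_T (GD ff j D)
  refine (hp_eq_of_bij (Eventually.of_forall fun n => ?_)).symm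
  have hm : ∀ γ ∈ (Xc j).MD 0 n, ∀ k, ∀ z ∈ (Xc j).MD D k, γ * z ∈ (Xc j).MD D (k + n) :=
    fun γ hγ k z hz => by simpa [mul_comm γ] using (Xc j).mul_mem_MD hz hγ
  refine ⟨fun G => ⟨T.symm ((Xc j).mulM (ff j D) (ff j D) n _ (hm _ (G.1.2 n))), ?_⟩, ?_, ?_⟩
  · rw [hT, T.apply_symm_apply]; exact (Xc j).isHom_mulM _ _ _ _ _
  · rintro ⟨G, hG⟩ ⟨G', hG'⟩ e
    obtain ⟨γ, hγ, rfl⟩ := (Xc j).eq_el _ hG
    obtain ⟨γ', hγ', rfl⟩ := (Xc j).eq_el _ hG'
    obtain ⟨k, z, hz, h0⟩ := (Xc j).exists_ne_MD D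
    have e1 := LinearMap.congr_fun (T.symm.injective (congrArg Subtype.val e))
      ((Xc j).el (ff j D) k z hz)
    rw [Mo.mulM_el, Mo.mulM_el] at e1
    have e2 := mul_right_cancel₀ h0 ((Xc j).el_inj _ e1)
    simp only [Mo.el, Mo.co_mon, if_true] at e2
    exact Subtype.ext ((Xc j).el_congr (ff j 0) (hz := hγ) (hw := hγ') rfl e2)
  · rintro ⟨v, hv⟩
    obtain ⟨γ, hγ, h1, e⟩ := end_md' ff j D n ((hT n v).1 hv)
    refine ⟨⟨(Xc j).el (ff j 0) n γ hγ, (Xc j).el_mem _ _⟩, Subtype.ext ?_⟩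
    rw [LinearEquiv.symm_apply_eq, e]
    refine (Xc j).hom_ext _ fun k z hz => ?_
    rw [Mo.mulM_el, Mo.mulM_el]
    exact (Xc j).el_congr _ rfl (by simp [Mo.el, Mo.co_mon])

theorem exists_form_ne {j k : Comp 𝒜 p} (hjk : j ≠ k) :
    ∃ e, ∃ x ∈ 𝒜 e, (Xc j).θ x = 0 ∧ (Xc k).θ x ≠ 0 := by
  have : ¬pr j.1.1 ≤ pr k.1.1 := fun h => hjk (Subtype.ext (k.2 j.1 h))
  obtain ⟨e, f, hf, hfe, hfx⟩ := fibre_exists_hom (pr_hom j.1.1) this
  exact ⟨e, f, hfe, ((Xc j).ker e f hfe).2 hf, fun h => hfx (((Xc k).ker e f hfe).1 h)⟩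

theorem hom_ne (ff : FFD 𝒜 p) {j k : Comp 𝒜 p} (hjk : j ≠ k) (D : Dvs (Xc j).L)
    (D' : Dvs (Xc k).L) (R : Res (GD ff j D)) : (R.Ext (GD ff k D') 0).hp p = 0 := by
  obtain ⟨T, -, -⟩ := R.exists_T (GD ff k D')
  obtain ⟨e, x, hx, h1, h2⟩ := exists_form_ne hjk
  refine hp_zero (Eventually.of_forall fun n => (AddSubgroup.eq_bot_iff_forall _).2 fun v _ => ?_)
  refine T.injective (LinearMap.ext fun m => ?_)
  rw [map_zero, LinearMap.zero_apply]
  refine (Xc k).smul_reg _ hx h2 ?_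
  rw [← map_smul, (Xc j).smul_kill _ hx h1, map_zero]

end

end Pool.Agent.Lib.MP_62d77c_ag.R
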