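import Pool.Agent.Lib.MP_62d77c_ag.R.EA

/-! Families cut out by a functional; homomorphisms of stalks. -/

set_option autoImplicit false
set_option linter.unusedSectionVars false
set_option linter.style.haveILetI false

namespace Pool.Agent.Lib.MP_62d77c_ag.R

open Filter Polynomial Submodule
open scoped TensorProduct Matrix

noncomputable section

variable {A : Type} [CommRing A] [IsDomain A] {𝒜 : ℕ → AddSubgroup A} [GradedRing 𝒜]
  [hG : Fact (Gen 𝒜)] {p : ℕ} [Fact p.Prime] {N N' : GM 𝒜}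

/-- the image of a graded module under a functional -/
theorem el_fam0 (hF : N.Fb p) (Y : Mo 𝒜 p) (e : ℕ) (f : N.M →+ Y.L)
    (hf : ∀ i, ∀ a ∈ 𝒜 i, ∀ m, f (a • m) = Y.θ a * f m) {Q : Y.Fa}
    (hQ : ∀ n y, y ∈ Q n ↔ ∃ m ∈ N.g ((n + e : ℕ) : ℤ), y = f m) {N₀ : GM 𝒜} (h0 : N₀.Fb p)
    (hk : ∀ n : ℤ, Nat.card (N₀.g n) = Nat.card (f.comp (N.g n).subtype).ker) :
    Y.FF Q ∧ (N.hp p).eval (e : ℚ) = (N₀.hp p).eval (e : ℚ) + (hp Q).eval 0 := by
  have st : ∀ i n, Y.V ^ i * Q n ≤ Q (n + i) := fun i n => mul_le.2 fun v hv y hy => by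
    obtain ⟨a, ha, rfl⟩ := Y.M.mem_pow.1 hv
    obtain ⟨m, hm, rfl⟩ := (hQ n y).1 hy
    refine (hQ _ _).2 ⟨a • m, ?_, (hf i a ha m).symm⟩
    have := N.smul (i := i) (by rwa [Az_nat]) hm
    rwa [show ((n + e : ℕ) : ℤ) + i = ((n + i + e : ℕ) : ℤ) by push_cast; ring] at this
  have cd : ∀ n, Nat.card (Q n) = Nat.card (f.comp (N.g ((n + e : ℕ) : ℤ)).subtype).range :=
    fun n => Nat.card_congr (Equiv.subtypeEquivRight fun y => (hQ n y).trans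
      ⟨fun ⟨m, hm, e⟩ => ⟨⟨m, hm⟩, e.symm⟩, fun ⟨m, e⟩ => ⟨m.1, m.2, e.symm⟩⟩)
  have fd : ∀ n, (Q n).FG := fun n => by
    haveI := finite_g hF ((n + e : ℕ) : ℤ)
    haveI : Finite (Q n) := Nat.finite_of_card_ne_zero (by
      rw [cd]
      haveI : Finite (f.comp (N.g ((n + e : ℕ) : ℤ)).subtype).range := (Set.finite_range _).to_subtype
      exact Nat.card_pos.ne')
    exact Module.Finite.iff_fg.1 inferInstance
  refine ⟨⟨fun n => by simpa using st 1 n, fd, ?_⟩, ?_⟩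
  · obtain ⟨β, _, m, d, h1, h2⟩ := gb_gens N
    obtain ⟨n₀, h3⟩ : ∃ n₀ : ℕ, ∀ i, d i ≤ n₀ := by
      obtain ⟨M, hM⟩ := (Set.finite_range d).bddAbove
      exact ⟨M.toNat, fun i => (hM ⟨i, rfl⟩).trans (Int.self_le_toNat M)⟩
    refine eventually_atTop.2 ⟨n₀, fun n hn => ⟨fd n, le_antisymm (fun y hy => ?_) ?_⟩⟩
    · obtain ⟨x, hx, rfl⟩ := (hQ _ y).1 hy
      obtain ⟨c, hc, rfl⟩ := h2 _ x hx
      rw [map_sum]
      refine sum_mem fun i _ => ?_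
      obtain ⟨k, hk⟩ := Int.eq_ofNat_of_zero_le (show 0 ≤ (n + e : ℤ) - d i by have := h3 i; omega)
      have hc' : c i ∈ 𝒜 (k + 1) := by
        rw [← Az_nat (𝒜 := 𝒜), show ((k + 1 : ℕ) : ℤ) = ((n + 1 + e : ℕ) : ℤ) - d i by push_cast; omega]
        exact hc i
      rw [hf _ _ hc']
      have h4 : Y.V ^ k * span (ZMod p) {f (m i)} ≤ Q n := mul_le.2 fun v hv y hy => by
        obtain ⟨a, ha, rfl⟩ := Y.M.mem_pow.1 hv
        obtain ⟨r, rfl⟩ := mem_span_singleton.1 hy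
        rw [mul_smul_comm]
        refine smul_mem _ _ ((hQ _ _).2 ⟨a • m i, ?_, (hf k a ha _).symm⟩)
        have := N.smul (i := k) (by rwa [Az_nat]) (h1 i)
        rwa [show d i + k = ((n + e : ℕ) : ℤ) by push_cast; omega] at this
      refine mul_le_mul_right h4 Y.V ?_
      rw [← mul_assoc, ← pow_succ']
      exact mul_mem_mul (Y.M.th_mem_pow hc') (mem_span_singleton_self _)
    · simpa using st 1 n
  · have key : ∀ n : ℕ, N.sz p (n + (e : ℤ)) =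
        N₀.sz p (n + (e : ℤ)) + Module.finrank (ZMod p) (Q n) := fun n => by
      refine gb_sz ?_
      rw [pow_add, ← card_g h0, ← gb_rank (fd n), cd, hk, Nat.cast_add]
      rw [← AddSubgroup.index_ker]
      exact (AddSubgroup.card_mul_index _).symm
    have : hp Q = (N.hp p).comp (X + C ((e : ℤ) : ℚ)) - (N₀.hp p).comp (X + C ((e : ℤ) : ℚ)) :=
      hp_unique (by
        filter_upwards [gb_sh (hp_spec' hF) e, gb_sh (hp_spec' h0) e] with n h1 h2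
        rw [eval_sub, h1, h2, key]; push_cast; ring)
    rw [this]; simp

theorem el_fam (hF : N.Fb p) (Y : Mo 𝒜 p) (e : ℕ) {Z Z' : Submodule A N.M} (hle : Z' ≤ Z)
    (f : N.M → Y.L) (h1 : ∀ m ∈ Z, ∀ m' ∈ Z, f (m + m') = f m + f m')
    (h2 : ∀ i, ∀ a ∈ 𝒜 i, ∀ m ∈ Z, f (a • m) = Y.θ a * f m) (h3 : ∀ m ∈ Z, f m = 0 ↔ m ∈ Z')
    {Q : Y.Fa}
    (hQ : ∀ n, Q n = span (ZMod p) {y | ∃ m ∈ N.g ((n + e : ℕ) : ℤ), m ∈ Z ∧ y = f m}) :
    Y.FF Q ∧ ((N.sub Z).hp p).eval (e : ℚ) = ((N.sub Z').hp p).eval (e : ℚ) + (hp Q).eval 0 := by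
  let F : (N.sub Z).M →+ Y.L := AddMonoidHom.mk' (fun m => f m.1)
    fun a b => h1 _ (N.core_le Z a.2) _ (N.core_le Z b.2)
  refine el_fam0 (ea_fb_sub hF Z) Y e F (fun i a ha m => h2 i a ha _ (N.core_le Z m.2))
    (fun n y => ⟨fun hy => ?_, ?_⟩) (ea_fb_sub hF Z') fun n => Nat.card_congr ?_
  · rw [hQ] at hy
    induction hy using span_induction with
    | mem y hy =>
      obtain ⟨m, k1, k2, rfl⟩ := hy
      exact ⟨⟨m, (N.mem_core_of_mem_g k1).2 k2⟩, k1, rfl⟩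
    | zero => exact ⟨0, zero_mem _, F.map_zero.symm⟩
    | add a b _ _ k1 k2 =>
      obtain ⟨m, hm, rfl⟩ := k1
      obtain ⟨m', hm', rfl⟩ := k2
      exact ⟨m + m', add_mem hm hm', (F.map_add _ _).symm⟩
    | smul c a _ k1 =>
      obtain ⟨m, hm, rfl⟩ := k1
      obtain ⟨k, rfl⟩ := ZMod.intCast_surjective c
      exact ⟨k • m, zsmul_mem hm k, by rw [Int.cast_smul_eq_zsmul, map_zsmul]⟩
  · rintro ⟨m, hm, rfl⟩
    rw [hQ]
    exact subset_span ⟨m.1, hm, N.core_le Z m.2, rfl⟩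
  · exact ⟨fun m => ⟨⟨⟨m.1.1, (N.mem_core_of_mem_g m.2).2 (hle (N.core_le Z' m.1.2))⟩, m.2⟩,
        (h3 _ (hle (N.core_le Z' m.1.2))).2 (N.core_le Z' m.1.2)⟩,
      fun m => ⟨⟨m.1.1.1, (N.mem_core_of_mem_g m.1.2).2 ((h3 _ (N.core_le Z m.1.1.2)).1 m.2)⟩, m.1.2⟩,
      fun _ => rfl, fun _ => rfl⟩

theorem el_prod {β : Type} [Fintype β] (y : Pt 𝒜) (k : β → ℕ) (s : β → A) (h1 : ∀ i, s i ∈ 𝒜 (k i))
    (h2 : ∀ i, s i ∉ pr y) : ∏ i, s i ∈ 𝒜 (∑ i, k i) ∧ ∏ i, s i ∉ pr y ∧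
      ∀ i, ∃ l, ∃ t ∈ 𝒜 l, l + k i = ∑ i, k i ∧ t * s i = ∏ i, s i := by
  classical
  refine ⟨SetLike.prod_mem_graded 𝒜 k s fun i _ => h1 i, fun h => ?_, fun i => ?_⟩
  · obtain ⟨i, -, hi⟩ := (Ideal.IsPrime.prod_mem_iff (hp := y.isPrime)).1 h
    exact h2 i hi
  · exact ⟨_, _, SetLike.prod_mem_graded 𝒜 k s (F := Finset.univ.erase i) fun i _ => h1 i,
      Finset.sum_erase_add _ _ (Finset.mem_univ i), Finset.prod_erase_mul _ _ (Finset.mem_univ i)⟩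

/-- a homomorphism of stalks comes from a homogeneous homomorphism -/
theorem el_loc (R : Res N) (y : Pt 𝒜) (ψ : N.St y →ₗ[Lo y] N'.St y) :
    ∃ k : ℕ, ∃ s ∈ 𝒜 k, s ∉ pr y ∧ ∃ φ : N.M →ₗ[A] N'.M, IsHom N N' k φ ∧
      φ.baseChange (Lo y) = algebraMap A (Lo y) s • ψ := by
  choose k s hs hs' m hm e using fun i => st_surj y (ψ ((1 : Lo y) ⊗ₜ[A] R.gen i))
  obtain ⟨h1, h2, h3⟩ := el_prod y k s hs hs'
  choose l t ht hl hts using h3
  obtain ⟨n₀, h4⟩ : ∃ n₀ : ℕ, ∀ i, -R.a 0 i ≤ n₀ := by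
    obtain ⟨M, hM⟩ := (Set.finite_range fun i => -R.a 0 i).bddAbove
    exact ⟨M.toNat, fun i => (hM ⟨i, rfl⟩).trans (Int.self_le_toNat M)⟩
  have lp := md_pow_mem (𝒜 := 𝒜) (ell_spec y).1
  have l1 : ∀ n, algebraMap A (Lo y) (ell y ^ n) = 1 := fun n => by rw [map_pow, lo_ell, one_pow]
  let v : Fin (R.b 0) → N'.M := fun i => (t i * ell y ^ (n₀ + R.a 0 i).toNat) • m i
  have hv : ∀ i, v i ∈ N'.g (R.a 0 i + ((∑ i, k i) + n₀ : ℕ)) := fun i => by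
    have := N'.smul (i := (l i + (n₀ + R.a 0 i).toNat : ℕ))
      (by rw [Az_nat]; exact SetLike.mul_mem_graded (ht i) (lp _)) (hm i)
    convert this using 2
    have := h4 i
    have := hl i
    omega
  have ev : ∀ i, ((1 : Lo y) ⊗ₜ[A] v i : N'.St y) =
      algebraMap A (Lo y) (∏ i, s i) • ψ ((1 : Lo y) ⊗ₜ[A] R.gen i) := fun i => by
    rw [st_tmul_smul, ← e, smul_smul, map_mul, l1, mul_one, ← map_mul, hts]
  have z : ∀ j, N'.ZeroEl y (mact N'.M (R.D 0)ᵀ v j) := fun j => by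
    have h5 := N'.mem_pw.1 (R.hom_d N' 0 ((∑ i, k i) + n₀ : ℕ) v
      ((N'.mem_pw (a := -R.a 0)).2 fun i => by
        rw [Pi.neg_apply, sub_neg_eq_add, add_comm]; exact hv i)) j
    refine (st_zero y h5).1 ?_
    have h6 := congrArg (fun m : N.M => algebraMap A (Lo y) (∏ i, s i) •
      ψ ((1 : Lo y) ⊗ₜ[A] m)) (R.rel j)
    simp only [TensorProduct.tmul_zero, map_zero, smul_zero, TensorProduct.tmul_sum, map_sum,
      st_tmul_smul, map_smul, Finset.smul_sum] at h6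
    rw [← h6]
    change (1 : Lo y) ⊗ₜ[A] (∑ i, R.D 0 i j • v i) = _
    rw [TensorProduct.tmul_sum]
    exact Finset.sum_congr rfl fun i _ => by rw [st_tmul_smul, ev, smul_comm]
  choose k' u hu hu' e' using z
  obtain ⟨g1, g2, g3⟩ := el_prod y k' u hu hu'
  obtain ⟨φ, hφ⟩ := R.exists_hom (P := N'.M) ((∏ j, u j) • v) (by
    rw [map_smul]
    refine funext fun j => ?_
    obtain ⟨-, w, -, -, e1⟩ := g3 j
    rw [Pi.smul_apply, ← e1, mul_smul, e', smul_zero]; rfl)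
  refine ⟨(∑ i, k i) + n₀ + ∑ j, k' j, (∏ i, s i) * ell y ^ n₀ * ∏ j, u j,
    SetLike.mul_mem_graded (SetLike.mul_mem_graded h1 (lp _)) g1, fun h => ?_, φ,
    R.isHom_iff.2 fun i => ?_, ?_⟩
  · rcases y.isPrime.mem_or_mem h with h | h
    · exact (y.isPrime.mem_or_mem h).elim h2 (md_pow_not_mem (ell_spec y).2 _)
    · exact g2 h
  · have := N'.smul (i := (∑ j, k' j : ℕ)) (by rw [Az_nat]; exact g1) (hv i)
    rw [hφ, Nat.cast_add, ← add_assoc]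
    exact this
  · refine TensorProduct.AlgebraTensorModule.ext fun r x => ?_
    obtain ⟨c, rfl⟩ := R.surj x
    rw [st_tmul, map_smul, map_smul, Fintype.linearCombination_apply, TensorProduct.tmul_sum,
      map_sum, map_sum]
    refine congrArg _ (Finset.sum_congr rfl fun i _ => ?_)
    rw [st_tmul_smul, map_smul, map_smul, LinearMap.baseChange_tmul, hφ, Pi.smul_apply,
      st_tmul_smul, ev, LinearMap.smul_apply, map_mul, map_mul, l1, mul_one, smul_smul _ _ (ψ _),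
      mul_comm]

/-- the map induced on quotients by a form -/
theorem el_qx {d : ℤ} {f : N.M →ₗ[A] N'.M} (hf : IsHom N N' d f) {e : ℕ} {x : A} (hx : x ∈ 𝒜 e) :
    ∃ g : (N.qx x).M →ₗ[A] (N'.qx x).M, IsHom _ _ d g ∧ ∀ m, g (N.mdQ x m) = N'.mdQ x (f m) := by
  refine ⟨(N.core _).liftQ (N'.mdQ x ∘ₗ f) fun m hm => ?_, ?_, fun m => rfl⟩
  · obtain ⟨u, rfl⟩ := (N.mdQ_zero hx).1 ((Submodule.Quotient.mk_eq_zero _).2 hm)
    exact (N'.mdQ_zero hx).2 ⟨f u, (map_smul f x u).symm⟩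
  · rintro n _ ⟨m, hm, rfl⟩
    exact ⟨f m, hf n m hm, rfl⟩

/-- the stalk of the quotient by a form -/
theorem el_st_qx (N : GM 𝒜) (y : Pt 𝒜) {e : ℕ} {x : A} (hx : x ∈ 𝒜 e) {B : Type} [CommRing B]
    [Algebra (Lo y) B] (ε : N.St y ≃ₗ[Lo y] B) :
    ∃ q : (N.qx x).St y ≃ₗ[Lo y] B ⧸ Ideal.span {algebraMap (Lo y) B (algebraMap A (Lo y) x)},
      ∀ ξ, q ((N.mdQ x).baseChange (Lo y) ξ) = Ideal.Quotient.mk _ (ε ξ) := by
  let I := Ideal.span {algebraMap (Lo y) B (algebraMap A (Lo y) x)}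
  let g : N.St y →ₗ[Lo y] B ⧸ I := (Ideal.Quotient.mkₐ (Lo y) I).toLinearMap ∘ₗ ε.toLinearMap
  have h1 : Function.Surjective ((N.mdQ x).baseChange (Lo y)) :=
    LinearMap.lTensor_surjective _ (N.mdQ_surj x)
  have h2 : Function.Surjective g := Ideal.Quotient.mk_surjective.comp ε.surjective
  have h3 := st_exact y (ea_lsmul N hx) (N.mdQ_hom x) fun m => N.mdQ_zero hx
  have h4 : ∀ η, (LinearMap.lsmul A N.M x).baseChange (Lo y) η = algebraMap A (Lo y) x • η :=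
    fun η => by
      rw [show LinearMap.lsmul A N.M x = x • LinearMap.id from rfl, LinearMap.baseChange_smul,
        LinearMap.baseChange_id, algebraMap_smul]; rfl
  have h5 : LinearMap.ker ((N.mdQ x).baseChange (Lo y)) = LinearMap.ker g := by
    ext ξ
    refine (h3 ξ).trans (Iff.trans ?_ (Ideal.Quotient.eq_zero_iff_mem.trans
      Ideal.mem_span_singleton').symm)
    refine ⟨?_, fun ⟨b, hb⟩ => ⟨ε.symm b, ε.injective ?_⟩⟩
    · rintro ⟨η, rfl⟩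
      exact ⟨ε η, by rw [h4, mul_comm, ← Algebra.smul_def]; exact (map_smul ε _ _).symm⟩
    · rw [h4, map_smul, ε.apply_symm_apply, Algebra.smul_def, mul_comm]; exact hb
  refine ⟨(LinearMap.quotKerEquivOfSurjective _ h1).symm ≪≫ₗ Submodule.quotEquivOfEq _ _ h5 ≪≫ₗ
    LinearMap.quotKerEquivOfSurjective _ h2, fun ξ => ?_⟩
  have : (LinearMap.quotKerEquivOfSurjective _ h1).symm ((N.mdQ x).baseChange (Lo y) ξ) =
      Submodule.Quotient.mk ξ := by rw [LinearEquiv.symm_apply_eq]; rfl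
  rw [LinearEquiv.trans_apply, LinearEquiv.trans_apply, this]; rfl

end

end Pool.Agent.Lib.MP_62d77c_ag.R
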