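import Pool.Agent.Lib.MP_62d77c_ag.R.EQ
import Pool.Agent.Lib.MP_62d77c_ag.R.K1a

/-! The rank one pieces of the module of homomorphisms to the quotient by a form. -/

set_option autoImplicit false
set_option linter.unusedSectionVars false
set_option linter.style.haveILetI false

namespace Pool.Agent.Lib.MP_62d77c_ag.R

open Filter Polynomial Submodule IsLocalRing
open scoped TensorProduct Matrix

noncomputable section

variable {A : Type} [CommRing A] [IsDomain A] {𝒜 : ℕ → AddSubgroup A} [GradedRing 𝒜]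
  [hG : Fact (Gen 𝒜)] {p : ℕ} [Fact p.Prime] {X X' : Mo 𝒜 p} {e : ℕ} {x : A}

variable (X X' e x) in
/-- a list of common prime divisors and a form -/
structure Enu where
  r : ℕ
  w : Fin r → Vp 𝒜 p
  h : ∀ i, Ov X (w i)
  h' : ∀ i, Ov X' (w i)
  inj : Function.Injective w
  hx : x ∈ 𝒜 e
  h0 : X'.θ x ≠ 0

namespace Enu

variable (c : Enu X X' e x)

/-- localisation at the `i`-th surface -/
abbrev lc (i : Fin c.r) {D : Dvs X.L} {D' : Dvs X'.L} (φ : (X.MM D).M →ₗ[A] ((X'.MM D').qx x).M) :=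
  (c.h i).lc (c.h' i) c.hx φ

/-- homomorphisms vanishing at the first `n` surfaces -/
def pre (n : ℕ) (D : Dvs X.L) (D' : Dvs X'.L) :
    Submodule A ((X.MM D).M →ₗ[A] ((X'.MM D').qx x).M) where
  carrier := {φ | ∀ i : Fin c.r, (i : ℕ) < n → c.lc i φ = 0}
  zero_mem' := fun _ _ => Ov.lc_zero _ _ _
  add_mem' := fun ha hb i hi => by rw [lc, Ov.lc_add, ← lc, ← lc, ha i hi, hb i hi, add_zero]
  smul_mem' := fun a φ h i hi => by rw [lc, Ov.lc_smul, ← lc, h i hi, smul_zero]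

/-- a step of the filtration -/
def fil (i : Fin c.r) (U : Submodule (Lo (c.w i).1) ((c.h i).B →ₗ[Lo (c.w i).1]
    (c.h' i).B ⧸ (c.h' i).I x)) (D : Dvs X.L) (D' : Dvs X'.L) :
    Submodule A ((X.MM D).M →ₗ[A] ((X'.MM D').qx x).M) where
  carrier := {φ | φ ∈ c.pre i D D' ∧ c.lc i φ ∈ U}
  zero_mem' := ⟨zero_mem _, by rw [lc, Ov.lc_zero]; exact zero_mem _⟩
  add_mem' := fun ha hb => ⟨add_mem ha.1 hb.1, by rw [lc, Ov.lc_add]; exact add_mem ha.2 hb.2⟩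
  smul_mem' := fun a φ h => ⟨smul_mem _ _ h.1, by rw [lc, Ov.lc_smul]; exact smul_mem _ _ h.2⟩

theorem fil_top (i : Fin c.r) (D : Dvs X.L) (D' : Dvs X'.L) : c.fil i ⊤ D D' = c.pre i D D' :=
  Submodule.ext fun _ => and_iff_left trivial

theorem fil_bot (i : Fin c.r) (D : Dvs X.L) (D' : Dvs X'.L) :
    c.fil i ⊥ D D' = c.pre (i + 1) D D' :=
  Submodule.ext fun _ => ⟨fun h j hj => (Nat.lt_succ_iff_lt_or_eq.1 hj).elim (h.1 j)
    fun e => Fin.ext e ▸ h.2, fun h => ⟨fun j hj => h j (by omega), h i (by omega)⟩⟩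

variable {i : Fin c.r} (T : Stp (Lo (c.w i).1) (c.h i).B ((c.h' i).I x))

/-- the pair of a step -/
abbrev pair : Pair X X' := ((c.h i).cmp (c.h' i) T).pair

/-- the coordinate of a homomorphism -/
def co (D : Dvs X.L) (D' : Dvs X'.L) (φ : (X.MM D).M →ₗ[A] ((X'.MM D').qx x).M) :
    (c.pair T).Y.L :=
  (c.h' i).un (c.pair T).S' D' / (c.h i).un (c.pair T).S D *
    (show (c.pair T).Y.L from T.lam (c.lc i φ))

/-- the family of a step -/
def Q (D : Dvs X.L) (D' : Dvs X'.L) : (c.pair T).Y.Fa := fun n => span (ZMod p)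
  {y | ∃ φ, IsHom _ _ ((n + e : ℕ) : ℤ) φ ∧ φ ∈ c.fil i T.U D D' ∧ y = c.co T D D' φ}

theorem un_ne (D : Dvs X.L) (D' : Dvs X'.L) :
    (c.h' i).un (c.pair T).S' D' / (c.h i).un (c.pair T).S D ≠ 0 :=
  div_ne_zero ((c.h' i).un_ne _ (c.pair T).S'.cen D') ((c.h i).un_ne _ (c.pair T).S.cen D)

variable {D : Dvs X.L} {D' : Dvs X'.L}

theorem co_smul (a : A) {φ : (X.MM D).M →ₗ[A] ((X'.MM D').qx x).M} (h : c.lc i φ ∈ T.U) :
    c.co T D D' (a • φ) = (c.pair T).Y.θ a * c.co T D D' φ := by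
  have e1 : (c.pair T).Y.θ a = T.ρ (algebraMap _ _ (algebraMap A (Lo (c.w i).1) a)) :=
    congrArg T.ρ ((c.h i).dh_eq a)
  rw [co, co, lc, Ov.lc_smul, T.smul _ h, e1]
  exact mul_left_comm (G := T.L) _ _ _

theorem step (R : Res (X.MM D)) {S : (R.Ext ((X'.MM D').qx x) 0).M ≃ₗ[A] _}
    (hS : ∀ n v, v ∈ (R.Ext ((X'.MM D').qx x) 0).g n ↔ IsHom _ _ n (S v)) :
    (c.pair T).Y.FF (c.Q T D D') ∧
      (((R.Ext ((X'.MM D').qx x) 0).sub ((c.fil i T.U D D').comap S.toLinearMap)).hp p).eval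
        (e : ℚ) =
      (((R.Ext ((X'.MM D').qx x) 0).sub ((c.fil i T.U' D D').comap S.toLinearMap)).hp p).eval
        (e : ℚ) + (hp (c.Q T D D')).eval 0 := by
  refine el_fam (N := R.Ext ((X'.MM D').qx x) 0) (ea_fb_ext0 R (ea_fb_quot (fb_gm _ _) _)) _ e
    (Z := (c.fil i T.U D D').comap S.toLinearMap) (Z' := (c.fil i T.U' D D').comap S.toLinearMap)
    (fun v hv => And.intro hv.1 (T.le hv.2)) (fun v => c.co T D D' (S v)) (fun v hv v' hv' => ?_)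
    (fun k a _ v hv => ?_) (fun v hv => ?_) fun n => congrArg _ (Set.ext fun y => ?_)
  · have := (congrArg T.lam ((c.h i).lc_add (c.h' i) c.hx (S v) (S v'))).trans
      (T.add _ hv.2 _ hv'.2)
    rw [map_add]
    exact (congrArg (fun y : (c.pair T).Y.L => _ * y) this).trans
      (mul_add (R := (c.pair T).Y.L) _ _ _)
  · rw [map_smul]; exact c.co_smul T a hv.2
  · exact (mul_eq_zero_iff_left (c.un_ne T D D')).trans ((T.zero _ hv.2).trans
      ⟨fun h => ⟨hv.1, h⟩, fun h => h.2⟩)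
  · refine ⟨?_, fun ⟨v, h1, h2, h3⟩ => ⟨S v, (hS _ v).1 h1, h2, h3⟩⟩
    rintro ⟨φ, h1, h2, h3⟩
    obtain ⟨v, rfl⟩ := S.surjective φ
    exact ⟨v, (hS _ v).2 h1, h2, h3⟩

theorem Q_ne (D : Dvs X.L) (D' : Dvs X'.L) : ∀ᶠ n in atTop, c.Q T D D' n ≠ ⊥ := by
  obtain ⟨ψ, h1, h2⟩ := T.one
  obtain ⟨R⟩ := res_nonempty (X.MM D)
  obtain ⟨k, s, hs, hs', φ, h3, h4⟩ := (c.h i).lc_surj (c.h' i) c.hx R D' ψ
  have key : ∀ j : Fin c.r, ∃ k : ℕ, ∃ t ∈ 𝒜 k, t ∉ pr (c.w i).1 ∧ (j ≠ i →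
      ∀ φ : (X.MM D).M →ₗ[A] ((X'.MM D').qx x).M, c.lc j (t • φ) = 0) := fun j => by
    by_cases hj : j = i
    · exact ⟨0, 1, SetLike.one_mem_graded 𝒜, (Ideal.ne_top_iff_one _).1 (c.w i).1.isPrime.ne_top,
        fun h => absurd hj h⟩
    have : ¬pr (c.w j).1 ≤ pr (c.w i).1 := fun h => by
      rcases h.eq_or_lt with h | h
      · exact hj (c.inj (Subtype.ext (pr_inj h)))
      · have := dm_lt h
        have := (c.h i).dim
        have := (c.h j).dim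
        omega
    obtain ⟨k, t, h5, h6, h7⟩ := fibre_exists_hom (pr_hom _) this
    obtain ⟨N, hN⟩ := (c.h j).lc_kill (c.h' j) c.hx c.h0 h6 h5
    exact ⟨_, t ^ N, SetLike.pow_mem_graded N h6, fun h => h7 ((c.w i).1.isPrime.mem_of_pow_mem N h),
      fun _ => hN D D'⟩
  choose l t ht ht' hk using key
  obtain ⟨g1, g2, g3⟩ := el_prod (c.w i).1 l t ht ht'
  refine eventually_atTop.2 ⟨k + ∑ j, l j, fun n hn => ?_⟩
  obtain ⟨m, rfl⟩ := Nat.exists_eq_add_of_le hn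
  have lp := md_pow_mem (𝒜 := 𝒜) (ell_spec (c.w i).1).1 (m + e)
  have a1 := SetLike.mul_mem_graded g1 lp
  have u1 : c.lc i φ ∈ T.U := by rw [lc, h4]; exact smul_mem _ _ h1
  refine (Submodule.ne_bot_iff _).2 ⟨_, subset_span ⟨((∏ j, t j) * ell (c.w i).1 ^ (m + e)) • φ,
    ?_, ⟨fun j hj => ?_, by rw [lc, Ov.lc_smul]; exact smul_mem _ _ u1⟩, rfl⟩, ?_⟩
  · convert eq_smul_hom h3 a1 using 1
    push_cast; ring
  · obtain ⟨-, u, -, -, e1⟩ := g3 j
    rw [← e1, mul_comm u, mul_assoc, mul_smul]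
    exact hk j (fun e => by omega) _
  · rw [c.co_smul T _ u1]
    refine mul_ne_zero ((c.pair T).Y.th_ne a1 fun h => ((c.w i).1.isPrime.mem_or_mem h).elim g2
      (md_pow_not_mem (ell_spec _).2 _)) (mul_ne_zero (c.un_ne T D D') ?_)
    change T.lam (c.lc i φ) ≠ 0
    rw [lc, h4, T.smul _ h1, h2, mul_one]
    exact fun h => hs' ((Ov.alg_max hs).1 ((T.ker _).1 h))

theorem Q_mul (D : Dvs X.L) (D' : Dvs X'.L) (E : Dvs X.L) (E' : Dvs X'.L) (n m m' : ℕ) :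
    c.Q T D D' n * (c.pair T).S.bar E m * (c.pair T).S'.bar E' m' ≤
      c.Q T (D - E) (D' + E') (n + m + m') := by
  rw [Q, Sp.bar, Sp.bar, span_mul_span, span_mul_span, span_le]
  rintro _ ⟨_, ⟨_, ⟨φ, h1, h2, rfl⟩, _, ⟨z, hz, rfl⟩, rfl⟩, _, ⟨z', hz', rfl⟩, rfl⟩
  have m1 := X.isHom_mulM (X.ff_MD (D - E)) (X.ff_MD D) m z (Ov.md_mul (sub_add_cancel D E) hz)
  have m2 := X'.isHom_mulM (X'.ff_MD D') (X'.ff_MD (D' + E')) m' z' (Ov.md_mul rfl hz')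
  obtain ⟨ν, n1, n2⟩ := el_qx m2 c.hx
  choose b hb hb1 using fun j => (c.h j).eqv_mul (sub_add_cancel D E) hz
  choose b' hb' hb2 using fun j => (c.h' j).eqv_mul (D := D') rfl hz'
  have key := fun j => (c.h j).lc_fun (c.h' j) c.hx n2 (hb1 j) (hb2 j) φ
  have k1 := T.act (b i) (b' i) _ h2.2
  refine subset_span ⟨_, ?_, ⟨fun j hj => ?_, (key i).symm ▸ k1.1⟩, ?_⟩
  · convert n1.comp (h1.comp m1) using 1
    push_cast; ring
  · rw [lc, key j, show (c.h j).lc (c.h' j) c.hx φ = 0 from h2.1 j hj]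
    exact LinearMap.ext fun _ => smul_zero (b' j)
  · have e1 := (c.h i).un_mul (c.pair T).S (c.pair T).S.cen (sub_add_cancel D E) hz (hb i)
    have e2 := (c.h' i).un_mul (c.pair T).S' (c.pair T).S'.cen rfl hz' (hb' i)
    have e3 := ((c.h i).cmp (c.h' i) T).pair_rho (b i)
      ((c.h i).val_O (c.pair T).S.mem (c.pair T).S.cen _)
    have e4 := ((c.h i).cmp (c.h' i) T).pair_rho' (b' i)
      ((c.h' i).val_O (c.pair T).S'.mem (c.pair T).S'.cen _)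
    have u1 := (c.h i).un_ne _ (c.pair T).S.cen D
    have u2 := (c.h i).un_ne _ (c.pair T).S.cen (D - E)
    have e5 : (show (c.pair T).Y.L from T.lam (ecAct (b i) (b' i) (c.lc i φ))) =
        (c.pair T).S.ρ ⟨(c.h i).val (b i), (c.h i).val_O (c.pair T).S.mem (c.pair T).S.cen _⟩ *
        (c.pair T).S'.ρ ⟨(c.h' i).val (b' i), (c.h' i).val_O (c.pair T).S'.mem (c.pair T).S'.cen _⟩ *
        (show (c.pair T).Y.L from T.lam (c.lc i φ)) :=
      k1.2.trans (congrArg₂ (fun u v : T.L => u * v * T.lam (c.lc i φ)) e3 e4).symm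
    have e6 := congrArg T.lam (key i)
    change c.co T D D' φ * _ * _ = _
    rw [co, co, show (show (c.pair T).Y.L from T.lam (c.lc i _)) = _ from e6.trans e5]
    generalize (show (c.pair T).Y.L from T.lam (c.lc i φ)) = y
    field_simp
    linear_combination (-y * (c.pair T).S'.ev E' m' z' * (c.h' i).un (c.pair T).S' D') * e1 -
      y * (c.h i).un (c.pair T).S D * (c.pair T).S.ρ ⟨(c.h i).val (b i),
        (c.h i).val_O (c.pair T).S.mem (c.pair T).S.cen _⟩ * e2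

end Enu

theorem em_hp_top (N : GM 𝒜) : (N.sub ⊤).hp p = N.hp p :=
  hp_eq_of_bij (Eventually.of_forall fun _ => ⟨fun m => ⟨m.1.1, m.2⟩,
    fun _ _ h => Subtype.ext (Subtype.ext (Subtype.mk.inj h)),
    fun m => ⟨⟨⟨m.1, fun _ => trivial⟩, m.2⟩, rfl⟩⟩)

/-- the pieces of the module of homomorphisms to the quotient by a form -/
theorem em_gen (hd : dm X.x = dm X'.x) (hx : x ∈ 𝒜 e) (h0 : X'.θ x ≠ 0) :
    ∃ (ι : Type) (_ : Fintype ι) (P : ι → Pair X X') (Q : ∀ i, Dvs X.L → Dvs X'.L → (P i).Y.Fa),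
    (∀ i D D', (P i).Y.FF (Q i D D') ∧ ∀ᶠ n in atTop, Q i D D' n ≠ ⊥) ∧
    (∀ i D D' E E' n m m', Q i D D' n * (P i).S.bar E m * (P i).S'.bar E' m' ≤
      Q i (D - E) (D' + E') (n + m + m')) ∧
    (∀ P' : Pair X X', x ∈ pr P'.Y.x.1 → ∃ i, P'.Iso (P i)) ∧
    ∀ (D : Dvs X.L) (D' : Dvs X'.L) (R : Res (X.MM D)),
      ((R.Ext ((X'.MM D').qx x) 0).hp p).eval (e : ℚ) = ∑ i, (hp (Q i D D')).eval 0 := by
  have fin : {W : Vp 𝒜 p | Ov X W ∧ Ov X' W ∧ x ∈ pr W.1}.Finite :=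
    ((pd_fin X' hx h0).image X'.cen).subset fun W hW => by
      obtain ⟨O, h1, h2⟩ := X'.exists_PD hW.2.1.le hW.2.1.dim
      exact ⟨O, ⟨h1, h2.symm ▸ hW.2.2⟩, h2⟩
  obtain ⟨r, w, inj, hw⟩ := fin.fin_param
  have hw' : ∀ i, Ov X (w i) ∧ Ov X' (w i) ∧ x ∈ pr (w i).1 := fun i => hw.le ⟨i, rfl⟩
  let c : Enu X X' e x := ⟨r, w, fun i => (hw' i).1, fun i => (hw' i).2.1, inj, hx, h0⟩
  choose s T U u0 u1 u2 u3 using fun i : Fin c.r =>
    ec_main (R := Lo (c.w i).1) (B := (c.h i).B) (I := (c.h' i).I x)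
      ((c.h' i).pow_mem_span ((c.h' i).alg_ne hx h0))
  refine ⟨Σ i, Fin (s i), inferInstance, fun t => c.pair (T t.1 t.2), fun t => c.Q (T t.1 t.2),
    fun t D D' => ⟨?_, c.Q_ne _ D D'⟩, fun t => c.Q_mul _, fun P' hP => ?_, fun D D' R => ?_⟩
  · obtain ⟨R⟩ := res_nonempty (X.MM D)
    obtain ⟨S, -, hS⟩ := R.exists_T ((X'.MM D').qx x)
    exact (c.step _ R hS).1
  · obtain ⟨i, hi⟩ : P'.Y.x ∈ Set.range w :=
      hw.ge ⟨⟨P'.S.le, P'.S.dm_eq⟩, ⟨P'.S'.le, P'.S'.dm_eq⟩, hP⟩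
    obtain ⟨Y, S, S', hg⟩ := P'
    obtain ⟨L, θ, y, k1, k2, k3⟩ := Y
    obtain rfl : w i = y := hi
    set P' : Pair X X' := ⟨⟨L, θ, w i, k1, k2, k3⟩, S, S', hg⟩
    have a1 : ∀ r, P'.S.res (algebraMap (Lo (c.w i).1) (c.h i).B r) = 0 ↔
        r ∈ maximalIdeal (Lo (c.w i).1) := fun r =>
      (P'.S.res_eq_zero _).trans ((c.h i).val_lt P'.S.mem P'.S.cen r)
    obtain ⟨k, ε, e1, e2⟩ := u3 i P'.Y.L P'.S.res P'.S'.res (fun r => by
        obtain ⟨n, a, ha, t, ht, ht', e1⟩ := lo_surj (c.w i).1 r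
        have b1 := congrArg (fun r => P'.S.res (algebraMap (Lo (c.w i).1) (c.h i).B r)) e1
        have b2 := congrArg (fun r => P'.S'.res (algebraMap (Lo (c.w i).1) (c.h' i).B r)) e1
        have d1 := fun a => (congrArg P'.S.res ((c.h i).dh_eq a)).symm.trans (P'.S.res_dh a)
        have d2 := fun a => (congrArg P'.S'.res ((c.h' i).dh_eq a)).symm.trans (P'.S'.res_dh a)
        simp only [map_mul] at b1 b2
        refine mul_left_cancel₀ (P'.Y.th_ne ht ht') ?_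
        exact ((congrArg (· * _) (d1 t)).symm.trans (((map_mul P'.S.res _ _).symm.trans b1).trans
          (d1 a))).trans ((congrArg (· * _) (d2 t)).symm.trans
            (((map_mul P'.S'.res _ _).symm.trans b2).trans (d2 a))).symm)
      (fun r hr => (a1 r).2 hr) (P'.S'.exists_soc ((c.h' i).alg_ne hx h0)
        ((P'.S'.res_eq_zero _).2 (((c.h' i).val_lt P'.S'.mem P'.S'.cen _).2
          ((Ov.alg_max hx).2 hP)))) P'.gen_res
    exact ⟨⟨i, k⟩, P'.iso_cmp ((c.h i).cmp (c.h' i) (T i k)) ε e1 e2⟩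
  · obtain ⟨S, -, hS⟩ := R.exists_T ((X'.MM D').qx x)
    obtain ⟨F, hF⟩ : ∃ F : Submodule A ((X.MM D).M →ₗ[A] ((X'.MM D').qx x).M) → ℚ, ∀ Z, F Z =
      (((R.Ext ((X'.MM D').qx x) 0).sub (Z.comap S.toLinearMap)).hp p).eval (e : ℚ) :=
      ⟨_, fun _ => rfl⟩
    have f1 : ∀ i, ∑ k, (hp (c.Q (T i k) D D')).eval 0 =
        F (c.pre i D D') - F (c.pre (i + 1) D D') := fun i => by
      rw [← c.fil_top, ← c.fil_bot, ← u0 i, ← u1 i,
        ← Finset.sum_range_sub (fun n => F (c.fil i (U i n) D D')), ← Fin.sum_univ_eq_sum_range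
          (fun n => F (c.fil i (U i (n + 1)) D D') - F (c.fil i (U i n) D D'))]
      refine Finset.sum_congr rfl fun k _ => ?_
      rw [← (u2 i k).1, ← (u2 i k).2, hF, hF]
      exact eq_sub_of_add_eq' (c.step (T i k) R hS).2.symm
    have f2 : F (c.pre 0 D D') = ((R.Ext ((X'.MM D').qx x) 0).hp p).eval (e : ℚ) := by
      rw [show c.pre 0 D D' = ⊤ from top_unique fun φ _ i hi => absurd hi (Nat.not_lt_zero _), hF,
        Submodule.comap_top, em_hp_top]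
    have f3 : F (c.pre c.r D D') = 0 := by
      rw [hF, hp_zero (eventually_atTop.2 ⟨e, fun n hn => ?_⟩), eval_zero]
      obtain ⟨m, rfl⟩ := Nat.exists_eq_add_of_le' hn
      refine (AddSubgroup.eq_bot_iff_forall _).2 fun v hv => Subtype.ext (S.map_eq_zero_iff.1 ?_)
      refine eq_inj hd hx h0 ((hS _ v.1).1 hv) fun W h h' hW => ?_
      obtain ⟨i, rfl⟩ : W ∈ Set.range w := hw.ge ⟨h, h', hW⟩
      exact GM.core_le _ _ v.2 i i.2
    rw [Fintype.sum_sigma, Finset.sum_congr rfl fun i _ => f1 i, Fin.sum_univ_eq_sum_range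
      (fun n => F (c.pre n D D') - F (c.pre (n + 1) D D')), Finset.sum_range_sub', f2, f3, sub_zero]

/-- a conductor -/
theorem em_cond (hX : ∀ z, ∃ n, ∃ a ∈ 𝒜 n, ∃ b ∈ 𝒜 n, X.θ b ≠ 0 ∧ z = X.θ a / X.θ b) {F : X.Fa}
    (h : X.FF F) : ∃ e, ∃ x ∈ 𝒜 e, X.θ x ≠ 0 ∧ ∀ n, ∀ z ∈ F n, ∃ a ∈ 𝒜 (e + n),
      X.θ x * z = X.θ a := by
  obtain ⟨β, _, m, d, h1, h2⟩ := gb_gens (X.gm F h)
  have key : ∀ i, ∃ k, ∃ b ∈ 𝒜 k, b ∉ pr X.x.1 ∧ ∀ n, X.θ b * X.co n (m i).1 ∈ X.V ^ (k + n) := fun i => by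
    obtain ⟨k, a, ha, b, hb, b0, e1⟩ := hX (X.co (d i).toNat (m i).1)
    refine ⟨k, b, hb, fun c => b0 ((X.ker k b hb).2 c), fun n => ?_⟩
    by_cases c : (n : ℤ) = d i
    · rw [show n = (d i).toNat by omega, e1, mul_div_cancel₀ _ b0]
      have := X.M.th_mem_pow (SetLike.mul_mem_graded ha
        (md_pow_mem (ell_spec X.x.1).1 (d i).toNat))
      rwa [map_mul, map_pow, show X.M.θ (ell X.x.1) = 1 from X.one, one_pow, mul_one] at this
    · rw [h1 i n c, mul_zero]; exact zero_mem _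
  choose k b hb hb' hk using key
  obtain ⟨g1, g2, g3⟩ := el_prod X.x.1 k b hb hb'
  refine ⟨_, _, g1, X.th_ne g1 g2, fun n z hz => ?_⟩
  suffices H : X.θ (∏ i, b i) * z ∈ X.V ^ ((∑ i, k i) + n) by
    obtain ⟨a, ha, e1⟩ := X.M.mem_pow.1 H
    exact ⟨a, ha, e1.symm⟩
  obtain ⟨c, hc, e1⟩ := h2 n _ (X.el_mem h hz)
  have e2 : z = ∑ i, X.co n (c i • m i).1 := by
    let κ : (X.gm F h).M →+ X.L := (X.co n).comp (X.gmS F h.st).subtype.toAddMonoidHom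
    exact (((map_sum κ _ _).symm.trans (congrArg κ e1)).trans
      ((X.co_mon _ _ _).trans (if_pos rfl))).symm
  rw [e2, Finset.mul_sum]
  refine sum_mem fun i _ => ?_
  obtain ⟨l, t, ht, hl, e3⟩ := g3 i
  rcases Az_cases (hc i) with c0 | ⟨j, hj, c1⟩
  · rw [c0, zero_smul]
    exact ((congrArg _ (map_zero (X.co n))).trans (mul_zero _)).symm ▸ zero_mem _
  have e4 : X.co n (c i • m i).1 = if j ≤ n then X.θ (c i) * X.co (n - j) (m i).1 else 0 := by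
    change coeff (X.cone (c i) * (show X.L[X] from (m i).1)) n = _
    rw [X.cone_hom c1, X.co_mul]; rfl
  rw [e4]
  split_ifs with c2
  · rw [← e3, map_mul, show X.θ t * X.θ (b i) * (X.θ (c i) * X.co (n - j) (m i).1) =
      X.θ t * X.θ (c i) * (X.θ (b i) * X.co (n - j) (m i).1) by ring,
      show (∑ i, k i) + n = l + j + (k i + (n - j)) by omega, pow_add, pow_add]
    exact mul_mem_mul (mul_mem_mul (X.M.th_mem_pow ht) (X.M.th_mem_pow c1)) (hk i _)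
  · simp

end

end Pool.Agent.Lib.MP_62d77c_ag.R
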