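import Pool.Agent.Lib.MP_62d77c_ag.R.N

/-! Pairs from composita of residue fields of the normalised local rings. -/

set_option autoImplicit false
set_option linter.unusedSectionVars false
set_option linter.style.haveILetI false

namespace Pool.Agent.Lib.MP_62d77c_ag.R

open Filter Polynomial Submodule

noncomputable section

variable {A : Type} [CommRing A] [IsDomain A] {𝒜 : ℕ → AddSubgroup A} [GradedRing 𝒜]
  [hG : Fact (Gen 𝒜)] {p : ℕ} [Fact p.Prime]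

theorem ep_lift {L F : Type} [Field L] [Field F] {R : Subring L} (h : Nrm R)
    {O : ValuationSubring L} (hO : O ∈ Ht1 R) (ρ : R →+* F) (hc : Ctr R O (RingHom.ker ρ)) :
    ∃ r : O →+* F, (∀ z : O, r z = 0 ↔ O.valuation z < 1) ∧
      ∀ (b : R) (hb : (b : L) ∈ O), r ⟨b, hb⟩ = ρ b := by
  choose s hs e hm using fun z : O => (h.mem_O hO).1 z.2
  have s0 : ∀ z, ρ ⟨s z, hs z⟩ ≠ 0 := fun z c => ((hc _).2.1 c).ne (e z)
  have key : ∀ (z : O) (t : L) (ht : t ∈ R) (h1 : t * z ∈ R),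
      ρ ⟨_, hm z⟩ / ρ ⟨_, hs z⟩ * ρ ⟨t, ht⟩ = ρ ⟨_, h1⟩ := fun z t ht h1 => by
    rw [div_mul_eq_mul_div, div_eq_iff (s0 z), ← map_mul, ← map_mul]
    exact congrArg ρ (Subtype.ext (by simp only [Subring.coe_mul]; ring))
  have kb : ∀ (b : R) (hb : (b : L) ∈ O),
      ρ ⟨_, hm ⟨b, hb⟩⟩ / ρ ⟨_, hs ⟨b, hb⟩⟩ = ρ b := fun b hb => by
    have := key ⟨b, hb⟩ 1 (one_mem _) (by simp)
    rw [show (⟨1, one_mem _⟩ : R) = 1 from rfl, map_one, mul_one] at this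
    exact this.trans (congrArg ρ (Subtype.ext (one_mul _)))
  refine ⟨{ toFun := fun z => ρ ⟨_, hm z⟩ / ρ ⟨_, hs z⟩
            map_one' := (kb 1 (one_mem _)).trans (map_one ρ)
            map_zero' := (kb 0 (zero_mem _)).trans (map_zero ρ)
            map_mul' := fun z w => ?_
            map_add' := fun z w => ?_ }, fun z => ?_, kb⟩
  · have h1 : s z * s w * ((z * w : O) : L) ∈ R := by
      have := mul_mem (hm z) (hm w)
      rwa [mul_mul_mul_comm] at this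
    have h2 := key (z * w) _ (mul_mem (hs z) (hs w)) h1
    have h3 : ρ ⟨_, mul_mem (hs z) (hs w)⟩ = ρ ⟨_, hs z⟩ * ρ ⟨_, hs w⟩ := map_mul ρ ⟨_, _⟩ ⟨_, _⟩
    have h4 : ρ ⟨_, h1⟩ = ρ ⟨_, hm z⟩ * ρ ⟨_, hm w⟩ := by
      rw [← map_mul]
      exact congrArg ρ (Subtype.ext (by simp only [Subring.coe_mul]; push_cast; ring))
    rw [h3, h4] at h2
    rw [div_mul_div_comm, eq_div_iff (mul_ne_zero (s0 z) (s0 w)), h2]
  · have e1 : s z * s w * ((z + w : O) : L) = s z * z * s w + s z * (s w * w) := by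
      push_cast; ring
    have h1 : s z * s w * ((z + w : O) : L) ∈ R :=
      e1 ▸ add_mem (mul_mem (hm z) (hs w)) (mul_mem (hs z) (hm w))
    have h2 := key (z + w) _ (mul_mem (hs z) (hs w)) h1
    have h3 : ρ ⟨_, mul_mem (hs z) (hs w)⟩ = ρ ⟨_, hs z⟩ * ρ ⟨_, hs w⟩ := map_mul ρ ⟨_, _⟩ ⟨_, _⟩
    have h4 : ρ ⟨_, h1⟩ = ρ ⟨_, hm z⟩ * ρ ⟨_, hs w⟩ + ρ ⟨_, hs z⟩ * ρ ⟨_, hm w⟩ := by
      rw [← map_mul, ← map_mul, ← map_add]
      exact congrArg ρ (Subtype.ext e1)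
    rw [h3, h4] at h2
    rw [div_add_div _ _ (s0 z) (s0 w), eq_div_iff (mul_ne_zero (s0 z) (s0 w)), h2]
  · change ρ ⟨_, hm z⟩ / ρ ⟨_, hs z⟩ = 0 ↔ _
    rw [div_eq_zero_iff, or_iff_left (s0 z), ← RingHom.mem_ker, (hc _).2]
    change O.valuation (s z * z) < 1 ↔ _
    rw [map_mul, e, one_mul]

namespace Mo

variable (X : Mo 𝒜 p) {W : Pt 𝒜}

theorem ep_orng {n : ℕ} {a : A} (ha : a ∈ 𝒜 n) : X.θ a / X.θ (ell W) ^ n ∈ X.M.orng W :=
  B_le_orng (ell_spec W).2 (X.div_mem_B (ell_spec W).1 ha)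

theorem ep_mem {n : ℕ} {a : A} (ha : a ∈ 𝒜 n) : X.θ a / X.θ (ell W) ^ n ∈ X.nl W :=
  X.orng_le_nl W (X.ep_orng ha)

theorem ep_rsc {n : ℕ} {a : A} (ha : a ∈ 𝒜 n) :
    rsc 𝒜 X.θ (X.θ (ell W))⁻¹ a = X.θ a / X.θ (ell W) ^ n := by
  rw [rsc_hom _ _ ha, inv_pow, div_eq_mul_inv]

variable (W) in
/-- dehomogenisation into the normalised local ring -/
def dh : A →+* X.nl W := (rsc 𝒜 X.θ (X.θ (ell W))⁻¹).codRestrict _ fun a => by
  induction a using hom_ind (𝒜 := 𝒜) with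
  | h0 => rw [map_zero]; exact zero_mem _
  | hadd x y h1 h2 => rw [map_add]; exact add_mem h1 h2
  | h n a ha => rw [X.ep_rsc ha]; exact X.ep_mem ha

theorem dh_coe {n : ℕ} {a : A} (ha : a ∈ 𝒜 n) :
    (X.dh W a : X.L) = X.θ a / X.θ (ell W) ^ n := X.ep_rsc ha

theorem dh_eq {n : ℕ} {a : A} (ha : a ∈ 𝒜 n) : X.dh W a = ⟨_, X.ep_mem ha⟩ :=
  Subtype.ext (X.dh_coe ha)

theorem dh_ell (hW : pr X.x.1 ≤ pr W) : X.dh W (ell W) = 1 :=
  Subtype.ext ((X.dh_coe (ell_spec W).1).trans (by simp [X.ell_ne hW]))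

/-- a homomorphism of the normalised local ring to a field comes from a prime divisor -/
theorem ep_val {W : Vp 𝒜 p} (hW : pr X.x.1 ≤ pr W.1) (hd : dm W + 1 = dm X.x) {F : Type} [Field F]
    (ρ : X.nl W.1 →+* F) (hk : ∀ n, ∀ a ∈ 𝒜 n, ρ (X.dh W.1 a) = 0 ↔ a ∈ pr W.1) :
    ∃ O ∈ X.PD, X.cen O = W ∧ ∃ r : O →+* F, (∀ z : O, r z = 0 ↔ O.valuation z < 1) ∧
      ∀ (b : X.nl W.1) (hb : (b : X.L) ∈ O), r ⟨b, hb⟩ = ρ b := by
  obtain ⟨O, hO⟩ := exists_ctr (RingHom.ker ρ) (RingHom.ker_isPrime ρ)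
  have hc : X.Cen O W.1 := ⟨hW, fun n a ha => by
    have := hO (X.dh W.1 a)
    rw [X.dh_coe ha, RingHom.mem_ker, hk n a ha] at this
    exact ⟨this.1, this.2.symm⟩⟩
  have h1 : O ∈ X.PD := ⟨W, hc, hd⟩
  have h2 := cen_eq hc
  exact ⟨O, h1, h2, ep_lift (X.nrm_nl hW) ((X.ht1_nl hW).2 ⟨h1, h2 ▸ le_rfl⟩) ρ hO⟩

/-- the image of the normalised local ring is integral over the field of the centre -/
theorem ep_int (hW : pr X.x.1 ≤ pr W) {F : Type} [Field F] (ρ : X.nl W →+* F)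
    (hk : ∀ n, ∀ a ∈ 𝒜 n, ρ (X.dh W a) = 0 → a ∈ pr W) (K : Subfield F)
    (hK : ∀ a, ρ (X.dh W a) ∈ K) : ∃ t : Finset F, (∀ z ∈ t, IsIntegral K z) ∧
      ∀ b, ρ b ∈ IntermediateField.adjoin K (t : Set F) := by
  classical
  have h0 : ∀ (c : X.M.orng W), ρ ⟨c, X.orng_le_nl W c.2⟩ ∈ K := fun c => by
    obtain ⟨n, a, ha, b, hb, h1, e⟩ := (X.M.mem_orng (X.on_iff.2 hW)).1 c.2
    have b0 : ρ (X.dh W b) ≠ 0 := fun c => h1 (hk n b hb c)
    have : ρ ⟨c, X.orng_le_nl W c.2⟩ = ρ (X.dh W a) / ρ (X.dh W b) := by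
      rw [eq_div_iff b0, ← map_mul]
      refine congrArg ρ (Subtype.ext ?_)
      change (c : X.L) * (X.dh W b : X.L) = _
      rw [X.dh_coe ha, X.dh_coe hb, e]
      have := X.th_ne' hW hb h1
      change X.θ a / X.θ b * _ = _
      field_simp
    exact this ▸ div_mem (hK a) (hK b)
  let φ : X.M.orng W →+* K := (ρ.comp (Subring.inclusion (X.orng_le_nl W))).codRestrict K h0
  letI := (Subring.inclusion (X.orng_le_nl W)).toAlgebra
  have hi : ∀ b : X.nl W, IsIntegral K (ρ b) := fun b => by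
    have h1 : IsIntegral (X.M.orng W) b := by
      obtain ⟨f, hf, e⟩ := X.mem_nl.1 b.2
      refine ⟨f, hf, Subtype.ext ?_⟩
      exact (Polynomial.hom_eval₂ f _ (X.nl W).subtype b).trans e
    exact h1.map_of_comp_eq φ ρ rfl
  obtain ⟨t, ht, hs⟩ := X.nl_span hW
  refine ⟨t.attach.image fun z => ρ ⟨z.1, ht _ z.2⟩, fun z hz => ?_, fun b => ?_⟩
  · obtain ⟨w, -, rfl⟩ := Finset.mem_image.1 hz
    exact hi _
  · obtain ⟨b, hb⟩ := b
    suffices ∃ h, ρ ⟨b, h⟩ ∈ IntermediateField.adjoin K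
      ((t.attach.image fun z => ρ ⟨z.1, ht _ z.2⟩ : Finset F) : Set F) from this.2
    have := hs b hb
    clear hb
    induction this using span_induction with
    | mem x hx => exact ⟨ht x hx, IntermediateField.subset_adjoin _ _
        (Finset.mem_coe.2 (Finset.mem_image.2 ⟨⟨x, hx⟩, Finset.mem_attach _ _, rfl⟩))⟩
    | zero => exact ⟨zero_mem _, by
        rw [show (⟨0, zero_mem _⟩ : X.nl W) = 0 from rfl, map_zero]; exact zero_mem _⟩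
    | add x y _ _ a b => exact ⟨add_mem a.1 b.1, by
        rw [show (⟨x + y, add_mem a.1 b.1⟩ : X.nl W) = ⟨x, a.1⟩ + ⟨y, b.1⟩ from rfl, map_add]
        exact add_mem a.2 b.2⟩
    | smul c x _ a => exact ⟨mul_mem (X.orng_le_nl W c.2) a.1, by
        rw [show (⟨c • x, mul_mem (X.orng_le_nl W c.2) a.1⟩ : X.nl W) =
          ⟨c, X.orng_le_nl W c.2⟩ * ⟨x, a.1⟩ from rfl, map_mul]
        exact mul_mem (IntermediateField.algebraMap_mem _ (φ c)) a.2⟩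

end Mo

/-- a compositum of residue fields over the surface `W` -/
structure Cmp (X X' : Mo 𝒜 p) (W : Vp 𝒜 p) : Type 1 where
  L : Type
  [fld : Field L]
  ρ : X.nl W.1 →+* L
  ρ' : X'.nl W.1 →+* L
  le : pr X.x.1 ≤ pr W.1
  le' : pr X'.x.1 ≤ pr W.1
  dim : dm W + 1 = dm X.x
  dim' : dm W + 1 = dm X'.x
  ker : ∀ n, ∀ a ∈ 𝒜 n, ρ (X.dh W.1 a) = 0 ↔ a ∈ pr W.1
  comm : ∀ a, ρ (X.dh W.1 a) = ρ' (X'.dh W.1 a)
  gen : Subfield.closure (Set.range ρ ∪ Set.range ρ') = ⊤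

attribute [instance] Cmp.fld

namespace Cmp

variable {X X' : Mo 𝒜 p} {W : Vp 𝒜 p} (c : Cmp X X' W)

theorem ker' : ∀ n, ∀ a ∈ 𝒜 n, c.ρ' (X'.dh W.1 a) = 0 ↔ a ∈ pr W.1 := fun n a ha => by
  rw [← c.comm]; exact c.ker n a ha

theorem charP : CharP c.L p := (CharP.charP_iff_prime_eq_zero Fact.out).2 (by
  rw [← map_natCast c.ρ, show (p : X.nl W.1) = 0 from Subtype.ext (by simp), map_zero])

theorem fin : Module.Finite (Subfield.closure (Set.range (c.ρ.comp (X.dh W.1)))) c.L := by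
  classical
  set K := Subfield.closure (Set.range (c.ρ.comp (X.dh W.1)))
  have hK : ∀ a, c.ρ (X.dh W.1 a) ∈ K := fun a => Subfield.subset_closure ⟨a, rfl⟩
  obtain ⟨t, h1, h2⟩ := X.ep_int c.le c.ρ (fun n a ha => (c.ker n a ha).1) K hK
  obtain ⟨t', h1', h2'⟩ := X'.ep_int c.le' c.ρ' (fun n a ha => (c.ker' n a ha).1) K
    fun a => c.comm a ▸ hK a
  have hf := IntermediateField.finiteDimensional_adjoin (K := K) (S := (t : Set c.L) ∪ t')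
    fun x hx => hx.elim (h1 x) (h1' x)
  have e : IntermediateField.adjoin K ((t : Set c.L) ∪ t') = ⊤ := by
    refine eq_top_iff.2 fun z _ => ?_
    have : Subfield.closure (Set.range c.ρ ∪ Set.range c.ρ') ≤
        (IntermediateField.adjoin K ((t : Set c.L) ∪ t')).toSubfield := by
      rw [Subfield.closure_le]
      rintro _ (⟨b, rfl⟩ | ⟨b, rfl⟩)
      · exact IntermediateField.adjoin.mono _ _ _ Set.subset_union_left (h2 b)
      · exact IntermediateField.adjoin.mono _ _ _ Set.subset_union_right (h2' b)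
    exact this (c.gen ▸ Subfield.mem_top z)
  rw [e] at hf
  exact IntermediateField.topEquiv.toLinearEquiv.finiteDimensional

/-- the cover of `W` with the given function field -/
def Y : Mo 𝒜 p where
  L := c.L
  alg := @ZMod.algebra _ _ p c.charP
  θ := c.ρ.comp (X.dh W.1)
  x := W
  ker := c.ker
  one := by rw [RingHom.comp_apply, X.dh_ell c.le, map_one]
  fin := c.fin

theorem exists_S : ∃ S : Sp X c.Y, ∀ (b : X.nl W.1) (hb : (b : X.L) ∈ S.O), S.ρ ⟨b, hb⟩ = c.ρ b := by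
  obtain ⟨O, h1, h2, r, h3, h4⟩ := X.ep_val c.le c.dim c.ρ c.ker
  refine ⟨⟨O, h1, h2, r, h3, fun n a ha h => ?_⟩, h4⟩
  exact (h4 ⟨_, X.ep_mem ha⟩ h).trans (congrArg c.ρ (X.dh_eq ha).symm)

theorem exists_S' :
    ∃ S : Sp X' c.Y, ∀ (b : X'.nl W.1) (hb : (b : X'.L) ∈ S.O), S.ρ ⟨b, hb⟩ = c.ρ' b := by
  obtain ⟨O, h1, h2, r, h3, h4⟩ := X'.ep_val c.le' c.dim' c.ρ' c.ker'
  refine ⟨⟨O, h1, h2, r, h3, fun n a ha h => ?_⟩, h4⟩
  exact (h4 ⟨_, X'.ep_mem ha⟩ h).trans ((congrArg c.ρ' (X'.dh_eq ha).symm).trans (c.comm a).symm)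

end Cmp

namespace Sp

variable {X Y : Mo 𝒜 p} (S : Sp X Y)

theorem ep_cen : X.Cen S.O Y.x.1 := S.cen ▸ (pd_cen X S.mem).1

theorem nl_le : X.nl Y.x.1 ≤ S.O.toSubring := S.ep_cen.nl_le

theorem ep_ht1 : S.O ∈ Ht1 (X.nl Y.x.1) := (X.ht1_nl S.le).2 ⟨S.mem, S.cen ▸ le_rfl⟩

/-- the restriction to the normalised local ring at the centre -/
def res : X.nl Y.x.1 →+* Y.L := S.ρ.comp (Subring.inclusion S.nl_le)

theorem res_apply (b : X.nl Y.x.1) : S.res b = S.ρ ⟨b, S.nl_le b.2⟩ := rfl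

theorem res_eq_zero (b : X.nl Y.x.1) : S.res b = 0 ↔ S.O.valuation b < 1 := S.ker _

theorem res_dh (a : A) : S.res (X.dh Y.x.1 a) = Y.θ a := by
  induction a using hom_ind (𝒜 := 𝒜) with
  | h0 => simp
  | hadd x y h1 h2 => simp [h1, h2]
  | h n a ha => rw [X.dh_eq ha]; exact S.th n a ha _

theorem ep_frac (z : S.O) : ∃ s b : X.nl Y.x.1, S.res s ≠ 0 ∧ (s : X.L) * z = b ∧
    S.ρ z = S.res b / S.res s := by
  obtain ⟨s, hs, e, h⟩ := ((X.nrm_nl S.le).mem_O S.ep_ht1).1 z.2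
  have s0 : S.res ⟨s, hs⟩ ≠ 0 := fun c => ((S.res_eq_zero _).1 c).ne e
  refine ⟨⟨s, hs⟩, ⟨_, h⟩, s0, rfl, (eq_div_iff s0).2 ?_⟩
  rw [res_apply, res_apply, ← map_mul]
  exact congrArg S.ρ (Subtype.ext (mul_comm _ _))

/-- two restrictions that agree on the normalised local ring agree -/
theorem ep_agree {Y' : Mo 𝒜 p} (S' : Sp X Y') (hx : Y.x = Y'.x) (e : Y.L →+* Y'.L)
    (h : ∀ (b : X.L), b ∈ X.nl Y.x.1 → ∀ h1 h2, e (S.ρ ⟨b, h1⟩) = S'.ρ ⟨b, h2⟩) :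
    S.O = S'.O ∧ ∀ D n z, e (S.ev D n z) = S'.ev D n z := by
  have hle : X.nl Y.x.1 ≤ S'.O.toSubring := hx ▸ S'.nl_le
  obtain ⟨𝔮, hq, h1, hc⟩ := S.ep_ht1
  have hc' : Ctr (X.nl Y.x.1) S'.O 𝔮 := fun r => ⟨hle r.2, by
    rw [(hc r).2, ← S.ker ⟨r, (hc r).1⟩, ← S'.ker ⟨r, hle r.2⟩, ← h r r.2 (hc r).1,
      map_eq_zero e]⟩
  have eO := (X.nrm_nl S.le).ctr_unique hq h1 hc hc'
  have k : ∀ (z : X.L) h1 h2, e (S.ρ ⟨z, h1⟩) = S'.ρ ⟨z, h2⟩ := fun z h1 h2 => by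
    obtain ⟨s, b, s0, e1, e2⟩ := S.ep_frac ⟨z, h1⟩
    have e3 : e (S.res s) = S'.ρ ⟨s, hle s.2⟩ := h s s.2 _ _
    have e4 : e (S.res b) = S'.ρ ⟨b, hle b.2⟩ := h b b.2 _ _
    rw [e2, map_div₀, div_eq_iff ((map_ne_zero e).2 s0), e3, e4, ← map_mul]
    exact congrArg S'.ρ (Subtype.ext (e1.symm.trans (mul_comm _ _)))
  refine ⟨eO, fun D n z => ?_⟩
  by_cases hz : X.nm S.O D n z ∈ S.O
  · have hz' : X.nm S'.O D n z ∈ S'.O := eO ▸ hz
    rw [S.ev_eq hz, S'.ev_eq hz', k _ hz (eO ▸ hz)]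
    exact congrArg S'.ρ (Subtype.ext (by simp only [eO]))
  · have hz' : X.nm S'.O D n z ∉ S'.O := eO ▸ hz
    rw [Sp.ev, Sp.ev, dif_neg hz, dif_neg hz', map_zero]

end Sp

namespace Cmp

variable {X X' : Mo 𝒜 p} {W : Vp 𝒜 p} (c : Cmp X X' W)

/-- the pair of a compositum: `c.pair.Y.L` is `c.L` and `c.pair.Y.x` is `W` by definition -/
def pair : Pair X X' where
  Y := c.Y
  S := c.exists_S.choose
  S' := c.exists_S'.choose
  gen := by
    refine eq_top_iff.2 (c.gen.ge.trans (Subfield.closure_mono ?_))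
    rintro _ (⟨b, rfl⟩ | ⟨b, rfl⟩)
    · exact Or.inl ⟨_, c.exists_S.choose_spec b (c.exists_S.choose.nl_le b.2)⟩
    · exact Or.inr ⟨_, c.exists_S'.choose_spec b (c.exists_S'.choose.nl_le b.2)⟩

theorem pair_x : c.pair.Y.x = W := rfl

theorem pair_th (a : A) : c.pair.Y.θ a = c.ρ (X.dh W.1 a) := rfl

theorem pair_rho (b : X.nl W.1) (hb : (b : X.L) ∈ c.pair.S.O) : c.pair.S.ρ ⟨b, hb⟩ = c.ρ b :=
  c.exists_S.choose_spec b hb

theorem pair_rho' (b : X'.nl W.1) (hb : (b : X'.L) ∈ c.pair.S'.O) :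
    c.pair.S'.ρ ⟨b, hb⟩ = c.ρ' b := c.exists_S'.choose_spec b hb

theorem pair_res (b : X.nl W.1) : c.pair.S.res b = c.ρ b := c.pair_rho b _

theorem pair_res' (b : X'.nl W.1) : c.pair.S'.res b = c.ρ' b := c.pair_rho' b _

end Cmp

namespace Pair

variable {X X' : Mo 𝒜 p} (P : Pair X X')

theorem gen_res : Subfield.closure (Set.range P.S.res ∪ Set.range P.S'.res) = ⊤ := by
  refine eq_top_iff.2 (P.gen.ge.trans (Subfield.closure_le.2 ?_))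
  rintro _ (⟨z, rfl⟩ | ⟨z, rfl⟩)
  · obtain ⟨s, b, -, -, e⟩ := P.S.ep_frac z
    exact e ▸ div_mem (Subfield.subset_closure (Or.inl ⟨b, rfl⟩))
      (Subfield.subset_closure (Or.inl ⟨s, rfl⟩))
  · obtain ⟨s, b, -, -, e⟩ := P.S'.ep_frac z
    exact e ▸ div_mem (Subfield.subset_closure (Or.inr ⟨b, rfl⟩))
      (Subfield.subset_closure (Or.inr ⟨s, rfl⟩))

/-- a pair over `W` with the same residue maps as a compositum is isomorphic to its pair -/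
theorem iso_cmp (c : Cmp X X' P.Y.x) (e : P.Y.L ≃+* c.L) (h : ∀ b, e (P.S.res b) = c.ρ b)
    (h' : ∀ b, e (P.S'.res b) = c.ρ' b) : P.Iso c.pair := by
  obtain ⟨h1, h2⟩ := P.S.ep_agree c.pair.S rfl e.toRingHom fun b hb _ h2 =>
    (h ⟨b, hb⟩).trans (c.pair_rho ⟨b, hb⟩ h2).symm
  obtain ⟨h3, h4⟩ := P.S'.ep_agree c.pair.S' rfl e.toRingHom fun b hb _ h2 =>
    (h' ⟨b, hb⟩).trans (c.pair_rho' ⟨b, hb⟩ h2).symm
  exact ⟨h1, h3, e, h2, h4⟩

end Pair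

/-- the element `t` with `b * t ∈ (x) ↔ b` vanishes at the prime divisor -/
theorem Sp.exists_soc {X Y : Mo 𝒜 p} (S : Sp X Y) {x : X.nl Y.x.1} (x0 : x ≠ 0)
    (hx : S.res x = 0) : ∃ t, ∀ b, b * t ∈ Ideal.span {x} ↔ S.res b = 0 := by
  classical
  have hN := X.nrm_nl S.le
  have hf := X.finite_ht1_nl S.le S.dm_eq.ge
  have x1 : (x : X.L) ≠ 0 := fun c => x0 (Subtype.ext c)
  have dO := hN.disc S.ep_ht1
  obtain ⟨g, g0, hg, -⟩ := hN.exists_span hf (Finsupp.single S.O 1)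
  have hxO : 0 < ord S.O (x : X.L) := (dO.lt_one_iff x1).1 ((S.res_eq_zero x).1 hx)
  have ht : g * x ∈ X.nl Y.x.1 := hN.hartogs fun O hO => by
    have d := hN.disc hO
    rw [d.mem_iff (mul_ne_zero g0 x1), d.ord_mul g0 x1, hg O hO, Finsupp.single_apply]
    split_ifs with e
    · subst e; omega
    · have := (d.mem_iff x1).1 (Ht1.le hO x.2); omega
  refine ⟨⟨_, ht⟩, fun b => ?_⟩
  have e1 : b * ⟨_, ht⟩ ∈ Ideal.span {x} ↔ (b : X.L) * g ∈ X.nl Y.x.1 := by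
    rw [Ideal.mem_span_singleton']
    refine ⟨fun ⟨a, ha⟩ => ?_, fun h => ⟨⟨_, h⟩, Subtype.ext (mul_assoc _ _ _)⟩⟩
    have : (a : X.L) * x = b * g * x := (congrArg Subtype.val ha).trans (mul_assoc _ _ _).symm
    exact mul_right_cancel₀ x1 this ▸ a.2
  rw [e1, S.res_eq_zero]
  by_cases b0 : (b : X.L) = 0
  · simp [b0, zero_mem]
  rw [dO.lt_one_iff b0]
  refine ⟨fun h => ?_, fun h => hN.hartogs fun O hO => ?_⟩
  · have := (dO.mem_iff (mul_ne_zero b0 g0)).1 (S.nl_le h)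
    rw [dO.ord_mul b0 g0, hg _ S.ep_ht1, Finsupp.single_eq_same] at this
    omega
  · have d := hN.disc hO
    rw [d.mem_iff (mul_ne_zero b0 g0), d.ord_mul b0 g0, hg O hO, Finsupp.single_apply]
    split_ifs with e
    · subst e; omega
    · have := (d.mem_iff b0).1 (Ht1.le hO b.2); omega

/-- a conductor form lies in the centre of every pair off the diagonal -/
theorem Off.cond_mem {j : Comp 𝒜 p} {P : Pair (Xc j) (Xc j)} (h : Off P) {e : ℕ} {x : A}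
    (hx : x ∈ 𝒜 e) (hc : ∀ n, ∀ z ∈ (Xc j).MD 0 n, ∃ m, ∃ s ∈ 𝒜 m, s ∉ pr P.Y.x.1 ∧
      ∃ a ∈ 𝒜 (m + e + n), (Xc j).θ (s * x) * z = (Xc j).θ a) : x ∈ pr P.Y.x.1 := by
  obtain ⟨z, n, h1, h2⟩ := h
  by_contra hn
  obtain ⟨m, s, hs, s0, a, ha, e1⟩ := hc n _ (h1 j)
  have hsx := SetLike.mul_mem_graded hs hx
  have k : ∀ S : Sp (Xc j) P.Y, P.Y.θ (s * x) * S.ev 0 n (z j) = P.Y.θ a := fun S => by
    rw [← S.ev_th_mul hsx (h1 j _ S.mem), e1, S.ev_th ha]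
  refine h2 (mul_left_cancel₀ (P.Y.th_ne hsx fun c => ?_) ((k P.S).trans (k P.S').symm))
  exact (Ideal.IsPrime.mem_or_mem inferInstance c).elim s0 hn

end

end Pool.Agent.Lib.MP_62d77c_ag.R
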