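import Pool.Agent.Lib.MP_62d77c_ag.R.EL
import Pool.Agent.Lib.MP_62d77c_ag.R.EC

/-! The semilocal ring over a prime divisor of the image. -/

set_option autoImplicit false
set_option linter.unusedSectionVars false
set_option linter.style.haveILetI false

namespace Pool.Agent.Lib.MP_62d77c_ag.R

open Filter Polynomial Submodule IsLocalRing
open scoped TensorProduct Matrix

noncomputable section

variable {A : Type} [CommRing A] [IsDomain A] {𝒜 : ℕ → AddSubgroup A} [GradedRing 𝒜]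
  [hG : Fact (Gen 𝒜)] {p : ℕ} [Fact p.Prime]

/-- the module of a divisor -/
abbrev Mo.MM (X : Mo 𝒜 p) (D : Dvs X.L) : GM 𝒜 := X.gm _ (X.ff_MD D)

/-- `W` is a prime divisor of the image of `X` -/
structure Ov (X : Mo 𝒜 p) (W : Vp 𝒜 p) : Prop where
  le : pr X.x.1 ≤ pr W.1
  dim : dm W + 1 = dm X.x

namespace Ov

variable {X : Mo 𝒜 p} {W : Vp 𝒜 p} (h : Ov X W) {O : ValuationSubring X.L}

/-- the normalisation of the local ring -/
def B (_ : Ov X W) : Type := X.nl W.1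

instance : CommRing h.B := inferInstanceAs (CommRing (X.nl W.1))

/-- the inclusion -/
def val : h.B →+* X.L := (X.nl W.1).subtype

theorem val_inj : Function.Injective h.val := Subtype.val_injective

theorem val_mem (b : h.B) : h.val b ∈ X.nl W.1 := Subtype.property (show X.nl W.1 from b)

/-- an element of the semilocal ring -/
def of (z : X.L) (hz : z ∈ X.nl W.1) : h.B := (⟨z, hz⟩ : X.nl W.1)

theorem val_of (z : X.L) (hz : z ∈ X.nl W.1) : h.val (h.of z hz) = z := rfl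

instance : Algebra (Lo W.1) h.B := RingHom.toAlgebra (show Lo W.1 →+* h.B from
  (X.lo h.le).codRestrict (X.nl W.1) fun r => X.orng_le_nl _ (X.lo_range h.le ▸ ⟨r, rfl⟩))

theorem val_alg (r : Lo W.1) : h.val (algebraMap (Lo W.1) h.B r) = X.lo h.le r := rfl

theorem val_th {n : ℕ} {a : A} (ha : a ∈ 𝒜 n) :
    h.val (algebraMap (Lo W.1) h.B (algebraMap A (Lo W.1) a)) = X.θ a / X.θ (ell W.1) ^ n :=
  X.lo_alg h.le ha

theorem val_smul (r : Lo W.1) (b : h.B) : h.val (r • b) = X.lo h.le r * h.val b := by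
  rw [Algebra.smul_def, map_mul, val_alg]

include h in
theorem mem_stk (D : Dvs X.L) (z : X.L) :
    z ∈ X.stk (X.MD D) W.1 ↔ ∀ O ∈ X.PD, X.cen O = W → z * unif O ^ D O ∈ O :=
  (mem_stk_md X D h.le z).trans (forall₂_congr fun _ hO => imp_congr_left
    ⟨fun e => X.cen_eq_of_le hO h.dim.ge e, fun e => e ▸ le_rfl⟩)

include h in
theorem mem_nl (z : X.L) : z ∈ X.nl W.1 ↔ ∀ O ∈ X.PD, X.cen O = W → z ∈ O := by
  rw [X.mem_nl_iff h.le, h.mem_stk]; simp

theorem val_O (hO : O ∈ X.PD) (e : X.cen O = W) (b : h.B) : h.val b ∈ O :=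
  (h.mem_nl _).1 (h.val_mem b) O hO e

include h in
theorem exists_gen (D : Dvs X.L) : ∃ g : X.L, g ≠ 0 ∧
    ∀ O ∈ X.PD, X.cen O = W → O.valuation (g * unif O ^ D O) = 1 := by
  obtain ⟨n, z, -, h0, h1⟩ := X.md_exact_over D h.le
  refine ⟨z / X.θ (ell W.1) ^ n, div_ne_zero h0 (pow_ne_zero _ (X.ell_ne h.le)), fun O hO e => ?_⟩
  rw [← h1 O hO e, X.nm_eq, e]

/-- a generator of the stalk of `O(D)` -/
def gen (D : Dvs X.L) : X.L := (h.exists_gen D).choose

theorem gen_ne (D : Dvs X.L) : h.gen D ≠ 0 := (h.exists_gen D).choose_spec.1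

theorem gen_val (D : Dvs X.L) (hO : O ∈ X.PD) (e : X.cen O = W) :
    O.valuation (h.gen D * unif O ^ D O) = 1 := (h.exists_gen D).choose_spec.2 O hO e

theorem div_gen (D : Dvs X.L) (z : X.L) : z / h.gen D ∈ X.nl W.1 ↔ z ∈ X.stk (X.MD D) W.1 := by
  rw [h.mem_nl, h.mem_stk]
  refine forall₃_congr fun O hO e => ?_
  have := h.gen_ne D
  rw [show z * unif O ^ D O = z / h.gen D * (h.gen D * unif O ^ D O) by field_simp,
    ← O.valuation_le_one_iff, ← O.valuation_le_one_iff, map_mul, h.gen_val D hO e, mul_one]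

theorem exists_eqv (D : Dvs X.L) : ∃ ε : (X.MM D).St W.1 ≃ₗ[Lo W.1] h.B, ∀ n z hz,
    h.val (ε ((1 : Lo W.1) ⊗ₜ[A] X.el (X.ff_MD D) n z hz)) = z / X.θ (ell W.1) ^ n / h.gen D := by
  obtain ⟨κ, k1, k2, k3, k4⟩ := st_gm X (X.ff_MD D) h.le
  let f : (X.MM D).St W.1 →ₗ[Lo W.1] h.B :=
    { toFun := fun ξ => h.of (κ ξ / h.gen D) ((h.div_gen D _).2 (k2 ▸ Set.mem_range_self ξ))
      map_add' := fun a b => h.val_inj (by
        change κ (a + b) / h.gen D = κ a / h.gen D + κ b / h.gen D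
        rw [map_add, add_div])
      map_smul' := fun r a => h.val_inj (by
        rw [RingHom.id_apply, val_smul]
        change κ (r • a) / h.gen D = _ * (κ a / h.gen D)
        rw [k3, mul_div_assoc]) }
  refine ⟨LinearEquiv.ofBijective f ⟨fun a b e => k1 ?_, fun b => ?_⟩, fun n z hz =>
    congrArg (· / h.gen D) (k4 n z hz)⟩
  · exact (div_left_inj' (h.gen_ne D)).1 (congrArg h.val e)
  · obtain ⟨ξ, hξ⟩ : h.val b * h.gen D ∈ Set.range κ := by
      rw [k2, ← h.div_gen, mul_div_cancel_right₀ _ (h.gen_ne D)]; exact h.val_mem b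
    refine ⟨ξ, h.val_inj ?_⟩
    change κ ξ / h.gen D = _
    rw [hξ, mul_div_cancel_right₀ _ (h.gen_ne D)]

/-- trivialisation of the stalk of `O(D)` -/
def eqv (D : Dvs X.L) : (X.MM D).St W.1 ≃ₗ[Lo W.1] h.B := (h.exists_eqv D).choose

theorem val_eqv (D : Dvs X.L) (n : ℕ) (z : X.L) (hz : z ∈ X.MD D n) :
    h.val (h.eqv D ((1 : Lo W.1) ⊗ₜ[A] X.el (X.ff_MD D) n z hz)) =
      z / X.θ (ell W.1) ^ n / h.gen D := (h.exists_eqv D).choose_spec n z hz

instance : Module.Finite (Lo W.1) h.B := Module.Finite.equiv (h.eqv 0)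

theorem md_mul {D E D₂ : Dvs X.L} (e : D + E = D₂) {m : ℕ} {γ : X.L} (hγ : γ ∈ X.MD E m) :
    ∀ n, ∀ z ∈ X.MD D n, γ * z ∈ X.MD D₂ (n + m) := fun _ _ hz =>
  e ▸ mul_comm γ _ ▸ X.mul_mem_MD hz hγ

/-- multiplication by a section in the trivialisations -/
theorem eqv_mul {D E D₂ : Dvs X.L} (e : D + E = D₂) {m : ℕ} {γ : X.L} (hγ : γ ∈ X.MD E m) :
    ∃ b : h.B, h.val b * h.gen D₂ = γ / X.θ (ell W.1) ^ m * h.gen D ∧ ∀ ξ, h.eqv D₂
      ((X.mulM (X.ff_MD D) (X.ff_MD D₂) m γ (md_mul e hγ)).baseChange (Lo W.1) ξ) =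
        b * h.eqv D ξ := by
  have g2 := h.gen_ne D₂
  have g1 := h.gen_ne D
  have l0 := X.ell_ne h.le
  have hb : γ / X.θ (ell W.1) ^ m * h.gen D / h.gen D₂ ∈ X.nl W.1 := by
    rw [h.div_gen, h.mem_stk]
    intro O hO e1
    have := mul_mem ((O.valuation_le_one_iff _).1 (h.gen_val D hO e1).le) (hγ O hO)
    rw [X.nm_eq, e1] at this
    convert this using 1
    rw [← e, Finsupp.add_apply, zpow_add₀ (pd_disc X hO).unif_ne]; ring
  refine ⟨h.of _ hb, div_mul_cancel₀ _ g2, fun ξ => ?_⟩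
  induction ξ with
  | zero => simp
  | add a b h1 h2 => simp only [map_add, h1, h2, mul_add]
  | tmul r x =>
    rw [st_tmul, map_smul, map_smul, map_smul, mul_smul_comm]
    refine congrArg _ ?_
    induction x using X.gm_ind (X.ff_MD D) with
    | h0 => simp
    | hadd a b h1 h2 => simp only [TensorProduct.tmul_add, map_add, h1, h2, mul_add]
    | h1 n z hz =>
      refine h.val_inj ?_
      rw [LinearMap.baseChange_tmul, X.mulM_el, val_eqv, map_mul, val_eqv]
      change _ = γ / X.θ (ell W.1) ^ m * h.gen D / h.gen D₂ * _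
      field_simp
      ring

theorem val_lt (hO : O ∈ X.PD) (e : X.cen O = W) (r : Lo W.1) :
    O.valuation (X.lo h.le r) < 1 ↔ r ∈ maximalIdeal (Lo W.1) := by
  obtain ⟨k, a, ha, s, hs, hs', e1⟩ := lo_surj W.1 r
  have c := (pd_cen X hO).1
  rw [e] at c
  have e2 := congrArg (fun r => O.valuation (X.lo h.le r)) e1
  simp only [map_mul, X.lo_alg h.le hs, X.lo_alg h.le ha, c.val_one hs hs', one_mul] at e2
  rw [e2, (c.2 k a ha).2, ← not_iff_not, ← lo_unit W.1 ha, ← e1, notMem_maximalIdeal,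
    IsUnit.mul_iff, and_iff_right ((lo_unit W.1 hs).2 hs')]

/-- some power of the maximal ideal is divisible by a given element -/
theorem pow_mem_span {c : h.B} (hc : c ≠ 0) (r : Lo W.1) (hr : r ∈ maximalIdeal (Lo W.1)) :
    ∃ N : ℕ, algebraMap (Lo W.1) h.B r ^ N ∈ Ideal.span {c} := by
  have c0 : h.val c ≠ 0 := fun e => hc (h.val_inj (e.trans (map_zero _).symm))
  have key : ∀ᶠ N : ℕ in atTop, ∀ O ∈ {O | O ∈ X.PD ∧ X.cen O = W},
      X.lo h.le r ^ N * (h.val c)⁻¹ ∈ O := by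
    refine (eventually_all_finite (X.finite_over W)).2 fun O hO => ?_
    have v := (h.val_lt hO.1 hO.2 r).2 hr
    obtain ⟨N, hN⟩ := (pd_disc X hO.1).exists_pow v (h.val c)⁻¹
    refine eventually_atTop.2 ⟨N, fun n hn => ?_⟩
    obtain ⟨k, rfl⟩ := Nat.exists_eq_add_of_le hn
    rw [add_comm, pow_add, mul_assoc]
    exact mul_mem (_root_.pow_mem ((O.valuation_le_one_iff _).1 v.le) _) hN
  obtain ⟨N, hN⟩ := key.exists
  refine ⟨N, Ideal.mem_span_singleton'.2 ⟨h.of _ ((h.mem_nl _).2 fun O a b => hN O ⟨a, b⟩),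
    h.val_inj ?_⟩⟩
  rw [map_mul, map_pow, val_alg]
  exact inv_mul_cancel_right₀ c0 _

theorem ht1 (_ : Ov X W) (hO : O ∈ X.PD) (e : X.cen O = W) : O ∈ Ht1 (X.nl W.1) :=
  (X.ht1_nl ‹Ov X W›.le).2 ⟨hO, e ▸ le_rfl⟩

/-- the inclusion into a valuation ring -/
def inc (hO : O ∈ X.PD) (e : X.cen O = W) : h.B →+* O :=
  h.val.codRestrict O (h.val_O hO e)

/-- primes of the semilocal ring are centres of prime divisors -/
theorem exists_O {K : Type} [Field K] (ρ : h.B →+* K)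
    (h0 : ∀ r ∈ maximalIdeal (Lo W.1), ρ (algebraMap _ _ r) = 0) :
    ∃ O ∈ X.PD, X.cen O = W ∧ ∀ b, ρ b = 0 ↔ O.valuation (h.val b) < 1 := by
  obtain ⟨O₀, hO₀, e₀⟩ := X.exists_PD h.le h.dim
  obtain ⟨k, a, ha, h1, h2⟩ := X.exists_form hO₀
  rw [e₀] at h1
  let f : h.B := algebraMap (Lo W.1) h.B (algebraMap A (Lo W.1) a)
  have f0 : h.val f ≠ 0 := by
    rw [h.val_th ha]; exact div_ne_zero h2 (pow_ne_zero _ (X.ell_ne h.le))
  have f1 : ρ f = 0 := h0 _ (by rw [mem_maximalIdeal, mem_nonunits_iff, lo_unit W.1 ha]; simpa)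
  obtain ⟨O, 𝔮, q1, q2, q3, q4, -⟩ := (X.nrm_nl h.le).exists_not_mem (z := (h.val f)⁻¹)
    (P := RingHom.ker (show X.nl W.1 →+* K from ρ)) (RingHom.ker_isPrime _) fun r hr => by
      have : h.of r.1 r.2 = f * h.of _ hr := h.val_inj (by
        rw [map_mul]
        change (r : X.L) = h.val f * ((r : X.L) * (h.val f)⁻¹)
        field_simp)
      change ρ (h.of r.1 r.2) = 0
      rw [this, map_mul, f1, zero_mul]
  obtain ⟨hO, hle⟩ := (X.ht1_nl h.le).1 ⟨𝔮, q1, q2, q3⟩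
  have e := X.cen_eq_of_le hO h.dim.ge hle
  have hJ : ∀ b, b ∈ (maximalIdeal O).comap (h.inc hO e) ↔ O.valuation (h.val b) < 1 := fun b =>
    O.valuation_lt_one_iff (h.inc hO e b)
  have mx : ((maximalIdeal O).comap (h.inc hO e)).IsMaximal :=
    Ideal.isMaximal_of_isIntegral_of_isMaximal_comap (R := Lo W.1) _ (by
      rw [show ((maximalIdeal O).comap (h.inc hO e)).comap (algebraMap (Lo W.1) h.B) =
        maximalIdeal (Lo W.1) from Ideal.ext fun r => (hJ _).trans (h.val_lt hO e r)]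
      infer_instance)
  have := mx.eq_of_le (RingHom.ker_ne_top ρ) fun b hb => q4 ((q3 b).2.2 ((hJ b).1 hb))
  exact ⟨O, hO, e, fun b => (show b ∈ RingHom.ker ρ ↔ _ by rw [← this]).trans (hJ b)⟩

theorem frac (hO : O ∈ X.PD) (e : X.cen O = W) {z : X.L} (hz : z ∈ O) :
    ∃ s b : h.B, O.valuation (h.val s) = 1 ∧ h.val s * z = h.val b := by
  obtain ⟨s, hs, e1, h3⟩ := ((X.nrm_nl h.le).mem_O (h.ht1 hO e)).1 hz
  exact ⟨h.of s hs, h.of _ h3, e1, rfl⟩

theorem exists_ext {K : Type} [Field K] (ρ : h.B →+* K) (hO : O ∈ X.PD) (e : X.cen O = W)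
    (hk : ∀ b, ρ b = 0 ↔ O.valuation (h.val b) < 1) :
    ∃ σ : O →+* K, (∀ b, σ (h.inc hO e b) = ρ b) ∧ ∀ z : O, σ z = 0 ↔ O.valuation z < 1 := by
  have hl : IsLoc (X.nl W.1) O.toSubring := ⟨fun z hz => (h.mem_nl z).1 hz O hO e, fun z hz => by
    obtain ⟨s, b, e1, e2⟩ := h.frac hO e hz
    refine ⟨h.val s, h.val_mem s, fun c => by simp [c] at e1, ?_, e2 ▸ h.val_mem b⟩
    exact (O.valuation_le_one_iff _).1 (by rw [map_inv₀, e1, inv_one])⟩
  letI := (Subring.inclusion hl.1).toAlgebra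
  haveI := hl.isLocalization
  have hu : ∀ s : invs (X.nl W.1) O.toSubring, IsUnit ((show X.nl W.1 →+* K from ρ) s) := fun s => by
    refine IsUnit.mk0 _ fun c => ?_
    have h1 : O.valuation (s.1 : X.L) < 1 := (hk _).1 c
    have h2 := (O.valuation_le_one_iff _).2 s.2.2
    have := mul_lt_one_of_lt_of_le h1 h2
    rw [← map_mul, mul_inv_cancel₀ s.2.1, map_one] at this
    exact this.false
  let σ : O →+* K := IsLocalization.lift (S := O.toSubring) hu
  have h1 : ∀ b, σ (h.inc hO e b) = ρ b := fun b => IsLocalization.lift_eq (S := O.toSubring) hu b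
  refine ⟨σ, h1, fun z => ?_⟩
  obtain ⟨s, b, e1, e2⟩ := h.frac hO e z.2
  have e3 : h.inc hO e s * z = h.inc hO e b := Subtype.ext e2
  have e4 := congrArg σ e3
  rw [map_mul, h1, h1] at e4
  have s0 : ρ s ≠ 0 := fun c => ((hk s).1 c).ne e1
  rw [← mul_right_inj' s0, e4, mul_zero, hk, ← e2, map_mul, e1, one_mul]

/-- two prime divisors over `W` with the same centre on the semilocal ring are equal -/
theorem O_eq {O' : ValuationSubring X.L} (hO : O ∈ X.PD) (e : X.cen O = W) (hO' : O' ∈ X.PD)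
    (e' : X.cen O' = W) (H : ∀ b, O.valuation (h.val b) < 1 ↔ O'.valuation (h.val b) < 1) :
    O = O' := by
  obtain ⟨𝔮, q1, q2, q3⟩ := h.ht1 hO e
  exact (X.nrm_nl h.le).ctr_unique q1 q2 q3 fun r => ⟨h.val_O hO' e' r, (q3 r).2.trans (H r)⟩

/-- an element of the socle -/
theorem exists_soc (hO : O ∈ X.PD) (e : X.cen O = W) {c : h.B} (hc : c ≠ 0)
    (h1 : O.valuation (h.val c) < 1) :
    ∃ t : h.B, ∀ b, b * t ∈ Ideal.span {c} ↔ O.valuation (h.val b) < 1 := by
  classical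
  let g := h.gen (Finsupp.single O 1)
  have g0 : g ≠ 0 := h.gen_ne _
  have c0 : h.val c ≠ 0 := fun e => hc (h.val_inj (e.trans (map_zero _).symm))
  have key : ∀ b : h.B, h.val b * g ∈ X.nl W.1 ↔ O.valuation (h.val b) < 1 := fun b => by
    by_cases b0 : h.val b = 0
    · simp [b0]
    have hd := pd_disc X hO
    have k : ∀ O' ∈ X.PD, X.cen O' = W → ord O' g = -Finsupp.single O (1 : ℤ) O' := fun O' a a' => by
      have hd' := pd_disc X a
      have u0 := zpow_ne_zero (Finsupp.single O (1 : ℤ) O') hd'.unif_ne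
      have := (hd'.eq_one_iff (mul_ne_zero g0 u0)).1 (h.gen_val _ a a')
      rw [hd'.ord_mul g0 u0, hd'.ord_unif_zpow] at this
      omega
    rw [h.mem_nl, hd.lt_one_iff b0]
    refine ⟨fun H => ?_, fun H O' a a' => ?_⟩
    · have := (hd.mem_iff (mul_ne_zero b0 g0)).1 (H O hO e)
      rw [hd.ord_mul b0 g0, k O hO e, Finsupp.single_eq_same] at this
      omega
    · have hd' := pd_disc X a
      rw [hd'.mem_iff (mul_ne_zero b0 g0), hd'.ord_mul b0 g0, k O' a a', Finsupp.single_apply]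
      have := (hd'.mem_iff b0).1 (h.val_O a a' b)
      split_ifs with e1
      · subst e1; omega
      · omega
  refine ⟨h.of _ ((key c).2 h1), fun b => Ideal.mem_span_singleton'.trans
    (Iff.trans ⟨?_, fun H => ⟨h.of _ H, h.val_inj ?_⟩⟩ (key b))⟩
  · rintro ⟨u, hu⟩
    have := congrArg h.val hu
    rw [map_mul, map_mul] at this
    change _ = h.val b * (h.val c * g) at this
    rw [show h.val b * g = h.val u from mul_right_cancel₀ c0 (by rw [this]; ring)]
    exact h.val_mem u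
  · rw [map_mul, map_mul]
    change h.val b * g * h.val c = h.val b * (h.val c * g)
    ring

end Ov

end

end Pool.Agent.Lib.MP_62d77c_ag.R
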