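import Pool.Agent.Lib.MP_62d77c_ag.R.EP
import Pool.Agent.Lib.MP_62d77c_ag.R.EW

/-! The conductor form; pairs from simple factors. -/

set_option autoImplicit false
set_option linter.unusedSectionVars false
set_option linter.style.haveILetI false

namespace Pool.Agent.Lib.MP_62d77c_ag.R

open Filter Polynomial Submodule IsLocalRing

noncomputable section

variable {A : Type} [CommRing A] [IsDomain A] {𝒜 : ℕ → AddSubgroup A} [GradedRing 𝒜]
  [hG : Fact (Gen 𝒜)] {p : ℕ} [Fact p.Prime]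

/-- a common denominator of a finitely generated family on a component -/
theorem ep_den (j : Comp 𝒜 p) {N : (Xc j).Fa} (h : (Xc j).FF N) : ∃ e, ∃ x ∈ 𝒜 e,
    (Xc j).θ x ≠ 0 ∧ ∀ n, ∀ z ∈ N n, (Xc j).θ x * z ∈ (Xc j).V ^ (e + n) := by
  have lp : ∀ n, (1 : (Xc j).L) ∈ (Xc j).V ^ n := fun n => (Xc j).M.mem_pow.2
    ⟨_, md_pow_mem (ell_spec j.1.1).1 n, (map_pow (Xc j).θ _ _).trans (by
      rw [show (Xc j).θ (ell j.1.1) = 1 from (Xc j).one, one_pow])⟩
  have up : ∀ {m k : ℕ} {b : A} {w : (Xc j).L}, b ∈ 𝒜 k → w ∈ (Xc j).V ^ m →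
      (Xc j).θ b * w ∈ (Xc j).V ^ (k + m) := fun hb hw => by
    rw [pow_add]; exact mul_mem_mul ((Xc j).M.th_mem_pow hb) hw
  have f1 : ∀ (n : ℕ) (t : Finset (Xc j).L), ∃ e, ∃ x ∈ 𝒜 e, (Xc j).θ x ≠ 0 ∧
      ∀ z ∈ t, (Xc j).θ x * z ∈ (Xc j).V ^ (e + n) := fun n t => by
    classical
    induction t using Finset.induction_on with
    | empty => exact ⟨0, 1, SetLike.one_mem_graded 𝒜, by simp, by simp⟩
    | insert w t _ ih =>
      obtain ⟨e, x, hx, x0, h1⟩ := ih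
      obtain ⟨k, a, ha, b, hb, b0, rfl⟩ := xc_gen j w
      refine ⟨k + e, b * x, SetLike.mul_mem_graded hb hx, by
        rw [map_mul]; exact mul_ne_zero b0 x0, fun z hz => ?_⟩
      rcases Finset.mem_insert.1 hz with rfl | hz
      · have := up ha (up hx (lp n))
        rw [add_assoc]
        convert this using 1
        rw [map_mul]; field_simp
      · rw [map_mul, mul_assoc, add_assoc]; exact up hb (h1 z hz)
  have f2 : ∀ n₀ : ℕ, ∃ e, ∃ x ∈ 𝒜 e, (Xc j).θ x ≠ 0 ∧ ∀ n < n₀,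
      ∀ z ∈ N n, (Xc j).θ x * z ∈ (Xc j).V ^ (e + n) := fun n₀ => by
    induction n₀ with
    | zero => exact ⟨0, 1, SetLike.one_mem_graded 𝒜, by simp, by simp⟩
    | succ n₀ ih =>
      obtain ⟨e, x, hx, x0, h1⟩ := ih
      obtain ⟨t, ht⟩ := h.fd n₀
      obtain ⟨k, b, hb, b0, h2⟩ := f1 n₀ t
      refine ⟨e + k, x * b, SetLike.mul_mem_graded hx hb, by
        rw [map_mul]; exact mul_ne_zero x0 b0, fun n hn z hz => ?_⟩
      rcases Nat.lt_succ_iff_lt_or_eq.1 hn with hn | rfl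
      · rw [map_mul, mul_comm ((Xc j).θ x), mul_assoc, add_comm e k, add_assoc]
        exact up hb (h1 n hn z hz)
      · rw [map_mul, mul_assoc, add_assoc]
        refine up hx ?_
        rw [← ht] at hz
        induction hz using span_induction with
        | mem w hw => exact h2 w hw
        | zero => simp
        | add a c _ _ k1 k2 => rw [mul_add]; exact add_mem k1 k2
        | smul c a _ k1 => rw [mul_smul_comm]; exact smul_mem _ _ k1
  obtain ⟨n₀, h0⟩ := eventually_atTop.1 h.fg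
  obtain ⟨e, x, hx, x0, h1⟩ := f2 (n₀ + 1)
  refine ⟨e, x, hx, x0, fun n => ?_⟩
  induction n with
  | zero => exact h1 0 (by omega)
  | succ n ih =>
    by_cases hn : n + 1 < n₀ + 1
    · exact h1 _ hn
    intro z hz
    rw [(h0 n (by omega)).2] at hz
    refine Submodule.smul_induction_on hz (fun v hv w hw => ?_) fun a b k1 k2 => ?_
    · rw [smul_eq_mul, mul_left_comm, ← add_assoc, pow_succ']
      exact mul_mem_mul hv (ih w hw)
    · rw [mul_add]; exact add_mem k1 k2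

/-- a form that vanishes on the centres of all pairs off the diagonal -/
theorem ep_cond (j : Comp 𝒜 p) : ∃ e, ∃ x ∈ 𝒜 e, (Xc j).θ x ≠ 0 ∧
    ∀ P : Pair (Xc j) (Xc j), Off P → x ∈ pr P.Y.x.1 := by
  obtain ⟨e, x, hx, x0, h⟩ := ep_den j ((Xc j).ff_MD 0)
  refine ⟨e, x, hx, x0, fun P hP => hP.cond_mem hx fun n z hz => ?_⟩
  obtain ⟨a, ha, e1⟩ := (Xc j).M.mem_pow.1 (h n z hz)
  exact ⟨0, 1, SetLike.one_mem_graded 𝒜, (Ideal.ne_top_iff_one _).1 P.Y.x.1.isPrime.ne_top, a,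
    by rwa [zero_add], by rw [one_mul]; exact e1.symm⟩

variable {X X' : Mo 𝒜 p} {W : Vp 𝒜 p}

theorem Ov.alg_dh (h : Ov X W) (a : A) :
    algebraMap (Lo W.1) h.B (algebraMap A (Lo W.1) a) = X.dh W.1 a := by
  induction a using hom_ind (𝒜 := 𝒜) with
  | h0 => rw [map_zero, map_zero, map_zero]; rfl
  | hadd x y h1 h2 => rw [map_add, map_add, map_add, h1, h2]; rfl
  | h n a ha => exact h.val_inj ((h.val_th ha).trans (X.dh_coe ha).symm)

/-- the compositum of a simple factor -/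
def Stp.cmp {h : Ov X W} {h' : Ov X' W} {I : Ideal h'.B} (S : Stp (Lo W.1) h.B I) :
    Cmp X X' W where
  L := S.L
  ρ := S.ρ
  ρ' := S.ρ'
  le := h.le
  le' := h'.le
  dim := h.dim
  dim' := h'.dim
  ker n a ha := by
    rw [← h.alg_dh]
    refine (S.ker _).trans ?_
    rw [← not_iff_not, notMem_maximalIdeal, lo_unit W.1 ha]
  comm a := by rw [← h.alg_dh, ← h'.alg_dh]; exact S.comm _
  gen := eq_top_iff.2 fun z _ => (Subring.closure_le (t := (Subfield.closure _).toSubring)).2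
    Subfield.subset_closure (S.gen ▸ Subring.mem_top z)

theorem Pair.ov (P : Pair X X') : Ov X P.Y.x := ⟨P.S.le, P.S.dm_eq⟩

theorem Pair.ov' (P : Pair X X') : Ov X' P.Y.x := ⟨P.S'.le, P.S'.dm_eq⟩

theorem Sp.res_alg {Y : Mo 𝒜 p} (S : Sp X Y) (h : Ov X Y.x) (r : Lo Y.x.1) {k : ℕ} {a s : A}
    (hs : s ∈ 𝒜 k) (hs' : s ∉ pr Y.x.1)
    (e : algebraMap A (Lo Y.x.1) s * r = algebraMap A (Lo Y.x.1) a) :
    S.res (algebraMap (Lo Y.x.1) h.B r) = Y.θ a / Y.θ s := by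
  rw [eq_div_iff (Y.th_ne hs hs'), ← S.res_dh, ← S.res_dh, ← h.alg_dh, ← h.alg_dh, ← e, map_mul,
    mul_comm]
  exact (map_mul S.res _ _).symm

/-- the composition series over `W`, with all pairs over `W` among its factors -/
theorem ep_main (h : Ov X W) (h' : Ov X' W) {e : ℕ} {x : A} (hx : x ∈ 𝒜 e) (x0 : X'.θ x ≠ 0) :
    ∃ (r : ℕ) (S : Fin r → Stp (Lo W.1) h.B
        (Ideal.span {algebraMap (Lo W.1) h'.B (algebraMap A (Lo W.1) x)}))
      (U : ℕ → Submodule (Lo W.1) (h.B →ₗ[Lo W.1] h'.B ⧸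
        Ideal.span {algebraMap (Lo W.1) h'.B (algebraMap A (Lo W.1) x)})),
      U 0 = ⊥ ∧ U r = ⊤ ∧ (∀ i : Fin r, (S i).U = U (i + 1) ∧ (S i).U' = U i) ∧
      (x ∈ pr W.1 → ∀ P : Pair X X', P.Y.x = W → ∃ i, P.Iso (S i).cmp.pair) := by
  have c0 : algebraMap (Lo W.1) h'.B (algebraMap A (Lo W.1) x) ≠ 0 := fun c => by
    have := h'.val_th hx
    rw [c, map_zero] at this
    exact div_ne_zero x0 (pow_ne_zero _ (X'.ell_ne h'.le)) this.symm
  obtain ⟨r, S, U, h0, h1, h2, h3⟩ := ec_main (R := Lo W.1) (B := h.B) (h'.pow_mem_span c0)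
  refine ⟨r, S, U, h0, h1, h2, fun hW P hP => ?_⟩
  subst hP
  obtain ⟨i, σ, k1, k2⟩ := h3 P.Y.L P.S.res P.S'.res (fun r => by
      obtain ⟨k, a, -, s, hs, hs', e1⟩ := lo_surj P.Y.x.1 r
      exact (P.S.res_alg h r hs hs' e1).trans (P.S'.res_alg h' r hs hs' e1).symm)
    (fun r hr => (P.S.res_eq_zero _).2 ((h.val_lt P.S.mem P.S.cen r).2 hr))
    (P.S'.exists_soc c0 (by
      rw [h'.alg_dh]; exact (P.S'.res_dh x).trans ((P.Y.ker e x hx).2 hW))) P.gen_res
  exact ⟨i, P.iso_cmp (S i).cmp σ k1 k2⟩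

end

end Pool.Agent.Lib.MP_62d77c_ag.R
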