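import Pool.Agent.Lib.MP_62d77c_ag.R.EW
import Pool.Agent.Lib.MP_62d77c_ag.R.EP

/-! Localisation of homomorphisms to the quotient by a form. -/

set_option autoImplicit false
set_option linter.unusedSectionVars false
set_option linter.style.haveILetI false

namespace Pool.Agent.Lib.MP_62d77c_ag.R

open Filter Polynomial Submodule IsLocalRing
open scoped TensorProduct Matrix

noncomputable section

variable {A : Type} [CommRing A] [IsDomain A] {𝒜 : ℕ → AddSubgroup A} [GradedRing 𝒜]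
  [hG : Fact (Gen 𝒜)] {p : ℕ} [Fact p.Prime] {X X' : Mo 𝒜 p} {W : Vp 𝒜 p} {e : ℕ} {x : A}

theorem eq_smul_hom {N N' : GM 𝒜} {d : ℤ} {φ : N.M →ₗ[A] N'.M} (h : IsHom N N' d φ) {i : ℕ} {a : A}
    (ha : a ∈ 𝒜 i) : IsHom N N' (d + i) (a • φ) := fun n m hm => by
  rw [← add_assoc]; exact N'.smul (by rwa [Az_nat]) (h n m hm)

/-- the quotient by a form has no sections supported in codimension two -/
theorem eq_qx_inj (hx : x ∈ 𝒜 e) (h0 : X.θ x ≠ 0) (D : Dvs X.L) {n : ℕ} {m : ((X.MM D).qx x).M}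
    (hm : m ∈ ((X.MM D).qx x).g ((n + e : ℕ) : ℤ))
    (h : ∀ O ∈ X.PD, ((X.MM D).qx x).ZeroEl (X.cen O).1 m) : m = 0 := by
  obtain ⟨u, hu, rfl⟩ := hm
  obtain ⟨w, hw, rfl⟩ := X.eq_el _ hu
  have key : w / X.θ x ∈ X.MD D n := fun O hO => by
    obtain ⟨k, t, ht, ht', e1⟩ := h O hO
    have e2 : (X.MM D).mdQ x (t • X.el (X.ff_MD D) (n + e) w hw) = 0 := (map_smul _ _ _).trans e1
    rw [X.smul_el _ ht] at e2
    obtain ⟨v, hv, e3⟩ := (ea_lsmul (X.MM D) hx).lift (n := ((k + n : ℕ) : ℤ))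
      (m' := X.el (X.ff_MD D) (n + e + k) _ (X.th_mul (X.ff_MD D) ht hw)) (by
        rw [show ((k + n : ℕ) : ℤ) + e = ((n + e + k : ℕ) : ℤ) by push_cast; ring]
        exact X.el_mem _ _) (((X.MM D).mdQ_zero hx).1 e2)
    obtain ⟨w', hw', rfl⟩ := X.eq_el _ hv
    have e4 : X.mon (k + n + e) (X.θ x * w') = X.mon (n + e + k) (X.θ t * w) :=
      (X.smul_mon hx _ _).symm.trans (congrArg Subtype.val e3)
    rw [show n + e + k = k + n + e by ring] at e4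
    rw [← O.valuation_le_one_iff, ← X.nm_th_iff hO ht ht', show X.θ t * (w / X.θ x) = w' by
      rw [← mul_div_assoc, ← X.mon_inj e4, mul_div_cancel_left₀ _ h0], O.valuation_le_one_iff]
    exact hw' O hO
  refine ((X.MM D).mdQ_zero hx).2 ⟨X.el _ n _ key, ?_⟩
  rw [X.smul_el _ hx]
  exact X.el_congr _ rfl (mul_div_cancel₀ _ h0)

namespace Ov

variable (h : Ov X W) (h' : Ov X' W)

/-- the ideal of the form `x` -/
abbrev I (x : A) : Ideal h.B := Ideal.span {algebraMap (Lo W.1) h.B (algebraMap A (Lo W.1) x)}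

/-- trivialisation of the stalk of the quotient -/
def q (hx : x ∈ 𝒜 e) (D : Dvs X.L) : ((X.MM D).qx x).St W.1 ≃ₗ[Lo W.1] h.B ⧸ h.I x :=
  (el_st_qx _ W.1 hx (h.eqv D)).choose

theorem q_spec (hx : x ∈ 𝒜 e) (D : Dvs X.L) (ξ : (X.MM D).St W.1) :
    h.q hx D (((X.MM D).mdQ x).baseChange (Lo W.1) ξ) = Ideal.Quotient.mk _ (h.eqv D ξ) :=
  (el_st_qx _ W.1 hx (h.eqv D)).choose_spec ξ

/-- the localisation of a homomorphism -/
def lc (hx : x ∈ 𝒜 e) {D : Dvs X.L} {D' : Dvs X'.L} (φ : (X.MM D).M →ₗ[A] ((X'.MM D').qx x).M) :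
    h.B →ₗ[Lo W.1] h'.B ⧸ h'.I x :=
  (h'.q hx D').toLinearMap ∘ₗ φ.baseChange (Lo W.1) ∘ₗ (h.eqv D).symm.toLinearMap

variable (hx : x ∈ 𝒜 e) {D : Dvs X.L} {D' : Dvs X'.L}

theorem lc_apply (φ : (X.MM D).M →ₗ[A] ((X'.MM D').qx x).M) (b : h.B) :
    h.lc h' hx φ b = h'.q hx D' (φ.baseChange (Lo W.1) ((h.eqv D).symm b)) := rfl

theorem lc_add (φ ψ : (X.MM D).M →ₗ[A] ((X'.MM D').qx x).M) :
    h.lc h' hx (φ + ψ) = h.lc h' hx φ + h.lc h' hx ψ := LinearMap.ext fun b => by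
  simp only [lc_apply, LinearMap.baseChange_add, LinearMap.add_apply, map_add]

theorem lc_zero : h.lc h' hx (0 : (X.MM D).M →ₗ[A] ((X'.MM D').qx x).M) = 0 :=
  LinearMap.ext fun b => by
    simp only [lc_apply, LinearMap.baseChange_zero, LinearMap.zero_apply, map_zero]

theorem lc_smul (a : A) (φ : (X.MM D).M →ₗ[A] ((X'.MM D').qx x).M) :
    h.lc h' hx (a • φ) = algebraMap A (Lo W.1) a • h.lc h' hx φ := LinearMap.ext fun b => by
  rw [LinearMap.smul_apply, lc_apply, lc_apply, LinearMap.baseChange_smul, ← map_smul,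
    algebraMap_smul, LinearMap.smul_apply]

theorem lc_surj (R : Res (X.MM D)) (D' : Dvs X'.L) (ψ : h.B →ₗ[Lo W.1] h'.B ⧸ h'.I x) :
    ∃ k : ℕ, ∃ s ∈ 𝒜 k, s ∉ pr W.1 ∧ ∃ φ : (X.MM D).M →ₗ[A] ((X'.MM D').qx x).M,
      IsHom _ _ k φ ∧ h.lc h' hx φ = algebraMap A (Lo W.1) s • ψ := by
  obtain ⟨k, s, h1, h2, φ, h3, h4⟩ := el_loc R W.1
    ((h'.q hx D').symm.toLinearMap ∘ₗ ψ ∘ₗ (h.eqv D).toLinearMap)
  exact ⟨k, s, h1, h2, φ, h3, LinearMap.ext fun b => by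
    rw [lc_apply, h4, LinearMap.smul_apply, map_smul]; simp [-algebraMap_smul]⟩

theorem lc_el {φ : (X.MM D).M →ₗ[A] ((X'.MM D').qx x).M} (h0 : h.lc h' hx φ = 0) (m : (X.MM D).M) :
    ((1 : Lo W.1) ⊗ₜ[A] φ m : ((X'.MM D').qx x).St W.1) = 0 := by
  have := LinearMap.congr_fun h0 (h.eqv D ((1 : Lo W.1) ⊗ₜ[A] m))
  rw [lc_apply, LinearEquiv.symm_apply_apply, LinearMap.baseChange_tmul] at this
  exact (h'.q hx D').map_eq_zero_iff.1 this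

theorem alg_ne (hx : x ∈ 𝒜 e) (h0 : X.θ x ≠ 0) :
    algebraMap (Lo W.1) h.B (algebraMap A (Lo W.1) x) ≠ 0 := fun c => by
  have := congrArg h.val c
  rw [h.val_th hx, map_zero] at this
  exact div_ne_zero h0 (pow_ne_zero _ (X.ell_ne h.le)) this

theorem alg_max {k : ℕ} {t : A} (ht : t ∈ 𝒜 k) :
    algebraMap A (Lo W.1) t ∈ maximalIdeal (Lo W.1) ↔ t ∈ pr W.1 := by
  rw [mem_maximalIdeal, mem_nonunits_iff, lo_unit W.1 ht, not_not]

theorem lc_kill (h0 : X'.θ x ≠ 0) {k : ℕ} {t : A} (ht : t ∈ 𝒜 k) (ht' : t ∈ pr W.1) :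
    ∃ N : ℕ, ∀ (D : Dvs X.L) (D' : Dvs X'.L) (φ : (X.MM D).M →ₗ[A] ((X'.MM D').qx x).M),
      h.lc h' hx (t ^ N • φ) = 0 := by
  obtain ⟨N, hN⟩ := h'.pow_mem_span (h'.alg_ne hx h0) _ ((alg_max ht).2 ht')
  refine ⟨N, fun D D' φ => LinearMap.ext fun b => ?_⟩
  rw [lc_smul, LinearMap.smul_apply]
  obtain ⟨y, hy⟩ := Ideal.Quotient.mk_surjective (h.lc h' hx φ b)
  rw [← hy]
  change Ideal.Quotient.mk (h'.I x) (algebraMap A (Lo W.1) (t ^ N) • y) = 0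
  rw [Ideal.Quotient.eq_zero_iff_mem, Algebra.smul_def, map_pow, map_pow]
  exact Ideal.mul_mem_right _ _ hN

theorem lc_fun {D₁ : Dvs X.L} {D₂ : Dvs X'.L} {μ : (X.MM D₁).M →ₗ[A] (X.MM D).M}
    {μ' : (X'.MM D').M →ₗ[A] (X'.MM D₂).M} {ν : ((X'.MM D').qx x).M →ₗ[A] ((X'.MM D₂).qx x).M}
    (hν : ∀ m, ν ((X'.MM D').mdQ x m) = (X'.MM D₂).mdQ x (μ' m)) {b : h.B} {b' : h'.B}
    (hb : ∀ ξ, h.eqv D (μ.baseChange (Lo W.1) ξ) = b * h.eqv D₁ ξ)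
    (hb' : ∀ ξ, h'.eqv D₂ (μ'.baseChange (Lo W.1) ξ) = b' * h'.eqv D' ξ)
    (φ : (X.MM D).M →ₗ[A] ((X'.MM D').qx x).M) :
    h.lc h' hx (ν ∘ₗ φ ∘ₗ μ) = ecAct b b' (h.lc h' hx φ) := LinearMap.ext fun c => by
  have e1 : μ.baseChange (Lo W.1) ((h.eqv D₁).symm c) = (h.eqv D).symm (b * c) := by
    rw [LinearEquiv.eq_symm_apply, hb, LinearEquiv.apply_symm_apply]
  rw [ecAct_apply, lc_apply, lc_apply, LinearMap.baseChange_comp, LinearMap.baseChange_comp,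
    LinearMap.comp_apply, LinearMap.comp_apply, e1]
  obtain ⟨ξ, hξ⟩ : ∃ ξ, ((X'.MM D').mdQ x).baseChange (Lo W.1) ξ =
      φ.baseChange (Lo W.1) ((h.eqv D).symm (b * c)) :=
    LinearMap.lTensor_surjective _ ((X'.MM D').mdQ_surj x) _
  have e2 : ν ∘ₗ (X'.MM D').mdQ x = (X'.MM D₂).mdQ x ∘ₗ μ' := LinearMap.ext hν
  rw [← hξ, ← LinearMap.comp_apply (ν.baseChange _), ← LinearMap.baseChange_comp, e2,
    LinearMap.baseChange_comp, LinearMap.comp_apply, q_spec, q_spec, hb']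
  rfl

theorem dh_eq (a : A) : X.dh W.1 a = algebraMap (Lo W.1) h.B (algebraMap A (Lo W.1) a) := by
  induction a using hom_ind (𝒜 := 𝒜) with
  | h0 => rw [map_zero, map_zero, map_zero]; rfl
  | hadd a b h1 h2 => rw [map_add, map_add, map_add, h1, h2]; rfl
  | h n a ha => exact h.val_inj ((X.dh_coe ha).trans (h.val_th ha).symm)

/-- the compositum of a simple factor -/
def cmp {J : Ideal h'.B} (T : Stp (Lo W.1) h.B J) : Cmp X X' W where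
  L := T.L
  ρ := T.ρ
  ρ' := T.ρ'
  le := h.le
  le' := h'.le
  dim := h.dim
  dim' := h'.dim
  ker n a ha := by rw [h.dh_eq]; exact (T.ker _).trans (alg_max ha)
  comm a := by rw [h.dh_eq, h'.dh_eq]; exact T.comm _
  gen := top_unique fun y _ => Subfield.subring_closure_le _ (T.gen.ge trivial)

/-- the value of the generator -/
def un {Y : Mo 𝒜 p} (S : Sp X Y) (D : Dvs X.L) : Y.L := S.ev D 0 (h.gen D)

theorem nm_gen {Y : Mo 𝒜 p} (S : Sp X Y) (hc : X.cen S.O = W) (D : Dvs X.L) :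
    S.O.valuation (X.nm S.O D 0 (h.gen D)) = 1 := by
  rw [X.nm_deg_zero]; exact h.gen_val D S.mem hc

theorem un_ne {Y : Mo 𝒜 p} (S : Sp X Y) (hc : X.cen S.O = W) (D : Dvs X.L) : h.un S D ≠ 0 :=
  fun c => ((S.ev_eq_zero ((S.O.valuation_le_one_iff _).1 (h.nm_gen S hc D).le)).1 c).ne
    (h.nm_gen S hc D)

theorem un_mul {Y : Mo 𝒜 p} (S : Sp X Y) (hc : X.cen S.O = W) {D E D₂ : Dvs X.L} (e1 : D + E = D₂)
    {m : ℕ} {γ : X.L} (hγ : γ ∈ X.MD E m) {b : h.B}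
    (hb : h.val b * h.gen D₂ = γ / X.θ (ell W.1) ^ m * h.gen D) :
    S.ρ ⟨h.val b, h.val_O S.mem hc b⟩ * h.un S D₂ = S.ev E m γ * h.un S D := by
  rw [un, un, S.ev_eq ((S.O.valuation_le_one_iff _).1 (h.nm_gen S hc D).le),
    S.ev_eq ((S.O.valuation_le_one_iff _).1 (h.nm_gen S hc D₂).le), S.ev_eq (hγ _ S.mem),
    ← map_mul, ← map_mul]
  refine congrArg S.ρ (Subtype.ext ?_)
  change h.val b * X.nm S.O D₂ 0 (h.gen D₂) = X.nm S.O E m γ * X.nm S.O D 0 (h.gen D)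
  rw [X.nm_deg_zero, X.nm_deg_zero, X.nm_eq, hc, ← mul_assoc, hb, ← e1, Finsupp.add_apply,
    zpow_add₀ (pd_disc X S.mem).unif_ne]
  ring

end Ov

/-- a homomorphism that vanishes at all surfaces vanishes -/
theorem eq_inj (hd : dm X.x = dm X'.x) (hx : x ∈ 𝒜 e) (h0 : X'.θ x ≠ 0) {D : Dvs X.L}
    {D' : Dvs X'.L} {φ : (X.MM D).M →ₗ[A] ((X'.MM D').qx x).M} {n : ℕ}
    (hφ : IsHom _ _ ((n + e : ℕ) : ℤ) φ)
    (H : ∀ (W : Vp 𝒜 p) (h : Ov X W) (h' : Ov X' W), x ∈ pr W.1 → h.lc h' hx φ = 0) : φ = 0 := by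
  refine X.hom_ext _ fun m z hz => ?_
  have hm := hφ _ _ (X.el_mem (X.ff_MD D) hz)
  rw [show (m : ℤ) + ((n + e : ℕ) : ℤ) = ((m + n + e : ℕ) : ℤ) by push_cast; ring] at hm
  refine eq_qx_inj hx h0 D' hm fun O hO => ?_
  have c := pd_cen X' hO
  by_cases h1 : x ∈ pr (X'.cen O).1
  · by_cases h2 : pr X.x.1 ≤ pr (X'.cen O).1
    · exact (st_zero _ hm).1 (Ov.lc_el _ _ hx (H _ ⟨h2, c.2.trans hd.symm⟩ ⟨c.1.1, c.2⟩ h1) _)
    · obtain ⟨k, t, ht, ht', t0⟩ := st_off X h2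
      exact ⟨k, t, ht, ht', by rw [← map_smul, X.smul_kill _ ht t0, map_zero]⟩
  · obtain ⟨u, hu⟩ := (X'.MM D').mdQ_surj x (φ (X.el (X.ff_MD D) m z hz))
    exact ⟨e, x, hx, h1, by rw [← hu, ← map_smul]; exact ((X'.MM D').mdQ_zero hx).2 ⟨u, rfl⟩⟩

end

end Pool.Agent.Lib.MP_62d77c_ag.R
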