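import Pool.Agent.Lib.MP_62d77c_ag.R.Base

/-! Presentations of fractional families, cocycles with values in a field, lifts. -/

set_option autoImplicit false
set_option linter.unusedSectionVars false

namespace Pool.Agent.Lib.MP_62d77c_ag.R

open Matrix

noncomputable section

variable {A : Type} [CommRing A] {𝒜 : ℕ → AddSubgroup A} [GradedRing 𝒜]
  {L L' : Type} [Field L] [Field L'] {β γ δ : Type}

variable (𝒜) in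
/-- a homogeneous matrix of degree `d` -/
def HM (a : β → ℤ) (b : γ → ℤ) (d : ℤ) (U : Matrix β γ A) : Prop :=
  ∀ i j, U i j ∈ Az 𝒜 (b j - a i + d)

variable (𝒜) in
/-- a homogeneous vector of degree `n` -/
def HV (a : β → ℤ) (n : ℤ) (c : β → A) : Prop := ∀ i, c i ∈ Az 𝒜 (n - a i)

/-- a cochain of degree `n` with values in the family `T` -/
def CV (a : β → ℤ) (T : ℤ → AddSubgroup L') (n : ℤ) (φ : β → L') : Prop := ∀ i, φ i ∈ T (n + a i)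

variable (𝒜) in
/-- the family `T` is a graded module -/
def Stb (θ : A →+* L') (T : ℤ → AddSubgroup L') : Prop :=
  ∀ (i n : ℤ) (a : A) (z : L'), a ∈ Az 𝒜 i → z ∈ T n → θ a * z ∈ T (n + i)

/-- `z` maps `S` to `S'` with degree `k` -/
def Mul (z : L') (k : ℤ) (S S' : ℤ → AddSubgroup L') : Prop := ∀ n, ∀ s ∈ S n, z * s ∈ S' (n + k)

theorem HM.mul [Fintype γ] {a : β → ℤ} {b : γ → ℤ} {c : δ → ℤ} {d d' : ℤ} {U : Matrix β γ A}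
    {W : Matrix γ δ A} (hU : HM 𝒜 a b d U) (hW : HM 𝒜 b c d' W) : HM 𝒜 a c (d + d') (U * W) := by
  intro i l
  rw [Matrix.mul_apply]
  refine sum_mem fun j _ => ?_
  have := Az_mul (hU i j) (hW j l)
  rwa [show b j - a i + d + (c l - b j + d') = c l - a i + (d + d') by ring] at this

theorem HM.add {a : β → ℤ} {b : γ → ℤ} {d : ℤ} {U W : Matrix β γ A} (hU : HM 𝒜 a b d U)
    (hW : HM 𝒜 a b d W) : HM 𝒜 a b d (U + W) := fun i j => add_mem (hU i j) (hW i j)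

theorem HM.sub {a : β → ℤ} {b : γ → ℤ} {d : ℤ} {U W : Matrix β γ A} (hU : HM 𝒜 a b d U)
    (hW : HM 𝒜 a b d W) : HM 𝒜 a b d (U - W) := fun i j => sub_mem (hU i j) (hW i j)

theorem HM.cast {a : β → ℤ} {b : γ → ℤ} {d d' : ℤ} {U : Matrix β γ A} (hU : HM 𝒜 a b d U)
    (e : d = d') : HM 𝒜 a b d' U := e ▸ hU

theorem HM.scalar [DecidableEq β] (a : β → ℤ) {d : ℤ} {x : A} (hx : x ∈ Az 𝒜 d) :
    HM 𝒜 a a d (x • (1 : Matrix β β A)) := by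
  intro i j
  by_cases e : i = j
  · subst e; simpa using hx
  · simp [e]

theorem CV.vecMul [Fintype β] {θ : A →+* L'} {T : ℤ → AddSubgroup L'} (hT : Stb 𝒜 θ T) {a : β → ℤ}
    {b : γ → ℤ} {n d : ℤ} {φ : β → L'} {U : Matrix β γ A} (hφ : CV a T n φ) (hU : HM 𝒜 a b d U) :
    CV b T (n + d) (φ ᵥ* U.map θ) := by
  intro j
  refine sum_mem fun i _ => ?_
  have := hT _ _ _ _ (hU i j) (hφ i)
  rwa [show n + a i + (b j - a i + d) = n + d + b j by ring, mul_comm] at this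

theorem CV.smul {T T' : ℤ → AddSubgroup L'} {a : β → ℤ} {n k : ℤ} {φ : β → L'} {t : L'}
    (hφ : CV a T n φ) (ht : Mul t k T T') : CV a T' (n + k) (t • φ) := fun i => by
  have := ht _ _ (hφ i)
  rwa [show n + a i + k = n + k + a i by ring] at this

theorem Stb.mul {θ : A →+* L'} {T : ℤ → AddSubgroup L'} (hT : Stb 𝒜 θ T) {i : ℤ} {a : A}
    (ha : a ∈ Az 𝒜 i) : Mul (θ a) i T T := fun n s hs => hT i n a s ha hs

theorem et_map_smul_one [DecidableEq β] (θ : A →+* L') (x : A) :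
    (x • (1 : Matrix β β A)).map θ = θ x • (1 : Matrix β β L') := by
  ext i j
  by_cases e : i = j <;> simp [e]

variable (𝒜) in
/-- the first two steps of a resolution of the family `S` -/
structure Pres (θ : A →+* L) (S : ℤ → AddSubgroup L) where
  b0 : ℕ
  b1 : ℕ
  b2 : ℕ
  a0 : Fin b0 → ℤ
  a1 : Fin b1 → ℤ
  a2 : Fin b2 → ℤ
  g : Fin b0 → L
  D0 : Matrix (Fin b0) (Fin b1) A
  D1 : Matrix (Fin b1) (Fin b2) A
  hg : ∀ i, g i ∈ S (a0 i)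
  hD0 : HM 𝒜 a0 a1 0 D0
  hD1 : HM 𝒜 a1 a2 0 D1
  gD : g ᵥ* D0.map θ = 0
  DD : D0 * D1 = 0
  p0 : ∀ n, ∀ z ∈ S n, ∃ c, HV 𝒜 a0 n c ∧ g ⬝ᵥ (θ ∘ c) = z
  p1 : ∀ n c, HV 𝒜 a0 n c → g ⬝ᵥ (θ ∘ c) = 0 → ∃ w, HV 𝒜 a1 n w ∧ D0 *ᵥ w = c
  p2 : ∀ n w, HV 𝒜 a1 n w → D0 *ᵥ w = 0 → ∃ u, HV 𝒜 a2 n u ∧ D1 *ᵥ u = w

namespace Pres

variable {θ : A →+* L} {S S₁ S₂ : ℤ → AddSubgroup L} (P : Pres 𝒜 θ S)

theorem m0 {b : γ → ℤ} {d : ℤ} {z : γ → L} (hz : ∀ j, z j ∈ S (b j + d)) :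
    ∃ U, HM 𝒜 P.a0 b d U ∧ P.g ᵥ* U.map θ = z := by
  choose c h1 h2 using fun j => P.p0 _ _ (hz j)
  refine ⟨Matrix.of fun i j => c j i, fun i j => ?_, funext fun j => h2 j⟩
  have := h1 j i
  rwa [show b j + d - P.a0 i = b j - P.a0 i + d by ring] at this

theorem m1 {b : γ → ℤ} {d : ℤ} {U : Matrix (Fin P.b0) γ A} (hU : HM 𝒜 P.a0 b d U)
    (h : P.g ᵥ* U.map θ = 0) : ∃ W, HM 𝒜 P.a1 b d W ∧ P.D0 * W = U := by
  choose w h1 h2 using fun j => P.p1 (b j + d) (fun i => U i j)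
    (fun i => by have := hU i j; rwa [show b j - P.a0 i + d = b j + d - P.a0 i by ring] at this)
    (congrFun h j)
  refine ⟨Matrix.of fun i j => w j i, fun i j => ?_, ?_⟩
  · have := h1 j i
    rwa [show b j + d - P.a1 i = b j - P.a1 i + d by ring] at this
  · ext i j; exact congrFun (h2 j) i

theorem m2 {b : γ → ℤ} {d : ℤ} {U : Matrix (Fin P.b1) γ A} (hU : HM 𝒜 P.a1 b d U)
    (h : P.D0 * U = 0) : ∃ W, HM 𝒜 P.a2 b d W ∧ P.D1 * W = U := by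
  choose w h1 h2 using fun j => P.p2 (b j + d) (fun i => U i j)
    (fun i => by have := hU i j; rwa [show b j - P.a1 i + d = b j + d - P.a1 i by ring] at this)
    (funext fun i => congrFun (congrFun h i) j)
  refine ⟨Matrix.of fun i j => w j i, fun i j => ?_, ?_⟩
  · have := h1 j i
    rwa [show b j + d - P.a2 i = b j - P.a2 i + d by ring] at this
  · ext i j; exact congrFun (h2 j) i

/-- cocycles of degree `n` -/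
def Zc (θ' : A →+* L') (T : ℤ → AddSubgroup L') (n : ℤ) : AddSubgroup (Fin P.b1 → L') where
  carrier := {φ | CV P.a1 T n φ ∧ φ ᵥ* P.D1.map θ' = 0}
  zero_mem' := ⟨fun _ => zero_mem _, zero_vecMul _⟩
  add_mem' := fun {φ ψ} h1 h2 =>
    ⟨fun i => add_mem (h1.1 i) (h2.1 i), by rw [add_vecMul, h1.2, h2.2, add_zero]⟩
  neg_mem' := fun {φ} h => ⟨fun i => neg_mem (h.1 i), by rw [neg_vecMul, h.2, neg_zero]⟩

/-- coboundaries of degree `n` -/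
def Bc (θ' : A →+* L') (T : ℤ → AddSubgroup L') (n : ℤ) : AddSubgroup (Fin P.b1 → L') where
  carrier := {φ | ∃ ψ, CV P.a0 T n ψ ∧ ψ ᵥ* P.D0.map θ' = φ}
  zero_mem' := ⟨0, fun _ => zero_mem _, zero_vecMul _⟩
  add_mem' := by
    rintro _ _ ⟨φ, h1, rfl⟩ ⟨ψ, h2, rfl⟩
    exact ⟨φ + ψ, fun i => add_mem (h1 i) (h2 i), add_vecMul _ _ _⟩
  neg_mem' := by
    rintro _ ⟨φ, h1, rfl⟩
    exact ⟨-φ, fun i => neg_mem (h1 i), neg_vecMul _ _⟩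

variable {θ' : A →+* L'} {T T' : ℤ → AddSubgroup L'}

theorem mem_Zc {n : ℤ} {φ : Fin P.b1 → L'} :
    φ ∈ P.Zc θ' T n ↔ CV P.a1 T n φ ∧ φ ᵥ* P.D1.map θ' = 0 := Iff.rfl

theorem mem_Bc {n : ℤ} {φ : Fin P.b1 → L'} :
    φ ∈ P.Bc θ' T n ↔ ∃ ψ, CV P.a0 T n ψ ∧ ψ ᵥ* P.D0.map θ' = φ := Iff.rfl

theorem Bc_le (hT : Stb 𝒜 θ' T) (n : ℤ) : P.Bc θ' T n ≤ P.Zc θ' T n := by
  rintro _ ⟨ψ, h1, rfl⟩
  refine ⟨by simpa using h1.vecMul hT P.hD0, ?_⟩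
  rw [vecMul_vecMul, ← Matrix.map_mul, P.DD]; simp

variable {P}

theorem Zc_smul {n k : ℤ} {φ : Fin P.b1 → L'} {t : L'} (h : φ ∈ P.Zc θ' T n) (ht : Mul t k T T') :
    t • φ ∈ P.Zc θ' T' (n + k) := ⟨h.1.smul ht, by rw [smul_vecMul, h.2, smul_zero]⟩

theorem Bc_smul {n k : ℤ} {φ : Fin P.b1 → L'} {t : L'} (h : φ ∈ P.Bc θ' T n) (ht : Mul t k T T') :
    t • φ ∈ P.Bc θ' T' (n + k) := by
  obtain ⟨ψ, h1, rfl⟩ := h
  exact ⟨t • ψ, h1.smul ht, smul_vecMul _ _ _⟩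

/-- a cocycle kills homogeneous syzygies -/
theorem kill {φ : Fin P.b1 → L'} (h : φ ᵥ* P.D1.map θ' = 0) {b : γ → ℤ} {d : ℤ}
    {U : Matrix (Fin P.b1) γ A} (hU : HM 𝒜 P.a1 b d U) (h0 : P.D0 * U = 0) : φ ᵥ* U.map θ' = 0 := by
  obtain ⟨W, -, rfl⟩ := P.m2 hU h0
  rw [Matrix.map_mul, ← vecMul_vecMul, h, zero_vecMul]

/-- `(U₀, U₁)` lifts the multiplication by `z` -/
structure Lift (P : Pres 𝒜 θ S) (P₁ : Pres 𝒜 θ S₁) (z : L) (k : ℤ)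
    (U₀ : Matrix (Fin P.b0) (Fin P₁.b0) A) (U₁ : Matrix (Fin P.b1) (Fin P₁.b1) A) : Prop where
  h0 : HM 𝒜 P.a0 P₁.a0 k U₀
  h1 : HM 𝒜 P.a1 P₁.a1 k U₁
  g : P.g ᵥ* U₀.map θ = z • P₁.g
  comm : P.D0 * U₁ = U₀ * P₁.D0

theorem exists_lift (P : Pres 𝒜 θ S) (P₁ : Pres 𝒜 θ S₁) {z : L} {k : ℤ} (hz : Mul z k S₁ S) :
    ∃ U₀ U₁, Lift P P₁ z k U₀ U₁ := by
  obtain ⟨U₀, h0, hg⟩ := P.m0 (b := P₁.a0) (d := k) (z := z • P₁.g) fun j => hz _ _ (P₁.hg j)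
  obtain ⟨U₁, h1, hc⟩ := P.m1 ((h0.mul P₁.hD0).cast (add_zero k)) (by
    rw [Matrix.map_mul, ← vecMul_vecMul, hg, smul_vecMul, P₁.gD, smul_zero])
  exact ⟨U₀, U₁, h0, h1, hg, hc⟩

variable {P₁ : Pres 𝒜 θ S₁} {P₂ : Pres 𝒜 θ S₂} {z z' : L} {k k' : ℤ}
  {U₀ W₀ : Matrix (Fin P.b0) (Fin P₁.b0) A} {U₁ W₁ : Matrix (Fin P.b1) (Fin P₁.b1) A}

theorem Lift.Zc (h : Lift P P₁ z k U₀ U₁) (hT : Stb 𝒜 θ' T) {n : ℤ} {φ : Fin P.b1 → L'}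
    (hφ : φ ∈ P.Zc θ' T n) : φ ᵥ* U₁.map θ' ∈ P₁.Zc θ' T (n + k) := by
  refine ⟨hφ.1.vecMul hT h.h1, ?_⟩
  rw [vecMul_vecMul, ← Matrix.map_mul]
  exact kill hφ.2 (h.h1.mul P₁.hD1) (by
    rw [← Matrix.mul_assoc, h.comm, Matrix.mul_assoc, P₁.DD, Matrix.mul_zero])

theorem Lift.Bc (h : Lift P P₁ z k U₀ U₁) (hT : Stb 𝒜 θ' T) {n : ℤ} {φ : Fin P.b1 → L'}
    (hφ : φ ∈ P.Bc θ' T n) : φ ᵥ* U₁.map θ' ∈ P₁.Bc θ' T (n + k) := by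
  obtain ⟨ψ, h1, rfl⟩ := hφ
  refine ⟨ψ ᵥ* U₀.map θ', h1.vecMul hT h.h0, ?_⟩
  rw [vecMul_vecMul, vecMul_vecMul, ← Matrix.map_mul, ← Matrix.map_mul, h.comm]

theorem Lift.add (h : Lift P P₁ z k U₀ U₁) (h' : Lift P P₁ z' k W₀ W₁) :
    Lift P P₁ (z + z') k (U₀ + W₀) (U₁ + W₁) :=
  ⟨h.h0.add h'.h0, h.h1.add h'.h1,
    by rw [Matrix.map_add _ (map_add θ), vecMul_add, h.g, h'.g, add_smul],
    by rw [Matrix.mul_add, Matrix.add_mul, h.comm, h'.comm]⟩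

theorem Lift.sub (h : Lift P P₁ z k U₀ U₁) (h' : Lift P P₁ z' k W₀ W₁) :
    Lift P P₁ (z - z') k (U₀ - W₀) (U₁ - W₁) :=
  ⟨h.h0.sub h'.h0, h.h1.sub h'.h1,
    by rw [Matrix.map_sub _ (map_sub θ), vecMul_sub, h.g, h'.g, sub_smul],
    by rw [Matrix.mul_sub, Matrix.sub_mul, h.comm, h'.comm]⟩

theorem Lift.mul (h : Lift P P₁ z k U₀ U₁) {V₀ : Matrix (Fin P₁.b0) (Fin P₂.b0) A}
    {V₁ : Matrix (Fin P₁.b1) (Fin P₂.b1) A} (h' : Lift P₁ P₂ z' k' V₀ V₁) :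
    Lift P P₂ (z * z') (k + k') (U₀ * V₀) (U₁ * V₁) :=
  ⟨h.h0.mul h'.h0, h.h1.mul h'.h1,
    by rw [Matrix.map_mul, ← vecMul_vecMul, h.g, smul_vecMul, h'.g, mul_smul],
    by rw [← Matrix.mul_assoc, h.comm, Matrix.mul_assoc, h'.comm, Matrix.mul_assoc]⟩

theorem Lift.scalar (P : Pres 𝒜 θ S) {x : A} (hx : x ∈ Az 𝒜 k) :
    Lift P P (θ x) k (x • 1) (x • 1) :=
  ⟨HM.scalar _ hx, HM.scalar _ hx, by rw [et_map_smul_one, vecMul_smul, vecMul_one], by simp⟩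

theorem Lift.null (h : Lift P P₁ 0 k U₀ U₁) (hT : Stb 𝒜 θ' T) {n : ℤ} {φ : Fin P.b1 → L'}
    (hφ : φ ∈ P.Zc θ' T n) : φ ᵥ* U₁.map θ' ∈ P₁.Bc θ' T (n + k) := by
  obtain ⟨H, h1, h2⟩ := P.m1 h.h0 (by rw [h.g, zero_smul])
  refine ⟨φ ᵥ* H.map θ', hφ.1.vecMul hT h1, ?_⟩
  have := kill hφ.2 (h.h1.sub ((h1.mul P₁.hD0).cast (add_zero k))) (by
    rw [Matrix.mul_sub, h.comm, ← Matrix.mul_assoc, h2, sub_self])
  rw [Matrix.map_sub _ (map_sub θ'), vecMul_sub, sub_eq_zero, Matrix.map_mul] at this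
  rw [this, vecMul_vecMul]

/-- two lifts of the same element act in the same way on classes -/
theorem Lift.uniq (h : Lift P P₁ z k U₀ U₁) (h' : Lift P P₁ z k W₀ W₁) (hT : Stb 𝒜 θ' T) {n : ℤ}
    {φ : Fin P.b1 → L'} (hφ : φ ∈ P.Zc θ' T n) :
    φ ᵥ* U₁.map θ' - φ ᵥ* W₁.map θ' ∈ P₁.Bc θ' T (n + k) := by
  have := h.sub h'
  rw [sub_self] at this
  have := this.null hT hφ
  rwa [Matrix.map_sub _ (map_sub θ'), vecMul_sub] at this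

/-- `σ` is a null homotopy of the form `π` -/
structure Sg (P : Pres 𝒜 θ S) (π : A) (e : ℤ) (σ : Matrix (Fin P.b1) (Fin P.b0) A) : Prop where
  h : HM 𝒜 P.a1 P.a0 e σ
  eq : P.D0 * σ = π • 1

theorem exists_sg (P : Pres 𝒜 θ S) {π : A} {e : ℤ} (hπ : π ∈ Az 𝒜 e) (h0 : θ π = 0) :
    ∃ σ, Sg P π e σ := by
  obtain ⟨σ, h1, h2⟩ := P.m1 (HM.scalar P.a0 hπ) (by rw [et_map_smul_one, h0]; simp)
  exact ⟨σ, h1, h2⟩

variable {π : A} {e : ℤ} {σ : Matrix (Fin P.b1) (Fin P.b0) A}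
  {σ₁ : Matrix (Fin P₁.b1) (Fin P₁.b0) A}

theorem Sg.D0 (h : Sg P π e σ) (hπ : π ∈ Az 𝒜 e) {φ : Fin P.b1 → L'}
    (hφ : φ ᵥ* P.D1.map θ' = 0) : (φ ᵥ* σ.map θ') ᵥ* P.D0.map θ' = θ' π • φ := by
  have := kill hφ (((h.h.mul P.hD0).cast (add_zero e)).sub (HM.scalar P.a1 hπ)) (by
    rw [Matrix.mul_sub, ← Matrix.mul_assoc, h.eq]; simp)
  rw [Matrix.map_sub _ (map_sub θ'), vecMul_sub, sub_eq_zero, Matrix.map_mul, et_map_smul_one,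
    vecMul_smul, vecMul_one] at this
  rw [vecMul_vecMul, this]

theorem Sg.cob (h : Sg P π e σ) (ψ : Fin P.b0 → L') :
    (ψ ᵥ* P.D0.map θ') ᵥ* σ.map θ' = θ' π • ψ := by
  rw [vecMul_vecMul, ← Matrix.map_mul, h.eq, et_map_smul_one, vecMul_smul, vecMul_one]

theorem Sg.lift (h : Sg P π e σ) (h₁ : Sg P₁ π e σ₁) (hU : Lift P P₁ z k U₀ U₁)
    {φ : Fin P.b1 → L'} (hφ : φ ᵥ* P.D1.map θ' = 0) :
    (φ ᵥ* U₁.map θ') ᵥ* σ₁.map θ' = (φ ᵥ* σ.map θ') ᵥ* U₀.map θ' := by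
  have := kill hφ ((hU.h1.mul h₁.h).sub ((h.h.mul hU.h0).cast (add_comm e k))) (by
    rw [Matrix.mul_sub, ← Matrix.mul_assoc, hU.comm, Matrix.mul_assoc, h₁.eq, ← Matrix.mul_assoc,
      h.eq]; simp)
  rw [Matrix.map_sub _ (map_sub θ'), vecMul_sub, sub_eq_zero, Matrix.map_mul, Matrix.map_mul] at this
  rw [vecMul_vecMul, vecMul_vecMul, this]

end Pres

end

end Pool.Agent.Lib.MP_62d77c_ag.R
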