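import Pool.Agent.Lib.MP_62d77c_ag.R.ET2

/-! Trace ideals kill the torsion classes. -/

set_option autoImplicit false
set_option linter.unusedSectionVars false

namespace Pool.Agent.Lib.MP_62d77c_ag.R

open Matrix

noncomputable section

variable {A : Type} [CommRing A] {𝒜 : ℕ → AddSubgroup A} [GradedRing 𝒜]
  {L : Type} [Field L] {θ : A →+* L} {G : Type} [AddCommGroup G]

variable (𝒜) in
/-- a multiplicative system of families -/
structure ESys (θ : A →+* L) (S : G → ℤ → AddSubgroup L) : Prop where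
  mul : ∀ D E m n, ∀ z ∈ S D m, ∀ w ∈ S E n, z * w ∈ S (D + E) (m + n)
  stb : ∀ D, Stb 𝒜 θ (S D)

/-- the trace of `S D` in degree `k` -/
def Wt (S : G → ℤ → AddSubgroup L) (D : G) (k : ℤ) : AddSubgroup L :=
  AddSubgroup.closure {x | ∃ i j, i + j = k ∧ ∃ s ∈ S D i, ∃ z ∈ S (-D) j, x = s * z}

variable {S : G → ℤ → AddSubgroup L}

theorem ESys.Mul (h : ESys 𝒜 θ S) {D E F : G} {k : ℤ} {z : L} (hz : z ∈ S D k) (e : D + E = F) :
    Mul z k (S E) (S F) := fun n s hs => by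
  have := h.mul _ _ _ _ _ hz _ hs
  rwa [e, add_comm k] at this

theorem Mul.comp {z w : L} {k k' : ℤ} {T T' T'' : ℤ → AddSubgroup L} (h : Mul z k T T')
    (h' : Mul w k' T' T'') : Mul (w * z) (k + k') T T'' := fun n s hs => by
  have := h' _ _ (h n s hs)
  rwa [add_assoc, ← mul_assoc] at this

namespace Pres

variable {D : G} {P : Pres 𝒜 θ (S D)} {P₀ : Pres 𝒜 θ (S 0)} {π : A} {e : ℤ}
  {σ : Matrix (Fin P.b1) (Fin P.b0) A} {σ₀ : Matrix (Fin P₀.b1) (Fin P₀.b0) A}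

theorem Sg.trace (h : Sg P π e σ) (h₀ : Sg P₀ π e σ₀) (hS : ESys 𝒜 θ S) {m : ℤ} {u : A}
    (hu : u ∈ Az 𝒜 m) (hk : ∀ n, ∀ φ ∈ P₀.Zc θ (S 0) n, φ ᵥ* σ₀.map θ = 0 →
      θ u • φ ∈ P₀.Bc θ (S 0) (n + m)) {n : ℤ} {φ : Fin P.b1 → L} (hφ : φ ∈ P.Zc θ (S D) n)
    (h0 : φ ᵥ* σ.map θ = 0) {k₁ k₂ : ℤ} {a : A} (ha : a ∈ Az 𝒜 k₁) (hW : θ a ∈ Wt S D k₁) {y : L}
    (hy : y ∈ Wt S D k₂) : (y * θ u * θ a) • φ ∈ P.Bc θ (S D) (n + m + k₁ + k₂) := by
  induction hy using AddSubgroup.closure_induction with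
  | zero => simpa using zero_mem _
  | add y y' _ _ h1 h2 => rw [add_mul, add_mul, add_smul]; exact add_mem h1 h2
  | neg y _ h1 => rw [neg_mul, neg_mul, neg_smul]; exact neg_mem h1
  | mem y hy =>
  obtain ⟨i, j, rfl, w, hw, t, ht, rfl⟩ := hy
  have key : ∀ x ∈ Wt S D k₁, ∃ U₀ U₁, Lift P P x k₁ U₀ U₁ ∧
      (w * t * θ u) • φ ᵥ* U₁.map θ ∈ P.Bc θ (S D) (n + m + k₁ + (i + j)) := by
    intro x hx
    have z0 : Lift P P 0 k₁ ((0 : A) • 1) ((0 : A) • 1) := by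
      simpa using Lift.scalar P (x := 0) (k := k₁) (zero_mem _)
    induction hx using AddSubgroup.closure_induction with
    | zero => exact ⟨_, _, z0, by simpa using zero_mem _⟩
    | add x x' _ _ h1 h2 =>
      obtain ⟨U₀, U₁, h1, h3⟩ := h1
      obtain ⟨W₀, W₁, h2, h4⟩ := h2
      exact ⟨_, _, h1.add h2, by
        rw [Matrix.map_add _ (map_add θ), vecMul_add, smul_add]; exact add_mem h3 h4⟩
    | neg x _ h1 =>
      obtain ⟨U₀, U₁, h1, h3⟩ := h1
      have := z0.sub h1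
      rw [zero_sub] at this
      exact ⟨_, _, this, by
        rw [Matrix.map_sub _ (map_sub θ), vecMul_sub, smul_sub]
        exact sub_mem (by simpa using zero_mem _) h3⟩
    | mem x hx =>
      obtain ⟨i', j', rfl, s, hs, z, hz, rfl⟩ := hx
      obtain ⟨U₀, U₁, hU⟩ := exists_lift P P₀ (hS.Mul hs (add_zero D))
      obtain ⟨V₀, V₁, hV⟩ := exists_lift P₀ P (hS.Mul hz (neg_add_cancel D))
      refine ⟨_, _, hU.mul hV, ?_⟩
      have h1 := Zc_smul (hU.Zc (hS.stb D) hφ) (hS.Mul ht (neg_add_cancel D))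
      have h2 := hk _ _ h1 (by
        rw [smul_vecMul, h.lift h₀ hU hφ.2, h0, zero_vecMul, smul_zero])
      have h3 := Bc_smul (hV.Bc (hS.stb 0) h2) (hS.Mul hw (add_zero D))
      rw [show n + i' + j + m + j' + i = n + m + (i' + j') + (i + j) by ring] at h3
      convert h3 using 1
      rw [smul_vecMul, smul_vecMul, vecMul_vecMul, Matrix.map_mul, smul_smul, smul_smul]
      congr 1; ring
  obtain ⟨U₀, U₁, h1, h2⟩ := key _ hW
  have h3 := Bc_smul (h1.uniq (Lift.scalar P ha) (hS.stb D) hφ)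
    ((((hS.stb D).mul hu).comp (hS.Mul ht (neg_add_cancel D))).comp (hS.Mul hw (add_zero D)))
  rw [show n + k₁ + (m + j + i) = n + m + k₁ + (i + j) by ring, et_map_smul_one, vecMul_smul,
    vecMul_one, smul_sub, ← mul_assoc] at h3
  have := sub_mem h2 h3
  rwa [sub_sub_cancel, smul_smul] at this

theorem Sg.Iv_to (h : Sg P π e σ) (h₀ : Sg P₀ π e σ₀) (hS : ESys 𝒜 θ S) {n k : ℤ} {x y : L}
    (hx : x ∈ P.Iv σ (S D) n) (hy : y ∈ Wt S D k) : y * x ∈ P₀.Iv σ₀ (S 0) (n + k) := by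
  induction hy using AddSubgroup.closure_induction with
  | zero => simpa using zero_mem _
  | add y y' _ _ h1 h2 => rw [add_mul]; exact add_mem h1 h2
  | neg y _ h1 => rw [neg_mul]; exact neg_mem h1
  | mem y hy =>
    obtain ⟨i, j, rfl, w, hw, t, ht, rfl⟩ := hy
    have := h.Iv_mul h₀ (hS.stb D) hx (hS.Mul hw (add_zero D)) (hS.Mul ht (neg_add_cancel D))
    rwa [add_assoc, mul_comm t] at this

theorem Sg.Iv_from (h : Sg P π e σ) (h₀ : Sg P₀ π e σ₀) (hS : ESys 𝒜 θ S) {n k : ℤ} {x y : L}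
    (hx : x ∈ P₀.Iv σ₀ (S 0) n) (hy : y ∈ Wt S D k) : y * x ∈ P.Iv σ (S D) (n + k) := by
  induction hy using AddSubgroup.closure_induction with
  | zero => simpa using zero_mem _
  | add y y' _ _ h1 h2 => rw [add_mul]; exact add_mem h1 h2
  | neg y _ h1 => rw [neg_mul]; exact neg_mem h1
  | mem y hy =>
    obtain ⟨i, j, rfl, w, hw, t, ht, rfl⟩ := hy
    have := h₀.Iv_mul h (hS.stb 0) hx (hS.Mul ht (neg_add_cancel D)) (hS.Mul hw (add_zero D))
    rwa [add_assoc, add_comm j] at this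

end Pres

end

end Pool.Agent.Lib.MP_62d77c_ag.R
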