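import Pool.Agent.Lib.MP_62d77c_ag.R.N3
import Pool.Agent.Lib.MP_62d77c_ag.R.N1h

/-! A uniform annihilator of the point torsion of `R / (x₁, x₂)` for affine threefolds. -/

set_option autoImplicit false
set_option linter.style.haveILetI false

namespace Pool.Agent.Lib.MP_62d77c_ag.R

open MvPolynomial

theorem et4_poly {k : Type} [Field k] (f : Fin 3 → Polynomial k) (hf : (f 0).Monic)
    {y : MvPolynomial (Fin 3) k}
    (h : Polynomial.aeval (X 0) (f 0) * y ∈ Ideal.span
      {Polynomial.aeval (X 1 : MvPolynomial (Fin 3) k) (f 1), Polynomial.aeval (X 2) (f 2)}) :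
    y ∈ Ideal.span
      {Polynomial.aeval (X 1 : MvPolynomial (Fin 3) k) (f 1), Polynomial.aeval (X 2) (f 2)} := by
  set e := finSuccEquiv k 2
  set I : Ideal (MvPolynomial (Fin 2) k) :=
    Ideal.span {Polynomial.aeval (X 0) (f 1), Polynomial.aeval (X 1) (f 2)} with hI
  have e1 : ∀ (i : Fin 2) (g : Polynomial k), e (Polynomial.aeval (X i.succ) g) =
      Polynomial.C (Polynomial.aeval (X i) g) := fun i g => by
    rw [← Polynomial.aeval_algHom_apply e, finSuccEquiv_X_succ]
    exact Polynomial.aeval_algHom_apply (Polynomial.CAlgHom (R := k)) _ _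
  have e0 : e (Polynomial.aeval (X 0) (f 0)) = (f 0).map (algebraMap k _) := by
    rw [← Polynomial.aeval_algHom_apply e, finSuccEquiv_X_zero, Polynomial.aeval_X_left_eq_map]
  have key : ∀ z, z ∈ Ideal.span
      {Polynomial.aeval (X 1 : MvPolynomial (Fin 3) k) (f 1), Polynomial.aeval (X 2) (f 2)} ↔
      (e z).map (Ideal.Quotient.mk I) = 0 := fun z => by
    have : Ideal.map e (Ideal.span
      {Polynomial.aeval (X 1 : MvPolynomial (Fin 3) k) (f 1), Polynomial.aeval (X 2) (f 2)}) =
        Ideal.map Polynomial.C I := by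
      rw [hI, Ideal.map_span, Ideal.map_span, Set.image_pair, Set.image_pair, ← e1 0, ← e1 1]
      rfl
    rw [← Ideal.apply_mem_of_equiv_iff (f := e.toRingEquiv)]
    erw [this]
    rw [Ideal.mem_map_C_iff, Polynomial.ext_iff]
    simp [Ideal.Quotient.eq_zero_iff_mem]
  rw [key] at h ⊢
  rw [map_mul, Polynomial.map_mul, e0] at h
  exact ((hf.map _).map _).mul_right_eq_zero_iff.1 h

theorem et4_main {k R : Type} [Field k] [CommRing R] [IsDomain R] [Algebra k R]
    [Algebra.FiniteType k R] (h3 : Algebra.trdeg k R = (3 : ℕ)) :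
    ∃ b : R, b ≠ 0 ∧ ∀ J : Ideal R, (∀ q : Ideal R, q.IsPrime → J ≤ q → q.height = 3) →
      ∃ x₁ ∈ J, ∃ x₂ ∈ J, ∃ x₃ ∈ J, x₁ ≠ 0 ∧
        (∀ q : Ideal R, q.IsPrime → q.height = 1 → x₁ ∉ q ∨ x₂ ∉ q) ∧
        ∀ y y₁ y₂ : R, x₃ * y = x₂ * y₁ - x₁ * y₂ → ∃ w₁ w₂ : R, b * y = x₂ * w₁ - x₁ * w₂ := by
  classical
  obtain ⟨s, g, hi, hfin⟩ := exists_finite_inj_algHom_of_fg k R
  letI := g.toRingHom.toAlgebra
  haveI : Module.Finite (MvPolynomial (Fin s) k) R := hfin
  haveI : IsScalarTower k (MvPolynomial (Fin s) k) R := .of_algebraMap_eq fun c =>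
    (g.commutes c).symm
  haveI : FaithfulSMul (MvPolynomial (Fin s) k) R :=
    (faithfulSMul_iff_algebraMap_injective _ _).2 hi
  obtain rfl : s = 3 := by
    have := trdeg_add_eq k (MvPolynomial (Fin s) k) (A := R)
    rw [h3, trdeg_eq_zero (R := MvPolynomial (Fin s) k), add_zero] at this
    have h4 : (s : Cardinal.{0}) = 3 := by simpa using this
    exact_mod_cast h4
  haveI := Module.finitePresentation_of_finite (MvPolynomial (Fin 3) k) R
  obtain ⟨β, hβ, P, _, _, hP, α, γ, hγ⟩ : ∃ β ∈ nonZeroDivisors (MvPolynomial (Fin 3) k),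
      Ann.Fac β R := by
    letI : Field (Localization (nonZeroDivisors (MvPolynomial (Fin 3) k))) :=
      FractionRing.field _
    exact n3_fac_of_proj _
  obtain ⟨σ, hσ⟩ := Module.projective_def'.1 hP
  refine ⟨g β, fun e => nonZeroDivisors.ne_zero hβ (hi (by rw [e, map_zero])), fun J hJ => ?_⟩
  haveI : IsNoetherianRing R := Algebra.FiniteType.isNoetherianRing k R
  haveI : Module.Finite k (R ⧸ J) := by
    rw [Module.finite_iff_krullDimLE_zero]
    refine Ring.KrullDimLE.mk₀ fun Q hQ => ?_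
    refine Ideal.isMaximal_of_isIntegral_of_isMaximal_comap (R := R) Q ?_
    change (Q.comap (Ideal.Quotient.mk J)).IsMaximal
    obtain ⟨m, hm, hle⟩ := Ideal.exists_le_maximal (Q.comap (Ideal.Quotient.mk J))
      Ideal.IsPrime.ne_top'
    have h0 : J ≤ Q.comap (Ideal.Quotient.mk J) := fun x hx => by
      rw [Ideal.mem_comap, Ideal.Quotient.eq_zero_iff_mem.2 hx]; exact zero_mem _
    rcases hle.eq_or_lt with e | e
    · exact e ▸ hm
    · have := Ideal.height_strict_mono_of_isPrime e
      rw [hJ _ inferInstance h0, hJ _ hm.isPrime (h0.trans hle)] at this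
      exact absurd this (lt_irrefl _)
  have hf : ∀ i : Fin 3, ∃ f : Polynomial k, f.Monic ∧ g (Polynomial.aeval (X i) f) ∈ J := fun i => by
    obtain ⟨f, h1, h2⟩ := Algebra.IsIntegral.isIntegral (R := k) (Ideal.Quotient.mk J (g (X i)))
    refine ⟨f, h1, Ideal.Quotient.eq_zero_iff_mem.1 ?_⟩
    rw [← Polynomial.aeval_algHom_apply g]
    exact (Polynomial.aeval_algHom_apply (Ideal.Quotient.mkₐ k J) _ _).symm.trans h2
  choose f hm hJf using hf
  refine ⟨_, hJf 1, _, hJf 2, _, hJf 0, fun e => ?_, fun q hq h1 => ?_, fun y y₁ y₂ e => ?_⟩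
  · have h1 : Polynomial.aeval (X 1 : MvPolynomial (Fin 3) k) (f 1) = 0 := hi (by rw [e, map_zero])
    exact (hm 1).ne_zero (transcendental_iff.1 (transcendental_X k 1) _ h1)
  · by_contra hc
    rw [not_or, not_not, not_not] at hc
    obtain ⟨t, ht⟩ := n1h_fin (K := k) q
    have h2 := n1h_dim h3 q ht
    rw [h1] at h2
    obtain rfl : t = 2 := by
      have : 1 + t = 3 := by exact_mod_cast h2
      omega
    set B := Algebra.adjoin k {Ideal.Quotient.mk q (g (X 0))}
    have hint : ∀ i, IsIntegral B (Ideal.Quotient.mk q (g (X i))) := by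
      have aux : ∀ i, g (Polynomial.aeval (X i) (f i)) ∈ q →
          IsIntegral B (Ideal.Quotient.mk q (g (X i))) := fun i h => by
        refine IsIntegral.tower_top (R := k) ⟨f i, hm i, ?_⟩
        rw [← Polynomial.aeval_algHom_apply g] at h
        exact (Polynomial.aeval_algHom_apply (Ideal.Quotient.mkₐ k q) _ _).trans
          (Ideal.Quotient.eq_zero_iff_mem.2 h)
      intro i
      fin_cases i
      · exact isIntegral_algebraMap (x := (⟨_, Algebra.subset_adjoin rfl⟩ : B))
      · exact aux 1 hc.1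
      · exact aux 2 hc.2
    have hall : ∀ z : MvPolynomial (Fin 3) k, IsIntegral B (Ideal.Quotient.mk q (g z)) := by
      intro z
      induction z using MvPolynomial.induction_on with
      | C c =>
        have : Ideal.Quotient.mk q (g (C c)) = algebraMap k _ c := congrArg _ (g.commutes c)
        rw [this]; exact IsIntegral.tower_top (R := k) isIntegral_algebraMap
      | add a b h1 h2 => rw [map_add, map_add]; exact h1.add h2
      | mul_X a i h1 => rw [map_mul, map_mul]; exact h1.mul (hint i)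
    haveI : Algebra.IsIntegral B (R ⧸ q) := ⟨fun z => by
      obtain ⟨z, rfl⟩ := Ideal.Quotient.mk_surjective z
      obtain ⟨F, h4, h5⟩ := Algebra.IsIntegral.isIntegral (R := MvPolynomial (Fin 3) k) z
      let ψ : MvPolynomial (Fin 3) k →+* integralClosure B (R ⧸ q) :=
        ((Ideal.Quotient.mk q).comp g.toRingHom).codRestrict (integralClosure B (R ⧸ q)) hall
      refine isIntegral_trans (A := integralClosure B (R ⧸ q)) _ ⟨F.map ψ, h4.map ψ, ?_⟩
      rw [Polynomial.eval₂_map]
      have := congrArg (Ideal.Quotient.mk q) h5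
      rwa [Polynomial.hom_eval₂, map_zero] at this⟩
    have := Algebra.IsAlgebraic.trdeg_le_cardinalMk k
      ({Ideal.Quotient.mk q (g (X 0))} : Set (R ⧸ q))
    rw [ht, Cardinal.mk_singleton] at this
    exact absurd (by exact_mod_cast this : 2 ≤ 1) (by omega)
  · set x₁ := Polynomial.aeval (X 1 : MvPolynomial (Fin 3) k) (f 1)
    set x₂ := Polynomial.aeval (X 2 : MvPolynomial (Fin 3) k) (f 2)
    have e' : Polynomial.aeval (X 0 : MvPolynomial (Fin 3) k) (f 0) • y = x₂ • y₁ - x₁ • y₂ := e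
    have h1 : ∀ i, σ (α y) i ∈ Ideal.span {x₁, x₂} := fun i => et4_poly f (hm 0) (by
      have := congrArg (fun z => σ (α z) i) e'
      simp only [map_smul, map_sub, Finsupp.smul_apply, Finsupp.sub_apply, smul_eq_mul] at this
      rw [this]
      exact sub_mem (Ideal.mul_mem_right _ _ (Ideal.subset_span (Or.inr rfl)))
        (Ideal.mul_mem_right _ _ (Ideal.subset_span (Or.inl rfl))))
    have h2 : β • y ∈ Ann.two R x₁ x₂ := by
      rw [Ann.two_eq, ← hγ y, ← LinearMap.id_apply (R := MvPolynomial (Fin 3) k) (α y), ← hσ,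
        LinearMap.comp_apply, Finsupp.linearCombination_apply, Finsupp.sum, map_sum]
      refine Submodule.sum_mem _ fun i _ => ?_
      rw [map_smul]
      exact Submodule.smul_mem_smul (h1 i) Submodule.mem_top
    obtain ⟨a, c, h4⟩ := Ann.mem_two.1 h2
    exact ⟨c, -a, by rw [mul_neg, sub_neg_eq_add, add_comm]; exact h4⟩

end Pool.Agent.Lib.MP_62d77c_ag.R
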