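import Pool.Agent.Lib.MP_62d77c_ag.R.ET3
import Pool.Agent.Lib.MP_62d77c_ag.R.ET4
import Pool.Agent.Lib.MP_62d77c_ag.R.ET5
import Pool.Agent.Lib.MP_62d77c_ag.R.TR

/-! One form kills the torsion classes for all divisors. -/

set_option autoImplicit false
set_option linter.unusedSectionVars false

namespace Pool.Agent.Lib.MP_62d77c_ag.R

open Matrix Filter

noncomputable section

variable {A : Type} [CommRing A] [IsDomain A] {𝒜 : ℕ → AddSubgroup A} [GradedRing 𝒜]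
  [hG : Fact (Gen 𝒜)] {p : ℕ} [Fact p.Prime]

namespace Mo

variable (X : Mo 𝒜 p)

/-- sections, indexed by the integers -/
abbrev SZ (D : Dvs X.L) : ℤ → AddSubgroup X.L := X.FZ (X.MD D)

theorem esys : ESys 𝒜 X.θ X.SZ where
  mul D E m n z hz w hw := by
    rcases X.FZ_cases hz with rfl | ⟨k, rfl, hz⟩
    · simpa using zero_mem _
    rcases X.FZ_cases hw with rfl | ⟨l, rfl, hw⟩
    · simpa using zero_mem _
    rw [← Nat.cast_add]; exact X.mem_FZ.2 (X.mul_mem_MD hz hw)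
  stb D := (X.exists_rl (X.ff_MD D)).choose_spec.stb

theorem fmul_wt {D : Dvs X.L} {n : ℕ} {z : X.L} (hz : z ∈ fmul (X.MD D) (X.MD (-D)) n) :
    z ∈ Wt X.SZ D n := by
  induction hz using Submodule.span_induction with
  | mem z hz =>
    obtain ⟨i, j, rfl, u, hu, v, hv, rfl⟩ := hz
    exact AddSubgroup.subset_closure ⟨i, j, by simp, u, X.mem_FZ.2 hu, v, X.mem_FZ.2 hv, rfl⟩
  | zero => exact zero_mem _
  | add z w _ _ h1 h2 => exact add_mem h1 h2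
  | smul c z _ h1 =>
    obtain ⟨k, rfl⟩ := ZMod.intCast_surjective c
    rw [Int.cast_smul_eq_zsmul]; exact zsmul_mem h1 k

theorem tr_wt {a : A} {e : ℕ} (h : X.Tr a e) (D : Dvs X.L) (y : Vp 𝒜 p) (hy : 1 ≤ dm y) :
    ∃ k : ℕ, ∃ s ∈ 𝒜 k, s ∉ pr y.1 ∧ X.θ (s * a) ∈ Wt X.SZ D (e + k) := by
  obtain ⟨k, s, hs, h1, h2⟩ := X.trAt_iff.1 (h.2 D y hy)
  exact ⟨k, s, hs, h1, by rw [map_mul, ← Nat.cast_add]; exact X.fmul_wt h2⟩

/-- sections over the chart `l ≠ 0` -/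
def TL (l : A) (D : Dvs X.L) (n : ℤ) : AddSubgroup X.L :=
  (Dv (X.ch l) D).toAddSubgroup.comap (AddMonoidHom.mulRight (X.θ l ^ (-n)))

variable {l : A} {D : Dvs X.L}

theorem mem_TL {n : ℤ} {z : X.L} : z ∈ X.TL l D n ↔ z * X.θ l ^ (-n) ∈ Dv (X.ch l) D := Iff.rfl

theorem TL_mul {r : X.L} (hr : r ∈ X.ch l) : Mul r 0 (X.TL l D) (X.TL l D) := fun n s hs => by
  rw [add_zero, mem_TL, mul_assoc]
  exact (Dv (X.ch l) D).smul_mem ⟨r, hr⟩ hs

theorem SZ_TL (hl : l ∈ 𝒜 1) (h0 : l ∉ pr X.x.1) : Mul 1 0 (X.SZ D) (X.TL l D) := fun n s hs => by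
  rw [add_zero, one_mul, mem_TL]
  rcases X.FZ_cases hs with rfl | ⟨k, rfl, hs⟩
  · simpa using zero_mem _
  · simpa [div_eq_mul_inv] using X.div_mem_Dv hl h0 hs

theorem TL_stb (hl : l ∈ 𝒜 1) (h0 : l ∉ pr X.x.1) : Stb 𝒜 X.θ (X.TL l D) := fun i n a z ha hz => by
  rcases Az_cases ha with rfl | ⟨k, rfl, ha⟩
  · simpa using zero_mem _
  have := (Dv (X.ch l) D).smul_mem ⟨_, X.B_le_ch (X.div_mem_B hl ha)⟩ hz
  rw [mem_TL]
  convert this using 1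
  have l0 := X.th_ne hl h0
  change _ = X.θ a / X.θ l ^ k * (z * X.θ l ^ (-n))
  rw [neg_add, zpow_add₀ l0, _root_.zpow_neg _ (k : ℤ), _root_.zpow_natCast]
  field_simp

theorem TL_clear (hl : l ∈ 𝒜 1) (h0 : l ∉ pr X.x.1) {n : ℤ} {z : X.L} (hz : z ∈ X.TL l D n) :
    ∀ᶠ N : ℕ in atTop, X.θ l ^ N * z ∈ X.SZ D (n + N) := by
  obtain ⟨m, hm⟩ := (X.mem_Dv_ch hl h0).1 (X.mem_TL.1 hz)
  filter_upwards [eventually_ge_atTop (m - n).toNat] with N hN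
  obtain ⟨k, hk⟩ := Int.le.dest (show (m : ℤ) ≤ n + N by omega)
  have := X.th_mul_mem (md_pow_mem hl k) hm
  rw [← hk, add_comm, ← Nat.cast_add, mem_FZ]
  convert this using 1
  have l0 := X.th_ne hl h0
  rw [map_pow, show -n = N - k - m by omega, zpow_sub₀ l0, zpow_sub₀ l0, zpow_natCast, zpow_natCast,
    zpow_natCast]
  field_simp

variable {P : Pres 𝒜 X.θ (X.SZ D)}

theorem Bc_clear (hl : l ∈ 𝒜 1) (h0 : l ∉ pr X.x.1) {n : ℤ} {φ : Fin P.b1 → X.L}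
    (h : φ ∈ P.Bc X.θ (X.TL l D) n) :
    ∃ N : ℕ, X.θ l ^ N • φ ∈ P.Bc X.θ (X.SZ D) (n + N) := by
  obtain ⟨ψ, h1, rfl⟩ := h
  obtain ⟨N, hN⟩ := (eventually_all.2 fun i => X.TL_clear hl h0 (h1 i)).exists
  refine ⟨N, X.θ l ^ N • ψ, fun i => ?_, smul_vecMul _ _ _⟩
  have := hN i
  rwa [add_right_comm] at this

theorem TL_end (hl : l ∈ 𝒜 1) (h0 : l ∉ pr X.x.1) {n : ℤ} {y : X.L} :
    CV P.a0 (X.TL l D) n (y • P.g) ↔ y * X.θ l ^ (-n) ∈ X.ch l := by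
  have l0 := X.th_ne hl h0
  constructor
  · intro h
    obtain ⟨c, -, c0, hc⟩ := (X.nrm_ch hl h0).Dv_ne D
    refine (X.nrm_ch hl h0).cl _ (isIntegral_of_smul_mem_submodule (Dv (X.ch l) D)
      ((Submodule.ne_bot_iff _).2 ⟨c, hc, c0⟩) ((X.nrm_ch hl h0).Dv_fg D) _ fun z hz => ?_)
    obtain ⟨m, hm⟩ := (X.mem_Dv_ch hl h0).1 hz
    obtain ⟨c, h1, h2⟩ := P.p0 m _ (X.mem_FZ.2 hm)
    have h3 : y * (X.θ l ^ m * z) ∈ X.TL l D (n + m) := by
      rw [← h2, dotProduct, Finset.mul_sum]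
      refine sum_mem fun i _ => ?_
      have := X.TL_stb hl h0 _ _ _ _ (h1 i) (h i)
      rw [show n + P.a0 i + (m - P.a0 i) = n + m by ring] at this
      convert this using 1
      simp only [Function.comp_apply, Pi.smul_apply, smul_eq_mul]; ring
    rw [mem_TL] at h3
    convert h3 using 1
    rw [smul_eq_mul, neg_add, zpow_add₀ l0, _root_.zpow_neg _ (m : ℤ), _root_.zpow_natCast]
    field_simp
  · intro h i
    have := X.TL_mul h _ _ (X.SZ_TL hl h0 _ _ (P.hg i))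
    rw [mem_TL] at this ⊢
    convert this using 1
    simp only [Pi.smul_apply, smul_eq_mul, add_zero, one_mul]
    rw [neg_add, zpow_add₀ l0]; ring

theorem chart_kill (hb : Bir 𝒜 X.θ) (h3 : dm X.x = 3) (hl : l ∈ 𝒜 1) (h0 : l ∉ pr X.x.1) :
    ∃ k : ℕ, ∃ α ∈ 𝒜 k, X.θ α ≠ 0 ∧ ∀ (D : Dvs X.L) (P : Pres 𝒜 X.θ (X.SZ D)) (n : ℤ)
      (ζ : Fin P.b1 → X.L), (∀ y : Vp 𝒜 p, 1 ≤ dm y → ∃ k : ℕ, ∃ s ∈ 𝒜 k, s ∉ pr y.1 ∧
        X.θ s • ζ ∈ P.Bc X.θ (X.SZ D) (n + k)) →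
      ∃ N : ℕ, (X.θ l ^ N * X.θ α) • ζ ∈ P.Bc X.θ (X.SZ D) (n + N + k) := by
  have hN := X.naff_ch hl h0
  have l0 := X.th_ne hl h0
  haveI : CharP (X.ch l) p := CharP.subring X.L p _
  letI := ZMod.algebra (X.ch l) p
  haveI := n1c_ft (ZMod p) _ hN.ft
  haveI : IsFractionRing (X.ch l) X.L := .of_field _ _ fun z => by
    obtain ⟨a, ha, b, hb, -, e⟩ := hN.frac z
    exact ⟨⟨a, ha⟩, ⟨b, hb⟩, e⟩
  obtain ⟨b, b0, hJ⟩ := et4_main (k := ZMod p) (R := X.ch l) (by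
    rw [n1c_tr (ZMod p) (X.ch l) X.L (Subsingleton.elim _ _), hN.dim, h3])
  obtain ⟨k, α, hα, β, hβ, β0, e⟩ := hb.gen b
  have b0' : (b : X.L) ≠ 0 := fun h => b0 (Subtype.ext h)
  refine ⟨k, α, hα, fun h => b0' (by rw [e, h, zero_div]), fun D P n ζ hζ => ?_⟩
  let J : Ideal (X.ch l) :=
    { carrier := {r | (r : X.L) • ζ ∈ P.Bc X.θ (X.TL l D) n}
      zero_mem' := by simpa using zero_mem _
      add_mem' := fun {r s} h1 h2 => by
        change ((r : X.L) + s) • ζ ∈ P.Bc X.θ (X.TL l D) n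
        rw [add_smul]; exact add_mem h1 h2
      smul_mem' := fun c r h => by
        have := Pres.Bc_smul h (X.TL_mul c.2)
        rwa [add_zero, smul_smul] at this }
  obtain ⟨x₁, h₁, x₂, h₂, x₃, h₃, x0, pair, hβ'⟩ := hJ J fun q hq hle => by
    obtain ⟨O, hO⟩ := exists_ctr q hq
    obtain ⟨y, hy, hy'⟩ := exists_cen hl h0 (O := O) fun z hz => (hO ⟨z, X.B_le_ch hz⟩).1
    have e1 := height_ctr hl hy' hy hO
    rcases Nat.eq_zero_or_pos (dm y) with e0 | e0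
    · rw [e0, h3] at e1; simpa using e1
    · exfalso
      obtain ⟨k, s, hs, s0, h1⟩ := hζ y e0
      have h2 : (⟨_, X.B_le_ch (X.div_mem_B hl hs)⟩ : X.ch l) ∈ J := by
        obtain ⟨ψ, c1, c2⟩ := Pres.Bc_smul h1 (X.SZ_TL hl h0)
        refine ⟨(X.θ l ^ k)⁻¹ • ψ, fun i => ?_, ?_⟩
        · have := c1 i
          rw [mem_TL] at this ⊢
          convert this using 1
          rw [show -(n + k + 0 + P.a0 i) = -(n + P.a0 i) - k by ring, zpow_sub₀ l0, zpow_natCast]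
          simp only [Pi.smul_apply, smul_eq_mul]
          field_simp
        · rw [smul_vecMul, c2, one_smul, smul_smul, ← div_eq_inv_mul]
      have h4 := (hO _).2.1 (hle h2)
      have h5 := (hy.div hs (md_pow_mem hl k) (md_pow_not_mem hy' k)).2
      rw [map_pow] at h5
      exact s0 (h5.1 h4)
  have key := Pres.emb_three (P := P) (T := X.TL l D) (n := n) (b := b) hb
    (fun h => x0 (Subtype.ext h)) (X.TL_mul x₁.2) (X.TL_mul x₂.2) (X.TL_mul x₃.2) (X.TL_mul b.2)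
    (fun k y c1 c2 O hO => by
      obtain ⟨q, q1, q2, q3⟩ := id hO
      have aux : ∀ x : X.ch l, x ∉ q → (x : X.L) * y ∈ X.TL l D k →
          y * X.θ l ^ (-k) * unif O ^ D O ∈ O := fun x hx c => by
        have := c O hO
        rw [← O.valuation_le_one_iff] at this ⊢
        change O.valuation (x * y * X.θ l ^ (-k) * unif O ^ D O) ≤ 1 at this
        rwa [mul_assoc, mul_assoc, map_mul, q3.eq_one hx, one_mul, ← mul_assoc] at this
      exact (pair q q1 q2).elim (fun h => aux _ h c1) fun h => aux _ h c2)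
    (fun y y₁ y₂ c c1 c2 e => by
      rw [X.TL_end hl h0] at c c1 c2
      obtain ⟨w₁, w₂, hw⟩ := hβ' ⟨_, c⟩ ⟨_, c1⟩ ⟨_, c2⟩ (Subtype.ext (by
        simp only [Subring.coe_mul, AddSubgroupClass.coe_sub]
        linear_combination X.θ l ^ (-n) * e))
      have hw' := congrArg Subtype.val hw
      simp only [Subring.coe_mul, AddSubgroupClass.coe_sub] at hw'
      have z0 : X.θ l ^ n * X.θ l ^ (-n) = 1 := by rw [← zpow_add₀ l0]; simp
      refine ⟨w₁ * X.θ l ^ n, w₂ * X.θ l ^ n, ?_, ?_, ?_⟩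
      · rw [X.TL_end hl h0, mul_assoc, z0, mul_one]; exact w₁.2
      · rw [X.TL_end hl h0, mul_assoc, z0, mul_one]; exact w₂.2
      · linear_combination X.θ l ^ n * hw' - b * y * z0) h₁ h₂ h₃
  obtain ⟨N, hN⟩ := X.Bc_clear hl h0 key
  refine ⟨N, ?_⟩
  have := Pres.Bc_smul hN ((X.esys.stb D).mul (i := k) (by rwa [Az_nat]))
  convert this using 1
  rw [smul_smul, smul_smul, e]
  congr 1
  field_simp

theorem kill_all (hb : Bir 𝒜 X.θ) (h3 : dm X.x = 3) {π : A} {e : ℤ} (hπ : GenK 𝒜 X.θ π e)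
    (P₀ : Pres 𝒜 X.θ (X.SZ 0)) : ∃ m : ℕ, ∃ x ∈ 𝒜 m, X.θ x ≠ 0 ∧
      ∀ (D : Dvs X.L) (P : Pres 𝒜 X.θ (X.SZ D)) σ, Pres.Sg P π e σ → ∀ n,
        ∀ φ ∈ P.Zc X.θ (X.SZ D) n, φ ᵥ* σ.map X.θ = 0 → ∀ y : Pt 𝒜, ∃ k : ℕ, ∃ t ∈ 𝒜 k,
          t ∉ pr y ∧ X.θ (t * x) • φ ∈ P.Bc X.θ (X.SZ D) (n + m + k) := by
  classical
  obtain ⟨σ₀, h₀⟩ := P₀.exists_sg hπ.mem hπ.zero
  obtain ⟨m, u, hu, u0, hk⟩ := h₀.tors hb hπ
  obtain ⟨m, rfl, hu'⟩ := (Az_cases hu).resolve_left fun h => u0 (by rw [h, map_zero])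
  obtain ⟨a, f, ha, a0⟩ := exists_tr_one X h3 X.x (by omega)
  obtain ⟨s, hs, hs'⟩ := n1d_gens 𝒜
  have key : ∀ s : Finset A, (∀ l ∈ s, l ∈ 𝒜 1) → ∃ k : ℕ, ∃ α ∈ 𝒜 k, X.θ α ≠ 0 ∧ ∀ l ∈ s,
      l ∉ pr X.x.1 → ∀ (D : Dvs X.L) (P : Pres 𝒜 X.θ (X.SZ D)) (n : ℤ)
      (ζ : Fin P.b1 → X.L), (∀ y : Vp 𝒜 p, 1 ≤ dm y → ∃ k : ℕ, ∃ s ∈ 𝒜 k, s ∉ pr y.1 ∧
        X.θ s • ζ ∈ P.Bc X.θ (X.SZ D) (n + k)) →
      ∃ N : ℕ, (X.θ l ^ N * X.θ α) • ζ ∈ P.Bc X.θ (X.SZ D) (n + N + k) := by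
    intro s
    induction s using Finset.induction_on with
    | empty => exact fun _ => ⟨0, 1, SetLike.one_mem_graded 𝒜, by simp, by simp⟩
    | insert l s _ ih =>
      intro h
      obtain ⟨k, α, hα, α0, h1⟩ := ih fun x hx => h x (Finset.mem_insert_of_mem hx)
      by_cases l0 : l ∈ pr X.x.1
      · refine ⟨k, α, hα, α0, fun x hx x0 => h1 x ?_ x0⟩
        exact (Finset.mem_insert.1 hx).resolve_left fun e => x0 (e ▸ l0)
      obtain ⟨k', α', hα', α0', h2⟩ := X.chart_kill hb h3 (h l (Finset.mem_insert_self _ _)) l0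
      refine ⟨k + k', α * α', SetLike.mul_mem_graded hα hα', by simp [α0, α0'],
        fun x hx x0 D P n ζ hζ => ?_⟩
      rcases Finset.mem_insert.1 hx with rfl | hx
      · obtain ⟨N, hN⟩ := h2 D P n ζ hζ
        have := Pres.Bc_smul hN ((X.esys.stb D).mul (i := k) (a := α) (by rwa [Az_nat]))
        refine ⟨N, ?_⟩
        rw [smul_smul] at this
        convert this using 2
        · push_cast; ring
        · rw [map_mul]; ring
      · obtain ⟨N, hN⟩ := h1 x hx x0 D P n ζ hζ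
        have := Pres.Bc_smul hN ((X.esys.stb D).mul (i := k') (a := α') (by rwa [Az_nat]))
        refine ⟨N, ?_⟩
        rw [smul_smul] at this
        convert this using 2
        · push_cast; ring
        · rw [map_mul]; ring
  obtain ⟨k, α, hα, α0, hkey⟩ := key s hs
  refine ⟨m + f + f + k, u * a * a * α, SetLike.mul_mem_graded (SetLike.mul_mem_graded
    (SetLike.mul_mem_graded hu' ha.1) ha.1) hα, by simp [u0, α0, X.th_ne ha.1 a0],
    fun D P σ hσ n φ hφ h0 y => ?_⟩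
  by_cases hy : pr X.x.1 ≤ pr y
  swap
  · obtain ⟨k, t, ht, h1, h2⟩ := st_off X hy
    exact ⟨k, t, ht, h1, by rw [map_mul, h2]; simpa using zero_mem _⟩
  obtain ⟨l, hl, l0⟩ := hs' y
  obtain ⟨N, hN⟩ := hkey l hl (fun h => l0 (hy h)) D P (n + m + f + f) (X.θ (u * a * a) • φ)
    fun y hy => by
      obtain ⟨k, s, h1, h2, h4⟩ := X.tr_wt ha D y hy
      have := hσ.trace h₀ X.esys hu (hk _ (X.esys.stb 0)) hφ h0 (k₁ := f + k) (a := s * a) (by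
        rw [← Nat.cast_add, Az_nat, add_comm]; exact SetLike.mul_mem_graded h1 ha.1) h4 h4
      refine ⟨k + k, s * s, SetLike.mul_mem_graded h1 h1, md_mul_not_mem h2 h2, ?_⟩
      rw [smul_smul]
      convert this using 2
      · push_cast; ring
      · simp only [map_mul]; ring
  refine ⟨N, l ^ N, md_pow_mem (hs l hl) N, md_pow_not_mem l0 N, ?_⟩
  rw [smul_smul] at hN
  convert hN using 2
  · push_cast; ring
  · simp only [map_mul, map_pow]; ring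

end Mo

end

end Pool.Agent.Lib.MP_62d77c_ag.R
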