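import Pool.Agent.Lib.MP_62d77c_ag.R.FLoc

/-! The divisor class group modulo `p` of a small affine open set is finite. -/

set_option autoImplicit false
set_option linter.unusedSectionVars false

namespace Pool.Agent.Lib.MP_62d77c_ag.R

noncomputable section

section ess

variable {K : Type} [Field K] {r : ℕ} {t : Fin r → K} {δ : Fin r → Derivation ℤ K K}
  {S : ℕ → AddSubgroup K} {e : ℕ} {c : K} {O : ValuationSubring K}

/-- `z` has a denominator that is invertible in `O` -/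
def FEss (S : ℕ → AddSubgroup K) (O : ValuationSubring K) (z : K) : Prop :=
  ∃ n, ∃ s ∈ S n, s ≠ 0 ∧ s⁻¹ ∈ O ∧ s * z ∈ S n

theorem FFam.ess_fin (h : FFam t δ S e c) (G : Finset K) (hG : ∀ g ∈ G, FEss S O g) :
    ∃ n, ∃ s ∈ S n, s ≠ 0 ∧ s⁻¹ ∈ O ∧ ∀ g ∈ G, s * g ∈ S n := by
  classical
  induction G using Finset.induction_on with
  | empty => exact ⟨0, 1, h.one, one_ne_zero, by simp [one_mem], by simp⟩
  | insert a G _ ih =>
    obtain ⟨n, s, h1, h2, h3, h4⟩ := ih fun g hg => hG g (Finset.mem_insert_of_mem hg)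
    obtain ⟨m, u, k1, k2, k3, k4⟩ := hG a (Finset.mem_insert_self _ _)
    refine ⟨n + m, s * u, h.mul h1 k1, mul_ne_zero h2 k2, mul_inv s u ▸ mul_mem h3 k3, ?_⟩
    rw [Finset.forall_mem_insert, mul_assoc]
    exact ⟨h.mul h1 k4, fun g hg => mul_right_comm s g u ▸ h.mul (h4 g hg) k1⟩

/-- these elements form a subring -/
def FFam.ess (h : FFam t δ S e c) (O : ValuationSubring K) : Subring K where
  carrier := {z | FEss S O z}
  one_mem' := ⟨0, 1, h.one, one_ne_zero, by simp [one_mem], by simpa using h.one⟩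
  zero_mem' := ⟨0, 1, h.one, one_ne_zero, by simp [one_mem], by simp⟩
  mul_mem' := fun {a b} ⟨n, s, h1, h2, h3, h4⟩ ⟨m, u, k1, k2, k3, k4⟩ =>
    ⟨n + m, s * u, h.mul h1 k1, mul_ne_zero h2 k2, mul_inv s u ▸ mul_mem h3 k3,
      mul_mul_mul_comm s a u b ▸ h.mul h4 k4⟩
  add_mem' := fun {a b} ⟨n, s, h1, h2, h3, h4⟩ ⟨m, u, k1, k2, k3, k4⟩ =>
    ⟨n + m, s * u, h.mul h1 k1, mul_ne_zero h2 k2, mul_inv s u ▸ mul_mem h3 k3, by
      convert add_mem (h.mul h4 k1) (h.mul h1 k4) using 1; ring⟩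
  neg_mem' := fun {a} ⟨n, s, h1, h2, h3, h4⟩ => ⟨n, s, h1, h2, h3, mul_neg s a ▸ neg_mem h4⟩

theorem FFam.ess_div (h : FFam t δ S e c) {a z : K} (a0 : a ≠ 0) (ha : a⁻¹ ∈ O) :
    FEss S O a → FEss S O (a * z) → FEss S O z :=
  fun ⟨n, s, h1, h2, h3, h4⟩ ⟨m, u, k1, k2, k3, k4⟩ =>
    ⟨n + m, s * a * u, h.mul h4 k1, mul_ne_zero (mul_ne_zero h2 a0) k2, by
      rw [mul_inv, mul_inv]; exact mul_mem (mul_mem h3 ha) k3, by
      convert h.mul h1 k4 using 1; ring⟩

theorem FFam.ess_der (h : FFam t δ S e c) (hS : ∀ n, ∀ z ∈ S n, z ∈ O) (hc : c⁻¹ ∈ O) (l : Fin r)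
    {z : K} (hz : z ∈ O) : FEss S O z → δ l z ∈ O := fun ⟨n, s, h1, h2, h3, h4⟩ => by
  have := h.c0
  convert mul_mem (mul_mem h3 hc)
    (sub_mem (hS _ _ (h.der l n _ h4)) (mul_mem hz (hS _ _ (h.der l n _ h1)))) using 1
  rw [Derivation.leibniz, smul_eq_mul, smul_eq_mul]
  field_simp
  ring

end ess

theorem fcl_den {L : Type} [Field L] {R : Subring L} (hR : Nrm R) (T : Finset L) :
    ∃ g ∈ R, g ≠ 0 ∧ ∀ z ∈ T, g * z ∈ R := by
  classical
  induction T using Finset.induction_on with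
  | empty => exact ⟨1, one_mem _, one_ne_zero, by simp⟩
  | insert z T _ ih =>
    obtain ⟨g, h1, h2, h3⟩ := ih
    obtain ⟨a, ha, b, hb, b0, rfl⟩ := hR.frac z
    refine ⟨g * b, mul_mem h1 hb, mul_ne_zero h2 b0, ?_⟩
    rw [Finset.forall_mem_insert, mul_assoc, mul_div_cancel₀ _ b0]
    exact ⟨mul_mem h1 ha, fun z hz => mul_right_comm g z b ▸ mul_mem (h3 z hz) hb⟩

theorem cl_mod_p (p : ℕ) [Fact p.Prime] {L : Type} [Field L] [Algebra (ZMod p) L] {R : Subring L}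
    {r : ℕ} (hR : NAff p R r) :
    ∃ g ∈ R, g ≠ 0 ∧ ∃ (γ : Type) (_ : Finite γ) (col : Dvs L → γ), ∀ D E, col D = col E →
      ∃ f : L, f ≠ 0 ∧ ∀ O ∈ Ht1 R, g⁻¹ ∈ O → (p : ℤ) ∣ D O - E O + ord O f := by
  classical
  have hN := hR.nrm
  have := hR.ft
  have : CharP L p := charP_of_injective_algebraMap (algebraMap (ZMod p) L).injective p
  have : IsFractionRing R L := IsFractionRing.of_field R L fun z => by
    obtain ⟨a, ha, b, hb, -, e⟩ := hR.frac z
    exact ⟨⟨a, ha⟩, ⟨b, hb⟩, e⟩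
  have : Algebra.EssFiniteType R L := .of_isLocalization _ (nonZeroDivisors R)
  have : Algebra.EssFiniteType ℤ L := .comp ℤ R L
  have : Algebra.EssFiniteType (ZMod p) L := .of_comp ℤ _ _
  obtain ⟨d, t, δ, ht, sep, h1, hc, hd⟩ := fder_dual p L
  have : Algebra.EssFiniteType (IntermediateField.adjoin (ZMod p) (Set.range t)) L :=
    .of_comp (ZMod p) _ _
  have : FiniteDimensional (IntermediateField.adjoin (ZMod p) (Set.range t)) L :=
    Algebra.finite_of_essFiniteType_of_isAlgebraic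
  obtain ⟨S, e, c, h, hS⟩ := exists_ffam (δ := δ) ht.1 (fun l a => fder_c _ a) fun l i => by
    rw [h1]; split_ifs <;> simp
  obtain ⟨γ, fγ, col, Θ, hΘ, hcol⟩ := fcol Fact.out h hc hd
  obtain ⟨A, hA⟩ := hR.ft.out
  choose n s s1 s2 s3 using h.den
  obtain ⟨g, g1, g0, hg⟩ := fcl_den hN
    (insert c⁻¹ (Finset.univ.image t ∪ A.image fun a : R => (s a)⁻¹))
  choose G hG using fun D : Dvs L => hN.Dv_fg (-D)
  have nz : ∀ D, ∃ x ∈ G D, x ≠ 0 := fun D => by
    by_contra! u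
    obtain ⟨x, -, x0, hx⟩ := hN.Dv_ne (-D)
    rw [← hG, Submodule.span_eq_bot.2 u] at hx
    exact x0 hx
  refine ⟨g, g1, g0, γ, fγ, fun D => col (G D), fun D E u => ?_⟩
  obtain ⟨f, f0, hf⟩ := hcol _ _ (nz D) (nz E) u
  refine ⟨f, f0, fun O hO gO => ?_⟩
  have dO := hN.disc hO
  have inO : ∀ z, g * z ∈ R → z ∈ O := fun z hz => by
    have := mul_mem gO (Ht1.le hO hz)
    rwa [inv_mul_cancel_left₀ g0] at this
  have tO : ∀ i, t i ∈ O := fun i => inO _ (hg _ (by simp))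
  have cO : c⁻¹ ∈ O := inO _ (hg _ (by simp))
  have SO := hS O (fmem_c O) tO
  have eR : ∀ z ∈ R, FEss S O z := fun z hz => by
    have : (⟨z, hz⟩ : R) ∈ Algebra.adjoin ℤ (A : Set R) := hA ▸ Algebra.mem_top
    change ((⟨z, hz⟩ : R) : L) ∈ h.ess O
    generalize (⟨z, hz⟩ : R) = x at this
    induction this using Algebra.adjoin_induction with
    | mem a ha =>
      exact ⟨_, _, s1 a, s2 a, inO _ (hg _ (Finset.mem_insert_of_mem (Finset.mem_union_right _
        (Finset.mem_image_of_mem _ ha)))), s3 a⟩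
    | algebraMap a => simp
    | add _ _ _ _ h1 h2 => exact add_mem h1 h2
    | mul _ _ _ _ h1 h2 => exact mul_mem h1 h2
  have un : ∀ {z : L}, z ≠ 0 → ord O z = 0 → z⁻¹ ∈ O := fun z0 hz =>
    (dO.mem_iff (inv_ne_zero z0)).2 (by rw [dO.ord_inv z0, hz, neg_zero])
  have δO : ∀ l, ∀ z ∈ O, δ l z ∈ O := fun l z hz => by
    obtain ⟨a, a1, a2, a3⟩ := (hN.mem_O hO).1 hz
    have a0 : a ≠ 0 := fun u => by simp [u] at a2
    exact h.ess_der SO cO l hz
      (h.ess_div a0 (un a0 ((dO.eq_one_iff a0).1 a2)) (eR a a1) (eR _ a3))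
  have key : ∀ D : Dvs L, ∃ z, z ≠ 0 ∧ ord O z = -D O ∧ ∀ l, δ l z / z - Θ (G D) l ∈ O := fun D => by
    obtain ⟨z, z1, z0, z2⟩ := hN.exists_gen D hO
    obtain ⟨w, w1, w0, w2⟩ := hN.exists_gen (-D) hO
    obtain ⟨m, a, a1, a0, a2, a3⟩ := h.ess_fin (O := O) ((G D).image (z * ·)) (by
      rw [Finset.forall_mem_image]
      exact fun x hx => eR _ (hN.mul_mem_of_neg z1 (hG D ▸ Submodule.subset_span hx)))
    rw [Finset.forall_mem_image] at a3
    have o : ord O (a * z) = -D O := by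
      have h2 := (dO.mem_iff a0).1 (SO _ _ a1)
      have h3 := (dO.mem_iff (inv_ne_zero a0)).1 a2
      rw [dO.ord_inv a0] at h3
      rw [dO.ord_mul a0 z0, z2]; omega
    have y0 := mul_ne_zero a0 z0
    refine ⟨a * z, y0, o, fun l => ?_⟩
    have h2 := hΘ _ (nz D) l m (a * z) fun x hx => mul_assoc a z x ▸ a3 hx
    generalize a * z = y at h2 o y0
    have h3 : ∀ x ∈ Submodule.span R (G D : Set L), (δ l y - Θ (G D) l * y) * x ∈ O := by
      intro x hx
      induction hx using Submodule.span_induction with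
      | mem x hx =>
        have := mul_mem cO (SO _ _ (h2 x hx))
        rwa [mul_assoc, inv_mul_cancel_left₀ h.c0] at this
      | zero => simp [zero_mem]
      | add _ _ _ _ h1 h2 => rw [mul_add]; exact add_mem h1 h2
      | smul b x _ h1 =>
        rw [Subring.smul_def, smul_eq_mul, mul_left_comm]
        exact mul_mem (Ht1.le hO b.2) h1
    convert mul_mem (h3 w (hG D ▸ w1)) (un (mul_ne_zero y0 w0) (by
      rw [dO.ord_mul y0 w0, o, w2]; simp)) using 1
    field_simp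
  obtain ⟨z, z0, z1, z2⟩ := key D
  obtain ⟨w, w0, w1, w2⟩ := key E
  have := fdvd_ord ht h1 dO tO δO (h := w * f / z) (div_ne_zero (mul_ne_zero w0 f0) z0) fun l => by
    convert sub_mem (w2 l) (z2 l) using 1
    rw [Derivation.leibniz_div, Derivation.leibniz, hf]
    simp only [smul_eq_mul]
    field_simp
    ring
  rw [dO.ord_div (mul_ne_zero w0 f0) z0, dO.ord_mul w0 f0, z1, w1] at this
  convert this using 1
  ring

end

end Pool.Agent.Lib.MP_62d77c_ag.R
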