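import Pool.Agent.Lib.MP_62d77c_ag.R.K1a
import Pool.Agent.Lib.MP_62d77c_ag.R.GmB
import Pool.Agent.Lib.MP_62d77c_ag.R.Df

/-! Intersection numbers are integers. -/

set_option autoImplicit false
set_option linter.unusedSectionVars false

namespace Pool.Agent.Lib.MP_62d77c_ag.R

open Filter Polynomial Submodule

noncomputable section

theorem f_int_zero {P : ℚ[X]} (h : ∀ᶠ n : ℕ in atTop, ∃ z : ℤ, P.eval (n : ℚ) = z) :
    ∃ z : ℤ, P.coeff 0 = z := by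
  classical
  obtain ⟨n₀, h0⟩ := eventually_atTop.1 h
  let d : ℕ := ∏ i ∈ Finset.range (P.natDegree + 1), (P.coeff i).den
  have d0 : 0 < d := Finset.prod_pos fun i _ => (P.coeff i).den_pos
  obtain ⟨z, hz⟩ := h0 (d * n₀) (Nat.le_mul_of_pos_left _ d0)
  rw [eval_eq_sum_range, Finset.sum_range_succ', pow_zero, mul_one] at hz
  have : ∃ w : ℤ, ∑ i ∈ Finset.range P.natDegree,
      P.coeff (i + 1) * ((d * n₀ : ℕ) : ℚ) ^ (i + 1) = w := by
    refine Finset.sum_induction _ (fun q : ℚ => ∃ z : ℤ, q = z) ?_ ⟨0, by simp⟩ fun i hi => ?_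
    · rintro _ _ ⟨a, rfl⟩ ⟨b, rfl⟩; exact ⟨a + b, by push_cast; rfl⟩
    · obtain ⟨e, he⟩ : (P.coeff (i + 1)).den ∣ d := Finset.dvd_prod_of_mem _
        (Finset.mem_range.2 (Nat.succ_lt_succ (Finset.mem_range.1 hi)))
      refine ⟨(P.coeff (i + 1)).num * (e * n₀) * (d * n₀ : ℕ) ^ i, ?_⟩
      have h1 : ((d * n₀ : ℕ) : ℚ) = (P.coeff (i + 1)).den * (e * n₀) := by
        rw [he]; push_cast; ring
      rw [pow_succ', ← mul_assoc]
      nth_rewrite 1 [h1]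
      rw [← mul_assoc, Rat.mul_den_eq_num]
      push_cast; ring
  obtain ⟨w, hw⟩ := this
  exact ⟨z - w, by rw [Int.cast_sub, ← hz, hw, add_sub_cancel_left]⟩

variable {A : Type} [CommRing A] [IsDomain A] {𝒜 : ℕ → AddSubgroup A} [GradedRing 𝒜]
  [hG : Fact (Gen 𝒜)] {p : ℕ} [Fact p.Prime]

theorem f_T_int {N N' : GM 𝒜} (hF : N.Fb p ∨ N'.Fb p) : ∃ z : ℤ, (T p N N').coeff 0 = z := by
  rw [T_def, Res.TT, finsetSum_coeff]
  refine Finset.sum_induction _ (fun q : ℚ => ∃ z : ℤ, q = z) ?_ ⟨0, by simp⟩ fun q _ => ?_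
  · rintro _ _ ⟨a, rfl⟩ ⟨b, rfl⟩; exact ⟨a + b, by push_cast; rfl⟩
  · obtain ⟨z, hz⟩ := f_int_zero ((hp_spec' (tor_fb (rsl N) hF q)).mono fun n hn =>
      ⟨_, hn.trans (Int.cast_natCast _).symm⟩)
    refine ⟨(-1) ^ q * z, ?_⟩
    rw [mul_coeff_zero, hz]
    rcases Nat.even_or_odd q with o | o <;> simp [o.neg_one_pow]

theorem f_bn_int (W : Pt 𝒜) (V : Vp 𝒜 p) : ∃ z : ℤ, Bn p W V.1 = z :=
  f_T_int (Or.inr (fb_cy V.2))

end

end Pool.Agent.Lib.MP_62d77c_ag.R
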