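import Pool.Agent.Lib.MP_62d77c_ag.R.F0
import Pool.Agent.Lib.MP_62d77c_ag.R.FInt
import Pool.Agent.Lib.MP_62d77c_ag.R.FCl
import Pool.Agent.Lib.MP_62d77c_ag.R.K5

/-! Finite rank of the pairing on surfaces. -/

set_option autoImplicit false
set_option linter.unusedSectionVars false

namespace Pool.Agent.Lib.MP_62d77c_ag.R

open Filter Polynomial Submodule

noncomputable section

variable {A : Type} [CommRing A] [IsDomain A] {𝒜 : ℕ → AddSubgroup A} [GradedRing 𝒜]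
  [hG : Fact (Gen 𝒜)] {p : ℕ} [Fact p.Prime]

theorem fin_rank (h : Hyp 𝒜) : ∃ s : Finset (Vp 𝒜 p), (∀ W ∈ s, dm W = 2) ∧
    ∀ V : Vp 𝒜 p →₀ ℤ, Surf V → ∃ n : ℕ, 0 < n ∧ ∃ V' : Vp 𝒜 p →₀ ℤ, V'.support ⊆ s ∧
      Kr (n • V - V') :=
  fin_rank_of h
    (fun W V _ _ => f_bn_int W.1 V)
    (fun j _ _ hz hE => kr_div h j hz hE) fun _ _ _ hR => cl_mod_p p hR

end

end Pool.Agent.Lib.MP_62d77c_ag.R
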