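import Mathlib

/-! A group of integer vectors that is finite modulo `p` has finite rank. -/

set_option autoImplicit false

namespace Pool.Agent.Lib.MP_62d77c_ag.R

open Matrix

section
variable {Γ I : Type} [AddCommGroup Γ]

/-- a minor of the family `β` -/
def frkD (β : Γ →+ (I → ℤ)) {N : ℕ} (v : Fin N → Γ) (J : Fin N → I) : ℤ :=
  (Matrix.of fun r c => β (v r) (J c)).det

theorem frk_drop (β : Γ →+ (I → ℤ)) {N : ℕ} (v : Fin N → Γ) (J : Fin N → I) (d : Fin N → ℤ)
    (q : ℤ) (w : Γ) (h : β (∑ i, d i • v i) = q • β w) (k : Fin N) :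
    q * frkD β (Function.update v k w) J = d k * frkD β v J := by
  classical
  let M : Matrix (Fin N) (Fin N) ℤ := Matrix.of fun r c => β (v r) (J c)
  have e1 : (Matrix.of fun r c => β (Function.update v k w r) (J c)) =
      M.updateRow k fun c => β w (J c) := by
    ext r c
    by_cases hr : r = k
    · subst hr; simp
    · simp [M, Function.update_of_ne hr, updateRow_ne hr]
  have e2 : (q • fun c => β w (J c)) = ∑ i, d i • M i := by
    funext c
    have := congrFun h (J c)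
    simp only [map_sum, map_zsmul, Finset.sum_apply, Pi.smul_apply] at this
    simp only [Pi.smul_apply, Finset.sum_apply]
    exact this.symm
  rw [frkD, e1, ← det_updateRow_smul, e2, det_updateRow_sum, smul_eq_mul]
  rfl

theorem frk_bound (β : Γ →+ (I → ℤ)) {p : ℕ} {δ : Type} [Finite δ] (c : Γ → δ)
    (hc : ∀ x y, c x = c y → ∃ w, β (x - y) = (p : ℤ) • β w) {N : ℕ} (hN : Nat.card δ < p ^ N)
    (J : Fin N → I) (v : Fin N → Γ) : frkD β v J = 0 := by
  classical
  by_contra h0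
  have hex : ∃ m : ℕ, ∃ v : Fin N → Γ, frkD β v J ≠ 0 ∧ (frkD β v J).natAbs = m := ⟨_, v, h0, rfl⟩
  obtain ⟨u, hu, hm⟩ := Nat.find_spec hex
  have := Fintype.ofFinite δ
  obtain ⟨a, b, hab, e⟩ := Fintype.exists_ne_map_eq_of_card_lt
    (fun a : Fin N → Fin p => c (∑ i, ((a i : ℕ) : ℤ) • u i))
    (by simpa [Nat.card_eq_fintype_card] using hN)
  obtain ⟨w, hw⟩ := hc _ _ e
  obtain ⟨k, hk⟩ := Function.ne_iff.1 hab
  rw [← Finset.sum_sub_distrib] at hw
  simp only [← sub_smul] at hw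
  have key := frk_drop β u J _ _ w hw k
  have h1 : ((a k : ℕ) : ℤ) - ((b k : ℕ) : ℤ) ≠ 0 := fun x => hk (Fin.ext (by omega))
  have h2 : (((a k : ℕ) : ℤ) - ((b k : ℕ) : ℤ)).natAbs < p := by
    have := (a k).2; have := (b k).2; omega
  have h3 : frkD β (Function.update u k w) J ≠ 0 := fun x => by
    rw [x, mul_zero] at key
    exact mul_ne_zero h1 hu key.symm
  have h4 := Nat.find_min' hex ⟨_, h3, rfl⟩
  rw [← hm] at h4
  have h5 := congrArg Int.natAbs key
  rw [Int.natAbs_mul, Int.natAbs_mul, Int.natAbs_natCast] at h5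
  have h6 := Int.natAbs_pos.2 hu
  nlinarith

theorem frk_span (β : Γ →+ (I → ℤ)) (K : ℕ)
    (hK : ∀ N, K ≤ N → ∀ (v : Fin N → Γ) (J : Fin N → I), frkD β v J = 0) :
    ∃ s : Finset Γ, ∀ x, ∃ n : ℕ, 0 < n ∧ ∃ x' ∈ AddSubgroup.closure (s : Set Γ),
      β (n • x - x') = 0 := by
  classical
  let P : ℕ → Prop := fun N => ∃ (v : Fin N → Γ) (J : Fin N → I), frkD β v J ≠ 0
  have P0 : P 0 := ⟨Fin.elim0, Fin.elim0, by simp [frkD]⟩
  have hs : P (Nat.findGreatest P K) := Nat.findGreatest_spec (Nat.zero_le K) P0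
  have hn : ¬P (Nat.findGreatest P K + 1) := by
    rcases le_or_gt (Nat.findGreatest P K + 1) K with h | h
    · exact Nat.findGreatest_is_greatest (Nat.lt_succ_self _) h
    · rintro ⟨v, J, h1⟩; exact h1 (hK _ h.le v J)
  generalize Nat.findGreatest P K = N at hs hn
  obtain ⟨v, J, hd⟩ := hs
  refine ⟨Finset.univ.image v, fun x => ?_⟩
  let a : Fin N → ℤ := fun r => (-1) ^ (r.succ : ℕ) *
    frkD β (fun s => (Fin.cons x v : Fin (N + 1) → Γ) (r.succ.succAbove s)) J
  have key : ∀ i, frkD β v J * β x i + ∑ r, a r * β (v r) i = 0 := fun i => by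
    have h0 : frkD β (Fin.cons x v : Fin (N + 1) → Γ) (Fin.cons i J : Fin (N + 1) → I) = 0 :=
      not_not.1 fun h => hn ⟨_, _, h⟩
    rw [frkD, det_succ_column_zero, Fin.sum_univ_succ] at h0
    rw [← h0]
    congr 1
    · simp [frkD, mul_comm, submatrix]
    · refine Finset.sum_congr rfl fun r _ => ?_
      simp only [a, frkD, of_apply, Fin.cons_succ, Fin.cons_zero, submatrix]
      ring
  refine ⟨(frkD β v J).natAbs, Int.natAbs_pos.2 hd, -((frkD β v J).sign • ∑ r, a r • v r),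
    neg_mem (zsmul_mem (sum_mem fun r _ => zsmul_mem (AddSubgroup.subset_closure (by simp)) _) _),
    funext fun i => ?_⟩
  have h1 : (((frkD β v J).natAbs : ℕ) : ℤ) = (frkD β v J).sign * frkD β v J := by
    rw [Int.sign_mul_self_eq_natAbs]
  rw [← natCast_zsmul]
  simp only [sub_neg_eq_add, map_add, map_zsmul, map_sum, Pi.add_apply, Pi.smul_apply,
    Finset.sum_apply, smul_eq_mul, Pi.zero_apply]
  rw [h1, mul_assoc, ← mul_add, key i, mul_zero]

theorem frk_int (β : Γ →+ (I → ℤ)) {p : ℕ} (hp : 1 < p) {γ : Type} [Finite γ] (col : Γ → γ)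
    (B : Set Γ) (hB : B.Finite) (h : ∀ x y, col x = col y →
      ∃ z, ∃ b ∈ AddSubgroup.closure B, β (x - y) = (p : ℤ) • β z + β b) :
    ∃ s : Finset Γ, ∀ x, ∃ n : ℕ, 0 < n ∧ ∃ x' ∈ AddSubgroup.closure (s : Set Γ),
      β (n • x - x') = 0 := by
  classical
  let H : AddSubgroup Γ :=
    { carrier := {x | ∃ w, β x = (p : ℤ) • β w}
      zero_mem' := ⟨0, by simp⟩
      add_mem' := by
        rintro x y ⟨a, ha⟩ ⟨b, hb⟩; exact ⟨a + b, by rw [map_add, map_add, ha, hb, smul_add]⟩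
      neg_mem' := by rintro x ⟨a, ha⟩; exact ⟨-a, by rw [map_neg, map_neg, ha, smul_neg]⟩ }
  have : Nonempty Γ := ⟨0⟩
  let π := QuotientAddGroup.mk' H
  have hfg : AddGroup.FG (Γ ⧸ H) := by
    rw [AddGroup.fg_iff]
    refine ⟨π '' (B ∪ Set.range (Function.invFun col)), eq_top_iff.2 fun q _ => ?_,
      (hB.union (Set.finite_range _)).image _⟩
    obtain ⟨x, rfl⟩ := QuotientAddGroup.mk'_surjective H q
    obtain ⟨z, b, hb, e⟩ := h x (Function.invFun col (col x))
      (Function.invFun_eq ⟨x, rfl⟩).symm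
    have e1 : π (x - Function.invFun col (col x) - b) = 0 :=
      (QuotientAddGroup.eq_zero_iff _).2 ⟨z, by rw [map_sub, e, add_sub_cancel_right]⟩
    rw [map_sub, map_sub, sub_sub, sub_eq_zero] at e1
    change π x ∈ _
    rw [e1, ← AddMonoidHom.map_closure]
    exact add_mem ⟨_, AddSubgroup.subset_closure (Or.inr ⟨_, rfl⟩), rfl⟩
      ⟨b, AddSubgroup.closure_mono Set.subset_union_left hb, rfl⟩
  have ht : IsAddTorsion (Γ ⧸ H) := fun q => by
    obtain ⟨x, rfl⟩ := QuotientAddGroup.mk'_surjective H q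
    refine isOfFinAddOrder_iff_nsmul_eq_zero.2 ⟨p, by omega, ?_⟩
    rw [← map_nsmul]
    exact (QuotientAddGroup.eq_zero_iff _).2 ⟨x, by rw [map_nsmul, natCast_zsmul]⟩
  have : Finite (Γ ⧸ H) := AddCommGroup.finite_of_fg_isAddTorsion _ ht
  refine frk_span β (Nat.card (Γ ⧸ H)) fun N hN v J => frk_bound β π (fun x y e => ?_)
    (lt_of_le_of_lt hN (Nat.lt_pow_self hp)) J v
  exact (QuotientAddGroup.eq_zero_iff (N := H) _).1 (by
    change π (x - y) = 0
    rw [map_sub, e, sub_self])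

theorem frk_rat (β : Γ →+ (I → ℚ)) (hβ : ∀ x i, ∃ z : ℤ, β x i = z) {p : ℕ} (hp : 1 < p) {γ : Type}
    [Finite γ] (col : Γ → γ) (B : Set Γ) (hB : B.Finite) (h : ∀ x y, col x = col y →
      ∃ z, ∃ b ∈ AddSubgroup.closure B, β (x - y) = (p : ℤ) • β z + β b) :
    ∃ s : Finset Γ, ∀ x, ∃ n : ℕ, 0 < n ∧ ∃ x' ∈ AddSubgroup.closure (s : Set Γ),
      β (n • x - x') = 0 := by
  choose f hf using hβ
  let β' : Γ →+ (I → ℤ) := AddMonoidHom.mk' f fun x y => funext fun i => by
    have := hf (x + y) i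
    rw [map_add, Pi.add_apply, hf, hf] at this
    exact_mod_cast this.symm
  obtain ⟨s, hs⟩ := frk_int β' hp col B hB fun x y e => by
    obtain ⟨z, b, hb, e1⟩ := h x y e
    refine ⟨z, b, hb, funext fun i => ?_⟩
    have := congrFun e1 i
    rw [Pi.add_apply, Pi.smul_apply, hf, hf, hf, zsmul_eq_mul] at this
    change f (x - y) i = (p : ℤ) * f z i + f b i
    exact_mod_cast this
  refine ⟨s, fun x => ?_⟩
  obtain ⟨n, hn, x', hx, e⟩ := hs x
  refine ⟨n, hn, x', hx, funext fun i => ?_⟩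
  rw [hf]
  have : f (n • x - x') i = 0 := congrFun e i
  rw [this]; rfl

end

end Pool.Agent.Lib.MP_62d77c_ag.R
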