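import Pool.Agent.Lib.MP_62d77c_ag.R.N
import Pool.Agent.Lib.MP_62d77c_ag.R.Dm
import Pool.Agent.Lib.MP_62d77c_ag.R.GmA
import Pool.Agent.Lib.MP_62d77c_ag.R.FRk

/-! Finite rank of the pairing on surfaces, from three inputs. -/

set_option autoImplicit false
set_option linter.unusedSectionVars false

namespace Pool.Agent.Lib.MP_62d77c_ag.R

open Filter Polynomial Submodule

noncomputable section

variable {A : Type} [CommRing A] [IsDomain A] {𝒜 : ℕ → AddSubgroup A} [GradedRing 𝒜]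
  [hG : Fact (Gen 𝒜)] {p : ℕ} [Fact p.Prime]

/-- push forward as a homomorphism -/
def fPsh (X : Mo 𝒜 p) : Dvs X.L →+ (Vp 𝒜 p →₀ ℤ) :=
  AddMonoidHom.mk' X.psh fun D D' => Finsupp.sum_add_index'
    (fun O => by split_ifs <;> simp) fun O a b => by
      split_ifs
      · rw [add_mul, Finsupp.single_add]
      · simp

/-- the pairing with `W` as a homomorphism -/
def fLam (W : Pt 𝒜) : (Vp 𝒜 p →₀ ℤ) →+ ℚ :=
  AddMonoidHom.mk' (lam W) fun D D' => Finsupp.sum_add_index'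
    (fun O => by simp) fun O a b => by push_cast; ring

theorem f_psh_single (X : Mo 𝒜 p) {O : ValuationSubring X.L} (h : O ∈ X.PD) :
    fPsh X (Finsupp.single O 1) = X.fdeg O • Finsupp.single (X.cen O) 1 := by
  change X.psh _ = _
  rw [Mo.psh, Finsupp.sum_single_index (by simp), if_pos h]
  simp

theorem f_psh_zero (X : Mo 𝒜 p) {D : Dvs X.L} (h : ∀ O ∈ X.PD, D O = 0) : fPsh X D = 0 := by
  refine Finset.sum_eq_zero fun O hO => ?_
  exact if_neg fun e => Finsupp.mem_support_iff.1 hO (h O e)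

theorem f_surf_psh (h : Hyp 𝒜) (j : Comp 𝒜 p) (D : Dvs (Xc j).L) : Surf (fPsh (Xc j) D) := by
  classical
  intro W hW
  obtain ⟨O, -, h1⟩ := Finset.mem_biUnion.1 (Finsupp.support_sum hW)
  split_ifs at h1 with hO
  · obtain rfl := Finset.mem_singleton.1 (Finsupp.support_single_subset h1)
    have h2 := (pd_cen _ hO).2
    have h3 : dm (Xc j).x = 3 := (comp_iff h j.1).2 j.2
    omega
  · simp at h1

theorem f_surf_add {Z Z' : Vp 𝒜 p →₀ ℤ} (h : Surf Z) (h' : Surf Z') : Surf (Z + Z') := by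
  classical
  intro W hW
  rcases Finset.mem_union.1 (Finsupp.support_add hW) with e | e
  exacts [h W e, h' W e]

theorem f_surf_smul {Z : Vp 𝒜 p →₀ ℤ} (h : Surf Z) (c : ℤ) : Surf (c • Z) :=
  fun W hW => h W (Finsupp.support_smul hW)

theorem f_kr_add {Z Z' : Vp 𝒜 p →₀ ℤ} (h : Kr Z) (h' : Kr Z') : Kr (Z + Z') :=
  ⟨f_surf_add h.1 h'.1, fun W hW => ((fLam W.1).map_add Z Z').trans (by
    change lam W.1 Z + lam W.1 Z' = 0
    rw [h.2 W hW, h'.2 W hW, add_zero])⟩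

theorem f_kr_smul {Z : Vp 𝒜 p →₀ ℤ} (h : Kr Z) (c : ℤ) : Kr (c • Z) :=
  ⟨f_surf_smul h.1 c, fun W hW => ((fLam W.1).map_zsmul c Z).trans (by
    change c • lam W.1 Z = 0
    rw [h.2 W hW, smul_zero])⟩

theorem f_dimLt_cy (W : Vp 𝒜 p) : (cy 𝒜 (pr W.1)).DimLt p (dm W + 1) := fun y hy =>
  (zeroAt_cy (pr_hom _) y.1).2 fun e => by have := dm_anti e; omega

/-- the pairing of divisors on a component with all surfaces -/
def fBeta (j : Comp 𝒜 p) : Dvs (Xc j).L →+ ({W : Vp 𝒜 p // dm W = 2} → ℚ) :=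
  AddMonoidHom.pi fun W => (fLam W.1.1).comp (fPsh (Xc j))

theorem f_comp (h : Hyp 𝒜) (j : Comp 𝒜 p)
    (hI : ∀ W V : Vp 𝒜 p, dm W = 2 → dm V = 2 → ∃ z : ℤ, Bn p W.1 V.1 = z)
    (hK : ∀ (z : (Xc j).L) (E : Dvs (Xc j).L), z ≠ 0 → (Xc j).IsDiv z 0 E → Kr ((Xc j).psh E))
    (hC : ∀ (R : Subring (Xc j).L) (r : ℕ), NAff p R r → ∃ g ∈ R, g ≠ 0 ∧
      ∃ (γ : Type) (_ : Finite γ) (col : Dvs (Xc j).L → γ), ∀ D E, col D = col E →
        ∃ f : (Xc j).L, f ≠ 0 ∧ ∀ O ∈ Ht1 R, g⁻¹ ∈ O → (p : ℤ) ∣ D O - E O + ord O f) :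
    ∃ s : Finset (Dvs (Xc j).L), ∀ x, ∃ n : ℕ, 0 < n ∧
      ∃ x' ∈ AddSubgroup.closure (s : Set (Dvs (Xc j).L)), fBeta j (n • x - x') = 0 := by
  classical
  obtain ⟨hl, h0⟩ := ell_spec (Xc j).x.1
  obtain ⟨g, -, g0, γ, _, col, hcol⟩ := hC _ _ ((Xc j).naff_ch hl h0)
  obtain ⟨G, hG1⟩ := exists_isDiv (Xc j) g0 0
  have hfin := (pd_fin (Xc j) hl ((Xc j).th_ne hl h0)).union G.support.finite_toSet
  refine frk_rat (fBeta j) (fun D W => ?_) (Fact.out : p.Prime).one_lt col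
    ((fun O => Finsupp.single O (1 : ℤ)) '' _) (hfin.image _) fun D E e => ?_
  · have hs := f_surf_psh h j D
    change ∃ z : ℤ, lam W.1.1 (fPsh (Xc j) D) = z
    refine Finset.sum_induction _ (fun q : ℚ => ∃ z : ℤ, q = z) ?_ ⟨0, by simp⟩ fun V hV => ?_
    · rintro _ _ ⟨a, rfl⟩ ⟨b, rfl⟩; exact ⟨a + b, by push_cast; rfl⟩
    · obtain ⟨z, hz⟩ := hI W.1 V W.2 (hs V hV)
      exact ⟨fPsh (Xc j) D V * z, by simp only [hz]; push_cast; rfl⟩
  · obtain ⟨f, f0, hf⟩ := hcol D E e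
    obtain ⟨F, hF⟩ := exists_isDiv (Xc j) f0 0
    let Q : Dvs (Xc j).L := D - E + F
    let bad : ValuationSubring (Xc j).L → Prop := fun O => O ∈ hfin.toFinset
    refine ⟨(Q.filter fun O => ¬bad O).mapRange (· / (p : ℤ)) (by simp), Q.filter bad, ?_, ?_⟩
    · rw [← Finsupp.sum_single (Q.filter bad)]
      refine sum_mem fun O hO => ?_
      rw [show Finsupp.single O (Q.filter bad O) = Q.filter bad O • Finsupp.single O (1 : ℤ) by
        simp]
      rw [Finsupp.support_filter] at hO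
      exact zsmul_mem (AddSubgroup.subset_closure (Set.mem_image_of_mem _
        (hfin.mem_toFinset.1 (Finset.mem_filter.1 hO).2))) _
    · have e1 : fBeta j F = 0 := funext fun W => (hK f F f0 hF).2 W.1 W.2
      have e2 : fPsh (Xc j) (Q - ((p : ℤ) • (Q.filter fun O => ¬bad O).mapRange (· / (p : ℤ))
          (by simp) + Q.filter bad)) = 0 := by
        refine f_psh_zero _ fun O hO => ?_
        simp only [Finsupp.sub_apply, Finsupp.add_apply, Finsupp.smul_apply,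
          Finsupp.mapRange_apply, Finsupp.filter_apply, smul_eq_mul]
        by_cases hb : bad O
        · simp [hb]
        · have hb' := fun x => hb (hfin.mem_toFinset.2 x)
          have d := pd_disc _ hO
          have h1 : O ∈ Ht1 ((Xc j).ch (ell (Xc j).x.1)) :=
            (Mo.mem_ht1 hl h0).2 ⟨hO, fun x => hb' (Or.inl ⟨hO, x⟩)⟩
          have h2 : ord O g = 0 := by
            have := hG1.2 O hO
            rw [pow_zero, div_one] at this
            rw [← this]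
            exact Finsupp.notMem_support_iff.1 fun x => hb' (Or.inr x)
          have h3 := hf O h1 ((d.mem_iff (inv_ne_zero g0)).2 (by rw [d.ord_inv g0, h2]; simp))
          have h4 := hF.2 O hO
          rw [pow_zero, div_one] at h4
          have h5 : (p : ℤ) ∣ Q O := by
            simpa only [Q, Finsupp.sub_apply, Finsupp.add_apply, h4] using h3
          rw [if_pos hb, if_neg hb, add_zero, Int.mul_ediv_cancel' h5, sub_self]
      have e3 : fBeta j (Q - ((p : ℤ) • (Q.filter fun O => ¬bad O).mapRange (· / (p : ℤ))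
          (by simp) + Q.filter bad)) = 0 := funext fun W => by
        change fLam W.1.1 (fPsh (Xc j) _) = 0
        rw [e2, map_zero]
      rw [map_sub, sub_eq_zero, map_add, map_add, e1, add_zero, map_zsmul] at e3
      exact e3

theorem fin_rank_of (h : Hyp 𝒜)
    (hI : ∀ W V : Vp 𝒜 p, dm W = 2 → dm V = 2 → ∃ z : ℤ, Bn p W.1 V.1 = z)
    (hK : ∀ (j : Comp 𝒜 p) (z : (Xc j).L) (E : Dvs (Xc j).L), z ≠ 0 → (Xc j).IsDiv z 0 E →
      Kr ((Xc j).psh E))
    (hC : ∀ (j : Comp 𝒜 p) (R : Subring (Xc j).L) (r : ℕ), NAff p R r → ∃ g ∈ R, g ≠ 0 ∧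
      ∃ (γ : Type) (_ : Finite γ) (col : Dvs (Xc j).L → γ), ∀ D E, col D = col E →
        ∃ f : (Xc j).L, f ≠ 0 ∧ ∀ O ∈ Ht1 R, g⁻¹ ∈ O → (p : ℤ) ∣ D O - E O + ord O f) :
    ∃ s : Finset (Vp 𝒜 p), (∀ W ∈ s, dm W = 2) ∧
      ∀ V : Vp 𝒜 p →₀ ℤ, Surf V → ∃ n : ℕ, 0 < n ∧ ∃ V' : Vp 𝒜 p →₀ ℤ, V'.support ⊆ s ∧
        Kr (n • V - V') := by
  classical
  choose t ht using fun j => f_comp h j hI (hK j) (hC j)
  let s : Finset (Vp 𝒜 p) :=
    Finset.univ.biUnion fun j => (t j).biUnion fun D => (fPsh (Xc j) D).support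
  let P : (Vp 𝒜 p →₀ ℤ) → Prop := fun V => ∃ n : ℕ, 0 < n ∧ ∃ V' : Vp 𝒜 p →₀ ℤ,
    V'.support ⊆ s ∧ Kr (n • V - V')
  have hadd : ∀ a b, P a → P b → P (a + b) := by
    rintro a b ⟨n, hn, a', ha, ka⟩ ⟨m, hm, b', hb, kb⟩
    refine ⟨n * m, Nat.mul_pos hn hm, m • a' + n • b', Finsupp.support_add.trans
      (Finset.union_subset (Finsupp.support_smul.trans ha) (Finsupp.support_smul.trans hb)), ?_⟩
    have := f_kr_add (f_kr_smul ka m) (f_kr_smul kb n)
    convert this using 1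
    simp only [natCast_zsmul]
    module
  have hsm : ∀ (c : ℤ) a, P a → P (c • a) := by
    rintro c a ⟨n, hn, a', ha, ka⟩
    refine ⟨n, hn, c • a', Finsupp.support_smul.trans ha, ?_⟩
    convert f_kr_smul ka c using 1
    module
  have hone : ∀ W : Vp 𝒜 p, dm W = 2 → P (Finsupp.single W 1) := by
    intro W hW
    obtain ⟨j, hj⟩ := exists_comp W
    have h3 : dm (Xc j).x = 3 := (comp_iff h j.1).2 j.2
    obtain ⟨O, hO, rfl⟩ := exists_pd (Xc j) (y := W) hj (by omega)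
    obtain ⟨n, hn, x', hx, e⟩ := ht j (Finsupp.single O 1)
    have e1 : (n * (Xc j).fdeg O) • Finsupp.single ((Xc j).cen O) (1 : ℤ) - fPsh (Xc j) x' =
        fPsh (Xc j) (n • Finsupp.single O 1 - x') := by
      rw [map_sub, map_nsmul, f_psh_single _ hO, mul_smul]
    refine ⟨_, Nat.mul_pos hn (fdeg_pos _ hO), fPsh (Xc j) x', ?_,
      e1 ▸ ⟨f_surf_psh h j _, fun W' hW' => congrFun e ⟨W', hW'⟩⟩⟩
    clear e e1
    induction hx using AddSubgroup.closure_induction with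
    | mem D hD =>
      exact fun y hy => Finset.mem_biUnion.2
        ⟨j, Finset.mem_univ _, Finset.mem_biUnion.2 ⟨D, hD, hy⟩⟩
    | zero => simp
    | add a b _ _ h1 h2 =>
      rw [map_add]; exact Finsupp.support_add.trans (Finset.union_subset h1 h2)
    | neg a _ h1 => rwa [map_neg, Finsupp.support_neg]
  refine ⟨s, fun W hW => ?_, fun V hV => ?_⟩
  · obtain ⟨j, -, h1⟩ := Finset.mem_biUnion.1 hW
    obtain ⟨D, -, h2⟩ := Finset.mem_biUnion.1 h1
    exact f_surf_psh h j D W h2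
  · change P V
    rw [← Finsupp.sum_single V]
    refine Finset.sum_induction _ P hadd ⟨1, one_pos, 0, by simp, ?_⟩ fun W hW => ?_
    · rw [smul_zero, sub_zero]
      exact ⟨fun W hW => by simp at hW, fun W _ => (fLam (p := p) W.1).map_zero⟩
    · rw [show Finsupp.single W (V W) = V W • Finsupp.single W (1 : ℤ) by simp]
      exact hsm _ _ (hone W (hV W hW))

end

end Pool.Agent.Lib.MP_62d77c_ag.R
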