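import Pool.Agent.Lib.MP_62d77c_ag.R.FKos

/-! Divisorial modules over the normalisation of a regular ring: local trace ideals. -/

set_option autoImplicit false
set_option linter.unusedSectionVars false
set_option linter.overlappingInstances false

namespace Pool.Agent.Lib.MP_62d77c_ag.R

open IsLocalRing RingTheory.Sequence Pool.Agent.Lib.MP_a966df_ag Submodule Module
open scoped Pointwise

noncomputable section

variable {Q F L ι : Type} [CommRing Q] [IsDomain Q] [Field F] [Algebra Q F] [IsFractionRing Q F]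
  [Field L] [Algebra F L] [Algebra Q L] [IsScalarTower Q F L] [FiniteDimensional F L]
  [Algebra.IsSeparable F L] [Fintype ι] [DecidableEq ι]

/-- the basis dual for the trace form -/
def fdual (b : Basis ι F L) : Basis ι F L :=
  (Algebra.traceForm F L).dualBasis (traceForm_nondegenerate F L) b

theorem fdual_repr (b : Basis ι F L) (y : L) (i : ι) :
    (fdual b).repr y i = Algebra.trace F L (y * b i) :=
  LinearMap.BilinForm.dualBasis_repr_apply _ b y i

theorem fdual_sum (b : Basis ι F L) : ∑ i, fdual b i * b i = 1 := by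
  refine sub_eq_zero.1 ((traceForm_nondegenerate F L).1 _ fun y => ?_)
  rw [Algebra.traceForm_apply, sub_mul, one_mul, map_sub, Algebra.trace_eq_matrix_trace (fdual b) y,
    Finset.sum_mul, map_sum, Matrix.trace, sub_eq_zero]
  refine Finset.sum_congr rfl fun i _ => ?_
  rw [Matrix.diag_apply, Algebra.leftMulMatrix_eq_repr_mul, fdual_repr]
  congr 1; ring

theorem fdual_tr (b : Basis ι F L) (y : L) (i : ι) :
    Algebra.trace F L (fdual b i * y) = b.repr y i := by
  conv_lhs => rw [← b.sum_repr y, Finset.mul_sum, map_sum]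
  rw [Finset.sum_eq_single i]
  · rw [mul_smul_comm, map_smul]
    have := LinearMap.BilinForm.apply_dualBasis_left (traceForm_nondegenerate F L) b i i
    rw [Algebra.traceForm_apply, if_pos rfl] at this
    rw [fdual, this, smul_eq_mul, mul_one]
  · intro j _ hj
    have := LinearMap.BilinForm.apply_dualBasis_left (traceForm_nondegenerate F L) b i j
    rw [Algebra.traceForm_apply, if_neg hj] at this
    rw [mul_smul_comm, map_smul, fdual, this, smul_zero]
  · simp

variable (Q) in
/-- the dual lattice -/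
def fLat (b : Basis ι F L) : Submodule Q L := span Q (Set.range (fdual b))

theorem mem_fLat {b : Basis ι F L} {y : L} : y ∈ fLat Q b ↔
    ∀ i, ∃ s : Q, algebraMap Q F s = Algebra.trace F L (y * b i) := by
  rw [fLat, Basis.mem_span_iff_repr_mem]
  simp only [fdual_repr]
  rfl

theorem fLat_fg (b : Basis ι F L) : (fLat Q b).FG := fg_span (Set.finite_range _)

theorem FP.ne {f g : Q} (h : FP f g) : f ≠ 0 := fun e => one_ne_zero (h.1 1 (by simp [e]))

include F in
theorem falg_ne {f : Q} (h : f ≠ 0) : algebraMap Q L f ≠ 0 := by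
  rw [IsScalarTower.algebraMap_apply Q F L, ne_eq, map_eq_zero,
    map_eq_zero_iff _ (IsFractionRing.injective Q F)]
  exact h

theorem fLat_pair {b : Basis ι F L} {f g : Q} (h : FP f g) {y : L} (h1 : f • y ∈ fLat Q b)
    (h2 : g • y ∈ fLat Q b) : y ∈ fLat Q b := by
  rw [mem_fLat] at h1 h2 ⊢
  intro i
  obtain ⟨s, hs⟩ := h1 i
  obtain ⟨t, ht⟩ := h2 i
  rw [smul_mul_assoc, ← algebraMap_smul F, map_smul, smul_eq_mul] at hs ht
  obtain ⟨z, rfl⟩ := h.2 s t (IsFractionRing.injective Q F (by
    rw [map_mul, map_mul, hs, ht]; ring))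
  rw [map_mul] at hs
  exact ⟨z, mul_left_cancel₀ ((map_ne_zero_iff _ (IsFractionRing.injective Q F)).2 h.ne) hs⟩

theorem fLat_kos {b : Basis ι F L} {f₁ f₂ f₃ : Q}
    (h : ∀ x y z, f₃ * x = f₁ * y + f₂ * z → ∃ u v, x = f₁ * u + f₂ * v) {x y z : L}
    (hx : x ∈ fLat Q b) (hy : y ∈ fLat Q b) (hz : z ∈ fLat Q b)
    (e : f₃ • x = f₁ • y + f₂ • z) : ∃ u ∈ fLat Q b, ∃ v ∈ fLat Q b, x = f₁ • u + f₂ • v := by
  rw [mem_fLat] at hx hy hz
  choose x' hx using hx
  choose y' hy using hy
  choose z' hz using hz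
  have : ∀ i, ∃ u v, x' i = f₁ * u + f₂ * v := fun i => h _ (y' i) (z' i)
    (IsFractionRing.injective Q F (by
      have := congrArg (fun w => Algebra.trace F L (w * b i)) e
      simp only [add_mul, smul_mul_assoc, map_add, ← algebraMap_smul F (_ : Q) (_ : L), map_smul,
        smul_eq_mul] at this
      simp only [map_add, map_mul, hx, hy, hz, this]))
  choose u v huv using this
  have m : ∀ w : ι → Q, ∑ i, w i • fdual b i ∈ fLat Q b := fun w =>
    sum_mem fun i _ => smul_mem _ _ (subset_span ⟨i, rfl⟩)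
  refine ⟨_, m u, _, m v, ?_⟩
  rw [← (fdual b).sum_repr x, Finset.smul_sum, Finset.smul_sum, ← Finset.sum_add_distrib]
  refine Finset.sum_congr rfl fun i _ => ?_
  rw [fdual_repr, ← hx, algebraMap_smul, huv, add_smul, mul_smul, mul_smul]

theorem fLat_int {b : Basis ι F L} {d : L} (hd : ∀ i, IsIntegral Q (d * fdual b i)) {y : L}
    (hy : y ∈ fLat Q b) : IsIntegral Q (d * y) := by
  induction hy using span_induction with
  | mem w hw => obtain ⟨i, rfl⟩ := hw; exact hd i
  | zero => rw [mul_zero]; exact isIntegral_zero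
  | add a c _ _ h1 h2 => rw [mul_add]; exact h1.add h2
  | smul c a _ h1 => rw [mul_smul_comm]; exact h1.smul c

variable (Q) in
/-- the divisorial module of a finite set -/
def fM (G : Finset L) : Submodule Q L where
  carrier := {y | ∀ g ∈ G, IsIntegral Q (y * g)}
  zero_mem' := fun g _ => by rw [zero_mul]; exact isIntegral_zero
  add_mem' := fun {a c} h1 h2 g hg => by rw [add_mul]; exact (h1 g hg).add (h2 g hg)
  smul_mem' := fun c a h1 g hg => by rw [smul_mul_assoc]; exact (h1 g hg).smul c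

theorem mem_fM {G : Finset L} {y : L} : y ∈ fM Q G ↔ ∀ g ∈ G, IsIntegral Q (y * g) := Iff.rfl

theorem fM_mul {G : Finset L} {y r : L} (hr : IsIntegral Q r) (hy : y ∈ fM Q G) :
    r * y ∈ fM Q G := fun g hg => by rw [mul_assoc]; exact hr.mul (hy g hg)

include F in
theorem fM_den (G : Finset L) (y : L) : ∃ s : Q, s ≠ 0 ∧ s • y ∈ fM Q G := by
  classical
  obtain ⟨s, h0, hs⟩ := exists_integral_multiples Q F (G.image fun g => y * g)
  exact ⟨s, h0, fun g hg => by
    rw [smul_mul_assoc]; exact hs _ (Finset.mem_image_of_mem _ hg)⟩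

variable [IsIntegrallyClosed Q] [IsNoetherianRing Q] {b : Basis ι F L}
  (hb : ∀ i, IsIntegral Q (b i))
include hb

theorem fLat_of_int {y : L} (hy : IsIntegral Q y) : y ∈ fLat Q b :=
  mem_fLat.2 fun i => IsIntegrallyClosed.isIntegral_iff.1
    (Algebra.isIntegral_trace (hy.mul (hb i)))

theorem fint_pair {f g : Q} (h : FP f g) {y : L} (h1 : IsIntegral Q (f • y))
    (h2 : IsIntegral Q (g • y)) : IsIntegral Q y := by
  have k : ∀ n : ℕ, y ^ n ∈ fLat Q b := fun n =>
    fLat_pair ((h.pow_left n).pow_right n) (smul_pow f y n ▸ fLat_of_int hb (h1.pow n))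
      (smul_pow g y n ▸ fLat_of_int hb (h2.pow n))
  refine isIntegral_of_smul_mem_submodule (span Q (Set.range fun n : ℕ => y ^ n))
    (fun e => one_ne_zero (α := L) ?_) ?_ y fun z hz => ?_
  · rw [← mem_bot Q, ← e]; exact subset_span ⟨0, pow_zero y⟩
  · exact (fLat_fg b).of_le (span_le.2 (Set.range_subset_iff.2 k))
  · induction hz using span_induction with
    | mem w hw => obtain ⟨n, rfl⟩ := hw; exact subset_span ⟨n + 1, by simp [pow_succ']⟩
    | zero => simp
    | add a c _ _ u v => rw [smul_add]; exact add_mem u v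
    | smul c a _ u => rw [smul_comm]; exact smul_mem _ _ u

theorem fM_pair {G : Finset L} {f g : Q} (h : FP f g) {y : L} (h1 : f • y ∈ fM Q G)
    (h2 : g • y ∈ fM Q G) : y ∈ fM Q G := fun x hx =>
  fint_pair hb h (smul_mul_assoc f y x ▸ h1 x hx) (smul_mul_assoc g y x ▸ h2 x hx)

theorem fM_fg {G : Finset L} (hG : ∃ g ∈ G, g ≠ 0) : (fM Q G).FG := by
  obtain ⟨g, hg, g0⟩ := hG
  refine ((fLat_fg (Q := Q) b).map (LinearMap.mulRight Q g⁻¹)).of_le fun y hy => ?_
  exact ⟨y * g, fLat_of_int hb (hy g hg), by simp [g0]⟩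

theorem fM_end {G : Finset L} (hG : ∃ g ∈ G, g ≠ 0) {w : L}
    (h : ∀ y ∈ fM Q G, w * y ∈ fM Q G) : IsIntegral Q w := by
  refine isIntegral_of_smul_mem_submodule (fM Q G) ?_ (fM_fg hb hG) w h
  obtain ⟨s, s0, hs⟩ := fM_den (Q := Q) (F := F) G 1
  refine (Submodule.ne_bot_iff _).2 ⟨_, hs, ?_⟩
  rw [Algebra.smul_def, mul_one]
  exact falg_ne (F := F) s0

theorem fM_reg (G : Finset L) (xs : List Q) (h2 : xs.length ≤ 2) (h : IsWeaklyRegular Q xs) :
    IsWeaklyRegular (fM Q G) xs := by
  have r1 : ∀ x : Q, x ≠ 0 → IsSMulRegular (fM Q G) x := fun x hx =>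
    IsSMulRegular.of_right_eq_zero_of_smul fun (m : fM Q G) hm => Subtype.ext (by
      have : x • (m : L) = 0 := congrArg Subtype.val hm
      rw [Algebra.smul_def] at this
      exact (mul_eq_zero.1 this).resolve_left (falg_ne (F := F) hx))
  match xs, h2, h with
  | [], _, _ => exact IsWeaklyRegular.nil _ _
  | [x], _, h =>
    rw [isWeaklyRegular_singleton_iff] at h ⊢
    exact r1 x fun e => one_ne_zero (h.right_eq_zero_of_smul (x := (1 : Q)) (by simp [e]))
  | [x, y], _, h =>
    have p := FP.of_reg h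
    rw [isWeaklyRegular_cons_iff, isWeaklyRegular_singleton_iff]
    refine ⟨r1 x p.ne, IsSMulRegular.of_right_eq_zero_of_smul fun m hm => ?_⟩
    obtain ⟨m, rfl⟩ := mkQ_surjective _ m
    rw [← map_smul, mkQ_apply, Quotient.mk_eq_zero, mem_smul_pointwise_iff_exists] at hm
    obtain ⟨m', -, e⟩ := hm
    have e' : x • (m' : L) = y • (m : L) := congrArg Subtype.val e
    have x0 := falg_ne (F := F) (L := L) p.ne
    have e1 : x • ((m : L) / algebraMap Q L x) = m := by
      rw [Algebra.smul_def, mul_div_cancel₀ _ x0]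
    have e2 : y • ((m : L) / algebraMap Q L x) = m' := by
      rw [← smul_div_assoc, ← e', Algebra.smul_def, mul_div_cancel_left₀ _ x0]
    rw [mkQ_apply, Quotient.mk_eq_zero, mem_smul_pointwise_iff_exists]
    exact ⟨⟨_, fM_pair hb p (e1.symm ▸ m.2) (e2.symm ▸ m'.2)⟩, trivial, Subtype.ext e1⟩

/-- over a regular local ring of dimension at most two the trace ideal contains `d` -/
theorem fM_local [IsRegularLocalRing Q] (hdim : ringKrullDim Q ≤ 2) {G : Finset L}
    (hG : ∃ g ∈ G, g ≠ 0) {d : L} (hd : ∀ i, IsIntegral Q (d * fdual b i)) :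
    ∃ (n : ℕ) (φ m : Fin n → L), (∀ k, m k ∈ fM Q G) ∧
      (∀ k, ∀ y ∈ fM Q G, IsIntegral Q (φ k * y)) ∧ ∑ k, φ k * m k = d := by
  obtain ⟨r, hr⟩ : ∃ r : ℕ, ringKrullDim Q = r := by
    rw [← IsLocalRing.maximalIdeal_height_eq_ringKrullDim]
    obtain ⟨r, hr⟩ := ENat.ne_top_iff_exists.1 (maximalIdeal Q).height_ne_top_of_isPrime
    exact ⟨r, by rw [← hr]; rfl⟩
  obtain ⟨xs, e1, e2, e3⟩ := reg_seq Q hr
  have : Module.Finite Q (fM Q G) := Module.Finite.iff_fg.2 (fM_fg hb hG)
  have : Module.Free Q (fM Q G) := free_of_reg xs e2 (fM_reg hb G xs (by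
    rw [hr] at hdim
    rw [e1]; exact_mod_cast hdim) e3)
  let c := Module.finBasis Q (fM Q G)
  have li : LinearIndependent F fun k => (c k : L) :=
    (LinearIndependent.iff_fractionRing Q F).1
      (c.linearIndependent.map' (fM Q G).subtype (ker_subtype _))
  have sp : ∀ y : fM Q G, (y : L) = ∑ k, algebraMap Q F (c.repr y k) • (c k : L) := fun y => by
    have := congrArg (fM Q G).subtype (c.sum_repr y)
    rw [map_sum] at this
    simp only [algebraMap_smul]
    exact this.symm
  have top : ⊤ ≤ span F (Set.range fun k => (c k : L)) := fun y _ => by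
    obtain ⟨s, s0, hs⟩ := fM_den (Q := Q) (F := F) G y
    have h1 : s • y ∈ span F (Set.range fun k => (c k : L)) := by
      rw [show s • y = _ from sp ⟨_, hs⟩]
      exact sum_mem fun k _ => smul_mem _ _ (subset_span ⟨k, rfl⟩)
    have h2 := smul_mem _ (algebraMap Q F s)⁻¹ h1
    rwa [← algebraMap_smul F s, inv_smul_smul₀
      ((map_ne_zero_iff _ (IsFractionRing.injective Q F)).2 s0)] at h2
  let c' : Basis _ F L := Basis.mk li top
  have hc : ∀ k, c' k = c k := Basis.mk_apply li top
  refine ⟨_, fun k => d * fdual c' k, fun k => c' k, fun k => by simp only [hc]; exact (c k).2, fun k y hy => ?_, ?_⟩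
  · rw [mul_assoc]
    refine fLat_int hd (mem_fLat.2 fun i => ⟨c.repr ⟨_, fM_mul (hb i) hy⟩ k, ?_⟩)
    have e := sp ⟨_, fM_mul (hb i) hy⟩
    simp only [← hc] at e
    rw [mul_assoc, fdual_tr, mul_comm y]
    conv_rhs => rw [e, c'.repr_sum_self]
  · simp only [mul_assoc]
    rw [← Finset.mul_sum, fdual_sum, mul_one]

end

end Pool.Agent.Lib.MP_62d77c_ag.R
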