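import Pool.Agent.Lib.MP_62d77c_ag.R.FCone
import Pool.Agent.Lib.MP_62d77c_ag.NSA2
import Pool.Agent.Lib.MP_62d77c_ag.DerB

/-! Finitely many curvatures; separating bases with their dual derivations. -/

set_option autoImplicit false
set_option linter.unusedSectionVars false

namespace Pool.Agent.Lib.MP_62d77c_ag.R

open NSA

noncomputable section

variable {K : Type} [Field K] {r : ℕ} {t : Fin r → K} {δ : Fin r → Derivation ℤ K K}
  {R : ℕ → AddSubgroup K} {e : ℕ} {c : K}

theorem FFam.le (h : FFam t δ R e c) {n m : ℕ} (hnm : n ≤ m) : R n ≤ R m :=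
  monotone_nat_of_le_succ h.mono hnm

theorem FFam.pow (h : FFam t δ R e c) {n : ℕ} {z : K} (hz : z ∈ R n) (j : ℕ) :
    z ^ j ∈ R (j * n) := by
  induction j with
  | zero => simpa using h.one
  | succ j ih => rw [pow_succ, add_mul, one_mul]; exact h.mul ih hz

theorem fcol {p : ℕ} (hp : p.Prime) [CharP K p] (h : FFam t δ R e c)
    (hc : ∀ i j a, δ i (δ j a) = δ j (δ i a)) (hd : ∀ i a, (δ i)^[p] a = 0) :
    ∃ (γ : Type) (_ : Finite γ) (col : Finset K → γ) (Θ : Finset K → Fin r → K),
      (∀ G : Finset K, (∃ g ∈ G, g ≠ 0) → ∀ l n z, (∀ g ∈ G, z * g ∈ R n) →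
        ∀ g ∈ G, c * (δ l z - Θ G l * z) * g ∈ R (n + e)) ∧
      ∀ G G' : Finset K, (∃ g ∈ G, g ≠ 0) → (∃ g ∈ G', g ≠ 0) → col G = col G' →
        ∃ f : K, f ≠ 0 ∧ ∀ l, δ l f = (Θ G l - Θ G' l) * f := by
  classical
  choose! Θ hΘ using h.conn
  obtain ⟨q, hq⟩ := Nat.exists_eq_succ_of_ne_zero hp.ne_zero
  have t0 : ∀ l, δ l (c ^ p) = 0 := fun l => by
    rw [Derivation.leibniz_pow, nsmul_eq_mul, CharP.cast_eq_zero, zero_mul]
  have tn : c ^ p ≠ 0 := pow_ne_zero _ h.c0
  have st : ∀ G : Finset K, (∃ g ∈ G, g ≠ 0) → ∀ l n z, (∀ g ∈ G, z * g ∈ R n) →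
      ∀ g ∈ G, c ^ p * nab (δ l) (Θ G l) z * g ∈ R (n + p * e) := fun G hG l n z hz g hg => by
    have := h.mul (h.pow h.cR q) (hΘ G hG l n z hz g hg)
    rw [show q * e + (n + e) = n + p * e by rw [hq, Nat.succ_mul]; ring] at this
    rw [nab_apply]
    convert this using 1
    rw [hq, pow_succ]; ring
  have it : ∀ G : Finset K, (∃ g ∈ G, g ≠ 0) → ∀ l n z, (∀ g ∈ G, z * g ∈ R n) → ∀ j,
      ∀ g ∈ G, (c ^ p) ^ j * (nab (δ l) (Θ G l))^[j] z * g ∈ R (n + j * (p * e)) :=
    fun G hG l n z hz j => by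
      induction j with
      | zero => simpa using hz
      | succ j ih =>
        intro g hg
        have := st G hG l _ _ ih g hg
        rw [nab_const (by simp [t0])] at this
        rw [Function.iterate_succ_apply', pow_succ', add_mul, one_mul, ← add_assoc, mul_assoc (c ^ p)]
        exact this
  have m1 : ∀ G : Finset K, (∃ g ∈ G, g ≠ 0) → ∀ l,
      (c ^ p) ^ p * (nab (δ l) (Θ G l))^[p] 1 ∈ R (p * (p * e)) := fun G hG l =>
    h.endo G hG _ _ fun n z hz g hg => by
      have := it G hG l n z hz p g hg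
      rwa [nab_psi hp (hd l), ← mul_assoc ((c ^ p) ^ p)] at this
  have m2 : ∀ G : Finset K, (∃ g ∈ G, g ≠ 0) → ∀ l l',
      c ^ p * (c ^ p * (δ l (Θ G l') - δ l' (Θ G l))) ∈ R (p * e + p * e) := fun G hG l l' =>
    h.endo G hG _ _ fun n z hz g hg => by
      have := sub_mem (st G hG l' _ _ (st G hG l n z hz) g hg)
        (st G hG l _ _ (st G hG l' n z hz) g hg)
      rw [nab_const (t0 _), nab_const (t0 _), ← sub_mul, ← mul_sub, ← mul_sub,
        nab_comm (hc _ _), add_assoc] at this
      convert this using 1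
      ring
  have := fun n => (h.fin n).to_subtype
  refine ⟨(Fin r → (R (p * (p * e)) : Set K)) × (Fin r → Fin r → (R (p * e + p * e) : Set K)),
    inferInstance, fun G => if hG : ∃ g ∈ G, g ≠ 0 then
      (fun l => ⟨_, m1 G hG l⟩, fun l l' => ⟨_, m2 G hG l l'⟩)
      else (fun _ => ⟨0, zero_mem _⟩, fun _ _ => ⟨0, zero_mem _⟩), Θ, hΘ, fun G G' hG hG' u => ?_⟩
  simp only [dif_pos hG, dif_pos hG', Prod.mk.injEq, funext_iff, Subtype.mk.injEq,
    mul_right_inj' tn, mul_right_inj' (pow_ne_zero p tn)] at u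
  obtain ⟨f, f0, hf⟩ := common_ker (fun l => nab (δ l) (Θ G l - Θ G' l)) p
    (fun i j x => by
      rw [← sub_eq_zero, nab_comm (hc j i), map_sub, map_sub]
      linear_combination x * u.2 j i)
    fun i x => by
      have := nab_p hp (δ i) (Θ G i - Θ G' i) (Θ G' i) 1 1
      rw [sub_add_cancel, mul_one, mul_one, one_mul, u.1 i, right_eq_add] at this
      rw [nab_psi hp (hd i), this, zero_mul]
  exact ⟨f, f0, fun l => sub_eq_zero.1 (hf l)⟩

theorem fder_basis (k K : Type) [Field k] [PerfectField k] [Field K] [Algebra k K]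
    [Algebra.EssFiniteType k K] :
    ∃ (r : ℕ) (y : Fin r → K), IsTranscendenceBasis k y ∧
      Algebra.IsSeparable (IntermediateField.adjoin k (Set.range y)) K ∧
      ∃ b : Module.Basis (Fin r) K Ω[K⁄k], ∀ i, b i = KaehlerDifferential.D k K (y i) := by
  obtain ⟨s, hs, H⟩ := exists_isTranscendenceBasis_and_isSeparable_of_perfectField k K
  let y : Fin s.card → K := fun i => (s.equivFin.symm i : K)
  have hy : IsTranscendenceBasis k y := hs.comp_equiv s.equivFin.symm
  have hr : Set.range y = (s : Set K) := by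
    ext a
    exact ⟨fun ⟨i, h⟩ => h ▸ (s.equivFin.symm i).2, fun h => ⟨s.equivFin ⟨a, h⟩, by simp [y]⟩⟩
  let F := IntermediateField.adjoin k (Set.range y)
  have sep : Algebra.IsSeparable F K := by
    change Algebra.IsSeparable (IntermediateField.adjoin k (Set.range y)) K
    rw [hr]; exact H
  let P := MvPolynomial (Fin s.card) k
  let : Algebra P F :=
    ((hy.1.aevalEquivField : FractionRing P →+* F).comp (algebraMap P (FractionRing P))).toAlgebra
  let : Algebra P K := ((algebraMap F K).comp (algebraMap P F)).toAlgebra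
  have : IsScalarTower P F K := .of_algebraMap_eq fun _ => rfl
  have hP : ∀ a : P, algebraMap P K a = MvPolynomial.aeval y a := fun a =>
    hy.1.aevalEquivField_algebraMap_apply_coe a
  have : IsScalarTower k P K := .of_algebraMap_eq fun c => by
    rw [hP]; exact ((MvPolynomial.aeval y).commutes c).symm
  have : IsFractionRing P F := IsLocalization.isLocalization_of_algEquiv (nonZeroDivisors P)
    (AlgEquiv.ofRingEquiv (f := hy.1.aevalEquivField.toRingEquiv) fun _ => rfl)
  have : Algebra.FormallyEtale P F := .of_isLocalization (nonZeroDivisors P)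
  have : Algebra.FormallyEtale F K := .of_isSeparable F K
  have : Algebra.FormallyEtale P K := .comp P F K
  refine ⟨s.card, y, hy, sep,
    ((KaehlerDifferential.mvPolynomialBasis k (Fin s.card)).baseChange K).map
      (KaehlerDifferential.tensorKaehlerEquivOfFormallyEtale k P K), fun i => ?_⟩
  rw [Module.Basis.map_apply, Module.Basis.baseChange_apply, KaehlerDifferential.mvPolynomialBasis_apply,
    ← KaehlerDifferential.tensorKaehlerEquivOfFormallyEtale_symm_D_algebraMap k P K,
    LinearEquiv.apply_symm_apply, hP, MvPolynomial.aeval_X]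

/-- the dual derivations, over the prime field -/
theorem fder_dual (p : ℕ) [Fact p.Prime] (K : Type) [Field K] [Algebra (ZMod p) K]
    [Algebra.EssFiniteType (ZMod p) K] :
    ∃ (r : ℕ) (y : Fin r → K) (δ : Fin r → Derivation ℤ K K),
      IsTranscendenceBasis (ZMod p) y ∧
      Algebra.IsSeparable (IntermediateField.adjoin (ZMod p) (Set.range y)) K ∧
      (∀ i j, δ i (y j) = if i = j then 1 else 0) ∧
      (∀ i j a, δ i (δ j a) = δ j (δ i a)) ∧ ∀ i a, (δ i)^[p] a = 0 := by
  obtain ⟨r, y, hr, hs, b, hb⟩ := fder_basis (ZMod p) K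
  have : CharP K p := charP_of_injective_algebraMap (algebraMap (ZMod p) K).injective p
  let δ : Fin r → Derivation ℤ K K := fun i =>
    ((b.coord i).compDer (KaehlerDifferential.D (ZMod p) K)).restrictScalars ℤ
  have hδ : ∀ i a, δ i a = b.repr (KaehlerDifferential.D (ZMod p) K a) i := fun _ _ => rfl
  have h1 : ∀ i j, δ i (y j) = if i = j then 1 else 0 := fun i j => by
    rw [hδ, ← hb, b.repr_self, Finsupp.single_apply]
    simp only [eq_comm]
  have h2 : ∀ (D : Derivation ℤ K K) (a : K), D a = ∑ i, D (y i) * δ i a := fun D a => by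
    let D' : Derivation (ZMod p) K K :=
      Derivation.mk' ((D : K →ₗ[ℤ] K).toAddMonoidHom.toZModLinearMap p) D.leibniz
    have e : ∀ x, D x = D'.liftKaehlerDifferential (KaehlerDifferential.D (ZMod p) K x) := fun x =>
      (D'.liftKaehlerDifferential_comp_D x).symm
    rw [e a, ← b.sum_repr (KaehlerDifferential.D (ZMod p) K a), map_sum]
    refine Finset.sum_congr rfl fun i _ => ?_
    rw [map_smul, hb, ← e, hδ, smul_eq_mul, mul_comm]
  have h3 : ∀ D : Derivation ℤ K K, (∀ i, D (y i) = 0) → ∀ a, D a = 0 := fun D h a => by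
    rw [h2]; simp [h]
  have h4 : ∀ i j l, δ i (δ j (y l)) = 0 := fun i j l => by
    rw [h1]; split_ifs <;> simp
  refine ⟨r, y, δ, hr, hs, h1, fun i j a => ?_, fun i a => ?_⟩
  · have := h3 ⁅δ i, δ j⁆ (fun l => by rw [Derivation.commutator_apply, h4, h4, sub_zero]) a
    rwa [Derivation.commutator_apply, sub_eq_zero] at this
  · obtain ⟨E, hE⟩ := derB_pow p (δ i)
    rw [← hE]
    refine h3 E (fun l => ?_) a
    obtain ⟨q, hq⟩ := Nat.exists_eq_add_of_le' (Fact.out : p.Prime).two_le
    rw [hE, hq, Function.iterate_succ_apply, Function.iterate_succ_apply, h4,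
      Function.iterate_fixed (map_zero _)]

end

end Pool.Agent.Lib.MP_62d77c_ag.R
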