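import Pool.Agent.Lib.MP_62d77c_ag.R.FConeA

/-! Connections with bounded poles on families of sections. -/

set_option autoImplicit false
set_option linter.unusedSectionVars false

namespace Pool.Agent.Lib.MP_62d77c_ag.R

open Polynomial Submodule Module

noncomputable section

variable {k K : Type} [Field k] [Field K] [Algebra k K] {r : ℕ}

/-- functions with bounded poles at infinity and a uniform denominator `c` -/
structure FFam (t : Fin r → K) (δ : Fin r → Derivation ℤ K K) (R : ℕ → AddSubgroup K) (e : ℕ)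
    (c : K) : Prop where
  fin : ∀ n, (R n : Set K).Finite
  one : (1 : K) ∈ R 0
  mono : ∀ n, R n ≤ R (n + 1)
  mul : ∀ {n m z w}, z ∈ R n → w ∈ R m → z * w ∈ R (n + m)
  den : ∀ z : K, ∃ n, ∃ s ∈ R n, s ≠ 0 ∧ s * z ∈ R n
  c0 : c ≠ 0
  cR : c ∈ R e
  der : ∀ l n, ∀ z ∈ R n, c * δ l z ∈ R (n + e)
  conn : ∀ G : Finset K, (∃ g ∈ G, g ≠ 0) → ∀ l, ∃ Θ : K, ∀ n z, (∀ g ∈ G, z * g ∈ R n) →
    ∀ g ∈ G, c * (δ l z - Θ * z) * g ∈ R (n + e)
  endo : ∀ G : Finset K, (∃ g ∈ G, g ≠ 0) → ∀ m w,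
    (∀ n z, (∀ g ∈ G, z * g ∈ R n) → ∀ g ∈ G, w * z * g ∈ R (n + m)) → w ∈ R m

/-- a derivation applied to the coefficients -/
def fdc (δ : Derivation ℤ K K) : Derivation ℤ K[X] K[X] :=
  letI : Differential K := ⟨δ⟩
  Differential.mapCoeffs

theorem fdc_mon (δ : Derivation ℤ K K) (n : ℕ) (z : K) :
    fdc δ (monomial n z) = monomial n (δ z) :=
  letI : Differential K := ⟨δ⟩
  Differential.mapCoeffs_monomial n z

theorem fdc_phi {t : Fin r → K} {δ : Derivation ℤ K K} (hk : ∀ c, δ (algebraMap k K c) = 0)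
    (ht : ∀ i, δ (t i) = 0 ∨ δ (t i) = 1) (s : FSr k r) :
    ∃ s', fdc δ (fphi k t s) = fphi k t s' := by
  induction s using MvPolynomial.induction_on with
  | C c => exact ⟨0, by rw [fphi_C, ← monomial_zero_left, fdc_mon, hk, map_zero, map_zero]⟩
  | add a b h1 h2 =>
    obtain ⟨a', h1⟩ := h1
    obtain ⟨b', h2⟩ := h2
    exact ⟨a' + b', by simp only [map_add, h1, h2]⟩
  | mul_X a o h1 =>
    obtain ⟨a', h1⟩ := h1
    have : ∃ x, fdc δ (fphi k t (MvPolynomial.X o)) = fphi k t x := by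
      rw [fphi_X, fdc_mon]
      cases o with
      | none => exact ⟨0, by simp [fv]⟩
      | some i =>
        rcases ht i with h | h
        · exact ⟨0, by simp [fv, h]⟩
        · exact ⟨MvPolynomial.X none, by simp [fv, h, fphi_X]⟩
    obtain ⟨x, hx⟩ := this
    exact ⟨a * x + MvPolynomial.X o * a', by
      rw [map_mul, Derivation.leibniz, hx, h1, map_add, map_mul, map_mul, smul_eq_mul, smul_eq_mul]⟩

theorem fcoeff_mul (q : K[X]) (e n : ℕ) (z : K) :
    coeff (q * monomial n z) (n + e) = coeff q e * z := by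
  rw [add_comm, coeff_mul_monomial]

theorem exists_ffam [Finite k] {t : Fin r → K} (ht : AlgebraicIndependent k t)
    [FiniteDimensional (IntermediateField.adjoin k (Set.range t)) K]
    [Algebra.IsSeparable (IntermediateField.adjoin k (Set.range t)) K]
    {δ : Fin r → Derivation ℤ K K} (hk : ∀ l c, δ l (algebraMap k K c) = 0)
    (hδ : ∀ l i, δ l (t i) = 0 ∨ δ l (t i) = 1) :
    ∃ (R : ℕ → AddSubgroup K) (e : ℕ) (c : K), FFam t δ R e c ∧
      ∀ O : ValuationSubring K, (∀ c, algebraMap k K c ∈ O) → (∀ i, t i ∈ O) →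
        ∀ n, ∀ z ∈ R n, z ∈ O := by
  classical
  let S := FSr k r
  let L := FractionRing K[X]
  let : Algebra S K[X] := (fphi k t).toRingHom.toAlgebra
  have hφ : ∀ s, algebraMap S K[X] s = fphi k t s := fun _ => rfl
  obtain ⟨_, _, _, _⟩ := fcone_field hφ ht
  let F := FractionRing S
  let ι := algebraMap K[X] L
  have inj : Function.Injective ι := IsFractionRing.injective K[X] L
  have i1 : ∀ {q}, IsIntegral S (ι q) ↔ IsIntegral S q := isIntegral_algebraMap_iff inj
  have i2 : ∀ {y : L}, IsIntegral S y → ∃ q, ι q = y := fun h =>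
    IsIntegrallyClosed.isIntegral_iff.1 (h.tower_top (A := K[X]))
  obtain ⟨σ, b, hb⟩ := FiniteDimensional.exists_is_basis_integral S F L
  have fg : (Subalgebra.toSubmodule (integralClosure S K[X])).FG := by
    refine fg_of_fg_map_injective (IsScalarTower.toAlgHom S K[X] L).toLinearMap inj
      ((fLat_fg (Q := S) b).of_le ?_)
    rintro _ ⟨q, hq, rfl⟩
    exact fLat_of_int hb (i1.2 hq)
  let R : ℕ → AddSubgroup K := fun n =>
    (integralClosure S K[X]).toSubring.toAddSubgroup.comap (monomial n).toAddMonoidHom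
  have mR : ∀ {n z}, z ∈ R n ↔ IsIntegral S (monomial n z) := Iff.rfl
  obtain ⟨T, hT⟩ := id fg
  obtain ⟨s₀, s0, hs₀⟩ := exists_integral_multiples S F
    ((Finset.univ ×ˢ T).image fun x : Fin r × K[X] => ι (fdc (δ x.1) x.2))
  have a0 : fphi k t s₀ ≠ 0 := fun h => s0 (fphi_inj ht (h.trans (map_zero _).symm))
  have ha : ∀ l q, IsIntegral S q → IsIntegral S (fphi k t s₀ * fdc (δ l) q) := fun l q hq => by
    have hq' : q ∈ span S (T : Set K[X]) := hT ▸ hq
    induction hq' using span_induction with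
    | mem w hw =>
      have := hs₀ _ (Finset.mem_image_of_mem _ (Finset.mk_mem_product (Finset.mem_univ l) hw))
      rwa [Algebra.smul_def, IsScalarTower.algebraMap_apply S K[X] L, ← map_mul, i1] at this
    | zero => rw [map_zero, mul_zero]; exact isIntegral_zero
    | add x y hx hy h1 h2 =>
      rw [hT] at hx hy
      rw [map_add, mul_add]; exact (h1 hx).add (h2 hy)
    | smul s x hx h1 =>
      rw [hT] at hx
      obtain ⟨s', hs'⟩ := fdc_phi (hk l) (hδ l) s
      rw [Algebra.smul_def, hφ, Derivation.leibniz, hs', smul_eq_mul, smul_eq_mul, mul_add,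
        mul_left_comm, ← hφ s, ← hφ s']
      exact (isIntegral_algebraMap.mul (h1 hx)).add
        ((hφ s₀ ▸ isIntegral_algebraMap).mul (IsIntegral.mul hx isIntegral_algebraMap))
  obtain ⟨d, d0, di, hd⟩ := fconn S F L
  obtain ⟨d, rfl⟩ := i2 di
  rw [i1] at di
  have cc0 : d * d * fphi k t s₀ ≠ 0 := by
    have : d ≠ 0 := fun h => d0 (by rw [h, map_zero])
    exact mul_ne_zero (mul_ne_zero this this) a0
  have mM : ∀ (G : Finset K) (q : K[X]), ι q ∈ fM S (G.image fun g => ι (C g)) ↔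
      ∀ n, ∀ g ∈ G, coeff q n * g ∈ R n := fun G q => by
    rw [mem_fM, Finset.forall_mem_image]
    simp only [← map_mul, i1, mR, ← coeff_mul_C]
    exact ⟨fun h n g hg => fcone_graded hφ (h hg) n,
      fun h g hg => fcone_of_coeff hφ fun n => h n g hg⟩
  have mM' : ∀ (G : Finset K) n z, (∀ g ∈ G, z * g ∈ R n) →
      ι (monomial n z) ∈ fM S (G.image fun g => ι (C g)) := fun G n z h =>
    (mM G _).2 fun j g hg => by
      rw [coeff_monomial]
      split_ifs with u
      · exact u ▸ h g hg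
      · rw [zero_mul]; exact zero_mem _
  have nG : ∀ G : Finset K, (∃ g ∈ G, g ≠ 0) → ∃ g ∈ G.image fun g => ι (C g), g ≠ 0 :=
    fun G ⟨g, hg, g0⟩ => ⟨_, Finset.mem_image_of_mem _ hg,
      (map_ne_zero_iff _ inj).2 (C_ne_zero.2 g0)⟩
  have rM : ∀ G : Finset K, (∃ g ∈ G, g ≠ 0) → ∀ y ∈ fM S (G.image fun g => ι (C g)),
      ∃ q, ι q = y := fun G ⟨g, hg, g0⟩ y hy => by
    obtain ⟨q, hq⟩ := i2 (hy _ (Finset.mem_image_of_mem _ hg))
    refine ⟨q * C g⁻¹, ?_⟩
    rw [map_mul, hq, mul_assoc, ← map_mul, ← map_mul, mul_inv_cancel₀ g0, map_one, map_one, mul_one]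
  refine ⟨R, (d * d * fphi k t s₀).natDegree, (d * d * fphi k t s₀).leadingCoeff,
    ⟨fcone_fin hφ fg, ?_, fun n z hz => ?_, fun {n m z w} h1 h2 => ?_, fun z => ?_,
      leadingCoeff_ne_zero.2 cc0, ?_, fun l n z hz => ?_, fun G hG l => ?_,
      fun G hG m w hw => ?_⟩, fun O h1 h2 n z hz => fcone_val hφ O h1 h2 hz⟩
  · rw [mR, monomial_zero_one]; exact isIntegral_one
  · have := (mR.1 hz).mul (isIntegral_algebraMap (x := MvPolynomial.X none))
    rwa [hφ, fphi_X, monomial_mul_monomial, fv, Option.elim_none, mul_one] at this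
  · rw [mR, ← monomial_mul_monomial]; exact (mR.1 h1).mul (mR.1 h2)
  · obtain ⟨s, u0, hs⟩ := exists_integral_multiples S F {ι (C z)}
    have u1 : fphi k t s ≠ 0 := fun h => u0 (fphi_inj ht (h.trans (map_zero _).symm))
    have := hs _ (Finset.mem_singleton_self _)
    rw [Algebra.smul_def, IsScalarTower.algebraMap_apply S K[X] L, ← map_mul, i1, hφ] at this
    exact ⟨_, _, fcone_graded hφ (hφ s ▸ isIntegral_algebraMap) _, leadingCoeff_ne_zero.2 u1,
      coeff_mul_C (fphi k t s) _ z ▸ fcone_graded hφ this _⟩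
  · exact fcone_graded hφ ((di.mul di).mul (hφ s₀ ▸ isIntegral_algebraMap)) _
  · have := fcone_graded hφ ((di.mul di).mul (ha l _ (mR.1 hz)))
      (n + (d * d * fphi k t s₀).natDegree)
    rwa [← mul_assoc, fdc_mon, fcoeff_mul] at this
  · let dl : L → L := Function.extend ι (fun q => ι (fdc (δ l) q)) 0
    have hdl : ∀ q, dl (ι q) = ι (fdc (δ l) q) := fun q => inj.extend_apply _ _ q
    obtain ⟨θ, hθ⟩ := hd _ (nG G hG) (Set.range ι) dl (ι (fphi k t s₀))
      (by
        rintro _ ⟨x, rfl⟩ _ ⟨y, rfl⟩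
        rw [← map_mul, hdl, hdl, hdl, Derivation.leibniz, map_add, smul_eq_mul, smul_eq_mul,
          map_mul, map_mul])
      (fun y => i2) (rM G hG) fun y hy => by
        obtain ⟨q, rfl⟩ := i2 hy
        rw [hdl, ← map_mul, i1]
        exact ha l q (i1.1 hy)
    simp only [← map_mul] at hθ
    generalize d * d * fphi k t s₀ = cc at cc0 hθ ⊢
    have key : ∀ n z, (∀ g ∈ G, z * g ∈ R n) → ∃ q, (∀ j, ∀ g ∈ G, coeff q j * g ∈ R j) ∧
        ι q = ι (cc * monomial n (δ l z)) - θ * ι (monomial n z) := fun n z hz => by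
      have h1 := hθ _ (mM' G n z hz)
      rw [hdl, fdc_mon, ← map_mul] at h1
      obtain ⟨q, hq⟩ := rM G hG _ h1
      exact ⟨q, (mM G q).1 (hq ▸ h1), hq⟩
    obtain ⟨s, u0, hs⟩ := fM_den (Q := S) (F := F) (G.image fun g => ι (C g)) 1
    rw [Algebra.smul_def, mul_one, IsScalarTower.algebraMap_apply S K[X] L, hφ, mM] at hs
    have u1 : (fphi k t s).leadingCoeff ≠ 0 :=
      leadingCoeff_ne_zero.2 fun h => u0 (fphi_inj ht (h.trans (map_zero _).symm))
    obtain ⟨q₀, -, e₀⟩ := key _ _ (hs (fphi k t s).natDegree)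
    rw [coeff_natDegree] at e₀
    generalize (fphi k t s).leadingCoeff = z₀ at u1 e₀
    generalize (fphi k t s).natDegree = j at e₀
    obtain ⟨w, hw⟩ : ∃ w, ι w = θ * ι (X ^ j) := ⟨(cc * monomial j (δ l z₀) - q₀) * C z₀⁻¹, by
      rw [map_mul, map_sub, e₀, sub_sub_cancel, mul_assoc, ← map_mul, monomial_mul_C,
        mul_inv_cancel₀ u1, monomial_one_right_eq_X_pow]⟩
    refine ⟨coeff w (cc.natDegree + j) / cc.leadingCoeff, fun n z hz g hg => ?_⟩
    obtain ⟨q, h1, h2⟩ := key n z hz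
    have h3 : q * X ^ j = cc * monomial n (δ l z) * X ^ j - w * monomial n z := inj (by
      rw [map_sub, map_mul ι q, map_mul ι _ (X ^ j), map_mul ι w, h2, hw]; ring)
    have h4 := congrArg (coeff · (n + cc.natDegree + j)) h3
    simp only [coeff_sub, coeff_mul_X_pow] at h4
    rw [fcoeff_mul, add_assoc, fcoeff_mul, coeff_natDegree] at h4
    convert h1 (n + cc.natDegree) g hg using 2
    rw [h4, mul_sub, ← mul_assoc, mul_div_cancel₀ _ (leadingCoeff_ne_zero.2 cc0)]
  · have := fM_end hb (nG G hG) (w := ι (monomial m w)) fun y hy => by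
      obtain ⟨q, rfl⟩ := rM G hG y hy
      rw [← map_mul, mM]
      intro n g hg
      rw [← C_mul_X_pow_eq_monomial, mul_assoc, coeff_C_mul, coeff_X_pow_mul']
      split_ifs with u
      · have := hw (n - m) _ ((mM G q).1 hy (n - m)) g hg
        rwa [Nat.sub_add_cancel u] at this
      · simp
    exact i1.1 this

end

end Pool.Agent.Lib.MP_62d77c_ag.R
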