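import Pool.Agent.Lib.MP_62d77c_ag.R.FConn

/-! The cone over the normalisation of projective space in a function field. -/

set_option autoImplicit false
set_option linter.unusedSectionVars false

namespace Pool.Agent.Lib.MP_62d77c_ag.R

open Polynomial Submodule Module

noncomputable section

variable {k K : Type} [Field k] [Field K] [Algebra k K] {r : ℕ}

variable (k r) in
/-- homogeneous coordinates -/
abbrev FSr : Type := MvPolynomial (Option (Fin r)) k

/-- the linear forms `1, t₁, …, t_r` -/
def fv (t : Fin r → K) (o : Option (Fin r)) : K := o.elim 1 t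

variable (k) in
/-- the map to the cone -/
def fphi (t : Fin r → K) : FSr k r →ₐ[k] K[X] := MvPolynomial.aeval fun o => monomial 1 (fv t o)

theorem fphi_X (t : Fin r → K) (o : Option (Fin r)) :
    fphi k t (MvPolynomial.X o) = monomial 1 (fv t o) := MvPolynomial.aeval_X _ _

theorem fphi_C (t : Fin r → K) (c : k) : fphi k t (MvPolynomial.C c) = C (algebraMap k K c) :=
  MvPolynomial.aeval_C _ _

theorem fphi_inj {t : Fin r → K} (ht : AlgebraicIndependent k t) :
    Function.Injective (fphi k t) := by
  let α : FSr k r →ₐ[k] K[X] := (Polynomial.mapAlgHom (MvPolynomial.aeval t)).comp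
    (MvPolynomial.optionEquivLeft k (Fin r)).toAlgHom
  have hα : Function.Injective α :=
    (map_injective _ (algebraicIndependent_iff_injective_aeval.1 ht)).comp
      (MvPolynomial.optionEquivLeft k (Fin r)).injective
  let ψ : FSr k r →ₐ[k] FSr k r := MvPolynomial.aeval fun o =>
    o.elim (MvPolynomial.X none) fun i => MvPolynomial.X (some i) * MvPolynomial.X none
  let ι := IsScalarTower.toAlgHom k (FSr k r) (FractionRing (FSr k r))
  let ρ : FSr k r →ₐ[k] FractionRing (FSr k r) := MvPolynomial.aeval fun o =>
    o.elim (ι (MvPolynomial.X none)) fun i => ι (MvPolynomial.X (some i)) / ι (MvPolynomial.X none)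
  have h0 : ι (MvPolynomial.X none) ≠ 0 :=
    (map_ne_zero_iff _ (IsFractionRing.injective (FSr k r) _)).2 (MvPolynomial.X_ne_zero _)
  have e1 : ρ.comp ψ = ι := MvPolynomial.algHom_ext fun o => by
    cases o with
    | none => simp [ρ, ψ]
    | some i => simp only [ρ, ψ, AlgHom.comp_apply, MvPolynomial.aeval_X, Option.elim_some,
        map_mul, Option.elim_none, div_mul_cancel₀ _ h0]
  have hψ : Function.Injective ψ := Function.Injective.of_comp (f := ρ) (by
    rw [← AlgHom.coe_comp, e1]; exact IsFractionRing.injective (FSr k r) _)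
  have e2 : fphi k t = α.comp ψ := MvPolynomial.algHom_ext fun o => by
    cases o with
    | none => simp [α, ψ, fphi_X, fv, monomial_one_one_eq_X]
    | some i => simp [α, ψ, fphi_X, fv, C_mul_X_eq_monomial]
  rw [e2]
  exact hα.comp hψ

theorem fphi_coeff (t : Fin r → K) (s : FSr k r) (n : ℕ) :
    coeff (fphi k t s) n ∈ span k (Set.range (fv t)) ^ n := by
  induction s using MvPolynomial.induction_on generalizing n with
  | C c =>
    rw [fphi_C, coeff_C]
    split_ifs with h
    · rw [h, pow_zero]; exact algebraMap_mem c
    · exact zero_mem _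
  | add a b h1 h2 => rw [map_add, coeff_add]; exact add_mem (h1 n) (h2 n)
  | mul_X a o h =>
    rw [map_mul, fphi_X]
    cases n with
    | zero => simp
    | succ n =>
      rw [coeff_mul_monomial, pow_succ]
      exact mul_mem_mul (h n) (subset_span ⟨o, rfl⟩)

variable {t : Fin r → K} [Algebra (FSr k r) K[X]]
  (hφ : ∀ s, algebraMap (FSr k r) K[X] s = fphi k t s)
include hφ

attribute [local instance] Polynomial.algebra in
theorem fcone_graded {q : K[X]} (h : IsIntegral (FSr k r) q) (n : ℕ) :
    IsIntegral (FSr k r) (monomial n (coeff q n)) := by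
  let ψ : K[X] →+* K[X][X] := eval₂RingHom (C.comp C) (monomial 1 X)
  let χ : FSr k r →+* (FSr k r)[X] := MvPolynomial.eval₂Hom (C.comp MvPolynomial.C)
    fun o => monomial 1 (MvPolynomial.X o)
  have m : ∀ (n : ℕ) (a : K), ψ (monomial n a) = monomial n (monomial n a) := fun n a => by
    simp [ψ, C_mul_monomial, C_mul_X_pow_eq_monomial]
  have e : (algebraMap (FSr k r)[X] K[X][X]).comp χ = ψ.comp (algebraMap (FSr k r) K[X]) := by
    refine MvPolynomial.ringHom_ext (fun c => ?_) fun o => ?_
    · simp [χ, ψ, hφ]
    · simp [χ, hφ, fphi_X, m]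
  have h2 := isIntegral_iff_isIntegral_coeff.1 (h.map_of_comp_eq χ ψ e) n
  have e2 : coeff (ψ q) n = monomial n (coeff q n) := by
    clear h h2
    induction q using Polynomial.induction_on' with
    | add a b h1 h2 => simp only [map_add, coeff_add, h1, h2]
    | monomial j a =>
      rw [m, coeff_monomial, coeff_monomial]
      split_ifs with u
      · rw [u]
      · simp
  rwa [e2] at h2

theorem fcone_of_coeff {q : K[X]} (h : ∀ n, IsIntegral (FSr k r) (monomial n (coeff q n))) :
    IsIntegral (FSr k r) q := by
  rw [q.as_sum_support]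
  exact IsIntegral.sum _ fun n _ => h n

theorem fcone_fin [Finite k] (h : (Subalgebra.toSubmodule (integralClosure (FSr k r) K[X])).FG)
    (n : ℕ) : {z : K | IsIntegral (FSr k r) (monomial n z)}.Finite := by
  classical
  obtain ⟨T, hT⟩ := h
  let V := span k (Set.range (fv t))
  let U := span k (T.biUnion coeffs : Set K)
  have one : ∀ n, (1 : K) ∈ V ^ n := fun n => by
    simpa using pow_mem_pow V (subset_span ⟨none, rfl⟩ : (1 : K) ∈ V) n
  have key : ∀ q ∈ span (FSr k r) (T : Set K[X]), ∀ n, coeff q n ∈ V ^ n * U := fun q hq => by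
    induction hq using span_induction with
    | mem w hw =>
      intro n
      by_cases h0 : coeff w n = 0
      · rw [h0]; exact zero_mem _
      · rw [← one_mul (coeff w n)]
        exact mul_mem_mul (one n) (subset_span (Finset.mem_coe.2
          (Finset.mem_biUnion.2 ⟨w, hw, coeff_mem_coeffs h0⟩)))
    | zero => intro n; simp
    | add a b _ _ h1 h2 => intro n; rw [coeff_add]; exact add_mem (h1 n) (h2 n)
    | smul s a _ h1 =>
      intro n
      rw [Algebra.smul_def, hφ, coeff_mul]
      refine sum_mem fun x hx => ?_
      rw [← Finset.HasAntidiagonal.mem_antidiagonal.1 hx, pow_add, mul_assoc]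
      exact mul_mem_mul (fphi_coeff t s _) (h1 _)
  have fg : (V ^ n * U).FG :=
    ((fg_span (Set.finite_range _)).pow n).mul (fg_span (Finset.finite_toSet _))
  have : Module.Finite k (V ^ n * U : Submodule k K) := Module.Finite.iff_fg.2 fg
  have : Finite (V ^ n * U : Submodule k K) := Module.finite_of_finite k
  refine (Set.toFinite ((V ^ n * U : Submodule k K) : Set K)).subset fun z hz => ?_
  have := key (monomial n z) (hT ▸ hz) n
  rwa [coeff_monomial, if_pos rfl] at this

theorem fcone_val (O : ValuationSubring K) (hk : ∀ c, algebraMap k K c ∈ O) (ht : ∀ i, t i ∈ O)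
    {n : ℕ} {z : K} (h : IsIntegral (FSr k r) (monomial n z)) : z ∈ O := by
  have m : ∀ s, ((evalRingHom 1).comp (algebraMap (FSr k r) K[X])) s ∈ O := fun s => by
    rw [RingHom.comp_apply, hφ]
    induction s using MvPolynomial.induction_on with
    | C c => simpa [fphi_C] using hk c
    | add a b h1 h2 => rw [map_add, map_add]; exact add_mem h1 h2
    | mul_X a o h1 =>
      rw [map_mul, map_mul, fphi_X]
      refine mul_mem h1 ?_
      cases o with
      | none => simp [fv]
      | some i => simpa [fv] using ht i
  have h2 := h.map_of_comp_eq (T := O) (RingHom.codRestrict _ O m) (evalRingHom 1) rfl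
  obtain ⟨y, hy⟩ := IsIntegrallyClosed.isIntegral_iff.1 h2
  have : (y : K) = z := by simpa using hy
  exact this ▸ y.2

theorem fcone_field (ht : AlgebraicIndependent k t)
    [FiniteDimensional (IntermediateField.adjoin k (Set.range t)) K]
    [Algebra.IsSeparable (IntermediateField.adjoin k (Set.range t)) K] :
    ∃ _ : Algebra (FractionRing (FSr k r)) (FractionRing K[X]),
      IsScalarTower (FSr k r) (FractionRing (FSr k r)) (FractionRing K[X]) ∧
      FiniteDimensional (FractionRing (FSr k r)) (FractionRing K[X]) ∧
      Algebra.IsSeparable (FractionRing (FSr k r)) (FractionRing K[X]) := by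
  classical
  let L := FractionRing K[X]
  let F := FractionRing (FSr k r)
  let E := IntermediateField.adjoin k (Set.range t)
  have inj := IsFractionRing.injective K[X] L
  have a1 : ∀ s, algebraMap (FSr k r) L s = algebraMap K[X] L (fphi k t s) := fun s => by
    rw [IsScalarTower.algebraMap_apply (FSr k r) K[X] L, hφ]
  have : FaithfulSMul (FSr k r) L := (faithfulSMul_iff_algebraMap_injective _ _).2 fun a b e =>
    fphi_inj ht (inj (by rw [← a1, ← a1, e]))
  let : Algebra F L := FractionRing.liftAlgebra _ _
  have : IsScalarTower (FSr k r) F L := FractionRing.isScalarTower_liftAlgebra _ _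
  have a2 : ∀ s, algebraMap K[X] L (fphi k t s) ∈ (algebraMap F L).fieldRange := fun s =>
    ⟨algebraMap _ F s, by rw [← IsScalarTower.algebraMap_apply, a1]⟩
  have a3 : ∀ a : K, algebraMap K L a = algebraMap K[X] L (C a) := fun a =>
    IsScalarTower.algebraMap_apply K K[X] L a
  have aX : algebraMap K[X] L X ∈ (algebraMap F L).fieldRange := by
    simpa [fphi_X, fv, monomial_one_one_eq_X] using a2 (MvPolynomial.X none)
  have hE : E ≤ Subfield.toIntermediateField (((algebraMap F L).fieldRange).comap (algebraMap K L))
      (fun c => by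
        have := a2 (MvPolynomial.C c)
        rwa [fphi_C, ← a3] at this) := by
    refine IntermediateField.adjoin_le_iff.2 ?_
    rintro _ ⟨i, rfl⟩
    have h1 := div_mem (a2 (MvPolynomial.X (some i))) aX
    rw [fphi_X, ← C_mul_X_eq_monomial, map_mul,
      mul_div_cancel_right₀ _ ((map_ne_zero_iff _ inj).2 X_ne_zero), ← a3] at h1
    exact h1
  let j : E →+* F := (algebraMap F L).rangeRestrictFieldEquiv.symm.toRingHom.comp
    (RingHom.codRestrict ((algebraMap K L).comp (algebraMap E K)) _ fun x => hE x.2)
  let : Algebra E F := j.toAlgebra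
  have : IsScalarTower E F L := .of_algebraMap_eq fun x => by
    rw [IsScalarTower.algebraMap_apply E K L]
    exact (congrArg Subtype.val ((algebraMap F L).rangeRestrictFieldEquiv.apply_symm_apply
      ⟨_, hE x.2⟩)).symm
  have top : ∀ W : IntermediateField F L, (∀ a : K, algebraMap K L a ∈ W) → W = ⊤ := fun W h => by
    have p : ∀ q : K[X], algebraMap K[X] L q ∈ W := fun q => by
      induction q using Polynomial.induction_on' with
      | add a b h1 h2 => rw [map_add]; exact add_mem h1 h2
      | monomial n a =>
        obtain ⟨x, hx⟩ := aX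
        rw [← C_mul_X_pow_eq_monomial, map_mul, map_pow, ← a3, ← hx]
        exact mul_mem (h a) (pow_mem (W.algebraMap_mem x) n)
    refine top_unique fun y _ => ?_
    obtain ⟨a, b, -, rfl⟩ := IsFractionRing.div_surjective K[X] y
    exact div_mem (p a) (p b)
  have sep : ∀ a : K, IsSeparable F (algebraMap K L a) := fun a =>
    IsSeparable.tower_top F ((Algebra.IsSeparable.isSeparable E a).map
      (IsScalarTower.toAlgHom E K L) (algebraMap K L).injective)
  refine ⟨inferInstance, inferInstance, ?_,
    (separableClosure.eq_top_iff F L).1 (top _ sep)⟩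
  let b := Module.finBasis E K
  have fd := IntermediateField.finiteDimensional_adjoin (K := F)
    (S := Set.range fun i => algebraMap K L (b i)) (by
      rintro _ ⟨i, rfl⟩; exact (sep _).isIntegral)
  rw [top (IntermediateField.adjoin F _) fun a => ?_] at fd
  · exact Module.Finite.equiv IntermediateField.topEquiv.toLinearEquiv
  · rw [← b.sum_repr a, map_sum]
    refine sum_mem fun i _ => ?_
    rw [Algebra.smul_def, map_mul, ← IsScalarTower.algebraMap_apply,
      IsScalarTower.algebraMap_apply E F L]
    exact mul_mem (IntermediateField.algebraMap_mem _ _)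
      (IntermediateField.subset_adjoin _ _ ⟨i, rfl⟩)

end

end Pool.Agent.Lib.MP_62d77c_ag.R
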