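import Pool.Agent.Lib.MP_62d77c_ag.R.FAff

/-! A connection with a fixed denominator on every divisorial module. -/

set_option autoImplicit false
set_option linter.unusedSectionVars false

namespace Pool.Agent.Lib.MP_62d77c_ag.R

open IsLocalRing Submodule Module

noncomputable section

variable {S F L ι : Type} [CommRing S] [IsDomain S] [Field F] [Algebra S F] [IsFractionRing S F]
  [Field L] [Algebra F L] [Algebra S L] [IsScalarTower S F L] [FiniteDimensional F L]
  [Algebra.IsSeparable F L] [Fintype ι] [DecidableEq ι] [IsIntegrallyClosed S] [IsRegularRing S]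

theorem fconn_clear {Q κ : Type} [CommRing Q] [Algebra S Q] [Algebra Q L] [IsScalarTower S Q L]
    (T : Submonoid S) [IsLocalization T Q] [Fintype κ] (x : κ → L) (hx : ∀ i, IsIntegral Q (x i)) :
    ∃ s ∈ T, ∀ i, IsIntegral S (s • x i) := by
  classical
  choose s hs using fun i => IsIntegral.exists_multiple_integral_of_isLocalization T (x i) (hx i)
  refine ⟨∏ i, (s i : S), T.prod_mem fun i _ => (s i).2, fun i => ?_⟩
  rw [← Finset.prod_erase_mul _ _ (Finset.mem_univ i), mul_smul]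
  exact IsIntegral.smul _ (hs i)

theorem fconn_trace {b : Basis ι F L} (hb : ∀ i, IsIntegral S (b i)) {d : L}
    (hd : ∀ i, IsIntegral S (d * fdual b i)) {G : Finset L} (hG : ∃ g ∈ G, g ≠ 0)
    (P : Ideal S) [P.IsPrime] (hP : P.height ≤ 2) :
    ∃ s ∉ P, ∃ (n : ℕ) (φ m : Fin n → L), (∀ k, m k ∈ fM S G) ∧
      (∀ k, ∀ y ∈ fM S G, IsIntegral S (φ k * y)) ∧ ∑ k, φ k * m k = s • d := by
  classical
  let Q := Localization.subalgebra.ofField F P.primeCompl P.primeCompl_le_nonZeroDivisors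
  have : IsScalarTower S Q L := .of_algebraMap_eq fun s => IsScalarTower.algebraMap_apply S F L s
  have : IsRegularLocalRing Q := .of_ringEquiv
    (IsLocalization.algEquiv P.primeCompl (Localization.AtPrime P) Q).toRingEquiv
  have : IsIntegrallyClosed Q :=
    isIntegrallyClosed_of_isLocalization Q P.primeCompl P.primeCompl_le_nonZeroDivisors
  have hdim : ringKrullDim Q ≤ 2 := by
    rw [IsLocalization.AtPrime.ringKrullDim_eq_height P Q]
    exact WithBot.coe_le_coe.2 hP
  obtain ⟨n, φ, m, h1, h2, h3⟩ := fM_local (Q := Q) (fun i => (hb i).tower_top) hdim hG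
    fun i => (hd i).tower_top
  obtain ⟨T, hT⟩ := fM_fg hb hG
  have hT' : ∀ y : T, (y : L) ∈ fM Q G := fun y g hg =>
    ((hT ▸ subset_span y.2 : (y : L) ∈ fM S G) g hg).tower_top
  obtain ⟨s₁, u₁, v₁⟩ := fconn_clear (Q := Q) P.primeCompl
    (fun x : Fin n × G => m x.1 * x.2) fun x => h1 _ _ x.2.2
  obtain ⟨s₂, u₂, v₂⟩ := fconn_clear (Q := Q) P.primeCompl
    (fun x : Fin n × T => φ x.1 * x.2) fun x => h2 _ _ (hT' x.2)
  refine ⟨s₂ * s₁, P.primeCompl.mul_mem u₂ u₁, n, fun k => s₂ • φ k, fun k => s₁ • m k,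
    fun k g hg => ?_, fun k y hy => ?_, ?_⟩
  · rw [smul_mul_assoc]; exact v₁ (k, ⟨g, hg⟩)
  · rw [← hT] at hy
    induction hy using span_induction with
    | mem w hw => rw [smul_mul_assoc]; exact v₂ (k, ⟨w, hw⟩)
    | zero => rw [mul_zero]; exact isIntegral_zero
    | add a c _ _ u v => rw [mul_add]; exact u.add v
    | smul c a _ u => rw [mul_smul_comm]; exact u.smul c
  · rw [← h3, Finset.smul_sum]
    exact Finset.sum_congr rfl fun k _ => smul_mul_smul_comm _ _ _ _

variable (S F L) in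
include F in
/-- every divisorial module has a connection with the denominator `d ^ 2 a` -/
theorem fconn : ∃ d : L, d ≠ 0 ∧ IsIntegral S d ∧ ∀ (G : Finset L), (∃ g ∈ G, g ≠ 0) →
    ∀ (A : Set L) (dl : L → L) (a : L),
      (∀ x ∈ A, ∀ y ∈ A, dl (x * y) = x * dl y + y * dl x) → (∀ y, IsIntegral S y → y ∈ A) →
      (∀ y ∈ fM S G, y ∈ A) → (∀ y, IsIntegral S y → IsIntegral S (a * dl y)) →
      ∃ θ : L, ∀ m ∈ fM S G, d * d * a * dl m - θ * m ∈ fM S G := by
  classical
  obtain ⟨σ, b, hb⟩ := FiniteDimensional.exists_is_basis_integral S F L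
  obtain ⟨d₀, d0, hd₀⟩ := exists_integral_multiples S F (Finset.univ.image (fdual b))
  have hd : ∀ i, IsIntegral S (algebraMap S L d₀ * fdual b i) := fun i =>
    Algebra.smul_def d₀ (fdual b i) ▸ hd₀ _ (Finset.mem_image_of_mem _ (Finset.mem_univ i))
  refine ⟨algebraMap S L d₀, falg_ne (F := F) d0, isIntegral_algebraMap, ?_⟩
  generalize algebraMap S L d₀ = d at hd
  intro G hG A dl a hL hR hM ha
  let J : Ideal S :=
    { carrier := {s | ∃ θ : L, ∀ m ∈ fM S G, s • (d * a * dl m) - θ * m ∈ fM S G}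
      zero_mem' := ⟨0, fun m _ => by simp⟩
      add_mem' := fun ⟨θ, h⟩ ⟨θ', h'⟩ => ⟨θ + θ', fun m hm => by
        convert add_mem (h m hm) (h' m hm) using 1
        rw [add_smul]; ring⟩
      smul_mem' := fun c s ⟨θ, h⟩ => ⟨c • θ, fun m hm => by
        convert smul_mem _ c (h m hm) using 1
        rw [smul_sub, smul_assoc, smul_mul_assoc]⟩ }
  have hJ : ∀ P : Ideal S, P.IsPrime → J ≤ P → (3 : ℕ∞) ≤ P.height := fun P hP hle => by
    by_contra hc
    obtain ⟨s, hs, n, φ, m, h1, h2, h3⟩ := fconn_trace hb hd hG P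
      (Order.le_of_lt_add_one (not_le.1 hc))
    refine hs (hle ⟨a * ∑ k, φ k * dl (m k), fun y hy => ?_⟩)
    have e : s • (d * a * dl y) - (a * ∑ k, φ k * dl (m k)) * y =
        ∑ k, (a * dl (φ k * y) * m k - a * dl (φ k * m k) * y) := by
      rw [mul_assoc d, ← smul_mul_assoc, ← h3, Finset.sum_mul, Finset.mul_sum, Finset.sum_mul,
        ← Finset.sum_sub_distrib]
      refine Finset.sum_congr rfl fun k _ => ?_
      have e1 := hL _ (hR _ (h2 k y hy)) _ (hM _ (h1 k))
      have e2 := hL _ (hR _ (h2 k _ (h1 k))) _ (hM _ hy)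
      rw [mul_right_comm, e2] at e1
      linear_combination a * e1
    rw [e]
    exact sum_mem fun k _ => sub_mem (fM_mul (ha _ (h2 k y hy)) (h1 k))
      (fM_mul (ha _ (h2 k _ (h1 k))) hy)
  obtain ⟨f₁, ⟨θ₁, h₁⟩, f₂, ⟨θ₂, h₂⟩, f₃, ⟨θ₃, h₃⟩, p, t⟩ := fkos_triple J hJ
  have η : ∀ {f f' : S} {θ θ' : L}, (∀ m ∈ fM S G, f • (d * a * dl m) - θ * m ∈ fM S G) →
      (∀ m ∈ fM S G, f' • (d * a * dl m) - θ' * m ∈ fM S G) → f' • θ - f • θ' ∈ fLat S b :=
    fun {f f' θ θ'} h h' => fLat_of_int hb (fM_end hb hG fun m hm => by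
      convert sub_mem (smul_mem _ f (h' m hm)) (smul_mem _ f' (h m hm)) using 1
      simp only [Algebra.smul_def]; ring)
  obtain ⟨u, hu, v, hv, e⟩ := fLat_kos t (η h₁ h₂) (η h₃ h₂) (η h₁ h₃) (by
    simp only [Algebra.smul_def]; ring)
  have f0 := falg_ne (F := F) (L := L) p.ne
  refine ⟨d * ((θ₁ - v) / algebraMap S L f₁), fun m hm => fM_pair hb p ?_ ?_⟩
  · have hdd : IsIntegral S d := by
      rw [← mul_one d]; exact fLat_int hd (fLat_of_int hb isIntegral_one)
    convert add_mem (fM_mul hdd (h₁ m hm)) (fM_mul (fLat_int hd hv) hm) using 1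
    simp only [Algebra.smul_def]; field_simp; ring
  · have hdd : IsIntegral S d := by
      rw [← mul_one d]; exact fLat_int hd (fLat_of_int hb isIntegral_one)
    convert sub_mem (fM_mul hdd (h₂ m hm)) (fM_mul (fLat_int hd hu) hm) using 1
    simp only [Algebra.smul_def] at e ⊢
    field_simp
    linear_combination (-d * m) * e

end

end Pool.Agent.Lib.MP_62d77c_ag.R
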