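import Pool.Agent.Lib.MP_a966df_ag.Depth
import Pool.Agent.Lib.MP_a966df_ag.Reg

/-! Regular sequences in ideals of large height of a regular ring; the Koszul step. -/

set_option autoImplicit false

namespace Pool.Agent.Lib.MP_62d77c_ag.R

open IsLocalRing RingTheory.Sequence Pool.Agent.Lib.MP_a966df_ag Submodule
open scoped Pointwise

theorem fkos_dp {Q : Type} [CommRing Q] [IsLocalRing Q] (rs : List Q) :
    ∀ (M : Type) [AddCommGroup M] [Module Q M] (n : ℕ), IsWeaklyRegular M rs →
      Dp Q (n + rs.length) M → Dp Q n (M ⧸ (Ideal.ofList rs • ⊤ : Submodule Q M)) := by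
  induction rs with
  | nil =>
    intro M _ _ n _ h
    exact Dp.equiv h (quotEquivOfEqBot _ (by simp))
  | cons r rs ih =>
    intro M _ _ n h1 h2
    rw [isWeaklyRegular_cons_iff] at h1
    refine Dp.equiv (ih (QuotSMulTop r M) n h1.2 ?_)
      (quotOfListConsSMulTopEquivQuotSMulTopInner M r rs)
    refine Dp.quot (i := LinearMap.lsmul Q M r) (p := (r • ⊤ : Submodule Q M).mkQ) h1.1
      (fun y => ?_) (mkQ_surjective _) h2 (h2.mono (by simp))
    rw [mkQ_apply, Quotient.mk_eq_zero, mem_smul_pointwise_iff_exists]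
    exact ⟨fun ⟨b, _, e⟩ => ⟨b, e⟩, fun ⟨b, e⟩ => ⟨b, trivial, e⟩⟩

theorem fkos_seq {S : Type} [CommRing S] [IsRegularRing S] (J : Ideal S) (n : ℕ)
    (h : ∀ P : Ideal S, P.IsPrime → J ≤ P → (n : ℕ∞) ≤ P.height) :
    ∃ rs : List S, rs.length = n ∧ (∀ r ∈ rs, r ∈ J) ∧ IsWeaklyRegular S rs := by
  induction n with
  | zero => exact ⟨[], rfl, by simp, IsWeaklyRegular.nil S S⟩
  | succ n ih =>
    obtain ⟨rs, h1, h2, h3⟩ := ih fun P hP hJ => le_trans (by exact_mod_cast n.le_succ) (h P hP hJ)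
    have key : Subsingleton ((S ⧸ J) →ₗ[S] S ⧸ (Ideal.ofList rs • ⊤ : Submodule S S)) := by
      refine ⟨fun φ ψ => ?_⟩
      by_contra hne
      have hx : (φ - ψ) 1 ≠ 0 := fun e => hne (sub_eq_zero.1 (LinearMap.ext fun z => by
        obtain ⟨z, rfl⟩ := Ideal.Quotient.mk_surjective z
        have : Ideal.Quotient.mk J z = z • (1 : S ⧸ J) := by
          rw [Algebra.smul_def, mul_one]; rfl
        rw [this, map_smul, e, smul_zero, LinearMap.zero_apply]))
      obtain ⟨P, hP, hle⟩ := exists_le_isAssociatedPrime_of_isNoetherianRing S _ hx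
      obtain ⟨hP, x, hx'⟩ := isAssociatedPrime_iff.1 hP
      have hJ : J ≤ P := fun z hz => hle (by
        have : z • (1 : S ⧸ J) = 0 := by
          rw [Algebra.smul_def, mul_one]; exact Ideal.Quotient.eq_zero_iff_mem.2 hz
        rw [mem_colon_singleton, ← map_smul, mem_bot, this, map_zero])
      obtain ⟨x, rfl⟩ := mkQ_surjective _ x
      have hPx : ∀ s, s ∈ P ↔ s * x ∈ Ideal.ofList rs := fun s => by
        rw [hx', mem_colon_singleton, ← map_smul, mem_bot, mkQ_apply, Quotient.mk_eq_zero,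
          smul_eq_mul, smul_eq_mul, Ideal.mul_top]
      let Q := Localization.AtPrime P
      obtain ⟨d, hd⟩ : ∃ d : ℕ, P.height = d :=
        (ENat.ne_top_iff_exists.1 P.height_ne_top_of_isPrime).imp fun _ e => e.symm
      have hdim : ringKrullDim Q = d := by
        rw [IsLocalization.AtPrime.ringKrullDim_eq_height P Q, hd]; rfl
      obtain ⟨xs, e1, e2, e3⟩ := reg_seq Q hdim
      have dp : Dp Q d Q := e1 ▸ Dp.of_reg (fun r hr => e2 ▸ Ideal.subset_span hr) e3
      have hn : n + 1 ≤ d := by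
        have := h P hP hJ
        rw [hd] at this
        exact_mod_cast this
      have d1 := fkos_dp (rs.map (algebraMap S Q)) Q 1 (h3.of_isLocalization Q P.primeCompl)
        (dp.mono (by rw [List.length_map]; omega))
      let y : Q ⧸ (Ideal.ofList (rs.map (algebraMap S Q)) • ⊤ : Submodule Q Q) :=
        Submodule.Quotient.mk (algebraMap S Q x)
      have hy : ∀ a ∈ maximalIdeal Q, a • y = 0 := fun a ha => by
        rw [← Localization.AtPrime.map_eq_maximalIdeal] at ha
        refine Submodule.span_induction (p := fun a _ => a • y = 0) ?_ (zero_smul _ _)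
          (fun a b _ _ u v => by rw [add_smul, u, v, add_zero])
          (fun c a _ u => by rw [smul_assoc, u, smul_zero]) ha
        rintro _ ⟨s, hs, rfl⟩
        rw [← Quotient.mk_smul, Quotient.mk_eq_zero, smul_eq_mul, smul_eq_mul, Ideal.mul_top,
          ← map_mul, ← Ideal.map_ofList]
        exact Ideal.mem_map_of_mem _ ((hPx s).1 hs)
      have y0 : y = 0 := by
        have := (d1.inj (i := (span Q {y}).subtype) Subtype.val_injective).triv
          (fun a ha => ⟨1, fun t => by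
            obtain ⟨c, hc⟩ := mem_span_singleton.1 t.2
            refine Subtype.ext ?_
            rw [pow_one, coe_smul, ← hc, smul_comm, hy a ha, smul_zero, coe_zero]⟩)
          ⟨y, mem_span_singleton_self y⟩
        exact congrArg Subtype.val this
      rw [Quotient.mk_eq_zero, smul_eq_mul, Ideal.mul_top, ← Ideal.map_ofList,
        IsLocalization.algebraMap_mem_map_algebraMap_iff P.primeCompl] at y0
      obtain ⟨s, hs, e⟩ := y0
      exact hs ((hPx s).2 e)
    obtain ⟨r, hr, reg⟩ := IsSMulRegular.subsingleton_linearMap_iff.1 key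
    rw [Ideal.annihilator_quotient] at hr
    refine ⟨rs ++ [r], by simp [h1], fun a ha => ?_, ?_⟩
    · rcases List.mem_append.1 ha with u | u
      · exact h2 a u
      · rwa [List.mem_singleton.1 u]
    · rw [isWeaklyRegular_append_iff]
      exact ⟨h3, (isWeaklyRegular_singleton_iff _ _).2 reg⟩

/-- a regular pair, elementwise -/
def FP {S : Type} [CommRing S] (f g : S) : Prop :=
  (∀ x, f * x = 0 → x = 0) ∧ ∀ x y, g * x = f * y → ∃ z, x = f * z

theorem FP.of_reg {S : Type} [CommRing S] {f g : S} {rs : List S}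
    (h : IsWeaklyRegular S (f :: g :: rs)) : FP f g := by
  rw [isWeaklyRegular_cons_iff, isWeaklyRegular_cons_iff] at h
  refine ⟨fun x hx => h.1 (by simpa using hx), fun x y e => ?_⟩
  have : (Submodule.Quotient.mk x : QuotSMulTop f S) = 0 := h.2.1.right_eq_zero_of_smul (by
    rw [← Quotient.mk_smul, Quotient.mk_eq_zero, mem_smul_pointwise_iff_exists]
    exact ⟨y, trivial, e.symm⟩)
  rw [Quotient.mk_eq_zero, mem_smul_pointwise_iff_exists] at this
  obtain ⟨z, -, hz⟩ := this
  exact ⟨z, hz.symm⟩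

theorem FP.pow_right {S : Type} [CommRing S] {f g : S} (h : FP f g) (k : ℕ) : FP f (g ^ k) := by
  refine ⟨h.1, ?_⟩
  induction k with
  | zero => exact fun x y e => ⟨y, by simpa using e⟩
  | succ k ih =>
    intro x y e
    obtain ⟨z, hz⟩ := h.2 (g ^ k * x) y (by rw [← e]; ring)
    exact ih x z hz

theorem FP.pow_left {S : Type} [CommRing S] {f g : S} (h : FP f g) (k : ℕ) : FP (f ^ k) g := by
  induction k with
  | zero => exact ⟨fun x hx => by simpa using hx, fun x y _ => ⟨x, by simp⟩⟩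
  | succ k ih =>
    refine ⟨fun x hx => h.1 x (ih.1 _ (by rw [← hx]; ring)), fun x y e => ?_⟩
    obtain ⟨z, rfl⟩ := ih.2 x (f * y) (by rw [e]; ring)
    have : g * z = f * y := sub_eq_zero.1 (ih.1 _ (by linear_combination e))
    obtain ⟨w, rfl⟩ := h.2 z y this
    exact ⟨w, by ring⟩

/-- a regular triple in an ideal of height at least three -/
theorem fkos_triple {S : Type} [CommRing S] [IsRegularRing S] (J : Ideal S)
    (h : ∀ P : Ideal S, P.IsPrime → J ≤ P → (3 : ℕ∞) ≤ P.height) :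
    ∃ f₁ ∈ J, ∃ f₂ ∈ J, ∃ f₃ ∈ J, FP f₁ f₂ ∧
      ∀ x y z, f₃ * x = f₁ * y + f₂ * z → ∃ u v, x = f₁ * u + f₂ * v := by
  obtain ⟨rs, h1, h2, h3⟩ := fkos_seq J 3 h
  obtain ⟨f₁, f₂, f₃, rfl⟩ := List.length_eq_three.1 h1
  refine ⟨f₁, h2 _ (by simp), f₂, h2 _ (by simp), f₃, h2 _ (by simp), FP.of_reg h3,
    fun x y z e => ?_⟩
  have h4 := ((isWeaklyRegular_append_iff S [f₁, f₂] [f₃]).1 h3).2
  rw [isWeaklyRegular_singleton_iff] at h4
  have m : ∀ w : S, w ∈ (Ideal.ofList [f₁, f₂] • ⊤ : Submodule S S) ↔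
      ∃ u v, w = f₁ * u + f₂ * v := fun w => by
    rw [smul_eq_mul, Ideal.mul_top]
    have : Ideal.ofList [f₁, f₂] = Ideal.span {f₁, f₂} := by
      unfold Ideal.ofList; congr 1; ext a; simp
    rw [this, Ideal.mem_span_pair]
    exact ⟨fun ⟨u, v, e⟩ => ⟨u, v, by rw [← e]; ring⟩, fun ⟨u, v, e⟩ => ⟨u, v, by rw [e]; ring⟩⟩
  have : (Submodule.Quotient.mk x : S ⧸ (Ideal.ofList [f₁, f₂] • ⊤ : Submodule S S)) = 0 :=
    h4.right_eq_zero_of_smul (by
      rw [← Quotient.mk_smul, Quotient.mk_eq_zero, m]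
      exact ⟨y, z, e⟩)
  rwa [Quotient.mk_eq_zero, m] at this

end Pool.Agent.Lib.MP_62d77c_ag.R
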