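import Pool.Agent.Lib.MP_62d77c_ag.R.FCol
import Pool.Agent.Lib.MP_62d77c_ag.R.N1e

/-! Orders of regular logarithmic forms along a prime divisor. -/

set_option autoImplicit false
set_option linter.unusedSectionVars false

namespace Pool.Agent.Lib.MP_62d77c_ag.R

noncomputable section

variable {p : ℕ} [hp : Fact p.Prime] {r : ℕ}

open MvPolynomial in
theorem fpoly (P : MvPolynomial (Fin r) (ZMod p) → Prop) (h1 : ∀ a, P (C a) → a = 0)
    (h2 : ∀ q, P (q ^ p) → P q) (h3 : ∀ q l, P q → P (pderiv l q)) (q : MvPolynomial (Fin r) (ZMod p))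
    (hq : P q) : q = 0 := by
  induction hn : q.totalDegree using Nat.strong_induction_on generalizing q with
  | _ n ih =>
  subst hn
  by_cases h0 : q.totalDegree = 0
  · rw [totalDegree_eq_zero_iff_eq_C.1 h0] at hq ⊢
    rw [h1 _ hq, map_zero]
  have d0 : ∀ l, pderiv l q = 0 := fun l => ih _ (by
    rw [totalDegree, Finset.sup_lt_iff (Nat.pos_of_ne_zero h0)]
    intro m hm
    rw [mem_support_iff, coeff_pderiv] at hm
    have := le_totalDegree (mem_support_iff.2 (left_ne_zero_of_mul hm))
    rw [Finsupp.sum_add_index' (fun _ => rfl) fun _ _ _ => rfl, Finsupp.sum_single_index rfl] at this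
    omega) _ (h3 q l hq) rfl
  have dv : ∀ σ ∈ q.support, ∃ σ', σ = p • σ' := fun σ hσ => by
    have : ∀ i, p ∣ σ i := fun i => by
      by_cases u : σ i = 0
      · rw [u]; exact dvd_zero p
      have e : σ - Finsupp.single i 1 + Finsupp.single i 1 = σ :=
        tsub_add_cancel_of_le (Finsupp.single_le_iff.2 (Nat.pos_of_ne_zero u))
      have := coeff_pderiv (i := i) q (σ - Finsupp.single i 1)
      rw [d0, coeff_zero, e, eq_comm, mul_eq_zero, or_iff_right (mem_support_iff.1 hσ)] at this
      have e' := congrArg (· i) e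
      simp only [Finsupp.add_apply, Finsupp.single_eq_same] at e'
      rw [← e', ← ZMod.natCast_eq_zero_iff, Nat.cast_add, Nat.cast_one, this]
    choose σ' hσ' using this
    exact ⟨⟨σ.support, σ', by simp [hσ', hp.out.ne_zero]⟩, Finsupp.ext hσ'⟩
  choose! σ' hσ' using dv
  have e : q = expand p (∑ σ ∈ q.support, monomial (σ' σ) (coeff σ q)) := by
    rw [map_sum]
    conv_lhs => rw [q.as_sum]
    exact Finset.sum_congr rfl fun σ hσ => by rw [expand_monomial, ← hσ' σ hσ]
  generalize (∑ σ ∈ q.support, monomial (σ' σ) (coeff σ q)) = q₁ at e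
  subst e
  rw [totalDegree_expand] at h0 ih
  rw [ih _ (lt_mul_of_one_lt_right (Nat.pos_of_ne_zero (left_ne_zero_of_mul h0)) hp.out.one_lt) q₁
    (h2 _ (expand_zmod q₁ ▸ hq)) rfl, map_zero]

variable {K : Type} [Field K] [Algebra (ZMod p) K] {t : Fin r → K}
  {δ : Fin r → Derivation ℤ K K} {O : ValuationSubring K}

theorem fder_c (D : Derivation ℤ K K) (a : ZMod p) : D (algebraMap (ZMod p) K a) = 0 := by
  obtain ⟨m, rfl⟩ := ZMod.intCast_surjective a
  rw [map_intCast, Derivation.map_intCast]

theorem fmem_c (O : ValuationSubring K) (a : ZMod p) : algebraMap (ZMod p) K a ∈ O := by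
  obtain ⟨m, rfl⟩ := ZMod.intCast_surjective a
  rw [map_intCast]; exact intCast_mem O m

open MvPolynomial in
theorem fder_aeval (hδ : ∀ i j, δ i (t j) = if i = j then 1 else 0) (l : Fin r)
    (q : MvPolynomial (Fin r) (ZMod p)) : δ l (aeval t q) = aeval t (pderiv l q) := by
  induction q using MvPolynomial.induction_on with
  | C a => rw [aeval_C, fder_c, pderiv_C, map_zero]
  | add a b h1 h2 => simp only [map_add, h1, h2]
  | mul_X a i h1 =>
    simp only [map_mul, Derivation.leibniz, h1, aeval_X, hδ, smul_eq_mul, map_add, pderiv_X,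
      Pi.single_apply, eq_comm (a := i)]
    split_ifs <;> simp

theorem fdvd_ord (ht : IsTranscendenceBasis (ZMod p) t)
    (hδ : ∀ i j, δ i (t j) = if i = j then 1 else 0) (hO : Disc O) (tO : ∀ i, t i ∈ O)
    (dO : ∀ l, ∀ z ∈ O, δ l z ∈ O) {h : K} (h0 : h ≠ 0) (hh : ∀ l, δ l h / h ∈ O) :
    (p : ℤ) ∣ ord O h := by
  by_contra hn
  have π0 := hO.unif_ne
  set π := unif O with hπ
  set n := ord O h with hn'
  have n0 : (n : ZMod p) ≠ 0 := fun e => hn ((ZMod.intCast_zmod_eq_zero_iff_dvd n p).mp e)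
  have hm := congrArg (algebraMap (ZMod p) K) (inv_mul_cancel₀ n0)
  rw [map_mul, map_intCast, map_one] at hm
  have z0 := zpow_ne_zero n π0
  have u0 := div_ne_zero h0 z0
  have uo : ord O (h / π ^ n) = 0 := by rw [hO.ord_div h0 z0, hO.ord_unif_zpow, sub_self]
  have dπ : ∀ l, δ l π / π ∈ O := fun l => by
    have h1 := mul_mem (fmem_c O (n : ZMod p)⁻¹) (sub_mem (hh l) (mul_mem
      (dO l _ ((hO.mem_iff u0).2 uo.ge))
      ((hO.mem_iff (inv_ne_zero u0)).2 (by rw [hO.ord_inv u0, uo, neg_zero]))))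
    convert h1 using 1
    have e : h = h / π ^ n * π ^ n := (div_mul_cancel₀ _ z0).symm
    generalize h / π ^ n = u at e u0
    generalize algebraMap (ZMod p) K (n : ZMod p)⁻¹ = m at hm
    rw [e, Derivation.leibniz, Derivation.leibniz_zpow, zpow_sub_one₀ π0]
    simp only [smul_eq_mul, zsmul_eq_mul]
    field_simp
    linear_combination (-δ l π * u) * hm
  have mm : ∀ z, O.valuation z < 1 ↔ z / π ∈ O := fun z => by
    by_cases u : z = 0
    · simp [u, zero_mem]
    rw [hO.lt_one_iff u, hO.mem_iff (div_ne_zero u π0), hO.ord_div u π0, hO.ord_unif]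
    omega
  have st : ∀ l z, O.valuation z < 1 → O.valuation (δ l z) < 1 := fun l z hz => by
    rw [mm] at hz ⊢
    have e : z = π * (z / π) := (mul_div_cancel₀ _ π0).symm
    generalize z / π = w at e hz
    convert add_mem (dO l w hz) (mul_mem hz (dπ l)) using 1
    rw [e, Derivation.leibniz]
    simp only [smul_eq_mul]
    field_simp
  obtain ⟨w, hw, a, a0, e⟩ := (ht.isAlgebraic.isAlgebraic π).exists_nonzero_eq_adjoin_mul
    (mem_nonZeroDivisors_of_ne_zero π0)
  have aO : ∀ x ∈ Algebra.adjoin (ZMod p) (Set.range t), x ∈ O := fun x hx => by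
    induction hx using Algebra.adjoin_induction with
    | mem x hx => obtain ⟨i, rfl⟩ := hx; exact tO i
    | algebraMap a => exact fmem_c O a
    | add _ _ _ _ h1 h2 => exact add_mem h1 h2
    | mul _ _ _ _ h1 h2 => exact mul_mem h1 h2
  have wO : w ∈ O := by
    clear e
    induction hw using Algebra.adjoin_induction with
    | mem x hx => exact hx ▸ (hO.mem_iff π0).2 (by rw [hO.ord_unif]; omega)
    | algebraMap a => exact aO _ a.2
    | add _ _ _ _ h1 h2 => exact add_mem h1 h2
    | mul _ _ _ _ h1 h2 => exact mul_mem h1 h2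
  obtain ⟨a, ha⟩ := a
  rw [Algebra.adjoin_range_eq_range_aeval] at ha
  obtain ⟨q, rfl⟩ := ha
  have := fpoly (fun q => O.valuation (MvPolynomial.aeval t q) < 1) (fun a ha => by_contra fun u => by
      rw [MvPolynomial.aeval_C] at ha
      have h1 := (O.valuation_le_one_iff _).2 (fmem_c O a⁻¹)
      have h2 : O.valuation (algebraMap (ZMod p) K a) * O.valuation (algebraMap (ZMod p) K a⁻¹) = 1 := by
        rw [← map_mul, ← map_mul, mul_inv_cancel₀ u, map_one, map_one]
      exact (mul_lt_one_of_lt_of_le ha h1).ne h2)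
    (fun q hq => by
      rw [map_pow, map_pow] at hq
      exact (pow_lt_one_iff hp.out.ne_zero).1 hq)
    (fun q l hq => fder_aeval hδ l q ▸ st l _ hq) q
    ((mm _).2 (by
      have : MvPolynomial.aeval t q = π * w := e.symm
      rwa [this, mul_div_cancel_left₀ _ π0]))
  exact a0 (Subtype.ext (by simp [this]))

end

end Pool.Agent.Lib.MP_62d77c_ag.R
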