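import Pool.Agent.Lib.MP_62d77c_ag.R.GZ2
import Pool.Agent.Lib.MP_62d77c_ag.R.N
import Pool.Agent.Lib.MP_62d77c_ag.R.DevA

/-! Comparison of a descended line bundle with the divisorial module on the normalisation. -/

set_option autoImplicit false
set_option linter.unusedSectionVars false

namespace Pool.Agent.Lib.MP_62d77c_ag.R

open Filter Polynomial Submodule Function
open scoped TensorProduct

noncomputable section

variable {A : Type} [CommRing A] [IsDomain A] {𝒜 : ℕ → AddSubgroup A} [GradedRing 𝒜]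
  [hG : Fact (Gen 𝒜)] {p : ℕ} [Fact p.Prime]

theorem gz_cyc_congr {Q Q' : GM 𝒜} (h : ∀ y : Vp 𝒜 p, Q.len y.1 = Q'.len y.1) (r : ℕ) :
    Q.cyc p r = Q'.cyc p r := by
  classical
  exact congrArg (fun f : Vp 𝒜 p → ℤ =>
    if h : (Function.support f).Finite then Finsupp.ofSupportFinite f h else 0)
    (funext fun x => by rw [h x])

namespace Mo

variable (X : Mo 𝒜 p)

/-- multiplication by `z` in degree `n` -/
def gzMul {F F' : X.Fa} (h : X.FF F) (h' : X.FF F') (n : ℕ) (z : X.L)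
    (hz : ∀ k, ∀ w ∈ F k, z * w ∈ F' (k + n)) : (X.gm F h).M →ₗ[A] (X.gm F' h').M :=
  ((LinearMap.mulLeft A (X.mon n z)).domRestrict (X.gmS F h.st)).codRestrict (X.gmS F' h'.st)
    fun P k => by
      change coeff (monomial n z * (show X.L[X] from P.1)) k ∈ F' k
      rw [X.co_mul]
      split_ifs with hi
      · have := hz _ _ (P.2 (k - n))
        rwa [Nat.sub_add_cancel hi] at this
      · exact zero_mem _

/-- the quotient of two families -/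
abbrev gzQ {F F' : X.Fa} (h : X.FF F) (h' : X.FF F') (l : F ≤ F') : GM 𝒜 :=
  (X.gm F' h').quot (LinearMap.range (X.inc h h' l))

theorem gz_desc {F₁ F₂ F₁' F₂' : X.Fa} {h₁ : X.FF F₁} {h₂ : X.FF F₂} {h₁' : X.FF F₁'}
    {h₂' : X.FF F₂'} (l : F₁ ≤ F₂) (l' : F₁' ≤ F₂') {n : ℕ} {z : X.L}
    (a₁ : ∀ k, ∀ w ∈ F₁ k, z * w ∈ F₁' (k + n)) (a₂ : ∀ k, ∀ w ∈ F₂ k, z * w ∈ F₂' (k + n)) :
    ∃ φ : (X.gzQ h₁ h₂ l).M →ₗ[A] (X.gzQ h₁' h₂' l').M,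
      ∀ m, φ (mkQ _ m) = mkQ _ (X.gzMul h₂ h₂' n z a₂ m) := by
  have S := sm_quot (X.inc_hom h₁ h₂ l) (X.inc_inj h₁ h₂ l)
  have S' := sm_quot (X.inc_hom h₁' h₂' l') (X.inc_inj h₁' h₂' l')
  refine k5_fac S.sur (mkQ _ ∘ₗ X.gzMul h₂ h₂' n z a₂) fun m hm => ?_
  obtain ⟨m, rfl⟩ := (S.ex m).1 hm
  exact (S'.ex _).2 ⟨X.gzMul h₁ h₁' n z a₁ m, rfl⟩

theorem gz_len {F₁ F₂ F₁' F₂' : X.Fa} {h₁ : X.FF F₁} {h₂ : X.FF F₂} {h₁' : X.FF F₁'}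
    {h₂' : X.FF F₂'} (l : F₁ ≤ F₂) (l' : F₁' ≤ F₂') {n n' : ℕ} {z z' : X.L}
    (a₁ : ∀ k, ∀ w ∈ F₁ k, z * w ∈ F₁' (k + n)) (a₂ : ∀ k, ∀ w ∈ F₂ k, z * w ∈ F₂' (k + n))
    (b₁ : ∀ k, ∀ w ∈ F₁' k, z' * w ∈ F₁ (k + n')) (b₂ : ∀ k, ∀ w ∈ F₂' k, z' * w ∈ F₂ (k + n'))
    {u : A} (hu : u ∈ 𝒜 (n' + n)) (e : X.θ u = z' * z) {y : Pt 𝒜} (hy : u ∉ pr y) :
    Module.length (Lo y) ((X.gzQ h₁ h₂ l).St y) ≤
      Module.length (Lo y) ((X.gzQ h₁' h₂' l').St y) := by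
  obtain ⟨φ, hφ⟩ := X.gz_desc (h₁ := h₁) (h₂ := h₂) (h₁' := h₁') (h₂' := h₂') l l' a₁ a₂
  obtain ⟨ψ, hψ⟩ := X.gz_desc (h₁ := h₁') (h₂ := h₂') (h₁' := h₁) (h₂' := h₂) l' l b₁ b₂
  refine gz_len_le φ ψ hu hy fun m => ?_
  obtain ⟨m, rfl⟩ := mkQ_surjective _ m
  rw [hφ, hψ]
  refine (congrArg _ (Subtype.ext ?_)).trans (map_smul (mkQ _) u m)
  change monomial n' z' * (monomial n z * (show X.L[X] from m.1)) = X.cone u * _
  rw [X.cone_hom hu, e, ← mul_assoc, monomial_mul_monomial]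

theorem gz_off {F F' : X.Fa} (h : X.FF F) (h' : X.FF F') (l : F ≤ F') {y : Pt 𝒜}
    (hy : ¬pr X.x.1 ≤ pr y) : (X.gzQ h h' l).ZeroAt y :=
  (((sm_quot (X.inc_hom h h' l) (X.inc_inj h h' l)).ses.zeroAt y).1 (zeroAt_gm X h' hy)).2

theorem gz_dim (hX : ∀ z : X.L, ∃ n, ∃ a ∈ 𝒜 n, ∃ b ∈ 𝒜 n, b ∉ pr X.x.1 ∧ z = X.θ a / X.θ b)
    {ι : Type} [Fintype ι] {s : ι → X.L} {b : ℕ} {a : ι} (ha : s a ≠ 0) {F : X.Fa} (hF : X.FF F)
    (l : X.gzF s b ⊤ ≤ F) : (X.gzQ (X.gzF_ff s b ⊤) hF l).DimLt p (dm X.x) := fun y hy => by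
  by_cases h : pr X.x.1 ≤ pr y.1
  swap
  · exact X.gz_off _ _ l h
  obtain rfl := eq_of_dm h hy
  have S := sm_quot (X.inc_hom (X.gzF_ff s b ⊤) hF l) (X.inc_inj _ _ l)
  refine st_zeroAt ?_
  rintro k _ ⟨v, hv, rfl⟩
  rcases st_mem_gm' X hF hv with rfl | ⟨n, rfl, z, hz, rfl⟩
  · exact ⟨0, 1, SetLike.one_mem_graded 𝒜, md_one_not_mem _, (one_smul _ _).trans (map_zero _)⟩
  obtain ⟨d, c, hc, u, hu, h1, e⟩ := hX (z / s a)
  have h0 : X.θ u ≠ 0 := fun h => h1 ((X.ker _ _ hu).1 h)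
  have h2 := SetLike.mul_mem_graded hu (step_ell_pow X.x.1 b).1
  have h3 : c * ell X.x.1 ^ n ∈ Az 𝒜 ((n + (d + b) : ℕ) - b) := by
    rw [show ((n + (d + b) : ℕ) : ℤ) - b = (d + n : ℕ) by push_cast; ring, Az_nat]
    exact SetLike.mul_mem_graded hc (step_ell_pow X.x.1 n).1
  refine ⟨_, _, h2, md_mul_not_mem h1 (step_ell_pow X.x.1 b).2, (map_smul (mkQ _) _ _).symm.trans
    ((S.ex _).2 ⟨⟨_, X.mon_mem (X.gzF_one (s := s) (𝔮 := ⊤) trivial h3 a)⟩,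
      Subtype.ext (Eq.trans ?_ (X.smul_mon h2 n z).symm)⟩)⟩
  refine congrArg (X.mon _) ?_
  rw [map_mul, map_mul, map_pow, map_pow, X.one, one_pow, one_pow, mul_one, mul_one,
    ← (div_eq_div_iff ha h0).1 e, mul_comm]

theorem gz_le {ι : Type} [Fintype ι] {s : ι → X.L} {b : ℕ} {F : X.Fa} (hF : X.FF F)
    (hs : ∀ a, s a ∈ F b) : X.gzF s b ⊤ ≤ F := by
  rintro n _ ⟨c, hc, rfl⟩
  refine sum_mem fun a _ => ?_
  rcases Az_cases (hc a).2 with h0 | ⟨k, e, h0⟩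
  · rw [h0, map_zero, zero_mul]; exact zero_mem _
  · have := st_mul_mem X hF (hs a) h0
    rwa [show b + k = n by omega] at this

theorem gz_one : (1 : X.L) ∈ X.MD 0 0 := fun O _ => by simp [Mo.nm]

theorem gz_cyc {ι : Type} [Fintype ι] {G : ι → ι → A} {s t : ι → X.L} {b b₁ : ℕ}
    (hd : ∀ a c, G a c ∈ 𝒜 (b + b₁)) (hst : ∀ a c, X.θ (G a c) = s a * t c)
    (hcov : ∀ y : Vp 𝒜 p, ∃ a, G a a ∉ pr y.1) {E : Dvs X.L} (hs : ∀ a, s a ∈ X.MD E b)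
    (ht : ∀ a, t a ∈ X.MD (-E) b₁) (hE : X.FF (X.MD E)) (h0 : X.FF (X.MD 0)) (r : ℕ) :
    (X.gzQ (X.gzF_ff s b ⊤) hE (X.gz_le hE hs)).cyc p r =
      (X.gzQ (X.gzF_ff (fun _ : Unit => 1) 0 ⊤) h0 (X.gz_le h0 fun _ => X.gz_one)).cyc p r := by
  have key : ∀ y : Vp 𝒜 p, (X.gzQ (X.gzF_ff s b ⊤) hE (X.gz_le hE hs)).len y.1 =
      (X.gzQ (X.gzF_ff (fun _ : Unit => 1) 0 ⊤) h0 (X.gz_le h0 fun _ => X.gz_one)).len y.1 := by
    intro y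
    obtain ⟨a, ha⟩ := hcov y
    have a₁ : ∀ k, ∀ w ∈ X.gzF (fun _ : Unit => 1) 0 ⊤ k, s a * w ∈ X.gzF s b ⊤ (k + b) := by
      rintro k _ ⟨c, hc, rfl⟩
      rw [Fintype.sum_unique, mul_one, mul_comm]
      exact X.gzF_one (𝔮 := ⊤) trivial (by simpa using (hc default).2) a
    have a₂ : ∀ k, ∀ w ∈ X.MD 0 k, s a * w ∈ X.MD E (k + b) := fun k w hw => by
      have := md_mul X 0 E k b (mul_mem_mul hw (hs a))
      rwa [zero_add, mul_comm] at this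
    have b₁' : ∀ k, ∀ w ∈ X.gzF s b ⊤ k,
        t a * w ∈ X.gzF (fun _ : Unit => 1) 0 ⊤ (k + b₁) := by
      rintro k _ ⟨c, hc, rfl⟩
      rw [Finset.mul_sum]
      refine sum_mem fun α _ => ?_
      have h1 := Az_mul (hc α).2 (show G α a ∈ Az 𝒜 (b + b₁ : ℕ) by rw [Az_nat]; exact hd α a)
      rw [show (k : ℤ) - b + (b + b₁ : ℕ) = (k + b₁ : ℕ) - (0 : ℕ) by push_cast; ring] at h1
      convert X.gzF_one (s := fun _ : Unit => 1) (𝔮 := ⊤) trivial h1 () using 1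
      rw [map_mul, hst]; ring
    have b₂ : ∀ k, ∀ w ∈ X.MD E k, t a * w ∈ X.MD 0 (k + b₁) := fun k w hw => by
      have := md_mul X E (-E) k b₁ (mul_mem_mul hw (ht a))
      rwa [add_neg_cancel, mul_comm] at this
    exact congrArg ENat.toNat (le_antisymm (X.gz_len _ _ b₁' b₂ a₁ a₂ (hd a a) (hst a a) ha)
      (X.gz_len _ _ a₁ a₂ b₁' b₂ (add_comm b b₁ ▸ hd a a) ((hst a a).trans (mul_comm _ _)) ha))
  exact gz_cyc_congr key r

end Mo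

section data

variable (j : Vp 𝒜 p) {ι : Type} [Fintype ι] {G : ι → ι → A} {s t : ι → kap j.1}

theorem gz_car {e : ℕ} (hd : ∀ a c, G a c ∈ 𝒜 e) (hst : ∀ a c, th j.1 (G a c) = s a * t c)
    (hcov : ∀ y : Vp 𝒜 p, ∃ a, G a a ∉ pr y.1) : ∃ D D' : Car (Mp j).V,
      Rep D (span (ZMod p) (Set.range s)) 0 ∧ Rep D' (span (ZMod p) (Set.range t)) 0 ∧
        D * D' = Lc _ ^ e := by
  set U := span (ZMod p) (Set.range s)
  set U' := span (ZMod p) (Set.range t)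
  have h1 : U * U' ≤ (Mp j).V ^ e := by
    rw [span_mul_span, span_le]
    rintro _ ⟨_, ⟨a, rfl⟩, _, ⟨c, rfl⟩, rfl⟩
    exact (hst a c ▸ (Mp j).th_mem_pow (hd a c) : s a * t c ∈ (Mp j).V ^ e)
  have h2 := (Mp j).local_global (N := pw (Mp j).V) (N' := fun n => (U * U') • (Mp j).V ^ (n - e))
    (fg_pw' (Mp j).V_fg) ((((fg_pw' (Mp j).V_fg).sub e).smul
      ((fg_span (Set.finite_range s)).mul (fg_span (Set.finite_range t)))).fam)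
    (Eventually.of_forall fun n w hw y hy => by
      obtain ⟨a, ha⟩ := hcov ⟨y, on_Mp.1 hy j.2⟩
      refine ⟨e, _, hd a a, ha, ?_⟩
      rw [Nat.add_sub_cancel]
      exact smul_mem_smul ((hst a a).symm ▸ mul_mem_mul (subset_span ⟨a, rfl⟩)
        (subset_span ⟨a, rfl⟩) : th j.1 (G a a) ∈ U * U') hw)
  obtain ⟨n, hn, h3⟩ := ((eventually_ge_atTop e).and h2).exists
  obtain ⟨m, rfl⟩ := Nat.exists_eq_add_of_le hn
  have h4 : U * U' * (Mp j).V ^ m = (Mp j).V ^ (e + m) := le_antisymm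
    (by rw [pow_add]; exact mul_le_mul_left h1 _) (by simpa using h3)
  obtain ⟨D, hD⟩ := exists_car (V := (Mp j).V) (U := U) (by rw [← mul_assoc, h4]) 0
  obtain ⟨D', hD'⟩ := exists_car (V := (Mp j).V) (U := U') (U' := U * (Mp j).V ^ m)
    (by rw [← mul_assoc, mul_comm U', h4]) 0
  refine ⟨D, D', hD, hD', ((hD.mul hD').of_eq (c := m) ?_).unique
    (by simpa using (rep_L (V := (Mp j).V)).pow e)⟩
  rw [add_zero, add_zero, add_zero, mul_comm, h4, ← pow_add, add_comm]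

theorem gz_on {e : ℕ} (hd : ∀ a c, G a c ∈ 𝒜 e) (hst : ∀ a c, th j.1 (G a c) = s a * t c)
    {D : Car (Mp j).V} (hD : Rep D (span (ZMod p) (Set.range s)) 0) : glue_On j e G (cl D) := by
  refine ⟨s, t, D, _, hD, rfl, fun a => subset_span ⟨a, rfl⟩, fun c u hu => ?_, hst⟩
  induction hu using span_induction with
  | mem _ h =>
    obtain ⟨a, rfl⟩ := h
    exact hst a c ▸ (Mp j).th_mem_pow (hd a c)
  | zero => rw [zero_mul]; exact zero_mem _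
  | add a a' _ _ h3 h4 => rw [add_mul]; exact add_mem h3 h4
  | smul r a _ h3 => rw [smul_mul_assoc]; exact smul_mem _ _ h3

end data

end

end Pool.Agent.Lib.MP_62d77c_ag.R
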