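import Pool.Agent.Lib.MP_62d77c_ag.R.DevA
import Pool.Agent.Lib.MP_62d77c_ag.End.Fib0

/-! The multiplicities of the components of a fibre. -/

set_option autoImplicit false
set_option linter.unusedSectionVars false

namespace Pool.Agent.Lib.MP_62d77c_ag.R

open Filter Polynomial Submodule
open scoped TensorProduct

noncomputable section

variable {A : Type} [CommRing A] [IsDomain A] {𝒜 : ℕ → AddSubgroup A} [GradedRing 𝒜]
  [hG : Fact (Gen 𝒜)] {p : ℕ} [Fact p.Prime]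

/-- the stalk of a cyclic module -/
theorem gzm_st {I : Ideal A} (hI : I.IsHomogeneous 𝒜) (x : Pt 𝒜) :
    Nonempty ((Lo x ⧸ I.map (algebraMap A (Lo x))) ≃ₗ[Lo x] (cy 𝒜 I).St x) := by
  let q : A →ₗ[A] (cy 𝒜 I).M := ((one 𝒜).core I).mkQ
  have hq : ∀ a : A, q a = 0 ↔ a ∈ I := fun a => by
    refine (Submodule.Quotient.mk_eq_zero _).trans ?_
    rw [(one 𝒜).core_eq (hg_one hI)]
    rfl
  let φ := LinearMap.toSpanSingleton (Lo x) ((cy 𝒜 I).St x) ((1 : Lo x) ⊗ₜ[A] q 1)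
  have hφ : ∀ a : A, φ (algebraMap A (Lo x) a) = (1 : Lo x) ⊗ₜ[A] q a := fun a => by
    have : q a = a • q 1 := by rw [← map_smul, smul_eq_mul, mul_one]
    rw [this, TensorProduct.tmul_smul]
    exact algebraMap_smul (Lo x) a _
  have h1 : Function.Surjective φ := fun ξ => by
    induction ξ using TensorProduct.induction_on with
    | zero => exact ⟨0, map_zero _⟩
    | add u v hu hv =>
      obtain ⟨r, rfl⟩ := hu
      obtain ⟨s, rfl⟩ := hv
      exact ⟨r + s, map_add _ _ _⟩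
    | tmul r m =>
      obtain ⟨a, rfl⟩ : ∃ a, q a = m := ((one 𝒜).core I).mkQ_surjective m
      refine ⟨r • algebraMap A (Lo x) a, ?_⟩
      rw [map_smul, hφ, TensorProduct.smul_tmul', smul_eq_mul, mul_one]
  have h2 : LinearMap.ker φ = I.map (algebraMap A (Lo x)) := by
    refine le_antisymm (fun r hr => ?_) (Ideal.map_le_iff_le_comap.2 fun a ha => ?_)
    · obtain ⟨k, a, ha, s, hs, hs', e1⟩ := lo_surj x r
      have h3 : (1 : Lo x) ⊗ₜ[A] q a = 0 := by
        rw [← hφ, ← e1, ← smul_eq_mul, map_smul, LinearMap.mem_ker.1 hr, smul_zero]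
      have h4 : q a ∈ (cy 𝒜 I).g k := ⟨a, (Az_nat (𝒜 := 𝒜) k).ge ha, rfl⟩
      obtain ⟨l, t, ht, h5, h6⟩ := (st_zero x h4).1 h3
      have h7 := Ideal.mem_map_of_mem (algebraMap A (Lo x))
        ((hq (t • a)).1 ((map_smul q t a).trans h6))
      rwa [smul_eq_mul, map_mul, ← e1, Ideal.unit_mul_mem_iff_mem _ ((lo_unit x ht).2 h5),
        Ideal.unit_mul_mem_iff_mem _ ((lo_unit x hs).2 hs')] at h7
    · show φ (algebraMap A (Lo x) a) = 0
      rw [hφ, (hq a).2 ha, TensorProduct.tmul_zero]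
  exact ⟨(Submodule.quotEquivOfEq _ _ h2.symm).trans (φ.quotKerEquivOfSurjective h1)⟩

theorem gzm_max {x : Pt 𝒜} {e : ℕ} {g : A} (h : (MX 𝒜).GenI (pr x) x e g) :
    Ideal.span {algebraMap A (Lo x) g} = IsLocalRing.maximalIdeal (Lo x) := by
  refine le_antisymm ((Ideal.span_singleton_le_iff_mem _).2 fun k => (lo_unit x h.2.1).1 k h.1)
    fun r hr => ?_
  obtain ⟨k, a, ha, s, hs, hs', e1⟩ := lo_surj x r
  have h4 : a ∈ pr x := by
    by_contra hc
    exact hr (isUnit_of_mul_isUnit_right (e1 ▸ (lo_unit x ha).2 hc))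
  obtain ⟨_, _, b, hb, c, -, h1, -, h2⟩ := h.2.2.2 k a h4 ha
  have h3 := congrArg (algebraMap A (Lo x))
    (FaithfulSMul.algebraMap_injective A (FractionRing A) h2)
  rw [map_mul, map_mul, ← e1] at h3
  rw [← Ideal.unit_mul_mem_iff_mem _ ((lo_unit x hs).2 hs'),
    ← Ideal.unit_mul_mem_iff_mem _ ((lo_unit x hb).2 h1), h3]
  exact Ideal.mul_mem_left _ _ (Ideal.mem_span_singleton_self _)

theorem mu_eq {m : Comp 𝒜 p → ℕ} {I : Comp 𝒜 p → Car (MX 𝒜).V} (h : Fib0 m I) (j : Comp 𝒜 p) :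
    m j = mu j := by
  classical
  choose e g hg using fun k : Comp 𝒜 p => h.lp k j.1.1 (on_MX _)
  obtain ⟨n, n', b, hb, c, hc, hb', hc', -, e1⟩ := h.eqn j.1 e g hg
  obtain ⟨φ⟩ := gzm_st (md_span_hom (md_natCast_mem (𝒜 := 𝒜) p)) j.1.1
  have e2 := congrArg (algebraMap A (Lo j.1.1)) e1
  rw [map_mul, map_mul, ← Finset.prod_erase_mul _ _ (Finset.mem_univ j), map_mul, map_pow] at e2
  have h1 : IsUnit (algebraMap A (Lo j.1.1) (∏ k ∈ Finset.univ.erase j, g k ^ m k)) := by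
    rw [map_prod]
    refine IsUnit.prod_iff.2 fun k hk => ?_
    rw [map_pow]
    exact ((lo_unit _ (hg k).2.1).2 (AM.GenI.not_mem (MX 𝒜) (pr_hom _) (on_MX _) (hg k)
      fun k' => Finset.ne_of_mem_erase hk (cI_le_iff.1 k'))).pow _
  have h2 : algebraMap A (Lo j.1.1) (g j) ∈ nonZeroDivisors _ :=
    mem_nonZeroDivisors_of_ne_zero fun k => (hg j).2.2.1 (by
      rw [(lo_inj _ (hg j).2.1).1 k, map_zero])
  have h3 : Ring.ord (Lo j.1.1) (algebraMap A _ (g j)) = 1 := by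
    rw [Ring.ord, gzm_max (hg j)]
    exact Module.length_eq_one_iff.2 (isSimpleModule_iff_quot_maximal.2
      ⟨_, IsLocalRing.maximalIdeal.isMaximal _, ⟨LinearEquiv.refl _ _⟩⟩)
  have h4 := congrArg (Ring.ord (Lo j.1.1)) e2
  rw [Ring.ord_mul_of_isUnit_left ((lo_unit _ hb).2 hb'),
    Ring.ord_mul_of_isUnit_left ((lo_unit _ hc).2 hc'), Ring.ord_mul_of_isUnit_left h1,
    Ring.ord_pow h2, h3, Ring.ord, ← Set.image_singleton, ← Ideal.map_span, φ.length_eq] at h4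
  rw [mu, GM.len, h4]
  simp

end

end Pool.Agent.Lib.MP_62d77c_ag.R
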