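import Pool.Agent.Lib.MP_62d77c_ag.R.GZ1
import Pool.Agent.Lib.MP_62d77c_ag.R.GZ3
import Pool.Agent.Lib.MP_62d77c_ag.R.GZm
import Pool.Agent.Lib.MP_62d77c_ag.R.K5

/-! A cohomologically trivial cycle is orthogonal to a glued divisor. -/

set_option autoImplicit false
set_option linter.unusedSectionVars false

namespace Pool.Agent.Lib.MP_62d77c_ag.R

open Filter Polynomial Submodule Function

noncomputable section

variable {A : Type} [CommRing A] [IsDomain A] {𝒜 : ℕ → AddSubgroup A} [GradedRing 𝒜]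
  [hG : Fact (Gen 𝒜)] {p : ℕ} [Fact p.Prime]

theorem gz_lam (h : Hyp 𝒜) (j : Comp 𝒜 p) (hlp : (MX 𝒜).LP (cI j)) {W : Pt 𝒜}
    (hW : CharZero (kap W)) (h1 : tr W = 1) {ι : Type} [Fintype ι] {G : ι → ι → A} {b b₁ : ℕ}
    (hd : ∀ a c, G a c ∈ 𝒜 (b + b₁)) {s t : ι → kap j.1.1}
    (hst : ∀ a c, th j.1.1 (G a c) = s a * t c) (hcov : ∀ y : Vp 𝒜 p, ∃ a, G a a ∉ pr y.1)
    {E : Dvs (Xc j).L} (hs : ∀ a, s a ∈ (Xc j).MD E b) (ht : ∀ a, t a ∈ (Xc j).MD (-E) b₁)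
    {D : Car (Mp j.1).V} (hD : Rep D (span (ZMod p) (Set.range s)) b) :
    lam W ((Xc j).psh E) = lin 0 (Phi j.1 (pr W)) (cl D) := by
  have hp : (p : A) ∉ pr W := fun e => not_charZero_of_mem W (Fact.out : p.Prime).ne_zero e hW
  have hC := cod_horiz (p := p) h hW h1
  obtain ⟨a, ha⟩ := hcov j.1
  have hs0 : s a ≠ 0 := left_ne_zero_of_mul (hst a a ▸ fun h0 => ha ((th_eq_zero _ (hd a a)).1 h0))
  have key : ∀ {F F' : (Xc j).Fa} (hF : (Xc j).FF F) (hF' : (Xc j).FF F') (l : F ≤ F'),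
      ((Xc j).gzQ hF hF' l).DimLt p (dm j.1) → T p (cy 𝒜 (pr W)) ((Xc j).gm F' hF') =
        T p (cy 𝒜 (pr W)) ((Xc j).gm F hF) + C (lam W (((Xc j).gzQ hF hF' l).cyc p 2)) := by
    intro F F' hF hF' l hdim
    have S := (sm_quot ((Xc j).inc_hom hF hF' l) ((Xc j).inc_inj hF hF' l)).ses
    rw [T_ses h S (Or.inr (fb_gm _ _)), T_surf h hC (S.fb (fb_gm _ _)).2 (dm_Comp h j ▸ hdim)]
  have e1 := key _ (ffd j E) _ ((Xc j).gz_dim (th_gen j.1.1) hs0 _ ((Xc j).gz_le (ffd j E) hs))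
  have e2 := key _ (ffd j 0) _ ((Xc j).gz_dim (th_gen j.1.1) (s := fun _ : Unit => 1) (a := ())
    one_ne_zero _ ((Xc j).gz_le (ffd j 0) fun _ => (Xc j).gz_one))
  have e5 := gz_T h j.1 hlp hp hd hst hcov hD
  have e6 := gz_T h j.1 hlp hp (G := fun _ _ : Unit => 1) (e := 0) (b := 0) (s := fun _ => 1)
    (t := fun _ => 1) (D := 1) (fun _ _ => SetLike.one_mem_graded 𝒜) (fun _ _ => by simp)
    (fun y => ⟨(), md_one_not_mem _⟩) (by rw [Set.range_const, ← one_eq_span]; exact rep_one)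
  rw [(Xc j).gz_cyc hd hst hcov hs ht _ (ffd j 0)] at e1
  have e3 := T_push h ffd hC j E
  have e4 : C (lam W ((Xc j).psh E)) = Phi j.1 (pr W) (cl D) - Phi j.1 (pr W) 1 := by
    rw [← e5, ← map_one cl, ← e6]
    exact eq_sub_of_add_eq' (add_right_cancel (((add_right_comm _ _ _).trans
      ((congrArg (· + _) e2.symm).trans e3.symm)).trans e1))
  rw [lin, dl, one_mul, ← e4, coeff_C_zero]

/-- the pairing as an additive map -/
def gzLam (W : Pt 𝒜) : (Vp 𝒜 p →₀ ℤ) →+ ℚ where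
  toFun := lam W
  map_zero' := Finsupp.sum_zero_index
  map_add' _ _ := Finsupp.sum_add_index' (by simp) (by simp [add_mul])

theorem gz_psh (X : Mo 𝒜 p) (D : Dvs X.L) (n : ℕ) : X.psh (n • D) = n • X.psh D :=
  map_nsmul (AddMonoidHom.mk' X.psh (psh_add X)) n D

theorem l_last (h : Hyp 𝒜) {c : Pt 𝒜 →₀ ℚ}
    (hc : ∀ x ∈ c.support, CharZero (kap x) ∧ tr x = 1) (ht : CohTriv c) (D : DT 𝒜 p) {N : ℕ}
    (hN : 0 < N) {ι : Type} [Fintype ι] {b b₁ : ℕ} (hb : 0 < b + b₁) (G : ι → ι → A)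
    (hd : ∀ a c, G a c ∈ 𝒜 (b + b₁)) (s t : ∀ j : Comp 𝒜 p, ι → (Xc j).L)
    (hs : ∀ j a, s j a ∈ (Xc j).MD (N • D j) b) (ht₁ : ∀ j a, t j a ∈ (Xc j).MD (-(N • D j)) b₁)
    (hst : ∀ (j : Comp 𝒜 p) a c, (Xc j).θ (G a c) = s j a * t j c)
    (hcov : ∀ y : Vp 𝒜 p, ∃ a, G a a ∉ pr y.1) :
    (c.sum fun W n => n * lam W (push D)) = 0 := by
  have := h.cz
  obtain ⟨m, I, hF⟩ := exists_fib0 (p := p) h.reg
  choose M M' h1 h2 h3 using fun j : Comp 𝒜 p => gz_car j.1 hd (hst j) hcov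
  have hu : ∀ j : Comp 𝒜 p, ∃ U : Car (Mp j.1).V,
      Rep U (span (ZMod p) (Set.range (s j))) b ∧ cl U * Lp _ ^ b = cl (M j) := fun j => by
    obtain ⟨U', k, e⟩ := (h1 j).exists_inv
    obtain ⟨U, hU⟩ := exists_car e b
    exact ⟨U, hU, by rw [← hU.mul_L.unique (h1 j), map_mul, map_pow]; rfl⟩
  choose U h4 h5 using hu
  have e := gz_zero hF hc ht hb hd hcov (fun j => gz_on j.1 hd (hst j) (h1 j))
    (fun j => gz_on j.1 (G := fun a c => G c a) (fun a c => hd c a)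
      (fun a c => (hst j c a).trans (mul_comm _ _)) (h2 j))
    (fun j => by rw [← map_mul, h3, map_pow]; rfl) b _ h5
  have e2 : (N : ℚ) * (c.sum fun W n => n * lam W (push D)) =
      -∑ j : Comp 𝒜 p, (m j : ℚ) * cyc I c j (cl (U j)) := by
    unfold cyc Finsupp.sum Psi
    simp only [Finset.mul_sum]
    rw [Finset.sum_comm, ← Finset.sum_neg_distrib]
    refine Finset.sum_congr rfl fun W hW => ?_
    have e3 : lam W (push D) = ∑ j, mu j • lam W ((Xc j).psh (D j)) :=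
      (map_sum (gzLam W) _ _).trans (Finset.sum_congr rfl fun j _ => map_nsmul (gzLam W) _ _)
    rw [e3, Finset.mul_sum, Finset.mul_sum, ← Finset.sum_neg_distrib]
    refine Finset.sum_congr rfl fun j _ => ?_
    have e4 : lam W (N • (Xc j).psh (D j)) = N • lam W ((Xc j).psh (D j)) :=
      map_nsmul (gzLam W) _ _
    rw [PV_horiz j _ (hc W hW).1, ← gz_lam h j (hF.lp j) (hc W hW).1 (hc W hW).2 hd (hst j) hcov
      (hs j) (ht₁ j) (h4 j), gz_psh, e4, mu_eq hF]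
    simp only [nsmul_eq_mul]
    ring
  rw [e, neg_zero] at e2
  exact (mul_eq_zero.1 e2).resolve_left (by exact_mod_cast hN.ne')

end

end Pool.Agent.Lib.MP_62d77c_ag.R
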