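import Pool.Agent.Lib.MP_62d77c_ag.R.GE
import Pool.Agent.Lib.MP_62d77c_ag.R.GZ

/-! A cohomologically trivial cycle is orthogonal to a glued Cartier divisor. -/

set_option autoImplicit false
set_option linter.unusedSectionVars false

namespace Pool.Agent.Lib.MP_62d77c_ag.R

noncomputable section

variable {A : Type} [CommRing A] [IsDomain A] {𝒜 : ℕ → AddSubgroup A} [GradedRing 𝒜]
  [hG : Fact (Gen 𝒜)] {p : ℕ} [Fact p.Prime]

theorem l_of_cart (h : Hyp 𝒜) {c : Pt 𝒜 →₀ ℚ}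
    (hc : ∀ x ∈ c.support, CharZero (kap x) ∧ tr x = 1) (ht : CohTriv c) (D : DT 𝒜 p)
    (hD : ∀ j, (Xc j).Cart (D j))
    (hT : ∀ j k (P : Pair (Xc j) (Xc k)), Off P → P.Tors (D j) (D k)) :
    (c.sum fun W n => n * lam W (push D)) = 0 := by
  obtain ⟨N, ι, _, b, b₁, G, s, t, h1, h2, h3, h4, h5, h6, h7⟩ := g_descent h D hD hT
  exact l_last h hc ht D h1 h2 G h3 s t h4 h5 h6 h7

end

end Pool.Agent.Lib.MP_62d77c_ag.R
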