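import Pool.Agent.Lib.MP_62d77c_ag.R.K1
import Pool.Agent.Lib.MP_62d77c_ag.R.Dm

/-! Surfaces in a regular fibre have intersection number zero. -/

set_option autoImplicit false
set_option linter.unusedSectionVars false
set_option linter.style.haveILetI false
set_option linter.unusedVariables false

namespace Pool.Agent.Lib.MP_62d77c_ag.R

open Filter Polynomial Submodule
open scoped TensorProduct Matrix

noncomputable section

/-- an element of order one of a regular local ring -/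
theorem gd_gen {R : Type} [CommRing R] [IsRegularLocalRing R] {x : R}
    (h1 : x ∈ IsLocalRing.maximalIdeal R) (h2 : x ∉ IsLocalRing.maximalIdeal R ^ 2) :
    (Ideal.span {x}).IsPrime ∧ IsRegularLocalRing (R ⧸ Ideal.span {x}) := by
  classical
  have hd := (IsRegularLocalRing.spanFinrank_maximalIdeal (R := R)).symm
  obtain ⟨xs, e1, e2, -⟩ := Pool.Agent.Lib.MP_a966df_ag.reg_seq R hd
  rw [← e1] at hd
  have ht : Ideal.span (Set.range xs.get) = IsLocalRing.maximalIdeal R := by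
    rw [← e2, Ideal.ofList, Set.range_list_get]
  have hm : ∀ i, xs.get i ∈ IsLocalRing.maximalIdeal R := fun i => ht ▸ Ideal.subset_span ⟨i, rfl⟩
  obtain ⟨c, hc⟩ := Ideal.mem_span_range_iff_exists_fun.1 (ht ▸ h1)
  obtain ⟨i, hi⟩ : ∃ i, c i ∉ IsLocalRing.maximalIdeal R := by
    by_contra hh
    push Not at hh
    exact h2 (hc ▸ sum_mem fun i _ => pow_two (IsLocalRing.maximalIdeal R) ▸
      Ideal.mul_mem_mul (hh i) (hm i))
  have ht' : Ideal.span (Set.range (Function.update xs.get i x)) = IsLocalRing.maximalIdeal R := by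
    refine le_antisymm (Ideal.span_le.2 ?_) (ht.ge.trans (Ideal.span_le.2 ?_))
    · rintro _ ⟨j, rfl⟩
      by_cases e : j = i
      · subst e; rwa [Function.update_self]
      · rw [Function.update_of_ne e]; exact hm j
    · have k : ∀ j, j ≠ i → xs.get j ∈ Ideal.span (Set.range (Function.update xs.get i x)) :=
        fun j e => Ideal.subset_span ⟨j, Function.update_of_ne e _ _⟩
      rintro _ ⟨j, rfl⟩
      by_cases e : j = i
      · subst e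
        have k1 : x ∈ Ideal.span (Set.range (Function.update xs.get j x)) :=
          Ideal.subset_span ⟨j, Function.update_self _ _ _⟩
        refine (Ideal.unit_mul_mem_iff_mem _ (IsLocalRing.notMem_maximalIdeal.1 hi)).1 ?_
        rw [← Finset.add_sum_erase _ _ (Finset.mem_univ j)] at hc
        rw [eq_sub_of_add_eq hc]
        exact sub_mem k1 (sum_mem fun l hl =>
          Ideal.mul_mem_left _ _ (k l (Finset.ne_of_mem_erase hl)))
      · exact k j e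
  have := reg_quot _ hd ht' {i}
  rw [Set.image_singleton, Function.update_self] at this
  exact ⟨this.1, this.2.2⟩

variable {A : Type} [CommRing A] [IsDomain A] {𝒜 : ℕ → AddSubgroup A} [GradedRing 𝒜]
  [hG : Fact (Gen 𝒜)] {p : ℕ} [Fact p.Prime] {N N' G : GM 𝒜}

/-- a map that is an isomorphism along the fibre preserves the Hilbert polynomial -/
theorem gd_hp_eq {φ : N.M →ₗ[A] N'.M} (hφ : IsHom N N' 0 φ) (hF : N.Fb p) (hF' : N'.Fb p)
    (h : ∀ y : Vp 𝒜 p, ∃ k, ∃ s ∈ 𝒜 k, s ∉ pr y.1 ∧ (∀ m, φ m = 0 → s • m = 0) ∧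
      ∀ m, s • m ∈ LinearMap.range φ) : N.hp p = N'.hp p := by
  have s1 := ses_sub_quot N (LinearMap.ker φ)
  have s2 := ses_sub_quot N' (LinearMap.range φ)
  have z1 : (N.sub (LinearMap.ker φ)).hp p = 0 := hp_zero (k1_ev_bot (s1.fb hF).1 fun y =>
    let ⟨_, s, hs, hy, e, _⟩ := h y
    k1_zeroAt hs hy fun m => Subtype.ext (e m.1 (N.core_le _ m.2)))
  have z2 : (N'.quot (LinearMap.range φ)).hp p = 0 := hp_zero (k1_ev_bot (s2.fb hF').2 fun y =>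
    let ⟨_, s, hs, hy, _, e⟩ := h y
    k1_zeroAt hs hy (k1_quot_kill hφ.hg_range e))
  rw [hp_ses s1 hF, hp_ses s2 hF', z1, z2, zero_add, add_zero]
  have hc := N'.core_eq hφ.hg_range
  let ψ : N.M →ₗ[A] (N'.sub (LinearMap.range φ)).M :=
    φ.codRestrict (N'.core (LinearMap.range φ)) fun m => hc.ge ⟨m, rfl⟩
  refine k1_hp_eq (k1_card_eq (g := ψ) (k1_isHom_mk _ _) (fun n m hm => hφ n m hm)
    (mkQ_surjective _) (fun t => ?_) fun m => ?_)
  · obtain ⟨m, hm⟩ := hc.le t.2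
    exact ⟨m, Subtype.ext hm⟩
  · exact (k1_mk_zero hφ.hg_ker m).trans ⟨fun e => Subtype.ext e, fun e => congrArg Subtype.val e⟩

theorem gd_ses_quot (N : GM 𝒜) {B W : Submodule A N.M} (hB : N.Hg B) (hW : N.Hg W) (h1 : B ≤ W) :
    SES (N.sq W B) (N.quot B) (N.quot W) := by
  refine ⟨mapQ _ _ (N.core W).subtype fun m hm => (N.core_eq hB).ge ((mem_core_sub hB m).1 hm),
    mapQ _ _ LinearMap.id fun m hm n => h1 (hm n), ?_, ?_, ?_, fun x => ?_, fun x => ?_⟩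
  · rintro n _ ⟨m, hm, rfl⟩
    exact (add_zero n).symm ▸ ⟨m.1, hm, rfl⟩
  · rintro n _ ⟨m, hm, rfl⟩
    exact (add_zero n).symm ▸ ⟨m, hm, rfl⟩
  · refine (injective_iff_map_eq_zero _).2 fun x hx => ?_
    obtain ⟨m, rfl⟩ := mkQ_surjective _ x
    exact (Quotient.mk_eq_zero _).2 ((mem_core_sub hB m).2
      (N.core_le B ((Quotient.mk_eq_zero _).1 hx)))
  · obtain ⟨m, rfl⟩ := mkQ_surjective _ x
    constructor
    · intro hx
      exact ⟨mkQ _ (show (N.sub W).M from ⟨m, (Quotient.mk_eq_zero _).1 hx⟩), rfl⟩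
    · rintro ⟨y, hy⟩
      obtain ⟨w, rfl⟩ := mkQ_surjective _ y
      rw [← hy]
      exact (Quotient.mk_eq_zero _).2 w.2
  · obtain ⟨m, rfl⟩ := mkQ_surjective _ x
    exact ⟨mkQ _ m, rfl⟩

theorem gd_homot (R : Res N) (hF : N.Fb p) : ∃ H : Matrix (Fin (R.b 1)) (Fin (R.b 0)) A,
    (∀ i j, H i j ∈ Az 𝒜 (R.a 0 j - R.a 1 i + 0)) ∧ R.D 0 * H = (p : A) • 1 := by
  have key : ∀ j, ∃ w ∈ ((one 𝒜).pw (R.a 1)).g (R.a 0 j), mact A (R.D 0) w =
      fun i => ((p : A) • (1 : Matrix (Fin (R.b 0)) (Fin (R.b 0)) A)) i j := fun j => by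
    refine (R.isHom (one 𝒜) 0).lift ((GM.mem_pw (one 𝒜)).2 fun i => ?_) ((R.ex0 _).1 ?_)
    · change (p : A) * (1 : Matrix (Fin (R.b 0)) (Fin (R.b 0)) A) i j ∈ Az 𝒜 _
      by_cases e : i = j
      · subst e
        rw [Matrix.one_apply_eq, mul_one, add_zero, sub_self]
        exact (Az_nat (𝒜 := 𝒜) 0).ge (md_natCast_mem p)
      · rw [Matrix.one_apply_ne e, mul_zero]; exact zero_mem _
    · have : (fun i => ((p : A) • (1 : Matrix (Fin (R.b 0)) (Fin (R.b 0)) A)) i j) =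
          (p : A) • (fun i => (1 : Matrix (Fin (R.b 0)) (Fin (R.b 0)) A) i j) := rfl
      rw [this, map_smul, hF]
  choose w h1 h2 using key
  refine ⟨Matrix.of fun i j => w j i, fun i j => ?_, ?_⟩
  · rw [add_zero]; exact (GM.mem_pw (one 𝒜)).1 (h1 j) i
  · ext i j; exact congrFun (h2 j) i

section beta
variable {M : Type} [AddCommGroup M] [Module A M] {β : A →ₗ[A] M} {s : A} {ι : Type}

theorem gd_onto (h : ∀ x, s • x ∈ LinearMap.range β) (v : ι → M) :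
    ∃ z : ι → A, k1V β ι z = s • v := by
  choose z hz using fun i => h (v i)
  exact ⟨z, funext hz⟩

theorem gd_into (h : ∀ z, β z = 0 → s * z ∈ Ideal.span {(p : A)}) {z : ι → A}
    (hz : k1V β ι z = 0) : ∃ w : ι → A, (p : A) • w = s • z := by
  choose w hw using fun i => Ideal.mem_span_singleton'.1 (h (z i) (congrFun hz i))
  exact ⟨w, funext fun i => (mul_comm _ _).trans (hw i)⟩

theorem gd_cancel (hp : (p : A) ≠ 0) {v w : ι → A} (h : (p : A) • v = (p : A) • w) : v = w :=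
  funext fun i => mul_left_cancel₀ hp (congrFun h i)

theorem gd_dd (R : Res N) (q : ℕ) (v : Fin (R.b (q + 2)) → M) :
    mact M (R.D q) (mact M (R.D (q + 1)) v) = 0 := by
  rw [← k1_mact_mul, k1_mul_zero (R.ex q), k1_mact_zero]

theorem gd_DH {R : Res N} {H : Matrix (Fin (R.b 1)) (Fin (R.b 0)) A} (eH : R.D 0 * H = (p : A) • 1)
    (v : Fin (R.b 0) → M) : mact M (R.D 0) (mact M H v) = (p : A) • v := by
  rw [← k1_mact_mul, eH, k1_mact_smul, k1_mact_one]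

theorem gd_high (R : Res N) (hp : (p : A) ≠ 0) (pz : ∀ m : M, (p : A) • m = 0)
    (b1 : ∀ x, s • x ∈ LinearMap.range β) (b2 : ∀ z, β z = 0 → s * z ∈ Ideal.span {(p : A)})
    (q : ℕ) (v : Fin (R.b (q + 2)) → M) (hv : mact M (R.D (q + 1)) v = 0) :
    (s * s) • v ∈ LinearMap.range (mact M (R.D (q + 2))) := by
  obtain ⟨z, hz⟩ := gd_onto b1 v
  obtain ⟨w, hw⟩ := gd_into b2 (z := mact A (R.D (q + 1)) z) (by
    rw [← k1V_mact, hz, map_smul, hv, smul_zero])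
  obtain ⟨u, hu⟩ := (R.ex q w).1 (gd_cancel hp (by
    rw [← map_smul, hw, map_smul, gd_dd R, smul_zero, smul_zero]))
  obtain ⟨t, ht⟩ := (R.ex (q + 1) (s • z - (p : A) • u)).1 (by
    rw [map_sub, map_smul, map_smul, hu, hw, sub_self])
  refine ⟨k1V β _ t, (k1V_mact β _ t).trans ?_⟩
  rw [ht, map_sub, map_smul, map_smul, hz, show (p : A) • k1V β _ u = 0 from funext fun _ => pz _,
    sub_zero, mul_smul]

theorem gd_ker {R : Res N} {H : Matrix (Fin (R.b 1)) (Fin (R.b 0)) A} (eH : R.D 0 * H = (p : A) • 1)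
    (hp : (p : A) ≠ 0) (b1 : ∀ x, s • x ∈ LinearMap.range β)
    (b2 : ∀ z, β z = 0 → s * z ∈ Ideal.span {(p : A)}) (v : Fin (R.b 0) → M)
    (hv : mact M H v ∈ LinearMap.range (mact M (R.D 1))) :
    (s * s) • v ∈ LinearMap.range (mact M (R.D 0)) := by
  obtain ⟨u, hu⟩ := hv
  obtain ⟨z, hz⟩ := gd_onto b1 v
  obtain ⟨x, hx⟩ := gd_onto b1 u
  obtain ⟨w, hw⟩ := gd_into b2 (z := mact A H z - mact A (R.D 1) x) (by
    rw [map_sub, ← k1V_mact, ← k1V_mact, hz, hx, map_smul, map_smul, hu, sub_self])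
  have e : mact A (R.D 0) w = s • z := gd_cancel hp (by
    rw [← map_smul, hw, map_smul, map_sub, gd_DH eH, gd_dd R, sub_zero, smul_comm])
  refine ⟨k1V β _ w, (k1V_mact β _ w).trans ?_⟩
  rw [e, map_smul, hz, mul_smul]

theorem gd_cok {R : Res N} {H : Matrix (Fin (R.b 1)) (Fin (R.b 0)) A} (eH : R.D 0 * H = (p : A) • 1)
    (b1 : ∀ x, s • x ∈ LinearMap.range β) (b2 : ∀ z, β z = 0 → s * z ∈ Ideal.span {(p : A)})
    (v : Fin (R.b 1) → M) (hv : mact M (R.D 0) v = 0) :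
    ∃ w, (s * s) • v - mact M H w ∈ LinearMap.range (mact M (R.D 1)) := by
  obtain ⟨z, hz⟩ := gd_onto b1 v
  obtain ⟨w, hw⟩ := gd_into b2 (z := mact A (R.D 0) z) (by
    rw [← k1V_mact, hz, map_smul, hv, smul_zero])
  obtain ⟨t, ht⟩ := (R.ex 0 (s • z - mact A H w)).1 (by
    rw [map_sub, map_smul, gd_DH eH, hw, sub_self])
  refine ⟨k1V β _ w, k1V β _ t, (k1V_mact β _ t).trans ?_⟩
  rw [k1V_mact, mul_smul, ← hz, ← map_smul, ← map_sub, ← ht]

theorem gd_bdry {R : Res N} {H : Matrix (Fin (R.b 1)) (Fin (R.b 0)) A}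
    (eH : R.D 0 * H = (p : A) • 1) (pz : ∀ m : M, (p : A) • m = 0) (u : Fin (R.b 1) → M) :
    mact M H (mact M (R.D 0) u) ∈ LinearMap.range (mact M (R.D 1)) := by
  obtain ⟨K, eK⟩ := k1_lift' (R.ex 0) (H * R.D 0 - (p : A) • 1) (by
    rw [Matrix.mul_sub, ← Matrix.mul_assoc, eH, Matrix.smul_mul, Matrix.mul_smul, Matrix.one_mul,
      Matrix.mul_one, sub_self])
  refine ⟨mact M K u, (k1_mact_mul _ K u).symm.trans ((congrArg (mact M · u) eK).trans ?_)⟩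
  rw [k1_mact_sub, k1_mact_smul, k1_mact_one, show (p : A) • u = 0 from funext fun _ => pz _,
    sub_zero, k1_mact_mul]

end beta

/-- a module that is locally `A / p` is orthogonal to the fibral modules -/
theorem gd_koszul (R : Res N) (hF : N.Fb p) (hF' : G.Fb p) (hp : (p : A) ≠ 0)
    (h : ∀ y : Vp 𝒜 p, ∃ k, ∃ s ∈ 𝒜 k, s ∉ pr y.1 ∧ ∃ β : A →ₗ[A] G.M,
      (∀ x, s • x ∈ LinearMap.range β) ∧ ∀ z, β z = 0 → s * z ∈ Ideal.span {(p : A)}) :
    R.TT G p = 0 := by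
  obtain ⟨H, hH, eH⟩ := gd_homot R hF
  have h2 : ∀ q, (R.Tor G (q + 2)).hp p = 0 := fun q =>
    hp_zero (k1_ev_bot (tor_fb R (Or.inl hF) _) fun y =>
      let ⟨_, s, hs, hy, β, b1, b2⟩ := h y
      k1_zeroAt (SetLike.mul_mem_graded hs hs) (md_mul_not_mem hy hy)
        (k1_sq_kill (R.isHom G (q + 2)).hg_range (gd_high R hp hF' b1 b2 q)))
  have hK := (G.pw (R.a 1)).core_eq (R.isHom G 0).hg_ker
  have hB := (R.isHom G 1).hg_range
  let η : (G.pw (R.a 0)).M →ₗ[A]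
      ((G.pw (R.a 1)).sub (LinearMap.ker (mact G.M (R.D 0)))).M :=
    (mact G.M H).codRestrict _ fun v => hK.ge ((gd_DH eH v).trans (funext fun _ => hF' _))
  let ψ : (G.pw (R.a 0)).M →ₗ[A] (R.Tor G 1).M := mkQ _ ∘ₗ η
  have hz : ∀ t : ((G.pw (R.a 1)).sub (LinearMap.ker (mact G.M (R.D 0)))).M,
      (show (R.Tor G 1).M from mkQ _ t) = 0 ↔ t.1 ∈ LinearMap.range (mact G.M (R.D 1)) :=
    fun t => (Quotient.mk_eq_zero _).trans (mem_core_sub hB t)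
  let φ : (R.Tor G 0).M →ₗ[A] (R.Tor G 1).M :=
    ((G.pw (R.a 0)).core (LinearMap.range (mact G.M (R.D 0)))).liftQ ψ fun v hv => by
      obtain ⟨u, rfl⟩ := (G.pw (R.a 0)).core_le _ hv
      exact (hz _).2 (gd_bdry eH hF' u)
  have h01 : (R.Tor G 0).hp p = (R.Tor G 1).hp p := by
    refine gd_hp_eq (φ := φ) ?_ (tor_fb R (Or.inl hF) 0) (tor_fb R (Or.inl hF) 1) fun y => ?_
    · rintro n _ ⟨v, hv, rfl⟩
      exact ⟨η v, isHom_mact G hH n v hv, rfl⟩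
    obtain ⟨k, s, hs, hy, β, b1, b2⟩ := h y
    refine ⟨_, s * s, SetLike.mul_mem_graded hs hs, md_mul_not_mem hy hy, fun m hm => ?_,
      fun m => ?_⟩
    · obtain ⟨v, rfl⟩ := mkQ_surjective _ m
      exact (k1_mk_zero (R.isHom G 0).hg_range _).2 (gd_ker eH hp b1 b2 v ((hz (η v)).1 hm))
    · obtain ⟨v, rfl⟩ := mkQ_surjective _ m
      obtain ⟨w, hw⟩ := gd_cok eH b1 b2 v.1 (hK.le v.2)
      exact ⟨mkQ _ w, eq_comm.1 (sub_eq_zero.1 ((hz ((s * s) • v - η w)).2 hw))⟩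
  simp [Res.TT, Finset.sum_range_succ, h01, h2 0, h2 1, h2 2]

/-! ### the local structure of a surface in a regular fibre -/

theorem gd_comp (h : Hyp 𝒜)
    (hp : ∀ y : Pt 𝒜, (p : loc y) ∉ IsLocalRing.maximalIdeal (loc y) ^ 2) {y : Pt 𝒜}
    (j : Comp 𝒜 p) (hj : pr j.1.1 ≤ pr y) : loP y j.1.1 = Ideal.span {(p : Lo y)} ∧
      IsRegularLocalRing (Lo y ⧸ Ideal.span {(p : Lo y)}) := by
  haveI := lo_reg h y
  have h1 : (p : Lo y) ∈ loP y j.1.1 := (loP_p hj).2 j.1.2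
  obtain ⟨h2, h3⟩ := gd_gen (IsLocalRing.le_maximalIdeal (loP_prime hj).ne_top h1) (hp y)
  obtain ⟨z, hz, e⟩ := loP_surj _ h2
  have h4 : (p : A) ∈ pr z := (loP_p hz).1 (e ▸ Ideal.mem_span_singleton_self _)
  have h5 := j.2 ⟨z, h4⟩ ((loP_le hj).1 (e ▸ (Ideal.span_singleton_le_iff_mem _).2 h1))
  exact ⟨by rw [← h5]; exact e, h3⟩

theorem gd_hom (j : Vp 𝒜 p) {y : Pt 𝒜} (h : pr j.1 ≤ pr y) : ∃ φ : Lo y →+* (Mp j).orng y,
    Function.Surjective φ ∧ RingHom.ker φ = loP y j.1 := by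
  obtain ⟨φ, h1, h2⟩ := (Mp j).exists_loc_hom (on_Mp.2 h)
  refine ⟨φ, h1, Ideal.ext fun (z : loc y) => ?_⟩
  obtain ⟨n, a, ha, b, hb, h3, ez⟩ := mem_loc.1 z.2
  refine Iff.trans ?_ (mem_sncE_pr h ha hb h3 ez).symm
  rw [← th_eq_zero _ ha]
  obtain rfl : z = ⟨_, (MX 𝒜).div_mem_fr ha hb h3⟩ := Subtype.ext ez
  have : th j.1 b ≠ 0 := fun k => h3 (h ((th_eq_zero _ hb).1 k))
  refine Iff.trans (Subtype.ext_iff (a1 := φ _) (a2 := 0)) ?_
  rw [h2 n a b ha hb h3]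
  exact div_eq_zero_iff.trans (or_iff_left this)

theorem gd_ufd (h : Hyp 𝒜)
    (hp : ∀ y : Pt 𝒜, (p : loc y) ∉ IsLocalRing.maximalIdeal (loc y) ^ 2) {y : Pt 𝒜}
    (j : Comp 𝒜 p) (hj : pr j.1.1 ≤ pr y) : UniqueFactorizationMonoid ((Mp j.1).orng y) :=
  snc_ufd (Mp j.1) (on_Mp.2 hj) fun y' h1 => by
    obtain ⟨φ, e1, e2⟩ := gd_hom j.1 (on_Mp.1 h1)
    obtain ⟨e3, e4⟩ := gd_comp h hp j (on_Mp.1 h1)
    exact IsRegularLocalRing.of_ringEquiv ((Ideal.quotEquivOfEq (e2.trans e3).symm).trans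
      (RingHom.quotientKerEquivOfSurjective e1))

theorem gd_two (h : Hyp 𝒜)
    (hp : ∀ y : Pt 𝒜, (p : loc y) ∉ IsLocalRing.maximalIdeal (loc y) ^ 2) (W : Vp 𝒜 p)
    (hW : dm W = 2) {y : Pt 𝒜} (hy : pr W.1 ≤ pr y) : (Ideal.span {(p : Lo y)}).IsPrime ∧
      ∃ g ∈ loP y W.1, g ∉ Ideal.span {(p : Lo y)} ∧
        ∀ r ∈ loP y W.1, ∃ u v, r = p * u + g * v := by
  obtain ⟨j, hj⟩ := exists_comp W
  have hjy : pr j.1.1 ≤ pr y := hj.trans hy
  obtain ⟨φ, e1, e2⟩ := gd_hom j.1 hjy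
  have e3 := (gd_comp h hp j hjy).1
  haveI := gd_ufd h hp j hjy
  haveI := loP_prime hy
  have hk : RingHom.ker φ ≤ loP y W.1 := e2.le.trans ((loP_le hy).2 hj)
  have hQ : ((loP y W.1).map φ).IsPrime := Ideal.map_isPrime_of_surjective e1 hk
  have hc : ((loP y W.1).map φ).comap φ = loP y W.1 := by
    rw [Ideal.comap_map_of_surjective φ e1]; exact sup_eq_left.2 hk
  obtain ⟨π, h1, h2⟩ := hQ.exists_mem_prime_of_ne_bot fun e => by
    have := dm_anti (x := W) (y := j.1) ((loP_le hjy).1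
      (((Ideal.map_eq_bot_iff_le_ker φ).1 e).trans e2.le))
    rw [dm_Comp h, hW] at this
    omega
  obtain ⟨g, rfl⟩ := e1 π
  have hg : g ∉ loP y j.1.1 := fun k => h2.ne_zero (e2.ge k)
  haveI := (Ideal.span_singleton_prime h2.ne_zero).2 h2
  obtain ⟨z, hz, e⟩ := loP_surj ((Ideal.span {φ g}).comap φ) inferInstance
  have h3 : loP y j.1.1 ≤ loP y z := e2.ge.trans (e ▸ Ideal.ker_le_comap φ)
  have h4 : pr j.1.1 < pr z := (loP_lt hjy hz).1 (lt_of_le_of_ne h3 fun k =>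
    hg (k ▸ e ▸ Ideal.mem_span_singleton_self (φ g)))
  have h5 : pr z ≤ pr W.1 := (loP_le hy).1 (e.le.trans ((Ideal.comap_mono
    ((Ideal.span_singleton_le_iff_mem _).2 h1)).trans hc.le))
  have h6 := dm_lt (x := j.1) (y := ⟨z, h4.le j.1.2⟩) h4
  have h7 := eq_of_dm (x := ⟨z, h4.le j.1.2⟩) h5 (by rw [dm_Comp h] at h6; omega)
  obtain rfl : z = W.1 := congrArg Subtype.val h7
  refine ⟨e3 ▸ loP_prime hjy, g, hc.le h1, e3 ▸ hg, fun r hr => ?_⟩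
  obtain ⟨c, hc'⟩ := Ideal.mem_span_singleton'.1 (e.le hr)
  obtain ⟨v, rfl⟩ := e1 c
  obtain ⟨u, hu⟩ := Ideal.mem_span_singleton'.1 ((e2.trans e3).le
    (show φ (r - g * v) = 0 by rw [map_sub, map_mul, ← hc', mul_comm, sub_self]))
  exact ⟨u, v, by linear_combination -hu⟩

theorem gd_clear (y : Pt 𝒜) {n e : ℕ} {x a : A} (hx : x ∈ 𝒜 n) (ha : a ∈ 𝒜 e) {u v : Lo y}
    (h : algebraMap A (Lo y) x = p * u + algebraMap A (Lo y) a * v) :
    ∃ k, ∃ s ∈ 𝒜 k, s ∉ pr y ∧ s * x ∈ Ideal.span {(p : A)} ⊔ Ideal.span {a} := by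
  obtain ⟨k, s, hs, hy, b, hb⟩ := lo_lift y ![u, v] ![n, n - e]
  have h0 : b 0 ∈ Az 𝒜 (k + n) := (hb 0).1
  have h1 : b 1 ∈ Az 𝒜 (k + (n - e)) := (hb 1).1
  have e0 : algebraMap A (Lo y) (b 0) = algebraMap A (Lo y) s * u := (hb 0).2
  have e1 : algebraMap A (Lo y) (b 1) = algebraMap A (Lo y) s * v := (hb 1).2
  have k0 := Az_mul h0 ((Az_nat (𝒜 := 𝒜) 0).ge (md_natCast_mem p))
  have k1 := Az_mul h1 ((Az_nat e).ge ha)
  rw [Nat.cast_zero, add_zero] at k0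
  rw [add_assoc, sub_add_cancel] at k1
  have := lo_inj' y (sub_mem (Az_mul ((Az_nat k).ge hs) ((Az_nat n).ge hx)) (add_mem k0 k1)) (by
    rw [map_sub, map_add, map_mul, map_mul, map_mul, map_natCast, e0, e1, h]; ring)
  exact ⟨k, s, hs, hy, (sub_eq_zero.1 this).symm ▸ Submodule.add_mem_sup
    (Ideal.mem_span_singleton'.2 ⟨_, rfl⟩) (Ideal.mem_span_singleton'.2 ⟨_, rfl⟩)⟩

theorem gd_unif (y : Pt 𝒜) {Z B : Ideal A} (hZ : (one 𝒜).Hg Z)
    (h : ∀ n, ∀ x ∈ 𝒜 n, x ∈ Z → ∃ k, ∃ s ∈ 𝒜 k, s ∉ pr y ∧ s * x ∈ B) :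
    ∃ k, ∃ s ∈ 𝒜 k, s ∉ pr y ∧ ∀ x ∈ Z, s * x ∈ B := by
  classical
  obtain ⟨b, a, (g : Fin b → A), h1, h2⟩ := k1_gens (one 𝒜) hZ
  have h3 : Ideal.span (Set.range g) = Z := (Fintype.range_linearCombination A g).symm.trans h2
  have key : ∀ i, ∃ k, ∃ s ∈ 𝒜 k, s ∉ pr y ∧ s * g i ∈ B := fun i => by
    rcases Az_cases (A := A) (𝒜 := 𝒜) (h1 i) with h0 | ⟨n, -, hn⟩
    · exact ⟨0, 1, SetLike.one_mem_graded 𝒜, md_one_not_mem y, by
        rw [h0, mul_zero]; exact zero_mem _⟩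
    · exact h n _ hn (h3 ▸ Ideal.subset_span ⟨i, rfl⟩)
  choose k s hs hy e using key
  refine ⟨_, _, (k1_prod y Finset.univ hs hy).1, (k1_prod y Finset.univ hs hy).2, fun x hx => ?_⟩
  obtain ⟨c, rfl⟩ := Ideal.mem_span_range_iff_exists_fun.1 (h3 ▸ hx)
  rw [Finset.mul_sum]
  refine sum_mem fun i _ => ?_
  rw [← Finset.prod_erase_mul _ _ (Finset.mem_univ i), mul_left_comm, mul_assoc]
  exact B.mul_mem_left _ (B.mul_mem_left _ (e i))

theorem gd_form (h : Hyp 𝒜)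
    (hp : ∀ y : Pt 𝒜, (p : loc y) ∉ IsLocalRing.maximalIdeal (loc y) ^ 2) (W : Vp 𝒜 p)
    (hW : dm W = 2) (y : Pt 𝒜) : ∃ k, ∃ s ∈ 𝒜 k, s ∉ pr y ∧ ∃ a ∈ pr W.1,
      (∀ x ∈ pr W.1, s * x ∈ Ideal.span {(p : A)} ⊔ Ideal.span {a}) ∧
      ∀ z, z * a ∈ Ideal.span {(p : A)} → s * z ∈ Ideal.span {(p : A)} := by
  by_cases hy : pr W.1 ≤ pr y
  swap
  · obtain ⟨k, s, hs, h1, h2⟩ := md_exists_not_mem (pr_hom W.1) hy
    exact ⟨k, s, hs, h2, s, h1, fun x _ => Ideal.mem_sup_right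
      (Ideal.mul_mem_right _ _ (Ideal.mem_span_singleton_self s)), fun z hz => mul_comm z s ▸ hz⟩
  obtain ⟨hP, g, g1, g2, g3⟩ := gd_two h hp W hW hy
  obtain ⟨e, a, ha, t, ht, h1, h2⟩ := lo_surj y g
  obtain ⟨t', h3⟩ := ((lo_unit y ht).2 h1).exists_left_inv
  have h4 : g = algebraMap A (Lo y) a * t' := by rw [← h2]; linear_combination -g * h3
  obtain ⟨k, s, hs, s1, s2⟩ := gd_unif y (B := Ideal.span {(p : A)} ⊔ Ideal.span {a})
    (hg_one (pr_hom W.1)) fun n x hx hxW => by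
      obtain ⟨u, v, e1⟩ := g3 _ ((mem_loP hy hx).2 hxW)
      exact gd_clear y hx ha (u := u) (v := t' * v) (by rw [e1, h4, mul_assoc])
  have hm : IsHom (one 𝒜) (one 𝒜) e (LinearMap.toSpanSingleton A A a) := fun n (m : A) hm =>
    Az_mul (A := A) (𝒜 := 𝒜) hm ((Az_nat e).ge ha)
  obtain ⟨k', s', hs', s1', s2'⟩ := gd_unif y (B := Ideal.span {(p : A)})
    (hm.hg_comap (hg_one (md_span_hom (md_natCast_mem p)))) fun n x hx hxa => by
      obtain ⟨c, hc⟩ := Ideal.mem_span_singleton'.1 (show x * a ∈ Ideal.span {(p : A)} from hxa)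
      have h5 : algebraMap A (Lo y) x * algebraMap A (Lo y) a ∈ Ideal.span {(p : Lo y)} :=
        Ideal.mem_span_singleton'.2 ⟨algebraMap A (Lo y) c, by
          rw [← map_mul, ← hc, map_mul, map_natCast]⟩
      obtain ⟨u, hu⟩ := Ideal.mem_span_singleton'.1 ((hP.mem_or_mem h5).resolve_right fun k =>
        g2 (h4 ▸ Ideal.mul_mem_right _ _ k))
      simpa using gd_clear y hx (zero_mem (𝒜 0)) (u := u) (v := 0) (by rw [← hu]; ring)
  refine ⟨_, s * s', SetLike.mul_mem_graded hs hs', md_mul_not_mem s1 s1', a,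
    (mem_loP hy ha).1 (h2 ▸ Ideal.mul_mem_left _ _ g1), fun x hx => ?_, fun z hz => ?_⟩
  · rw [mul_comm s, mul_assoc]; exact Ideal.mul_mem_left _ _ (s2 x hx)
  · rw [mul_assoc]; exact Ideal.mul_mem_left _ _ (s2' z hz)

theorem bn_good (h : Hyp 𝒜)
    (hp : ∀ y : Pt 𝒜, (p : loc y) ∉ IsLocalRing.maximalIdeal (loc y) ^ 2) (W V : Vp 𝒜 p)
    (hW : dm W = 2) (hV : dm V = 2) : Bn p W.1 V.1 = 0 := by
  haveI := h.cz
  have hp0 : (p : A) ≠ 0 := Nat.cast_ne_zero.2 (Fact.out : p.Prime).ne_zero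
  have hB := hg_one (md_span_hom (md_natCast_mem (𝒜 := 𝒜) p))
  have hZ := hg_one (pr_hom W.1)
  have hs := gd_ses_quot (one 𝒜) hB hZ ((Ideal.span_singleton_le_iff_mem _).2 W.2)
  have hF := fb_cy (𝒜 := 𝒜) V.2
  have h1 : T p (cy 𝒜 (pr V.1)) ((one 𝒜).sq (pr W.1) (Ideal.span {(p : A)})) = 0 := by
    rw [T_def]
    refine gd_koszul _ hF (hs.fb (fb_cy (Ideal.mem_span_singleton_self _))).1 hp0 fun y => ?_
    obtain ⟨k, s, s1, s2, a, ha, a1, a2⟩ := gd_form h hp W hW y.1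
    have hz : ∀ t : ((one 𝒜).sub (pr W.1)).M,
        (show ((one 𝒜).sq (pr W.1) (Ideal.span {(p : A)})).M from mkQ _ t) = 0 ↔
          t.1 ∈ Ideal.span {(p : A)} := fun t => (Quotient.mk_eq_zero _).trans (mem_core_sub hB t)
    let a' : ((one 𝒜).sub (pr W.1)).M := ⟨a, ((one 𝒜).core_eq hZ).ge ha⟩
    refine ⟨k, s, s1, s2, mkQ _ ∘ₗ LinearMap.toSpanSingleton A _ a', fun x => ?_,
      fun z e => a2 z ((hz (z • a')).1 e)⟩
    obtain ⟨x, rfl⟩ := mkQ_surjective _ x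
    obtain ⟨u, hu, v, hv, e⟩ := Submodule.mem_sup.1 (a1 x.1 ((one 𝒜).core_le _ x.2))
    obtain ⟨c, rfl⟩ := Ideal.mem_span_singleton'.1 hv
    rw [eq_sub_of_add_eq e] at hu
    exact ⟨c, eq_comm.1 (sub_eq_zero.1 ((hz (s • x - c • a')).2 hu))⟩
  have h2 := T_ses h hs (Or.inl hF)
  rw [h1, zero_add] at h2
  have h3 : T p (cy 𝒜 (pr V.1)) (cy 𝒜 (pr W.1)) = 0 := h2.symm.trans (T_fibre h hF)
  rw [Bn, T_symm h (Or.inr hF), h3, coeff_zero]

end

end Pool.Agent.Lib.MP_62d77c_ag.R
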