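import Pool.Agent.Lib.MP_62d77c_ag.R.K1b
import Pool.Agent.Lib.MP_62d77c_ag.R.K3
import Pool.Agent.Lib.MP_62d77c_ag.R.CA
import Pool.Agent.Lib.MP_62d77c_ag.R.GL
import Pool.Agent.Lib.MP_62d77c_ag.R.F
import Pool.Agent.Lib.MP_62d77c_ag.R.Good

/-! The end: linear algebra in one fibre and the sum over the bad primes. -/

set_option autoImplicit false
set_option linter.unusedSectionVars false
set_option linter.unusedVariables false
set_option linter.style.haveILetI false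

namespace Pool.Agent.Lib.MP_62d77c_ag.R

open Filter Polynomial Submodule

noncomputable section

theorem fn_lin {ι : Type} [Fintype ι] (M : ι → ι → ℚ) (l : ι → ℚ)
    (h : ∀ u : ι → ℤ, (∀ i, ∑ j, (u j : ℚ) * M i j = 0) → ∑ j, (u j : ℚ) * l j = 0) :
    ∃ y : ι → ℚ, ∀ j, l j + ∑ i, y i * M i j = 0 := by
  classical
  have h1 := mem_span_of_iInf_ker_le_ker (L := fun i => Fintype.linearCombination ℚ (M i))
    (K := Fintype.linearCombination ℚ l) fun u hu => by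
      obtain ⟨⟨b, hb⟩, h2⟩ := IsLocalization.exist_integer_multiples_of_finite (nonZeroDivisors ℤ) u
      choose v hv using h2
      have e : ∀ f : ι → ℚ, ∑ j, (v j : ℚ) * f j = b * ∑ j, u j * f j := fun f => by
        rw [Finset.mul_sum]
        exact Finset.sum_congr rfl fun j _ => by
          rw [show (v j : ℚ) = b * u j by simpa using hv j, mul_assoc]
      have h3 := h v fun i => by
        rw [e, show ∑ j, u j * M i j = 0 from (mem_iInf _).1 hu i, mul_zero]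
      rw [e] at h3
      exact (mul_eq_zero.1 h3).resolve_left (Int.cast_ne_zero.2 (nonZeroDivisors.ne_zero hb))
  obtain ⟨y, hy⟩ := (mem_span_range_iff_exists_fun ℚ).1 h1
  refine ⟨-y, fun j => ?_⟩
  have := LinearMap.congr_fun hy (Pi.single j 1)
  simp only [LinearMap.sum_apply, LinearMap.smul_apply, Fintype.linearCombination_apply_single,
    one_smul, smul_eq_mul, one_mul] at this
  simp [← this]

variable {A : Type} [CommRing A] [IsDomain A] {𝒜 : ℕ → AddSubgroup A} [GradedRing 𝒜]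
  [hG : Fact (Gen 𝒜)] {p : ℕ} [Fact p.Prime]

theorem fn_sub (W : Pt 𝒜) (n : ℕ) (z : Vp 𝒜 p) (V : Vp 𝒜 p →₀ ℤ) :
    lam W (n • Finsupp.single z 1 - V) = n * Bn p W z.1 - lam W V := by
  rw [lam, Finsupp.sum_sub_index fun _ _ _ => by push_cast; ring, Finsupp.smul_single,
    Finsupp.sum_single_index (by simp)]
  simp [lam]

theorem fn_sum (W : Pt 𝒜) {s : Finset (Vp 𝒜 p)} {V : Vp 𝒜 p →₀ ℤ} (h : V.support ⊆ s) :
    lam W V = ∑ j : s, (V j : ℚ) * Bn p W j.1.1 := by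
  rw [lam, Finsupp.sum_of_support_subset _ h _ (by simp), ← Finset.sum_coe_sort]

theorem fn_surf {z : Vp 𝒜 p} (hz : dm z = 2) : Surf (Finsupp.single z 1) := fun W hW =>
  Finset.mem_singleton.1 (Finsupp.support_single_subset hW) ▸ hz

theorem lam_zero (h : Hyp 𝒜) {c : Pt 𝒜 →₀ ℚ}
    (hc : ∀ x ∈ c.support, CharZero (kap x) ∧ tr x = 1) (ht : CohTriv c) {V : Vp 𝒜 p →₀ ℤ}
    (hV : Kr V) : (c.sum fun W n => n * lam W V) = 0 := by
  obtain ⟨N, hN, D, h1, h2, h3⟩ := cart h hV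
  have h4 := l_of_cart h hc ht D h2 h3
  have e : ∀ W : Pt 𝒜, lam W (N • V) = N * lam W V := fun W => by
    rw [lam, Finsupp.sum_smul_index' (by simp), lam, Finsupp.mul_sum]
    simp [mul_assoc]
  simp only [h1, e, mul_left_comm _ (N : ℚ), ← Finsupp.mul_sum] at h4
  exact (mul_eq_zero.1 h4).resolve_left (Nat.cast_ne_zero.2 hN.ne')

theorem corr_p (h : Hyp 𝒜) {c : Pt 𝒜 →₀ ℚ}
    (hc : ∀ x ∈ c.support, CharZero (kap x) ∧ tr x = 1) (ht : CohTriv c) :
    ∃ y : Pt 𝒜 →₀ ℚ, (∀ x ∈ y.support, (p : A) ∈ pr x ∧ tr x = 2) ∧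
      ∀ z : Vp 𝒜 p, dm z = 2 → ((c + y).sum fun W n => n * Bn p W z.1) = 0 := by
  classical
  obtain ⟨s, hs, hf⟩ := fin_rank (p := p) h
  have e1 : ∀ {V : Vp 𝒜 p →₀ ℤ}, V.support ⊆ s → (c.sum fun W n => n * lam W V) =
      ∑ j : s, (V j : ℚ) * c.sum fun W n => n * Bn p W j.1.1 := fun {V} hV => by
    simp only [fn_sum _ hV, Finsupp.sum, Finset.mul_sum]
    rw [Finset.sum_comm]
    exact Finset.sum_congr rfl fun j _ => Finset.sum_congr rfl fun W _ => by ring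
  obtain ⟨y, hy⟩ := fn_lin (fun i j : s => Bn p i.1.1 j.1.1)
    (fun j => c.sum fun W n => n * Bn p W j.1.1) fun u hu => by
      obtain ⟨V, h1, h2⟩ : ∃ V : Vp 𝒜 p →₀ ℤ, V.support ⊆ s ∧ ∀ j : s, V j = u j :=
        ⟨Finsupp.onFinset s (fun W => if hW : W ∈ s then u ⟨W, hW⟩ else 0)
          fun W hW => by_contra fun h0 => hW (dif_neg h0), Finsupp.support_onFinset_subset,
          fun j => dif_pos j.2⟩
      simp only [← h2] at hu ⊢
      rw [← e1 h1]
      refine lam_zero h hc ht ⟨fun W hW => hs W (h1 hW), fun W hW => ?_⟩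
      obtain ⟨n, hn, W', h3, h4⟩ := hf _ (fn_surf hW)
      refine (mul_eq_zero.1 ?_).resolve_left (Nat.cast_ne_zero (R := ℚ).2 hn.ne')
      have h5 : ∀ j : s, n * Bn p W.1 j.1.1 = ∑ i : s, (W' i : ℚ) * Bn p i.1.1 j.1.1 := fun j => by
        have := h4.2 j.1 (hs _ j.2)
        rw [fn_sub, fn_sum _ h3, sub_eq_zero] at this
        rw [Bn_symm h, this]
        exact Finset.sum_congr rfl fun i _ => by rw [Bn_symm h]
      rw [fn_sum _ h1, Finset.mul_sum]
      simp only [mul_left_comm (n : ℚ), h5, Finset.mul_sum]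
      rw [Finset.sum_comm]
      refine Finset.sum_eq_zero fun i _ => ?_
      simp only [mul_left_comm _ (W' i : ℚ), ← Finset.mul_sum, hu, mul_zero]
  have hinj : Function.Injective fun W : s => W.1.1 :=
    Subtype.val_injective.comp Subtype.val_injective
  refine ⟨(Finsupp.equivFunOnFinite.symm y).mapDomain fun W => W.1.1, fun x hx => ?_,
    fun z hz => ?_⟩
  · obtain ⟨W, -, rfl⟩ := Finset.mem_image.1 (Finsupp.mapDomain_support hx)
    exact ⟨W.1.2, by rw [tr_eq_dm, hs _ W.2]; rfl⟩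
  rw [Finsupp.sum_add_index' (by simp) fun _ _ _ => add_mul _ _ _,
    Finsupp.sum_mapDomain_index_inj hinj, Finsupp.sum_fintype (α := s) _ _ (by simp)]
  obtain ⟨n, hn, V, h3, h4⟩ := hf _ (fn_surf hz)
  refine (mul_eq_zero.1 ?_).resolve_left (Nat.cast_ne_zero (R := ℚ).2 hn.ne')
  have h5 := lam_zero h hc ht h4
  simp only [fn_sub, mul_sub, Finsupp.sum_sub, mul_left_comm _ (n : ℚ), ← Finsupp.mul_sum,
    e1 h3, sub_eq_zero] at h5
  have h6 : ∀ i : s, n * Bn p i.1.1 z.1 = ∑ j : s, (V j : ℚ) * Bn p i.1.1 j.1.1 := fun i => by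
    have := h4.2 i.1 (hs _ i.2)
    rwa [fn_sub, fn_sum _ h3, sub_eq_zero] at this
  rw [mul_add, h5, Finset.mul_sum]
  simp only [Finsupp.equivFunOnFinite_symm_apply_apply, mul_left_comm (n : ℚ), h6, Finset.mul_sum]
  rw [Finset.sum_comm, ← Finset.sum_add_distrib]
  refine Finset.sum_eq_zero fun j _ => ?_
  simp only [mul_left_comm _ (V j : ℚ), ← Finset.mul_sum, ← mul_add, hy, mul_zero]

theorem fn_other (h : Hyp 𝒜) {W : Pt 𝒜} {q : ℕ} (hq : q.Prime) (hne : q ≠ p) (hW : (q : A) ∈ pr W)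
    (z : Vp 𝒜 p) : T p (cy 𝒜 (pr W)) (cy 𝒜 (pr z.1)) = 0 := by
  refine T_disj h (Or.inr (fb_cy z.2)) fun y => Or.inl ((zeroAt_cy (pr_hom W) y.1).2 fun hle => ?_)
  obtain ⟨a, b, e⟩ := (Nat.isCoprime_iff_coprime.2
    ((Nat.coprime_primes hq Fact.out).2 hne)).map (Int.castRingHom A)
  refine md_one_not_mem y.1 (e ▸ add_mem (Ideal.mul_mem_left _ _ ?_) (Ideal.mul_mem_left _ _ ?_))
  · simpa only [eq_intCast, Int.cast_natCast] using hle hW
  · simpa only [eq_intCast, Int.cast_natCast] using y.2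

omit hG [Fact p.Prime] in
theorem main_two [CharZero A] (hfg : Gen 𝒜) (hdim : Algebra.trdeg ℤ A = (3 : ℕ) + 1)
    (hreg : ∀ x : Pt 𝒜, IsRegularLocalRing (loc x))
    (hsm : ∀ x : Pt 𝒜, CharZero (kap x) → Algebra.FormallySmooth ℤ (loc x))
    (c : Pt 𝒜 →₀ ℚ) (hc : ∀ x ∈ c.support, CharZero (kap x) ∧ tr x = 1) (ht : CohTriv c) :
    ∃ y : Pt 𝒜 →₀ ℚ, (∀ x ∈ y.support, ¬CharZero (kap x) ∧ tr x = 2) ∧
      ∀ z : Pt 𝒜, ¬CharZero (kap z) → tr z + 1 = (3 : ℕ) → Orth 3 (c + y) z := by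
  classical
  haveI : Fact (Gen 𝒜) := ⟨hfg⟩
  have h : Hyp 𝒜 := ⟨inferInstance, hdim, hreg⟩
  have hcorr := fun q : Nat.Primes => haveI : Fact q.1.Prime := ⟨q.2⟩; corr_p (p := q.1) h hc ht
  choose Y hY1 hY2 using hcorr
  have hfin := (finite_bad hsm).preimage (f := fun q : Nat.Primes => q.1)
    Subtype.val_injective.injOn
  have hsupp : ∀ x ∈ (∑ q ∈ hfin.toFinset, Y q).support,
      ∃ q : Nat.Primes, (q.1 : A) ∈ pr x ∧ tr x = 2 := fun x hx => by
    obtain ⟨q, -, hq⟩ := Finset.mem_biUnion.1 (Finsupp.support_finset_sum hx)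
    exact ⟨q, hY1 q x hq⟩
  refine ⟨∑ q ∈ hfin.toFinset, Y q, fun x hx => ?_, fun z hz hzd => ?_⟩
  · obtain ⟨q, h1, h2⟩ := hsupp x hx
    exact ⟨not_charZero_of_mem x q.2.ne_zero h1, h2⟩
  obtain ⟨p, hp, hpz⟩ := exists_prime_of_not_charZero z hz
  haveI : Fact p.Prime := ⟨hp⟩
  let q₀ : Nat.Primes := ⟨p, hp⟩
  let z' : Vp 𝒜 p := ⟨z, hpz⟩
  have hdz : dm z' = 2 := by
    rw [show tr z = dm z' from tr_eq_dm z'] at hzd
    have : dm z' + 1 = 3 := by exact_mod_cast hzd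
    omega
  refine ⟨fun W => (Bn p W z : ℚ) * Real.log p, fun W hW => isInt_T h W z' ?_, ?_⟩
  · rcases Finset.mem_union.1 (Finsupp.support_add hW) with h1 | h1
    · exact T_pt h (cod_horiz h (hc W h1).1 (hc W h1).2) z' hdz
    obtain ⟨q, h2, h3⟩ := hsupp W h1
    by_cases hq : q.1 = p
    · have e : dm (⟨W, hq ▸ h2⟩ : Vp 𝒜 p) = 2 := by
        have := tr_eq_dm (⟨W, hq ▸ h2⟩ : Vp 𝒜 p)
        rw [show tr (⟨W, hq ▸ h2⟩ : Vp 𝒜 p).1 = tr W from rfl, h3] at this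
        exact_mod_cast this.symm
      refine T_pt h (cod_fb h (fb_cy (hq ▸ h2)) (s := 3) fun y hy =>
        (zeroAt_cy (pr_hom W) y.1).2 fun hle => ?_) z' hdz
      rcases hle.eq_or_lt with h4 | h4
      · obtain rfl : y = ⟨W, hq ▸ h2⟩ := Subtype.ext (pr_inj h4.symm)
        omega
      · have := dm_lt (x := ⟨W, hq ▸ h2⟩) h4
        omega
    · rw [Bn, fn_other h q.2 hq h2 z']
      simp
  have key : ((c + ∑ q ∈ hfin.toFinset, Y q).sum fun W n => n * Bn p W z) = 0 := by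
    have e0 : ∀ a b : Pt 𝒜 →₀ ℚ, ((a + b).sum fun W n => n * Bn p W z) =
        (a.sum fun W n => n * Bn p W z) + b.sum fun W n => n * Bn p W z := fun a b =>
      Finsupp.sum_add_index' (by simp) fun _ _ _ => add_mul _ _ _
    have e2 : ∀ q : Nat.Primes, q ≠ q₀ → ((Y q).sum fun W n => n * Bn p W z) = 0 := fun q hq =>
      Finset.sum_eq_zero fun W hW => by
        have := fn_other h q.2 (fun e => hq (Subtype.ext e)) (hY1 q W hW).1 z'
        simp [Bn, show T p (cy 𝒜 (pr W)) (cy 𝒜 (pr z)) = 0 from this]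
    rw [e0, ← Finsupp.sum_finsetSum_index (by simp) fun _ _ _ => add_mul _ _ _]
    by_cases hb : q₀ ∈ hfin.toFinset
    · rw [Finset.sum_eq_single q₀ (fun q _ hq => e2 q hq) fun hn => absurd hb hn, ← e0]
      exact hY2 q₀ z' hdz
    · rw [Finset.sum_eq_zero fun q hq => e2 q fun e => hb (e ▸ hq), add_zero]
      have h1 := bn_good (p := p) h fun y hy => hb (hfin.mem_toFinset.2 ⟨hp, y, hy⟩)
      have e3 : ∀ W : Pt 𝒜, lam W (Finsupp.single z' 1) = Bn p W z := fun W => by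
        rw [lam, Finsupp.sum_single_index (by simp)]; simp [z']
      simpa only [e3] using lam_zero h hc ht (V := Finsupp.single z' 1)
        ⟨fn_surf hdz, fun W hW => (e3 _).trans (h1 W z' hW hdz)⟩
  have : ((c + ∑ q ∈ hfin.toFinset, Y q).sum fun x n =>
      (n : ℝ) * ((Bn p x z : ℚ) * Real.log p)) =
      (((c + ∑ q ∈ hfin.toFinset, Y q).sum fun W n => n * Bn p W z : ℚ) : ℝ) * Real.log p := by
    unfold Finsupp.sum
    push_cast
    rw [Finset.sum_mul]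
    exact Finset.sum_congr rfl fun W _ => by ring
  rw [this, key]; simp

end

end Pool.Agent.Lib.MP_62d77c_ag.R
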