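import Pool.Agent.Lib.MP_62d77c_ag.R.S1
import Pool.Agent.Lib.MP_62d77c_ag.Tors

/-! A line bundle of degree zero on a surface with bounded Euler characteristics is torsion. -/

set_option autoImplicit false

namespace Pool.Agent.Lib.MP_62d77c_ag.R

open Filter Polynomial Submodule

noncomputable section

variable {k K : Type} [Field k] [Field K] [Algebra k K] {V : Submodule k K}
  {N R F F' : ℕ → Submodule k K}

theorem g1_arch {x c : ℚ} (h : ∀ n : ℕ, n * x ≤ c) : x ≤ 0 := by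
  by_contra hx
  rw [not_le] at hx
  obtain ⟨n, hn⟩ := exists_nat_gt (c / x)
  rw [div_lt_iff₀ hx] at hn
  linarith [h n]

theorem g1_pic [Finite k] (hV : Mdl V) (h2 : dimV V = 2) {w : Pic V} {m : ℕ}
    (hs : ∀ n : ℕ, 0 < h0 V (w ^ n * Lp V ^ m)) (hd : i1 V (dimV V) w ≤ 0) :
    ∃ n, 0 < n ∧ w ^ n = 1 := by
  have h1 : i1 V (dimV V) w = 0 := by
    refine le_antisymm hd (neg_nonpos.1 (g1_arch (c := m * i1 V (dimV V) (Lp V)) fun n => ?_))
    have := i1_nonneg_of_h0 hV (by omega) (hs n)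
    rw [i1_mul hV (by omega), snap_i1_pow hV, snap_i1_pow hV] at this
    linarith
  have wL : i2 V (dimV V) w (Lp V) = 0 := by rw [i2_L hV h2.ge, h1, mul_zero]
  refine torsion hV ⟨fun _ => h1, fun _ => le_antisymm (hodge hV h2.ge h1) ?_⟩
  obtain ⟨c, D, U, e, r⟩ := (snap_rep w).exists
  refine neg_nonpos.1 (g1_arch (c := m * (c * i2 V (dimV V) (Lp V) (Lp V))) fun n => ?_)
  have := hodge_nef hV h2.ge (hs n) r
  rw [e, i2_mul hV h2.ge, snap_i2_pow hV, snap_i2_pow hV, i2_symm _ w, i2_symm _ (Lp V),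
    i2_mul hV h2.ge, i2_mul hV h2.ge, snap_i2_pow hV, snap_i2_pow hV, wL, i2_symm _ (Lp V) w,
    wL] at this
  linarith

/-- uniform existence of sections on a surface -/
theorem g1_sec (hV : Mdl V) (hR : Fg V R) (h2 : (hp R).natDegree = 2) (c : ℚ) :
    ∃ J : ℕ, ∀ N, Fg V N → RM R N → hp N - hp R ∈ degreeLT ℚ 2 → |(hp N).coeff 1| ≤ c →
      -c ≤ (hp N).coeff 0 → ∀ i, J ≤ i → Gam V N i ≠ ⊥ := by
  have m3 := hilb_mem_nat (hp R)
  rw [h2] at m3
  have hα : 0 < (hp R).coeff 2 := s1_pos hV hR h2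
  have e := s1_eval3 m3
  set α := (hp R).coeff 2
  rcases exists_mem hV with h | ⟨k', K', _, _, _, S, h⟩
  · have a := s1_alt hV hR (h R hR)
    rw [a, natDegree_C] at h2
    omega
  obtain ⟨c₁, hc⟩ := curve_hh (h.mdl hV) (h.fg hR) (ρ := 2 * α) (χ := (hp R).coeff 1 - α)
    fun t => by rw [h.hp_eval hV hR, e, e]; ring
  obtain ⟨J, hJ⟩ := exists_nat_gt (max (max (2 * c) α) (c₁ + c + α) / α)
  rw [div_lt_iff₀ hα, max_lt_iff, max_lt_iff] at hJ
  refine ⟨J, fun N hN hm hd ha hb i hi q => ?_⟩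
  obtain ⟨a1, a2⟩ := s1_mem h2 hd
  have eN := s1_eval3 a1
  rw [a2] at eN
  have hc0 : 0 ≤ c := (abs_nonneg _).trans ha
  rw [abs_le] at ha
  have e1 : ∀ t, (hp (im S N)).eval t = 2 * α * t + ((hp N).coeff 1 - α) := fun t => by
    rw [h.hp_eval hV hN, eN, eN]
    ring
  have J1 : (1 : ℚ) < J := by
    by_contra hh
    nlinarith [hJ.1.2]
  have lo := sa_seq (u := fun i => (hh V N i : ℚ)) (P := fun i => (hp N).eval (i : ℚ))
    (i₀ := i) (fun j hj => by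
      have hj' : (J : ℚ) ≤ j := by exact_mod_cast hi.trans hj
      have b1 := hc _ (h.fg hN) (h.rm hm) _ e1 (j + 1) (by push_cast; nlinarith [hJ.2])
        (by linarith)
      have b2 : (hh V N (j + 1) : ℚ) ≤ hh V N j + hh (S.img V 1) (im S N) (j + 1) := by
        exact_mod_cast h.step hV hN j
      rw [eN, eN]
      push_cast at b1 ⊢
      linarith) (hh_ev hV hN)
  have hi' : (J : ℚ) ≤ i := by exact_mod_cast hi
  rw [hh, q, finrank_bot, eN] at lo
  have b3 : 2 * c < i * α := hJ.1.1.trans_le (by gcongr)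
  push_cast at lo
  nlinarith [mul_lt_mul_of_pos_right b3 (show (0 : ℚ) < i by linarith),
    mul_nonneg (show (0 : ℚ) ≤ i by linarith) (sub_nonneg.2 ha.1),
    mul_nonneg hc0 (show (0 : ℚ) ≤ i - 1 by linarith)]

/-- the statement for one invertible subspace -/
theorem g1_sub [Finite k] (hV : Mdl V) (h2 : dimV V = 2) {U U' : Submodule k K} {a m : ℕ}
    (hU : U * U' = V ^ (a + a))
    (hs : ∀ n : ℕ, ∃ f : K, f ≠ 0 ∧ ∃ M, span k {f} * V ^ M * U' ^ n ≤ V ^ (M + m + n * a))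
    {c : ℚ} (hd : ∀ n : ℕ, ∃ c' : ℚ, ∀ᶠ t : ℕ in atTop, (Module.finrank k ↥(U ^ n * V ^ t) : ℚ) ≤
      (hp (pw V)).coeff 2 * ((t + n * a : ℕ) : ℚ) ^ 2 + c * ((t + n * a : ℕ) : ℚ) + c') :
    ∃ n, 0 < n ∧ ∃ f : K, f ≠ 0 ∧ ∃ c, V ^ c * U ^ n = span k {f} * V ^ (c + n * a) := by
  obtain ⟨D, r⟩ := exists_car hU a
  have fp : Fg V (pw V) := fg_pw' hV.1
  obtain ⟨n, hn, e⟩ := g1_pic hV h2 (w := cl D) (m := m) (fun n => by
    obtain ⟨f, f0, M, hf⟩ := hs n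
    have e : cl D ^ n * Lp V ^ m = cl (D ^ n * Lc V ^ m) := by
      rw [map_mul, map_pow, map_pow]; rfl
    rw [e, h0_cl hV]
    have := Module.Finite.iff_fg.2 (sec_fg hV (D ^ n * Lc V ^ m))
    refine Module.finrank_pos_iff_exists_ne_zero.2 ⟨⟨f, sec_mem_iff.2 ?_⟩, fun q =>
      f0 (congrArg Subtype.val q)⟩
    filter_upwards [tw_rep fp ((r.pow n).mul (rep_L.pow m)),
      eventually_ge_atTop (M + n * (a + a))] with t h1 ht
    obtain ⟨s, rfl⟩ := Nat.exists_eq_add_of_le ht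
    rw [h1, smul_eq_mul]
    have e1 : V ^ (M + n * (a + a) + s) * span k {f} =
        span k {f} * V ^ M * U' ^ n * (U ^ n * V ^ s) := by
      rw [pow_add, pow_add, mul_comm n, pow_mul, ← hU, mul_pow]; ring
    have e2 : U ^ n * V ^ m * V ^ (M + n * (a + a) + s - (n * a + m * 0)) =
        V ^ (M + m + n * a) * (U ^ n * V ^ s) := by
      rw [show M + n * (a + a) + s - (n * a + m * 0) = M + n * a + s by
        rw [mul_add]; omega]
      ring
    rw [e1, e2]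
    exact mul_le_mul_left hf _) (by
    refine g1_arch (c := c - (PP V 1).coeff 1) fun n => ?_
    obtain ⟨c', hc⟩ := hd n
    have l := PP_lead hV (cl D ^ n)
    have l1 : PP V 1 = hp (pw V) := hq_one hV fp
    have m1 : (PP V 1).natDegree = 2 := (PP_lead hV 1).1.trans h2
    obtain ⟨a1, a2⟩ := s1_mem m1 (h2 ▸ l.2.2)
    have e := snap_i1_pow hV (cl D) n
    rw [← e, h2]
    show (PP V (1 * cl D ^ n) - PP V 1).coeff 1 ≤ _
    rw [one_mul, coeff_sub, sub_le_sub_iff_right, ← sub_nonneg]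
    refine s1_lin (b := c' - (PP V (cl D ^ n)).coeff 0) ?_
    obtain ⟨t0, h0⟩ := eventually_atTop.1 hc
    filter_upwards [hq_spec hV fp (D ^ n), tw_rep fp (r.pow n),
      eventually_ge_atTop (t0 + n * a)] with t h1 h3 ht
    have h4 := h0 (t - n * a) (by omega)
    rw [Nat.sub_add_cancel (by omega)] at h4
    rw [h3, map_pow, smul_eq_mul] at h1
    have h5 := s1_eval3 a1 t
    rw [a2, l1] at h5
    change (PP V (cl D ^ n)).eval (t : ℚ) = _ at h1
    linarith)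
  rw [← map_pow, ← map_one (cl (V := V)), eq_comm, cl_eq_iff] at e
  obtain ⟨f, e⟩ := e
  rw [one_mul] at e
  obtain ⟨c, e'⟩ := (r.pow n).eq (e ▸ rep_prin f)
  exact ⟨n, hn, f, f.ne_zero, c, by rw [mul_comm (span k _), ← e', add_zero]⟩

theorem g1_den (hmul : ∀ m n, R m * R n ≤ R (m + n))
    (gen : ∀ z : K, ∃ n, ∃ b ∈ R n, b ≠ 0 ∧ b * z ∈ R n) {W : Submodule k K} (hW : W.FG) :
    ∃ e, ∃ b : K, b ≠ 0 ∧ span k {b} * W ≤ R e := by
  suffices h : ∃ e, ∃ b ∈ R e, b ≠ 0 ∧ ∀ w ∈ W, b * w ∈ R e by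
    obtain ⟨e, b, -, b0, h⟩ := h
    refine ⟨e, b, b0, fun x hx => ?_⟩
    obtain ⟨w, hw, rfl⟩ := mem_span_singleton_mul.1 hx
    exact h w hw
  refine Submodule.fg_induction
    (motive := fun W _ => ∃ e, ∃ b ∈ R e, b ≠ 0 ∧ ∀ w ∈ W, b * w ∈ R e) (fun z => ?_)
    (fun W₁ W₂ _ _ a1 a2 => ?_) W hW
  · obtain ⟨e, b, hb, b0, hz⟩ := gen z
    refine ⟨e, b, hb, b0, fun w hw => ?_⟩
    obtain ⟨c, rfl⟩ := mem_span_singleton.1 hw
    rw [mul_smul_comm]
    exact smul_mem _ _ hz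
  · obtain ⟨e, b, hb, b0, hz⟩ := a1
    obtain ⟨e', b', hb', b0', hz'⟩ := a2
    refine ⟨e + e', b * b', hmul _ _ (mul_mem_mul hb hb'), mul_ne_zero b0 b0', fun w hw => ?_⟩
    obtain ⟨x, hx, y, hy, rfl⟩ := mem_sup.1 hw
    rw [mul_add, mul_right_comm, mul_assoc b b' y]
    exact add_mem (hmul _ _ (mul_mem_mul (hz x hx) hb')) (hmul _ _ (mul_mem_mul hb (hz' y hy)))

/-- product of families -/
def g1m (F F' : ℕ → Submodule k K) : ℕ → Submodule k K :=
  fun n => span k {z | ∃ i j, i + j = n ∧ ∃ u ∈ F i, ∃ v ∈ F' j, z = u * v}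

theorem g1m_ge (F F' : ℕ → Submodule k K) (i j : ℕ) : F i * F' j ≤ g1m F F' (i + j) :=
  mul_le.2 fun u hu v hv => subset_span ⟨i, j, rfl, u, hu, v, hv, rfl⟩

theorem g1m_le {n : ℕ} {W : Submodule k K} (h : ∀ i j, i + j = n → F i * F' j ≤ W) :
    g1m F F' n ≤ W := span_le.2 (by
  rintro _ ⟨i, j, e, u, hu, v, hv, rfl⟩
  exact h i j e (mul_mem_mul hu hv))

theorem g1m_mul {n : ℕ} {U W : Submodule k K} (h : ∀ i j, i + j = n → F i * F' j * U ≤ W) :
    g1m F F' n * U ≤ W := by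
  refine mul_le.2 fun x hx y hy => ?_
  induction hx using span_induction with
  | mem x hx =>
    obtain ⟨i, j, e, u, hu, v, hv, rfl⟩ := hx
    exact h i j e (mul_mem_mul (mul_mem_mul hu hv) hy)
  | zero => simp
  | add a b _ _ h1 h2 => rw [add_mul]; exact add_mem h1 h2
  | smul c a _ h1 => rw [smul_mul_assoc]; exact smul_mem _ _ h1

theorem g1_st (h : ∀ n, V * F n ≤ F (n + 1)) (i n : ℕ) : V ^ i * F n ≤ F (n + i) := by
  induction i with
  | zero => simp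
  | succ i ih => rw [pow_succ', mul_assoc]; exact (mul_le_mul_right ih _).trans (h _)

theorem g1m_eq (st : ∀ n, V * F n ≤ F (n + 1)) (st' : ∀ n, V * F' n ≤ F' (n + 1)) (h : Fg V F)
    (h' : Fg V F') : ∃ n₀, ∀ a b, n₀ ≤ a → n₀ ≤ b → g1m F F' (a + b) = F a * F' b := by
  obtain ⟨n₀, h0⟩ := eventually_atTop.1 (h.pow_smul.and h'.pow_smul)
  refine ⟨n₀, fun a b ha hb => le_antisymm (g1m_le fun i j e => ?_) (g1m_ge _ _ _ _)⟩
  rcases le_total i a with hi | hi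
  · obtain ⟨d, rfl⟩ := Nat.exists_eq_add_of_le hi
    rw [show j = b + d by omega, (h0 b hb).2 d, smul_eq_mul, ← mul_assoc, mul_comm (F i)]
    exact mul_le_mul_left (g1_st st d i) _
  · obtain ⟨d, rfl⟩ := Nat.exists_eq_add_of_le hi
    rw [(h0 a ha).1 d, smul_eq_mul, mul_comm (V ^ d), mul_assoc, show b = j + d by omega]
    exact mul_le_mul_right (g1_st st' d j) _

theorem g1m_st (st : ∀ n, V * F n ≤ F (n + 1)) (n : ℕ) : V * g1m F F' n ≤ g1m F F' (n + 1) := by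
  rw [mul_comm]
  refine g1m_mul fun i j e => ?_
  rw [mul_right_comm, mul_comm (F i), show n + 1 = i + 1 + j by omega]
  exact (mul_le_mul_left (st i) _).trans (g1m_ge _ _ _ _)

theorem g1m_fg (st : ∀ n, V * F n ≤ F (n + 1)) (st' : ∀ n, V * F' n ≤ F' (n + 1)) (h : Fg V F)
    (h' : Fg V F') : Fg V (g1m F F') := by
  obtain ⟨n₀, h0⟩ := g1m_eq st st' h h'
  obtain ⟨n₁, h1⟩ := eventually_atTop.1 (h.and h')
  filter_upwards [eventually_ge_atTop (n₀ + n₁ + (n₀ + n₁))] with n hn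
  obtain ⟨d, rfl⟩ := Nat.exists_eq_add_of_le hn
  rw [add_assoc _ _ d, add_assoc (n₀ + n₁) _ 1, h0 _ _ (by omega) (by omega),
    h0 _ _ (by omega) (by omega), (h1 (n₀ + n₁ + d) (by omega)).2.2, smul_eq_mul, smul_eq_mul]
  exact ⟨(h1 _ (by omega)).1.1.mul (h1 _ (by omega)).2.1, by ring⟩

end

end Pool.Agent.Lib.MP_62d77c_ag.R
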