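import Pool.Agent.Lib.MP_62d77c_ag.R.G1a

/-! Torsion from bounded Euler characteristics, for families over a graded ring. -/

set_option autoImplicit false

namespace Pool.Agent.Lib.MP_62d77c_ag.R

open Filter Polynomial Submodule

noncomputable section

variable {k K : Type} [Field k] [Field K] [Algebra k K] {V : Submodule k K}
  {R : ℕ → Submodule k K}

/-- a graded ring of subspaces that is finite over the model `V` -/
structure G1R (V : Submodule k K) (R : ℕ → Submodule k K) : Prop where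
  mdl : Mdl V
  fg : Fg V R
  mul : ∀ m n, R m * R n ≤ R (m + n)
  pow : ∀ n, V ^ n ≤ R n

/-- the powers of an invertible family -/
structure G1B (V : Submodule k K) (R : ℕ → Submodule k K) (B : ℤ → ℕ → Submodule k K) : Prop where
  mul : ∀ a b s t, B a s * B b t ≤ B (a + b) (s + t)
  zero : ∀ s, B 0 s ≤ R s
  one : (1 : K) ∈ B 0 0
  st : ∀ a n, V * B a n ≤ B a (n + 1)
  fg : ∀ a, Fg V (B a)
  inv : ∀ᶠ t in atTop, V ^ t ≤ g1m (B 1) (B (-1)) t

theorem G1R.st (h : G1R V R) (n : ℕ) : V * R n ≤ R (n + 1) := by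
  have := (mul_le_mul_left (h.pow 1) _).trans (h.mul 1 n)
  rwa [pow_one, add_comm] at this

theorem G1R.add (h : G1R V R) : ∀ᶠ u in atTop, ∀ j, R u * R j = R (u + j) := by
  filter_upwards [h.fg.pow_smul] with u hu j
  refine le_antisymm (h.mul u j) ?_
  rw [hu j, smul_eq_mul, mul_comm]
  exact mul_le_mul_right (h.pow j) _

theorem g1_ver {e : ℕ} (he : ∀ j, R e * R j = R (e + j)) (n : ℕ) :
    R e ^ (n + 1) = R ((n + 1) * e) := by
  induction n with
  | zero => simp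
  | succ n ih => rw [pow_succ', ih, he]; congr 1; ring

theorem G1R.pow_le (h : G1R V R) (e n : ℕ) : R e ^ n ≤ R (n * e) := by
  induction n with
  | zero => simpa using h.pow 0
  | succ n ih => rw [pow_succ, Nat.succ_mul]; exact (mul_le_mul_left ih _).trans (h.mul _ _)

theorem G1R.mul_pow (h : G1R V R) {u : ℕ} (hu : ∀ j, R (u + j) = V ^ j • R u)
    (e n : ℕ) : R u * R e ^ n = R (u + n * e) := by
  refine le_antisymm ((mul_le_mul_right (h.pow_le e n) _).trans (h.mul _ _)) ?_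
  rw [hu, smul_eq_mul, mul_comm, mul_comm n, pow_mul]
  exact mul_le_mul_right (pow_le_pow_left' (h.pow e) n) _

variable {B B' : ℤ → ℕ → Submodule k K}

theorem G1B.pow_le (h : G1B V R B) (a : ℤ) (e n : ℕ) : B a e ^ n ≤ B (n * a) (n * e) := by
  induction n with
  | zero => simpa [Submodule.one_le] using h.one
  | succ n ih =>
    rw [pow_succ, Nat.succ_mul, Nat.cast_succ, add_mul, one_mul]
    exact (mul_le_mul_left ih _).trans (h.mul _ _ _ _)

theorem G1B.cube (hR : G1R V R) (h : G1B V R B) :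
    ∀ᶠ e in atTop, R e * (B 1 e * B (-1) e) = R e ^ 3 := by
  obtain ⟨n₀, h0⟩ := g1m_eq (h.st 1) (h.st (-1)) (h.fg 1) (h.fg (-1))
  obtain ⟨n₁, h1⟩ := eventually_atTop.1 h.inv
  filter_upwards [eventually_ge_atTop (n₀ + n₁), hR.add, hR.fg.pow_smul] with e he h2 h3
  rw [g1_ver h2 2, show (2 + 1) * e = e + (e + e) by ring]
  refine le_antisymm ((mul_le_mul_right ((h.mul _ _ _ _).trans ?_) _).trans (hR.mul _ _)) ?_
  · rw [add_neg_cancel]; exact h.zero _
  · rw [h3, smul_eq_mul, mul_comm, ← h0 e e (by omega) (by omega)]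
    exact mul_le_mul_right (h1 _ (by omega)) _

theorem G1B.fam (hR : G1R V R) (h : G1B V R B) {e : ℕ}
    (he : R e * (B 1 e * B (-1) e) = R e ^ 3) (n : ℕ) :
    ∀ᶠ u in atTop, g1m (B n) R (u + n * e) = R u * B 1 e ^ n := by
  obtain ⟨s, h0⟩ := g1m_eq (h.st n) hR.st (h.fg n) hR.fg
  obtain ⟨n₁, h1⟩ := eventually_atTop.1 hR.fg.pow_smul
  have mp : ∀ u, n₁ ≤ u → ∀ j, R u * R e ^ j = R (u + j * e) := fun u hu =>
    hR.mul_pow (h1 u hu) e
  filter_upwards [eventually_ge_atTop (s + s + n₁ + 2 * n * e)] with u hu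
  obtain ⟨d, rfl⟩ := Nat.exists_eq_add_of_le hu
  refine le_antisymm ?_ ?_
  · rw [show s + s + n₁ + 2 * n * e + d + n * e = s + (s + n₁ + d + 3 * n * e) by ring,
      h0 _ _ le_rfl (by omega), ← mp _ (by omega), pow_mul, ← he]
    have e1 : B n s * (R (s + n₁ + d) * (R e * (B 1 e * B (-1) e)) ^ n) =
        (B n s * B (-1) e ^ n) * (R (s + n₁ + d) * R e ^ n) * B 1 e ^ n := by
      rw [_root_.mul_pow, _root_.mul_pow]; ring
    rw [e1, mp _ (by omega)]
    refine mul_le_mul_left ?_ _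
    have e2 := (mul_le_mul_right (h.pow_le (-1) e n) (B n s)).trans (h.mul _ _ _ _)
    rw [show (n : ℤ) + n * -1 = 0 by ring] at e2
    refine (mul_le_mul_left (e2.trans (h.zero _)) _).trans ((hR.mul _ _).trans (le_of_eq ?_))
    congr 1
    ring
  · have e2 := h.pow_le 1 e n
    rw [mul_one] at e2
    rw [mul_comm, add_comm _ (n * e)]
    exact (mul_le_mul_left e2 _).trans (g1m_ge _ _ _ _)

theorem g1_main [Finite k] (hR : G1R V R)
    (gen : ∀ z : K, ∃ n, ∃ b ∈ R n, b ≠ 0 ∧ b * z ∈ R n) (h2 : (hp R).natDegree = 2)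
    (hB : G1B V R B) (hB' : G1B V R B') (Q : ℕ → ℕ → Submodule k K) (hQ : ∀ n, Fg V (Q n))
    (hm : ∀ n, RM R (Q n)) (hne : ∀ n, ∃ᶠ t in atTop, Q n t ≠ ⊥)
    (s1 : ∀ (n : ℕ) j l, ∀ᶠ i in atTop, Q n i * B n j * B' (-n) l ≤ Q 0 (i + j + l))
    (s2 : ∀ (n : ℕ) j l, ∀ᶠ i in atTop, Q 0 i * B (-n) j * B' n l ≤ Q n (i + j + l))
    {c : ℚ} (ha : ∀ n, |(hp (Q n)).coeff 1| ≤ c) (hb : ∀ n, -c ≤ (hp (Q n)).coeff 0) :
    ∃ n : ℕ, 0 < n ∧ ∃ f : K, f ≠ 0 ∧
      ∀ᶠ t in atTop, g1m (B' n) R t = span k {f} * g1m (B n) R t := by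
  have hV := hR.mdl
  have rk : ∀ n, hp (Q n) - hp R ∈ degreeLT ℚ 2 := fun n =>
    h2 ▸ rank_one hV hR.fg hR.mul hR.pow gen (hQ n) (hm n) (hne n)
  obtain ⟨e, ⟨c1, c2⟩, ⟨c3, c4⟩, c5, c6⟩ := (((hB.cube hR).and (hB'.cube hR)).and
    ((hR.add.and hR.fg).and ((eventually_gt_atTop 0).and hR.fg.pow_smul))).exists
  have mp : ∀ u, (∀ j, R (u + j) = V ^ j • R u) → ∀ j, R u * R e ^ j = R (u + j * e) :=
    fun u hu => hR.mul_pow hu e
  have hW : Mdl (R e) := ⟨c4.1, fun q => car_pow_ne hV e (le_bot_iff.1 (q ▸ hR.pow e))⟩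
  have te : Tendsto (fun t : ℕ => t * e) atTop atTop := tendsto_id.atTop_mul_const' c5
  have e0 : (e : ℚ) ≠ 0 := by exact_mod_cast c5.ne'
  have pw1 : ∀ᶠ t in atTop, R e ^ t = R (t * e) := by
    filter_upwards [eventually_gt_atTop 0] with t ht
    obtain ⟨t, rfl⟩ := Nat.exists_eq_add_one_of_ne_zero ht.ne'
    exact g1_ver c3 t
  have hpW : hp (pw (R e)) = (hp R).comp (C (e : ℚ) * X) := hp_unique (by
    filter_upwards [pw1, te.eventually (hp_spec hV.1 hR.fg)] with t a1 a2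
    rw [eval_comp, show pw (R e) t = R (t * e) from a1, ← a2]
    simp [mul_comm])
  have hd : dimV (R e) = 2 := by
    rw [dimV, hpW, natDegree_comp, h2, natDegree_C_mul_X _ e0]
  obtain ⟨J, hJ⟩ := g1_sec hV hR.fg h2 c
  obtain ⟨t₀, q1, q2⟩ := ((hQ 0).and (hQ 0).pow_smul).exists
  obtain ⟨c₀, b, b0, hb'⟩ := g1_den hR.mul gen q1.1
  have up : ∀ t, span k {b} * Q 0 (t₀ + t) ≤ R (c₀ + t) := fun t => by
    rw [q2 t, smul_eq_mul, mul_left_comm, add_comm c₀]
    exact (mul_le_mul' (hR.pow t) hb').trans (hR.mul _ _)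
  have key := g1_sub hW hd (U := R e * (B (-1) e * B' 1 e)) (U' := R e * (B 1 e * B' (-1) e))
    (a := 3) (m := J + c₀ + t₀) (c := 2 * (hp R).coeff 2 * e * J + c * e)
    (by rw [pow_add]; nth_rewrite 1 [← c1, ← c2]; ring) (fun n => ?_) (fun n => ?_)
  · obtain ⟨n, hn, f, f0, d, hf⟩ := key
    refine ⟨n, hn, f, f0, ?_⟩
    obtain ⟨u₀, h0⟩ := eventually_atTop.1 ((hB.fam hR c1 n).and ((hB'.fam hR c2 n).and
      hR.fg.pow_smul))
    filter_upwards [eventually_ge_atTop (u₀ + (d + n * 3) * e + n * e)] with t ht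
    obtain ⟨u, rfl⟩ := Nat.exists_eq_add_of_le ht
    rw [show u₀ + (d + n * 3) * e + n * e + u = u₀ + u + (d + n * 3) * e + n * e by ring,
      (h0 _ (by omega)).1, (h0 _ (by omega)).2.1, ← mp _ (h0 _ (by omega)).2.2]
    have e1 : span k {f} * (R (u₀ + u) * R e ^ (d + n * 3) * B 1 e ^ n) =
        span k {f} * R e ^ (d + n * 3) * (R (u₀ + u) * B 1 e ^ n) := by ring
    rw [e1, ← hf, pow_add, mul_comm n 3, pow_mul, ← c1]
    simp only [mul_pow]
    ring
  · obtain ⟨s, hs, s0⟩ := Submodule.exists_mem_ne_zero_of_ne_bot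
      (hJ _ (hQ n) (hm n) (rk n) (ha n) (hb n) ((J + c₀ + t₀) * e + t₀ - c₀) (by
        have : J + c₀ + t₀ ≤ (J + c₀ + t₀) * e := Nat.le_mul_of_pos_right _ c5
        omega))
    have hc : c₀ ≤ (J + c₀ + t₀) * e :=
      le_trans (by omega) (Nat.le_mul_of_pos_right _ c5)
    obtain ⟨M, h1, h3⟩ := (te.eventually ((sec_mem_iff.1 hs).and
      ((tendsto_add_atTop_nat ((J + c₀ + t₀) * e + t₀ - c₀)).eventually
        (s1 n (n * e) (n * e))))).exists
    refine ⟨b * s, mul_ne_zero b0 s0, M + 1, ?_⟩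
    have x1 := hB.pow_le 1 e n
    have x2 := hB'.pow_le (-1) e n
    rw [mul_one] at x1
    rw [mul_neg_one] at x2
    have h4 := (mul_le_mul' (mul_le_mul' h1 x1) x2).trans h3
    rw [show M * e + ((J + c₀ + t₀) * e + t₀ - c₀) + n * e + n * e =
      t₀ + (M * e + ((J + c₀ + t₀) * e - c₀) + n * e + n * e) by omega] at h4
    have h5 := (mul_le_mul_right h4 _).trans (up _)
    have e1 : R e ^ (M + 1) = V ^ (M * e) * R e := by
      rw [g1_ver c3 M, show (M + 1) * e = e + M * e by ring, c6, smul_eq_mul]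
    have e2 : span k {b * s} * (V ^ (M * e) * R e) * (R e * (B 1 e * B' (-1) e)) ^ n =
        span k {b} * (V ^ (M * e) * span k {s} * B 1 e ^ n * B' (-1) e ^ n) * R e ^ (n + 1) := by
      rw [← Set.singleton_mul_singleton, ← span_mul_span, mul_pow, mul_pow]; ring
    rw [e1, e2, g1_ver c3 n, show M + 1 + (J + c₀ + t₀) + n * 3 =
      M + (J + c₀ + t₀) + n * 3 + 1 by ring, g1_ver c3]
    refine (mul_le_mul_left h5 _).trans ((hR.mul _ _).trans (le_of_eq ?_))
    congr 1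
    have : (M + (J + c₀ + t₀) + n * 3 + 1) * e =
        M * e + (J + c₀ + t₀) * e + n * e + n * e + (n + 1) * e := by ring
    omega
  · obtain ⟨s, hs, s0⟩ := Submodule.exists_mem_ne_zero_of_ne_bot
      (hJ _ (hQ 0) (hm 0) (rk 0) (ha 0) (hb 0) J le_rfl)
    have mJ : RM R fun t => Q 0 (t + J) := fun m => by
      filter_upwards [(tendsto_add_atTop_nat J).eventually (hm 0 m)] with t ht
      rwa [add_right_comm] at ht
    have lo := mJ.sec (V := V) hR.fg (s := s) hs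
    obtain ⟨a1, a2⟩ := s1_mem h2 (rk n)
    refine ⟨(hp R).coeff 2 * J ^ 2 + c * J + (hp (Q n)).coeff 0, ?_⟩
    have tn : Tendsto (fun t : ℕ => (t + n) * e) atTop atTop := te.comp (tendsto_add_atTop_nat n)
    have tn' : Tendsto (fun t : ℕ => (t + n) * e + J + n * e + n * e) atTop atTop :=
      (tendsto_add_atTop_nat _).comp ((tendsto_add_atTop_nat _).comp
        ((tendsto_add_atTop_nat _).comp tn))
    filter_upwards [tn.eventually lo, (tendsto_add_atTop_nat n).eventually pw1,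
      ((tendsto_add_atTop_nat J).comp tn).eventually (s2 n (n * e) (n * e)),
      tn'.eventually (hp_spec hV.1 (hQ n)), tn'.eventually (hQ n)] with t h1 h3 h4 h5 h6
    have x1 := hB.pow_le (-1) e n
    have x2 := hB'.pow_le 1 e n
    rw [mul_neg_one] at x1
    rw [mul_one] at x2
    have h7 := (mul_le_mul' (mul_le_mul' h1 x1) x2).trans h4
    have e1 : span k {s} * R ((t + n) * e) * B (-1) e ^ n * B' 1 e ^ n =
        span k {s} * ((R e * (B (-1) e * B' 1 e)) ^ n * R e ^ t) := by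
      rw [← h3, mul_pow, mul_pow]; ring
    rw [e1] at h7
    have h8 : (Module.finrank k ↥((R e * (B (-1) e * B' 1 e)) ^ n * R e ^ t) : ℚ) ≤
        Module.finrank k (Q n ((t + n) * e + J + n * e + n * e)) := by
      exact_mod_cast hilb_le h6.1 s0 fun x hx => h7 (mul_mem_mul (mem_span_singleton_self s) hx)
    refine h8.trans ?_
    rw [← h5, s1_eval3 a1, a2, hpW, comp_C_mul_X_coeff]
    have h9 := mul_le_mul_of_nonneg_right (abs_le.1 (ha n)).2
      (Nat.cast_nonneg (α := ℚ) ((t + n) * e + J + n * e + n * e))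
    push_cast at h9 ⊢
    nlinarith [h9]

end

end Pool.Agent.Lib.MP_62d77c_ag.R
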