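import Pool.Agent.Lib.MP_62d77c_ag.R.G2a

/-! Components of a fibre product over a base whose closed points have few parameters. -/

set_option autoImplicit false

namespace Pool.Agent.Lib.MP_62d77c_ag.R

open MvPolynomial
open scoped TensorProduct

section eq

variable {k B1 B2 : Type} [Field k] [CommRing B1] [CommRing B2] [IsDomain B1] [IsDomain B2]
  [Algebra k B1] [Algebra k B2]

theorem g2_flat {P L : Type} [CommRing P] [IsDomain P] [Field L] (g : P →+* L)
    (hi : Function.Injective g) : g.Flat := by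
  have e : g = (IsFractionRing.lift (K := FractionRing P) hi).comp (algebraMap P _) :=
    RingHom.ext fun x => (IsFractionRing.lift_algebraMap hi x).symm
  rw [e]
  refine RingHom.Flat.comp ?_ ?_
  · exact RingHom.flat_algebraMap_iff.2 (IsLocalization.flat _ (nonZeroDivisors P))
  · let _ := (IsFractionRing.lift (K := FractionRing P) hi).toAlgebra
    exact (inferInstance : Module.Flat (FractionRing P) L)

theorem g2_reg {P L : Type} [CommRing P] [CommRing L] (g : P →+* L) (hg : g.Flat) {x : P}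
    (hx : x ∈ nonZeroDivisors P) {y : L} (h : g x * y = 0) : y = 0 := by
  let _ := g.toAlgebra
  have : Module.Flat P L := hg
  refine Module.Flat.isSMulRegular_of_nonZeroDivisors (M := L) hx ?_
  change g x * y = g x * 0
  rw [h, mul_zero]

/-- the product of two integral schemes over a field is equidimensional -/
theorem g2_equidim {d1 d2 : ℕ} (h1 : (d1 : Cardinal) ≤ Algebra.trdeg k B1)
    (h2 : (d2 : Cardinal) ≤ Algebra.trdeg k B2) {W : Ideal (B1 ⊗[k] B2)}
    (hW : W ∈ minimalPrimes (B1 ⊗[k] B2)) : G2Dim k W (d1 + d2) := by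
  have key : ∀ {B : Type} [CommRing B] [IsDomain B] [Algebra k B] {d : ℕ},
      (d : Cardinal) ≤ Algebra.trdeg k B → ∃ f : Fin d → B, AlgebraicIndependent k f := by
    intro B _ _ _ d h
    obtain ⟨t, ht⟩ := exists_isTranscendenceBasis k B
    rw [← ht.cardinalMk_eq_trdeg, ← Cardinal.mk_fin d] at h
    obtain ⟨e⟩ := (Cardinal.le_def _ _).1 h
    exact ⟨_, ht.1.comp e e.injective⟩
  obtain ⟨f1, hf1⟩ := key h1
  obtain ⟨f2, hf2⟩ := key h2
  let F : Fin d1 ⊕ Fin d2 → B1 ⊗[k] B2 := Sum.elim (fun i => f1 i ⊗ₜ 1) (fun i => 1 ⊗ₜ f2 i)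
  refine g2a_dimGE_iff_aeval.2 ⟨fun i => F (finSumFinEquiv.symm i), fun h hh => ?_⟩
  by_contra h0
  refine notMem_nonZeroDivisors_of_mem_mem_minimalPrimes hh hW ?_
  let j1 := IsScalarTower.toAlgHom k B1 (FractionRing B1)
  let j2 := IsScalarTower.toAlgHom k B2 (FractionRing B2)
  let j := Algebra.TensorProduct.map j1 j2
  have hj : Function.Injective j :=
    TensorProduct.map_injective_of_flat_flat j1.toLinearMap j2.toLinearMap
      (IsFractionRing.injective B1 _) (IsFractionRing.injective B2 _)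
  let φ := Algebra.TensorProduct.map (j1.comp (aeval f1)) (j2.comp (aeval f2))
  have hφ : φ.toRingHom.Flat := RingHom.Flat.tensorProductMap
    (g2_flat _ ((IsFractionRing.injective B1 (FractionRing B1)).comp
      (algebraicIndependent_iff_injective_aeval.1 hf1)))
    (g2_flat _ ((IsFractionRing.injective B2 (FractionRing B2)).comp
      (algebraicIndependent_iff_injective_aeval.1 hf2)))
  let e := (tensorEquivSum k (Fin d1) (Fin d2) k).trans (renameEquiv k finSumFinEquiv)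
  have hD : IsDomain (MvPolynomial (Fin d1) k ⊗[k] MvPolynomial (Fin d2) k) :=
    e.toMulEquiv.isDomain _
  have e1 : j.comp (aeval fun i => F (finSumFinEquiv.symm i)) = φ.comp e.symm.toAlgHom := by
    refine algHom_ext fun i => ?_
    obtain ⟨i, rfl⟩ := finSumFinEquiv.surjective i
    have e2 : e.symm (X (finSumFinEquiv i)) =
        Sum.elim (fun i => X i ⊗ₜ 1) (fun i => 1 ⊗ₜ X i) i := by
      rw [AlgEquiv.symm_apply_eq]
      rcases i with i | i <;> simp [e]
    change j (aeval _ (X _)) = φ (e.symm (X _))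
    rw [e2]
    rcases i with i | i <;> simp [F, φ, j]
  have e3 : j (aeval (fun i => F (finSumFinEquiv.symm i)) h) = φ (e.symm h) :=
    DFunLike.congr_fun e1 h
  have h3 : e.symm h ≠ 0 := fun e' => h0 (by simpa using e')
  refine mem_nonZeroDivisors_iff_left.2 fun x hx => hj ?_
  rw [map_zero]
  refine g2_reg φ.toRingHom hφ (mem_nonZeroDivisors_of_ne_zero h3) ?_
  change φ (e.symm h) * j x = 0
  rw [← e3, ← map_mul, hx, map_zero]

end eq

section cut

variable {K C : Type} [Field K] [CommRing C] [Algebra K C] [Algebra.FiniteType K C]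

theorem g2_cut_many (N : Ideal C) [N.IsPrime] : ∀ (c : ℕ) (t : Fin c → C) (W : Ideal C)
    [W.IsPrime], W ≤ N → (∀ i, t i ∈ N) → ∃ S : Ideal C, S.IsPrime ∧ W ≤ S ∧ (∀ i, t i ∈ S) ∧
      S ≤ N ∧ ∀ r, G2Dim K W (r + c) → G2Dim K S r
  | 0, _, W, hW, h, _ => ⟨W, hW, le_rfl, fun i => i.elim0, h, fun _ h => h⟩
  | c + 1, t, W, _, h, ht => by
    obtain ⟨S, hS, h1, h2, h3, h4⟩ := g2a_exists_cut (K := K) h (ht 0)
    obtain ⟨T, hT, h5, h6, h7, h8⟩ := g2_cut_many N c (fun i => t i.succ) S h3 fun i => ht _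
    exact ⟨T, hT, h1.trans h5, fun i => Fin.cases (h5 h2) h6 i, h7,
      fun r hr => h8 r (h4 (r + c) hr)⟩

end cut

section abs

variable {p : ℕ} [Fact p.Prime] {R C : Type} [CommRing R] [CommRing C] [Algebra (ZMod p) C]
  [Algebra.FiniteType (ZMod p) C]

/-- At the maximal ideals over `p` outside `l = 0` the cotangent space has at most `c`
generators. -/
def G2Par (p c : ℕ) {R : Type} [CommRing R] (l : R) : Prop :=
  ∀ 𝔪 : Ideal R, 𝔪.IsMaximal → Finite (R ⧸ 𝔪) → (p : R) ∈ 𝔪 → l ∉ 𝔪 →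
    ∃ t : Fin c → R, (∀ i, t i ∈ 𝔪) ∧ 𝔪 ≤ Ideal.span (Set.range t) ⊔ 𝔪 ^ 2

/-- near a closed point the equaliser of two maps is cut out by `c` equations -/
theorem g2_local {c : ℕ} {l : R} (hc : G2Par p c l) (u v : R →+* C) (𝔑 : Ideal C)
    [h𝔑 : 𝔑.IsMaximal] (hl : u l ∉ 𝔑) (hJ : ∀ r, u r - v r ∈ 𝔑) : ∃ (t : Fin c → R) (s : C), s ∉ 𝔑 ∧
      ∀ r, s * (u r - v r) ∈ Ideal.span (Set.range fun i => u (t i) - v (t i)) := by
  let _ := Ideal.Quotient.field 𝔑
  have : Module.Finite (ZMod p) (C ⧸ 𝔑) := finite_of_finite_type_of_isJacobsonRing _ _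
  have : Finite (C ⧸ 𝔑) := Module.finite_of_finite (ZMod p)
  let _ := Fintype.ofFinite (C ⧸ 𝔑)
  have : CharP (C ⧸ 𝔑) p := charP_of_injective_algebraMap (algebraMap (ZMod p) _).injective p
  have : IsNoetherianRing C := Algebra.FiniteType.isNoetherianRing (ZMod p) C
  obtain ⟨n, hp, hq⟩ := FiniteField.card (C ⧸ 𝔑) p
  let 𝔪 := 𝔑.comap u
  have hv : ∀ r ∈ 𝔪, v r ∈ 𝔑 := fun r hr => by
    simpa using sub_mem (Ideal.mem_comap.1 hr) (hJ r)
  have hpC : (p : C) = 0 := by
    rw [← map_natCast (algebraMap (ZMod p) C), ZMod.natCast_self, map_zero]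
  have hfin : Finite (R ⧸ 𝔪) :=
    Finite.of_injective _ (Ideal.quotientMap_injective (f := u) (I := 𝔑))
  have h𝔪 : 𝔪.IsMaximal := Ideal.Quotient.maximal_of_isField _ (Finite.isField_of_domain _)
  obtain ⟨t, ht, hle⟩ := hc 𝔪 h𝔪 hfin (by
    rw [Ideal.mem_comap, map_natCast, hpC]
    exact zero_mem _) hl
  set J : Ideal C := Ideal.span (Set.range fun r => u r - v r) with hJd
  set T : Ideal C := Ideal.span (Set.range fun i => u (t i) - v (t i)) with hT
  have hm : ∀ r, u r - v r ∈ J := fun r => Ideal.subset_span ⟨r, rfl⟩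
  have hmul : ∀ a b, u (a * b) - v (a * b) = u a * (u b - v b) + v b * (u a - v a) := fun a b => by
    simp only [map_mul]
    ring
  have hadd : ∀ a b, u (a + b) - v (a + b) = (u a - v a) + (u b - v b) := fun a b => by
    simp only [map_add]
    ring
  have h1 : ∀ r ∈ Ideal.span (Set.range t), u r - v r ∈ T ⊔ 𝔑 * J := fun r hr => by
    obtain ⟨a, rfl⟩ := Ideal.mem_span_range_iff_exists_fun.1 hr
    rw [map_sum, map_sum, ← Finset.sum_sub_distrib]
    refine sum_mem fun i _ => ?_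
    rw [hmul]
    exact add_mem (Ideal.mem_sup_left (Ideal.mul_mem_left _ _ (Ideal.subset_span ⟨i, rfl⟩)))
      (Ideal.mem_sup_right (Ideal.mul_mem_mul (hv _ (ht i)) (hm _)))
  have h2 : ∀ r ∈ 𝔪 ^ 2, u r - v r ∈ 𝔑 * J := fun r hr => by
    rw [sq] at hr
    refine Submodule.mul_induction_on hr (fun a ha b hb => ?_) fun a b ha hb => ?_
    · rw [hmul]
      exact add_mem (Ideal.mul_mem_mul (Ideal.mem_comap.1 ha) (hm _))
        (Ideal.mul_mem_mul (hv _ hb) (hm _))
    · rw [hadd]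
      exact add_mem ha hb
  have h3 : J ≤ T ⊔ 𝔑 • J := by
    refine Ideal.span_le.2 ?_
    rintro _ ⟨r, rfl⟩
    have h4 : r - r ^ p ^ (n : ℕ) ∈ 𝔪 := by
      rw [Ideal.mem_comap, ← Ideal.Quotient.eq_zero_iff_mem, map_sub, map_pow, map_sub, map_pow,
        ← hq, FiniteField.pow_card, sub_self]
    obtain ⟨a, ha, b, hb, hab⟩ := Submodule.mem_sup.1 (hle h4)
    have h5 : u (r ^ p ^ (n : ℕ)) - v (r ^ p ^ (n : ℕ)) ∈ 𝔑 * J := by
      have : Nontrivial C := (Ideal.Quotient.mk 𝔑).domain_nontrivial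
      have : CharP C p := charP_of_injective_algebraMap (algebraMap (ZMod p) _).injective p
      rw [map_pow, map_pow, ← sub_pow_char_pow]
      obtain ⟨m, hm'⟩ : ∃ m, p ^ (n : ℕ) = m + 2 :=
        ⟨p ^ (n : ℕ) - 2, by have := Nat.one_lt_pow n.ne_zero hp.one_lt; omega⟩
      rw [hm', pow_succ, pow_succ]
      exact Ideal.mul_mem_mul (Ideal.mul_mem_left _ _ (hJ r)) (hm r)
    have e : r = a + b + r ^ p ^ (n : ℕ) := by rw [hab]; ring
    change u r - v r ∈ T ⊔ 𝔑 * J
    rw [e, hadd, hadd]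
    exact add_mem (add_mem (h1 a ha) (Ideal.mem_sup_right (h2 b hb))) (Ideal.mem_sup_right h5)
  obtain ⟨s, hs, hs'⟩ := Submodule.exists_sub_one_mem_and_smul_le_of_fg_of_le_sup
    (IsNoetherian.noetherian J) le_rfl h3
  refine ⟨t, s, fun h => h𝔑.ne_top ((Ideal.eq_top_iff_one _).2 (by simpa using sub_mem h hs)),
    fun r => hs' (Submodule.smul_mem_pointwise_smul _ _ _ (hm r))⟩

/-- Inside a prime containing the equaliser there is such a prime of codimension at most `c`. -/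
theorem g2_abs {c : ℕ} {l : R} (hc : G2Par p c l) (u v : R →+* C) (Q : Ideal C)
    [hQ : Q.IsPrime] (hl : u l ∉ Q) (hJ : ∀ r, u r - v r ∈ Q) (W : Ideal C) [W.IsPrime] (hW : W ≤ Q) :
    ∃ S : Ideal C, S.IsPrime ∧ W ≤ S ∧ (∀ r, u r - v r ∈ S) ∧ S ≤ Q ∧
      ∀ r, G2Dim (ZMod p) W (r + c) → G2Dim (ZMod p) S r := by
  have : IsJacobsonRing C := isJacobsonRing_of_finiteType (A := ZMod p)
  obtain ⟨𝔑, h𝔑, hle, hn⟩ : ∃ 𝔑 : Ideal C, 𝔑.IsMaximal ∧ Q ≤ 𝔑 ∧ u l ∉ 𝔑 := by
    by_contra hc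
    push Not at hc
    refine hl ?_
    rw [← IsJacobsonRing.out inferInstance hQ.isRadical]
    exact Ideal.mem_sInf.2 fun {J} h => hc J h.2 h.1
  obtain ⟨t, s, hs, h⟩ := g2_local hc u v 𝔑 hn fun r => hle (hJ r)
  obtain ⟨S, hS, h1, h2, h3, h4⟩ := g2_cut_many (K := ZMod p) Q c
    (fun i => u (t i) - v (t i)) W hW fun i => hJ _
  refine ⟨S, hS, h1, fun r => ?_, h3, h4⟩
  refine (hS.mem_or_mem (Ideal.span_le.2 ?_ (h r))).resolve_left fun e => hs (hle (h3 e))
  rintro _ ⟨i, rfl⟩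
  exact h2 i

end abs

section par

open IsLocalRing

/-- parameters of a regular localisation -/
theorem g2_par_of_reg {R : Type} [CommRing R] (𝔪 : Ideal R) [h𝔪 : 𝔪.IsMaximal] (O : Type)
    [CommRing O] [Algebra R O] [IsLocalization.AtPrime O 𝔪] [IsRegularLocalRing O] {c : ℕ}
    (hd : ringKrullDim O ≤ c) :
    ∃ t : Fin c → R, (∀ i, t i ∈ 𝔪) ∧ 𝔪 ≤ Ideal.span (Set.range t) ⊔ 𝔪 ^ 2 := by
  classical
  obtain ⟨F, hF, hs⟩ := Submodule.FG.exists_span_finset_card_eq_spanFinrank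
    (IsNoetherian.noetherian (maximalIdeal O))
  have hc : F.card ≤ c := by
    rw [← IsRegularLocalRing.spanFinrank_maximalIdeal, ← hF] at hd
    exact_mod_cast hd
  let τ : Fin c → O := fun i => if h : (i : ℕ) < F.card then (F.equivFin.symm ⟨i, h⟩ : O) else 0
  have h1 : ∀ i, τ i ∈ maximalIdeal O := fun i => by
    simp only [τ]
    split_ifs with h
    · exact hs ▸ Submodule.subset_span (F.equivFin.symm ⟨i, h⟩).2
    · exact zero_mem _
  choose a s ha using fun i => IsLocalization.exists_mk'_eq 𝔪.primeCompl (τ i)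
  refine ⟨a, fun i => (IsLocalization.AtPrime.mk'_mem_maximal_iff O 𝔪 (a i) (s i)).1
    (ha i ▸ h1 i), fun x hx => ?_⟩
  have h2 : maximalIdeal O ≤ (Ideal.span (Set.range a)).map (algebraMap R O) := by
    rw [← hs]
    refine Submodule.span_le.2 fun y hy => ?_
    let i : Fin c := ⟨F.equivFin ⟨y, hy⟩, (F.equivFin ⟨y, hy⟩).2.trans_le hc⟩
    have e : τ i = y := by simp [τ, i]
    rw [← e, ← ha, IsLocalization.mk'_eq_mul_mk'_one]
    exact Ideal.mul_mem_right _ _ (Ideal.mem_map_of_mem _ (Ideal.subset_span ⟨i, rfl⟩))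
  obtain ⟨m, hm, hmx⟩ := (IsLocalization.algebraMap_mem_map_algebraMap_iff 𝔪.primeCompl O _ x).1
    (h2 ((IsLocalization.AtPrime.to_map_mem_maximal_iff O 𝔪 x).2 hx))
  obtain ⟨y, z, hz, e⟩ := h𝔪.exists_inv hm
  have e' : x = y * (m * x) + z * x := by rw [← mul_assoc, ← add_mul, e, one_mul]
  rw [e', sq]
  exact add_mem (Ideal.mem_sup_left (Ideal.mul_mem_left _ _ hmx))
    (Ideal.mem_sup_right (Ideal.mul_mem_mul hz hx))

/-- the condition passes to quotients -/
theorem G2Par.of_surjective {p c : ℕ} {R S : Type} [CommRing R] [CommRing S] {l : R}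
    (h : G2Par p c l) (f : R →+* S) (hf : Function.Surjective f) : G2Par p c (f l) := by
  intro 𝔪 h𝔪 hfin hp hl
  obtain ⟨t, ht, hle⟩ := h (𝔪.comap f) (Ideal.comap_isMaximal_of_surjective f hf)
    (Finite.of_injective _ (Ideal.quotientMap_injective (f := f) (I := 𝔪)))
    (by rwa [Ideal.mem_comap, map_natCast]) hl
  refine ⟨fun i => f (t i), ht, ?_⟩
  have := Ideal.map_mono (f := f) hle
  rw [Ideal.map_sup, Ideal.map_pow, Ideal.map_comap_of_surjective f hf, Ideal.map_span,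
    ← Set.range_comp] at this
  exact this

end par

theorem g2_trdeg {K A B : Type} [Field K] [CommRing A] [CommRing B] [IsDomain A] [IsDomain B]
    [Algebra K A] [Algebra K B] (f : A →ₐ[K] B) (hi : Function.Injective f)
    (hf : f.toRingHom.IsIntegral) : Algebra.trdeg K A = Algebra.trdeg K B := by
  let _ := f.toRingHom.toAlgebra
  have : IsScalarTower K A B := .of_algebraMap_eq fun c => (f.commutes c).symm
  have : FaithfulSMul A B := (faithfulSMul_iff_algebraMap_injective _ _).mpr hi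
  have : Algebra.IsIntegral A B := ⟨hf⟩
  have h1 := trdeg_add_eq K A (A := B)
  rwa [trdeg_eq_zero (R := A) (A := B), add_zero] at h1

/-- the dimension is unchanged under contraction along an integral map -/
theorem G2Dim.comap_of_isIntegral {K A B : Type} [Field K] [CommRing A] [CommRing B] [Algebra K A]
    [Algebra K B] (g : A →ₐ[K] B) (hg : g.toRingHom.IsIntegral) {Q : Ideal B} [Q.IsPrime] {r : ℕ}
    (h : G2Dim K Q r) : G2Dim K (Q.comap g) r := by
  refine g2a_dimGE_of_le_trdeg ?_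
  rw [g2_trdeg (Ideal.quotientMapₐ Q g (le_refl (Q.comap g))) Ideal.quotientMap_injective
    (RingHom.IsIntegral.quotient _ hg)]
  exact h.le_trdeg

section tensor

variable {p : ℕ} [Fact p.Prime]

/-- a ring map of algebras over the prime field -/
def g2_alg {A B : Type} [CommRing A] [CommRing B] [Algebra (ZMod p) A] [Algebra (ZMod p) B]
    (f : A →+* B) : A →ₐ[ZMod p] B :=
  { f with commutes' := fun c =>
      DFunLike.congr_fun (RingHom.ext_zmod (f.comp (algebraMap _ A)) (algebraMap _ B)) c }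

variable {R B1 B2 : Type} [CommRing R] [CommRing B1] [CommRing B2] [IsDomain B1] [IsDomain B2]
  [Algebra R B1] [Algebra R B2] [Algebra (ZMod p) B1] [Algebra (ZMod p) B2]
  [Algebra.FiniteType (ZMod p) B1] [Algebra.FiniteType (ZMod p) B2]

/-- G2: every component of the fibre product has dimension at least `d1 + d2 - c`. -/
theorem g2_dim [Algebra (ZMod p) (B1 ⊗[R] B2)] {c d1 d2 r : ℕ} {l : R} (hc : G2Par p c l)
    (h1 : (d1 : Cardinal) ≤ Algebra.trdeg (ZMod p) B1)
    (h2 : (d2 : Cardinal) ≤ Algebra.trdeg (ZMod p) B2) (hr : r + c ≤ d1 + d2)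
    {Q : Ideal (B1 ⊗[R] B2)} (hQ : Q ∈ minimalPrimes (B1 ⊗[R] B2))
    (hl : algebraMap R (B1 ⊗[R] B2) l ∉ Q) : G2Dim (ZMod p) Q r := by
  have := hQ.isPrime
  let π : B1 ⊗[ZMod p] B2 →ₐ[ZMod p] B1 ⊗[R] B2 := Algebra.TensorProduct.productMap
    (g2_alg Algebra.TensorProduct.includeLeftRingHom)
    (g2_alg Algebra.TensorProduct.includeRight.toRingHom)
  have hπ : ∀ a b, π (a ⊗ₜ b) = a ⊗ₜ b := fun a b => by
    simp [π, g2_alg]
  let u : R →+* B1 ⊗[ZMod p] B2 := Algebra.TensorProduct.includeLeftRingHom.comp (algebraMap R B1)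
  let v : R →+* B1 ⊗[ZMod p] B2 :=
    Algebra.TensorProduct.includeRight.toRingHom.comp (algebraMap R B2)
  have huv : ∀ x, u x - v x ∈ Q.comap π := fun x => by
    have e : π (u x) = π (v x) := by
      change π (algebraMap R B1 x ⊗ₜ 1) = π (1 ⊗ₜ algebraMap R B2 x)
      rw [hπ, hπ, Algebra.algebraMap_eq_smul_one, Algebra.algebraMap_eq_smul_one,
        TensorProduct.smul_tmul]
    rw [Ideal.mem_comap, map_sub, e, sub_self]
    exact zero_mem _
  obtain ⟨W, hW, hWQ⟩ := Ideal.exists_minimalPrimes_le (show ⊥ ≤ Q.comap π from bot_le)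
  have := hW.isPrime
  have : Algebra.FiniteType (ZMod p) (B1 ⊗[ZMod p] B2) :=
    Algebra.FiniteType.trans (S := B1) inferInstance inferInstance
  obtain ⟨S, hS, -, h3, h4, h5⟩ := g2_abs hc u v (Q.comap π)
    (fun e => hl (by rw [Algebra.TensorProduct.algebraMap_apply, ← hπ]; exact e)) huv W hWQ
  refine G2Dim.of_comap π ?_
  suffices e : Q.comap π ≤ S by
    rw [le_antisymm e h4]
    exact h5 r ((g2_equidim h1 h2 hW).mono hr)
  let _ : Algebra R ((B1 ⊗[ZMod p] B2) ⧸ S) := ((Ideal.Quotient.mk S).comp u).toAlgebra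
  let f1 : B1 →ₐ[R] (B1 ⊗[ZMod p] B2) ⧸ S :=
    { (Ideal.Quotient.mk S).comp Algebra.TensorProduct.includeLeftRingHom with
      commutes' := fun _ => rfl }
  let f2 : B2 →ₐ[R] (B1 ⊗[ZMod p] B2) ⧸ S :=
    { (Ideal.Quotient.mk S).comp Algebra.TensorProduct.includeRight.toRingHom with
      commutes' := fun x => (Ideal.Quotient.eq.2 (h3 x)).symm }
  let ψ := Algebra.TensorProduct.productMap f1 f2
  have hψ : ∀ z, ψ (π z) = Ideal.Quotient.mk S z := fun z => by
    induction z with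
    | zero => simp
    | add a b ha hb => simp only [map_add, ha, hb]
    | tmul a b =>
      rw [hπ, Algebra.TensorProduct.productMap_apply_tmul]
      change Ideal.Quotient.mk S (a ⊗ₜ 1) * Ideal.Quotient.mk S (1 ⊗ₜ b) = _
      rw [← map_mul, Algebra.TensorProduct.tmul_mul_tmul, mul_one, one_mul]
  have hs : Function.Surjective π := fun z => by
    induction z with
    | zero => exact ⟨0, map_zero _⟩
    | add a b ha hb =>
      obtain ⟨a, rfl⟩ := ha
      obtain ⟨b, rfl⟩ := hb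
      exact ⟨a + b, map_add _ _ _⟩
    | tmul a b => exact ⟨_, hπ a b⟩
  have h6 : RingHom.ker ψ ≤ Q := fun z hz => by
    obtain ⟨z, rfl⟩ := hs z
    rw [RingHom.mem_ker, hψ, Ideal.Quotient.eq_zero_iff_mem] at hz
    exact h4 hz
  have h7 : Q ≤ RingHom.ker ψ := hQ.2 ⟨RingHom.ker_isPrime ψ, bot_le⟩ h6
  intro z hz
  have := h7 (Ideal.mem_comap.1 hz)
  rwa [RingHom.mem_ker, hψ, Ideal.Quotient.eq_zero_iff_mem] at this

/-- G2 read on the first factor when the second factor is integral over the base. -/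
theorem g2_left [Algebra.IsIntegral R B2] {c d1 d2 r : ℕ} {l : R} (hc : G2Par p c l)
    (h1 : (d1 : Cardinal) ≤ Algebra.trdeg (ZMod p) B1)
    (h2 : (d2 : Cardinal) ≤ Algebra.trdeg (ZMod p) B2) (hr : r + c ≤ d1 + d2)
    {Q : Ideal (B1 ⊗[R] B2)} (hQ : Q ∈ minimalPrimes (B1 ⊗[R] B2))
    (hl : algebraMap R (B1 ⊗[R] B2) l ∉ Q) :
    G2Dim (ZMod p) (Q.comap (Algebra.TensorProduct.includeLeftRingHom : B1 →+* _)) r := by
  have := hQ.isPrime
  let _ : Algebra (ZMod p) (B1 ⊗[R] B2) :=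
    (Algebra.TensorProduct.includeLeftRingHom.comp (algebraMap (ZMod p) B1)).toAlgebra
  have h3 : (algebraMap B1 (B1 ⊗[R] B2)).IsIntegral :=
    fun x => Algebra.IsIntegral.isIntegral (R := B1) x
  exact G2Dim.comap_of_isIntegral (K := ZMod p) (A := B1) (B := B1 ⊗[R] B2)
    (g2_alg (algebraMap B1 (B1 ⊗[R] B2))) h3 (g2_dim hc h1 h2 hr hQ hl)

/-- G2 read on the base when both factors are integral over the base. -/
theorem g2_base [Algebra.IsIntegral R B1] [Algebra.IsIntegral R B2] {c d1 d2 r : ℕ} {l : R}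
    (hc : G2Par p c l) (h1 : (d1 : Cardinal) ≤ Algebra.trdeg (ZMod p) B1)
    (h2 : (d2 : Cardinal) ≤ Algebra.trdeg (ZMod p) B2) (hr : r + c ≤ d1 + d2)
    {Q : Ideal (B1 ⊗[R] B2)} (hQ : Q ∈ minimalPrimes (B1 ⊗[R] B2))
    (hl : algebraMap R (B1 ⊗[R] B2) l ∉ Q)
    [Algebra (ZMod p) (R ⧸ Q.comap (algebraMap R (B1 ⊗[R] B2)))] :
    (r : Cardinal) ≤ Algebra.trdeg (ZMod p) (R ⧸ Q.comap (algebraMap R (B1 ⊗[R] B2))) := by
  have := hQ.isPrime
  let _ : Algebra (ZMod p) (B1 ⊗[R] B2) :=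
    (Algebra.TensorProduct.includeLeftRingHom.comp (algebraMap (ZMod p) B1)).toAlgebra
  have h3 : Algebra.IsIntegral R (B1 ⊗[R] B2) := Algebra.IsIntegral.trans B1
  rw [g2_trdeg (g2_alg (p := p) (Ideal.quotientMap Q (algebraMap R (B1 ⊗[R] B2)) le_rfl))
    Ideal.quotientMap_injective (RingHom.IsIntegral.quotient _ h3.isIntegral)]
  exact (g2_dim hc h1 h2 hr hQ hl).le_trdeg

end tensor

end Pool.Agent.Lib.MP_62d77c_ag.R
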