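import Mathlib

/-! Dimension of primes as transcendence degree; one equation cuts it by at most one. -/

set_option autoImplicit false

namespace Pool.Agent.Lib.MP_62d77c_ag.R

open MvPolynomial

/-- There are `r` elements that are algebraically independent modulo `P`. -/
def G2Dim (K : Type) [Field K] {A : Type} [CommRing A] [Algebra K A] (P : Ideal A) (r : ℕ) :
    Prop :=
  ∃ f : Fin r → A, AlgebraicIndependent K (fun i => Ideal.Quotient.mk P (f i))

variable {K : Type} [Field K] {A : Type} [CommRing A] [Algebra K A]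

theorem g2a_dimGE_iff_aeval {P : Ideal A} {r : ℕ} :
    G2Dim K P r ↔ ∃ f : Fin r → A, ∀ h : MvPolynomial (Fin r) K, aeval f h ∈ P → h = 0 := by
  refine exists_congr fun f => ?_
  rw [algebraicIndependent_iff]
  refine forall_congr' fun h => ?_
  have : aeval (fun i => Ideal.Quotient.mk P (f i)) h = Ideal.Quotient.mk P (aeval f h) := by
    have := (comp_aeval_apply (f := f) (Ideal.Quotient.mkₐ K P) h)
    simpa using this.symm
  rw [this, Ideal.Quotient.eq_zero_iff_mem]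

theorem G2Dim.anti {P Q : Ideal A} {r : ℕ} (h : G2Dim K Q r) (hPQ : P ≤ Q) : G2Dim K P r := by
  obtain ⟨f, hf⟩ := g2a_dimGE_iff_aeval.1 h
  exact g2a_dimGE_iff_aeval.2 ⟨f, fun g hg => hf g (hPQ hg)⟩

theorem G2Dim.mono {P : Ideal A} {r s : ℕ} (h : G2Dim K P s) (hrs : r ≤ s) : G2Dim K P r := by
  obtain ⟨f, hf⟩ := h
  exact ⟨fun i => f (Fin.castLE hrs i), hf.comp (Fin.castLE hrs) (Fin.castLE_injective hrs)⟩

theorem G2Dim.ne_top {P : Ideal A} {r : ℕ} (h : G2Dim K P r) : P ≠ ⊤ := by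
  rintro rfl
  obtain ⟨f, hf⟩ := g2a_dimGE_iff_aeval.1 h
  exact one_ne_zero (hf 1 Submodule.mem_top)

theorem g2a_dimGE_zero {P : Ideal A} (hP : P ≠ ⊤) : G2Dim K P 0 := by
  refine g2a_dimGE_iff_aeval.2 ⟨Fin.elim0, fun h hh => ?_⟩
  rw [h.eq_C_of_isEmpty] at hh ⊢
  by_contra h0
  have h1 : h.coeff 0 ≠ 0 := fun e => h0 (by rw [e, map_zero])
  rw [aeval_C] at hh
  exact hP (Ideal.eq_top_of_isUnit_mem _ hh ((IsUnit.mk0 _ h1).map _))

theorem G2Dim.le_trdeg {P : Ideal A} {r : ℕ} (h : G2Dim K P r) :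
    (r : Cardinal) ≤ Algebra.trdeg K (A ⧸ P) := by
  obtain ⟨f, hf⟩ := h
  simpa using hf.cardinalMk_le_trdeg

theorem g2a_dimGE_of_le_trdeg {P : Ideal A} {r : ℕ}
    (h : (r : Cardinal) ≤ Algebra.trdeg K (A ⧸ P)) [P.IsPrime] : G2Dim K P r := by
  obtain ⟨t, ht⟩ := exists_isTranscendenceBasis K (A ⧸ P)
  rw [← ht.cardinalMk_eq_trdeg, ← Cardinal.mk_fin r] at h
  obtain ⟨e⟩ := (Cardinal.le_def _ _).1 h
  choose f hf using fun i : Fin r => Ideal.Quotient.mk_surjective (e i : A ⧸ P)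
  refine ⟨f, ?_⟩
  rw [funext hf]
  exact ht.1.comp e e.injective

theorem g2a_dimGE_iff_trdeg {P : Ideal A} [P.IsPrime] {r : ℕ} :
    G2Dim K P r ↔ (r : Cardinal) ≤ Algebra.trdeg K (A ⧸ P) :=
  ⟨G2Dim.le_trdeg, fun h => g2a_dimGE_of_le_trdeg h⟩

/-- pull back along an algebra map -/
theorem G2Dim.of_comap {B : Type} [CommRing B] [Algebra K B] (g : A →ₐ[K] B) {Q : Ideal B}
    {r : ℕ} (h : G2Dim K (Q.comap g) r) : G2Dim K Q r := by
  obtain ⟨f, hf⟩ := g2a_dimGE_iff_aeval.1 h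
  refine g2a_dimGE_iff_aeval.2 ⟨fun i => g (f i), fun u hu => hf u ?_⟩
  rw [Ideal.mem_comap, comp_aeval_apply]
  exact hu

theorem g2a_aeval_X_eq_rename {σ τ : Type} (e : σ → τ) (h : MvPolynomial σ K) :
    aeval (fun j => (X (e j) : MvPolynomial τ K)) h = rename e h := by
  have : (aeval (fun j => (X (e j) : MvPolynomial τ K)) : MvPolynomial σ K →ₐ[K] _) = rename e :=
    algHom_ext fun i => by simp
  rw [this]

theorem g2a_dimGE_bot_mv (σ : Type) [Fintype σ] :
    G2Dim K (⊥ : Ideal (MvPolynomial σ K)) (Fintype.card σ) := by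
  refine g2a_dimGE_iff_aeval.2 ⟨fun i => X ((Fintype.equivFin σ).symm i), fun h hh => ?_⟩
  rw [Ideal.mem_bot, g2a_aeval_X_eq_rename] at hh
  exact rename_injective _ (Fintype.equivFin σ).symm.injective (by rw [map_zero]; exact hh)

/-- a principal proper ideal of a polynomial ring in `s + 1` variables -/
theorem g2a_dimGE_span_mv {s : ℕ} (f : MvPolynomial (Fin (s + 1)) K) (hf : ¬ IsUnit f) :
    G2Dim K (Ideal.span {f}) s := by
  by_cases h0 : f = 0
  · subst h0
    rw [Ideal.span_singleton_zero]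
    exact (g2a_dimGE_bot_mv (Fin (s + 1))).mono (by simp)
  obtain ⟨i, hi⟩ : f.vars.Nonempty := by
    rw [Finset.nonempty_iff_ne_empty]
    intro e
    rw [vars_eq_empty_iff_eq_C] at e
    have h1 : f.coeff 0 ≠ 0 := fun e' => h0 (by rw [e, e', map_zero])
    exact hf (e ▸ (IsUnit.mk0 _ h1).map C)
  refine g2a_dimGE_iff_aeval.2 ⟨fun j => X (i.succAbove j), fun h hh => ?_⟩
  by_contra hne
  obtain ⟨u, hu⟩ := Ideal.mem_span_singleton.1 hh
  rw [g2a_aeval_X_eq_rename] at hu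
  have h2 : rename i.succAbove h ≠ 0 := fun e => hne
    (rename_injective _ Fin.succAbove_right_injective (by rw [e, map_zero]))
  have hu0 : u ≠ 0 := fun e => h2 (by rw [hu, e, mul_zero])
  have h3 : i ∈ (rename i.succAbove h).vars := by
    rw [mem_vars_iff_degreeOf_ne_zero] at hi ⊢
    rw [hu, degreeOf_mul_eq h0 hu0]
    omega
  obtain ⟨j, -, hj⟩ := mem_vars_rename _ _ h3
  exact Fin.succAbove_ne i j hj

theorem g2a_dimGE_of_height_mv {s : ℕ} (p : Ideal (MvPolynomial (Fin (s + 1)) K)) [hp : p.IsPrime]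
    (h : p.height ≤ 1) : G2Dim K p s := by
  rcases Order.le_one_iff.1 h with h0 | h1
  · rw [Ideal.height_eq_zero_iff_eq_bot.1 h0]
    exact (g2a_dimGE_bot_mv (Fin (s + 1))).mono (by simp)
  · obtain ⟨f, hf⟩ := UniqueFactorizationMonoid.isPrincipal_of_height_eq_one h1
    have e : p = Ideal.span {f} := hf
    rw [e]
    refine g2a_dimGE_span_mv f fun hu => hp.ne_top ?_
    rw [e]
    exact Ideal.span_singleton_eq_top.2 hu

theorem g2a_dimGE_of_height {B : Type} [CommRing B] [IsDomain B] [Algebra K B]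
    [Algebra.FiniteType K B] {r : ℕ} (hB : ((r + 1 : ℕ) : Cardinal) ≤ Algebra.trdeg K B)
    (Q : Ideal B) [Q.IsPrime] (hQ : Q.height ≤ 1) : G2Dim K Q r := by
  obtain ⟨s, g, hg, hf⟩ := exists_finite_inj_algHom_of_fg K B
  let P := MvPolynomial (Fin s) K
  let _ : Algebra P B := g.toRingHom.toAlgebra
  have : IsScalarTower K P B := .of_algebraMap_eq fun c => (g.commutes c).symm
  have : Module.Finite P B := hf
  have : FaithfulSMul P B := (faithfulSMul_iff_algebraMap_injective P B).mpr hg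
  have : IsNoetherianRing B := Algebra.FiniteType.isNoetherianRing K B
  have hs : r + 1 ≤ s := by
    have h1 := trdeg_add_eq K P (A := B)
    rw [trdeg_eq_zero (R := P) (A := B), add_zero, MvPolynomial.trdeg_of_isDomain] at h1
    rw [← h1] at hB
    simpa using hB
  obtain ⟨s, rfl⟩ : ∃ t, s = t + 1 := ⟨s - 1, by omega⟩
  have h2 := Ideal.height_eq_height_add_of_liesOver_of_hasGoingDown (Q.under P) Q
  have h3 : (Q.under P).height ≤ 1 := le_trans (by rw [h2]; exact le_self_add) hQ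
  exact G2Dim.of_comap g ((g2a_dimGE_of_height_mv (Q.under P) h3).mono (by omega))

/-- One equation cuts the dimension by at most one. -/
theorem g2a_dim_cut [Algebra.FiniteType K A] {W S : Ideal A} [hW : W.IsPrime] {φ : A} {r : ℕ}
    (hS : S ∈ (W ⊔ Ideal.span {φ}).minimalPrimes) (h : G2Dim K W (r + 1)) : G2Dim K S r := by
  have hWS : W ≤ S := le_sup_left.trans hS.le
  have : S.IsPrime := hS.isPrime
  have hk : RingHom.ker (Ideal.Quotient.mk W) ≤ S := W.mk_ker.trans_le hWS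
  have : (S.map (Ideal.Quotient.mk W)).IsPrime :=
    Ideal.map_isPrime_of_surjective Ideal.Quotient.mk_surjective hk
  have : IsNoetherianRing A := Algebra.FiniteType.isNoetherianRing K A
  have h1 := g2a_dimGE_of_height (K := K) h.le_trdeg (S.map (Ideal.Quotient.mk W))
    (Ideal.map_height_le_one_of_mem_minimalPrimes hS)
  obtain ⟨f, hf⟩ := g2a_dimGE_iff_aeval.1 h1
  choose f' hf' using fun i => Ideal.Quotient.mk_surjective (f i)
  refine g2a_dimGE_iff_aeval.2 ⟨f', fun u hu => hf u ?_⟩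
  have e : aeval f u = Ideal.Quotient.mk W (aeval f' u) := by
    rw [← funext hf']
    simpa using (comp_aeval_apply (f := f') (Ideal.Quotient.mkₐ K W) u).symm
  rw [e]
  exact Ideal.mem_map_of_mem _ hu

/-- A cut inside a given prime `N`. -/
theorem g2a_exists_cut [Algebra.FiniteType K A] {W N : Ideal A} [W.IsPrime] [N.IsPrime] {φ : A}
    (hWN : W ≤ N) (hφ : φ ∈ N) :
    ∃ S : Ideal A, S.IsPrime ∧ W ≤ S ∧ φ ∈ S ∧ S ≤ N ∧
      ∀ r, G2Dim K W (r + 1) → G2Dim K S r := by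
  obtain ⟨S, hS, hSN⟩ := Ideal.exists_minimalPrimes_le
    (show W ⊔ Ideal.span {φ} ≤ N from sup_le hWN ((Ideal.span_singleton_le_iff_mem _).2 hφ))
  exact ⟨S, hS.isPrime, le_sup_left.trans hS.le,
    (Ideal.span_singleton_le_iff_mem _).1 (le_sup_right.trans hS.le), hSN,
    fun r h => g2a_dim_cut hS h⟩

end Pool.Agent.Lib.MP_62d77c_ag.R
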