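import Pool.Agent.Lib.MP_62d77c_ag.R.G2
import Pool.Agent.Lib.MP_62d77c_ag.R.Dm

/-! Components of a fibre product over the affine cone. -/

set_option autoImplicit false
set_option linter.unusedSectionVars false

namespace Pool.Agent.Lib.MP_62d77c_ag.R

open Polynomial
open scoped TensorProduct

theorem g2c_gen (O : Type) [CommRing O] [IsRegularLocalRing O] {c : ℕ}
    (hd : ringKrullDim O ≤ c) :
    ∃ τ : Fin c → O, Ideal.span (Set.range τ) = IsLocalRing.maximalIdeal O := by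
  classical
  obtain ⟨F, hF, hs⟩ := Submodule.FG.exists_span_finset_card_eq_spanFinrank
    (IsNoetherian.noetherian (IsLocalRing.maximalIdeal O))
  have hc : F.card ≤ c := by
    rw [← IsRegularLocalRing.spanFinrank_maximalIdeal, ← hF] at hd
    exact_mod_cast hd
  let τ : Fin c → O := fun i => if h : (i : ℕ) < F.card then (F.equivFin.symm ⟨i, h⟩ : O) else 0
  refine ⟨τ, le_antisymm (Ideal.span_le.2 ?_) ?_⟩
  · rintro _ ⟨i, rfl⟩
    simp only [τ]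
    split_ifs with h
    · exact hs ▸ Submodule.subset_span (F.equivFin.symm ⟨i, h⟩).2
    · exact zero_mem _
  · rw [← hs]
    refine Submodule.span_le.2 fun y hy => Ideal.subset_span
      ⟨⟨F.equivFin ⟨y, hy⟩, (F.equivFin ⟨y, hy⟩).2.trans_le hc⟩, by simp [τ]⟩

variable {A : Type} [CommRing A] [IsDomain A] {𝒜 : ℕ → AddSubgroup A} [GradedRing 𝒜]
  [hG : Fact (Gen 𝒜)] {p : ℕ} [Fact p.Prime]

/-- the point under a prime ideal of the cone outside the vertex -/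
theorem g2c_pt (𝔪 : Ideal A) [h𝔪 : 𝔪.IsPrime] {l : A} (hl : l ∈ 𝒜 1) (h : l ∉ 𝔪) :
    ∃ y : Pt 𝒜, pr y ≤ 𝔪 ∧ ∀ n, ∀ a ∈ 𝒜 n, a ∈ 𝔪 → a ∈ pr y := by
  rcases exists_pt (h𝔪.homogeneousCore (𝒜 := 𝒜)) (𝔪.homogeneousCore 𝒜).isHomogeneous with
    e | ⟨y, e⟩
  · exact absurd (Ideal.toIdeal_homogeneousCore_le 𝒜 𝔪 (e l hl)) h
  · refine ⟨y, e ▸ Ideal.toIdeal_homogeneousCore_le 𝒜 𝔪, fun n a ha h1 => ?_⟩
    rw [e]
    exact Ideal.mem_homogeneousCore_of_homogeneous_of_mem ⟨n, ha⟩ h1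

/-- the cone over a regular model of dimension `c` has `c + 1` parameters outside the vertex -/
theorem g2_cone {c : ℕ} (hr : ∀ y : Pt 𝒜, IsRegularLocalRing (loc y))
    (hd : ∀ y : Vp 𝒜 p, ringKrullDim (loc y.1) ≤ c) {l : A} (hl : l ∈ 𝒜 1) :
    G2Par p (c + 1) l := by
  intro 𝔪 h𝔪 hfin hp hl'
  obtain ⟨y, h1, h2⟩ := g2c_pt 𝔪 hl hl'
  have hpy : (p : A) ∈ pr y := h2 0 _ (md_natCast_mem p) hp
  have := hr y
  obtain ⟨τ, hτ⟩ := g2c_gen (loc y) (hd ⟨y, hpy⟩)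
  choose n a ha b hb hb' e using fun i => mem_loc.1 (τ i).2
  have h3 : ∀ i, a i ∈ pr y := fun i => by
    by_contra hc
    have h4 : τ i ∈ IsLocalRing.maximalIdeal (loc y) := hτ ▸ Ideal.subset_span ⟨i, rfl⟩
    exact h4 ((snc_unit (ha i) (hb i) (hb' i) (e i)).2 hc)
  have h4 : IsLocalRing.maximalIdeal (loc y) ≤ sncE y (Ideal.span (Set.range a)) := by
    rw [← hτ, Ideal.span_le]
    rintro _ ⟨i, rfl⟩
    exact ⟨n i, a i, ha i, b i, hb i, Ideal.subset_span ⟨i, rfl⟩, hb' i, e i⟩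
  have h5 : pr y ≤ Ideal.span (Set.range a) ⊔ 𝔪 ^ 2 := md_le_of_hom (pr_hom y) fun k x hx h6 => by
    have h7 := md_pow_not_mem (ell_spec y).2 k
    have h8 : sncD y hx ∈ IsLocalRing.maximalIdeal (loc y) := fun hu =>
      (snc_unit hx (md_pow_mem (ell_spec y).1 k) h7 (sncD_val y hx)).1 hu h6
    obtain ⟨m, s, hs, h9, h10⟩ := sncE_clear h7 (sncD_val y hx) (h4 h8)
    obtain ⟨u, z, hz, e'⟩ := h𝔪.exists_inv fun h => h9 (h2 m s hs h)
    have e2 : x = u * (s * x) + z * x := by rw [← mul_assoc, ← add_mul, e', one_mul]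
    rw [e2, sq]
    exact add_mem (Ideal.mem_sup_left (Ideal.mul_mem_left _ _ h10))
      (Ideal.mem_sup_right (Ideal.mul_mem_mul hz (h1 h6)))
  let _ := Ideal.Quotient.field 𝔪
  let _ := Fintype.ofFinite (A ⧸ 𝔪)
  have hp0 : (p : A ⧸ 𝔪) = 0 := by
    rw [← map_natCast (Ideal.Quotient.mk 𝔪), Ideal.Quotient.eq_zero_iff_mem]
    exact hp
  have : CharP (A ⧸ 𝔪) p := (CharP.charP_iff_prime_eq_zero Fact.out).2 hp0
  obtain ⟨k, hpp, hq⟩ := FiniteField.card (A ⧸ 𝔪) p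
  obtain ⟨m, hm⟩ : ∃ m, p ^ (k : ℕ) = m + 2 :=
    ⟨p ^ (k : ℕ) - 2, by have := Nat.one_lt_pow k.ne_zero hpp.one_lt; omega⟩
  have h6 : ∀ x : A, x ^ (m + 2) - x ∈ 𝔪 := fun x => by
    rw [← Ideal.Quotient.eq_zero_iff_mem, map_sub, map_pow, ← hm, ← hq, FiniteField.pow_card,
      sub_self]
  have h7 : l ^ (m + 1) - 1 ∈ 𝔪 := by
    refine (h𝔪.isPrime.mem_or_mem (x := l) ?_).resolve_left hl'
    convert h6 l using 1
    ring
  have h8 : ∀ x : A, x ^ (m + 2) - x ∈ pr y ⊔ Ideal.span {l ^ (m + 1) - 1} := fun x => by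
    induction x using hom_ind (𝒜 := 𝒜) with
    | h0 => simp
    | hadd x z hx hz =>
      obtain ⟨w, hw⟩ := exists_add_pow_prime_pow_eq hpp x z k
      rw [hm] at hw
      have e3 : (x + z) ^ (m + 2) - (x + z) =
          (x ^ (m + 2) - x) + (z ^ (m + 2) - z) + p * x * z * w := by
        rw [hw]; ring
      rw [e3]
      exact add_mem (add_mem hx hz) (Ideal.mem_sup_left (Ideal.mul_mem_right _ _
        (Ideal.mul_mem_right _ _ (Ideal.mul_mem_right _ _ hpy))))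
    | h j x hx =>
      have h9 : x * ((l ^ (m + 1)) ^ j - 1) ∈ Ideal.span {l ^ (m + 1) - 1} :=
        Ideal.mul_mem_left _ _ (Ideal.mem_span_singleton.2 (by
          simpa using sub_dvd_pow_sub_pow (l ^ (m + 1)) 1 j))
      have h10 : x ^ (m + 2) - x * (l ^ (m + 1)) ^ j ∈ 𝒜 ((m + 2) * j) := by
        refine sub_mem (by simpa using SetLike.pow_mem_graded (m + 2) hx) ?_
        rw [← pow_mul, show (m + 2) * j = j + (m + 1) * j by ring]
        exact SetLike.mul_mem_graded hx (md_pow_mem hl _)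
      have e3 : x ^ (m + 2) - x =
          (x ^ (m + 2) - x * (l ^ (m + 1)) ^ j) + x * ((l ^ (m + 1)) ^ j - 1) := by ring
      have h11 : x ^ (m + 2) - x * (l ^ (m + 1)) ^ j ∈ 𝔪 := by
        rw [eq_sub_of_add_eq e3.symm]
        exact sub_mem (h6 x) ((Ideal.span_singleton_le_iff_mem _).2 h7 h9)
      rw [e3]
      exact add_mem (Ideal.mem_sup_left (h2 _ _ h10 h11)) (Ideal.mem_sup_right h9)
  refine ⟨Fin.cons (l ^ (m + 1) - 1) a, fun i => Fin.cases h7 (fun i => h1 (h3 i)) i,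
    fun x hx => ?_⟩
  have h9 : pr y ⊔ Ideal.span {l ^ (m + 1) - 1} ≤
      Ideal.span (Set.range (Fin.cons (l ^ (m + 1) - 1) a : Fin (c + 1) → A)) ⊔ 𝔪 ^ 2 := by
    refine sup_le (h5.trans (sup_le_sup_right (Ideal.span_mono ?_) _)) ?_
    · rintro _ ⟨i, rfl⟩
      exact ⟨i.succ, rfl⟩
    · exact le_sup_of_le_left (Ideal.span_mono (Set.singleton_subset_iff.2 ⟨0, rfl⟩))
  have e4 : x = x ^ m * x ^ 2 - (x ^ (m + 2) - x) := by ring
  rw [e4]
  exact sub_mem (Ideal.mem_sup_right (Ideal.mul_mem_left _ _ (Ideal.pow_mem_pow hx 2))) (h9 (h8 x))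

theorem g2c_dm (y : Vp 𝒜 p) (𝔮 : Ideal A) (h : pr y.1 ≤ 𝔮) [Algebra (ZMod p) (A ⧸ 𝔮)] :
    Algebra.trdeg (ZMod p) (A ⧸ 𝔮) ≤ (dm y + 1 : ℕ) := by
  obtain ⟨θ, -, hθ⟩ := dimc_cone y.1
  have hp : (p : A ⧸ pr y.1) = 0 := by
    rw [← map_natCast (Ideal.Quotient.mk (pr y.1)), Ideal.Quotient.eq_zero_iff_mem]
    exact y.2
  have := y.1.isPrime
  have : CharP (A ⧸ pr y.1) p := (CharP.charP_iff_prime_eq_zero Fact.out).2 hp
  let _ : Algebra (ZMod p) (A ⧸ pr y.1) := ZMod.algebra _ p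
  rw [← dimc_trdeg y]
  refine (trdeg_le_of_surjective (g2_alg (p := p) (Ideal.Quotient.factor h))
    (Ideal.Quotient.factor_surjective h)).trans (trdeg_le_of_injective
      (g2_alg (p := p) (Ideal.Quotient.lift (pr y.1) θ fun a ha => (hθ a).2 ha)) ?_)
  exact RingHom.lift_injective_of_ker_le_ideal _ _ fun a ha => (hθ a).1 ha

/-- G2 on the cone: a point under a relevant component of the fibre product has dimension at
least `d1 + d2 - c - 2`. -/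
theorem g2_point {B1 B2 : Type} [CommRing B1] [CommRing B2] [IsDomain B1] [IsDomain B2]
    [Algebra A B1] [Algebra A B2] [Algebra (ZMod p) B1] [Algebra (ZMod p) B2]
    [Module.Finite A B1] [Module.Finite A B2] {c d1 d2 r : ℕ}
    (hr : ∀ y : Pt 𝒜, IsRegularLocalRing (loc y))
    (hd : ∀ y : Vp 𝒜 p, ringKrullDim (loc y.1) ≤ c)
    (h1 : (d1 : Cardinal) ≤ Algebra.trdeg (ZMod p) B1)
    (h2 : (d2 : Cardinal) ≤ Algebra.trdeg (ZMod p) B2) (h : r + c + 2 ≤ d1 + d2)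
    {Q : Ideal (B1 ⊗[A] B2)} (hQ : Q ∈ minimalPrimes (B1 ⊗[A] B2)) {l : A} (hl : l ∈ 𝒜 1)
    (hlQ : algebraMap A (B1 ⊗[A] B2) l ∉ Q) (y : Vp 𝒜 p)
    (hy : ∀ a ∈ pr y.1, algebraMap A (B1 ⊗[A] B2) a ∈ Q) : r ≤ dm y := by
  have hA : Algebra.FiniteType ℤ A := by
    obtain ⟨s, -, hs⟩ := hG.out
    exact ⟨⟨s, by
      rw [Algebra.adjoin_int, hs]
      rfl⟩⟩
  have key : ∀ (B : Type) [CommRing B] [Algebra A B] [Algebra (ZMod p) B] [Module.Finite A B],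
      Algebra.FiniteType (ZMod p) B := fun B _ _ _ _ =>
    have : Algebra.FiniteType ℤ B := Algebra.FiniteType.trans (S := A) hA inferInstance
    Algebra.FiniteType.of_restrictScalars_finiteType ℤ (ZMod p) B
  have := key B1
  have := key B2
  have := hQ.isPrime
  have hp : (p : A ⧸ Q.comap (algebraMap A (B1 ⊗[A] B2))) = 0 := by
    rw [← map_natCast (Ideal.Quotient.mk _), Ideal.Quotient.eq_zero_iff_mem]
    exact hy _ y.2
  have : CharP (A ⧸ Q.comap (algebraMap A (B1 ⊗[A] B2))) p :=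
    (CharP.charP_iff_prime_eq_zero Fact.out).2 hp
  let _ : Algebra (ZMod p) (A ⧸ Q.comap (algebraMap A (B1 ⊗[A] B2))) := ZMod.algebra _ p
  have h3 := (g2_base (r := r + 1) (g2_cone hr hd hl) h1 h2 (by omega) hQ hlQ).trans
    (g2c_dm y _ hy)
  have h4 : r + 1 ≤ dm y + 1 := by exact_mod_cast h3
  omega

theorem g2c_four (h : Hyp 𝒜) (y : Vp 𝒜 p) : ringKrullDim (loc y.1) ≤ (4 : ℕ) :=
  (dim_lo h y).2.trans_le (by exact_mod_cast Nat.sub_le 4 (dm y))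

/-- G2: under a relevant component of the fibre product of two cones of dimension four over the
cone of the model lies at least a surface. -/
theorem g2_surf (h : Hyp 𝒜) {B1 B2 : Type} [CommRing B1] [CommRing B2] [IsDomain B1]
    [IsDomain B2] [Algebra A B1] [Algebra A B2] [Algebra (ZMod p) B1] [Algebra (ZMod p) B2]
    [Module.Finite A B1] [Module.Finite A B2]
    (h1 : ((4 : ℕ) : Cardinal) ≤ Algebra.trdeg (ZMod p) B1)
    (h2 : ((4 : ℕ) : Cardinal) ≤ Algebra.trdeg (ZMod p) B2)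
    {Q : Ideal (B1 ⊗[A] B2)} (hQ : Q ∈ minimalPrimes (B1 ⊗[A] B2)) {l : A} (hl : l ∈ 𝒜 1)
    (hlQ : algebraMap A (B1 ⊗[A] B2) l ∉ Q) (y : Vp 𝒜 p)
    (hy : ∀ a ∈ pr y.1, algebraMap A (B1 ⊗[A] B2) a ∈ Q) : 2 ≤ dm y :=
  g2_point h.reg (g2c_four h) h1 h2 le_rfl hQ hl hlQ y hy

end Pool.Agent.Lib.MP_62d77c_ag.R
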