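import Pool.Agent.Lib.MP_62d77c_ag.R.N1f

/-! A point of the normalisation over a prime divisor is a restriction map. -/

set_option autoImplicit false
set_option linter.unusedSectionVars false
set_option linter.style.haveILetI false

namespace Pool.Agent.Lib.MP_62d77c_ag.R

open Filter Polynomial Submodule

noncomputable section

/-- extension of a homomorphism to a ring of fractions inside a field -/
theorem g2p_ext {L K : Type} [Field L] [Field K] {R : Subring L} (O : ValuationSubring L)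
    (π : R →+* K) (hO : ∀ z ∈ O, ∃ b : R, π b ≠ 0 ∧ (b : L) * z ∈ R) :
    ∃ ρ : O →+* K, ∀ (z : O) (b : R) (h : (b : L) * z ∈ R), π b * ρ z = π ⟨_, h⟩ := by
  choose s hs hs' using fun z : O => hO z.1 z.2
  have key : ∀ (z : O) (b : R) (h : (b : L) * z ∈ R),
      π b * (π ⟨_, hs' z⟩ / π (s z)) = π ⟨_, h⟩ := fun z b h => by
    rw [← mul_div_assoc, div_eq_iff (hs z), ← map_mul, ← map_mul]
    exact congrArg π (Subtype.ext (by simp only [Subring.coe_mul]; ring))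
  refine ⟨⟨⟨⟨fun z => π ⟨_, hs' z⟩ / π (s z), ?_⟩, fun z w => ?_⟩, ?_, fun z w => ?_⟩, key⟩
  · have := key 1 1 (by simp)
    rw [map_one, one_mul] at this
    rw [this, ← map_one π]
    exact congrArg π (Subtype.ext (by simp))
  · have h1 : ((s z * s w : R) : L) * (z * w : O) ∈ R := by
      have := mul_mem (hs' z) (hs' w)
      rwa [mul_mul_mul_comm] at this
    refine mul_left_cancel₀ (mul_ne_zero (hs z) (hs w)) ?_
    rw [← map_mul, key _ _ h1, map_mul, mul_mul_mul_comm, key z _ (hs' z), key w _ (hs' w),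
      ← map_mul]
    exact congrArg π (Subtype.ext (by push_cast; ring))
  · have := key 0 1 (by simp)
    rw [map_one, one_mul] at this
    exact this.trans ((congrArg π (Subtype.ext (by simp))).trans (map_zero π))
  · have h2 : ((s z * s w : R) : L) * z ∈ R := by
      have := mul_mem (s w).2 (hs' z)
      rwa [← mul_assoc, mul_comm (s w : L)] at this
    have h3 : ((s z * s w : R) : L) * w ∈ R := by
      have := mul_mem (s z).2 (hs' w)
      rwa [← mul_assoc] at this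
    have h1 : ((s z * s w : R) : L) * (z + w : O) ∈ R := by
      have := add_mem h2 h3
      rwa [← mul_add] at this
    refine mul_left_cancel₀ (mul_ne_zero (hs z) (hs w)) ?_
    change _ * (π ⟨_, hs' (z + w)⟩ / π (s (z + w))) =
      _ * (π ⟨_, hs' z⟩ / π (s z) + π ⟨_, hs' w⟩ / π (s w))
    rw [← map_mul, key _ _ h1, mul_add, key _ _ h2, key _ _ h3, ← map_add]
    exact congrArg π (Subtype.ext (by push_cast; ring))

variable {A : Type} [CommRing A] [IsDomain A] {𝒜 : ℕ → AddSubgroup A} [GradedRing 𝒜]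
  [hG : Fact (Gen 𝒜)] {p : ℕ} [Fact p.Prime]

/-- evaluation of the sections of the normalisation of `X` at a point of `Y` -/
structure GEv (X Y : Mo 𝒜 p) (ε : ℕ → X.L → Y.L) : Prop where
  add : ∀ n, ∀ z ∈ X.MD 0 n, ∀ w ∈ X.MD 0 n, ε n (z + w) = ε n z + ε n w
  mul : ∀ n m, ∀ z ∈ X.MD 0 n, ∀ w ∈ X.MD 0 m, ε (n + m) (z * w) = ε n z * ε m w
  th : ∀ n, ∀ a ∈ 𝒜 n, ε n (X.θ a) = Y.θ a

namespace GEv

variable {X Y : Mo 𝒜 p} {ε : ℕ → X.L → Y.L} (h : GEv X Y ε)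
include h

theorem le : pr X.x.1 ≤ pr Y.x.1 := md_le_of_hom (pr_hom _) fun n a ha h1 => by
  rw [← Y.ker n a ha, ← h.th n a ha, (X.ker n a ha).2 h1, ← map_zero X.θ, h.th n 0 (zero_mem _),
    map_zero]

theorem shift {n : ℕ} {z : X.L} (hz : z ∈ X.MD 0 n) (k : ℕ) :
    ε (k + n) (X.θ (ell Y.x.1) ^ k * z) = ε n z := by
  have h1 := md_pow_mem (ell_spec Y.x.1).1 k
  rw [← map_pow, h.mul k n _ (X.th_mem_MD h1) z hz, h.th k _ h1, map_pow, Y.one, one_pow, one_mul]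

theorem exists_ch : ∃ π : X.ch (ell Y.x.1) →+* Y.L, ∀ (z : X.ch (ell Y.x.1)) (n : ℕ),
    X.θ (ell Y.x.1) ^ n * z ∈ X.MD 0 n → π z = ε n (X.θ (ell Y.x.1) ^ n * z) := by
  obtain ⟨hl, h1⟩ := ell_spec Y.x.1
  have h0 : ell Y.x.1 ∉ pr X.x.1 := fun e => h1 (h.le e)
  choose d hd using fun z : X.ch (ell Y.x.1) => (X.mem_ch_iff hl h0).1 z.2
  have up : ∀ {z : X.L} {n : ℕ} (k : ℕ), X.θ (ell Y.x.1) ^ n * z ∈ X.MD 0 n →
      X.θ (ell Y.x.1) ^ (k + n) * z ∈ X.MD 0 (k + n) := fun {z n} k hz => by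
    rw [pow_add, mul_assoc, ← map_pow]
    exact X.th_mul_mem (md_pow_mem hl k) hz
  have key : ∀ (z : X.ch (ell Y.x.1)) (n : ℕ), X.θ (ell Y.x.1) ^ n * z ∈ X.MD 0 n →
      ε (d z) (X.θ (ell Y.x.1) ^ d z * z) = ε n (X.θ (ell Y.x.1) ^ n * z) := fun z n hz => by
    rw [← h.shift (hd z) n, ← h.shift hz (d z), add_comm n, mul_left_comm]
  refine ⟨⟨⟨⟨fun z => ε (d z) (X.θ (ell Y.x.1) ^ d z * z), ?_⟩, fun z w => ?_⟩, ?_,
    fun z w => ?_⟩, key⟩
  · have h2 : X.θ (ell Y.x.1) ^ 0 * ((1 : X.ch (ell Y.x.1)) : X.L) = X.θ 1 := by simp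
    rw [key 1 0 (h2 ▸ X.th_mem_MD (SetLike.one_mem_graded 𝒜)), h2,
      h.th 0 1 (SetLike.one_mem_graded 𝒜), map_one]
  · have h2 : X.θ (ell Y.x.1) ^ (d z + d w) * ((z * w : X.ch (ell Y.x.1)) : X.L) =
        (X.θ (ell Y.x.1) ^ d z * z) * (X.θ (ell Y.x.1) ^ d w * w) := by
      push_cast; ring
    have h3 := X.mul_mem_MD (hd z) (hd w)
    rw [add_zero] at h3
    change ε (d (z * w)) _ = _
    rw [key _ _ (h2 ▸ h3), h2, h.mul _ _ _ (hd z) _ (hd w)]
  · have h2 : X.θ (ell Y.x.1) ^ 0 * ((0 : X.ch (ell Y.x.1)) : X.L) = X.θ 0 := by simp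
    change ε (d 0) _ = _
    rw [key 0 0 (h2 ▸ X.th_mem_MD (zero_mem _)), h2, h.th 0 0 (zero_mem _), map_zero]
  · have h2 := up (d w) (hd z)
    have h3 := up (d z) (hd w)
    rw [add_comm] at h3
    have h4 : X.θ (ell Y.x.1) ^ (d w + d z) * ((z + w : X.ch (ell Y.x.1)) : X.L) =
        X.θ (ell Y.x.1) ^ (d w + d z) * z + X.θ (ell Y.x.1) ^ (d w + d z) * w := by
      push_cast; ring
    change ε (d (z + w)) _ = ε (d z) _ + ε (d w) _
    rw [key _ _ (h4 ▸ add_mem h2 h3), h4, h.add _ _ h2 _ h3, key z _ h2, key w _ h3]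

/-- an evaluation at a cover of a prime divisor is a restriction map -/
theorem exists_sp (hd : dm Y.x + 1 = dm X.x) :
    ∃ S : Sp X Y, ∀ n, ∀ z ∈ X.MD 0 n, S.ev 0 n z = ε n z := by
  obtain ⟨hl, h1⟩ := ell_spec Y.x.1
  have h0 : ell Y.x.1 ∉ pr X.x.1 := fun e => h1 (h.le e)
  have l0 := X.th_ne hl h0
  obtain ⟨π, hπ⟩ := h.exists_ch
  have h2 : ∀ n z (hz : z ∈ X.MD 0 n), π ⟨_, X.div_mem_ch hl h0 hz⟩ = ε n z := fun n z hz => by
    have e : X.θ (ell Y.x.1) ^ n * (z / X.θ (ell Y.x.1) ^ n) = z :=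
      mul_div_cancel₀ _ (pow_ne_zero n l0)
    rw [hπ ⟨_, X.div_mem_ch hl h0 hz⟩ n (by rwa [e]), e]
  have hq := RingHom.ker_isPrime π
  obtain ⟨O, hO⟩ := exists_ctr (RingHom.ker π) hq
  have hc : X.Cen O Y.x.1 := Mo.cen_of h.le hl h1 fun n a ha => by
    have h3 := hO ⟨_, X.div_mem_ch hl h0 (X.th_mem_MD ha)⟩
    refine ⟨h3.1, h3.2.symm.trans ?_⟩
    rw [RingHom.mem_ker, h2 n _ (X.th_mem_MD ha), h.th n a ha, Y.ker n a ha]
  have hP : O ∈ X.PD := ⟨Y.x, hc, hd⟩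
  have h3 : (RingHom.ker π).height = 1 := by
    have h4 := Mo.height_ctr hl h1 hc hO
    rw [← hd, Nat.cast_add, add_comm (dm Y.x : ℕ∞)] at h4
    exact WithTop.add_right_cancel (ENat.natCast_ne_top _) h4
  have h4 := fun z => (X.nrm_ch hl h0).mem_iff (z := z) hq h3 hO
  obtain ⟨ρ, hρ⟩ := g2p_ext O π fun z hz => (h4 z).1 hz
  have h5 : ∀ (z : O) (hz : z.1 ∈ X.ch (ell Y.x.1)), ρ z = π ⟨z, hz⟩ := fun z hz => by
    have := hρ z 1 (by simpa using hz)
    rw [map_one, one_mul] at this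
    exact this.trans (congrArg π (Subtype.ext (by simp)))
  refine ⟨⟨O, hP, Mo.cen_eq hc, ρ, fun z => ?_, fun n a ha hz => ?_⟩, fun n z hz => ?_⟩
  · obtain ⟨b, hb, hb'⟩ := (h4 z).1 z.2
    have e : O.valuation ((b : X.L) * z) = O.valuation z := by
      rw [map_mul, hO.eq_one hb, one_mul]
    rw [← e, ← (hO ⟨_, hb'⟩).2, RingHom.mem_ker, ← hρ z b hb', mul_eq_zero]
    exact (or_iff_right hb).symm
  · rw [h5 _ (X.div_mem_ch hl h0 (X.th_mem_MD ha)), h2 n _ (X.th_mem_MD ha), h.th n a ha]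
  · have e : X.nm O 0 n z = z / X.θ (ell Y.x.1) ^ n := by rw [X.nm_zero, Mo.cen_eq hc]
    rw [Sp.ev_eq _ (hz O hP), ← h2 n z hz]
    exact (h5 ⟨_, hz O hP⟩ ((congrArg (· ∈ X.ch (ell Y.x.1)) e).mpr
      (X.div_mem_ch hl h0 hz))).trans (congrArg π (Subtype.ext e))

end GEv

end

end Pool.Agent.Lib.MP_62d77c_ag.R
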