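import Pool.Agent.Lib.MP_62d77c_ag.R.G4
import Pool.Agent.Lib.MP_62d77c_ag.Alg

/-! From isomorphisms on the components of a fibre product to a local trivialisation. -/

set_option autoImplicit false

namespace Pool.Agent.Lib.MP_62d77c_ag.R

open TensorProduct

/-- a nonzero element of a field of characteristic `p` that is integral over the integers has
finite order -/
theorem g3_fin_int (p : ℕ) [Fact p.Prime] {K : Type} [Field K] (hp : (p : K) = 0) {x : K}
    (h0 : x ≠ 0) (h : IsIntegral ℤ x) : ∃ n, 0 < n ∧ x ^ n = 1 := by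
  have : CharP K p := (CharP.charP_iff_prime_eq_zero Fact.out).2 hp
  let _ : Algebra (ZMod p) K := ZMod.algebra K p
  have h2 : IsIntegral (ZMod p) x := h.tower_top
  have : Module.Finite (ZMod p) (Algebra.adjoin (ZMod p) {x}) :=
    Algebra.finite_adjoin_simple_of_isIntegral h2
  have : Finite (Algebra.adjoin (ZMod p) {x}) := Module.finite_of_finite (ZMod p)
  obtain ⟨i, j, hij, e⟩ := Finite.exists_ne_map_eq_of_infinite fun n : ℕ =>
    (⟨x ^ n, pow_mem (Algebra.self_mem_adjoin_singleton _ x) n⟩ : Algebra.adjoin (ZMod p) {x})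
  have e' : x ^ i = x ^ j := congrArg Subtype.val e
  have key : ∀ i j : ℕ, i < j → x ^ i = x ^ j → ∃ n, 0 < n ∧ x ^ n = 1 := fun i j h e => by
    refine ⟨j - i, by omega, mul_left_cancel₀ (pow_ne_zero i h0) ?_⟩
    rw [← pow_add, mul_one, e]
    congr 1
    omega
  rcases lt_or_gt_of_ne hij with h | h
  · exact key i j h e'
  · exact key j i h e'.symm

/-- a nonzero element of a field of characteristic `p` lying in all valuation rings has finite
order -/
theorem g3_fin (p : ℕ) [Fact p.Prime] {K : Type} [Field K] (hp : (p : K) = 0) {x : K}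
    (h0 : x ≠ 0) (h : ∀ O : ValuationSubring K, x ∈ O) : ∃ n, 0 < n ∧ x ^ n = 1 := by
  refine g3_fin_int p hp h0 ?_
  have h1 : x ∈ (integralClosure (Subring.closure (∅ : Set K)) K).toSubring := by
    rw [← iInf_valuationSubring_superset]
    exact Subring.mem_iInf.2 fun V => h V.1
  have h2 : IsIntegral (Subring.closure (∅ : Set K)) x := h1
  have : Algebra.IsIntegral ℤ (Subring.closure (∅ : Set K)) := by
    refine Algebra.isIntegral_of_surjective fun z => ?_
    have hz := z.2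
    simp only [Subring.closure_empty, Subring.mem_bot] at hz
    obtain ⟨n, hn⟩ := hz
    exact ⟨n, Subtype.ext (by simpa using hn)⟩
  exact isIntegral_trans x h2

/-- a quotient lying in all valuation rings -/
theorem g3_fin_div (p : ℕ) [Fact p.Prime] {K : Type} [Field K] (hp : (p : K) = 0) {x y : K}
    (hx : x ≠ 0) (hy : y ≠ 0) (h : ∀ O : ValuationSubring K, x / y ∈ O) :
    ∃ n, 0 < n ∧ x ^ n = y ^ n := by
  obtain ⟨n, hn, e⟩ := g3_fin p hp (div_ne_zero hx hy) h
  rw [div_pow, div_eq_one_iff_eq (pow_ne_zero n hy)] at e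
  exact ⟨n, hn, e⟩

theorem g3_pow_dvd {R : Type} [CommRing R] {I : Ideal R} {x y : R} {n N : ℕ}
    (h : x ^ n - y ^ n ∈ I) (hd : n ∣ N) : x ^ N - y ^ N ∈ I := by
  obtain ⟨c, rfl⟩ := hd
  rw [pow_mul, pow_mul]
  exact alg_pow h c

/-- pointwise exponents can be made uniform -/
theorem g3_unif {R : Type} [CommRing R] [IsNoetherianRing R] (I : Ideal R) (x y : R)
    (h : ∀ (K : Type) [Field K] (φ : R →+* K), (∀ z ∈ I, φ z = 0) →
      ∃ n, 0 < n ∧ φ x ^ n = φ y ^ n) : ∃ N, 0 < N ∧ x ^ N - y ^ N ∈ I.radical := by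
  classical
  have h1 : ∀ Q ∈ I.minimalPrimes, ∃ n, 0 < n ∧ x ^ n - y ^ n ∈ Q := fun Q hQ => by
    have := hQ.1.1
    obtain ⟨n, hn, e⟩ := h Q.ResidueField (algebraMap R Q.ResidueField) fun z hz =>
      Ideal.algebraMap_residueField_eq_zero.2 (hQ.1.2 hz)
    refine ⟨n, hn, Ideal.algebraMap_residueField_eq_zero.1 ?_⟩
    rw [map_sub, map_pow, map_pow, e, sub_self]
  choose! n hn h2 using h1
  have hf := Ideal.finite_minimalPrimes_of_isNoetherianRing R I
  refine ⟨∏ Q ∈ hf.toFinset, n Q, Finset.prod_pos fun Q hQ => hn Q (hf.mem_toFinset.1 hQ), ?_⟩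
  rw [← Ideal.sInf_minimalPrimes]
  exact Submodule.mem_sInf.2 fun Q hQ =>
    g3_pow_dvd (h2 Q hQ) (Finset.dvd_prod_of_mem n (hf.mem_toFinset.2 hQ))

/-- functions on finitely many closed subschemes whose ratios have pointwise finite order glue
after a power -/
theorem g3_glue (p : ℕ) [Fact p.Prime] {R ι : Type} [CommRing R] [IsNoetherianRing R] [Finite ι]
    (hp : (p : R) = 0) (P : ι → Ideal R) (θ : ι → R)
    (h : ∀ (i j : ι) (K : Type) [Field K] (φ : R →+* K), (∀ z ∈ P i, φ z = 0) →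
      (∀ z ∈ P j, φ z = 0) → ∃ n, 0 < n ∧ φ (θ i) ^ n = φ (θ j) ^ n) :
    ∃ N, 0 < N ∧ ∃ X : R, ∀ i, X - θ i ^ N ∈ P i := by
  classical
  have := Fintype.ofFinite ι
  have h1 : ∀ t : ι × ι, ∃ N, 0 < N ∧ θ t.1 ^ N - θ t.2 ^ N ∈ P t.1 ⊔ P t.2 := by
    rintro ⟨i, j⟩
    obtain ⟨N, hN, k, hk⟩ := g3_unif (P i ⊔ P j) (θ i) (θ j) fun K _ φ hφ =>
      h i j K φ (fun z hz => hφ z (Ideal.mem_sup_left hz)) fun z hz => hφ z (Ideal.mem_sup_right hz)
    have hq : (p : R) ∈ P i ⊔ P j := hp ▸ zero_mem _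
    have h2 := alg_frob p hq (θ i ^ N) (θ j ^ N) k
    have h3 : (θ i ^ N - θ j ^ N) ^ p ^ k ∈ P i ⊔ P j :=
      Ideal.pow_le_pow_right (I := Ideal.span {θ i ^ N - θ j ^ N})
        (Nat.lt_pow_self (Fact.out : p.Prime).one_lt).le
        (Ideal.pow_mem_pow (Ideal.mem_span_singleton_self _) _) |> fun h4 => by
          rw [Ideal.span_singleton_pow] at h4
          exact (Ideal.span_singleton_le_iff_mem _).2 hk h4
    refine ⟨N * p ^ k, Nat.mul_pos hN (pow_pos (Fact.out : p.Prime).pos k), ?_⟩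
    rw [pow_mul, pow_mul]
    simpa using sub_mem h3 h2
  choose n hn h2 using h1
  obtain ⟨s, hs⟩ := frob_crt p (Finset.univ : Finset ι)
  obtain ⟨X, hX⟩ := hs R P (fun i => θ i ^ ∏ t, n t) (fun j _ => hp ▸ zero_mem _)
    fun i _ j _ => g3_pow_dvd (h2 (i, j)) (Finset.dvd_prod_of_mem n (Finset.mem_univ _))
  refine ⟨(∏ t, n t) * p ^ s, Nat.mul_pos (Finset.prod_pos fun t _ => hn t)
    (pow_pos (Fact.out : p.Prime).pos s), X, fun i => ?_⟩
  rw [pow_mul]
  exact hX i (Finset.mem_univ i)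

variable {B C : Type} [CommRing B] [CommRing C] [Algebra B C]

/-- the pair of points `a, b` lies on the closed subscheme given by `P` -/
def G3On {K : Type} [CommRing K] [Algebra B K] (P : Ideal (C ⊗[B] C)) (a b : C →ₐ[B] K) : Prop :=
  ∀ z ∈ P, g4_ev a b z = 0

theorem g3_ev_self (X : C ⊗[B] C) :
    g4_ev (Algebra.TensorProduct.includeLeft (R := B) (S := B))
      (Algebra.TensorProduct.includeRight (R := B)) X = X := by
  induction X with
  | zero => simp
  | tmul x y => simp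
  | add x y hx hy => simp [hx, hy]

/-- a cocycle up to pointwise roots of unity becomes a pointwise cocycle after a power -/
theorem g3_coc [IsNoetherianRing B] [Module.Finite B C] (X : C ⊗[B] C)
    (h : ∀ (K : Type) [Field K] [Algebra B K] (a b c : C →ₐ[B] K), ∃ n, 0 < n ∧
      (g4_ev a b X * g4_ev b c X) ^ n = g4_ev a c X ^ n) :
    ∃ N, 0 < N ∧ ∀ (K : Type) [Field K] [Algebra B K] (a b c : C →ₐ[B] K),
      g4_ev a b (X ^ N) * g4_ev b c (X ^ N) = g4_ev a c (X ^ N) := by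
  have : IsNoetherianRing ((C ⊗[B] C) ⊗[B] C) :=
    IsNoetherianRing.of_finite B _
  obtain ⟨N, hN, k, hk⟩ := g3_unif (⊥ : Ideal ((C ⊗[B] C) ⊗[B] C))
    (g4_ev (g4_a1 B C) (g4_a2 B C) X * g4_ev (g4_a2 B C) (g4_a3 B C) X)
    (g4_ev (g4_a1 B C) (g4_a3 B C) X) fun K _ φ _ => by
      let _ : Algebra B K := (φ.comp (algebraMap B _)).toAlgebra
      let φ' : (C ⊗[B] C) ⊗[B] C →ₐ[B] K := ⟨φ, fun _ => rfl⟩
      show ∃ n, 0 < n ∧ φ' _ ^ n = φ' _ ^ n
      rw [map_mul, g4_comp_ev, g4_comp_ev, g4_comp_ev]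
      exact h K _ _ _
  refine ⟨N, hN, fun K _ _ a b c => ?_⟩
  let φ : (C ⊗[B] C) ⊗[B] C →ₐ[B] K :=
    Algebra.TensorProduct.lift (g4_ev a b) c fun _ _ => Commute.all _ _
  have e1 : φ.comp (g4_a1 B C) = a := AlgHom.ext fun x => by simp [φ, g4_a1]
  have e2 : φ.comp (g4_a2 B C) = b := AlgHom.ext fun x => by simp [φ, g4_a2]
  have e3 : φ.comp (g4_a3 B C) = c := AlgHom.ext fun x => by simp [φ, g4_a3]
  have h1 := congrArg φ (Ideal.mem_bot.1 hk)
  rw [map_pow, map_zero] at h1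
  have h2 := pow_eq_zero_iff (by rintro rfl; simp at h1) |>.1 h1
  rw [map_sub, map_pow, map_pow, map_mul, g4_comp_ev, g4_comp_ev, g4_comp_ev, e1, e2, e3,
    sub_eq_zero] at h2
  rw [map_pow, map_pow, map_pow, ← mul_pow, h2]

/-- local trivialisation of isomorphisms given on the components -/
theorem g3_local [IsNoetherianRing B] [IsLocalRing B] [Module.Finite B C] (p : ℕ) [Fact p.Prime]
    (hp : (p : B) = 0) {ι : Type} [Finite ι] (P : ι → Ideal (C ⊗[B] C)) (θ : ι → C ⊗[B] C)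
    (cov : ∀ (K : Type) [Field K] [Algebra B K] (a b : C →ₐ[B] K), ∃ i, G3On (P i) a b)
    (unit : ∀ (K : Type) [Field K] [Algebra B K] (a b : C →ₐ[B] K) (i : ι), G3On (P i) a b →
      g4_ev a b (θ i) ≠ 0)
    (coc : ∀ (K : Type) [Field K] [Algebra B K] (a b c : C →ₐ[B] K) (i j l : ι),
      G3On (P i) a b → G3On (P j) b c → G3On (P l) a c → ∃ n, 0 < n ∧
        (g4_ev a b (θ i) * g4_ev b c (θ j)) ^ n = g4_ev a c (θ l) ^ n) :
    ∃ N, 0 < N ∧ ∃ t : C, IsUnit t ∧ ∀ (K : Type) [Field K] [Algebra B K] (a b : C →ₐ[B] K)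
      (i : ι), G3On (P i) a b → g4_ev a b (θ i) ^ N * b t = a t := by
  have : IsNoetherianRing (C ⊗[B] C) := IsNoetherianRing.of_finite B _
  obtain ⟨N, hN, X, hX⟩ := g3_glue p (g4_cast_zero (B := B) hp) P θ fun i j K _ φ hi hj => by
    let _ : Algebra B K := (φ.comp (algebraMap B _)).toAlgebra
    let φ' : C ⊗[B] C →ₐ[B] K := ⟨φ, fun _ => rfl⟩
    let a := φ'.comp (Algebra.TensorProduct.includeLeft (R := B) (S := B))
    let b := φ'.comp (Algebra.TensorProduct.includeRight (R := B))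
    have e : ∀ z, g4_ev a b z = φ z := fun z => by
      rw [← g4_comp_ev, g3_ev_self]; rfl
    obtain ⟨l, hl⟩ := cov K b b
    obtain ⟨n, hn, h1⟩ := coc K a b b i l i (fun z hz => (e z).trans (hi z hz)) hl
      fun z hz => (e z).trans (hi z hz)
    obtain ⟨m, hm, h2⟩ := coc K a b b i l j (fun z hz => (e z).trans (hi z hz)) hl
      fun z hz => (e z).trans (hj z hz)
    rw [e] at h1
    rw [e, e (θ j)] at h2
    refine ⟨n * m, Nat.mul_pos hn hm, ?_⟩
    rw [pow_mul, ← h1, ← pow_mul, mul_comm n, pow_mul, h2, ← pow_mul]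
  have ev : ∀ (K : Type) [Field K] [Algebra B K] (a b : C →ₐ[B] K) (i : ι), G3On (P i) a b →
      g4_ev a b X = g4_ev a b (θ i) ^ N := fun K _ _ a b i hi => by
    have := hi _ (hX i)
    rwa [map_sub, map_pow, sub_eq_zero] at this
  obtain ⟨M, hM, hc⟩ := g3_coc X fun K _ _ a b c => by
    obtain ⟨i, hi⟩ := cov K a b
    obtain ⟨j, hj⟩ := cov K b c
    obtain ⟨l, hl⟩ := cov K a c
    obtain ⟨n, hn, e⟩ := coc K a b c i j l hi hj hl
    refine ⟨n, hn, ?_⟩
    rw [ev K a b i hi, ev K b c j hj, ev K a c l hl, ← mul_pow, ← pow_mul, mul_comm N, pow_mul, e,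
      ← pow_mul, ← pow_mul, mul_comm]
  obtain ⟨k, t, ht, e⟩ := g4 p
    (by rw [← map_natCast (algebraMap B C), hp, map_zero]) (X ^ M) hc fun K _ _ a => by
    obtain ⟨i, hi⟩ := cov K a a
    rw [map_pow, ev K a a i hi]
    exact pow_ne_zero _ (pow_ne_zero _ (unit K a a i hi))
  refine ⟨N * M * p ^ k, Nat.mul_pos (Nat.mul_pos hN hM) (pow_pos (Fact.out : p.Prime).pos k), t,
    ht, fun K _ _ a b i hi => ?_⟩
  have := congrArg (g4_ev a b) e
  rw [map_mul, map_pow, map_pow, ev K a b i hi, g4_ev_tmul, g4_ev_tmul, map_one, map_one, one_mul,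
    mul_one] at this
  rw [pow_mul, pow_mul, this]

end Pool.Agent.Lib.MP_62d77c_ag.R
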