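import Pool.Agent.Lib.MP_62d77c_ag.R.G5

set_option autoImplicit false

namespace Pool.Agent.Lib.MP_62d77c_ag.R

open TensorProduct

variable {B C : Type} [CommRing B] [CommRing C] [Algebra B C]

/-- Evaluation of an element of `C ⊗ C` at a pair of points. -/
noncomputable def g4_ev {R : Type} [CommRing R] [Algebra B R] (a b : C →ₐ[B] R) :
    C ⊗[B] C →ₐ[B] R :=
  Algebra.TensorProduct.lift a b fun _ _ => Commute.all _ _

@[simp] theorem g4_ev_tmul {R : Type} [CommRing R] [Algebra B R] (a b : C →ₐ[B] R) (x y : C) :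
    g4_ev a b (x ⊗ₜ y) = a x * b y := by
  simp [g4_ev]

theorem g4_map_smul {R R' : Type} [CommRing R] [Algebra B R] [CommRing R'] [Algebra B R']
    (φ : R →ₐ[B] R') (b : B) (y : R) : φ (b • y) = algebraMap B R' b * φ y := by
  rw [Algebra.smul_def, map_mul, AlgHom.commutes]

theorem g4_comp_ev {R R' : Type} [CommRing R] [Algebra B R] [CommRing R'] [Algebra B R']
    (φ : R →ₐ[B] R') (a b : C →ₐ[B] R) (X : C ⊗[B] C) :
    φ (g4_ev a b X) = g4_ev (φ.comp a) (φ.comp b) X := by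
  induction X with
  | zero => simp
  | tmul x y => simp
  | add x y hx hy => simp [hx, hy]

variable (B C) in
/-- First point of the triple product. -/
noncomputable def g4_a1 : C →ₐ[B] (C ⊗[B] C) ⊗[B] C :=
  (Algebra.TensorProduct.includeLeft (R := B) (S := B)).comp
    (Algebra.TensorProduct.includeLeft (R := B) (S := B))

variable (B C) in
/-- Second point of the triple product. -/
noncomputable def g4_a2 : C →ₐ[B] (C ⊗[B] C) ⊗[B] C :=
  (Algebra.TensorProduct.includeLeft (R := B) (S := B)).comp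
    (Algebra.TensorProduct.includeRight (R := B))

variable (B C) in
/-- Third point of the triple product. -/
noncomputable def g4_a3 : C →ₐ[B] (C ⊗[B] C) ⊗[B] C :=
  Algebra.TensorProduct.includeRight (R := B)

theorem g4_a1_apply (x : C) : g4_a1 B C x = (x ⊗ₜ[B] (1 : C)) ⊗ₜ[B] (1 : C) := rfl
theorem g4_a2_apply (x : C) : g4_a2 B C x = ((1 : C) ⊗ₜ[B] x) ⊗ₜ[B] (1 : C) := rfl
theorem g4_a3_apply (x : C) : g4_a3 B C x = (1 : C ⊗[B] C) ⊗ₜ[B] x := rfl

/-- Exact cocycle condition. -/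
def G4Coc (X : C ⊗[B] C) : Prop :=
  g4_ev (g4_a1 B C) (g4_a2 B C) X * g4_ev (g4_a2 B C) (g4_a3 B C) X = g4_ev (g4_a1 B C) (g4_a3 B C) X

theorem G4Coc.mul {X Y : C ⊗[B] C} (hX : G4Coc X) (hY : G4Coc Y) : G4Coc (X * Y) := by
  unfold G4Coc at *
  rw [map_mul, map_mul, map_mul, ← hX, ← hY]
  ring

theorem G4Coc.pow {X : C ⊗[B] C} (hX : G4Coc X) (n : ℕ) : G4Coc (X ^ n) := by
  unfold G4Coc at *
  rw [map_pow, map_pow, map_pow, ← hX, mul_pow]

theorem g4_coc_bd {t t' : C} (h : t * t' = 1) : G4Coc (t' ⊗ₜ[B] t) := by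
  unfold G4Coc
  rw [g4_ev_tmul, g4_ev_tmul, g4_ev_tmul]
  have h1 : g4_a2 B C t * g4_a2 B C t' = 1 := by rw [← map_mul, h, map_one]
  linear_combination (g4_a1 B C t' * g4_a3 B C t) * h1

theorem g4_ev12 (X : C ⊗[B] C) : g4_ev (g4_a1 B C) (g4_a2 B C) X = X ⊗ₜ[B] (1 : C) := by
  induction X with
  | zero => simp
  | tmul x y => simp [g4_a1_apply, g4_a2_apply]
  | add x y hx hy => rw [map_add, hx, hy, add_tmul]

/-- Contraction of the second factor with a functional. -/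
noncomputable def g4_sl (J : Ideal B) (ρ : C →ₗ[B] B ⧸ J) :
    C ⊗[B] C →ₗ[B] C ⧸ J.map (algebraMap B C) :=
  LinearMap.mul' B _ ∘ₗ
    TensorProduct.map (Ideal.Quotient.mkₐ B (J.map (algebraMap B C))).toLinearMap (g4_red C J ∘ₗ ρ)

theorem g4_sl_tmul (J : Ideal B) (ρ : C →ₗ[B] B ⧸ J) (x y : C) (b : B)
    (hb : ρ y = Ideal.Quotient.mk J b) :
    g4_sl J ρ (x ⊗ₜ y) = Ideal.Quotient.mk _ (b • x) := by
  have h : g4_sl J ρ (x ⊗ₜ y) = Ideal.Quotient.mk _ x * g4_red C J (ρ y) := by simp [g4_sl]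
  rw [h, hb, g4_red_mk, Algebra.smul_def, map_mul, mul_comm]
  rfl

theorem g4_coc_slice (J : Ideal B) (ρ : C →ₗ[B] B ⧸ J) {X : C ⊗[B] C} (hX : G4Coc X) (s : C)
    (hs : g4_sl J ρ X = Ideal.Quotient.mk _ s) :
    X * (1 ⊗ₜ[B] s) - s ⊗ₜ[B] 1 ∈ J.map (algebraMap B (C ⊗[B] C)) := by
  let π := Ideal.Quotient.mkₐ B (J.map (algebraMap B (C ⊗[B] C)))
  let Φ : (C ⊗[B] C) ⊗[B] C →ₗ[B] (C ⊗[B] C) ⧸ J.map (algebraMap B (C ⊗[B] C)) :=
    LinearMap.mul' B _ ∘ₗ TensorProduct.map π.toLinearMap (g4_red (C ⊗[B] C) J ∘ₗ ρ)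
  have hΦ : ∀ (x : C ⊗[B] C) (y : C), Φ (x ⊗ₜ y) = π x * g4_red (C ⊗[B] C) J (ρ y) :=
    fun x y => by simp [Φ]
  have h1 : ∀ W, Φ ((X ⊗ₜ[B] (1 : C)) * W) = π X * Φ W := by
    intro W
    induction W with
    | zero => simp
    | tmul x y => rw [Algebra.TensorProduct.tmul_mul_tmul, hΦ, hΦ, one_mul, map_mul, mul_assoc]
    | add x y hx hy => rw [mul_add, map_add, map_add, hx, hy, mul_add]
  have h2 : ∀ Y : C ⊗[B] C, ∃ r : C, g4_sl J ρ Y = Ideal.Quotient.mk _ r ∧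
      Φ (g4_ev (g4_a2 B C) (g4_a3 B C) Y) = π (1 ⊗ₜ[B] r) ∧ Φ (g4_ev (g4_a1 B C) (g4_a3 B C) Y) = π (r ⊗ₜ[B] 1) := by
    intro Y
    induction Y with
    | zero => exact ⟨0, by simp, by simp, by simp⟩
    | tmul x y =>
      obtain ⟨b, hb⟩ := Ideal.Quotient.mk_surjective (ρ y)
      refine ⟨b • x, g4_sl_tmul J ρ x y b hb.symm, ?_, ?_⟩
      · rw [g4_ev_tmul, g4_a2_apply, g4_a3_apply, Algebra.TensorProduct.tmul_mul_tmul, mul_one, one_mul,
          hΦ, ← hb, g4_red_mk, tmul_smul, g4_map_smul, mul_comm]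
      · rw [g4_ev_tmul, g4_a1_apply, g4_a3_apply, Algebra.TensorProduct.tmul_mul_tmul, mul_one, one_mul,
          hΦ, ← hb, g4_red_mk, ← smul_tmul', g4_map_smul, mul_comm]
    | add x y hx hy =>
      obtain ⟨r, e1, e2, e3⟩ := hx
      obtain ⟨r', e1', e2', e3'⟩ := hy
      refine ⟨r + r', by rw [map_add, e1, e1', map_add], ?_, ?_⟩
      · rw [map_add, map_add, e2, e2', tmul_add, map_add]
      · rw [map_add, map_add, e3, e3', add_tmul, map_add]
  obtain ⟨r, e1, e2, e3⟩ := h2 X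
  have h3 : r - s ∈ J.map (algebraMap B C) := Ideal.Quotient.eq.1 (e1.symm.trans hs)
  have h4 : π (1 ⊗ₜ[B] r) = π (1 ⊗ₜ[B] s) := by
    rw [← sub_eq_zero, ← map_sub, ← tmul_sub]
    exact g4_lin_zero J (π.toLinearMap ∘ₗ TensorProduct.mk B C C 1) h3
  have h5 : π (r ⊗ₜ[B] 1) = π (s ⊗ₜ[B] 1) := by
    rw [← sub_eq_zero, ← map_sub, ← sub_tmul]
    exact g4_lin_zero J (π.toLinearMap ∘ₗ (TensorProduct.mk B C C).flip 1) h3
  have h6 := congrArg Φ hX
  rw [g4_ev12, h1, e2, e3, h4, h5, ← map_mul] at h6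
  exact Ideal.Quotient.eq.1 h6

theorem g4_four_step (p : ℕ) [Fact p.Prime] (hp : (p : C) = 0) (J : Ideal B)
    (ρ : C →ₗ[B] B ⧸ J) (f : B) (hf : ρ 1 = Ideal.Quotient.mk J f) {X : C ⊗[B] C} (hX : G4Coc X)
    (hm : X - 1 ∈ (J ⊔ Ideal.span {f}).map (algebraMap B (C ⊗[B] C))) :
    ∃ s : C, X ^ p ^ 2 * (1 ⊗ₜ[B] ((1 + f • s) ^ p)) - ((1 + f • s) ^ p) ⊗ₜ[B] 1 ∈
      J.map (algebraMap B (C ⊗[B] C)) := by
  have hpT : (p : C ⊗[B] C) = 0 := g4_cast_t hp
  obtain ⟨j, hj, ψ, hψ⟩ := g4_split_sq p hpT J f hm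
  have h0 := g4_frob_sub p hpT X 1 1
  rw [pow_one, one_pow, hψ] at h0
  have hXp : X ^ p = 1 + j + (f * f) • ψ := by linear_combination -h0
  obtain ⟨s, hs⟩ := Ideal.Quotient.mk_surjective (g4_sl J ρ ψ)
  have h1 : g4_sl J ρ (X ^ p) = Ideal.Quotient.mk _ (f • (1 + f • s)) := by
    rw [hXp, map_add, map_add, g4_lin_zero J _ hj, add_zero, map_smul, ← hs,
      Algebra.TensorProduct.one_def, g4_sl_tmul J ρ 1 1 f hf, smul_add, map_add, smul_smul]
    rfl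
  have h2 := g4_coc_slice J ρ (hX.pow p) _ h1
  refine ⟨s, ?_⟩
  let π := Ideal.Quotient.mkₐ B (J.map (algebraMap B (C ⊗[B] C)))
  set F := algebraMap B ((C ⊗[B] C) ⧸ J.map (algebraMap B (C ⊗[B] C))) f with hF
  have h3 : π (X ^ p * (1 ⊗ₜ[B] (f • (1 + f • s))) - (f • (1 + f • s)) ⊗ₜ[B] 1) = 0 :=
    Ideal.Quotient.eq_zero_iff_mem.2 h2
  rw [tmul_smul, ← smul_tmul', mul_smul_comm, ← smul_sub, g4_map_smul, map_sub] at h3
  have h4 : π (X ^ p) = 1 + F * F * π ψ := by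
    have : π j = 0 := Ideal.Quotient.eq_zero_iff_mem.2 hj
    rw [hXp, map_add, map_add, this, add_zero, map_one, g4_map_smul, map_mul]
  have h5 : π (1 ⊗ₜ[B] (1 + f • s)) = 1 + F * π (1 ⊗ₜ[B] s) := by
    rw [tmul_add, tmul_smul, map_add, g4_map_smul,
      ← Algebra.TensorProduct.one_def, map_one]
  have h6 : π ((1 + f • s) ⊗ₜ[B] 1) = 1 + F * π (s ⊗ₜ[B] 1) := by
    rw [add_tmul, ← smul_tmul', map_add, g4_map_smul,
      ← Algebra.TensorProduct.one_def, map_one]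
  have h7 : (π (X ^ p * (1 ⊗ₜ[B] (1 + f • s))) - π ((1 + f • s) ⊗ₜ[B] 1)) ^ 2 = 0 := by
    have e1 : π (X ^ p * (1 ⊗ₜ[B] (1 + f • s))) - π ((1 + f • s) ⊗ₜ[B] 1) =
        F * (π (1 ⊗ₜ[B] s) + F * π ψ * (1 + F * π (1 ⊗ₜ[B] s)) - π (s ⊗ₜ[B] 1)) := by
      rw [map_mul, h4, h5, h6]
      ring
    rw [pow_two]
    conv_lhs => rhs; rw [e1]
    rw [← mul_assoc, mul_comm _ F, h3, zero_mul]
  have h8 := g4_frob_of_sq p (g4_cast (Ideal.Quotient.mk _) hpT) h7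
  rw [← map_pow, ← map_pow, mul_pow, Algebra.TensorProduct.tmul_pow,
    Algebra.TensorProduct.tmul_pow, one_pow, ← pow_mul, ← pow_two] at h8
  exact Ideal.Quotient.eq.1 h8

theorem g4_map_max_le [IsLocalRing B] [Module.Finite B C] (M : Ideal C) [M.IsMaximal] :
    M.comap (algebraMap B C) = IsLocalRing.maximalIdeal B :=
  IsLocalRing.eq_maximalIdeal (Ideal.isMaximal_comap_of_isIntegral_of_isMaximal M)

theorem g4_unit_one_add [IsLocalRing B] [Module.Finite B C] {f : B}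
    (hf : f ∈ IsLocalRing.maximalIdeal B) (s : C) : IsUnit (1 + f • s) := by
  by_contra h
  obtain ⟨M, hM, hle⟩ := Ideal.exists_le_maximal (Ideal.span {1 + f • s})
    (fun h' => h (Ideal.span_singleton_eq_top.1 h'))
  have h1 : algebraMap B C f ∈ M := by
    rw [← g4_map_max_le M] at hf
    exact hf
  have h2 : 1 + f • s ∈ M := hle (Ideal.mem_span_singleton_self _)
  rw [Algebra.smul_def] at h2
  exact hM.ne_top ((Ideal.eq_top_iff_one M).2
    ((Ideal.add_mem_iff_left M (M.mul_mem_right s h1)).1 h2))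

theorem g4_four_base [IsLocalRing B] [Module.Finite B C] [Nontrivial C] {X : C ⊗[B] C}
    (hX : G4Coc X)
    (hu : ∀ (K : Type) [Field K] [Algebra B K] (a : C →ₐ[B] K), g4_ev a a X ≠ 0) :
    ∃ s : C, IsUnit s ∧ X * (1 ⊗ₜ[B] s) - s ⊗ₜ[B] 1 ∈
      (IsLocalRing.maximalIdeal B).map (algebraMap B (C ⊗[B] C)) := by
  classical
  obtain ⟨M, hM⟩ := Ideal.exists_maximal C
  set m := IsLocalRing.maximalIdeal B with hm
  have hMm : M.LiesOver m := ⟨(g4_map_max_le M).symm⟩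
  have hle : m.map (algebraMap B C) ≤ M := Ideal.map_le_iff_le_comap.2 (g4_map_max_le M).ge
  let _ : Field (B ⧸ m) := Ideal.Quotient.field m
  let _ : Field (C ⧸ M) := Ideal.Quotient.field M
  have : Module.Finite (B ⧸ m) (C ⧸ M) := Module.Finite.of_restrictScalars_finite B _ _
  let e := Module.finBasis (B ⧸ m) (C ⧸ M)
  let a := Ideal.Quotient.mkₐ B M
  let ρ := fun i => ((e.coord i).restrictScalars B) ∘ₗ a.toLinearMap
  let ω := Ideal.Quotient.factor hle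
  have h1 : ∀ Y : C ⊗[B] C, g4_ev a a Y = ∑ i, ω (g4_sl m (ρ i) Y) * e i := by
    intro Y
    induction Y with
    | zero => simp
    | tmul x y =>
      rw [g4_ev_tmul]
      conv_lhs => rw [← e.sum_repr (a y), Finset.mul_sum]
      refine Finset.sum_congr rfl fun i _ => ?_
      obtain ⟨b, hb⟩ := Ideal.Quotient.mk_surjective (ρ i y)
      have hb' : e.repr (a y) i = algebraMap B (B ⧸ m) b := hb.symm
      have h3 : ω (Ideal.Quotient.mk _ (b • x)) = a (b • x) := rfl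
      rw [g4_sl_tmul m (ρ i) x y b hb.symm, hb', algebraMap_smul, h3, map_smul, mul_smul_comm,
        smul_mul_assoc]
    | add x y hx hy => simp only [map_add, hx, hy, add_mul, Finset.sum_add_distrib]
  have h2 : ∃ i, ω (g4_sl m (ρ i) X) ≠ 0 := by
    by_contra h
    push Not at h
    exact hu (C ⧸ M) a (by rw [h1]; simp [h])
  obtain ⟨i, hi⟩ := h2
  obtain ⟨s, hs⟩ := Ideal.Quotient.mk_surjective (g4_sl m (ρ i) X)
  have h3 := g4_coc_slice m (ρ i) hX s hs.symm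
  refine ⟨s, ?_, h3⟩
  by_contra h
  obtain ⟨M', hM', hle'⟩ := Ideal.exists_le_maximal (Ideal.span {s})
    (fun h' => h (Ideal.span_singleton_eq_top.1 h'))
  have hs' : s ∈ M' := hle' (Ideal.mem_span_singleton_self _)
  obtain ⟨ρ0, hρ0⟩ := g4_exists_rho_prime (C := C ⧸ M') m fun x hx => by
    have hx' : algebraMap B C x ∈ M' := Ideal.Quotient.eq_zero_iff_mem.1 hx
    rw [hm, ← g4_map_max_le M']
    exact hx'
  let ρ' : C →ₗ[B] B ⧸ m := ρ0 ∘ₗ (Ideal.Quotient.mkₐ B M').toLinearMap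
  have h4 : ∀ Y : C ⊗[B] C, g4_sl m ρ' (Y * (1 ⊗ₜ[B] s)) = 0 := by
    intro Y
    induction Y with
    | zero => simp
    | tmul x y =>
      have h5 : ρ' (y * s) = Ideal.Quotient.mk m 0 := by
        have : Ideal.Quotient.mk M' (y * s) = 0 :=
          Ideal.Quotient.eq_zero_iff_mem.2 (M'.mul_mem_left y hs')
        show ρ0 (Ideal.Quotient.mk M' (y * s)) = _
        rw [this, map_zero, map_zero]
      rw [Algebra.TensorProduct.tmul_mul_tmul, g4_sl_tmul m ρ' _ _ 0 h5, zero_smul, map_zero]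
    | add x y hx hy => rw [add_mul, map_add, hx, hy, add_zero]
  obtain ⟨b, hb⟩ := Ideal.Quotient.mk_surjective (ρ' 1)
  have h6 := g4_lin_zero m (g4_sl m ρ') h3
  rw [map_sub, h4, zero_sub, neg_eq_zero, g4_sl_tmul m ρ' s 1 b hb.symm] at h6
  have h7 : b • s ∈ M := hle (Ideal.Quotient.eq_zero_iff_mem.1 h6)
  rw [Algebra.smul_def] at h7
  rcases hM.isPrime.mem_or_mem h7 with h8 | h8
  · have h9 : b ∈ m := by
      rw [hm, ← g4_map_max_le M]
      exact h8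
    exact hρ0 (hb.symm.trans (Ideal.Quotient.eq_zero_iff_mem.2 h9))
  · exact hi (by rw [← hs]; exact Ideal.Quotient.eq_zero_iff_mem.2 h8)

/-- G4, exact form. -/
theorem g4_four_exact [IsNoetherianRing B] [IsLocalRing B] [Module.Finite B C] (p : ℕ)
    [Fact p.Prime] (hp : (p : C) = 0) {X : C ⊗[B] C} (hX : G4Coc X)
    (hu : ∀ (K : Type) [Field K] [Algebra B K] (a : C →ₐ[B] K), g4_ev a a X ≠ 0) :
    ∃ (k : ℕ) (t : C), IsUnit t ∧ X ^ p ^ k * (1 ⊗ₜ[B] t) = t ⊗ₜ[B] 1 := by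
  rcases subsingleton_or_nontrivial C with hC | hC
  · exact ⟨0, 1, isUnit_one, Subsingleton.elim _ _⟩
  have key : ∀ J : Ideal B, RingHom.ker (algebraMap B C) ≤ J → J ≠ ⊤ →
      ∃ (k : ℕ) (t : C), IsUnit t ∧
        X ^ p ^ k * (1 ⊗ₜ[B] t) - t ⊗ₜ[B] 1 ∈ J.map (algebraMap B (C ⊗[B] C)) := by
    intro J
    induction J using IsNoetherian.induction with
    | hgt J ih =>
      intro hk hJ
      by_cases hm : J = IsLocalRing.maximalIdeal B
      · obtain ⟨s, hs, h⟩ := g4_four_base hX hu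
        exact ⟨0, s, hs, by rwa [pow_zero, pow_one, hm]⟩
      have h1 : ∃ (ρ : C →ₗ[B] B ⧸ J) (f : B), ρ 1 = Ideal.Quotient.mk J f ∧ f ∉ J ∧
          f ∈ IsLocalRing.maximalIdeal B := by
        obtain ⟨ρ, hρ⟩ := g4_exists_rho J hJ hk
        obtain ⟨f, hf⟩ := Ideal.Quotient.mk_surjective (ρ 1)
        have hfJ : f ∉ J := fun h => hρ (by rw [← hf]; exact Ideal.Quotient.eq_zero_iff_mem.2 h)
        by_cases hfm : f ∈ IsLocalRing.maximalIdeal B
        · exact ⟨ρ, f, hf.symm, hfJ, hfm⟩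
        obtain ⟨g, hg, hgJ⟩ := SetLike.exists_of_lt
          (lt_of_le_of_ne (IsLocalRing.le_maximalIdeal hJ) hm)
        refine ⟨g • ρ, g * f, ?_, fun h => hgJ ?_, Ideal.mul_mem_right _ _ hg⟩
        · rw [LinearMap.smul_apply, ← hf, map_mul, Algebra.smul_def]
          rfl
        · exact (Ideal.mul_unit_mem_iff_mem J (IsLocalRing.notMem_maximalIdeal.1 hfm)).1 h
      obtain ⟨ρ, f, hf, hfJ, hfm⟩ := h1
      have hlt : J ⊔ Ideal.span {f} > J := lt_of_le_of_ne le_sup_left fun h =>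
        hfJ (h ▸ Ideal.mem_sup_right (Ideal.mem_span_singleton_self f))
      have hne : J ⊔ Ideal.span {f} ≠ ⊤ := ne_top_of_le_ne_top
        (IsLocalRing.maximalIdeal.isMaximal B).ne_top
        (sup_le (IsLocalRing.le_maximalIdeal hJ) ((Ideal.span_singleton_le_iff_mem _).2 hfm))
      obtain ⟨k, t, ht, hb⟩ := ih _ hlt (hk.trans le_sup_left) hne
      obtain ⟨t', ht'⟩ := ht.exists_right_inv
      have h2 : X ^ p ^ k * (t' ⊗ₜ[B] t) - 1 ∈
          Ideal.map (algebraMap B (C ⊗[B] C)) (J ⊔ Ideal.span {f}) := by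
        have h3 := Ideal.mul_mem_right (t' ⊗ₜ[B] (1 : C)) _ hb
        rwa [sub_mul, mul_assoc, Algebra.TensorProduct.tmul_mul_tmul,
          Algebra.TensorProduct.tmul_mul_tmul, one_mul, mul_one, mul_one, ht',
          ← Algebra.TensorProduct.one_def] at h3
      obtain ⟨s, hs⟩ := g4_four_step p hp J ρ f hf ((hX.pow _).mul (g4_coc_bd ht')) h2
      refine ⟨k + 2, t ^ p ^ 2 * (1 + f • s) ^ p, (ht.pow _).mul ((g4_unit_one_add hfm s).pow _), ?_⟩
      have h4 := Ideal.mul_mem_left _ ((t ^ p ^ 2) ⊗ₜ[B] (1 : C)) hs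
      have h5 : t ^ p ^ 2 * t' ^ p ^ 2 = 1 := by rw [← mul_pow, ht', one_pow]
      rwa [mul_sub, mul_pow, ← pow_mul, ← pow_add, Algebra.TensorProduct.tmul_pow, mul_assoc,
        mul_left_comm, Algebra.TensorProduct.tmul_mul_tmul, Algebra.TensorProduct.tmul_mul_tmul,
        Algebra.TensorProduct.tmul_mul_tmul, mul_one, mul_one, one_mul, h5] at h4
  obtain ⟨k, t, ht, hb⟩ := key _ le_rfl (RingHom.ker_ne_top _)
  refine ⟨k, t, ht, sub_eq_zero.1 ?_⟩
  have : (RingHom.ker (algebraMap B C)).map (algebraMap B (C ⊗[B] C)) = ⊥ :=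
    (Ideal.map_eq_bot_iff_le_ker _).2 fun x hx => by
      rw [RingHom.mem_ker, Algebra.TensorProduct.algebraMap_apply, RingHom.mem_ker.1 hx, zero_tmul]
  rwa [this, Ideal.mem_bot] at hb

theorem g4_coc_of_fields (p : ℕ) [Fact p.Prime] (hp : (p : C) = 0) {X : C ⊗[B] C}
    (hX : ∀ (K : Type) [Field K] [Algebra B K] (a b c : C →ₐ[B] K),
      g4_ev a b X * g4_ev b c X = g4_ev a c X) : ∃ k : ℕ, G4Coc (X ^ p ^ k) := by
  have h1 : IsNilpotent (g4_ev (g4_a1 B C) (g4_a2 B C) X * g4_ev (g4_a2 B C) (g4_a3 B C) X -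
      g4_ev (g4_a1 B C) (g4_a3 B C) X) := by
    refine g4_nil_of_fields fun K _ φ => ?_
    let _ : Algebra B K := (φ.comp (algebraMap B _)).toAlgebra
    let φ' : (C ⊗[B] C) ⊗[B] C →ₐ[B] K := ⟨φ, fun _ => rfl⟩
    show φ' _ = φ' _
    rw [map_mul, g4_comp_ev, g4_comp_ev, g4_comp_ev]
    exact hX K _ _ _
  obtain ⟨k, hk⟩ := g4_frob_of_nil p (g4_cast_t (g4_cast_t hp)) h1
  refine ⟨k, ?_⟩
  unfold G4Coc
  rw [map_pow, map_pow, map_pow, ← mul_pow, hk]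

/-- G4: over a local ring of characteristic `p` a pointwise cocycle is, after a `p`-power,
the coboundary of a unit. -/
theorem g4 [IsNoetherianRing B] [IsLocalRing B] [Module.Finite B C] (p : ℕ)
    [Fact p.Prime] (hp : (p : C) = 0) (X : C ⊗[B] C)
    (hX : ∀ (K : Type) [Field K] [Algebra B K] (a b c : C →ₐ[B] K),
      g4_ev a b X * g4_ev b c X = g4_ev a c X)
    (hu : ∀ (K : Type) [Field K] [Algebra B K] (a : C →ₐ[B] K), g4_ev a a X ≠ 0) :
    ∃ (k : ℕ) (t : C), IsUnit t ∧ X ^ p ^ k * (1 ⊗ₜ[B] t) = t ⊗ₜ[B] 1 := by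
  obtain ⟨k, hk⟩ := g4_coc_of_fields p hp hX
  obtain ⟨l, t, ht, h⟩ := g4_four_exact p hp hk fun K _ _ a => by
    rw [map_pow]
    exact pow_ne_zero _ (hu K a)
  exact ⟨k + l, t, ht, by rw [pow_add, pow_mul, h]⟩

end Pool.Agent.Lib.MP_62d77c_ag.R
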