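import Mathlib

set_option autoImplicit false

namespace Pool.Agent.Lib.MP_62d77c_ag.R

open TensorProduct

theorem g4_frob_add {R : Type} [CommRing R] (p : ℕ) [Fact p.Prime] (hp : (p : R) = 0) (x y : R)
    (k : ℕ) : (x + y) ^ p ^ k = x ^ p ^ k + y ^ p ^ k := by
  rcases subsingleton_or_nontrivial R with h | h
  · exact Subsingleton.elim _ _
  · have : CharP R p := (CharP.charP_iff_prime_eq_zero Fact.out).2 hp
    exact add_pow_char_pow x y p k

theorem g4_frob_sub {R : Type} [CommRing R] (p : ℕ) [Fact p.Prime] (hp : (p : R) = 0) (x y : R)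
    (k : ℕ) : (x - y) ^ p ^ k = x ^ p ^ k - y ^ p ^ k := by
  have h := g4_frob_add p hp (x - y) y k
  rw [sub_add_cancel] at h
  rw [h, add_sub_cancel_right]

theorem g4_frob_of_nil {R : Type} [CommRing R] (p : ℕ) [Fact p.Prime] (hp : (p : R) = 0) {x y : R}
    (h : IsNilpotent (x - y)) : ∃ k : ℕ, x ^ p ^ k = y ^ p ^ k := by
  obtain ⟨n, hn⟩ := h
  refine ⟨n, ?_⟩
  rw [← sub_eq_zero, ← g4_frob_sub p hp]
  exact pow_eq_zero_of_le (Nat.lt_pow_self (Fact.out : p.Prime).one_lt).le hn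

theorem g4_frob_of_sq {R : Type} [CommRing R] (p : ℕ) [Fact p.Prime] (hp : (p : R) = 0) {x y : R}
    (h : (x - y) ^ 2 = 0) : x ^ p = y ^ p := by
  have h1 := g4_frob_sub p hp x y 1
  rw [pow_one] at h1
  rw [← sub_eq_zero, ← h1]
  exact pow_eq_zero_of_le (Fact.out : p.Prime).two_le h

theorem g4_nil_of_fields {R : Type} [CommRing R] {x y : R}
    (h : ∀ (K : Type) [Field K] (φ : R →+* K), φ x = φ y) : IsNilpotent (x - y) := by
  rw [nilpotent_iff_mem_prime]
  intro P hP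
  have h1 := h P.ResidueField (algebraMap R P.ResidueField)
  rw [← sub_eq_zero, ← map_sub] at h1
  exact Ideal.algebraMap_residueField_eq_zero.1 h1

theorem g4_cast_zero {B R : Type} [CommRing B] [CommRing R] [Algebra B R] {p : ℕ}
    (hp : (p : B) = 0) : (p : R) = 0 := by
  rw [← map_natCast (algebraMap B R), hp, map_zero]

theorem g4_cast {R S : Type} [CommRing R] [CommRing S] (f : R →+* S) {p : ℕ}
    (hp : (p : R) = 0) : (p : S) = 0 := by
  rw [← map_natCast f, hp, map_zero]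

variable {B C : Type} [CommRing B] [CommRing C] [Algebra B C]

theorem g4_cast_t {R : Type} [CommRing R] [Algebra B R] {p : ℕ} (hp : (p : C) = 0) :
    (p : C ⊗[B] R) = 0 :=
  g4_cast (Algebra.TensorProduct.includeLeftRingHom (R := B) (A := C) (B := R)) hp

theorem g4_exists_rho_prime [Module.Finite B C] (q : Ideal B) [q.IsPrime]
    (hq : RingHom.ker (algebraMap B C) ≤ q) : ∃ ρ : C →ₗ[B] B ⧸ q, ρ 1 ≠ 0 := by
  obtain ⟨Q, -, hQ, hQq⟩ := Ideal.exists_ideal_over_prime_of_isIntegral (S := C) q ⊥ hq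
  have : Nontrivial (q.ResidueField ⊗[B] C) :=
    (PrimeSpectrum.nontrivial_iff_mem_rangeComap (S := C) ⟨q, inferInstance⟩).2
      ⟨⟨Q, hQ⟩, PrimeSpectrum.ext hQq⟩
  have h1 : ∃ l : Module.Dual q.ResidueField (q.ResidueField ⊗[B] C), l 1 ≠ 0 := by
    by_contra h
    push Not at h
    exact one_ne_zero ((Module.forall_dual_apply_eq_zero_iff q.ResidueField _).1 h)
  obtain ⟨l, hl⟩ := h1
  let g : C →ₗ[B] q.ResidueField :=
    (l.restrictScalars B) ∘ₗ (TensorProduct.mk B q.ResidueField C 1)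
  have hg : g 1 ≠ 0 := hl
  obtain ⟨s, hs⟩ := Module.Finite.fg_top (R := B) (M := C)
  obtain ⟨b, hb⟩ := IsLocalization.exist_integer_multiples_of_finite
    (nonZeroDivisors (B ⧸ q)) (fun i : s => g i)
  obtain ⟨b0, hb0⟩ := Ideal.Quotient.mk_surjective (b : B ⧸ q)
  let ι : (B ⧸ q) →ₗ[B] q.ResidueField :=
    (IsScalarTower.toAlgHom B (B ⧸ q) q.ResidueField).toLinearMap
  have hι : Function.Injective ι := IsFractionRing.injective (B ⧸ q) q.ResidueField
  have hsm : ∀ z : q.ResidueField, b0 • z = (b : B ⧸ q) • z := fun z => by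
    rw [← hb0]
    exact (algebraMap_smul (B ⧸ q) b0 z).symm
  have hr : ∀ c : C, (b0 • g) c ∈ LinearMap.range ι := by
    have : (⊤ : Submodule B C) ≤ (LinearMap.range ι).comap (b0 • g) := by
      rw [← hs, Submodule.span_le]
      intro c hc
      obtain ⟨z, hz⟩ := hb ⟨c, hc⟩
      refine ⟨z, ?_⟩
      rw [LinearMap.smul_apply, hsm]
      exact hz
    exact fun c => this Submodule.mem_top
  refine ⟨(LinearEquiv.ofInjective ι hι).symm.toLinearMap ∘ₗ (b0 • g).codRestrict _ hr, ?_⟩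
  intro h0
  have h2 : (b0 • g).codRestrict _ hr 1 = 0 :=
    (LinearEquiv.ofInjective ι hι).symm.injective (by rw [map_zero]; exact h0)
  have h3 : (b0 • g) 1 = 0 := congrArg Subtype.val h2
  rw [LinearMap.smul_apply, hsm, Algebra.smul_def, mul_eq_zero] at h3
  rcases h3 with h3 | h3
  · exact nonZeroDivisors.ne_zero b.2
      (IsFractionRing.injective (B ⧸ q) q.ResidueField (by rw [h3, map_zero]))
  · exact hg h3

theorem g4_exists_rho [IsNoetherianRing B] [Module.Finite B C] (J : Ideal B) (hJ : J ≠ ⊤)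
    (hk : RingHom.ker (algebraMap B C) ≤ J) : ∃ ρ : C →ₗ[B] B ⧸ J, ρ 1 ≠ 0 := by
  have : Nontrivial (B ⧸ J) := Ideal.Quotient.nontrivial_iff.2 hJ
  obtain ⟨q, hq⟩ := associatedPrimes.nonempty B (B ⧸ J)
  obtain ⟨hq1, f, hf⟩ := (isAssociatedPrime_iff_exists_injective_linearMap q (B ⧸ J)).1 hq
  have hJq : J ≤ q := by
    intro x hx
    rw [← Ideal.Quotient.eq_zero_iff_mem]
    apply hf
    have h1 : Ideal.Quotient.mk q x = x • (1 : B ⧸ q) := by
      rw [Algebra.smul_def, mul_one]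
      rfl
    rw [h1, map_smul, map_zero, Algebra.smul_def]
    have h2 : algebraMap B (B ⧸ J) x = 0 := Ideal.Quotient.eq_zero_iff_mem.2 hx
    rw [h2, zero_mul]
  obtain ⟨ρ, hρ⟩ := g4_exists_rho_prime (C := C) q (hk.trans hJq)
  exact ⟨f ∘ₗ ρ, fun h => hρ (hf (by rw [map_zero]; exact h))⟩

end Pool.Agent.Lib.MP_62d77c_ag.R
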