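import Pool.Agent.Lib.MP_62d77c_ag.R.G4a

set_option autoImplicit false

namespace Pool.Agent.Lib.MP_62d77c_ag.R

open TensorProduct

variable {B C : Type} [CommRing B] [CommRing C] [Algebra B C]

/-- The reduction `B / J → R / J R` as a linear map. -/
noncomputable def g4_red (R : Type) [CommRing R] [Algebra B R] (J : Ideal B) :
    (B ⧸ J) →ₗ[B] R ⧸ J.map (algebraMap B R) :=
  (Ideal.quotientMapₐ (J.map (algebraMap B R)) (Algebra.ofId B R)
    (Ideal.le_comap_map (f := algebraMap B R))).toLinearMap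

theorem g4_red_mk (R : Type) [CommRing R] [Algebra B R] (J : Ideal B) (b : B) :
    g4_red R J (Ideal.Quotient.mk J b) = algebraMap B (R ⧸ J.map (algebraMap B R)) b := rfl

theorem g4_alg_zero (R : Type) [CommRing R] [Algebra B R] (J : Ideal B) {b : B} (hb : b ∈ J) :
    algebraMap B (R ⧸ J.map (algebraMap B R)) b = 0 :=
  Ideal.Quotient.eq_zero_iff_mem.2 (Ideal.mem_map_of_mem _ hb)

theorem g4_lin_zero {R R' : Type} [CommRing R] [Algebra B R] [CommRing R'] [Algebra B R']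
    (J : Ideal B) (σ : R →ₗ[B] R' ⧸ J.map (algebraMap B R')) {x : R}
    (hx : x ∈ J.map (algebraMap B R)) : σ x = 0 := by
  have h1 : x ∈ (J • ⊤ : Submodule B R) := by
    rw [Ideal.smul_top_eq_map]
    exact hx
  refine Submodule.smul_induction_on h1 (fun r hr n _ => ?_) fun a b ha hb => ?_
  · rw [map_smul, Algebra.smul_def, g4_alg_zero R' J hr, zero_mul]
  · rw [map_add, ha, hb, add_zero]

theorem g4_split_sq {R : Type} [CommRing R] [Algebra B R] (p : ℕ) [Fact p.Prime]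
    (hp : (p : R) = 0) (J : Ideal B) (f : B) {x : R}
    (hx : x ∈ (J ⊔ Ideal.span {f}).map (algebraMap B R)) :
    ∃ j ∈ J.map (algebraMap B R), ∃ ψ : R, x ^ p = j + (f * f) • ψ := by
  rw [Ideal.map_sup, Ideal.map_span, Set.image_singleton] at hx
  obtain ⟨j, hj, y, hy, rfl⟩ := Submodule.mem_sup.1 hx
  obtain ⟨z, rfl⟩ := Ideal.mem_span_singleton'.1 hy
  obtain ⟨n, hn⟩ := Nat.exists_eq_add_of_le (Fact.out : p.Prime).two_le
  refine ⟨j ^ p, Ideal.pow_mem_of_mem _ hj _ (Fact.out : p.Prime).pos,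
    z ^ p * algebraMap B R f ^ n, ?_⟩
  have h := g4_frob_add p hp j (z * algebraMap B R f) 1
  rw [pow_one] at h
  have h2 : algebraMap B R f ^ p = algebraMap B R f ^ (2 + n) := by rw [← hn]
  rw [h, mul_pow, h2, Algebra.smul_def, map_mul]
  ring

theorem g4_five_step (p : ℕ) [Fact p.Prime] (hp : (p : C) = 0) (J : Ideal B)
    (ρ : C →ₗ[B] B ⧸ J) (f : B) (hf : ρ 1 = Ideal.Quotient.mk J f) (ν : C)
    (hν : (ν ⊗ₜ[B] (1 : C) : C ⊗[B] C) = 1 ⊗ₜ[B] ν)
    (hm : ν ∈ (J ⊔ Ideal.span {f}).map (algebraMap B C)) :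
    ∃ b : B, ν ^ p ^ 2 - algebraMap B C b ∈ J.map (algebraMap B C) := by
  obtain ⟨j, hj, ψ, hψ⟩ := g4_split_sq p hp J f hm
  let π := Ideal.Quotient.mkₐ B (J.map (algebraMap B C))
  let σ : C →ₗ[B] C ⧸ J.map (algebraMap B C) := g4_red C J ∘ₗ ρ
  let Φ : C ⊗[B] C →ₗ[B] C ⧸ J.map (algebraMap B C) :=
    LinearMap.mul' B _ ∘ₗ TensorProduct.map σ π.toLinearMap
  have hΦ : ∀ x y : C, Φ (x ⊗ₜ y) = σ x * π y := fun x y => by simp [Φ]
  have h1 : ((ν ^ p) ⊗ₜ[B] (1 : C) : C ⊗[B] C) = 1 ⊗ₜ[B] (ν ^ p) := by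
    have h := congrArg (· ^ p) hν
    simpa [Algebra.TensorProduct.tmul_pow] using h
  have h2 := congrArg Φ h1
  rw [hΦ, hΦ, map_one, mul_one] at h2
  obtain ⟨b, hb⟩ := Ideal.Quotient.mk_surjective (ρ ψ)
  set F := algebraMap B (C ⧸ J.map (algebraMap B C)) f with hF
  set b' := algebraMap B (C ⧸ J.map (algebraMap B C)) b with hb'
  have h3 : σ 1 = F := by
    show g4_red C J (ρ 1) = _
    rw [hf, g4_red_mk]
  have h4 : σ ψ = b' := by
    show g4_red C J (ρ ψ) = _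
    rw [← hb, g4_red_mk]
  have h5 : σ (ν ^ p) = F * F * b' := by
    rw [hψ, map_add, map_smul, g4_lin_zero J σ hj, zero_add, h4, Algebra.smul_def, map_mul]
  have h6 : π (ν ^ p) = F * F * π ψ := by
    have : π j = 0 := Ideal.Quotient.eq_zero_iff_mem.2 hj
    rw [hψ, map_add, map_smul, this, zero_add, Algebra.smul_def, map_mul]
  rw [h5, h3] at h2
  have h7 : (π (ν ^ p) - F * b') ^ 2 = 0 := by
    have e1 : π (ν ^ p) - F * b' = F * (F * π ψ - b') := by rw [h6]; ring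
    have e2 : F * (π (ν ^ p) - F * b') = 0 := by rw [mul_sub, ← h2]; ring
    calc (π (ν ^ p) - F * b') ^ 2
        = (F * (π (ν ^ p) - F * b')) * (F * π ψ - b') := by
          conv_lhs => rw [pow_two]; rhs; rw [e1]
          ring
      _ = 0 := by rw [e2, zero_mul]
  have h8 := g4_frob_of_sq p (g4_cast (Ideal.Quotient.mk _) hp) h7
  refine ⟨(f * b) ^ p, ?_⟩
  rw [← Ideal.Quotient.eq_zero_iff_mem]
  show π _ = 0
  rw [map_sub, pow_two, pow_mul, map_pow, h8, AlgHom.commutes, map_pow, map_mul, sub_self]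

/-- G5, exact form. -/
theorem g4_five_exact [IsNoetherianRing B] [Module.Finite B C] (p : ℕ) [Fact p.Prime]
    (hp : (p : C) = 0) (τ : C) (hτ : (τ ⊗ₜ[B] (1 : C) : C ⊗[B] C) = 1 ⊗ₜ[B] τ) :
    ∃ (k : ℕ) (b : B), τ ^ p ^ k = algebraMap B C b := by
  have key : ∀ J : Ideal B, RingHom.ker (algebraMap B C) ≤ J →
      ∃ (k : ℕ) (b : B), τ ^ p ^ k - algebraMap B C b ∈ J.map (algebraMap B C) := by
    intro J
    induction J using IsNoetherian.induction with
    | hgt J ih =>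
      intro hk
      by_cases hJ : J = ⊤
      · exact ⟨0, 0, by rw [hJ, Ideal.map_top]; trivial⟩
      obtain ⟨ρ, hρ⟩ := g4_exists_rho J hJ hk
      obtain ⟨f, hf⟩ := Ideal.Quotient.mk_surjective (ρ 1)
      have hfJ : f ∉ J := fun h => hρ (by rw [← hf]; exact Ideal.Quotient.eq_zero_iff_mem.2 h)
      have hlt : J ⊔ Ideal.span {f} > J := lt_of_le_of_ne le_sup_left fun h =>
        hfJ (h ▸ Ideal.mem_sup_right (Ideal.mem_span_singleton_self f))
      obtain ⟨k, b, hb⟩ := ih _ hlt (hk.trans le_sup_left)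
      have h1 : ((τ ^ p ^ k - algebraMap B C b) ⊗ₜ[B] (1 : C) : C ⊗[B] C) =
          1 ⊗ₜ[B] (τ ^ p ^ k - algebraMap B C b) := by
        have h := congrArg (· ^ p ^ k) hτ
        simp only [Algebra.TensorProduct.tmul_pow, one_pow] at h
        rw [sub_tmul, tmul_sub, h, Algebra.algebraMap_eq_smul_one, smul_tmul]
      obtain ⟨b', hb'⟩ := g4_five_step p hp J ρ f hf.symm _ h1 hb
      refine ⟨k + 2, b ^ p ^ 2 + b', ?_⟩
      rw [g4_frob_sub p hp, ← pow_mul, ← pow_add] at hb'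
      rwa [map_add, map_pow, ← sub_sub]
  obtain ⟨k, b, hb⟩ := key _ le_rfl
  refine ⟨k, b, sub_eq_zero.1 ?_⟩
  have : (RingHom.ker (algebraMap B C)).map (algebraMap B C) = ⊥ :=
    (Ideal.map_eq_bot_iff_le_ker _).2 le_rfl
  rwa [this, Ideal.mem_bot] at hb

/-- G5: an element of a finite algebra that is constant on all geometric fibres has a
`p`-power in the base ring. -/
theorem g5 [IsNoetherianRing B] [Module.Finite B C] (p : ℕ) [Fact p.Prime]
    (hp : (p : C) = 0) (τ : C)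
    (hτ : ∀ (K : Type) [Field K] (a b : C →+* K),
      a.comp (algebraMap B C) = b.comp (algebraMap B C) → a τ = b τ) :
    ∃ (k : ℕ) (b : B), τ ^ p ^ k = algebraMap B C b := by
  have h1 : IsNilpotent ((τ ⊗ₜ[B] (1 : C) : C ⊗[B] C) - 1 ⊗ₜ[B] τ) := by
    refine g4_nil_of_fields fun K _ φ => ?_
    refine hτ K (φ.comp (Algebra.TensorProduct.includeLeft (R := B) (S := B)).toRingHom)
      (φ.comp (Algebra.TensorProduct.includeRight (R := B)).toRingHom) ?_
    ext x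
    simp [Algebra.algebraMap_eq_smul_one]
  obtain ⟨k, hk⟩ := g4_frob_of_nil p (g4_cast_t hp) h1
  simp only [Algebra.TensorProduct.tmul_pow, one_pow] at hk
  obtain ⟨l, b, hb⟩ := g4_five_exact p hp _ hk
  exact ⟨k + l, b, by rw [pow_add, pow_mul, hb]⟩

end Pool.Agent.Lib.MP_62d77c_ag.R
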