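import Pool.Agent.Lib.MP_62d77c_ag.R.Base
import Pool.Agent.Lib.MP_62d77c_ag.R.G4

/-! Algebras with a coaction of the multiplicative group, points of the cone. -/

set_option autoImplicit false
set_option linter.unusedSectionVars false

namespace Pool.Agent.Lib.MP_62d77c_ag.R

open Polynomial
open scoped TensorProduct

noncomputable section

section tl
variable {A R R' S : Type} [CommRing A] [CommRing R] [CommRing R'] [CommRing S] [Algebra A R]
  [Algebra A R']

/-- ring homomorphism out of a tensor product -/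
def tl (f : R →+* S) (g : R' →+* S) (h : ∀ a, f (algebraMap A R a) = g (algebraMap A R' a)) :
    R ⊗[A] R' →+* S :=
  letI : Algebra A S := (f.comp (algebraMap A R)).toAlgebra
  (Algebra.TensorProduct.lift (⟨f, fun _ => rfl⟩ : R →ₐ[A] S)
    (⟨g, fun a => (h a).symm⟩ : R' →ₐ[A] S) fun _ _ => Commute.all _ _).toRingHom

theorem tl_tmul (f : R →+* S) (g : R' →+* S)
    (h : ∀ a, f (algebraMap A R a) = g (algebraMap A R' a)) (x : R) (y : R') :
    tl f g h (x ⊗ₜ y) = f x * g y := rfl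

variable (A R R') in
/-- first inclusion -/
def j1 : R →+* R ⊗[A] R' := Algebra.TensorProduct.includeLeftRingHom

variable (A R R') in
/-- second inclusion -/
def j2 : R' →+* R ⊗[A] R' := (Algebra.TensorProduct.includeRight (R := A) (A := R)).toRingHom

theorem j1_apply (x : R) : j1 A R R' x = x ⊗ₜ 1 := rfl
theorem j2_apply (y : R') : j2 A R R' y = 1 ⊗ₜ y := rfl

theorem j1_alg (a : A) : j1 A R R' (algebraMap A R a) = algebraMap A _ a := rfl

theorem j2_alg (a : A) : j2 A R R' (algebraMap A R' a) = algebraMap A _ a :=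
  (Algebra.TensorProduct.includeRight (R := A) (A := R)).commutes a

theorem j1_mul_j2 (x : R) (y : R') : j1 A R R' x * j2 A R R' y = x ⊗ₜ y := by
  rw [j1_apply, j2_apply, Algebra.TensorProduct.tmul_mul_tmul, mul_one, one_mul]

end tl

theorem ga_root {K : Type} [Field K] (p : ℕ) [Fact p.Prime] (hp : (p : K) = 0) {z : K}
    (hz : z ≠ 0) (h : ∀ O : ValuationSubring K, z ∈ O) : ∃ M, 0 < M ∧ z ^ M = 1 := by
  have : CharP K p := (CharP.charP_iff_prime_eq_zero Fact.out).2 hp
  let f : ZMod p →+* K := ZMod.castHom (dvd_refl p) K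
  have h1 : z ∈ (integralClosure (Subring.closure (f.range : Set K)) K).toSubring := by
    rw [← iInf_valuationSubring_superset, Subring.mem_iInf]
    exact fun V => h V.1
  have h2 : IsIntegral (Subring.closure (f.range : Set K)) z := h1
  have h3 : Finite (Subring.closure (f.range : Set K)) := by
    rw [Subring.closure_eq]
    exact Finite.of_surjective f.rangeRestrict f.rangeRestrict_surjective
  have h4 := Module.Finite.iff_fg.2 h2.fg_adjoin_singleton
  have h5 := Module.finite_of_finite (Subring.closure (f.range : Set K))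
    (M := Subalgebra.toSubmodule (Algebra.adjoin (Subring.closure (f.range : Set K)) {z}))
  obtain ⟨k, l, hkl, e⟩ := Finite.exists_ne_map_eq_of_infinite (fun k : ℕ =>
    (⟨z ^ k, pow_mem (Algebra.self_mem_adjoin_singleton _ z) k⟩ :
      Subalgebra.toSubmodule (Algebra.adjoin (Subring.closure (f.range : Set K)) {z})))
  have e' : z ^ k = z ^ l := congrArg Subtype.val e
  have key : ∀ k l : ℕ, k < l → z ^ k = z ^ l → ∃ M, 0 < M ∧ z ^ M = 1 := by
    intro k l hlt e
    obtain ⟨d, rfl⟩ : ∃ d, l = k + (d + 1) := ⟨l - k - 1, by omega⟩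
    rw [pow_add] at e
    exact ⟨d + 1, d.succ_pos, (mul_right_eq_self₀.1 e.symm).resolve_right (pow_ne_zero _ hz)⟩
  rcases lt_or_gt_of_ne hkl with h' | h'
  · exact key k l h' e'
  · exact key l k h' e'.symm

variable {A : Type} [CommRing A] {𝒜 : ℕ → AddSubgroup A} [GradedRing 𝒜]

variable (𝒜) in
/-- a grading given as a coaction -/
structure CoA (R : Type) [CommRing R] [Algebra A R] where
  δ : R →+* R[X]
  alg : ∀ n, ∀ a ∈ 𝒜 n, δ (algebraMap A R a) = monomial n (algebraMap A R a)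
  ind : ∀ P : R → Prop, P 0 → (∀ x y, P x → P y → P (x + y)) →
    (∀ n x, δ x = monomial n x → P x) → ∀ x, P x

variable (𝒜) in
/-- the point is not the vertex of the cone -/
def Rel {R K : Type} [CommRing R] [Algebra A R] [Field K] (φ : R →+* K) : Prop :=
  ∃ l ∈ 𝒜 1, φ (algebraMap A R l) ≠ 0

namespace CoA

variable {R : Type} [CommRing R] [Algebra A R] (c : CoA 𝒜 R)

/-- homogeneous of degree `n` -/
def H (n : ℕ) (x : R) : Prop := c.δ x = monomial n x

/-- homogeneous ideal -/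
def Hg (I : Ideal R) : Prop := ∀ x ∈ I, ∀ n, (c.δ x).coeff n ∈ I

/-- rescaling of a point -/
def sc {K : Type} [CommRing K] (t : K) (φ : R →+* K) : R →+* K := (eval₂RingHom φ t).comp c.δ

theorem ind' {P : R → Prop} (h0 : P 0) (hadd : ∀ x y, P x → P y → P (x + y))
    (h : ∀ n x, c.H n x → P x) (x : R) : P x := c.ind P h0 hadd h x

variable {c}

theorem H.zero (n : ℕ) : c.H n 0 := by simp [H]
theorem H.one : c.H 0 1 := by simp [H]
theorem H.add {n : ℕ} {x y : R} (hx : c.H n x) (hy : c.H n y) : c.H n (x + y) := by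
  unfold H at *; rw [map_add, hx, hy, map_add]
theorem H.sub {n : ℕ} {x y : R} (hx : c.H n x) (hy : c.H n y) : c.H n (x - y) := by
  unfold H at *; rw [map_sub, hx, hy, map_sub]
theorem H.mul {n m : ℕ} {x y : R} (hx : c.H n x) (hy : c.H m y) : c.H (n + m) (x * y) := by
  unfold H at *; rw [map_mul, hx, hy, monomial_mul_monomial]
theorem H.pow {n : ℕ} {x : R} (hx : c.H n x) (k : ℕ) : c.H (k * n) (x ^ k) := by
  unfold H at *; rw [map_pow, hx, monomial_pow, mul_comm]
theorem H.cast {n m : ℕ} {x : R} (hx : c.H n x) (e : n = m) : c.H m x := e ▸ hx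
theorem H.sum {ι : Type} {n : ℕ} (s : Finset ι) {x : ι → R} (hx : ∀ i ∈ s, c.H n (x i)) :
    c.H n (∑ i ∈ s, x i) :=
  Finset.sum_induction _ (c.H n) (fun _ _ => H.add) (H.zero n) hx
theorem H.alg {n : ℕ} {a : A} (ha : a ∈ 𝒜 n) : c.H n (algebraMap A R a) := c.alg n a ha

theorem H.coeff {n : ℕ} {x : R} (hx : c.H n x) : (c.δ x).coeff n = x := by
  rw [hx, coeff_monomial_same]

theorem coeff_H (x : R) (n : ℕ) : c.H n ((c.δ x).coeff n) := by
  induction x using c.ind' with
  | h0 => simpa using H.zero n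
  | hadd x y hx hy => rw [map_add, coeff_add]; exact hx.add hy
  | h m x hx =>
    rw [hx, coeff_monomial]
    split_ifs with e
    · exact e ▸ hx
    · exact H.zero n

theorem ev1 (x : R) : (c.δ x).eval 1 = x := by
  induction x using c.ind' with
  | h0 => simp
  | hadd x y hx hy => rw [map_add, eval_add, hx, hy]
  | h m x hx => rw [hx]; simp

theorem mem_of_coeff {I : Ideal R} {x : R} (h : ∀ n, (c.δ x).coeff n ∈ I) : x ∈ I := by
  rw [← ev1 (c := c) x, eval_eq_sum_range]
  exact I.sum_mem fun i _ => I.mul_mem_right _ (h i)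

theorem coeff_alg (a : A) (n : ℕ) :
    (c.δ (algebraMap A R a)).coeff n = algebraMap A R (GradedRing.proj 𝒜 n a) := by
  induction a using hom_ind (𝒜 := 𝒜) with
  | h0 => simp
  | hadd x y hx hy => simp only [map_add, coeff_add, hx, hy]
  | h m a ha =>
    rw [c.alg m a ha, coeff_monomial, GradedRing.proj_apply]
    split_ifs with e
    · subst e; rw [DirectSum.decompose_of_mem_same 𝒜 ha]
    · rw [DirectSum.decompose_of_mem_ne 𝒜 ha e, map_zero]

theorem sc_H {K : Type} [CommRing K] (t : K) (φ : R →+* K) {n : ℕ} {x : R} (hx : c.H n x) :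
    c.sc t φ x = φ x * t ^ n := by
  show eval₂ φ t (c.δ x) = _
  rw [hx, eval₂_monomial]

theorem sc_ker {K : Type} [CommRing K] (t : K) {φ : R →+* K} {I : Ideal R} (hI : c.Hg I)
    (h : I ≤ RingHom.ker φ) : I ≤ RingHom.ker (c.sc t φ) := fun x hx => by
  show eval₂ φ t (c.δ x) = 0
  rw [eval₂_eq_sum_range]
  exact Finset.sum_eq_zero fun i _ => by rw [RingHom.mem_ker.1 (h (hI x hx i)), zero_mul]

theorem hg_bot : c.Hg ⊥ := fun x hx n => by rw [Ideal.mem_bot.1 hx]; simp

theorem Hg.sup {I J : Ideal R} (hI : c.Hg I) (hJ : c.Hg J) : c.Hg (I ⊔ J) := fun x hx n => by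
  obtain ⟨y, hy, z, hz, rfl⟩ := Submodule.mem_sup.1 hx
  rw [map_add, coeff_add]
  exact add_mem (Ideal.mem_sup_left (hI y hy n)) (Ideal.mem_sup_right (hJ z hz n))

theorem Hg.min {I Q : Ideal R} (hI : c.Hg I) (hQ : Q ∈ I.minimalPrimes) : c.Hg Q := by
  have := hQ.1.1
  let ψ : R →+* (R ⧸ Q)[X] := (mapRingHom (Ideal.Quotient.mk Q)).comp c.δ
  have h1 : ∀ x, x ∈ RingHom.ker ψ ↔ ∀ n, (c.δ x).coeff n ∈ Q := fun x => by
    rw [RingHom.mem_ker, Polynomial.ext_iff]
    refine forall_congr' fun n => ?_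
    show (Polynomial.map _ _).coeff n = _ ↔ _
    rw [coeff_map, coeff_zero, Ideal.Quotient.eq_zero_iff_mem]
  have h2 : Q ≤ RingHom.ker ψ := hQ.2 ⟨RingHom.ker_isPrime ψ,
    fun x hx => (h1 x).2 fun n => hQ.1.2 (hI x hx n)⟩ fun x hx => mem_of_coeff ((h1 x).1 hx)
  exact fun x hx => (h1 x).1 (h2 hx)

variable {R' : Type} [CommRing R'] [Algebra A R']

theorem ten_aux (c : CoA 𝒜 R) (c' : CoA 𝒜 R') (a : A) :
    ((mapRingHom (j1 A R R')).comp c.δ) (algebraMap A R a) =
      ((mapRingHom (j2 A R R')).comp c'.δ) (algebraMap A R' a) := by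
  induction a using hom_ind (𝒜 := 𝒜) with
  | h0 => simp
  | hadd x y hx hy => simp only [map_add, hx, hy]
  | h m a ha =>
    simp only [RingHom.comp_apply, c.alg m a ha, c'.alg m a ha, coe_mapRingHom, map_monomial,
      j1_alg, j2_alg]

theorem ten_tmul (c : CoA 𝒜 R) (c' : CoA 𝒜 R') {n m : ℕ} {x : R} {y : R'} (hx : c.H n x)
    (hy : c'.H m y) : tl _ _ (ten_aux c c') (x ⊗ₜ y) = monomial (n + m) (x ⊗ₜ[A] y) := by
  rw [tl_tmul, RingHom.comp_apply, RingHom.comp_apply, hx, hy, coe_mapRingHom, coe_mapRingHom,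
    map_monomial, map_monomial, monomial_mul_monomial, j1_mul_j2]

theorem ten_ind (c : CoA 𝒜 R) (c' : CoA 𝒜 R') {P : R ⊗[A] R' → Prop} (h0 : P 0)
    (hadd : ∀ x y, P x → P y → P (x + y))
    (h : ∀ n m x y, c.H n x → c'.H m y → P (x ⊗ₜ y)) (z : R ⊗[A] R') : P z := by
  induction z with
  | zero => exact h0
  | add x y hx hy => exact hadd x y hx hy
  | tmul x y =>
    induction x using c.ind' with
    | h0 => rwa [TensorProduct.zero_tmul]
    | hadd x x' hx hx' => rw [TensorProduct.add_tmul]; exact hadd _ _ hx hx'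
    | h n x hx =>
      induction y using c'.ind' with
      | h0 => rwa [TensorProduct.tmul_zero]
      | hadd y y' hy hy' => rw [TensorProduct.tmul_add]; exact hadd _ _ hy hy'
      | h m y hy => exact h n m x y hx hy

/-- tensor product -/
def ten (c : CoA 𝒜 R) (c' : CoA 𝒜 R') : CoA 𝒜 (R ⊗[A] R') where
  δ := tl _ _ (ten_aux c c')
  alg _ _ ha := ten_tmul c c' (H.alg ha) H.one
  ind _ h0 hadd h := ten_ind c c' h0 hadd fun n m _ _ hx hy => h (n + m) _ (ten_tmul c c' hx hy)

variable {c' : CoA 𝒜 R'}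

theorem H.tmul {n m : ℕ} {x : R} {y : R'} (hx : c.H n x) (hy : c'.H m y) :
    (c.ten c').H (n + m) (x ⊗ₜ y) := ten_tmul c c' hx hy

theorem H.inl {n : ℕ} {x : R} (hx : c.H n x) : (c.ten c').H n (j1 A R R' x) := hx.tmul H.one

theorem H.inr {n : ℕ} {y : R'} (hy : c'.H n y) : (c.ten c').H n (j2 A R R' y) :=
  (H.one.tmul hy).cast (zero_add n)

theorem H.map {S : Type} [CommRing S] [Algebra A S] {c'' : CoA 𝒜 S} (ψ : R ⊗[A] R' →+* S)
    (h1 : ∀ n x, c.H n x → c''.H n (ψ (j1 A R R' x)))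
    (h2 : ∀ n y, c'.H n y → c''.H n (ψ (j2 A R R' y))) {n : ℕ} {z : R ⊗[A] R'}
    (hz : (c.ten c').H n z) : c''.H n (ψ z) := by
  have key : ∀ z, c''.δ (ψ z) = ((c.ten c').δ z).map ψ := by
    intro z
    induction z using ten_ind c c' with
    | h0 => simp
    | hadd x y hx hy => simp only [map_add, Polynomial.map_add, hx, hy]
    | h n m x y hx hy =>
      rw [hx.tmul hy, map_monomial, ← j1_mul_j2, map_mul]
      exact (h1 n x hx).mul (h2 m y hy)
  show c''.δ _ = _
  rw [key, hz, map_monomial]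

variable [IsDomain A] [hG : Fact (Gen 𝒜)]

/-- forms of positive degree vanish at the vertex -/
theorem irr [Module.Finite A R] {K : Type} [Field K] {φ : R →+* K} (hφ : ¬Rel 𝒜 φ) {n : ℕ}
    (hn : 0 < n) {x : R} (hx : c.H n x) : φ x = 0 := by
  by_contra h0
  let ψ : R →+* K[X] := (mapRingHom φ).comp c.δ
  have h1 : ∀ a, ψ (algebraMap A R a) = C (φ (algebraMap A R a)) := by
    intro a
    induction a using hom_ind (𝒜 := 𝒜) with
    | h0 => simp
    | hadd x y hx hy => simp only [map_add, hx, hy]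
    | h m a ha =>
      show (c.δ _).map φ = _
      rw [c.alg m a ha, map_monomial]
      rcases Nat.eq_zero_or_pos m with rfl | hm
      · rfl
      · have : φ (algebraMap A R a) = 0 := md_mem_of_one hG.out
          (I := RingHom.ker (φ.comp (algebraMap A R)))
          (fun l hl => not_not.1 fun h => hφ ⟨l, hl, h⟩) hm ha
        rw [this, map_zero, map_zero]
  obtain ⟨f, hf, e⟩ := Algebra.IsIntegral.isIntegral (R := A) x
  have h2 : IsIntegral K (ψ x) := by
    refine ⟨f.map (φ.comp (algebraMap A R)), hf.map _, ?_⟩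
    have h3 : (algebraMap K K[X]).comp (φ.comp (algebraMap A R)) = ψ.comp (algebraMap A R) :=
      RingHom.ext fun a => (h1 a).symm
    rw [eval₂_map, h3, ← hom_eval₂, e, map_zero]
  have h4 : ψ x = monomial n (φ x) := by
    show (c.δ _).map φ = _
    rw [hx, map_monomial]
  refine Polynomial.transcendental (ψ x) ?_ ?_ h2.isAlgebraic
  · rw [h4, natDegree_monomial_eq _ h0]; omega
  · rw [h4, leadingCoeff_monomial]; exact mem_nonZeroDivisors_of_ne_zero h0

/-- a point of the cone can be rescaled into any valuation ring -/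
theorem norm_val [Module.Finite A R] {K : Type} [Field K] {φ : R →+* K} (hφ : Rel 𝒜 φ)
    (O : ValuationSubring K) : ∃ l ∈ 𝒜 1, φ (algebraMap A R l) ≠ 0 ∧
      ∀ x, c.sc (φ (algebraMap A R l))⁻¹ φ x ∈ O := by
  classical
  obtain ⟨X, hX⟩ := piece_fg (𝒜 := 𝒜) 1
  obtain ⟨l₀, hl₀, h₀⟩ := hφ
  have hne : X.Nonempty := by
    rw [Finset.nonempty_iff_ne_empty]
    rintro rfl
    rw [← hX, Finset.coe_empty, AddSubgroup.closure_empty, AddSubgroup.mem_bot] at hl₀
    exact h₀ (by rw [hl₀, map_zero, map_zero])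
  obtain ⟨l, hl, hmax⟩ := X.exists_max_image (fun x => O.valuation (φ (algebraMap A R x))) hne
  have hl1 : l ∈ 𝒜 1 := hX ▸ AddSubgroup.subset_closure hl
  have hle : ∀ x ∈ 𝒜 1, O.valuation (φ (algebraMap A R x)) ≤ O.valuation (φ (algebraMap A R l)) := by
    intro x hx
    rw [← hX] at hx
    induction hx using AddSubgroup.closure_induction with
    | mem x hx => exact hmax x hx
    | zero => simp
    | add x y _ _ hx hy => rw [map_add, map_add]; exact O.valuation.map_add_le hx hy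
    | neg x _ hx => rwa [map_neg, map_neg, Valuation.map_neg]
  have h1 : φ (algebraMap A R l) ≠ 0 := fun e => h₀ (by
    have := hle l₀ hl₀
    rwa [e, map_zero, le_zero_iff, Valuation.zero_iff] at this)
  refine ⟨l, hl1, h1, fun x => ?_⟩
  set ψ := c.sc (φ (algebraMap A R l))⁻¹ φ
  have h2 : ∀ a, ψ (algebraMap A R a) ∈ O := by
    obtain ⟨s, hs, hc⟩ := hG.out
    have : (⊤ : Subring A) ≤ O.toSubring.comap (ψ.comp (algebraMap A R)) := by
      rw [← hc, Subring.closure_le]
      intro a ha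
      show ψ (algebraMap A R a) ∈ O
      rw [sc_H _ _ (H.alg (hs a ha)), pow_one, ← O.valuation_le_one_iff, map_mul, map_inv₀,
        ← div_eq_mul_inv]
      exact div_le_one_of_le₀ (hle a (hs a ha)) zero_le
    exact fun a => this (Subring.mem_top a)
  obtain ⟨f, hf, e⟩ := Algebra.IsIntegral.isIntegral (R := A) x
  let θ : A →+* O := (ψ.comp (algebraMap A R)).codRestrict O h2
  have h3 : IsIntegral O (ψ x) := by
    refine ⟨f.map θ, hf.map _, ?_⟩
    have h3 : (algebraMap O K).comp θ = ψ.comp (algebraMap A R) := rfl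
    rw [eval₂_map, h3, ← hom_eval₂, e, map_zero]
  obtain ⟨y, hy⟩ := IsIntegrallyClosed.isIntegral_iff.1 h3
  exact hy ▸ y.2

/-- two proportional systems of forms without common zero differ by a root of unity -/
theorem root [Module.Finite A R] (p : ℕ) [Fact p.Prime] (hp : (p : R) = 0) {I : Ideal R}
    (hI : c.Hg I) {ι : Type} {u w : ι → R} {e : ℕ} (hu : ∀ i, c.H e (u i)) (hw : ∀ i, c.H e (w i))
    (h : ∀ (K : Type) [Field K] (φ : R →+* K), Rel 𝒜 φ → I ≤ RingHom.ker φ →
      ∃ z : K, z ≠ 0 ∧ (∀ i, φ (u i) = z * φ (w i)) ∧ ∃ i, φ (w i) ≠ 0) :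
    ∃ M, 0 < M ∧ ∀ (K : Type) [Field K] (φ : R →+* K), Rel 𝒜 φ → I ≤ RingHom.ker φ →
      ∀ i, φ (u i) ^ M = φ (w i) ^ M := by
  classical
  have := noeth_of_gen 𝒜
  have : IsNoetherianRing R := isNoetherian_of_tower A inferInstance
  have key : ∀ Q ∈ I.minimalPrimes, ∃ M, 0 < M ∧
      ((∃ l ∈ 𝒜 1, algebraMap A R l ∉ Q) → ∀ i, u i ^ M - w i ^ M ∈ Q) := by
    intro Q hQ
    by_cases hr : ∃ l ∈ 𝒜 1, algebraMap A R l ∉ Q
    swap
    · exact ⟨1, one_pos, fun h => absurd h hr⟩
    have := hQ.1.1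
    let φ : R →+* Q.ResidueField := algebraMap _ _
    have hk : ∀ x, φ x = 0 ↔ x ∈ Q := fun x => Ideal.algebraMap_residueField_eq_zero
    have hφ : Rel 𝒜 φ := hr.imp fun l hl => ⟨hl.1, fun e => hl.2 ((hk _).1 e)⟩
    have hIφ : I ≤ RingHom.ker φ := fun x hx => (hk x).2 (hQ.1.2 hx)
    obtain ⟨z, hz, h1, -⟩ := h _ φ hφ hIφ
    obtain ⟨M, hM, e⟩ := ga_root p (g4_cast φ hp) hz fun O => by
      obtain ⟨l, hl, hl0, hO⟩ := norm_val (c := c) hφ O
      set ψ := c.sc (φ (algebraMap A R l))⁻¹ φ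
      let ψ' : R →+* O := ψ.codRestrict O hO
      have h2 : ψ' (algebraMap A R l) = 1 := Subtype.ext (by
        show ψ _ = 1
        rw [sc_H _ _ (H.alg hl), pow_one, mul_inv_cancel₀ hl0])
      obtain ⟨-, -, -, i, hi⟩ := h _ ((IsLocalRing.residue O).comp ψ')
        ⟨l, hl, by rw [RingHom.comp_apply, h2, map_one]; exact one_ne_zero⟩ fun x hx => by
          have : ψ' x = 0 := Subtype.ext (sc_ker _ hI hIφ hx)
          rw [RingHom.mem_ker, RingHom.comp_apply, this, map_zero]
      obtain ⟨v, hv⟩ := ((IsLocalRing.residue_ne_zero_iff_isUnit _).1 hi).exists_right_inv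
      have h3 : ψ (w i) * v = 1 := congrArg Subtype.val hv
      have h4 : ψ (u i) = z * ψ (w i) := by rw [sc_H _ _ (hu i), sc_H _ _ (hw i), h1, mul_assoc]
      have h5 : z = ψ (u i) * v := by rw [h4, mul_assoc, h3, mul_one]
      rw [h5]
      exact mul_mem (hO _) v.2
    exact ⟨M, hM, fun _ i => (hk _).1 (by
      rw [map_sub, map_pow, map_pow, h1, mul_pow, e, one_mul, sub_self])⟩
  choose! M hM hM' using key
  have hfin := Ideal.finite_minimalPrimes_of_isNoetherianRing R I
  refine ⟨∏ Q ∈ hfin.toFinset, M Q, Finset.prod_pos fun Q hQ => hM Q (hfin.mem_toFinset.1 hQ),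
    fun K _ φ hφ hIφ i => ?_⟩
  have := RingHom.ker_isPrime φ
  obtain ⟨Q, hQ, hle⟩ := Ideal.exists_minimalPrimes_le hIφ
  obtain ⟨k, hk⟩ := Finset.dvd_prod_of_mem M (hfin.mem_toFinset.2 hQ)
  have h1 := RingHom.mem_ker.1 (hle (hM' Q hQ (hφ.imp fun l hl => ⟨hl.1, fun e => hl.2 (hle e)⟩) i))
  rw [map_sub, map_pow, map_pow, sub_eq_zero] at h1
  rw [hk, pow_mul, pow_mul, h1]

end CoA

end

end Pool.Agent.Lib.MP_62d77c_ag.R
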