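import Pool.Agent.Lib.MP_62d77c_ag.R.GA

/-! From isomorphisms on the components of the fibre product to a descent datum. -/

set_option autoImplicit false
set_option linter.unusedSectionVars false

namespace Pool.Agent.Lib.MP_62d77c_ag.R

open Polynomial Filter
open scoped TensorProduct

noncomputable section

theorem gb_uniq {K ι κ : Type} [Field K] {σ σ' : ι → K} {τ τ' : κ → K}
    (h : ∀ α β, σ α * τ β = σ' α * τ' β) (h0 : ∃ α β, σ α * τ β ≠ 0) :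
    ∃ z : K, z ≠ 0 ∧ (∀ α, σ' α = z * σ α) ∧ ∀ β, τ β = z * τ' β := by
  obtain ⟨α₀, β₀, h0⟩ := h0
  have h1 := left_ne_zero_of_mul h0
  have h2 := right_ne_zero_of_mul h0
  rw [h] at h0
  have h3 := left_ne_zero_of_mul h0
  have h4 := right_ne_zero_of_mul h0
  refine ⟨σ' α₀ / σ α₀, div_ne_zero h3 h1, fun α => ?_, fun β => ?_⟩
  · field_simp
    refine mul_right_cancel₀ h4 ?_
    linear_combination σ α * h α₀ β₀ - σ α₀ * h α β₀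
  · field_simp
    linear_combination h α₀ β

variable {A : Type} [CommRing A] {𝒜 : ℕ → AddSubgroup A} [GradedRing 𝒜]
  {C : Type} [CommRing C] [Algebra A C] {ι κ : Type}

theorem tl_j1 {R R' S : Type} [CommRing R] [CommRing R'] [CommRing S] [Algebra A R] [Algebra A R']
    (f : R →+* S) (g : R' →+* S) (h : ∀ a, f (algebraMap A R a) = g (algebraMap A R' a)) (x : R) :
    tl f g h (j1 A R R' x) = f x := by
  rw [j1_apply, tl_tmul, map_one, mul_one]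

theorem tl_j2 {R R' S : Type} [CommRing R] [CommRing R'] [CommRing S] [Algebra A R] [Algebra A R']
    (f : R →+* S) (g : R' →+* S) (h : ∀ a, f (algebraMap A R a) = g (algebraMap A R' a)) (x : R') :
    tl f g h (j2 A R R' x) = g x := by
  rw [j2_apply, tl_tmul, map_one, one_mul]

theorem tl_ext {R R' S : Type} [CommRing R] [CommRing R'] [CommRing S] [Algebra A R] [Algebra A R']
    {φ ψ : R ⊗[A] R' →+* S} (h1 : ∀ x, φ (j1 A R R' x) = ψ (j1 A R R' x))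
    (h2 : ∀ x, φ (j2 A R R' x) = ψ (j2 A R R' x)) (z : R ⊗[A] R') : φ z = ψ z := by
  induction z with
  | zero => simp
  | add x y hx hy => simp only [map_add, hx, hy]
  | tmul x y => rw [← j1_mul_j2, map_mul, map_mul, h1, h2]

/-- the matrix of products of sections of a line bundle and of its dual -/
structure GSys (c : CoA 𝒜 C) (g : ι → κ → C) (e : ℕ) : Prop where
  pos : 0 < e
  hom : ∀ α β, c.H e (g α β)
  rk : ∀ α β γ δ, g α β * g γ δ = g α δ * g γ β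
  cov : ∀ (K : Type) [Field K] (a : C →+* K), Rel 𝒜 a → ∃ α β, a (g α β) ≠ 0

/-- `σ`, `τ` factor the matrix `g` at the point `a` -/
def Fc {K : Type} [Field K] (g : ι → κ → C) (a : C →+* K) (σ : ι → K) (τ : κ → K) : Prop :=
  ∀ α β, a (g α β) = σ α * τ β

/-- the matrix `φ` identifies the two fibres at the point `ψ` -/
def Ok {K : Type} [Field K] (g : ι → κ → C) (φ : ι → κ → C ⊗[A] C) (ψ : C ⊗[A] C →+* K) : Prop :=
  ∃ σa τa σb τb, Fc g (ψ.comp (j1 A C C)) σa τa ∧ Fc g (ψ.comp (j2 A C C)) σb τb ∧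
    ∀ α β, ψ (φ α β) = σa α * τb β

variable (𝒜) in
/-- descent datum -/
def Des (g : ι → κ → C) (Θ : ι → κ → C ⊗[A] C) : Prop :=
  ∀ (K : Type) [Field K] (a b d : C →+* K) (hab : ∀ x, a (algebraMap A C x) = b (algebraMap A C x))
    (hbd : ∀ x, b (algebraMap A C x) = d (algebraMap A C x))
    (had : ∀ x, a (algebraMap A C x) = d (algebraMap A C x)), Rel 𝒜 a →
    ∃ σa τa σb τb σd τd, Fc g a σa τa ∧ Fc g b σb τb ∧ Fc g d σd τd ∧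
      (∀ α β, tl a b hab (Θ α β) = σa α * τb β) ∧ (∀ α β, tl b d hbd (Θ α β) = σb α * τd β) ∧
      ∀ α β, tl a d had (Θ α β) = σa α * τd β

variable {c : CoA 𝒜 C} {g : ι → κ → C} {e : ℕ}

theorem GSys.pow (S : GSys c g e) {n : ℕ} (hn : 0 < n) : GSys c (fun α β => g α β ^ n) (n * e) :=
  ⟨Nat.mul_pos hn S.pos, fun α β => (S.hom α β).pow n,
    fun α β γ δ => by rw [← mul_pow, S.rk, mul_pow], fun K _ a ha => by
      obtain ⟨α, β, h⟩ := S.cov K a ha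
      exact ⟨α, β, by rw [map_pow]; exact pow_ne_zero _ h⟩⟩

theorem GSys.fc (S : GSys c g e) {K : Type} [Field K] {a : C →+* K} (ha : Rel 𝒜 a) :
    ∃ σ τ, Fc g a σ τ := by
  obtain ⟨α₀, β₀, h⟩ := S.cov K a ha
  refine ⟨fun α => a (g α β₀), fun β => a (g α₀ β) / a (g α₀ β₀), fun α β => ?_⟩
  rw [← mul_div_assoc, eq_div_iff h, ← map_mul, ← map_mul, S.rk]

theorem GSys.ne (S : GSys c g e) {K : Type} [Field K] {a : C →+* K} (ha : Rel 𝒜 a) {σ : ι → K}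
    {τ : κ → K} (h : Fc g a σ τ) : ∃ α β, σ α * τ β ≠ 0 := by
  obtain ⟨α, β, h0⟩ := S.cov K a ha
  exact ⟨α, β, h α β ▸ h0⟩

theorem GSys.uniq (S : GSys c g e) {K : Type} [Field K] {a : C →+* K} (ha : Rel 𝒜 a) {σ σ' : ι → K}
    {τ τ' : κ → K} (h : Fc g a σ τ) (h' : Fc g a σ' τ') :
    ∃ z : K, z ≠ 0 ∧ (∀ α, σ' α = z * σ α) ∧ ∀ β, τ β = z * τ' β :=
  gb_uniq (fun α β => (h α β).symm.trans (h' α β)) (S.ne ha h)

theorem Fc.pow {K : Type} [Field K] {a : C →+* K} {σ : ι → K} {τ : κ → K} (h : Fc g a σ τ)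
    (n : ℕ) : Fc (fun α β => g α β ^ n) a (fun α => σ α ^ n) fun β => τ β ^ n := fun α β => by
  rw [map_pow, h, mul_pow]

theorem Ok.pow {K : Type} [Field K] {φ : ι → κ → C ⊗[A] C} {ψ : C ⊗[A] C →+* K} (h : Ok g φ ψ)
    (n : ℕ) : Ok (fun α β => g α β ^ n) (fun α β => φ α β ^ n) ψ := by
  obtain ⟨σa, τa, σb, τb, h1, h2, h3⟩ := h
  exact ⟨_, _, _, _, h1.pow n, h2.pow n, fun α β => by rw [map_pow, h3, mul_pow]⟩

theorem rel_j1 {R K : Type} [CommRing R] [Algebra A R] [Field K] {ψ : C ⊗[A] R →+* K} :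
    Rel 𝒜 (ψ.comp (j1 A C R)) ↔ Rel 𝒜 ψ := Iff.rfl

theorem rel_j2 {R K : Type} [CommRing R] [Algebra A R] [Field K] {ψ : R ⊗[A] C →+* K} :
    Rel 𝒜 (ψ.comp (j2 A R C)) ↔ Rel 𝒜 ψ := by
  unfold Rel
  simp only [RingHom.comp_apply, j2_alg]

/-- from the generic point of a component to all its points -/
theorem GSys.ok_of_generic (S : GSys c g e) {Q : Ideal (C ⊗[A] C)} {K₀ : Type} [Field K₀]
    (ψ₀ : C ⊗[A] C →+* K₀) (h₀ : ∀ n x, (c.ten c).H n x → ψ₀ x = 0 → x ∈ Q)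
    {φ φ' : ι → κ → C ⊗[A] C} (hφ : ∀ α β, (c.ten c).H e (φ α β))
    (hφ' : ∀ α β, (c.ten c).H e (φ' α β)) {σa σb : ι → K₀} {τa τb : κ → K₀}
    (ha : Fc g (ψ₀.comp (j1 A C C)) σa τa) (hb : Fc g (ψ₀.comp (j2 A C C)) σb τb)
    (h1 : ∀ α β, ψ₀ (φ α β) = σa α * τb β) (h2 : ∀ α β, ψ₀ (φ' α β) = σb α * τa β)
    {K : Type} [Field K] (ψ : C ⊗[A] C →+* K) (hr : Rel 𝒜 ψ) (hQ : Q ≤ RingHom.ker ψ) :
    Ok g φ ψ := by
  have tr : ∀ {x y : C ⊗[A] C}, (c.ten c).H (e + e) x → (c.ten c).H (e + e) y → ψ₀ x = ψ₀ y →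
      ψ x = ψ y := fun hx hy h => by
    rw [← sub_eq_zero, ← map_sub] at h ⊢
    exact hQ (h₀ _ _ (hx.sub hy) h)
  have ha' : ∀ α β, ψ₀ (j1 A C C (g α β)) = σa α * τa β := ha
  have hb' : ∀ α β, ψ₀ (j2 A C C (g α β)) = σb α * τb β := hb
  obtain ⟨sa, ta, fa⟩ := S.fc (rel_j1.2 hr)
  obtain ⟨sb, tb, fb⟩ := S.fc (rel_j2.2 hr)
  have fa' : ∀ α β, ψ (j1 A C C (g α β)) = sa α * ta β := fa
  have fb' : ∀ α β, ψ (j2 A C C (g α β)) = sb α * tb β := fb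
  obtain ⟨α₀, β₀, n₀⟩ := S.ne (rel_j1.2 hr) fa
  obtain ⟨α₁, β₁, n₁⟩ := S.ne (rel_j2.2 hr) fb
  have r1 : ∀ α β, ψ (φ α β) * (sa α₀ * ta β₀) = sa α * ta β₀ * ψ (φ α₀ β) := fun α β => by
    rw [← fa', ← fa', ← map_mul, ← map_mul]
    refine tr ((hφ _ _).mul (S.hom _ _).inl) ((S.hom _ _).inl.mul (hφ _ _)) ?_
    simp only [map_mul, h1, ha']; ring
  have r2 : ∀ β, ψ (φ α₀ β) * (sb α₁ * tb β₁) = ψ (φ α₀ β₁) * (sb α₁ * tb β) := fun β => by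
    rw [← fb', ← fb', ← map_mul, ← map_mul]
    refine tr ((hφ _ _).mul (S.hom _ _).inr) ((hφ _ _).mul (S.hom _ _).inr) ?_
    simp only [map_mul, h1, hb']; ring
  have r3 : ψ (φ α₀ β₁) * ψ (φ' α₁ β₀) = sa α₀ * ta β₀ * (sb α₁ * tb β₁) := by
    rw [← fa', ← fb', ← map_mul, ← map_mul]
    refine tr ((hφ _ _).mul (hφ' _ _)) ((S.hom _ _).inl.mul (S.hom _ _).inr) ?_
    simp only [map_mul, h1, h2, ha', hb']; ring
  have n₂ : ψ (φ α₀ β₁) ≠ 0 := left_ne_zero_of_mul (r3 ▸ mul_ne_zero n₀ n₁)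
  have m1 := left_ne_zero_of_mul n₀
  have m2 := right_ne_zero_of_mul n₀
  have m3 := left_ne_zero_of_mul n₁
  have m4 := right_ne_zero_of_mul n₁
  refine ⟨fun α => ψ (φ α₀ β₁) / (sa α₀ * tb β₁) * sa α,
    fun β => sa α₀ * tb β₁ / ψ (φ α₀ β₁) * ta β, sb, tb, fun α β => ?_, fb, fun α β => ?_⟩
  · rw [fa]; field_simp
  · have e1 : ψ (φ α β) * sa α₀ = sa α * ψ (φ α₀ β) :=
      mul_right_cancel₀ m2 (by linear_combination r1 α β)
    have e2 : ψ (φ α₀ β) * tb β₁ = ψ (φ α₀ β₁) * tb β :=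
      mul_right_cancel₀ m3 (by linear_combination r2 β)
    field_simp
    linear_combination tb β₁ * e1 + sa α * e2

variable [IsDomain A] [hG : Fact (Gen 𝒜)] [Module.Finite A C] [Finite ι] [Finite κ]

theorem GSys.glue (S : GSys c g e) (p : ℕ) [Fact p.Prime] (hp : (p : C) = 0)
    (hQ : ∀ Q ∈ minimalPrimes (C ⊗[A] C), (∃ l ∈ 𝒜 1, algebraMap A _ l ∉ Q) →
      ∃ n, 0 < n ∧ ∃ φ : ι → κ → C ⊗[A] C, (∀ α β, (c.ten c).H (n * e) (φ α β)) ∧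
        ∀ (K : Type) [Field K] (ψ : C ⊗[A] C →+* K), Rel 𝒜 ψ → Q ≤ RingHom.ker ψ →
          Ok (fun α β => g α β ^ n) φ ψ) :
    ∃ N, 0 < N ∧ ∃ Θ : ι → κ → C ⊗[A] C, (∀ α β, (c.ten c).H (N * e) (Θ α β)) ∧
      ∀ (K : Type) [Field K] (ψ : C ⊗[A] C →+* K), Rel 𝒜 ψ → Ok (fun α β => g α β ^ N) Θ ψ := by
  classical
  have := noeth_of_gen 𝒜
  have : IsNoetherianRing (C ⊗[A] C) := isNoetherian_of_tower A inferInstance
  have hpT : (p : C ⊗[A] C) = 0 := g4_cast_t hp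
  let J := {Q : Ideal (C ⊗[A] C) // Q ∈ minimalPrimes _ ∧ ∃ l ∈ 𝒜 1, algebraMap A _ l ∉ Q}
  have : Finite J := ((minimalPrimes.finite_of_isNoetherianRing _).subset
    (t := {Q | Q ∈ minimalPrimes _ ∧ ∃ l ∈ 𝒜 1, algebraMap A _ l ∉ Q}) fun _ h => h.1).to_subtype
  have := Fintype.ofFinite J
  choose n hn φ₀ hφ₀ hok₀ using fun Q : J => hQ Q.1 Q.2.1 Q.2.2
  have hg : ∀ Q : J, (c.ten c).Hg Q.1 := fun Q => CoA.hg_bot.min Q.2.1
  set N₀ := ∏ Q, n Q with hN₀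
  have hN₀' : 0 < N₀ := Finset.prod_pos fun Q _ => hn Q
  choose k hk using fun Q : J => Finset.dvd_prod_of_mem n (Finset.mem_univ Q)
  let φ : J → ι → κ → C ⊗[A] C := fun Q α β => φ₀ Q α β ^ k Q
  have hφ : ∀ Q α β, (c.ten c).H (N₀ * e) (φ Q α β) := fun Q α β =>
    ((hφ₀ Q α β).pow _).cast (by rw [hN₀, hk Q]; ring)
  have hok : ∀ (Q : J) (K : Type) [Field K] (ψ : C ⊗[A] C →+* K), Rel 𝒜 ψ →
      Q.1 ≤ RingHom.ker ψ → Ok (fun α β => g α β ^ N₀) (φ Q) ψ := fun Q K _ ψ h1 h2 => by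
    have := (hok₀ Q K ψ h1 h2).pow (k Q)
    simp only [← pow_mul] at this
    rwa [hN₀, hk Q]
  have S₀ := S.pow hN₀'
  have h1 := fun t : J × J => CoA.root (c := c.ten c) p hpT ((hg t.1).sup (hg t.2))
    (u := fun i : ι × κ => φ t.1 i.1 i.2) (w := fun i => φ t.2 i.1 i.2) (fun i => hφ _ _ _)
    (fun i => hφ _ _ _) fun K _ ψ hr hI => by
      obtain ⟨σa, τa, σb, τb, f1, f2, f3⟩ := hok t.2 K ψ hr (le_sup_right.trans hI)
      obtain ⟨σa', τa', σb', τb', f1', f2', f3'⟩ := hok t.1 K ψ hr (le_sup_left.trans hI)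
      obtain ⟨z, hz, e1, -⟩ := S₀.uniq (rel_j1.2 hr) f1 f1'
      obtain ⟨z', hz', -, e2⟩ := S₀.uniq (rel_j2.2 hr) f2' f2
      obtain ⟨α, _, n1⟩ := S₀.ne (rel_j1.2 hr) f1
      obtain ⟨_, β, n2⟩ := S₀.ne (rel_j2.2 hr) f2
      exact ⟨z * z', mul_ne_zero hz hz', fun i => by rw [f3, f3', e1, e2]; ring, (α, β), by
        rw [f3]; exact mul_ne_zero (left_ne_zero_of_mul n1) (right_ne_zero_of_mul n2)⟩
  choose M hM hM' using h1
  set M₀ := ∏ t, M t with hM₀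
  have hM₀' : 0 < M₀ := Finset.prod_pos fun t _ => hM t
  have h2 : ∀ᶠ s in atTop, ∀ t : (J × J) × ι × κ, (φ t.1.1 t.2.1 t.2.2 ^ M₀) ^ p ^ s -
      (φ t.1.2 t.2.1 t.2.2 ^ M₀) ^ p ^ s ∈ t.1.1.1 ⊔ t.1.2.1 := by
    rw [eventually_all]
    rintro ⟨t, α, β⟩
    have h3 : IsNilpotent (Ideal.Quotient.mk (t.1.1 ⊔ t.2.1) (φ t.1 α β ^ M₀) -
        Ideal.Quotient.mk (t.1.1 ⊔ t.2.1) (φ t.2 α β ^ M₀)) := by
      refine g4_nil_of_fields fun K _ χ => ?_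
      let ψ := χ.comp (Ideal.Quotient.mk (t.1.1 ⊔ t.2.1))
      show ψ _ = ψ _
      rw [map_pow ψ _ M₀, map_pow ψ _ M₀]
      by_cases hr : Rel 𝒜 ψ
      · obtain ⟨l, hl⟩ := Finset.dvd_prod_of_mem M (Finset.mem_univ t)
        rw [hM₀, hl, pow_mul, pow_mul, hM' t K ψ hr (fun x hx => by
          rw [RingHom.mem_ker, RingHom.comp_apply, Ideal.Quotient.eq_zero_iff_mem.2 hx, map_zero])
          (α, β)]
      · rw [CoA.irr hr S₀.pos (hφ _ _ _), CoA.irr hr S₀.pos (hφ _ _ _)]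
    obtain ⟨s₀, hs₀⟩ := g4_frob_of_nil p (g4_cast (Ideal.Quotient.mk _) hpT) h3
    filter_upwards [eventually_ge_atTop s₀] with s hs
    obtain ⟨d, rfl⟩ := Nat.exists_eq_add_of_le hs
    rw [← Ideal.Quotient.eq, map_pow, map_pow _ _ (p ^ _), pow_add, pow_mul, pow_mul, hs₀]
  obtain ⟨s, hs⟩ := h2.exists
  obtain ⟨s', hs'⟩ := frob_crt p (Finset.univ : Finset J)
  choose x hx using fun α β => hs' _ (fun Q : J => Q.1) (fun Q => (φ Q α β ^ M₀) ^ p ^ s)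
    (fun Q _ => hpT ▸ zero_mem _) fun Q _ Q' _ => hs ((Q, Q'), α, β)
  have hp0 : 0 < p := (Fact.out : p.Prime).pos
  refine ⟨N₀ * (M₀ * p ^ s * p ^ s'), by positivity, fun α β => ((c.ten c).δ (x α β)).coeff _,
    fun α β => CoA.coeff_H _ _, fun K _ ψ hr => ?_⟩
  have := RingHom.ker_isPrime ψ
  obtain ⟨Q, hQ1, hle⟩ := Ideal.exists_minimalPrimes_le (bot_le : ⊥ ≤ RingHom.ker ψ)
  let Q' : J := ⟨Q, hQ1, hr.imp fun l hl => ⟨hl.1, fun e => hl.2 (hle e)⟩⟩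
  obtain ⟨σa, τa, σb, τb, f1, f2, f3⟩ := (hok Q' K ψ hr hle).pow (M₀ * p ^ s * p ^ s')
  simp only [← pow_mul] at f1 f2
  refine ⟨σa, τa, σb, τb, f1, f2, fun α β => ?_⟩
  have h4 := hg Q' _ (hx α β Q' (Finset.mem_univ _)) (N₀ * (M₀ * p ^ s * p ^ s') * e)
  rw [← pow_mul, ← pow_mul, ← mul_assoc, map_sub, coeff_sub,
    (((hφ Q' α β).pow (M₀ * p ^ s * p ^ s')).cast (by ring)).coeff] at h4
  have h5 := RingHom.mem_ker.1 (hle h4)
  rw [map_sub, sub_eq_zero] at h5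
  rw [h5, f3]

theorem GSys.tri (S : GSys c g e) {Θ : ι → κ → C ⊗[A] C}
    (h : ∀ (K : Type) [Field K] (ψ : C ⊗[A] C →+* K), Rel 𝒜 ψ → Ok g Θ ψ) {K : Type} [Field K]
    {ψ₁ ψ₂ ψ₃ : C ⊗[A] C →+* K} (hr : Rel 𝒜 ψ₁)
    (e1 : ψ₂.comp (j1 A C C) = ψ₁.comp (j2 A C C)) (e2 : ψ₃.comp (j1 A C C) = ψ₁.comp (j1 A C C))
    (e3 : ψ₃.comp (j2 A C C) = ψ₂.comp (j2 A C C)) :
    ∃ σa τa σb τb σd τd w, w ≠ 0 ∧ Fc g (ψ₁.comp (j1 A C C)) σa τa ∧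
      Fc g (ψ₁.comp (j2 A C C)) σb τb ∧ Fc g (ψ₂.comp (j2 A C C)) σd τd ∧
      (∀ α β, ψ₁ (Θ α β) = σa α * τb β) ∧ (∀ α β, ψ₂ (Θ α β) = σb α * τd β) ∧
      (∀ α β, ψ₃ (Θ α β) = w * (σa α * τd β)) ∧
      ∃ α β γ δ, σa α * τb β * (σb γ * τd δ) ≠ 0 := by
  have r2 : Rel 𝒜 ψ₂ := rel_j1.1 (e1 ▸ rel_j2.2 hr)
  have r3 : Rel 𝒜 ψ₃ := rel_j1.1 (e2 ▸ rel_j1.2 hr)
  obtain ⟨σa, τa, σb, τb, f1, f2, f3⟩ := h K ψ₁ hr
  obtain ⟨σb', τb', σd, τd, f4, f5, f6⟩ := h K ψ₂ r2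
  obtain ⟨σa', τa', σd', τd', f7, f8, f9⟩ := h K ψ₃ r3
  rw [e1] at f4
  rw [e2] at f7
  rw [e3] at f8
  obtain ⟨z, hz, u1, -⟩ := S.uniq (rel_j2.2 hr) f2 f4
  obtain ⟨z', hz', u2, -⟩ := S.uniq (rel_j1.2 hr) f1 f7
  obtain ⟨z'', hz'', -, u3⟩ := S.uniq (rel_j2.2 r2) f8 f5
  obtain ⟨α, _, n1⟩ := S.ne (rel_j1.2 hr) f1
  obtain ⟨γ, β, n2⟩ := S.ne (rel_j2.2 hr) f2
  obtain ⟨_, δ, n3⟩ := S.ne (rel_j2.2 r2) f5
  refine ⟨σa, τa, σb, τb, fun α => z⁻¹ * σd α, fun β => z * τd β, z' * z'' / z,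
    div_ne_zero (mul_ne_zero hz' hz'') hz, f1, f2, fun α β => ?_, f3, fun α β => ?_,
    fun α β => ?_, α, β, γ, δ, ?_⟩
  · rw [f5]; field_simp
  · rw [f6, u1]; ring
  · rw [f9, u2, u3]; field_simp
  · exact mul_ne_zero (mul_ne_zero (left_ne_zero_of_mul n1) (right_ne_zero_of_mul n2))
      (mul_ne_zero (left_ne_zero_of_mul n2) (mul_ne_zero hz (right_ne_zero_of_mul n3)))

theorem GSys.des (S : GSys c g e) (p : ℕ) [Fact p.Prime] (hp : (p : C) = 0)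
    {Θ : ι → κ → C ⊗[A] C} (hΘ : ∀ α β, (c.ten c).H e (Θ α β))
    (h : ∀ (K : Type) [Field K] (ψ : C ⊗[A] C →+* K), Rel 𝒜 ψ → Ok g Θ ψ) :
    ∃ M, 0 < M ∧ Des 𝒜 (fun α β => g α β ^ M) fun α β => Θ α β ^ M := by
  let e12 := j1 A (C ⊗[A] C) C
  let e23 : C ⊗[A] C →+* (C ⊗[A] C) ⊗[A] C := tl (e12.comp (j2 A C C)) (j2 A (C ⊗[A] C) C)
    fun a => by rw [RingHom.comp_apply, j2_alg, j2_alg, j1_alg]
  let e13 : C ⊗[A] C →+* (C ⊗[A] C) ⊗[A] C := tl (e12.comp (j1 A C C)) (j2 A (C ⊗[A] C) C)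
    fun a => by rw [RingHom.comp_apply, j1_alg, j2_alg, j1_alg]
  have h23 : ∀ α β, ((c.ten c).ten c).H e (e23 (Θ α β)) := fun α β => CoA.H.map e23
    (fun n x hx => by rw [tl_j1]; exact hx.inr.inl) (fun n x hx => by rw [tl_j2]; exact hx.inr)
    (hΘ α β)
  have h13 : ∀ α β, ((c.ten c).ten c).H e (e13 (Θ α β)) := fun α β => CoA.H.map e13
    (fun n x hx => by rw [tl_j1]; exact hx.inl.inl) (fun n x hx => by rw [tl_j2]; exact hx.inr)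
    (hΘ α β)
  have tri := fun (K : Type) [Field K] (ψ : (C ⊗[A] C) ⊗[A] C →+* K) (hr : Rel 𝒜 ψ) =>
    S.tri h (ψ₁ := ψ.comp e12) (ψ₂ := ψ.comp e23) (ψ₃ := ψ.comp e13) hr
      (RingHom.ext fun x => congrArg ψ (tl_j1 _ _ _ x))
      (RingHom.ext fun x => congrArg ψ (tl_j1 _ _ _ x))
      (RingHom.ext fun x => congrArg ψ ((tl_j2 _ _ _ x).trans (tl_j2 _ _ _ x).symm))
  obtain ⟨M, hM, hM'⟩ := CoA.root (c := (c.ten c).ten c) p (g4_cast_t (g4_cast_t hp)) CoA.hg_bot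
    (u := fun i : ι × κ × ι × κ => e12 (j2 A C C (g i.2.2.1 i.2.1)) * e13 (Θ i.1 i.2.2.2))
    (w := fun i => e12 (Θ i.1 i.2.1) * e23 (Θ i.2.2.1 i.2.2.2))
    (fun i => (S.hom _ _).inr.inl.mul (h13 _ _)) (fun i => (hΘ _ _).inl.mul (h23 _ _))
    fun K _ ψ hr _ => by
      obtain ⟨σa, τa, σb, τb, σd, τd, w, hw, -, f2, -, f4, f5, f6, α, β, γ, δ, hne⟩ := tri K ψ hr
      have f2' : ∀ α β, ψ (e12 (j2 A C C (g α β))) = σb α * τb β := f2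
      simp only [RingHom.comp_apply] at f4 f5 f6
      exact ⟨w, hw, fun i => by simp only [map_mul, f2', f4, f5, f6]; ring, (α, β, γ, δ), by
        simpa only [map_mul, f4, f5] using hne⟩
  refine ⟨M, hM, fun K _ a b d hab hbd had hr => ?_⟩
  let ψ : (C ⊗[A] C) ⊗[A] C →+* K := tl (tl a b hab) d fun x => by
    rw [← j1_alg, tl_j1, had]
  have k12 : ∀ x, ψ (e12 x) = tl a b hab x := tl_j1 _ _ _
  have k23 : ∀ x, (ψ.comp e23) x = tl b d hbd x := tl_ext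
    (fun x => by rw [RingHom.comp_apply, tl_j1, tl_j1, RingHom.comp_apply, k12, tl_j2])
    fun x => by rw [RingHom.comp_apply, tl_j2, tl_j2, tl_j2]
  have k13 : ∀ x, (ψ.comp e13) x = tl a d had x := tl_ext
    (fun x => by rw [RingHom.comp_apply, tl_j1, tl_j1, RingHom.comp_apply, k12, tl_j1])
    fun x => by rw [RingHom.comp_apply, tl_j2, tl_j2, tl_j2]
  have hψ : Rel 𝒜 ψ := hr.imp fun l hl => ⟨hl.1, by
    rw [← j1_alg, ← j1_alg, k12, tl_j1]; exact hl.2⟩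
  obtain ⟨σa, τa, σb, τb, σd, τd, w, hw, f1, f2, f3, f4, f5, f6, α, β, γ, δ, hne⟩ := tri K ψ hψ
  have f2' : ∀ α β, ψ (e12 (j2 A C C (g α β))) = σb α * τb β := f2
  have hwM : w ^ M = 1 := by
    have h1 := hM' K ψ hψ bot_le (α, β, γ, δ)
    simp only [RingHom.comp_apply] at f4 f5 f6
    simp only [map_mul, f2', f4, f5, f6] at h1
    refine mul_right_cancel₀ (pow_ne_zero M hne) ?_
    rw [one_mul, ← mul_pow, ← h1]
    congr 1
    ring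
  have g1 : Fc g a σa τa := fun α β => by
    rw [← f1, RingHom.comp_apply, RingHom.comp_apply, k12, tl_j1]
  have g2 : Fc g b σb τb := fun α β => by rw [← f2', k12, tl_j2]
  have g3 : Fc g d σd τd := fun α β => by rw [← f3, RingHom.comp_apply, k23, tl_j2]
  refine ⟨_, _, _, _, _, _, g1.pow M, g2.pow M, g3.pow M, fun α β => ?_, fun α β => ?_,
    fun α β => ?_⟩
  · rw [map_pow, ← k12, ← mul_pow, ← f4, RingHom.comp_apply]
  · rw [map_pow, ← k23, f5, mul_pow]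
  · rw [map_pow, ← k13, f6, mul_pow, hwM, one_mul, mul_pow]

end

end Pool.Agent.Lib.MP_62d77c_ag.R
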