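import Pool.Agent.Lib.MP_62d77c_ag.R.Mo

/-! Stalks of graded modules. -/

set_option autoImplicit false
set_option linter.unusedSectionVars false
set_option linter.unusedVariables false
set_option linter.style.haveILetI false

namespace Pool.Agent.Lib.MP_62d77c_ag.R

open Filter Polynomial Submodule
open scoped TensorProduct Matrix nonZeroDivisors

noncomputable section

variable {A : Type} [CommRing A] [IsDomain A] {𝒜 : ℕ → AddSubgroup A} [GradedRing 𝒜]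
  [hG : Fact (Gen 𝒜)] {p : ℕ} [Fact p.Prime] {N N' N₁ N₂ N₃ : GM 𝒜}

/-- the value of an element of the local ring -/
def loV (y : Pt 𝒜) : Lo y →+* FractionRing A := (loc y).subtype

theorem loV_inj (y : Pt 𝒜) : Function.Injective (loV y) := Subtype.val_injective

theorem loV_mem (y : Pt 𝒜) (r : Lo y) : loV y r ∈ loc y := Subtype.property (show loc y from r)

theorem loV_alg (y : Pt 𝒜) {n : ℕ} {a : A} (ha : a ∈ 𝒜 n) : loV y (algebraMap A (Lo y) a) =
    algebraMap A (FractionRing A) a / algebraMap A (FractionRing A) (ell y) ^ n := by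
  rw [← map_pow]; exact deh_val y ha

theorem lo_surj (y : Pt 𝒜) (r : Lo y) : ∃ k, ∃ a ∈ 𝒜 k, ∃ s ∈ 𝒜 k, s ∉ pr y ∧
    algebraMap A (Lo y) s * r = algebraMap A (Lo y) a := by
  obtain ⟨k, a, ha, s, hs, h, e⟩ := mem_loc.1 (loV_mem y r)
  refine ⟨k, a, ha, s, hs, h, loV_inj y ?_⟩
  have := md_alg_ne h
  rw [map_mul, loV_alg y ha, loV_alg y hs, e]
  field_simp

theorem lo_unit (y : Pt 𝒜) {k : ℕ} {s : A} (hs : s ∈ 𝒜 k) :
    IsUnit (algebraMap A (Lo y) s) ↔ s ∉ pr y :=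
  snc_unit (z := deh y s) hs (md_pow_mem (ell_spec y).1 k) (md_pow_not_mem (ell_spec y).2 k)
    (deh_val y hs)

theorem lo_inj (y : Pt 𝒜) {k : ℕ} {s : A} (hs : s ∈ 𝒜 k) :
    algebraMap A (Lo y) s = 0 ↔ s = 0 := by
  refine ⟨fun h => ?_, fun h => by rw [h, map_zero]⟩
  have := loV_alg y hs
  rw [h, map_zero, eq_comm, div_eq_zero_iff] at this
  rcases this with h1 | h1
  · exact (FaithfulSMul.algebraMap_eq_zero_iff _ _).1 h1
  · exact absurd h1 (pow_ne_zero _ (md_alg_ne (ell_spec y).2))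

theorem lo_ell (y : Pt 𝒜) : algebraMap A (Lo y) (ell y) = 1 := by
  refine loV_inj y ?_
  rw [loV_alg y (ell_spec y).1, pow_one, map_one, div_self (md_alg_ne (ell_spec y).2)]

theorem st_tmul_smul (y : Pt 𝒜) (r : Lo y) (a : A) (m : N.M) :
    (r ⊗ₜ[A] (a • m) : N.St y) = algebraMap A (Lo y) a • (r ⊗ₜ[A] m : N.St y) := by
  rw [TensorProduct.smul_tmul', smul_eq_mul, ← Algebra.smul_def, TensorProduct.smul_tmul]

theorem st_tmul (y : Pt 𝒜) (r : Lo y) (m : N.M) :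
    (r ⊗ₜ[A] m : N.St y) = r • ((1 : Lo y) ⊗ₜ[A] m : N.St y) := by
  rw [TensorProduct.smul_tmul', smul_eq_mul, mul_one]

theorem st_fin (N : GM 𝒜) (m : N.M) : (Function.support fun n => N.pj n m).Finite := by
  obtain ⟨s, hs⟩ := N.sum_pj m
  refine s.finite_toSet.subset fun n hn => ?_
  by_contra h
  refine hn ?_
  change N.pj n m = 0
  rw [← hs, map_sum]
  exact Finset.sum_eq_zero fun k hk => N.pj_ne (N.pj_mem k m) fun e => h (e ▸ hk)

/-- forms not vanishing at `y` -/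
def stS (y : Pt 𝒜) : Submonoid A where
  carrier := {s | ∃ k, s ∈ 𝒜 k ∧ s ∉ pr y}
  one_mem' := ⟨0, SetLike.one_mem_graded 𝒜, md_one_not_mem y⟩
  mul_mem' := fun ⟨i, h1, h2⟩ ⟨j, h3, h4⟩ =>
    ⟨i + j, SetLike.mul_mem_graded h1 h3, md_mul_not_mem h2 h4⟩

theorem stS_le (y : Pt 𝒜) : stS y ≤ A⁰ := fun s ⟨_, _, h⟩ =>
  mem_nonZeroDivisors_of_ne_zero fun e => h (e ▸ zero_mem _)

theorem st_zero (y : Pt 𝒜) {n : ℤ} {m : N.M} (hm : m ∈ N.g n) :
    ((1 : Lo y) ⊗ₜ[A] m : N.St y) = 0 ↔ N.ZeroEl y m := by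
  refine ⟨fun h => ?_, fun ⟨k, t, ht, h1, h2⟩ => ?_⟩
  swap
  · have := st_tmul_smul y 1 t m
    rw [h2, TensorProduct.tmul_zero] at this
    exact (((lo_unit y ht).2 h1).smul_eq_zero).1 this.symm
  let B := Localization.subalgebra.ofField (FractionRing A) (stS y) (stS_le y)
  have hB : ∀ r : Lo y, loV y r ∈ B := fun r => by
    obtain ⟨k, a, ha, s, hs, h, e⟩ := mem_loc.1 (loV_mem y r)
    exact ⟨a, s, ⟨k, hs, h⟩, by rw [e, div_eq_mul_inv]⟩
  let ι : Lo y →+* B := (loV y).codRestrict B hB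
  let u : Bˣ := (IsLocalization.map_units B (⟨ell y, 1, ell_spec y⟩ : stS y)).unit
  have hu : ∀ {i : ℕ} {a : A}, a ∈ 𝒜 i → ι (algebraMap A (Lo y) a) * ((u ^ i : Bˣ) : B) =
      algebraMap A B a := fun {i a} ha => by
    refine Subtype.ext ?_
    change loV y _ * (((u ^ i : Bˣ) : B) : FractionRing A) = algebraMap A (FractionRing A) a
    rw [loV_alg y ha, Units.val_pow_eq_pow_val, SubmonoidClass.coe_pow]
    exact div_mul_cancel₀ _ (pow_ne_zero _ (md_alg_ne (ell_spec y).2))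
  have fs : ∀ m : N.M, (Function.support fun k : ℤ =>
      (((u ^ (-k) : Bˣ) : B) ⊗ₜ[A] N.pj k m : B ⊗[A] N.M)).Finite := fun m =>
    (st_fin N m).subset fun k hk e => hk (by simp only [e, TensorProduct.tmul_zero])
  let δ : N.M →+ B ⊗[A] N.M :=
    { toFun := fun m => ∑ᶠ k : ℤ, ((u ^ (-k) : Bˣ) : B) ⊗ₜ[A] N.pj k m
      map_zero' := by simp
      map_add' := fun a b => by
        rw [← finsum_add_distrib (fs a) (fs b)]
        simp only [map_add, TensorProduct.tmul_add] }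
  have hδ : ∀ {k : ℤ} {m : N.M}, m ∈ N.g k → δ m = ((u ^ (-k) : Bˣ) : B) ⊗ₜ[A] m :=
    fun {k m} hm => by
      change ∑ᶠ k : ℤ, _ = _
      rw [finsum_eq_single _ k fun l hl => by rw [N.pj_ne hm hl.symm, TensorProduct.tmul_zero],
        N.pj_same hm]
  have hs : ∀ (a : A) (m : N.M), δ (a • m) = ι (algebraMap A (Lo y) a) • δ m := fun a m => by
    induction a using hom_ind (𝒜 := 𝒜) with
    | h0 => simp
    | hadd a b h1 h2 => simp only [add_smul, map_add, h1, h2]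
    | h i a ha =>
      induction m using N.ind with
      | h0 => simp
      | hadd a b h1 h2 => simp only [smul_add, map_add, h1, h2]
      | h k m hm =>
        rw [hδ hm, hδ (N.smul (i := i) (by rwa [Az_nat]) hm), ← TensorProduct.smul_tmul,
          TensorProduct.smul_tmul', smul_eq_mul, Algebra.smul_def, ← hu ha, mul_assoc,
          ← Units.val_mul, ← zpow_natCast, ← zpow_add]
        congr 4
        ring
  let Φ : N.St y →+ B ⊗[A] N.M := TensorProduct.liftAddHom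
    { toFun := fun r => (DistribSMul.toAddMonoidHom _ (ι r)).comp δ
      map_zero' := AddMonoidHom.ext fun m => by
        change ι 0 • δ m = 0
        rw [map_zero, zero_smul]
      map_add' := fun r r' => AddMonoidHom.ext fun m => by
        change ι (r + r') • δ m = ι r • δ m + ι r' • δ m
        rw [map_add, add_smul] } fun a r m => by
      change ι (a • r) • δ m = ι r • δ (a • m)
      rw [hs, Algebra.smul_def, map_mul, mul_comm, mul_smul]
  have h1 : Φ ((1 : Lo y) ⊗ₜ[A] m) = ι 1 • δ m := rfl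
  rw [h, map_zero, map_one, one_smul, hδ hm] at h1
  have h2 : (TensorProduct.mk A B N.M 1) m = 0 := by
    have := congrArg (fun t => ((u ^ n : Bˣ) : B) • t) h1
    simp only [smul_zero, TensorProduct.smul_tmul', smul_eq_mul, ← Units.val_mul, ← zpow_add,
      add_neg_cancel, zpow_zero, Units.val_one] at this
    exact this.symm
  obtain ⟨⟨s, k, h3, h4⟩, h5⟩ := (IsLocalizedModule.eq_zero_iff (stS y) _).1 h2
  exact ⟨k, s, h3, h4, h5⟩

theorem st_surj (y : Pt 𝒜) (ξ : N.St y) : ∃ k : ℕ, ∃ s ∈ 𝒜 k, s ∉ pr y ∧ ∃ m ∈ N.g k,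
    algebraMap A (Lo y) s • ξ = (1 : Lo y) ⊗ₜ[A] m := by
  have h0 : ∃ k : ℕ, ∃ s ∈ 𝒜 k, s ∉ pr y ∧ ∃ m ∈ N.g k,
      algebraMap A (Lo y) s • (0 : N.St y) = (1 : Lo y) ⊗ₜ[A] m :=
    ⟨0, 1, SetLike.one_mem_graded 𝒜, md_one_not_mem y, 0, zero_mem _, by simp⟩
  have hadd : ∀ ξ η : N.St y, (∃ k : ℕ, ∃ s ∈ 𝒜 k, s ∉ pr y ∧ ∃ m ∈ N.g k,
      algebraMap A (Lo y) s • ξ = (1 : Lo y) ⊗ₜ[A] m) → (∃ k : ℕ, ∃ s ∈ 𝒜 k, s ∉ pr y ∧
      ∃ m ∈ N.g k, algebraMap A (Lo y) s • η = (1 : Lo y) ⊗ₜ[A] m) → ∃ k : ℕ, ∃ s ∈ 𝒜 k,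
      s ∉ pr y ∧ ∃ m ∈ N.g k, algebraMap A (Lo y) s • (ξ + η) = (1 : Lo y) ⊗ₜ[A] m := by
    rintro ξ η ⟨k, s, hs, h1, m, hm, e⟩ ⟨k', s', hs', h1', m', hm', e'⟩
    refine ⟨k + k', s * s', SetLike.mul_mem_graded hs hs', md_mul_not_mem h1 h1',
      s' • m + s • m', add_mem ?_ ?_, ?_⟩
    · rw [Nat.cast_add]; exact N.smul (by rwa [Az_nat]) hm
    · rw [Nat.cast_add, add_comm]; exact N.smul (by rwa [Az_nat]) hm'
    · rw [TensorProduct.tmul_add, st_tmul_smul, st_tmul_smul, ← e, ← e', map_mul, smul_add,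
        smul_smul, smul_smul, mul_comm]
  induction ξ using TensorProduct.induction_on with
  | zero => exact h0
  | add ξ η h1 h2 => exact hadd ξ η h1 h2
  | tmul r m =>
    induction m using N.ind with
    | h0 => rw [TensorProduct.tmul_zero]; exact h0
    | hadd a b h1 h2 => rw [TensorProduct.tmul_add]; exact hadd _ _ h1 h2
    | h n m hm =>
      obtain ⟨k, a, ha, s, hs, h1, e⟩ := lo_surj y r
      obtain ⟨i, j, hij⟩ : ∃ i j : ℕ, n + i = j := ⟨(-n).toNat, n.toNat, by omega⟩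
      refine ⟨k + j, s * ell y ^ j, SetLike.mul_mem_graded hs (md_pow_mem (ell_spec y).1 j),
        md_mul_not_mem h1 (md_pow_not_mem (ell_spec y).2 j), (a * ell y ^ i) • m, ?_, ?_⟩
      · have := N.smul (i := (k + i : ℕ)) (a := a * ell y ^ i) (by
          rw [Az_nat]; exact SetLike.mul_mem_graded ha (md_pow_mem (ell_spec y).1 i)) hm
        rwa [show n + ((k + i : ℕ) : ℤ) = ((k + j : ℕ) : ℤ) by push_cast; omega] at this
      · rw [st_tmul_smul, st_tmul y r]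
        simp only [map_mul, map_pow, lo_ell, one_pow, mul_one, smul_smul, e]

theorem st_el_add {y : Pt 𝒜} {a b : N.M} (h1 : N.ZeroEl y a) (h2 : N.ZeroEl y b) :
    N.ZeroEl y (a + b) := by
  obtain ⟨k, t, ht, h3, e⟩ := h1
  obtain ⟨k', t', ht', h3', e'⟩ := h2
  refine ⟨k + k', t * t', SetLike.mul_mem_graded ht ht', md_mul_not_mem h3 h3', ?_⟩
  rw [smul_add, mul_smul t t' b, e', mul_comm, mul_smul, e, smul_zero, smul_zero, add_zero]

theorem st_zeroAt {y : Pt 𝒜} (h : ∀ n, ∀ m ∈ N.g n, N.ZeroEl y m) : N.ZeroAt y := fun m =>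
  N.ind (P := N.ZeroEl y) ⟨0, 1, SetLike.one_mem_graded 𝒜, md_one_not_mem y, smul_zero _⟩
    (fun _ _ => st_el_add) h m

theorem st_subsingleton (y : Pt 𝒜) : Subsingleton (N.St y) ↔ N.ZeroAt y := by
  refine ⟨fun h => st_zeroAt fun n m hm => (st_zero y hm).1 (Subsingleton.elim _ _), fun h => ?_⟩
  refine subsingleton_of_forall_eq 0 fun ξ => ?_
  obtain ⟨k, s, hs, h1, m, hm, e⟩ := st_surj y ξ
  rw [(st_zero y hm).2 (h m)] at e
  exact (((lo_unit y hs).2 h1).smul_eq_zero).1 e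

theorem st_div (y : Pt 𝒜) {M : Type} [AddCommGroup M] [Module (Lo y) M] {k : ℕ} {s : A}
    (hs : s ∈ 𝒜 k) (h : s ∉ pr y) {Z : Submodule (Lo y) M} {ξ : M}
    (e : algebraMap A (Lo y) s • ξ ∈ Z) : ξ ∈ Z :=
  (Z.smul_mem_iff_of_isUnit ((lo_unit y hs).2 h)).1 e

theorem st_exact (y : Pt 𝒜) {d d' : ℤ} {f : N₁.M →ₗ[A] N₂.M} {g : N₂.M →ₗ[A] N₃.M}
    (hf : IsHom N₁ N₂ d f) (hg : IsHom N₂ N₃ d' g) (h : Function.Exact f g) :
    Function.Exact (f.baseChange (Lo y)) (g.baseChange (Lo y)) := by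
  intro ξ
  constructor
  · intro h0
    obtain ⟨k, s, hs, h1, m, hm, e⟩ := st_surj y ξ
    have h2 := congrArg (g.baseChange (Lo y)) e
    rw [map_smul, h0, smul_zero, LinearMap.baseChange_tmul] at h2
    obtain ⟨l, t, ht, h3, h4⟩ := (st_zero y (hg _ _ hm)).1 h2.symm
    obtain ⟨m', hm'⟩ := (h (t • m)).1 (by rw [map_smul, h4])
    refine st_div y hs h1 (Z := LinearMap.range (f.baseChange (Lo y))) (st_div y ht h3 ?_)
    exact ⟨(1 : Lo y) ⊗ₜ[A] m', by rw [LinearMap.baseChange_tmul, hm', st_tmul_smul, e]⟩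
  · rintro ⟨η, rfl⟩
    rw [← LinearMap.comp_apply, ← LinearMap.baseChange_comp, h.linearMap_comp_eq_zero,
      LinearMap.baseChange_zero, LinearMap.zero_apply]

theorem st_inj (y : Pt 𝒜) {d : ℤ} {f : N.M →ₗ[A] N'.M} (hf : IsHom N N' d f)
    (h : Function.Injective f) : Function.Injective (f.baseChange (Lo y)) := by
  refine (injective_iff_map_eq_zero _).2 fun ξ h0 => ?_
  obtain ⟨k, s, hs, h1, m, hm, e⟩ := st_surj y ξ
  have h2 := congrArg (f.baseChange (Lo y)) e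
  rw [map_smul, h0, smul_zero, LinearMap.baseChange_tmul] at h2
  obtain ⟨l, t, ht, h3, h4⟩ := (st_zero y (hf _ _ hm)).1 h2.symm
  rw [(st_zero y hm).2 ⟨l, t, ht, h3, h (by rw [map_smul, h4, map_zero])⟩] at e
  exact (((lo_unit y hs).2 h1).smul_eq_zero).1 e

theorem st_pw (y : Pt 𝒜) (N : GM 𝒜) {β : Type} [Fintype β] (a : β → ℤ) :
    ∃ e : (N.pw a).St y ≃ₗ[Lo y] (β → N.St y),
      ∀ (r : Lo y) (c : β → N.M) (i : β), e (r ⊗ₜ[A] c) i = r ⊗ₜ[A] c i := by
  classical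
  exact ⟨TensorProduct.piRight A (Lo y) (Lo y) fun _ : β => N.M, fun _ _ _ => rfl⟩

theorem st_mact (y : Pt 𝒜) (N : GM 𝒜) {β γ : Type} [Fintype β] [Fintype γ] {a : β → ℤ}
    {a' : γ → ℤ} (D : Matrix β γ A) {e : (N.pw a).St y ≃ₗ[Lo y] (β → N.St y)}
    {e' : (N.pw a').St y ≃ₗ[Lo y] (γ → N.St y)}
    (he : ∀ (r : Lo y) (c : β → N.M) (i : β), e (r ⊗ₜ[A] c) i = r ⊗ₜ[A] c i)
    (he' : ∀ (r : Lo y) (c : γ → N.M) (i : γ), e' (r ⊗ₜ[A] c) i = r ⊗ₜ[A] c i)
    (ξ : (N.pw a').St y) :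
    e ((show (N.pw a').M →ₗ[A] (N.pw a).M from mact N.M D).baseChange (Lo y) ξ) =
      mact (N.St y) (D.map (algebraMap A (Lo y))) (e' ξ) := by
  induction ξ using TensorProduct.induction_on with
  | zero => simp only [map_zero]
  | add ξ η h1 h2 => simp only [map_add, h1, h2]
  | tmul r c =>
    funext i
    rw [LinearMap.baseChange_tmul, he, mact_apply]
    change r ⊗ₜ[A] (∑ j, D i j • c j) = _
    rw [TensorProduct.tmul_sum]
    exact Finset.sum_congr rfl fun j _ => by rw [he', st_tmul_smul, Matrix.map_apply]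

theorem st_hom_mact (N : GM 𝒜) {β γ : Type} [Fintype β] [Fintype γ] {a : β → ℤ} {a' : γ → ℤ}
    {d : ℤ} {D : Matrix β γ A} (hD : ∀ i j, D i j ∈ Az 𝒜 (a' j - a i + d)) :
    IsHom (N.pw a') (N.pw a) d (mact N.M D) := fun n c hc => N.mem_pw.2 fun i => by
  change ∑ j, D i j • (show γ → N.M from c) j ∈ _
  refine sum_mem fun j _ => ?_
  have := N.smul (hD i j) (N.mem_pw.1 hc j)
  rwa [show n - a' j + (a' j - a i + d) = n + d - a i by ring] at this

/-- clearing denominators in a vector -/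
theorem lo_vec (y : Pt 𝒜) {β : Type} [Fintype β] (a : β → ℤ) (v : β → Lo y) :
    ∃ k : ℕ, ∃ s ∈ 𝒜 k, s ∉ pr y ∧ ∃ c : β → A, (∀ i, c i ∈ Az 𝒜 (k - a i)) ∧
      algebraMap A (Lo y) s • v = fun i => algebraMap A (Lo y) (c i) := by
  obtain ⟨e, he⟩ := st_pw y (one 𝒜) a
  obtain ⟨k, s, hs, h1, c, hc, h2⟩ := st_surj y (e.symm fun i => v i ⊗ₜ[A] (1 : A))
  refine ⟨k, s, hs, h1, c, (one 𝒜).mem_pw.1 hc, funext fun i => ?_⟩
  have h3 := congrFun (congrArg e h2) i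
  rw [map_smul, e.apply_symm_apply, he] at h3
  have h5 : algebraMap A (Lo y) s • (v i ⊗ₜ[A] (1 : A) : Lo y ⊗[A] A) =
      (1 : Lo y) ⊗ₜ[A] (show β → A from c) i := h3
  have h4 := congrArg (TensorProduct.AlgebraTensorModule.rid A (Lo y) (Lo y)) h5
  rw [map_smul] at h4
  simpa [Algebra.smul_def] using h4

theorem lo_inj' (y : Pt 𝒜) {k : ℤ} {s : A} (hs : s ∈ Az 𝒜 k)
    (h : algebraMap A (Lo y) s = 0) : s = 0 := by
  rcases Az_cases hs with h1 | ⟨l, -, h1⟩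
  · exact h1
  · exact (lo_inj y h1).1 h

theorem lo_mact (y : Pt 𝒜) {β γ : Type} [Fintype γ] (D : Matrix β γ A) (c : γ → A) :
    mact (Lo y) (D.map (algebraMap A (Lo y))) (fun i => algebraMap A (Lo y) (c i)) =
      fun i => algebraMap A (Lo y) (mact A D c i) := funext fun i => by
  simp [mact_apply]

theorem mact_comp_map {R S : Type} [CommRing R] [CommRing S] (φ : R →+* S) {M : Type}
    [AddCommGroup M] [Module S M] {α β γ : Type} [Fintype β] [Fintype γ] {D : Matrix α β R}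
    {D' : Matrix β γ R} (h : D * D' = 0) (v : γ → M) :
    mact M (D.map φ) (mact M (D'.map φ) v) = 0 := funext fun i => by
  simp only [mact_apply, Matrix.map_apply, Finset.smul_sum, smul_smul, ← map_mul, Pi.zero_apply]
  rw [Finset.sum_comm]
  refine Finset.sum_eq_zero fun j _ => ?_
  rw [← Finset.sum_smul, ← map_sum, ← Matrix.mul_apply, h, Matrix.zero_apply, map_zero, zero_smul]

theorem st_DD (R : Res N) (q : ℕ) : R.D q * R.D (q + 1) = 0 := by
  classical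
  ext i j
  have := congrFun ((R.ex q).apply_apply_eq_zero (Pi.single j 1)) i
  simpa [mact_apply, Matrix.mul_apply, Pi.single_apply] using this

/-- the localised resolution is exact -/
theorem st_res (y : Pt 𝒜) (R : Res N) :
    Function.Surjective (Fintype.linearCombination (Lo y)
      fun i => ((1 : Lo y) ⊗ₜ[A] R.gen i : N.St y)) ∧
    Function.Exact (mact (Lo y) ((R.D 0).map (algebraMap A (Lo y))))
      (Fintype.linearCombination (Lo y) fun i => ((1 : Lo y) ⊗ₜ[A] R.gen i : N.St y)) ∧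
    ∀ q, Function.Exact (mact (Lo y) ((R.D (q + 1)).map (algebraMap A (Lo y))))
      (mact (Lo y) ((R.D q).map (algebraMap A (Lo y)))) := by
  have key : ∀ c : Fin (R.b 0) → A, Fintype.linearCombination (Lo y)
      (fun i => ((1 : Lo y) ⊗ₜ[A] R.gen i : N.St y)) (fun i => algebraMap A (Lo y) (c i)) =
      (1 : Lo y) ⊗ₜ[A] Fintype.linearCombination A R.gen c := fun c => by
    simp only [Fintype.linearCombination_apply, TensorProduct.tmul_sum, st_tmul_smul]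
  refine ⟨fun ξ => ?_, fun v => ⟨fun h0 => ?_, ?_⟩, fun q v => ⟨fun h0 => ?_, ?_⟩⟩
  · obtain ⟨k, s, hs, h1, m, -, e⟩ := st_surj y ξ
    obtain ⟨c, rfl⟩ := R.surj m
    exact st_div y hs h1 (Z := LinearMap.range _) ⟨_, (key c).trans e.symm⟩
  · obtain ⟨k, s, hs, h1, c, hc, e⟩ := lo_vec y (R.a 0) v
    have h2 := key c
    rw [← e, map_smul, h0, smul_zero] at h2
    have h3 : Fintype.linearCombination A R.gen c ∈ N.g k := by
      rw [Fintype.linearCombination_apply]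
      refine sum_mem fun i _ => ?_
      have := N.smul (hc i) (R.hgen i)
      rwa [add_sub_cancel] at this
    obtain ⟨l, t, ht, h4, h5⟩ := (st_zero y h3).1 h2.symm
    obtain ⟨c', hc'⟩ := (R.ex0 (t • c)).1 (by rw [map_smul, h5])
    refine st_div y hs h1 (Z := LinearMap.range _) (st_div y ht h4 ⟨_, (lo_mact y _ c').trans ?_⟩)
    rw [hc', e]
    funext i
    simp
  · rintro ⟨w, rfl⟩
    obtain ⟨k, s, hs, h1, c, hc, e⟩ := lo_vec y (R.a 1) w
    refine (((lo_unit y hs).2 h1).smul_eq_zero).1 ?_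
    rw [← map_smul, ← map_smul, e, lo_mact, key, R.ex0.apply_apply_eq_zero,
      TensorProduct.tmul_zero]
  · obtain ⟨k, s, hs, h1, c, hc, e⟩ := lo_vec y (R.a (q + 1)) v
    have h2 := lo_mact y (R.D q) c
    rw [← e, map_smul, h0, smul_zero] at h2
    have h3 := st_hom_mact (one 𝒜) (a := R.a q) (a' := R.a (q + 1)) (d := 0) (D := R.D q)
      (fun i j => by rw [add_zero]; exact R.hD q i j) k c ((one 𝒜).mem_pw.2 hc)
    obtain ⟨c', hc'⟩ := (R.ex q c).1 (funext fun i =>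
      lo_inj' y ((one 𝒜).mem_pw.1 h3 i) (congrFun h2 i).symm)
    refine st_div y hs h1 (Z := LinearMap.range _) ⟨_, (lo_mact y _ c').trans ?_⟩
    rw [hc', e]
  · rintro ⟨w, rfl⟩
    exact mact_comp_map _ (st_DD R q) w

theorem st_pj {d : ℤ} {f : N.M →ₗ[A] N'.M} (hf : IsHom N N' d f) (n : ℤ) (m : N.M) :
    N'.pj (n + d) (f m) = f (N.pj n m) := by
  induction m using N.ind with
  | h0 => simp
  | hadd a b h1 h2 => simp only [map_add, h1, h2]
  | h k m hm =>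
    by_cases e : k = n
    · subst e; rw [N.pj_same hm, N'.pj_same (hf _ _ hm)]
    · rw [N.pj_ne hm e, N'.pj_ne (hf _ _ hm) (by omega), map_zero]

theorem st_hg_ker {d : ℤ} {f : N.M →ₗ[A] N'.M} (hf : IsHom N N' d f) :
    N.Hg (LinearMap.ker f) := fun n m hm => by
  rw [LinearMap.mem_ker, ← st_pj hf, LinearMap.mem_ker.1 hm, map_zero]

theorem st_hg_range {d : ℤ} {f : N.M →ₗ[A] N'.M} (hf : IsHom N N' d f) :
    N'.Hg (LinearMap.range f) := by
  rintro n _ ⟨m, rfl⟩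
  exact ⟨N.pj (n - d) m, by rw [← st_pj hf, sub_add_cancel]⟩

/-- stalk of the homology of a complex -/
theorem st_sq (y : Pt 𝒜) {d d' : ℤ} {f : N₁.M →ₗ[A] N₂.M} {g : N₂.M →ₗ[A] N₃.M}
    (hf : IsHom N₁ N₂ d f) (hg : IsHom N₂ N₃ d' g) (h : ∀ m, g (f m) = 0) :
    ∃ φ : LinearMap.ker (g.baseChange (Lo y)) →ₗ[Lo y]
      (N₂.sq (LinearMap.ker g) (LinearMap.range f)).St y, Function.Surjective φ ∧
      ∀ v, φ v = 0 ↔ v.1 ∈ LinearMap.range (f.baseChange (Lo y)) := by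
  have hZ := N₂.core_eq (st_hg_ker hg)
  let P := N₂.sub (LinearMap.ker g)
  let ι : P.M →ₗ[A] N₂.M := (N₂.core (LinearMap.ker g)).subtype
  have hι : IsHom P N₂ 0 ι := fun n m hm => by rw [add_zero]; exact hm
  have i1 := st_inj y hι Subtype.val_injective
  have e1 : Function.Exact ι g := fun m =>
    ⟨fun h0 => ⟨⟨m, by rw [hZ]; exact h0⟩, rfl⟩, by
      rintro ⟨z, rfl⟩; exact N₂.core_le _ z.2⟩
  have x1 := st_exact y hι hg e1
  let f' : N₁.M →ₗ[A] P.M := f.codRestrict _ fun m => by rw [hZ]; exact h m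
  have hf' : IsHom N₁ P d f' := fun n m hm => hf n m hm
  have hr : LinearMap.range f' = (LinearMap.range f).comap ι := by
    ext z
    exact ⟨fun ⟨m, hm⟩ => ⟨m, congrArg Subtype.val hm⟩, fun ⟨m, hm⟩ => ⟨m, Subtype.ext hm⟩⟩
  let π : P.M →ₗ[A] (N₂.sq (LinearMap.ker g) (LinearMap.range f)).M :=
    (P.core ((LinearMap.range f).comap ι)).mkQ
  have hπ : IsHom P (N₂.sq (LinearMap.ker g) (LinearMap.range f)) 0 π := fun n m hm => by
    rw [add_zero]; exact ⟨m, hm, rfl⟩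
  have e2 : Function.Exact f' π := fun z => by
    refine (Submodule.Quotient.mk_eq_zero _).trans ?_
    rw [← hr, P.core_eq (st_hg_range hf')]
    rfl
  have x2 := st_exact y hf' hπ e2
  let ε : P.St y ≃ₗ[Lo y] LinearMap.ker (g.baseChange (Lo y)) :=
    (LinearEquiv.ofInjective _ i1).trans (LinearEquiv.ofEq _ _ x1.linearMap_ker_eq.symm)
  have hε : ∀ ξ, (ε ξ).1 = ι.baseChange (Lo y) ξ := fun _ => rfl
  have hc : ∀ η, ι.baseChange (Lo y) (f'.baseChange (Lo y) η) = f.baseChange (Lo y) η :=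
    fun η => by rw [← LinearMap.comp_apply, ← LinearMap.baseChange_comp]; rfl
  refine ⟨π.baseChange (Lo y) ∘ₗ ε.symm.toLinearMap, ?_, fun v => ?_⟩
  · exact (LinearMap.baseChange_surjective (Lo y) (Submodule.mkQ_surjective _)).comp
      ε.symm.surjective
  · obtain ⟨ξ, rfl⟩ := ε.surjective v
    rw [LinearMap.comp_apply, LinearEquiv.coe_coe, ε.symm_apply_apply, x2 ξ, hε]
    exact ⟨fun ⟨η, e⟩ => ⟨η, by rw [← e, hc]⟩, fun ⟨η, e⟩ => ⟨η, i1 (by rw [hc, e])⟩⟩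

theorem st_hom_tr (R : Res N) (N' : GM 𝒜) (q : ℕ) :
    IsHom (N'.pw (-R.a q)) (N'.pw (-R.a (q + 1))) 0 (mact N'.M (R.D q)ᵀ) :=
  st_hom_mact N' fun i j => by
    have := R.hD q j i
    rwa [show R.a (q + 1) i - R.a q j = (-R.a q) j - (-R.a (q + 1)) i + 0 by
      simp only [Pi.neg_apply]; ring] at this

/-- stalk of Ext -/
theorem st_ext (y : Pt 𝒜) (R : Res N) (N' : GM 𝒜) (q : ℕ) :
    ∃ φ : LinearMap.ker (mact (N'.St y) ((R.D (q + 1)).map (algebraMap A (Lo y)))ᵀ) →ₗ[Lo y]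
      (R.Ext N' (q + 1)).St y, Function.Surjective φ ∧ ∀ v, φ v = 0 ↔
        v.1 ∈ LinearMap.range (mact (N'.St y) ((R.D q).map (algebraMap A (Lo y)))ᵀ) := by
  obtain ⟨e0, h0⟩ := st_pw y N' (-R.a q)
  obtain ⟨e1, h1⟩ := st_pw y N' (-R.a (q + 1))
  obtain ⟨e2, h2⟩ := st_pw y N' (-R.a (q + 1 + 1))
  obtain ⟨φ, s1, s2⟩ := st_sq y (st_hom_tr R N' q) (st_hom_tr R N' (q + 1)) fun v => by
    have := mact_comp_map (RingHom.id A) (D := (R.D (q + 1))ᵀ) (D' := (R.D q)ᵀ)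
      (by rw [← Matrix.transpose_mul, st_DD, Matrix.transpose_zero]) v
    exact this
  have c1 := st_mact y N' (R.D q)ᵀ h1 h0
  have c2 := st_mact y N' (R.D (q + 1))ᵀ h2 h1
  rw [Matrix.transpose_map] at c1 c2
  let ψ : LinearMap.ker (mact (N'.St y) ((R.D (q + 1)).map (algebraMap A (Lo y)))ᵀ) →ₗ[Lo y] _ :=
    (e1.symm.toLinearMap ∘ₗ Submodule.subtype _).codRestrict
      (LinearMap.ker ((show (N'.pw (-R.a (q + 1))).M →ₗ[A] (N'.pw (-R.a (q + 1 + 1))).M from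
        mact N'.M (R.D (q + 1))ᵀ).baseChange (Lo y))) fun v => e2.injective (by
          rw [c2, map_zero]
          exact (congrArg _ (e1.apply_symm_apply v.1)).trans v.2)
  have hψ : ∀ v, (ψ v).1 = e1.symm v.1 := fun _ => rfl
  refine ⟨φ ∘ₗ ψ, s1.comp fun w => ⟨⟨e1 w.1, ?_⟩, Subtype.ext (e1.symm_apply_apply _)⟩,
    fun v => (s2 (ψ v)).trans ⟨fun ⟨η, e⟩ => ⟨e0 η, ?_⟩, fun ⟨η, e⟩ => ⟨e0.symm η, ?_⟩⟩⟩
  · rw [LinearMap.mem_ker, ← c2, LinearMap.mem_ker.1 w.2, map_zero]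
  · rw [← c1, e, hψ, e1.apply_symm_apply]
  · refine e1.injective ?_
    rw [c1, e0.apply_symm_apply, e, hψ, e1.apply_symm_apply]

end

end Pool.Agent.Lib.MP_62d77c_ag.R
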