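import Pool.Agent.Lib.MP_62d77c_ag.R.GB
import Pool.Agent.Lib.MP_62d77c_ag.R.St1

/-! Local descent: tools. -/

set_option autoImplicit false
set_option linter.unusedSectionVars false

namespace Pool.Agent.Lib.MP_62d77c_ag.R

open Polynomial
open scoped TensorProduct

noncomputable section

theorem gc_semi {B C ι κ : Type} [CommRing B] [IsLocalRing B] [CommRing C] [Algebra B C]
    [Module.Finite B C] [Fintype ι] [Fintype κ] (g : ι → κ → C)
    (h : ∀ M : Ideal C, M.IsMaximal → ∃ α β, g α β ∉ M) :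
    ∃ (x : ι → C) (y : κ → C), IsUnit (∑ α, ∑ β, x α * y β * g α β) := by
  classical
  have hfin : {M : Ideal C | M.IsMaximal}.Finite :=
    (Algebra.QuasiFinite.finite_primesOver (S := C) (IsLocalRing.maximalIdeal B)).subset
      fun M (hM : M.IsMaximal) => ⟨hM.isPrime, ⟨(g4_map_max_le M).symm⟩⟩
  let Z := {M : Ideal C // M.IsMaximal}
  have : Fintype Z := hfin.fintype
  choose α β hg using fun M : Z => h M.1 M.2
  have he : ∀ M : Z, ∃ e, e ∉ M.1 ∧ ∀ M' : Z, M' ≠ M → e ∈ M'.1 := fun M => by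
    have h1 : ¬(Finset.univ.erase M).inf (fun M' : Z => M'.1) ≤ M.1 := fun hle => by
      obtain ⟨M', h2, h3⟩ := M.2.isPrime.inf_le'.1 hle
      exact (Finset.mem_erase.1 h2).1 (Subtype.ext (M'.2.eq_of_le M.2.ne_top h3))
    obtain ⟨e, h2, h3⟩ := SetLike.not_le_iff_exists.1 h1
    exact ⟨e, h3, fun M' hM' => (Finset.inf_le (f := fun M' : Z => M'.1)
      (Finset.mem_erase.2 ⟨hM', Finset.mem_univ _⟩)) h2⟩
  choose e he1 he2 using he
  refine ⟨fun a => ∑ M with α M = a, e M, fun b => ∑ M with β M = b, e M, ?_⟩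
  by_contra hu
  obtain ⟨M₀, hM₀, hle⟩ := Ideal.exists_le_maximal (Ideal.span {_})
    (fun h' => hu (Ideal.span_singleton_eq_top.1 h'))
  have h0 := Ideal.Quotient.eq_zero_iff_mem.2 (hle (Ideal.mem_span_singleton_self _))
  let M : Z := ⟨M₀, hM₀⟩
  have h2 : ∀ {γ : Type} [DecidableEq γ] (f : Z → γ) (a : γ),
      Ideal.Quotient.mk M₀ (∑ M' with f M' = a, e M') =
        if f M = a then Ideal.Quotient.mk M₀ (e M) else 0 := by
    intro γ _ f a
    rw [map_sum, Finset.sum_filter, Finset.sum_eq_single M]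
    · intro b _ hne
      rw [Ideal.Quotient.eq_zero_iff_mem.2 (he2 b M hne.symm), ite_self]
    · exact fun hn => absurd (Finset.mem_univ _) hn
  simp only [map_sum _ _ Finset.univ, map_mul, h2 α, h2 β, ite_mul, zero_mul, mul_ite, mul_zero,
    Finset.sum_ite_eq, Finset.mem_univ, if_true] at h0
  rw [← map_mul, ← map_mul, Ideal.Quotient.eq_zero_iff_mem] at h0
  rcases hM₀.isPrime.mem_or_mem h0 with h3 | h3
  · exact he1 M ((hM₀.isPrime.mem_or_mem h3).elim id id)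
  · exact hg M h3

variable {A : Type} [CommRing A] [IsDomain A] {𝒜 : ℕ → AddSubgroup A} [GradedRing 𝒜]
  [hG : Fact (Gen 𝒜)]

theorem gc_lift (y : Pt 𝒜) {K : Type} [Field K] (θ : A →+* K)
    (h : ∀ n, ∀ s ∈ 𝒜 n, s ∉ pr y → θ s ≠ 0) (h1 : θ (ell y) = 1) :
    ∃ χ : Lo y →+* K, ∀ a, χ (algebraMap A (Lo y) a) = θ a := by
  have key : ∀ r : Lo y, ∃ w : K, ∀ k a s, a ∈ 𝒜 k → s ∈ 𝒜 k → s ∉ pr y →
      algebraMap A (Lo y) s * r = algebraMap A (Lo y) a → w = θ a / θ s := by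
    intro r
    obtain ⟨k, a, ha, s, hs, hs', e⟩ := lo_surj y r
    refine ⟨θ a / θ s, fun k' a' s' ha' hs1 hs2 e' => ?_⟩
    have h2 : a * s' - s * a' = 0 := (lo_inj y (sub_mem (SetLike.mul_mem_graded ha hs1)
      (SetLike.mul_mem_graded hs ha'))).1 (by rw [map_sub, map_mul, map_mul, ← e, ← e']; ring)
    rw [div_eq_div_iff (h _ _ hs hs') (h _ _ hs1 hs2), ← map_mul, ← map_mul, sub_eq_zero.1 h2,
      mul_comm]
  choose f hf using key
  have o := SetLike.one_mem_graded 𝒜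
  let χ : Lo y →+* K :=
    { toFun := f
      map_one' := (hf 1 0 1 1 o o (md_one_not_mem _) (by simp)).trans (by simp)
      map_zero' := (hf 0 0 0 1 (zero_mem _) o (md_one_not_mem _) (by simp)).trans (by simp)
      map_mul' := fun z w => by
        obtain ⟨n, a, ha, b, hb, g, e⟩ := lo_surj y z
        obtain ⟨m, c, hc, d, hd, g', e'⟩ := lo_surj y w
        rw [hf z n a b ha hb g e, hf w m c d hc hd g' e', hf (z * w) (n + m) (a * c) (b * d)
          (SetLike.mul_mem_graded ha hc) (SetLike.mul_mem_graded hb hd) (md_mul_not_mem g g')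
          (by rw [map_mul, map_mul, ← e, ← e']; ring), map_mul, map_mul, div_mul_div_comm]
      map_add' := fun z w => by
        obtain ⟨n, a, ha, b, hb, g, e⟩ := lo_surj y z
        obtain ⟨m, c, hc, d, hd, g', e'⟩ := lo_surj y w
        rw [hf z n a b ha hb g e, hf w m c d hc hd g' e', hf (z + w) (n + m) (a * d + b * c) (b * d)
          (add_mem (SetLike.mul_mem_graded ha hd) (SetLike.mul_mem_graded hb hc))
          (SetLike.mul_mem_graded hb hd) (md_mul_not_mem g g')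
          (by rw [map_add, map_mul, map_mul, map_mul, ← e, ← e']; ring),
          div_add_div _ _ (h _ _ hb g) (h _ _ hd g'), map_add, map_mul, map_mul, map_mul] }
  refine ⟨χ, fun a => ?_⟩
  induction a using hom_ind (𝒜 := 𝒜) with
  | h0 => simp
  | hadd x y hx hy => simp only [map_add, hx, hy]
  | h n a ha =>
    refine (hf _ n a (ell y ^ n) ha (md_pow_mem (ell_spec y).1 n)
      (md_pow_not_mem (ell_spec y).2 n) (by rw [map_pow, lo_ell, one_pow, one_mul])).trans ?_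
    rw [map_pow, h1, one_pow, div_one]

variable {R : Type} [CommRing R] [Algebra A R]

/-- a point all of whose forms outside `y` are invertible can be rescaled into the stalk -/
theorem gc_norm (c : CoA 𝒜 R) (y : Pt 𝒜) {K : Type} [Field K] (φ : R →+* K)
    (h : ∀ n, ∀ s ∈ 𝒜 n, s ∉ pr y → φ (algebraMap A R s) ≠ 0) :
    ∃ (t : K) (χ : Lo y →+* K), t ≠ 0 ∧
      ∀ a, χ (algebraMap A (Lo y) a) = c.sc t φ (algebraMap A R a) := by
  have h0 := h 1 _ (ell_spec y).1 (ell_spec y).2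
  obtain ⟨χ, hχ⟩ := gc_lift y ((c.sc (φ (algebraMap A R (ell y)))⁻¹ φ).comp (algebraMap A R))
    (fun n s hs hs' => by
      rw [RingHom.comp_apply, CoA.sc_H _ _ (CoA.H.alg hs)]
      exact mul_ne_zero (h n s hs hs') (pow_ne_zero _ (inv_ne_zero h0)))
    (by rw [RingHom.comp_apply, CoA.sc_H _ _ (CoA.H.alg (ell_spec y).1), pow_one,
      mul_inv_cancel₀ h0])
  exact ⟨_, χ, inv_ne_zero h0, hχ⟩

/-- an identity that holds on the stalk holds on a neighbourhood -/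
theorem gc_spread [Module.Finite A R] (c : CoA 𝒜 R) (y : Pt 𝒜) :
    ∃ k, ∃ h ∈ 𝒜 k, h ∉ pr y ∧ ∀ n E, c.H n E →
      (∀ (K : Type) [Field K] (ψ : R →+* K) (χ : Lo y →+* K),
        (∀ a, χ (algebraMap A (Lo y) a) = ψ (algebraMap A R a)) → ψ E = 0) →
      ∀ (K : Type) [Field K] (ψ : R →+* K), ψ (algebraMap A R h) * ψ E = 0 := by
  classical
  have := noeth_of_gen 𝒜
  have : IsNoetherianRing R := isNoetherian_of_tower A inferInstance
  have key : ∀ Q : Ideal R, ∃ k, ∃ h ∈ 𝒜 k, h ∉ pr y ∧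
      ((∃ k, ∃ h ∈ 𝒜 k, h ∉ pr y ∧ algebraMap A R h ∈ Q) → algebraMap A R h ∈ Q) := fun Q => by
    by_cases hQ : ∃ k, ∃ h ∈ 𝒜 k, h ∉ pr y ∧ algebraMap A R h ∈ Q
    · obtain ⟨k, h, h1, h2, h3⟩ := hQ
      exact ⟨k, h, h1, h2, fun _ => h3⟩
    · exact ⟨0, 1, SetLike.one_mem_graded 𝒜, md_one_not_mem y, fun h => absurd h hQ⟩
  choose k h h1 h2 h3 using key
  have hfin := minimalPrimes.finite_of_isNoetherianRing R
  refine ⟨∑ Q ∈ hfin.toFinset, k Q, ∏ Q ∈ hfin.toFinset, h Q,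
    SetLike.prod_mem_graded 𝒜 _ _ fun Q _ => h1 Q, glue_prod_not _ fun Q _ => h2 Q,
    fun n E hE H K _ ψ => ?_⟩
  have := RingHom.ker_isPrime ψ
  obtain ⟨Q, hQ, hle⟩ := Ideal.exists_minimalPrimes_le (bot_le : ⊥ ≤ RingHom.ker ψ)
  by_cases hq : ∃ k, ∃ h ∈ 𝒜 k, h ∉ pr y ∧ algebraMap A R h ∈ Q
  · obtain ⟨z, hz⟩ := Finset.dvd_prod_of_mem h (hfin.mem_toFinset.2 hQ)
    rw [hz, map_mul, map_mul, RingHom.mem_ker.1 (hle (h3 Q hq)), zero_mul, zero_mul]
  · have := hQ.1.1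
    let φ : R →+* Q.ResidueField := algebraMap _ _
    have hk : ∀ x, φ x = 0 ↔ x ∈ Q := fun x => Ideal.algebraMap_residueField_eq_zero
    obtain ⟨t, χ, ht, hχ⟩ := gc_norm c y φ fun n s hs hs' e => hq ⟨n, s, hs, hs', (hk _).1 e⟩
    have h4 := H _ _ χ hχ
    rw [CoA.sc_H _ _ hE, mul_eq_zero] at h4
    rw [RingHom.mem_ker.1 (hle ((hk _).1 (h4.resolve_right (pow_ne_zero _ ht)))), mul_zero]

theorem gc_j2 (y : Pt 𝒜) (a : A) : j2 A (Lo y) R (algebraMap A R a) =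
    algebraMap (Lo y) (Lo y ⊗[A] R) (algebraMap A (Lo y) a) := j2_alg a

theorem gc_surj1 (c : CoA 𝒜 R) (y : Pt 𝒜) (ξ : Lo y ⊗[A] R) : ∃ k, ∃ s ∈ 𝒜 k, s ∉ pr y ∧
    ∃ x, c.H k x ∧ j2 A (Lo y) R (algebraMap A R s) * ξ = j2 A (Lo y) R x := by
  let P := fun ξ : Lo y ⊗[A] R => ∃ k, ∃ s ∈ 𝒜 k, s ∉ pr y ∧
    ∃ x, c.H k x ∧ j2 A (Lo y) R (algebraMap A R s) * ξ = j2 A (Lo y) R x
  have h0 : P 0 := ⟨0, 1, SetLike.one_mem_graded 𝒜, md_one_not_mem y, 0, CoA.H.zero 0, by simp⟩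
  have hadd : ∀ a b, P a → P b → P (a + b) := by
    rintro a b ⟨k, s, h1, h2, x, h3, h4⟩ ⟨k', s', h1', h2', x', h3', h4'⟩
    refine ⟨k + k', s * s', SetLike.mul_mem_graded h1 h1', md_mul_not_mem h2 h2',
      x * algebraMap A R s' + algebraMap A R s * x',
      (h3.mul (CoA.H.alg h1')).add ((CoA.H.alg h1).mul h3'), ?_⟩
    simp only [map_mul, map_add, ← h4, ← h4']
    ring
  show P ξ
  induction ξ with
  | zero => exact h0
  | add a b ha hb => exact hadd a b ha hb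
  | tmul r x =>
    induction x using c.ind' with
    | h0 => rwa [TensorProduct.tmul_zero]
    | hadd x x' hx hx' => rw [TensorProduct.tmul_add]; exact hadd _ _ hx hx'
    | h n x hx =>
      obtain ⟨k, a, ha, s, hs, hs', e⟩ := lo_surj y r
      refine ⟨k + n, s * ell y ^ n, SetLike.mul_mem_graded hs (md_pow_mem (ell_spec y).1 n),
        md_mul_not_mem hs' (md_pow_not_mem (ell_spec y).2 n), algebraMap A R a * x,
        (CoA.H.alg ha).mul hx, ?_⟩
      rw [map_mul _ _ x, gc_j2, gc_j2, map_mul, map_pow, lo_ell, one_pow, mul_one, ← e, map_mul,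
        ← j1_mul_j2, mul_assoc]
      rfl

theorem gc_surj (c : CoA 𝒜 R) (y : Pt 𝒜) {ι : Type} [Fintype ι] (ξ : ι → Lo y ⊗[A] R) :
    ∃ k, ∃ s ∈ 𝒜 k, s ∉ pr y ∧ ∃ x : ι → R, ∀ i, c.H k (x i) ∧
      j2 A (Lo y) R (algebraMap A R s) * ξ i = j2 A (Lo y) R (x i) := by
  classical
  choose k s h1 h2 x h3 h4 using fun i => gc_surj1 c y (ξ i)
  refine ⟨∑ i, k i, ∏ i, s i, SetLike.prod_mem_graded 𝒜 _ _ fun i _ => h1 i,
    glue_prod_not _ fun i _ => h2 i,
    fun i => x i * algebraMap A R (∏ j ∈ Finset.univ.erase i, s j), fun i => ⟨?_, ?_⟩⟩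
  · exact ((h3 i).mul (CoA.H.alg (SetLike.prod_mem_graded 𝒜 _ _ fun j _ => h1 j))).cast
      (Finset.add_sum_erase _ _ (Finset.mem_univ i))
  · rw [← Finset.mul_prod_erase _ _ (Finset.mem_univ i), map_mul, map_mul, map_mul, ← h4]
    ring

theorem gc_unit (y : Pt 𝒜) {k : ℕ} {s : A} (hs : s ∈ 𝒜 k) (h : s ∉ pr y) :
    IsUnit (j2 A (Lo y) R (algebraMap A R s)) := by
  rw [gc_j2]
  exact ((lo_unit y hs).2 h).map _

theorem gc_rel (y : Pt 𝒜) {K : Type} [Field K] (a : Lo y ⊗[A] R →+* K) :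
    Rel 𝒜 (a.comp (j2 A (Lo y) R)) :=
  ⟨ell y, (ell_spec y).1, ((gc_unit y (ell_spec y).1 (ell_spec y).2).map a).ne_zero⟩

/-- a section of a power of the line bundle -/
structure Sec (c : CoA 𝒜 R) (ι : Type) where
  u : R
  x : ι → R
  du : ℕ
  dx : ℕ
  hu : c.H du u
  hx : ∀ α, c.H dx (x α)

namespace Sec

variable {c : CoA 𝒜 R} {ι κ : Type} [Fintype ι] [Fintype κ]

/-- value -/
def val (s : Sec c ι) (q : ℕ) {K : Type} [CommRing K] (a : R →+* K) (σ : ι → K) : K :=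
  a s.u * (∑ α, a (s.x α) * σ α) ^ q

/-- degree -/
def deg (s : Sec c ι) (q : ℕ) : ℕ := s.du + q * s.dx

/-- power -/
def pw (s : Sec c ι) (k : ℕ) : Sec c ι := ⟨s.u ^ k, s.x, k * s.du, s.dx, s.hu.pow k, s.hx⟩

/-- product with a form -/
def pad (s : Sec c ι) {n : ℕ} {h : A} (hh : h ∈ 𝒜 n) : Sec c ι :=
  ⟨algebraMap A R h * s.u, s.x, n + s.du, s.dx, (CoA.H.alg hh).mul s.hu, s.hx⟩

/-- product of a section and a section of the dual -/
def pr (s : Sec c ι) (t : Sec c κ) (g : ι → κ → R) (q : ℕ) : R :=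
  s.u * t.u * (∑ α, ∑ β, s.x α * t.x β * g α β) ^ q

theorem val_pw (s : Sec c ι) (q k : ℕ) {K : Type} [CommRing K] (a : R →+* K) (σ : ι → K) :
    (s.pw k).val (q * k) a σ = s.val q a σ ^ k := by
  simp only [val, pw, map_pow, mul_pow, pow_mul]

theorem val_pad (s : Sec c ι) {n : ℕ} {h : A} (hh : h ∈ 𝒜 n) (q : ℕ) {K : Type} [CommRing K]
    (a : R →+* K) (σ : ι → K) : (s.pad hh).val q a σ = a (algebraMap A R h) * s.val q a σ := by
  simp only [val, pad, map_mul, mul_assoc]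

theorem deg_pw (s : Sec c ι) (q k : ℕ) : (s.pw k).deg (q * k) = k * s.deg q := by
  simp only [deg, pw]; ring

theorem deg_pad (s : Sec c ι) {n : ℕ} {h : A} (hh : h ∈ 𝒜 n) (q : ℕ) :
    (s.pad hh).deg q = n + s.deg q := by
  simp only [deg, pad]; ring

theorem pr_pw (s : Sec c ι) (t : Sec c κ) (g : ι → κ → R) (q k : ℕ) :
    (s.pw k).pr (t.pw k) g (q * k) = s.pr t g q ^ k := by
  simp only [pr, pw, mul_pow, pow_mul]

theorem pr_pad (s : Sec c ι) (t : Sec c κ) (g : ι → κ → R) (q : ℕ) {n n' : ℕ} {h h' : A}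
    (hh : h ∈ 𝒜 n) (hh' : h' ∈ 𝒜 n') :
    (s.pad hh).pr (t.pad hh') g q = algebraMap A R (h * h') * s.pr t g q := by
  simp only [pr, pad, map_mul]; ring

theorem pr_H (s : Sec c ι) (t : Sec c κ) {g : ι → κ → R} {e : ℕ} (hg : ∀ α β, c.H e (g α β))
    (q : ℕ) : c.H (s.deg q + t.deg q + q * e) (s.pr t g q) :=
  ((s.hu.mul t.hu).mul ((CoA.H.sum _ fun α _ => CoA.H.sum _ fun β _ =>
    ((s.hx α).mul (t.hx β)).mul (hg α β)).pow q)).cast (by simp only [deg]; ring)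

theorem sum_fc {K : Type} [CommRing K] (f σ : ι → K) (f' τ : κ → K) :
    ∑ α, ∑ β, f α * f' β * (σ α * τ β) = (∑ α, f α * σ α) * ∑ β, f' β * τ β := by
  rw [Finset.sum_mul_sum]
  exact Finset.sum_congr rfl fun α _ => Finset.sum_congr rfl fun β _ => by ring

theorem map_pr (s : Sec c ι) (t : Sec c κ) {g : ι → κ → R} (q : ℕ) {K : Type} [CommRing K]
    (a : R →+* K) {σ : ι → K} {τ : κ → K} (h : ∀ α β, a (g α β) = σ α * τ β) :
    a (s.pr t g q) = s.val q a σ * t.val q a τ := by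
  simp only [pr, val, map_mul, map_pow, map_sum, h, sum_fc, mul_pow]
  ring

end Sec

end

end Pool.Agent.Lib.MP_62d77c_ag.R
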