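import Pool.Agent.Lib.MP_62d77c_ag.R.GC

/-! Descent of a line bundle along a finite map, up to a power. -/

set_option autoImplicit false
set_option linter.unusedSectionVars false

namespace Pool.Agent.Lib.MP_62d77c_ag.R

open Polynomial
open scoped TensorProduct

noncomputable section

variable {A : Type} [CommRing A] [IsDomain A] {𝒜 : ℕ → AddSubgroup A} [GradedRing 𝒜]
  [hG : Fact (Gen 𝒜)] {C : Type} [CommRing C] [Algebra A C] {ι κ : Type} [Fintype ι] [Fintype κ]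
  {c : CoA 𝒜 C} {g : ι → κ → C} {e : ℕ} {Θ : ι → κ → C ⊗[A] C}

/-- the sections `s`, `t` are compatible with the descent datum -/
def GCmp (g : ι → κ → C) (Θ : ι → κ → C ⊗[A] C) (s : Sec c ι) (t : Sec c κ) (q : ℕ) : Prop :=
  ∀ (K : Type) [Field K] (a b : C →+* K) (hab : ∀ x, a (algebraMap A C x) = b (algebraMap A C x))
    (σa σb : ι → K) (τa τb : κ → K), Rel 𝒜 a → Fc g a σa τa → Fc g b σb τb →
      (∀ α β, tl a b hab (Θ α β) = σa α * τb β) →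
      s.val q a σa = s.val q b σb ∧ t.val q a τa = t.val q b τb

theorem GCmp.pw {s : Sec c ι} {t : Sec c κ} {q : ℕ} (h : GCmp g Θ s t q) (k : ℕ) :
    GCmp g Θ (s.pw k) (t.pw k) (q * k) := fun K _ a b hab σa σb τa τb h1 h2 h3 h4 => by
  obtain ⟨e1, e2⟩ := h K a b hab σa σb τa τb h1 h2 h3 h4
  exact ⟨by rw [Sec.val_pw, Sec.val_pw, e1], by rw [Sec.val_pw, Sec.val_pw, e2]⟩

theorem GCmp.pad {s : Sec c ι} {t : Sec c κ} {q : ℕ} (h : GCmp g Θ s t q) {n n' : ℕ} {f f' : A}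
    (hf : f ∈ 𝒜 n) (hf' : f' ∈ 𝒜 n') : GCmp g Θ (s.pad hf) (t.pad hf') q :=
  fun K _ a b hab σa σb τa τb h1 h2 h3 h4 => by
    obtain ⟨e1, e2⟩ := h K a b hab σa σb τa τb h1 h2 h3 h4
    exact ⟨by rw [Sec.val_pad, Sec.val_pad, e1, hab], by rw [Sec.val_pad, Sec.val_pad, e2, hab]⟩

theorem rel_congr {K : Type} [Field K] {a b : C →+* K}
    (hab : ∀ x, a (algebraMap A C x) = b (algebraMap A C x)) : Rel 𝒜 a ↔ Rel 𝒜 b := by
  unfold Rel
  simp only [hab]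

theorem gd_arith {K : Type} [Field K] {sa ta sb tb ia ib u u' v v' : K} {q : ℕ}
    (h1 : ia * (sa * ta) = 1) (h2 : ib * (sb * tb) = 1) (h3 : u * u' = 1) (h4 : v * v' = 1)
    (h : (sa * tb * ib) ^ q * v = u) :
    u' * sa ^ q = v' * sb ^ q ∧ u * ia ^ q * ta ^ q = v * ib ^ q * tb ^ q := by
  have e1 : (ia * (sa * ta)) ^ q = 1 := by rw [h1, one_pow]
  have e2 : (ib * (sb * tb)) ^ q = 1 := by rw [h2, one_pow]
  simp only [mul_pow] at e1 e2 h
  constructor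
  · linear_combination (u' * v' * sb ^ q) * h - (u' * sa ^ q * v * v') * e2 -
      (u' * sa ^ q) * h4 + (v' * sb ^ q) * h3
  · linear_combination (-(ia ^ q * ta ^ q)) * h + (v * ib ^ q * tb ^ q) * e1

variable [Module.Finite A C]

theorem gd_alg {B K : Type} [CommRing B] [Algebra A B] [Field K] [Algebra B K] (ψ : C →+* K)
    (h : ∀ a, algebraMap B K (algebraMap A B a) = ψ (algebraMap A C a)) :
    ∃ a : B ⊗[A] C →ₐ[B] K, ∀ v, a (j2 A B C v) = ψ v :=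
  ⟨⟨tl (algebraMap B K) ψ h, fun v => tl_j1 (algebraMap B K) ψ h v⟩,
    fun v => tl_j2 (algebraMap B K) ψ h v⟩

theorem gd_core {B : Type} [CommRing B] [Algebra A B] [IsNoetherianRing B] [IsLocalRing B]
    (p : ℕ) [Fact p.Prime] (hp : (p : C) = 0) (hD : Des 𝒜 g Θ)
    (hr : ∀ (K : Type) [Field K] (a : B ⊗[A] C →+* K), Rel 𝒜 (a.comp (j2 A B C)))
    (x : ι → C) (z : κ → C) {i : B ⊗[A] C}
    (hi : i * j2 A B C (∑ α, ∑ β, x α * z β * g α β) = 1) :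
    ∃ (k : ℕ) (t t' : B ⊗[A] C), t * t' = 1 ∧
      ∀ (K : Type) [Field K] (ψ : C ⊗[A] C →+* K) (χ : B →+* K),
        (∀ a, χ (algebraMap A B a) = ψ (algebraMap A _ a)) →
        ∃ (a b : B ⊗[A] C →+* K) (σa : ι → K) (τa : κ → K) (σb : ι → K) (τb : κ → K),
          (∀ v, a (j2 A B C v) = ψ (j1 A C C v)) ∧ (∀ v, b (j2 A B C v) = ψ (j2 A C C v)) ∧
          Fc g (ψ.comp (j1 A C C)) σa τa ∧ Fc g (ψ.comp (j2 A C C)) σb τb ∧
          (∀ α β, ψ (Θ α β) = σa α * τb β) ∧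
          a t' * (∑ α, ψ (j1 A C C (x α)) * σa α) ^ p ^ k =
            b t' * (∑ α, ψ (j2 A C C (x α)) * σb α) ^ p ^ k ∧
          a (t * i ^ p ^ k) * (∑ β, ψ (j1 A C C (z β)) * τa β) ^ p ^ k =
            b (t * i ^ p ^ k) * (∑ β, ψ (j2 A C C (z β)) * τb β) ^ p ^ k := by
  obtain ⟨r, hr'⟩ : ∃ r, r = j2 A B C := ⟨_, rfl⟩
  have r_alg : ∀ a, r (algebraMap A C a) = algebraMap B _ (algebraMap A B a) := fun a => by
    rw [hr']
    exact j2_alg a
  simp only [← hr'] at hr hi ⊢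
  let m : C ⊗[A] C →+* (B ⊗[A] C) ⊗[B] (B ⊗[A] C) :=
    tl ((j1 B _ _).comp r) ((j2 B _ _).comp r) fun a => by
      rw [RingHom.comp_apply, RingHom.comp_apply, r_alg, j1_alg, j2_alg]
  let Θ₀ := ∑ α, ∑ β, j1 A C C (x α) * j2 A C C (z β) * Θ α β
  have ag : ∀ {K : Type} [Field K] [Algebra B K] (a b : B ⊗[A] C →ₐ[B] K) (w : A),
      (a.toRingHom.comp r) (algebraMap A C w) = (b.toRingHom.comp r) (algebraMap A C w) :=
    fun a b w => by
      rw [RingHom.comp_apply, RingHom.comp_apply, r_alg]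
      exact (a.commutes _).trans (b.commutes _).symm
  have hX : ∀ {K : Type} [Field K] [Algebra B K] (a b : B ⊗[A] C →ₐ[B] K)
      {σ : ι → K} {τ : κ → K}, (∀ α β, tl _ _ (ag a b) (Θ α β) = σ α * τ β) →
      g4_ev a b (m Θ₀ * j2 B _ _ i) =
        (∑ α, a (r (x α)) * σ α) * (∑ β, b (r (z β)) * τ β) * b i :=
    fun a b σ τ h => by
      have h1 : ∀ Z, ((g4_ev a b).toRingHom.comp m) Z = tl _ _ (ag a b) Z := tl_ext
        (fun w => by
          rw [RingHom.comp_apply, tl_j1, tl_j1]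
          exact (g4_ev_tmul a b _ _).trans (by rw [map_one, mul_one]; rfl))
        fun w => by
          rw [RingHom.comp_apply, tl_j2, tl_j2]
          exact (g4_ev_tmul a b _ _).trans (by rw [map_one, one_mul]; rfl)
      have h2 : g4_ev a b (m Θ₀) = tl _ _ (ag a b) Θ₀ := h1 Θ₀
      rw [map_mul, h2, j2_apply, g4_ev_tmul, map_one, one_mul]
      simp only [Θ₀, map_sum, map_mul, tl_j1, tl_j2, h, Sec.sum_fc]
      rfl
  have hI : ∀ {K : Type} [Field K] [Algebra B K] (a : B ⊗[A] C →ₐ[B] K)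
      {σ : ι → K} {τ : κ → K}, Fc g (a.toRingHom.comp r) σ τ →
      a i * ((∑ α, a (r (x α)) * σ α) * ∑ β, a (r (z β)) * τ β) = 1 := fun a σ τ h => by
    have h' : ∀ α β, a (r (g α β)) = σ α * τ β := h
    rw [← map_one a, ← hi, map_mul]
    simp only [map_sum, map_mul, h', Sec.sum_fc]
  obtain ⟨k, t, ht, hk⟩ := g4 p (g4_cast r hp) (m Θ₀ * j2 B _ _ i)
    (fun K _ _ a b d => by
      obtain ⟨σa, τa, σb, τb, σd, τd, -, f2, -, f4, f5, f6⟩ :=
        hD K _ _ _ (ag a b) (ag b d) (ag a d) (hr K a.toRingHom)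
      rw [hX a b f4, hX b d f5, hX a d f6]
      linear_combination ((∑ α, a (r (x α)) * σa α) * (∑ β, d (r (z β)) * τd β) * d i) * hI b f2)
    fun K _ _ a => by
      obtain ⟨σa, τa, σb, τb, -, -, f1, f2, -, f4, -, -⟩ :=
        hD K _ _ _ (ag a a) (ag a a) (ag a a) (hr K a.toRingHom)
      rw [hX a a f4]
      have n1 := (hI a f1).trans_ne one_ne_zero
      have n2 := (hI a f2).trans_ne one_ne_zero
      exact mul_ne_zero (mul_ne_zero (left_ne_zero_of_mul (right_ne_zero_of_mul n1))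
        (right_ne_zero_of_mul (right_ne_zero_of_mul n2))) (left_ne_zero_of_mul n1)
  obtain ⟨t', ht'⟩ := ht.exists_right_inv
  refine ⟨k, t, t', ht', fun K _ ψ χ hχ => ?_⟩
  let _ : Algebra B K := χ.toAlgebra
  obtain ⟨a, ea⟩ := gd_alg (B := B) (ψ.comp (j1 A C C)) hχ
  obtain ⟨b, eb⟩ := gd_alg (B := B) (ψ.comp (j2 A C C)) fun v => by
    rw [RingHom.comp_apply, j2_alg, ← hχ]
    rfl
  simp only [← hr', RingHom.comp_apply] at ea eb
  obtain ⟨σa, τa, σb, τb, -, -, f1, f2, -, f4, -, -⟩ :=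
    hD K _ _ _ (ag a b) (ag b b) (ag a b) (hr K a.toRingHom)
  have e0 : ∀ Z, tl _ _ (ag a b) Z = ψ Z := tl_ext (fun v => (tl_j1 _ _ _ v).trans (ea v))
    fun v => (tl_j2 _ _ _ v).trans (eb v)
  have e1 := congrArg (g4_ev a b) hk
  rw [map_mul, map_pow, hX a b f4, g4_ev_tmul, g4_ev_tmul, map_one, map_one, one_mul,
    mul_one] at e1
  obtain ⟨e2, e3⟩ := gd_arith (hI a f1) (hI b f2) (u' := a t') (v' := b t')
    (by rw [← map_mul, ht', map_one]) (by rw [← map_mul, ht', map_one]) e1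
  simp only [ea, eb, ← map_pow a, ← map_pow b, ← map_mul a, ← map_mul b] at e2 e3
  exact ⟨a.toRingHom, b.toRingHom, σa, τa, σb, τb, ea, eb, fun α β => (ea _).symm.trans (f1 α β),
    fun α β => (eb _).symm.trans (f2 α β), fun α β => (e0 _).symm.trans (f4 α β), e2, e3⟩

theorem GSys.spread (S : GSys c g e) (hΘ : ∀ α β, (c.ten c).H e (Θ α β)) (y : Pt 𝒜)
    (s : Sec c ι) (t : Sec c κ) (q : ℕ)
    (loc : ∀ (K : Type) [Field K] (ψ : C ⊗[A] C →+* K) (χ : Lo y →+* K),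
      (∀ a, χ (algebraMap A (Lo y) a) = ψ (algebraMap A _ a)) → ∃ σa τa σb τb,
        Fc g (ψ.comp (j1 A C C)) σa τa ∧ Fc g (ψ.comp (j2 A C C)) σb τb ∧
        (∀ α β, ψ (Θ α β) = σa α * τb β) ∧
        s.val q (ψ.comp (j1 A C C)) σa = s.val q (ψ.comp (j2 A C C)) σb ∧
        t.val q (ψ.comp (j1 A C C)) τa = t.val q (ψ.comp (j2 A C C)) τb) :
    ∃ (n : ℕ) (h : A) (hh : h ∈ 𝒜 n), h ∉ pr y ∧ GCmp g Θ (s.pad hh) (t.pad hh) q := by
  obtain ⟨n, h, hh, hh', H⟩ := gc_spread (c.ten c) y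
  have hE : ∀ β, ∀ (K : Type) [Field K] (ψ : C ⊗[A] C →+* K), ψ (algebraMap A _ h) *
      ψ (j1 A C C s.u * (∑ α, j1 A C C (s.x α) * Θ α β) ^ q -
        j2 A C C (s.u * (∑ α, s.x α * g α β) ^ q)) = 0 := fun β =>
    H _ _ ((s.hu.inl.mul ((CoA.H.sum _ fun α _ => (s.hx α).inl.mul (hΘ α β)).pow _)).sub
      (s.hu.mul ((CoA.H.sum _ fun α _ => (s.hx α).mul (S.hom α β)).pow _)).inr) fun K _ ψ χ hχ => by
        obtain ⟨σa, τa, σb, τb, -, f2, f3, f4, -⟩ := loc K ψ χ hχ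
        have f2' : ∀ α β, ψ (j2 A C C (g α β)) = σb α * τb β := f2
        simp only [Sec.val, RingHom.comp_apply] at f4
        simp only [map_sub, map_mul, map_pow, map_sum, f2', f3, ← mul_assoc, ← Finset.sum_mul,
          mul_pow, f4, sub_self]
  have hE' : ∀ α, ∀ (K : Type) [Field K] (ψ : C ⊗[A] C →+* K), ψ (algebraMap A _ h) *
      ψ (j1 A C C (t.u * (∑ β, g α β * t.x β) ^ q) -
        j2 A C C t.u * (∑ β, Θ α β * j2 A C C (t.x β)) ^ q) = 0 := fun α =>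
    H _ _ ((t.hu.mul ((CoA.H.sum _ fun β _ => (S.hom α β).mul (t.hx β)).pow _)).inl.sub
      (t.hu.inr.mul ((CoA.H.sum _ fun β _ => (hΘ α β).mul (t.hx β).inr).pow _))) fun K _ ψ χ hχ => by
        obtain ⟨σa, τa, σb, τb, f1, -, f3, -, f4⟩ := loc K ψ χ hχ
        have f1' : ∀ α β, ψ (j1 A C C (g α β)) = σa α * τa β := f1
        simp only [Sec.val, RingHom.comp_apply, mul_comm _ (τa _), mul_comm _ (τb _)] at f4
        simp only [map_sub, map_mul, map_pow, map_sum, f1', f3, mul_assoc, ← Finset.mul_sum,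
          mul_pow]
        linear_combination σa α ^ q * f4
  refine ⟨n, h, hh, hh', fun K _ a b hab σa σb τa τb hr f1 f2 f3 => ?_⟩
  obtain ⟨α₀, _, n1⟩ := S.ne hr f1
  obtain ⟨_, β₀, n2⟩ := S.ne ((rel_congr hab).1 hr) f2
  have e1 := hE β₀ K (tl a b hab)
  have e2 := hE' α₀ K (tl a b hab)
  simp only [← j1_alg, map_sub, map_mul, map_pow, map_sum, tl_j1, tl_j2, f2 _ _, f3,
    ← mul_assoc, ← Finset.sum_mul, mul_pow] at e1
  simp only [← j1_alg, map_sub, map_mul, map_pow, map_sum, tl_j1, tl_j2, f1 _ _, f3,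
    mul_assoc, ← Finset.mul_sum, mul_pow] at e2
  simp only [Sec.val_pad, ← hab]
  simp only [Sec.val, mul_comm _ (τa _), mul_comm _ (τb _)]
  exact ⟨mul_right_cancel₀ (pow_ne_zero q (right_ne_zero_of_mul n2))
    (by linear_combination e1), mul_right_cancel₀ (pow_ne_zero q (left_ne_zero_of_mul n1))
    (by linear_combination e2)⟩

theorem gd_unit (S : GSys c g e) (y : Pt 𝒜) : ∃ (k₁ k₂ : ℕ) (x : ι → C) (z : κ → C),
    (∀ α, c.H k₁ (x α)) ∧ (∀ β, c.H k₂ (z β)) ∧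
      IsUnit (j2 A (Lo y) C (∑ α, ∑ β, x α * z β * g α β)) := by
  obtain ⟨x₀, y₀, hu⟩ := gc_semi (B := Lo y) (fun α β => j2 A (Lo y) C (g α β)) fun M hM => by
    obtain ⟨α, β, h⟩ := S.cov _ _ (gc_rel y (algebraMap _ M.ResidueField))
    exact ⟨α, β, fun h' => h (Ideal.algebraMap_residueField_eq_zero.2 h')⟩
  obtain ⟨k₁, s₁, hs₁, hs₁', x, hx⟩ := gc_surj c y x₀
  obtain ⟨k₂, s₂, hs₂, hs₂', z, hz⟩ := gc_surj c y y₀
  refine ⟨k₁, k₂, x, z, fun α => (hx α).1, fun β => (hz β).1, ?_⟩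
  have : j2 A (Lo y) C (∑ α, ∑ β, x α * z β * g α β) =
      j2 A (Lo y) C (algebraMap A C s₁) * j2 A (Lo y) C (algebraMap A C s₂) *
      ∑ α, ∑ β, x₀ α * y₀ β * j2 A (Lo y) C (g α β) := by
    simp only [map_sum, map_mul, Finset.mul_sum]
    refine Finset.sum_congr rfl fun α _ => Finset.sum_congr rfl fun β _ => ?_
    rw [← (hx α).2, ← (hz β).2]
    ring
  rw [this]
  exact ((gc_unit y hs₁ hs₁').mul (gc_unit y hs₂ hs₂')).mul hu

theorem GSys.local (S : GSys c g e) (p : ℕ) [Fact p.Prime] (hp : (p : C) = 0)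
    (hΘ : ∀ α β, (c.ten c).H e (Θ α β)) (hD : Des 𝒜 g Θ) (y : Pt 𝒜) :
    ∃ (q : ℕ) (s : Sec c ι) (t : Sec c κ), 0 < q ∧ GCmp g Θ s t q ∧
      IsUnit (j2 A (Lo y) C (s.pr t g q)) := by
  obtain ⟨k₁, k₂, x, z, hx, hz, hS⟩ := gd_unit S y
  obtain ⟨i, hi⟩ := hS.exists_left_inv
  obtain ⟨k, t, t', ht', H⟩ := gd_core p hp hD (fun K _ a => gc_rel y a) x z hi
  obtain ⟨k₃, s₃, hs₃, hs₃', u, hu₁, hu₂⟩ := gc_surj1 c y t'
  obtain ⟨k₄, s₄, hs₄, hs₄', w, hw₁, hw₂⟩ := gc_surj1 c y (t * i ^ p ^ k)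
  obtain ⟨n, h, hh, hh', hc⟩ := S.spread hΘ y ⟨u, x, k₃, k₁, hu₁, hx⟩ ⟨w, z, k₄, k₂, hw₁, hz⟩ (p ^ k)
    fun K _ ψ χ hχ => by
      obtain ⟨a, b, σa, τa, σb, τb, ea, eb, f1, f2, f3, e2, e3⟩ := H K ψ χ hχ
      refine ⟨σa, τa, σb, τb, f1, f2, f3, ?_, ?_⟩
      · simp only [Sec.val, RingHom.comp_apply]
        rw [← ea u, ← eb u, ← hu₂, map_mul a, map_mul b, mul_assoc, mul_assoc, e2, ea, eb, j1_alg,
          j2_alg]
      · simp only [Sec.val, RingHom.comp_apply]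
        rw [← ea w, ← eb w, ← hw₂, map_mul a, map_mul b, mul_assoc, mul_assoc, e3, ea, eb, j1_alg,
          j2_alg]
  refine ⟨p ^ k, _, _, pow_pos (Fact.out : p.Prime).pos k, hc, ?_⟩
  rw [Sec.pr_pad, map_mul]
  refine (gc_unit y (SetLike.mul_mem_graded hh hh) (md_mul_not_mem hh' hh')).mul ?_
  have : ∀ {R : Type} [CommRing R] {a b t t' i s : R} {q : ℕ}, t * t' = 1 → i * s = 1 →
      a * t' * (b * (t * i ^ q)) * s ^ q = a * b := fun {R _ a b t t' i s q} h1 h2 => by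
    rw [show a * t' * (b * (t * i ^ q)) * s ^ q = a * b * (t * t') * (i * s) ^ q by ring, h1, h2,
      one_pow, mul_one, mul_one]
  simp only [Sec.pr]
  rw [map_mul, map_mul, map_pow, ← hu₂, ← hw₂, this ht' hi]
  exact (gc_unit y hs₃ hs₃').mul (gc_unit y hs₄ hs₄')

theorem GSys.lift (S : GSys c g e) (p : ℕ) [Fact p.Prime] (hp : (p : C) = 0) (hD : Des 𝒜 g Θ)
    {s s' : Sec c ι} {t t' : Sec c κ} {q : ℕ} (hq : 0 < q) (h : GCmp g Θ s t q)
    (h' : GCmp g Θ s' t' q) : ∃ k, ∀ l, k ≤ l → ∃ F ∈ 𝒜 (p ^ l * (s.deg q + t'.deg q + q * e)),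
      algebraMap A C F = s.pr t' g q ^ p ^ l := by
  have := noeth_of_gen 𝒜
  have hH := s.pr_H t' S.hom q
  obtain ⟨k, b, hb⟩ := g5 (B := A) p hp (s.pr t' g q) fun K _ a b hab => by
    have hab' : ∀ x, a (algebraMap A C x) = b (algebraMap A C x) := fun x => RingHom.congr_fun hab x
    by_cases hr : Rel 𝒜 a
    · obtain ⟨σa, τa, σb, τb, -, -, f1, f2, -, f4, -, -⟩ := hD K a b b hab' (fun _ => rfl) hab' hr
      rw [s.map_pr t' q a f1, s.map_pr t' q b f2, (h K a b hab' _ _ _ _ hr f1 f2 f4).1,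
        (h' K a b hab' _ _ _ _ hr f1 f2 f4).2]
    · have hpos : 0 < s.deg q + t'.deg q + q * e := by have := Nat.mul_pos hq S.pos; omega
      rw [CoA.irr hr hpos hH, CoA.irr (fun h => hr ((rel_congr hab').2 h)) hpos hH]
  refine ⟨k, fun l hl => ?_⟩
  obtain ⟨d, rfl⟩ := Nat.exists_eq_add_of_le hl
  refine ⟨_, md_proj_mem _ (b ^ p ^ d), ?_⟩
  rw [← CoA.coeff_alg (c := c), map_pow (algebraMap A C), ← hb, ← pow_mul, ← pow_add]
  exact (hH.pow _).coeff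

theorem GSys.descend (S : GSys c g e) (p : ℕ) [Fact p.Prime] (hp : (p : C) = 0)
    (hker : ∀ y : Vp 𝒜 p, RingHom.ker (algebraMap A C) ≤ pr y.1)
    (hΘ : ∀ α β, (c.ten c).H e (Θ α β)) (hD : Des 𝒜 g Θ) :
    ∃ (μ : Type) (_ : Fintype μ) (q d d' : ℕ) (s : μ → Sec c ι) (t : μ → Sec c κ) (G : μ → μ → A),
      0 < q ∧ (∀ m, (s m).deg q = d ∧ (t m).deg q = d') ∧
      (∀ m m', G m m' ∈ 𝒜 (d + d' + q * e) ∧ algebraMap A C (G m m') = (s m).pr (t m') g q) ∧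
      ∀ y : Vp 𝒜 p, ∃ m, G m m ∉ pr y.1 := by
  classical
  have := noeth_of_gen 𝒜
  choose q s t hq hc hu using fun y : Vp 𝒜 p => S.local p hp hΘ hD y.1
  choose k hk using fun y => S.lift p hp hD (hq y) (hc y) (hc y)
  choose F hF hF' using fun y => hk y (k y) le_rfl
  have hne : ∀ y, F y ∉ pr y.1 := fun y hy => by
    have h1 : IsUnit (j2 A (Lo y.1) C (algebraMap A C (F y))) := by
      rw [hF', map_pow]
      exact (hu y).pow _
    have := glue_prime y.1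
    obtain ⟨P, -, hP, hPy⟩ := Ideal.exists_ideal_over_prime_of_isIntegral (S := C) (pr y.1) ⊥ (hker y)
    let φ : C →+* P.ResidueField := algebraMap _ _
    have hφ : ∀ a, φ (algebraMap A C a) = 0 ↔ a ∈ pr y.1 := fun a =>
      Ideal.algebraMap_residueField_eq_zero.trans (by rw [← hPy]; rfl)
    obtain ⟨τ, χ, -, hχ⟩ := gc_norm c y.1 φ fun n s _ hs' e => hs' ((hφ s).1 e)
    refine (h1.map (tl χ _ hχ)).ne_zero ?_
    rw [tl_j2, CoA.sc_H _ _ (CoA.H.alg (hF y)), (hφ _).2 hy, zero_mul]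
  obtain ⟨Z, hZ, hsp⟩ := (Submodule.fg_span_iff_fg_span_finset_subset (R := A) (Set.range F)).1
    (IsNoetherian.noetherian _)
  choose Y hY using fun f : Z => hZ f.2
  obtain ⟨X, hX, hX'⟩ := glue_lin (𝒜 := 𝒜)
  set Q := ∏ f : Z, q (Y f) with hQ
  have hQ0 : 0 < Q := Finset.prod_pos fun f _ => hq _
  choose r hr using fun f : Z => Finset.dvd_prod_of_mem (fun f : Z => q (Y f)) (Finset.mem_univ f)
  replace hr : ∀ f, Q = q (Y f) * r f := hr
  set D := Finset.univ.sup fun f : Z => r f * (s (Y f)).deg (q (Y f)) with hD1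
  set D' := Finset.univ.sup fun f : Z => r f * (t (Y f)).deg (q (Y f)) with hD2
  let s' : Z × X → Sec c ι := fun m => ((s (Y m.1)).pw (r m.1)).pad
    (md_pow_mem (hX _ m.2.2) (D - r m.1 * (s (Y m.1)).deg (q (Y m.1))))
  let t' : Z × X → Sec c κ := fun m => ((t (Y m.1)).pw (r m.1)).pad
    (md_pow_mem (hX _ m.2.2) (D' - r m.1 * (t (Y m.1)).deg (q (Y m.1))))
  have hc' : ∀ m, GCmp g Θ (s' m) (t' m) Q := fun m => hr m.1 ▸ ((hc _).pw _).pad _ _
  have hd : ∀ m, (s' m).deg Q = D ∧ (t' m).deg Q = D' := fun m => by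
    rw [Sec.deg_pad, Sec.deg_pad, hr m.1, Sec.deg_pw, Sec.deg_pw]
    exact ⟨Nat.sub_add_cancel (Finset.le_sup (f := fun f : Z => r f * (s (Y f)).deg (q (Y f)))
      (Finset.mem_univ m.1)), Nat.sub_add_cancel (Finset.le_sup
        (f := fun f : Z => r f * (t (Y f)).deg (q (Y f))) (Finset.mem_univ m.1))⟩
  choose l hl using fun m : (Z × X) × (Z × X) => S.lift p hp hD hQ0 (hc' m.1) (hc' m.2)
  choose G hG1 hG2 using fun m => hl m (Finset.univ.sup l) (Finset.le_sup (Finset.mem_univ m))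
  set n := p ^ Finset.univ.sup l with hn
  refine ⟨Z × X, inferInstance, Q * n, n * D, n * D', fun m => (s' m).pw n, fun m => (t' m).pw n,
    fun m m' => G (m, m'), Nat.mul_pos hQ0 (pow_pos (Fact.out : p.Prime).pos _),
    fun m => by rw [Sec.deg_pw, Sec.deg_pw, (hd m).1, (hd m).2]; exact ⟨rfl, rfl⟩,
    fun m m' => ⟨glue_deg (hG1 (m, m')) (by rw [(hd m).1, (hd m').2]; ring),
      by rw [Sec.pr_pw, hG2]⟩, fun y => ?_⟩
  have h1 : ∃ f : Z, f.1 ∉ pr y.1 := by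
    by_contra h
    push Not at h
    have : Submodule.span A (Set.range F) ≤ pr y.1 := by
      rw [hsp, Submodule.span_le]
      exact fun f hf => h ⟨f, hf⟩
    exact hne y (this (Submodule.subset_span ⟨y, rfl⟩))
  obtain ⟨f, hf⟩ := h1
  obtain ⟨x, hx, hxy⟩ := hX' y.1
  refine ⟨(f, ⟨x, hx⟩), fun hm => ?_⟩
  have h2 := hG2 ((f, ⟨x, hx⟩), (f, ⟨x, hx⟩))
  rw [Sec.pr_pad, hr f, Sec.pr_pw] at h2
  have h3 := congrArg (· ^ p ^ k (Y f)) h2
  have h5 : ∀ a b : C, ((a * b ^ r f) ^ n) ^ p ^ k (Y f) =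
      (a ^ n) ^ p ^ k (Y f) * ((b ^ p ^ k (Y f)) ^ r f) ^ n := fun a b => by ring
  simp only [h5] at h3
  rw [← hF', hY f, ← map_pow, ← map_pow, ← map_pow,
    ← map_pow, ← map_pow, ← map_mul, ← sub_eq_zero, ← map_sub] at h3
  have h4 := sub_mem (Ideal.pow_mem_of_mem _ hm _
    (pow_pos (Fact.out : p.Prime).pos (k (Y f)))) (hker y h3)
  rw [sub_sub_cancel] at h4
  exact glue_mul_not (glue_pow_not (glue_pow_not (glue_mul_not (glue_pow_not hxy _)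
    (glue_pow_not hxy _)) _) _) (glue_pow_not (glue_pow_not hf _) _) h4

end

end Pool.Agent.Lib.MP_62d77c_ag.R
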