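import Pool.Agent.Lib.MP_62d77c_ag.R.GN
import Pool.Agent.Lib.MP_62d77c_ag.R.G2c
import Pool.Agent.Lib.MP_62d77c_ag.R.G2p

/-! A relevant component of the fibre product is diagonal or a pair. -/

set_option autoImplicit false
set_option linter.unusedSectionVars false
set_option linter.style.haveILetI false

namespace Pool.Agent.Lib.MP_62d77c_ag.R

open Polynomial
open scoped TensorProduct

noncomputable section

theorem gp_pi {ι : Type} [Finite ι] {B : ι → Type} [∀ i, CommRing (B i)] (P : Ideal (∀ i, B i))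
    [hP : P.IsPrime] : ∃ j, ∀ F : ∀ i, B i, F j = 0 → F ∈ P := by
  classical
  letI := Fintype.ofFinite ι
  by_contra hc
  push Not at hc
  refine hP.ne_top ((Ideal.eq_top_iff_one _).2 ?_)
  rw [← Finset.univ_sum_single (1 : ∀ i, B i)]
  refine sum_mem fun j _ => ?_
  obtain ⟨F, h1, h2⟩ := hc j
  refine (hP.mem_or_mem (x := F) ?_).resolve_left h2
  rw [← Pi.single_mul_right, h1, zero_mul, Pi.single_zero]
  exact zero_mem _

theorem gp_min {A C C' B B' : Type} [CommRing A] [CommRing C] [CommRing C'] [CommRing B]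
    [CommRing B'] [Algebra A C] [Algebra A C'] [Algebra A B] [Algebra A B'] (f : C →ₐ[A] B)
    (g : C' →ₐ[A] B') (hf : Function.Surjective f) (hg : Function.Surjective g)
    {Q : Ideal (C ⊗[A] C')} (hQ : Q ∈ minimalPrimes (C ⊗[A] C'))
    (h1 : ∀ x, f x = 0 → j1 A C C' x ∈ Q) (h2 : ∀ x, g x = 0 → j2 A C C' x ∈ Q) :
    ∃ Q' ∈ minimalPrimes (B ⊗[A] B'), ∀ a : A, algebraMap A _ a ∈ Q' ↔ algebraMap A _ a ∈ Q := by
  have hs := Algebra.TensorProduct.map_surjective f g hf hg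
  have hk : RingHom.ker (Algebra.TensorProduct.map f g) ≤ Q := by
    rw [Algebra.TensorProduct.map_ker f g hf hg]
    exact sup_le (Ideal.map_le_iff_le_comap.2 h1) (Ideal.map_le_iff_le_comap.2 h2)
  refine ⟨Q.map (Algebra.TensorProduct.map f g).toRingHom, ?_, fun a => ?_⟩
  · have := Ideal.minimalPrimes_map_of_surjective
      (f := (Algebra.TensorProduct.map f g).toRingHom) hs ⊥
    rw [Ideal.map_bot] at this
    change _ ∈ (⊥ : Ideal (B ⊗[A] B')).minimalPrimes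
    rw [this]
    exact ⟨Q, ⟨⟨hQ.1.1, sup_le bot_le hk⟩, fun J hJ hle => hQ.2 ⟨hJ.1, bot_le⟩ hle⟩, rfl⟩
  · rw [← (Algebra.TensorProduct.map f g).commutes a]
    change _ ∈ (Q.map (Algebra.TensorProduct.map f g).toRingHom).comap
      (Algebra.TensorProduct.map f g).toRingHom ↔ _
    rw [Ideal.comap_map_of_surjective (Algebra.TensorProduct.map f g).toRingHom hs]
    exact ⟨fun c => (sup_le le_rfl hk : Q ⊔ _ ≤ Q) c, fun c => Ideal.mem_sup_left c⟩

/-- the field generated by the image -/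
theorem gp_frac {T K : Type} [CommRing T] [Field K] (ψ : T →+* K) :
    ∃ (L : Type) (_ : Field L) (ι : L →+* K) (π : T →+* L), (∀ x, ι (π x) = ψ x) ∧
      ∀ z, ∃ r s, z = π r / π s := by
  refine ⟨Subfield.closure (Set.range ψ), inferInstance, Subfield.subtype _,
    ψ.codRestrict _ fun x => Subfield.subset_closure ⟨x, rfl⟩, fun _ => rfl, fun z => ?_⟩
  obtain ⟨a, ha, b, hb, e⟩ := Subfield.mem_closure_iff.1 z.2
  rw [← RingHom.coe_range, Subring.closure_eq] at ha hb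
  obtain ⟨r, rfl⟩ := ha
  obtain ⟨s, rfl⟩ := hb
  exact ⟨r, s, Subtype.ext e.symm⟩

variable {A : Type} [CommRing A] [IsDomain A] {𝒜 : ℕ → AddSubgroup A} [GradedRing 𝒜]
  [hG : Fact (Gen 𝒜)] {p : ℕ} [Fact p.Prime]

theorem gp_ker (X : Mo 𝒜 p) (a : A) : algebraMap A X.NR a = 0 ↔ a ∈ pr X.x.1 := by
  have key : ∀ n, X.co n (algebraMap A X.Cn a) = X.θ (GradedRing.proj 𝒜 n a) := fun n => by
    induction a using hom_ind (𝒜 := 𝒜) with
    | h0 => simp
    | hadd x y h1 h2 => simp only [map_add, h1, h2]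
    | h m a ha =>
      rw [X.gn_alg ha, X.co_mon]
      split_ifs with e
      · subst e; rw [md_proj_same ha]
      · rw [md_proj_ne ha e, map_zero]
  refine ⟨fun h => md_mem_of_proj (𝒜 := 𝒜) fun n => ?_, fun h => Subtype.ext
    (Polynomial.ext fun n => (key n).trans ?_)⟩
  · rw [← X.ker n _ (md_proj_mem n a), ← key n,
      show algebraMap A X.Cn a = 0 from congrArg Subtype.val h, map_zero]
  · exact (X.ker n _ (md_proj_mem n a)).2 (md_proj_ideal (pr_hom _) n h)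

theorem gp_domain (X : Mo 𝒜 p) : IsDomain X.NR :=
  haveI : IsDomain X.Cn := inferInstanceAs (IsDomain X.L[X])
  inferInstance

theorem gp_char (X : Mo 𝒜 p) : CharP X.NR p :=
  haveI := gp_domain X
  (CharP.charP_iff_prime_eq_zero Fact.out).2
    ((map_natCast (algebraMap A X.NR) p).symm.trans ((gp_ker X _).2 X.x.2))

theorem gp_trdeg (X : Mo 𝒜 p) [Algebra (ZMod p) X.NR] :
    ((dm X.x + 1 : ℕ) : Cardinal) ≤ Algebra.trdeg (ZMod p) X.NR := by
  haveI := X.x.1.isPrime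
  haveI : CharP (A ⧸ pr X.x.1) p := (CharP.charP_iff_prime_eq_zero Fact.out).2
    ((map_natCast (Ideal.Quotient.mk _) p).symm.trans (Ideal.Quotient.eq_zero_iff_mem.2 X.x.2))
  letI : Algebra (ZMod p) (A ⧸ pr X.x.1) := ZMod.algebra _ p
  rw [← Dm_trdeg (Ideal.Quotient.mk _) Ideal.Quotient.mk_surjective X.x
    fun _ => Ideal.Quotient.eq_zero_iff_mem]
  exact trdeg_le_of_injective (g2_alg (p := p) (Ideal.Quotient.lift (pr X.x.1)
    (algebraMap A X.NR) fun a ha => (gp_ker X a).2 ha))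
    (RingHom.lift_injective_of_ker_le_ideal _ _ fun a ha => (gp_ker X a).1 ha)

/-- a point of the cone that factors through one component -/
theorem gp_ev {j : Comp 𝒜 p} {Y : Mo 𝒜 p} (φ : NC 𝒜 p →+* Y.L)
    (h0 : ∀ n x, (cN 𝒜 p).H n x → x j = 0 → φ x = 0)
    (h1 : ∀ a, φ (algebraMap A _ a) = Y.θ a) (hd : dm Y.x + 1 = dm j.1) :
    ∃ S : Sp (Xc j) Y, ∀ (n : ℕ) (z : Tu 𝒜 p) (hz : ∀ i, z i ∈ (Xc i).MD 0 n),
      φ (el n z hz) = S.ev 0 n (z j) := by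
  classical
  have hm : ∀ {n : ℕ} {z : (Xc j).L}, z ∈ (Xc j).MD 0 n →
      ∀ i, (Pi.single j z : Tu 𝒜 p) i ∈ (Xc i).MD 0 n := fun {n z} hz i => by
    by_cases e : i = j
    · subst e; rwa [Pi.single_eq_same]
    · rw [Pi.single_eq_of_ne e]; exact zero_mem _
  have key : ∀ (n : ℕ) (z w : Tu 𝒜 p) (hz : ∀ i, z i ∈ (Xc i).MD 0 n)
      (hw : ∀ i, w i ∈ (Xc i).MD 0 n), z j = w j → φ (el n z hz) = φ (el n w hw) :=
    fun n z w hz hw e => by
      rw [← sub_eq_zero, ← map_sub]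
      refine h0 n _ ((H_el n z hz).sub (H_el n w hw)) ?_
      rw [Pi.sub_apply, sub_eq_zero]
      exact Subtype.ext (congrArg ((Xc j).mon n) e)
  let ε : ℕ → (Xc j).L → Y.L := fun n z =>
    if h : z ∈ (Xc j).MD 0 n then φ (el n (Pi.single j z) (hm h)) else 0
  have e1 : ∀ (n : ℕ) (z : Tu 𝒜 p) (hz : ∀ i, z i ∈ (Xc i).MD 0 n),
      ε n (z j) = φ (el n z hz) := fun n z hz =>
    (dif_pos (hz j)).trans (key n _ _ _ _ (Pi.single_eq_same _ _))
  have e2 : ∀ (n : ℕ) (z : (Xc j).L) (hz : z ∈ (Xc j).MD 0 n),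
      ε n z = φ (el n (Pi.single j z) (hm hz)) := fun n z hz => dif_pos hz
  have hE : GEv (Xc j) Y ε := ⟨fun n z hz w hw => by
      rw [e2 n z hz, e2 n w hw, ← map_add, ← el_add, ← e1]
      simp only [Pi.add_apply, Pi.single_eq_same], fun n m z hz w hw => by
      rw [e2 n z hz, e2 m w hw, ← map_mul, el_mul, ← e1]
      simp only [Pi.mul_apply, Pi.single_eq_same], fun n a ha => by
      rw [← h1, el_alg ha, ← e1]⟩
  obtain ⟨S, hS⟩ := hE.exists_sp hd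
  exact ⟨S, fun n z hz => (e1 n z hz).symm.trans (hS n _ (hz j)).symm⟩

/-- a relevant component of the fibre product is diagonal or a pair -/
theorem g_pair (h : Hyp 𝒜) (ff : FFD 𝒜 p) {Q : Ideal (NC 𝒜 p ⊗[A] NC 𝒜 p)}
    (hQ : Q ∈ minimalPrimes (NC 𝒜 p ⊗[A] NC 𝒜 p)) (hr : ∃ l ∈ 𝒜 1, algebraMap A _ l ∉ Q) :
    (∀ x, j1 A _ _ x - j2 A _ _ x ∈ Q) ∨
    ∃ (j k : Comp 𝒜 p) (P : Pair (Xc j) (Xc k)) (ψ : NC 𝒜 p ⊗[A] NC 𝒜 p →+* P.Y.L), Off P ∧
      (∀ n x, ((cN 𝒜 p).ten (cN 𝒜 p)).H n x → ψ x = 0 → x ∈ Q) ∧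
      ∀ (n : ℕ) (z : Tu 𝒜 p) (hz : ∀ i, z i ∈ (Xc i).MD 0 n),
        ψ (j1 A _ _ (el n z hz)) = P.S.ev 0 n (z j) ∧
        ψ (j2 A _ _ (el n z hz)) = P.S'.ev 0 n (z k) := by
  obtain ⟨l, hl, hlQ⟩ := hr
  haveI := hQ.1.1
  haveI := NC_finite ff
  obtain ⟨j, hj⟩ := gp_pi (Q.comap (j1 A (NC 𝒜 p) (NC 𝒜 p)))
  obtain ⟨k, hk⟩ := gp_pi (Q.comap (j2 A (NC 𝒜 p) (NC 𝒜 p)))
  obtain ⟨y₀, hy1, hy2⟩ := g2c_pt (Q.comap (algebraMap A (NC 𝒜 p ⊗[A] NC 𝒜 p))) hl hlQ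
  have hpT : (p : NC 𝒜 p ⊗[A] NC 𝒜 p) = 0 := by
    rw [← map_natCast (j1 A (NC 𝒜 p) (NC 𝒜 p)), NC_p, map_zero]
  let y : Vp 𝒜 p := ⟨y₀, hy2 0 _ (md_natCast_mem p) (by
    rw [Ideal.mem_comap, map_natCast, hpT]; exact zero_mem _)⟩
  have hjy : pr j.1.1 ≤ pr y.1 := md_le_of_hom (pr_hom _) fun n a ha h1 =>
    hy2 n a ha (hj (algebraMap A _ a) ((gp_ker (Xc j) a).2 h1))
  have hky : pr k.1.1 ≤ pr y.1 := md_le_of_hom (pr_hom _) fun n a ha h1 => hy2 n a ha (by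
    have := hk (algebraMap A _ a) ((gp_ker (Xc k) a).2 h1)
    rwa [Ideal.mem_comap, j2_alg] at this)
  have hd : 2 ≤ dm y := by
    obtain ⟨Q', hQ', e⟩ := gp_min (Pi.evalAlgHom A (fun i => (Xc i).NR) j)
      (Pi.evalAlgHom A (fun i => (Xc i).NR) k) (Function.surjective_eval j)
      (Function.surjective_eval k) hQ hj hk
    haveI := gp_domain (Xc j)
    haveI := gp_domain (Xc k)
    haveI := gp_char (Xc j)
    haveI := gp_char (Xc k)
    letI : Algebra (ZMod p) (Xc j).NR := ZMod.algebra _ p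
    letI : Algebra (ZMod p) (Xc k).NR := ZMod.algebra _ p
    haveI := (Xc j).NR_finite (ff j 0)
    haveI := (Xc k).NR_finite (ff k 0)
    have t1 := gp_trdeg (Xc j)
    have t2 := gp_trdeg (Xc k)
    rw [show dm (Xc j).x = 3 from dm_Comp h j] at t1
    rw [show dm (Xc k).x = 3 from dm_Comp h k] at t2
    exact g2_surf h t1 t2 hQ' hl (fun c => hlQ ((e l).1 c)) y fun a ha => (e a).2 (hy1 ha)
  have diag : (∀ n z hz, j1 A _ _ (el n z hz) - j2 A _ _ (el n z hz) ∈ Q) →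
      ∀ x : NC 𝒜 p, j1 A _ _ x - j2 A _ _ x ∈ Q := fun hz x => by
    induction x using (cN 𝒜 p).ind' with
    | h0 => simp
    | hadd x w h1 h2 => rw [map_add, map_add, add_sub_add_comm]; exact add_mem h1 h2
    | h n x hx =>
      obtain ⟨z, hz', rfl⟩ := H_iff.1 hx
      exact hz n z hz'
  rcases (dm_le_three h y).lt_or_eq with h3 | h3
  swap
  · have e1 : j.1 = y := eq_of_dm hjy (by rw [dm_Comp h j, h3])
    have e2 : k.1 = y := eq_of_dm hky (by rw [dm_Comp h k, h3])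
    obtain rfl : j = k := Subtype.ext (e1.trans e2.symm)
    refine Or.inl (diag fun n z hz => ?_)
    obtain ⟨m, a, ha, b, hb, hb', e⟩ := th_gen j.1.1 (z j)
    have hw : (algebraMap A _ b * el n z hz - algebraMap A (NC 𝒜 p) (a * ell j.1.1 ^ n)) j = 0 := by
      rw [el_alg hb, el_alg (SetLike.mul_mem_graded ha (md_pow_mem (ell_spec j.1.1).1 n)), el_mul,
        Pi.sub_apply, sub_eq_zero]
      refine Subtype.ext (congrArg ((Xc j).mon (m + n)) ?_)
      change th j.1.1 b * (show kap j.1.1 from z j) = th j.1.1 (a * ell j.1.1 ^ n)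
      rw [map_mul, map_pow, th_ell, one_pow, mul_one, e,
        mul_div_cancel₀ _ fun c => hb' ((th_eq_zero _ hb).1 c)]
    have h4 := sub_mem (Ideal.mem_comap.1 (hj _ hw)) (Ideal.mem_comap.1 (hk _ hw))
    rw [map_sub, map_sub, j1_alg, j2_alg, sub_sub_sub_cancel_right, map_mul, map_mul, j1_alg,
      j2_alg, ← mul_sub] at h4
    refine (hQ.1.1.mem_or_mem h4).resolve_left fun c => hb' ?_
    rw [e1]
    exact hy2 m b hb c
  have h2 : dm y = 2 := by omega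
  let ψ₁ := algebraMap (NC 𝒜 p ⊗[A] NC 𝒜 p) Q.ResidueField
  have k1 : ∀ x, ψ₁ x = 0 ↔ x ∈ Q := fun x => Ideal.algebraMap_residueField_eq_zero
  have t0 : ψ₁ (algebraMap A _ (ell y.1)) ≠ 0 := fun c =>
    (ell_spec y.1).2 (hy2 1 _ (ell_spec y.1).1 ((k1 _).1 c))
  obtain ⟨L, _, ι, ψ, hι, hL⟩ := gp_frac
    (((cN 𝒜 p).ten (cN 𝒜 p)).sc (ψ₁ (algebraMap A _ (ell y.1)))⁻¹ ψ₁)
  have k2 : ∀ n x, ((cN 𝒜 p).ten (cN 𝒜 p)).H n x → (ψ x = 0 ↔ x ∈ Q) := fun n x hx => by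
    rw [← map_eq_zero_iff ι ι.injective, hι, CoA.sc_H _ _ hx, mul_eq_zero, k1,
      or_iff_left (pow_ne_zero _ (inv_ne_zero t0))]
  haveI : CharP L p := (CharP.charP_iff_prime_eq_zero Fact.out).2 (by
    rw [← map_natCast ψ, hpT, map_zero])
  letI : Algebra (ZMod p) L := ZMod.algebra _ p
  let Y : Mo 𝒜 p :=
    { L := L
      θ := ψ.comp (algebraMap A _)
      x := y
      ker := fun n a ha => (k2 n _ (CoA.H.alg ha)).trans ⟨hy2 n a ha, fun c => hy1 c⟩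
      one := ι.injective (by
        rw [RingHom.comp_apply, hι, CoA.sc_H _ _ (CoA.H.alg (ell_spec y.1).1), pow_one,
          mul_inv_cancel₀ t0, map_one])
      fin := n1c_fin (B := A) _ ψ (fun b => Subfield.subset_closure ⟨b, rfl⟩) hL }
  obtain ⟨S, hS⟩ := gp_ev (j := j) (Y := Y) (ψ.comp (j1 A _ _))
    (fun n x hx e => (k2 n _ hx.inl).2 (hj x e)) (fun a => rfl) (by rw [dm_Comp h j]; exact h2 ▸ rfl)
  obtain ⟨S', hS'⟩ := gp_ev (j := k) (Y := Y) (ψ.comp (j2 A _ _))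
    (fun n x hx e => (k2 n _ hx.inr).2 (hk x e)) (fun a => congrArg ψ (j2_alg a))
    (by rw [dm_Comp h k]; exact h2 ▸ rfl)
  have hgen : Subfield.closure (Set.range S.ρ ∪ Set.range S'.ρ) = ⊤ := by
    have k3 : ∀ x, ψ x ∈ Subfield.closure (Set.range S.ρ ∪ Set.range S'.ρ) := fun x => by
      induction x using CoA.ten_ind (cN 𝒜 p) (cN 𝒜 p) with
      | h0 => rw [map_zero]; exact zero_mem _
      | hadd x w h1 h2 => rw [map_add]; exact add_mem h1 h2
      | h n m x w hx hw =>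
        obtain ⟨z, hz, rfl⟩ := H_iff.1 hx
        obtain ⟨z', hz', rfl⟩ := H_iff.1 hw
        rw [← j1_mul_j2, map_mul]
        refine mul_mem (Subfield.subset_closure (Or.inl ⟨⟨_, hz j _ S.mem⟩, ?_⟩))
          (Subfield.subset_closure (Or.inr ⟨⟨_, hz' k _ S'.mem⟩, ?_⟩))
        · exact ((hS n z hz).trans (S.ev_eq _)).symm
        · exact ((hS' m z' hz').trans (S'.ev_eq _)).symm
    refine eq_top_iff.2 fun z _ => ?_
    obtain ⟨r, s, rfl⟩ := hL z
    exact div_mem (k3 r) (k3 s)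
  by_cases ho : Off (⟨Y, S, S', hgen⟩ : Pair (Xc j) (Xc k))
  · exact Or.inr ⟨j, k, ⟨Y, S, S', hgen⟩, ψ, ho, fun n x hx => (k2 n x hx).1,
      fun n z hz => ⟨hS n z hz, hS' n z hz⟩⟩
  refine Or.inl (diag fun n z hz => (k2 n _ ((H_el n z hz).inl.sub (H_el n z hz).inr)).1 ?_)
  rw [map_sub, sub_eq_zero]
  by_contra c
  exact ho ⟨z, n, hz, fun e => c ((hS n z hz).trans (e.trans (hS' n z hz).symm))⟩

end

end Pool.Agent.Lib.MP_62d77c_ag.R
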