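import Pool.Agent.Lib.MP_62d77c_ag.R.N1f
import Pool.Agent.Lib.MP_62d77c_ag.R.St
import Pool.Agent.Lib.MP_62d77c_ag.R.Dm

/-! Cartier divisors. -/

set_option autoImplicit false
set_option linter.unusedSectionVars false
set_option linter.style.haveILetI false

namespace Pool.Agent.Lib.MP_62d77c_ag.R

open Filter Polynomial Submodule

noncomputable section

/-- an invertible fractional ideal of a semilocal ring is principal -/
theorem nc_semiloc {L : Type} [Field L] {R : Subring L} (hf : {m : Ideal R | m.IsMaximal}.Finite)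
    {M M' : Submodule R L} (h1 : ∀ u ∈ M, ∀ v ∈ M', u * v ∈ R) (h2 : (1 : L) ∈ M * M') :
    ∃ u ∈ M, ∃ v ∈ M', u * v = 1 := by
  classical
  haveI := hf.fintype
  have k1 : ∀ m : {m : Ideal R | m.IsMaximal}, ∃ u ∈ M, ∃ v ∈ M', ∃ r : R, r ∉ m.1 ∧ u * v = r := by
    intro m
    by_contra hc
    push Not at hc
    have : ∀ z ∈ M * M', ∃ r ∈ m.1, z = r := fun z hz => by
      refine Submodule.mul_induction_on hz (fun u hu v hv => ⟨⟨_, h1 u hu v hv⟩, ?_, rfl⟩) ?_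
      · by_contra e
        exact hc u hu v hv _ e rfl
      · rintro _ _ ⟨r, hr, rfl⟩ ⟨s, hs, rfl⟩
        exact ⟨r + s, add_mem hr hs, rfl⟩
    obtain ⟨r, hr, e⟩ := this 1 h2
    exact m.2.ne_top ((Ideal.eq_top_iff_one _).2 ((Subtype.ext e.symm : r = 1) ▸ hr))
  have k2 : ∀ m : {m : Ideal R | m.IsMaximal}, ∃ c : R, c ∉ m.1 ∧ ∀ m', m' ≠ m → c ∈ m'.1 := by
    intro m
    have : ∀ m' : {m' : {m : Ideal R | m.IsMaximal} // m' ≠ m}, ∃ c ∈ m'.1.1, c ∉ m.1 := fun m' =>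
      SetLike.not_le_iff_exists.1 fun hle => m'.2 (Subtype.ext (m'.1.2.eq_of_le m.2.ne_top hle))
    choose c hc hc' using this
    haveI := m.2.isPrime
    exact ⟨∏ m', c m', m.1.primeCompl.prod_mem fun m' _ => hc' m', fun m' e =>
      Ideal.prod_mem _ (Finset.mem_univ ⟨m', e⟩) (hc ⟨m', e⟩)⟩
  choose u hu v hv r hr e using k1
  choose c hc hc' using k2
  have hU : ∑ m, c m • u m ∈ M := sum_mem fun m _ => M.smul_mem _ (hu m)
  let J : Ideal R := (M'.map (LinearMap.mulLeft R (∑ m, c m • u m))).comap (Algebra.linearMap R L)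
  have hJ : J = ⊤ := by
    by_contra hne
    obtain ⟨m, hm, hle⟩ := Ideal.exists_le_maximal J hne
    let m₀ : {m : Ideal R | m.IsMaximal} := ⟨m, hm⟩
    let w : {m : Ideal R | m.IsMaximal} → R := fun m' => ⟨_, h1 _ (hu m') _ (hv m₀)⟩
    have h3 : ∑ m', c m' * w m' ∈ m := hle ⟨v m₀, hv m₀, by
      simp [w, Finset.sum_mul, Subring.smul_def, mul_assoc]; rfl⟩
    rw [← Finset.add_sum_erase _ _ (Finset.mem_univ m₀)] at h3
    have h4 := (Submodule.add_mem_iff_left _ (sum_mem fun m' hm' => Ideal.mul_mem_right _ _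
      (hc' m' m₀ (Finset.ne_of_mem_erase hm').symm))).1 h3
    rw [show w m₀ = r m₀ from Subtype.ext (e m₀)] at h4
    exact (hm.isPrime.mem_or_mem h4).elim (hc m₀) (hr m₀)
  obtain ⟨v', hv', e'⟩ := (Ideal.eq_top_iff_one _).1 hJ
  exact ⟨_, hU, v', hv', by simpa using e'⟩

variable {A : Type} [CommRing A] [IsDomain A] {𝒜 : ℕ → AddSubgroup A} [GradedRing 𝒜]
  [hG : Fact (Gen 𝒜)] {p : ℕ} [Fact p.Prime]

theorem nc_mem_fmul {X : Mo 𝒜 p} {N N' : X.Fa} {i j : ℕ} {u v : X.L} (hu : u ∈ N i)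
    (hv : v ∈ N' j) : u * v ∈ Mo.fmul N N' (i + j) := subset_span ⟨i, j, rfl, u, hu, v, hv, rfl⟩

theorem nc_fmul_comm {X : Mo 𝒜 p} (N N' : X.Fa) : Mo.fmul N N' = Mo.fmul N' N := by
  have : ∀ N N' : X.Fa, Mo.fmul N N' ≤ Mo.fmul N' N := fun N N' n => span_mono <| by
    rintro _ ⟨i, j, e, u, hu, v, hv, rfl⟩
    exact ⟨j, i, by omega, v, hv, u, hu, mul_comm _ _⟩
  exact le_antisymm (this _ _) (this _ _)

theorem nc_fmul_ind {X : Mo 𝒜 p} {N N' : X.Fa} {n : ℕ} {P : X.L → Prop} (h0 : P 0)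
    (hadd : ∀ a b, P a → P b → P (a + b))
    (h : ∀ i j, i + j = n → ∀ u ∈ N i, ∀ v ∈ N' j, P (u * v)) {z : X.L}
    (hz : z ∈ Mo.fmul N N' n) : P z := by
  have : ∀ c : ZMod p, P (c • z) := by
    induction hz using span_induction with
    | mem w hw =>
      obtain ⟨i, j, e, u, hu, v, hv, rfl⟩ := hw
      exact fun c => smul_mul_assoc c u v ▸ h i j e _ (smul_mem _ c hu) v hv
    | zero => simpa using h0
    | add a b _ _ h1 h2 => exact fun c => smul_add c a b ▸ hadd _ _ (h1 c) (h2 c)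
    | smul d a _ h1 => exact fun c => smul_smul c d a ▸ h1 (c * d)
  simpa using this 1

theorem nc_fmul_md (X : Mo 𝒜 p) {D D' E E' : Dvs X.L} {n m : ℕ} {z w : X.L}
    (hz : z ∈ Mo.fmul (X.MD D) (X.MD E) n) (hw : w ∈ Mo.fmul (X.MD D') (X.MD E') m) :
    z * w ∈ Mo.fmul (X.MD (D + D')) (X.MD (E + E')) (n + m) := by
  refine nc_fmul_ind (P := fun z => z * w ∈ _) (by simp) (fun a b h1 h2 => ?_)
    (fun i j e u hu v hv => ?_) hz
  · rw [add_mul]; exact add_mem h1 h2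
  refine nc_fmul_ind (P := fun w => u * v * w ∈ _) (by simp) (fun a b h1 h2 => ?_)
    (fun i' j' e' u' hu' v' hv' => ?_) hw
  · rw [mul_add]; exact add_mem h1 h2
  · rw [mul_mul_mul_comm, show n + m = i + i' + (j + j') by omega]
    exact nc_mem_fmul (X.mul_mem_MD hu hu') (X.mul_mem_MD hv hv')

theorem nc_cartAt (X : Mo 𝒜 p) {D : Dvs X.L} {y : Pt 𝒜} : X.CartAt D y ↔
    ∃ n, ∃ s ∈ 𝒜 n, s ∉ pr y ∧ X.θ s ∈ Mo.fmul (X.MD D) (X.MD (-D)) n := by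
  simp only [Mo.CartAt, Mo.stk, Set.mem_setOf_eq, mul_one]

theorem cartAt_zero (X : Mo 𝒜 p) (y : Pt 𝒜) : X.CartAt 0 y := by
  have h1 := X.th_mem_MD (SetLike.one_mem_graded 𝒜)
  refine (nc_cartAt X).2 ⟨0 + 0, 1, SetLike.one_mem_graded 𝒜, md_one_not_mem y, ?_⟩
  simpa using nc_mem_fmul h1 h1

theorem cartAt_neg (X : Mo 𝒜 p) {D : Dvs X.L} {y : Pt 𝒜} (h : X.CartAt D y) :
    X.CartAt (-D) y := by
  rw [Mo.CartAt, neg_neg, nc_fmul_comm]; exact h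

theorem cartAt_add (X : Mo 𝒜 p) {D D' : Dvs X.L} {y : Pt 𝒜} (h : X.CartAt D y)
    (h' : X.CartAt D' y) : X.CartAt (D + D') y := by
  obtain ⟨n, s, hs, h1, h2⟩ := (nc_cartAt X).1 h
  obtain ⟨m, t, ht, h3, h4⟩ := (nc_cartAt X).1 h'
  refine (nc_cartAt X).2 ⟨n + m, s * t, SetLike.mul_mem_graded hs ht, md_mul_not_mem h1 h3, ?_⟩
  rw [map_mul, neg_add]
  exact nc_fmul_md X h2 h4

theorem cartAt_nsmul (X : Mo 𝒜 p) {D : Dvs X.L} {y : Pt 𝒜} (h : X.CartAt D y) (n : ℕ) :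
    X.CartAt (n • D) y := by
  induction n with
  | zero => rw [zero_nsmul]; exact cartAt_zero X y
  | succ n ih => rw [succ_nsmul]; exact cartAt_add X ih h

theorem cartAt_zsmul (X : Mo 𝒜 p) {D : Dvs X.L} {y : Pt 𝒜} (h : X.CartAt D y) (n : ℤ) :
    X.CartAt (n • D) y := by
  obtain ⟨n, rfl | rfl⟩ := n.eq_nat_or_neg
  · rw [natCast_zsmul]; exact cartAt_nsmul X h n
  · rw [neg_zsmul, natCast_zsmul]; exact cartAt_neg X (cartAt_nsmul X h n)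

theorem cartAt_mono (X : Mo 𝒜 p) {D : Dvs X.L} {y z : Pt 𝒜} (h : X.CartAt D z)
    (hle : pr y ≤ pr z) : X.CartAt D y := by
  obtain ⟨n, s, hs, h1, h2⟩ := h
  exact ⟨n, s, hs, fun e => h1 (hle e), h2⟩

theorem cartAt_off (X : Mo 𝒜 p) (D : Dvs X.L) {y : Pt 𝒜} (hy : ¬pr X.x.1 ≤ pr y) :
    X.CartAt D y := by
  rw [Mo.CartAt, stk_off X _ hy]; trivial

theorem nc_finite_max (X : Mo 𝒜 p) {y : Pt 𝒜} (hy : pr X.x.1 ≤ pr y) :
    {m : Ideal (X.nl y) | m.IsMaximal}.Finite := by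
  haveI := X.M.orng_local (X.on_iff.2 hy)
  haveI := X.nl_finite hy
  refine (Algebra.QuasiFinite.finite_primesOver (S := integralClosure (X.M.orng y) X.L)
    (IsLocalRing.maximalIdeal (X.M.orng y))).subset fun m hm => ?_
  haveI : Ideal.IsMaximal (α := integralClosure (X.M.orng y) X.L) m := hm
  exact ⟨hm.isPrime, ⟨(IsLocalRing.eq_maximalIdeal
    (Ideal.isMaximal_comap_of_isIntegral_of_isMaximal (R := X.M.orng y) _)).symm⟩⟩

theorem nc_one_mem (X : Mo 𝒜 p) {D E : Dvs X.L} {y : Pt 𝒜} (hy : pr X.x.1 ≤ pr y) {z : X.L}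
    (h : z ∈ X.stk (Mo.fmul (X.MD D) (X.MD E)) y) : z ∈ Dv (X.nl y) D * Dv (X.nl y) E := by
  obtain ⟨n, s, hs, h1, h2⟩ := h
  have h3 : X.θ s * z / X.θ (ell y) ^ n ∈ Dv (X.nl y) D * Dv (X.nl y) E := by
    refine nc_fmul_ind (P := fun w => w / X.θ (ell y) ^ n ∈ _) (by simp) (fun a b h1 h2 => ?_)
      (fun i j e u hu v hv => ?_) h2
    · rw [add_div]; exact add_mem h1 h2
    · rw [← e, pow_add, ← div_mul_div_comm]
      exact mul_mem_mul (X.stk_MD hy D ▸ div_mem_stk X hu :) (X.stk_MD hy E ▸ div_mem_stk X hv :)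
  have := smul_mem _ ⟨_, X.orng_le_nl y
    (X.M.div_mem_fr (T := (pr y).primeCompl) (md_pow_mem (ell_spec y).1 n) hs h1)⟩ h3
  convert this using 1
  have a := X.th_ne' hy hs h1
  have b := X.ell_ne hy
  change z = X.θ _ / X.θ s * _
  rw [map_pow]
  field_simp

theorem nc_mul_stk (X : Mo 𝒜 p) {N N' : X.Fa} {y : Pt 𝒜} {u v : X.L} (hu : u ∈ X.stk N y)
    (hv : v ∈ X.stk N' y) : u * v ∈ X.stk (Mo.fmul N N') y := by
  obtain ⟨n, s, hs, h1, h2⟩ := hu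
  obtain ⟨m, t, ht, h3, h4⟩ := hv
  refine ⟨n + m, s * t, SetLike.mul_mem_graded hs ht, md_mul_not_mem h1 h3, ?_⟩
  rw [map_mul, mul_mul_mul_comm]
  exact nc_mem_fmul h2 h4

theorem cartAt_iff (X : Mo 𝒜 p) (D : Dvs X.L) {y : Pt 𝒜} (hy : pr X.x.1 ≤ pr y) :
    X.CartAt D y ↔ ∃ g : X.L, g ≠ 0 ∧ ∀ O ∈ X.PD, pr (X.cen O).1 ≤ pr y → ord O g = -D O := by
  constructor
  · intro h
    obtain ⟨u, hu, v, hv, e⟩ := nc_semiloc (nc_finite_max X hy)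
      (fun u hu v hv => (X.nrm_nl hy).mul_mem_of_neg hu hv) (nc_one_mem X hy h)
    exact ⟨u, left_ne_zero_of_mul_eq_one e, fun O hO hle =>
      ((X.nrm_nl hy).ord_of_mul hu hv ((X.ht1_nl hy).2 ⟨hO, hle⟩) (by rw [e, map_one])).1⟩
  · rintro ⟨g, g0, hg⟩
    rw [Mo.CartAt, ← mul_inv_cancel₀ g0]
    refine nc_mul_stk X ((mem_stk_md X _ hy _).2 fun O hO hle => ?_)
      ((mem_stk_md X _ hy _).2 fun O hO hle => ?_)
    · rw [(pd_disc X hO).mul_mem_iff g0, hg O hO hle]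
    · rw [(pd_disc X hO).mul_mem_iff (inv_ne_zero g0), (pd_disc X hO).ord_inv g0, hg O hO hle,
        Finsupp.neg_apply]

theorem cartAt_big (X : Mo 𝒜 p) (D : Dvs X.L) (y : Vp 𝒜 p) (hd : dm X.x ≤ dm y + 1) :
    X.CartAt D y.1 := by
  by_cases hy : pr X.x.1 ≤ pr y.1
  · obtain ⟨g, g0, hg, -⟩ := (X.nrm_nl hy).exists_span (X.finite_ht1_nl hy hd) D
    exact (cartAt_iff X D hy).2 ⟨g, g0, fun O hO hle => hg O ((X.ht1_nl hy).2 ⟨hO, hle⟩)⟩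
  · exact cartAt_off X D hy

theorem cart_of_closed (X : Mo 𝒜 p) (D : Dvs X.L)
    (h : ∀ y : Vp 𝒜 p, dm y = 0 → ∃ n : ℕ, 0 < n ∧ X.CartAt (n • D) y.1) :
    ∃ n : ℕ, 0 < n ∧ X.Cart (n • D) := by
  haveI := noeth_of_gen 𝒜
  obtain ⟨t, ht, e⟩ := (fg_span_iff_fg_span_finset_subset (R := A) {s : A | ∃ n : ℕ, 0 < n ∧
    ∃ k, s ∈ 𝒜 k ∧ X.θ s ∈ Mo.fmul (X.MD (n • D)) (X.MD (-(n • D))) k}).1
      (IsNoetherian.noetherian _)
  have ht' : ∀ s ∈ t, ∃ n : ℕ, 0 < n ∧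
    ∃ k, s ∈ 𝒜 k ∧ X.θ s ∈ Mo.fmul (X.MD (n • D)) (X.MD (-(n • D))) k := fun s hs => ht hs
  choose! n hn hk using ht'
  refine ⟨∏ s ∈ t, n s, Finset.prod_pos hn, fun y => ?_⟩
  by_cases hy : pr X.x.1 ≤ pr y
  swap
  · exact cartAt_off X _ hy
  obtain ⟨z, hz, h0⟩ := exists_closed (⟨y, hy X.x.2⟩ : Vp 𝒜 p)
  obtain ⟨m, hm, h1⟩ := h z h0
  obtain ⟨l, s, h2, h3, h4⟩ := (nc_cartAt X).1 (cartAt_mono X h1 hz)
  obtain ⟨s', h5, h6⟩ : ∃ s' ∈ t, s' ∉ pr y := by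
    by_contra hc
    push Not at hc
    exact h3 (span_le.2 hc (e ▸ subset_span ⟨m, hm, l, h2, h4⟩))
  classical
  rw [← Finset.prod_erase_mul _ _ h5, mul_nsmul']
  obtain ⟨k, hk1, hk2⟩ := hk s' h5
  exact cartAt_nsmul X ((nc_cartAt X).2 ⟨_, s', hk1, h6, hk2⟩) _

end

end Pool.Agent.Lib.MP_62d77c_ag.R
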