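import Pool.Agent.Lib.MP_62d77c_ag.R.GD
import Pool.Agent.Lib.MP_62d77c_ag.R.GP
import Pool.Agent.Lib.MP_62d77c_ag.R.Bar
import Pool.Agent.Lib.MP_62d77c_ag.R.NC

/-! Descent of a tuple of Cartier divisors to the reduced fibre, up to a multiple. -/

set_option autoImplicit false
set_option linter.unusedSectionVars false

namespace Pool.Agent.Lib.MP_62d77c_ag.R

open Filter Polynomial Submodule
open scoped TensorProduct

noncomputable section

variable {A : Type} [CommRing A] [IsDomain A] {𝒜 : ℕ → AddSubgroup A} [GradedRing 𝒜]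
  [hG : Fact (Gen 𝒜)] {p : ℕ} [Fact p.Prime]

section mo
variable {X X' Y : Mo 𝒜 p}

theorem ge_md_pow {D : Dvs X.L} {n : ℕ} {z : X.L} (hz : z ∈ X.MD D n) (k : ℕ) :
    z ^ k ∈ X.MD (k • D) (k * n) := by
  induction k with
  | zero => simpa using X.th_mem_MD (SetLike.one_mem_graded 𝒜)
  | succ k ih =>
    rw [pow_succ, succ_nsmul, Nat.succ_mul]
    exact X.mul_mem_MD ih hz

theorem ge_bar_pow (S : Sp X Y) {D : Dvs X.L} {n : ℕ} {u : Y.L} (hu : u ∈ S.bar D n) (k : ℕ) :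
    u ^ k ∈ S.bar (k • D) (k * n) := by
  induction k with
  | zero => simpa using S.br_one
  | succ k ih =>
    rw [pow_succ, succ_nsmul, Nat.succ_mul]
    exact S.br_mul _ _ _ _ (mul_mem_mul ih hu)

theorem ge_cart {D : Dvs X.L} (h : X.Cart D) :
    ∀ᶠ b in atTop, ∀ l ∈ 𝒜 1, X.θ l ^ (b + b) ∈ X.MD D b * X.MD (-D) b := by
  obtain ⟨t, ht⟩ := (br_cart h).exists
  filter_upwards [eventually_ge_atTop t] with b hb l hl
  have h1 : X.θ l ^ t ∈ Mo.fmul (X.MD D) (X.MD (-D)) t := by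
    rw [← map_pow]
    exact ht (X.M.th_mem_pow (md_pow_mem hl t))
  rw [show b + b = b + b - t + t by omega, pow_add]
  refine nc_fmul_ind (P := fun z => X.θ l ^ (b + b - t) * z ∈ _) (by simp) (fun u v h1 h2 => ?_)
    (fun i j e u hu v hv => ?_) h1
  · rw [mul_add]
    exact add_mem h1 h2
  · have h2 := X.th_mul_mem (md_pow_mem hl (b - i)) hu
    have h3 := X.th_mul_mem (md_pow_mem hl (b - j)) hv
    rw [Nat.sub_add_cancel (by omega), map_pow] at h2 h3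
    rw [show b + b - t = b - i + (b - j) by omega, pow_add, mul_mul_mul_comm]
    exact mul_mem_mul h2 h3

theorem ge_aux (P : Pair X X') {Z : Mo 𝒜 p} (S : Sp Z P.Y) (hS : ∀ n, S.bar 0 n ≤ P.OT n)
    {E : Dvs Z.L} {n m : ℕ} {w v : P.Y.L} (hw : w ∈ Mo.fmul (S.bar E) P.OT n)
    (hv : v ∈ S.bar (-E) m) : w * v ∈ P.OT (n + m) := by
  refine nc_fmul_ind (P := fun w => w * v ∈ _) (by simp) (fun a b h1 h2 => ?_)
    (fun i j e u hu o ho => ?_) hw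
  · rw [add_mul]
    exact add_mem h1 h2
  · have h1 := S.br_mul _ _ _ _ (mul_mem_mul hu hv)
    rw [add_neg_cancel] at h1
    rw [mul_right_comm, show n + m = i + m + j by omega]
    exact P.br_OT_mul _ _ (mul_mem_mul (hS _ h1) ho)

theorem ge_tors (P : Pair X X') {D : Dvs X.L} {D' : Dvs X'.L} (h : P.Tors D D') :
    ∃ N : ℕ, 0 < N ∧ ∃ f : P.Y.L, f ≠ 0 ∧ ∀ᶠ n in atTop,
      (∀ u ∈ P.S.bar (N • D) n, ∀ v ∈ P.S'.bar (N • -D') n, f * u * v ∈ P.OT (n + n)) ∧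
      ∀ u ∈ P.S'.bar (N • D') n, ∀ v ∈ P.S.bar (N • -D) n, u * (f⁻¹ * v) ∈ P.OT (n + n) := by
  obtain ⟨N, hN, f, hf, h⟩ := h
  refine ⟨N, hN, f, hf, h.mono fun n hn => ⟨fun u hu v hv => ?_, fun u hu v hv => ?_⟩⟩
  · rw [smul_neg] at hv
    refine ge_aux P P.S' P.br_le_OT' ?_ hv
    rw [hn]
    refine mul_mem_mul (mem_span_singleton_self f) ?_
    simpa using nc_mem_fmul hu (P.br_le_OT 0 P.S.br_one)
  · rw [smul_neg] at hv
    have h1 : u ∈ Mo.fmul (P.S'.bar (N • D')) P.OT n := by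
      simpa using nc_mem_fmul hu (P.br_le_OT 0 P.S.br_one)
    rw [hn] at h1
    obtain ⟨w, hw, rfl⟩ := mem_span_singleton_mul.1 h1
    rw [mul_mul_mul_comm, mul_inv_cancel₀ hf, one_mul]
    exact ge_aux P P.S P.br_le_OT hw hv

end mo

open Classical in
theorem ge_single {N : ∀ j : Comp 𝒜 p, Submodule (ZMod p) (Xc j).L} {j : Comp 𝒜 p} {z : (Xc j).L}
    (hz : z ∈ N j) (i : Comp 𝒜 p) : (Pi.single j z : Tu 𝒜 p) i ∈ N i := by
  by_cases e : i = j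
  · subst e
    rwa [Pi.single_eq_same]
  · rw [Pi.single_eq_of_ne e]
    exact zero_mem _

theorem ge_ot {j k : Comp 𝒜 p} (P : Pair (Xc j) (Xc k)) (ψ : NC 𝒜 p ⊗[A] NC 𝒜 p →+* P.Y.L)
    (hψ : ∀ (n : ℕ) (z : Tu 𝒜 p) (hz : ∀ i, z i ∈ (Xc i).MD 0 n),
      ψ (j1 A _ _ (el n z hz)) = P.S.ev 0 n (z j) ∧ ψ (j2 A _ _ (el n z hz)) = P.S'.ev 0 n (z k))
    {n : ℕ} {u : P.Y.L} (hu : u ∈ P.OT n) : ∃ x, ((cN 𝒜 p).ten (cN 𝒜 p)).H n x ∧ ψ x = u := by
  classical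
  refine nc_fmul_ind (P := fun u => ∃ x, ((cN 𝒜 p).ten (cN 𝒜 p)).H n x ∧ ψ x = u)
    ⟨0, CoA.H.zero n, map_zero _⟩ ?_ (fun i i' e u hu v hv => ?_) hu
  · rintro _ _ ⟨x, hx, rfl⟩ ⟨y, hy, rfl⟩
    exact ⟨x + y, hx.add hy, map_add _ _ _⟩
  · obtain ⟨z, hz, rfl⟩ := P.S.br_mem.1 hu
    obtain ⟨w, hw, rfl⟩ := P.S'.br_mem.1 hv
    refine ⟨_, ((H_el i _ (ge_single (N := fun i₀ => (Xc i₀).MD 0 i) hz)).inl.mul
      (H_el i' _ (ge_single (N := fun i₀ => (Xc i₀).MD 0 i') hw)).inr).cast e, ?_⟩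
    rw [map_mul, (hψ _ _ _).1, (hψ _ _ _).2, Pi.single_eq_same, Pi.single_eq_same]

/-- tuples of sections -/
abbrev GI (D : DT 𝒜 p) (b : ℕ) : Type := ∀ j : Comp 𝒜 p, (Xc j).MD (D j) b

instance ge_finite (D : DT 𝒜 p) (b : ℕ) : Finite (GI D b) :=
  have := fun j => Module.Finite.iff_fg.2 ((ffd j (D j)).fd b)
  have := fun j => Module.finite_of_finite (ZMod p) (M := (Xc j).MD (D j) b)
  Pi.finite

instance ge_fintype (D : DT 𝒜 p) (b : ℕ) : Fintype (GI D b) := Fintype.ofFinite _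

theorem ge_neg (D : DT 𝒜 p) (j : Comp 𝒜 p) : D j + (-D) j = 0 := add_neg_cancel (D j)

theorem ge_mem {D : DT 𝒜 p} {b : ℕ} (α : GI D b) (β : GI (-D) b) (j : Comp 𝒜 p) :
    (α j).1 * (β j).1 ∈ (Xc j).MD 0 (b + b) := by
  have := (Xc j).mul_mem_MD (α j).2 (β j).2
  rwa [ge_neg] at this

/-- products of sections of `O(D)` and `O(-D)` -/
def gM (D : DT 𝒜 p) (b : ℕ) (α : GI D b) (β : GI (-D) b) : NC 𝒜 p :=
  el (b + b) (fun j => (α j).1 * (β j).1) (ge_mem α β)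

theorem ge_sys {D : DT 𝒜 p} (hD : ∀ j, (Xc j).Cart (D j)) :
    ∀ᶠ b in atTop, GSys (cN 𝒜 p) (gM D b) (b + b) := by
  classical
  filter_upwards [eventually_all.2 fun j => ge_cart (hD j), eventually_gt_atTop 0] with b hb h0
  refine ⟨by omega, fun α β => H_el _ _ _, fun α β γ δ => ?_, fun K _ a ⟨l, hl, h1⟩ => ?_⟩
  · unfold gM
    rw [el_mul, el_mul]
    exact el_congr rfl (funext fun j => by simp only [Pi.mul_apply]; ring)
  · by_contra hc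
    push Not at hc
    let T : Tu 𝒜 p → Prop := fun z => ∃ hz, a (el (b + b) z hz) = 0
    have t0 : T 0 := ⟨fun _ => zero_mem _, by rw [el_zero, map_zero]⟩
    have ta : ∀ z w, T z → T w → T (z + w) := fun z w ⟨hz, e⟩ ⟨hw, e'⟩ =>
      ⟨fun j => add_mem (hz j) (hw j), by rw [el_add hz hw, map_add, e, e', add_zero]⟩
    have t1 : ∀ j, T (Pi.single j ((Xc j).θ l ^ (b + b))) := fun j =>
      Submodule.mul_induction_on (C := fun z => T (Pi.single j z)) (hb j l hl)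
        (fun u hu v hv => by
          have h2 := hc (fun i => ⟨_, ge_single (N := fun i => (Xc i).MD (D i) b) hu i⟩)
            fun i => ⟨_, ge_single (N := fun i => (Xc i).MD (-D i) b) hv i⟩
          have e : (Pi.single j (u * v) : Tu 𝒜 p) = fun i => (Pi.single j u : Tu 𝒜 p) i *
              (Pi.single j v : Tu 𝒜 p) i := funext fun i => by
            by_cases e : i = j
            · subst e
              simp only [Pi.single_eq_same]
            · simp only [Pi.single_eq_of_ne e, mul_zero]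
          rw [e]
          exact ⟨_, h2⟩)
        fun z w hz hw => by
          rw [Pi.single_add]
          exact ta _ _ hz hw
    obtain ⟨hz, e⟩ := Finset.sum_induction _ T ta t0 fun j (_ : j ∈ Finset.univ) => t1 j
    refine pow_ne_zero (b + b) h1 ?_
    rw [← map_pow, ← map_pow, el_alg (md_pow_mem hl _), ← e]
    exact congrArg a (el_congr rfl ((_root_.funext fun j => map_pow _ _ _).trans
      (Finset.univ_sum_single fun j => (Xc j).θ l ^ (b + b)).symm))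

theorem ge_comp (h : Hyp 𝒜) {D : DT 𝒜 p}
    (hT : ∀ j k (P : Pair (Xc j) (Xc k)), Off P → P.Tors (D j) (D k))
    {Q : Ideal (NC 𝒜 p ⊗[A] NC 𝒜 p)} (hQ : Q ∈ minimalPrimes (NC 𝒜 p ⊗[A] NC 𝒜 p)) :
    ∀ᶠ b in atTop, GSys (cN 𝒜 p) (gM D b) (b + b) → (∃ l ∈ 𝒜 1, algebraMap A _ l ∉ Q) →
      ∃ n, 0 < n ∧ ∃ φ : GI D b → GI (-D) b → NC 𝒜 p ⊗[A] NC 𝒜 p,
        (∀ α β, ((cN 𝒜 p).ten (cN 𝒜 p)).H (n * (b + b)) (φ α β)) ∧
        ∀ (K : Type) [Field K] (ψ : NC 𝒜 p ⊗[A] NC 𝒜 p →+* K), Rel 𝒜 ψ → Q ≤ RingHom.ker ψ →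
          Ok (fun α β => gM D b α β ^ n) φ ψ := by
  by_cases hr : ∃ l ∈ 𝒜 1, algebraMap A _ l ∉ Q
  swap
  · exact Eventually.of_forall fun b _ h' => absurd h' hr
  rcases g_pair h ffd hQ hr with h1 | ⟨j, k, P, ψ₀, hP, h1, h2⟩
  · refine Eventually.of_forall fun b S _ => ⟨1, one_pos, fun α β => j1 A _ _ (gM D b α β ^ 1),
      fun α β => ((S.hom α β).pow 1).inl, fun K _ ψ hψ hle => ?_⟩
    obtain ⟨σ, τ, f⟩ := (S.pow one_pos).fc (rel_j1.2 hψ)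
    refine ⟨σ, τ, σ, τ, f, fun α β => Eq.trans ?_ (f α β), f⟩
    have := hle (h1 (gM D b α β ^ 1))
    rw [RingHom.mem_ker, map_sub, sub_eq_zero] at this
    exact this.symm
  · obtain ⟨N, hN, f, hf, h3⟩ := ge_tors P (hT j k P hP)
    obtain ⟨b₀, h3⟩ := eventually_atTop.1 h3
    filter_upwards [eventually_ge_atTop b₀] with b hb S _
    obtain ⟨h4, h5⟩ := h3 (N * b) (hb.trans (Nat.le_mul_of_pos_left b hN))
    rw [← mul_add] at h4 h5
    choose φ hφ hφ' using fun (α : GI D b) (β : GI (-D) b) => ge_ot P ψ₀ h2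
      (h4 _ (ge_bar_pow P.S (P.S.br_ev_mem (α j).2) N) _
        (ge_bar_pow P.S' (P.S'.br_ev_mem (β k).2) N))
    choose φ' hφ₁ hφ₁' using fun (α : GI D b) (β : GI (-D) b) => ge_ot P ψ₀ h2
      (h5 _ (ge_bar_pow P.S' (P.S'.br_ev_mem (α k).2) N) _
        (ge_bar_pow P.S (P.S.br_ev_mem (β j).2) N))
    refine ⟨N, hN, φ, hφ, fun K _ ψ hψ hle => (S.pow hN).ok_of_generic ψ₀ h1 hφ hφ₁
      (fun α β => ?_) (fun α β => ?_) hφ' hφ₁' ψ hψ hle⟩
    · rw [map_pow, RingHom.comp_apply, gM, (h2 _ _ _).1, mul_mul_mul_comm, mul_inv_cancel₀ hf,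
        one_mul, ← mul_pow, ← P.S.br_ev_mul (α j).2 (β j).2, ge_neg]
    · rw [map_pow, RingHom.comp_apply, gM, (h2 _ _ _).2, ← mul_pow,
        ← P.S'.br_ev_mul (α k).2 (β k).2, ge_neg]

theorem ge_val {ι : Type} [Fintype ι] (s : Sec (cN 𝒜 p) ι) (q : ℕ) (j : Comp 𝒜 p)
    {σ : ι → (Xc j).L} {E : Dvs (Xc j).L} {b : ℕ} (hσ : ∀ α, σ α ∈ (Xc j).MD E b) :
    s.val q (eN j) σ ∈ (Xc j).MD (q • E) (s.deg q + q * b) := by
  have h1 := (Xc j).mul_mem_MD (eN_H s.hu j) (ge_md_pow (sum_mem fun α (_ : α ∈ Finset.univ) =>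
    (Xc j).mul_mem_MD (eN_H (s.hx α) j) (hσ α)) q)
  rwa [zero_add, zero_add, mul_add, ← add_assoc] at h1

/-- a multiple of the tuple comes from a line bundle on the fibre -/
theorem g_descent (h : Hyp 𝒜) (D : DT 𝒜 p) (hD : ∀ j, (Xc j).Cart (D j))
    (hT : ∀ j k (P : Pair (Xc j) (Xc k)), Off P → P.Tors (D j) (D k)) :
    ∃ (N : ℕ) (ι : Type) (_ : Fintype ι) (b b₁ : ℕ) (G : ι → ι → A)
      (s t : ∀ j : Comp 𝒜 p, ι → (Xc j).L), 0 < N ∧ 0 < b + b₁ ∧ (∀ a c, G a c ∈ 𝒜 (b + b₁)) ∧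
      (∀ j a, s j a ∈ (Xc j).MD (N • D j) b) ∧ (∀ j a, t j a ∈ (Xc j).MD (-(N • D j)) b₁) ∧
      (∀ (j : Comp 𝒜 p) a c, (Xc j).θ (G a c) = s j a * t j c) ∧
      ∀ y : Vp 𝒜 p, ∃ a, G a a ∉ pr y.1 := by
  have := noeth_of_gen 𝒜
  have := NC_finite (𝒜 := 𝒜) (p := p) ffd
  have : IsNoetherianRing (NC 𝒜 p ⊗[A] NC 𝒜 p) := isNoetherian_of_tower A inferInstance
  obtain ⟨b, S, hb⟩ := ((ge_sys hD).and ((eventually_all_finite
    (minimalPrimes.finite_of_isNoetherianRing _)).2 fun Q hQ => ge_comp h hT hQ)).exists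
  obtain ⟨N, hN, Θ, hΘ, h1⟩ := S.glue p NC_p fun Q hQ => hb Q hQ S
  obtain ⟨M, hM, h2⟩ := (S.pow hN).des p NC_p hΘ h1
  obtain ⟨μ, _, q, d, d', s, t, G, hq, h3, h4, h5⟩ := ((S.pow hN).pow hM).descend p NC_p NC_ker
    (fun α β => (hΘ α β).pow M) h2
  have e : d + q * (M * (N * b)) + (d' + q * (M * (N * b))) = d + d' + q * (M * (N * (b + b))) := by
    ring
  refine ⟨q * (M * N), μ, inferInstance, d + q * (M * (N * b)), d' + q * (M * (N * b)), G,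
    fun j m => (s m).val q (eN j) fun α => ((α j).1 ^ N) ^ M,
    fun j m => (t m).val q (eN j) fun β => ((β j).1 ^ N) ^ M,
    Nat.mul_pos hq (Nat.mul_pos hM hN), ?_, fun m m' => e ▸ (h4 m m').1, fun j m => ?_,
    fun j m => ?_, fun j m m' => ?_, h5⟩
  · have := Nat.mul_pos hq ((S.pow hN).pow hM).pos
    omega
  · rw [← (h3 m).1, mul_smul, mul_smul]
    exact ge_val _ _ _ fun α => ge_md_pow (ge_md_pow (α j).2 N) M
  · rw [← (h3 m).2, ← smul_neg, mul_smul, mul_smul]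
    exact ge_val _ _ _ fun β => ge_md_pow (ge_md_pow (β j).2 N) M
  · refine (eN_alg j (h4 m m').1).symm.trans ?_
    rw [(h4 m m').2]
    refine Sec.map_pr _ _ _ _ fun α β => ?_
    rw [map_pow, map_pow, gM, eN_el, mul_pow, mul_pow]

end

end Pool.Agent.Lib.MP_62d77c_ag.R
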