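import Pool.Agent.Lib.MP_62d77c_ag.R.GA
import Pool.Agent.Lib.MP_62d77c_ag.R.Df
import Pool.Agent.Lib.MP_62d77c_ag.R.N1c

/-! The homogeneous coordinate ring of the normalisation of the reduced fibre. -/

set_option autoImplicit false
set_option linter.unusedSectionVars false

namespace Pool.Agent.Lib.MP_62d77c_ag.R

open Polynomial
open scoped TensorProduct

noncomputable section

variable {A : Type} [CommRing A] [IsDomain A] {𝒜 : ℕ → AddSubgroup A} [GradedRing 𝒜]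
  [hG : Fact (Gen 𝒜)] {p : ℕ} [Fact p.Prime]

namespace Mo

variable (X : Mo 𝒜 p)

theorem gn_mul {n m : ℕ} {z w : X.L} (hz : z ∈ X.MD 0 n) (hw : w ∈ X.MD 0 m) :
    z * w ∈ X.MD 0 (n + m) := fun O hO => by
  have h := mul_mem (hz O hO) (hw O hO)
  simp only [nm, Finsupp.coe_zero, Pi.zero_apply, zpow_zero, mul_one] at h ⊢
  rwa [div_mul_div_comm, ← pow_add] at h

theorem gn_th {n : ℕ} {a : A} (ha : a ∈ 𝒜 n) : X.θ a ∈ X.MD 0 n := fun O hO => by
  simp only [nm, Finsupp.coe_zero, Pi.zero_apply, zpow_zero, mul_one]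
  exact ((mem_PD.1 hO).1.2 n a ha).1

theorem gn_mon {n : ℕ} {z : X.L} (hz : z ∈ X.MD 0 n) (k : ℕ) : X.co k (X.mon n z) ∈ X.MD 0 k := by
  rw [co_mon]
  split_ifs with e
  · exact e ▸ hz
  · exact zero_mem _

theorem gn_alg {n : ℕ} {a : A} (ha : a ∈ 𝒜 n) : algebraMap A X.Cn a = X.mon n (X.θ a) :=
  X.cone_hom ha

theorem mon_mul (n m : ℕ) (z w : X.L) : X.mon n z * X.mon m w = X.mon (n + m) (z * w) :=
  monomial_mul_monomial n m z w

theorem co_mul' (n : ℕ) (F G : X.Cn) : X.co n (F * G) =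
    ∑ x ∈ Finset.HasAntidiagonal.antidiagonal n, X.co x.1 F * X.co x.2 G :=
  coeff_mul (show X.L[X] from F) G n

/-- the homogeneous coordinate ring of the normalisation -/
def NR : Subalgebra A X.Cn where
  carrier := {F | ∀ n, X.co n F ∈ X.MD 0 n}
  mul_mem' := fun {F G} hF hG' n => by
    rw [co_mul']
    exact sum_mem fun x hx => Finset.HasAntidiagonal.mem_antidiagonal.1 hx ▸
      X.gn_mul (hF _) (hG' _)
  add_mem' := fun {F G} hF hG' n => by rw [map_add]; exact add_mem (hF n) (hG' n)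
  algebraMap_mem' a := by
    induction a using hom_ind (𝒜 := 𝒜) with
    | h0 => intro n; simp
    | hadd x y h1 h2 => intro n; rw [map_add, map_add]; exact add_mem (h1 n) (h2 n)
    | h i a ha => rw [X.gn_alg ha]; exact X.gn_mon (X.gn_th ha)

theorem NR_finite (h : X.FF (X.MD 0)) : Module.Finite A X.NR :=
  Module.Finite.iff_fg (N := Subalgebra.toSubmodule X.NR).2 (X.gmS_fg h)

/-- dehomogenisation -/
def ev1 : X.Cn →+* X.L := evalRingHom 1

theorem ev1_mon (n : ℕ) (z : X.L) : X.ev1 (X.mon n z) = z := by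
  show eval 1 (monomial n z) = z
  simp

end Mo

variable (𝒜 p) in
/-- the homogeneous coordinate ring of the normalisation of the reduced fibre -/
abbrev NC : Type := ∀ j : Comp 𝒜 p, (Xc j).NR

/-- tuples of elements of the function fields -/
abbrev Tu (𝒜 : ℕ → AddSubgroup A) [GradedRing 𝒜] [Fact (Gen 𝒜)] (p : ℕ) [Fact p.Prime] : Type :=
  ∀ j : Comp 𝒜 p, (Xc j).L

/-- a homogeneous element -/
def el (n : ℕ) (z : Tu 𝒜 p) (hz : ∀ j, z j ∈ (Xc j).MD 0 n) : NC 𝒜 p :=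
  fun j => ⟨(Xc j).mon n (z j), (Xc j).gn_mon (hz j)⟩

/-- homogeneous component -/
def pjN (n : ℕ) (F : NC 𝒜 p) : NC 𝒜 p := el n (fun j => (Xc j).co n (F j).1) fun j => (F j).2 n

theorem el_congr {n m : ℕ} {z w : Tu 𝒜 p} {hz hw} (e : n = m) (e' : z = w) :
    el n z hz = el m w hw := by
  subst e e'; rfl

theorem el_mul {n m : ℕ} {z w : Tu 𝒜 p} (hz : ∀ j, z j ∈ (Xc j).MD 0 n)
    (hw : ∀ j, w j ∈ (Xc j).MD 0 m) :
    el n z hz * el m w hw = el (n + m) (z * w) fun j => (Xc j).gn_mul (hz j) (hw j) :=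
  funext fun j => Subtype.ext ((Xc j).mon_mul _ _ _ _)

theorem el_add {n : ℕ} {z w : Tu 𝒜 p} (hz : ∀ j, z j ∈ (Xc j).MD 0 n)
    (hw : ∀ j, w j ∈ (Xc j).MD 0 n) :
    el n (z + w) (fun j => add_mem (hz j) (hw j)) = el n z hz + el n w hw :=
  funext fun j => Subtype.ext ((Xc j).mon_add _ _ _)

theorem el_zero (n : ℕ) : el (𝒜 := 𝒜) (p := p) n 0 (fun _ => zero_mem _) = 0 :=
  funext fun j => Subtype.ext ((Xc j).mon_zero _)

theorem el_alg {n : ℕ} {a : A} (ha : a ∈ 𝒜 n) :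
    algebraMap A (NC 𝒜 p) a = el n (fun j => (Xc j).θ a) fun j => (Xc j).gn_th ha :=
  funext fun j => Subtype.ext ((Xc j).gn_alg ha)

theorem pjN_el (k n : ℕ) (z : Tu 𝒜 p) (hz : ∀ j, z j ∈ (Xc j).MD 0 n) :
    pjN k (el n z hz) = if n = k then el n z hz else 0 := by
  funext j
  refine Subtype.ext ?_
  show (Xc j).mon k ((Xc j).co k ((Xc j).mon n (z j))) = _
  rw [Mo.co_mon]
  split_ifs with e
  · subst e; rfl
  · exact (Xc j).mon_zero k

theorem pjN_add (n : ℕ) (F G : NC 𝒜 p) : pjN n (F + G) = pjN n F + pjN n G :=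
  funext fun j => Subtype.ext (by
    show (Xc j).mon n ((Xc j).co n ((F j).1 + (G j).1)) = _
    rw [map_add, Mo.mon_add]
    rfl)

theorem pjN_mul (n : ℕ) (F G : NC 𝒜 p) : pjN n (F * G) =
    ∑ x ∈ Finset.HasAntidiagonal.antidiagonal n, pjN x.1 F * pjN x.2 G :=
  funext fun j => Subtype.ext (by
    show (Xc j).mon n ((Xc j).co n ((F j).1 * (G j).1)) = _
    rw [Mo.co_mul', Finset.sum_apply, AddSubmonoidClass.coe_finsetSum]
    refine (map_sum (monomial n) _ _).trans (Finset.sum_congr rfl fun x hx => ?_)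
    rw [← Finset.HasAntidiagonal.mem_antidiagonal.1 hx]
    exact ((Xc j).mon_mul _ _ _ _).symm)

/-- the degrees that occur -/
def spN (F : NC 𝒜 p) : Finset ℕ :=
  Finset.univ.biUnion fun j => (show (Xc j).L[X] from (F j).1).support

theorem pjN_zero {F : NC 𝒜 p} {n : ℕ} (h : n ∉ spN F) : pjN n F = 0 :=
  funext fun j => Subtype.ext (by
    show (Xc j).mon n ((Xc j).co n (F j).1) = 0
    have : (Xc j).co n (F j).1 = 0 := notMem_support_iff.1 fun h' =>
      h (Finset.mem_biUnion.2 ⟨j, Finset.mem_univ j, h'⟩)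
    rw [this, Mo.mon_zero])

theorem sum_pjN (F : NC 𝒜 p) : ∑ n ∈ spN F, pjN n F = F :=
  funext fun j => Subtype.ext (by
    rw [Finset.sum_apply, AddSubmonoidClass.coe_finsetSum]
    refine (Finset.sum_subset (Finset.subset_biUnion_of_mem
      (fun j => (show (Xc j).L[X] from (F j).1).support) (Finset.mem_univ j))
      fun n _ hn => ?_).symm.trans ((Xc j).sum_mon (F j).1)
    show (Xc j).mon n ((Xc j).co n (F j).1) = 0
    have : (Xc j).co n (F j).1 = 0 := notMem_support_iff.1 hn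
    rw [this, Mo.mon_zero])

theorem coeff_dl (F : NC 𝒜 p) (k : ℕ) :
    (∑ n ∈ spN F, monomial n (pjN n F)).coeff k = pjN k F := by
  simp only [finsetSum_coeff, coeff_monomial, Finset.sum_ite_eq']
  split_ifs with h
  · rfl
  · exact (pjN_zero h).symm

theorem dl_el (n : ℕ) (z : Tu 𝒜 p) (hz : ∀ j, z j ∈ (Xc j).MD 0 n) :
    ∑ k ∈ spN (el n z hz), monomial k (pjN k (el n z hz)) = monomial n (el n z hz) :=
  Polynomial.ext fun k => by rw [coeff_dl, pjN_el, coeff_monomial]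

variable (𝒜 p) in
/-- the grading of the normalisation -/
def cN : CoA 𝒜 (NC 𝒜 p) where
  δ :=
    { toFun := fun F => ∑ n ∈ spN F, monomial n (pjN n F)
      map_one' := by
        rw [← map_one (algebraMap A (NC 𝒜 p)), el_alg (SetLike.one_mem_graded 𝒜), dl_el,
          ← el_alg (SetLike.one_mem_graded 𝒜), map_one, monomial_zero_one]
      map_mul' := fun F G => Polynomial.ext fun k => by
        simp only [coeff_mul, coeff_dl]
        exact pjN_mul k F G
      map_zero' := by rw [← el_zero 0, dl_el, el_zero, map_zero]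
      map_add' := fun F G => Polynomial.ext fun k => by
        simp only [coeff_add, coeff_dl]
        exact pjN_add k F G }
  alg n a ha := by rw [el_alg ha]; exact dl_el _ _ _
  ind P h0 hadd h F := by
    rw [← sum_pjN F]
    exact Finset.sum_induction _ P hadd h0 fun n _ => h n _ (dl_el _ _ _)

theorem H_el (n : ℕ) (z : Tu 𝒜 p) (hz : ∀ j, z j ∈ (Xc j).MD 0 n) : (cN 𝒜 p).H n (el n z hz) :=
  dl_el n z hz

theorem H_iff {n : ℕ} {F : NC 𝒜 p} : (cN 𝒜 p).H n F ↔ ∃ z hz, F = el n z hz :=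
  ⟨fun h => ⟨_, _, h.coeff.symm.trans (coeff_dl F n)⟩, fun ⟨z, hz, e⟩ => e ▸ H_el n z hz⟩

theorem NC_finite (ff : FFD 𝒜 p) : Module.Finite A (NC 𝒜 p) :=
  have := fun j => (Xc j).NR_finite (ff j 0)
  inferInstance

/-- dehomogenisation on a component -/
def eN (j : Comp 𝒜 p) : NC 𝒜 p →+* (Xc j).L :=
  ((Xc j).ev1.comp (Xc j).NR.val.toRingHom).comp (Pi.evalRingHom _ j)

theorem eN_el (j : Comp 𝒜 p) (n : ℕ) (z : Tu 𝒜 p) (hz : ∀ j, z j ∈ (Xc j).MD 0 n) :
    eN j (el n z hz) = z j := (Xc j).ev1_mon n (z j)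

theorem eN_alg (j : Comp 𝒜 p) {n : ℕ} {a : A} (ha : a ∈ 𝒜 n) :
    eN j (algebraMap A _ a) = th j.1.1 a := by
  rw [el_alg ha, eN_el]
  rfl

theorem eN_H {n : ℕ} {F : NC 𝒜 p} (h : (cN 𝒜 p).H n F) (j : Comp 𝒜 p) :
    eN j F ∈ (Xc j).MD 0 n := by
  obtain ⟨z, hz, rfl⟩ := H_iff.1 h
  rw [eN_el]
  exact hz j

theorem NC_p : (p : NC 𝒜 p) = 0 := by
  rw [← map_natCast (algebraMap A (NC 𝒜 p)), el_alg (md_natCast_mem p), ← el_zero 0]
  exact el_congr rfl (funext fun j => (map_natCast _ p).trans (Xc j).p_zero)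

theorem NC_ker (y : Vp 𝒜 p) : RingHom.ker (algebraMap A (NC 𝒜 p)) ≤ pr y.1 := by
  obtain ⟨j, hj⟩ := exists_comp y
  refine fun a ha => md_mem_of_proj fun n => hj ((th_eq_zero _ (md_proj_mem n a)).1 ?_)
  rw [← eN_alg j (md_proj_mem n a), ← CoA.coeff_alg (c := cN 𝒜 p), RingHom.mem_ker.1 ha,
    map_zero, coeff_zero, map_zero]
  rfl

end

end Pool.Agent.Lib.MP_62d77c_ag.R
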