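import Pool.Agent.Lib.MP_62d77c_ag.Main
import Pool.Agent.Lib.MP_62d77c_ag.End.Fib0

/-! A cohomologically trivial cycle has degree zero on a glued line bundle. -/

set_option autoImplicit false

namespace Pool.Agent.Lib.MP_62d77c_ag.R

open Filter Polynomial Submodule

noncomputable section

variable {A : Type} [CommRing A] [IsDomain A] {𝒜 : ℕ → AddSubgroup A} [GradedRing 𝒜]
  [hG : Fact (Gen 𝒜)] {p : ℕ} [Fact p.Prime]

variable {m : Comp 𝒜 p → ℕ} {I : Comp 𝒜 p → Car (MX 𝒜).V}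

theorem gz_norm_degree [CharZero A] (h : Fib0 m I)
    {r e : ℕ} {G : Fin (r + 2) → Fin (r + 2) → A} (hM : GMat 𝒜 p e G) {W : Pt 𝒜}
    (hW : TwoChart p W e (G 0 0) (G 1 1)) (M : ∀ j : Comp 𝒜 p, Pic (Mp j.1).V)
    (hOn : ∀ j : Comp 𝒜 p, GOn j.1 e G (M j)) [Algebra (RatFunc ℚ) (kap W)]
    [FiniteDimensional (RatFunc ℚ) (kap W)]
    (hX : algebraMap (RatFunc ℚ) (kap W) RatFunc.X = th W (G 0 0) / th W (G 1 1)) :
    ∃ (ν : ℕ) (c : ℤ), ¬(p : ℤ) ∣ c ∧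
      (∃ μ ∈ Lam p, Algebra.norm (RatFunc ℚ) (th W (G 0 1) / th W (G 1 1)) =
        (c : RatFunc ℚ) * RatFunc.X ^ ν + (p : RatFunc ℚ) * μ) ∧
      (ν : ℚ) = ∑ j : Comp 𝒜 p, (m j : ℚ) * lin 0 (Phi j.1 (pr W)) (M j) := by
  obtain ⟨h1, t, ht, hsp⟩ := (hW.finite hX).1
  obtain ⟨N⟩ := normD_exists p _ h1 t ht hsp (normD_fr hW)
  obtain ⟨ψ, Z, μ, k, l, h₁, -, d₁, hu₁, hψ, hq, hT, hZ, H⟩ := normD_setup N hW h1
  have hg : th W (G 0 1) / th W (G 1 1) ∈ (MZ W).fr (denp p ![G 0 0, G 1 1] {1}) :=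
    (MZ W).div_mem_fr (hM.deg 0 1) hW.d₁ normD_F1
  have dp : (p : A) ∈ 𝒜 0 := SetLike.natCast_mem_graded 𝒜 p
  have hZp : ∀ P : Ideal N.R, P.IsMaximal → ∃ y : Vp 𝒜 p, y.1 ∈ Z ∧
      ∀ n, ∀ a ∈ 𝒜 n, ψ a ∈ P ↔ a ∈ pr y.1 := fun P hP => by
    obtain ⟨y, hy, hy'⟩ := hZ P hP
    exact ⟨⟨y, (hy' 0 _ dp).1 (by rw [map_natCast]; exact N.max P hP)⟩, hy, hy'⟩
  have hgen := fun j : Comp 𝒜 p =>
    ((MX 𝒜).exists_genI (h.lp j) Z fun y _ => on_MX y).exists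
  choose d g hg' using hgen
  obtain ⟨P₀, hP₀⟩ := Ideal.exists_maximal N.R
  obtain ⟨y₀, hy₀, -⟩ := hZp P₀ hP₀
  have heq : ∀ P : Ideal N.R, P.IsMaximal → ∃ b ∉ P, ∃ c ∉ P,
      b * (p : N.R) = c * ∏ j : Comp 𝒜 p, ψ (g j) ^ m j := fun P hP => by
    obtain ⟨y, hy, hy'⟩ := hZp P hP
    obtain ⟨n, n', b, hb, c, hc, hby, hcy, -, e1⟩ := h.eqn y d g fun j => hg' j _ hy
    refine ⟨ψ b, fun h => hby ((hy' _ _ hb).1 h), ψ c, fun h => hcy ((hy' _ _ hc).1 h), ?_⟩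
    simpa using congrArg ψ e1
  have hne : ∀ j, ψ (g j) ≠ 0 := fun j h0 => by
    obtain ⟨b, hb, c, -, e1⟩ := heq P₀ hP₀
    have := hW.char
    rw [Finset.prod_eq_zero (Finset.mem_univ j) (by rw [h0, zero_pow (h.pos j).ne']),
      mul_zero] at e1
    exact mul_ne_zero (fun e : b = 0 => hb (e ▸ zero_mem _))
      (Nat.cast_ne_zero.2 (Fact.out : p.Prime).ne_zero) e1
  have hk1 : RingHom.ker N.red ≤ Ideal.span {∏ j : Comp 𝒜 p, ψ (g j) ^ m j} := by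
    rw [N.ker, Ideal.span_singleton_le_iff_mem]
    refine normD_of_local fun P hP => ?_
    obtain ⟨b, hb, c, -, e1⟩ := heq P hP
    exact ⟨b, hb, e1 ▸ Ideal.mul_mem_left _ _ (Ideal.mem_span_singleton_self _)⟩
  have hk2 : N.red (∏ j : Comp 𝒜 p, ψ (g j) ^ m j) = 0 := by
    rw [← RingHom.mem_ker, N.ker]
    refine normD_of_local fun P hP => ?_
    obtain ⟨b, -, c, hc, e1⟩ := heq P hP
    exact ⟨c, hc, e1 ▸ Ideal.mul_mem_left _ _ (Ideal.mem_span_singleton_self _)⟩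
  have hmap : ∀ j : Comp 𝒜 p,
      (pr W ⊔ cI j).map (N.red.comp ψ) = Ideal.span {N.red (ψ (g j))} := fun j => by
    rw [← Ideal.map_map, ← Set.image_singleton (f := N.red), ← Ideal.map_span]
    congr 1
    refine le_antisymm (Ideal.map_le_iff_le_comap.2 (sup_le
      (normD_hom_le (pr_hom _) fun n a ha da => ?_) (normD_hom_le (pr_hom _) fun n a ha da => ?_)))
      ((Ideal.span_singleton_le_iff_mem _).2
        (Ideal.mem_map_of_mem _ (Ideal.mem_sup_right (hg' j _ hy₀).1)))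
    · have : ψ a = 0 := Subtype.ext (by rw [hψ _ _ da, (th_eq_zero W da).2 ha, zero_mul]; rfl)
      rw [Ideal.mem_comap, this]; exact zero_mem _
    · refine Ideal.mem_comap.2 (normD_of_local fun P hP => ?_)
      obtain ⟨y, hy, hy'⟩ := hZp P hP
      obtain ⟨n₁, n₂, b, hb, c, -, hby, -, e1⟩ := (hg' j _ hy).2.2.2 n a ha da
      refine ⟨ψ b, fun h => hby ((hy' _ _ hb).1 h), ?_⟩
      rw [← map_mul, FaithfulSMul.algebraMap_injective A (FractionRing A) e1, map_mul]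
      exact Ideal.mul_mem_left _ _ (Ideal.mem_span_singleton_self _)
  have H' : NormDeh 𝒜 (N.red.comp ψ) (pr W ⊔ Ideal.span {(p : A)}) :=
    H.quot ((pr_hom W).sup (normD_span_hom dp)) le_sup_left N.red N.surj (by
      rw [N.ker, Ideal.span_singleton_le_iff_mem, ← map_natCast ψ]
      exact Ideal.mem_map_of_mem _ (Ideal.mem_sup_right (Ideal.mem_span_singleton_self _)))
  have hOK : ∀ j : Comp 𝒜 p, NormOK j.1 (M j) (N.red.comp ψ) (N.red ⟨_, N.le hg⟩) (pr W ⊔ cI j) :=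
    fun j => normOK_filt j.1 (M j) _ H' (fun y h0 hy => normOK_pt hM.deg hW (hOn j) hX h1 N d₁ hu₁
      hψ hq hT H (N.le hg) ⟨y, hy j.1.2⟩ (le_sup_left.trans h0) hy) ((pr_hom W).sup (pr_hom _))
      (sup_le_sup_left ((Ideal.span_singleton_le_iff_mem _).2 j.1.2) _) le_sup_right
  choose ν c hc e1 e2 using hOK
  obtain ⟨c', hc', hN⟩ := N.norm _ hg (∏ j : Comp 𝒜 p, c j ^ m j) (∑ j : Comp 𝒜 p, m j * ν j)
    (Finset.prod_ne_zero_iff.2 fun j _ => pow_ne_zero _ (hc j)) (by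
      rw [← normDt_bot, ← Ideal.span_singleton_eq_bot.2 hk2,
        normDt_prod N.red N.surj _ _ _ _ hne hk1, map_prod, ← Finset.prod_pow_eq_pow_sum,
        ← Finset.prod_mul_distrib]
      refine Finset.prod_congr rfl fun j _ => ?_
      rw [← hmap, e1, mul_pow, map_pow, mul_comm (m j), pow_mul])
  refine ⟨_, c', hc', hN, ?_⟩
  push_cast
  refine Finset.sum_congr rfl fun j _ => ?_
  have := e2 j
  rw [Phi_sup j.1 (pr_hom W)] at this
  rw [lin, dl, one_mul, this, coeff_C_zero]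


theorem gz_glued [CharZero A] (h : Fib0 m I) {c : Pt 𝒜 →₀ ℚ}
    (hc : ∀ x ∈ c.support, CharZero (kap x) ∧ tr x = 1) (ht : CohTriv c) {r e : ℕ}
    {G : Fin (r + 2) → Fin (r + 2) → A} (hM : GMat 𝒜 p e G)
    (hW : ∀ W ∈ c.support, ∀ y : Vp 𝒜 p, pr W ≤ pr y.1 → G 0 0 ∉ pr y.1 ∨ G 1 1 ∉ pr y.1)
    (M : ∀ j : Comp 𝒜 p, Pic (Mp j.1).V) (hOn : ∀ j : Comp 𝒜 p, GOn j.1 e G (M j)) :
    ∑ j : Comp 𝒜 p, (m j : ℚ) * cyc I c j (M j) = 0 := by
  classical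
  have key : ∀ W ∈ c.support, ∃ ν : ℚ,
      ν = ∑ j : Comp 𝒜 p, (m j : ℚ) * lin 0 (Phi j.1 (pr W)) (M j) ∧
      ∃ s : ℕ, ∀ (k : ℕ) (Z : Cocycle 𝒜 fun α => G α α) (g' ζ : FractionRing A)
      (l : Fm (FractionRing A) 1),
      g' ∈ frac 𝒜 (denp p (fun α => G α α) {0, 1}) → ζ ∈ frac 𝒜 (denp p (fun α => G α α) {0, 1}) →
      l.On (frac 𝒜 (denp p (fun α => G α α) {0, 1})) →
      g' * (algebraMap A _ (G 0 1) / algebraMap A _ (G 1 1)) = 1 - (p : FractionRing A) ^ k * ζ →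
      Z.η 0 1 = (g', ![algebraMap A _ (G 0 1) / algebraMap A _ (G 1 1)]) ::
        l.map (fun x => ((p : FractionRing A) ^ k * x.1, x.2)) →
      ∃ t, IsTrace Z W t ∧ ∃ q ∈ Zp p, (p : ℚ) ^ s * (t - ν) = (p : ℚ) ^ k * q := by
    intro W hWc
    have hT : TwoChart p W e (G 0 0) (G 1 1) :=
      ⟨(hc W hWc).1, (hc W hWc).2, hM.pos, hM.deg 0 0, hM.deg 1 1, hW W hWc⟩
    obtain ⟨alg, hfin, hX⟩ := hT.exists_alg
    obtain ⟨ν, c', hc', hN, hν⟩ := gz_norm_degree h hM hT M hOn hX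
    exact ⟨ν, hν, isTrace_cong hT (hM.deg 0 1) hX hc' hN⟩
  choose! ν hν s hs using key
  have hsum : ∑ j : Comp 𝒜 p, (m j : ℚ) * cyc I c j (M j) = -∑ W ∈ c.support, c W * ν W := by
    unfold cyc Finsupp.sum Psi
    simp only [Finset.mul_sum]
    rw [Finset.sum_comm, ← Finset.sum_neg_distrib]
    refine Finset.sum_congr rfl fun W hWc => ?_
    rw [hν W hWc, Finset.mul_sum, ← Finset.sum_neg_distrib]
    refine Finset.sum_congr rfl fun j _ => ?_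
    rw [PV_horiz j _ (hc W hWc).1]; ring
  rw [hsum, neg_eq_zero]
  set N : ℕ := ∏ W ∈ c.support, (c W).den with hN
  have hN0 : (N : ℚ) ≠ 0 := by
    exact_mod_cast Finset.prod_ne_zero_iff.2 fun W _ => (c W).den_ne_zero
  have hint : ∀ W ∈ c.support, ∃ z : ℤ, (N : ℚ) * c W = z := by
    intro W hWc
    obtain ⟨a, ha⟩ : (c W).den ∣ N := Finset.dvd_prod_of_mem _ hWc
    refine ⟨a * (c W).num, ?_⟩
    rw [ha]; push_cast
    rw [mul_comm ((c W).den : ℚ), mul_assoc, Rat.den_mul_eq_num]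
  choose! z hz using hint
  set S : ℕ := c.support.sup s with hS
  have : (N : ℚ) * ∑ W ∈ c.support, c W * ν W = 0 := by
    refine eq_zero_of_Zp p (s := S) fun k => ?_
    obtain ⟨Z, g', ζ, l, h1, h2, h3, h4, h5⟩ :=
      exists_cocycle hM (i := 0) (j := 1) Fin.zero_lt_one k
    have := fun W hWc => hs W hWc k Z g' ζ l h1 h2 h3 h4 h5
    choose! t ht1 q hq1 hq2 using this
    have h0 := ht _ _ Z t ht1
    refine ⟨-∑ W ∈ c.support, (z W : ℚ) * (p : ℚ) ^ (S - s W) * q W, ?_, ?_⟩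
    · refine neg_mem (sum_mem fun W hWc => mul_mem (mul_mem (intCast_mem _ _) ?_) (hq1 W hWc))
      exact pow_mem (natCast_mem _ _) _
    · have e1 : ∀ W ∈ c.support, (p : ℚ) ^ k * ((z W : ℚ) * (p : ℚ) ^ (S - s W) * q W) =
          (p : ℚ) ^ S * N * (c W * t W) - (p : ℚ) ^ S * N * (c W * ν W) := by
        intro W hWc
        have hle : s W ≤ S := Finset.le_sup (f := s) hWc
        have e2 : (p : ℚ) ^ S = (p : ℚ) ^ (S - s W) * (p : ℚ) ^ s W := by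
          rw [← pow_add, Nat.sub_add_cancel hle]
        rw [← hz W hWc, e2]
        linear_combination (-(N : ℚ) * c W * (p : ℚ) ^ (S - s W)) * hq2 W hWc
      rw [mul_neg, Finset.mul_sum _ _ ((p : ℚ) ^ k), Finset.sum_congr rfl e1,
        Finset.sum_sub_distrib, ← Finset.mul_sum, ← Finset.mul_sum]
      unfold Finsupp.sum at h0
      rw [h0]; ring
  exact (mul_eq_zero.1 this).resolve_left hN0

/-- two glued bundles with product a positive power of the hyperplane class -/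
theorem gz_zero [CharZero A] (h : Fib0 m I) {c : Pt 𝒜 →₀ ℚ}
    (hc : ∀ x ∈ c.support, CharZero (kap x) ∧ tr x = 1) (ht : CohTriv c)
    {ι : Type} [Fintype ι] {e : ℕ} (he : 0 < e) {G : ι → ι → A} (hd : ∀ α β, G α β ∈ 𝒜 e)
    (hcov : ∀ y : Vp 𝒜 p, ∃ α, G α α ∉ pr y.1) {M M' : ∀ j : Comp 𝒜 p, Pic (Mp j.1).V}
    (hM : ∀ j : Comp 𝒜 p, glue_On j.1 e G (M j))
    (hM' : ∀ j : Comp 𝒜 p, glue_On j.1 e (fun α β => G β α) (M' j))
    (hMM : ∀ j, M j * M' j = Lp _ ^ e) (b : ℕ) (u : ∀ j : Comp 𝒜 p, Pic (Mp j.1).V)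
    (hu : ∀ j, u j * Lp _ ^ b = M j) : ∑ j : Comp 𝒜 p, (m j : ℚ) * cyc I c j (u j) = 0 := by
  rcases isEmpty_or_nonempty (Comp 𝒜 p) with he | ⟨⟨j₀⟩⟩
  · simp
  have hW : ∀ W ∈ c.support, ∀ y : Vp 𝒜 p, pr W ≤ pr y.1 → dm y ≤ 1 := fun W hW y hy =>
    dm_le_of_horiz (hc W hW).1 (by rw [(hc W hW).2]; simp) y hy
  have key : ∀ (G : ι → ι → A) (M : ∀ j : Comp 𝒜 p, Pic (Mp j.1).V), (∀ α β, G α β ∈ 𝒜 e) →
      (∀ y : Vp 𝒜 p, ∃ α, G α α ∉ pr y.1) → (∀ j : Comp 𝒜 p, glue_On j.1 e G (M j)) →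
      ∃ N b : ℕ, 0 < N ∧ N * ∑ j : Comp 𝒜 p, (m j : ℚ) * cyc I c j (M j) +
        b * ∑ j : Comp 𝒜 p, (m j : ℚ) * cyc I c j (Lp _) = 0 := by
    intro G M hd hcov hM
    obtain ⟨r, e', N, b, G', hN, h1, h2, h3, h4, h5, h6, h7⟩ := glue_final he (fun _ => G)
      (fun _ => hd) (fun _ _ _ _ _ _ _ => rfl) (fun y => (hcov y).imp fun α hα _ _ => hα) hM j₀
      c.support hW
    refine ⟨N, b, hN, ?_⟩
    rw [← gz_glued h hc ht ⟨h1, h2, h3, h4, h5⟩ h6 _ h7, Finset.mul_sum, Finset.mul_sum,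
      ← Finset.sum_add_distrib]
    refine Finset.sum_congr rfl fun j _ => ?_
    rw [cyc_mul hc, add_pow_of_mul (cyc_mul hc j), add_pow_of_mul (cyc_mul hc j)]; ring
  obtain ⟨N, k, hN, e1⟩ := key G M hd hcov hM
  obtain ⟨N', k', hN', e2⟩ := key _ M' (fun α β => hd β α) hcov hM'
  have e3 : ∑ j : Comp 𝒜 p, (m j : ℚ) * cyc I c j (M j) +
      ∑ j : Comp 𝒜 p, (m j : ℚ) * cyc I c j (M' j) =
      e * ∑ j : Comp 𝒜 p, (m j : ℚ) * cyc I c j (Lp _) := by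
    rw [Finset.mul_sum, ← Finset.sum_add_distrib]
    refine Finset.sum_congr rfl fun j _ => ?_
    rw [← mul_add, ← cyc_mul hc, hMM, add_pow_of_mul (cyc_mul hc j)]; ring
  have e4 : ∑ j : Comp 𝒜 p, (m j : ℚ) * cyc I c j (M j) =
      ∑ j : Comp 𝒜 p, (m j : ℚ) * cyc I c j (u j) +
      b * ∑ j : Comp 𝒜 p, (m j : ℚ) * cyc I c j (Lp _) := by
    rw [Finset.mul_sum, ← Finset.sum_add_distrib]
    refine Finset.sum_congr rfl fun j _ => ?_
    rw [← hu, cyc_mul hc, add_pow_of_mul (cyc_mul hc j)]; ring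
  have p1 : (0 : ℚ) < N := by exact_mod_cast hN
  have p2 : (0 : ℚ) < N' := by exact_mod_cast hN'
  have p3 : (0 : ℚ) < e := by exact_mod_cast he
  have hL : ∑ j : Comp 𝒜 p, (m j : ℚ) * cyc I c j (Lp _) = 0 := by
    have : ((N : ℚ) * N' * e + N' * k + N * k') *
        ∑ j : Comp 𝒜 p, (m j : ℚ) * cyc I c j (Lp _) = 0 := by
      linear_combination (N' : ℚ) * e1 + N * e2 - N * N' * e3
    exact (mul_eq_zero.1 this).resolve_left (by positivity)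
  rw [e4, hL, mul_zero, add_zero, mul_zero, add_zero] at e1
  exact (mul_eq_zero.1 e1).resolve_left p1.ne'

end

end Pool.Agent.Lib.MP_62d77c_ag.R
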