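import Pool.Agent.Lib.MP_62d77c_ag.R.K1
import Pool.Agent.Lib.MP_62d77c_ag.R.K5a

/-! The intersection polynomial of a horizontal cycle with a line bundle on a component. -/

set_option autoImplicit false
set_option linter.unusedSectionVars false

namespace Pool.Agent.Lib.MP_62d77c_ag.R

open Filter Polynomial Submodule Function
open scoped TensorProduct

noncomputable section

variable {A : Type} [CommRing A] [IsDomain A] {𝒜 : ℕ → AddSubgroup A} [GradedRing 𝒜]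
  [hG : Fact (Gen 𝒜)] {p : ℕ} [Fact p.Prime] {N N' N₁ : GM 𝒜}

theorem gz_sq {Z B : Submodule A N.M} (hB : N.Hg B) {y : Pt 𝒜}
    (h : ∀ k, ∀ v ∈ N.g k, v ∈ Z → ∃ l, ∃ s ∈ 𝒜 l, s ∉ pr y ∧ s • v ∈ B) :
    (N.sq Z B).ZeroAt y := by
  refine st_zeroAt ?_
  rintro n _ ⟨v, hv, rfl⟩
  obtain ⟨l, s, hs, h1, h2⟩ := h n v.1 hv (N.core_le Z v.2)
  exact ⟨l, s, hs, h1, (Submodule.Quotient.mk_eq_zero _).2 fun n => hB n _ h2⟩

theorem gz_vec {y : Pt 𝒜} {g : A} {β : Type} [Fintype β] {x : β → A}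
    (h : ∀ r, ∃ l, ∃ b ∈ 𝒜 l, b ∉ pr y ∧ ∃ c, b * x r = c * g) :
    ∃ l, ∃ b ∈ 𝒜 l, b ∉ pr y ∧ ∃ w : β → A, b • x = g • w := by
  classical
  choose l b hb hy c e using h
  obtain ⟨h1, h2⟩ := k1_prod y Finset.univ hb hy
  refine ⟨_, _, h1, h2, fun r => (∏ i ∈ Finset.univ.erase r, b i) * c r, funext fun r => ?_⟩
  simp only [Pi.smul_apply, smul_eq_mul]
  rw [← Finset.prod_erase_mul _ _ (Finset.mem_univ r), mul_assoc, e]; ring

theorem gz_nat {β γ : Type} [Fintype γ] (D : Matrix β γ A) (c : γ → A) (m : N.M) :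
    mact N.M D (fun i => c i • m) = fun r => mact A D c r • m :=
  k1_mact_nat D (LinearMap.toSpanSingleton A N.M m) c

theorem gz_tor (R : Res N') (q : ℕ) {y : Pt 𝒜} {m₀ : N.M} {u g : A} {e : ℕ} {d : ℤ}
    (hu : u ∈ 𝒜 e) (hy : u ∉ pr y) (h1 : ∀ k, ∀ v ∈ N.g k, ∃ c ∈ Az 𝒜 (k + d), c • m₀ = u • v)
    (h2 : ∀ n, ∀ x ∈ 𝒜 n, x • m₀ = 0 → ∃ l, ∃ b ∈ 𝒜 l, b ∉ pr y ∧ ∃ c, b * x = c * g)
    (h3 : g • m₀ = 0) (h4 : ∀ w, g • w ∈ LinearMap.range (mact A (R.D q)) →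
      w ∈ LinearMap.range (mact A (R.D q))) : (R.Tor N (q + 1)).ZeroAt y := by
  refine gz_sq (R.isHom N (q + 1)).hg_range fun k v hv hZ => ?_
  choose c hc e1 using fun i => h1 _ (v i) (N.mem_pw.1 hv i)
  have hx : ∀ r, mact A (R.D q) c r • m₀ = 0 := fun r => by
    have e2 : (fun i => c i • m₀) = u • (show _ → N.M from v) := funext e1
    have e3 : mact N.M (R.D q) v = 0 := hZ
    rw [← congrFun (gz_nat (R.D q) c m₀) r, e2, map_smul, e3, smul_zero]; rfl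
  have hd : ∀ r, mact A (R.D q) c r ∈ Az 𝒜 (k + d - R.a q r) := fun r => by
    rw [mact_apply]
    refine sum_mem fun i _ => ?_
    have := Az_mul (R.hD q r i) (hc i)
    rwa [show R.a (q + 1) i - R.a q r + (k - R.a (q + 1) i + d) = k + d - R.a q r by ring] at this
  obtain ⟨l, b, hb, hby, w, e2⟩ := gz_vec (y := y) (g := g) (x := mact A (R.D q) c) fun r => by
    rcases Az_cases (hd r) with h0 | ⟨n, -, h0⟩
    · exact ⟨0, 1, SetLike.one_mem_graded 𝒜, md_one_not_mem y, 0, by rw [h0]; simp⟩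
    · exact h2 n _ h0 (hx r)
  obtain ⟨c', rfl⟩ := h4 w (e2 ▸ smul_mem _ _ ⟨c, rfl⟩)
  obtain ⟨c'', e3⟩ := (R.ex q (b • c - g • c')).1 (by
    rw [map_sub, map_smul, map_smul, e2, sub_self])
  refine ⟨l + e, b * u, SetLike.mul_mem_graded hb hu, md_mul_not_mem hby hy,
    fun i => c'' i • m₀, (gz_nat _ _ _).trans (funext fun r => ?_)⟩
  rw [e3, Pi.sub_apply, Pi.smul_apply, Pi.smul_apply, smul_eq_mul, smul_eq_mul, sub_smul,
    mul_comm g, mul_smul, mul_smul, h3, smul_zero, sub_zero, e1, ← mul_smul]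
  rfl

theorem gz_sat {W : Pt 𝒜} (R : Res (cy 𝒜 (pr W))) {g : A} (hg : g ∉ pr W) (q : ℕ)
    (w : Fin (R.b q) → A) (h : g • w ∈ LinearMap.range (mact A (R.D q))) :
    w ∈ LinearMap.range (mact A (R.D q)) := by
  cases q with
  | zero =>
    have h1 := (R.ex0 _).2 h
    obtain ⟨a, ha⟩ := k1bq_surj (pr W) (Fintype.linearCombination A R.gen w)
    rw [map_smul, ← ha, ← map_smul, k1bq_zero (pr_hom W)] at h1
    exact (R.ex0 _).1 (ha ▸ (k1bq_zero (pr_hom W)).2 ((W.isPrime.mem_or_mem h1).resolve_left hg))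
  | succ q =>
    have h1 := (R.ex q _).2 h
    rw [map_smul] at h1
    exact (R.ex q _).1 ((smul_eq_zero.1 h1).resolve_left fun e => hg (e ▸ zero_mem _))

theorem gz_tor0 {I : Ideal A} (hI : I.IsHomogeneous 𝒜) (R : Resol 𝒜 I) {f : N₁.M →ₗ[A] N.M}
    (hf : IsHom N₁ N 0 f) (hi : Injective f)
    (h1 : ∀ k, ∀ m ∈ N₁.g k, f m ∈ I • (⊤ : Submodule A N.M))
    (h2 : ∀ n, ∀ c ∈ 𝒜 n, c ∈ I → ∀ m, c • m ∈ LinearMap.range f) :
    SES N₁ N ((k1bRes hI R).Tor N 0) := by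
  let B := LinearMap.range (mact N.M ((k1bRes hI R).D 0))
  let P := N.pw ((k1bRes hI R).a 0)
  let δ : N.M →ₗ[A] P.M := LinearMap.pi fun _ => LinearMap.id
  have hB : P.Hg B := ((k1bRes hI R).isHom N 0).hg_range
  have hδ : IsHom N P 0 δ := fun n m hm => N.mem_pw.2 fun i => by
    change m ∈ N.g (n + 0 - 0)
    simpa using hm
  have hD : ∀ (u : Fin (R.b 0) → A) r, mact A ((k1bRes hI R).D 0) u r = R.ε u := fun u r =>
    congrFun (LinearMap.congr_fun (k1b_mact (LinearMap.pi fun _ : Fin 1 => R.ε)) u) r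
  refine (sm_of_hom (N₃ := P.quot B) (g := (P.core B).mkQ ∘ₗ δ) hf
    (k1_isHom_comp hδ (isHom_mkQ P B)) hi (fun t => ?_) (fun k m hm => ?_) fun k m _ h0 => ?_).ses
  · obtain ⟨v, rfl⟩ := (P.core B).mkQ_surjective t
    exact ⟨v (0 : Fin 1), congrArg (P.core B).mkQ
      (funext fun i : Fin 1 => by rw [Subsingleton.elim i 0]; rfl)⟩
  · refine (k1_mk_zero hB _).2 ((Submodule.smul_le (P := B.comap δ)).2 (fun c hc m _ => ?_)
      (h1 k m hm))
    obtain ⟨u, rfl⟩ := R.range.ge hc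
    exact ⟨fun i => u i • m, (gz_nat _ _ _).trans (funext fun r => by rw [hD]; rfl)⟩
  · obtain ⟨v, hv⟩ := (k1_mk_zero hB _).1 h0
    have e : m = ∑ i, (k1bRes hI R).D 0 (0 : Fin 1) i • v i := (congrFun hv (0 : Fin 1)).symm
    rw [e]
    refine sum_mem fun i _ => ?_
    rcases Az_cases ((k1bRes hI R).hD 0 (0 : Fin 1) i) with h0 | ⟨n, -, h0⟩
    · rw [h0, zero_smul]; exact zero_mem _
    · exact h2 n _ h0 (R.range.le ⟨Pi.single i 1, rfl⟩) _

theorem gz_len_le {Q Q' : GM 𝒜} {y : Pt 𝒜} (φ : Q.M →ₗ[A] Q'.M) (ψ : Q'.M →ₗ[A] Q.M) {u : A}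
    {e : ℕ} (hu : u ∈ 𝒜 e) (hy : u ∉ pr y) (h : ∀ m, ψ (φ m) = u • m) :
    Module.length (Lo y) (Q.St y) ≤ Module.length (Lo y) (Q'.St y) := by
  refine Module.length_le_of_injective (φ.baseChange (Lo y))
    ((injective_iff_map_eq_zero _).2 fun ξ h0 => ?_)
  have e1 : ∀ ξ : Q.St y, ψ.baseChange (Lo y) (φ.baseChange (Lo y) ξ) =
      algebraMap A (Lo y) u • ξ := fun ξ => by
    induction ξ using TensorProduct.induction_on with
    | zero => simp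
    | tmul r m => rw [LinearMap.baseChange_tmul, LinearMap.baseChange_tmul, h, st_tmul_smul]
    | add a b h1 h2 => rw [map_add, map_add, h1, h2, smul_add]
  have e2 := e1 ξ
  rw [h0, map_zero] at e2
  exact ((lo_unit y hu).2 hy).smul_eq_zero.1 e2.symm

namespace Mo

variable (X : Mo 𝒜 p)

theorem gz_smul {n b : ℕ} {a : A} (ha : a ∈ Az 𝒜 ((n : ℤ) - b)) (z : X.L) :
    a • X.mon b z = X.mon n (X.θ a * z) := by
  rcases Az_cases ha with rfl | ⟨k, e, h⟩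
  · rw [zero_smul, map_zero, zero_mul, X.mon_zero]
  · rw [X.smul_mon h, show b + k = n by omega]

/-- the family generated by `s` in degree `b`, multiplied by the ideal `𝔮` -/
def gzF {ι : Type} [Fintype ι] (s : ι → X.L) (b : ℕ) (𝔮 : Ideal A) : X.Fa := fun n =>
  { carrier := {z | ∃ c : ι → A, (∀ a, c a ∈ 𝔮 ∧ c a ∈ Az 𝒜 ((n : ℤ) - b)) ∧
      z = ∑ a, X.θ (c a) * s a}
    zero_mem' := ⟨0, fun _ => ⟨zero_mem _, zero_mem _⟩, by simp⟩
    add_mem' := by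
      rintro _ _ ⟨c, h, rfl⟩ ⟨c', h', rfl⟩
      exact ⟨c + c', fun a => ⟨add_mem (h a).1 (h' a).1, add_mem (h a).2 (h' a).2⟩, by
        simp [add_mul, Finset.sum_add_distrib]⟩
    smul_mem' := by
      rintro r _ ⟨c, h, rfl⟩
      obtain ⟨k, rfl⟩ := ZMod.intCast_surjective r
      exact ⟨k • c, fun a => ⟨zsmul_mem (h a).1 k, zsmul_mem (h a).2 k⟩, by
        rw [Int.cast_smul_eq_zsmul]; simp [Finset.mul_sum, mul_assoc]⟩ }

variable {ι : Type} [Fintype ι] {s : ι → X.L} {b : ℕ} {𝔮 : Ideal A}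

theorem gzF_one {n : ℕ} {c : A} (h : c ∈ 𝔮) (h' : c ∈ Az 𝒜 ((n : ℤ) - b)) (a : ι) :
    X.θ c * s a ∈ X.gzF s b 𝔮 n := by
  classical
  refine ⟨Pi.single a c, fun a' => ?_, ?_⟩
  · by_cases e : a' = a
    · subst e; rw [Pi.single_eq_same]; exact ⟨h, h'⟩
    · rw [Pi.single_eq_of_ne e]; exact ⟨zero_mem _, zero_mem _⟩
  · rw [Finset.sum_eq_single a (fun a' _ e => by rw [Pi.single_eq_of_ne e, map_zero, zero_mul])
      (fun h => absurd (Finset.mem_univ a) h), Pi.single_eq_same]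

theorem gzF_self (a : ι) : s a ∈ X.gzF s b ⊤ b := by
  have := X.gzF_one (s := s) (b := b) (n := b) (𝔮 := ⊤) (c := 1) trivial
    (by rw [sub_self]; exact k1b_one) a
  rwa [map_one, one_mul] at this

theorem gzF_mul {𝔮' : Ideal A} {n i : ℕ} {z : X.L} (hz : z ∈ X.gzF s b 𝔮' n) {x : A}
    (hx : x ∈ 𝒜 i) (h : ∀ c ∈ 𝔮', x * c ∈ 𝔮) : X.θ x * z ∈ X.gzF s b 𝔮 (n + i) := by
  obtain ⟨c, hc, rfl⟩ := hz
  refine ⟨fun a => x * c a, fun a => ⟨h _ (hc a).1, ?_⟩, by simp [Finset.mul_sum, mul_assoc]⟩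
  have := Az_mul (show x ∈ Az 𝒜 i by rwa [Az_nat]) (hc a).2
  rwa [show (i : ℤ) + (n - b) = (n + i : ℕ) - b by push_cast; ring] at this

theorem gzF_eq {n : ℕ} (hn : b ≤ n) :
    X.gzF s b 𝔮 n = span (ZMod p) (Set.range s) • X.M.fam 𝔮 (n - b) := by
  have e : Az 𝒜 ((n : ℤ) - b) = 𝒜 (n - b) := by rw [← Nat.cast_sub hn, Az_nat]
  refine le_antisymm ?_ (Submodule.smul_le.2 fun u hu w hw => ?_)
  · rintro _ ⟨c, hc, rfl⟩
    refine sum_mem fun a _ => ?_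
    rw [mul_comm]
    exact smul_mem_smul (subset_span ⟨a, rfl⟩) (X.M.mem_fam.2 ⟨_, (hc a).1, e ▸ (hc a).2, rfl⟩)
  · obtain ⟨c, h1, h2, rfl⟩ := X.M.mem_fam.1 hw
    induction hu using span_induction with
    | mem _ h =>
      obtain ⟨a, rfl⟩ := h
      rw [smul_eq_mul, mul_comm]
      exact X.gzF_one h1 (e ▸ h2) a
    | zero => rw [zero_smul]; exact zero_mem _
    | add a a' _ _ h3 h4 => rw [add_smul]; exact add_mem h3 h4
    | smul r a _ h3 => rw [smul_assoc]; exact smul_mem _ _ h3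

theorem gzF_ev : X.gzF s b 𝔮 =ᶠ[atTop]
    fun n => span (ZMod p) (Set.range s) • X.M.fam 𝔮 (n - b) :=
  (eventually_ge_atTop b).mono fun _ hn => X.gzF_eq hn

variable (s b 𝔮) in
theorem gzF_ff : X.FF (X.gzF s b 𝔮) := by
  have hU : (span (ZMod p) (Set.range s)).FG := fg_span (Set.finite_range s)
  refine ⟨fun n => Submodule.mul_le.2 fun v hv z hz => ?_, fun n => ?_,
    (((X.M.fg_fam 𝔮).sub b).smul hU).congr X.gzF_ev.symm⟩
  · obtain ⟨a, -, ha, rfl⟩ := X.M.mem_fam.1 hv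
    exact X.gzF_mul hz ha fun c hc => 𝔮.mul_mem_left _ hc
  · rcases le_or_gt b n with hn | hn
    · rw [X.gzF_eq hn, smul_eq_mul]
      exact hU.mul ((X.M.fam_top_fg _).of_le (X.M.fam_mono le_top _))
    · refine Submodule.fg_bot.of_le ?_
      rintro _ ⟨c, hc, rfl⟩
      refine Finset.sum_eq_zero fun a _ => ?_
      have := (hc a).2
      rw [Az_neg (by omega)] at this
      rw [show c a = 0 from this, map_zero, zero_mul]

theorem gzF_le (𝔮 : Ideal A) : X.gzF s b 𝔮 ≤ X.gzF s b ⊤ := fun _ _ ⟨c, hc, e⟩ =>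
  ⟨c, fun a => ⟨trivial, (hc a).2⟩, e⟩

theorem gzF_hp (hV : Mdl X.V) {D : Car X.V} (hD : Rep D (span (ZMod p) (Set.range s)) b) :
    hp (X.gzF s b 𝔮) = hq X.V (X.M.fam 𝔮) (cl D) := by
  rw [hq_cl hV (X.M.fg_fam 𝔮), hp_congr (tw_rep (X.M.fg_fam 𝔮) hD), hp_congr X.gzF_ev]

theorem gzF_sum {n : ℕ} {c : ι → A} (hc : ∀ a, c a ∈ Az 𝒜 ((n : ℤ) - b)) :
    X.mon n (∑ a, X.θ (c a) * s a) = ∑ a, c a • X.mon b (s a) :=
  (map_sum (monomial n) _ _).trans (Finset.sum_congr rfl fun a _ => (X.gz_smul (hc a) _).symm)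

end Mo

theorem gz_T (h : Hyp 𝒜) (j : Vp 𝒜 p) (hlp : (MX 𝒜).LP (pr j.1)) {W : Pt 𝒜}
    (hW : (p : A) ∉ pr W) {ι : Type} [Fintype ι] {G : ι → ι → A} {e b : ℕ}
    (hd : ∀ a c, G a c ∈ 𝒜 e) {s t : ι → kap j.1} (hst : ∀ a c, th j.1 (G a c) = s a * t c)
    (hcov : ∀ y : Vp 𝒜 p, ∃ a, G a a ∉ pr y.1) {D : Car (Mp j).V}
    (hD : Rep D (span (ZMod p) (Set.range s)) b) :
    T p (cy 𝒜 (pr W)) ((ofPt j).gm _ ((ofPt j).gzF_ff s b ⊤)) = Phi j (pr W) (cl D) := by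
  obtain ⟨R⟩ := exists_resol (pr_hom W)
  set X := ofPt j
  have hF := X.gzF_ff s b ⊤
  have hF' := X.gzF_ff s b (pr W)
  have fb : (X.gm _ hF).Fb p := fb_gm X hF
  let m : ι → (X.gm _ hF).M := fun a => ⟨X.mon b (s a), X.mon_mem (X.gzF_self a)⟩
  have h0 : SES (X.gm _ hF') (X.gm _ hF) ((k1bRes (pr_hom W) R).Tor (X.gm _ hF) 0) := by
    refine gz_tor0 (pr_hom W) R (X.inc_hom hF' hF (X.gzF_le _)) (X.inc_inj _ _ _)
      (fun k v hv => ?_) fun n c hc hcW v => ?_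
    · rcases st_mem_gm' X hF' hv with rfl | ⟨n, -, _, ⟨c, hc, rfl⟩, rfl⟩
      · rw [map_zero]; exact zero_mem _
      · convert (sum_mem fun a _ => smul_mem_smul (hc a).1 trivial :
          ∑ a, c a • m a ∈ pr W • (⊤ : Submodule A (X.gm _ hF).M)) using 1
        exact Subtype.ext ((X.gzF_sum (s := s) fun a => (hc a).2).trans
          (map_sum (X.gmS _ hF.st).subtype (fun a => c a • m a) _).symm)
    · refine (X.gm _ hF).ind (P := fun v => c • v ∈ LinearMap.range (X.inc hF' hF (X.gzF_le _)))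
        (by simp) (fun a a' h1 h2 => by rw [smul_add]; exact add_mem h1 h2) (fun k v hv => ?_) v
      rcases st_mem_gm' X hF hv with rfl | ⟨k, -, z, hz, rfl⟩
      · simp
      · exact ⟨⟨_, X.mon_mem (X.gzF_mul hz hc fun _ _ => Ideal.mul_mem_right _ _ hcW)⟩,
          Subtype.ext (X.smul_mon hc k z).symm⟩
  have h1 : ∀ q, ((k1bRes (pr_hom W) R).Tor (X.gm _ hF) (q + 1)).hp p = 0 := fun q => by
    refine hp_zero (k1_ev_bot (tor_fb _ (Or.inr fb) _) fun y => ?_)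
    by_cases hy : pr j.1 ≤ pr y.1
    swap
    · obtain ⟨k, u, hu, h1, h2⟩ := k1_kill (zeroAt_gm X hF hy)
      exact k1_zeroAt hu h1 (tor_kill _ (Or.inr h2) _)
    by_cases hy' : pr W ≤ pr y.1
    swap
    · obtain ⟨k, u, hu, h1, h2⟩ := k1_kill ((zeroAt_cy (pr_hom W) y.1).2 hy')
      exact k1_zeroAt hu h1 (tor_kill _ (Or.inl h2) _)
    obtain ⟨a, ha⟩ := hcov y
    obtain ⟨e', g, hg⟩ := hlp y.1 (on_MX _)
    have hs : s a ≠ 0 := left_ne_zero_of_mul (hst a a ▸ fun h0 =>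
      ha (hy ((th_eq_zero _ (hd a a)).1 h0)))
    refine gz_tor _ q (m₀ := m a) (g := g) (d := e - b) (hd a a) ha (fun k v hv => ?_)
      (fun n x hx h0 => ?_) (Subtype.ext (st_kill X hg.2.1 ((th_eq_zero _ hg.2.1).2 hg.1) _))
      (gz_sat _ (fun hgW => ?_) q)
    · rcases st_mem_gm' X hF hv with rfl | ⟨n, rfl, _, ⟨c, hc, rfl⟩, rfl⟩
      · exact ⟨0, zero_mem _, by simp⟩
      have h2 : ∑ α, c α * G α a ∈ Az 𝒜 ((n + e : ℕ) - b) := sum_mem fun α _ => by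
        have := Az_mul (hc α).2 (show G α a ∈ Az 𝒜 e by rw [Az_nat]; exact hd α a)
        rwa [show (n : ℤ) - b + e = (n + e : ℕ) - b by push_cast; ring] at this
      refine ⟨_, by rwa [show (n : ℤ) + (e - b) = (n + e : ℕ) - b by push_cast; ring],
        Subtype.ext ((X.gz_smul h2 _).trans (Eq.trans ?_ (X.smul_mon (hd a a) _ _).symm))⟩
      congr 1
      change th j.1 _ * _ = th j.1 _ * ∑ α, th j.1 (c α) * s α
      rw [map_sum, Finset.sum_mul, Finset.mul_sum]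
      exact Finset.sum_congr rfl fun α _ => by rw [map_mul, hst, hst]; ring
    · have h2 := (k5_mon_eq X).1 ((X.smul_mon hx b (s a)).symm.trans (congrArg Subtype.val h0))
      obtain ⟨l, -, u, hu, c, -, h3, -, h4⟩ :=
        step_gen hg ((th_eq_zero _ hx).1 ((mul_eq_zero.1 h2).resolve_right hs)) hx
      exact ⟨l, u, hu, h3, c, h4⟩
    · obtain ⟨l, -, u, -, c, -, h3, -, h4⟩ := step_gen hg j.2 (md_natCast_mem p)
      exact (W.isPrime.mem_or_mem (h4 ▸ Ideal.mul_mem_left _ c hgW)).elim (fun h => h3 (hy' h)) hW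
  have h2 := hp_ses h0 fb
  rw [hp_gm, hp_gm, X.gzF_hp (mdl_Mp j) hD, X.gzF_hp (mdl_Mp j) hD,
    funext X.M.fam_top] at h2
  rw [T_eq h (k1bRes (pr_hom W) R) (Or.inr fb), TT_of_zero _ h1]
  exact (sub_eq_of_eq_add' h2).symm

end

end Pool.Agent.Lib.MP_62d77c_ag.R
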