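import Pool.Agent.Lib.MP_62d77c_ag.R.Bar
import Pool.Agent.Lib.MP_62d77c_ag.R.N1f
import Pool.Agent.Lib.MP_62d77c_ag.R.GmB
import Pool.Agent.Lib.MP_62d77c_ag.R.St
import Pool.Agent.Lib.MP_62d77c_ag.R.Df2

/-! Hilbert polynomials of divisorial families, leading terms. -/

set_option autoImplicit false
set_option linter.unusedSectionVars false

namespace Pool.Agent.Lib.MP_62d77c_ag.R

open Filter Polynomial Submodule

noncomputable section

section field
variable {k K : Type} [Field k] [Field K] [Algebra k K] {V : Submodule k K}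
  {N M R : ℕ → Submodule k K}

/-- every finitely generated family embeds into a family of full rank -/
theorem Sub.of_full (hV : Mdl V) (hN : Fg V N) (hM : ∀ i n, V ^ i * M n ≤ M (n + i))
    (gen : ∀ z : K, ∃ n, ∃ b ∈ V ^ n, b ≠ 0 ∧ b * z ∈ M n) : Sub N M := by
  obtain ⟨a, h3, h4⟩ := (hN.and hN.pow_smul).exists
  have den : ∀ W : Submodule k K, W.FG → ∃ e, ∃ b ∈ V ^ e, b ≠ 0 ∧ ∀ w ∈ W, b * w ∈ M e := by
    intro W hW
    refine Submodule.fg_induction
      (motive := fun W _ => ∃ e, ∃ b ∈ V ^ e, b ≠ 0 ∧ ∀ w ∈ W, b * w ∈ M e)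
      (fun z => ?_) (fun W₁ W₂ _ _ a1 a2 => ?_) W hW
    · obtain ⟨e, b, hb, b0, hz⟩ := gen z
      refine ⟨e, b, hb, b0, fun w hw => ?_⟩
      obtain ⟨c, rfl⟩ := mem_span_singleton.1 hw
      rw [mul_smul_comm]
      exact smul_mem _ _ hz
    · obtain ⟨e, b, hb, b0, hz⟩ := a1
      obtain ⟨e', b', hb', b0', hz'⟩ := a2
      refine ⟨e + e', b * b', pow_add V e e' ▸ mul_mem_mul hb hb', mul_ne_zero b0 b0',
        fun w hw => ?_⟩
      obtain ⟨x, hx, y, hy, rfl⟩ := mem_sup.1 hw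
      rw [mul_add, mul_comm b b', mul_assoc b' b x, mul_comm b' b, mul_assoc b b' y]
      exact add_mem (hM _ _ (mul_mem_mul hb' (hz x hx)))
        (add_comm e' e ▸ hM _ _ (mul_mem_mul hb (hz' y hy)))
  obtain ⟨e, b, -, b0, hb⟩ := den _ h3.1
  obtain ⟨v, hv, v0⟩ := Submodule.exists_mem_ne_zero_of_ne_bot hV.2
  refine ⟨e, v ^ a * b, mul_ne_zero (pow_ne_zero a v0) b0, ?_⟩
  filter_upwards [eventually_ge_atTop a] with n hn
  obtain ⟨j, rfl⟩ := Nat.exists_eq_add_of_le hn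
  rw [h4 j, smul_eq_mul, n1p_span, mul_mul_mul_comm, add_comm (a + j) e]
  refine le_trans (mul_le_mul' ?_ ?_) (hM (a + j) e)
  · rw [pow_add]
    exact mul_le_mul' ((span_singleton_le_iff_mem _ _).2 (pow_mem_pow V hv a)) le_rfl
  · refine Submodule.mul_le.2 fun y hy z hz => ?_
    obtain ⟨c, rfl⟩ := mem_span_singleton.1 hy
    rw [smul_mul_assoc]
    exact smul_mem _ _ (hb z hz)

theorem Sub.of_mul {a : ℕ} {s : K} (s0 : s ≠ 0) (h : ∀ n, ∀ z ∈ N n, s * z ∈ M (n + a)) :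
    Sub N M := ⟨a, s, s0, Eventually.of_forall fun n => Submodule.mul_le.2 fun y hy z hz => by
  obtain ⟨c, rfl⟩ := mem_span_singleton.1 hy
  rw [smul_mul_assoc]
  exact smul_mem _ _ (h n z hz)⟩

theorem Com.coeff_eq (hV : Mdl V) (hR : Fg V R) (hN : Fg V N) (h : Com R N) :
    (hp N).coeff (dimV V) = (hp R).coeff (dimV V) := by
  have := hilb_mem.1 (h.hp_sub hV hR hN (hp_mem_dim hV hR)) _ le_rfl
  rwa [coeff_sub, sub_eq_zero] at this

theorem hb_pu (hR : Fg V R) (hpow : ∀ n, V ^ n ≤ R n) : PU R R R :=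
  Eventually.of_forall fun a => hR.pow_smul.mono fun n hn => by
    rw [hn a]
    exact mul_le_mul' (hpow a) le_rfl

theorem hb_rm (h : ∀ m n, R m * N n ≤ N (m + n)) : RM R N :=
  fun m => Eventually.of_forall fun n => add_comm m n ▸ h m n

/-- the span of independent elements over a subfield -/
theorem hb_rank (K₀ : Subfield K) {ι : Type} [Fintype ι] {b : ι → K}
    (hb : LinearIndependent K₀ b) {U : Submodule k K} (hU : U.FG) (h : ∀ u ∈ U, u ∈ K₀) :
    Module.finrank k ↥(U * span k (Set.range b)) = Fintype.card ι * Module.finrank k U := by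
  haveI := Module.Finite.iff_fg.2 hU
  let φ : (ι → U) →ₗ[k] K :=
    { toFun := fun c => ∑ i, (c i : K) * b i
      map_add' := fun c d => by simp [add_mul, Finset.sum_add_distrib]
      map_smul' := fun r c => by simp [Finset.smul_sum] }
  have inj : Function.Injective φ := by
    refine (injective_iff_map_eq_zero φ).2 fun c hc => funext fun i => Subtype.ext ?_
    have := Fintype.linearIndependent_iff.1 hb (fun i => ⟨c i, h _ (c i).2⟩) hc i
    exact congrArg (fun x : K₀ => (x : K)) this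
  have e : U * span k (Set.range b) = LinearMap.range φ := by
    classical
    refine le_antisymm (Submodule.mul_le.2 fun u hu w hw => ?_) ?_
    · induction hw using span_induction with
      | mem w hw =>
        obtain ⟨i, rfl⟩ := hw
        refine ⟨Pi.single i ⟨u, hu⟩, ?_⟩
        change ∑ j, _ = _
        rw [Finset.sum_eq_single i (fun j _ hj => by simp [Pi.single_eq_of_ne hj]) (by simp)]
        simp
      | zero => simp
      | add x y _ _ h1 h2 => rw [mul_add]; exact add_mem h1 h2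
      | smul c x _ h1 => rw [mul_smul_comm]; exact smul_mem _ _ h1
    · rintro _ ⟨c, rfl⟩
      exact sum_mem fun i _ => mul_mem_mul (c i).2 (subset_span ⟨i, rfl⟩)
  rw [e, LinearMap.finrank_range_of_inj inj, Module.finrank_pi_fintype]
  simp

end field

variable {A : Type} [CommRing A] [IsDomain A] {𝒜 : ℕ → AddSubgroup A} [GradedRing 𝒜]
  [hG : Fact (Gen 𝒜)] {p : ℕ} [Fact p.Prime]

namespace Mo

variable {X : Mo 𝒜 p} {N N' M R R' : X.Fa}

theorem hp_pw (X : Mo 𝒜 p) : hp (pw X.V) = (cy 𝒜 (pr X.x.1)).hp p := by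
  rw [gb_unique (gb_cy' X.x)]
  refine hilb_congr (Eventually.of_forall fun n => ?_)
  let f : kap X.x.1 →ₗ[ZMod p] X.L := X.emb.toAddMonoidHom.toZModLinearMap p
  have e : pw X.V n = (pw (Mp X.x).V n).map f := by
    ext z
    rw [Submodule.mem_map, X.M.mem_pow]
    constructor
    · rintro ⟨a, ha, rfl⟩
      exact ⟨th X.x.1 a, (Mp X.x).th_mem_pow ha, X.emb_th a⟩
    · rintro ⟨w, hw, rfl⟩
      obtain ⟨a, ha, rfl⟩ := (Mp X.x).mem_pow.1 hw
      exact ⟨a, ha, (X.emb_th a).symm⟩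
  rw [e]
  exact (equivMapOfInjective f X.emb.injective _).finrank_eq.symm

theorem pow_ne_bot (X : Mo 𝒜 p) : ∃ᶠ n in atTop, pw X.V n ≠ ⊥ :=
  (Eventually.of_forall fun n => car_pow_ne X.n1q_mdl n).frequently

theorem FF.ne (h : X.FF N) {n : ℕ} {u : X.L} (hu : u ∈ N n) (u0 : u ≠ 0) :
    ∀ᶠ n in atTop, N n ≠ ⊥ := by
  filter_upwards [eventually_ge_atTop n] with k hk e
  obtain ⟨j, rfl⟩ := Nat.exists_eq_add_of_le hk
  have := X.st_pow h.st j n (mul_mem_mul (X.M.th_mem_pow (md_pow_mem (ell_spec X.x.1).1 j)) hu)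
  rw [e, Submodule.mem_bot] at this
  exact mul_ne_zero (X.th_ne (md_pow_mem (ell_spec X.x.1).1 j)
    (md_pow_not_mem (ell_spec X.x.1).2 j)) u0 this

theorem md_ne (X : Mo 𝒜 p) (D : Dvs X.L) : ∀ᶠ n in atTop, X.MD D n ≠ ⊥ := by
  obtain ⟨n, z, hz, z0⟩ := X.exists_ne_MD D
  exact (X.ff_MD D).ne hz z0

theorem fmul_mul_le {n : ℕ} {W U : Submodule (ZMod p) X.L} :
    fmul N N' n * W ≤ U ↔ ∀ i j, i + j = n → N i * N' j * W ≤ U := by
  simp only [← Submodule.le_div_iff_mul_le, fmul_le]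

theorem fmul_mul_fmul (h : ∀ i j, R i * N j ≤ N (i + j)) (h' : ∀ i j, R' i * N' j ≤ N' (i + j))
    (m n : ℕ) : fmul R R' m * fmul N N' n ≤ fmul N N' (m + n) := by
  refine fmul_mul_le.2 fun i j e => ?_
  rw [mul_comm]
  refine fmul_mul_le.2 fun i' j' e' => ?_
  rw [mul_comm, mul_mul_mul_comm, show m + n = i + i' + (j + j') by omega]
  exact (mul_le_mul' (h _ _) (h' _ _)).trans (mul_le_fmul _ _ _ _)

/-- families with the same stalks in dimension at least `s` -/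
theorem hp_sub_of_stk (h : X.FF N) (h' : X.FF M) (hle : N ≤ M) {s : ℕ}
    (e : ∀ y : Vp 𝒜 p, s ≤ dm y → X.stk M y.1 ⊆ X.stk N y.1) : hp M - hp N ∈ degreeLT ℚ s := by
  obtain ⟨Q, h1, h2⟩ := ses_gm X h h' hle
  have h3 := hp_ses h1 (fb_gm X h')
  rw [hp_gm, hp_gm] at h3
  rw [h3, add_sub_cancel_left]
  exact hp_mem (h1.fb (fb_gm X h')).2 fun y hy => (h2 y.1).2 (e y hy)

/-- leading coefficient of a family of full rank -/
theorem top_full (h : X.FF N) (full : ∀ M, Fg X.V M → Sub M N) :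
    (hp N).coeff (dm X.x) = X.f * dg X.x := by
  have hV := X.n1q_mdl
  haveI := X.fin
  let b := Module.finBasis (Subfield.closure (Set.range X.θ)) X.L
  have hW : (span (ZMod p) (Set.range b)).FG := fg_span (Set.finite_range _)
  have hM := X.fg_pow_mul hW
  have e : (hp fun n => X.V ^ n * span (ZMod p) (Set.range b)) = C (X.f : ℚ) * hp (pw X.V) := by
    refine hp_unique ((hp_spec hV.1 (fg_pw' hV.1)).mono fun n hn => ?_)
    rw [eval_mul, eval_C, hn, hb_rank _ b.linearIndependent (hV.1.pow n), Fintype.card_fin,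
      Nat.cast_mul]
    · rfl
    · intro u hu
      obtain ⟨a, -, rfl⟩ := X.M.mem_pow.1 hu
      exact Subfield.subset_closure ⟨a, rfl⟩
  have s : Sub N fun n => X.V ^ n * span (ZMod p) (Set.range b) := by
    refine Sub.of_full hV h.fg (fun i n => by rw [← mul_assoc, ← pow_add, add_comm]) fun z => ?_
    rw [← b.sum_repr z]
    refine Finset.sum_induction _
      (fun z => ∃ n, ∃ c ∈ X.V ^ n, c ≠ 0 ∧ c * z ∈ X.V ^ n * span (ZMod p) (Set.range b))
      ?_ ⟨0, 1, by simp, one_ne_zero, by simp⟩ fun i _ => ?_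
    · rintro x y ⟨n, c, hc, c0, hx⟩ ⟨m, d, hd, d0, hy⟩
      refine ⟨n + m, c * d, pow_add X.V n m ▸ mul_mem_mul hc hd, mul_ne_zero c0 d0, ?_⟩
      rw [mul_add, mul_assoc c d y, mul_comm c d, mul_assoc d c x]
      refine add_mem ?_ ?_
      · rw [add_comm, pow_add, mul_assoc]
        exact mul_mem_mul hd hx
      · rw [pow_add, mul_assoc]
        exact mul_mem_mul hc hy
    · obtain ⟨n, a, ha, c, hc, c0, e⟩ := X.mem_K0.1 (b.repr z i).2
      refine ⟨n, X.θ c, X.M.th_mem_pow hc, X.th_ne hc c0, ?_⟩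
      rw [Subfield.smul_def, smul_eq_mul, e, ← mul_assoc, mul_div_cancel₀ _ (X.th_ne hc c0)]
      exact mul_mem_mul (X.M.th_mem_pow ha) (subset_span ⟨i, rfl⟩)
  have := Com.coeff_eq hV hM h.fg ⟨full _ hM, s⟩
  rw [br_dimV, e, coeff_C_mul, hp_pw] at this
  exact this

theorem pow_le_MD (X : Mo 𝒜 p) (n : ℕ) : X.V ^ n ≤ X.MD 0 n := fun u hu => by
  obtain ⟨a, ha, rfl⟩ := X.M.mem_pow.1 hu
  exact X.th_mem_MD ha

theorem md_zero_mul (X : Mo 𝒜 p) (D : Dvs X.L) (m n : ℕ) : X.MD 0 m * X.MD D n ≤ X.MD D (m + n) :=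
  Submodule.mul_le.2 fun _ hu _ hv => zero_add D ▸ X.mul_mem_MD hu hv

theorem com_MD (X : Mo 𝒜 p) (D : Dvs X.L) : Com (X.MD 0) (X.MD D) := by
  refine ⟨.of_rm X.n1q_mdl (X.ff_MD 0).fg (X.ff_MD D).fg (hb_rm (X.md_zero_mul D))
    (X.md_ne D).frequently, ?_⟩
  obtain ⟨a, s, hs, s0⟩ := X.exists_ne_MD (-D)
  refine .of_mul (a := a) s0 fun n z hz => ?_
  have := X.mul_mem_MD hz hs
  rwa [add_neg_cancel, mul_comm] at this

end Mo

theorem hb_dg_pos (x : Vp 𝒜 p) : 0 < dg x := by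
  have := (natDegree_hp (ofPt x).n1q_mdl (fg_pw' (ofPt x).M.V_fg) (ofPt x).pow_ne_bot).2
  rwa [br_dimV, Mo.hp_pw] at this

namespace Sp

variable {X Y : Mo 𝒜 p} (S : Sp X Y)

theorem zero_mul_bar (D : Dvs X.L) (m n : ℕ) : S.bar 0 m * S.bar D n ≤ S.bar D (m + n) := by
  have := S.bar_mul 0 D m n
  rwa [zero_add] at this

theorem com_bar (D : Dvs X.L) : Com (S.bar 0) (S.bar D) := by
  refine ⟨.of_rm Y.n1q_mdl (S.ff_bar 0).fg (S.ff_bar D).fg (hb_rm (S.zero_mul_bar D))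
    (S.bar_ne D).frequently, ?_⟩
  obtain ⟨a, s, hs, s0⟩ := S.exists_ne_bar (-D)
  refine .of_mul (a := a) s0 fun n z hz => ?_
  have := S.bar_mul _ _ _ _ (mul_mem_mul hz hs)
  rwa [add_neg_cancel, mul_comm] at this

theorem top_bar (h : Function.Surjective S.ρ) (D : Dvs X.L) :
    (hp (S.bar D)).coeff (dm Y.x) = Y.f * dg Y.x := by
  refine Mo.top_full (S.ff_bar D) fun M hM => Sub.trans ?_ (S.com_bar D).1
  refine .of_den Y.n1q_mdl (S.zero_mul_bar 0) S.pow_le_bar hM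
    (Eventually.of_forall fun a z _ => ?_)
  obtain ⟨u, rfl⟩ := h z
  exact S.br_gen u

end Sp

theorem hp_bar {X Y : Mo 𝒜 p} (S : Sp X Y) (D : Dvs X.L) : hp (S.bar D) = X.hb S.O D := by
  refine hp_unique ?_
  filter_upwards [hp_spec X.M.V_fg (X.ff_MD D).fg,
    hp_spec X.M.V_fg (X.ff_MD (D - Finsupp.single S.O 1)).fg] with n h1 h2
  haveI := Module.Finite.iff_fg.2 ((X.ff_MD D).fd n)
  have le : X.MD (D - Finsupp.single S.O 1) n ≤ X.MD D n := X.MD_mono (fun O _ => by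
    classical
    rw [Finsupp.sub_apply, Finsupp.single_apply]
    split_ifs <;> omega) n
  have e : LinearMap.ker (S.evl D n) = (X.MD (D - Finsupp.single S.O 1) n).comap
      (X.MD D n).subtype := Submodule.ext fun z => S.ev_eq_zero_iff z.2
  have := LinearMap.finrank_range_add_finrank_ker (S.evl D n)
  rw [e, (comapSubtypeEquivOfLe le).finrank_eq, ← S.bar_eq] at this
  rw [Mo.hb, eval_sub, h1, h2, ← this, Nat.cast_add, add_sub_cancel_right]

theorem hp_md_deg (X : Mo 𝒜 p) (D : Dvs X.L) : (hp (X.MD D)).natDegree = dm X.x :=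
  (natDegree_hp X.n1q_mdl (X.ff_MD D).fg (X.md_ne D).frequently).1.trans (br_dimV X)

theorem hp_md_div (X : Mo 𝒜 p) {z : X.L} (hz : z ≠ 0) {e : ℕ} {E : Dvs X.L} (h : X.IsDiv z e E)
    (D : Dvs X.L) : hp (X.MD (D + E)) = (hp (X.MD D)).comp (Polynomial.X + C (e : ℚ)) := by
  refine hp_unique ((hp_shift X.n1q_mdl (X.ff_MD D).fg e).mono fun n hn => ?_)
  have key : ∀ w, z * w ∈ X.MD D (n + e) ↔ w ∈ X.MD (D + E) n := fun w => by
    rw [← h.mul_mem (D := D + E) hz, add_sub_cancel_right, add_comm]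
  rw [hn]
  congr 1
  refine le_antisymm (hilb_le ((X.ff_MD _).fd n) (inv_ne_zero hz) fun w hw => (key _).1 ?_)
    (hilb_le ((X.ff_MD _).fd _) hz fun w hw => (key w).2 hw)
  rwa [mul_inv_cancel_left₀ hz]

theorem qq_le (X : Mo 𝒜 p) (h3 : dm X.x = 3) (c : ℚ) : ∃ B : ℚ, ∀ D : Dvs X.L,
    |(hp (X.MD D)).coeff 2| ≤ c → X.qq D ≤ B := by
  have hV := X.n1q_mdl
  obtain ⟨B, hB⟩ := s1_S2 hV (X.ff_MD 0).fg ((hp_md_deg X 0).trans h3) c
  refine ⟨B, fun D hD => (hB _ (X.ff_MD D).fg (hb_rm (X.md_zero_mul D)) ?_ hD).1⟩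
  refine (X.com_MD D).hp_sub hV (X.ff_MD 0).fg (X.ff_MD D).fg ?_
  rw [← h3, ← br_dimV]
  exact hp_mem_dim hV (X.ff_MD 0).fg

end

end Pool.Agent.Lib.MP_62d77c_ag.R
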