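import Pool.Agent.Lib.MP_62d77c_ag.R.GmB

/-! Comparison of the intersection polynomial with the intersection number. -/

set_option autoImplicit false
set_option linter.unusedSectionVars false

namespace Pool.Agent.Lib.MP_62d77c_ag.R

open Filter Polynomial Submodule
open scoped TensorProduct Matrix

noncomputable section

variable {A : Type} [CommRing A] [IsDomain A] {𝒜 : ℕ → AddSubgroup A} [GradedRing 𝒜]
  [hG : Fact (Gen 𝒜)] {p : ℕ} [Fact p.Prime] {N N' N₁ N₂ N₃ : GM 𝒜}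

theorem k1b_quot (N : GM 𝒜) (Z : Submodule A N.M) (n : ℤ) :
    Nat.card ((N.quot Z).g n) = Z.toAddSubgroup.relIndex (N.g n) := by
  refine (AddSubgroup.relIndex_ker (N.g n) (N.core Z).mkQ.toAddMonoidHom).symm.trans ?_
  rw [← AddSubgroup.inf_relIndex_right, ← AddSubgroup.inf_relIndex_right Z.toAddSubgroup]
  congr 1
  ext m
  refine and_congr_left fun hm => ?_
  exact (Submodule.Quotient.mk_eq_zero _).trans (N.mem_core_of_mem_g hm)

theorem k1b_sq (N : GM 𝒜) (Z B : Submodule A N.M) (n : ℤ) :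
    Nat.card ((N.sq Z B).g n) = B.toAddSubgroup.relIndex (Z.toAddSubgroup ⊓ N.g n) := by
  refine (k1b_quot _ _ n).trans ((AddSubgroup.relIndex_comap B.toAddSubgroup
    (N.core Z).subtype.toAddMonoidHom _).trans ?_)
  congr 1
  ext m
  constructor
  · rintro ⟨w, hw, rfl⟩
    exact ⟨N.core_le Z w.2, hw⟩
  · rintro ⟨h1, h2⟩
    exact ⟨⟨m, (N.mem_core_of_mem_g h2).2 h1⟩, h2, rfl⟩

theorem k1b_piece {β : Type} {a : β → ℕ} {n : ℕ} {c : β → A} :
    c ∈ piece 𝒜 a n ↔ ∀ i, c i ∈ Az 𝒜 (n - a i) := by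
  refine mem_piece.trans (forall_congr' fun i => ?_)
  rcases le_or_gt (a i) n with h | h
  · rw [← Nat.cast_sub h, Az_nat]
    exact ⟨fun H => H.1 h, fun H => ⟨fun _ => H, fun h' => absurd h (by omega)⟩⟩
  · rw [Az_neg (by omega)]
    exact ⟨fun H => H.2 h, fun H => ⟨fun h' => absurd h (by omega), fun _ => H⟩⟩

theorem k1b_one : (1 : A) ∈ Az 𝒜 0 := SetLike.one_mem_graded 𝒜

theorem k1b_single {β : Type} [DecidableEq β] (a : β → ℕ) (j : β) :
    (Pi.single j 1 : β → A) ∈ piece 𝒜 a (a j) := k1b_piece.2 fun i => by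
  by_cases e : i = j
  · subst e
    rw [Pi.single_eq_same, sub_self]
    exact k1b_one
  · rw [Pi.single_eq_of_ne e]
    exact zero_mem _

theorem k1b_mact {β γ : Type} [Fintype β] [Fintype γ] [DecidableEq γ]
    (f : (γ → A) →ₗ[A] (β → A)) : mact A (LinearMap.toMatrix' f) = f :=
  LinearMap.ext fun v => LinearMap.toMatrix'_mulVec f v

/-- reduction modulo `J` -/
def k1bq (J : Ideal A) : A →ₗ[A] (cy 𝒜 J).M := ((one 𝒜).core J).mkQ

theorem k1bq_zero {J : Ideal A} (h : J.IsHomogeneous 𝒜) {a : A} : k1bq (𝒜 := 𝒜) J a = 0 ↔ a ∈ J :=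
  (Submodule.Quotient.mk_eq_zero _).trans (by rw [GM.core_eq _ (hg_one h)]; rfl)

theorem k1bq_surj (J : Ideal A) : Function.Surjective (k1bq (𝒜 := 𝒜) J) :=
  ((one 𝒜).core J).mkQ_surjective

/-- a resolution of the ideal gives a resolution of the quotient -/
def k1bRes {I : Ideal A} (hI : I.IsHomogeneous 𝒜) (R : Resol 𝒜 I) : Res (cy 𝒜 I) where
  b
    | 0 => 1
    | q + 1 => R.b q
  a
    | 0 => fun _ => 0
    | q + 1 => fun i => R.a q i
  gen _ := k1bq I 1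
  D
    | 0 => LinearMap.toMatrix' (LinearMap.pi fun _ => R.ε)
    | q + 1 => LinearMap.toMatrix' (R.D q)
  hgen _ := ⟨(1 : A), k1b_one (A := A) (𝒜 := 𝒜), rfl⟩
  hD
    | 0 => fun _ j => by
      have := R.homε _ _ (k1b_single (R.a 0) j)
      rw [← Az_nat (𝒜 := 𝒜)] at this
      simpa using this
    | q + 1 => fun i j => k1b_piece.1 (R.homD q _ _ (k1b_single (R.a (q + 1)) j)) i
  surj m := by
    obtain ⟨a, rfl⟩ := k1bq_surj I m
    exact ⟨fun _ => a, by simp [Fintype.linearCombination_apply, ← map_smul]⟩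
  ex0 v := by
    rw [k1b_mact]
    have : Fintype.linearCombination A (fun _ : Fin 1 => k1bq (𝒜 := 𝒜) I 1) v = k1bq I (v 0) := by
      simp [Fintype.linearCombination_apply, ← map_smul]
    refine (Eq.congr_left this).trans ((k1bq_zero hI).trans
      ((SetLike.ext_iff.1 R.range _).symm.trans ?_))
    exact ⟨fun ⟨w, hw⟩ => ⟨w, funext fun i => by rw [Subsingleton.elim i (0 : Fin 1)]; exact hw⟩,
      fun ⟨w, hw⟩ => ⟨w, congrFun hw (0 : Fin 1)⟩⟩
  ex
    | 0 => fun v => by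
      rw [k1b_mact, k1b_mact, ← R.exact0 v]
      exact ⟨fun h => congrFun h (0 : Fin 1), fun h => funext fun _ => h⟩
    | q + 1 => by rw [k1b_mact, k1b_mact]; exact R.exact q

/-- reduction of vectors modulo `J` -/
def k1bv (J : Ideal A) (β : Type) : (β → A) →ₗ[A] (β → (cy 𝒜 J).M) := (k1bq J).compLeft β

section
variable {J : Ideal A} (hJ : J.IsHomogeneous 𝒜) {β γ δ : Type} [Fintype β] [Fintype γ] [Fintype δ]

theorem k1bv_surj (w : β → (cy 𝒜 J).M) : ∃ v, k1bv J β v = w := by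
  choose v hv using fun i => k1bq_surj J (w i)
  exact ⟨v, funext hv⟩

theorem k1bv_mact [DecidableEq γ] (f : (γ → A) →ₗ[A] (β → A)) (v : γ → A) :
    mact (cy 𝒜 J).M (LinearMap.toMatrix' f) (k1bv J γ v) = k1bv J β (f v) := by
  conv_rhs => rw [← k1b_mact f]
  funext i
  change ∑ j, _ • k1bq J (v j) = k1bq J (∑ j, _ • v j)
  simp only [map_sum, map_smul]

theorem k1bv_piece (a : β → ℕ) (n : ℕ) :
    (piece 𝒜 a n).map (k1bv J β).toAddMonoidHom = ((cy 𝒜 J).pw fun i => (a i : ℤ)).g n := by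
  ext w
  constructor
  · rintro ⟨v, hv, rfl⟩ i -
    exact ⟨v i, k1b_piece.1 hv i, rfl⟩
  · intro h
    choose v h1 h2 using fun i => h i trivial
    exact ⟨v, k1b_piece.2 h1, funext h2⟩

include hJ

theorem k1bv_zero {v : β → A} : k1bv (𝒜 := 𝒜) J β v = 0 ↔ v ∈ (J • ⊤ : Submodule A (β → A)) :=
  funext_iff.trans ((forall_congr' fun _ => k1bq_zero hJ).trans tor_mem_smul.symm)

theorem k1bv_range [DecidableEq γ] (f : (γ → A) →ₗ[A] (β → A)) :
    (LinearMap.range (mact (cy 𝒜 J).M (LinearMap.toMatrix' f))).toAddSubgroup.comap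
      (k1bv J β).toAddMonoidHom = (LinearMap.range f ⊔ J • ⊤).toAddSubgroup := by
  ext v
  constructor
  · rintro ⟨w, hw⟩
    obtain ⟨u, rfl⟩ := k1bv_surj w
    rw [k1bv_mact] at hw
    exact Submodule.mem_sup.2 ⟨f u, ⟨u, rfl⟩, v - f u,
      (k1bv_zero hJ).1 (by rw [map_sub]; exact sub_eq_zero.2 hw.symm), add_sub_cancel _ _⟩
  · intro h
    obtain ⟨_, ⟨u, rfl⟩, w, hw, rfl⟩ := Submodule.mem_sup.1 h
    refine ⟨k1bv J γ u, (k1bv_mact f u).trans ?_⟩
    change _ = k1bv J β (f u + w)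
    rw [map_add, (k1bv_zero hJ).2 hw, add_zero]

theorem k1b_homol [DecidableEq β] [DecidableEq γ] (a : β → ℕ) (n : ℕ)
    (f : (γ → A) →ₗ[A] (β → A)) (g : (β → A) →ₗ[A] (δ → A)) :
    Nat.card ((((cy 𝒜 J).pw fun i => (a i : ℤ)).sq
      (LinearMap.ker (mact (cy 𝒜 J).M (LinearMap.toMatrix' g)))
      (LinearMap.range (mact (cy 𝒜 J).M (LinearMap.toMatrix' f)))).g n) =
    (LinearMap.range f ⊔ J • ⊤).toAddSubgroup.relIndex
      (((J • ⊤ : Submodule A (δ → A)).comap g).toAddSubgroup ⊓ piece 𝒜 a n) := by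
  rw [k1b_sq, ← k1bv_range hJ, AddSubgroup.relIndex_comap, ← k1bv_piece]
  congr 1
  ext w
  constructor
  · rintro ⟨h1, v, hv, rfl⟩
    exact ⟨v, ⟨(k1bv_zero hJ).1 ((k1bv_mact g v).symm.trans h1), hv⟩, rfl⟩
  · rintro ⟨v, ⟨h1, hv⟩, rfl⟩
    exact ⟨(k1bv_mact g v).trans ((k1bv_zero hJ).2 h1), v, hv, rfl⟩

theorem k1b_tor {I : Ideal A} (hI : I.IsHomogeneous 𝒜) (R : Resol 𝒜 I) (n q : ℕ) :
    Nat.card (((k1bRes hI R).Tor (cy 𝒜 J) q).g n) = R.tor J n q := by
  rcases q with _ | _ | q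
  · refine (k1b_quot _ _ _).trans ?_
    have h1 := k1bv_range hJ (LinearMap.pi fun _ : Fin 1 => R.ε)
    have h2 := k1bv_piece (𝒜 := 𝒜) (J := J) (fun _ : Fin 1 => 0) n
    refine (congrArg _ h2.symm).trans ((AddSubgroup.relIndex_comap _ _ _).symm.trans
      ((congrArg (AddSubgroup.relIndex · _) h1).trans ?_))
    have h3 : (LinearMap.range (LinearMap.pi fun _ : Fin 1 => R.ε) ⊔ J • ⊤).toAddSubgroup =
        (I ⊔ J).toAddSubgroup.comap (Pi.evalAddMonoidHom (fun _ : Fin 1 => A) 0) := by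
      ext v
      constructor
      · intro h
        obtain ⟨_, ⟨u, rfl⟩, w, hw, rfl⟩ := Submodule.mem_sup.1 h
        exact Submodule.mem_sup.2 ⟨_, R.range.le ⟨u, rfl⟩, w 0, tor_mem_smul.1 hw 0, rfl⟩
      · intro h
        obtain ⟨_, h4, w, hw, e⟩ := Submodule.mem_sup.1 h
        obtain ⟨u, rfl⟩ := R.range.ge h4
        exact Submodule.mem_sup.2 ⟨_, ⟨u, rfl⟩, fun _ => w, tor_mem_smul.2 fun _ => hw,
          funext fun i => by rw [Subsingleton.elim i 0]; exact e⟩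
    rw [h3, AddSubgroup.relIndex_comap, Resol.tor]
    congr 1
    ext a
    constructor
    · rintro ⟨v, hv, rfl⟩
      exact (mem_piece.1 hv 0).1 (Nat.zero_le _)
    · exact fun h => ⟨fun _ => a, mem_piece.2 fun _ => ⟨fun _ => h, fun h => absurd h (by omega)⟩,
        rfl⟩
  · refine (k1b_homol hJ (R.a 0) n (R.D 0) (LinearMap.pi fun _ : Fin 1 => R.ε)).trans ?_
    rw [Resol.tor]
    congr 2
    ext v
    exact tor_mem_smul.trans ⟨fun h => h 0, fun h _ => h⟩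
  · exact k1b_homol hJ (R.a (q + 1)) n (R.D (q + 1)) (R.D q)

end

theorem k1b_fbq (h : N.Fb p) (Z : Submodule A N.M) : (N.quot Z).Fb p := fun m => by
  obtain ⟨m, rfl⟩ := (N.core Z).mkQ_surjective m
  exact (map_smul (N.core Z).mkQ _ m).symm.trans (by rw [h m]; rfl)

theorem k1b_fb (R : Res N) (h : N'.Fb p) (q : ℕ) : (R.Tor N' q).Fb p := by
  rcases q with _ | q
  · exact k1b_fbq (N := N'.pw _) (fun m => funext fun i => h (m i)) _
  · exact k1b_fbq (N := (N'.pw _).sub _) (fun m => Subtype.ext (funext fun i => h (m.1 i))) _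

theorem isInt_of_TT (x : Pt 𝒜) (z : Vp 𝒜 p) {v : ℚ}
    (e : ∀ R : Res (cy 𝒜 (pr x)), R.TT (cy 𝒜 (pr z.1)) p = C v) :
    IsInt 3 x z.1 ((v : ℝ) * Real.log p) := by
  refine ⟨exists_resol (pr_hom x), fun R => ?_⟩
  have hF := k1b_fb (k1bRes (pr_hom x) R) (fb_cy (𝒜 := 𝒜) z.2)
  filter_upwards [(eventually_all_finset (Finset.range 5)).2 fun q _ => hp_spec' (hF q)] with n hn
  have h1 := congrArg (eval (n : ℚ)) (e (k1bRes (pr_hom x) R))
  rw [Res.TT, eval_finsetSum, eval_C] at h1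
  rw [← h1, Rat.cast_sum, Finset.sum_mul]
  refine Finset.sum_congr rfl fun q hq => ?_
  rw [← k1b_tor (pr_hom z.1) (pr_hom x), card_g (hF q), eval_mul, hn q hq]
  simp [mul_assoc]

end

end Pool.Agent.Lib.MP_62d77c_ag.R
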