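import Pool.Agent.Lib.MP_62d77c_ag.R.K1a
import Pool.Agent.Lib.MP_62d77c_ag.R.St
import Pool.Agent.Lib.MP_62d77c_ag.R.Dm

/-! Local splitting, vanishing of higher Tor, additivity in the second variable. -/

set_option autoImplicit false
set_option linter.unusedSectionVars false
set_option linter.style.haveILetI false

namespace Pool.Agent.Lib.MP_62d77c_ag.R

open Filter Polynomial Submodule
open scoped TensorProduct Matrix

noncomputable section

variable {A : Type} [CommRing A] [IsDomain A] {𝒜 : ℕ → AddSubgroup A} [GradedRing 𝒜]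
  [hG : Fact (Gen 𝒜)] {p : ℕ} [Fact p.Prime] {N N' N₁ N₂ N₃ : GM 𝒜}

theorem k1_pow {s : A} (hs : s ∈ 𝒜 1) (k : ℕ) : s ^ k ∈ 𝒜 k := by
  simpa using SetLike.pow_mem_graded k hs

theorem k1_prod {ι : Type} (y : Pt 𝒜) (t : Finset ι) {k : ι → ℕ} {s : ι → A}
    (h : ∀ i, s i ∈ 𝒜 (k i)) (h' : ∀ i, s i ∉ pr y) :
    ∏ i ∈ t, s i ∈ 𝒜 (∑ i ∈ t, k i) ∧ ∏ i ∈ t, s i ∉ pr y :=
  ⟨SetLike.prod_mem_graded 𝒜 k s fun i _ => h i,
    (prod_mem (S := (pr y).primeCompl) fun i _ => h' i :)⟩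

/-- common denominators with prescribed degrees -/
theorem lo_lift (y : Pt 𝒜) {ι : Type} [Fintype ι] (r : ι → Lo y) (c : ι → ℤ) :
    ∃ k : ℕ, ∃ s ∈ 𝒜 k, s ∉ pr y ∧ ∃ b : ι → A, ∀ i, b i ∈ Az 𝒜 (k + c i) ∧
      algebraMap A (Lo y) (b i) = algebraMap A (Lo y) s * r i := by
  classical
  choose k a ha s hs hy e using fun i => lo_surj y (r i)
  let C : ℕ := ∑ i, (c i).natAbs
  have hC : ∀ i, (c i).natAbs ≤ C := fun i =>
    Finset.single_le_sum (f := fun i => (c i).natAbs) (fun _ _ => Nat.zero_le _) (Finset.mem_univ i)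
  have hl := ell_spec y
  refine ⟨(∑ i, k i) + C, (∏ i, s i) * ell y ^ C,
    SetLike.mul_mem_graded (k1_prod y _ hs hy).1 (k1_pow hl.1 C),
    ((pr y).primeCompl.mul_mem (k1_prod y _ hs hy).2 ((pr y).primeCompl.pow_mem hl.2 C) :),
    fun i => (∏ j ∈ Finset.univ.erase i, s j) * a i * ell y ^ (C + c i).toNat, fun i => ⟨?_, ?_⟩⟩
  · have h1 := SetLike.mul_mem_graded (SetLike.mul_mem_graded
      (k1_prod y (Finset.univ.erase i) hs hy).1 (ha i)) (k1_pow hl.1 (C + c i).toNat)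
    rw [Finset.sum_erase_add _ _ (Finset.mem_univ i), ← Az_nat (𝒜 := 𝒜)] at h1
    have h2 := hC i
    rwa [show ((∑ i, k i + (C + c i).toNat : ℕ) : ℤ) = ((∑ i, k i + C : ℕ) : ℤ) + c i by
      rw [Nat.cast_add, Nat.cast_add]; omega] at h1
  · rw [← Finset.prod_erase_mul _ _ (Finset.mem_univ i)]
    simp only [map_mul, map_pow, lo_ell, one_pow, mul_one, ← e, mul_assoc]

theorem k1_lo_inj (y : Pt 𝒜) {k : ℤ} {s : A} (hs : s ∈ Az 𝒜 k) (h : algebraMap A (Lo y) s = 0) :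
    s = 0 := by
  rcases Az_cases hs with h0 | ⟨l, -, h1⟩
  · exact h0
  · exact (lo_inj y h1).1 h

/-- a local splitting, with denominators cleared -/
theorem split_glob {y : Pt 𝒜} {β γ : Type} [Fintype β] [Fintype γ] {a : β → ℤ} {a' : γ → ℤ}
    {D : Matrix β γ A} (hD : ∀ i j, D i j ∈ Az 𝒜 (a' j - a i)) (h : SplitAt y D) :
    ∃ k : ℕ, ∃ s ∈ 𝒜 k, s ∉ pr y ∧ ∃ H : Matrix γ β A, (∀ j i, H j i ∈ Az 𝒜 (k + (a i - a' j))) ∧
      D * H * D = s • D := by
  obtain ⟨τ, hτ⟩ := h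
  obtain ⟨k, s, hs, hy, b, hb⟩ := lo_lift y (fun t : γ × β => τ t.1 t.2) fun t => a t.2 - a' t.1
  refine ⟨k, s, hs, hy, Matrix.of fun j i => b (j, i), fun j i => (hb (j, i)).1, ?_⟩
  have e : (Matrix.of fun j i => b (j, i)).map (algebraMap A (Lo y)) =
      algebraMap A (Lo y) s • τ := by
    ext j i; exact (hb (j, i)).2
  ext i j
  rw [← sub_eq_zero]
  refine k1_lo_inj y (k := k + (a' j - a i)) (sub_mem ?_ ?_) ?_
  · rw [Matrix.mul_apply]
    refine sum_mem fun l _ => ?_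
    rw [Matrix.mul_apply, Finset.sum_mul]
    refine sum_mem fun m _ => ?_
    have := Az_mul (Az_mul (hD i m) (hb (m, l)).1) (hD l j)
    rwa [show a' m - a i + (k + (a l - a' m)) + (a' j - a l) = k + (a' j - a i) by ring] at this
  · exact Az_mul (by rwa [Az_nat]) (hD i j)
  · have h1 : ((D * (Matrix.of fun j i => b (j, i)) * D).map (algebraMap A (Lo y))) i j =
        (algebraMap A (Lo y) s • D.map (algebraMap A (Lo y))) i j := by
      rw [Matrix.map_mul, Matrix.map_mul, e, Matrix.mul_smul, Matrix.smul_mul, hτ]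
    rw [map_sub, sub_eq_zero]
    exact h1.trans (map_mul _ _ _).symm

theorem k1_zeroAt {s : A} {k : ℕ} {y : Pt 𝒜} (hs : s ∈ 𝒜 k) (hy : s ∉ pr y)
    (h : ∀ m : N.M, s • m = 0) : N.ZeroAt y := fun m => ⟨k, s, hs, hy, h m⟩

theorem k1_kill {y : Pt 𝒜} (h : N.ZeroAt y) :
    ∃ k, ∃ s ∈ 𝒜 k, s ∉ pr y ∧ ∀ m : N.M, s • m = 0 := by
  classical
  obtain ⟨b, f, hf⟩ := Module.Finite.exists_fin (R := A) (M := N.M)
  choose k s hs hy e using fun i => h (f i)
  refine ⟨_, _, (k1_prod y Finset.univ hs hy).1, (k1_prod y Finset.univ hs hy).2, fun m => ?_⟩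
  have hm : m ∈ span A (Set.range f) := hf ▸ mem_top
  induction hm using span_induction with
  | mem x hx =>
    obtain ⟨i, rfl⟩ := hx
    rw [← Finset.prod_erase_mul _ _ (Finset.mem_univ i), mul_smul, e, smul_zero]
  | zero => exact smul_zero _
  | add x z _ _ h1 h2 => rw [smul_add, h1, h2, add_zero]
  | smul c x _ h1 => rw [smul_comm, h1, smul_zero]

theorem k1_ev_bot (hF : N.Fb p) (h : ∀ y : Vp 𝒜 p, N.ZeroAt y.1) :
    ∀ᶠ n : ℕ in atTop, N.g n = ⊥ := ev_bot fun y => by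
  by_cases hy : (p : A) ∈ pr y
  · exact h ⟨y, hy⟩
  · exact k1_zeroAt (md_natCast_mem p) hy hF

theorem tor_zeroAt (R : Res N) (N' : GM 𝒜) (q : ℕ) {y : Pt 𝒜} (h : SplitAt y (R.D q)) :
    (R.Tor N' (q + 1)).ZeroAt y := by
  obtain ⟨k, s, hs, hy, H, -, e⟩ := split_glob (R.hD q) h
  obtain ⟨K, hK⟩ := k1_lift' (R.ex q) (s • 1 - H * R.D q) (by
    rw [Matrix.mul_sub, ← Matrix.mul_assoc, e, Matrix.mul_smul, Matrix.mul_one, sub_self])
  exact k1_zeroAt hs hy (k1_sq_kill (R.isHom N' (q + 1)).hg_range fun v hv =>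
    k1_hom1 (H := K) (H' := H) (D' := R.D q) (by rw [hK, sub_add_cancel]) v hv)

open MP_a966df_ag in
theorem k1_split_reg {S : Type} [CommRing S] [IsRegularLocalRing S] {d : ℕ}
    (hd : ringKrullDim S = d) (h4 : d ≤ 4) {b : ℕ → ℕ}
    (D : ∀ q, Matrix (Fin (b q)) (Fin (b (q + 1))) S)
    (ex : ∀ q, Function.Exact (mact S (D (q + 1))) (mact S (D q))) {q : ℕ} (hq : 4 ≤ q) :
    ∃ τ : Matrix (Fin (b (q + 1))) (Fin (b q)) S, D q * τ * D q = D q := by
  obtain ⟨xs, h1, h2, h3⟩ := reg_seq S hd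
  have hR : Dp S d S := h1 ▸ Dp.of_reg (fun r hr => h2 ▸ Ideal.subset_span hr) h3
  have ex' : ∀ q, Function.Exact (mact S (D (q + 1))) (mact S (D q)).rangeRestrict := fun q v =>
    Subtype.ext_iff.trans (ex q v)
  have key : ∀ q j, j ≤ q + 1 → j ≤ d → Dp S j (LinearMap.range (mact S (D q))) := by
    intro q
    induction q with
    | zero =>
      intro j h1 h2
      rcases j with _ | j
      · exact Dp.zero
      · obtain rfl : j = 0 := by omega
        exact Dp.inj (i := (LinearMap.range (mact S (D 0))).subtype) Subtype.val_injective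
          ((hR.mono h2).pi _)
    | succ q ih =>
      intro j h1 h2
      rcases j with _ | j
      · exact Dp.zero
      · refine Dp.sub (i := (LinearMap.range (mact S (D (q + 1)))).subtype) Subtype.val_injective
          (fun v => (ex' q v).trans ?_) (mact S (D q)).surjective_rangeRestrict
          ((hR.mono h2).pi _) (ih j (by omega) (by omega))
        exact ⟨fun h => ⟨⟨v, h⟩, rfl⟩, fun ⟨w, h⟩ => h ▸ w.2⟩
  induction q, hq using Nat.le_induction with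
  | base =>
    haveI := (ufd_ffr_of_reg S hd 0 d rfl _ (key 3 d h4 le_rfl)).2
    have e : Fintype.linearCombination S
        (fun j => (mact S (D 3)).rangeRestrict (Pi.single j 1)) = (mact S (D 3)).rangeRestrict :=
      LinearMap.pi_ext' fun j => LinearMap.ext_ring (by
        rw [LinearMap.comp_apply, LinearMap.comp_apply, LinearMap.single_apply,
          Fintype.linearCombination_apply_single, one_smul])
    exact k1_split_zero (g := fun j => (mact S (D 3)).rangeRestrict (Pi.single j 1))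
      (by rw [e]; exact (mact S (D 3)).surjective_rangeRestrict) (by rw [e]; exact ex' 3)
  | succ q _ ih => exact k1_split_succ (ex q) ih.choose_spec

theorem res_split4 (h : Hyp 𝒜) (R : Res N) (y : Vp 𝒜 p) {q : ℕ} (hq : 4 ≤ q) :
    SplitAt y.1 (R.D q) :=
  haveI := lo_reg h y.1
  k1_split_reg (dim_lo h y).2 (Nat.sub_le _ _) (fun q => (R.D q).map (algebraMap A (Lo y.1)))
    (st_res y.1 R).2.2 hq

theorem tor_ev_bot (h : Hyp 𝒜) (R : Res N) (hF : N.Fb p ∨ N'.Fb p) {q : ℕ} (hq : 4 ≤ q) :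
    ∀ᶠ n : ℕ in atTop, (R.Tor N' (q + 1)).g n = ⊥ :=
  k1_ev_bot (tor_fb R hF _) fun y => tor_zeroAt R N' q (res_split4 h R y hq)

/-! ### additivity -/

theorem k1_val {a b c d e : ℕ} (h : p ^ a * p ^ b = p ^ c * d * e) :
    a + b = c + padicValNat p d + padicValNat p e := by
  have hp : (p : ℕ) ≠ 0 := (Fact.out : p.Prime).ne_zero
  have h0 : p ^ c * d * e ≠ 0 := h ▸ mul_ne_zero (pow_ne_zero _ hp) (pow_ne_zero _ hp)
  have h1 := congrArg (padicValNat p) h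
  rwa [← pow_add, padicValNat.prime_pow, padicValNat.mul (left_ne_zero_of_mul h0)
    (right_ne_zero_of_mul h0), padicValNat.mul (pow_ne_zero _ hp)
    (right_ne_zero_of_mul (left_ne_zero_of_mul h0)), padicValNat.prime_pow] at h1

/-- the map on vectors -/
def k1V {M M' : Type} [AddCommGroup M] [Module A M] [AddCommGroup M'] [Module A M']
    (f : M →ₗ[A] M') (β : Type) : (β → M) →ₗ[A] (β → M') := f.compLeft β

theorem k1V_isHom {d : ℤ} {f : N.M →ₗ[A] N'.M} (hf : IsHom N N' d f) {β : Type} [Fintype β]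
    (a : β → ℤ) : IsHom (N.pw a) (N'.pw a) d (k1V f β) := fun n v hv i _ => by
  have := hf _ _ (hv i trivial)
  rwa [show n - a i + d = n + d - a i by ring] at this

theorem k1V_surj {M M' : Type} [AddCommGroup M] [Module A M] [AddCommGroup M'] [Module A M']
    {f : M →ₗ[A] M'} (hf : Function.Surjective f) (β : Type) : Function.Surjective (k1V f β) :=
  hf.comp_left

theorem k1V_inj {M M' : Type} [AddCommGroup M] [Module A M] [AddCommGroup M'] [Module A M']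
    {f : M →ₗ[A] M'} (hf : Function.Injective f) (β : Type) : Function.Injective (k1V f β) :=
  hf.comp_left

theorem k1V_mact {M M' : Type} [AddCommGroup M] [Module A M] [AddCommGroup M'] [Module A M']
    (f : M →ₗ[A] M') {β γ : Type} [Fintype γ] (D : Matrix β γ A) (v : γ → M) :
    mact M' D (k1V f γ v) = k1V f β (mact M D v) := k1_mact_nat D f v

theorem k1V_img {f : N₁.M →ₗ[A] N₂.M} {g : N₂.M →ₗ[A] N₃.M} (hf : IsHom N₁ N₂ 0 f)
    (h : Function.Exact f g) {β : Type} [Fintype β] (a : β → ℤ) (n : ℤ) :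
    ((N₁.pw a).g n).map (k1V f β).toAddMonoidHom =
      (N₂.pw a).g n ⊓ (k1V g β).toAddMonoidHom.ker := by
  ext v
  constructor
  · rintro ⟨w, hw, rfl⟩
    exact ⟨add_zero n ▸ k1V_isHom hf a n w hw, funext fun i => h.apply_apply_eq_zero _⟩
  · rintro ⟨h1, h2⟩
    refine (k1V_isHom hf a).lift (by rwa [add_zero]) ?_
    choose w hw using fun i => (h (v i)).1 (congrFun h2 i)
    exact ⟨w, funext hw⟩

theorem k1_map_le {f : N.M →ₗ[A] N'.M} (hf : IsHom N N' 0 f) (n : ℤ) :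
    (N.g n).map f.toAddMonoidHom ≤ N'.g n := by
  rintro _ ⟨m, hm, rfl⟩
  simpa using hf n m hm

/-- the connecting index of a short exact sequence of coefficients -/
def k1K (g : N₂.M →ₗ[A] N₃.M) {β γ : Type} [Fintype β] [Fintype γ] (a : β → ℤ) (a' : γ → ℤ)
    (D : Matrix β γ A) (n : ℤ) : ℕ :=
  kaK (mact N₂.M D).toAddMonoidHom ((N₂.pw a').g n)
    ((N₂.pw a').g n ⊓ (k1V g γ).toAddMonoidHom.ker) ((N₂.pw a).g n ⊓ (k1V g β).toAddMonoidHom.ker)

theorem k1_les {f : N₁.M →ₗ[A] N₂.M} {g : N₂.M →ₗ[A] N₃.M} (hf : IsHom N₁ N₂ 0 f)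
    (hg : IsHom N₂ N₃ 0 g) (hi : Function.Injective f) (h : Function.Exact f g)
    (hs : Function.Surjective g) {α β γ : Type} [Fintype α] [Fintype β] [Fintype γ] {a₀ : α → ℤ}
    {a₁ : β → ℤ} {a₂ : γ → ℤ} {E : Matrix α β A} {D : Matrix β γ A}
    (hE : ∀ i j, E i j ∈ Az 𝒜 (a₁ j - a₀ i)) (hD : ∀ i j, D i j ∈ Az 𝒜 (a₂ j - a₁ i))
    (hED : E * D = 0) (n : ℤ) :
    kaH (mact N₁.M D).toAddMonoidHom (mact N₁.M E).toAddMonoidHom ((N₁.pw a₂).g n)
        ((N₁.pw a₁).g n) *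
      kaH (mact N₃.M D).toAddMonoidHom (mact N₃.M E).toAddMonoidHom ((N₃.pw a₂).g n)
        ((N₃.pw a₁).g n) =
      kaH (mact N₂.M D).toAddMonoidHom (mact N₂.M E).toAddMonoidHom ((N₂.pw a₂).g n)
        ((N₂.pw a₁).g n) * k1K g a₁ a₂ D n * k1K g a₀ a₁ E n := by
  have hD' : IsHom (N₂.pw a₂) (N₂.pw a₁) 0 (mact N₂.M D) :=
    isHom_mact N₂ fun i j => by rw [add_zero]; exact hD i j
  have hE' : IsHom (N₂.pw a₁) (N₂.pw a₀) 0 (mact N₂.M E) :=
    isHom_mact N₂ fun i j => by rw [add_zero]; exact hE i j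
  have kw : ∀ {β γ : Type} [Fintype β] [Fintype γ] {a : β → ℤ} {a' : γ → ℤ} {D : Matrix β γ A},
      IsHom (N₂.pw a') (N₂.pw a) 0 (mact N₂.M D) →
      ((N₂.pw a').g n ⊓ (k1V g γ).toAddMonoidHom.ker).map (mact N₂.M D).toAddMonoidHom ≤
        (N₂.pw a).g n ⊓ (k1V g β).toAddMonoidHom.ker := by
    rintro β γ _ _ a a' D hD _ ⟨v, hv, rfl⟩
    refine ⟨k1_map_le hD n ⟨v, hv.1, rfl⟩, (k1V_mact g D v).symm.trans ?_⟩
    exact (congrArg (mact N₃.M D) hv.2).trans (map_zero _)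
  have h1 := ka_index (mact N₂.M D).toAddMonoidHom (mact N₂.M E).toAddMonoidHom
    (fun v => (k1_mact_mul E D v).symm.trans (by rw [hED, k1_mact_zero]))
    (U₂ := (N₂.pw a₂).g n) (U₁ := (N₂.pw a₁).g n) inf_le_left inf_le_left (k1_map_le hD' n)
    (kw hD') (kw hE')
  have h2 := kaH_inj (d := (mact N₂.M D).toAddMonoidHom) (e := (mact N₂.M E).toAddMonoidHom)
    (d' := (mact N₁.M D).toAddMonoidHom) (e' := (mact N₁.M E).toAddMonoidHom)
    (f₂ := (k1V f γ).toAddMonoidHom) (f₁ := (k1V f β).toAddMonoidHom)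
    (f₀ := (k1V f α).toAddMonoidHom) (k1V_mact f D) (k1V_mact f E) (k1V_inj hi β) (k1V_inj hi α)
    ((N₁.pw a₂).g n) ((N₁.pw a₁).g n)
  have h3 := kaH_surj (d := (mact N₂.M D).toAddMonoidHom) (e := (mact N₂.M E).toAddMonoidHom)
    (d' := (mact N₃.M D).toAddMonoidHom) (e' := (mact N₃.M E).toAddMonoidHom)
    (g₂ := (k1V g γ).toAddMonoidHom) (g₁ := (k1V g β).toAddMonoidHom)
    (g₀ := (k1V g α).toAddMonoidHom) (fun v => (k1V_mact g D v).symm)
    (fun v => (k1V_mact g E v).symm) (k1_map_le hD' n) (k1_map_le hE' n)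
  have e2 := k1_card_map (k1V_isHom hg a₂) (k1V_surj hs γ) n
  have e1 := k1_card_map (k1V_isHom hg a₁) (k1V_surj hs β) n
  rw [add_zero] at e1 e2
  refine Eq.trans ?_ h1
  refine congrArg₂ (· * ·) (h2.symm.trans ?_) (Eq.trans ?_ h3.symm)
  · exact congrArg₂ (kaH _ _) (k1V_img hf h a₂ n) (k1V_img hf h a₁ n)
  · exact congrArg₂ (kaH _ _) e2.symm e1.symm

theorem k1_card_tor (R : Res N) (N' : GM 𝒜) (q : ℕ) (n : ℤ) :
    Nat.card ((R.Tor N' (q + 1)).g n) = kaH (mact N'.M (R.D (q + 1))).toAddMonoidHom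
      (mact N'.M (R.D q)).toAddMonoidHom ((N'.pw (R.a (q + 2))).g n) ((N'.pw (R.a (q + 1))).g n) :=
  k1_card_hom (N₃ := N'.pw (R.a q)) (R.isHom N' (q + 1)) (mact N'.M (R.D q)) n

theorem k1_card_cok' (N : GM 𝒜) {β γ : Type} [Fintype β] [Fintype γ] {a : β → ℤ} {a' : γ → ℤ}
    {D : Matrix β γ A} (hD : ∀ i j, D i j ∈ Az 𝒜 (a' j - a i)) (n : ℤ) :
    Nat.card (((N.pw a).quot (LinearMap.range (mact N.M D))).g n) =
      kaH (mact N.M D).toAddMonoidHom (mact N.M (0 : Matrix (Fin 0) β A)).toAddMonoidHom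
        ((N.pw a').g n) ((N.pw a).g n) := by
  refine (k1_card_cok (N := N.pw a') (N' := N.pw a) (f := mact N.M D)
    (isHom_mact N fun i j => by rw [add_zero]; exact hD i j) n).trans ?_
  unfold kaH
  congr 2
  exact AddSubgroup.ext fun v => ⟨fun _ => Subsingleton.elim _ _, fun _ => rfl⟩

theorem k1K_zero (g : N₂.M →ₗ[A] N₃.M) {β : Type} [Fintype β] (a₀ : Fin 0 → ℤ) (a : β → ℤ)
    (n : ℤ) : k1K g a₀ a 0 n = 1 :=
  AddSubgroup.relIndex_eq_one.2 fun v _ => (Subsingleton.elim 0 v) ▸ zero_mem _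

theorem k1_TT_eval (R : Res N) (hF : N.Fb p ∨ N'.Fb p) : ∀ᶠ n : ℕ in atTop,
    (R.TT N' p).eval (n : ℚ) = (R.Tor N' 0).sz p n - (R.Tor N' 1).sz p n + (R.Tor N' 2).sz p n -
      (R.Tor N' 3).sz p n + (R.Tor N' 4).sz p n := by
  filter_upwards [hp_spec' (tor_fb R hF 0), hp_spec' (tor_fb R hF 1), hp_spec' (tor_fb R hF 2),
    hp_spec' (tor_fb R hF 3), hp_spec' (tor_fb R hF 4)] with n h0 h1 h2 h3 h4
  simp only [Res.TT, Finset.sum_range_succ, Finset.sum_range_zero, eval_add, eval_mul, eval_pow,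
    eval_neg, eval_one, eval_zero, h0, h1, h2, h3, h4]
  ring

theorem TT_ses (h : Hyp 𝒜) (R : Res N) (hs : SES N₁ N₂ N₃) (hF : N.Fb p ∨ N₂.Fb p) :
    R.TT N₂ p = R.TT N₁ p + R.TT N₃ p := by
  have hF1 : N.Fb p ∨ N₁.Fb p := hF.imp_right fun h2 => (hs.fb h2).1
  have hF3 : N.Fb p ∨ N₃.Fb p := hF.imp_right fun h2 => (hs.fb h2).2
  obtain ⟨f, g, hf, hg, hi, he, hsu⟩ := hs
  refine hilb_ext ?_
  filter_upwards [k1_TT_eval R hF1, k1_TT_eval R hF, k1_TT_eval R hF3, tor_ev_bot h R hF1 le_rfl,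
    tor_ev_bot h R hF3 le_rfl] with n e1 e2 e3 z1 z3
  have s0 := k1_les hf hg hi he hsu (a₀ := fun _ : Fin 0 => 0) (E := 0) (fun i => i.elim0)
    (R.hD 0) (Matrix.zero_mul _) n
  rw [← k1_card_cok' N₁ (R.hD 0), ← k1_card_cok' N₂ (R.hD 0), ← k1_card_cok' N₃ (R.hD 0),
    k1K_zero] at s0
  have s : ∀ q, Nat.card ((R.Tor N₁ (q + 1)).g n) * Nat.card ((R.Tor N₃ (q + 1)).g n) =
      Nat.card ((R.Tor N₂ (q + 1)).g n) * k1K g _ _ (R.D (q + 1)) n * k1K g _ _ (R.D q) n :=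
    fun q => by
      rw [k1_card_tor, k1_card_tor, k1_card_tor]
      exact k1_les hf hg hi he hsu (R.hD q) (R.hD (q + 1)) (R.mul_zero q) n
  have s4 := s 4
  rw [z1, z3, AddSubgroup.card_bot, AddSubgroup.card_bot, one_mul] at s4
  have k4 := Nat.eq_one_of_mul_eq_one_left s4.symm
  have t0 := k1_val ((congrArg₂ (· * ·) (card_g (tor_fb R hF1 0) n)
    (card_g (tor_fb R hF3 0) n)).symm.trans (s0.trans
      (congrArg (fun z => z * _ * 1) (card_g (tor_fb R hF 0) n))))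
  have t : ∀ q, _ := fun q => k1_val ((congrArg₂ (· * ·) (card_g (tor_fb R hF1 (q + 1)) n)
    (card_g (tor_fb R hF3 (q + 1)) n)).symm.trans ((s q).trans
      (congrArg (fun z => z * _ * _) (card_g (tor_fb R hF (q + 1)) n))))
  have t1 := t 0
  have t2 := t 1
  have t3 := t 2
  have t4 := t 3
  rw [k4] at t4
  simp only [padicValNat_one_right, zero_add, Nat.reduceAdd, add_zero] at t0 t1 t2 t3 t4
  rw [eval_add, e1, e2, e3]
  have c0 := congrArg (Nat.cast (R := ℚ)) t0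
  have c1 := congrArg (Nat.cast (R := ℚ)) t1
  have c2 := congrArg (Nat.cast (R := ℚ)) t2
  have c3 := congrArg (Nat.cast (R := ℚ)) t3
  have c4 := congrArg (Nat.cast (R := ℚ)) t4
  push_cast at c0 c1 c2 c3 c4
  linarith

end

end Pool.Agent.Lib.MP_62d77c_ag.R
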