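import Pool.Agent.Lib.MP_62d77c_ag.R.K2c
import Pool.Agent.Lib.MP_62d77c_ag.R.K1
import Pool.Agent.Lib.MP_62d77c_ag.R.DevA

/-! Vanishing of the intersection polynomial on points and curves. -/

set_option autoImplicit false
set_option linter.unusedSectionVars false

namespace Pool.Agent.Lib.MP_62d77c_ag.R

open Filter Polynomial Submodule Matrix
open scoped TensorProduct

noncomputable section

section alg
variable {S S' : Type} [CommRing S] [CommRing S'] {ι ι' ρ : Type} [Fintype ι] [DecidableEq ι]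

theorem k2_mapE (f : S →+* S') (d : Matrix ι' ι S) (c : ρ → ι) :
    (d * kdE S c).map f = d.map f * kdE S' c := by rw [Matrix.map_mul, k2_kdE_map]

theorem k2e_map [Fintype ι'] [DecidableEq ι'] (f : S →+* S') (d : Matrix ι' ι S) (c : ρ → ι)
    (σ : ι' ≃ ρ) :
    f ((d * kdE S c).submatrix id σ).det = ((d.map f * kdE S' c).submatrix id σ).det := by
  rw [← k2_mapE, RingHom.map_det]
  rfl

theorem k2_lin {P : ℚ[X]} (h : P ∈ degreeLT ℚ 2) (t : ℤ) :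
    P.comp (X - C (t : ℚ)) = P - C (P.coeff 1) * (t : ℚ[X]) := by
  have e := eq_X_add_C_of_natDegree_le_one (natDegree_le_iff_coeff_eq_zero.2 fun n hn =>
    (degree_lt_iff_coeff_zero P 2).1 (mem_degreeLT.1 h) n hn)
  generalize P.coeff 1 = a at e ⊢
  generalize P.coeff 0 = b at e
  subst e
  simp only [add_comp, mul_comp, C_comp, X_comp, map_intCast]
  ring

end alg

variable {A : Type} [CommRing A] [IsDomain A] {𝒜 : ℕ → AddSubgroup A} [GradedRing 𝒜]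
  [hG : Fact (Gen 𝒜)] {p : ℕ} [Fact p.Prime] {N N' G N₁ N₂ N₃ : GM 𝒜}

theorem k2_kdE_deg {ι ρ : Type} [DecidableEq ι] (a : ι → ℤ) (c : ρ → ι) (i : ι) (j : ρ) :
    kdE A c i j ∈ Az 𝒜 ((a ∘ c) j - a i) := by
  simp only [kdE, submatrix_apply, one_apply, id, Function.comp]
  split_ifs with e
  · rw [e, sub_self]
    exact k1b_one
  · exact zero_mem _

theorem k2d_deg {ι ρ ρ' : Type} [Fintype ι] [DecidableEq ι] [Fintype ρ] [Fintype ρ'] {a : ι → ℤ}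
    {a' : ρ → ℤ} {M : Matrix ι ρ A} (hM : ∀ i j, M i j ∈ Az 𝒜 (a' j - a i)) (c : ρ' → ι)
    (σ : ι ≃ ρ ⊕ ρ') : k2d M c σ ∈ Az 𝒜 (∑ j, a' j + ∑ j, a (c j) - ∑ i, a i) := by
  have := k2_det_deg (𝒜 := 𝒜) (a := a) (a' := fun j => Sum.elim a' (a ∘ c) (σ j))
    (M := (fromCols M (kdE A c)).submatrix id σ)
    fun i j => k2_cols_deg hM (k2_kdE_deg a c) i (σ j)
  rwa [Equiv.sum_comp σ (Sum.elim a' (a ∘ c)), Fintype.sum_sum_type] at this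

theorem k2_DE_deg (R : Res N) (q : ℕ) {ρ : Type} (c : ρ → Fin (R.b (q + 1))) (i : Fin (R.b q))
    (j : ρ) : (R.D q * kdE A c) i j ∈ Az 𝒜 (R.a (q + 1) (c j) - R.a q i) := by
  rw [k2_mulE]
  exact R.hD q i (c j)

theorem k2C_fb (h : G.Fb p) {β γ : Type} [Fintype β] [Fintype γ] (a : β → ℤ) (M : Matrix β γ A) :
    (k2C G a M).Fb p := ((ses_sub_quot _ _).fb (k2_fb_pw h a)).2

theorem k2C_off {x y : Pt 𝒜} (h : ¬pr x ≤ pr y) {β γ : Type} [Fintype β] [Fintype γ] (a : β → ℤ)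
    (M : Matrix β γ A) : (k2C (cy 𝒜 (pr x)) a M).ZeroAt y :=
  k2_zeroAt a M ((zeroAt_cy (pr_hom x) y).2 h)

theorem k2C_dim (x : Vp 𝒜 p) {β γ : Type} [Fintype β] [Fintype γ] {a : β → ℤ} {M : Matrix β γ A}
    (h : (k2C (cy 𝒜 (pr x.1)) a M).ZeroAt x.1) : (k2C (cy 𝒜 (pr x.1)) a M).DimLt p (dm x) := by
  intro y hy
  by_cases e : pr x.1 ≤ pr y.1
  · exact eq_of_dm e hy ▸ h
  · exact k2C_off e a M

theorem k2_pw (h : G.Fb p) (hs : G.DimLt p 2) {β : Type} [Fintype β] (a : β → ℤ) :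
    (G.pw a).hp p = (Fintype.card β : ℚ[X]) * G.hp p -
      C ((G.hp p).coeff 1) * ((∑ i, a i : ℤ) : ℚ[X]) := by
  rw [hp_pw h, Finset.sum_congr rfl fun i _ => k2_lin (hp_mem h hs) (a i), Finset.sum_sub_distrib,
    ← Finset.mul_sum, Finset.sum_const, nsmul_eq_mul, Int.cast_sum, Finset.card_univ]

theorem k2_hp_len (f1 : N₁.Fb p) (f2 : N₂.Fb p) (f3 : N₃.Fb p) (d1 : N₁.DimLt p 1)
    (d2 : N₂.DimLt p 1) (d3 : N₃.DimLt p 1) (e : ∀ y : Vp 𝒜 p, Module.length (Lo y.1) (N₁.St y.1) =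
      Module.length (Lo y.1) (N₂.St y.1) + Module.length (Lo y.1) (N₃.St y.1)) :
    N₁.hp p = N₂.hp p + N₃.hp p := by
  have hc : N₁.cyc p 0 = N₂.cyc p 0 + N₃.cyc p 0 := by
    ext y
    rw [Finsupp.add_apply, cyc_apply f1 d1, cyc_apply f2 d2, cyc_apply f3 d3]
    split_ifs with k
    · rw [GM.len, e, ENat.toNat_add (len_ne_top f2 y (k ▸ d2)) (len_ne_top f3 y (k ▸ d3))]
      exact Nat.cast_add _ _
    · rfl
  have z : ∀ {N : GM 𝒜}, N.Fb p → N.DimLt p 1 → ∀ n, (N.hp p).coeff (n + 1) = 0 := fun f d n =>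
    (degree_lt_iff_coeff_zero _ 1).1 (mem_degreeLT.1 (hp_mem f d)) _ (by omega)
  ext (_ | n)
  · rw [coeff_add, hp_top f1 d1, hp_top f2 d2, hp_top f3 d3, hc,
      Finsupp.sum_add_index' (by simp) (by simp [add_mul])]
  · rw [coeff_add, z f1 d1, z f2 d2, z f3 d3, add_zero]

/-- the hypersurface section `g = 0` of the closure of `x` -/
def k2H (x : Pt 𝒜) (g : A) : GM 𝒜 :=
  k2C (cy 𝒜 (pr x)) (fun _ : Unit => 0) (Matrix.of fun _ _ : Unit => g)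

theorem k2H_len (x y : Pt 𝒜) {d : ℕ} {g : A} (hg : g ∈ 𝒜 d) :
    Module.length (Lo y) ((k2H x g).St y) =
      k2L (Matrix.of fun _ _ : Unit => algebraMap A (k2O x y) g) :=
  k2_len x y (a'' := fun _ => d) fun _ _ => by rwa [sub_zero, Az_nat]

theorem k2H_dim (x : Vp 𝒜 p) {d : ℕ} {g : A} (hg : g ∈ 𝒜 d) (hn : g ∉ pr x.1) :
    (k2H x.1 g).DimLt p (dm x) := by
  refine k2C_dim x ((dv_length_zero x.1).1 ((k2H_len x.1 x.1 hg).trans (k2L_unit ?_)))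
  rw [det_unique]
  exact ((lo_unit x.1 hg).2 hn).map (Ideal.Quotient.mk _)

theorem k2H_hp (x : Vp 𝒜 p) (hx : dm x < 2) {d : ℕ} {g : A} (hg : g ∈ 𝒜 d) (hn : g ∉ pr x.1) :
    (k2H x.1 g).hp p = C (((cy 𝒜 (pr x.1)).hp p).coeff 1) * ((d : ℤ) : ℚ[X]) := by
  have h1 := k2_hp_inj (p := p) (G := cy 𝒜 (pr x.1)) (fb_cy x.2) (a := fun _ : Unit => 0)
    (a' := fun _ : Unit => (d : ℤ)) (E := Matrix.of fun _ _ : Unit => g)
    (fun _ _ => by rwa [sub_zero, Az_nat]) fun u hu => by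
    obtain ⟨v, hv⟩ := k2mk_surj x.1 (u ())
    have h2 : k2mk x.1 (g * v) = 0 := by
      rw [← smul_eq_mul, map_smul, hv]
      simpa [mact_apply] using congrFun hu ()
    funext i
    exact hv.symm.trans (k2mk_zero.2 ((x.1.isPrime.mem_or_mem (k2mk_zero.1 h2)).resolve_left hn))
  rw [k2_pw (fb_cy x.2) ((dv_dimLt_cy x).2 hx), k2_pw (fb_cy x.2) ((dv_dimLt_cy x).2 hx)] at h1
  refine h1.trans ?_
  simp

theorem k2_g (x : Pt 𝒜) {u v : A} {m n : ℤ} (hu : u ∈ Az 𝒜 m) (hv : v ∈ Az 𝒜 n) (u0 : u ≠ 0)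
    (v0 : v ≠ 0) (h : Associated (algebraMap A (Lo x) u) (algebraMap A (Lo x) v)) :
    ∃ d1 d2 : ℕ, ∃ g1 ∈ 𝒜 d1, ∃ g2 ∈ 𝒜 d2, g1 ∉ pr x ∧ g2 ∉ pr x ∧ g1 * u = g2 * v ∧
      (d1 : ℤ) + m = d2 + n := by
  obtain ⟨m, rfl, hm⟩ := (Az_cases hu).resolve_left u0
  obtain ⟨n, rfl, hn⟩ := (Az_cases hv).resolve_left v0
  obtain ⟨w, hw⟩ := h
  obtain ⟨k, a, ha, s, hs, h1, e⟩ := lo_surj x w
  have l := fun n => md_pow_mem (ell_spec x).1 n
  have l' := fun n => md_pow_not_mem (ell_spec x).2 n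
  refine ⟨k + n, k + m, a * ell x ^ n, SetLike.mul_mem_graded ha (l n), s * ell x ^ m,
    SetLike.mul_mem_graded hs (l m), md_mul_not_mem
      ((lo_unit x ha).1 (e ▸ ((lo_unit x hs).2 h1).mul w.isUnit)) (l' n),
    md_mul_not_mem h1 (l' m), sub_eq_zero.1 ((lo_inj x (k := k + n + m) (sub_mem
      (SetLike.mul_mem_graded (SetLike.mul_mem_graded ha (l n)) hm) ?_)).1 ?_), by omega⟩
  · rw [add_right_comm]
    exact SetLike.mul_mem_graded (SetLike.mul_mem_graded hs (l m)) hn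
  · simp only [map_sub, map_mul, map_pow, lo_ell, one_pow, mul_one, ← e, ← hw]
    ring

/-- the differentials over an algebra -/
abbrev k2D (R : Res N) (y : Pt 𝒜) (q : ℕ) : Matrix (Fin (R.b q)) (Fin (R.b (q + 1))) (Lo y) :=
  (R.D q).map (algebraMap A (Lo y))

theorem k2_z (R : Res N) (y : Pt 𝒜) (q : ℕ) : k2D R y q * k2D R y (q + 1) = 0 := by
  rw [← Matrix.map_mul, st_DD, Matrix.map_zero _ (map_zero _)]

theorem k2_ex (R : Res N) (y : Pt 𝒜) (q : ℕ) (v : Fin (R.b (q + 1)) → Lo y)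
    (hv : k2D R y q *ᵥ v = 0) : ∃ w, k2D R y (q + 1) *ᵥ w = v := ((st_res y R).2.2 q v).1 hv

theorem k2_e0 (R : Res N) (y : Pt 𝒜) {s : Lo y} (hs : s ∈ Module.annihilator (Lo y) (N.St y))
    (v : Fin (R.b 0) → Lo y) : ∃ w, k2D R y 0 *ᵥ w = s • v :=
  ((st_res y R).2.1 (s • v)).1 (by rw [map_smul]; exact Module.mem_annihilator.1 hs _)

/-- the generators `c` form a basis of the fourth syzygy at `y` -/
structure K2L (R : Res N) (y : Pt 𝒜) {r : ℕ} (c : Fin r → Fin (R.b 4))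
    (Λ : Matrix (Fin r) (Fin (R.b 4)) (Lo y)) : Prop where
  h0 : k2D R y 3 * kdE (Lo y) c * Λ = k2D R y 3
  h1 : Λ * k2D R y 4 = 0
  h2 : Λ * kdE (Lo y) c = 1
  h3 : ∃ Θ : Matrix (Fin (R.b 5)) (Fin (R.b 4)) (Lo y), 1 - kdE (Lo y) c * Λ = k2D R y 4 * Θ
  inj : ∀ v, (k2D R y 3 * kdE (Lo y) c) *ᵥ v = 0 → v = 0

theorem k2_loc (h : Hyp 𝒜) (R : Res N) (y : Vp 𝒜 p) : ∃ (r : ℕ) (c : Fin r → Fin (R.b 4))
    (Λ : Matrix (Fin r) (Fin (R.b 4)) (Lo y.1)), K2L R y.1 c Λ := by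
  obtain ⟨τ, hτ⟩ := res_split4 h R y (le_refl 4)
  obtain ⟨r, c, Λ, Θ, h0, h1, h2, h3, h4⟩ :=
    k2_basis (k2D R y.1 3) (k2D R y.1 4) (k2_z R y.1 3) (k2_ex R y.1 3) τ hτ
  exact ⟨r, c, Λ, h0, h1, h2, ⟨Θ, h3⟩, h4⟩

/-- the fourth syzygy modulo the generators `c`, on the closure of `x` -/
def k2Q (R : Res N) (x : Pt 𝒜) {r : ℕ} (c : Fin r → Fin (R.b 4)) : GM 𝒜 :=
  k2C (cy 𝒜 (pr x)) (R.a 4) (fromCols (R.D 4) (kdE A c))

namespace K2L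

variable {R : Res N} {y : Pt 𝒜} {r : ℕ} {c : Fin r → Fin (R.b 4)}
  {Λ : Matrix (Fin r) (Fin (R.b 4)) (Lo y)}

theorem z3 (c : Fin r → Fin (R.b 4)) : k2D R y 2 * (k2D R y 3 * kdE (Lo y) c) = 0 :=
  (Matrix.mul_assoc _ _ _).symm.trans
    ((congrArg (· * kdE (Lo y) c) (k2_z R y 2)).trans (Matrix.zero_mul _))

theorem e3 (L : K2L R y c Λ) (v : Fin (R.b 3) → Lo y) (hv : k2D R y 2 *ᵥ v = 0) :
    ∃ w, (k2D R y 3 * kdE (Lo y) c) *ᵥ w = v := by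
  obtain ⟨w, rfl⟩ := k2_ex R y 2 v hv
  exact ⟨Λ *ᵥ w, (mulVec_mulVec _ _ _).trans (congrArg (· *ᵥ w) L.h0)⟩

theorem gen {y : Vp 𝒜 p} {Λ : Matrix (Fin r) (Fin (R.b 4)) (Lo y.1)} (L : K2L R y.1 c Λ)
    (hN : N.Cod p 1) : ∃ (r1 r2 r3 : ℕ) (c1 : Fin r1 → Fin (R.b 1))
      (c2 : Fin r2 → Fin (R.b 2)) (c3 : Fin r3 → Fin (R.b 3)) (σ0 : Fin (R.b 0) ≃ Fin r1)
      (σ1 : Fin (R.b 1) ≃ Fin r2 ⊕ Fin r1) (σ2 : Fin (R.b 2) ≃ Fin r3 ⊕ Fin r2)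
      (σ3 : Fin (R.b 3) ≃ Fin r ⊕ Fin r3),
      ((R.D 0 * kdE A c1).submatrix id σ0).det ≠ 0 ∧ k2d (R.D 1 * kdE A c2) c1 σ1 ≠ 0 ∧
      k2d (R.D 2 * kdE A c3) c2 σ2 ≠ 0 ∧ k2d (R.D 3 * kdE A c) c3 σ3 ≠ 0 := by
  obtain ⟨s, hs, h0⟩ : ∃ s ∈ Module.annihilator (Lo y.1) (N.St y.1), s ∉ (⊥ : Ideal (Lo y.1)) :=
    SetLike.not_le_iff_exists.1 fun k => by simpa using hN y ⊥ Ideal.isPrime_bot k
  obtain ⟨r1, r2, r3, c1, c2, c3, σ0, σ1, σ2, σ3, a0, a1, a2, a3⟩ := k2_gen (k2D R y.1 0)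
    (k2D R y.1 1) (k2D R y.1 2) (k2D R y.1 3 * kdE (Lo y.1) c) (k2_z R y.1 0) (k2_z R y.1 1)
    (z3 c) h0 (k2_e0 R y.1 hs) (k2_ex R y.1 0) (k2_ex R y.1 1) L.e3 L.inj
  set f := algebraMap A (Lo y.1)
  exact ⟨r1, r2, r3, c1, c2, c3, σ0, σ1, σ2, σ3,
    fun k => a0 ((k2e_map f _ c1 σ0).symm.trans ((congrArg f k).trans (map_zero f))),
    fun k => a1 (k2_mapE f (R.D 1) c2 ▸
      (k2d_map f _ c1 σ1).symm.trans ((congrArg f k).trans (map_zero f))),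
    fun k => a2 (k2_mapE f (R.D 2) c3 ▸
      (k2d_map f _ c2 σ2).symm.trans ((congrArg f k).trans (map_zero f))),
    fun k => a3 (k2_mapE f (R.D 3) c ▸
      (k2d_map f _ c3 σ3).symm.trans ((congrArg f k).trans (map_zero f)))⟩

theorem rank {y : Vp 𝒜 p} {Λ : Matrix (Fin r) (Fin (R.b 4)) (Lo y.1)} (L : K2L R y.1 c Λ)
    (hN : N.Cod p 1) : r + R.b 2 + R.b 0 = R.b 3 + R.b 1 := by
  obtain ⟨r1, r2, r3, -, -, -, σ0, σ1, σ2, σ3, -⟩ := L.gen hN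
  have h0 := Fintype.card_congr σ0
  have h1 := Fintype.card_congr σ1
  have h2 := Fintype.card_congr σ2
  have h3 := Fintype.card_congr σ3
  simp only [Fintype.card_sum, Fintype.card_fin] at h0 h1 h2 h3
  omega

theorem assoc {y : Vp 𝒜 p} {Λ : Matrix (Fin r) (Fin (R.b 4)) (Lo y.1)} (L : K2L R y.1 c Λ)
    (h : Hyp 𝒜) (hN : N.Cod p 2) (c' : Fin r → Fin (R.b 4)) {r1 r2 r3 : ℕ}
    (c1 : Fin r1 → Fin (R.b 1)) (c2 : Fin r2 → Fin (R.b 2)) (c3 : Fin r3 → Fin (R.b 3))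
    (σ0 : Fin (R.b 0) ≃ Fin r1) (σ1 : Fin (R.b 1) ≃ Fin r2 ⊕ Fin r1)
    (σ2 : Fin (R.b 2) ≃ Fin r3 ⊕ Fin r2) (σ3 : Fin (R.b 3) ≃ Fin r ⊕ Fin r3) :
    Associated ((Λ * kdE (Lo y.1) c').det * algebraMap A (Lo y.1)
        (k2d (R.D 2 * kdE A c3) c2 σ2 * ((R.D 0 * kdE A c1).submatrix id σ0).det))
      (algebraMap A (Lo y.1) (k2d (R.D 3 * kdE A c') c3 σ3 * k2d (R.D 1 * kdE A c2) c1 σ1)) := by
  have := lo_ufd h y.1
  have key := kdet_ufd (k2D R y.1 0) (k2D R y.1 1) (k2D R y.1 2) (k2D R y.1 3 * kdE (Lo y.1) c)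
    (k2_z R y.1 0) (k2_z R y.1 1) (z3 c) (fun π hπ v => by
      obtain ⟨s, hs, h0⟩ : ∃ s ∈ Module.annihilator (Lo y.1) (N.St y.1), s ∉ Ideal.span {π} := by
        refine SetLike.not_le_iff_exists.1 fun k => ?_
        have hp : (Ideal.span {π}).IsPrime := by
          rcases hπ with h | rfl
          · exact (Ideal.span_singleton_prime h.ne_zero).2 h
          · rw [Ideal.span_singleton_zero]
            exact Ideal.isPrime_bot
        have := (hN y _ hp k).trans (Ideal.height_span_singleton_le_one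
          fun u => hp.ne_top (Ideal.span_singleton_eq_top.2 u))
        exact absurd this (by decide)
      exact ⟨s, fun k => h0 (Ideal.mem_span_singleton.2 k), k2_e0 R y.1 hs v⟩)
    (k2_ex R y.1 0) (k2_ex R y.1 1) L.e3 (kdE _ c1) (kdE _ c2) (kdE _ c3) (Λ * kdE _ c') σ0 σ1 σ2 σ3
  have e : k2D R y.1 3 * kdE (Lo y.1) c * (Λ * kdE (Lo y.1) c') = k2D R y.1 3 * kdE (Lo y.1) c' :=
    (Matrix.mul_assoc _ _ _).symm.trans (congrArg (· * kdE (Lo y.1) c') L.h0)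
  rw [map_mul, map_mul, ← mul_assoc, k2d_map, k2d_map, k2d_map, k2e_map, k2_mapE, k2_mapE, k2_mapE]
  exact e ▸ key

theorem len (L : K2L R y c Λ) (x : Pt 𝒜) {r' : ℕ} (c' : Fin r' → Fin (R.b 4)) :
    Module.length (Lo y) ((k2Q R x c').St y) =
      k2L ((Λ * kdE (Lo y) c').map (Ideal.Quotient.mk ((pr x).map (algebraMap A (Lo y))))) := by
  set π := Ideal.Quotient.mk ((pr x).map (algebraMap A (Lo y)))
  obtain ⟨Θ, h3⟩ := L.h3
  refine (k2_len x y (k2_cols_deg (R.hD 4) (k2_kdE_deg (R.a 4) c'))).trans ?_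
  rw [fromCols_map, k2_kdE_map, k2_mapE]
  refine k2L_red (d := (k2D R y 4).map π) (E' := kdE _ c) (Θ := Θ.map π) ?_ ?_ ?_ _
  · rw [← Matrix.map_mul, L.h1, Matrix.map_zero _ (map_zero _)]
  · rw [← k2_mapE, L.h2, Matrix.map_one _ (map_zero _) (map_one _)]
  · rw [← Matrix.map_mul, ← h3, Matrix.map_sub _ (map_sub _), Matrix.map_mul, k2_kdE_map,
      Matrix.map_one _ (map_zero _) (map_one _)]

theorem dim {x : Vp 𝒜 p} {Λ : Matrix (Fin r) (Fin (R.b 4)) (Lo x.1)} (L : K2L R x.1 c Λ) :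
    (k2Q R x.1 c).DimLt p (dm x) := by
  refine k2C_dim x ((dv_length_zero x.1).1 ((L.len x.1 c).trans (k2L_unit ?_)))
  rw [L.h2, Matrix.map_one _ (map_zero _) (map_one _), det_one]
  exact isUnit_one

theorem hp {x : Vp 𝒜 p} {Λ : Matrix (Fin r) (Fin (R.b 4)) (Lo x.1)} (L : K2L R x.1 c Λ) :
    (k2C (cy 𝒜 (pr x.1)) (R.a 4) (R.D 4)).hp p =
      ((cy 𝒜 (pr x.1)).pw (R.a 4 ∘ c)).hp p + (k2Q R x.1 c).hp p := by
  refine k2_hp_cols (fb_cy x.2) (R.hD 4) (k2_kdE_deg (R.a 4) c) fun n u hu w hw => ?_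
  choose u' h1 h2 using fun j => (cy 𝒜 (pr x.1)).mem_pw.1 hu j
  choose w' h3 using fun j => k2mk_surj x.1 (w j)
  obtain rfl : (fun j => k2mk x.1 (u' j)) = u := funext h2
  obtain rfl : (fun j => k2mk x.1 (w' j)) = w := funext h3
  have h4 := (k2mk_mact x.1 _ w').symm.trans (hw.trans (k2mk_mact x.1 _ u'))
  set π := Ideal.Quotient.mk ((pr x.1).map (algebraMap A (Lo x.1)))
  set g := algebraMap A (k2O x.1 x.1)
  have h5 : (k2D R x.1 4).map π *ᵥ (g ∘ w') = (kdE A c).map g *ᵥ (g ∘ u') := funext fun i => by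
    refine (RingHom.map_mulVec g (R.D 4) w' i).symm.trans (Eq.trans ?_ (RingHom.map_mulVec g _ u' i))
    exact Ideal.Quotient.eq.2 (map_sub (algebraMap A (Lo x.1)) _ _ ▸ Ideal.mem_map_of_mem _
      (k2mk_zero.1 ((map_sub _ _ _).trans (sub_eq_zero.2 (congrFun h4 i)))))
  have h6 := congrArg (Λ.map π *ᵥ ·) h5
  simp only [mulVec_mulVec, k2_kdE_map, ← k2_mapE, ← Matrix.map_mul, L.h1, L.h2,
    Matrix.map_zero _ (map_zero π), Matrix.map_one _ (map_zero π) (map_one π), zero_mulVec,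
    one_mulVec] at h6
  exact funext fun j => k2mk_zero.2 (k2O_zero le_rfl (h1 j) (congrFun h6 j).symm)

theorem fin {x : Vp 𝒜 p} {Λ : Matrix (Fin r) (Fin (R.b 4)) (Lo x.1)} (L : K2L R x.1 c Λ)
    (h : Hyp 𝒜) (hN : N.Cod p 1) (hx : dm x < 2)
    (hQ : (k2Q R x.1 c).hp p = C (((cy 𝒜 (pr x.1)).hp p).coeff 1) * ((∑ j, R.a 4 (c j) -
      ∑ i, R.a 3 i + ∑ i, R.a 2 i - ∑ i, R.a 1 i + ∑ i, R.a 0 i : ℤ) : ℚ[X])) :
    T p N (cy 𝒜 (pr x.1)) = 0 := by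
  have w := fun {β : Type} [Fintype β] (a : β → ℤ) => k2_pw (fb_cy x.2) ((dv_dimLt_cy x).2 hx) a
  have e := congrArg (Nat.cast : ℕ → ℚ[X]) (L.rank hN)
  rw [T_eq h R (Or.inr (fb_cy x.2)), k2_TT R (fb_cy x.2), L.hp, hQ, w, w, w, w, w]
  simp only [Fintype.card_fin, Function.comp, Int.cast_add, Int.cast_sub, Nat.cast_add] at e ⊢
  linear_combination (cy 𝒜 (pr x.1)).hp p * e

end K2L

theorem k2_point (h : Hyp 𝒜) (hN : N.Cod p 1) (x : Vp 𝒜 p) (hx : dm x = 0) :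
    T p N (cy 𝒜 (pr x.1)) = 0 := by
  obtain ⟨r, c, Λ, L⟩ := k2_loc h (rsl N) x
  refine L.fin h hN (by omega) ?_
  have h1 := hp_mem (k2C_fb (fb_cy x.2) _ _) L.dim
  have h2 := hp_mem (fb_cy x.2) ((dv_dimLt_cy x).2 (hx ▸ Nat.one_pos))
  rw [(degree_lt_iff_coeff_zero _ 1).1 (mem_degreeLT.1 h2) 1 le_rfl, map_zero, zero_mul]
  ext n
  exact (degree_lt_iff_coeff_zero _ _).1 (mem_degreeLT.1 h1) n (by omega)

theorem k2_cod (hN : N.Cod p 2) : N.Cod p 1 := fun y P hP k =>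
  le_trans (by decide) (hN y P hP k)

theorem k2_curve (h : Hyp 𝒜) (hN : N.Cod p 2) (x : Vp 𝒜 p) (hx : dm x = 1) :
    T p N (cy 𝒜 (pr x.1)) = 0 := by
  let R := rsl N
  obtain ⟨r, c, Λ, L⟩ := k2_loc h R x
  refine L.fin h (k2_cod hN) (by omega) ?_
  obtain ⟨r1, r2, r3, c1, c2, c3, σ0, σ1, σ2, σ3, a0, a1, a2, a3⟩ := L.gen (k2_cod hN)
  have b0 := k2_det_deg (𝒜 := 𝒜) (a := R.a 0) (a' := fun j => R.a 1 (c1 (σ0 j)))
    (M := (R.D 0 * kdE A c1).submatrix id σ0) fun i j => k2_DE_deg R 0 c1 i (σ0 j)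
  rw [Equiv.sum_comp σ0 fun j => R.a 1 (c1 j)] at b0
  have hu := Az_mul (k2d_deg (k2_DE_deg R 2 c3) c2 σ2) b0
  have hv := Az_mul (k2d_deg (k2_DE_deg R 3 c) c3 σ3) (k2d_deg (k2_DE_deg R 1 c2) c1 σ1)
  have h1 := L.assoc h hN c c1 c2 c3 σ0 σ1 σ2 σ3
  rw [L.h2, det_one, one_mul] at h1
  obtain ⟨d1, d2, g1, m1, g2, m2, n1, n2, e, ed⟩ :=
    k2_g x.1 hu hv (mul_ne_zero a2 a0) (mul_ne_zero a3 a1) h1
  have key := k2_hp_len (p := p) (N₁ := k2H x.1 g1) (N₂ := k2Q R x.1 c) (N₃ := k2H x.1 g2)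
    (k2C_fb (fb_cy x.2) _ _) (k2C_fb (fb_cy x.2) _ _) (k2C_fb (fb_cy x.2) _ _)
    (hx ▸ k2H_dim x m1 n1) (hx ▸ L.dim) (hx ▸ k2H_dim x m2 n2) fun y => by
    by_cases hy : pr x.1 ≤ pr y.1
    · obtain ⟨r', c', Λ', L'⟩ := k2_loc h R y
      obtain rfl : r' = r := by
        have := L.rank (k2_cod hN)
        have := L'.rank (k2_cod hN)
        omega
      have := k2O_dom hy
      have := k2O_dim hy hx.le
      have h2 := (L'.assoc h hN c c1 c2 c3 σ0 σ1 σ2 σ3).mul_left (algebraMap A (Lo y.1) g2)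
      rw [← map_mul, ← e, map_mul _ g1, ← mul_assoc] at h2
      have h3 := (h2.of_mul_right (Associated.refl _)
        fun k => mul_ne_zero a2 a0 (lo_inj' y.1 hu k)).map
        (Ideal.Quotient.mk ((pr x.1).map (algebraMap A (Lo y.1))))
      rw [map_mul, RingHom.map_det, RingHom.mapMatrix_apply] at h3
      have z1 : algebraMap A (k2O x.1 y.1) g1 ≠ 0 := fun k =>
        n1 (k2O_zero hy (n := d1) (by rwa [Az_nat]) k)
      have z2 : algebraMap A (k2O x.1 y.1) g2 ≠ 0 := fun k =>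
        n2 (k2O_zero hy (n := d2) (by rwa [Az_nat]) k)
      rw [k2H_len x.1 y.1 m1, k2H_len x.1 y.1 m2, L'.len x.1 c, k2L_det _ (by rwa [det_unique]),
        k2L_det _ (right_ne_zero_of_mul (h3.ne_zero_iff.2 z1)), k2L_det _ (by rwa [det_unique]),
        det_unique (n := Unit), det_unique (n := Unit), add_comm]
      exact (Ring.ord_eq_of_associated h3).symm.trans
        (Ring.ord_mul' _ (mem_nonZeroDivisors_of_ne_zero z2))
    · exact ((dv_length_zero y.1).2 (k2C_off hy _ _)).trans ((congrArg₂ (· + ·)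
        ((dv_length_zero y.1).2 (k2C_off hy _ _)) ((dv_length_zero y.1).2 (k2C_off hy _ _))).trans
        (add_zero 0)).symm
  rw [k2H_hp x (by omega) m1 n1, k2H_hp x (by omega) m2 n2] at key
  rw [eq_sub_of_add_eq key.symm, ← mul_sub, ← Int.cast_sub]
  congr 2
  linear_combination ed

theorem k2_dev (h : Hyp 𝒜) {s : ℕ} (h0 : ∀ N' : GM 𝒜, N'.Fb p → N'.DimLt p s → T p N N' = 0)
    (h1 : ∀ x : Vp 𝒜 p, dm x = s → T p N (cy 𝒜 (pr x.1)) = 0) (hF : N'.Fb p)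
    (hs : N'.DimLt p (s + 1)) : T p N N' = 0 :=
  (dev (T p N) s (fun _ _ _ k k' _ => T_ses h k (Or.inr k')) h0
    (fun x e a => by rw [T_sh h (Or.inr (fb_cy x.2)), h1 x e, zero_comp]) hF hs).trans
    (Finset.sum_eq_zero fun x hx => by simp only [h1 x (dv_cyc_dm hF hs hx), smul_zero])

theorem T_point (h : Hyp 𝒜) (hN : N.Cod p 1) (hF : N'.Fb p) (hs : N'.DimLt p 1) :
    T p N N' = 0 :=
  k2_dev h (fun _ k k' => T_disj h (Or.inr k) fun y => Or.inr (zeroAt_of_dimLt k k' y.1))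
    (k2_point h hN) hF hs

theorem T_curve (h : Hyp 𝒜) (hN : N.Cod p 2) (hF : N'.Fb p) (hs : N'.DimLt p 2) :
    T p N N' = 0 :=
  k2_dev h (fun _ => T_point h (k2_cod hN)) (k2_curve h hN) hF hs

end

end Pool.Agent.Lib.MP_62d77c_ag.R
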