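import Pool.Agent.Lib.MP_62d77c_ag.R.KDet

/-! Length of the cokernel of a square matrix over a one-dimensional domain. -/

set_option autoImplicit false
set_option linter.unusedSectionVars false

namespace Pool.Agent.Lib.MP_62d77c_ag.R

open Module Matrix

section len
variable {R : Type} [CommRing R] {n : Type} [Fintype n] [DecidableEq n]

/-- length of the cokernel -/
noncomputable def k2L {m : Type} (φ : Matrix m n R) : ℕ∞ :=
  Module.length R ((m → R) ⧸ LinearMap.range φ.mulVecLin)

theorem k2L_mul [IsDomain R] {φ : Matrix n n R} (h : φ.det ≠ 0) (ψ : Matrix n n R) :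
    k2L (φ * ψ) = k2L ψ + k2L φ := by
  have inj : ∀ v, φ *ᵥ v = 0 → v = 0 := fun v hv => by
    by_contra h0
    exact h (exists_mulVec_eq_zero_iff.1 ⟨v, h0, hv⟩)
  have le1 : LinearMap.range ψ.mulVecLin ≤
      (LinearMap.range (φ * ψ).mulVecLin).comap φ.mulVecLin := by
    rintro _ ⟨v, rfl⟩
    exact ⟨v, by simp⟩
  have le2 : LinearMap.range (φ * ψ).mulVecLin ≤ LinearMap.range φ.mulVecLin := by
    rintro _ ⟨v, rfl⟩
    exact ⟨ψ *ᵥ v, by simp⟩
  refine Module.length_eq_add_of_exact (Submodule.mapQ _ _ φ.mulVecLin le1)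
    (Submodule.factor le2) ?_ (Submodule.factor_surjective le2) ?_
  · rw [injective_iff_map_eq_zero]
    intro x hx
    obtain ⟨v, rfl⟩ := Submodule.Quotient.mk_surjective _ x
    rw [Submodule.mapQ_apply, Submodule.Quotient.mk_eq_zero] at hx
    obtain ⟨w, hw⟩ := hx
    rw [Submodule.Quotient.mk_eq_zero]
    refine ⟨w, (sub_eq_zero.1 (inj _ ?_))⟩
    rw [mulVec_sub, sub_eq_zero]
    simpa using hw
  · intro x
    obtain ⟨v, rfl⟩ := Submodule.Quotient.mk_surjective _ x
    constructor
    · intro hx
      obtain ⟨w, rfl⟩ := (Submodule.Quotient.mk_eq_zero _).1 hx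
      exact ⟨Submodule.Quotient.mk w, rfl⟩
    · rintro ⟨y, hy⟩
      obtain ⟨w, rfl⟩ := Submodule.Quotient.mk_surjective _ y
      rw [← hy]
      exact (Submodule.Quotient.mk_eq_zero _).2 ⟨w, rfl⟩

theorem k2_ord_prod [IsDomain R] (d : n → R) (h : ∀ i, d i ≠ 0) :
    Ring.ord R (∏ i, d i) = ∑ i, Ring.ord R (d i) := by
  induction (Finset.univ : Finset n) using Finset.induction_on with
  | empty => simp
  | insert a s ha ih =>
    rw [Finset.prod_insert ha, Finset.sum_insert ha,
      Ring.ord_mul' R (mem_nonZeroDivisors_of_ne_zero (h a)), ih]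

theorem k2L_diag (d : n → R) : k2L (diagonal d) = ∑ i, Ring.ord R (d i) := by
  have e : LinearMap.range (diagonal d).mulVecLin =
      Submodule.pi Set.univ fun i => (Ideal.span {d i} : Submodule R R) := by
    ext v
    simp only [LinearMap.mem_range, mulVecLin_apply, Submodule.mem_pi, Set.mem_univ,
      forall_true_left, Ideal.mem_span_singleton']
    constructor
    · rintro ⟨w, rfl⟩ i
      exact ⟨w i, by rw [mulVec_diagonal, mul_comm]⟩
    · intro h
      choose w hw using h
      exact ⟨w, funext fun i => by rw [mulVec_diagonal, mul_comm, hw]⟩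
  rw [k2L, e, (Submodule.quotientPi _).length_eq, Module.length_pi_of_fintype]
  rfl

theorem k2L_unit {φ : Matrix n n R} (h : IsUnit φ.det) : k2L φ = 0 := by
  have : LinearMap.range φ.mulVecLin = ⊤ := LinearMap.range_eq_top.2 fun v =>
    ⟨φ⁻¹ *ᵥ v, by rw [mulVecLin_apply, mulVec_mulVec, mul_nonsing_inv _ h, one_mulVec]⟩
  rw [k2L, this, Module.length_eq_zero]

theorem k2L_det [IsDomain R] [IsNoetherianRing R] [Ring.KrullDimLE 1 R] (φ : Matrix n n R)
    (h : φ.det ≠ 0) : k2L φ = Ring.ord R φ.det := by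
  let K := FractionRing R
  let f := algebraMap R K
  have hf : Function.Injective f := IsFractionRing.injective R K
  have fin : ∀ a : R, a ≠ 0 → Ring.ord R a ≠ ⊤ := fun a ha =>
    Ring.ord_ne_top (mem_nonZeroDivisors_of_ne_zero ha)
  have om : ∀ a b : R, a ≠ 0 → Ring.ord R (a * b) = Ring.ord R a + Ring.ord R b := fun a b ha =>
    Ring.ord_mul' R (mem_nonZeroDivisors_of_ne_zero ha)
  have dg : ∀ d : n → R, (diagonal d).det ≠ 0 → k2L (diagonal d) = Ring.ord R (diagonal d).det :=
    fun d hd => by
      rw [det_diagonal] at hd ⊢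
      rw [k2L_diag, k2_ord_prod d fun i => Finset.prod_ne_zero_iff.1 hd i (Finset.mem_univ i)]
  have mp : ∀ {X Y : Matrix n n R}, X.map f = Y.map f → X = Y := fun h =>
    Matrix.map_injective hf h
  have dsc : ∀ a : R, a ≠ 0 → (diagonal fun _ : n => a).det ≠ 0 := fun a ha => by
    rw [det_diagonal]
    exact Finset.prod_ne_zero_iff.2 fun _ _ => ha
  have msc : ∀ (a : R) (X : Matrix n n R), ((diagonal fun _ : n => a) * X).map f =
      f a • X.map f := fun a X => by
    ext i j
    simp [diagonal_mul]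
  have clr : ∀ M : Matrix n n K, M.det ≠ 0 →
      ∃ a : R, a ≠ 0 ∧ ∃ X : Matrix n n R, X.map f = f a • M ∧ X.det ≠ 0 := fun M hM => by
    obtain ⟨a, ha⟩ := IsLocalization.exist_integer_multiples_of_finite (nonZeroDivisors R)
      fun x : n × n => M x.1 x.2
    choose X hX using ha
    have a0 := nonZeroDivisors.coe_ne_zero a
    have e : (Matrix.of fun i j => X (i, j)).map f = f a • M := by
      ext i j
      exact (hX (i, j)).trans (Algebra.smul_def _ _)
    refine ⟨a, a0, _, e, fun h0 => ?_⟩
    have := f.map_det (Matrix.of fun i j => X (i, j))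
    rw [h0, map_zero, RingHom.mapMatrix_apply, e, det_smul] at this
    exact mul_ne_zero (pow_ne_zero _ ((map_ne_zero_iff f hf).2 a0)) hM this.symm
  have hφ : (φ.map f).det ≠ 0 := by
    rw [← RingHom.mapMatrix_apply, ← f.map_det]
    exact (map_ne_zero_iff f hf).2 h
  refine diagonal_transvection_induction_of_det_ne_zero
    (fun M => ∀ (a : R) (X : Matrix n n R), a ≠ 0 → X.det ≠ 0 → X.map f = f a • M →
      k2L X = Ring.ord R X.det) (φ.map f) hφ ?_ ?_ ?_ 1 φ one_ne_zero h (by simp)
  · intro D _ a X _ hX e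
    have : X = diagonal fun i => X i i := by
      ext i j
      by_cases hij : i = j
      · subst hij; simp
      · rw [diagonal_apply_ne _ hij]
        apply hf
        have := congrFun (congrFun e i) j
        simpa [diagonal_apply_ne _ hij] using this
    rw [this] at hX ⊢
    exact dg _ hX
  · rintro ⟨i, j, hij, c⟩ a X ha hX e
    let Δ : Matrix n n R := diagonal (Function.update (fun _ => 1) i a)
    have hΔ : Δ.det ≠ 0 := by
      rw [det_diagonal]
      refine Finset.prod_ne_zero_iff.2 fun k _ => ?_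
      by_cases hk : k = i
      · subst hk; simpa using ha
      · simp [hk]
    have e1 : Δ * X = (diagonal fun _ : n => a) * (transvection i j (X i j) * Δ) := by
      have e2 : ∀ k l, f (X k l) = f a * ((1 : Matrix n n K) k l + single i j c k l) :=
        fun k l => congrFun (congrFun e k) l
      apply mp
      ext k l
      simp only [Δ, diagonal_mul, mul_diagonal, map_apply, map_mul, transvection,
        Matrix.add_apply, map_add, e2 k l]
      by_cases h1 : i = k ∧ j = l
      · obtain ⟨rfl, rfl⟩ := h1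
        simp [e2 i j, hij, hij.symm]
      · by_cases h2 : k = l
        · subst h2
          simp [single_apply, h1, mul_comm]
        · simp [single_apply, h1, h2]
    have t1 : (transvection i j (X i j)).det = 1 := det_transvection_of_ne i j hij _
    have l1 := congrArg k2L e1
    have d1 := congrArg (fun Y => Ring.ord R Y.det) e1
    rw [k2L_mul hΔ, k2L_mul (dsc a ha), k2L_mul (t1 ▸ one_ne_zero),
      k2L_unit (φ := transvection i j (X i j)) (t1 ▸ isUnit_one),
      dg _ hΔ, dg _ (dsc a ha), add_zero, add_comm] at l1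
    simp only [det_mul, t1, one_mul] at d1
    rw [om _ _ hΔ, om _ _ (dsc a ha), add_comm _ (Ring.ord R Δ.det), ← l1] at d1
    exact (WithTop.add_left_cancel (fin _ hΔ) d1).symm
  · intro M M' hM hM' i1 i2 a X ha hX e
    obtain ⟨b, hb, Y, e1, hY⟩ := clr M hM
    obtain ⟨c, hc, Z, e2, hZ⟩ := clr M' hM'
    have e3 : (diagonal fun _ : n => a) * (Y * Z) = (diagonal fun _ : n => b * c) * X := by
      apply mp
      rw [msc, msc, Matrix.map_mul, e1, e2, e, map_mul]
      simp only [Matrix.smul_mul, Matrix.mul_smul, smul_smul]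
      congr 1
      ring
    have hbc := dsc _ (mul_ne_zero hb hc)
    have l1 := congrArg k2L e3
    have d1 := congrArg (fun Y => Ring.ord R Y.det) e3
    rw [k2L_mul (dsc a ha), k2L_mul hY, k2L_mul hbc, dg _ hbc, dg _ (dsc a ha), i1 b Y hb hY e1,
      i2 c Z hc hZ e2] at l1
    simp only [det_mul] at d1
    rw [om _ _ (dsc a ha), om _ _ hY, om _ _ hbc, add_comm, add_comm (Ring.ord R Y.det), l1,
      add_comm] at d1
    exact WithTop.add_left_cancel (fin _ hbc) d1

theorem k2L_red {β γ ρ ρ' : Type} [Fintype β] [DecidableEq β] [Fintype γ] [Fintype ρ]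
    [DecidableEq ρ] [Fintype ρ'] {d : Matrix β γ R} {Λ : Matrix ρ β R} {E' : Matrix β ρ R}
    {Θ : Matrix γ β R} (h1 : Λ * d = 0) (h2 : Λ * E' = 1) (h3 : 1 - E' * Λ = d * Θ)
    (E : Matrix β ρ' R) : k2L (fromCols d E) = k2L (Λ * E) := by
  have le1 : LinearMap.range (fromCols d E).mulVecLin ≤
      (LinearMap.range (Λ * E).mulVecLin).comap Λ.mulVecLin := by
    rintro _ ⟨v, rfl⟩
    refine ⟨v ∘ Sum.inr, ?_⟩
    rw [← Sum.elim_comp_inl_inr v]
    simp only [mulVecLin_apply, fromCols_mulVec_sumElim, mulVec_add, mulVec_mulVec, h1,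
      zero_mulVec, zero_add]
    rfl
  refine (LinearEquiv.ofBijective (Submodule.mapQ _ _ Λ.mulVecLin le1) ⟨?_, ?_⟩).length_eq
  · rw [injective_iff_map_eq_zero]
    intro x hx
    obtain ⟨v, rfl⟩ := Submodule.Quotient.mk_surjective _ x
    rw [Submodule.mapQ_apply, Submodule.Quotient.mk_eq_zero] at hx
    obtain ⟨w, hw⟩ := hx
    rw [Submodule.Quotient.mk_eq_zero]
    refine ⟨Sum.elim (Θ *ᵥ (v - E *ᵥ w)) w, ?_⟩
    simp only [mulVecLin_apply] at hw ⊢
    rw [fromCols_mulVec_sumElim, mulVec_mulVec, ← h3, sub_mulVec, one_mulVec, ← mulVec_mulVec,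
      mulVec_sub, mulVec_mulVec, hw, sub_self, mulVec_zero, sub_zero, sub_add_cancel]
  · intro x
    obtain ⟨v, rfl⟩ := Submodule.Quotient.mk_surjective _ x
    refine ⟨Submodule.Quotient.mk (E' *ᵥ v), ?_⟩
    rw [Submodule.mapQ_apply, mulVecLin_apply, mulVec_mulVec, h2, one_mulVec]

end len

open scoped TensorProduct in
/-- length of the base change of a module presented by a matrix over a quotient ring -/
theorem k2_len_tensor {A L : Type} [CommRing A] [CommRing L] [Algebra A L] (I : Ideal A)
    {β γ : Type} [Fintype β] [DecidableEq β] [Fintype γ] [DecidableEq γ] (M : Matrix β γ A)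
    {W : Type} [AddCommGroup W] [Module A W] (π : (β → A) →ₗ[A] W) (hπ : Function.Surjective π)
    (hk : ∀ v, π v = 0 ↔ ∃ u, ∀ i, (v - M *ᵥ u) i ∈ I) :
    Module.length L (L ⊗[A] W) = k2L (M.map (algebraMap A (L ⧸ I.map (algebraMap A L)))) := by
  set O := L ⧸ I.map (algebraMap A L)
  set M' := M.map (algebraMap A O)
  let Z : Submodule O (β → O) := LinearMap.range M'.mulVecLin
  rw [k2L, ← Module.length_eq_of_surjective (S := L) (R := O) Ideal.Quotient.mk_surjective]
  let Φ : (β → L) →ₗ[L] L ⊗[A] W :=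
    Fintype.linearCombination L fun i => (1 : L) ⊗ₜ[A] π (Pi.single i 1)
  let Φ' : (β → L) →ₗ[L] (β → O) ⧸ Z :=
    (Z.mkQ.restrictScalars L).comp ((Algebra.linearMap L O).compLeft β)
  have hΦ : ∀ v : β → A, Φ (fun i => algebraMap A L (v i)) = (1 : L) ⊗ₜ[A] π v := fun v => by
    simp only [Φ, Fintype.linearCombination_apply, algebraMap_smul, ← TensorProduct.tmul_smul,
      ← TensorProduct.tmul_sum, ← map_smul, ← map_sum]
    congr 2
    funext i
    simp [Pi.single_apply]
  have s1 : Function.Surjective Φ := fun ξ => by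
    induction ξ using TensorProduct.induction_on with
    | zero => exact ⟨0, map_zero _⟩
    | add a b ha hb =>
      obtain ⟨u, rfl⟩ := ha
      obtain ⟨v, rfl⟩ := hb
      exact ⟨u + v, map_add _ _ _⟩
    | tmul r w =>
      obtain ⟨v, rfl⟩ := hπ w
      exact ⟨r • fun i => algebraMap A L (v i), by
        rw [map_smul, hΦ, TensorProduct.smul_tmul', smul_eq_mul, mul_one]⟩
  have s2 : Function.Surjective Φ' := fun ξ => by
    obtain ⟨v, rfl⟩ := Z.mkQ_surjective ξ
    choose u hu using fun i => Ideal.Quotient.mk_surjective (v i)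
    exact ⟨u, congrArg Z.mkQ (funext hu)⟩
  let χ : (β → A) →ₗ[A] (β → O) ⧸ Z :=
    (Z.mkQ.restrictScalars A).comp ((Algebra.linearMap A O).compLeft β)
  have hχ : LinearMap.ker π ≤ LinearMap.ker χ := fun v hv => by
    obtain ⟨u, hu⟩ := (hk v).1 hv
    refine (Submodule.Quotient.mk_eq_zero _).2 ⟨fun j => algebraMap A O (u j), funext fun i => ?_⟩
    have : algebraMap A O ((v - M *ᵥ u) i) = 0 :=
      Ideal.Quotient.eq_zero_iff_mem.2 (Ideal.mem_map_of_mem _ (hu i))
    rw [Pi.sub_apply, map_sub, sub_eq_zero, RingHom.map_mulVec] at this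
    exact this.symm
  let χ' : W →ₗ[A] (β → O) ⧸ Z :=
    ((LinearMap.ker π).liftQ χ hχ).comp (π.quotKerEquivOfSurjective hπ).symm.toLinearMap
  have hχ' : ∀ v, χ' (π v) = χ v := fun v => by simp [χ']
  have e1 : (χ'.liftBaseChange L).comp Φ = Φ' := by
    refine (Pi.basisFun L β).ext fun i => ?_
    simp only [LinearMap.comp_apply, Φ, Pi.basisFun_apply, Fintype.linearCombination_apply_single,
      one_smul, LinearMap.liftBaseChange_tmul, hχ']
    refine congrArg Z.mkQ (funext fun j => ?_)
    by_cases h : j = i <;> simp [Pi.single_apply, h]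
  have hker : LinearMap.ker Φ = LinearMap.ker Φ' := by
    refine le_antisymm (fun v hv => ?_) fun v hv => ?_
    · rw [LinearMap.mem_ker] at hv ⊢
      rw [← e1, LinearMap.comp_apply, hv, map_zero]
    · obtain ⟨u', hu'⟩ := (Submodule.Quotient.mk_eq_zero _).1 hv
      choose u hu using fun j => Ideal.Quotient.mk_surjective (u' j)
      have h1 : Φ (M.map (algebraMap A L) *ᵥ u) = 0 := by
        rw [mulVec_eq_sum, map_sum]
        refine Finset.sum_eq_zero fun j _ => ?_
        rw [op_smul_eq_smul, map_smul]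
        have := hΦ fun i => M i j
        rw [(hk _).2 ⟨Pi.single j 1, fun i => by simp⟩, TensorProduct.tmul_zero] at this
        exact (congrArg _ this).trans (smul_zero _)
      have h2 : Φ (v - M.map (algebraMap A L) *ᵥ u) = 0 := by
        refine Finset.sum_eq_zero fun i _ => ?_
        have h3 : (v - M.map (algebraMap A L) *ᵥ u) i ∈ I.map (algebraMap A L) := by
          rw [← Ideal.Quotient.eq_zero_iff_mem, Pi.sub_apply, map_sub, sub_eq_zero,
            RingHom.map_mulVec]
          rw [show (Ideal.Quotient.mk _ ∘ u) = u' from funext hu]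
          exact (congrFun hu' i).symm
        generalize (v - M.map (algebraMap A L) *ᵥ u) i = r at h3
        induction h3 using Submodule.span_induction with
        | mem _ h =>
          obtain ⟨a, ha, rfl⟩ := h
          rw [algebraMap_smul, ← TensorProduct.tmul_smul, ← map_smul,
            (hk _).2 ⟨0, fun k => by simpa using I.mul_mem_right _ ha⟩, TensorProduct.tmul_zero]
        | zero => exact zero_smul _ _
        | add a b _ _ ha hb => rw [add_smul, ha, hb, add_zero]
        | smul c a _ ha => rw [smul_eq_mul, mul_smul, ha, smul_zero]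
      rwa [map_sub, h1, sub_zero] at h2
  exact ((Φ.quotKerEquivOfSurjective s1).symm.trans ((Submodule.quotEquivOfEq _ _ hker).trans
    (Φ'.quotKerEquivOfSurjective s2))).length_eq

/-- over a local ring a split syzygy has a basis among the given generators -/
theorem k2_basis {S : Type} [CommRing S] [IsLocalRing S] [IsNoetherianRing S] {ι β γ : Type}
    [Fintype ι] [Fintype β] [DecidableEq β] [Fintype γ] (d : Matrix ι β S) (d' : Matrix β γ S)
    (z : d * d' = 0) (e : ∀ v, d *ᵥ v = 0 → ∃ w, d' *ᵥ w = v) (τ : Matrix γ β S)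
    (hτ : d' * τ * d' = d') : ∃ (r : ℕ) (c : Fin r → β) (Λ : Matrix (Fin r) β S)
      (Θ : Matrix γ β S), d * kdE S c * Λ = d ∧ Λ * d' = 0 ∧ Λ * kdE S c = 1 ∧
        1 - kdE S c * Λ = d' * Θ ∧ ∀ v, (d * kdE S c) *ᵥ v = 0 → v = 0 := by
  classical
  let π := d.mulVecLin.rangeRestrict
  have hπ : Function.Surjective π := d.mulVecLin.surjective_rangeRestrict
  have hq : LinearMap.ker π ≤ LinearMap.ker (1 - d' * τ).mulVecLin := fun v hv => by
    obtain ⟨w, rfl⟩ := e v (congrArg Subtype.val hv)
    rw [LinearMap.mem_ker, mulVecLin_apply, mulVec_mulVec, Matrix.sub_mul, Matrix.one_mul, hτ,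
      sub_self, zero_mulVec]
  let s := ((LinearMap.ker π).liftQ _ hq).comp (π.quotKerEquivOfSurjective hπ).symm.toLinearMap
  have : Module.Projective S (LinearMap.range d.mulVecLin) := .of_split s π (by
    ext1 x
    obtain ⟨v, rfl⟩ := hπ x
    have : s (π v) = (1 - d' * τ) *ᵥ v := by simp [s, sub_mulVec]
    rw [LinearMap.comp_apply, this]
    apply Subtype.ext
    show d *ᵥ _ = d *ᵥ v
    rw [mulVec_mulVec, Matrix.mul_sub, Matrix.mul_one, ← Matrix.mul_assoc, z, Matrix.zero_mul,
      sub_zero])
  have : Module.FinitePresentation S (LinearMap.range d.mulVecLin) :=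
    Module.finitePresentation_of_finite _ _
  obtain ⟨κ, a, b, hb⟩ := Module.exists_basis_of_span_of_flat (R := S)
    (fun j : β => π (Pi.single j 1)) (by
      rw [eq_top_iff, ← LinearMap.range_eq_top.2 hπ]
      rintro _ ⟨v, rfl⟩
      rw [pi_eq_sum_univ' v, map_sum]
      exact Submodule.sum_mem _ fun j _ => by
        rw [map_smul]
        exact Submodule.smul_mem _ _ (Submodule.subset_span ⟨j, rfl⟩))
  have : Finite κ := Module.Finite.finite_basis b
  have := Fintype.ofFinite κ
  let b' := b.reindex (Fintype.equivFin κ)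
  let c : Fin (Fintype.card κ) → β := a ∘ (Fintype.equivFin κ).symm
  have hb' : ∀ i, b' i = π (Pi.single (c i) 1) := fun i => by simp [b', c, hb]
  let Λ : Matrix (Fin (Fintype.card κ)) β S := Matrix.of fun i j => b'.repr (π (Pi.single j 1)) i
  have hv : ∀ v, (d * kdE S c) *ᵥ v = (∑ i, v i • b' i : LinearMap.range d.mulVecLin).1 := by
    intro v
    funext k
    simp [hb', π, mulVec, dotProduct, kdE, Matrix.mul_apply, Matrix.one_apply, mul_comm,
      Pi.single_apply]
  have inj : ∀ v, (d * kdE S c) *ᵥ v = 0 → v = 0 := fun v h => by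
    rw [hv] at h
    exact funext (Fintype.linearIndependent_iff.1 b'.linearIndependent v (Subtype.ext h))
  have h1 : d * kdE S c * Λ = d := by
    ext k j
    have := congrFun (hv fun i => Λ i j) k
    rw [show (∑ i, Λ i j • b' i) = π (Pi.single j 1) from b'.sum_repr _] at this
    exact this.trans (by simp [π])
  have can : ∀ {ρ : Type} (X : Matrix (Fin (Fintype.card κ)) ρ S), d * kdE S c * X = 0 → X = 0 :=
    fun X h => by
      ext i j
      exact congrFun (inj (fun i => X i j) (funext fun k => congrFun (congrFun h k) j)) i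
  have h4 : d * (1 - kdE S c * Λ) = 0 := by
    rw [Matrix.mul_sub, Matrix.mul_one, ← Matrix.mul_assoc, h1, sub_self]
  choose Θ hΘ using fun j => e (fun i => (1 - kdE S c * Λ : Matrix β β S) i j)
    (funext fun k => congrFun (congrFun h4 k) j)
  refine ⟨_, c, Λ, Matrix.of fun i j => Θ j i, h1, can _ ?_, sub_eq_zero.1 (can _ ?_), ?_, inj⟩
  · rw [← Matrix.mul_assoc, h1, z]
  · rw [Matrix.mul_sub, Matrix.mul_one, ← Matrix.mul_assoc, h1, sub_self]
  · ext i j
    exact (congrFun (hΘ j) i).symm

end Pool.Agent.Lib.MP_62d77c_ag.R
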