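import Pool.Agent.Lib.MP_62d77c_ag.R.Dm
import Pool.Agent.Lib.MP_62d77c_ag.R.St
import Pool.Agent.Lib.MP_62d77c_ag.R.GmB
import Pool.Agent.Lib.MP_62d77c_ag.R.K2a

/-! Hilbert polynomials of cokernels of homogeneous matrices. -/

set_option autoImplicit false
set_option linter.unusedSectionVars false

namespace Pool.Agent.Lib.MP_62d77c_ag.R

open Filter Polynomial Submodule
open scoped TensorProduct Matrix

noncomputable section

variable {A : Type} [CommRing A] [IsDomain A] {𝒜 : ℕ → AddSubgroup A} [GradedRing 𝒜]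
  [hG : Fact (Gen 𝒜)] {p : ℕ} [Fact p.Prime] {N N' G : GM 𝒜}

theorem k2_fb_pw (h : G.Fb p) {β : Type} [Fintype β] (a : β → ℤ) : (G.pw a).Fb p :=
  fun m => funext fun i => h (m i)

theorem k2_hp_quot (h : N.Fb p) (Z : Submodule A N.M) :
    (N.quot Z).hp p = N.hp p - (N.sub Z).hp p := by
  rw [hp_ses (ses_sub_quot N Z) h, add_sub_cancel_left]

theorem k2_hp_sq (h : N.Fb p) {B Z : Submodule A N.M} (hB : N.Hg B) (hle : B ≤ Z) :
    (N.sq Z B).hp p = (N.sub Z).hp p - (N.sub B).hp p := by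
  have le : N.core B ≤ N.core Z := fun m hm n => hle (hm n)
  have s : SES (N.sub B) (N.sub Z) (N.sq Z B) := by
    refine ⟨Submodule.inclusion le, Submodule.mkQ _, fun n m hm => by rw [add_zero]; exact hm,
      fun n m hm => by rw [add_zero]; exact ⟨m, hm, rfl⟩, Submodule.inclusion_injective le,
      fun m => ?_, Submodule.mkQ_surjective _⟩
    refine (Submodule.Quotient.mk_eq_zero _).trans ⟨fun hm => ⟨⟨m.1, hm⟩, rfl⟩, ?_⟩
    rintro ⟨w, rfl⟩
    exact w.2
  rw [hp_ses s ((ses_sub_quot N Z).fb h).1, add_sub_cancel_left]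

theorem k2_hp_range (h : N.Fb p) {f : N.M →ₗ[A] N'.M} (hf : IsHom N N' 0 f) :
    N.hp p = (N.sub (LinearMap.ker f)).hp p + (N'.sub (LinearMap.range f)).hp p := by
  have e1 := N.core_eq hf.hg_ker
  have e2 := N'.core_eq hf.hg_range
  refine hp_ses ⟨(N.core _).subtype, f.codRestrict (N'.core _) fun m => e2.symm ▸ ⟨m, rfl⟩,
    fun n m hm => by rw [add_zero]; exact hm, fun n m hm => hf n m hm, Subtype.val_injective,
    fun m => ⟨fun hm => ⟨⟨m, e1.symm ▸ congrArg Subtype.val hm⟩, rfl⟩, ?_⟩, fun m => ?_⟩ h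
  · rintro ⟨w, rfl⟩
    exact Subtype.ext (N.core_le _ w.2)
  · obtain ⟨w, hw⟩ := N'.core_le _ m.2
    exact ⟨w, Subtype.ext hw⟩

/-- the cokernel of a matrix with coefficients in `G` -/
def k2C (G : GM 𝒜) {β γ : Type} [Fintype β] [Fintype γ] (a : β → ℤ) (M : Matrix β γ A) : GM 𝒜 :=
  (G.pw a).quot (LinearMap.range (mact G.M M))

omit [IsDomain A] hG in
theorem k2_mact_mul {R : Type} [CommRing R] {M : Type} [AddCommGroup M] [Module R M]
    {β γ δ : Type} [Fintype γ] [Fintype δ] (D : Matrix β γ R) (D' : Matrix γ δ R) (v : δ → M) :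
    mact M D (mact M D' v) = mact M (D * D') v := by
  funext i
  simp only [mact_apply, Matrix.mul_apply, Finset.smul_sum, Finset.sum_smul, mul_smul]
  exact Finset.sum_comm

theorem k2_hom (R : Res N) (G : GM 𝒜) (q : ℕ) :
    IsHom (G.pw (R.a (q + 1))) (G.pw (R.a q)) 0 (mact G.M (R.D q)) :=
  isHom_mact G fun i j => by rw [add_zero]; exact R.hD q i j

theorem k2_alt (T P Z B : ℕ → ℚ[X]) {c : ℚ[X]} (t0 : T 0 = P 0 - B 0)
    (t : ∀ q, T (q + 1) = Z q - B (q + 1)) (r : ∀ q, P (q + 1) = Z q + B q) (e : c = P 4 - B 4) :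
    ∑ q ∈ Finset.range 5, (-1) ^ q * T q = P 0 - P 1 + P 2 - P 3 + c := by
  simp only [Finset.sum_range_succ, Finset.range_zero, Finset.sum_empty]
  linear_combination t0 - t 0 + t 1 - t 2 + t 3 - e + r 0 - r 1 + r 2 - r 3

theorem k2_TT (R : Res N) (h : G.Fb p) : R.TT G p =
    (G.pw (R.a 0)).hp p - (G.pw (R.a 1)).hp p + (G.pw (R.a 2)).hp p - (G.pw (R.a 3)).hp p +
      (k2C G (R.a 4) (R.D 4)).hp p := by
  have le : ∀ q, LinearMap.range (mact G.M (R.D (q + 1))) ≤ LinearMap.ker (mact G.M (R.D q)) := by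
    rintro q _ ⟨v, rfl⟩
    rw [LinearMap.mem_ker, k2_mact_mul, st_DD]
    funext i
    simp [mact_apply]
  have t0 : (R.Tor G 0).hp p = (G.pw (R.a 0)).hp p - _ := k2_hp_quot (k2_fb_pw h (R.a 0)) _
  have t : ∀ q, (R.Tor G (q + 1)).hp p = _ := fun q =>
    k2_hp_sq (k2_fb_pw h (R.a (q + 1))) (k2_hom R G (q + 1)).hg_range (le q)
  have r := fun q => k2_hp_range (k2_fb_pw h (R.a (q + 1))) (k2_hom R G q)
  have e : (k2C G (R.a 4) (R.D 4)).hp p = _ := k2_hp_quot (k2_fb_pw h (R.a 4)) _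
  have := k2_alt (fun q => (R.Tor G q).hp p) (fun q => (G.pw (R.a q)).hp p)
    (fun q => ((G.pw (R.a (q + 1))).sub (LinearMap.ker (mact G.M (R.D q)))).hp p)
    (fun q => ((G.pw (R.a q)).sub (LinearMap.range (mact G.M (R.D q)))).hp p) t0 t r e
  beta_reduce at this
  unfold Res.TT
  exact this

theorem k2_inj {f : N.M →ₗ[A] N'.M} {d : ℤ} (hf : IsHom N N' d f)
    (h : ∀ n, ∀ m ∈ N.g n, f m = 0 → m = 0) : Function.Injective f := by
  rw [injective_iff_map_eq_zero]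
  intro m hm
  obtain ⟨s, hs⟩ := N.sum_pj m
  rw [← hs]
  exact Finset.sum_eq_zero fun n _ => h n _ (N.pj_mem n m) (hf.hg_ker n m hm)

variable {β γ ρ : Type} [Fintype β] [Fintype γ] [Fintype ρ] {a : β → ℤ} {a' : ρ → ℤ} {a'' : γ → ℤ}

omit [IsDomain A] hG in
theorem k2_mact_cols {M : Type} [AddCommGroup M] [Module A M] (D : Matrix β γ A)
    (E : Matrix β ρ A) (v : γ ⊕ ρ → M) :
    mact M (Matrix.fromCols D E) v = mact M D (v ∘ Sum.inl) + mact M E (v ∘ Sum.inr) := by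
  funext i
  simp [mact_apply]

theorem k2_cols_deg {D : Matrix β γ A} {E : Matrix β ρ A} (hD : ∀ i j, D i j ∈ Az 𝒜 (a'' j - a i))
    (hE : ∀ i j, E i j ∈ Az 𝒜 (a' j - a i)) (i : β) (j : γ ⊕ ρ) :
    Matrix.fromCols D E i j ∈ Az 𝒜 (Sum.elim a'' a' j - a i) := by
  rcases j with j | j
  · exact hD i j
  · exact hE i j

theorem k2_hp_cols (h : G.Fb p) {D : Matrix β γ A} {E : Matrix β ρ A}
    (hD : ∀ i j, D i j ∈ Az 𝒜 (a'' j - a i)) (hE : ∀ i j, E i j ∈ Az 𝒜 (a' j - a i))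
    (inj : ∀ n, ∀ u ∈ (G.pw a').g n, ∀ w, mact G.M D w = mact G.M E u → u = 0) :
    (k2C G a D).hp p = (G.pw a').hp p + (k2C G a (Matrix.fromCols D E)).hp p := by
  have h1 : IsHom (G.pw a'') (G.pw a) 0 (mact G.M D) :=
    isHom_mact G fun i j => by rw [add_zero]; exact hD i j
  have h2 : IsHom (G.pw a') (G.pw a) 0 (mact G.M E) :=
    isHom_mact G fun i j => by rw [add_zero]; exact hE i j
  have h3 : IsHom (G.pw (Sum.elim a'' a')) (G.pw a) 0 (mact G.M (Matrix.fromCols D E)) :=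
    isHom_mact G fun i j => by rw [add_zero]; exact k2_cols_deg hD hE i j
  have e1 := (G.pw a).core_eq h1.hg_range
  have e3 := (G.pw a).core_eq h3.hg_range
  have le : (G.pw a).core (LinearMap.range (mact G.M D)) ≤
      (G.pw a).core (LinearMap.range (mact G.M (Matrix.fromCols D E))) := by
    refine e1.le.trans (le_trans ?_ e3.ge)
    rintro _ ⟨w, rfl⟩
    exact ⟨Sum.elim w 0, (k2_mact_cols D E _).trans
      ((congrArg _ (map_zero (mact G.M E))).trans (add_zero _))⟩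
  have hf : IsHom (G.pw a') (k2C G a D) 0 ((Submodule.mkQ _).comp (mact G.M E)) :=
    fun n m hm => ⟨_, h2 n m hm, rfl⟩
  refine hp_ses ⟨_, Submodule.factor le, hf, ?_, k2_inj hf fun n u hu h0 => ?_, fun m => ?_,
    Submodule.factor_surjective le⟩ ((ses_sub_quot _ _).fb (k2_fb_pw h a)).2
  · rintro n _ ⟨m, hm, rfl⟩
    rw [add_zero]
    exact ⟨m, hm, rfl⟩
  · obtain ⟨w, hw⟩ := (G.pw a).core_le _ ((Submodule.Quotient.mk_eq_zero _).1 h0)
    exact inj n u hu w hw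
  · obtain ⟨m, rfl⟩ := Submodule.Quotient.mk_surjective _ m
    constructor
    · intro hm
      obtain ⟨w, rfl⟩ := (G.pw a).core_le _ ((Submodule.Quotient.mk_eq_zero _).1 hm)
      refine ⟨w ∘ Sum.inr, (Submodule.Quotient.eq _).2 (e1.ge ⟨-(w ∘ Sum.inl), ?_⟩)⟩
      exact (map_neg (mact G.M D) _).trans ((sub_add_cancel_right _ _).symm.trans
        (congrArg (mact G.M E (w ∘ Sum.inr) - ·) (k2_mact_cols D E w).symm))
    · rintro ⟨u, hu⟩
      rw [← hu]
      refine (Submodule.Quotient.mk_eq_zero _).2 (e3.ge ⟨Sum.elim 0 u, ?_⟩)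
      exact (k2_mact_cols D E _).trans
        ((congrArg (· + mact G.M E u) (map_zero (mact G.M D))).trans (zero_add _))

theorem k2_hp_inj (h : G.Fb p) {E : Matrix β ρ A} (hE : ∀ i j, E i j ∈ Az 𝒜 (a' j - a i))
    (inj : ∀ u, mact G.M E u = 0 → u = 0) :
    (k2C G a E).hp p = (G.pw a).hp p - (G.pw a').hp p := by
  have h2 : IsHom (G.pw a') (G.pw a) 0 (mact G.M E) :=
    isHom_mact G fun i j => by rw [add_zero]; exact hE i j
  have h0 : ((G.pw a').sub (LinearMap.ker (mact G.M E))).hp p = 0 :=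
    hp_zero (Eventually.of_forall fun n => eq_bot_iff.2 fun m _ =>
      Subtype.ext (inj _ ((G.pw a').core_le _ m.2)))
  have h1 := (k2_hp_range (k2_fb_pw h a') h2).trans ((congrArg (· + _) h0).trans (zero_add _))
  exact (k2_hp_quot (k2_fb_pw h a) _).trans (congrArg _ h1.symm)

theorem k2_zeroAt (a : β → ℤ) (M : Matrix β γ A) {y : Pt 𝒜} (h : G.ZeroAt y) :
    (k2C G a M).ZeroAt y := by
  refine (((ses_sub_quot (G.pw a) _).zeroAt y).1 fun m => ?_).2
  choose k t h1 h2 h3 using fun i => h (m i)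
  refine ⟨∑ i, k i, ∏ i, t i, SetLike.prod_mem_graded 𝒜 k t fun i _ => h1 i,
    (pr y).primeCompl.prod_mem fun i _ => h2 i, funext fun i => ?_⟩
  classical
  show (∏ i, t i) • m i = 0
  rw [← Finset.prod_erase_mul _ _ (Finset.mem_univ i), mul_smul, h3, smul_zero]

theorem k2_core (x : Pt 𝒜) : (one 𝒜).core (pr x) = pr x := (one 𝒜).core_eq (hg_one (pr_hom x))

/-- the class of `v` in `A / 𝔭` -/
def k2mk (x : Pt 𝒜) : A →ₗ[A] (cy 𝒜 (pr x)).M := Submodule.mkQ _

theorem k2mk_zero {x : Pt 𝒜} {v : A} : k2mk x v = 0 ↔ v ∈ pr x :=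
  (Submodule.Quotient.mk_eq_zero _).trans (by rw [k2_core]; rfl)

theorem k2mk_surj (x : Pt 𝒜) : Function.Surjective (k2mk x) := Submodule.mkQ_surjective _

theorem k2mk_mact (x : Pt 𝒜) (M : Matrix β γ A) (u : γ → A) :
    mact _ M (fun j => k2mk x (u j)) = fun i => k2mk x ((M *ᵥ u) i) := by
  funext i
  simp only [mact_apply, Matrix.mulVec, dotProduct, map_sum, ← map_smul, smul_eq_mul]

/-- the local ring at `y` of the closure of `x` -/
abbrev k2O (x y : Pt 𝒜) : Type := Lo y ⧸ (pr x).map (algebraMap A (Lo y))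

theorem k2_len [DecidableEq β] [DecidableEq γ] (x y : Pt 𝒜) {M : Matrix β γ A}
    (hM : ∀ i j, M i j ∈ Az 𝒜 (a'' j - a i)) :
    Module.length (Lo y) ((k2C (cy 𝒜 (pr x)) a M).St y) = k2L (M.map (algebraMap A (k2O x y))) := by
  have h1 : IsHom ((cy 𝒜 (pr x)).pw a'') ((cy 𝒜 (pr x)).pw a) 0 (mact _ M) :=
    isHom_mact _ fun i j => by rw [add_zero]; exact hM i j
  have e1 := ((cy 𝒜 (pr x)).pw a).core_eq h1.hg_range
  refine k2_len_tensor (pr x) M (W := (k2C (cy 𝒜 (pr x)) a M).M)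
    ((Submodule.mkQ _).comp ((k2mk x).compLeft β)) (fun w => ?_) fun v => ?_
  · obtain ⟨w, rfl⟩ := Submodule.Quotient.mk_surjective _ w
    choose u hu using fun i => k2mk_surj x (w i)
    exact ⟨u, congrArg _ (funext hu)⟩
  · refine ((Submodule.Quotient.mk_eq_zero _).trans (SetLike.ext_iff.1 e1 _)).trans ?_
    constructor
    · rintro ⟨w, hw⟩
      choose u hu using fun j => k2mk_surj x (w j)
      refine ⟨u, fun i => k2mk_zero.1 ?_⟩
      obtain rfl : (fun j => k2mk x (u j)) = w := funext hu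
      rw [Pi.sub_apply, map_sub, sub_eq_zero]
      exact (congrFun ((k2mk_mact x M u).symm.trans hw) i).symm
    · rintro ⟨u, hu⟩
      refine ⟨fun j => k2mk x (u j), (k2mk_mact x M u).trans (funext fun i => ?_)⟩
      have := k2mk_zero.2 (hu i)
      rw [Pi.sub_apply, map_sub, sub_eq_zero] at this
      exact this.symm

omit [IsDomain A] hG in
theorem k2_det_deg [DecidableEq β] {a a' : β → ℤ} {M : Matrix β β A}
    (hM : ∀ i j, M i j ∈ Az 𝒜 (a' j - a i)) : M.det ∈ Az 𝒜 (∑ j, a' j - ∑ i, a i) := by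
  have pr : ∀ (s : Finset β) (k : β → ℤ) (t : β → A), (∀ i, t i ∈ Az 𝒜 (k i)) →
      ∏ i ∈ s, t i ∈ Az 𝒜 (∑ i ∈ s, k i) := fun s k t h => by
    induction s using Finset.induction_on with
    | empty => exact (Az_nat (𝒜 := 𝒜) 0).symm ▸ SetLike.one_mem_graded 𝒜
    | insert i s hi ih =>
      rw [Finset.prod_insert hi, Finset.sum_insert hi]
      exact Az_mul (h i) ih
  rw [Matrix.det_apply]
  refine sum_mem fun σ _ => ?_
  rw [Units.smul_def]
  refine zsmul_mem ?_ _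
  rw [← Equiv.sum_comp σ a, ← Finset.sum_sub_distrib]
  exact pr _ _ _ fun i => hM (σ i) i

end

end Pool.Agent.Lib.MP_62d77c_ag.R
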