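import Pool.Agent.Lib.MP_62d77c_ag.R.K2b

/-! Codimension of supports, determinants of a resolution. -/

set_option autoImplicit false
set_option linter.unusedSectionVars false

namespace Pool.Agent.Lib.MP_62d77c_ag.R

open Filter Polynomial Submodule Matrix
open scoped TensorProduct

noncomputable section

section alg
variable {S S' : Type} [CommRing S] [CommRing S'] {ι ι' ρ ρ' : Type}

theorem k2_kdE_map [DecidableEq ι] (f : S →+* S') (c : ρ → ι) : (kdE S c).map f = kdE S' c := by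
  ext i j
  simp [kdE, one_apply, apply_ite f]

theorem k2_mulE [Fintype ι] [DecidableEq ι] (d : Matrix ι' ι S) (c : ρ → ι) (i : ι') (j : ρ) :
    (d * kdE S c) i j = d i (c j) := by
  simp [kdE, Matrix.mul_apply, Matrix.one_apply]

/-- the determinant of `X` completed by standard vectors -/
def k2d [Fintype ι] [DecidableEq ι] (X : Matrix ι ρ S) (c : ρ' → ι) (σ : ι ≃ ρ ⊕ ρ') : S :=
  ((fromCols X (kdE S c)).submatrix id σ).det

theorem k2d_map [Fintype ι] [DecidableEq ι] (f : S →+* S') (X : Matrix ι ρ S) (c : ρ' → ι)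
    (σ : ι ≃ ρ ⊕ ρ') : f (k2d X c σ) = k2d (X.map f) c σ := by
  rw [k2d, k2d, RingHom.map_det, ← k2_kdE_map f]
  congr 1
  ext i j
  rcases e : σ j with k | k <;> simp [e]

theorem k2_exK [IsDomain S] {a b c : Type} [Fintype b] [Fintype c] (d : Matrix a b S)
    (d' : Matrix b c S) (h : ∀ v, d *ᵥ v = 0 → ∃ s : S, s ≠ 0 ∧ ∃ w, d' *ᵥ w = s • v)
    (v : b → FractionRing S) (hv : d.map (algebraMap S (FractionRing S)) *ᵥ v = 0) :
    ∃ w, d'.map (algebraMap S (FractionRing S)) *ᵥ w = v := by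
  set f := algebraMap S (FractionRing S)
  have hf : Function.Injective f := IsFractionRing.injective S _
  have key : ∀ {x y : Type} [Fintype y] (m : Matrix x y S) (u : y → S),
      m.map f *ᵥ (fun i => f (u i)) = fun i => f ((m *ᵥ u) i) := fun m u =>
    funext fun i => (RingHom.map_mulVec f m u i).symm
  obtain ⟨t, ht⟩ := IsLocalization.exist_integer_multiples_of_finite (nonZeroDivisors S) v
  choose v0 hv0 using ht
  have e1 : (fun i => f (v0 i)) = f t • v := funext fun i => by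
    rw [hv0 i, Algebra.smul_def]
    rfl
  obtain ⟨s, hs, w, hw⟩ := h v0 (funext fun i => hf (by
    have := congrFun (key d v0) i
    rw [e1, mulVec_smul, hv, smul_zero] at this
    exact this.symm.trans (map_zero f).symm))
  have h1 : f s * f t ≠ 0 := mul_ne_zero ((map_ne_zero_iff f hf).2 hs)
    ((map_ne_zero_iff f hf).2 (nonZeroDivisors.ne_zero t.2))
  refine ⟨(f s * f t)⁻¹ • fun i => f (w i), ?_⟩
  rw [mulVec_smul, key, hw, inv_smul_eq_iff₀ h1, mul_smul, ← e1]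
  funext i
  simp

variable {ι0 ι1 ι2 ι3 ι4 : Type} [Fintype ι0] [Fintype ι1] [Fintype ι2] [Fintype ι3] [Fintype ι4]
  [DecidableEq ι0] [DecidableEq ι1] [DecidableEq ι2] [DecidableEq ι3] [DecidableEq ι4]

theorem k2_gen [IsDomain S] (d1 : Matrix ι0 ι1 S) (d2 : Matrix ι1 ι2 S)
    (d3 : Matrix ι2 ι3 S) (X : Matrix ι3 ι4 S) (z1 : d1 * d2 = 0) (z2 : d2 * d3 = 0)
    (z3 : d3 * X = 0) {s : S} (hs : s ≠ 0) (e0 : ∀ v, ∃ w, d1 *ᵥ w = s • v)
    (e1 : ∀ v, d1 *ᵥ v = 0 → ∃ w, d2 *ᵥ w = v)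
    (e2 : ∀ v, d2 *ᵥ v = 0 → ∃ w, d3 *ᵥ w = v) (e3 : ∀ v, d3 *ᵥ v = 0 → ∃ w, X *ᵥ w = v)
    (hX : ∀ v, X *ᵥ v = 0 → v = 0) :
    ∃ (r1 r2 r3 : ℕ) (c1 : Fin r1 → ι1) (c2 : Fin r2 → ι2) (c3 : Fin r3 → ι3) (σ0 : ι0 ≃ Fin r1)
      (σ1 : ι1 ≃ Fin r2 ⊕ Fin r1) (σ2 : ι2 ≃ Fin r3 ⊕ Fin r2) (σ3 : ι3 ≃ ι4 ⊕ Fin r3),
      ((d1 * kdE S c1).submatrix id σ0).det ≠ 0 ∧ k2d (d2 * kdE S c2) c1 σ1 ≠ 0 ∧
      k2d (d3 * kdE S c3) c2 σ2 ≠ 0 ∧ k2d X c3 σ3 ≠ 0 := by
  set f := algebraMap S (FractionRing S)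
  have z : ∀ {a b c : Type} [Fintype b] {d : Matrix a b S} {d' : Matrix b c S} (_ : d * d' = 0),
      d.map f * d'.map f = 0 := fun h => by
    rw [← Matrix.map_mul, h, Matrix.map_zero _ (map_zero f)]
  have o : ∀ {a b c : Type} [Fintype b] [Fintype c] {d : Matrix a b S} {d' : Matrix b c S}
      (_ : ∀ v, d *ᵥ v = 0 → ∃ w, d' *ᵥ w = v) (v), d.map f *ᵥ v = 0 → ∃ w, d'.map f *ᵥ w = v :=
    fun h => k2_exK _ _ fun v hv => ⟨1, one_ne_zero, by simpa using h v hv⟩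
  obtain ⟨r1, r2, r3, c1, c2, c3, σ0, σ1, σ2, σ3, a0, a1, a2, a3⟩ := kdet_cols (d1.map f)
    (d2.map f) (d3.map f) (X.map f) (z z1) (z z2) (z z3)
    (fun v => k2_exK (0 : Matrix Empty ι0 S) d1 (fun v _ => ⟨s, hs, e0 v⟩) v
      (funext fun i => i.elim)) (o e1) (o e2) (o e3) fun v hv => by
    obtain ⟨w, rfl⟩ := o (d' := (0 : Matrix ι4 Empty S)) (fun v hv => ⟨0, by simp [hX v hv]⟩) v hv
    funext i
    simp [mulVec, dotProduct]
  refine ⟨r1, r2, r3, c1, c2, c3, σ0, σ1, σ2, σ3, fun h => a0 ?_, fun h => a1 ?_, fun h => a2 ?_,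
    fun h => a3 ?_⟩
  · rw [← k2_kdE_map f, ← Matrix.map_mul]
    exact (RingHom.map_det f _).symm.trans ((congrArg f h).trans (map_zero f))
  · have := k2d_map f (d2 * kdE S c2) c1 σ1
    rw [h, map_zero, Matrix.map_mul, k2_kdE_map] at this
    exact this.symm
  · have := k2d_map f (d3 * kdE S c3) c2 σ2
    rw [h, map_zero, Matrix.map_mul, k2_kdE_map] at this
    exact this.symm
  · have := k2d_map f X c3 σ3
    rw [h, map_zero] at this
    exact this.symm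

end alg

variable {A : Type} [CommRing A] [IsDomain A] {𝒜 : ℕ → AddSubgroup A} [GradedRing 𝒜]
  [hG : Fact (Gen 𝒜)] {p : ℕ} [Fact p.Prime] {N N' G : GM 𝒜}

theorem k2_kill {z : Pt 𝒜} (h : N.ZeroAt z) : ∃ k, ∃ t ∈ 𝒜 k, t ∉ pr z ∧ ∀ m : N.M, t • m = 0 := by
  classical
  obtain ⟨r, v, hv⟩ := Module.Finite.exists_fin (R := A) (M := N.M)
  choose k t h1 h2 h3 using fun i => h (v i)
  refine ⟨∑ i, k i, ∏ i, t i, SetLike.prod_mem_graded 𝒜 k t fun i _ => h1 i,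
    (pr z).primeCompl.prod_mem fun i _ => h2 i, fun m => ?_⟩
  obtain ⟨c, rfl⟩ := (mem_span_range_iff_exists_fun A).1 (hv.ge (Submodule.mem_top (x := m)))
  rw [Finset.smul_sum]
  refine Finset.sum_eq_zero fun i _ => ?_
  rw [smul_comm, ← Finset.prod_erase_mul _ _ (Finset.mem_univ i), mul_smul, h3, smul_zero,
    smul_zero]

theorem k2_ann (y : Pt 𝒜) {t : A} (h : ∀ m : N.M, t • m = 0) :
    algebraMap A (Lo y) t ∈ Module.annihilator (Lo y) (N.St y) := by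
  refine Module.mem_annihilator.2 fun ξ => ?_
  induction ξ using TensorProduct.induction_on with
  | zero => exact smul_zero _
  | add ξ η h1 h2 => rw [smul_add, h1, h2, add_zero]
  | tmul r m => rw [← st_tmul_smul, h, TensorProduct.tmul_zero]

theorem cod_fb (h : Hyp 𝒜) (hF : N.Fb p) {s : ℕ} (hs : N.DimLt p s) : N.Cod p (5 - s) := by
  intro y P hP hle
  obtain ⟨z, hz, rfl⟩ := loP_surj P hP
  have h1 : (p : A) ∈ pr z := (loP_p hz).1 (by simpa using hle (k2_ann y.1 hF))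
  have h2 : dm (⟨z, h1⟩ : Vp 𝒜 p) < s := by
    by_contra hc
    obtain ⟨k, t, ht, h3, h4⟩ := k2_kill (hs ⟨z, h1⟩ (not_lt.1 hc))
    exact h3 ((mem_loP hz ht).1 (hle (k2_ann y.1 h4)))
  rw [loP_height h (z := ⟨z, h1⟩) hz]
  exact_mod_cast (by omega : 5 - s ≤ 4 - dm (⟨z, h1⟩ : Vp 𝒜 p))

theorem cod_horiz (h : Hyp 𝒜) {W : Pt 𝒜} (hW : CharZero (kap W)) (h1 : tr W = 1) :
    (cy 𝒜 (pr W)).Cod p 2 := by
  intro y P hP hle
  obtain ⟨z, hz, rfl⟩ := loP_surj P hP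
  have h2 : pr W ≤ pr z := md_le_of_hom (pr_hom W) fun n a ha k =>
    (mem_loP hz ha).1 (hle (k2_ann y.1 fun m => by
      obtain ⟨v, rfl⟩ := k2mk_surj W m
      rw [← map_smul]
      exact k2mk_zero.2 (Ideal.mul_mem_right _ _ k)))
  exact (loP_horiz h hW h1 y (h2.trans hz)).trans (Ideal.height_mono ((loP_le hz).2 h2))

theorem k2_map {x y : Pt 𝒜} (h : pr x ≤ pr y) : (pr x).map (algebraMap A (Lo y)) = loP y x := by
  refine le_antisymm (Ideal.map_le_iff_le_comap.2 (md_le_of_hom (pr_hom x) fun n a ha k =>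
    (mem_loP h ha).2 k)) fun r hr => ?_
  obtain ⟨k, a, ha, s, hs, h1, e⟩ := lo_surj y r
  refine st_div y hs h1 ?_
  rw [smul_eq_mul, e]
  exact Ideal.mem_map_of_mem _ ((mem_loP h ha).1 (e ▸ Ideal.mul_mem_left _ _ hr))

theorem k2O_zero {x y : Pt 𝒜} (h : pr x ≤ pr y) {n : ℤ} {a : A} (ha : a ∈ Az 𝒜 n)
    (e : algebraMap A (k2O x y) a = 0) : a ∈ pr x := by
  rcases Az_cases ha with rfl | ⟨k, -, h1⟩
  · exact zero_mem _
  · exact (mem_loP h h1).1 (k2_map h ▸ Ideal.Quotient.eq_zero_iff_mem.1 e)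

theorem k2O_dom {x y : Pt 𝒜} (h : pr x ≤ pr y) : IsDomain (k2O x y) :=
  (Ideal.Quotient.isDomain_iff_prime _).2 (k2_map h ▸ loP_prime h)

theorem k2O_dim {x y : Vp 𝒜 p} (h : pr x.1 ≤ pr y.1) (hx : dm x ≤ 1) :
    Ring.KrullDimLE 1 (k2O x.1 y.1) := by
  have := k2O_dom h
  refine Ring.KrullDimLE.mk₁' fun Q h0 hQ => ?_
  let π := Ideal.Quotient.mk ((pr x.1).map (algebraMap A (Lo y.1)))
  obtain ⟨z, hz, e⟩ := loP_surj (Q.comap π) inferInstance
  have h1 : loP y.1 x.1 ≤ loP y.1 z := by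
    rw [e, ← k2_map h]
    exact Ideal.mk_ker.ge.trans (Ideal.ker_le_comap π)
  have h2 : pr x.1 < pr z := lt_of_le_of_ne ((loP_le hz).1 h1) fun k => h0 (by
    rw [← Ideal.map_comap_of_surjective π Ideal.Quotient.mk_surjective Q, ← e, ← pr_inj k,
      ← k2_map h]
    exact Ideal.map_quotient_self _)
  have h3 := dm_lt (x := x) (y := ⟨z, h2.le x.2⟩) h2
  have h4 : z = y.1 := congrArg Subtype.val (eq_of_dm (x := ⟨z, h2.le x.2⟩) (y := y) hz (by omega))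
  rw [h4, loP_self] at e
  rw [← Ideal.map_comap_of_surjective π Ideal.Quotient.mk_surjective Q, ← e] at hQ ⊢
  exact (Ideal.map_eq_top_or_isMaximal_of_surjective π Ideal.Quotient.mk_surjective
    (IsLocalRing.maximalIdeal.isMaximal _)).resolve_left hQ.ne_top

end

end Pool.Agent.Lib.MP_62d77c_ag.R
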