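import Pool.Agent.Lib.MP_62d77c_ag.R.TR
import Pool.Agent.Lib.MP_62d77c_ag.R.Dm2
import Pool.Agent.Lib.MP_62d77c_ag.R.Ann

/-! Depth of the divisorial modules; their resolutions split. -/

set_option autoImplicit false
set_option linter.unusedSectionVars false
set_option linter.unusedVariables false
set_option linter.style.haveILetI false

namespace Pool.Agent.Lib.MP_62d77c_ag.R

open Filter Polynomial Submodule
open scoped TensorProduct Matrix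

noncomputable section

variable {A : Type} [CommRing A] [IsDomain A] {𝒜 : ℕ → AddSubgroup A} [GradedRing 𝒜]
  [hG : Fact (Gen 𝒜)] {p : ℕ} [Fact p.Prime]

theorem dm_xc (h : Hyp 𝒜) (j : Comp 𝒜 p) : dm (Xc j).x = 3 :=
  haveI := h.cz
  dm_comp h.dim j

theorem k5t_max (y : Pt 𝒜) {e : ℕ} {a : A} (ha : a ∈ 𝒜 e) (h : a ∈ pr y) :
    algebraMap A (Lo y) a ∈ IsLocalRing.maximalIdeal (Lo y) :=
  (IsLocalRing.mem_maximalIdeal _).2 fun u => (lo_unit y ha).1 u h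

/-- a form that does not vanish on `X` is regular on the stalks of a family -/
theorem k5t_reg (X : Mo 𝒜 p) {F : X.Fa} (hF : X.FF F) (y : Pt 𝒜) {e : ℕ} {a : A} (ha : a ∈ 𝒜 e)
    (h0 : a ∉ pr X.x.1) (ξ : (X.gm F hF).St y) (h : algebraMap A (Lo y) a • ξ = 0) : ξ = 0 := by
  by_cases hy : pr X.x.1 ≤ pr y
  · obtain ⟨κ, h1, -, h3, -⟩ := st_gm X hF hy
    have := h3 (algebraMap A (Lo y) a) ξ
    rw [h, map_zero, X.lo_alg hy ha] at this
    exact h1 (((mul_eq_zero.1 this.symm).resolve_left (div_ne_zero (X.th_ne ha h0)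
      (pow_ne_zero _ (X.ell_ne hy)))).trans (map_zero κ).symm)
  · haveI := (st_subsingleton y).2 (zeroAt_gm X hF hy)
    exact Subsingleton.elim _ _

/-- two forms without a common prime divisor through `y` are a regular pair on `O(D)` -/
theorem k5t_rp (X : Mo 𝒜 p) (D : Dvs X.L) (hF : X.FF (X.MD D)) (y : Pt 𝒜) {e f : ℕ} {a b : A}
    (ha : a ∈ 𝒜 e) (hb : b ∈ 𝒜 f) (h0 : a ∉ pr X.x.1)
    (hab : ∀ O ∈ X.PD, pr (X.cen O).1 ≤ pr y → a ∈ pr (X.cen O).1 → b ∉ pr (X.cen O).1) :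
    Ann.RP ((X.gm _ hF).St y) (algebraMap A (Lo y) a) (algebraMap A (Lo y) b) := by
  refine ⟨k5t_reg X hF y ha h0, fun ξ η e1 => ?_⟩
  by_cases hy : pr X.x.1 ≤ pr y
  swap
  · haveI := (st_subsingleton y).2 (zeroAt_gm X hF hy)
    exact ⟨0, Subsingleton.elim _ _⟩
  obtain ⟨κ, h1, h2, h3, -⟩ := st_gm X hF hy
  have a0 : X.lo hy (algebraMap A (Lo y) a) ≠ 0 := by
    rw [X.lo_alg hy ha]
    exact div_ne_zero (X.th_ne ha h0) (pow_ne_zero _ (X.ell_ne hy))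
  have hm : ∀ ζ, κ ζ ∈ X.stk (X.MD D) y := fun ζ => h2 ▸ ⟨ζ, rfl⟩
  have key : ∀ O ∈ X.PD, pr (X.cen O).1 ≤ pr y → ∀ {n : ℕ} {c : A}, c ∈ 𝒜 n →
      c ∉ pr (X.cen O).1 → ∀ (w : X.L) ζ, X.lo hy (algebraMap A (Lo y) c) * w = κ ζ →
      w * unif O ^ D O ∈ O := fun O hO hle n c hc h4 w ζ e2 => by
    have h5 := (mem_stk_md X D hy _).1 (hm ζ) O hO hle
    have h6 : O.valuation (X.lo hy (algebraMap A (Lo y) c)) = 1 := by
      rw [X.lo_alg hy hc, ← map_pow, (pd_cen X hO).1.val_div (md_pow_mem (ell_spec y).1 n)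
        (md_pow_not_mem (fun k => (ell_spec y).2 (hle k)) n), (pd_cen X hO).1.val_one hc h4]
    rw [← e2, mul_assoc, ← O.valuation_le_one_iff, map_mul, h6, one_mul] at h5
    exact (O.valuation_le_one_iff _).1 h5
  have h7 : κ ξ / X.lo hy (algebraMap A (Lo y) a) ∈ X.stk (X.MD D) y :=
    (mem_stk_md X D hy _).2 fun O hO hle => by
      by_cases c : a ∈ pr (X.cen O).1
      · refine key O hO hle hb (hab O hO hle c) _ η ?_
        rw [← mul_div_assoc, ← h3, e1, h3, mul_div_cancel_left₀ _ a0]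
      · exact key O hO hle ha c _ ξ (mul_div_cancel₀ _ a0)
  rw [← h2] at h7
  obtain ⟨u, hu⟩ := h7
  exact ⟨u, h1 (by rw [h3, hu, mul_div_cancel₀ _ a0])⟩

theorem k5t_one (X : Mo 𝒜 p) (y : Vp 𝒜 p) (hy : dm y < dm X.x) :
    ∃ e, ∃ a ∈ 𝒜 e, a ∈ pr y.1 ∧ a ∉ pr X.x.1 :=
  md_exists_not_mem (pr_hom y.1) fun hle => by
    rcases eq_or_lt_of_le hle with e | e
    · obtain rfl : y = X.x := Subtype.ext (pr_inj e)
      omega
    · have := dm_lt e
      omega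

theorem k5t_two (X : Mo 𝒜 p) (y : Vp 𝒜 p) (hy : dm y + 1 < dm X.x) :
    ∃ e f, ∃ a ∈ 𝒜 e, ∃ b ∈ 𝒜 f, a ∈ pr y.1 ∧ b ∈ pr y.1 ∧ a ∉ pr X.x.1 ∧
      ∀ O ∈ X.PD, a ∈ pr (X.cen O).1 → b ∉ pr (X.cen O).1 := by
  classical
  obtain ⟨e, a, ha, h1, h2⟩ := k5t_one X y (by omega)
  have hf := (pd_fin X ha (X.th_ne ha h2)).image fun O => (X.cen O).1
  obtain ⟨f, b, h3, hb, h4⟩ := (avoid (pr_hom y.1) hf.toFinset fun w hw hle => by
    obtain ⟨O, ⟨hO, -⟩, rfl⟩ := hf.mem_toFinset.1 hw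
    have h5 := (pd_cen X hO).2
    rcases eq_or_lt_of_le hle with e | e
    · obtain rfl : y = X.cen O := Subtype.ext (pr_inj e)
      omega
    · have := dm_lt e
      omega).exists
  exact ⟨e, f, a, ha, b, hb, h1, h3, h2, fun O hO k => h4 _ (hf.mem_toFinset.2 ⟨O, ⟨hO, k⟩, rfl⟩)⟩

/-- depth of `O(D)` -/
theorem k5t_depth (X : Mo 𝒜 p) (D : Dvs X.L) (hF : X.FF (X.MD D)) (y : Vp 𝒜 p) (r : ℕ)
    (hr : r ≤ 2) (hy : dm y + r ≤ dm X.x) : ∃ l : List (Lo y.1), l.length = r ∧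
      (∀ a ∈ l, a ∈ IsLocalRing.maximalIdeal (Lo y.1)) ∧
      RingTheory.Sequence.IsWeaklyRegular ((X.gm _ hF).St y.1) l := by
  interval_cases r
  · exact ⟨[], rfl, by simp, RingTheory.Sequence.IsWeaklyRegular.nil _ _⟩
  · obtain ⟨e, a, ha, h1, h2⟩ := k5t_one X y (by omega)
    refine ⟨[algebraMap A _ a], rfl, by simpa using k5t_max y.1 ha h1, ?_⟩
    rw [RingTheory.Sequence.isWeaklyRegular_singleton_iff]
    exact .of_right_eq_zero_of_smul (k5t_reg X hF y.1 ha h2)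
  · obtain ⟨e, f, a, ha, b, hb, h1, h2, h3, h4⟩ := k5t_two X y (by omega)
    refine ⟨[algebraMap A _ a, algebraMap A _ b], rfl, ?_,
      (k5t_rp X D hF y.1 ha hb h3 fun O hO _ => h4 O hO).reg⟩
    intro c hc
    simp only [List.mem_cons, List.not_mem_nil, or_false] at hc
    rcases hc with rfl | rfl
    exacts [k5t_max y.1 ha h1, k5t_max y.1 hb h2]

theorem split_two (h : Hyp 𝒜) (ff : FFD 𝒜 p) (j : Comp 𝒜 p) (D : Dvs (Xc j).L)
    (R : Res (GD ff j D)) (y : Vp 𝒜 p) : SplitAt y.1 (R.D 2) := by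
  have h3 := dm_xc h j
  have h4 := (dim_lo h y).1
  obtain ⟨l, h1, h2, h5⟩ := k5t_depth (Xc j) D (ff j D) y (2 - dm y) (by omega) (by omega)
  exact res_split h R y l h2 h5 2 (by omega)

theorem split_one (h : Hyp 𝒜) (ff : FFD 𝒜 p) (j : Comp 𝒜 p) (D : Dvs (Xc j).L)
    (R : Res (GD ff j D)) (y : Vp 𝒜 p) (hy : 1 ≤ dm y) : SplitAt y.1 (R.D 1) := by
  have h3 := dm_xc h j
  have h4 := (dim_lo h y).1
  obtain ⟨l, h1, h2, h5⟩ := k5t_depth (Xc j) D (ff j D) y (3 - dm y) (by omega) (by omega)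
  exact res_split h R y l h2 h5 1 (by omega)

end

end Pool.Agent.Lib.MP_62d77c_ag.R
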