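import Mathlib

/-! The determinant of a complex of free modules whose homology vanishes in codimension one. -/

set_option autoImplicit false
set_option linter.unusedSectionVars false

namespace Pool.Agent.Lib.MP_62d77c_ag.R

open Module Matrix

theorem kdet_step {S : Type} [CommRing S] [IsLocalRing S] {ι ρ ρ' B : Type} [Fintype ι]
    [DecidableEq ι] [Fintype ρ] [DecidableEq ρ] [Fintype ρ'] [DecidableEq ρ'] [AddCommGroup B]
    [Module S B] (w : Basis ρ S B) (π : (ι → S) →ₗ[S] B) (hπ : Function.Surjective π)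
    (σ : ι ≃ ρ' ⊕ ρ) : ∃ w' : Basis ρ' S (LinearMap.ker π),
      ∀ (X : Matrix ι ρ' S) (hX : ∀ j, (fun r => X r j) ∈ LinearMap.ker π) (Y : Matrix ι ρ S),
        Associated ((fromCols X Y).submatrix id σ).det
          (w'.det (fun j => ⟨_, hX j⟩) * w.det fun j => π fun r => Y r j) := by
  have : Module.Free S B := .of_basis w
  have : Module.Finite S B := .of_basis w
  obtain ⟨s, hs⟩ := Module.projective_lifting_property π LinearMap.id hπ
  have hs' : ∀ b, π (s b) = b := fun b => LinearMap.congr_fun hs b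
  let q : (ι → S) →ₗ[S] LinearMap.ker π :=
    (LinearMap.id - s ∘ₗ π).codRestrict _ fun v => by simp [hs']
  have hq : ∀ v : LinearMap.ker π, q v.1 = v := fun v => Subtype.ext (by
    have := v.2
    rw [LinearMap.mem_ker] at this
    simp [q, this])
  have hq' : ∀ v, (q v).1 = v - s (π v) := fun v => rfl
  have : Module.Projective S (LinearMap.ker π) :=
    .of_split (LinearMap.ker π).subtype q (LinearMap.ext hq)
  have : Module.Finite S (LinearMap.ker π) := .of_surjective q fun v => ⟨v.1, hq v⟩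
  have : Module.Free S (LinearMap.ker π) := Module.free_of_flat_of_isLocalRing
  let e : (ι → S) ≃ₗ[S] LinearMap.ker π × B :=
    LinearEquiv.ofLinearMap (q.prod π) ((LinearMap.ker π).subtype.coprod s)
      (LinearMap.ext fun x => Prod.ext (by
        apply Subtype.ext
        have := x.1.2
        rw [LinearMap.mem_ker] at this
        simp [hq', this, hs']) (by
        have := x.1.2
        rw [LinearMap.mem_ker] at this
        simp [this, hs']))
      (LinearMap.ext fun v => by simp [hq'])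
  have hr : finrank S (LinearMap.ker π) = Fintype.card ρ' := by
    have h1 := e.finrank_eq
    rw [finrank_prod, finrank_eq_card_basis w, finrank_fintype_fun_eq_card,
      Fintype.card_congr σ, Fintype.card_sum] at h1
    omega
  let w' : Basis ρ' S (LinearMap.ker π) :=
    (Module.finBasisOfFinrankEq S _ hr).reindex (Fintype.equivFin ρ').symm
  refine ⟨w', fun X hX Y => ?_⟩
  let W : Basis ι S (ι → S) := ((w'.prod w).map e.symm).reindex σ.symm
  let v : ι → ι → S := fun c r => fromCols X Y r (σ c)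
  have h1 : ((fromCols X Y).submatrix id σ).det = (Pi.basisFun S ι).det v := by
    rw [Basis.det_apply]
    congr 1
  have h2 : (Pi.basisFun S ι).det v = (Pi.basisFun S ι).det W * W.det v :=
    DFunLike.congr_fun ((Pi.basisFun S ι).det.eq_smul_basis_det W) v
  have h3 : W.det v = w'.det (fun j => ⟨_, hX j⟩) * w.det fun j => π fun r => Y r j := by
    rw [Basis.det_apply, Basis.det_apply, Basis.det_apply, ← det_fromBlocks_zero₂₁ _
      (w'.toMatrix fun j => q fun r => Y r j), ← det_submatrix_equiv_self σ]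
    congr 1
    ext a c
    have hv : W.toMatrix v a c = (w'.prod w).repr (e (v c)) (σ a) := by
      simp [W, Basis.toMatrix_apply]
    rw [hv, submatrix_apply]
    have he : e (v c) = (q (v c), π (v c)) := rfl
    rw [he]
    rcases hc : σ c with j | j
    · have e1 : v c = fun r => X r j := by funext r; simp [v, hc]
      have e2 : π (fun r => X r j) = 0 := hX j
      have e3 := hq ⟨_, hX j⟩
      rcases σ a with i | i
      · simp only [e1, Basis.prod_repr_inl, fromBlocks_apply₁₁, Basis.toMatrix_apply]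
        rw [e3]
      · simp [e1, e2]
    · have e1 : v c = fun r => Y r j := by funext r; simp [v, hc]
      rcases σ a with i | i <;> simp [e1, Basis.toMatrix_apply]
  rw [h1, h2, h3]
  exact associated_unit_mul_left _ _ ((Pi.basisFun S ι).isUnit_det W)

section four
variable {ι0 ι1 ι2 ι3 ι4 ρ1 ρ2 ρ3 : Type} [Fintype ι0] [DecidableEq ι0] [Fintype ι1] [DecidableEq ι1]
  [Fintype ι2] [DecidableEq ι2] [Fintype ι3] [DecidableEq ι3] [Fintype ι4] [DecidableEq ι4]
  [Fintype ρ1] [DecidableEq ρ1] [Fintype ρ2] [DecidableEq ρ2] [Fintype ρ3] [DecidableEq ρ3]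

/-- one more step: the next differential maps onto the kernel -/
theorem kdet_next {S : Type} [CommRing S] [IsLocalRing S] {ι ι' ρ ρ' : Type} [Fintype ι']
    [DecidableEq ι'] [Fintype ρ] [DecidableEq ρ] [Fintype ρ'] [DecidableEq ρ']
    {Z : Submodule S (ι → S)} (w : Basis ρ S Z) (d : Matrix ι ι' S) (h1 : ∀ v, d *ᵥ v ∈ Z)
    (h2 : ∀ z ∈ Z, ∃ v, d *ᵥ v = z) (σ : ι' ≃ ρ' ⊕ ρ) :
    ∃ w' : Basis ρ' S (LinearMap.ker d.mulVecLin),
      ∀ (X : Matrix ι' ρ' S) (hX : ∀ j, (fun r => X r j) ∈ LinearMap.ker d.mulVecLin)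
        (Y : Matrix ι' ρ S) (hY : ∀ j, (fun r => (d * Y) r j) ∈ Z),
        Associated ((fromCols X Y).submatrix id σ).det
          (w'.det (fun j => ⟨_, hX j⟩) * w.det fun j => ⟨_, hY j⟩) := by
  let π : (ι' → S) →ₗ[S] Z := d.mulVecLin.codRestrict Z h1
  have hk : LinearMap.ker π = LinearMap.ker d.mulVecLin := LinearMap.ker_codRestrict _ _ _
  obtain ⟨w', h⟩ := kdet_step w π (fun z => by
    obtain ⟨v, hv⟩ := h2 z.1 z.2
    exact ⟨v, Subtype.ext hv⟩) σ
  refine ⟨w'.map (LinearEquiv.ofEq _ _ hk), fun X hX Y hY => ?_⟩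
  have := h X (fun j => hk ▸ hX j) Y
  convert this using 2
  · rw [Basis.det_map]
    rfl
  · rfl

theorem kdet_loc {S : Type} [CommRing S] [IsLocalRing S] (d1 : Matrix ι0 ι1 S) (d2 : Matrix ι1 ι2 S)
    (d3 : Matrix ι2 ι3 S) (d4 : Matrix ι3 ι4 S) (z1 : d1 * d2 = 0) (z2 : d2 * d3 = 0)
    (z3 : d3 * d4 = 0) (e0 : ∀ v, ∃ w, d1 *ᵥ w = v) (e1 : ∀ v, d1 *ᵥ v = 0 → ∃ w, d2 *ᵥ w = v)
    (e2 : ∀ v, d2 *ᵥ v = 0 → ∃ w, d3 *ᵥ w = v) (e3 : ∀ v, d3 *ᵥ v = 0 → ∃ w, d4 *ᵥ w = v)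
    (E1 : Matrix ι1 ρ1 S) (E2 : Matrix ι2 ρ2 S) (E3 : Matrix ι3 ρ3 S) (φ : Matrix ι4 ι4 S)
    (σ0 : ι0 ≃ ρ1) (σ1 : ι1 ≃ ρ2 ⊕ ρ1) (σ2 : ι2 ≃ ρ3 ⊕ ρ2) (σ3 : ι3 ≃ ι4 ⊕ ρ3) :
    Associated (φ.det * ((fromCols (d3 * E3) E2).submatrix id σ2).det *
        ((d1 * E1).submatrix id σ0).det)
      (((fromCols (d4 * φ) E3).submatrix id σ3).det *
        ((fromCols (d2 * E2) E1).submatrix id σ1).det) := by
  have col : ∀ {a b c e : Type} [Fintype b] [Fintype c] {d : Matrix a b S} {d' : Matrix b c S}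
      (_ : d * d' = 0) (E : Matrix c e S) (j : e),
      (fun r => (d' * E) r j) ∈ LinearMap.ker d.mulVecLin := by
    intro a b c e _ _ d d' z E j
    have : d * (d' * E) = 0 := by rw [← Matrix.mul_assoc, z, Matrix.zero_mul]
    funext r
    exact congrFun (congrFun this r) j
  have vec : ∀ {a b c : Type} [Fintype b] [Fintype c] {d : Matrix a b S} {d' : Matrix b c S}
      (_ : d * d' = 0) (v : c → S), d' *ᵥ v ∈ LinearMap.ker d.mulVecLin := by
    intro a b c _ _ d d' z v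
    show d *ᵥ (d' *ᵥ v) = 0
    rw [mulVec_mulVec, z, zero_mulVec]
  let w1 : Basis ρ1 S (⊤ : Submodule S (ι0 → S)) :=
    ((Pi.basisFun S ι0).reindex σ0).map Submodule.topEquiv.symm
  obtain ⟨w2, h1⟩ := kdet_next w1 d1 (fun _ => trivial) (fun z _ => e0 z) σ1
  obtain ⟨w3, h2⟩ := kdet_next w2 d2 (vec z1) e1 σ2
  obtain ⟨w4, h3⟩ := kdet_next w3 d3 (vec z2) e2 σ3
  obtain ⟨w5, h4⟩ := kdet_next w4 d4 (vec z3) e3 (Equiv.emptySum Empty ι4).symm
  have g1 := h1 _ (col z1 E2) E1 fun _ => trivial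
  have g2 := h2 _ (col z2 E3) E2 (col z1 E2)
  have g3 := h3 _ (col z3 φ) E3 (col z2 E3)
  have g4 := h4 (Matrix.of fun _ j => j.elim) (fun j => j.elim) φ (col z3 φ)
  have g0 : ((d1 * E1).submatrix id σ0).det =
      w1.det fun j => ⟨fun r => (d1 * E1) r j, trivial⟩ := by
    rw [Basis.det_apply, ← det_submatrix_equiv_self σ0]
    congr 1
    ext a c
    simp [w1, Basis.toMatrix_apply]
  have g5 : (fromCols (Matrix.of fun _ (j : Empty) => j.elim) φ).submatrix id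
      (Equiv.emptySum Empty ι4).symm = φ := by
    ext a c
    simp
  rw [g5, Basis.det_apply w5, det_isEmpty (n := Empty), one_mul] at g4
  rw [g0]
  refine ((g4.mul_mul g2).mul_right _).trans (Associated.trans ?_ (g3.mul_mul g1).symm)
  exact Associated.of_eq (by ring)

/-- exactness up to elements outside `P` gives exactness over the local ring -/
theorem kdet_ex {R : Type} [CommRing R] (P : Ideal R) [P.IsPrime] {a b c : Type} [Fintype a]
    [Fintype b] [Fintype c] (d : Matrix a b R) (d' : Matrix b c R)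
    (h : ∀ v, d *ᵥ v = 0 → ∃ s ∉ P, ∃ w, d' *ᵥ w = s • v) (v : b → Localization.AtPrime P)
    (hv : d.map (algebraMap R (Localization.AtPrime P)) *ᵥ v = 0) :
    ∃ w, d'.map (algebraMap R (Localization.AtPrime P)) *ᵥ w = v := by
  classical
  set f := algebraMap R (Localization.AtPrime P)
  have key : ∀ {x y : Type} [Fintype y] (m : Matrix x y R) (u : y → R),
      m.map f *ᵥ (fun i => f (u i)) = fun i => f ((m *ᵥ u) i) := by
    intro x y _ m u
    funext i
    exact (RingHom.map_mulVec f m u i).symm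
  obtain ⟨t, ht⟩ := IsLocalization.exist_integer_multiples_of_finite P.primeCompl v
  choose v0 hv0 using ht
  have e1 : (fun i => f (v0 i)) = f t • v := by
    funext i
    rw [hv0 i, Algebra.smul_def]
    rfl
  have e2 : ∀ i, ∃ m : P.primeCompl, m * (d *ᵥ v0) i = 0 := fun i => by
    rw [← IsLocalization.map_eq_zero_iff P.primeCompl (Localization.AtPrime P)]
    have := congrFun (key d v0) i
    rw [e1, mulVec_smul, hv, smul_zero] at this
    exact this.symm
  choose m hm using e2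
  obtain ⟨s, hs, w, hw⟩ := h (((∏ i, m i : P.primeCompl) : R) • v0) (by
    rw [mulVec_smul]
    funext i
    rw [← Finset.prod_erase_mul _ _ (Finset.mem_univ i)]
    simp only [Pi.smul_apply, smul_eq_mul, Submonoid.coe_mul, mul_assoc, hm, mul_zero,
      Pi.zero_apply])
  obtain ⟨u, hu⟩ := IsLocalization.map_units (Localization.AtPrime P)
    ((⟨s, hs⟩ * (∏ i, m i) * t : P.primeCompl))
  refine ⟨(u⁻¹ : _ˣ).1 • fun i => f (w i), ?_⟩
  rw [mulVec_smul, key, hw]
  funext i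
  have e3 := congrFun e1 i
  simp only [Pi.smul_apply, smul_eq_mul] at e3 ⊢
  rw [Units.inv_mul_eq_iff_eq_mul, hu, map_mul, map_mul, e3]
  simp only [Submonoid.coe_mul, map_mul, mul_assoc]
  rfl

/-- the determinant identity at a prime where the complex is exact -/
theorem kdet_prime {R : Type} [CommRing R] (P : Ideal R) [P.IsPrime] (d1 : Matrix ι0 ι1 R)
    (d2 : Matrix ι1 ι2 R) (d3 : Matrix ι2 ι3 R) (d4 : Matrix ι3 ι4 R) (z1 : d1 * d2 = 0)
    (z2 : d2 * d3 = 0) (z3 : d3 * d4 = 0) (e0 : ∀ v, ∃ s ∉ P, ∃ w, d1 *ᵥ w = s • v)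
    (e1 : ∀ v, d1 *ᵥ v = 0 → ∃ s ∉ P, ∃ w, d2 *ᵥ w = s • v)
    (e2 : ∀ v, d2 *ᵥ v = 0 → ∃ s ∉ P, ∃ w, d3 *ᵥ w = s • v)
    (e3 : ∀ v, d3 *ᵥ v = 0 → ∃ s ∉ P, ∃ w, d4 *ᵥ w = s • v)
    (E1 : Matrix ι1 ρ1 R) (E2 : Matrix ι2 ρ2 R) (E3 : Matrix ι3 ρ3 R) (φ : Matrix ι4 ι4 R)
    (σ0 : ι0 ≃ ρ1) (σ1 : ι1 ≃ ρ2 ⊕ ρ1) (σ2 : ι2 ≃ ρ3 ⊕ ρ2) (σ3 : ι3 ≃ ι4 ⊕ ρ3) :
    ∃ s ∉ P, ∃ t ∉ P, s * (φ.det * ((fromCols (d3 * E3) E2).submatrix id σ2).det *
        ((d1 * E1).submatrix id σ0).det) =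
      t * (((fromCols (d4 * φ) E3).submatrix id σ3).det *
        ((fromCols (d2 * E2) E1).submatrix id σ1).det) := by
  set f := algebraMap R (Localization.AtPrime P) with hf
  have z : ∀ {a b c : Type} [Fintype b] {d : Matrix a b R} {d' : Matrix b c R} (_ : d * d' = 0),
      d.map f * d'.map f = 0 := by
    intro a b c _ d d' h
    rw [← Matrix.map_mul, h, Matrix.map_zero _ (map_zero f)]
  have h := kdet_loc (d1.map f) (d2.map f) (d3.map f) (d4.map f) (z z1) (z z2) (z z3)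
    (fun v => kdet_ex P (0 : Matrix Empty ι0 R) d1 (fun v _ => e0 v) v (funext fun i => i.elim))
    (kdet_ex P d1 d2 e1) (kdet_ex P d2 d3 e2) (kdet_ex P d3 d4 e3) (E1.map f) (E2.map f)
    (E3.map f) (φ.map f) σ0 σ1 σ2 σ3
  have m1 : ∀ {a b c : Type} [Fintype a] [DecidableEq a] (X : Matrix a b R) (Y : Matrix a c R)
      (σ : a ≃ b ⊕ c), ((fromCols (X.map f) (Y.map f)).submatrix id σ).det =
        f ((fromCols X Y).submatrix id σ).det := by
    intro a b c _ _ X Y σ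
    rw [RingHom.map_det]
    congr 1
    ext i j
    rcases e : σ j with k | k <;> simp [e]
  have m0 : (((d1 * E1).map f).submatrix id σ0).det = f ((d1 * E1).submatrix id σ0).det := by
    rw [RingHom.map_det]
    rfl
  have m2 : (φ.map f).det = f φ.det := (RingHom.map_det f φ).symm
  simp only [← Matrix.map_mul] at h
  rw [m1, m1, m1, m0, m2, ← map_mul, ← map_mul, ← map_mul] at h
  obtain ⟨u, hu⟩ := h
  obtain ⟨⟨a, b⟩, hab⟩ := IsLocalization.surj P.primeCompl (u : Localization.AtPrime P)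
  have ha : a ∉ P := fun h => by
    have := (IsLocalization.AtPrime.to_map_mem_maximal_iff (Localization.AtPrime P) P a).2 h
    rw [← hab] at this
    exact this (u.isUnit.mul (IsLocalization.map_units _ b))
  have := congrArg (· * f b) hu
  simp only [mul_assoc _ u.1] at this
  rw [hab, ← map_mul, ← map_mul] at this
  obtain ⟨c, hc⟩ := (IsLocalization.eq_iff_exists P.primeCompl _).1 this
  exact ⟨c * a, P.primeCompl.mul_mem c.2 ha, c * b, P.primeCompl.mul_mem c.2 b.2, by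
    linear_combination hc⟩

/-- in a factorial ring divisibility can be tested at the primes of height at most one -/
theorem kdet_dvd {R : Type} [CommRing R] [IsDomain R] [UniqueFactorizationMonoid R] {x y : R}
    (h : ∀ π : R, Prime π ∨ π = 0 → ∃ s, ¬ π ∣ s ∧ x ∣ s * y) : x ∣ y := by
  by_cases hx : x = 0
  · obtain ⟨s, h1, h2⟩ := h 0 (Or.inr rfl)
    rw [hx, zero_dvd_iff] at *
    exact (mul_eq_zero.1 h2).resolve_left h1
  obtain ⟨a, b, c, hab, rfl, rfl⟩ := UniqueFactorizationMonoid.exists_reduced_factors x hx y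
  have hc : c ≠ 0 := left_ne_zero_of_mul hx
  refine mul_dvd_mul_left c (IsUnit.dvd ?_)
  by_contra ha
  obtain ⟨π, h1, h2⟩ := WfDvdMonoid.exists_irreducible_factor ha (right_ne_zero_of_mul hx)
  have hp := UniqueFactorizationMonoid.irreducible_iff_prime.1 h1
  obtain ⟨s, h3, h4⟩ := h π (Or.inl hp)
  rw [mul_left_comm, mul_dvd_mul_iff_left hc] at h4
  exact h1.not_isUnit (hab h2 ((hp.dvd_or_dvd (h2.trans h4)).resolve_left h3))

/-- the determinant identity over a factorial ring, for an exact complex whose cokernel vanishes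
at the primes of height at most one -/
theorem kdet_ufd {R : Type} [CommRing R] [IsDomain R] [UniqueFactorizationMonoid R]
    (d1 : Matrix ι0 ι1 R) (d2 : Matrix ι1 ι2 R) (d3 : Matrix ι2 ι3 R) (d4 : Matrix ι3 ι4 R)
    (z1 : d1 * d2 = 0) (z2 : d2 * d3 = 0) (z3 : d3 * d4 = 0)
    (e0 : ∀ π : R, Prime π ∨ π = 0 → ∀ v, ∃ s, ¬ π ∣ s ∧ ∃ w, d1 *ᵥ w = s • v)
    (e1 : ∀ v, d1 *ᵥ v = 0 → ∃ w, d2 *ᵥ w = v) (e2 : ∀ v, d2 *ᵥ v = 0 → ∃ w, d3 *ᵥ w = v)
    (e3 : ∀ v, d3 *ᵥ v = 0 → ∃ w, d4 *ᵥ w = v)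
    (E1 : Matrix ι1 ρ1 R) (E2 : Matrix ι2 ρ2 R) (E3 : Matrix ι3 ρ3 R) (φ : Matrix ι4 ι4 R)
    (σ0 : ι0 ≃ ρ1) (σ1 : ι1 ≃ ρ2 ⊕ ρ1) (σ2 : ι2 ≃ ρ3 ⊕ ρ2) (σ3 : ι3 ≃ ι4 ⊕ ρ3) :
    Associated (φ.det * ((fromCols (d3 * E3) E2).submatrix id σ2).det *
        ((d1 * E1).submatrix id σ0).det)
      (((fromCols (d4 * φ) E3).submatrix id σ3).det *
        ((fromCols (d2 * E2) E1).submatrix id σ1).det) := by
  have key : ∀ π : R, Prime π ∨ π = 0 → ∃ s, ¬ π ∣ s ∧ ∃ t, ¬ π ∣ t ∧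
      s * (φ.det * ((fromCols (d3 * E3) E2).submatrix id σ2).det *
        ((d1 * E1).submatrix id σ0).det) = t * (((fromCols (d4 * φ) E3).submatrix id σ3).det *
        ((fromCols (d2 * E2) E1).submatrix id σ1).det) := by
    intro π hπ
    have : (Ideal.span {π}).IsPrime := by
      rcases hπ with h | rfl
      · exact (Ideal.span_singleton_prime h.ne_zero).2 h
      · rw [Ideal.span_singleton_zero]
        exact Ideal.isPrime_bot
    have o : (1 : R) ∉ Ideal.span {π} := (Ideal.ne_top_iff_one _).1 this.ne_top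
    have := kdet_prime (Ideal.span {π}) d1 d2 d3 d4 z1 z2 z3
      (fun v => by simpa only [Ideal.mem_span_singleton] using e0 π hπ v)
      (fun v hv => ⟨1, o, by simpa using e1 v hv⟩) (fun v hv => ⟨1, o, by simpa using e2 v hv⟩)
      (fun v hv => ⟨1, o, by simpa using e3 v hv⟩) E1 E2 E3 φ σ0 σ1 σ2 σ3
    simpa only [Ideal.mem_span_singleton] using this
  refine associated_of_dvd_dvd (kdet_dvd fun π hπ => ?_) (kdet_dvd fun π hπ => ?_)
  · obtain ⟨s, -, t, ht, e⟩ := key π hπ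
    exact ⟨t, ht, e ▸ dvd_mul_left _ _⟩
  · obtain ⟨s, hs, t, -, e⟩ := key π hπ
    exact ⟨s, hs, e ▸ dvd_mul_left _ _⟩

/-- the matrix whose columns are the standard vectors `c j` -/
def kdE (R : Type) [CommRing R] {ι ρ : Type} [DecidableEq ι] (c : ρ → ι) : Matrix ι ρ R :=
  (1 : Matrix ι ι R).submatrix id c

theorem kdet_complete {K : Type} [Field K] {ι ι' ρ : Type} [Fintype ι] [DecidableEq ι] [Fintype ρ]
    (d : Matrix ι' ι K) (X : Matrix ι ρ K) (hX : ∀ v, X *ᵥ v = 0 → v = 0) (z : d * X = 0)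
    (e : ∀ v, d *ᵥ v = 0 → ∃ w, X *ᵥ w = v) : ∃ (r : ℕ) (c : Fin r → ι) (σ : ι ≃ ρ ⊕ Fin r),
      ((fromCols X (kdE K c)).submatrix id σ).det ≠ 0 ∧
      (∀ v, (d * kdE K c) *ᵥ v = 0 → v = 0) ∧ ∀ v, ∃ w, (d * kdE K c) *ᵥ w = d *ᵥ v := by
  classical
  obtain ⟨κ, a, ha, h1, h2⟩ := exists_linearIndependent' K d.col
  have : Finite κ := .of_injective a ha
  have := Fintype.ofFinite κ
  let c : Fin (Fintype.card κ) → ι := a ∘ (Fintype.equivFin κ).symm
  have e1 : d * kdE K c = d.submatrix id c := by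
    ext i j
    simp [kdE, Matrix.mul_apply, Matrix.one_apply]
  have e2 : (d.submatrix id c).col = (d.col ∘ a) ∘ (Fintype.equivFin κ).symm := rfl
  have i1 : ∀ v, (d * kdE K c) *ᵥ v = 0 → v = 0 := fun v hv => by
    have := mulVec_injective_iff.2 (e2 ▸ h2.comp _ (Fintype.equivFin κ).symm.injective)
    rw [e1] at hv
    exact this (hv.trans (mulVec_zero _).symm)
  have s1 : ∀ v, ∃ w, (d * kdE K c) *ᵥ w = d *ᵥ v := fun v => by
    have : d *ᵥ v ∈ LinearMap.range (d.submatrix id c).mulVecLin := by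
      rw [range_mulVecLin, e2, (Fintype.equivFin κ).symm.surjective.range_comp, h1,
        ← range_mulVecLin]
      exact ⟨v, rfl⟩
    rw [e1]
    exact this
  have inj : Function.Injective (fromCols X (kdE K c)).mulVecLin := by
    rw [injective_iff_map_eq_zero]
    intro v hv
    rw [← Sum.elim_comp_inl_inr v, mulVecLin_apply, fromCols_mulVec_sumElim] at hv
    have h3 := congrArg (d *ᵥ ·) hv
    simp only [mulVec_add, mulVec_mulVec, z, zero_mulVec, zero_add, mulVec_zero] at h3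
    have h4 := i1 _ h3
    rw [h4, mulVec_zero, add_zero] at hv
    rw [← Sum.elim_comp_inl_inr v, h4, hX _ hv]
    exact Sum.elim_zero_zero
  have sur : Function.Surjective (fromCols X (kdE K c)).mulVecLin := fun v => by
    obtain ⟨w, hw⟩ := s1 v
    obtain ⟨u, hu⟩ := e (v - kdE K c *ᵥ w) (by rw [mulVec_sub, mulVec_mulVec, hw, sub_self])
    exact ⟨Sum.elim u w, by rw [mulVecLin_apply, fromCols_mulVec_sumElim, hu, sub_add_cancel]⟩
  have hc := (LinearEquiv.ofBijective _ ⟨inj, sur⟩).finrank_eq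
  rw [finrank_fintype_fun_eq_card, finrank_fintype_fun_eq_card] at hc
  let σ := Fintype.equivOfCardEq hc.symm
  refine ⟨_, c, σ, fun h => ?_, i1, s1⟩
  obtain ⟨v, h3, h4⟩ := exists_mulVec_eq_zero_iff.2 h
  rw [submatrix_mulVec_equiv] at h4
  have h5 : v ∘ σ.symm = 0 := inj (h4.trans (map_zero _).symm)
  exact h3 (funext fun i => by simpa using congrFun h5 (σ i))

/-- over a field one can choose standard vectors with all determinants nonzero -/
theorem kdet_cols {K : Type} [Field K] (d1 : Matrix ι0 ι1 K) (d2 : Matrix ι1 ι2 K)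
    (d3 : Matrix ι2 ι3 K) (X : Matrix ι3 ι4 K) (z1 : d1 * d2 = 0) (z2 : d2 * d3 = 0)
    (z3 : d3 * X = 0) (e0 : ∀ v, ∃ w, d1 *ᵥ w = v) (e1 : ∀ v, d1 *ᵥ v = 0 → ∃ w, d2 *ᵥ w = v)
    (e2 : ∀ v, d2 *ᵥ v = 0 → ∃ w, d3 *ᵥ w = v) (e3 : ∀ v, d3 *ᵥ v = 0 → ∃ w, X *ᵥ w = v)
    (hX : ∀ v, X *ᵥ v = 0 → v = 0) :
    ∃ (r1 r2 r3 : ℕ) (c1 : Fin r1 → ι1) (c2 : Fin r2 → ι2) (c3 : Fin r3 → ι3) (σ0 : ι0 ≃ Fin r1)
      (σ1 : ι1 ≃ Fin r2 ⊕ Fin r1) (σ2 : ι2 ≃ Fin r3 ⊕ Fin r2) (σ3 : ι3 ≃ ι4 ⊕ Fin r3),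
      ((d1 * kdE K c1).submatrix id σ0).det ≠ 0 ∧
      ((fromCols (d2 * kdE K c2) (kdE K c1)).submatrix id σ1).det ≠ 0 ∧
      ((fromCols (d3 * kdE K c3) (kdE K c2)).submatrix id σ2).det ≠ 0 ∧
      ((fromCols X (kdE K c3)).submatrix id σ3).det ≠ 0 := by
  obtain ⟨r3, c3, σ3, a3, i3, s3⟩ := kdet_complete d3 X hX z3 e3
  obtain ⟨r2, c2, σ2, a2, i2, s2⟩ := kdet_complete d2 _ i3
    (by rw [← Matrix.mul_assoc, z2, Matrix.zero_mul]) fun v hv => by
      obtain ⟨w, rfl⟩ := e2 v hv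
      exact s3 w
  obtain ⟨r1, c1, σ1, a1, i1, s1⟩ := kdet_complete d1 _ i2
    (by rw [← Matrix.mul_assoc, z1, Matrix.zero_mul]) fun v hv => by
      obtain ⟨w, rfl⟩ := e1 v hv
      exact s2 w
  have inj : Function.Injective (d1 * kdE K c1).mulVecLin := by
    rw [injective_iff_map_eq_zero]
    exact i1
  have sur : Function.Surjective (d1 * kdE K c1).mulVecLin := fun v => by
    obtain ⟨w, rfl⟩ := e0 v
    exact s1 w
  have hc := (LinearEquiv.ofBijective _ ⟨inj, sur⟩).finrank_eq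
  rw [finrank_fintype_fun_eq_card, finrank_fintype_fun_eq_card] at hc
  let σ := Fintype.equivOfCardEq hc.symm
  refine ⟨r1, r2, r3, c1, c2, c3, σ, σ1, σ2, σ3, fun h => ?_, a1, a2, a3⟩
  obtain ⟨v, h3, h4⟩ := exists_mulVec_eq_zero_iff.2 h
  rw [submatrix_mulVec_equiv] at h4
  have h5 : v ∘ σ.symm = 0 := i1 _ h4
  exact h3 (funext fun i => by simpa using congrFun h5 (σ i))

end four

end Pool.Agent.Lib.MP_62d77c_ag.R
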