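import Pool.Agent.Lib.MP_62d77c_ag.R.Base

/-! Finite covers of fibral subvarieties, fractional families, prime divisors. -/

set_option autoImplicit false
set_option linter.unusedSectionVars false
set_option linter.style.haveILetI false

namespace Pool.Agent.Lib.MP_62d77c_ag.R

open Filter Polynomial Submodule

noncomputable section

/-! ### divisors of a field -/

section field
variable {L : Type} [Field L]

/-- a uniformizer of `O` (when the value group is infinite cyclic) -/
def unif (O : ValuationSubring L) : L := Classical.epsilon fun π => π ≠ 0 ∧ O.valuation π < 1 ∧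
  ∀ z : L, z ≠ 0 → ∃ n : ℤ, O.valuation z = O.valuation π ^ n

/-- order of vanishing -/
def ord (O : ValuationSubring L) (z : L) : ℤ :=
  Classical.epsilon fun n : ℤ => O.valuation z = O.valuation (unif O) ^ n

/-- the value group of `O` is infinite cyclic -/
def Disc (O : ValuationSubring L) : Prop := ∃ π : L, π ≠ 0 ∧ O.valuation π < 1 ∧
  ∀ z : L, z ≠ 0 → ∃ n : ℤ, O.valuation z = O.valuation π ^ n

variable (L) in
/-- divisors -/
abbrev Dvs : Type := ValuationSubring L →₀ ℤ

/-- `O` contains `R` and has centre `𝔮` -/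
def Ctr (R : Subring L) (O : ValuationSubring L) (𝔮 : Ideal R) : Prop :=
  ∀ r : R, (r : L) ∈ O ∧ (r ∈ 𝔮 ↔ O.valuation r < 1)

/-- valuation rings with a centre of height one -/
def Ht1 (R : Subring L) : Set (ValuationSubring L) :=
  {O | ∃ 𝔮 : Ideal R, 𝔮.IsPrime ∧ 𝔮.height = 1 ∧ Ctr R O 𝔮}

/-- the divisorial module `O(D)` -/
def Dv (R : Subring L) (D : Dvs L) : Submodule R L where
  carrier := {z | ∀ O ∈ Ht1 R, z * unif O ^ D O ∈ O}
  zero_mem' := fun O _ => by simp [zero_mem]
  add_mem' := fun {a b} ha hb O hO => by rw [add_mul]; exact add_mem (ha O hO) (hb O hO)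
  smul_mem' := fun r z hz O hO => by
    have h1 := hz O hO
    obtain ⟨𝔮, -, -, h⟩ := hO
    rw [Subring.smul_def, smul_eq_mul, mul_assoc]
    exact mul_mem (h r).1 h1

/-- a normal affine model of `L` of dimension `r` -/
structure NAff (p : ℕ) [Fact p.Prime] [Algebra (ZMod p) L] (R : Subring L) (r : ℕ) : Prop where
  ft : Algebra.FiniteType ℤ R
  frac : ∀ z : L, ∃ a ∈ R, ∃ b ∈ R, b ≠ 0 ∧ z = a / b
  cl : ∀ z : L, IsIntegral R z → z ∈ R
  dim : Algebra.trdeg (ZMod p) L = r

end field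

variable {A : Type} [CommRing A] [IsDomain A] {𝒜 : ℕ → AddSubgroup A} [GradedRing 𝒜]
  [hG : Fact (Gen 𝒜)] {p : ℕ} [Fact p.Prime]

variable (𝒜 p) in
/-- a finite extension of the function field of a fibral subvariety -/
structure Mo : Type 1 where
  L : Type
  [fld : Field L]
  [alg : Algebra (ZMod p) L]
  θ : A →+* L
  x : Vp 𝒜 p
  ker : ∀ n, ∀ a ∈ 𝒜 n, θ a = 0 ↔ a ∈ pr x.1
  one : θ (ell x.1) = 1
  fin : Module.Finite (Subfield.closure (Set.range θ)) L

attribute [instance] Mo.fld Mo.alg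

/-- the subvariety itself -/
def ofPt (x : Vp 𝒜 p) : Mo 𝒜 p where
  L := kap x.1
  θ := th x.1
  x := x
  ker _ _ ha := th_eq_zero x.1 ha
  one := th_ell x.1
  fin := by
    refine Module.Finite.of_surjective (Algebra.linearMap _ _) fun z => ⟨⟨z, ?_⟩, rfl⟩
    obtain ⟨n, a, -, b, -, -, rfl⟩ := th_gen x.1 z
    exact div_mem (Subfield.subset_closure ⟨a, rfl⟩) (Subfield.subset_closure ⟨b, rfl⟩)

/-- a component of the fibre -/
abbrev Xc (j : Comp 𝒜 p) : Mo 𝒜 p := ofPt j.1

namespace Mo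

variable (X : Mo 𝒜 p)

/-- the underlying model -/
def M : AM 𝒜 (ZMod p) X.L := ⟨X.θ, ZMod.ringHom_surjective _⟩

/-- linear forms -/
abbrev V : Submodule (ZMod p) X.L := X.M.V

/-- degree over the image -/
def f : ℕ := Module.finrank (Subfield.closure (Set.range X.θ)) X.L

/-- families of subspaces -/
abbrev Fa : Type := ℕ → Submodule (ZMod p) X.L

/-- a finitely generated graded family -/
structure FF (N : X.Fa) : Prop where
  st : ∀ n, X.V * N n ≤ N (n + 1)
  fd : ∀ n, (N n).FG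
  fg : Fg X.V N

/-- product of families -/
def fmul {X : Mo 𝒜 p} (N N' : X.Fa) : X.Fa :=
  fun n => span (ZMod p) {z | ∃ i j, i + j = n ∧ ∃ u ∈ N i, ∃ v ∈ N' j, z = u * v}

/-- stalk of a family -/
def stk (N : X.Fa) (y : Pt 𝒜) : Set X.L :=
  {z | ∃ n, ∃ s ∈ 𝒜 n, s ∉ pr y ∧ X.θ s * z ∈ N n}

/-- the homomorphism to the cone -/
def cone : A →+* X.L[X] :=
  (DirectSum.toSemiring (fun n => (monomial n).toAddMonoidHom.comp
      (X.θ.toAddMonoidHom.comp (𝒜 n).subtype))
    (by simp) (by intro i j a b; simp [monomial_mul_monomial])).comp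
    (DirectSum.decomposeRingEquiv 𝒜).toRingHom

theorem cone_hom {n : ℕ} {a : A} (ha : a ∈ 𝒜 n) : X.cone a = monomial n (X.θ a) := by
  have : DirectSum.decomposeRingEquiv 𝒜 a = DirectSum.of (fun n => 𝒜 n) n ⟨a, ha⟩ :=
    DirectSum.decompose_of_mem 𝒜 ha
  simp [cone, this]

/-- polynomials as an `A`-module -/
def Cn : Type := X.L[X]

instance : CommRing X.Cn := inferInstanceAs (CommRing X.L[X])
instance : Algebra A X.Cn := RingHom.toAlgebra (show A →+* X.Cn from X.cone)

/-- monomials -/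
def mon (n : ℕ) (z : X.L) : X.Cn := (monomial n z : X.L[X])

/-- coefficients -/
def co (n : ℕ) : X.Cn →+ X.L := (lcoeff X.L n).toAddMonoidHom

theorem smul_mon {i : ℕ} {a : A} (ha : a ∈ 𝒜 i) (n : ℕ) (z : X.L) :
    a • X.mon n z = X.mon (n + i) (X.θ a * z) := by
  change X.cone a * monomial n z = monomial (n + i) _
  rw [X.cone_hom ha, monomial_mul_monomial, add_comm]

theorem co_mul (i n : ℕ) (z : X.L) (F : X.L[X]) :
    coeff (monomial i z * F) n = if i ≤ n then z * coeff F (n - i) else 0 := by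
  rw [← C_mul_X_pow_eq_monomial, mul_assoc, coeff_C_mul, coeff_X_pow_mul']
  split_ifs <;> simp

theorem st_pow {N : X.Fa} (h : ∀ n, X.V * N n ≤ N (n + 1)) (i n : ℕ) :
    X.V ^ i * N n ≤ N (n + i) := by
  induction i with
  | zero => simp
  | succ i ih => rw [pow_succ', mul_assoc]; exact (mul_le_mul_right ih _).trans (h _)

/-- the module of a family -/
def gmS (N : X.Fa) (h : ∀ n, X.V * N n ≤ N (n + 1)) : Submodule A X.Cn where
  carrier := {F | ∀ n, X.co n F ∈ N n}
  zero_mem' := fun n => by simp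
  add_mem' := fun {a b} ha hb n => by rw [map_add]; exact add_mem (ha n) (hb n)
  smul_mem' := fun a F hF => by
    change ∀ n, X.co n (a • F) ∈ N n
    induction a using hom_ind (𝒜 := 𝒜) with
    | h0 => intro n; simp
    | hadd x y h1 h2 => intro n; rw [add_smul, map_add]; exact add_mem (h1 n) (h2 n)
    | h i a ha =>
      intro n
      change coeff (X.cone a * (show X.L[X] from F)) n ∈ N n
      rw [X.cone_hom ha, X.co_mul]
      split_ifs with hi
      · have := X.st_pow h i (n - i) (mul_mem_mul (X.M.th_mem_pow ha) (hF (n - i)))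
        rwa [Nat.sub_add_cancel hi] at this
      · exact zero_mem _

theorem mon_mem {N : X.Fa} {h : ∀ n, X.V * N n ≤ N (n + 1)} {n : ℕ} {z : X.L} (hz : z ∈ N n) :
    X.mon n z ∈ X.gmS N h := fun k => by
  change coeff (monomial n z) k ∈ N k
  rw [coeff_monomial]
  split_ifs with e
  · exact e ▸ hz
  · exact zero_mem _

theorem sum_mon (F : X.Cn) : ∑ n ∈ (show X.L[X] from F).support, X.mon n (X.co n F) = F :=
  (as_sum_support (show X.L[X] from F)).symm

theorem mon_add (n : ℕ) (z w : X.L) : X.mon n (z + w) = X.mon n z + X.mon n w :=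
  map_add (monomial n) z w

theorem mon_zero (n : ℕ) : X.mon n 0 = 0 := map_zero (monomial n)

theorem co_mon (n k : ℕ) (z : X.L) : X.co k (X.mon n z) = if n = k then z else 0 :=
  coeff_monomial

theorem gmS_fg {N : X.Fa} (h : X.FF N) : (X.gmS N h.st).FG := by
  classical
  obtain ⟨n₀, h0⟩ := eventually_atTop.1 h.fg
  choose s hs using h.fd
  let t : Finset X.Cn := (Finset.range (n₀ + 1)).biUnion fun n => (s n).image (X.mon n)
  have sc : ∀ (c : ZMod p) (n : ℕ) (z : X.L), X.mon n z ∈ span A (t : Set X.Cn) →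
      X.mon n (c • z) ∈ span A (t : Set X.Cn) := fun c n z hz => by
    obtain ⟨k, rfl⟩ := ZMod.intCast_surjective c
    have := X.smul_mon (md_intCast_mem (𝒜 := 𝒜) k) n z
    rw [Int.cast_smul_eq_zsmul, zsmul_eq_mul, ← map_intCast X.θ]
    exact this ▸ smul_mem _ _ hz
  have key : ∀ n, ∀ z ∈ N n, X.mon n z ∈ span A (t : Set X.Cn) := by
    intro n
    induction n using Nat.strong_induction_on with
    | _ n ih =>
      intro z hz
      rcases le_or_gt n n₀ with h1 | h1
      · rw [← hs n] at hz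
        induction hz using span_induction with
        | mem w hw => exact subset_span (Finset.mem_coe.2 (Finset.mem_biUnion.2
            ⟨n, Finset.mem_range.2 (by omega), Finset.mem_image_of_mem _ hw⟩))
        | zero => rw [X.mon_zero]; exact zero_mem _
        | add a b _ _ h2 h3 => rw [X.mon_add]; exact add_mem h2 h3
        | smul c a _ h2 => exact sc c n a h2
      · obtain ⟨k, rfl⟩ : ∃ k, n = k + 1 := ⟨n - 1, by omega⟩
        rw [(h0 k (by omega)).2] at hz
        refine Submodule.smul_induction_on hz (fun v hv w hw => ?_) fun a b h2 h3 => ?_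
        · obtain ⟨a, -, ha, rfl⟩ := X.M.mem_fam.1 hv
          exact X.smul_mon ha k w ▸ smul_mem _ _ (ih k (by omega) w hw)
        · rw [X.mon_add]; exact add_mem h2 h3
  refine ⟨t, le_antisymm (span_le.2 fun F hF => ?_) fun F hF => ?_⟩
  · obtain ⟨n, -, h1⟩ := Finset.mem_biUnion.1 (Finset.mem_coe.1 hF)
    obtain ⟨z, hz, rfl⟩ := Finset.mem_image.1 h1
    exact X.mon_mem (hs n ▸ subset_span hz)
  · rw [← X.sum_mon F]; exact sum_mem fun n _ => key n _ (hF n)

/-- a family as a graded module -/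
def gm (N : X.Fa) (h : X.FF N) : GM 𝒜 where
  M := X.gmS N h.st
  g n :=
    { carrier := {F | ∀ k : ℕ, (k : ℤ) ≠ n → X.co k F.1 = 0}
      zero_mem' := fun k _ => map_zero _
      add_mem' := fun {a b} ha hb k hk => by
        rw [Submodule.coe_add, map_add, ha k hk, hb k hk, add_zero]
      neg_mem' := fun {a} ha k hk => by rw [Submodule.coe_neg, map_neg, ha k hk, neg_zero] }
  pj n := if 0 ≤ n then
      { toFun := fun F => ⟨X.mon n.toNat (X.co n.toNat F.1), X.mon_mem (F.2 _)⟩
        map_zero' := Subtype.ext (by simp [X.mon_zero])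
        map_add' := fun a b => Subtype.ext (by simp [X.mon_add]) } else 0
  pj_mem n F k hk := by
    split_ifs with h0
    · exact (X.co_mon _ _ _).trans (if_neg (by omega))
    · exact map_zero _
  pj_same := fun {n F} hF => by
    refine Subtype.ext (Polynomial.ext fun k => ?_)
    split_ifs with h0
    · refine (X.co_mon _ _ _).trans ?_
      split_ifs with e
      · subst e; rfl
      · exact (hF k (by omega)).symm
    · exact (hF k (by omega)).symm
  pj_ne := fun {k n F} hF e => by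
    split_ifs with h0
    · refine Subtype.ext ?_
      change X.mon _ (X.co _ F.1) = 0
      rw [hF n.toNat (by omega), X.mon_zero]
    · rfl
  sum_pj F := by
    classical
    refine ⟨(show X.L[X] from F.1).support.image (fun n : ℕ => (n : ℤ)), Subtype.ext ?_⟩
    rw [Finset.sum_image (fun x _ y _ h => Nat.cast_injective (R := ℤ) h),
      AddSubmonoidClass.coe_finsetSum]
    simpa using X.sum_mon F.1
  smul := fun {i n a F} ha hF k hk => by
    rcases Az_cases ha with rfl | ⟨l, rfl, h1⟩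
    · simp
    change coeff (X.cone a * (show X.L[X] from F.1)) k = 0
    rw [X.cone_hom h1, X.co_mul]
    split_ifs with hi
    · exact (congrArg _ (hF (k - l) (by omega))).trans (mul_zero _)
    · rfl
  fin := Module.Finite.iff_fg.2 (X.gmS_fg h)

/-- `O` has centre `y` -/
def Cen (O : ValuationSubring X.L) (y : Pt 𝒜) : Prop :=
  pr X.x.1 ≤ pr y ∧ ∀ n, ∀ a ∈ 𝒜 n, X.θ a / X.θ (ell y) ^ n ∈ O ∧
    (O.valuation (X.θ a / X.θ (ell y) ^ n) < 1 ↔ a ∈ pr y)

/-- the prime divisors of the normalisation -/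
def PD : Set (ValuationSubring X.L) := {O | ∃ y : Vp 𝒜 p, X.Cen O y.1 ∧ dm y + 1 = dm X.x}

open Classical in
/-- the centre -/
def cen (O : ValuationSubring X.L) : Vp 𝒜 p :=
  if h : ∃ y : Vp 𝒜 p, X.Cen O y.1 then h.choose else X.x

/-- the section `z` of `O(D)(n)` in a trivialisation at `O` -/
def nm (O : ValuationSubring X.L) (D : Dvs X.L) (n : ℕ) (z : X.L) : X.L :=
  z * unif O ^ D O / X.θ (ell (X.cen O).1) ^ n

/-- sections of `O(D)(n)` on the normalisation -/
def MD (D : Dvs X.L) (n : ℕ) : Submodule (ZMod p) X.L where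
  carrier := {z | ∀ O ∈ X.PD, X.nm O D n z ∈ O}
  zero_mem' := fun O _ => by simp [nm, zero_mem]
  add_mem' := fun {a b} ha hb O hO => by
    rw [nm, add_mul, add_div]; exact add_mem (ha O hO) (hb O hO)
  smul_mem' := fun c z hz O hO => by
    obtain ⟨k, rfl⟩ := ZMod.intCast_surjective c
    rw [nm, Int.cast_smul_eq_zsmul, zsmul_eq_mul, mul_assoc, mul_div_assoc]
    exact mul_mem (intCast_mem O k) (hz O hO)

/-- the normalisation of the chart `l ≠ 0` -/
def ch (l : A) : Subring X.L := (integralClosure (X.M.fr (Submonoid.powers l)) X.L).toSubring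

/-- the normalisation of the local ring at `y` -/
def nl (y : Pt 𝒜) : Subring X.L := (integralClosure (X.M.orng y) X.L).toSubring

/-- `D` is principal at all points over `y` -/
def CartAt (D : Dvs X.L) (y : Pt 𝒜) : Prop := (1 : X.L) ∈ X.stk (fmul (X.MD D) (X.MD (-D))) y

/-- `D` is Cartier -/
def Cart (D : Dvs X.L) : Prop := ∀ y : Pt 𝒜, X.CartAt D y

/-- the form `a` lies in all trace ideals away from closed points -/
def Tr (a : A) (e : ℕ) : Prop := a ∈ 𝒜 e ∧ ∀ (D : Dvs X.L) (y : Vp 𝒜 p), 1 ≤ dm y →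
  X.θ a / X.θ (ell y.1) ^ e ∈ X.stk (fmul (X.MD D) (X.MD (-D))) y.1

end Mo

/-- restriction from `X` to a cover `Y` of a prime divisor -/
structure Sp (X Y : Mo 𝒜 p) where
  O : ValuationSubring X.L
  mem : O ∈ X.PD
  cen : X.cen O = Y.x
  ρ : O →+* Y.L
  ker : ∀ z : O, ρ z = 0 ↔ O.valuation z < 1
  th : ∀ n, ∀ a ∈ 𝒜 n, ∀ h, ρ ⟨X.θ a / X.θ (ell Y.x.1) ^ n, h⟩ = Y.θ a

namespace Sp

variable {X Y : Mo 𝒜 p} (S : Sp X Y)

open Classical in
/-- value of a section of `O(D)(n)` -/
def ev (D : Dvs X.L) (n : ℕ) (z : X.L) : Y.L :=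
  if h : X.nm S.O D n z ∈ S.O then S.ρ ⟨_, h⟩ else 0

/-- image of `O(D)` -/
def bar (D : Dvs X.L) : Y.Fa := fun n => span (ZMod p) (S.ev D n '' X.MD D n)

end Sp

/-- a common cover of two prime divisors with the same centre -/
structure Pair (X X' : Mo 𝒜 p) : Type 1 where
  Y : Mo 𝒜 p
  S : Sp X Y
  S' : Sp X' Y
  gen : Subfield.closure (Set.range S.ρ ∪ Set.range S'.ρ) = ⊤

/-- the homogeneous coordinate ring of a pair -/
def Pair.OT {X X' : Mo 𝒜 p} (P : Pair X X') : P.Y.Fa := Mo.fmul (P.S.bar 0) (P.S'.bar 0)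

/-- isomorphic pairs -/
def Pair.Iso {X X' : Mo 𝒜 p} (P P' : Pair X X') : Prop :=
  P.S.O = P'.S.O ∧ P.S'.O = P'.S'.O ∧ ∃ σ : P.Y.L ≃+* P'.Y.L,
    (∀ D n z, σ (P.S.ev D n z) = P'.S.ev D n z) ∧ ∀ D n z, σ (P.S'.ev D n z) = P'.S'.ev D n z

/-- the pair is not contained in the diagonal -/
def Off {j k : Comp 𝒜 p} (P : Pair (Xc j) (Xc k)) : Prop :=
  ∃ (z : ∀ i : Comp 𝒜 p, (Xc i).L) (n : ℕ), (∀ i, z i ∈ (Xc i).MD 0 n) ∧
    P.S.ev 0 n (z j) ≠ P.S'.ev 0 n (z k)

/-- the restrictions of `O(D)` and `O(D')` to the pair have isomorphic powers -/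
def Pair.Tors {X X' : Mo 𝒜 p} (P : Pair X X') (D : Dvs X.L) (D' : Dvs X'.L) : Prop :=
  ∃ N : ℕ, 0 < N ∧ ∃ f : P.Y.L, f ≠ 0 ∧ ∀ᶠ n in atTop,
    Mo.fmul (P.S'.bar (N • D')) P.OT n = span (ZMod p) {f} * Mo.fmul (P.S.bar (N • D)) P.OT n

/-- coefficient of `t` in the Hilbert polynomial -/
def a1 {k E : Type} [Field k] [AddCommGroup E] [Module k E] (N : ℕ → Submodule k E) : ℚ :=
  (hp N).coeff 1

end

end Pool.Agent.Lib.MP_62d77c_ag.R
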