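import Pool.Agent.Lib.MP_62d77c_ag.R.S1
import Pool.Agent.Lib.MP_62d77c_ag.R.Df

/-! The normalised degree of rank one modules on a surface is additive on products, up to a
bounded error. -/

set_option autoImplicit false

namespace Pool.Agent.Lib.MP_62d77c_ag.R

open Filter Polynomial Submodule

noncomputable section

variable {k K : Type} [Field k] [Field K] [Algebra k K] {V : Submodule k K}
  {N N' M P R R₁ R₂ R₃ N₁ N₂ : ℕ → Submodule k K}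

theorem n1p_kill {W A B A' B' : Submodule k K} (hB : B.FG) (hB' : B'.FG) (hW : W.FG) (h : A ≤ B)
    (h' : A' ≤ B') (m : W * A ≤ A') (m' : W * B ≤ B') {d d' : ℕ}
    (e : Module.finrank k A + d = Module.finrank k B)
    (e' : Module.finrank k A' + d' = Module.finrank k B') (lt : d * d' < Module.finrank k W) :
    ∃ u ∈ W, u ≠ 0 ∧ ∀ x ∈ B, u * x ∈ A' := by
  have := Module.Finite.iff_fg.2 hB
  have := Module.Finite.iff_fg.2 hB'
  have := Module.Finite.iff_fg.2 hW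
  obtain ⟨C, hC⟩ := Submodule.exists_isCompl (A.comap B.subtype)
  obtain ⟨r, hr⟩ := B'.subtype.exists_leftInverse_of_injective B'.ker_subtype
  have d1 : Module.finrank k C = d := by
    have a := Submodule.finrank_add_eq_of_isCompl hC
    rw [(Submodule.comapSubtypeEquivOfLe h).finrank_eq] at a
    omega
  have d2 : Module.finrank k (B' ⧸ A'.comap B'.subtype) = d' := by
    have a := Submodule.finrank_quotient_add_finrank (A'.comap B'.subtype)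
    rw [(Submodule.comapSubtypeEquivOfLe h').finrank_eq] at a
    omega
  have : Module.Free k C := Module.Free.of_divisionRing k C
  let T : W →ₗ[k] C →ₗ[k] B' ⧸ A'.comap B'.subtype :=
    ((LinearMap.mul k K).compl₁₂ W.subtype (B.subtype ∘ₗ C.subtype)).compr₂
      ((A'.comap B'.subtype).mkQ ∘ₗ r)
  obtain ⟨u, hu, u0⟩ := Submodule.exists_mem_ne_zero_of_ne_bot
    (LinearMap.ker_ne_bot_of_finrank_lt (f := T) (by
      rw [Module.finrank_linearMap k k C (B' ⧸ A'.comap B'.subtype), d1, d2]; exact lt))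
  refine ⟨u, u.2, fun q => u0 (Subtype.ext q), fun x hx => ?_⟩
  obtain ⟨a, ha, c, hc, s⟩ := mem_sup.1
    (hC.sup_eq_top ▸ Submodule.mem_top : (⟨x, hx⟩ : B) ∈ A.comap B.subtype ⊔ C)
  have s' : (a : K) + c = x := congrArg Subtype.val s
  rw [← s', mul_add]
  refine add_mem (m (mul_mem_mul u.2 ha)) ?_
  have z : T u ⟨c, hc⟩ = 0 := by rw [LinearMap.mem_ker.1 hu]; rfl
  have z1 : r ((u : K) * c) = ⟨_, m' (mul_mem_mul u.2 c.2)⟩ :=
    LinearMap.congr_fun hr ⟨_, m' (mul_mem_mul u.2 c.2)⟩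
  have z2 : (A'.comap B'.subtype).mkQ (r ((u : K) * c)) = 0 := z
  rw [z1] at z2
  exact (Submodule.Quotient.mk_eq_zero (A'.comap B'.subtype)).1 z2

theorem hp_add (hV : Mdl V) (hN : Fg V N) (a : ℕ) (t : ℚ) :
    (hp fun n => N (n + a)).eval t = (hp N).eval (t + a) := by
  rw [hp_unique (hp_shift hV hN a), eval_comp]
  simp

theorem RM.add (h : RM R N) (a : ℕ) : RM R fun n => N (n + a) := fun m => by
  filter_upwards [(tendsto_add_atTop_nat a).eventually (h m)] with n hn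
  rwa [add_right_comm] at hn

theorem n1p_rank (hV : Mdl V) (hN : Fg V N) (hM : Fg V M) {u : K} (u0 : u ≠ 0) {a b : ℕ}
    (h : ∀ᶠ n in atTop, span k {u} * N (n + a) ≤ M (n + b)) :
    ∀ᶠ n : ℕ in atTop, (hp N).eval ((n : ℚ) + a) ≤ (hp M).eval ((n : ℚ) + b) := by
  filter_upwards [h, hp_spec hV.1 (hN.add a), hp_spec hV.1 (hM.add b), hM.add b] with n a1 a2 a3 a4
  rw [← hp_add hV hN, ← hp_add hV hM, a2, a3, Nat.cast_le]
  exact hilb_le a4.1 u0 fun x hx => a1 (mul_mem_mul (mem_span_singleton_self u) hx)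

/-- a rank one module on a curve is at bounded distance from a twist of the ring -/
theorem n1p_level (hV : Mdl V) (hR : Fg V R) (hRR : RM R R) {ρ χ : ℚ} (hρ : 0 < ρ)
    (e : ∀ t, (hp R).eval t = ρ * t + χ) :
    ∃ j : ℕ, ∀ N, Fg V N → RM R N → ∀ x : ℚ, (∀ t, (hp N).eval t = ρ * t + x) →
      ∃ (a b : ℕ) (s u : K), s ≠ 0 ∧ u ≠ 0 ∧ 0 < x + ρ * (a - b) ∧ x + ρ * (a - b) ≤ ρ ∧
        (∀ᶠ n in atTop, span k {s} * R (n + b) ≤ N (n + a)) ∧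
        ∀ᶠ n in atTop, span k {u} * N (n + a) ≤ R (n + (b + j)) := by
  obtain ⟨j₀, hj₀⟩ := exists_nat_gt (((ρ - χ) ^ 2 - χ) / ρ)
  obtain ⟨j, j1, j2, j3⟩ := ((hp_spec hV.1 hR).and (hR.and (eventually_ge_atTop j₀))).exists
  have big : (ρ - χ) ^ 2 < (Module.finrank k (R j) : ℚ) := by
    rw [div_lt_iff₀ hρ] at hj₀
    have : (j₀ : ℚ) ≤ j := by exact_mod_cast j3
    rw [← j1, e]
    nlinarith
  refine ⟨j, fun N hN hm x eN => ?_⟩
  obtain ⟨a, b, hab⟩ : ∃ a b : ℕ, (a : ℤ) - b = ⌊-x / ρ⌋ + 1 :=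
    ⟨(⌊-x / ρ⌋ + 1).toNat, (-(⌊-x / ρ⌋ + 1)).toNat, Int.toNat_sub_toNat_neg _⟩
  have hab' : (a : ℚ) - b = (⌊-x / ρ⌋ : ℚ) + 1 := by exact_mod_cast hab
  have l1 : 0 < x + ρ * (a - b) := by
    have := Int.lt_floor_add_one (-x / ρ)
    rw [div_lt_iff₀ hρ] at this
    rw [hab']
    linarith
  have l2 : x + ρ * (a - b) ≤ ρ := by
    have := Int.floor_le (-x / ρ)
    rw [le_div_iff₀ hρ] at this
    rw [hab']
    linarith
  have f0 := (hN.add a).sub b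
  have m0 := (hm.add a).sub b
  have e0 : ∀ t, (hp fun n => N (n - b + a)).eval t = ρ * t + (x + ρ * (a - b)) := fun t => by
    rw [hp_sub hV (hN.add a) b t, hp_add hV hN, eN]
    ring
  have back : ∀ n, (fun n => N (n - b + a)) (n + b) = N (n + a) := fun n => by
    show N (n + b - b + a) = _
    rw [Nat.add_sub_cancel]
  generalize (fun n => N (n - b + a)) = M at f0 m0 e0 back
  have pos := chi_le_hh hV f0 e0 0
  have ne : Gam V M 0 ≠ ⊥ := fun q => by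
    rw [hh, q, finrank_bot] at pos
    push_cast at pos
    linarith
  obtain ⟨s, hs, s0⟩ := Submodule.exists_mem_ne_zero_of_ne_bot ne
  have le := m0.sec hR hs
  have fs := sa_fg_span hR s
  have cnt : ∀ᶠ n in atTop, ∃ d : ℕ, (d : ℚ) = x + ρ * (a - b) - χ ∧
      Module.finrank k ↥(span k {s} * R n) + d = Module.finrank k (M n) := by
    filter_upwards [le, f0, hp_spec hV.1 f0, hp_spec hV.1 fs] with n a1 a2 a3 a4
    have := Module.Finite.iff_fg.2 a2.1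
    obtain ⟨d, hd⟩ := Nat.exists_eq_add_of_le (Submodule.finrank_mono a1)
    refine ⟨d, ?_, hd.symm⟩
    rw [sa_hp_span s0, e] at a4
    rw [e0, hd, Nat.cast_add, ← a4] at a3
    linarith
  obtain ⟨n₀, ⟨d, d1, d2⟩, ⟨d', d1', d2'⟩, b1, b2, b3, b4, b5, b6, b7, b8⟩ :=
    (cnt.and (((tendsto_add_atTop_nat j).eventually cnt).and (le.and
      (((tendsto_add_atTop_nat j).eventually le).and (f0.and ((f0.add j).and ((hRR j).and
        ((m0 j).and (f0.pow_smul.and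
          ((tendsto_add_atTop_nat j).eventually hR.fam.pow_smul)))))))))).exists
  obtain ⟨u, -, u0, hu⟩ := n1p_kill b3.1 b4.1 j2.1 b1 b2
    (by rw [mul_left_comm]; exact mul_le_mul_right b5 _) b6 d2 d2' (by
      have a1 : (0 : ℚ) ≤ d := Nat.cast_nonneg d
      have : ((d * d' : ℕ) : ℚ) < (Module.finrank k (R j) : ℚ) := by
        push_cast
        rw [d1', ← d1]
        nlinarith
      exact_mod_cast this)
  refine ⟨a, b, s, s⁻¹ * u, s0, mul_ne_zero (inv_ne_zero s0) u0, l1, l2, ?_, ?_⟩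
  · filter_upwards [(tendsto_add_atTop_nat b).eventually le] with n hn
    rwa [back] at hn
  · filter_upwards [eventually_ge_atTop n₀] with n hn
    obtain ⟨i, hi⟩ : ∃ i, n + b = n₀ + i := ⟨n + b - n₀, by omega⟩
    rw [← back, hi, b7 i, smul_eq_mul, mul_left_comm, ← add_assoc, hi, add_right_comm]
    refine le_trans (mul_le_mul_right ?_ _) (b8 i)
    refine Submodule.mul_le.2 fun y hy z hz => ?_
    obtain ⟨c, rfl⟩ := mem_span_singleton.1 hy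
    obtain ⟨w, hw, ew⟩ := mem_span_singleton_mul.1 (hu z hz)
    rw [smul_mul_assoc, mul_assoc, ← ew, inv_mul_cancel_left₀ s0]
    exact smul_mem _ _ hw

/-- `P` contains the products -/
def PL (N N' P : ℕ → Submodule k K) : Prop :=
  ∀ᶠ a in atTop, ∀ᶠ n in atTop, N a * N' n ≤ P (n + a)

/-- `P` is contained in the product -/
def PU (N N' P : ℕ → Submodule k K) : Prop :=
  ∀ᶠ a in atTop, ∀ᶠ n in atTop, P (n + a) ≤ N a * N' n

theorem n1p_span (s t : K) : span k {s * t} = span k {s} * span k {t} := by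
  rw [span_mul_span, Set.singleton_mul_singleton]

theorem n1p_comb {s t : K} {a b a' b' : ℕ} (u : PU R₁ R₂ R₃) (l : PL N₁ N₂ P)
    (h : ∀ᶠ n in atTop, span k {s} * R₁ (n + b) ≤ N₁ (n + a))
    (h' : ∀ᶠ n in atTop, span k {t} * R₂ (n + b') ≤ N₂ (n + a')) :
    ∀ᶠ n in atTop, span k {s * t} * R₃ (n + (b + b')) ≤ P (n + (a + a')) := by
  obtain ⟨m, c1, c2, c3⟩ := (h.and (((tendsto_add_atTop_nat b).eventually u).and
    ((tendsto_add_atTop_nat a).eventually l))).exists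
  obtain ⟨n₀, hn⟩ := eventually_atTop.1 (h'.and (((tendsto_add_atTop_nat b').eventually c2).and
    ((tendsto_add_atTop_nat a').eventually c3)))
  filter_upwards [eventually_ge_atTop (n₀ + m)] with n hn'
  obtain ⟨i, rfl⟩ : ∃ i, n = i + m := ⟨n - m, by omega⟩
  obtain ⟨d1, d2, d3⟩ := hn i (by omega)
  rw [show i + m + (b + b') = i + b' + (m + b) by ring,
    show i + m + (a + a') = i + a' + (m + a) by ring, n1p_span]
  refine (mul_le_mul_right d2 _).trans (le_trans ?_ d3)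
  rw [mul_mul_mul_comm]
  exact mul_le_mul' c1 d1

theorem n1p_curve (hV : Mdl V) (f₁ : Fg V R₁) (f₂ : Fg V R₂) (f₃ : Fg V R₃) (r₁ : RM R₁ R₁)
    (r₂ : RM R₂ R₂) {ρ₁ ρ₂ ρ₃ χ₁ χ₂ χ₃ : ℚ} (p₁ : 0 < ρ₁) (p₂ : 0 < ρ₂) (p₃ : 0 < ρ₃)
    (e₁ : ∀ t, (hp R₁).eval t = ρ₁ * t + χ₁) (e₂ : ∀ t, (hp R₂).eval t = ρ₂ * t + χ₂)
    (e₃ : ∀ t, (hp R₃).eval t = ρ₃ * t + χ₃) :
    ∃ B : ℚ, ∀ N₁ N₂ P, Fg V N₁ → Fg V N₂ → Fg V P → RM R₁ N₁ → RM R₂ N₂ → ∀ x₁ x₂ x₃ : ℚ,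
      (∀ t, (hp N₁).eval t = ρ₁ * t + x₁) → (∀ t, (hp N₂).eval t = ρ₂ * t + x₂) →
      (∀ t, (hp P).eval t = ρ₃ * t + x₃) →
      (PU R₁ R₂ R₃ → PL N₁ N₂ P → x₁ / ρ₁ + x₂ / ρ₂ ≤ x₃ / ρ₃ + B) ∧
      (PL R₁ R₂ R₃ → PU N₁ N₂ P → x₃ / ρ₃ ≤ x₁ / ρ₁ + x₂ / ρ₂ + B) := by
  obtain ⟨j₁, h₁⟩ := n1p_level hV f₁ r₁ p₁ e₁
  obtain ⟨j₂, h₂⟩ := n1p_level hV f₂ r₂ p₂ e₂
  refine ⟨|χ₃ / ρ₃| + 2 + j₁ + j₂, fun N₁ N₂ P g₁ g₂ g₃ m₁ m₂ x₁ x₂ x₃ c₁ c₂ c₃ => ?_⟩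
  obtain ⟨a, b, s, u, s0, u0, l1, l2, l3, l4⟩ := h₁ N₁ g₁ m₁ x₁ c₁
  obtain ⟨a', b', s', u', s0', u0', l1', l2', l3', l4'⟩ := h₂ N₂ g₂ m₂ x₂ c₂
  have k1 : -((a : ℚ) - b) < x₁ / ρ₁ := by rw [lt_div_iff₀ p₁]; linarith
  have k2 : x₁ / ρ₁ ≤ 1 - ((a : ℚ) - b) := by rw [div_le_iff₀ p₁]; linarith
  have k1' : -((a' : ℚ) - b') < x₂ / ρ₂ := by rw [lt_div_iff₀ p₂]; linarith
  have k2' : x₂ / ρ₂ ≤ 1 - ((a' : ℚ) - b') := by rw [div_le_iff₀ p₂]; linarith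
  have k3 := le_abs_self (χ₃ / ρ₃)
  have k4 := neg_abs_le (χ₃ / ρ₃)
  have k5 : (0 : ℚ) ≤ j₁ := Nat.cast_nonneg _
  have k6 : (0 : ℚ) ≤ j₂ := Nat.cast_nonneg _
  refine ⟨fun pu pl => ?_, fun pl pu => ?_⟩
  · obtain ⟨n, hn⟩ := (n1p_rank hV f₃ g₃ (mul_ne_zero s0 s0') (n1p_comb pu pl l3 l3')).exists
    rw [e₃, c₃] at hn
    push_cast at hn
    have : χ₃ / ρ₃ - (a - b) - (a' - b') ≤ x₃ / ρ₃ := by
      rw [le_div_iff₀ p₃, sub_mul, sub_mul, div_mul_cancel₀ _ p₃.ne']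
      linarith
    linarith
  · obtain ⟨n, hn⟩ := (n1p_rank hV g₃ f₃ (mul_ne_zero u0 u0') (n1p_comb pu pl l4 l4')).exists
    rw [e₃, c₃] at hn
    push_cast at hn
    have : x₃ / ρ₃ ≤ χ₃ / ρ₃ + (j₁ + j₂ - (a - b) - (a' - b')) := by
      rw [div_le_iff₀ p₃, add_mul, div_mul_cancel₀ _ p₃.ne']
      linarith
    linarith

section mem
variable {k' K' : Type} [Field k'] [Field K'] [Algebra k' K'] {S : Spec k K k' K'}

theorem IsMem.pl (h : IsMem V S) (l : PL N N' P) : PL (im S N) (im S N') (im S P) :=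
  l.mono fun a ha => ha.mono fun n hn => by
    unfold im
    rw [← Member.img_mul h.1]
    exact S.img_mono hn 1

theorem IsMem.pu (h : IsMem V S) (l : PU N N' P) : PU (im S N) (im S N') (im S P) :=
  l.mono fun a ha => ha.mono fun n hn => by
    unfold im
    rw [← Member.img_mul h.1]
    exact S.img_mono hn 1

end mem

/-- additivity of the normalised degree up to a bounded error -/
theorem slp_prod (hV : Mdl V) (f₁ : Fg V R₁) (f₂ : Fg V R₂) (f₃ : Fg V R₃) (r₁ : RM R₁ R₁)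
    (r₂ : RM R₂ R₂) (d₁ : (hp R₁).natDegree = 2) (d₂ : (hp R₂).natDegree = 2)
    (d₃ : (hp R₃).natDegree = 2) :
    ∃ B : ℚ, ∀ N₁ N₂ P, Fg V N₁ → Fg V N₂ → Fg V P → RM R₁ N₁ → RM R₂ N₂ →
      hp N₁ - hp R₁ ∈ degreeLT ℚ 2 → hp N₂ - hp R₂ ∈ degreeLT ℚ 2 → hp P - hp R₃ ∈ degreeLT ℚ 2 →
      (PU R₁ R₂ R₃ → PL N₁ N₂ P → slp N₁ + slp N₂ ≤ slp P + B) ∧
      (PL R₁ R₂ R₃ → PU N₁ N₂ P → slp P ≤ slp N₁ + slp N₂ + B) := by
  rcases exists_mem hV with h | ⟨k', K', _, _, _, S, h⟩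
  · rw [s1_alt hV f₁ (h R₁ f₁), natDegree_C] at d₁
    exact absurd d₁ (by norm_num)
  have ev : ∀ {N R : ℕ → Submodule k K}, Fg V N → (hp R).natDegree = 2 →
      hp N - hp R ∈ degreeLT ℚ 2 → (hp N).coeff 2 = (hp R).coeff 2 ∧ ∀ t,
        (hp (im S N)).eval t = 2 * (hp R).coeff 2 * t + ((hp N).coeff 1 - (hp R).coeff 2) :=
    fun {N R} f d c => by
      obtain ⟨a, b⟩ := s1_mem d c
      refine ⟨b, fun t => ?_⟩
      rw [h.hp_eval hV f, s1_eval3 a, s1_eval3 a, b]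
      ring
  have p₁ : 0 < (hp R₁).coeff 2 := s1_pos hV f₁ d₁
  have p₂ : 0 < (hp R₂).coeff 2 := s1_pos hV f₂ d₂
  have p₃ : 0 < (hp R₃).coeff 2 := s1_pos hV f₃ d₃
  obtain ⟨B, hB⟩ := n1p_curve (h.mdl hV) (h.fg f₁) (h.fg f₂) (h.fg f₃) (h.rm r₁) (h.rm r₂)
    (by linarith) (by linarith) (by linarith) (ev f₁ d₁ (by simp)).2 (ev f₂ d₂ (by simp)).2
    (ev f₃ d₃ (by simp)).2
  refine ⟨2 * B + 1, fun N₁ N₂ P g₁ g₂ g₃ m₁ m₂ c₁ c₂ c₃ => ?_⟩
  obtain ⟨b1, b2⟩ := hB _ _ _ (h.fg g₁) (h.fg g₂) (h.fg g₃) (h.rm m₁) (h.rm m₂) _ _ _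
    (ev g₁ d₁ c₁).2 (ev g₂ d₂ c₂).2 (ev g₃ d₃ c₃).2
  have cv : ∀ {x α : ℚ}, 0 < α → (x - α) / (2 * α) = x / α / 2 - 1 / 2 := fun {x α} q => by
    field_simp
  rw [cv p₁, cv p₂, cv p₃] at b1 b2
  unfold slp a1 a2
  rw [(ev g₁ d₁ c₁).1, (ev g₂ d₂ c₂).1, (ev g₃ d₃ c₃).1]
  refine ⟨fun pu pl => ?_, fun pl pu => ?_⟩
  · linarith [b1 (h.pu pu) (h.pl pl)]
  · linarith [b2 (h.pl pl) (h.pu pu)]

end

end Pool.Agent.Lib.MP_62d77c_ag.R
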