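import Pool.Agent.Lib.MP_62d77c_ag.R.Ann

/-! Noether normalisation with prescribed differentials, and averaging over an unramified map. -/

set_option autoImplicit false

namespace Pool.Agent.Lib.MP_62d77c_ag.R

open TensorProduct MvPolynomial

section finite
variable {F B σ : Type} [CommRing F] [CommRing B] [Algebra F B] [Fintype σ]

/-- polynomials of degree at most `n` in `t` -/
def n2P (F : Type) [CommRing F] [Algebra F B] (t : σ → B) (n : ℕ) : Submodule F B :=
  Submodule.span F {x | ∃ α : σ → ℕ, ∑ i, α i ≤ n ∧ x = ∏ i, t i ^ α i}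

theorem n2P_mono (t : σ → B) {m n : ℕ} (h : m ≤ n) : n2P F t m ≤ n2P F t n :=
  Submodule.span_mono fun _ ⟨α, h1, h2⟩ => ⟨α, h1.trans h, h2⟩

theorem n2P_mul (t : σ → B) (m n : ℕ) : n2P F t m * n2P F t n ≤ n2P F t (m + n) := by
  rw [n2P, n2P, Submodule.span_mul_span]
  refine Submodule.span_mono ?_
  rintro _ ⟨_, ⟨α, h1, rfl⟩, _, ⟨β, h2, rfl⟩, rfl⟩
  refine ⟨α + β, ?_, ?_⟩
  · simp only [Pi.add_apply, Finset.sum_add_distrib]; omega
  · simp only [Pi.add_apply, pow_add, Finset.prod_mul_distrib]

theorem n2P_fg (t : σ → B) (n : ℕ) : (n2P F t n).FG := by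
  classical
  refine Submodule.fg_span (Set.Finite.subset
    ((Set.finite_Iic (fun _ : σ => n)).image fun α => ∏ i, t i ^ α i) ?_)
  rintro _ ⟨α, h, rfl⟩
  exact ⟨α, fun i => (Finset.single_le_sum (fun _ _ => Nat.zero_le _) (Finset.mem_univ i)).trans h,
    rfl⟩

theorem n2P_aeval (t : σ → B) (f : MvPolynomial σ F) : ∃ n, aeval t f ∈ n2P F t n := by
  classical
  induction f using MvPolynomial.induction_on with
  | C c =>
    refine ⟨0, ?_⟩
    rw [aeval_C, Algebra.algebraMap_eq_smul_one]
    exact Submodule.smul_mem _ _ (Submodule.subset_span ⟨0, by simp, by simp⟩)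
  | add f g hf hg =>
    obtain ⟨m, hm⟩ := hf
    obtain ⟨n, hn⟩ := hg
    exact ⟨max m n, map_add (aeval t) f g ▸ add_mem (n2P_mono t (le_max_left _ _) hm)
      (n2P_mono t (le_max_right _ _) hn)⟩
  | mul_X f i hf =>
    obtain ⟨m, hm⟩ := hf
    refine ⟨m + 1, ?_⟩
    rw [map_mul, aeval_X]
    refine n2P_mul t m 1 (Submodule.mul_mem_mul hm (Submodule.subset_span ⟨Pi.single i 1, ?_, ?_⟩))
    · simp
    · rw [Finset.prod_eq_single i (fun j _ hj => by simp [hj]) (by simp)]
      simp

/-- a ring finite over `F[t]` is finite over `F[a + t ^ q]` for all large `q` -/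
theorem n2_finite (t a : σ → B) (h : (aeval (R := F) t).toRingHom.Finite) :
    ∃ c : ℕ, ∀ q, c < q → (aeval (R := F) fun i => a i + t i ^ q).toRingHom.Finite := by
  classical
  obtain ⟨W, hW, hall⟩ : ∃ W : Submodule F B, W.FG ∧ ∀ x, ∃ n, x ∈ n2P F t n * W := by
    let _ := (aeval (R := F) t).toRingHom.toAlgebra
    obtain ⟨s, hs⟩ := (show Module.Finite (MvPolynomial σ F) B from h).fg_top
    refine ⟨Submodule.span F s, ⟨s, rfl⟩, fun x => ?_⟩
    have hx : x ∈ Submodule.span (MvPolynomial σ F) (s : Set B) := hs ▸ Submodule.mem_top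
    induction hx using Submodule.span_induction with
    | mem x hx =>
      refine ⟨0, ?_⟩
      have : (1 : B) ∈ n2P F t 0 := Submodule.subset_span ⟨0, by simp, by simp⟩
      simpa using Submodule.mul_mem_mul this (Submodule.subset_span hx)
    | zero => exact ⟨0, zero_mem _⟩
    | add x y _ _ hx hy =>
      obtain ⟨m, hm⟩ := hx
      obtain ⟨n, hn⟩ := hy
      exact ⟨max m n, add_mem (mul_le_mul_left (n2P_mono t (le_max_left _ _)) _ hm)
        (mul_le_mul_left (n2P_mono t (le_max_right _ _)) _ hn)⟩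
    | smul f x _ hx =>
      obtain ⟨m, hm⟩ := hx
      obtain ⟨n, hn⟩ := n2P_aeval t f
      refine ⟨n + m, mul_le_mul_left (n2P_mul t n m) _ ?_⟩
      rw [mul_assoc]
      exact Submodule.mul_mem_mul hn hm
  have hfg : ∀ U : Submodule F B, U.FG → ∃ c, U ≤ n2P F t c * W := by
    rintro _ ⟨s, rfl⟩
    choose n hn using hall
    refine ⟨s.sup n, Submodule.span_le.2 fun x hx => ?_⟩
    exact mul_le_mul_left (n2P_mono t (Finset.le_sup hx)) _ (hn x)
  obtain ⟨c, hc⟩ := hfg (Submodule.span F (Set.range a) * W)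
    ((Submodule.fg_span (Set.finite_range a)).mul hW)
  refine ⟨c, fun q hq => ?_⟩
  let _ := (aeval (R := F) fun i => a i + t i ^ q).toRingHom.toAlgebra
  have : IsScalarTower F (MvPolynomial σ F) B := IsScalarTower.of_algebraMap_eq fun x =>
    (aeval_C (fun i => a i + t i ^ q) x).symm
  obtain ⟨s, hs⟩ := (n2P_fg (F := F) t (Fintype.card σ * q)).mul hW
  let N := Submodule.span (MvPolynomial σ F) (s : Set B)
  have hN : n2P F t (Fintype.card σ * q) * W ≤ N.restrictScalars F :=
    hs ▸ Submodule.span_le.2 Submodule.subset_span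
  have key : ∀ n, n2P F t n * W ≤ N.restrictScalars F := by
    intro n
    induction n using Nat.strong_induction_on with
    | _ n ih =>
    by_cases hn : n ≤ Fintype.card σ * q
    · exact (mul_le_mul_left (n2P_mono t hn) _).trans hN
    refine Submodule.mul_le.2 fun x hx w hw => ?_
    induction hx using Submodule.span_induction with
    | zero => simp
    | add x y _ _ hx hy => rw [add_mul]; exact add_mem hx hy
    | smul r x _ hx => rw [smul_mul_assoc]; exact Submodule.smul_mem _ _ hx
    | mem x hx =>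
      obtain ⟨α, hα, rfl⟩ := hx
      by_cases h1 : ∀ i, α i ≤ q
      · refine hN (Submodule.mul_mem_mul (Submodule.subset_span ⟨α, ?_, rfl⟩) hw)
        simpa using Finset.sum_le_card_nsmul Finset.univ α q fun i _ => h1 i
      push Not at h1
      obtain ⟨i, hi⟩ := h1
      let β : σ → ℕ := α - Pi.single i q
      have hβ : α = β + Pi.single i q := by
        ext j
        by_cases hj : j = i
        · subst hj; simp [β, hi.le]
        · simp [β, hj]
      have h2 : ∑ j, β j + q ≤ n := by
        rw [hβ] at hα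
        simpa [Finset.sum_add_distrib] using hα
      have h3 : ∏ j, t j ^ α j = t i ^ q * ∏ j, t j ^ β j := by
        rw [hβ]
        simp only [Pi.add_apply, pow_add, Finset.prod_mul_distrib]
        rw [mul_comm, Finset.prod_eq_single i (fun j _ hj => by simp [hj]) (by simp)]
        simp
      have h4 : ∏ j, t j ^ β j ∈ n2P F t (∑ j, β j) := Submodule.subset_span ⟨β, le_rfl, rfl⟩
      have h5 : (∏ j, t j ^ β j) * w ∈ N := ih _ (by omega) (Submodule.mul_mem_mul h4 hw)
      have h6 : (∏ j, t j ^ β j) * (a i * w) ∈ N := by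
        refine ih (∑ j, β j + c) (by omega) (mul_le_mul_left (n2P_mul t _ c) _ ?_)
        rw [mul_assoc]
        exact Submodule.mul_mem_mul h4
          (hc (Submodule.mul_mem_mul (Submodule.subset_span ⟨i, rfl⟩) hw))
      have h7 := sub_mem (N.smul_mem (X i) h5) h6
      have h8 : algebraMap (MvPolynomial σ F) B (X i) = a i + t i ^ q :=
        aeval_X (fun i => a i + t i ^ q) i
      rw [Algebra.smul_def, h8] at h7
      rw [h3]
      change _ ∈ N
      convert h7 using 1
      ring
  refine ⟨⟨s, eq_top_iff.2 fun x _ => ?_⟩⟩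
  obtain ⟨n, hn⟩ := hall x
  exact key n hn

end finite

section sigma
variable {S B : Type} [CommRing S] [CommRing B] [Algebra S B]

/-- an element of `B ⊗ B` killing the ideal of the diagonal -/
theorem n2_sigma [Algebra.FiniteType S B] (P : Ideal B) [P.IsPrime]
    (h : ∀ δ : Derivation S B P.ResidueField, δ = 0) :
    ∃ e : B ⊗[S] B, (∀ b : B, (b ⊗ₜ[S] (1 : B)) * e = ((1 : B) ⊗ₜ[S] b) * e) ∧
      Algebra.TensorProduct.lmul' S e ∉ P := by
  have h1 : Subsingleton (P.ResidueField ⊗[B] Ω[B⁄S]) := by
    have : Subsingleton (Module.Dual P.ResidueField (P.ResidueField ⊗[B] Ω[B⁄S])) := by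
      have : Subsingleton (Derivation S B P.ResidueField) := ⟨fun a b => (h a).trans (h b).symm⟩
      have : Subsingleton (Ω[B⁄S] →ₗ[B] P.ResidueField) :=
        (KaehlerDifferential.linearMapEquivDerivation S B).toEquiv.subsingleton
      exact (AlgebraTensorModule.lift.equiv B P.ResidueField P.ResidueField P.ResidueField
        Ω[B⁄S] P.ResidueField).symm.toEquiv.subsingleton_congr.2
        (LinearMap.ringLmapEquivSelf P.ResidueField P.ResidueField _).toEquiv.subsingleton
    exact (Module.subsingleton_dual_iff _).1 this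
  have h2 : (⟨P, inferInstance⟩ : PrimeSpectrum B) ∉ Module.support B Ω[B⁄S] := by
    rw [Module.mem_support_iff_nontrivial_residueField_tensorProduct]
    exact not_nontrivial_iff_subsingleton.2 h1
  rw [Module.mem_support_iff_of_finite] at h2
  obtain ⟨a, ha, haP⟩ := SetLike.not_le_iff_exists.1 h2
  let I := KaehlerDifferential.ideal S B
  have : Module.Finite (B ⊗[S] B) I := Module.Finite.iff_fg.2 (KaehlerDifferential.ideal_fg S B)
  obtain ⟨p, hp, hd, hc, h0⟩ :=
    LinearMap.exists_monic_and_natDegree_eq_and_coeff_mem_pow_and_aeval_eq_zero (B ⊗[S] B)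
      (algebraMap _ (Module.End (B ⊗[S] B) I) (a ⊗ₜ[S] (1 : B))) I (by
        rintro _ ⟨x, rfl⟩
        have h3 := Module.mem_annihilator.1 ha (I.toCotangent x)
        have h4 : I.toCotangent ((a ⊗ₜ[S] (1 : B)) • x) = 0 := by
          have : (a ⊗ₜ[S] (1 : B)) • x = a • x := Subtype.ext (by
            simp [Algebra.smul_def])
          rw [this]
          exact (I.toCotangent.map_smul_of_tower a x).trans h3
        exact (Submodule.Quotient.mk_eq_zero _).1 h4)
  rw [Polynomial.aeval_algebraMap_apply_eq_algebraMap_eval] at h0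
  refine ⟨p.eval (a ⊗ₜ[S] (1 : B)), fun b => ?_, fun hP => haP ?_⟩
  · have := congrArg Subtype.val (LinearMap.congr_fun h0
      ⟨_, KaehlerDifferential.one_smul_sub_smul_one_mem_ideal S b⟩)
    simp only [Module.algebraMap_end_apply, Submodule.coe_smul, LinearMap.zero_apply,
      Submodule.coe_zero, smul_eq_mul] at this
    rw [mul_comm, sub_mul, sub_eq_zero] at this
    exact this.symm
  · rw [Polynomial.eval_eq_sum_range, Finset.sum_range_succ, hp.coeff_natDegree, one_mul, map_add,
      map_sum, Finset.sum_eq_zero, zero_add, map_pow, Algebra.TensorProduct.lmul'_apply_tmul,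
      mul_one] at hP
    · exact (inferInstance : P.IsPrime).mem_of_pow_mem _ hP
    · intro i hi
      have : p.coeff i ∈ I :=
        Ideal.pow_le_self (Nat.sub_ne_zero_of_lt (Finset.mem_range.1 hi)) (hc i)
      rw [map_mul, show Algebra.TensorProduct.lmul' S (p.coeff i) = 0 from this, zero_mul]

/-- `c` averages: a factorisation through a projective `S`-module gives one over `B` -/
def Avg (S : Type) [CommRing S] [Algebra S B] (c : B) : Prop :=
  ∀ (N : Type) [AddCommGroup N] [Module B N] [Module S N] [IsScalarTower S B N] (s : S),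
    Ann.Fac s N → Ann.Fac (algebraMap S B s * c) N

theorem n2_avg {e : B ⊗[S] B} (h : ∀ b : B, (b ⊗ₜ[S] (1 : B)) * e = ((1 : B) ⊗ₜ[S] b) * e) :
    Avg S (Algebra.TensorProduct.lmul' S e) := by
  intro N _ _ _ _ s ⟨P, _, _, _, α, β, hf⟩
  let act : N → B ⊗[S] B →ₗ[S] B ⊗[S] N := fun n =>
    LinearMap.lTensor B ((LinearMap.toSpanSingleton B N n).restrictScalars S)
  have h0 : ∀ n x y, act n (x ⊗ₜ y) = x ⊗ₜ (y • n) := fun n x y => rfl
  have h1 : ∀ (b : B) n x, act n ((b ⊗ₜ[S] (1 : B)) * x) = b • act n x := by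
    intro b n x
    induction x with
    | zero => simp
    | add x y hx hy => rw [mul_add, map_add, map_add, smul_add, hx, hy]
    | tmul x y => simp [h0, smul_tmul']
  have h2 : ∀ (b : B) n x, act n (((1 : B) ⊗ₜ[S] b) * x) = act (b • n) x := by
    intro b n x
    induction x with
    | zero => simp
    | add x y hx hy => rw [mul_add, map_add, map_add, hx, hy]
    | tmul x y => simp [h0, mul_smul, smul_comm b y]
  have h3 : ∀ n n' x, act (n + n') x = act n x + act n' x := by
    intro n n' x
    induction x with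
    | zero => simp
    | add x y hx hy => rw [map_add, map_add, map_add, hx, hy]; abel
    | tmul x y => simp [h0, tmul_add]
  let ι : N →ₗ[B] B ⊗[S] N :=
    { toFun := fun n => act n e
      map_add' := fun n n' => h3 n n' e
      map_smul' := fun b n => by rw [← h2, ← h, h1]; rfl }
  refine ⟨B ⊗[S] P, inferInstance, inferInstance, inferInstance, α.baseChange B ∘ₗ ι,
    β.liftBaseChange B, fun n => ?_⟩
  change β.liftBaseChange B (α.baseChange B (act n e)) = _
  generalize e = x
  induction x with
  | zero => simp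
  | add x y hx hy => simp only [map_add, hx, hy, mul_add, add_smul]
  | tmul x y =>
    rw [h0, LinearMap.baseChange_tmul, LinearMap.liftBaseChange_tmul, hf,
      Algebra.TensorProduct.lmul'_apply_tmul, mul_smul, mul_smul, algebraMap_smul, smul_comm]

end sigma

/-- two finite maps from the same polynomial ring are injective together -/
theorem n2_inj {F B σ : Type} [Field F] [CommRing B] [Algebra F B] [Fintype σ]
    {φ ψ : MvPolynomial σ F →ₐ[F] B} (h : φ.toRingHom.Finite) (hi : Function.Injective φ)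
    (h' : ψ.toRingHom.Finite) : Function.Injective ψ := by
  obtain ⟨Q, hQ, hc⟩ : ∃ Q : Ideal B, Q.IsPrime ∧ Q.comap φ.toRingHom = ⊥ := by
    let _ := φ.toRingHom.toAlgebra
    have : Module.Finite (MvPolynomial σ F) B := h
    obtain ⟨Q, -, h1, h2⟩ := Ideal.exists_ideal_over_prime_of_isIntegral
      (S := B) (⊥ : Ideal (MvPolynomial σ F)) ⊥ (fun x hx => hi (hx.trans (map_zero φ).symm))
    exact ⟨Q, h1, h2⟩
  let π := Ideal.Quotient.mkₐ F Q
  have h1 : AlgebraicIndependent F fun i => π (φ (X i)) := by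
    rw [algebraicIndependent_iff_injective_aeval]
    have : aeval (fun i => π (φ (X i))) = π.comp φ := by ext i; simp
    rw [this, injective_iff_map_eq_zero]
    intro x hx
    rw [← Ideal.mem_bot, ← hc]
    exact (Ideal.Quotient.eq_zero_iff_mem (I := Q)).1 hx
  have h2 : aeval (fun i => π (ψ (X i))) = π.comp ψ := by ext i; simp
  have h3 : Algebra.IsAlgebraic (Algebra.adjoin F (Set.range fun i => π (ψ (X i)))) (B ⧸ Q) := by
    have : Algebra.IsIntegral (Algebra.adjoin F (Set.range fun i => π (ψ (X i)))) (B ⧸ Q) := by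
      refine ⟨fun x => ?_⟩
      obtain ⟨x, rfl⟩ := Ideal.Quotient.mk_surjective x
      obtain ⟨f, hf, e⟩ := h'.to_isIntegral x
      let g : MvPolynomial σ F →+* Algebra.adjoin F (Set.range fun i => π (ψ (X i))) :=
        (π.comp ψ).toRingHom.codRestrict _ fun y => by
          rw [Algebra.adjoin_range_eq_range_aeval, h2]
          exact ⟨y, rfl⟩
      refine ⟨f.map g, hf.map g, ?_⟩
      rw [Polynomial.eval₂_map]
      have := congrArg (Ideal.Quotient.mk Q) e
      rw [Polynomial.hom_eval₂, map_zero] at this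
      exact this
    infer_instance
  have h4 := (Algebra.IsAlgebraic.isTranscendenceBasis_of_le_trdeg_of_finite F
    (fun i => π (ψ (X i))) h1.cardinalMk_le_trdeg).1
  rw [algebraicIndependent_iff_injective_aeval, h2] at h4
  exact Function.Injective.of_comp (f := π) h4

/-- N2: a Noether normalisation that is unramified at `P` -/
theorem n2_main {F B σ : Type} [CommRing F] [CommRing B] [Algebra F B] [Fintype σ] (p : ℕ)
    [Fact p.Prime] (hp : (p : B) = 0) {φ : MvPolynomial σ F →ₐ[F] B} (h : φ.toRingHom.Finite)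
    (P : Ideal B) [P.IsPrime] (a : σ → B)
    (ha : ∀ δ : Derivation ℤ B P.ResidueField, (∀ c : F, δ (algebraMap F B c) = 0) →
      (∀ i, δ (a i) = 0) → δ = 0) :
    ∃ ψ : MvPolynomial σ F →ₐ[F] B, ψ.toRingHom.Finite ∧
      letI := ψ.toRingHom.toAlgebra
      ∃ e : B ⊗[MvPolynomial σ F] B,
        (∀ b : B, (b ⊗ₜ[MvPolynomial σ F] (1 : B)) * e = ((1 : B) ⊗ₜ[MvPolynomial σ F] b) * e) ∧
        Algebra.TensorProduct.lmul' (MvPolynomial σ F) e ∉ P := by
  obtain ⟨c, hc⟩ := n2_finite (F := F) (fun i => φ (X i)) a (by rwa [aeval_unique φ] at h)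
  have hq : c < p ^ (c + 1) :=
    (Nat.lt_succ_self c).trans (Nat.lt_pow_self (Fact.out : p.Prime).one_lt)
  refine ⟨_, hc _ hq, ?_⟩
  let ψ := aeval (R := F) fun i => a i + φ (X i) ^ p ^ (c + 1)
  let _ := ψ.toRingHom.toAlgebra
  have : Module.Finite (MvPolynomial σ F) B := hc _ hq
  refine n2_sigma P fun δ => ?_
  have h1 : ∀ s, δ (algebraMap (MvPolynomial σ F) B s) = 0 := δ.map_algebraMap
  have := ha (δ.restrictScalars ℤ) (fun c => ?_) fun i => ?_
  · ext b
    exact DFunLike.congr_fun this b
  · exact (congrArg δ (ψ.commutes c).symm).trans (h1 (C c))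
  · have h2 := h1 (X i)
    rw [show algebraMap (MvPolynomial σ F) B (X i) = _ from aeval_X _ i, map_add,
      Derivation.leibniz_pow, ← Nat.cast_smul_eq_nsmul B, Nat.cast_pow, hp,
      zero_pow (Nat.succ_ne_zero c), zero_smul, add_zero] at h2
    exact h2

end Pool.Agent.Lib.MP_62d77c_ag.R
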