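import Mathlib

/-! A hyperplane slice with two-generated differentials away from closed points. -/

set_option autoImplicit false

namespace Pool.Agent.Lib.MP_62d77c_ag.R

open Submodule

variable {R : Type} [CommRing R]

theorem q1_avoid {F : Set (Ideal R)} (hF : F.Finite) (hp : ∀ q ∈ F, q.IsPrime) (I : Ideal R)
    (c v : R) {n : ℕ} (hn : 0 < n) (hI : ∀ q ∈ F, ¬I ≤ q) (hv : ∀ q ∈ F, v ∉ q) :
    ∃ g ∈ I, ∀ q ∈ F, c + v * g ^ n ∉ q := by
  classical
  let F₁ := {q ∈ F | c ∈ q ∧ ∀ q' ∈ F, q ≤ q' → q' ≤ q}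
  let F₂ := hF.toFinset.filter fun q => c ∉ q ∧ ∀ q' ∈ F, q ≤ q' → q' ≤ q
  have h1 : F₁.Finite := hF.subset fun q h => h.1
  have h2 : ¬((I ⊓ F₂.inf id : Ideal R) : Set R) ⊆ ⋃ q ∈ F₁, (q : Set R) := by
    intro h
    obtain ⟨q, hq, hle⟩ := (Ideal.subset_union_prime_finite h1 (f := id) ⊥ ⊥
      (fun q hq _ _ => hp q hq.1)).1 h
    rcases (hp q hq.1).inf_le.1 hle with h3 | h3
    · exact hI q hq.1 h3
    · obtain ⟨q', hq', h4⟩ := (hp q hq.1).inf_le'.1 h3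
      obtain ⟨h5, h6, h7⟩ := Finset.mem_filter.1 hq'
      exact h6 (h7 q hq.1 h4 hq.2.1)
  obtain ⟨g, hg, hg'⟩ := Set.not_subset.1 h2
  refine ⟨g, hg.1, fun q hq hm => ?_⟩
  obtain ⟨q', hle, hq', hmax⟩ := hF.exists_le_maximal hq
  have hm' := hle hm
  have hmax' : ∀ q'' ∈ F, q' ≤ q'' → q'' ≤ q' := fun q'' h h' => hmax h h'
  by_cases hc : c ∈ q'
  · have h3 : v * g ^ n ∈ q' := by simpa using sub_mem hm' hc
    exact hg' (Set.mem_biUnion (show q' ∈ F₁ from ⟨hq', hc, hmax'⟩)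
      ((hp q' hq').mem_of_pow_mem n (((hp q' hq').mem_or_mem h3).resolve_left (hv q' hq'))))
  · have h3 : g ∈ q' := (Finset.inf_le (f := id) (show q' ∈ F₂ from
      Finset.mem_filter.2 ⟨hF.mem_toFinset.2 hq', hc, hmax'⟩)) hg.2
    exact hc (by simpa using sub_mem hm' (q'.mul_mem_left v (q'.pow_mem_of_mem h3 n hn)))

section mod
variable {M : Type} [AddCommGroup M] [Module R M]

/-- `s M` lies in the span of three elements -/
def Gen3 (s : R) (a b c : M) : Prop := ∀ ω : M, ∃ u v w : R, s • ω = u • a + v • b + w • c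

theorem Gen3.swap {s : R} {a b c : M} (h : Gen3 s a b c) : Gen3 s b a c := fun ω => by
  obtain ⟨u, v, w, e⟩ := h ω
  exact ⟨v, u, w, by rw [e]; abel⟩

theorem Gen3.exch {s t u v w : R} {a b c y : M} (h : Gen3 s a b c)
    (e : t • y = u • a + v • b + w • c) : Gen3 (u * s) y b c := fun ω => by
  obtain ⟨u', v', w', e'⟩ := h ω
  refine ⟨u' * t, u * v' - u' * v, u * w' - u' * w, ?_⟩
  rw [mul_smul, e', mul_smul u' t, e]
  module

theorem Gen3.exch' {s t : R} {a b c y : M} (h : Gen3 s a b c) {P : Ideal R} (hP : P.IsPrime)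
    (hs : s ∉ P) (ht : t ∉ P) (e : y - t • a ∈ P • (⊤ : Submodule R M)) :
    ∃ s' ∉ P, Gen3 s' y b c := by
  have key : ∀ η ∈ P • (⊤ : Submodule R M), ∃ u ∈ P, ∃ v w : R, s • η = u • a + v • b + w • c := by
    intro η hη
    refine Submodule.smul_induction_on hη (fun r hr ω _ => ?_) fun x z hx hz => ?_
    · obtain ⟨u, v, w, e⟩ := h ω
      exact ⟨r * u, P.mul_mem_right _ hr, r * v, r * w, by rw [smul_comm, e]; module⟩
    · obtain ⟨u, hu, v, w, e⟩ := hx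
      obtain ⟨u', hu', v', w', e'⟩ := hz
      exact ⟨u + u', add_mem hu hu', v + v', w + w', by rw [smul_add, e, e']; module⟩
  obtain ⟨u, hu, v, w, e'⟩ := key _ e
  refine ⟨(s * t + u) * s, fun hm => ?_, h.exch (t := s) (v := v) (w := w) ?_⟩
  · have h1 := (hP.mem_or_mem hm).resolve_right hs
    exact ht ((hP.mem_or_mem (by simpa using sub_mem h1 hu)).resolve_left hs)
  · rw [smul_sub, sub_eq_iff_eq_add] at e'
    rw [e']
    module

end mod

theorem q1_min [IsDomain R] {w : R} (hw : w ≠ 0) {P : Ideal R} [P.IsPrime] (h : P.height ≤ 1)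
    (hm : w ∈ P) : P ∈ (Ideal.span {w}).minimalPrimes := by
  obtain ⟨Q, hQ, hle⟩ := Ideal.exists_minimalPrimes_le ((Ideal.span_singleton_le_iff_mem P).2 hm)
  have := hQ.1.1
  rcases hle.eq_or_lt with rfl | hlt
  · exact hQ
  · exfalso
    have h1 : (⊥ : Ideal R) < Q := bot_lt_iff_ne_bot.2 fun e =>
      hw (by simpa [e] using hQ.1.2 (Ideal.mem_span_singleton_self w))
    have h2 := Ideal.height_add_one_le_of_lt_of_isPrime h1
    have h3 := Ideal.height_add_one_le_of_lt_of_isPrime hlt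
    have h4 : (1 : ℕ∞) + 1 ≤ 1 := (add_le_add_left (le_add_self.trans h2) 1).trans (h3.trans h)
    exact absurd h4 (by decide)

variable {k M : Type} [CommRing k] [Algebra k R] [AddCommGroup M] [Module R M] [Module k M]

theorem q1_dpow (p : ℕ) [CharP R p] (d : Derivation k R M) (g a : R) :
    d (g ^ p * a) = g ^ p • d a := by
  rw [d.leibniz, d.leibniz_pow, ← Nat.cast_smul_eq_nsmul R, CharP.cast_eq_zero, zero_smul,
    smul_zero, add_zero]

/-- the differential of some function is part of a generating triple in codimension one -/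
theorem q1_codim_one [IsDomain R] [IsNoetherianRing R] (p : ℕ) [Fact p.Prime] [CharP R p]
    (d : Derivation k R M)
    (H : ∀ P : Ideal R, P.IsPrime → P.height ≤ 1 →
      ∃ a b c : R, ∃ s ∉ P, Gen3 s (d a) (d b) (d c)) :
    ∃ x : R, ∀ P : Ideal R, P.IsPrime → P.height ≤ 1 →
      ∃ b c : R, ∃ s ∉ P, Gen3 s (d x) (d b) (d c) := by
  classical
  have hp : 0 < p := (Fact.out : p.Prime).pos
  obtain ⟨a₁, a₂, a₃, w, hw, hG⟩ := H ⊥ Ideal.isPrime_bot (by simp)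
  have hw0 : w ≠ 0 := by simpa using hw
  let F := ((Ideal.span {w}).finite_minimalPrimes_of_isNoetherianRing R).toFinset.filter
    fun P => P.height ≤ 1
  have hF : ∀ P ∈ F, P ∈ (Ideal.span {w}).minimalPrimes ∧ P.height ≤ 1 := fun P hP => by
    simpa [F] using hP
  choose! a b c s hs hg using H
  have hu : ∀ P ∈ F, ∃ u ∉ P, ∀ Q ∈ F, Q ≠ P → u ∈ Q := fun P hP => by
    have : ¬(F.erase P).inf id ≤ P := fun h => by
      obtain ⟨Q, hQ, h4⟩ := (hF P hP).1.1.1.inf_le'.1 h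
      obtain ⟨h5, h6⟩ := Finset.mem_erase.1 hQ
      exact h5 (le_antisymm h4 ((hF P hP).1.2 (hF Q h6).1.1 h4))
    obtain ⟨u, h1, h2⟩ := Set.not_subset.1 this
    exact ⟨u, h2, fun Q hQ hne => Finset.inf_le (f := id) (Finset.mem_erase.2 ⟨hne, hQ⟩) h1⟩
  choose! u hu hu' using hu
  set x' := ∑ P ∈ F, u P ^ p * a P with hx'
  obtain ⟨c₁, c₂, c₃, e⟩ := hG (d x')
  obtain ⟨g₁, -, h₁⟩ := q1_avoid (Set.finite_singleton (⊥ : Ideal R))
    (fun q hq => hq ▸ Ideal.isPrime_bot) ⊤ c₁ (w * w ^ p) hp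
    (fun q hq => by rw [hq]; simp) fun q hq => by rw [hq]; simp [hw0]
  have h₁' : c₁ + w * w ^ p * g₁ ^ p ≠ 0 := by simpa using h₁ ⊥ rfl
  obtain ⟨g₂, -, h₂⟩ := q1_avoid
    (F := {q ∈ (Ideal.span {c₁ + w * w ^ p * g₁ ^ p}).minimalPrimes | w ∉ q})
    ((Ideal.finite_minimalPrimes_of_isNoetherianRing R _).subset fun q h => h.1)
    (fun q hq => hq.1.1.1) ⊤ c₂ (w * w ^ p) hp
    (fun q hq h => hq.1.1.1.ne_top (top_le_iff.1 h))
    fun q hq h => hq.2 (hq.1.1.1.mem_of_pow_mem (p + 1) (by rwa [pow_succ']))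
  refine ⟨x' + (w * g₁) ^ p * a₁ + (w * g₂) ^ p * a₂, fun P hP hh => ?_⟩
  have ed : d (x' + (w * g₁) ^ p * a₁ + (w * g₂) ^ p * a₂)
      = d x' + (w * g₁) ^ p • d a₁ + (w * g₂) ^ p • d a₂ := by
    rw [map_add, map_add, q1_dpow, q1_dpow]
  by_cases hwP : w ∈ P
  · have hPF : P ∈ F := by simpa [F] using ⟨q1_min hw0 hh hwP, hh⟩
    refine ⟨b P, c P, (hg P hP hh).exch' hP (hs P hP hh)
      (fun h => hu P hPF (hP.mem_of_pow_mem p h)) ?_⟩
    have h3 : ∀ g, (w * g) ^ p ∈ P := fun g => P.pow_mem_of_mem (P.mul_mem_right g hwP) p hp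
    rw [ed, hx', map_sum, ← Finset.add_sum_erase _ _ hPF, q1_dpow, add_assoc, add_assoc,
      add_sub_cancel_left]
    refine add_mem (sum_mem fun Q hQ => ?_)
      (add_mem (smul_mem_smul (h3 _) trivial) (smul_mem_smul (h3 _) trivial))
    obtain ⟨h5, h6⟩ := Finset.mem_erase.1 hQ
    rw [q1_dpow]
    exact smul_mem_smul (P.pow_mem_of_mem (hu' Q h6 P hPF h5.symm) p hp) trivial
  · have e' : w • d (x' + (w * g₁) ^ p * a₁ + (w * g₂) ^ p * a₂)
        = (c₁ + w * w ^ p * g₁ ^ p) • d a₁ + (c₂ + w * w ^ p * g₂ ^ p) • d a₂ + c₃ • d a₃ := by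
      rw [ed, smul_add, smul_add, e, mul_pow, mul_pow]
      module
    by_cases h3 : c₁ + w * w ^ p * g₁ ^ p ∈ P
    · refine ⟨a₁, a₃, _, fun h => ?_, hG.swap.exch (e'.trans (by rw [add_comm (_ • d a₁)]))⟩
      exact hwP ((hP.mem_or_mem h).resolve_left (h₂ P ⟨q1_min h₁' hh h3, hwP⟩))
    · exact ⟨a₂, a₃, _, fun h => hwP ((hP.mem_or_mem h).resolve_left h3), hG.exch e'⟩

/-- **Q1** -/
theorem q1_main [IsDomain R] [IsNoetherianRing R] (p : ℕ) [Fact p.Prime] [CharP R p]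
    (d : Derivation k R M) (hdim : ringKrullDim R ≤ 3)
    (H : ∀ P : Ideal R, P.IsPrime → P.height ≤ 1 →
      ∃ a b c : R, ∃ s ∉ P, Gen3 s (d a) (d b) (d c))
    (m : Ideal R) [m.IsPrime] [Finite (R ⧸ m)] {F : Set (Ideal R)} (hF : F.Finite)
    (hp : ∀ q ∈ F, q.IsPrime) (hm : ∀ q ∈ F, ¬m ≤ q) :
    ∃ x ∈ m, (∀ q ∈ F, x ∉ q) ∧ ∀ P : Ideal R, P.IsPrime → ¬P.IsMaximal → x ∈ P →
      ∃ b c : R, ∃ s ∉ P, Gen3 s (d x) (d b) (d c) := by
  obtain ⟨x, hx⟩ := q1_codim_one p d H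
  have hmax : m.IsMaximal := Ideal.Quotient.maximal_of_isField m (Finite.isField_of_domain _)
  have : CharP (R ⧸ m) p := CharP.quotient' p m fun n hn => by
    by_contra h0
    have h1 : IsUnit (n : R) := (CharP.isUnit_natCast_iff (Fact.out : p.Prime)).2 fun h =>
      h0 ((CharP.cast_eq_zero_iff R p n).2 h)
    exact hmax.ne_top (m.eq_top_of_isUnit_mem hn h1)
  obtain ⟨y, hy⟩ := Finite.surjective_of_injective (frobenius_inj (R ⧸ m) p)
    (-Ideal.Quotient.mk m x)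
  obtain ⟨h, rfl⟩ := Ideal.Quotient.mk_surjective y
  have hxm : x + h ^ p ∈ m := by
    rw [← Ideal.Quotient.eq_zero_iff_mem, map_add, map_pow, ← frobenius_def, hy, add_neg_cancel]
  let J : Ideal R := Ideal.span {s | ∃ b c, Gen3 s (d x) (d b) (d c)}
  obtain ⟨g, hg, hg'⟩ := q1_avoid (F := F ∪ {q ∈ J.minimalPrimes | ¬q.IsMaximal})
    (hF.union ((Ideal.finite_minimalPrimes_of_isNoetherianRing R _).subset fun q h => h.1))
    (fun q hq => hq.elim (hp q) fun h => h.1.1.1) m (x + h ^ p) 1 (Fact.out : p.Prime).pos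
    (fun q hq => hq.elim (hm q) fun h hle => h.2 (hmax.eq_of_le h.1.1.1.ne_top hle ▸ hmax))
    fun q hq h1 => (hq.elim (hp q) fun h => h.1.1.1).ne_top ((Ideal.eq_top_iff_one q).2 h1)
  refine ⟨_, add_mem hxm (m.mul_mem_left 1 (m.pow_mem_of_mem hg p (Fact.out : p.Prime).pos)),
    fun q hq => hg' q (Or.inl hq), fun P hP hP' hxP => ?_⟩
  have ed : d (x + h ^ p + 1 * g ^ p) = d x := by
    have := q1_dpow p d h 1
    have := q1_dpow p d g 1
    simp_all
  rw [ed]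
  by_contra hn
  have hJ : J ≤ P := Ideal.span_le.2 fun s ⟨b, c, hs⟩ => by
    by_contra h1
    exact hn ⟨b, c, s, h1, hs⟩
  obtain ⟨Q, hQ, hle⟩ := Ideal.exists_minimalPrimes_le hJ
  have := hQ.1.1
  rcases hle.eq_or_lt with rfl | hlt
  · exact hg' Q (Or.inr ⟨hQ, hP'⟩) hxP
  · obtain ⟨N, hN, hPN⟩ := P.exists_le_maximal hP.ne_top
    have h1 : ¬Q.height ≤ 1 := fun h1 => by
      obtain ⟨b, c, s, hs, h2⟩ := hx Q this h1
      exact hs (hQ.1.2 (Ideal.subset_span ⟨b, c, h2⟩))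
    have h2 := Ideal.height_add_one_le_of_lt_of_isPrime hlt
    have h3 := Ideal.height_add_one_le_of_lt_of_isPrime
      (hPN.lt_of_ne fun e => hP' (e ▸ hN))
    have h4 : N.height ≤ 3 := by
      have := (Ideal.height_le_ringKrullDim_of_ne_top hN.ne_top).trans hdim
      exact WithBot.coe_le_coe.1 this
    have h5 : (1 : ℕ∞) + 1 ≤ Q.height := Order.add_one_le_of_lt (not_le.1 h1)
    have h6 : (1 : ℕ∞) + 1 + 1 + 1 ≤ 3 :=
      (add_le_add_left ((add_le_add_left h5 1).trans h2) 1).trans (h3.trans h4)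
    exact absurd h6 (by decide)

theorem q1_gen3 [Algebra.EssFiniteType ℤ R] (P : Ideal R) [P.IsPrime] (a b c : R)
    (h : ∀ δ : Derivation ℤ R P.ResidueField, δ a = 0 → δ b = 0 → δ c = 0 → δ = 0) :
    ∃ s ∉ P, Gen3 s (KaehlerDifferential.D ℤ R a) (KaehlerDifferential.D ℤ R b)
      (KaehlerDifferential.D ℤ R c) := by
  let D := KaehlerDifferential.D ℤ R
  let N : Submodule R Ω[R⁄ℤ] := span R {D a, D b, D c}
  have h0 : Subsingleton ((Ω[R⁄ℤ] ⧸ N) →ₗ[R] P.ResidueField) := subsingleton_of_forall_eq 0 fun φ => by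
    have hN : ∀ z ∈ N, φ (N.mkQ z) = 0 := fun z hz => by
      rw [mkQ_apply, (Quotient.mk_eq_zero N).2 hz, map_zero]
    have h1 := h ((φ ∘ₗ N.mkQ).compDer D) (hN _ (subset_span (by simp)))
      (hN _ (subset_span (by simp))) (hN _ (subset_span (by simp)))
    refine Submodule.linearMap_qext _ (Derivation.liftKaehlerDifferential_unique _ _ ?_)
    rw [h1]
    ext x
    simp
  have h1 : Subsingleton (TensorProduct R P.ResidueField (Ω[R⁄ℤ] ⧸ N)) := by
    have : Subsingleton (Module.Dual P.ResidueField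
        (TensorProduct R P.ResidueField (Ω[R⁄ℤ] ⧸ N))) :=
      (TensorProduct.AlgebraTensorModule.lift.equiv R P.ResidueField P.ResidueField P.ResidueField
        (Ω[R⁄ℤ] ⧸ N) P.ResidueField).symm.toEquiv.subsingleton_congr.2
        (LinearMap.ringLmapEquivSelf P.ResidueField P.ResidueField _).toEquiv.subsingleton
    exact (Module.subsingleton_dual_iff _).1 this
  have h2 : (⟨P, inferInstance⟩ : PrimeSpectrum R) ∉ Module.support R (Ω[R⁄ℤ] ⧸ N) := by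
    rw [Module.mem_support_iff_nontrivial_residueField_tensorProduct]
    exact not_nontrivial_iff_subsingleton.2 h1
  rw [Module.mem_support_iff_of_finite] at h2
  obtain ⟨s, hs, hs'⟩ := Set.not_subset.1 h2
  refine ⟨s, hs', fun ω => ?_⟩
  have h3 : s • ω ∈ N := (Quotient.mk_eq_zero N).1 (Module.mem_annihilator.1 hs (N.mkQ ω))
  obtain ⟨u, v, w, e⟩ := mem_span_triple.1 h3
  exact ⟨u, v, w, e.symm⟩

/-- **Q1**, in terms of derivations -/
theorem q1_der [IsDomain R] [Algebra.FiniteType ℤ R] (p : ℕ) [Fact p.Prime] [CharP R p]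
    (hdim : ringKrullDim R ≤ 3)
    (H : ∀ (P : Ideal R) [P.IsPrime], P.height ≤ 1 → ∃ a : Fin 3 → R,
      ∀ δ : Derivation ℤ R P.ResidueField, (∀ i, δ (a i) = 0) → δ = 0)
    (m : Ideal R) [m.IsPrime] [Finite (R ⧸ m)] {F : Set (Ideal R)} (hF : F.Finite)
    (hp : ∀ q ∈ F, q.IsPrime) (hm : ∀ q ∈ F, ¬m ≤ q) :
    ∃ x ∈ m, (∀ q ∈ F, x ∉ q) ∧ ∀ P : Ideal R, P.IsPrime → ¬P.IsMaximal → x ∈ P →
      ∃ a : Fin 2 → R, ∃ s ∉ P, ∀ (N : Type) [AddCommGroup N] [Module R N]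
        (δ : Derivation ℤ R N), δ x = 0 → (∀ i, δ (a i) = 0) → ∀ y, s • δ y = 0 := by
  have : IsNoetherianRing R := Algebra.FiniteType.isNoetherianRing ℤ R
  obtain ⟨x, hx, h1, h2⟩ := q1_main p (KaehlerDifferential.D ℤ R) hdim (fun P hP hh => by
    obtain ⟨a, ha⟩ := H P hh
    exact ⟨a 0, a 1, a 2, q1_gen3 P _ _ _ fun δ h0 h1 h2 => ha δ fun i => by
      fin_cases i <;> assumption⟩) m hF hp hm
  refine ⟨x, hx, h1, fun P hP hP' hxP => ?_⟩
  obtain ⟨b, c, s, hs, h⟩ := h2 P hP hP' hxP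
  refine ⟨![b, c], s, hs, fun N _ _ δ e0 e y => ?_⟩
  obtain ⟨u, v, w, h3⟩ := h (KaehlerDifferential.D ℤ R y)
  have e1 : δ b = 0 := e 0
  have e2 : δ c = 0 := e 1
  simpa [e0, e1, e2] using congrArg δ.liftKaehlerDifferential h3

/-- **Q1** on the slice -/
theorem q1_slice [IsDomain R] [Algebra.FiniteType ℤ R] (p : ℕ) [Fact p.Prime] [CharP R p]
    (hdim : ringKrullDim R ≤ 3)
    (H : ∀ (P : Ideal R) [P.IsPrime], P.height ≤ 1 → ∃ a : Fin 3 → R,
      ∀ δ : Derivation ℤ R P.ResidueField, (∀ i, δ (a i) = 0) → δ = 0)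
    (m : Ideal R) [m.IsPrime] [Finite (R ⧸ m)] {F : Set (Ideal R)} (hF : F.Finite)
    (hp : ∀ q ∈ F, q.IsPrime) (hm : ∀ q ∈ F, ¬m ≤ q) :
    ∃ x ∈ m, (∀ q ∈ F, x ∉ q) ∧ ∀ (P : Ideal (R ⧸ Ideal.span {x})) [P.IsPrime], ¬P.IsMaximal →
      ∃ a : Fin 2 → R ⧸ Ideal.span {x},
        ∀ δ : Derivation ℤ (R ⧸ Ideal.span {x}) P.ResidueField, (∀ i, δ (a i) = 0) → δ = 0 := by
  obtain ⟨x, hx, h1, h2⟩ := q1_der p hdim H m hF hp hm
  refine ⟨x, hx, h1, fun P hP hP' => ?_⟩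
  let π := Ideal.Quotient.mk (Ideal.span {x})
  have hπ : π x = 0 := Ideal.Quotient.eq_zero_iff_mem.2 (Ideal.mem_span_singleton_self x)
  obtain ⟨a, s, hs, h⟩ := h2 (P.comap π) (Ideal.comap_isPrime π P) (fun hmax => hP' (by
      rcases Ideal.map_eq_top_or_isMaximal_of_surjective π Ideal.Quotient.mk_surjective hmax
        with h | h <;> rw [Ideal.map_comap_of_surjective π Ideal.Quotient.mk_surjective] at h
      exacts [absurd h hP.ne_top, h]))
    (by rw [Ideal.mem_comap, hπ]; exact zero_mem _)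
  refine ⟨fun i => π (a i), fun δ hδ => Derivation.ext fun y => ?_⟩
  obtain ⟨y, rfl⟩ := Ideal.Quotient.mk_surjective y
  have h3 := h P.ResidueField (δ.compAlgebraMap R) ((congrArg δ hπ).trans (map_zero δ)) hδ y
  rw [← algebraMap_smul (R ⧸ Ideal.span {x}), Algebra.smul_def, mul_eq_zero] at h3
  exact h3.resolve_left fun h4 => hs ((Ideal.algebraMap_residueField_eq_zero (I := P)).1 h4)

end Pool.Agent.Lib.MP_62d77c_ag.R
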