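import Mathlib

/-! Dimension and differentials of a normal affine variety in codimension one. -/

set_option autoImplicit false

namespace Pool.Agent.Lib.MP_62d77c_ag.R

open Algebra

section dim
variable {K : Type} [Field K]

theorem sm_drop {A B : Type} [CommRing A] [IsDomain A] [Algebra K A] [FiniteType K A]
    [CommRing B] [IsDomain B] [Algebra K B] (φ : A →ₐ[K] B) (hs : Function.Surjective φ)
    (hi : ¬Function.Injective φ) : trdeg K B < trdeg K A := by
  obtain ⟨s, g, inj, fin⟩ := exists_finite_inj_algHom_of_fg K A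
  algebraize [g.toRingHom]
  have : Module.Finite (MvPolynomial (Fin s) K) A := fin
  by_contra hc
  push Not at hc
  have ind : AlgebraicIndependent K (g ∘ MvPolynomial.X) := by
    rw [AlgebraicIndependent, ← MvPolynomial.aeval_unique]; exact inj
  obtain ⟨x, e⟩ : ∃ x, MvPolynomial.aeval x = φ.comp g := ⟨_, (MvPolynomial.aeval_unique _).symm⟩
  have : Algebra.IsIntegral (adjoin K (Set.range x)) B := ⟨fun b => by
    obtain ⟨a, rfl⟩ := hs b
    exact IsIntegral.map_of_comp_eq (R := MvPolynomial (Fin s) K)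
      ((φ.comp g).codRestrict (adjoin K (Set.range x)) fun p => by
      rw [adjoin_range_eq_range_aeval, e]; exact ⟨p, rfl⟩).toRingHom φ.toRingHom
      (RingHom.ext fun _ => rfl) (Algebra.IsIntegral.isIntegral a)⟩
  have tb := Algebra.IsAlgebraic.isTranscendenceBasis_of_lift_le_trdeg_of_finite K x
    (ind.lift_cardinalMk_le_trdeg.trans (Cardinal.lift_le.2 hc))
  have h1 : Function.Injective (φ.comp g) := e ▸ tb.1
  have h2 : (RingHom.ker φ).comap (algebraMap (MvPolynomial (Fin s) K) A) = ⊥ :=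
    (Submodule.eq_bot_iff _).2 fun p hp => h1 (by rw [map_zero]; exact hp)
  exact hi ((RingHom.injective_iff_ker_eq_bot φ).2 (Ideal.eq_bot_of_comap_eq_bot h2))

theorem sm_frac (A L : Type) [CommRing A] [IsDomain A] [Algebra K A] [Field L] [Algebra K L]
    [Algebra A L] [IsScalarTower K A L] [IsFractionRing A L] : trdeg K L = trdeg K A := by
  have : Algebra.IsAlgebraic A L := IsLocalization.isAlgebraic L (nonZeroDivisors A)
  rw [← trdeg_add_eq K A (A := L), trdeg_eq_zero (R := A) (A := L), add_zero]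

theorem sm_dim (A : Type) [CommRing A] [IsDomain A] [Algebra K A] [FiniteType K A] (n : ℕ)
    (h : trdeg K A = n) : ringKrullDim A = n := by
  obtain ⟨s, g, hg, hf⟩ := exists_finite_inj_algHom_of_fg K A
  let P := MvPolynomial (Fin s) K
  let _ : Algebra P A := g.toRingHom.toAlgebra
  have : IsScalarTower K P A := .of_algebraMap_eq fun c => (g.commutes c).symm
  have : Module.Finite P A := hf
  have : FaithfulSMul P A := (faithfulSMul_iff_algebraMap_injective P A).mpr hg
  have hs : s = n := by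
    have h1 := trdeg_add_eq K P (A := A)
    rw [trdeg_eq_zero (R := P) (A := A), add_zero, h, MvPolynomial.trdeg_of_isDomain] at h1
    simpa using h1
  have hP : ringKrullDim P = n := by
    rw [MvPolynomial.ringKrullDim_of_isNoetherianRing, ringKrullDim_eq_zero_of_field]
    simp [hs]
  rw [← hP]
  apply le_antisymm
  · refine Order.krullDim_le_of_strictMono (PrimeSpectrum.comap (algebraMap P A)) ?_
    intro I J hIJ
    exact Ideal.IsIntegral.comap_lt_comap (R := P) hIJ
  · refine iSup_le fun l => ?_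
    obtain ⟨⟨Q, hQ, hQ'⟩⟩ := Ideal.nonempty_primesOver (S := A) l.head.asIdeal
    obtain ⟨M, hM, -⟩ := Ideal.exists_ltSeries_of_hasGoingUp l Q
    rw [← hM]
    exact Order.LTSeries.length_le_krullDim M

theorem sm_res {A : Type} [CommRing A] [Algebra K A] (P : Ideal A) [P.IsPrime] :
    trdeg K P.ResidueField = trdeg K (A ⧸ P) := sm_frac (A ⧸ P) _

theorem sm_res_le {A : Type} [CommRing A] [Algebra K A] (P : Ideal A) [P.IsPrime] :
    trdeg K P.ResidueField ≤ trdeg K A :=
  (sm_res P).trans_le (trdeg_le_of_surjective (Ideal.Quotient.mkₐ K P) Ideal.Quotient.mk_surjective)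

theorem sm_res_lt {A : Type} [CommRing A] [IsDomain A] [Algebra K A] [FiniteType K A]
    (P : Ideal A) [P.IsPrime] (h : P ≠ ⊥) : trdeg K P.ResidueField < trdeg K A :=
  (sm_res P).trans_lt (sm_drop (Ideal.Quotient.mkₐ K P) Ideal.Quotient.mk_surjective fun hi =>
    h (Ideal.mk_ker.symm.trans ((RingHom.injective_iff_ker_eq_bot (Ideal.Quotient.mk P)).1 hi)))

theorem sm_ext {L : Type} [Field L] [Algebra K L] (s : Set L)
    [Algebra.IsSeparable (IntermediateField.adjoin K s) L] {T : Type} [CommRing T] [Algebra K T]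
    (f g : L →ₐ[K] T) (π : T →+* L) (hπ : IsNilpotent (RingHom.ker π))
    (h : ∀ x, π (f x) = π (g x)) (hs : ∀ x ∈ s, f x = g x) : f = g := by
  let E := IntermediateField.adjoin K s
  have hE : ∀ x ∈ E, f x = g x := fun x hx => by
    induction hx using IntermediateField.adjoin_induction with
    | mem x hx => exact hs x hx
    | algebraMap c => simp
    | add x y _ _ hx hy => simp [hx, hy]
    | mul x y _ _ hx hy => simp [hx, hy]
    | inv x _ hx =>
      rcases eq_or_ne x 0 with rfl | h0
      · simp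
      · calc f x⁻¹ = f x⁻¹ * (f x * g x⁻¹) := by rw [hx, ← map_mul, mul_inv_cancel₀ h0]; simp
          _ = g x⁻¹ := by rw [← mul_assoc, ← map_mul, inv_mul_cancel₀ h0]; simp
  let _ : Algebra E T := (g.toRingHom.comp (algebraMap E L)).toAlgebra
  have := FormallyUnramified.of_isSeparable E L
  have := FormallyUnramified.ext' π hπ
    ({ f.toRingHom with commutes' := fun c => hE c c.2 } : L →ₐ[E] T)
    ({ g.toRingHom with commutes' := fun c => rfl } : L →ₐ[E] T) h
  exact AlgHom.ext fun x => AlgHom.congr_fun this x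

end dim

variable (p : ℕ) [Fact p.Prime] {R : Type} [CommRing R] [Algebra (ZMod p) R]
  [FiniteType (ZMod p) R]

omit [Algebra (ZMod p) R] [FiniteType (ZMod p) R] in
theorem sm_aux {L : Type} [Field L] [Algebra (ZMod p) L] [Algebra R L] (s : Finset L)
    [Algebra.IsSeparable (IntermediateField.adjoin (ZMod p) (s : Set L)) L] (u v : L → R)
    (hv : ∀ t, algebraMap R L (v t) ≠ 0)
    (huv : ∀ t, t * algebraMap R L (v t) = algebraMap R L (u t)) (δ : Derivation ℤ R L)
    (f₀ : L →+* TrivSqZeroExt L L) (hf : ∀ x, f₀ (algebraMap R L x)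
      = TrivSqZeroExt.inl (algebraMap R L x) + TrivSqZeroExt.inr (δ x))
    (ha : ∀ t ∈ s, δ (u t * v t ^ (p - 1)) = 0) : δ = 0 := by
  have hpL : (p : L) = 0 := by
    rw [← map_natCast (algebraMap (ZMod p) L), ZMod.natCast_self, map_zero]
  let f : L →ₐ[ZMod p] TrivSqZeroExt L L :=
    { f₀ with
      commutes' := fun c => RingHom.congr_fun
        (Subsingleton.elim (f₀.comp (algebraMap (ZMod p) L)) (algebraMap (ZMod p) _)) c }
  have key := sm_ext (s : Set L) f (TrivSqZeroExt.inlAlgHom (ZMod p) L L)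
    (TrivSqZeroExt.fstHom L L L).toRingHom
    ⟨2, by
      rw [pow_two, Ideal.zero_eq_bot, eq_bot_iff]
      refine Ideal.mul_le.2 fun x hx y hy => ?_
      have hx' : x.fst = 0 := hx
      have hy' : y.fst = 0 := hy
      rw [Ideal.mem_bot]
      ext <;> simp [hx', hy']⟩
    (fun t => by
      have h1 := congrArg (fun z => (f₀ z).fst) (huv t)
      simp only [map_mul, hf, TrivSqZeroExt.fst_mul, TrivSqZeroExt.fst_add,
        TrivSqZeroExt.fst_inl, TrivSqZeroExt.fst_inr, add_zero] at h1
      exact mul_right_cancel₀ (hv t) (h1.trans (huv t).symm))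
    fun t ht => by
      have h2 : δ (v t ^ p) = 0 := by
        rw [δ.leibniz_pow, nsmul_eq_mul, hpL, zero_mul]
      have h3 : t * algebraMap R L (v t ^ p) = algebraMap R L (u t * v t ^ (p - 1)) := by
        rw [map_mul, ← huv t, mul_assoc, ← map_mul, ← pow_succ',
          Nat.sub_add_cancel (Fact.out : p.Prime).pos]
      have h4 := congrArg f₀ h3
      rw [map_mul, hf, hf, ha t ht, h2, ← h3, TrivSqZeroExt.inr_zero, add_zero, add_zero,
        TrivSqZeroExt.inl_mul] at h4
      refine (IsUnit.mul_left_inj ?_).1 h4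
      exact TrivSqZeroExt.isUnit_inl_iff.2 (Ne.isUnit (map_pow (algebraMap R L) _ _ ▸
        pow_ne_zero p (hv t)))
  ext x
  have h1 := congrArg TrivSqZeroExt.snd ((hf x).symm.trans (AlgHom.congr_fun key _))
  simpa using h1

/-- the ring homomorphism to the dual numbers given by a derivation -/
def sm_hom {R L : Type} [CommRing R] [Field L] [Algebra R L] (δ : Derivation ℤ R L) :
    R →+* TrivSqZeroExt L L where
  toFun := fun x => TrivSqZeroExt.inl (algebraMap R L x) + TrivSqZeroExt.inr (δ x)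
  map_one' := by simp
  map_zero' := by simp
  map_add' := fun x y => by ext <;> simp
  map_mul' := fun x y => by
    ext
    · simp
    · have e : ∀ (r : R) (z : L), r • z = algebraMap R L r * z := Algebra.smul_def
      simp [e, mul_comm]

theorem sm_field (P : Ideal R) [P.IsPrime] {n : ℕ} (hn : trdeg (ZMod p) P.ResidueField ≤ n) :
    ∃ a : Fin n → R, ∀ δ : Derivation ℤ R P.ResidueField,
      (∀ y ∈ P, δ y = 0) → (∀ i, δ (a i) = 0) → δ = 0 := by
  classical
  have : EssFiniteType (ZMod p) P.ResidueField := EssFiniteType.comp (ZMod p) R _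
  obtain ⟨s, hs, hsep⟩ :=
    exists_isTranscendenceBasis_and_isSeparable_of_perfectField (ZMod p) P.ResidueField
  have hc : Fintype.card s ≤ Fintype.card (Fin n) := by
    have := hs.cardinalMk_eq_trdeg.trans_le hn
    simpa using this
  obtain ⟨ι⟩ := Function.Embedding.nonempty_of_card_le hc
  have hfr : ∀ t : P.ResidueField, ∃ u v : R, algebraMap R P.ResidueField v ≠ 0 ∧
      t * algebraMap R _ v = algebraMap R _ u := fun t => by
    obtain ⟨u, v, hv, rfl⟩ := IsFractionRing.div_surjective (A := R ⧸ P) t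
    obtain ⟨u, rfl⟩ := Ideal.Quotient.mk_surjective u
    obtain ⟨v, rfl⟩ := Ideal.Quotient.mk_surjective v
    have h1 : algebraMap R P.ResidueField v ≠ 0 := fun h => nonZeroDivisors.ne_zero hv
      (Ideal.Quotient.eq_zero_iff_mem.2 (Ideal.algebraMap_residueField_eq_zero.1 h))
    exact ⟨u, v, h1, div_mul_cancel₀ _ h1⟩
  choose u v hv huv using hfr
  refine ⟨Function.extend ι (fun t => u t * v t ^ (p - 1)) 0, fun δ h0 ha => ?_⟩
  have hφ : ∀ x, sm_hom δ x = TrivSqZeroExt.inl (algebraMap R _ x) + TrivSqZeroExt.inr (δ x) :=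
    fun _ => rfl
  refine sm_aux p s u v hv huv δ (Ideal.ResidueField.lift P (sm_hom δ)
    (fun y hy => by
      rw [RingHom.mem_ker, hφ, h0 y hy, Ideal.algebraMap_residueField_eq_zero.2 hy]; simp)
    fun y hy => TrivSqZeroExt.isUnit_iff_isUnit_fst.2 (by
      simpa [hφ] using hy)) (fun x => Ideal.ResidueField.lift_algebraMap ..) fun t ht => ?_
  have := ha (ι ⟨t, ht⟩)
  rwa [ι.injective.extend_apply] at this

theorem sm_unif {R : Type} [CommRing R] [IsDomain R] [IsNoetherianRing R] [IsIntegrallyClosed R]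
    (P : Ideal R) [P.IsPrime] (h : P.height ≤ 1) : ∃ π ∈ P, ∀ y ∈ P, ∃ s ∉ P, π ∣ s * y := by
  let S := Localization.AtPrime P
  have : IsIntegrallyClosed S := isIntegrallyClosed_of_isLocalization S P.primeCompl
    P.primeCompl_le_nonZeroDivisors
  have : Ring.KrullDimLE 1 S := Ring.krullDimLE_iff.2 (by
    rw [IsLocalization.AtPrime.ringKrullDim_eq_height P S]
    exact WithBot.coe_le_coe.2 h)
  have h3 : IsIntegrallyClosed S ∧
      ∀ Q : Ideal S, Q ≠ ⊥ → Q.IsPrime → Q = IsLocalRing.maximalIdeal S :=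
    ⟨‹_›, fun Q h1 h2 => IsLocalRing.eq_maximalIdeal (h2.isMaximal_of_ne_bot h1)⟩
  have h4 : (IsLocalRing.maximalIdeal S).IsPrincipal :=
    ((tfae_of_isNoetherianRing_of_isLocalRing_of_isDomain S).out 3 4).1 h3
  obtain ⟨z, hz⟩ := h4
  obtain ⟨⟨π, t⟩, rfl⟩ := IsLocalization.mk'_surjective P.primeCompl z
  refine ⟨π, (IsLocalization.AtPrime.mk'_mem_maximal_iff S P π t).1
    (hz ▸ Submodule.mem_span_singleton_self _), fun y hy => ?_⟩
  have h1 := (IsLocalization.AtPrime.to_map_mem_maximal_iff S P y).2 hy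
  rw [hz] at h1
  obtain ⟨c, hc⟩ := Ideal.mem_span_singleton'.1 h1
  obtain ⟨⟨c, t'⟩, rfl⟩ := IsLocalization.mk'_surjective P.primeCompl c
  rw [← IsLocalization.mk'_mul, IsLocalization.mk'_eq_iff_eq_mul, ← map_mul] at hc
  have := IsLocalization.injective S P.primeCompl_le_nonZeroDivisors hc
  exact ⟨_, (t' * t).2, c, by rw [mul_comm _ y, ← this, mul_comm]⟩

/-- the differentials at a prime of height at most one are generated by `r` elements -/
theorem sm_main [IsDomain R] [IsIntegrallyClosed R] {r : ℕ} (hr : trdeg (ZMod p) R = r)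
    (P : Ideal R) [P.IsPrime] (h : P.height ≤ 1) :
    ∃ a : Fin r → R, ∀ δ : Derivation ℤ R P.ResidueField, (∀ i, δ (a i) = 0) → δ = 0 := by
  have : IsNoetherianRing R := FiniteType.isNoetherianRing (ZMod p) R
  by_cases h0 : P = ⊥
  · obtain ⟨a, ha⟩ := sm_field p P ((sm_res_le P).trans hr.le)
    exact ⟨a, fun δ => ha δ fun y hy => by rw [h0, Ideal.mem_bot] at hy; rw [hy, map_zero]⟩
  have h1 := (sm_res_lt (K := ZMod p) P h0).trans_eq hr
  obtain _ | r := r
  · simp at h1
  obtain ⟨a, ha⟩ := sm_field p P (n := r) (by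
    rw [Nat.cast_succ] at h1
    exact Cardinal.lt_natCast_add_one_iff.1 h1)
  obtain ⟨π, hπ, hd⟩ := sm_unif P h
  refine ⟨Fin.cons π a, fun δ hδ => ha δ (fun y hy => ?_) fun i => hδ i.succ⟩
  obtain ⟨s, hs, c, hc⟩ := hd y hy
  have e0 : δ π = 0 := hδ 0
  have e := congrArg δ hc
  simp only [Derivation.leibniz, e0, smul_zero, Algebra.smul_def,
    Ideal.algebraMap_residueField_eq_zero.2 hy, Ideal.algebraMap_residueField_eq_zero.2 hπ,
    zero_mul, add_zero, mul_zero, mul_eq_zero] at e
  exact e.resolve_left fun h => hs (Ideal.algebraMap_residueField_eq_zero.1 h)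

include p in
theorem sm_finite (m : Ideal R) [m.IsMaximal] : Finite (R ⧸ m) := by
  let _ := Ideal.Quotient.field m
  have := finite_of_finite_type_of_isJacobsonRing (ZMod p) (R ⧸ m)
  exact Module.finite_of_finite (ZMod p)

end Pool.Agent.Lib.MP_62d77c_ag.R
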