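import Pool.Agent.Lib.MP_62d77c_ag.R.Q1
import Pool.Agent.Lib.MP_62d77c_ag.R.Sm

/-! The slice of a normal affine threefold. -/

set_option autoImplicit false

namespace Pool.Agent.Lib.MP_62d77c_ag.R

theorem q1b_ft (p : ℕ) [Fact p.Prime] (R : Type) [CommRing R] [Algebra (ZMod p) R] :
    Algebra.FiniteType ℤ R ↔ Algebra.FiniteType (ZMod p) R := by
  refine ⟨fun h => .of_restrictScalars_finiteType ℤ _ _, fun h => ?_⟩
  exact Algebra.FiniteType.trans (S := ZMod p) inferInstance h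

variable (p : ℕ) [Fact p.Prime] {R : Type} [CommRing R] [IsDomain R] [IsIntegrallyClosed R]
  [Algebra (ZMod p) R] [Algebra.FiniteType (ZMod p) R]

/-- **Q1** for a normal affine threefold, on the threefold -/
theorem q1b_der (hr : Algebra.trdeg (ZMod p) R = (3 : ℕ)) (m : Ideal R) [m.IsMaximal]
    {F : Set (Ideal R)} (hF : F.Finite) (hp : ∀ q ∈ F, q.IsPrime) (hm : ∀ q ∈ F, ¬m ≤ q) :
    ∃ x ∈ m, (∀ q ∈ F, x ∉ q) ∧ ∀ P : Ideal R, P.IsPrime → ¬P.IsMaximal → x ∈ P →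
      ∃ a : Fin 2 → R, ∃ s ∉ P, ∀ (N : Type) [AddCommGroup N] [Module R N]
        (δ : Derivation ℤ R N), δ x = 0 → (∀ i, δ (a i) = 0) → ∀ y, s • δ y = 0 := by
  have := (q1b_ft p R).2 inferInstance
  have := sm_finite p m
  have : CharP R p := charP_of_injective_algebraMap (algebraMap (ZMod p) R).injective p
  exact q1_der p (sm_dim R 3 hr).le (fun P _ h => sm_main p hr P h) m hF hp hm

/-- **Q1** for a normal affine threefold, on the slice -/
theorem q1b_slice (hr : Algebra.trdeg (ZMod p) R = (3 : ℕ)) (m : Ideal R) [m.IsMaximal]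
    {F : Set (Ideal R)} (hF : F.Finite) (hp : ∀ q ∈ F, q.IsPrime) (hm : ∀ q ∈ F, ¬m ≤ q) :
    ∃ x ∈ m, (∀ q ∈ F, x ∉ q) ∧ ∀ (P : Ideal (R ⧸ Ideal.span {x})) [P.IsPrime], ¬P.IsMaximal →
      ∃ a : Fin 2 → R ⧸ Ideal.span {x},
        ∀ δ : Derivation ℤ (R ⧸ Ideal.span {x}) P.ResidueField, (∀ i, δ (a i) = 0) → δ = 0 := by
  have := (q1b_ft p R).2 inferInstance
  have := sm_finite p m
  have : CharP R p := charP_of_injective_algebraMap (algebraMap (ZMod p) R).injective p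
  exact q1_slice p (sm_dim R 3 hr).le (fun P _ h => sm_main p hr P h) m hF hp hm

end Pool.Agent.Lib.MP_62d77c_ag.R
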