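import Pool.Agent.Lib.MP_62d77c_ag.R.N1b

/-! Generators of a divisorial module along a slice. -/

set_option autoImplicit false

namespace Pool.Agent.Lib.MP_62d77c_ag.R

variable {L : Type} [Field L]

/-- `γ` generates `O(D)` at the prime `P` -/
def GenAt (R : Subring L) (P : Ideal R) (D : Dvs L) (γ : L) : Prop :=
  ∀ (O : ValuationSubring L) (𝔮 : Ideal R), 𝔮.IsPrime → 𝔮.height = 1 → Ctr R O 𝔮 → 𝔮 ≤ P →
    O.valuation (γ * unif O ^ D O) = 1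

/-- `s` generates `O(D) / x` at all primes strictly inside `𝔪` -/
def Sl (R : Subring L) (𝔪 : Ideal R) (x : R) (D : Dvs L) (s : L) : Prop :=
  (∀ O ∈ Ht1 R, O.valuation x < 1 → s * unif O ^ D O ∈ O) ∧
  ∀ P : Ideal R, P.IsPrime → P < 𝔪 → x ∈ P → ∃ γ : L, GenAt R P D γ ∧
    ∀ (O : ValuationSubring L) (𝔮 : Ideal R), 𝔮.IsPrime → 𝔮.height = 1 → Ctr R O 𝔮 → 𝔮 ≤ P →
      x ∈ 𝔮 → (s - γ) / x * unif O ^ D O ∈ O

end Pool.Agent.Lib.MP_62d77c_ag.R
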