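import Pool.Agent.Lib.MP_62d77c_ag.R.Q2c
import Pool.Agent.Lib.MP_62d77c_ag.R.QSl
import Pool.Agent.Lib.MP_62d77c_ag.R.Q1b
import Pool.Agent.Lib.MP_62d77c_ag.R.N3
import Pool.Agent.Lib.MP_62d77c_ag.R.N1c

/-! The slice through a closed point of a normal affine threefold over a finite field. -/

set_option autoImplicit false

namespace Pool.Agent.Lib.MP_62d77c_ag.R

open Function

variable {L : Type} [Field L] {R : Subring L}

theorem Nrm.q2_frac (h : Nrm R) : IsFractionRing R L := IsFractionRing.of_field _ _ fun z => by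
  obtain ⟨a, ha, b, hb, -, e⟩ := h.frac z
  exact ⟨⟨a, ha⟩, ⟨b, hb⟩, e⟩

theorem Nrm.q2_closed (h : Nrm R) : IsIntegrallyClosed R :=
  have := h.q2_frac
  (isIntegrallyClosed_iff L).2 fun {z} hz => ⟨⟨z, h.cl z hz⟩, rfl⟩

theorem Nrm.q2_S2 (D : Dvs L) (h : Nrm R) : S2 (Dv R D) := fun u v huv z hu hv =>
  h.mem_of_pair (x := u) (y := v) (by
    rintro O ⟨𝔮, h1, h2, h3⟩
    by_cases e : u ∈ 𝔮
    · exact Or.inr (h3.eq_one (huv 𝔮 h1 h2 e))
    · exact Or.inl (h3.eq_one e)) hu hv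

theorem Nrm.q2_inv (D : Dvs L) (h : Nrm R) : 1 / Dv R D ≤ Dv R (-D) := fun z hz =>
  h.mem_Dv_of_mul (D := D) fun w hw => by
    obtain ⟨r, hr⟩ := Submodule.mem_one.1 (Submodule.mem_div_iff_forall_mul_mem.1 hz w hw)
    rw [add_neg_cancel, h.mem_Dv_zero, ← hr]
    exact r.2

/-- the elements of all trace ideals away from closed points -/
def q2Tr (R : Subring L) : Ideal R where
  carrier := {a | ∀ (D : Dvs L) (y : Ideal R), y.IsPrime → ¬y.IsMaximal →
    ∃ s, s ∉ y ∧ ((s * a : R) : L) ∈ Dv R D * Dv R (-D)}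
  zero_mem' := fun D y hy _ => ⟨1, (Ideal.ne_top_iff_one _).1 hy.ne_top, by simp⟩
  add_mem' := fun {a b} ha hb D y hy hm => by
    obtain ⟨s, hs, h1⟩ := ha D y hy hm
    obtain ⟨t, ht, h2⟩ := hb D y hy hm
    refine ⟨s * t, fun e => (hy.mem_or_mem e).elim hs ht, ?_⟩
    have := add_mem (Submodule.smul_mem _ t h1) (Submodule.smul_mem _ s h2)
    convert this using 1
    simp only [Subring.smul_def, smul_eq_mul, Subring.coe_mul, Subring.coe_add]
    ring
  smul_mem' := fun c a ha D y hy hm => by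
    obtain ⟨s, hs, h1⟩ := ha D y hy hm
    refine ⟨s, hs, ?_⟩
    convert Submodule.smul_mem _ c h1 using 1
    simp only [Subring.smul_def, smul_eq_mul, Subring.coe_mul]
    ring

variable {p : ℕ} [Fact p.Prime]

theorem q2_tr [Algebra (ZMod p) R] [Algebra.FiniteType (ZMod p) R] (h : Nrm R)
    (hr : Algebra.trdeg (ZMod p) R = (3 : ℕ)) (P : Ideal R) [P.IsPrime] (hP : P.height ≤ 1) :
    ¬q2Tr R ≤ P := by
  have := h.q2_frac
  have := h.q2_closed
  obtain ⟨s, g, hg, hf⟩ := exists_finite_inj_algHom_of_fg (ZMod p) R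
  obtain rfl : 3 = s := by exact_mod_cast hr.symm.trans (Q2.trdeg_of_inj hf hg)
  obtain ⟨c, hc, h1⟩ := n3_main p (L := L) hf hg P hP
  refine fun hle => hc (hle fun D y hy hm => ?_)
  obtain ⟨s, hs, h2⟩ := h1 _ (h.Dv_fg D) (by
    obtain ⟨c, -, c0, hc⟩ := h.Dv_ne D
    exact (Submodule.ne_bot_iff _).2 ⟨c, hc, c0⟩) (h.q2_S2 D) y hy hm
  exact ⟨s, hs, mul_le_mul_right (h.q2_inv D) _ h2⟩

/-- Q2: a bounded multiple of every divisor is principal along a fixed slice -/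
theorem q2_end [Algebra (ZMod p) L] (hN : NAff p R 3) (m : Ideal R) (hm : m.IsMaximal) :
    ∃ x ∈ m, x ≠ 0 ∧ ∃ P0 : ℕ, ∀ D : Dvs L, ∃ n : ℕ, 1 ≤ n ∧ n ≤ P0 ∧
      ∃ s : L, Sl R m x (n • D) s := by
  have h := hN.nrm
  have := h.noeth
  have := h.q2_frac
  have := h.q2_closed
  have : CharP L p := charP_of_injective_algebraMap (algebraMap (ZMod p) L).injective p
  let _ : Algebra (ZMod p) R := ZMod.algebra _ p
  have := n1c_ft (ZMod p) _ hN.ft
  have hr : Algebra.trdeg (ZMod p) R = (3 : ℕ) :=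
    (n1c_tr _ _ L (Subsingleton.elim _ _)).trans hN.dim
  have hht : ∀ P : Ideal R, P.IsPrime → P.height ≤ 3 := fun P _ => by
    obtain ⟨s, hs⟩ := n1h_fin (K := ZMod p) P
    exact le_self_add.trans (n1h_dim hr P hs).le
  have hm0 : m ≠ ⊥ := fun e => by
    let _ := Ideal.Quotient.field m
    have := finite_of_finite_type_of_isJacobsonRing (ZMod p) (R ⧸ m)
    have := Algebra.IsAlgebraic.of_finite (ZMod p) (R ⧸ m)
    have h1 := n1h_dim hr m (s := 0) (trdeg_eq_zero.trans Nat.cast_zero.symm)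
    rw [e, Ideal.height_bot] at h1
    exact absurd h1 (by decide)
  obtain ⟨x, hx, h1, hΩ⟩ := q1b_slice p hr m
    (F := insert ⊥ {P ∈ (q2Tr R).minimalPrimes | ¬P.IsMaximal})
    (((Ideal.finite_minimalPrimes_of_isNoetherianRing R _).subset fun _ h => h.1).insert _)
    (by rintro _ (rfl | h); exacts [Ideal.isPrime_bot, h.1.1.1])
    (by
      rintro _ (rfl | h) hle
      · exact hm0 (eq_bot_iff.2 hle)
      · exact h.2 (hm.eq_of_le h.1.1.1.ne_top hle ▸ hm))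
  have x0 : x ≠ 0 := h1 ⊥ (Or.inl rfl)
  obtain ⟨P0, hP0⟩ := q2_main p h hr m hm hx x0 hΩ
  refine ⟨x, hx, x0, P0, fun D => ?_⟩
  obtain ⟨n, n1, n2, s, hs, h2⟩ := hP0 D fun P hP hn hxP => by
    have h3 : ¬q2Tr R ≤ P := fun hle => by
      obtain ⟨P', hP', h4⟩ := Ideal.exists_minimalPrimes_le hle
      have := hP'.1.1
      have h5 : ¬P'.IsMaximal := fun e => hn (e.eq_of_le hP.ne_top h4 ▸ e)
      have l₁ : P' < P := h4.lt_of_ne fun e => h1 P' (Or.inr ⟨hP', h5⟩) (e ▸ hxP)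
      obtain ⟨M, hM, h6⟩ := P.exists_le_maximal hP.ne_top
      have l₂ : P < M := h6.lt_of_ne fun e => hn (e ▸ hM)
      have a1 : (2 : ℕ∞) ≤ P'.height :=
        Order.add_one_le_of_lt (not_le.1 fun e => q2_tr h hr P' e hP'.1.2)
      have a2 := Ideal.height_add_one_le_of_lt_of_isPrime l₁
      have a3 := Ideal.height_add_one_le_of_lt_of_isPrime l₂
      have a4 : (2 : ℕ∞) + 1 + 1 ≤ 3 :=
        ((add_le_add_left ((add_le_add_left a1 1).trans a2) 1).trans a3).trans (hht M hM.isPrime)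
      exact absurd a4 (by decide)
    obtain ⟨a, ha, h4⟩ := SetLike.not_le_iff_exists.1 h3
    obtain ⟨s, hs, h5⟩ := ha D P hP hn
    exact ⟨s * a, fun e => (hP.mem_or_mem e).elim hs h4, h5⟩
  refine ⟨n, n1, n2, s, hs, fun P hP hlt hxP => ?_⟩
  obtain ⟨e, he, z, hz, h3, h4⟩ := h2 P hP (fun k => hlt.ne (k.eq_of_le hm.ne_top hlt.le)) hxP
  obtain ⟨w, hw, e', he', h5⟩ := h4 hlt.le
  have e0 : (e : L) ≠ 0 := fun k => he ((Subtype.ext k : e = 0) ▸ zero_mem P)
  refine ⟨z / e, fun O 𝔮 k1 k2 k3 k4 => ?_, fun O 𝔮 k1 k2 k3 k4 k5 => ?_⟩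
  · have hO : O ∈ Ht1 R := ⟨𝔮, k1, k2, k3⟩
    have hd := h.disc hO
    have k6 : O.valuation (z * w) = 1 := h5 ▸ k3.eq_one fun k => he' (k4 k)
    have z0 : z ≠ 0 := fun k => by simp [k] at k6
    rw [div_mul_eq_mul_div, map_div₀, k3.eq_one fun k => he (k4 k), div_one,
      hd.eq_one_iff (mul_ne_zero z0 (zpow_ne_zero _ hd.unif_ne)),
      hd.ord_mul z0 (zpow_ne_zero _ hd.unif_ne), hd.ord_unif_zpow, (h.ord_of_mul hz hw hO k6).1,
      neg_add_cancel]
  · have k6 := h3 O ⟨𝔮, k1, k2, k3⟩ ((k3 x).2.1 k5)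
    have k7 : (s - z / e) / x * unif O ^ (n • D) O =
        (e * s - z) / x * unif O ^ (n • D) O / e := by field_simp
    rw [k7, ← O.valuation_le_one_iff, map_div₀, k3.eq_one fun k => he (k4 k), div_one,
      O.valuation_le_one_iff]
    exact k6

end Pool.Agent.Lib.MP_62d77c_ag.R
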