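import Pool.Agent.Lib.MP_62d77c_ag.R.Ann
import Pool.Agent.Lib.MP_a966df_ag.Reg
import Pool.Agent.Lib.MP_a966df_ag.Depth

/-! Sections over the complement of the closed points of an affine surface: finiteness and
freeness over a plane. -/

set_option autoImplicit false

namespace Pool.Agent.Lib.MP_62d77c_ag.R.Q2

open Function Ann

theorem mv_height (k : Type) [Field k] (n : ℕ) (P : Ideal (MvPolynomial (Fin n) k))
    [hP : P.IsMaximal] : P.height = n := by
  induction n with
  | zero =>
    have := P.height_le_ringKrullDim_of_ne_top hP.ne_top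
    rw [MvPolynomial.ringKrullDim_of_isNoetherianRing, ringKrullDim_eq_zero_of_field] at this
    simpa using this
  | succ n ih =>
    let e := (MvPolynomial.finSuccEquiv k n).toRingEquiv
    have h1 : (P.map e).IsMaximal := Ideal.map_isMaximal_of_equiv e
    rw [← e.height_map P]
    generalize P.map e = P' at h1
    have : (P'.under (MvPolynomial (Fin n) k)).IsMaximal :=
      Polynomial.isMaximal_comap_C_of_isJacobsonRing P'
    have : P'.LiesOver (P'.under (MvPolynomial (Fin n) k)) := ⟨rfl⟩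
    rw [Polynomial.height_eq_height_add_one (P'.under (MvPolynomial (Fin n) k)) P', ih]
    simp

/-- a regular factorial domain all of whose maximal ideals have height two -/
structure Plane (S : Type) [CommRing S] [IsDomain S] : Prop where
  reg : IsRegularRing S
  ufd : UniqueFactorizationMonoid S
  ht : ∀ n : Ideal S, n.IsMaximal → n.height = 2

theorem plane_mv (k : Type) [Field k] : Plane (MvPolynomial (Fin 2) k) :=
  ⟨inferInstance, inferInstance, fun n _ => by simpa using mv_height k 2 n⟩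

variable {B Q : Type} [CommRing B] [CommRing Q] [Algebra B Q]

/-- elements outside all minimal primes -/
def T0 (B : Type) [CommRing B] : Submonoid B where
  carrier := {b | ∀ P ∈ minimalPrimes B, b ∉ P}
  one_mem' := fun _ hP h => hP.1.1.ne_top ((Ideal.eq_top_iff_one _).2 h)
  mul_mem' := fun ha hb P hP h => (hP.1.1.mem_or_mem h).elim (ha P hP) (hb P hP)

/-- the elements lying in `L` at every prime which is not maximal -/
def Hull (L : Submodule B Q) : Submodule B Q where
  carrier := {ξ | ∀ P : Ideal B, P.IsPrime → ¬P.IsMaximal → ∃ e, e ∉ P ∧ e • ξ ∈ L}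
  zero_mem' := fun P hP _ => ⟨1, fun h => hP.ne_top ((Ideal.eq_top_iff_one _).2 h), by simp⟩
  add_mem' := fun {a b} ha hb P hP hm => by
    obtain ⟨e, he, h⟩ := ha P hP hm
    obtain ⟨e', he', h'⟩ := hb P hP hm
    refine ⟨e * e', fun x => (hP.mem_or_mem x).elim he he', ?_⟩
    rw [smul_add]
    exact add_mem (by rw [mul_comm, mul_smul]; exact L.smul_mem _ h)
      (by rw [mul_smul]; exact L.smul_mem _ h')
  smul_mem' := fun c a ha P hP hm => by
    obtain ⟨e, he, h⟩ := ha P hP hm
    exact ⟨e, he, by rw [smul_comm]; exact L.smul_mem _ h⟩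

theorem le_hull (L : Submodule B Q) : L ≤ Hull L := fun ξ h P hP _ =>
  ⟨1, fun h => hP.ne_top ((Ideal.eq_top_iff_one _).2 h), by simpa using h⟩

theorem hull_sat {L : Submodule B Q} {ξ : Q}
    (h : ∀ P : Ideal B, P.IsPrime → ¬P.IsMaximal → ∃ a, a ∉ P ∧ a • ξ ∈ Hull L) : ξ ∈ Hull L :=
  fun P hP hm => by
    obtain ⟨a, ha, h1⟩ := h P hP hm
    obtain ⟨e, he, h2⟩ := h1 P hP hm
    exact ⟨e * a, fun x => (hP.mem_or_mem x).elim he ha, by rwa [mul_smul]⟩

theorem unit_cancel {a : B} (ha : IsUnit (algebraMap B Q a)) {ξ : Q} (h : a • ξ = 0) : ξ = 0 := by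
  rwa [Algebra.smul_def, ha.mul_right_eq_zero] at h

theorem unit_div {a : B} (ha : IsUnit (algebraMap B Q a)) (ξ : Q) : ∃ u : Q, a • u = ξ := by
  obtain ⟨v, hv⟩ := ha.exists_right_inv
  exact ⟨v * ξ, by rw [Algebra.smul_def, ← mul_assoc, hv, one_mul]⟩

theorem hull_rp (L : Submodule B Q) {a₁ a₂ : B} (h₁ : IsUnit (algebraMap B Q a₁))
    (h : ∀ P : Ideal B, P.IsPrime → a₁ ∈ P → a₂ ∈ P → P.IsMaximal) : RP (Hull L) a₁ a₂ := by
  refine ⟨fun m e => Subtype.ext (unit_cancel h₁ (congrArg Subtype.val e)), fun m m' e => ?_⟩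
  obtain ⟨u, hu⟩ := unit_div h₁ m.1
  have e' : a₂ • m.1 = a₁ • m'.1 := congrArg Subtype.val e
  have h2 : a₂ • u = m'.1 := sub_eq_zero.1 (unit_cancel h₁ (by
    rw [smul_sub, smul_comm, hu, e', sub_self]))
  refine ⟨⟨u, hull_sat fun P hP hm => ?_⟩, Subtype.ext hu.symm⟩
  by_cases h1 : a₁ ∈ P
  · exact ⟨a₂, fun h3 => hm (h P hP h1 h3), h2 ▸ m'.2⟩
  · exact ⟨a₁, h1, hu ▸ m.2⟩

section plane
variable {S : Type} [CommRing S] [IsDomain S] [Algebra S B] [Module.Finite S B] [Algebra S Q]
  [IsScalarTower S B Q] [IsLocalization (T0 B) Q]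

omit [IsDomain S] [Module.Finite S B] in
theorem unit_of_ne (hT : ∀ s : S, s ≠ 0 → algebraMap S B s ∈ T0 B) {s : S} (hs : s ≠ 0) :
    IsUnit (algebraMap S Q s) := by
  rw [IsScalarTower.algebraMap_apply S B Q]
  exact IsLocalization.map_units Q (⟨_, hT s hs⟩ : T0 B)

omit [Algebra S Q] [IsScalarTower S B Q] in
theorem exists_norm {t : B} (ht : t ∈ T0 B) : ∃ s : S, s ≠ 0 ∧ t ∣ algebraMap S B s := by
  by_contra hn
  push Not at hn
  obtain ⟨P, h1, hP, h2⟩ := Ideal.exists_ideal_over_prime_of_isIntegral (⊥ : Ideal S)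
    (Ideal.span {t}) fun s hs => by
      by_contra h0
      exact hn s h0 (Ideal.mem_span_singleton.1 hs)
  obtain ⟨P₀, hP₀, hle⟩ := Ideal.exists_minimalPrimes_le (bot_le : (⊥ : Ideal B) ≤ P)
  have := hP₀.1.1
  rcases hle.eq_or_lt with e | e
  · exact ht P₀ hP₀ (e ▸ h1 (Ideal.mem_span_singleton_self t))
  · exact not_lt_bot (h2 ▸ Ideal.IsIntegral.comap_lt_comap (R := S) e)

theorem exists_den (ξ : Q) : ∃ s : S, s ≠ 0 ∧ ∃ b : B, s • ξ = algebraMap B Q b := by
  obtain ⟨⟨b, t⟩, h⟩ := IsLocalization.surj (T0 B) ξ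
  obtain ⟨s, hs, c, hc⟩ := exists_norm (S := S) t.2
  refine ⟨s, hs, b * c, ?_⟩
  rw [Algebra.smul_def, IsScalarTower.algebraMap_apply S B Q, hc, map_mul, map_mul, ← h]
  ring

omit [IsDomain S] [IsLocalization (T0 B) Q] in
theorem hull_sat_max {L : Submodule B Q} {n : Ideal S} (hn : n.IsMaximal) {ξ : Q}
    (h : ∀ a ∈ n, a • ξ ∈ Hull L) : ξ ∈ Hull L := by
  refine hull_sat fun P hP hm => ?_
  by_contra hc
  push Not at hc
  refine hm (Ideal.isMaximal_of_isIntegral_of_isMaximal_comap (R := S) P ?_)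
  rw [← hn.eq_of_le (Ideal.comap_ne_top _ hP.ne_top) fun a ha => ?_]
  · exact hn
  · by_contra h1
    exact hc _ h1 (by rw [algebraMap_smul]; exact h a ha)

omit [IsLocalization (T0 B) Q] in
theorem hull_den (hS : Plane S) {L : Submodule B Q} {ξ : Q} (h : ξ ∈ Hull L) {π : S}
    (hπ : Prime π) : ∃ e : S, ¬π ∣ e ∧ e • ξ ∈ L := by
  by_contra hc
  push Not at hc
  have := (Ideal.span_singleton_prime hπ.ne_zero).2 hπ
  obtain ⟨P, h1, hP, h2⟩ := Ideal.exists_ideal_over_prime_of_isIntegral (Ideal.span {π})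
    (L.colon {ξ}) fun s hs => by
      by_contra h0
      refine hc s (fun h => h0 (Ideal.mem_span_singleton.2 h)) ?_
      have := Submodule.mem_colon_singleton.1 (Ideal.mem_comap.1 hs)
      rwa [algebraMap_smul] at this
  have hm : ¬P.IsMaximal := fun hm => by
    have h3 := hS.ht _ (Ideal.isMaximal_comap_of_isIntegral_of_isMaximal (R := S) P)
    have := hS.reg
    have h4 := Ideal.height_span_singleton_le_one hπ.not_isUnit
    rw [h2] at h3
    rw [h3] at h4
    exact absurd h4 (by decide)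
  obtain ⟨e, he, h5⟩ := h P hP hm
  exact he (h1 (Submodule.mem_colon_singleton.2 h5))

/-- the hull embeds in a free module of fixed rank -/
theorem exists_emb (hS : Plane S) (hT : ∀ s : S, s ≠ 0 → algebraMap S B s ∈ T0 B) :
    ∃ ρ : ℕ, ∀ L : Submodule B Q, L.FG →
      ∃ φ : (Hull L).restrictScalars S →ₗ[S] (Fin ρ → S), Injective φ := by
  classical
  have := hS.ufd
  let F := FractionRing S
  let _ : Algebra F Q := (IsLocalization.lift (M := nonZeroDivisors S) (S := F)
    (g := algebraMap S Q) fun s => unit_of_ne hT (nonZeroDivisors.ne_zero s.2)).toAlgebra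
  have : IsScalarTower S F Q := .of_algebraMap_eq fun s => (IsLocalization.lift_eq _ s).symm
  have : Module.Finite F Q := by
    obtain ⟨t, ht⟩ := Module.Finite.fg_top (R := S) (M := B)
    refine ⟨⟨t.image (algebraMap B Q), top_unique fun ξ _ => ?_⟩⟩
    obtain ⟨s, hs, b, hb⟩ := exists_den (S := S) (B := B) ξ
    have h1 : algebraMap B Q b ∈ Submodule.span F (↑(t.image (algebraMap B Q)) : Set Q) := by
      have : b ∈ Submodule.span S (t : Set B) := ht ▸ trivial
      refine Submodule.span_subset_span S F _ ?_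
      rw [Finset.coe_image]
      exact Submodule.apply_mem_span_image_of_mem_span
        (IsScalarTower.toAlgHom S B Q).toLinearMap this
    have h2 : algebraMap S F s ≠ 0 := by simpa using hs
    rw [← hb, ← algebraMap_smul F] at h1
    exact (Submodule.smul_mem_iff _ h2).1 h1
  let β := Module.finBasis F Q
  refine ⟨Module.finrank F Q, fun L hL => ?_⟩
  have hL' : (L.restrictScalars S).FG := hL.restrictScalars
  obtain ⟨t, ht⟩ := hL'
  obtain ⟨d, hd⟩ := IsLocalization.exist_integer_multiples (nonZeroDivisors S)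
    (Finset.univ ×ˢ t) fun x : Fin (Module.finrank F Q) × Q => β.repr x.2 x.1
  have h1 : ∀ i, ∀ ξ ∈ L, IsLocalization.IsInteger S (d.1 • β.repr ξ i) := fun i ξ hξ => by
    have hξ' : ξ ∈ Submodule.span S (t : Set Q) := ht ▸ hξ
    clear hξ
    induction hξ' using Submodule.span_induction with
    | mem x hx => exact hd (i, x) (Finset.mem_product.2 ⟨Finset.mem_univ _, hx⟩)
    | zero => simpa using IsLocalization.isInteger_zero
    | add x y _ _ hx hy =>
      rw [map_add, Finsupp.add_apply, smul_add]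
      exact IsLocalization.isInteger_add hx hy
    | smul c x _ hx =>
      rw [← algebraMap_smul F c, map_smul, Finsupp.smul_apply, algebraMap_smul, smul_comm]
      exact IsLocalization.isInteger_smul hx
  have h2 : ∀ (ξ : (Hull L).restrictScalars S) i, ∃ y : S,
      algebraMap S F y = d.1 • β.repr ξ.1 i := fun ξ i => by
    refine IsFractionRing.isInteger_of_isUnit_den ?_
    by_contra hu
    obtain ⟨π, hπ, hdv⟩ := WfDvdMonoid.exists_irreducible_factor hu
      (nonZeroDivisors.ne_zero (IsFractionRing.den S (d.1 • β.repr ξ.1 i)).2)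
    obtain ⟨e, he, h3⟩ := hull_den hS ξ.2 hπ.prime
    obtain ⟨y, hy⟩ := h1 i _ h3
    rw [← algebraMap_smul F e, map_smul, Finsupp.smul_apply, algebraMap_smul, smul_comm] at hy
    have h4 := IsFractionRing.mk'_num_den' S (d.1 • β.repr ξ.1 i)
    have h5 : algebraMap S F (IsFractionRing.den S (d.1 • β.repr ξ.1 i)).1 ≠ 0 := by
      simp
    have h6 : y * (IsFractionRing.den S (d.1 • β.repr ξ.1 i)).1 =
        e * IsFractionRing.num S (d.1 • β.repr ξ.1 i) := by
      apply IsFractionRing.injective S F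
      rw [map_mul, map_mul, hy, Algebra.smul_def e, mul_assoc]
      congr 1
      exact ((div_eq_iff h5).1 h4).symm
    have h7 : π ∣ IsFractionRing.num S (d.1 • β.repr ξ.1 i) :=
      (hπ.prime.dvd_or_dvd (h6 ▸ hdv.mul_left y)).resolve_left he
    exact hπ.not_isUnit (IsFractionRing.num_den_reduced S _ h7 hdv)
  choose φ hφ using h2
  refine ⟨⟨⟨φ, fun a b => funext fun i => IsFractionRing.injective S F ?_⟩,
    fun c a => funext fun i => IsFractionRing.injective S F ?_⟩, fun a b e => ?_⟩
  · rw [Pi.add_apply, map_add, hφ, hφ, hφ, Submodule.coe_add, map_add, Finsupp.add_apply, smul_add]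
  · rw [RingHom.id_apply, Pi.smul_apply, smul_eq_mul, map_mul, hφ, hφ, Submodule.coe_smul,
      ← algebraMap_smul F c, map_smul, Finsupp.smul_apply, smul_eq_mul, mul_smul_comm]
  · refine Subtype.ext (β.repr.injective (Finsupp.ext fun i => ?_))
    have e1 : φ a i = φ b i := congrFun e i
    have e2 := (hφ a i).symm.trans ((congrArg _ e1).trans (hφ b i))
    rw [Algebra.smul_def, Algebra.smul_def] at e2
    exact mul_left_cancel₀ (by simp) e2

theorem hull_free (hS : Plane S) (hT : ∀ s : S, s ≠ 0 → algebraMap S B s ∈ T0 B)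
    {L : Submodule B Q} [Module.Finite S ((Hull L).restrictScalars S)] (n : Ideal S)
    [hn : n.IsMaximal] : Module.Free (Localization.AtPrime n)
      (LocalizedModule n.primeCompl ((Hull L).restrictScalars S)) := by
  have := hS.reg
  obtain ⟨xs, h1, h2, h3⟩ := MP_a966df_ag.reg_seq (Localization.AtPrime n) (n := 2) (by
    rw [IsLocalization.AtPrime.ringKrullDim_eq_height n, hS.ht n hn]; rfl)
  refine MP_a966df_ag.free_of_reg (M := LocalizedModule n.primeCompl
    ((Hull L).restrictScalars S)) xs h2 ?_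
  obtain ⟨x₁, x₂, rfl⟩ := List.length_eq_two.1 h1
  have h4 := RP.of_reg h3
  obtain ⟨⟨a₁, s₁⟩, rfl⟩ := IsLocalization.mk'_surjective n.primeCompl x₁
  obtain ⟨⟨a₂, s₂⟩, rfl⟩ := IsLocalization.mk'_surjective n.primeCompl x₂
  dsimp only at h2 h4 ⊢
  have ha₁ : a₁ ≠ 0 := by
    rintro rfl
    exact one_ne_zero (h4.1 1 (by simp))
  have hu := unit_of_ne (Q := Q) hT ha₁
  have hgen : ∀ a ∈ n, ∃ e, e ∉ n ∧ ∃ c₁ c₂ : S, e * a = c₁ * a₁ + c₂ * a₂ := fun a ha => by
    have h5 : algebraMap S (Localization.AtPrime n) a ∈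
        (Ideal.span {a₁, a₂}).map (algebraMap S (Localization.AtPrime n)) := by
      have : algebraMap S (Localization.AtPrime n) a ∈ IsLocalRing.maximalIdeal _ :=
        (IsLocalization.AtPrime.to_map_mem_maximal_iff _ n a).2 ha
      rw [← h2] at this
      refine Ideal.span_le.2 ?_ this
      intro x hx
      rcases List.mem_pair.1 hx with rfl | rfl <;>
        exact (IsLocalization.mk'_mem_map_algebraMap_iff _ _ _ _ _).2
          ⟨1, one_mem _, by simpa using Ideal.subset_span (by simp)⟩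
    obtain ⟨e, he, h6⟩ := (IsLocalization.algebraMap_mem_map_algebraMap_iff n.primeCompl _ _ _).1 h5
    obtain ⟨c₁, c₂, h7⟩ := Ideal.mem_span_pair.1 h6
    exact ⟨e, he, c₁, c₂, h7.symm⟩
  obtain ⟨e, he, hall⟩ : ∃ e, e ∉ n ∧ ∀ a ∈ n, e * a ∈ Ideal.span {a₁, a₂} := by
    have hfg : n.FG := IsNoetherian.noetherian n
    obtain ⟨t, ht⟩ := hfg
    choose! e he h using hgen
    refine ⟨∏ a ∈ t, e a, n.primeCompl.prod_mem fun a ha => he a (ht ▸ Ideal.subset_span ha),
      fun a ha => ?_⟩
    have : Ideal.span (t : Set S) ≤ (Ideal.span {a₁, a₂}).colon {∏ a ∈ t, e a} :=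
      Ideal.span_le.2 fun a ha => by
        obtain ⟨c, hc⟩ := Finset.dvd_prod_of_mem e ha
        obtain ⟨c₁, c₂, h8⟩ := h a (ht ▸ Ideal.subset_span ha)
        refine Submodule.mem_colon_singleton.2 (Ideal.mem_span_pair.2 ⟨c * c₁, c * c₂, ?_⟩)
        rw [hc, smul_eq_mul]
        linear_combination -c * h8
    rw [mul_comm]
    exact Submodule.mem_colon_singleton.1 (this (ht ▸ ha))
  refine RP.reg ⟨fun m hm => ?_, fun m m' hm => ?_⟩
  · induction m using LocalizedModule.induction_on with
    | _ m s =>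
      rw [← Localization.mk_eq_mk', LocalizedModule.mk_smul_mk, ← LocalizedModule.zero_mk 1,
        LocalizedModule.mk_eq] at hm
      obtain ⟨c, hc⟩ := hm
      rw [← LocalizedModule.zero_mk 1, LocalizedModule.mk_eq]
      refine ⟨c, Subtype.ext ?_⟩
      have := congrArg Subtype.val hc
      simp only [one_smul, smul_zero, Submonoid.smul_def, Submodule.coe_smul,
        ZeroMemClass.coe_zero] at this ⊢
      exact unit_cancel hu (by rw [smul_comm, this])
  · induction m, m' using LocalizedModule.induction_on₂ with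
    | _ m m' s s' =>
      rw [← Localization.mk_eq_mk', LocalizedModule.mk_smul_mk,
        LocalizedModule.mk_smul_mk, LocalizedModule.mk_eq] at hm
      obtain ⟨c, hc⟩ := hm
      have hc' := congrArg Subtype.val hc
      simp only [Submonoid.smul_def, Submodule.coe_smul, Submonoid.coe_mul] at hc'
      obtain ⟨u, hu'⟩ := unit_div hu ((c.1 * (s₁.1 * s'.1)) • m.1)
      have h9 : a₂ • u = (c.1 * (s₂.1 * s.1)) • m'.1 := sub_eq_zero.1 (unit_cancel hu (by
        rw [smul_sub, smul_comm, hu']
        linear_combination (norm := module) hc'))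
      have h10 : e • u ∈ Hull L := hull_sat_max hn fun a ha => by
        obtain ⟨c₁, c₂, h8⟩ := Ideal.mem_span_pair.1 (hall a ha)
        rw [smul_smul, mul_comm, ← h8, add_smul, mul_smul, mul_smul, hu', h9]
        exact ((Hull L).restrictScalars S).add_mem
          (Submodule.smul_mem _ _ (Submodule.smul_mem _ _ m.2))
          (Submodule.smul_mem _ _ (Submodule.smul_mem _ _ m'.2))
      refine ⟨LocalizedModule.mk ⟨e • u, h10⟩ (⟨e, he⟩ * c * s' * s), ?_⟩
      rw [← Localization.mk_eq_mk', LocalizedModule.mk_smul_mk, LocalizedModule.mk_eq]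
      refine ⟨1, Subtype.ext ?_⟩
      simp only [Submonoid.smul_def, Submodule.coe_smul, Submonoid.coe_mul, one_smul]
      linear_combination (norm := module) -(s.1 * e) • hu'

theorem hull_proj (hS : Plane S) (hT : ∀ s : S, s ≠ 0 → algebraMap S B s ∈ T0 B)
    {L : Submodule B Q} (hL : L.FG) : Module.Finite S ((Hull L).restrictScalars S) ∧
      Module.Projective S ((Hull L).restrictScalars S) := by
  have := hS.reg
  obtain ⟨ρ, h⟩ := exists_emb (Q := Q) hS hT
  obtain ⟨φ, hφ⟩ := h L hL
  have := Module.Finite.of_injective φ hφ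
  have := Module.finitePresentation_of_finite S ((Hull L).restrictScalars S)
  refine ⟨inferInstance, Module.projective_of_localization_maximal fun n hn => ?_⟩
  have := hull_free (L := L) hS hT n
  infer_instance

/-- at every closed point of the plane the hull has a bounded number of generators -/
theorem hull_gen (hS : Plane S) (hT : ∀ s : S, s ≠ 0 → algebraMap S B s ∈ T0 B) :
    ∃ ρ : ℕ, ∀ L : Submodule B Q, L.FG → ∀ n : Ideal S, n.IsMaximal →
      ∃ g : Fin ρ → Q, (∀ i, g i ∈ Hull L) ∧
        ∀ ξ ∈ Hull L, ∃ e, e ∉ n ∧ e • ξ ∈ Submodule.span S (Set.range g) := by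
  classical
  have := hS.reg
  obtain ⟨ρ, h⟩ := exists_emb (Q := Q) hS hT
  refine ⟨ρ, fun L hL n hn => ?_⟩
  obtain ⟨φ, hφ⟩ := h L hL
  have := Module.Finite.of_injective φ hφ
  have := hull_free (L := L) hS hT n
  let N := (Hull L).restrictScalars S
  let β := Module.finBasis (Localization.AtPrime n) (LocalizedModule n.primeCompl N)
  have hr : Module.finrank (Localization.AtPrime n) (LocalizedModule n.primeCompl N) ≤ ρ := by
    refine ((IsLocalization.finrank_eq (R := S) (N := LocalizedModule n.primeCompl N)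
      (Localization.AtPrime n) n.primeCompl n.primeCompl_le_nonZeroDivisors).trans
      (IsLocalizedModule.finrank_eq (N := LocalizedModule n.primeCompl N) n.primeCompl
      (LocalizedModule.mkLinearMap n.primeCompl N) n.primeCompl_le_nonZeroDivisors)).trans_le ?_
    simpa using LinearMap.finrank_le_finrank_of_injective hφ
  choose x hx using fun i => IsLocalizedModule.surj n.primeCompl
    (LocalizedModule.mkLinearMap n.primeCompl N) (β i)
  let g : Fin ρ → N := fun i => if h : i.1 < _ then (x ⟨i.1, h⟩).1 else 0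
  refine ⟨fun i => (g i).1, fun i => (g i).2, fun ξ hξ => ?_⟩
  have h1 : LocalizedModule.mkLinearMap n.primeCompl N ⟨ξ, hξ⟩ ∈
      (Submodule.span S (Set.range g)).localized n.primeCompl := by
    have : Submodule.span (Localization.AtPrime n) (Set.range β) ≤
        (Submodule.span S (Set.range g)).localized n.primeCompl := Submodule.span_le.2 (by
      rintro _ ⟨i, rfl⟩
      refine ⟨(x i).1, Submodule.subset_span ⟨⟨i.1, i.2.trans_le hr⟩, by simp [g]⟩, (x i).2, ?_⟩
      exact (IsLocalizedModule.mk'_eq_iff).2 (hx i).symm)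
    exact this (β.span_eq ▸ trivial)
  obtain ⟨m, hm, s, hs⟩ := h1
  obtain ⟨c, hc⟩ := IsLocalizedModule.exists_of_eq (S := n.primeCompl)
    (f := LocalizedModule.mkLinearMap n.primeCompl N) (x₁ := m) (x₂ := s • ⟨ξ, hξ⟩) (by
      rw [IsLocalizedModule.mk'_eq_iff.1 hs]; simp [Submonoid.smul_def])
  refine ⟨c.1 * s.1, (c * s).2, ?_⟩
  have h2 := Submodule.apply_mem_span_image_of_mem_span N.subtype (Submodule.smul_mem _ c.1 hm)
  rw [← Set.range_comp] at h2
  have h3 : N.subtype (c.1 • m) = (c.1 * s.1) • ξ := by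
    rw [mul_smul]; exact congrArg Subtype.val hc
  rwa [h3] at h2

end plane

end Pool.Agent.Lib.MP_62d77c_ag.R.Q2
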