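import Pool.Agent.Lib.MP_62d77c_ag.R.Q2a
import Pool.Agent.Lib.MP_62d77c_ag.R.N2

/-! Finitely many local isomorphism classes of hulls on an affine surface over a finite field. -/

set_option autoImplicit false

namespace Pool.Agent.Lib.MP_62d77c_ag.R.Q2

open Function Ann

variable {B Q : Type} [CommRing B] [CommRing Q] [Algebra B Q]

theorem avoid {I : Ideal B} {s : Set (Ideal B)} (hs : s.Finite)
    (h : ∀ P ∈ s, P.IsPrime ∧ ¬I ≤ P) : ∃ a ∈ I, ∀ P ∈ s, a ∉ P := by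
  by_contra hc
  push Not at hc
  obtain ⟨P, hP, h1⟩ := (Ideal.subset_union_prime_finite hs (f := id) (I := I) ⊥ ⊥
    fun P hP _ _ => (h P hP).1).1 fun a ha => by
      obtain ⟨P, hP, h1⟩ := hc a ha
      exact Set.mem_biUnion hP h1
  exact (h P hP).2 h1

theorem exists_pair [IsNoetherianRing B]
    (hd : ∀ P₀ P₁ P₂ : Ideal B, P₀.IsPrime → P₁.IsPrime → P₂.IsPrime → P₀ < P₁ → P₁ < P₂ →
      P₂.IsMaximal) (h0 : ∀ P ∈ minimalPrimes B, ¬P.IsMaximal) {I : Ideal B}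
    (hI : ∀ P : Ideal B, P.IsPrime → ¬P.IsMaximal → ¬I ≤ P) :
    ∃ a₁ ∈ I, ∃ a₂ ∈ I, a₁ ∈ T0 B ∧ ∀ P : Ideal B, P.IsPrime → a₁ ∈ P → a₂ ∈ P → P.IsMaximal := by
  obtain ⟨a₁, h1, h2⟩ := avoid (I := I) (minimalPrimes.finite_of_isNoetherianRing B)
    fun P hP => ⟨hP.1.1, hI P hP.1.1 (h0 P hP)⟩
  obtain ⟨a₂, h3, h4⟩ := avoid (I := I)
    (s := {P ∈ (Ideal.span {a₁}).minimalPrimes | ¬P.IsMaximal})
    ((Ideal.finite_minimalPrimes_of_isNoetherianRing B _).subset fun _ h => h.1)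
    fun P hP => ⟨hP.1.1.1, hI P hP.1.1.1 hP.2⟩
  refine ⟨a₁, h1, a₂, h3, h2, fun P hP h5 h6 => ?_⟩
  obtain ⟨P₁, hP₁, h7⟩ := Ideal.exists_minimalPrimes_le ((Ideal.span_singleton_le_iff_mem P).2 h5)
  have := hP₁.1.1
  obtain ⟨P₀, hP₀, h8⟩ := Ideal.exists_minimalPrimes_le (bot_le : (⊥ : Ideal B) ≤ P₁)
  by_cases hm : P₁.IsMaximal
  · exact hm.eq_of_le hP.ne_top h7 ▸ hm
  · refine hd P₀ P₁ P hP₀.1.1 this hP (h8.lt_of_ne fun e => h2 P₀ hP₀ ?_)
      (h7.lt_of_ne fun e => h4 P₁ ⟨hP₁, hm⟩ (e ▸ h6))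
    exact e ▸ hP₁.1.2 (Ideal.mem_span_singleton_self a₁)

theorem pigeon {a₁ a₂ : B} (hfin : Finite (B ⧸ Ideal.span {a₁ ^ 2, a₂ ^ 2})) (ι : Type)
    [Finite ι] : ∃ P : ℕ, ∀ (N : ℕ → Type) [∀ i, AddCommGroup (N i)] [∀ i, Module B (N i)]
      (π : ∀ i, (ι → B) →ₗ[B] N i), (∀ i n, ∃ f, π i f - n ∈ two (N i) (a₁ ^ 2) (a₂ ^ 2)) →
      (∀ i, Module.Finite B (N i)) → (∀ i, Fac a₁ (N i)) → (∀ i, Fac a₂ (N i)) →
      (∀ i, RP (N i) a₁ a₂) → ∃ i j, i < j ∧ j ≤ P ∧ ∃ (ψ : N i →ₗ[B] N j) (r : B),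
        r - 1 ∈ Ideal.span {a₁, a₂} ∧ ∀ n, ∃ l, ψ l = r • n := by
  classical
  let Y := two (ι → B) (a₁ ^ 2) (a₂ ^ 2)
  have hY : Finite ((ι → B) ⧸ Y) := by
    let I : Ideal B := Ideal.span {a₁ ^ 2, a₂ ^ 2}
    let φ : (ι → B) →ₗ[B] (ι → B ⧸ I) := LinearMap.compLeft I.mkQ ι
    have hk : LinearMap.ker φ = Y := by
      ext v
      rw [LinearMap.mem_ker, mem_two_pi, funext_iff]
      refine forall_congr' fun i => ?_
      rw [two_eq, smul_eq_mul, Ideal.mul_top]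
      exact Submodule.Quotient.mk_eq_zero _
    rw [← hk]
    exact Finite.of_injective _ (φ.quotKerEquivRange.injective)
  have : Finite (Submodule B ((ι → B) ⧸ Y)) :=
    Finite.of_injective (fun U : Submodule B ((ι → B) ⧸ Y) => (U : Set ((ι → B) ⧸ Y)))
      SetLike.coe_injective
  have := Fintype.ofFinite (Submodule B ((ι → B) ⧸ Y))
  refine ⟨Fintype.card (Submodule B ((ι → B) ⧸ Y)), fun N _ _ π hπ hf h1 h2 hr => ?_⟩
  let τ : ∀ i, (ι → B) →ₗ[B] N i ⧸ two (N i) (a₁ ^ 2) (a₂ ^ 2) := fun i => Submodule.mkQ _ ∘ₗ π i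
  have hτ : ∀ i, Surjective (τ i) := fun i n => by
    obtain ⟨n, rfl⟩ := Submodule.Quotient.mk_surjective _ n
    obtain ⟨f, h⟩ := hπ i n
    exact ⟨f, (Submodule.Quotient.eq _).2 h⟩
  have hle : ∀ i, Y ≤ LinearMap.ker (τ i) := fun i v hv =>
    (Submodule.Quotient.mk_eq_zero _).2 (two_map (π i) hv)
  obtain ⟨i, j, hij, e⟩ := Fintype.exists_ne_map_eq_of_card_lt
    (fun i : Fin (Fintype.card (Submodule B ((ι → B) ⧸ Y)) + 1) =>
      (LinearMap.ker (τ i)).map Y.mkQ) (by simp)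
  have key : ∀ i j : ℕ, (LinearMap.ker (τ i)).map Y.mkQ = (LinearMap.ker (τ j)).map Y.mkQ →
      ∃ (ψ : N i →ₗ[B] N j) (r : B), r - 1 ∈ Ideal.span {a₁, a₂} ∧ ∀ n, ∃ l, ψ l = r • n :=
    fun i j e => by
      have e1 := congrArg (Submodule.comap Y.mkQ) e
      rw [Submodule.comap_map_mkQ, Submodule.comap_map_mkQ, sup_eq_right.2 (hle i),
        sup_eq_right.2 (hle j)] at e1
      obtain ⟨ψ, hψ⟩ := (h1 i).lift_two (h2 i) (hr j) ((LinearMap.ker (τ i)).liftQ (τ j) e1.le ∘ₗ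
        ((τ i).quotKerEquivOfSurjective (hτ i)).symm.toLinearMap ∘ₗ Submodule.mkQ _)
      obtain ⟨r, h3, h4⟩ := Submodule.exists_sub_one_mem_and_smul_le_of_fg_of_le_sup
        (I := Ideal.span {a₁, a₂}) (N := LinearMap.range ψ) (N' := ⊤) (P := ⊤) (hf j).fg_top
        le_rfl fun m _ => by
          obtain ⟨f, h5⟩ := hτ j (Submodule.Quotient.mk m)
          have := hψ (π i f) m (by
            have e : ((τ i).quotKerEquivOfSurjective (hτ i)).symm (τ i f) =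
                Submodule.Quotient.mk f := by
              rw [LinearEquiv.symm_apply_eq]; rfl
            rw [← h5]
            exact congrArg ((LinearMap.ker (τ i)).liftQ (τ j) e1.le) e)
          rw [← two_eq]
          exact Submodule.mem_sup.2 ⟨ψ (π i f), ⟨_, rfl⟩, _, neg_mem this, by abel⟩
      exact ⟨ψ, r, h3, fun n => h4 (Submodule.smul_mem_pointwise_smul _ _ _ trivial)⟩
  rcases lt_or_gt_of_ne hij with h | h
  · exact ⟨i, j, h, Nat.lt_succ_iff.1 j.2, key _ _ e⟩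
  · exact ⟨j, i, h, Nat.lt_succ_iff.1 i.2, key _ _ e.symm⟩

section plane
variable {S : Type} [CommRing S] [IsDomain S] [Algebra S B] [Module.Finite S B] [Algebra S Q]
  [IsScalarTower S B Q] [IsLocalization (T0 B) Q]

theorem fac_hull (hS : Plane S) (hT : ∀ s : S, s ≠ 0 → algebraMap S B s ∈ T0 B) {c : B}
    (hc : Avg S c) {L : Submodule B Q} (hL : L.FG) : Fac c (Hull L) := by
  have := hc (Hull L) 1 ⟨(Hull L).restrictScalars S, inferInstance, inferInstance,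
    (hull_proj hS hT hL).2, ⟨⟨fun x => ⟨x.1, x.2⟩, fun _ _ => rfl⟩, fun _ _ => rfl⟩,
    ⟨⟨fun x => ⟨x.1, x.2⟩, fun _ _ => rfl⟩, fun _ _ => rfl⟩, fun n => (one_smul _ n).symm⟩
  rwa [map_one, one_mul] at this

theorem hull_fin (hS : Plane S) (hT : ∀ s : S, s ≠ 0 → algebraMap S B s ∈ T0 B)
    {L : Submodule B Q} (hL : L.FG) : Module.Finite B (Hull L) :=
  Module.Finite.iff_fg.2 (Submodule.FG.of_restrictScalars S
    (Module.Finite.iff_fg.1 (hull_proj hS hT hL).1))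

omit [Algebra S Q] [IsScalarTower S B Q] [IsLocalization (T0 B) Q] in
theorem chain (hS : Plane S) (P₀ P₁ P₂ : Ideal B) (h₀ : P₀.IsPrime) (h₁ : P₁.IsPrime)
    (h₂ : P₂.IsPrime) (l₁ : P₀ < P₁) (l₂ : P₁ < P₂) : P₂.IsMaximal := by
  by_contra hm
  obtain ⟨m, hm', hle⟩ := P₂.exists_le_maximal h₂.ne_top
  have l₃ : P₂ < m := hle.lt_of_ne fun e => hm (e ▸ hm')
  have a1 := Ideal.height_add_one_le_of_lt_of_isPrime (Ideal.IsIntegral.comap_lt_comap (R := S) l₁)
  have a2 := Ideal.height_add_one_le_of_lt_of_isPrime (Ideal.IsIntegral.comap_lt_comap (R := S) l₂)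
  have a3 := Ideal.height_add_one_le_of_lt_of_isPrime (Ideal.IsIntegral.comap_lt_comap (R := S) l₃)
  rw [hS.ht _ (Ideal.isMaximal_comap_of_isIntegral_of_isMaximal (R := S) m)] at a3
  have a4 : (1 : ℕ∞) + 1 + 1 ≤ 2 :=
    (add_le_add_left ((add_le_add_left (le_add_self.trans a1) 1).trans a2) 1).trans a3
  exact absurd a4 (by decide)

omit [Algebra S Q] [IsScalarTower S B Q] [IsLocalization (T0 B) Q] in
theorem min_not_max (hS : Plane S) (hT : ∀ s : S, s ≠ 0 → algebraMap S B s ∈ T0 B) (P : Ideal B)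
    (hP : P ∈ minimalPrimes B) : ¬P.IsMaximal := fun hm => by
  have h1 := hS.ht _ (Ideal.isMaximal_comap_of_isIntegral_of_isMaximal (R := S) P)
  have h2 : P.comap (algebraMap S B) = ⊥ := eq_bot_iff.2 fun s hs => by
    by_contra h0
    exact hT s h0 P hP hs
  rw [h2, Ideal.height_bot] at h1
  exact absurd h1 (by decide)

/-- two of boundedly many hulls are isomorphic near a given closed point -/
theorem core (hS : Plane S) (hT : ∀ s : S, s ≠ 0 → algebraMap S B s ∈ T0 B)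
    (hfin : ∀ I : Ideal B, (∀ P : Ideal B, P.IsPrime → I ≤ P → P.IsMaximal) → Finite (B ⧸ I))
    (hc : ∀ P : Ideal B, P.IsPrime → ¬P.IsMaximal →
      ∃ c, c ∉ P ∧ ∀ L : Submodule B Q, L.FG → Fac c (Hull L)) (m : Ideal B) (hm : m.IsMaximal) :
    ∃ P0 : ℕ, ∀ L : ℕ → Submodule B Q, (∀ n, (L n).FG) →
      (∀ n, ∃ t ∈ T0 B, algebraMap B Q t ∈ L n) → ∃ i j, i < j ∧ j ≤ P0 ∧ ∃ (s : Q) (r : B),
        r ∉ m ∧ (∀ ξ ∈ Hull (L i), s * ξ ∈ Hull (L j)) ∧
          ∀ η ∈ Hull (L j), ∃ ξ ∈ Hull (L i), r • η = s * ξ := by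
  classical
  have := hS.reg
  have : IsNoetherianRing B := IsNoetherianRing.of_finite S B
  let 𝔇 : Ideal B :=
    { carrier := {a | ∀ L : Submodule B Q, L.FG → Fac a (Hull L)}
      zero_mem' := fun _ _ => Fac.zero
      add_mem' := fun ha hb L hL => (ha L hL).add (hb L hL)
      smul_mem' := fun c _ ha L hL => (ha L hL).mul c }
  obtain ⟨a₁, h1, a₂, h2, h3, h4⟩ := exists_pair (I := 𝔇 ⊓ m) (chain hS) (min_not_max hS hT)
    fun P hP hn hle => by
      rcases hP.inf_le.1 hle with h | h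
      · obtain ⟨c, hc1, hc2⟩ := hc P hP hn
        exact hc1 (h hc2)
      · exact hn (hm.eq_of_le hP.ne_top h ▸ hm)
  let I : Ideal B := Ideal.span {a₁ ^ 2, a₂ ^ 2}
  have hI : ∀ P : Ideal B, P.IsPrime → I ≤ P → P.IsMaximal := fun P hP h =>
    h4 P hP (hP.mem_of_pow_mem 2 (h (Ideal.subset_span (by simp))))
      (hP.mem_of_pow_mem 2 (h (Ideal.subset_span (by simp))))
  obtain ⟨ρ, hρ⟩ := hull_gen (Q := Q) hS hT
  have : Finite I.minimalPrimes := Ideal.finite_minimalPrimes_of_isNoetherianRing B I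
  have := Fintype.ofFinite I.minimalPrimes
  obtain ⟨P0, hP0⟩ := pigeon (hfin I hI) (I.minimalPrimes × Fin ρ)
  refine ⟨P0, fun L hL h1L => ?_⟩
  choose g hg1 hg2 using fun (n : ℕ) (P : I.minimalPrimes) => hρ (L n) (hL n)
    (P.1.comap (algebraMap S B)) (have := hI _ P.2.1.1 P.2.1.2
      Ideal.isMaximal_comap_of_isIntegral_of_isMaximal (R := S) P.1)
  let π : ∀ n, (I.minimalPrimes × Fin ρ → B) →ₗ[B] Hull (L n) := fun n =>
    Fintype.linearCombination B fun k => ⟨g n k.1 k.2, hg1 n k.1 k.2⟩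
  have hu := IsLocalization.map_units Q (⟨a₁, h3⟩ : T0 B)
  obtain ⟨i, j, hij, hj, ψ, r, hr, hψ⟩ := hP0 (fun n => Hull (L n)) π (fun n ξ => by
      have h5 : (LinearMap.range (π n) ⊔ two (Hull (L n)) (a₁ ^ 2) (a₂ ^ 2)).colon {ξ} = ⊤ := by
        by_contra hc
        obtain ⟨P, hP, hle⟩ := Ideal.exists_le_maximal _ hc
        have h6 : I ≤ P := le_trans (fun a ha => Submodule.mem_colon_singleton.2
          (Submodule.mem_sup_right (by
            rw [two_eq]; exact Submodule.smul_mem_smul ha trivial))) hle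
        obtain ⟨P', hP', h7⟩ := Ideal.exists_minimalPrimes_le h6
        obtain rfl := (hI P' hP'.1.1 hP'.1.2).eq_of_le hP.ne_top h7
        obtain ⟨e, he, h8⟩ := hg2 n ⟨P', hP'⟩ ξ.1 ξ.2
        refine he (hle (Submodule.mem_colon_singleton.2 (Submodule.mem_sup_left ?_)))
        obtain ⟨c, h9⟩ := (Submodule.mem_span_range_iff_exists_fun S).1 h8
        refine ⟨fun k => if k.1 = ⟨P', hP'⟩ then algebraMap S B (c k.2) else 0, Subtype.ext ?_⟩
        rw [Submodule.coe_smul, algebraMap_smul, ← h9]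
        simp only [π, Fintype.linearCombination_apply, AddSubmonoidClass.coe_finsetSum,
          Submodule.coe_smul, Fintype.sum_prod_type]
        rw [Finset.sum_eq_single ⟨P', hP'⟩ (fun b _ hb => by simp [hb]) (by simp)]
        simp
      have h6 := Submodule.mem_colon_singleton.1 ((Ideal.eq_top_iff_one _).1 h5)
      rw [one_smul] at h6
      obtain ⟨_, ⟨f, rfl⟩, v, hv, rfl⟩ := Submodule.mem_sup.1 h6
      exact ⟨f, by simpa using hv⟩)
    (fun n => hull_fin hS hT (hL n)) (fun n => h1.1 _ (hL n)) (fun n => h2.1 _ (hL n))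
    fun n => hull_rp (L n) hu h4
  obtain ⟨t, ht, h5⟩ := h1L i
  have hut := IsLocalization.map_units Q (⟨t, ht⟩ : T0 B)
  obtain ⟨s, hs⟩ := unit_div hut (ψ ⟨_, le_hull _ h5⟩).1
  have key : ∀ ξ : Hull (L i), (ψ ξ).1 = s * ξ.1 := fun ξ => by
    obtain ⟨⟨b, t'⟩, h⟩ := IsLocalization.surj (T0 B) ξ.1
    have h6 : (t * t'.1) • ξ = b • (⟨_, le_hull _ h5⟩ : Hull (L i)) := Subtype.ext (by
      simp only [Submodule.coe_smul, Algebra.smul_def, map_mul]
      linear_combination algebraMap B Q t * h)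
    have h7 := congrArg (fun x => (ψ x).1) h6
    simp only [map_smul, Submodule.coe_smul] at h7
    refine sub_eq_zero.1 (unit_cancel (IsLocalization.map_units Q (⟨t, ht⟩ * t' : T0 B)) ?_)
    rw [smul_sub, Submonoid.coe_mul, h7, ← hs]
    simp only [Algebra.smul_def, map_mul]
    linear_combination -(algebraMap B Q t * s) * h
  refine ⟨i, j, hij, hj, s, r, fun h => hm.ne_top ((Ideal.eq_top_iff_one _).2 ?_),
    fun ξ hξ => key ⟨ξ, hξ⟩ ▸ (ψ ⟨ξ, hξ⟩).2, fun η hη => ?_⟩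
  · have : Ideal.span {a₁, a₂} ≤ m :=
      Ideal.span_le.2 (by rintro _ (rfl | rfl); exacts [h1.2, h2.2])
    simpa using sub_mem h (this hr)
  · obtain ⟨l, hl⟩ := hψ ⟨η, hη⟩
    exact ⟨l.1, l.2, (congrArg Subtype.val hl).symm.trans (key l)⟩

end plane

section field
variable {F : Type} [Field F] [Algebra F B]

theorem alg_of_fin [Nontrivial B] {r : ℕ} {ψ : MvPolynomial (Fin r) F →ₐ[F] B}
    (h : ψ.toRingHom.Finite) :
    Algebra.IsAlgebraic (Algebra.adjoin F (Set.range fun i => ψ (MvPolynomial.X i))) B := by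
  have h2 : MvPolynomial.aeval (fun i => ψ (MvPolynomial.X i)) = ψ := by ext i; simp
  have : Algebra.IsIntegral (Algebra.adjoin F (Set.range fun i => ψ (MvPolynomial.X i))) B := by
    refine ⟨fun x => ?_⟩
    obtain ⟨f, hf, e⟩ := h.to_isIntegral x
    let g : MvPolynomial (Fin r) F →+*
        Algebra.adjoin F (Set.range fun i => ψ (MvPolynomial.X i)) :=
      ψ.toRingHom.codRestrict _ fun y => by
        rw [Algebra.adjoin_range_eq_range_aeval, h2]
        exact ⟨y, rfl⟩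
    refine ⟨f.map g, hf.map g, ?_⟩
    rw [Polynomial.eval₂_map]
    exact e
  infer_instance

theorem inj_of_trdeg [IsDomain B] {r : ℕ} {ψ : MvPolynomial (Fin r) F →ₐ[F] B}
    (h : ψ.toRingHom.Finite) (hr : Algebra.trdeg F B = r) : Injective ψ := by
  have := alg_of_fin h
  have h4 := (Algebra.IsAlgebraic.isTranscendenceBasis_of_le_trdeg_of_finite F
    (fun i => ψ (MvPolynomial.X i)) (by simp [hr])).1
  rw [algebraicIndependent_iff_injective_aeval] at h4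
  rwa [MvPolynomial.aeval_unique ψ]

theorem trdeg_of_inj [IsDomain B] {r : ℕ} {ψ : MvPolynomial (Fin r) F →ₐ[F] B}
    (h : ψ.toRingHom.Finite) (hi : Injective ψ) : Algebra.trdeg F B = r := by
  have := alg_of_fin h
  have h1 : AlgebraicIndependent F fun i => ψ (MvPolynomial.X i) := by
    rw [algebraicIndependent_iff_injective_aeval]
    rwa [MvPolynomial.aeval_unique ψ] at hi
  simpa using (h1.isTranscendenceBasis_iff_isAlgebraic.2 this).cardinalMk_eq_trdeg.symm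

theorem fin_quot {r : ℕ} {ψ : MvPolynomial (Fin r) F →ₐ[F] B} (h : ψ.toRingHom.Finite)
    (P : Ideal B) : ((Ideal.Quotient.mkₐ F P).comp ψ).toRingHom.Finite :=
  (RingHom.Finite.of_surjective (Ideal.Quotient.mk P) Ideal.Quotient.mk_surjective).comp h

theorem mem_T0 {r : ℕ} (heq : ∀ P ∈ minimalPrimes B, Algebra.trdeg F (B ⧸ P) = r)
    {ψ : MvPolynomial (Fin r) F →ₐ[F] B} (h : ψ.toRingHom.Finite) {s : MvPolynomial (Fin r) F}
    (hs : s ≠ 0) : ψ s ∈ T0 B := fun P hP h1 => by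
  have := hP.1.1
  exact hs ((injective_iff_map_eq_zero _).1 (inj_of_trdeg (fin_quot h P) (heq P hP)) s
    (Ideal.Quotient.eq_zero_iff_mem.2 h1))

theorem exists_nn [Nontrivial B] [Algebra.FiniteType F B] {r : ℕ}
    (heq : ∀ P ∈ minimalPrimes B, Algebra.trdeg F (B ⧸ P) = r) :
    ∃ ψ : MvPolynomial (Fin r) F →ₐ[F] B, ψ.toRingHom.Finite := by
  obtain ⟨s, g, hg, hf⟩ := exists_finite_inj_algHom_of_fg F B
  let _ := g.toRingHom.toAlgebra
  have : Module.Finite (MvPolynomial (Fin s) F) B := hf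
  obtain ⟨P, -, h1, h2⟩ := Ideal.exists_ideal_over_prime_of_isIntegral
    (S := B) (⊥ : Ideal (MvPolynomial (Fin s) F)) ⊥ (fun x hx => hg (hx.trans (map_zero g).symm))
  obtain ⟨P₀, hP₀, hle⟩ := Ideal.exists_minimalPrimes_le (bot_le : (⊥ : Ideal B) ≤ P)
  have := hP₀.1.1
  have h3 := trdeg_of_inj (fin_quot hf P₀) ((injective_iff_map_eq_zero _).2 fun a ha => by
    rw [← Ideal.mem_bot, ← h2]
    exact hle (Ideal.Quotient.eq_zero_iff_mem.1 ha))
  obtain rfl : r = s := by exact_mod_cast (heq P₀ hP₀).symm.trans h3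
  exact ⟨g, hf⟩

/-- Q2 on an equidimensional affine surface over a finite field whose differentials have two
generators at all primes that are not maximal -/
theorem surf (p : ℕ) [Fact p.Prime] [Finite F] [Algebra.FiniteType F B] (hp : (p : B) = 0)
    [IsLocalization (T0 B) Q] (heq : ∀ P ∈ minimalPrimes B, Algebra.trdeg F (B ⧸ P) = (2 : ℕ))
    (hΩ : ∀ (P : Ideal B) [P.IsPrime], ¬P.IsMaximal → ∃ a : Fin 2 → B,
      ∀ δ : Derivation ℤ B P.ResidueField, (∀ c : F, δ (algebraMap F B c) = 0) →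
        (∀ i, δ (a i) = 0) → δ = 0) (m : Ideal B) (hm : m.IsMaximal) :
    ∃ P0 : ℕ, ∀ L : ℕ → Submodule B Q, (∀ n, (L n).FG) →
      (∀ n, ∃ t ∈ T0 B, algebraMap B Q t ∈ L n) → ∃ i j, i < j ∧ j ≤ P0 ∧ ∃ (s : Q) (r : B),
        r ∉ m ∧ (∀ ξ ∈ Hull (L i), s * ξ ∈ Hull (L j)) ∧
          ∀ η ∈ Hull (L j), ∃ ξ ∈ Hull (L i), r • η = s * ξ := by
  have : Nontrivial B := nontrivial_of_ne 1 0 fun h =>
    hm.ne_top ((Ideal.eq_top_iff_one _).2 (h ▸ zero_mem m))
  obtain ⟨φ, hφ⟩ := exists_nn heq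
  have hc : ∀ P : Ideal B, P.IsPrime → ¬P.IsMaximal →
      ∃ c, c ∉ P ∧ ∀ L : Submodule B Q, L.FG → Fac c (Hull L) := fun P hP hn => by
    obtain ⟨a, ha⟩ := hΩ P hn
    obtain ⟨ψ, hψ, e, he, h1⟩ := n2_main p hp hφ P a ha
    let _ := ψ.toRingHom.toAlgebra
    let _ := ((algebraMap B Q).comp ψ.toRingHom).toAlgebra
    have : IsScalarTower (MvPolynomial (Fin 2) F) B Q := .of_algebraMap_eq fun _ => rfl
    have : Module.Finite (MvPolynomial (Fin 2) F) B := hψ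
    exact ⟨_, h1, fun L hL => fac_hull (plane_mv F) (fun s hs => mem_T0 heq hψ hs) (n2_avg he) hL⟩
  let _ := φ.toRingHom.toAlgebra
  let _ := ((algebraMap B Q).comp φ.toRingHom).toAlgebra
  have : IsScalarTower (MvPolynomial (Fin 2) F) B Q := .of_algebraMap_eq fun _ => rfl
  have : Module.Finite (MvPolynomial (Fin 2) F) B := hφ
  refine core (plane_mv F) (fun s hs => mem_T0 heq hφ hs) (fun I hI => ?_) hc m hm
  have : Module.Finite F (B ⧸ I) := (Module.finite_iff_krullDimLE_zero F (B ⧸ I)).2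
    (Ideal.krullDimLE_zero_quotient_iff_forall_minimalPrimes_isMaximal.2
      fun P hP => hI P hP.1.1 hP.1.2)
  exact Module.finite_of_finite F

end field

end Pool.Agent.Lib.MP_62d77c_ag.R.Q2
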