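import Pool.Agent.Lib.MP_62d77c_ag.R.Q2b
import Pool.Agent.Lib.MP_62d77c_ag.R.N1e
import Pool.Agent.Lib.MP_62d77c_ag.R.N1h

/-! A bounded multiple of a divisor is principal on a slice, away from closed points. -/

set_option autoImplicit false

namespace Pool.Agent.Lib.MP_62d77c_ag.R

open Function Q2

variable {L : Type} [Field L] {R : Subring L} {x : R} {D : Dvs L} {z : L}

/-- `z` is a section of `O(D)` at the generic points of `x = 0` -/
def q2Sl (R : Subring L) (x : L) (D : Dvs L) (z : L) : Prop :=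
  ∀ O ∈ Ht1 R, O.valuation x < 1 → z * unif O ^ D O ∈ O

/-- the semilocal ring of the generic points of `x = 0` -/
def q2R (R : Subring L) (x : L) : Subring L where
  carrier := {z | ∀ O ∈ Ht1 R, O.valuation x < 1 → z ∈ O}
  one_mem' := fun O _ _ => one_mem O
  zero_mem' := fun O _ _ => zero_mem O
  mul_mem' := fun ha hb O h1 h2 => mul_mem (ha O h1 h2) (hb O h1 h2)
  add_mem' := fun ha hb O h1 h2 => add_mem (ha O h1 h2) (hb O h1 h2)
  neg_mem' := fun ha O h1 h2 => neg_mem (ha O h1 h2)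

theorem le_q2R (R : Subring L) (x : L) : R ≤ q2R R x := fun _ hz _ hO _ => Ht1.le hO hz

theorem q2_min (h : Nrm R) (x0 : x ≠ 0) {P : Ideal R} :
    P ∈ (Ideal.span {x}).minimalPrimes ↔ P.IsPrime ∧ P.height = 1 ∧ x ∈ P := by
  have := h.noeth
  have h1 := Ideal.one_le_height_span_singleton_of_mem_nonZeroDivisors
    (mem_nonZeroDivisors_of_ne_zero x0)
  constructor
  · exact fun hP => ⟨hP.1.1, le_antisymm
      (Ideal.height_le_one_of_isPrincipal_of_mem_minimalPrimes _ _ hP)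
      (h1.trans (Ideal.height_mono hP.1.2)), hP.1.2 (Ideal.mem_span_singleton_self x)⟩
  · rintro ⟨hP, h2, h3⟩
    exact Ideal.mem_minimalPrimes_of_height_le ((Ideal.span_singleton_le_iff_mem _).2 h3) (h2 ▸ h1)

theorem q2_T0 (h : Nrm R) (x0 : x ≠ 0) {t : R} :
    Ideal.Quotient.mk (Ideal.span {x}) t ∈ T0 (R ⧸ Ideal.span {x}) ↔
      ∀ O ∈ Ht1 R, O.valuation x < 1 → O.valuation t = 1 := by
  constructor
  · rintro ht O ⟨𝔮, h1, h2, h3⟩ hx
    have h4 := (q2_min h x0).2 ⟨h1, h2, (h3 x).2.2 hx⟩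
    rw [Ideal.minimalPrimes_eq_comap] at h4
    obtain ⟨P, hP, rfl⟩ := h4
    exact h3.eq_one (ht P hP)
  · intro ht P hP h1
    have h4 : P.comap (Ideal.Quotient.mk _) ∈ (Ideal.span {x}).minimalPrimes := by
      rw [Ideal.minimalPrimes_eq_comap]; exact ⟨P, hP, rfl⟩
    obtain ⟨h5, h6, h7⟩ := (q2_min h x0).1 h4
    obtain ⟨O, hO⟩ := exists_ctr _ h5
    exact ((hO t).2.1 h1).ne (ht O ⟨_, h5, h6, hO⟩ ((hO x).2.1 h7))

theorem q2_clear (h : Nrm R) (x0 : x ≠ 0) (hz : q2Sl R x D z) :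
    ∃ t : R, (t : L) ≠ 0 ∧ (∀ O ∈ Ht1 R, O.valuation x < 1 → O.valuation t = 1) ∧
      (t : L) * z ∈ Dv R D := by
  have := h.noeth
  let T : Submonoid L :=
    { carrier := {t | t ∈ R ∧ t ≠ 0 ∧ ∀ O ∈ Ht1 R, O.valuation x < 1 → O.valuation t = 1}
      one_mem' := ⟨one_mem _, one_ne_zero, fun O _ _ => map_one _⟩
      mul_mem' := fun ha hb => ⟨mul_mem ha.1 hb.1, mul_ne_zero ha.2.1 hb.2.1, fun O h1 h2 => by
        rw [map_mul, ha.2.2 O h1 h2, hb.2.2 O h1 h2, mul_one]⟩ }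
  obtain ⟨s, hs, h1⟩ := h.exists_clear (z := z) (D := D) T (fun t ht => ⟨ht.1, ht.2.1⟩)
    fun O hO => by
      by_cases hx : O.valuation x < 1
      · exact Or.inl (hz O hO hx)
      obtain ⟨𝔮, h1, h2, h3⟩ := hO
      obtain ⟨t, ht, h4⟩ := Q2.avoid (I := 𝔮) (s := insert ⊥ (Ideal.span {x}).minimalPrimes)
        ((Ideal.finite_minimalPrimes_of_isNoetherianRing R _).insert _) (by
          rintro P (rfl | hP)
          · exact ⟨Ideal.isPrime_bot, fun e => Ideal.ne_bot_of_height_eq_one h2 (eq_bot_iff.2 e)⟩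
          · obtain ⟨h5, h6, h7⟩ := (q2_min h x0).1 hP
            refine ⟨h5, fun e => hx ((h3 x).2.1 ?_)⟩
            rcases e.eq_or_lt with e | e
            · exact e ▸ h7
            · have := Ideal.height_add_one_le_of_lt_of_isPrime e
              rw [h2, h6] at this
              exact absurd this (by decide))
      refine Or.inr ⟨t, ⟨t.2, fun e => h4 ⊥ (Or.inl rfl) (Subtype.ext e), ?_⟩, (h3 t).2.1 ht⟩
      rintro O' ⟨𝔮', k1, k2, k3⟩ hx'
      exact k3.eq_one (h4 _ (Or.inr ((q2_min h x0).2 ⟨k1, k2, (k3 x).2.2 hx'⟩)))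
  exact ⟨⟨s, hs.1⟩, hs.2.1, hs.2.2, h1⟩

theorem q2_inv {t : L} (ht : ∀ O ∈ Ht1 R, O.valuation x < 1 → O.valuation t = 1) :
    t⁻¹ ∈ q2R R x := fun O h1 h2 =>
  (O.valuation_le_one_iff _).1 (by rw [map_inv₀, ht O h1 h2, inv_one])

/-- the total ring of fractions of the slice as a quotient of the semilocal ring -/
theorem q2_phi (h : Nrm R) (x0 : x ≠ 0) (hx : Ideal.span {x} ≠ ⊤) (Q : Type) [CommRing Q]
    [Algebra (R ⧸ Ideal.span {x}) Q] [IsLocalization (T0 (R ⧸ Ideal.span {x})) Q] :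
    ∃ φ : q2R R x →+* Q, (∀ r : R, φ (Subring.inclusion (le_q2R R x) r) =
      algebraMap _ Q (Ideal.Quotient.mk (Ideal.span {x}) r)) ∧ Surjective φ ∧
      ∀ y, φ y = 0 → (y : L) / x ∈ q2R R x := by
  let T := (T0 (R ⧸ Ideal.span {x})).comap (Ideal.Quotient.mk (Ideal.span {x}))
  have hT : ∀ t ∈ T, (t : L) ≠ 0 := fun t ht e => by
    obtain ⟨P, hP, hle⟩ := Ideal.exists_le_maximal _ hx
    obtain ⟨P', hP', -⟩ := Ideal.exists_minimalPrimes_le hle
    obtain ⟨h5, h6, h7⟩ := (q2_min h x0).1 hP'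
    obtain ⟨O, hO⟩ := exists_ctr _ h5
    have := (q2_T0 h x0).1 ht O ⟨_, h5, h6, hO⟩ ((hO x).2.1 h7)
    simp [e] at this
  let _ := (Subring.inclusion (le_q2R R x)).toAlgebra
  have hu : ∀ t : T, IsUnit (algebraMap R (q2R R x) t) := fun t =>
    IsUnit.of_mul_eq_one ⟨_, q2_inv ((q2_T0 h x0).1 t.2)⟩ (Subtype.ext (mul_inv_cancel₀ (hT _ t.2)))
  have : IsLocalization T (q2R R x) := by
    refine (isLocalization_iff _ _).2 ⟨hu, fun y => ?_, fun {a b} e => ⟨1, ?_⟩⟩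
    · obtain ⟨t, -, h1, h2⟩ := q2_clear (D := 0) (z := y.1) h x0 fun O k1 k2 => by
        simpa using y.2 O k1 k2
      exact ⟨⟨⟨_, h.mem_Dv_zero.1 h2⟩, t, (q2_T0 h x0).2 h1⟩, Subtype.ext (mul_comm _ _)⟩
    · rw [Subring.inclusion_injective _ e]
  let φ := IsLocalization.lift (M := T) (S := q2R R x)
    (g := (algebraMap _ Q).comp (Ideal.Quotient.mk (Ideal.span {x})))
    fun t => IsLocalization.map_units Q (⟨_, t.2⟩ : T0 (R ⧸ Ideal.span {x}))
  have hφ : ∀ r : R, φ (algebraMap R (q2R R x) r) =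
      algebraMap _ Q (Ideal.Quotient.mk (Ideal.span {x}) r) := fun r => IsLocalization.lift_eq _ r
  refine ⟨φ, hφ, fun ξ => ?_, fun y hy => ?_⟩
  · obtain ⟨⟨b, t, ht⟩, e⟩ := IsLocalization.surj (T0 (R ⧸ Ideal.span {x})) ξ
    obtain ⟨b, rfl⟩ := Ideal.Quotient.mk_surjective b
    obtain ⟨t, rfl⟩ := Ideal.Quotient.mk_surjective t
    obtain ⟨v, hv⟩ := (hu ⟨t, ht⟩).exists_right_inv
    have := congrArg φ hv
    rw [map_mul, hφ, map_one] at this
    refine ⟨algebraMap R _ b * v, ?_⟩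
    rw [map_mul, hφ, ← e, mul_assoc, this, mul_one]
  · obtain ⟨⟨a, t⟩, e⟩ := IsLocalization.surj T y
    have h1 := congrArg φ e
    rw [map_mul, hy, zero_mul, hφ, eq_comm,
      IsLocalization.map_eq_zero_iff (T0 (R ⧸ Ideal.span {x}))] at h1
    obtain ⟨⟨t', ht'⟩, h2⟩ := h1
    obtain ⟨t', rfl⟩ := Ideal.Quotient.mk_surjective t'
    rw [← map_mul, Ideal.Quotient.eq_zero_iff_mem, Ideal.mem_span_singleton'] at h2
    obtain ⟨c, hc⟩ := h2
    have h3 : (y : L) * t.1 = a := congrArg Subtype.val e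
    have h4 : (c : L) * x = t' * a := congrArg Subtype.val hc
    have h5 : (x : L) ≠ 0 := fun e => x0 (Subtype.ext e)
    have h6 := hT _ t.2
    have h7 := hT t' ht'
    have : (y : L) / x = c * (t.1 : L)⁻¹ * (t' : L)⁻¹ := by
      field_simp
      linear_combination t' * h3 - h4
    rw [this]
    exact mul_mem (mul_mem (le_q2R R x c.2) (q2_inv ((q2_T0 h x0).1 t.2)))
      (q2_inv ((q2_T0 h x0).1 ht'))

theorem q2_pow (h : Nrm R) (hz : z ∈ Dv R D) (n : ℕ) : z ^ n ∈ Dv R (n • D) := by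
  induction n with
  | zero => simpa using h.mem_Dv_zero.2 (one_mem R)
  | succ n ih => rw [pow_succ, succ_nsmul]; exact h.mul_mem_Dv ih hz

theorem q2_sl (h : Nrm R) {g : L} (g0 : g ≠ 0)
    (hg : ∀ O ∈ Ht1 R, O.valuation x < 1 → ord O g = -D O) (n : ℕ) :
    q2Sl R x (n • D) z ↔ z / g ^ n ∈ q2R R x := by
  by_cases h0 : z = 0
  · subst h0
    exact ⟨fun _ => by simp [zero_mem], fun _ O _ _ => by simp [zero_mem]⟩
  refine forall₃_congr fun O hO hx => ?_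
  have hd := h.disc hO
  rw [hd.mul_mem_iff h0, hd.mem_iff (div_ne_zero h0 (pow_ne_zero _ g0)),
    hd.ord_div h0 (pow_ne_zero _ g0), hd.ord_pow g0, hg O hO hx, Finsupp.smul_apply, nsmul_eq_mul]
  constructor <;> intro <;> linarith

theorem q2_div (h : Nrm R) (x0 : x ≠ 0) {a : R} (ha : (a : L) / x ∈ q2R R x) :
    a ∈ Ideal.span {x} := by
  have h5 : (x : L) ≠ 0 := fun e => x0 (Subtype.ext e)
  refine Ideal.mem_span_singleton'.2 ⟨⟨a / x, h.hartogs fun O hO => ?_⟩,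
    Subtype.ext (div_mul_cancel₀ _ h5)⟩
  by_cases hx : O.valuation x < 1
  · exact ha O hO hx
  · have := le_antisymm ((O.valuation_le_one_iff _).2 (Ht1.le hO x.2)) (not_lt.1 hx)
    rw [← O.valuation_le_one_iff, map_div₀, this, div_one, O.valuation_le_one_iff]
    exact Ht1.le hO a.2

/-- Q2 -/
theorem q2_main (p : ℕ) [Fact p.Prime] [Algebra (ZMod p) R] [Algebra.FiniteType (ZMod p) R]
    (h : Nrm R) (hr : Algebra.trdeg (ZMod p) R = (3 : ℕ)) (m : Ideal R) (hm : m.IsMaximal)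
    (hx : x ∈ m) (x0 : x ≠ 0)
    (hΩ : ∀ (P : Ideal (R ⧸ Ideal.span {x})) [P.IsPrime], ¬P.IsMaximal →
      ∃ a : Fin 2 → R ⧸ Ideal.span {x},
        ∀ δ : Derivation ℤ (R ⧸ Ideal.span {x}) P.ResidueField, (∀ i, δ (a i) = 0) → δ = 0) :
    ∃ P0 : ℕ, ∀ D : Dvs L, (∀ P : Ideal R, P.IsPrime → ¬P.IsMaximal → x ∈ P →
      ∃ e : R, e ∉ P ∧ (e : L) ∈ Dv R D * Dv R (-D)) →
      ∃ n : ℕ, 1 ≤ n ∧ n ≤ P0 ∧ ∃ s : L, q2Sl R x (n • D) s ∧
        ∀ P : Ideal R, P.IsPrime → ¬P.IsMaximal → x ∈ P → ∃ e : R, e ∉ P ∧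
          ∃ z ∈ Dv R (n • D), q2Sl R x (n • D) ((e * s - z) / x) ∧
            (P ≤ m → ∃ w ∈ Dv R (-(n • D)), ∃ e' : R, e' ∉ P ∧ z * w = e') := by
  classical
  have := h.noeth
  let I : Ideal R := Ideal.span {x}
  let μ := Ideal.Quotient.mk I
  have hμ : Surjective μ := Ideal.Quotient.mk_surjective
  let Q := Localization (T0 (R ⧸ I))
  have hmem : ∀ P : Ideal R, x ∈ P → ∀ r, μ r ∈ P.map μ ↔ r ∈ P := fun P hP r =>
    Ideal.mem_quotient_iff_mem ((Ideal.span_singleton_le_iff_mem _).2 hP)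
  have hpr : ∀ P : Ideal R, P.IsPrime → x ∈ P → (P.map μ).IsPrime := fun P _ hP =>
    Ideal.map_isPrime_of_surjective hμ (by
      rw [Ideal.mk_ker]; exact (Ideal.span_singleton_le_iff_mem _).2 hP)
  have hmx : ∀ P : Ideal R, x ∈ P → (P.map μ).IsMaximal → P.IsMaximal := fun P hP hq => by
    have := Ideal.comap_isMaximal_of_surjective μ hμ (K := P.map μ)
    rwa [show (P.map μ).comap μ = P from Ideal.ext (hmem P hP)] at this
  have hm' : (m.map μ).IsMaximal := (Ideal.map_eq_top_or_isMaximal_of_surjective μ hμ hm).resolve_left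
    (hpr m hm.isPrime hx).ne_top
  obtain ⟨P0, hP0⟩ := surf (F := ZMod p) (B := R ⧸ I) (Q := Q) p
    (by rw [← map_natCast (algebraMap (ZMod p) (R ⧸ I)), ZMod.natCast_self, map_zero])
    (fun P hP => by
      have := hP.1.1
      have h4 : P.comap μ ∈ I.minimalPrimes := by
        rw [Ideal.minimalPrimes_eq_comap]; exact ⟨P, hP, rfl⟩
      obtain ⟨h5, h6, -⟩ := (q2_min h x0).1 h4
      obtain ⟨s, hs⟩ := n1h_fin (K := ZMod p) (P.comap μ)
      have h7 := n1h_dim hr _ hs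
      rw [h6] at h7
      have h8 : 1 + s = 3 := by exact_mod_cast h7
      obtain rfl : s = 2 := by omega
      rw [← hs]
      let κ := (Ideal.Quotient.mkₐ (ZMod p) P).comp (Ideal.Quotient.mkₐ (ZMod p) I)
      have h9 : RingHom.ker κ = P.comap μ := Ideal.ext fun r => Ideal.Quotient.eq_zero_iff_mem
      exact ((Ideal.quotientEquivAlgOfEq (ZMod p) h9.symm).trans
        (Ideal.quotientKerAlgEquivOfSurjective (f := κ)
          (Ideal.Quotient.mk_surjective.comp hμ))).trdeg_eq.symm)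
    (fun P _ hP => (hΩ P hP).imp fun a ha δ _ => ha δ) _ hm'
  refine ⟨P0, fun D hD => ?_⟩
  have x0' : (x : L) ≠ 0 := fun e => x0 (Subtype.ext e)
  obtain ⟨φ, hφ, hs, hk⟩ := q2_phi h x0 (fun e => hm.ne_top (top_unique (e ▸
    (Ideal.span_singleton_le_iff_mem _).2 hx))) Q
  let ι := Subring.inclusion (le_q2R R x)
  obtain ⟨g, hg, g0, hg'⟩ := h.exists_gen_finite D (h.finite_lt x.2 x0') fun _ h => h.1
  have hsl := fun (z : L) n => q2_sl (z := z) h g0 (fun O h1 h2 => hg' O ⟨h1, h2⟩) n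
  let lam : ∀ n : ℕ, Dv R (n • D) →ₛₗ[μ] Q := fun n =>
    { toFun := fun z => φ ⟨z.1 / g ^ n, (hsl _ n).1 fun O h1 _ => z.2 O h1⟩
      map_add' := fun a b => by
        rw [← map_add]; exact congrArg φ (Subtype.ext (add_div _ _ _))
      map_smul' := fun r a => by
        rw [Algebra.smul_def (μ r), ← hφ, ← map_mul]
        exact congrArg φ (Subtype.ext (mul_div_assoc _ _ _)) }
  have hL : ∀ n ξ, ξ ∈ (lam n).range ↔
      ∃ y : q2R R x, (y : L) * g ^ n ∈ Dv R (n • D) ∧ φ y = ξ := fun n ξ =>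
    ⟨fun ⟨z, e⟩ => ⟨_, by simp [div_mul_cancel₀ _ (pow_ne_zero n g0)], e⟩,
      fun ⟨y, h1, e⟩ => ⟨⟨_, h1⟩, e ▸ congrArg φ
        (Subtype.ext (mul_div_cancel_right₀ _ (pow_ne_zero n g0)))⟩⟩
  obtain ⟨i, j, hij, hj, s, r, hr0, h1, h2⟩ := hP0 (fun n => (lam n).range)
    (fun n => have := Module.Finite.iff_fg.2 (h.Dv_fg (n • D)); Submodule.fg_range _)
    fun n => ⟨1, one_mem _, (hL n _).2 ⟨1, by simpa using q2_pow h hg n, by simp⟩⟩
  obtain ⟨σ, rfl⟩ := hs s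
  obtain ⟨r, rfl⟩ := hμ r
  obtain ⟨n, rfl⟩ := Nat.exists_eq_add_of_le hij.le
  refine ⟨n, by omega, by omega, σ * g ^ n, (hsl _ n).2 (by
    rw [mul_div_cancel_right₀ _ (pow_ne_zero n g0)]; exact σ.2), fun P hP hn hxP => ?_⟩
  obtain ⟨u, hu, v, hv, e₀, he₀, huv⟩ : ∃ u ∈ Dv R D, ∃ v ∈ Dv R (-D), ∃ e : R, e ∉ P ∧
      u * v = e := by
    by_contra hc
    push Not at hc
    obtain ⟨e, he, h3⟩ := hD P hP hn hxP
    have : ∀ z ∈ Dv R D * Dv R (-D), ∃ a ∈ P, z = a := fun z hz => by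
      refine Submodule.mul_induction_on hz (fun u hu v hv => ?_) ?_
      · refine ⟨⟨_, h.mul_mem_of_neg hu hv⟩, ?_, rfl⟩
        by_contra h4
        exact hc u hu v hv _ h4 rfl
      · rintro _ _ ⟨a, ha, rfl⟩ ⟨b, hb, rfl⟩
        exact ⟨a + b, add_mem ha hb, rfl⟩
    obtain ⟨a, ha, h4⟩ := this _ h3
    exact he (Subtype.ext h4 ▸ ha)
  let y : q2R R x := ⟨u / g, by
    simpa using (hsl u 1).1 fun O h1 _ => by simpa using hu O h1⟩
  let ρ : R := ⟨g * v, h.mul_mem_of_neg hg hv⟩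
  have hρ : φ (ι ρ) * φ y = φ (ι e₀) := by
    rw [← map_mul]
    refine congrArg φ (Subtype.ext ?_)
    change g * v * (u / g) = e₀
    rw [← huv]; field_simp
  have hy : ∀ k, φ y ^ k ∈ (lam k).range := fun k => (hL k _).2 ⟨y ^ k, by
    simpa [y, div_pow, div_mul_cancel₀ _ (pow_ne_zero k g0)] using q2_pow h hu k, map_pow _ _ _⟩
  have hv' : ∀ k : ℕ, v ^ k ∈ Dv R (-(k • D)) := fun k => neg_nsmul D k ▸ q2_pow h hv k
  have hgen : ∀ k, ∀ ξ ∈ Hull (lam k).range, ∃ e : R, e ∉ P ∧ ∃ b : R,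
      φ (ι e) * ξ = φ (ι b) * φ y ^ k := fun k ξ hξ => by
    obtain ⟨e, he, h3⟩ := hξ _ (hpr P hP hxP) fun h => hn (hmx P hxP h)
    obtain ⟨e, rfl⟩ := hμ e
    obtain ⟨w, hw, h4⟩ := (hL k _).1 h3
    refine ⟨e₀ ^ k * e, fun h5 => (hP.mem_or_mem h5).elim (fun h6 => he₀ (hP.mem_of_pow_mem _ h6))
      fun h6 => he ((hmem P hxP e).2 h6), ⟨_, h.mul_mem_of_neg hw (hv' k)⟩, ?_⟩
    rw [map_mul, map_mul, mul_assoc, hφ e, ← Algebra.smul_def, ← h4, ← map_pow, ← map_mul,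
      ← map_mul]
    refine congrArg φ (Subtype.ext ?_)
    change ((e₀ ^ k : R) : L) * w = w * g ^ k * v ^ k * (u / g) ^ k
    rw [Subring.coe_pow, ← huv, div_pow, mul_pow]; field_simp
  obtain ⟨e₁, he₁, b, hb⟩ := hgen _ _ (h1 _ (le_hull _ (hy i)))
  have hpw : ∀ k : ℕ, e₀ ^ k ∉ P := fun k h6 => he₀ (hP.mem_of_pow_mem _ h6)
  refine ⟨e₁ * e₀ ^ i, fun h5 => (hP.mem_or_mem h5).elim he₁ (hpw i),
    (b * e₀ ^ i : R) • u ^ n, Submodule.smul_mem _ _ (q2_pow h hu n), (hsl _ n).2 ?_,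
    fun hle => ⟨v ^ n, hv' n, b * e₀ ^ i * e₀ ^ n, fun h5 => ?_, ?_⟩⟩
  · have := hk (ι (e₁ * e₀ ^ i) * σ - ι (b * e₀ ^ i) * y ^ n) (by
      simp only [map_sub, map_mul, map_pow, ← hρ]
      linear_combination φ (ι ρ) ^ i * hb)
    convert this using 1
    change _ = (((e₁ * e₀ ^ i : R) : L) * σ - ((b * e₀ ^ i : R) : L) * (u / g) ^ n) / x
    rw [Subring.smul_def, smul_eq_mul, div_pow]; field_simp
  · have hbP : b ∈ P :=
      ((hP.mem_or_mem h5).resolve_right (hpw n) |> hP.mem_or_mem).resolve_right (hpw i)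
    obtain ⟨ξ, hξ, h6⟩ := h2 _ (le_hull _ (hy (i + n)))
    obtain ⟨e₂, he₂, c, hc⟩ := hgen _ _ hξ
    rw [Algebra.smul_def, ← hφ] at h6
    have h7' := hk (ι ((r * e₂ * e₁ - c * b) * e₀ ^ (i + n))) (by
      simp only [map_sub, map_mul, map_pow, ← hρ]
      linear_combination φ (ι ρ) ^ (i + n) * (φ (ι e₂) * φ (ι e₁) * h6 + φ (ι e₁) * φ σ * hc +
        φ (ι c) * hb))
    have h7 := q2_div h x0 (a := (r * e₂ * e₁ - c * b) * e₀ ^ (i + n)) h7'
    have h8 := (hP.mem_or_mem ((Ideal.span_singleton_le_iff_mem _).2 hxP h7)).resolve_right (hpw _)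
    have h9 : r * e₂ * e₁ ∈ P := by simpa using add_mem h8 (P.mul_mem_left c hbP)
    exact hr0 ((hmem m hx r).2 (hle
      (((hP.mem_or_mem h9).resolve_right he₁ |> hP.mem_or_mem).resolve_right he₂)))
  · rw [Subring.smul_def, smul_eq_mul, Subring.coe_mul _ _ (e₀ ^ n), Subring.coe_pow _ e₀ n, ← huv]
    ring

end Pool.Agent.Lib.MP_62d77c_ag.R
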