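import Mathlib

/-! A bound for the length of `E ⊗ M` bounds the annihilator of `E` from below. -/

set_option autoImplicit false

namespace Pool.Agent.Lib.MP_62d77c_ag.R

open IsLocalRing TensorProduct
open scoped Pointwise

section core
variable {R K E : Type} [CommRing R] [CommRing K] [Algebra R K] [AddCommGroup E] [Module R E]

theorem q3_det_mem_ann {r : ℕ} (e : Fin r → E) (he : Submodule.span R (Set.range e) = ⊤)
    (U : Matrix (Fin r) (Fin r) R) (hU : ∀ i, ∑ l, U i l • e l = 0) :
    U.det ∈ Module.annihilator R E := by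
  classical
  have h1 : ∀ k, U.det • e k = 0 := by
    intro k
    have h2 : ∑ i, U.adjugate k i • ∑ l, U i l • e l = 0 := by simp [hU]
    simp only [Finset.smul_sum, smul_smul] at h2
    rw [Finset.sum_comm] at h2
    simp only [← Finset.sum_smul, ← Matrix.mul_apply, Matrix.adjugate_mul] at h2
    simpa [Matrix.one_apply, ite_smul] using h2
  rw [Module.mem_annihilator]
  intro x
  have hx : x ∈ Submodule.span R (Set.range e) := he ▸ Submodule.mem_top
  induction hx using Submodule.span_induction with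
  | mem x h => obtain ⟨k, rfl⟩ := h; exact h1 k
  | zero => simp
  | add x y _ _ hx hy => rw [smul_add, hx, hy, add_zero]
  | smul c x _ hx => rw [smul_comm, hx, smul_zero]

theorem q3_single_mem {r : ℕ} (e : Fin r → E) (he : Submodule.span R (Set.range e) = ⊤)
    (M : Submodule R K) (a : R) (i : Fin r) (z : M) (h : a • (e i ⊗ₜ[R] z) = 0) :
    ∃ (n : ℕ) (u : Fin n → Fin r → R) (w : Fin n → K), (∀ k, ∑ l, u k l • e l = 0) ∧
      (∀ k, w k ∈ M) ∧ Pi.single i (a • (z : K)) = ∑ k, fun l => u k l • w k := by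
  classical
  let π : (Fin r → R) →ₗ[R] E := Fintype.linearCombination R e
  have hπ : Function.Surjective π := by
    rw [← LinearMap.range_eq_top, Fintype.range_linearCombination, he]
  have hex := rTensor_exact (Q := M) (LinearMap.exact_subtype_ker_map π) hπ
  have h0 : LinearMap.rTensor M π (a • (Pi.single i (1 : R) ⊗ₜ[R] z)) = 0 := by
    rw [map_smul, LinearMap.rTensor_tmul]
    simpa [π] using h
  obtain ⟨t, ht⟩ := (hex _).1 h0
  let β : (Fin r → R) →ₗ[R] M →ₗ[R] (Fin r → K) := LinearMap.mk₂ R (fun u w l => u l • (w : K))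
    (fun u u' w => by ext l; simp [add_smul]) (fun c u w => by ext l; simp [mul_smul])
    (fun u w w' => by ext l; simp) (fun c u w => by ext l; simp [smul_comm c])
  obtain ⟨S, rfl⟩ := TensorProduct.exists_finset t
  have h1 := congrArg (TensorProduct.lift β) ht
  rw [map_sum, map_sum, map_smul] at h1
  simp only [LinearMap.rTensor_tmul, TensorProduct.lift.tmul] at h1
  refine ⟨S.card, fun k => ((S.equivFin.symm k).1.1 : Fin r → R),
    fun k => ((S.equivFin.symm k).1.2 : K), fun k => ?_, fun k => (S.equivFin.symm k).1.2.2, ?_⟩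
  · exact (Fintype.linearCombination_apply R e _).symm.trans (S.equivFin.symm k).1.1.2
  · have h2 : (Pi.single i (a • (z : K)) : Fin r → K) = a • β (Pi.single i 1) z := by
      ext l
      by_cases hl : l = i
      · subst hl; simp [β]
      · simp [β, hl]
    rw [h2, ← h1, ← Finset.sum_coe_sort S]
    exact (Equiv.sum_comp S.equivFin.symm (fun x : S => β (x.1.1 : Fin r → R) x.1.2)).symm

theorem q3_prod_mem {r : ℕ} (e : Fin r → E) (he : Submodule.span R (Set.range e) = ⊤)
    (M : Submodule R K) (a : R) (h : ∀ (i : Fin r) (z : M), a • (e i ⊗ₜ[R] z) = 0)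
    (z : Fin r → K) (hz : ∀ i, z i ∈ M) :
    a ^ r • ∏ i, z i ∈ Module.annihilator R E • M ^ r := by
  classical
  choose n u w hu hw hs using fun i => q3_single_mem e he M a i ⟨z i, hz i⟩ (h i _)
  have h1 : a ^ r • ∏ i, z i = (Matrix.diagonal fun i => a • z i).det := by
    rw [Matrix.det_diagonal, Finset.prod_smul]; simp
  have h2 : (Matrix.diagonal fun i => a • z i) =
      Matrix.of fun i => ∑ k, fun l => u i k l • w i k := by
    ext i l
    have := congrFun (hs i) l
    rw [Matrix.of_apply, ← this, Matrix.diagonal_apply, Pi.single_apply]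
    by_cases hl : i = l
    · simp [hl]
    · simp [hl, Ne.symm hl]
  have h3 := (Matrix.detRowAlternating (R := K) (n := Fin r)).toMultilinearMap.map_sum
    (fun i (k : Fin (n i)) l => u i k l • w i k)
  rw [h1, h2]
  change (Matrix.detRowAlternating (R := K) (n := Fin r)).toMultilinearMap _ ∈ _
  change (Matrix.detRowAlternating (R := K) (n := Fin r)).toMultilinearMap
    (fun i => ∑ k, fun l => u i k l • w i k) ∈ _
  rw [h3]
  refine Submodule.sum_mem _ fun f _ => ?_
  have h4 : (Matrix.detRowAlternating (R := K) (n := Fin r)).toMultilinearMap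
      (fun i l => u i (f i) l • w i (f i)) =
      (Matrix.of fun i l => u i (f i) l).det • ∏ i, w i (f i) := by
    have h5 : (Matrix.of fun i l => u i (f i) l • w i (f i)) =
        Matrix.diagonal (fun i => w i (f i)) *
          (Matrix.of fun i l => u i (f i) l).map (algebraMap R K) := by
      ext i l
      simp [Algebra.smul_def, mul_comm]
    change (Matrix.of fun i l => u i (f i) l • w i (f i)).det = _
    rw [h5, Matrix.det_mul, Matrix.det_diagonal, Algebra.smul_def, RingHom.map_det, mul_comm]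
    rfl
  rw [h4]
  refine Submodule.smul_mem_smul (q3_det_mem_ann e he _ fun i => hu i (f i)) ?_
  have h6 : ∀ s : Finset (Fin r), ∏ i ∈ s, w i (f i) ∈ M ^ s.card := by
    intro s
    induction s using Finset.induction_on with
    | empty => simpa using Submodule.one_le.1 (le_refl (1 : Submodule R K))
    | insert i s hi ih =>
      rw [Finset.prod_insert hi, Finset.card_insert_of_notMem hi, pow_succ']
      exact Submodule.mul_mem_mul (hw i _) ih
  simpa using h6 Finset.univ

/-- determinant trick with a bound on the exponent -/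
theorem q3_pow_eq_of_smul_le [IsDomain K] (N : Submodule R K) (hfg : N.FG) (hN : N ≠ ⊥) (I : Ideal R)
    (b : R) (h : ∀ x ∈ N, b • x ∈ I • N) {n : ℕ} (hn : N.spanFinrank ≤ n) :
    ∃ c ∈ I, algebraMap R K (b ^ n) = algebraMap R K c := by
  have : Module.Finite R N := Module.Finite.iff_fg.2 hfg
  obtain ⟨P, hP, hd, hc, h0⟩ :=
    LinearMap.exists_monic_and_natDegree_eq_and_coeff_mem_pow_and_aeval_eq_zero R
      (algebraMap R (Module.End R N) b) I (by
        rintro _ ⟨x, rfl⟩
        have h2 : I • N = (I • (⊤ : Submodule R N)).map N.subtype := by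
          rw [Submodule.map_smul'', Submodule.map_subtype_top]
        obtain ⟨y, hy, e⟩ := h2.le (h x x.2)
        have e' : y = algebraMap R (Module.End R N) b x := Subtype.ext e
        exact e' ▸ hy)
  rw [Submodule.spanFinrank_top] at hd
  obtain ⟨x, hx, hx0⟩ := Submodule.exists_mem_ne_zero_of_ne_bot hN
  have h1 : algebraMap R K (P.eval b) = 0 := by
    rw [Polynomial.aeval_algebraMap_apply_eq_algebraMap_eval] at h0
    have := congrArg Subtype.val (LinearMap.congr_fun h0 ⟨x, hx⟩)
    simp only [Module.algebraMap_end_apply, Submodule.coe_smul, LinearMap.zero_apply,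
      Submodule.coe_zero, Algebra.smul_def] at this
    exact (mul_eq_zero.1 this).resolve_right hx0
  rw [Polynomial.eval_eq_sum_range, Finset.sum_range_succ, hP.coeff_natDegree, one_mul] at h1
  refine ⟨b ^ (n - P.natDegree) * -∑ i ∈ Finset.range P.natDegree, P.coeff i * b ^ i,
    I.mul_mem_left _ (neg_mem (sum_mem fun i hi => I.mul_mem_right _ ?_)), ?_⟩
  · exact Ideal.pow_le_self (Nat.sub_ne_zero_of_lt (Finset.mem_range.1 hi)) (hc i)
  · rw [map_add] at h1
    rw [map_mul, map_neg, neg_eq_of_add_eq_zero_right h1, ← map_mul, ← pow_add,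
      Nat.sub_add_cancel (hd ▸ hn)]

theorem q3_spanFinrank_pow_le (M : Submodule R K) (hM : M.FG) (r : ℕ) :
    (M ^ r).spanFinrank ≤ M.spanFinrank ^ r := by
  classical
  obtain ⟨s, hs, e⟩ := hM.exists_span_finset_card_eq_spanFinrank
  rw [← hs, ← e, Submodule.span_pow, ← Finset.coe_pow]
  exact (Submodule.spanFinrank_span_le_ncard_of_finite (Finset.finite_toSet _)).trans
    (by rw [Set.ncard_coe_finset]; exact Finset.card_pow_le)

end core

section length
variable {R : Type} [CommRing R] [IsLocalRing R]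

theorem q3_pow_smul_eq_bot {Q : Type} [AddCommGroup Q] [Module R Q] {C : ℕ}
    (h : Module.length R Q ≤ C) : maximalIdeal R ^ C • (⊤ : Submodule R Q) = ⊥ := by
  have hf : IsFiniteLength R Q :=
    Module.length_ne_top_iff.1 (ne_top_of_le_ne_top (ENat.natCast_ne_top C) h)
  obtain ⟨_, _⟩ := isFiniteLength_iff_isNoetherian_isArtinian.1 hf
  have key : ∀ (n : ℕ) (N : Submodule R Q), Order.height N ≤ n → maximalIdeal R ^ n • N = ⊥ := by
    intro n
    induction n with
    | zero =>
      intro N hN
      have : N = ⊥ := by simpa using hN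
      simp [this]
    | succ n ih =>
      intro N hN
      by_cases h0 : N = ⊥
      · simp [h0]
      have h1 : maximalIdeal R • N < N := by
        refine lt_of_le_of_ne Submodule.smul_le_right fun e => h0 ?_
        exact Submodule.eq_bot_of_le_smul_of_le_jacobson_bot (maximalIdeal R) N
          (IsNoetherian.noetherian N) e.ge (maximalIdeal_le_jacobson _)
      rw [pow_succ, Submodule.mul_smul]
      refine ih _ ?_
      have h2 := (Submodule.height_strictMono h1).trans_le hN
      rw [Nat.cast_succ] at h2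
      exact Order.le_of_lt_add_one h2
  exact key C ⊤ (Module.length_eq_height R Q ▸ h)

theorem q3_spanFinrank_le_of_length {V M : Type} [AddCommGroup V] [Module R V] [AddCommGroup M]
    [Module R M] [Module.Finite R M] [Nontrivial M] (N : Submodule R V) (hN : N.FG) {C : ℕ}
    (h : Module.length R (N ⊗[R] M) ≤ C) : N.spanFinrank ≤ C := by
  have : Module.Finite R N := Module.Finite.iff_fg.2 hN
  obtain ⟨T, hT, -⟩ := (eq_top_or_exists_le_coatom (⊥ : Submodule R M)).resolve_left bot_ne_top
  obtain ⟨I, hI, ⟨e⟩⟩ := isSimpleModule_iff_quot_maximal.1 (isSimpleModule_iff_isCoatom.2 hT)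
  obtain rfl := eq_maximalIdeal hI
  have hs : Function.Surjective ((tensorQuotEquivQuotSMul N (maximalIdeal R)).toLinearMap ∘ₗ
      LinearMap.lTensor N (e.toLinearMap ∘ₗ T.mkQ)) :=
    (tensorQuotEquivQuotSMul N (maximalIdeal R)).surjective.comp
      (LinearMap.lTensor_surjective N (e.surjective.comp T.mkQ_surjective))
  have h1 := (Module.length_le_of_surjective _ hs).trans h
  let _ := Ideal.Quotient.field (maximalIdeal R)
  have : Module.Finite (R ⧸ maximalIdeal R) (N ⧸ maximalIdeal R • (⊤ : Submodule R N)) :=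
    Module.Finite.of_restrictScalars_finite R _ _
  rw [Module.length_eq_of_surjective (R := R ⧸ maximalIdeal R) Ideal.Quotient.mk_surjective,
    Module.length_eq_finrank, ← spanFinrank_eq_finrank_quotient N hN] at h1
  exact_mod_cast h1

/-- if `E ⊗ M` has length at most `C` for a fractional ideal `M`, a fixed power of each element
of the maximal ideal acts on `K` as an element of the annihilator of `E` -/
theorem q3_pow_eq_ann {K E : Type} [CommRing K] [IsDomain K] [Algebra R K] [AddCommGroup E]
    [Module R E] [Module.Finite R E] (M : Submodule R K) (hM : M.FG) (hM0 : M ≠ ⊥) {C : ℕ}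
    (h : Module.length R (E ⊗[R] M) ≤ C) {a : R} (ha : a ∈ maximalIdeal R) :
    ∃ c ∈ Module.annihilator R E,
      algebraMap R K (a ^ (C * C * C ^ C)) = algebraMap R K c := by
  classical
  cases subsingleton_or_nontrivial E with
  | inl h0 => exact ⟨_, Module.mem_annihilator.2 fun x => Subsingleton.elim _ _, rfl⟩
  | inr h0 =>
  have : Module.Finite R M := Module.Finite.iff_fg.2 hM
  have : Nontrivial M := Submodule.nontrivial_iff_ne_bot.2 hM0
  have hg : M.spanFinrank ≤ C :=
    q3_spanFinrank_le_of_length (M := E) M hM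
      ((LinearEquiv.length_eq (R := R) (M := M ⊗[R] E) (N := E ⊗[R] M)
        (TensorProduct.comm R M E)).trans_le h)
  have hr : (⊤ : Submodule R E).spanFinrank ≤ C :=
    q3_spanFinrank_le_of_length (M := M) ⊤ Module.Finite.fg_top
      ((LinearEquiv.length_eq (R := R) (M := (⊤ : Submodule R E) ⊗[R] M) (N := E ⊗[R] M)
        (LinearEquiv.rTensor M Submodule.topEquiv)).trans_le h)
  have hC : 0 < C := lt_of_lt_of_le (Nat.pos_of_ne_zero fun e =>
    hM0 ((Submodule.spanFinrank_eq_zero_iff_eq_bot hM).1 e)) hg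
  obtain ⟨s, hs, hsp⟩ := (Module.Finite.fg_top (R := R) (M := E)).exists_span_finset_card_eq_spanFinrank
  let e : Fin s.card → E := fun i => s.equivFin.symm i
  have he : Submodule.span R (Set.range e) = ⊤ := by
    rw [← hsp]
    congr 1
    ext x
    exact ⟨fun ⟨i, hi⟩ => hi ▸ (s.equivFin.symm i).2, fun hx => ⟨s.equivFin ⟨x, hx⟩, by simp [e]⟩⟩
  have hk : ∀ (i : Fin s.card) (z : M), a ^ C • (e i ⊗ₜ[R] z) = 0 := fun i z => by
    rw [← Submodule.mem_bot R, ← q3_pow_smul_eq_bot h]
    exact Submodule.smul_mem_smul (Ideal.pow_mem_pow ha C) Submodule.mem_top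
  have hN : ∀ x ∈ M ^ s.card, (a ^ C) ^ s.card • x ∈ Module.annihilator R E • M ^ s.card := by
    intro x hx
    rw [Submodule.pow_eq_span_pow_set] at hx
    induction hx using Submodule.span_induction with
    | mem x hx =>
      obtain ⟨z, rfl⟩ := Set.mem_pow.1 hx
      rw [List.prod_ofFn]
      exact q3_prod_mem e he M _ hk _ fun i => (z i).2
    | zero => simp
    | add x y _ _ hx hy => rw [smul_add]; exact add_mem hx hy
    | smul c x _ hx => rw [smul_comm]; exact Submodule.smul_mem _ _ hx
  obtain ⟨x, hx, hx0⟩ := Submodule.exists_mem_ne_zero_of_ne_bot hM0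
  obtain ⟨c, hc, e1⟩ := q3_pow_eq_of_smul_le (M ^ s.card) (hM.pow _)
    (fun e => pow_ne_zero s.card hx0 ((Submodule.mem_bot R).1 (e ▸ M.pow_mem_pow hx _)))
    _ _ hN (n := C ^ C) ((q3_spanFinrank_pow_le M hM _).trans
      ((Nat.pow_le_pow_left hg _).trans (Nat.pow_le_pow_right hC (hs ▸ hr))))
  obtain ⟨d, hd⟩ := Nat.exists_eq_add_of_le (hs ▸ hr : s.card ≤ C)
  refine ⟨a ^ (C * d * C ^ C) * c, Ideal.mul_mem_left _ _ hc, ?_⟩
  rw [map_mul, ← e1, ← map_mul, ← pow_mul, ← pow_mul, ← pow_add]
  congr 2
  generalize C ^ C = t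
  nth_rewrite 2 [hd]
  ring

/-- Q3: a fixed power of `x` lies in the extension of the annihilator of `E` -/
theorem q3_main [IsNoetherianRing R] {O K : Type} [CommRing O] [CommRing K] [IsDomain K]
    [Algebra R O] [Algebra O K] [Algebra R K] [IsScalarTower R O K] [FaithfulSMul O K] {x : O}
    (hx : x ∈ ((maximalIdeal R).map (algebraMap R O)).radical) (C : ℕ) :
    ∃ N, ∀ (E : Type) [AddCommGroup E] [Module R E] [Module.Finite R E] (M : Submodule R K),
      M.FG → M ≠ ⊥ → Module.length R (E ⊗[R] M) ≤ C →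
      x ^ N ∈ (Module.annihilator R E).map (algebraMap R O) := by
  let J : Ideal O := Ideal.span ((fun a => algebraMap R O a ^ (C * C * C ^ C)) '' maximalIdeal R)
  have h1 : ((maximalIdeal R).map (algebraMap R O)).radical ≤ J.radical :=
    Ideal.radical_le_radical_iff.2 (Ideal.map_le_iff_le_comap.2 fun a ha =>
      ⟨_, Ideal.subset_span ⟨a, ha, rfl⟩⟩)
  obtain ⟨N, hN⟩ := h1 hx
  refine ⟨N, fun E _ _ _ M hM hM0 h => (Ideal.span_le.2 ?_ : J ≤ _) hN⟩
  rintro _ ⟨a, ha, rfl⟩
  obtain ⟨c, hc, e⟩ := q3_pow_eq_ann M hM hM0 h ha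
  rw [IsScalarTower.algebraMap_apply R O K, IsScalarTower.algebraMap_apply R O K c] at e
  have := FaithfulSMul.algebraMap_injective O K e
  rw [map_pow] at this
  exact (congrArg (· ∈ _) this).mpr (Ideal.mem_map_of_mem _ hc)

end length

section matrix
variable {R : Type} [CommRing R] {ρ σ : Type} [Fintype ρ] [Fintype σ] (φ : Matrix ρ σ R)

/-- the cokernel of a matrix acting on `M` maps onto the tensor product -/
theorem q3_length_le {M : Type} [AddCommGroup M] [Module R M] (T : Submodule R (ρ → M))
    (hT : ∀ v ∈ T, ∃ w : σ → M, ∀ i, v i = ∑ j, φ i j • w j) :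
    Module.length R (((ρ → R) ⧸ LinearMap.range φ.mulVecLin) ⊗[R] M) ≤
      Module.length R ((ρ → M) ⧸ T) := by
  classical
  let e : ρ → (ρ → R) ⧸ LinearMap.range φ.mulVecLin := fun i =>
    Submodule.Quotient.mk (Pi.single i 1)
  have he : ∀ u : ρ → R, ∑ i, u i • e i = Submodule.Quotient.mk u := fun u => by
    conv_rhs => rw [pi_eq_sum_univ' u, ← Submodule.mkQ_apply, map_sum]
    simp [e]
  let f : (ρ → M) →ₗ[R] ((ρ → R) ⧸ LinearMap.range φ.mulVecLin) ⊗[R] M :=
    ∑ i, TensorProduct.mk R _ M (e i) ∘ₗ LinearMap.proj i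
  have hf : ∀ v, f v = ∑ i, e i ⊗ₜ[R] v i := fun v => by simp [f]
  have h1 : ∀ (u : ρ → R) (z : M), f (fun i => u i • z) = Submodule.Quotient.mk u ⊗ₜ[R] z :=
    fun u z => by simp only [hf, ← smul_tmul, ← sum_tmul, he]
  refine Module.length_le_of_surjective (T.liftQ f fun v hv => ?_) fun t => ?_
  · obtain ⟨w, hw⟩ := hT v hv
    have : v = ∑ j, fun i => φ i j • w j := funext fun i => by rw [hw, Finset.sum_apply]
    rw [LinearMap.mem_ker, this, map_sum]
    refine Finset.sum_eq_zero fun j _ => ?_
    rw [h1, (Submodule.Quotient.mk_eq_zero (LinearMap.range φ.mulVecLin)).2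
      ⟨Pi.single j 1, by ext i; simp⟩, zero_tmul]
  · induction t with
    | zero => exact ⟨0, map_zero _⟩
    | add x y hx hy =>
      obtain ⟨a, rfl⟩ := hx
      obtain ⟨b, rfl⟩ := hy
      exact ⟨a + b, map_add _ a b⟩
    | tmul u z =>
      obtain ⟨u, rfl⟩ := Submodule.Quotient.mk_surjective _ u
      exact ⟨Submodule.Quotient.mk fun i => u i • z, h1 u z⟩

omit [Fintype ρ] in
theorem q3_tau [DecidableEq ρ] {c : R}
    (hc : c ∈ Module.annihilator R ((ρ → R) ⧸ LinearMap.range φ.mulVecLin)) :
    ∃ τ : Matrix σ ρ R, φ * τ = c • (1 : Matrix ρ ρ R) := by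
  have : ∀ i, ∃ u, φ.mulVec u = c • Pi.single i 1 := fun i =>
    (Submodule.Quotient.mk_eq_zero _).1
      (Module.mem_annihilator.1 hc (Submodule.Quotient.mk (Pi.single i 1)))
  choose u hu using this
  refine ⟨Matrix.of fun j i => u i j, Matrix.ext fun k i => ?_⟩
  have := congrFun (hu i) k
  simpa [Matrix.mul_apply, Matrix.mulVec, dotProduct, Matrix.one_apply, Pi.single_apply] using this

end matrix

end Pool.Agent.Lib.MP_62d77c_ag.R
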