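import Pool.Agent.Lib.MP_62d77c_ag.R.QSl
import Pool.Agent.Lib.MP_62d77c_ag.R.Q3
import Pool.Agent.Lib.MP_62d77c_ag.R.Ann
import Pool.Agent.Lib.MP_62d77c_ag.R.N1e

/-! Split resolutions, annihilators and lifting modulo a power of a function. -/

set_option autoImplicit false
set_option linter.unusedSectionVars false

namespace Pool.Agent.Lib.MP_62d77c_ag.R

open Function Matrix Ann
open scoped TensorProduct

section mat

variable {R : Type} [CommRing R] {ι₀ ι₁ ι₂ ι₃ : Type} [Fintype ι₀] [Fintype ι₁] [Fintype ι₂]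
  [Fintype ι₃] {N : Type} [AddCommGroup N] [Module R N]

theorem q4_mact_mul (A : Matrix ι₀ ι₁ R) (B : Matrix ι₁ ι₂ R) (v : ι₂ → N) :
    mact N (A * B) v = mact N A (mact N B v) := funext fun i => by
  simp only [mact_apply, Matrix.mul_apply, Finset.sum_smul, Finset.smul_sum, smul_smul]
  exact Finset.sum_comm

theorem q4_mact_smul (c : R) (A : Matrix ι₀ ι₁ R) (v : ι₁ → N) :
    mact N (c • A) v = c • mact N A v := funext fun i => by
  simp [mact_apply, Finset.smul_sum, smul_smul]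

/-- the cokernel that represents the second Ext -/
abbrev Cok (D₁ : Matrix ι₁ ι₂ R) (D₂ : Matrix ι₂ ι₃ R) (τ : Matrix ι₃ ι₂ R) : Type :=
  (ι₂ → R) ⧸ LinearMap.range (fromCols D₁ᵀ (D₂ * τ)ᵀ).mulVecLin

variable {D₁ : Matrix ι₁ ι₂ R} {D₂ : Matrix ι₂ ι₃ R} {τ : Matrix ι₃ ι₂ R}

theorem q4_split (h12 : D₁ * D₂ = 0) (hτ : D₂ * τ * D₂ = D₂) {c : R}
    (hc : c ∈ Module.annihilator R (Cok D₁ D₂ τ)) :
    ∃ α : Matrix ι₂ ι₁ R, D₁ * α * D₁ = c • D₁ := by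
  classical
  obtain ⟨θ, hθ⟩ := q3_tau _ hc
  rw [← fromRows_toRows θ, fromCols_mul_fromRows] at hθ
  have h1 := congrArg transpose hθ
  simp only [transpose_add, transpose_mul, transpose_transpose, transpose_smul,
    transpose_one] at h1
  have h2 : D₁ * (1 - D₂ * τ) = D₁ := by
    rw [Matrix.mul_sub, Matrix.mul_one, ← Matrix.mul_assoc, h12, Matrix.zero_mul, sub_zero]
  have h3 : D₂ * τ * (1 - D₂ * τ) = 0 := by
    rw [Matrix.mul_sub, Matrix.mul_one, ← Matrix.mul_assoc, hτ, sub_self]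
  refine ⟨θ.toRows₁ᵀ, ?_⟩
  have h4 := congrArg (fun Z => D₁ * (Z * (1 - D₂ * τ))) h1
  simp only [Matrix.add_mul, Matrix.mul_assoc _ D₁, h2, Matrix.mul_assoc _ (D₂ * τ), h3,
    Matrix.mul_zero, add_zero, Matrix.smul_mul, Matrix.one_mul, Matrix.mul_smul] at h4
  rw [Matrix.mul_assoc]; exact h4

theorem q4_len (hτ : D₂ * τ * D₂ = D₂) {X : Type} [AddCommGroup X] [Module R X]
    (f : LinearMap.ker (mact N D₂ᵀ) →ₗ[R] X) (hf : Surjective f)
    (h0 : ∀ v, f v = 0 → v.1 ∈ LinearMap.range (mact N D₁ᵀ)) :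
    Module.length R (Cok D₁ D₂ τ ⊗[R] N) ≤ Module.length R X := by
  classical
  let T := LinearMap.range (mact N (fromCols D₁ᵀ (D₂ * τ)ᵀ))
  refine (q3_length_le _ T fun v ⟨w, hw⟩ => ⟨w, fun i => by rw [← hw]; rfl⟩).trans ?_
  have hs : ∀ a b, mact N (fromCols D₁ᵀ (D₂ * τ)ᵀ) (Sum.elim a b) =
      mact N D₁ᵀ a + mact N (D₂ * τ)ᵀ b := fun a b => funext fun i => by
    simp [mact_apply, Fintype.sum_sum_type]
  let g := T.mkQ ∘ₗ (LinearMap.ker (mact N D₂ᵀ)).subtype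
  have hg : LinearMap.ker f ≤ LinearMap.ker g := fun v hv => by
    obtain ⟨a, ha⟩ := h0 v hv
    exact (Submodule.Quotient.mk_eq_zero _).2 ⟨Sum.elim a 0, by rw [hs, map_zero, add_zero, ha]; rfl⟩
  rw [← (f.quotKerEquivOfSurjective hf).length_eq]
  refine Module.length_le_of_surjective ((LinearMap.ker f).liftQ g hg) fun z => ?_
  obtain ⟨v, rfl⟩ := T.mkQ_surjective z
  refine ⟨Submodule.Quotient.mk ⟨v - mact N (D₂ * τ)ᵀ v, ?_⟩, ?_⟩
  · rw [LinearMap.mem_ker, map_sub, ← q4_mact_mul, ← transpose_mul, hτ, sub_self]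
  · refine (Submodule.Quotient.eq _).2 ⟨Sum.elim 0 (-v), ?_⟩
    rw [hs, map_zero, zero_add, map_neg]
    simp

end mat

section core

variable {R L N F₀ F₁ F₂ : Type} [CommRing R] [Field L] [Algebra R L] [AddCommGroup N] [Module R N]
  [AddCommGroup F₀] [Module R F₀] [AddCommGroup F₁] [Module R F₁] [AddCommGroup F₂] [Module R F₂]

/-- lifting modulo `ξ` extends from the maximal ideal to the annihilator -/
theorem q4_core (κ : N →ₗ[R] L) (hκ : Injective κ) (T : Submodule R L) (hT : ∀ n, κ n ∈ T)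
    {ξ σ : L} (hξ : ∀ t ∈ T, ξ * t ∈ LinearMap.range κ → t ∈ LinearMap.range κ)
    (hξ' : ∀ n, ξ * κ n ∈ LinearMap.range κ) {y₁ y₂ w₁ w₂ c : R}
    (hy : ∀ t ∈ T, ∃ t' ∈ T, t = y₁ • t')
    (hp : ∀ z : L, y₁ • z ∈ LinearMap.range κ → y₂ • z ∈ LinearMap.range κ →
      z ∈ LinearMap.range κ) (y0 : algebraMap R L y₁ ≠ 0)
    (hσ : ∀ a ∈ ({y₁, y₂, w₁, w₂} : Set R), ∃ m, ∃ t ∈ T, a • σ = κ m + ξ * t)
    {d₂ : F₂ →ₗ[R] F₁} {d₁ : F₁ →ₗ[R] F₀} {π : F₀ →ₗ[R] N} (e₁ : Exact d₂ d₁)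
    (e₀ : Exact d₁ π) (hπ : Surjective π) {τ : F₁ →ₗ[R] F₂}
    (hτ : ∀ u, d₂ (τ (d₂ u)) = c • d₂ u) (h₁ : RPm (two F₁ y₁ y₂) w₁ w₂)
    (h₀ : RPm (two F₀ y₁ y₂) w₁ w₂) : ∃ m, ∃ t ∈ T, c • σ = κ m + ξ * t := by
  have can : ∀ a b : L, y₁ • a = y₁ • b → a = b := fun a b e =>
    mul_left_cancel₀ y0 (by simpa only [Algebra.smul_def] using e)
  have hM : RP N y₁ y₂ := by
    refine ⟨fun m e => hκ (can _ _ (by rw [← map_smul, e, map_zero, smul_zero])), fun m m' e => ?_⟩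
    have h1 : y₁ • (κ m / algebraMap R L y₁) = κ m := by
      rw [Algebra.smul_def, mul_div_cancel₀ _ y0]
    obtain ⟨u, hu⟩ := hp (κ m / algebraMap R L y₁) ⟨m, h1.symm⟩ ⟨m', can _ _ (by
      rw [smul_comm, h1, ← map_smul, ← map_smul, e])⟩
    exact ⟨u, hκ (by rw [map_smul, hu, h1])⟩
  choose! m t ht e using hσ
  have eta : ∀ a ∈ ({y₁, y₂, w₁, w₂} : Set R), ∀ b ∈ ({y₁, y₂, w₁, w₂} : Set R),
      ∃ η, κ η = a • t b - b • t a := fun a ha b hb =>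
    hξ _ (sub_mem (T.smul_mem _ (ht b hb)) (T.smul_mem _ (ht a ha))) ⟨b • m a - a • m b, by
      have h1 := e a ha
      have h2 := e b hb
      simp only [map_sub, map_smul, Algebra.smul_def] at h1 h2 ⊢
      linear_combination algebraMap R L a * h2 - algebraMap R L b * h1⟩
  have m1 : y₁ ∈ ({y₁, y₂, w₁, w₂} : Set R) := by simp
  have m2 : y₂ ∈ ({y₁, y₂, w₁, w₂} : Set R) := by simp
  obtain ⟨η, hη⟩ := eta y₁ m1 y₂ m2
  have key : ∀ w ∈ ({y₁, y₂, w₁, w₂} : Set R), w • η ∈ two N y₁ y₂ := fun w hw => by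
    obtain ⟨α, hα⟩ := eta w hw y₂ m2
    obtain ⟨β, hβ⟩ := eta y₁ m1 w hw
    refine ⟨α, β, hκ ?_⟩
    simp only [map_add, map_smul, hη, hα, hβ, Algebra.smul_def]
    ring
  obtain ⟨α, β, h2⟩ := ann e₁ e₀ hπ hM hτ h₁ h₀.1 (key w₁ (by simp)) (key w₂ (by simp))
  obtain ⟨k, hk, h3⟩ := hy _ (add_mem (hT β) (T.smul_mem c (ht y₁ m1)))
  have h4 := congrArg κ h2
  have h5 : c • t y₂ - κ α = y₂ • k := can _ _ (by
    simp only [map_add, map_smul, hη, Algebra.smul_def] at h3 h4 ⊢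
    linear_combination h4 + algebraMap R L y₂ * h3)
  obtain ⟨β', hβ⟩ := hξ' β
  obtain ⟨α', hα⟩ := hξ' α
  obtain ⟨n, hn⟩ := hp (c • σ - ξ * k) ⟨c • m y₁ - β', by
    have h1 := e y₁ m1
    simp only [map_sub, map_smul, hβ, Algebra.smul_def] at h1 h3 ⊢
    linear_combination -algebraMap R L c * h1 - ξ * h3⟩ ⟨c • m y₂ + α', by
    have h1 := e y₂ m2
    simp only [map_add, map_smul, hα, Algebra.smul_def] at h1 h5 ⊢
    linear_combination -algebraMap R L c * h1 - ξ * h5⟩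
  exact ⟨n, k, hk, by rw [hn, sub_add_cancel]⟩

end core

/-- an isolated prime over an ideal -/
theorem q4_isol {B : Type} [CommRing B] [IsNoetherianRing B] {I 𝔪 : Ideal B} (hm : 𝔪.IsPrime)
    (h : ∀ P : Ideal B, P.IsPrime → I ≤ P → P ≤ 𝔪 → P = 𝔪) :
    ∃ u, u ∉ 𝔪 ∧ ∀ a ∈ 𝔪, u * a ∈ I.radical := by
  classical
  have hf := (Ideal.finite_minimalPrimes_of_isNoetherianRing B I).subset
    (Set.sep_subset _ fun P => ¬P ≤ 𝔪)
  have : ¬hf.toFinset.inf id ≤ 𝔪 := fun e => by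
    obtain ⟨P, hP, h1⟩ := (hm.inf_le').1 e
    exact (hf.mem_toFinset.1 hP).2 h1
  obtain ⟨u, h1, h2⟩ := SetLike.not_le_iff_exists.1 this
  refine ⟨u, h2, fun a ha => ?_⟩
  rw [← Ideal.sInf_minimalPrimes]
  refine Ideal.mem_sInf.2 fun P hP => ?_
  by_cases e : P ≤ 𝔪
  · exact P.mul_mem_left _ (h P hP.1.1 hP.1.2 e ▸ ha)
  · exact P.mul_mem_right _ (Finset.inf_le (f := id) (hf.mem_toFinset.2 ⟨hP, e⟩) h1)

end Pool.Agent.Lib.MP_62d77c_ag.R
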