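import Pool.Agent.Lib.MP_62d77c_ag.Member

/-! Sections of a family in a given degree, and restriction to the generic member. -/

set_option autoImplicit false

namespace Pool.Agent.Lib.MP_62d77c_ag.R

open Filter Polynomial Submodule

noncomputable section

variable {k K : Type} [Field k] [Field K] [Algebra k K] {V : Submodule k K}
  {N N' M R : ℕ → Submodule k K}

/-- sections in degree `i` -/
def Gam (V : Submodule k K) (N : ℕ → Submodule k K) (i : ℕ) : Submodule k K :=
  H0 V fun m => N (m + i)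

/-- dimension of the sections in degree `i` -/
def hh (V : Submodule k K) (N : ℕ → Submodule k K) (i : ℕ) : ℕ := Module.finrank k (Gam V N i)

/-- `N` is a module over `R` in large degrees -/
def RM (R N : ℕ → Submodule k K) : Prop := ∀ m, ∀ᶠ n in atTop, R m * N n ≤ N (n + m)

theorem Gam_fg (hV : Mdl V) (hN : Fg V N) (i : ℕ) : (Gam V N i).FG := H0_fg hV (hN.add i)

theorem Gam_pow (i j : ℕ) : V ^ j * Gam V N i ≤ Gam V N (i + j) :=
  Submodule.mul_le.2 fun _ hv _ hg => sec_smul_mem hg hv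

theorem Gam_mul (i : ℕ) : V * Gam V N i ≤ Gam V N (i + 1) := by
  simpa using Gam_pow (V := V) (N := N) i 1

theorem Gam_mono (h : N' ≤ᶠ[atTop] N) (i : ℕ) : Gam V N' i ≤ Gam V N i :=
  H0_mono ((tendsto_add_atTop_nat i).eventually h)

theorem Gam_congr (h : N' =ᶠ[atTop] N) (i : ℕ) : Gam V N' i = Gam V N i :=
  le_antisymm (Gam_mono h.le i) (Gam_mono h.symm.le i)

theorem Gam_sat (hV : Mdl V) (hN : Fg V N) (i : ℕ) : Sat V (Gam V N i) (Gam V N (i + 1)) := by
  rintro g ⟨m, hm⟩
  have h1 := hm.trans (Gam_pow (i + 1) m)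
  obtain ⟨j0, hj⟩ := eventually_atTop.1 (sec_pow_smul_le hV (hN.add (i + 1 + m)))
  refine sec_mem_iff.2 (eventually_atTop.2 ⟨j0 + (m + 1), fun n hn => ?_⟩)
  obtain ⟨j, rfl⟩ : ∃ j, n = j + (m + 1) := ⟨n - (m + 1), by omega⟩
  rw [pow_add, mul_assoc, show j + (m + 1) + i = j + (i + 1 + m) by ring]
  exact (mul_le_mul_right h1 _).trans (hj j (by omega))

theorem Gam_ev (hV : Mdl V) (hN : Fg V N) : ∀ᶠ i in atTop, Gam V N i = N i := H0_shift hV hN

theorem hh_ev (hV : Mdl V) (hN : Fg V N) :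
    ∀ᶠ i : ℕ in atTop, (hh V N i : ℚ) = (hp N).eval (i : ℚ) := by
  filter_upwards [Gam_ev hV hN, hp_spec hV.1 hN] with i a b
  rw [b, hh, a]

theorem hh_mono (hV : Mdl V) (hN : Fg V N) (h : N' ≤ᶠ[atTop] N) (i : ℕ) :
    hh V N' i ≤ hh V N i := by
  have := Module.Finite.iff_fg.2 (Gam_fg hV hN i)
  exact Submodule.finrank_mono (Gam_mono h i)

theorem hh_congr (h : N' =ᶠ[atTop] N) (i : ℕ) : hh V N' i = hh V N i := by
  rw [hh, hh, Gam_congr h]

theorem Gam_sub (a i : ℕ) : Gam V (fun n => N (n - a)) (i + a) = Gam V N i := by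
  unfold Gam
  congr 1
  funext m
  show N (m + (i + a) - a) = _
  rw [← add_assoc, Nat.add_sub_cancel]

theorem hh_sub (a i : ℕ) : hh V (fun n => N (n - a)) (i + a) = hh V N i := by
  rw [hh, hh, Gam_sub]

theorem hp_sub (hV : Mdl V) (hN : Fg V N) (a : ℕ) (t : ℚ) :
    (hp fun n => N (n - a)).eval t = (hp N).eval (t - a) := by
  have := hq_sub hV hN a 1
  rw [hq_one hV hN, hq_one hV (hN.sub a)] at this
  rw [this, eval_comp]
  simp

theorem RM.sub (h : RM R N) (a : ℕ) : RM R fun n => N (n - a) := fun m => by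
  filter_upwards [(tendsto_sub_atTop_nat a).eventually (h m), eventually_ge_atTop a] with n h1 h2
  rwa [show n + m - a = n - a + m by omega]

/-- a nonzero section embeds `R` -/
theorem RM.sec (hR : Fg V R) (h : RM R N) {s : K} (hs : s ∈ Gam V N 0) :
    (fun n => span k {s} * R n) ≤ᶠ[atTop] N := by
  obtain ⟨m, hm⟩ := hR.pow_smul.exists
  obtain ⟨n0, hn⟩ := eventually_atTop.1 ((h m).and (sec_mem_iff.1 hs))
  refine eventually_atTop.2 ⟨n0 + m, fun n hn' => ?_⟩
  obtain ⟨j, rfl⟩ : ∃ j, n = m + j := ⟨n - m, by omega⟩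
  obtain ⟨a, b⟩ := hn j (by omega)
  show span k {s} * R (m + j) ≤ _
  rw [hm j, smul_eq_mul, add_comm m j,
    show span k {s} * (V ^ j * R m) = R m * (V ^ j * span k {s}) by ring]
  exact (mul_le_mul_right b _).trans a

theorem sa_fg_span (hR : Fg V R) (s : K) : Fg V fun n => span k {s} * R n :=
  hR.smul (fg_span_singleton s)

theorem sa_hp_span {s : K} (hs : s ≠ 0) : (hp fun n => span k {s} * R n) = hp R :=
  hilb_congr (Eventually.of_forall fun n => sec_finrank_mul (Units.mk0 s hs) (R n))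

theorem sa_hh_span {s : K} (hs : s ≠ 0) (i : ℕ) :
    hh V (fun n => span k {s} * R n) i = hh V R i := by
  have := sec_H0_map (V := V) (Units.mk0 s hs) fun m => R (m + i)
  simp only [sec_map_eq] at this
  unfold hh Gam
  exact (congrArg (fun W : Submodule k K => Module.finrank k W) this).trans
    (sec_finrank_mul (Units.mk0 s hs) _)

/-! ### sequences -/

theorem sa_seq {u P : ℕ → ℚ} {i₀ : ℕ} (h : ∀ i, i₀ ≤ i → u (i + 1) - u i ≤ P (i + 1) - P i)
    (e : ∀ᶠ i in atTop, u i = P i) : P i₀ ≤ u i₀ := by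
  have key : ∀ j, u (i₀ + j) - P (i₀ + j) ≤ u i₀ - P i₀ := by
    intro j
    induction j with
    | zero => simp
    | succ j ih =>
      have := h (i₀ + j) (Nat.le_add_right _ _)
      rw [← add_assoc]
      linarith
  obtain ⟨n, hn⟩ := eventually_atTop.1 e
  have a := key n
  rw [hn _ (Nat.le_add_left _ _)] at a
  linarith

/-! ### the generic member -/

section mem
variable {k' K' : Type} [Field k'] [Field K'] [Algebra k' K']

/-- `S` is the restriction to the generic member of `V` -/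
def IsMem (V : Submodule k K) (S : Spec k K k' K') : Prop :=
  S.O = ⊤ ∧ ∀ N, Fg V N → ∀ i,
    hh V N i + Module.finrank k' (S.img (Gam V N (i + 1)) 1) = hh V N (i + 1)

/-- restriction of a family -/
def im (S : Spec k K k' K') (N : ℕ → Submodule k K) : ℕ → Submodule k' K' :=
  fun n => S.img (N n) 1

variable {S : Spec k K k' K'}

theorem IsMem.over (h : IsMem V S) (hV : Mdl V) : S.Over V 1 (S.img V 1) :=
  ⟨Member.triv h.1 hV.2, rfl⟩

theorem IsMem.mdl (h : IsMem V S) (hV : Mdl V) : Mdl (S.img V 1) := (h.over hV).mdl hV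

theorem IsMem.img_fg (h : IsMem V S) {W : Submodule k K} (hW : W.FG) : (S.img W 1).FG :=
  S.img_fg hW fun _ _ => Member.mem_O h.1 _

theorem IsMem.fg (h : IsMem V S) (hN : Fg V N) : Fg (S.img V 1) (im S N) := by
  filter_upwards [hN] with n hn
  refine ⟨h.img_fg hn.1, ?_⟩
  unfold im
  rw [hn.2, smul_eq_mul, smul_eq_mul, Member.img_mul h.1]

theorem IsMem.rm (h : IsMem V S) (hN : RM R N) : RM (im S R) (im S N) := fun m => by
  filter_upwards [hN m] with n hn
  unfold im
  rw [← Member.img_mul h.1]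
  exact S.img_mono hn 1

theorem im_mono (h : N' ≤ᶠ[atTop] N) : im S N' ≤ᶠ[atTop] im S N :=
  h.mono fun _ hn => S.img_mono hn 1

theorem IsMem.hp_eval (h : IsMem V S) (hV : Mdl V) (hN : Fg V N) (t : ℚ) :
    (hp (im S N)).eval t = (hp N).eval t - (hp N).eval (t - 1) := by
  have : hp (im S N) = hp N - (hp N).comp (X - C 1) := by
    refine hp_unique ?_
    filter_upwards [hh_ev hV hN, (tendsto_sub_atTop_nat 1).eventually (hh_ev hV hN),
      Gam_ev hV hN, eventually_ge_atTop 1] with n a b c d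
    obtain ⟨n, rfl⟩ : ∃ j, n = j + 1 := ⟨n - 1, by omega⟩
    have e := h.2 N hN n
    rw [c] at e
    rw [Nat.add_sub_cancel] at b
    rw [eval_sub, eval_comp, ← a, ← e]
    simp only [eval_sub, eval_X, eval_C, Nat.cast_add, Nat.cast_one, add_sub_cancel_right]
    rw [← b, im]
    ring
  rw [this, eval_sub, eval_comp]
  simp

theorem IsMem.img_Gam (h : IsMem V S) (hV : Mdl V) (i : ℕ) :
    S.img (Gam V N i) 1 ≤ Gam (S.img V 1) (im S N) i := by
  refine S.specL_img_le fun w hw => sec_mem_iff.2 ?_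
  filter_upwards [sec_mem_iff.1 hw] with m hm
  have e := (h.over hV).pow m
  rw [one_pow] at e
  refine le_trans ?_ (S.img_mono hm 1)
  rw [Member.img_mul h.1, e]
  exact mul_le_mul_right ((span_singleton_le_iff_mem _ _).2
    (S.specL_mem_img (mem_span_singleton_self w) 1)) _

theorem IsMem.step (h : IsMem V S) (hV : Mdl V) (hN : Fg V N) (i : ℕ) :
    hh V N (i + 1) ≤ hh V N i + hh (S.img V 1) (im S N) (i + 1) := by
  have := Module.Finite.iff_fg.2 (Gam_fg (h.mdl hV) (h.fg hN) (i + 1))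
  rw [← h.2 N hN i]
  exact Nat.add_le_add_left (Submodule.finrank_mono (h.img_Gam hV (i + 1))) _

end mem

theorem exists_mem (hV : Mdl V) : (∀ N, Fg V N → ∀ i, hh V N (i + 1) = hh V N i) ∨
    ∃ (k' K' : Type) (_ : Field k') (_ : Field K') (_ : Algebra k' K') (S : Spec k K k' K'),
      IsMem V S := by
  rcases gen_member V hV.1 hV.2 with c | ⟨k', K', _, _, _, S, hO, -, c2⟩
  · exact Or.inl fun N hN i => (c _ _ (Gam_fg hV hN _) (Gam_mul i) (Gam_sat hV hN i)).symm
  · exact Or.inr ⟨k', K', _, _, _, S, hO, fun N hN i =>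
      c2 _ _ (Gam_fg hV hN _) (Gam_mul i) (Gam_sat hV hN i)⟩

/-- the sections of a quotient grow with the degree -/
theorem hh_diff (hV : Mdl V) (hN : Fg V N) (hN' : Fg V N') (hle : N' ≤ᶠ[atTop] N) (i : ℕ) :
    hh V N i + hh V N' (i + 1) ≤ hh V N (i + 1) + hh V N' i := by
  rcases exists_mem hV with c | ⟨k', K', _, _, _, S, h⟩
  · rw [c N hN, c N' hN']
  · have := Module.Finite.iff_fg.2 (h.img_fg (Gam_fg hV hN (i + 1)))
    have a := Submodule.finrank_mono (S.img_mono (Gam_mono (V := V) hle (i + 1)) 1)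
    have b := h.2 N hN i
    have c := h.2 N' hN' i
    omega

theorem hh_succ (hV : Mdl V) (hN : Fg V N) (i : ℕ) : hh V N i ≤ hh V N (i + 1) := by
  obtain ⟨v, hv, v0⟩ := Submodule.exists_mem_ne_zero_of_ne_bot hV.2
  exact hilb_le (Gam_fg hV hN _) v0 fun x hx => Gam_mul i (mul_mem_mul hv hx)

theorem hh_le (hV : Mdl V) (hN : Fg V N) {i j : ℕ} (h : i ≤ j) : hh V N i ≤ hh V N j :=
  monotone_nat_of_le_succ (hh_succ hV hN) h

/-- convexity -/
theorem hh_convex (hV : Mdl V) (hN : Fg V N) (i : ℕ) :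
    hh V N (i + 1) + hh V N (i + 1) ≤ hh V N (i + 2) + hh V N i := by
  obtain ⟨v, hv, v0⟩ := Submodule.exists_mem_ne_zero_of_ne_bot hV.2
  have le : (fun n => span k {v} * N (n - 1)) ≤ᶠ[atTop] N := by
    filter_upwards [(tendsto_sub_atTop_nat 1).eventually hN.fam, eventually_ge_atTop 1]
      with n a b
    rw [Nat.sub_add_cancel b] at a
    exact (mul_le_mul_left ((span_singleton_le_iff_mem _ _).2 hv) _).trans a
  have := hh_diff hV hN (sa_fg_span (hN.sub 1) v) le (i + 1)
  rwa [sa_hh_span v0, sa_hh_span v0, hh_sub, hh_sub] at this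

/-- a quotient of finite length bounds the difference of the sections -/
theorem hh_diff_le (hV : Mdl V) (hN : Fg V N) (hN' : Fg V N') (hle : N' ≤ᶠ[atTop] N) {δ : ℚ}
    (e : ∀ t, (hp N).eval t - (hp N').eval t = δ) (i : ℕ) :
    (hh V N i : ℚ) - hh V N' i ≤ δ := by
  have := sa_seq (u := fun i => (hh V N' i : ℚ) - hh V N i) (P := fun _ => -δ) (i₀ := i)
    (fun j _ => by
      have a : ((hh V N j + hh V N' (j + 1) : ℕ) : ℚ) ≤ (hh V N (j + 1) + hh V N' j : ℕ) := by
        exact_mod_cast hh_diff hV hN hN' hle j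
      push_cast at a
      linarith)
    (by
      filter_upwards [hh_ev hV hN, hh_ev hV hN'] with n a b
      rw [a, b, ← e n]
      ring)
  linarith

end

end Pool.Agent.Lib.MP_62d77c_ag.R
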